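import Pool.Agent.P.MP_8be758_nt.Pd.IfT

/-! Step FI. -/

namespace Pool.Agent.P.MP_8be758_nt.Pd

open Finset Real Filter
open Pool.Agent.P.MP_8be758_nt.Par (det)
open Pool.Agent.P.MP_8be758_nt.Avg (rho)
open Pool.Agent.P.MP_e86632_nt (ee)

open Pool.Agent.P.MP_e86632_nt (nn ee_add ee_int norm_ee ee_zero four_nn_le)

lemma FI_geom (θ : ℝ) {a b : ℤ} (h : a ≤ b) :
    (ee θ - 1) * ∑ m ∈ Ioc a b, ee (m * θ) = ee ((b + 1) * θ) - ee ((a + 1) * θ) := by
  induction b, h using Int.leInduction with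
  | base => simp
  | succ b hb ih =>
    rw [← insert_Ioc_right_eq_Ioc_add_one hb, sum_insert (by simp), mul_add, ih,
      show (((b + 1 : ℤ) : ℝ) + 1) * θ = θ + (b + 1) * θ by push_cast; ring, ee_add]
    push_cast
    ring

lemma FI_bd (θ : ℝ) {a b : ℤ} (h : a ≤ b) {t : ℝ} (h0 : 0 < t) (ht : t ≤ nn θ) :
    ‖∑ m ∈ Ioc a b, ee (m * θ)‖ ≤ 1 / t := by
  have h1 := congrArg norm (FI_geom θ h)
  have h2 := norm_sub_le (ee ((b + 1) * θ)) (ee ((a + 1) * θ))
  rw [norm_mul] at h1
  rw [norm_ee, norm_ee] at h2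
  rw [le_div_iff₀ h0]
  nlinarith [norm_nonneg (∑ m ∈ Ioc a b, ee (m * θ)), four_nn_le θ]

lemma FI_orth {q : ℕ} (hq : 0 < q) (d : ℤ) :
    ∑ k ∈ bx q, ee (k * (d / q)) = if (q : ℤ) ∣ d then (q : ℂ) else 0 := by
  have q0 : (q : ℝ) ≠ 0 := by positivity
  split_ifs with h
  · obtain ⟨e, rfl⟩ := h
    rw [sum_congr rfl fun k _ => (congrArg ee (by push_cast; field_simp)).trans (ee_int (k * e))]
    simp [bx]
  · have e := FI_geom (d / q) (a := -1) (b := q - 1) (by omega)
    rw [show (((q - 1 : ℤ) : ℝ) + 1) * (d / q) = d by push_cast; field_simp; ring,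
      show (((-1 : ℤ) : ℝ) + 1) * (d / q) = 0 by simp, ee_int, ee_zero, sub_self] at e
    rw [show bx q = Ioc (-1 : ℤ) (q - 1) by ext; simp [bx]; omega]
    refine (mul_eq_zero.1 e).resolve_left fun e => h ⟨round ((d : ℝ) / q), ?_⟩
    have := four_nn_le (d / q)
    rw [e, norm_zero, nn] at this
    have h1 := sub_eq_zero.1 (abs_nonpos_iff.1 (by linarith : |(d : ℝ) / q - round ((d : ℝ) / q)| ≤ 0))
    rw [div_eq_iff q0, mul_comm] at h1
    exact_mod_cast h1

theorem p_FI :
    S_FI := by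
  intro q a b hq h _
  have q0 : (0 : ℝ) < q := by positivity
  have q1 : (q : ℂ) ≠ 0 := by exact_mod_cast hq.ne'
  refine ⟨fun k => (∑ m ∈ Ioc a b, ee (m * (-k / q))) / q, fun x => ?_, ?_, fun k hk k0 => ?_⟩
  · have e : ∀ k m : ℤ, ee (m * (-k / q)) / q * ee (((k * x : ℤ) : ℝ) / q) =
        ee (k * ((x - m : ℤ) / q)) / q := fun k m => by
      rw [div_mul_eq_mul_div, ← ee_add]
      congr 2
      push_cast
      ring
    simp only [sum_div, sum_mul, e]
    rw [sum_comm, card_filter]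
    push_cast [-Int.cast_sub]
    refine sum_congr rfl fun m _ => ?_
    rw [← sum_div, FI_orth hq, ite_div, div_self q1, zero_div]
    exact if_congr Int.modEq_iff_dvd.symm rfl rfl
  · simp only [Int.cast_zero, neg_zero, zero_div, mul_zero, ee_zero, sum_const, nsmul_one]
    rw [← Int.cast_natCast, Int.card_Ioc_of_le _ _ h]
  · obtain ⟨k1, k2⟩ := mem_Ico.1 hk
    have k3 : (0 : ℝ) < k := by exact_mod_cast lt_of_le_of_ne k1 k0.symm
    have k4 : (0 : ℝ) < q - k := sub_pos.2 (by exact_mod_cast k2)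
    rw [norm_div, Complex.norm_natCast, div_le_iff₀ q0]
    rcases le_or_gt 0 (round (-(k : ℝ) / q)) with r | r
    · have r' : (0 : ℝ) ≤ round (-(k : ℝ) / q) := by exact_mod_cast r
      refine (FI_bd _ h (t := k / q) (by positivity) (le_abs.2 (.inr ?_))).trans ?_
      · rw [neg_div] at r' ⊢
        linarith
      · rw [one_div_div, add_mul, one_div_mul_eq_div]
        exact le_add_of_nonneg_right (by positivity)
    · have r' : (round (-(k : ℝ) / q) : ℝ) ≤ -1 := by exact_mod_cast Int.le_sub_one_of_lt r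
      refine (FI_bd _ h (t := (q - k) / q) (by positivity) (le_abs.2 (.inl ?_))).trans ?_
      · rw [sub_div, div_self q0.ne']
        rw [neg_div] at r' ⊢
        linarith
      · rw [one_div_div, add_mul, one_div_mul_eq_div, one_div_mul_eq_div]
        exact le_add_of_nonneg_left (by positivity)

end Pool.Agent.P.MP_8be758_nt.Pd
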