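import Pool.Agent.P.MP_8be758_nt.Pd.IfT
import Pool.Agent.P.MP_8be758_nt.Avg.FAR

/-! Step HYP. -/

namespace Pool.Agent.P.MP_8be758_nt.Pd

open Finset Real Filter
open Pool.Agent.P.MP_8be758_nt.Par (det)
open Pool.Agent.P.MP_8be758_nt.Avg (rho)
open Pool.Agent.P.MP_e86632_nt (ee)

theorem HYP_per {q : ℕ} (hq : 0 < q) (A : Finset ℤ) (f : ℤ → ℂ)
    (hf : ∀ x y, x ≡ y [ZMOD q] → f x = f y) :
    ∑ x ∈ A, f x = ∑ u ∈ bx q, ((A.filter fun x => x ≡ u [ZMOD q]).card : ℂ) * f u := by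
  have hq' : (0 : ℤ) < q := by exact_mod_cast hq
  rw [← sum_fiberwise_of_maps_to (s := A) (t := bx q) (g := fun x => x % q) fun x _ =>
    mem_Ico.2 ⟨Int.emod_nonneg _ hq'.ne', Int.emod_lt_of_pos _ hq'⟩]
  refine sum_congr rfl fun u hu => ?_
  have e : u % q = u := Int.emod_eq_of_lt (mem_Ico.1 hu).1 (mem_Ico.1 hu).2
  have : (A.filter fun x => x % q = u) = A.filter fun x => x ≡ u [ZMOD q] :=
    filter_congr fun x _ => by rw [Int.ModEq, e]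
  rw [this, sum_congr rfl fun x hx => hf x u (mem_filter.1 hx).2, sum_const, nsmul_eq_mul]

theorem HYP_inv {q : ℕ} (hq : 0 < q) (x : ℤ) :
    ∑ w ∈ bx q, (if x * w ≡ 1 [ZMOD q] then (1 : ℂ) else 0) = if Int.gcd x q = 1 then 1 else 0 := by
  have hq' : (0 : ℤ) < q := by exact_mod_cast hq
  split_ifs with h
  · obtain ⟨u, v, e⟩ := Int.isCoprime_iff_gcd_eq_one.2 h
    have h1 : x * (u % q) ≡ 1 [ZMOD q] :=
      ((Int.mod_modEq u q).mul_left x).trans (Int.modEq_iff_dvd.2 ⟨v, by linarith⟩)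
    rw [bx, sum_eq_single_of_mem (u % q)
      (mem_Ico.2 ⟨Int.emod_nonneg _ hq'.ne', Int.emod_lt_of_pos _ hq'⟩), if_pos h1]
    intro w hw hne
    rw [if_neg fun h2 => hne ?_]
    have h3 : w ≡ u % q [ZMOD q] := by
      have a1 := h2.mul_left (u % q)
      have a2 := h1.mul_left w
      rw [mul_one] at a1 a2
      exact a2.symm.trans ((show w * (x * (u % q)) = u % q * (x * w) by ring) ▸ a1)
    rw [Int.ModEq, Int.emod_eq_of_lt (mem_Ico.1 hw).1 (mem_Ico.1 hw).2, Int.emod_emod] at h3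
    exact h3
  · refine sum_eq_zero fun w _ => if_neg fun h2 => h ?_
    obtain ⟨v, e⟩ := Int.modEq_iff_dvd.1 h2
    exact Int.isCoprime_iff_gcd_eq_one.1 ⟨w, v, by linarith⟩

theorem HYP_gcd {q : ℕ} (hq : 0 < q) : ∑ k ∈ Ioo (0 : ℤ) q, (Int.gcd k q : ℝ) * (1 / k) ≤
    q.divisors.card * (1 + Real.log q) := by
  let φ : ℤ → ℕ × ℕ := fun k => (Int.gcd k q, k.natAbs / Int.gcd k q)
  have h1 : ∀ k ∈ Ioo (0 : ℤ) q, k = (φ k).1 * (φ k).2 := fun k hk => by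
    have := Nat.mul_div_cancel' (Nat.gcd_dvd_left k.natAbs (q : ℤ).natAbs)
    have h0 := (mem_Ioo.1 hk).1
    simp only [φ, Int.gcd]
    rw [← Nat.cast_mul, this]
    omega
  have h2 : ∀ k ∈ Ioo (0 : ℤ) q, φ k ∈ q.divisors ×ˢ Ioc 0 q := fun k hk => by
    obtain ⟨a, b⟩ := mem_Ioo.1 hk
    refine mem_product.2 ⟨Nat.mem_divisors.2 ⟨Nat.gcd_dvd_right k.natAbs q, hq.ne'⟩,
      mem_Ioc.2 ⟨Nat.pos_of_ne_zero fun e => ?_, (Nat.div_le_self _ _).trans (by omega)⟩⟩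
    have := h1 k hk
    rw [e] at this
    omega
  calc _ = ∑ k ∈ Ioo (0 : ℤ) q, 1 / ((φ k).2 : ℝ) := sum_congr rfl fun k hk => by
        have a : ((φ k).1 : ℝ) ≠ 0 := by
          exact_mod_cast (Nat.pos_of_mem_divisors (mem_product.1 (h2 k hk)).1).ne'
        have b : (k : ℝ) = (φ k).1 * (φ k).2 := by exact_mod_cast h1 k hk
        rw [b]
        show ((φ k).1 : ℝ) * _ = _
        field_simp
    _ = ∑ p ∈ (Ioo (0 : ℤ) q).image φ, 1 / (p.2 : ℝ) :=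
        (sum_image (f := fun p : ℕ × ℕ => 1 / (p.2 : ℝ)) fun k hk l hl e => by
          rw [h1 k hk, h1 l hl, e]).symm
    _ ≤ ∑ p ∈ q.divisors ×ˢ Ioc 0 q, 1 / (p.2 : ℝ) :=
        sum_le_sum_of_subset_of_nonneg (image_subset_iff.2 h2) fun _ _ _ => by positivity
    _ ≤ _ := by
        rw [sum_product]
        simp only [sum_const, nsmul_eq_mul]
        gcongr
        exact MP_e86632_nt.sum_inv_le q

theorem HYP_sum : ∃ C : ℝ, 1 ≤ C ∧ ∀ q : ℕ, 0 < q →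
    (q.divisors.card : ℝ) ≤ C * (q : ℝ) ^ (1 / 100 : ℝ) ∧ ∀ β : ℤ → ℂ,
      (∀ k ∈ bx q, k ≠ 0 → ‖β k‖ ≤ 1 / (k : ℝ) + 1 / ((q : ℝ) - k)) →
      ∑ k ∈ Ioo (0 : ℤ) q, ‖β k‖ * Int.gcd k q ≤ C * (q : ℝ) ^ (1 / 100 : ℝ) ∧
      (‖β 0‖ ≤ 1 → ∑ k ∈ bx q, ‖β k‖ ≤ C * (q : ℝ) ^ (1 / 100 : ℝ)) := by
  obtain ⟨C, hC, h⟩ := Avg.t_DIV (1 / 200) (by norm_num)
  refine ⟨402 * C + 1, by linarith, fun q hq => ?_⟩
  have hq1 : (1 : ℝ) ≤ q := by exact_mod_cast hq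
  have e : (q : ℝ) ^ (1 / 100 : ℝ) = (q : ℝ) ^ (1 / 200 : ℝ) * (q : ℝ) ^ (1 / 200 : ℝ) := by
    rw [← Real.rpow_add (by linarith)]; norm_num
  have h1 : 1 ≤ (q : ℝ) ^ (1 / 200 : ℝ) := Real.one_le_rpow hq1 (by norm_num)
  have h2 := Real.log_le_rpow_div (by linarith : (0 : ℝ) ≤ q) (by norm_num : (0 : ℝ) < 1 / 200)
  have h3 := h q
  rw [e]
  set t := (q : ℝ) ^ (1 / 200 : ℝ)
  have h4 : t ≤ t * t := by nlinarith
  have h5 : (q.divisors.card : ℝ) * (1 + Real.log q) ≤ C * t * (201 * t) :=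
    mul_le_mul h3 (by linarith) (by linarith [Real.log_nonneg hq1]) (by positivity)
  have h6 := mul_le_mul_of_nonneg_left h4 hC.le
  have h0 : 0 ≤ C * (t * t) := by positivity
  refine ⟨by nlinarith, fun β hβ => ?_⟩
  have h7 : ∑ k ∈ Ioo (0 : ℤ) q, ‖β k‖ * Int.gcd k q ≤ 402 * C * (t * t) := by
    have a : ∑ k ∈ Ioo (0 : ℤ) q, (Int.gcd k q : ℝ) * (1 / ((q : ℝ) - k)) =
        ∑ k ∈ Ioo (0 : ℤ) q, (Int.gcd k q : ℝ) * (1 / k) := by
      refine sum_nbij' (fun k => q - k) (fun k => q - k) ?_ ?_ ?_ ?_ fun k _ => ?_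
      iterate 2 intro k hk; simp only [mem_Ioo] at hk ⊢; omega
      iterate 2 intro k _; ring
      simp
    calc _ ≤ ∑ k ∈ Ioo (0 : ℤ) q, ((Int.gcd k q : ℝ) * (1 / k) +
          (Int.gcd k q : ℝ) * (1 / ((q : ℝ) - k))) := sum_le_sum fun k hk => by
          rw [← mul_add, mul_comm]
          exact mul_le_mul_of_nonneg_left (hβ k (mem_Ico.2 ⟨(mem_Ioo.1 hk).1.le, (mem_Ioo.1 hk).2⟩)
            (mem_Ioo.1 hk).1.ne') (by positivity)
      _ ≤ _ := by rw [sum_add_distrib, a]; linarith [HYP_gcd hq]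
  refine ⟨by nlinarith, fun hb => ?_⟩
  rw [bx, ← Ioo_insert_left (by exact_mod_cast hq), sum_insert (by simp)]
  have : ∑ k ∈ Ioo (0 : ℤ) q, ‖β k‖ ≤ ∑ k ∈ Ioo (0 : ℤ) q, ‖β k‖ * Int.gcd k q :=
    sum_le_sum fun k _ => le_mul_of_one_le_right (norm_nonneg _) (by
      exact_mod_cast Int.gcd_pos_of_ne_zero_right k (by exact_mod_cast hq.ne'))
  nlinarith

theorem p_HYP (hKL : S_KL) (hFI : S_FI) :
    S_HYP := by
  obtain ⟨C, hC, hS⟩ := HYP_sum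
  refine ⟨2 * C ^ 4, by positivity, fun q M a b c d hq hM hab h1 hcd h2 => ?_⟩
  have hM0 : 0 < M := Nat.pos_of_dvd_of_pos hM hq
  have hq1 : (1 : ℝ) ≤ q := by exact_mod_cast hq
  obtain ⟨α, a1, a2, a3⟩ := hFI q a b hq hab h1
  obtain ⟨β, b1, b2, b3⟩ := hFI q c d hq hcd h2
  obtain ⟨γ, c1, c2, c3⟩ := hFI M 0 1 hM0 (by norm_num) (by omega)
  obtain ⟨m, rfl⟩ := hM
  have c4 : ∀ x : ℤ, (if x ≡ 1 [ZMOD M] then (1 : ℂ) else 0) =
      ∑ j ∈ bx M, γ j * ee (((j * x : ℤ) : ℝ) / M) := fun x => by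
    rw [c1, show Ioc (0 : ℤ) 1 = {1} from rfl, filter_singleton]
    by_cases h : x ≡ 1 [ZMOD M]
    · simp [h, h.symm]
    · simp [h, mt Int.ModEq.symm h]
  set q := M * m with hqe
  have b4 : ∀ w : ℤ, (((Ioc c d).filter fun z => z ≡ w [ZMOD q]).card : ℂ) - β 0 =
      ∑ k ∈ Ioo (0 : ℤ) q, β k * ee (((k * w : ℤ) : ℝ) / q) := fun w => by
    rw [← b1, bx, ← Ioo_insert_left (by exact_mod_cast hq), sum_insert (by simp)]
    simp
  have key : (((Ioc a b ×ˢ Ioc c d).filter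
      fun v => v.1 * v.2 ≡ 1 [ZMOD q] ∧ v.1 ≡ 1 [ZMOD M]).card : ℂ) -
      β 0 * ((Ioc a b).filter fun x => Int.gcd x q = 1 ∧ x ≡ 1 [ZMOD M]).card =
      ∑ h ∈ bx q, ∑ j ∈ bx M, ∑ k ∈ Ioo (0 : ℤ) q, α h * γ j * β k * kl (h + j * m) k q := by
    have e1 : ∀ x : ℤ, ∑ z ∈ Ioc c d,
        (if x * z ≡ 1 [ZMOD q] ∧ x ≡ 1 [ZMOD M] then (1 : ℂ) else 0) -
        β 0 * (if Int.gcd x q = 1 ∧ x ≡ 1 [ZMOD M] then (1 : ℂ) else 0) =
        ∑ w ∈ bx q, if x * w ≡ 1 [ZMOD q] then (if x ≡ 1 [ZMOD M] then (1 : ℂ) else 0) *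
          ∑ k ∈ Ioo (0 : ℤ) q, β k * ee (((k * w : ℤ) : ℝ) / q) else 0 := fun x => by
      by_cases h : x ≡ 1 [ZMOD M]
      · simp only [h, and_true, if_true, one_mul]
        rw [← HYP_inv hq, HYP_per hq (Ioc c d) _ fun y z e => if_congr
          ⟨(e.mul_left x).symm.trans, (e.mul_left x).trans⟩ rfl rfl, mul_sum, ← sum_sub_distrib]
        refine sum_congr rfl fun w _ => ?_
        rw [← sub_mul, b4]
        simp
      · simp [h]
    rw [card_filter, card_filter]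
    push_cast
    rw [sum_product, mul_sum, ← sum_sub_distrib, sum_congr rfl fun x _ => e1 x,
      HYP_per hq _ _ fun x y e => sum_congr rfl fun w _ => if_congr
        ⟨(e.mul_right w).symm.trans, (e.mul_right w).trans⟩ (by
          have e' : x ≡ y [ZMOD M] := e.of_dvd ⟨m, by exact_mod_cast hqe⟩
          rw [if_congr ⟨e'.symm.trans, e'.trans⟩ rfl rfl]) rfl]
    simp only [← a1, kl, mul_sum]
    have e2 : ∀ F : ℤ × ℤ → ℂ, ∑ v ∈ MH q, F v =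
        ∑ u ∈ bx q, ∑ w ∈ bx q, if u * w ≡ 1 [ZMOD q] then F (u, w) else 0 := fun F => by
      rw [MH, sum_filter, sum_product]
    have e3 : ∀ F : ℤ → ℤ → ℤ → ℤ × ℤ → ℂ,
        ∑ h ∈ bx q, ∑ j ∈ bx M, ∑ k ∈ Ioo (0 : ℤ) q, ∑ v ∈ MH q, F h j k v =
        ∑ v ∈ MH q, ∑ h ∈ bx q, ∑ j ∈ bx M, ∑ k ∈ Ioo (0 : ℤ) q, F h j k v := fun F => by
      rw [sum_comm (s := MH q)]
      refine sum_congr rfl fun h _ => ?_
      rw [sum_comm (s := MH q)]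
      exact sum_congr rfl fun j _ => sum_comm
    rw [e3, e2]
    refine sum_congr rfl fun u _ => sum_congr rfl fun w _ => ?_
    by_cases h : u * w ≡ 1 [ZMOD q]
    swap
    · rw [if_neg h, if_neg h, mul_zero]
    rw [if_pos h, if_pos h, ← mul_sum, c4, sum_mul_sum, sum_mul]
    refine sum_congr rfl fun h _ => ?_
    rw [mul_sum]
    refine sum_congr rfl fun j _ => ?_
    rw [mul_sum]
    refine sum_congr rfl fun k _ => ?_
    have hm : (m : ℝ) ≠ 0 := by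
      rintro e
      have : m = 0 := by exact_mod_cast e
      simp [hqe, this] at hq
    have : ((((h + j * m) * u + k * w : ℤ) : ℝ) / q) =
        ((h * u : ℤ) : ℝ) / q + ((j * u : ℤ) : ℝ) / M + ((k * w : ℤ) : ℝ) / q := by
      rw [hqe]
      push_cast
      field_simp
    rw [this, MP_e86632_nt.ee_add, MP_e86632_nt.ee_add]
    ring
  have hk : ∀ h k : ℤ, ‖kl h k q‖ ≤ 2 * (q : ℝ) ^ (3 / 4 : ℝ) * q.divisors.card * Int.gcd k q :=
    fun h k => by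
      refine le_of_pow_le_pow_left₀ (by norm_num : 4 ≠ 0) (by positivity) ((hKL h k q hq).trans ?_)
      have g1 : (1 : ℝ) ≤ Int.gcd k q := by
        exact_mod_cast Int.gcd_pos_of_ne_zero_right k (by exact_mod_cast hq.ne')
      rw [mul_pow, mul_pow, mul_pow, ← Real.rpow_natCast ((q : ℝ) ^ _),
        ← Real.rpow_mul (by positivity), show (3 / 4 * (4 : ℕ) : ℝ) = (3 : ℕ) by norm_num,
        Real.rpow_natCast]
      gcongr
      · norm_num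
      · exact le_self_pow₀ g1 (by norm_num)
  have n0 : ∀ (r : ℕ) (x : ℤ), 0 < r → 0 ≤ x → x ≤ r → ‖(x : ℂ) / r‖ ≤ 1 := fun r x h0 h1 h2 => by
    rw [norm_div, Complex.norm_intCast, Complex.norm_natCast, div_le_one (by exact_mod_cast h0),
      abs_of_nonneg (by exact_mod_cast h1)]
    exact_mod_cast h2
  have s1 := ((hS q hq).2 α a3).2 (a2 ▸ n0 q _ hq (by omega) h1)
  have s2 := ((hS q hq).2 β b3).1
  have s3 : ∑ j ∈ bx M, ‖γ j‖ ≤ C * (q : ℝ) ^ (1 / 100 : ℝ) :=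
    (((hS M hM0).2 γ c3).2 (c2 ▸ n0 M _ hM0 (by omega) (by omega))).trans (by
      gcongr
      exact Nat.le_of_dvd hq ⟨m, hqe⟩)
  have s4 := (hS q hq).1
  rw [← Real.norm_eq_abs, ← Complex.norm_real]
  rw [b2] at key
  push_cast at key ⊢
  rw [key]
  calc _ ≤ ∑ h ∈ bx q, ∑ j ∈ bx M, ∑ k ∈ Ioo (0 : ℤ) q, ‖α h‖ * (‖γ j‖ * (‖β k‖ * Int.gcd k q)) *
        (2 * (q : ℝ) ^ (3 / 4 : ℝ) * q.divisors.card) := by
        refine norm_sum_le_of_le _ fun h _ => norm_sum_le_of_le _ fun j _ =>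
          norm_sum_le_of_le _ fun k _ => ?_
        rw [norm_mul, norm_mul, norm_mul]
        exact (mul_le_mul_of_nonneg_left (hk _ k) (by positivity)).trans_eq (by ring)
    _ = (∑ h ∈ bx q, ‖α h‖) * ((∑ j ∈ bx M, ‖γ j‖) * ∑ k ∈ Ioo (0 : ℤ) q, ‖β k‖ * Int.gcd k q) *
        (2 * (q : ℝ) ^ (3 / 4 : ℝ) * q.divisors.card) := by
        simp only [← sum_mul, ← mul_sum]
    _ ≤ (C * (q : ℝ) ^ (1 / 100 : ℝ)) * ((C * (q : ℝ) ^ (1 / 100 : ℝ)) *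
        (C * (q : ℝ) ^ (1 / 100 : ℝ))) *
        (2 * (q : ℝ) ^ (3 / 4 : ℝ) * (C * (q : ℝ) ^ (1 / 100 : ℝ))) := by
        gcongr
    _ = 2 * C ^ 4 * (q : ℝ) ^ (1 / 100 + 1 / 100 + 1 / 100 + 1 / 100 + 3 / 4 : ℝ) := by
        simp only [Real.rpow_add (show (0 : ℝ) < q by linarith)]
        ring
    _ ≤ _ := by
        gcongr
        norm_num

end Pool.Agent.P.MP_8be758_nt.Pd
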