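import Pool.Agent.P.MP_8be758_nt.Pd.IfT

/-! Step KL. -/

namespace Pool.Agent.P.MP_8be758_nt.Pd

open Finset Real Filter
open Pool.Agent.P.MP_8be758_nt.Par (det)
open Pool.Agent.P.MP_8be758_nt.Avg (rho)
open Pool.Agent.P.MP_e86632_nt (ee)

/-- Kloosterman sums with residue classes as arguments -/
noncomputable def KL_K (q : ℕ) [NeZero q] (p : ZMod q × ZMod q) : ℂ :=
  ∑ v ∈ MH q, ZMod.stdAddChar (p.1 * (v.1 : ZMod q) + p.2 * (v.2 : ZMod q) : ZMod q)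

theorem KL_units (q : ℕ) [NeZero q] (f : ZMod q → ZMod q → ℂ) :
    ∑ v ∈ MH q, f v.1 v.2 = ∑ w : (ZMod q)ˣ, f w (w⁻¹ : (ZMod q)ˣ) := by
  symm
  have hb : ∀ x : ZMod q, (x.val : ℤ) ∈ bx q := fun x =>
    mem_Ico.2 ⟨by positivity, by exact_mod_cast x.val_lt⟩
  refine sum_bij (fun w _ => ((w.val.val : ℤ), (w⁻¹.val.val : ℤ))) (fun w _ => ?_)
    (fun w _ w' _ e => ?_) (fun v hv => ?_) fun w _ => by simp
  · refine mem_filter.2 ⟨mem_product.2 ⟨hb _, hb _⟩, (ZMod.intCast_eq_intCast_iff _ _ _).1 ?_⟩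
    simp
  · exact Units.ext (ZMod.val_injective q (Int.natCast_inj.1 (Prod.ext_iff.1 e).1))
  · obtain ⟨h1, h2⟩ := mem_filter.1 hv
    obtain ⟨h3, h4⟩ := mem_product.1 h1
    have h5 : (v.1 : ZMod q) * v.2 = 1 := by
      simpa using (ZMod.intCast_eq_intCast_iff _ _ _).2 h2
    have hv : ∀ x ∈ bx q, ((x : ZMod q).val : ℤ) = x := fun x hx => by
      rw [ZMod.val_intCast, Int.emod_eq_of_lt (mem_Ico.1 hx).1 (mem_Ico.1 hx).2]
    exact ⟨⟨_, _, h5, (mul_comm _ _).trans h5⟩, mem_univ _, Prod.ext (hv _ h3) (hv _ h4)⟩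

theorem KL_inv (q : ℕ) [NeZero q] (a b : ZMod q) (u : (ZMod q)ˣ) :
    KL_K q (a * u, b * (u⁻¹ : (ZMod q)ˣ)) = KL_K q (a, b) := by
  unfold KL_K
  rw [KL_units q fun x y => ZMod.stdAddChar (a * u.val * x + b * u⁻¹.val * y),
    KL_units q fun x y => ZMod.stdAddChar (a * x + b * y)]
  exact Fintype.sum_equiv (Equiv.mulLeft u) _ _ fun w => by
    simp [mul_assoc, mul_comm (w⁻¹ : (ZMod q)ˣ).val]

theorem KL_four (q : ℕ) [NeZero q] : ∑ p : ZMod q × ZMod q, ‖KL_K q p‖ ^ 4 = (q : ℝ) ^ 2 *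
    #{r ∈ (MH q ×ˢ MH q) ×ˢ (MH q ×ˢ MH q) | r.1.1.1 + r.1.2.1 ≡ r.2.1.1 + r.2.2.1 [ZMOD q] ∧
      r.1.1.2 + r.1.2.2 ≡ r.2.1.2 + r.2.2.2 [ZMOD q]} := by
  refine Complex.ofReal_injective ?_
  have h1 : ∀ p, ((‖KL_K q p‖ ^ 4 : ℝ) : ℂ) = ∑ r ∈ (MH q ×ˢ MH q) ×ˢ (MH q ×ˢ MH q),
      ZMod.stdAddChar (p.1 * (((r.1.1.1 + r.1.2.1 : ℤ) : ZMod q) - Int.cast (r.2.1.1 + r.2.2.1))) *
        ZMod.stdAddChar (p.2 * (((r.1.1.2 + r.1.2.2 : ℤ) : ZMod q) - Int.cast (r.2.1.2 + r.2.2.2))) :=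
    fun p => by
    have : ((‖KL_K q p‖ ^ 4 : ℝ) : ℂ) = (KL_K q p * KL_K q p) *
        ((starRingEnd ℂ) (KL_K q p) * (starRingEnd ℂ) (KL_K q p)) := by
      rw [mul_mul_mul_comm, Complex.mul_conj']; push_cast; ring
    rw [this, KL_K, map_sum, sum_mul_sum, sum_mul_sum, ← sum_product', ← sum_product', sum_mul_sum,
      ← sum_product']
    refine sum_congr rfl fun r _ => ?_
    simp only [← AddChar.map_neg_eq_conj, ← AddChar.map_add_eq_mul]
    congr 1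
    push_cast
    ring
  rw [Complex.ofReal_sum]
  simp only [h1]
  rw [sum_comm, card_filter]
  push_cast [mul_sum]
  refine sum_congr rfl fun r _ => ?_
  rw [Fintype.sum_prod_type]
  simp only [← ZMod.intCast_eq_intCast_iff]
  rw [← sum_mul_sum, AddChar.sum_mulShift _ (ZMod.isPrimitive_stdAddChar q),
    AddChar.sum_mulShift _ (ZMod.isPrimitive_stdAddChar q)]
  simp only [sub_eq_zero, ZMod.card, Int.cast_add]
  split_ifs <;> simp_all [sq]

theorem KL_fib (q : ℕ) [NeZero q] (h k : ℤ) (p : ZMod q × ZMod q) :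
    #{u : (ZMod q)ˣ | ((h : ZMod q) * u, (k : ZMod q) * (u⁻¹ : (ZMod q)ˣ)) = p} ≤ Int.gcd k q := by
  rcases eq_empty_or_nonempty
    {u : (ZMod q)ˣ | ((h : ZMod q) * u, (k : ZMod q) * (u⁻¹ : (ZMod q)ˣ)) = p} with e | ⟨u0, h0⟩
  · simp [e]
  have h1 := IsAddCyclic.card_nsmulAddMonoidHom_ker (ZMod q) k.natAbs
  rw [Nat.card_zmod, Nat.gcd_comm, Nat.card_eq_fintype_card, Fintype.card_subtype] at h1
  refine le_trans (card_le_card_of_injOn (fun u => u⁻¹.val - u0⁻¹.val) (fun u hu => ?_)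
    fun u _ u' _ e => inv_injective (Units.ext (sub_left_injective e))) h1.le
  have h2 := ((Prod.ext_iff.1 (mem_filter.1 hu).2).2.trans (Prod.ext_iff.1 (mem_filter.1 h0).2).2.symm)
  refine mem_filter.2 ⟨mem_univ _, ?_⟩
  rw [AddMonoidHom.mem_ker, nsmulAddMonoidHom_apply, natAbs_nsmul_eq_zero, zsmul_eq_mul, mul_sub,
    sub_eq_zero]
  exact h2

theorem p_KL (hKL4 : S_KL4) :
    S_KL := by
  intro h k q hq
  have : NeZero q := ⟨hq.ne'⟩
  have e : kl h k q = KL_K q (h, k) := sum_congr rfl fun v _ => by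
    rw [← Int.cast_mul, ← Int.cast_mul, ← Int.cast_add, ZMod.stdAddChar_coe, ee]
    congr 1
    push_cast
    ring
  have h1 : (q.totient : ℝ) * ‖KL_K q (h, k)‖ ^ 4 ≤
      Int.gcd k q * ∑ p : ZMod q × ZMod q, ‖KL_K q p‖ ^ 4 := by
    calc _ = ∑ u : (ZMod q)ˣ, ‖KL_K q ((h : ZMod q) * u, (k : ZMod q) * (u⁻¹ : (ZMod q)ˣ))‖ ^ 4 := by
          simp only [KL_inv, sum_const, card_univ, ZMod.card_units_eq_totient, nsmul_eq_mul]
      _ ≤ _ := by
        rw [sum_comp (fun p => ‖KL_K q p‖ ^ 4), mul_sum]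
        refine (sum_le_sum fun p _ => ?_).trans
          (sum_le_sum_of_subset_of_nonneg (subset_univ _) fun _ _ _ => by positivity)
        rw [nsmul_eq_mul]
        exact mul_le_mul_of_nonneg_right (by exact_mod_cast KL_fib q h k p) (by positivity)
  have h2 : (q : ℝ) ≤ q.divisors.card * q.totient := by
    have := sum_le_card_nsmul q.divisors Nat.totient q.totient fun d hd =>
      Nat.le_of_dvd (Nat.totient_pos.2 hq) (Nat.totient_dvd_of_dvd (Nat.dvd_of_mem_divisors hd))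
    rw [Nat.sum_totient] at this
    exact_mod_cast this
  have h3 : (_ : ℝ) ≤ _ := Nat.cast_le.2 (hKL4 q hq)
  have q0 : (0 : ℝ) < q := by exact_mod_cast hq
  rw [KL_four] at h1
  push_cast at h3
  rw [e]
  refine le_of_mul_le_mul_left ?_ q0
  calc _ ≤ q.divisors.card * (q.totient * ‖KL_K q (h, k)‖ ^ 4) := by
        rw [← mul_assoc]; gcongr
    _ ≤ q.divisors.card * (Int.gcd k q * ((q : ℝ) ^ 2 * (2 * q ^ 2 * q.divisors.card ^ 3))) := by
        refine mul_le_mul_of_nonneg_left (h1.trans ?_) (by positivity)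
        gcongr
    _ = _ := by ring

end Pool.Agent.P.MP_8be758_nt.Pd
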