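import Pool.Agent.P.MP_8be758_nt.Pd.IfT

/-! Step KL4. -/

namespace Pool.Agent.P.MP_8be758_nt.Pd

open Finset Real Filter
open Pool.Agent.P.MP_8be758_nt.Par (det)
open Pool.Agent.P.MP_8be758_nt.Avg (rho)
open Pool.Agent.P.MP_e86632_nt (ee)

/-- residues divisible by `d` -/
noncomputable def KL4_m (q d : ℕ) : Finset ℤ := (bx q).filter fun a => (d : ℤ) ∣ a

theorem KL4_cnt {q d e : ℕ} (hq : 0 < q) (h : q = d * e) : (KL4_m q d).card ≤ e := by
  have hd : (0 : ℤ) < d := by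
    have : 0 < d := Nat.pos_of_mul_pos_right (h ▸ hq)
    exact_mod_cast this
  have : KL4_m q d ⊆ (bx e).image fun k => (d : ℤ) * k := by
    intro a ha
    obtain ⟨h1, k, rfl⟩ := mem_filter.1 ha
    simp only [bx, mem_Ico, h] at h1
    push_cast at h1
    refine mem_image.2 ⟨k, ?_, rfl⟩
    simp only [bx, mem_Ico]
    exact ⟨nonneg_of_mul_nonneg_right h1.1 hd, lt_of_mul_lt_mul_left h1.2 hd.le⟩
  refine (card_le_card this).trans (card_image_le.trans ?_)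
  simp [bx]

theorem KL4_mem {q d : ℕ} (hq : 0 < q) (h : d ∣ q) {a : ℤ} (ha : d ∣ a.natAbs) :
    a % q ∈ KL4_m q d := by
  have hq' : (0 : ℤ) < q := by exact_mod_cast hq
  refine mem_filter.2 ⟨mem_Ico.2 ⟨Int.emod_nonneg _ hq'.ne', Int.emod_lt_of_pos _ hq'⟩, ?_⟩
  rw [Int.emod_def]
  exact dvd_sub (Int.natCast_dvd.2 ha) ((Int.natCast_dvd_natCast.2 h).mul_right _)

theorem KL4_eq {q : ℕ} {x y : ℤ} (hx : x ∈ bx q) (hy : y ∈ bx q) (h : x ≡ y [ZMOD q]) : x = y := by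
  simp only [bx, mem_Ico] at hx hy
  have := h.dvd
  have := Int.eq_zero_of_abs_lt_dvd this (abs_lt.2 ⟨by linarith, by linarith⟩)
  linarith

theorem KL4_eq2 {q : ℕ} {v w : V2} (hv : v ∈ MH q) (hw : w ∈ MH q) (h : v.1 ≡ w.1 [ZMOD q]) :
    v = w := by
  simp only [MH, mem_filter, mem_product] at hv hw
  refine Prod.ext (KL4_eq hv.1.1 hw.1.1 h) (KL4_eq hv.1.2 hw.1.2 ?_)
  have a := (ZMod.intCast_eq_intCast_iff _ _ _).2 hv.2
  have b := (ZMod.intCast_eq_intCast_iff _ _ _).2 hw.2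
  have c := (ZMod.intCast_eq_intCast_iff _ _ _).2 h
  rw [← ZMod.intCast_eq_intCast_iff]
  push_cast at a b ⊢
  linear_combination (w.2 : ZMod q) * a - (v.2 : ZMod q) * b - (v.2 : ZMod q) * (w.2 : ZMod q) * c

theorem KL4_dvd {q : ℕ} {v1 v2 v3 v4 : V2} (h1 : v1 ∈ MH q) (h2 : v2 ∈ MH q) (h3 : v3 ∈ MH q)
    (h4 : v4 ∈ MH q) (e1 : v1.1 + v2.1 ≡ v3.1 + v4.1 [ZMOD q])
    (e2 : v1.2 + v2.2 ≡ v3.2 + v4.2 [ZMOD q]) :
    (q : ℤ) ∣ (v1.1 + v2.1) * (v3.1 - v1.1) * (v3.1 - v2.1) := by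
  have a1 := (ZMod.intCast_eq_intCast_iff _ _ _).2 (mem_filter.1 h1).2
  have a2 := (ZMod.intCast_eq_intCast_iff _ _ _).2 (mem_filter.1 h2).2
  have a3 := (ZMod.intCast_eq_intCast_iff _ _ _).2 (mem_filter.1 h3).2
  have a4 := (ZMod.intCast_eq_intCast_iff _ _ _).2 (mem_filter.1 h4).2
  have b1 := (ZMod.intCast_eq_intCast_iff _ _ _).2 e1
  have b2 := (ZMod.intCast_eq_intCast_iff _ _ _).2 e2
  rw [← ZMod.intCast_zmod_eq_zero_iff_dvd]
  push_cast at a1 a2 a3 a4 b1 b2 ⊢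
  generalize (v1.1 : ZMod q) = x1 at *
  generalize (v2.1 : ZMod q) = x2 at *
  generalize (v3.1 : ZMod q) = x3 at *
  generalize (v4.1 : ZMod q) = x4 at *
  generalize (v1.2 : ZMod q) = z1 at *
  generalize (v2.2 : ZMod q) = z2 at *
  generalize (v3.2 : ZMod q) = z3 at *
  generalize (v4.2 : ZMod q) = z4 at *
  have c1 : x1 * x2 * (z1 + z2) = x1 + x2 := by linear_combination x2 * a1 + x1 * a2
  have c2 : x3 * x4 * (z3 + z4) = x3 + x4 := by linear_combination x4 * a3 + x3 * a4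
  obtain rfl : x4 = x1 + x2 - x3 := by linear_combination -b1
  linear_combination x3 * (x1 + x2 - x3) * c1 - x1 * x2 * c2 - x1 * x2 * x3 * (x1 + x2 - x3) * b2

theorem p_KL4 :
    S_KL4 := by
  intro q hq
  let I : Finset (ℕ × ℕ) := (q.divisors ×ˢ q.divisors).filter fun p => p.1 * p.2 ∣ q
  let B : Finset (ℤ × ℤ × ℤ) :=
    I.biUnion fun p => KL4_m q p.1 ×ˢ KL4_m q p.2 ×ˢ KL4_m q (q / (p.1 * p.2))
  have hB : B.card ≤ q.divisors.card ^ 2 * q ^ 2 := by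
    refine (card_biUnion_le_card_mul _ _ (q ^ 2) ?_).trans (Nat.mul_le_mul_right _ ?_)
    · intro p hp
      obtain ⟨-, e, he⟩ := mem_filter.1 hp
      have h0 : 0 < p.1 * p.2 := Nat.pos_of_mul_pos_right (he ▸ hq)
      have h1 : q / (p.1 * p.2) = e := by rw [he, Nat.mul_div_cancel_left _ h0]
      rw [card_product, card_product, h1]
      calc _ ≤ (p.2 * e) * ((p.1 * e) * (p.1 * p.2)) :=
            Nat.mul_le_mul (KL4_cnt hq (by rw [he]; ring))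
              (Nat.mul_le_mul (KL4_cnt hq (by rw [he]; ring)) (KL4_cnt hq (by rw [he]; ring)))
        _ = q ^ 2 := by rw [he]; ring
    · exact (card_filter_le _ _).trans (by rw [card_product, sq])
  have hτ : 1 ≤ q.divisors.card := card_pos.2 ⟨1, Nat.one_mem_divisors.2 hq.ne'⟩
  refine le_trans (card_le_card_of_injOn (t := B ×ˢ (univ : Finset Bool))
    (fun r => (((r.1.1.1 + r.1.2.1) % q, (r.2.1.1 - r.1.1.1) % q, (r.2.1.1 - r.1.2.1) % q),
      decide (2 * r.2.1.1 < q))) ?_ ?_) ?_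
  · intro r hr
    simp only [coe_filter, mem_product, Set.mem_ofPred_eq] at hr
    obtain ⟨⟨⟨h1, h2⟩, h3, h4⟩, e1, e2⟩ := hr
    have h := Int.natCast_dvd.1 (KL4_dvd h1 h2 h3 h4 e1 e2)
    rw [Int.natAbs_mul, Int.natAbs_mul] at h
    obtain ⟨d12, d3, k12, k3, f⟩ := Nat.dvd_mul.1 h
    obtain ⟨d1, d2, k1, k2, rfl⟩ := Nat.dvd_mul.1 k12
    have g1 : d1 ∣ q := ⟨d2 * d3, by rw [← f]; ring⟩
    have g2 : d2 ∣ q := ⟨d1 * d3, by rw [← f]; ring⟩
    have g3 : d3 ∣ q := ⟨d1 * d2, by rw [← f]; ring⟩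
    have h0 : 0 < d1 * d2 := Nat.pos_of_mul_pos_right (f.symm ▸ hq)
    have g4 : q / (d1 * d2) = d3 := by rw [← f, Nat.mul_div_cancel_left _ h0]
    refine mem_coe.2 (mem_product.2 ⟨mem_biUnion.2 ⟨(d1, d2), ?_, ?_⟩, mem_univ _⟩)
    · exact mem_filter.2 ⟨mem_product.2 ⟨Nat.mem_divisors.2 ⟨g1, hq.ne'⟩,
        Nat.mem_divisors.2 ⟨g2, hq.ne'⟩⟩, ⟨d3, f.symm⟩⟩
    · simp only [mem_product, g4]
      exact ⟨KL4_mem hq g1 k1, KL4_mem hq g2 k2, KL4_mem hq g3 k3⟩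
  · intro r hr s hs e
    simp only [coe_filter, mem_product, Set.mem_ofPred_eq] at hr hs
    obtain ⟨⟨⟨h1, h2⟩, h3, h4⟩, e1, -⟩ := hr
    obtain ⟨⟨⟨k1, k2⟩, k3, k4⟩, f1, -⟩ := hs
    simp only [Prod.mk.injEq, decide_eq_decide] at e
    obtain ⟨⟨a1, a2, a3⟩, a4⟩ := e
    have b1 := Int.ModEq.dvd a1
    have b2 := Int.ModEq.dvd a2
    have b3 := Int.ModEq.dvd a3
    have c3 : r.2.1.1 = s.2.1.1 := by
      have m1 := (mem_product.1 (mem_filter.1 h3).1).1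
      have m2 := (mem_product.1 (mem_filter.1 k3).1).1
      simp only [bx, mem_Ico] at m1 m2
      have : (q : ℤ) ∣ 2 * s.2.1.1 - 2 * r.2.1.1 := by
        exact (dvd_add (dvd_add b1 b2) b3).trans (dvd_of_eq (by ring))
      have := Int.eq_zero_of_abs_lt_dvd this (abs_lt.2 (by
        by_cases c : 2 * r.2.1.1 < q
        · have := a4.1 c
          constructor <;> linarith
        · have := mt a4.2 c
          constructor <;> linarith))
      linarith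
    have c1 : r.1.1 = s.1.1 := KL4_eq2 h1 k1 (Int.modEq_iff_dvd.2
      (b2.neg_right.trans (dvd_of_eq (by rw [c3]; ring))))
    have c2 : r.1.2 = s.1.2 := KL4_eq2 h2 k2 (Int.modEq_iff_dvd.2
      (b3.neg_right.trans (dvd_of_eq (by rw [c3]; ring))))
    have c4 : r.2.2 = s.2.2 := KL4_eq2 h4 k4 (Int.modEq_iff_dvd.2
      ((dvd_sub f1.dvd e1.dvd).trans (dvd_of_eq (by rw [c1, c2, c3]; ring))))
    exact Prod.ext (Prod.ext c1 c2) (Prod.ext (KL4_eq2 h3 k3 (by rw [c3])) c4)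
  · rw [card_product, card_univ, Fintype.card_bool]
    calc _ ≤ q.divisors.card ^ 3 * q ^ 2 * 2 := Nat.mul_le_mul_right _ (hB.trans
          (Nat.mul_le_mul_right _ (Nat.pow_le_pow_right hτ (by norm_num))))
      _ = _ := by ring

end Pool.Agent.P.MP_8be758_nt.Pd
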