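import Pool.Agent.P.MP_8be758_nt.Pd.IfP

/-! Step PR2. -/

namespace Pool.Agent.P.MP_8be758_nt.Pd.G

open Finset Real Filter
open Pool.Agent.P.MP_8be758_nt.Par (nq mul cj det io et)
open Pool.Agent.P.MP_8be758_nt.Avg (rho)
open Pool.Agent.P.MP_8be758_nt.Pd.Mr

theorem PR2_dv {A p m : ℕ} (hp : p ∣ m) (g : V2) {v w : V2} (h : C2 m v w) :
    Dv A p g v ↔ Dv A p g w := by
  obtain ⟨h1, h2⟩ := h
  have hd : (p : ℤ) ∣ m := Int.natCast_dvd_natCast.2 hp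
  have e1 : (mul A g v).1 ≡ (mul A g w).1 [ZMOD m] := by simp only [mul]; gcongr
  have e2 : (mul A g v).2 ≡ (mul A g w).2 [ZMOD m] := by simp only [mul]; gcongr
  exact and_congr (e1.of_dvd hd).dvd_iff (e2.of_dvd hd).dvd_iff

theorem PR2_sq (f a b : ℂ) : ‖a - b‖ ^ 2 ≤ 2 * ‖f - a‖ ^ 2 + 2 * ‖f - b‖ ^ 2 := by
  have h : ‖a - b‖ ≤ ‖f - b‖ + ‖f - a‖ := by
    rw [show a - b = (f - b) - (f - a) by ring]
    exact norm_sub_le _ _
  nlinarith [norm_nonneg (a - b), sq_nonneg (‖f - b‖ - ‖f - a‖), norm_nonneg (f - a),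
    norm_nonneg (f - b)]

theorem p_PR2 (hPRA : S_PRA) (hPRB : S_PRB) (hPES : S_PES) (hGRAM : S_GRAM) :
    S_PR2 := by
  intro A hA
  obtain ⟨c, X1, hc, ha⟩ := hPRA A hA
  obtain ⟨κ, C0, hκ, hκ2, hC0, he⟩ := hPES A 1 hA
  refine ⟨c, κ, 8 * C0, max X1 1, hc, hκ, hκ2, by positivity,
    fun {_} X σ p q U d hX H hCs hH hQ hp hq hb hU => ?_⟩
  have X1' : X1 ≤ X := (le_max_left _ _).trans hX
  have hX1 : 1 ≤ X := (le_max_right _ _).trans hX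
  have hQ1 := H.one_le_Q
  have hS : 0 ≤ ∑ k ∈ U, ‖d k‖ ^ 2 := sum_nonneg fun _ _ => by positivity
  rcases eq_or_ne p q with rfl | hpq
  · simp only [sub_self, norm_zero, ne_eq, OfNat.ofNat_ne_zero, not_false_eq_true, zero_pow,
      mul_zero, sum_const_zero]
    have := dis_nonneg (A := A) ((VX A X).filter fun v => Dv A p (cj (σ.γ p)) v) U d
    positivity
  have pQ := (H.2.2.2.2.2 p hp).2.2.1
  have qQ := (H.2.2.2.2.2 q hq).2.2.1
  have pp := (H.gp hp).1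
  have qp := (H.gp hq).1
  have p0 : (0 : ℝ) < p := by exact_mod_cast pp.pos
  have q0 : (0 : ℝ) < q := by exact_mod_cast qp.pos
  have hG := ha X p q (cj (σ.γ p)) (σ.γ q) X1' pp qp hpq (pQ.trans hQ) (qQ.trans hQ)
    (by rw [Par.nq_cj]; exact H.dvd_nq hp) (H.not_dvd_cj hp) (H.dvd_nq hq) (H.not_dvd hq)
  set G := (VV (Q0 A) (6 / 5 * X) (8 / 5 * X)).filter fun v =>
    Dv A p (cj (σ.γ p)) v ∧ ¬Dv A q (σ.γ q) v with hGd
  have mG : ∀ v ∈ G, (Pr v ∧ 6 / 5 * X < (nq A v : ℝ) ∧ (nq A v : ℝ) ≤ 8 / 5 * X) ∧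
      Dv A p (cj (σ.γ p)) v ∧ ¬Dv A q (σ.γ q) v := fun v hv => by
    rw [hGd, mem_filter, mem_VV0 hA] at hv
    exact hv
  obtain ⟨φ, hinj, hφ⟩ := hPRB A σ p q hA H hCs hp hq
  set d' : ℤ → ℂ := fun k =>
    d k * (1 - ek A k (σ.γ q) * (starRingEnd ℂ) (ek A k (σ.γ p))) with hd'
  have n1 : ∀ k, ‖ek A k (σ.γ p)‖ = 1 := fun k => norm_ek hA k (H.ne hp)
  have n2 : ∀ k, ‖ek A k (σ.γ q)‖ = 1 := fun k => norm_ek hA k (H.ne hq)
  have nd : ∀ k, ‖d' k‖ ^ 2 = ‖d k‖ ^ 2 * ‖ek A k (σ.γ p) - ek A k (σ.γ q)‖ ^ 2 := fun k => by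
    rw [hd']
    simp only
    rw [norm_mul, norm_sub_rev, norm_mul_conj_sub (n1 k), norm_sub_rev, mul_pow]
  have nd4 : ∑ k ∈ U, ‖d' k‖ ^ 2 ≤ 4 * ∑ k ∈ U, ‖d k‖ ^ 2 := by
    rw [mul_sum]
    refine sum_le_sum fun k _ => ?_
    have := norm_sub_le (ek A k (σ.γ p)) (ek A k (σ.γ q))
    rw [n1, n2] at this
    have h2 := pow_le_pow_left₀ (norm_nonneg _) this 2
    rw [nd]
    nlinarith [sq_nonneg ‖d k‖]
  have hPhi : ∀ v ∈ G, Phi A U d' v = Phi A U d v - Phi A U d (φ v) := fun v hv => by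
    obtain ⟨⟨a1, -⟩, a2, a3⟩ := mG v hv
    rw [Phi, Phi, Phi, ← sum_sub_distrib]
    refine sum_congr rfl fun k _ => ?_
    have e1 := (hφ v a1 a2 a3).2.2.2.2 k
    have e2 : ek A k (σ.γ p) * (starRingEnd ℂ) (ek A k (σ.γ p)) = 1 := by
      rw [Complex.mul_conj', n1]; simp
    rw [hd']
    linear_combination d k * (starRingEnd ℂ) (ek A k (σ.γ p)) * e1 - d k * ek A k (φ v) * e2
  have hr : ∀ a b : ℕ, a ∈ σ.S → b ∈ σ.S → σ.blk a = σ.blk b → (a : ℝ) ≤ 6 / 5 * b :=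
    fun a b h1 h2 h3 => by
      have e1 := H.le_Ph h1
      have e2 := H.Ph_le h2
      have e3 : exp (1 / σ.H) ≤ 6 / 5 := H.exp_le.trans (by
        have : 2 / σ.H ≤ 1 / 5 := by
          rw [div_le_div_iff₀ (by linarith) (by norm_num)]
          linarith
        linarith)
      rw [h3] at e1
      exact e1.trans (mul_le_mul e3 e2 (H.Ph_pos _).le (by norm_num))
  have r1 := hr p q hp hq hb
  have r2 := hr q p hq hp hb.symm
  have s1 : ∑ v ∈ G, ‖(fl A v : ℂ) - Phi A U d v‖ ^ 2 ≤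
      dis A ((VX A X).filter fun v => Dv A p (cj (σ.γ p)) v) U d :=
    sum_le_sum_of_subset_of_nonneg (fun v hv => by
      obtain ⟨⟨a1, a2, a3⟩, a4, -⟩ := mG v hv
      exact mem_filter.2 ⟨(mem_VX hA).2 ⟨a1, by linarith, by linarith⟩, a4⟩)
      fun _ _ _ => by positivity
  have s2 : ∑ v ∈ G, ‖(fl A (φ v) : ℂ) - Phi A U d (φ v)‖ ^ 2 ≤
      dis A ((VX A X).filter fun v => Dv A q (cj (σ.γ q)) v) U d := by
    rw [← sum_image (f := fun v => ‖(fl A v : ℂ) - Phi A U d v‖ ^ 2) (s := G) (g := φ)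
      fun v hv w hw e => hinj ⟨(mG v hv).1.1, (mG v hv).2⟩ ⟨(mG w hw).1.1, (mG w hw).2⟩ e]
    refine sum_le_sum_of_subset_of_nonneg (fun w hw => ?_) fun _ _ _ => by positivity
    obtain ⟨v, hv, rfl⟩ := mem_image.1 hw
    obtain ⟨⟨a1, a2, a3⟩, a4, a5⟩ := mG v hv
    obtain ⟨b1, b2, b3, -⟩ := hφ v a1 a4 a5
    have b4 : (p : ℝ) * nq A (φ v) = q * nq A v := by exact_mod_cast b3
    refine mem_filter.2 ⟨(mem_VX hA).2 ⟨b1, ?_, ?_⟩, b2⟩
    · refine lt_of_mul_lt_mul_left ?_ p0.le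
      rw [b4]
      nlinarith [mul_lt_mul_of_pos_left a2 q0, mul_le_mul_of_nonneg_right r1 (show 0 ≤ X by linarith)]
    · refine le_of_mul_le_mul_left ?_ p0
      rw [b4]
      nlinarith [mul_le_mul_of_nonneg_left a3 q0.le,
        mul_le_mul_of_nonneg_right r2 (show 0 ≤ X by linarith), mul_pos p0 (show 0 < X by linarith)]
  have s3 : ∑ v ∈ G, ‖Phi A U d' v‖ ^ 2 ≤
      2 * ∑ v ∈ G, ‖(fl A v : ℂ) - Phi A U d v‖ ^ 2 +
        2 * ∑ v ∈ G, ‖(fl A (φ v) : ℂ) - Phi A U d (φ v)‖ ^ 2 := by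
    rw [mul_sum, mul_sum, ← sum_add_distrib]
    refine sum_le_sum fun v hv => ?_
    obtain ⟨⟨a1, -⟩, a4, a5⟩ := mG v hv
    rw [hPhi v hv, (hφ v a1 a4 a5).2.2.2.1]
    exact PR2_sq _ _ _
  have hXp : 0 ≤ X ^ (1 - κ) := by positivity
  have s4 := hGRAM A G U d' (2 * C0 * σ.Q ^ 6 * X ^ (1 - κ)) hA (fun v hv => pr_ne (mG v hv).1.1)
    (by positivity) fun k hk k' hk' hne => by
      have e1 := he (2 * X) (6 / 5 * X) (8 / 5 * X) (k - k') (p * q)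
        (fun v => ind (Dv A p (cj (σ.γ p)) v ∧ ¬Dv A q (σ.γ q) v)) (by linarith) (by linarith)
        (by linarith) (by linarith) (mul_pos pp.pos qp.pos) (sub_ne_zero.2 hne) (by
          rw [pow_one, Int.cast_sub]
          linarith [abs_sub (k : ℝ) k', hU k hk, hU k' hk'])
        (fun v w h => by
          simp only [PR2_dv (dvd_mul_right p q) _ h, PR2_dv (dvd_mul_left q p) _ h])
        fun v => by unfold ind; split_ifs <;> simp
      have e2 : ∑ v ∈ G, ek A (k - k') v = ∑ v ∈ VV (Q0 A) (6 / 5 * X) (8 / 5 * X),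
          ((ind (Dv A p (cj (σ.γ p)) v ∧ ¬Dv A q (σ.γ q) v) : ℝ) : ℂ) * ek A (k - k') v := by
        rw [hGd, sum_filter]
        refine sum_congr rfl fun v _ => ?_
        split_ifs with h <;> simp [ind, h]
      rw [e2]
      refine e1.trans ?_
      have e3 : (((p * q : ℕ) : ℝ)) ^ 3 ≤ σ.Q ^ 6 := by
        rw [Nat.cast_mul, show σ.Q ^ 6 = (σ.Q * σ.Q) ^ 3 by ring]
        gcongr
      have e4 : (2 * X) ^ (1 - κ) ≤ 2 * X ^ (1 - κ) := by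
        rw [mul_rpow (by norm_num) (by linarith)]
        refine mul_le_mul_of_nonneg_right ?_ hXp
        simpa using rpow_le_rpow_of_exponent_le (show (1 : ℝ) ≤ 2 by norm_num)
          (show 1 - κ ≤ 1 by linarith)
      calc _ ≤ C0 * σ.Q ^ 6 * (2 * X ^ (1 - κ)) := by gcongr
        _ = _ := by ring
  have s5 := (abs_le.1 s4).1
  have s6 : 0 ≤ ∑ k ∈ U, ‖d' k‖ ^ 2 := sum_nonneg fun _ _ => by positivity
  have s7 := mul_le_mul_of_nonneg_right hG s6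
  have s8 := mul_le_mul_of_nonneg_left nd4
    (show 0 ≤ 2 * C0 * σ.Q ^ 6 * X ^ (1 - κ) * U.card by positivity)
  simp only [← nd]
  linarith

end Pool.Agent.P.MP_8be758_nt.Pd.G
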