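import Pool.Agent.P.MP_8be758_nt.Pd.IfP

/-! Step WCT. -/

namespace Pool.Agent.P.MP_8be758_nt.Pd.G

open Finset Real Filter
open Pool.Agent.P.MP_8be758_nt.Par (nq mul cj det io et)
open Pool.Agent.P.MP_8be758_nt.Avg (rho)
open Pool.Agent.P.MP_8be758_nt.Pd.Mr

theorem WCT_av {m : ℕ} (hm : 2 ≤ m) :
    1 / (m : ℝ) ^ 2 ≤ SP.av m fun v => ind (C2 m v (1, 0)) := by
  have h1 : (1 : ℤ) < m := by omega
  have h2 : ((1, 0) : V2) ∈ SP.U m := mem_filter.2 ⟨mem_product.2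
    ⟨mem_Ico.2 ⟨zero_le_one, h1⟩, mem_Ico.2 ⟨le_rfl, by omega⟩⟩, by simp⟩
  have h3 : (SP.U m).card ≤ m ^ 2 := (card_filter_le _ _).trans_eq (by simp [bx, sq])
  refine div_le_div₀ (sum_nonneg fun _ _ => ind_nonneg _) ?_
    (by exact_mod_cast card_pos.2 ⟨_, h2⟩) (by exact_mod_cast h3)
  exact (ind_pos (show C2 m (1, 0) (1, 0) from ⟨rfl, rfl⟩)).symm.le.trans
    (single_le_sum (f := fun v => ind (C2 m v (1, 0))) (fun _ _ => ind_nonneg _) h2)

open Classical in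

theorem p_WCT (hVEQ : S_VEQ) (hCNT : S_CNT) :
    S_WCT := by
  intro A M hA hM
  have hA1 : 1 ≤ A := by omega
  obtain ⟨C, hC, h1⟩ := hVEQ A hA1
  obtain ⟨c, N0, hc, h2⟩ := hCNT A (6 / 5) hA1 (by norm_num)
  obtain ⟨m, hm⟩ : ∃ m : ℕ, m = 2 * M := ⟨_, rfl⟩
  have a4 : 2 ≤ m := by omega
  have r4 : (2 : ℝ) ≤ m := by exact_mod_cast a4
  have t2 := (tendsto_rpow_atTop (show (0 : ℝ) < 1 / 4 by norm_num)).comp
    (tendsto_id.const_mul_atTop (show (0 : ℝ) < 6 / 5 by norm_num))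
  obtain ⟨X0, h4⟩ := eventually_atTop.1 ((eventually_ge_atTop N0).and
    ((eventually_ge_atTop 1).and (t2.eventually_ge_atTop (12 / 5 * C * m ^ 4 / c))))
  refine ⟨c / (2 * m ^ 2), X0, by positivity, fun N hN => ?_⟩
  obtain ⟨b1, b2, b3⟩ := h4 N hN
  simp only [Function.comp, id] at b3
  have u1 := h1 _ (Q0_mem hA1) N (6 / 5 * N) m (by linarith) (by linarith) (by linarith)
    (by linarith) m (fun v => ind (C2 m v (1, 0))) (by omega) le_rfl
    (fun x y e => by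
      show ind _ = ind _
      rw [show C2 m x (1, 0) ↔ C2 m y (1, 0) from
        ⟨fun h => ⟨e.1.symm.trans h.1, e.2.symm.trans h.2⟩,
          fun h => ⟨e.1.trans h.1, e.2.trans h.2⟩⟩])
    fun x => by rw [abs_of_nonneg (ind_nonneg _)]; exact ind_le_one _
  have u2 : ∑ x ∈ VV (Q0 A) N (6 / 5 * N), 1 * ind (C2 m x (1, 0)) ≤
      ((VV (Q0 A) N (6 / 5 * N)).filter fun w => C2 M w (1, 0)).card := by
    rw [card_filter]
    push_cast
    refine sum_le_sum fun x _ => ?_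
    have hd : (M : ℤ) ∣ m := by rw [hm]; exact_mod_cast Dvd.intro_left _ rfl
    split_ifs with h
    · rw [one_mul]; exact ind_le_one _
    · have : ¬ C2 m x (1, 0) := fun h' => h ⟨h'.1.of_dvd hd, h'.2.of_dvd hd⟩
      simp [ind, this]
  have u3 := mul_le_mul (h2 _ (Q0_mem hA1) N b1) (WCT_av a4) (by positivity) (Nat.cast_nonneg _)
  have u4 : (6 / 5 * N) ^ (3 / 4 : ℝ) * (6 / 5 * N) ^ (1 / 4 : ℝ) = 6 / 5 * N := by
    rw [← rpow_add (by linarith)]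
    norm_num
  have u5 : C * m ^ 2 * (6 / 5 * N) ^ (3 / 4 : ℝ) ≤ c * N / (2 * m ^ 2) := by
    rw [div_le_iff₀ hc] at b3
    have u6 := mul_le_mul_of_nonneg_left b3
      (show 0 ≤ (6 / 5 * N) ^ (3 / 4 : ℝ) by positivity)
    rw [← mul_assoc _ _ c, u4] at u6
    rw [le_div_iff₀ (by positivity)]
    linarith
  have u6 : c * N * (1 / m ^ 2) = 2 * (c * N / (2 * m ^ 2)) := by field_simp
  have u7 : c / (2 * m ^ 2) * N = c * N / (2 * m ^ 2) := by ring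
  linarith [(abs_le.1 u1).1]

end Pool.Agent.P.MP_8be758_nt.Pd.G
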