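import Pool.Agent.P.MP_8be758_nt.Pd.IfN

/-! Step BETA1. -/

namespace Pool.Agent.P.MP_8be758_nt.Pd

open Finset Real Filter
open Pool.Agent.P.MP_8be758_nt.Par (det)
open Pool.Agent.P.MP_8be758_nt.Avg (rho)
open scoped Classical

theorem BETA1_pow (P : Finset ℕ) (x : ℕ → ℝ) (hx : ∀ p, 0 ≤ x p) :
    ∑ F ∈ P.powerset, ∏ p ∈ F, x p ≤ exp (∑ p ∈ P, x p) := by
  rw [← Finset.prod_one_add, exp_sum]
  exact prod_le_prod (fun p _ => by have := hx p; positivity) fun p _ => by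
    have := add_one_le_exp (x p); linarith

theorem BETA1_win {C z1 : ℝ} (hC : 0 < C) (hW : ∀ Y θ : ℝ, 2 ≤ Y → 2 ≤ θ →
    ∑ p ∈ PP Y (θ * Y), (1 : ℝ) / p ≤ C * log θ / log Y) (hz : 2 ≤ z1) (P : Finset ℕ) (x : ℕ → ℝ)
    (hP : ∀ p ∈ P, p.Prime ∧ x p ≤ 1 / p) {n : ℕ} (hn : 0 < n) (m : ℕ) :
    ∑ p ∈ P, ind (p * n < 2 * m ∧ m < 2 * (p * n) ∧ z1 < (p : ℝ)) * x p ≤ C * log 4 / log z1 := by
  set Y : ℝ := max z1 (m / (2 * n)) with hY
  have h1 : z1 ≤ Y := le_max_left _ _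
  have h2 : (m : ℝ) / (2 * n) ≤ Y := le_max_right _ _
  have hn' : (0 : ℝ) < n := by exact_mod_cast hn
  have l1 : 0 < log z1 := log_pos (by linarith)
  have l2 : log z1 ≤ log Y := log_le_log (by linarith) h1
  have l4 : 0 ≤ log 4 := log_nonneg (by norm_num)
  calc _ ≤ ∑ p ∈ P, if p ∈ PP Y (4 * Y) then (1 : ℝ) / p else 0 := by
        refine sum_le_sum fun p hp => ?_
        by_cases h : p * n < 2 * m ∧ m < 2 * (p * n) ∧ z1 < (p : ℝ)
        · have a1 : (p : ℝ) * n < 2 * m := by exact_mod_cast h.1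
          have a2 : (m : ℝ) < 2 * (p * n) := by exact_mod_cast h.2.1
          have a3 : (m : ℝ) ≤ Y * (2 * n) := (div_le_iff₀ (by positivity)).1 h2
          have a4 : p ∈ PP Y (4 * Y) := by
            refine (mem_PP (by linarith)).2 ⟨(hP p hp).1, max_lt h.2.2 ?_, ?_⟩
            · rw [div_lt_iff₀ (by positivity)]; linarith
            · refine le_of_mul_le_mul_right ?_ hn'
              linarith
          rw [ind_pos h, if_pos a4, one_mul]
          exact (hP p hp).2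
        · rw [ind_neg h, zero_mul]
          split_ifs <;> positivity
    _ ≤ ∑ p ∈ PP Y (4 * Y), (1 : ℝ) / p := by
        rw [← sum_filter]
        exact sum_le_sum_of_subset_of_nonneg (fun p hp => (mem_filter.1 hp).2)
          fun _ _ _ => by positivity
    _ ≤ C * log 4 / log Y := hW Y 4 (by linarith) (by norm_num)
    _ ≤ _ := div_le_div_of_nonneg_left (by positivity) l1 l2

theorem BETA1_half {B z1 : ℝ} (P : Finset ℕ) (x : ℕ → ℝ) (hx : ∀ p, 0 ≤ x p)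
    (hP : ∀ p ∈ P, p.Prime) (m : ℕ) (hB : ∀ n : ℕ, 0 < n →
      ∑ p ∈ P, ind (p * n < 2 * m ∧ m < 2 * (p * n) ∧ z1 < (p : ℝ)) * x p ≤ B) :
    ∑ F ∈ P.powerset, (∑ q ∈ F, ind (∏ p ∈ F, p < 2 * m ∧ m < 2 * ∏ p ∈ F, p ∧ z1 < (q : ℝ))) *
      ∏ p ∈ F, x p ≤ B * ∑ F ∈ P.powerset, ∏ p ∈ F, x p := by
  let g : ℕ → Finset ℕ → ℝ := fun q F =>
    ind (q * ∏ p ∈ F, p < 2 * m ∧ m < 2 * (q * ∏ p ∈ F, p) ∧ z1 < (q : ℝ)) * x q * ∏ p ∈ F, x p
  have g0 : ∀ q F, 0 ≤ g q F := fun q F =>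
    mul_nonneg (mul_nonneg (ind_nonneg _) (hx q)) (prod_nonneg fun p _ => hx p)
  calc _ = ∑ F ∈ P.powerset, ∑ q ∈ P, if q ∈ F then g q (F.erase q) else 0 := by
        refine sum_congr rfl fun F hF => ?_
        rw [← sum_filter, filter_mem_eq_inter, inter_eq_right.2 (mem_powerset.1 hF), sum_mul]
        refine sum_congr rfl fun q hq => ?_
        simp only [g]
        rw [mul_prod_erase F (fun p => p) hq, mul_assoc, mul_prod_erase F x hq]
    _ = ∑ q ∈ P, ∑ F ∈ P.powerset.filter (q ∈ ·), g q (F.erase q) := by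
        rw [sum_comm]
        exact sum_congr rfl fun q _ => (sum_filter _ _).symm
    _ ≤ ∑ q ∈ P, ∑ F ∈ P.powerset, g q F := by
        refine sum_le_sum fun q _ => ?_
        rw [← sum_image (s := P.powerset.filter (q ∈ ·)) (g := fun F => F.erase q) (f := g q)
          fun F hF F' hF' e => erase_injOn' q (mem_filter.1 (mem_coe.1 hF)).2
            (mem_filter.1 (mem_coe.1 hF')).2 e]
        refine sum_le_sum_of_subset_of_nonneg (fun F hF => ?_) fun F _ _ => g0 q F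
        obtain ⟨F', h1, rfl⟩ := mem_image.1 hF
        exact mem_powerset.2 ((erase_subset _ _).trans (mem_powerset.1 (mem_filter.1 h1).1))
    _ ≤ _ := by
        rw [sum_comm, mul_sum]
        refine sum_le_sum fun F hF => ?_
        simp only [g]
        rw [← sum_mul]
        exact mul_le_mul_of_nonneg_right
          (hB _ (prod_pos fun p hp => (hP p (mem_powerset.1 hF hp)).pos))
          (prod_nonneg fun p _ => hx p)

theorem BETA1_ind (W W' : Prop) (z1 : ℝ) (F1 F2 : Finset ℕ) :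
    ind (W ∧ W' ∧ ∃ p ∈ F1 ∪ F2, z1 < (p : ℝ)) ≤
      ∑ q ∈ F1, ind (W ∧ W' ∧ z1 < (q : ℝ)) + ∑ q ∈ F2, ind (W' ∧ W ∧ z1 < (q : ℝ)) := by
  have s1 : 0 ≤ ∑ q ∈ F1, ind (W ∧ W' ∧ z1 < (q : ℝ)) := sum_nonneg fun _ _ => ind_nonneg _
  have s2 : 0 ≤ ∑ q ∈ F2, ind (W' ∧ W ∧ z1 < (q : ℝ)) := sum_nonneg fun _ _ => ind_nonneg _
  by_cases h : W ∧ W' ∧ ∃ p ∈ F1 ∪ F2, z1 < (p : ℝ)
  · rw [ind_pos h]
    obtain ⟨h1, h2, p, hp, h3⟩ := h
    rcases mem_union.1 hp with hp | hp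
    · have := single_le_sum (f := fun q : ℕ => ind (W ∧ W' ∧ z1 < (q : ℝ)))
        (fun _ _ => ind_nonneg _) hp
      rw [ind_pos ⟨h1, h2, h3⟩] at this
      linarith
    · have := single_le_sum (f := fun q : ℕ => ind (W' ∧ W ∧ z1 < (q : ℝ)))
        (fun _ _ => ind_nonneg _) hp
      rw [ind_pos ⟨h2, h1, h3⟩] at this
      linarith
  · rw [ind_neg h]
    linarith

theorem p_BETA1 (hWIN : S_WIN) (hL1 : S_L1) :
    S_BETA1 := by
  obtain ⟨C, hC, hW⟩ := hWIN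
  have l4 : 0 < log 4 := log_pos (by norm_num)
  refine ⟨2 * (C * log 4), by positivity, fun A w z1 z hA hw hz => ?_⟩
  set P := PP w z
  set x : ℕ → ℝ := fun p => (rho A p : ℝ) / (2 * p) with hxd
  have hx : ∀ p, 0 ≤ x p := fun p => by positivity
  have hP : ∀ p ∈ P, p.Prime ∧ x p ≤ 1 / p := fun p hp => by
    have h1 := prime_of_PP hp
    have h2 : 4 * A < p := by exact_mod_cast hw.trans_lt (lt_of_PP hp)
    have h3 : (rho A p : ℝ) ≤ 2 := by
      exact_mod_cast (hL1 A p (Q0 A) (1, 0) hA (isF_Q0 A) h1 h2 fun h =>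
        h1.one_lt.ne' (by exact_mod_cast Int.eq_one_of_dvd_one (by positivity) h.1)).1
    have h4 : (0 : ℝ) < p := by exact_mod_cast h1.pos
    refine ⟨h1, ?_⟩
    simp only [x]
    rw [div_le_div_iff₀ (by positivity) h4]
    nlinarith
  set B := C * log 4 / log z1
  have hB : 0 ≤ B := div_nonneg (by positivity) (log_nonneg (by linarith))
  set T := ∑ F ∈ P.powerset, ∏ p ∈ F, x p
  have T0 : 0 ≤ T := sum_nonneg fun F _ => prod_nonneg fun p _ => hx p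
  have hT : T * T ≤ exp (Lm A w z) := by
    have e : Lm A w z = ∑ p ∈ P, x p + ∑ p ∈ P, x p := by
      rw [← sum_add_distrib]
      exact sum_congr rfl fun p _ => by simp only [x]; ring
    rw [e, exp_add]
    exact mul_le_mul (BETA1_pow P x hx) (BETA1_pow P x hx) T0 (exp_pos _).le
  have key : ∑ F2 ∈ P.powerset, ∑ F1 ∈ P.powerset, (∑ q ∈ F1, ind (∏ p ∈ F1, p < 2 * ∏ p ∈ F2, p ∧
      ∏ p ∈ F2, p < 2 * ∏ p ∈ F1, p ∧ z1 < (q : ℝ))) * ((∏ p ∈ F1, x p) * ∏ p ∈ F2, x p) ≤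
      B * (T * T) := by
    rw [← mul_assoc, mul_sum]
    refine sum_le_sum fun F2 _ => ?_
    simp only [← mul_assoc]
    rw [← sum_mul]
    exact mul_le_mul_of_nonneg_right (BETA1_half P x hx (fun p hp => (hP p hp).1) _
      fun n hn => BETA1_win hC hW hz P x hP hn _) (prod_nonneg fun p _ => hx p)
  calc _ ≤ ∑ F1 ∈ P.powerset, ∑ F2 ∈ P.powerset, ((∑ q ∈ F1, ind (∏ p ∈ F1, p < 2 * ∏ p ∈ F2, p ∧
      ∏ p ∈ F2, p < 2 * ∏ p ∈ F1, p ∧ z1 < (q : ℝ))) * ((∏ p ∈ F1, x p) * ∏ p ∈ F2, x p) +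
      (∑ q ∈ F2, ind (∏ p ∈ F2, p < 2 * ∏ p ∈ F1, p ∧
      ∏ p ∈ F1, p < 2 * ∏ p ∈ F2, p ∧ z1 < (q : ℝ))) * ((∏ p ∈ F2, x p) * ∏ p ∈ F1, x p)) := by
        refine sum_le_sum fun F1 _ => sum_le_sum fun F2 _ => ?_
        rw [mul_comm (∏ p ∈ F2, x p), ← add_mul]
        exact mul_le_mul_of_nonneg_right (BETA1_ind _ _ _ _ _)
          (mul_nonneg (prod_nonneg fun p _ => hx p) (prod_nonneg fun p _ => hx p))
    _ ≤ B * (T * T) + B * (T * T) := by
        simp only [sum_add_distrib]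
        exact add_le_add (sum_comm.trans_le key) key
    _ ≤ B * exp (Lm A w z) + B * exp (Lm A w z) :=
        add_le_add (mul_le_mul_of_nonneg_left hT hB) (mul_le_mul_of_nonneg_left hT hB)
    _ = _ := by simp only [B]; ring

end Pool.Agent.P.MP_8be758_nt.Pd
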