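import Pool.Agent.P.MP_8be758_nt.Pd.IfN

/-! Step BETA3. -/

namespace Pool.Agent.P.MP_8be758_nt.Pd

open Finset Real Filter
open Pool.Agent.P.MP_8be758_nt.Par (det)
open Pool.Agent.P.MP_8be758_nt.Avg (rho)
open scoped Classical

theorem BETA3_cs {ι : Type} (S : Finset ι) (ν x l : ι → ℝ) (hν : ∀ i, 0 ≤ ν i) (hx : ∀ i, 0 ≤ x i)
    (hl : ∀ i, 0 < l i) :
    ∑ i ∈ S, ν i * √(x i) ≤ √(∑ i ∈ S, ν i * (x i * l i)) * √(∑ i ∈ S, ν i / l i) := by
  refine le_trans (le_of_eq (sum_congr rfl fun i _ => ?_))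
    (Real.sum_sqrt_mul_sqrt_le S (f := fun i => ν i * (x i * l i)) (g := fun i => ν i / l i)
      (fun i => mul_nonneg (hν i) (mul_nonneg (hx i) (hl i).le))
      (fun i => div_nonneg (hν i) (hl i).le))
  have h1 := hν i
  have h2 := hx i
  have h3 := hl i
  rw [← Real.sqrt_mul (by positivity), show ν i * (x i * l i) * (ν i / l i) = ν i ^ 2 * x i by
    field_simp, Real.sqrt_mul (by positivity), Real.sqrt_sq h1]

theorem BETA3_split {w z y : ℝ} (hw : 0 ≤ w) (hz : w ≤ z) (hy : z ≤ y) (f : ℕ → ℝ) (c : ℝ) :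
    ∑ p ∈ PP w y, f p * (if z < (p : ℝ) then c else 1) =
      ∑ p ∈ PP w z, f p + c * ∑ p ∈ PP z y, f p := by
  have h1 : (PP w y).filter (fun p : ℕ => z < (p : ℝ)) = PP z y := by
    ext p
    simp only [mem_filter, mem_PP (hw.trans (hz.trans hy))]
    exact ⟨fun h => ⟨h.1.1, h.2, h.1.2.2⟩, fun h => ⟨⟨h.1, hz.trans_lt h.2.1, h.2.2⟩, h.2.1⟩⟩
  have h2 : (PP w y).filter (fun p : ℕ => ¬z < (p : ℝ)) = PP w z := by
    ext p
    simp only [mem_filter, mem_PP (hw.trans (hz.trans hy)), mem_PP (hw.trans hz), not_lt]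
    exact ⟨fun h => ⟨h.1.1, h.1.2.1, h.2⟩, fun h => ⟨⟨h.1, h.2.1, h.2.2.trans hy⟩, h.2.2⟩⟩
  simp only [mul_ite, mul_one]
  rw [sum_ite, h1, h2, ← sum_mul]
  ring

theorem BETA3_one (A D : ℕ) (z : ℝ) :
    de A D / (3 / 2) ^ (D.primeFactors.filter fun p : ℕ => z < (p : ℝ)).card =
      ∏ p ∈ D.primeFactors, (rho A p : ℝ) / p * (if z < (p : ℝ) then 2 / 3 else 1) := by
  rw [prod_mul_distrib, prod_ite, prod_const, prod_const_one, mul_one, de, div_eq_mul_inv,
    ← inv_pow]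
  norm_num

theorem BETA3_two (A D1 D2 : ℕ) (z : ℝ) :
    ind (D1.Coprime D2) * (de A D1 * de A D2) /
      (3 / 2) ^ ((D1 * D2).primeFactors.filter fun p : ℕ => z < (p : ℝ)).card ≤
    (∏ p ∈ D1.primeFactors, (rho A p : ℝ) / p * (if z < (p : ℝ) then 2 / 3 else 1)) *
      ∏ p ∈ D2.primeFactors, (rho A p : ℝ) / p * (if z < (p : ℝ) then 2 / 3 else 1) := by
  rw [← BETA3_one, ← BETA3_one]
  by_cases h : D1.Coprime D2
  · rw [ind_pos h, one_mul, h.primeFactors_mul, filter_union,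
      card_union_of_disjoint (disjoint_filter_filter h.disjoint_primeFactors), pow_add,
      mul_div_mul_comm]
  · rw [ind_neg h, zero_mul, zero_div]
    have h1 := de_nonneg A D1
    have h2 := de_nonneg A D2
    positivity

theorem p_BETA3 (hSUMF : S_SUMF) (hBETA2 : S_BETA2) :
    S_BETA3 := by
  intro A w z1 z y Y B hw hz hy hB H
  have h1 := hBETA2 A w z1 z y Y B hw hz hy H
  have h2 := hSUMF w y Y (fun p => (rho A p : ℝ) / p * (if z < (p : ℝ) then 2 / 3 else 1))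
    fun p => mul_nonneg (by positivity) (by split_ifs <;> norm_num)
  rw [BETA3_split hw hz hy] at h2
  have h3 : Lm A w y = Lm A w z + Lm A z y := by
    have := BETA3_split hw hz hy (fun p => (rho A p : ℝ) / p) 1
    simpa only [ite_self, mul_one, one_mul, Lm] using this
  have h4 := BETA3_cs (SF w y Y ×ˢ SF w y Y)
    (fun v => ind (v.1.Coprime v.2) * (de A v.1 * de A v.2))
    (fun v => betz z1 z v.1 v.2 / 2 ^ (v.1 * v.2).primeFactors.card)
    (fun v => (3 / 2) ^ ((v.1 * v.2).primeFactors.filter fun p : ℕ => z < (p : ℝ)).card)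
    (fun v => mul_nonneg (ind_nonneg _) (mul_nonneg (de_nonneg _ _) (de_nonneg _ _)))
    (fun v => by positivity) (fun v => by positivity)
  simp only [sum_product] at h4
  refine h4.trans ?_
  have h0 : 0 ≤ ∑ d ∈ SF w y Y, ∏ p ∈ d.primeFactors,
      (rho A p : ℝ) / p * (if z < (p : ℝ) then 2 / 3 else 1) :=
    sum_nonneg fun _ _ => prod_nonneg fun p _ =>
      mul_nonneg (by positivity) (by split_ifs <;> norm_num)
  have h5 : ∑ D1 ∈ SF w y Y, ∑ D2 ∈ SF w y Y, ind (D1.Coprime D2) * (de A D1 * de A D2) /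
      (3 / 2) ^ ((D1 * D2).primeFactors.filter fun p : ℕ => z < (p : ℝ)).card ≤
      exp (Lm A w z + 2 / 3 * Lm A z y) * exp (Lm A w z + 2 / 3 * Lm A z y) := by
    refine (sum_le_sum fun D1 _ => sum_le_sum fun D2 _ => BETA3_two A D1 D2 z).trans ?_
    rw [← sum_mul_sum]
    exact mul_le_mul h2 h2 h0 (exp_pos _).le
  refine (mul_le_mul (Real.sqrt_le_sqrt h1) (Real.sqrt_le_sqrt h5) (Real.sqrt_nonneg _)
    (Real.sqrt_nonneg _)).trans (le_of_eq ?_)
  rw [Real.sqrt_mul_self (exp_pos _).le, Real.sqrt_mul hB, mul_assoc, ← Real.exp_half, ← exp_add, h3]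
  congr 2
  ring

end Pool.Agent.P.MP_8be758_nt.Pd
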