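import Pool.Agent.P.MP_8be758_nt.Pd.IfN

/-! Step BETA4. -/

namespace Pool.Agent.P.MP_8be758_nt.Pd

open Finset Real Filter
open Pool.Agent.P.MP_8be758_nt.Par (det)
open Pool.Agent.P.MP_8be758_nt.Avg (rho)
open scoped Classical

/-- the repeated square roots of `y` -/
noncomputable def BETA4_y (y : ℝ) (j : ℕ) : ℝ := exp ((1 / 2) ^ j * log y)

theorem BETA4_sqrt_add (a b : ℝ) (ha : 0 ≤ a) (hb : 0 ≤ b) : √(a + b) ≤ √a + √b := by
  rw [Real.sqrt_le_iff]
  refine ⟨by positivity, ?_⟩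
  nlinarith [Real.sq_sqrt ha, Real.sq_sqrt hb, mul_nonneg (Real.sqrt_nonneg a) (Real.sqrt_nonneg b)]

theorem BETA4_sqrt_sum (s : Finset ℕ) (f : ℕ → ℝ) (h : ∀ j, 0 ≤ f j) :
    √(∑ j ∈ s, f j) ≤ ∑ j ∈ s, √(f j) := by
  induction s using Finset.induction_on with
  | empty => simp
  | insert j s hj ih =>
    rw [sum_insert hj, sum_insert hj]
    exact (BETA4_sqrt_add _ _ (h j) (sum_nonneg fun _ _ => h _)).trans (by linarith)

theorem BETA4_card {w y : ℝ} (hy : 0 < y) {J D1 D2 : ℕ} (hJ : BETA4_y y J < 2)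
    (h1 : Squarefree D1) (h2 : Squarefree D2) (hc : D1.Coprime D2)
    (p1 : D1.primeFactors ⊆ PP w y) (p2 : D2.primeFactors ⊆ PP w y) :
    beta D1 D2 ≤ 1 + ∑ j ∈ (range J).filter (fun j => w < BETA4_y y j),
      betz (BETA4_y y (j + 1)) (BETA4_y y j) D1 D2 := by
  have hs : Squarefree (D1 * D2) := (Nat.squarefree_mul hc).2 ⟨h1, h2⟩
  unfold beta betz
  refine le_trans (card_le_card (t := {D1} ∪ ((range J).filter (fun j => w < BETA4_y y j)).biUnion
    fun j => ((D1 * D2).divisors.filter fun d => D1 < 2 * d ∧ d < 2 * D1 ∧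
      (∀ p : ℕ, p.Prime → ¬(p ∣ d ↔ p ∣ D1) → (p : ℝ) ≤ BETA4_y y j) ∧
      ∃ p : ℕ, p.Prime ∧ ¬(p ∣ d ↔ p ∣ D1) ∧ BETA4_y y (j + 1) < (p : ℝ))) ?_) ?_
  · intro d hd
    obtain ⟨hd1, hd2, hd3⟩ := mem_filter.1 hd
    have hdv := Nat.dvd_of_mem_divisors hd1
    by_cases e : d = D1
    · exact mem_union_left _ (mem_singleton.2 e)
    refine mem_union_right _ ?_
    have hsd : Squarefree d := hs.squarefree_of_dvd hdv
    set T := (D1 * D2).primeFactors.filter fun p => ¬(p ∣ d ↔ p ∣ D1) with hT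
    have hmem : ∀ p : ℕ, p.Prime → ¬(p ∣ d ↔ p ∣ D1) → p ∈ T := fun p hp hn => by
      refine mem_filter.2 ⟨Nat.mem_primeFactors.2 ⟨hp, ?_, hs.ne_zero⟩, hn⟩
      by_cases a : p ∣ d
      · exact a.trans hdv
      · by_cases b : p ∣ D1
        · exact b.mul_right _
        · exact absurd (iff_of_false a b) hn
    have hne : T.Nonempty := by
      by_contra hn
      refine e ?_
      rw [← Nat.prod_primeFactors_of_squarefree hsd, ← Nat.prod_primeFactors_of_squarefree h1]
      congr 1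
      ext p
      simp only [Nat.mem_primeFactors]
      constructor
      · rintro ⟨a, b, -⟩
        by_contra hh
        exact hn ⟨p, hmem p a fun c => hh ⟨a, c.1 b, h1.ne_zero⟩⟩
      · rintro ⟨a, b, -⟩
        by_contra hh
        exact hn ⟨p, hmem p a fun c => hh ⟨a, c.2 b, hsd.ne_zero⟩⟩
    obtain ⟨p, hp, hmax⟩ := exists_max_image T id hne
    obtain ⟨hp1, hp2⟩ := mem_filter.1 hp
    have hpp : p ∈ PP w y := by
      rw [hc.primeFactors_mul] at hp1
      exact (mem_union.1 hp1).elim (p1 ·) (p2 ·)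
    obtain ⟨q1, q2, q3⟩ := (mem_PP hy.le).1 hpp
    have q4 : (2 : ℝ) ≤ p := by exact_mod_cast q1.two_le
    have hex : ∃ j, BETA4_y y j < p := ⟨J, hJ.trans_le q4⟩
    have f1 := Nat.find_spec hex
    have f2 : Nat.find hex ≤ J := Nat.find_min' hex (hJ.trans_le q4)
    have f3 : Nat.find hex ≠ 0 := fun e0 => by
      rw [e0, BETA4_y, pow_zero, one_mul, exp_log hy] at f1
      linarith
    obtain ⟨j, hj⟩ := Nat.exists_eq_succ_of_ne_zero f3
    have f4 : (p : ℝ) ≤ BETA4_y y j := not_lt.1 (Nat.find_min hex (by omega))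
    rw [hj] at f1
    refine mem_biUnion.2 ⟨j, mem_filter.2 ⟨mem_range.2 (by omega), q2.trans_le f4⟩,
      mem_filter.2 ⟨hd1, hd2, hd3, fun r hr hn => le_trans ?_ f4, p, q1, hp2, f1⟩⟩
    exact_mod_cast hmax r (hmem r hr hn)
  · refine (card_union_le _ _).trans ?_
    rw [card_singleton]
    exact Nat.add_le_add_left card_biUnion_le _

theorem BETA4_one (hSUMF : S_SUMF) (A : ℕ) (w y Y : ℝ) :
    ∑ D1 ∈ SF w y Y, ∑ D2 ∈ SF w y Y, ind (D1.Coprime D2) * (de A D1 * de A D2) *
      √(1 / 2 ^ (D1 * D2).primeFactors.card) ≤ exp (3 / 2 * Lm A w y) := by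
  have h := hSUMF w y Y (fun p => (rho A p : ℝ) / p * (3 / 4)) fun p => by positivity
  have e : ∀ D : ℕ, ∏ p ∈ D.primeFactors, ((rho A p : ℝ) / p * (3 / 4)) =
      de A D * (3 / 4) ^ D.primeFactors.card := fun D => by
    rw [prod_mul_distrib, prod_const, de]
  simp only [e] at h
  rw [← sum_mul] at h
  have h0 : 0 ≤ ∑ D ∈ SF w y Y, de A D * (3 / 4) ^ D.primeFactors.card :=
    sum_nonneg fun D _ => mul_nonneg (de_nonneg A D) (by positivity)
  calc _ ≤ ∑ D1 ∈ SF w y Y, ∑ D2 ∈ SF w y Y, (de A D1 * (3 / 4) ^ D1.primeFactors.card) *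
        (de A D2 * (3 / 4) ^ D2.primeFactors.card) := by
        refine sum_le_sum fun D1 _ => sum_le_sum fun D2 _ => ?_
        have n1 := de_nonneg A D1
        have n2 := de_nonneg A D2
        by_cases hc : D1.Coprime D2
        · rw [ind_pos hc, one_mul, hc.primeFactors_mul,
            card_union_of_disjoint hc.disjoint_primeFactors]
          have : √(1 / 2 ^ (D1.primeFactors.card + D2.primeFactors.card)) ≤
              (3 / 4 : ℝ) ^ (D1.primeFactors.card + D2.primeFactors.card) := by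
            rw [Real.sqrt_le_iff, ← pow_mul, mul_comm, pow_mul, ← one_div_pow]
            exact ⟨by positivity, pow_le_pow_left₀ (by norm_num) (by norm_num) _⟩
          refine (mul_le_mul_of_nonneg_left this (mul_nonneg n1 n2)).trans_eq ?_
          rw [pow_add]
          ring
        · rw [ind_neg hc, zero_mul, zero_mul]
          positivity
    _ = (∑ D ∈ SF w y Y, de A D * (3 / 4) ^ D.primeFactors.card) *
        ∑ D ∈ SF w y Y, de A D * (3 / 4) ^ D.primeFactors.card := by rw [sum_mul_sum]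
    _ ≤ exp (Lm A w y * (3 / 4)) * exp (Lm A w y * (3 / 4)) :=
        mul_le_mul h h h0 (exp_pos _).le
    _ = _ := by
        rw [← exp_add]
        congr 1
        ring

theorem p_BETA4 (hSUMF : S_SUMF) (hBETA1 : S_BETA1) (hBETA3 : S_BETA3) (hMER : S_MER) :
    S_BETA4 := by
  intro A hA hA3
  obtain ⟨C1, hC1, H1⟩ := hBETA1
  obtain ⟨C, hC, HM⟩ := hMER A hA hA3
  set r : ℝ := exp (-(log 2 / 12)) with hr
  have l2 : 0 < log 2 := log_pos (by norm_num)
  have r0 : 0 < r := exp_pos _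
  have r1 : r < 1 := by rw [hr, exp_lt_one_iff]; linarith
  set B : ℝ := 2 * C1 * exp C with hB
  have B0 : 0 ≤ B := by positivity
  have s0 : 0 < 1 - r := by linarith
  refine ⟨1 + √B * exp (C / 12) * (1 - r)⁻¹, by positivity, fun w y Y hw hy => ?_⟩
  have a3 : (3 : ℝ) ≤ A := by exact_mod_cast hA3
  have w12 : 12 ≤ w := by linarith
  have y0 : 0 < y := by linarith
  have ly : 0 < log y := log_pos (by linarith)
  have lw : 1 ≤ log w := by
    rw [le_log_iff_exp_le (by linarith)]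
    linarith [exp_one_lt_d9]
  obtain ⟨J, hJ⟩ := exists_pow_lt_of_lt_one (div_pos l2 ly) (show (1 / 2 : ℝ) < 1 by norm_num)
  have hJ2 : BETA4_y y J < 2 := by
    rw [BETA4_y, ← lt_log_iff_exp_lt (by norm_num)]
    exact (lt_div_iff₀ ly).1 hJ
  set S := (range J).filter fun j => w < BETA4_y y j with hS
  have term : ∀ j ∈ S, ∑ D1 ∈ SF w y Y, ∑ D2 ∈ SF w y Y, ind (D1.Coprime D2) * (de A D1 * de A D2) *
      √(betz (BETA4_y y (j + 1)) (BETA4_y y j) D1 D2 / 2 ^ (D1 * D2).primeFactors.card) ≤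
      √B * exp (C / 12) * r ^ j * exp (3 / 2 * Lm A w y) := by
    intro j hj
    have hwj : w < BETA4_y y j := (mem_filter.1 hj).2
    have hp : (0 : ℝ) < (1 / 2) ^ j := by positivity
    have hp1 : ((1 : ℝ) / 2) ^ j ≤ 1 := pow_le_one₀ (by norm_num) (by norm_num)
    have e1 : log (BETA4_y y j) = (1 / 2) ^ j * log y := log_exp _
    have e2 : log (BETA4_y y (j + 1)) = (1 / 2) ^ j * log y / 2 := by
      rw [BETA4_y, log_exp, pow_succ]; ring
    have e3 : BETA4_y y (j + 1) * BETA4_y y (j + 1) = BETA4_y y j := by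
      rw [BETA4_y, BETA4_y, ← exp_add, pow_succ]
      congr 1
      ring
    have z2 : 2 ≤ BETA4_y y (j + 1) := by
      have : 0 < BETA4_y y (j + 1) := exp_pos _
      by_contra hn
      nlinarith
    have zy : BETA4_y y j ≤ y := by
      rw [BETA4_y, ← le_log_iff_exp_le y0]
      nlinarith
    have m1 := (abs_le.1 (HM w (BETA4_y y j) (by linarith) hwj.le).1).2
    have m2 := (abs_le.1 (HM (BETA4_y y j) y (by linarith) zy).1).1
    have lj : 0 < (1 / 2) ^ j * log y := mul_pos hp ly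
    have b1 : C1 * exp (Lm A w (BETA4_y y j)) / log (BETA4_y y (j + 1)) ≤ B := by
      have : exp (Lm A w (BETA4_y y j)) ≤ (1 / 2) ^ j * log y * exp C := by
        calc _ ≤ exp (log (log (BETA4_y y j) / log w) + C) := exp_le_exp.2 (by rw [Lm]; linarith)
          _ = (1 / 2) ^ j * log y / log w * exp C := by
            rw [exp_add, e1, exp_log (by positivity)]
          _ ≤ _ := mul_le_mul_of_nonneg_right (div_le_self lj.le lw) (exp_pos _).le
      rw [e2, div_le_iff₀ (by positivity), hB]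
      nlinarith
    refine (hBETA3 A w _ _ y Y B (by linarith) hwj.le zy B0
      ((H1 A w _ _ (by omega) hw z2).trans b1)).trans ?_
    have e4 : log (log y / log (BETA4_y y j)) = j * log 2 := by
      rw [e1, ← log_pow]
      congr 1
      rw [one_div_pow]
      field_simp
    rw [e4] at m2
    rw [mul_assoc, mul_assoc, hr, ← exp_nat_mul, ← exp_add, ← exp_add]
    refine mul_le_mul_of_nonneg_left (exp_le_exp.2 ?_) (sqrt_nonneg _)
    rw [Lm, Lm] at *
    linarith
  calc _ ≤ ∑ D1 ∈ SF w y Y, ∑ D2 ∈ SF w y Y, (ind (D1.Coprime D2) * (de A D1 * de A D2) *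
        √(1 / 2 ^ (D1 * D2).primeFactors.card) + ∑ j ∈ S, ind (D1.Coprime D2) * (de A D1 * de A D2) *
        √(betz (BETA4_y y (j + 1)) (BETA4_y y j) D1 D2 / 2 ^ (D1 * D2).primeFactors.card)) := by
        refine sum_le_sum fun D1 h1 => sum_le_sum fun D2 h2 => ?_
        rw [← mul_sum, ← mul_add]
        by_cases hc : D1.Coprime D2
        · refine mul_le_mul_of_nonneg_left ?_
            (mul_nonneg (ind_nonneg _) (mul_nonneg (de_nonneg _ _) (de_nonneg _ _)))
          have k := BETA4_card y0 hJ2 (mem_filter.1 h1).2.1 (mem_filter.1 h2).2.1 hc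
            (mem_filter.1 h1).2.2 (mem_filter.1 h2).2.2
          have k' : (beta D1 D2 : ℝ) / 2 ^ (D1 * D2).primeFactors.card ≤
              1 / 2 ^ (D1 * D2).primeFactors.card + ∑ j ∈ S,
                (betz (BETA4_y y (j + 1)) (BETA4_y y j) D1 D2 : ℝ) / 2 ^ (D1 * D2).primeFactors.card := by
            rw [← sum_div, ← add_div]
            refine div_le_div_of_nonneg_right ?_ (by positivity)
            exact_mod_cast k
          refine (sqrt_le_sqrt k').trans ((BETA4_sqrt_add _ _ (by positivity)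
            (sum_nonneg fun _ _ => by positivity)).trans ?_)
          exact add_le_add_right (BETA4_sqrt_sum _ _ fun _ => by positivity) _
        · rw [ind_neg hc, zero_mul, zero_mul, zero_mul]
    _ = ∑ D1 ∈ SF w y Y, ∑ D2 ∈ SF w y Y, ind (D1.Coprime D2) * (de A D1 * de A D2) *
        √(1 / 2 ^ (D1 * D2).primeFactors.card) + ∑ j ∈ S, ∑ D1 ∈ SF w y Y, ∑ D2 ∈ SF w y Y,
        ind (D1.Coprime D2) * (de A D1 * de A D2) *
        √(betz (BETA4_y y (j + 1)) (BETA4_y y j) D1 D2 / 2 ^ (D1 * D2).primeFactors.card) := by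
        simp only [sum_add_distrib]
        congr 1
        rw [sum_comm (s := S)]
        exact sum_congr rfl fun _ _ => sum_comm
    _ ≤ exp (3 / 2 * Lm A w y) + ∑ j ∈ S, √B * exp (C / 12) * r ^ j * exp (3 / 2 * Lm A w y) :=
        add_le_add (BETA4_one hSUMF A w y Y) (sum_le_sum term)
    _ ≤ _ := by
        rw [← sum_mul, ← mul_sum, add_mul, one_mul]
        have g : ∑ j ∈ S, r ^ j ≤ (1 - r)⁻¹ := by
          rw [← tsum_geometric_of_lt_one r0.le r1]
          exact (summable_geometric_of_lt_one r0.le r1).sum_le_tsum _ fun _ _ => by positivity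
        gcongr

end Pool.Agent.P.MP_8be758_nt.Pd
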