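import Pool.Agent.P.MP_8be758_nt.Pd.IfM

/-! Step BIJ. -/

namespace Pool.Agent.P.MP_8be758_nt.Pd

open Finset Real Filter
open Pool.Agent.P.MP_8be758_nt.Par (nq mul cj det io et)
open Pool.Agent.P.MP_8be758_nt.Avg (rho)
open Pool.Agent.P.MP_8be758_nt.Pd.Mr

lemma BIJ_cop {β : ℕ} {w : V2} (x : V2) (h : (Int.gcd w.1 w.2).Coprime β) :
    (Int.gcd (w + (β : ℤ) • x).1 (w + (β : ℤ) • x).2).Coprime β := by
  refine Nat.coprime_of_dvd' fun d _ h1 h2 => h ▸ Nat.dvd_gcd (Int.dvd_gcd ?_ ?_) h2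
  · exact (dvd_add_left ((Int.natCast_dvd_natCast.2 h2).mul_right _)).1
      ((Int.natCast_dvd_natCast.2 h1).trans (Int.gcd_dvd_left _ _))
  · exact (dvd_add_left ((Int.natCast_dvd_natCast.2 h2).mul_right _)).1
      ((Int.natCast_dvd_natCast.2 h1).trans (Int.gcd_dvd_right _ _))

lemma BIJ_dvd (A : ℕ) (g w : V2) :
    (Int.gcd w.1 w.2 : ℤ) ∣ (mul A g w).1 ∧ (Int.gcd w.1 w.2 : ℤ) ∣ (mul A g w).2 :=
  have h1 := Int.gcd_dvd_left w.1 w.2
  have h2 := Int.gcd_dvd_right w.1 w.2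
  ⟨(h1.mul_left _).sub (h2.mul_left _), ((h2.mul_left _).add (h1.mul_left _)).add (h2.mul_left _)⟩

theorem p_BIJ :
    S_BIJ := by
  intro A σ p _ H hp
  obtain ⟨⟨a, ha⟩, b, hb⟩ := (H.2.2.2.2.2 p hp).2.2.2.imp Int.ModEq.dvd Int.ModEq.dvd
  obtain ⟨p1, -, n⟩ := H.gp hp
  have b0 : (σ.β : ℤ) ≠ 0 := by have := H.1; omega
  have p0 : (p : ℤ) ≠ 0 := by exact_mod_cast p1.ne_zero
  have e : ∀ u, mul A σ.g0 u = mul A (σ.γ p) u + (σ.β : ℤ) • (σ.β : ℤ) • mul A (a, b) u := by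
    intro u
    push_cast at ha hb
    ext <;> simp only [mul, Prod.fst_add, Prod.snd_add, Prod.smul_fst, Prod.smul_snd, smul_eq_mul,
      eq_add_of_sub_eq ha, eq_add_of_sub_eq hb] <;> ring
  refine ⟨fun u ⟨h1, w, h2, h3⟩ => ?_, fun v hv h => ?_⟩
  · have c := BIJ_cop (-mul A (a, b) u) h3
    have e1 : (σ.β : ℤ) • (w + (σ.β : ℤ) • -mul A (a, b) u) = mul A (σ.γ p) u := by
      rw [smul_add, h2, e, smul_neg, smul_neg, add_neg_cancel_right]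
    generalize w + (σ.β : ℤ) • -mul A (a, b) u = w at c e1
    have e2 : (p : ℤ) • u = mul A (cj (σ.γ p)) w := smul_right_injective _ b0 (by
      simp only [← mul_sm, e1, cj_mul_mul, n, mul_smul])
    have d := BIJ_dvd A (cj (σ.γ p)) w
    rw [← e2] at d
    have d2 := Int.dvd_gcd d.1 d.2
    simp only [Prod.smul_fst, Prod.smul_snd, smul_eq_mul, Int.gcd_mul_left, Int.natAbs_natCast] at d2
    have d3 := c.dvd_of_dvd_mul_right (d2.trans (mul_dvd_mul_left _ h1))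
    refine ⟨w, e1, e2, ((Nat.dvd_prime p1).1 d3).imp pr_iff.2 fun f => ?_⟩
    rw [← f]
    exact exists_pr fun z => p1.ne_zero (by simpa [z] using d3)
  · obtain ⟨u, e2⟩ := dv_iff.1 h
    have e1 : (σ.β : ℤ) • v = mul A (σ.γ p) u := smul_right_injective _ p0 (by
      simp only [← mul_sm, e2, mul_cj_mul, n, smul_smul, mul_comm])
    have d := BIJ_dvd A (σ.γ p) u
    rw [← e1] at d
    exact ⟨u, ⟨Int.natCast_dvd_natCast.1 (dvd_of_dvd_smul hv d.1 d.2), _,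
      by rw [e, ← e1, ← smul_add], BIJ_cop _ (pr_iff.1 hv ▸ Nat.coprime_one_left _)⟩, e1, e2⟩

end Pool.Agent.P.MP_8be758_nt.Pd
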