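import Pool.Agent.P.MP_8be758_nt.Pd.If0

/-! Step CNT. -/

namespace Pool.Agent.P.MP_8be758_nt.Pd

open Finset Real Filter
open ArithmeticFunction (cardFactors)
open Pool.Agent.P.MP_8be758_nt.Par (det)
open Pool.Agent.P.MP_8be758_nt.Avg (rho)

theorem CNT_cls (S : Finset V2) {d : ℕ} (hd : 0 < d) {e : ℝ}
    (h : ∀ w, |((S.filter fun v => C2 d v 0).card : ℝ) - (S.filter fun v => C2 d v w).card| ≤ e) :
    ((S.filter fun v => C2 d v 0).card : ℝ) ≤ S.card * ((d : ℝ) ^ 2)⁻¹ + e := by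
  have d0 : (0 : ℤ) < d := by exact_mod_cast hd
  have h1 := card_eq_sum_card_fiberwise (s := S) (t := bx d ×ˢ bx d)
    (f := fun v : V2 => (v.1 % (d : ℤ), v.2 % (d : ℤ))) fun v _ => by
      simp [bx, Int.emod_nonneg _ d0.ne', Int.emod_lt_of_pos _ d0]
  have h2 : ∑ w ∈ bx d ×ˢ bx d, (((S.filter fun v => C2 d v 0).card : ℝ) - e) ≤ S.card := by
    rw [h1, Nat.cast_sum]
    refine sum_le_sum fun w hw => ?_
    simp only [bx, mem_product, mem_Ico] at hw
    have := (abs_le.1 (h w)).2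
    rw [filter_congr (s := S) (p := fun v => C2 d v w) (q := fun v => (v.1 % (d : ℤ), v.2 % (d : ℤ)) = w)
      fun v _ => by rw [C2, Int.ModEq, Int.ModEq, Int.emod_eq_of_lt hw.1.1 hw.1.2,
        Int.emod_eq_of_lt hw.2.1 hw.2.2, Prod.ext_iff]] at this
    linarith
  rw [← sub_le_iff_le_add, ← div_eq_mul_inv, le_div_iff₀' (by positivity)]
  simpa [bx, sq, mul_sub] using h2

theorem CNT_scale {A : ℕ} {ψ : Fm} (hA : 1 ≤ A) (h : IsF A ψ) {N1 N2 : ℝ} (h0 : 0 ≤ N1) {d : ℕ}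
    (hd : 0 < d) :
    ((An ψ N1 N2).filter fun v => C2 d v 0).card ≤ (An ψ 0 (N2 * ((d : ℝ) ^ 2)⁻¹)).card := by
  refine le_trans (card_le_card fun v hv => ?_) (card_image_le (f := fun w : V2 => (d : ℤ) • w))
  obtain ⟨h1, h2, h3⟩ := mem_filter.1 hv
  obtain ⟨a, ha⟩ := Int.modEq_zero_iff_dvd.1 h2
  obtain ⟨b, hb⟩ := Int.modEq_zero_iff_dvd.1 h3
  have e : (ev ψ v : ℝ) = (d : ℝ) ^ 2 * ev ψ (a, b) := by
    simp only [ev, ha, hb]; push_cast; ring
  rw [mem_An hA h, e] at h1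
  refine mem_image.2 ⟨(a, b), (mem_An hA h).2 ⟨?_, ?_⟩, Prod.ext ha.symm hb.symm⟩
  · exact pos_of_mul_pos_right (h0.trans_lt h1.1) (by positivity)
  · rw [← div_eq_mul_inv, le_div_iff₀' (by positivity)]
    exact h1.2

theorem p_CNT (hLAT : S_LAT) (hAREA : S_AREA) :
    S_CNT := by
  intro A θ hA hθ
  obtain ⟨C, C0, hL⟩ := hLAT A hA
  obtain ⟨c, B, c0, B0, hR⟩ := hAREA A hA
  obtain ⟨k, hk, k0⟩ : ∃ k, 16 * k = c * (θ - 1) ∧ 0 < k :=
    ⟨c * (θ - 1) / 16, by ring, div_pos (mul_pos c0 (sub_pos.2 hθ)) (by norm_num)⟩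
  obtain ⟨E, hE⟩ := exists_nat_ge (3 * B * θ / k + 2)
  have t0 : 0 < θ := by linarith
  have e1 : 0 < 3 * B * θ / k := by positivity
  have e2 : 2 ≤ E := by exact_mod_cast (show (2 : ℝ) ≤ E by linarith)
  obtain ⟨K, hK, K0⟩ : ∃ K, K = B + E * C ∧ 0 < K := ⟨_, rfl, by positivity⟩
  refine ⟨k, (1 + K * θ / k) ^ 2, k0, fun ψ hψ N hN => ?_⟩
  have hF : IsF A ψ := (mem_filter.1 hψ).2
  have e3 : 0 < K * θ / k := by positivity
  have N0 : 0 ≤ N := (sq_nonneg _).trans hN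
  have N1 : N ≤ θ * N := le_mul_of_one_le_left N0 hθ.le
  have s1 : 1 + K * θ / k ≤ √(θ * N) := Real.le_sqrt_of_sq_le (hN.trans N1)
  have s2 := Real.mul_self_sqrt (N0.trans N1)
  have s3 : K * (√(θ * N) + 1) ≤ 2 * (k * N) := by
    have a1 : K * θ ≤ k * √(θ * N) := by rw [← div_le_iff₀' k0]; linarith
    have a2 := mul_le_mul_of_nonneg_right a1 (Real.sqrt_nonneg (θ * N))
    rw [mul_assoc k, s2, mul_right_comm, mul_comm θ N, ← mul_assoc,
      mul_le_mul_iff_left₀ t0, mul_comm N θ] at a2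
    have a3 := mul_le_mul_of_nonneg_left (show 1 ≤ √(θ * N) by linarith) K0.le
    linarith
  have up : ∀ x, 0 ≤ x → ((An ψ 0 x).card : ℝ) ≤ 3 * B * x := fun x hx => by
    rcases (An ψ 0 x).eq_empty_or_nonempty with e | ⟨v, hv⟩
    · rw [e, card_empty, Nat.cast_zero]; positivity
    · obtain ⟨a, b⟩ := (mem_An hA hF).1 hv
      have x1 : 1 ≤ x := le_trans (by exact_mod_cast a) b
      have := mul_le_mul_of_nonneg_left (show x - 0 + √x + 1 ≤ 3 * x by
        linarith [Real.sqrt_le_iff.2 ⟨hx, show x ≤ x ^ 2 by nlinarith⟩]) B0.le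
      linarith [(hR ψ hψ 0 x le_rfl hx).2]
  set S := An ψ N (θ * N) with hS
  set D := E + S.sup fun v => Int.gcd v.1 v.2
  have cov : S ⊆ VV ψ N (θ * N) ∪ (Ioc 1 D).biUnion fun d => S.filter fun v => C2 d v 0 := by
    intro v hv
    have h1 := (mem_An hA hF).1 hv
    by_cases h2 : Int.gcd v.1 v.2 = 1
    · exact mem_union_left _ ((mem_VV hA hF).2 ⟨Int.isCoprime_iff_gcd_eq_one.2 h2, h1⟩)
    have h3 : Int.gcd v.1 v.2 ≠ 0 := fun e => by
      obtain ⟨a, b⟩ := Int.gcd_eq_zero_iff.1 e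
      simp only [ev, a, b] at h1
      norm_num at h1
      linarith [h1.1]
    exact mem_union_right _ (mem_biUnion.2 ⟨Int.gcd v.1 v.2, mem_Ioc.2 ⟨by omega,
      le_add_left (le_sup (f := fun v : V2 => Int.gcd v.1 v.2) hv)⟩, mem_filter.2 ⟨hv,
        Int.modEq_zero_iff_dvd.2 (Int.gcd_dvd_left _ _),
        Int.modEq_zero_iff_dvd.2 (Int.gcd_dvd_right _ _)⟩⟩)
  have c1 : (S.card : ℝ) ≤ (VV ψ N (θ * N)).card +
      ∑ d ∈ Ioc 1 D, ((S.filter fun v => C2 d v 0).card : ℝ) := by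
    exact_mod_cast (card_le_card cov).trans
      ((card_union_le _ _).trans (Nat.add_le_add_left card_biUnion_le _))
  rw [← sum_Ioc_consecutive _ (show 1 ≤ E by omega) (Nat.le_add_right _ _)] at c1
  have c2 : ∑ d ∈ Ioc 1 E, ((S.filter fun v => C2 d v 0).card : ℝ) ≤
      S.card * (3 / 4) + E * (C * (√(θ * N) + 1)) := by
    refine (sum_le_sum (g := fun d : ℕ => S.card * ((d : ℝ) ^ 2)⁻¹ + C * (√(θ * N) + 1))
      fun d hd => ?_).trans ?_
    · have d1 := (mem_Ioc.1 hd).1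
      refine CNT_cls S (by omega) fun w => (hL ψ hψ N _ d 0 w N0 N1 (by omega)).trans ?_
      gcongr
      exact div_le_self (Real.sqrt_nonneg _) (by exact_mod_cast d1.le)
    · rw [sum_add_distrib, ← mul_sum, sum_const, nsmul_eq_mul,
        ← sum_Ioc_consecutive _ one_le_two e2]
      have := sum_Ioc_inv_sq_le_sub (α := ℝ) two_ne_zero e2
      have := inv_nonneg.2 (Nat.cast_nonneg (α := ℝ) E)
      gcongr
      · rw [show Ioc 1 2 = {2} from rfl, sum_singleton]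
        push_cast at *
        linarith
      · simp
  have c3 : ∑ d ∈ Ioc E D, ((S.filter fun v => C2 d v 0).card : ℝ) ≤ k * N := by
    refine (sum_le_sum (g := fun d : ℕ => 3 * B * (θ * N) * ((d : ℝ) ^ 2)⁻¹) fun d hd => ?_).trans ?_
    · rw [mul_assoc]
      exact le_trans (by exact_mod_cast CNT_scale hA hF N0 (by have := (mem_Ioc.1 hd).1; omega))
        (up _ (by positivity))
    · have a1 := sum_Ioc_inv_sq_le_sub (α := ℝ) (show E ≠ 0 by omega) (Nat.le_add_right E _ : E ≤ D)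
      have a2 := inv_nonneg.2 (Nat.cast_nonneg (α := ℝ) D)
      have a3 : 3 * B * θ * (E : ℝ)⁻¹ ≤ k := by
        rw [← div_eq_mul_inv, div_le_comm₀ (by linarith) k0]; linarith
      rw [← mul_sum]
      calc _ ≤ 3 * B * (θ * N) * (E : ℝ)⁻¹ := by gcongr; linarith
        _ = 3 * B * θ * (E : ℝ)⁻¹ * N := by ring
        _ ≤ _ := by gcongr
  have c4 := (hR ψ hψ N _ N0 N1).1
  have c5 : c * (θ * N - N) = 16 * (k * N) := by linear_combination (-N) * hk
  have c6 : 0 ≤ B * (√(θ * N) + 1) := by positivity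
  rw [hK] at s3
  linarith

end Pool.Agent.P.MP_8be758_nt.Pd
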