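import Pool.Agent.P.MP_8be758_nt.Pd.IfH

/-! Step CON1. -/

namespace Pool.Agent.P.MP_8be758_nt.Pd

open Finset Real Filter
open Pool.Agent.P.MP_8be758_nt.Par (det)
open Pool.Agent.P.MP_8be758_nt.Avg (rho)

theorem CON1_circle {F : Type} [Field F] [Fintype F] [DecidableEq F] (D : F) (hD : D ≠ 0)
    (h2 : (2 : F) ≠ 0) :
    Fintype.card F ≤ (univ.filter fun v : F × F => v.1 ^ 2 + D * v.2 ^ 2 = 1).card + 1 := by
  set T := univ.filter fun t : F => ¬(1 + D * t ^ 2 = 0) with hT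
  have hB : (univ.filter fun t : F => 1 + D * t ^ 2 = 0).card ≤ 2 := by
    rcases (univ.filter fun t : F => 1 + D * t ^ 2 = 0).eq_empty_or_nonempty with h | ⟨t0, h⟩
    · rw [h]; simp
    · refine (card_le_card (t := {t0, -t0}) fun t ht => ?_).trans card_le_two
      have h3 : D * ((t - t0) * (t + t0)) = 0 := by
        linear_combination (mem_filter.1 ht).2 - (mem_filter.1 h).2
      rcases mul_eq_zero.1 ((mul_eq_zero.1 h3).resolve_left hD) with h4 | h4
      · simp [sub_eq_zero.1 h4]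
      · simp [eq_neg_of_add_eq_zero_left h4]
  have hc := card_filter_add_card_filter_not (s := (univ : Finset F))
    fun t : F => 1 + D * t ^ 2 = 0
  set f : F → F × F := fun t => ((1 - D * t ^ 2) / (1 + D * t ^ 2), 2 * t / (1 + D * t ^ 2)) with hf
  have h1 : ∀ t ∈ T, 1 + (f t).1 ≠ 0 ∧ (f t).2 = t * (1 + (f t).1) ∧
      (f t).1 ^ 2 + D * (f t).2 ^ 2 = 1 := by
    intro t ht
    have h := (mem_filter.1 ht).2
    have e : 1 + (f t).1 = 2 / (1 + D * t ^ 2) := by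
      simp only [hf]; field_simp; ring
    refine ⟨e ▸ div_ne_zero h2 h, ?_, ?_⟩
    · rw [e]; simp only [hf]; ring
    · simp only [hf]; field_simp; ring
  have hinj : Set.InjOn f T := fun t ht t' ht' e => by
    have a1 := h1 t ht
    have a2 := h1 t' ht'
    rw [← e] at a2
    exact mul_right_cancel₀ a1.1 (a1.2.1.symm.trans a2.2.1)
  have hn : ((-1, 0) : F × F) ∉ T.image f := fun h => by
    obtain ⟨t, ht, e⟩ := mem_image.1 h
    have := (h1 t ht).1
    rw [e] at this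
    simp at this
  have hs : insert ((-1, 0) : F × F) (T.image f) ⊆
      univ.filter fun v : F × F => v.1 ^ 2 + D * v.2 ^ 2 = 1 := by
    intro v hv
    rcases mem_insert.1 hv with rfl | hv
    · simp
    · obtain ⟨t, ht, rfl⟩ := mem_image.1 hv
      exact mem_filter.2 ⟨mem_univ _, (h1 t ht).2.2⟩
  have := card_le_card hs
  rw [card_insert_of_notMem hn, card_image_of_injOn hinj] at this
  rw [card_univ] at hc
  rw [← hT] at hc
  omega

theorem CON1_conic {F : Type} [Field F] [Fintype F] [DecidableEq F] (α β γ u1 u2 : F)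
    (hD : 4 * α * γ - β ^ 2 ≠ 0) (h2 : (2 : F) ≠ 0) (ha : α * u1 ^ 2 + β * u1 * u2 + γ * u2 ^ 2 ≠ 0) :
    Fintype.card F ≤ (univ.filter fun v : F × F => α * v.1 ^ 2 + β * v.1 * v.2 + γ * v.2 ^ 2 =
      α * u1 ^ 2 + β * u1 * u2 + γ * u2 ^ 2).card + 1 := by
  refine (CON1_circle _ hD h2).trans (Nat.add_le_add_right ?_ 1)
  refine card_le_card_of_injOn (fun v => (v.1 * u1 - v.2 * (β * u1 + 2 * γ * u2),
    v.1 * u2 + v.2 * (2 * α * u1 + β * u2))) (fun v hv => ?_) fun v _ w _ e => ?_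
  · have h := (mem_filter.1 (mem_coe.1 hv)).2
    refine mem_coe.2 (mem_filter.2 ⟨mem_univ _, ?_⟩)
    linear_combination (α * u1 ^ 2 + β * u1 * u2 + γ * u2 ^ 2) * h
  · obtain ⟨e1, e2⟩ := Prod.mk.inj e
    have h3 := mul_ne_zero h2 ha
    refine Prod.ext (mul_left_cancel₀ h3 ?_) (mul_left_cancel₀ h3 ?_)
    · linear_combination (2 * α * u1 + β * u2) * e1 + (β * u1 + 2 * γ * u2) * e2
    · linear_combination u1 * e2 - u2 * e1

theorem p_CON1 :
    S_CON1 := by
  intro A p ψ u hA hψ hp hAp hu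
  haveI := Fact.mk hp
  have hp0 : (0 : ℝ) < p := by exact_mod_cast hp.pos
  have h2 : (2 : ZMod p) ≠ 0 := fun h => by
    have : ((2 : ℕ) : ZMod p) = 0 := by exact_mod_cast h
    have := Nat.le_of_dvd two_pos ((ZMod.natCast_eq_zero_iff _ _).1 this)
    omega
  have hD : 4 * (ψ.1 : ZMod p) * ψ.2.2 - (ψ.2.1 : ZMod p) ^ 2 ≠ 0 := fun h => by
    have e : 4 * ψ.1 * ψ.2.2 - ψ.2.1 ^ 2 = ((4 * A - 1 : ℕ) : ℤ) := by
      have := hψ.1
      rw [Nat.cast_sub (by omega)]
      push_cast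
      linarith
    have e2 : ((4 * A - 1 : ℕ) : ZMod p) = 0 := by
      rw [← Int.cast_natCast, ← e]
      push_cast
      exact h
    have := Nat.le_of_dvd (by omega) ((ZMod.natCast_eq_zero_iff _ _).1 e2)
    omega
  have ha : (ψ.1 : ZMod p) * (u.1 : ZMod p) ^ 2 + ψ.2.1 * u.1 * u.2 + ψ.2.2 * (u.2 : ZMod p) ^ 2 ≠ 0 :=
    fun h => hu ((ZMod.intCast_zmod_eq_zero_iff_dvd _ _).1 (by
      simp only [ev]; push_cast; exact h))
  have H := CON1_conic _ _ _ _ _ hD h2 ha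
  rw [ZMod.card] at H
  have hle : (univ.filter fun v : ZMod p × ZMod p =>
      (ψ.1 : ZMod p) * v.1 ^ 2 + ψ.2.1 * v.1 * v.2 + ψ.2.2 * v.2 ^ 2 =
      ψ.1 * (u.1 : ZMod p) ^ 2 + ψ.2.1 * u.1 * u.2 + ψ.2.2 * (u.2 : ZMod p) ^ 2).card ≤
      ((bx p ×ˢ bx p).filter fun v => (p : ℤ) ∣ ev ψ u - ev ψ v).card := by
    refine card_le_card_of_injOn (fun v => ((v.1.val : ℤ), (v.2.val : ℤ))) (fun v hv => ?_)
      fun v _ w _ e => ?_
    · have h := (mem_filter.1 (mem_coe.1 hv)).2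
      refine mem_coe.2 (mem_filter.2 ⟨?_, (ZMod.intCast_zmod_eq_zero_iff_dvd _ _).1 ?_⟩)
      · simp only [bx, mem_product, mem_Ico]
        exact ⟨⟨Nat.cast_nonneg _, by exact_mod_cast ZMod.val_lt _⟩,
          Nat.cast_nonneg _, by exact_mod_cast ZMod.val_lt _⟩
      · simp only [ev]
        push_cast
        simp only [ZMod.natCast_val, ZMod.cast_id', id_eq]
        linear_combination -h
    · obtain ⟨e1, e2⟩ := Prod.mk.inj e
      exact Prod.ext (ZMod.val_injective p (by exact_mod_cast e1))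
        (ZMod.val_injective p (by exact_mod_cast e2))
  have hU : ((S2.U p).card : ℝ) = (p : ℝ) ^ 2 := by
    simp [S2, bx, sq]
  have hsum : ∑ v ∈ S2.U p, ind ((p : ℤ) ∣ ev ψ u - ev ψ v) =
      (((bx p ×ˢ bx p).filter fun v => (p : ℤ) ∣ ev ψ u - ev ψ v).card : ℝ) := by
    rw [card_filter]
    push_cast
    refine sum_congr rfl fun v _ => ?_
    by_cases h : (p : ℤ) ∣ ev ψ u - ev ψ v
    · rw [ind_pos h, if_pos h]
    · rw [ind_neg h, if_neg h]
  rw [Sys.av, hU, hsum]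
  refine div_le_div_of_nonneg_right ?_ (by positivity)
  have : (p : ℝ) ≤ (((bx p ×ˢ bx p).filter fun v => (p : ℤ) ∣ ev ψ u - ev ψ v).card : ℝ) + 1 := by
    exact_mod_cast H.trans (Nat.add_le_add_right hle 1)
  linarith

end Pool.Agent.P.MP_8be758_nt.Pd
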