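import Pool.Agent.P.MP_8be758_nt.Pd.IfH

/-! Step CON2. -/

namespace Pool.Agent.P.MP_8be758_nt.Pd

open Finset Real Filter
open Pool.Agent.P.MP_8be758_nt.Par (det)
open Pool.Agent.P.MP_8be758_nt.Avg (rho)

theorem CON2_card (m : ℕ) : (bx m).card = m := by simp [bx]

theorem CON2_eq {p : ℕ} {x y : ℤ} (hx : x ∈ bx p) (hy : y ∈ bx p) (h : (p : ℤ) ∣ x - y) : x = y := by
  rw [bx, mem_Ico] at hx hy
  have := Int.eq_zero_of_abs_lt_dvd h (abs_lt.2 ⟨by omega, by omega⟩)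
  omega

theorem CON2_lin {p : ℕ} (hp : Prime (p : ℤ)) {b : ℤ} (hb : ¬(p : ℤ) ∣ b) (c : ℤ) :
    ((bx p).filter fun x => (p : ℤ) ∣ b * x + c).card ≤ 1 := by
  refine card_le_one.2 fun x hx y hy => ?_
  obtain ⟨h1, h2⟩ := mem_filter.1 hx
  obtain ⟨h3, h4⟩ := mem_filter.1 hy
  have := h2.sub h4
  rw [show b * x + c - (b * y + c) = b * (x - y) by ring] at this
  exact CON2_eq h1 h3 ((hp.dvd_or_dvd this).resolve_left hb)

theorem CON2_quad {p : ℕ} (hp : Prime (p : ℤ)) {a : ℤ} (ha : ¬(p : ℤ) ∣ a) (b c : ℤ) :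
    ((bx p).filter fun x => (p : ℤ) ∣ a * x ^ 2 + b * x + c).card ≤ 2 := by
  by_contra h
  obtain ⟨x, hx, y, hy, z, hz, h1, h2, h3⟩ := two_lt_card.1 (not_le.1 h)
  rw [mem_filter] at hx hy hz
  have k : ∀ u v : ℤ, u ∈ bx p ∧ (p : ℤ) ∣ a * u ^ 2 + b * u + c →
      v ∈ bx p ∧ (p : ℤ) ∣ a * v ^ 2 + b * v + c → u ≠ v → (p : ℤ) ∣ a * (u + v) + b :=
    fun u v hu hv e => by
      have := hu.2.sub hv.2
      rw [show a * u ^ 2 + b * u + c - (a * v ^ 2 + b * v + c) = (u - v) * (a * (u + v) + b) by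
        ring] at this
      exact (hp.dvd_or_dvd this).resolve_left fun d => e (CON2_eq hu.1 hv.1 d)
  have := (k x y hx hy h1).sub (k x z hx hz h2)
  rw [show a * (x + y) + b - (a * (x + z) + b) = a * (y - z) by ring] at this
  exact h3 (CON2_eq hy.1 hz.1 ((hp.dvd_or_dvd this).resolve_left ha))

theorem CON2_fib (s t : Finset ℤ) (P : V2 → Prop) [DecidablePred P] :
    ((s ×ˢ t).filter P).card = ∑ y ∈ t, (s.filter fun x => P (x, y)).card ∧
    ((s ×ˢ t).filter P).card = ∑ x ∈ s, (t.filter fun y => P (x, y)).card := by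
  simp only [card_filter]
  exact ⟨sum_product_right _ _ _, sum_product _ _ _⟩

theorem CON2_lin2 {p : ℕ} (hp : Prime (p : ℤ)) {b1 b2 : ℤ} (hb : ¬((p : ℤ) ∣ b1 ∧ (p : ℤ) ∣ b2))
    (c : ℤ) : ((bx p ×ˢ bx p).filter fun h => (p : ℤ) ∣ b1 * h.1 + b2 * h.2 + c).card ≤ p := by
  rcases not_and_or.1 hb with h | h
  · rw [(CON2_fib _ _ _).1]
    refine (sum_le_card_nsmul _ _ 1 fun y _ => ?_).trans (by simp [CON2_card])
    simpa only [add_assoc] using CON2_lin hp h (b2 * y + c)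
  · rw [(CON2_fib _ _ _).2]
    refine (sum_le_card_nsmul _ _ 1 fun x _ => ?_).trans (by simp [CON2_card])
    simpa only [add_assoc, add_left_comm] using CON2_lin hp h (b1 * x + c)

theorem CON2_disc {A p : ℕ} {ψ : Fm} (hA : 1 ≤ A) (h : IsF A ψ) (hp : 4 * A < p) :
    ¬(p : ℤ) ∣ 4 * ψ.1 * ψ.2.2 - ψ.2.1 ^ 2 := fun d => by
  have e := h.1
  have := Int.le_of_dvd (by omega) d
  omega

theorem CON2_one {A p : ℕ} {ψ : Fm} (hA : 1 ≤ A) (h : IsF A ψ) (hp : Prime (p : ℤ))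
    (hq : 4 * A < p) (c : ℤ) :
    ((bx p ×ˢ bx p).filter fun v => (p : ℤ) ∣ ev ψ v - c).card ≤ 2 * p := by
  rw [(CON2_fib _ _ _).1]
  by_cases h1 : (p : ℤ) ∣ ψ.1
  · have h2 : ¬(p : ℤ) ∣ ψ.2.1 := fun d => CON2_disc hA h hq
      (((h1.mul_left 4).mul_right _).sub (dvd_pow d two_ne_zero))
    refine (sum_le_sum (g := fun y => (if y = 0 then p else 0) + 1) fun y hy => ?_).trans ?_
    · split_ifs with e
      · exact ((card_filter_le _ _).trans (CON2_card p).le).trans (Nat.le_succ _)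
      · have h3 : ¬(p : ℤ) ∣ ψ.2.1 * y := fun d => (hp.dvd_or_dvd d).elim h2 fun d =>
          e (CON2_eq hy (by simp [bx]; omega) (by simpa using d))
        refine le_trans (card_le_card fun x hx => ?_) (CON2_lin hp h3 (ψ.2.2 * y ^ 2 - c))
        refine mem_filter.2 ⟨(mem_filter.1 hx).1, ?_⟩
        have := (mem_filter.1 hx).2.sub (h1.mul_right (x ^ 2))
        rwa [show ev ψ (x, y) - c - ψ.1 * x ^ 2 = ψ.2.1 * y * x + (ψ.2.2 * y ^ 2 - c) by
          simp only [ev]; ring] at this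
    · rw [sum_add_distrib, sum_ite_eq', sum_const, CON2_card]
      split_ifs <;> simp only [smul_eq_mul] <;> omega
  · refine (sum_le_card_nsmul _ _ 2 fun y _ => ?_).trans (by simp [CON2_card, mul_comm])
    refine le_trans (le_of_eq ?_) (CON2_quad hp h1 (ψ.2.1 * y) (ψ.2.2 * y ^ 2 - c))
    congr 1
    refine filter_congr fun x _ => ?_
    rw [show ev ψ (x, y) - c = ψ.1 * x ^ 2 + ψ.2.1 * y * x + (ψ.2.2 * y ^ 2 - c) by
      simp only [ev]; ring]

theorem CON2_two {A p : ℕ} {ψ : Fm} (hA : 1 ≤ A) (h : IsF A ψ) (hp : Prime (p : ℤ))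
    (hq : 4 * A < p) :
    ((bx (p ^ 2) ×ˢ bx (p ^ 2)).filter fun v => (p : ℤ) ^ 2 ∣ ev ψ v).card ≤ 3 * p ^ 2 := by
  have hp0 : (0 : ℤ) < p := by omega
  have dv : ∀ x ∈ bx (p ^ 2), x % p ∈ bx p ∧ x / p ∈ bx p := fun x hx => by
    rw [bx, mem_Ico] at hx
    simp only [bx, mem_Ico]
    refine ⟨⟨Int.emod_nonneg _ hp0.ne', Int.emod_lt_of_pos _ hp0⟩, Int.ediv_nonneg hx.1 hp0.le,
      Int.ediv_lt_of_lt_mul hp0 ?_⟩
    simpa [sq] using hx.2
  refine le_trans (card_le_card (t := (bx p ×ˢ bx p).biUnion fun u => ((bx p ×ˢ bx p).filter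
    fun w => (p : ℤ) ^ 2 ∣ ev ψ (u + (p : ℤ) • w)).image fun w => u + (p : ℤ) • w) fun v hv => ?_)
    (card_biUnion_le.trans ?_)
  · obtain ⟨h1, h2⟩ := mem_filter.1 hv
    obtain ⟨h3, h4⟩ := mem_product.1 h1
    have e : (v.1 % p, v.2 % p) + (p : ℤ) • (v.1 / p, v.2 / p) = v :=
      Prod.ext (Int.emod_add_mul_ediv _ _) (Int.emod_add_mul_ediv _ _)
    exact mem_biUnion.2 ⟨(v.1 % p, v.2 % p), mem_product.2 ⟨(dv _ h3).1, (dv _ h4).1⟩,
      mem_image.2 ⟨(v.1 / p, v.2 / p), mem_filter.2 ⟨mem_product.2 ⟨(dv _ h3).2, (dv _ h4).2⟩,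
        by rwa [e]⟩, e⟩⟩
  refine (sum_le_sum (g := fun u => (if u = 0 then p ^ 2 else 0) +
    if (p : ℤ) ∣ ev ψ u - 0 then p else 0) fun u hu => card_image_le.trans ?_).trans ?_
  · have e : ∀ w : V2, ev ψ (u + (p : ℤ) • w) = ev ψ u + p * ((2 * ψ.1 * u.1 + ψ.2.1 * u.2) * w.1 +
        (ψ.2.1 * u.1 + 2 * ψ.2.2 * u.2) * w.2) + p ^ 2 * ev ψ w := fun w => by
      simp only [ev, Prod.fst_add, Prod.snd_add, Prod.smul_fst, Prod.smul_snd, smul_eq_mul]
      ring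
    by_cases h0 : u = 0
    · rw [if_pos h0]
      refine le_trans ((card_filter_le _ _).trans ?_) (Nat.le_add_right _ _)
      rw [card_product, CON2_card, sq]
    rw [if_neg h0, zero_add, sub_zero]
    split_ifs with h1
    · obtain ⟨c, hc⟩ := h1
      refine le_trans (card_le_card fun w hw => ?_) (CON2_lin2 hp
        (b1 := 2 * ψ.1 * u.1 + ψ.2.1 * u.2) (b2 := ψ.2.1 * u.1 + 2 * ψ.2.2 * u.2)
        (fun ⟨d1, d2⟩ => h0 ?_) c)
      · refine mem_filter.2 ⟨(mem_filter.1 hw).1, ?_⟩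
        have := (mem_filter.1 hw).2
        rw [e, dvd_add_left (Dvd.intro _ rfl), hc, ← mul_add, sq,
          mul_dvd_mul_iff_left hp0.ne'] at this
        rwa [add_comm]
      · obtain ⟨u1, u2⟩ := mem_product.1 hu
        have z : (0 : ℤ) ∈ bx p := by simp [bx]; omega
        have k1 := (d1.mul_left (2 * ψ.2.2)).sub (d2.mul_left ψ.2.1)
        have k2 := (d2.mul_left (2 * ψ.1)).sub (d1.mul_left ψ.2.1)
        rw [show 2 * ψ.2.2 * (2 * ψ.1 * u.1 + ψ.2.1 * u.2) - ψ.2.1 * (ψ.2.1 * u.1 + 2 * ψ.2.2 * u.2)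
          = (4 * ψ.1 * ψ.2.2 - ψ.2.1 ^ 2) * (u.1 - 0) by ring] at k1
        rw [show 2 * ψ.1 * (ψ.2.1 * u.1 + 2 * ψ.2.2 * u.2) - ψ.2.1 * (2 * ψ.1 * u.1 + ψ.2.1 * u.2)
          = (4 * ψ.1 * ψ.2.2 - ψ.2.1 ^ 2) * (u.2 - 0) by ring] at k2
        exact Prod.ext (CON2_eq u1 z ((hp.dvd_or_dvd k1).resolve_left (CON2_disc hA h hq)))
          (CON2_eq u2 z ((hp.dvd_or_dvd k2).resolve_left (CON2_disc hA h hq)))
    · refine (card_eq_zero.2 (filter_eq_empty_iff.2 fun w _ d => h1 ?_)).le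
      have := (Dvd.intro _ (sq (p : ℤ)).symm).trans d
      rw [e, sq, mul_assoc (p : ℤ) p, add_assoc, ← mul_add, dvd_add_left (Dvd.intro _ rfl)] at this
      exact this
  · rw [sum_add_distrib, sum_ite_eq', ← sum_filter, sum_const, smul_eq_mul]
    have := Nat.mul_le_mul_right p (CON2_one hA h hp hq 0)
    split_ifs <;> nlinarith

theorem CON2_av (m : ℕ) (P : V2 → Prop) [DecidablePred P] :
    S2.av m (fun v => ind (P v)) = ((bx m ×ˢ bx m).filter P).card / (m : ℝ) ^ 2 := by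
  simp only [Sys.av, S2, card_product, CON2_card, card_filter]
  push_cast
  rw [sq]
  congr 1
  exact sum_congr rfl fun v _ => by split_ifs with k <;> simp [ind, k]

theorem p_CON2 (hBOX : S_BOX) :
    S_CON2 := by
  intro A p ψ hA h hp hq
  have hp' := Nat.prime_iff_prime_int.1 hp
  have hp0 : (0 : ℝ) < p := by exact_mod_cast hp.pos
  refine ⟨fun c => ?_, ?_⟩
  · rw [sq, hBOX.2.2.2 p p _ hp.pos hp.pos fun x y e => ?_, CON2_av,
      div_le_div_iff₀ (by positivity) hp0]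
    · have : (((bx p ×ˢ bx p).filter fun v => (p : ℤ) ∣ ev ψ v - c).card : ℝ) ≤ 2 * p := by
        exact_mod_cast CON2_one hA h hp' hq c
      nlinarith
    · have : ev ψ x - c ≡ ev ψ y - c [ZMOD p] := by
        unfold ev
        exact (((e.1.pow 2).mul_left _).add ((e.1.mul_left _).mul e.2)).add
          ((e.2.pow 2).mul_left _) |>.sub_right c
      rw [← Int.modEq_zero_iff_dvd, ← Int.modEq_zero_iff_dvd,
        propext ⟨this.symm.trans, this.trans⟩]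
  · rw [CON2_av, Nat.cast_pow, div_le_div_iff₀ (by positivity) (by positivity)]
    have : (((bx (p ^ 2) ×ˢ bx (p ^ 2)).filter fun v => (p : ℤ) ^ 2 ∣ ev ψ v).card : ℝ) ≤
        3 * p ^ 2 := by exact_mod_cast CON2_two hA h hp' hq
    nlinarith [mul_le_mul_of_nonneg_right this (by positivity : (0 : ℝ) ≤ p ^ 2)]

end Pool.Agent.P.MP_8be758_nt.Pd
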