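import Pool.Agent.P.MP_8be758_nt.Pd.IfN

/-! Step COVER. -/

namespace Pool.Agent.P.MP_8be758_nt.Pd

open Finset Real Filter
open Pool.Agent.P.MP_8be758_nt.Par (det)
open Pool.Agent.P.MP_8be758_nt.Avg (rho)
open scoped Classical

theorem COVER_scale {X a : ℝ} (J : ℕ) (h1 : X / 2 ^ J < a) (h2 : a ≤ X) :
    ∃ j < J, X / 2 ^ (j + 1) < a ∧ a ≤ 2 * (X / 2 ^ (j + 1)) := by
  induction J with
  | zero => simp at h1; linarith
  | succ J ih =>
    by_cases h : X / 2 ^ J < a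
    · obtain ⟨j, hj, h3⟩ := ih h
      exact ⟨j, by omega, h3⟩
    · refine ⟨J, by omega, h1, ?_⟩
      have : 2 * (X / 2 ^ (J + 1)) = X / 2 ^ J := by rw [pow_succ]; field_simp
      rw [this]; exact not_lt.1 h

theorem p_COVER (hRED : S_RED) :
    S_COVER := by
  intro A J X L Φ H F hA hX hF hΦ
  have key : ∀ φ ∈ Φ, H φ ≤ ∑ j ∈ range J, ∑ ψ ∈ Red A,
      ∑ g ∈ GG ψ (X / 2 ^ (j + 1)) 0 (L * 2 ^ (j + 1)),
        if act ψ g = φ then F j (act ψ g) else 0 := by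
    intro φ hφ
    obtain ⟨h1, h2, h3, h4, h5, h6⟩ := hΦ φ hφ
    obtain ⟨j, hj, h7, h8⟩ := COVER_scale J h2 h3
    obtain ⟨ψ, hψ, g, hg, rfl⟩ := hRED A φ hA h1
    have hψ' : IsF A ψ := (mem_filter.1 hψ).2
    have n0 : ∀ (j : ℕ) (ψ' : Fm) (g' : G4),
        0 ≤ if act ψ' g' = act ψ g then F j (act ψ' g') else 0 := by
      intro j ψ' g'; split_ifs
      · exact hF _ _
      · exact le_rfl
    have h4' : (0 : ℝ) < ((act ψ g).2.1 : ℝ) := by exact_mod_cast h4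
    have hL : 0 < L := (mul_pos_iff_of_pos_right hX).1 (h4'.trans_le h5)
    have hm : g ∈ GG ψ (X / 2 ^ (j + 1)) 0 (L * 2 ^ (j + 1)) := by
      refine (mem_GG hA hψ').2 ⟨hg, h7, h8, by rw [zero_mul]; exact h4', ?_⟩
      refine le_trans h5 ?_
      have h9 : X < (ev ψ g.1 : ℝ) * 2 ^ (j + 1) := (div_lt_iff₀ (by positivity)).1 h7
      calc L * X ≤ L * ((ev ψ g.1 : ℝ) * 2 ^ (j + 1)) := mul_le_mul_of_nonneg_left h9.le hL.le
        _ = L * 2 ^ (j + 1) * (ev ψ g.1 : ℝ) := by ring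
    refine (h6 j h7 h8).trans ?_
    refine le_trans ?_ (single_le_sum (f := fun j => ∑ ψ' ∈ Red A,
      ∑ g' ∈ GG ψ' (X / 2 ^ (j + 1)) 0 (L * 2 ^ (j + 1)),
        if act ψ' g' = act ψ g then F j (act ψ' g') else 0)
      (fun i _ => sum_nonneg fun _ _ => sum_nonneg fun _ _ => n0 _ _ _) (mem_range.2 hj))
    refine le_trans ?_ (single_le_sum (f := fun ψ' =>
      ∑ g' ∈ GG ψ' (X / 2 ^ (j + 1)) 0 (L * 2 ^ (j + 1)),
        if act ψ' g' = act ψ g then F j (act ψ' g') else 0)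
      (fun i _ => sum_nonneg fun _ _ => n0 _ _ _) hψ)
    refine le_trans ?_ (single_le_sum (f := fun g' =>
        if act ψ g' = act ψ g then F j (act ψ g') else 0) (fun i _ => n0 _ _ _) hm)
    simp
  refine (sum_le_sum key).trans ?_
  rw [sum_comm]
  refine sum_le_sum fun j _ => ?_
  rw [sum_comm]
  refine sum_le_sum fun ψ _ => ?_
  rw [sum_comm]
  refine sum_le_sum fun g _ => ?_
  rw [sum_ite_eq]
  split_ifs
  · exact le_rfl
  · exact hF _ _

end Pool.Agent.P.MP_8be758_nt.Pd
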