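import Pool.Agent.P.MP_8be758_nt.Pd.IfT
import Pool.Agent.P.MP_8be758_nt.Avg.FAR

/-! Step CR. -/

namespace Pool.Agent.P.MP_8be758_nt.Pd

open Finset Real Filter
open Pool.Agent.P.MP_8be758_nt.Par (det)
open Pool.Agent.P.MP_8be758_nt.Avg (rho)
open Pool.Agent.P.MP_e86632_nt (ee)

theorem CR_cnt (S : Finset ℤ) (R : ℝ) (hR : 0 ≤ R) (d : ℕ) (hd : 0 < d)
    (h1 : ∀ s ∈ S, |(s : ℝ)| ≤ R) (h2 : ∀ s ∈ S, ∀ s' ∈ S, (d : ℤ) ∣ s - s') :
    (S.card : ℝ) ≤ 2 * R / d + 1 := by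
  have hd' : (0 : ℝ) < d := by exact_mod_cast hd
  have hdz : (0 : ℤ) < d := by exact_mod_cast hd
  rcases S.eq_empty_or_nonempty with rfl | hne
  · simp only [card_empty, Nat.cast_zero]; positivity
  set m := S.min' hne
  have hm : m ∈ S := S.min'_mem hne
  have h0 : (0 : ℤ) ≤ ⌊2 * R / d⌋ := Int.floor_nonneg.2 (by positivity)
  have hc : S.card ≤ (Icc (0 : ℤ) ⌊2 * R / d⌋).card := by
    refine card_le_card_of_injOn (fun s => (s - m) / d) (fun s hs => ?_) fun s hs s' hs' e => ?_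
    · obtain ⟨k, hk⟩ := h2 s hs m hm
      have hms : m ≤ s := S.min'_le s hs
      simp only [coe_Icc, Set.mem_Icc]
      rw [hk, Int.mul_ediv_cancel_left _ hdz.ne']
      refine ⟨by nlinarith, Int.le_floor.2 ?_⟩
      rw [le_div_iff₀ hd']
      have e : (s : ℝ) - m = d * k := by exact_mod_cast hk
      have := abs_le.1 (h1 s hs)
      have := abs_le.1 (h1 m hm)
      nlinarith
    · obtain ⟨k, hk⟩ := h2 s hs m hm
      obtain ⟨k', hk'⟩ := h2 s' hs' m hm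
      simp only at e
      rw [hk, hk', Int.mul_ediv_cancel_left _ hdz.ne', Int.mul_ediv_cancel_left _ hdz.ne'] at e
      rw [e] at hk
      linarith
  rw [Int.card_Icc] at hc
  have h3 : ((⌊2 * R / d⌋ + 1 - 0).toNat : ℤ) = ⌊2 * R / d⌋ + 1 := by
    rw [Int.toNat_of_nonneg (by omega)]; ring
  have h4 : (S.card : ℤ) ≤ ⌊2 * R / d⌋ + 1 := by rw [← h3]; exact_mod_cast hc
  have h5 : (S.card : ℝ) ≤ (⌊2 * R / d⌋ : ℤ) + 1 := by exact_mod_cast h4
  linarith [Int.floor_le (2 * R / d)]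

/-- weight of one side -/
noncomputable def CR_w (a : ℤ) (d : ℕ) (v : V2) : ℝ :=
  ind ((d : ℤ) ∣ a - v.1 * v.2) * √(d : ℝ) / ((a - v.1 * v.2 : ℤ) : ℝ)

theorem CR_side {a : ℤ} {T C0 y : ℝ} (hC : 1 ≤ C0) (hT : 0 < T) (hy : 0 < y)
    (ha : T ^ 2 * y ≤ a) (d : ℕ) (hd : y < d) (t : ℤ) :
    ∑ v ∈ (SR a T C0).filter fun v => v.2 = t, CR_w a d v ≤ 7 * C0 / (T * √y) := by
  classical
  have hTC : 0 < T / C0 := by positivity
  have ha0 : (0 : ℝ) < a := lt_of_lt_of_le (by positivity) ha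
  have hd0 : (0 : ℝ) < d := hy.trans hd
  have hu : 0 < √y := sqrt_pos.2 hy
  have hr : 0 < √(d : ℝ) := sqrt_pos.2 hd0
  set F := (SR a T C0).filter fun v => v.2 = t
  set S := F.filter fun v => (d : ℤ) ∣ a - v.1 * v.2
  have hS : ∀ v ∈ S, T / C0 ≤ |(t : ℝ)| ∧ |v.1 * t| ≤ a ∧ a ≤ 2 * (a - v.1 * t) ∧
      IsCoprime t (a - v.1 * t) ∧ (d : ℤ) ∣ a - v.1 * t ∧ v.2 = t := fun v hv => by
    obtain ⟨h1, h2⟩ := mem_filter.1 hv
    obtain ⟨h3, h4⟩ := mem_filter.1 h1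
    obtain ⟨b1, -, b3, b4, b5⟩ := (mem_SR hTC).1 h3
    rw [h4] at b1 b3 b4 b5 h2
    exact ⟨b1, b3, b4, b5, h2, h4⟩
  have e1 : ∑ v ∈ F, CR_w a d v = ∑ v ∈ S, CR_w a d v := by
    refine (sum_subset (filter_subset _ _) fun v hv hn => ?_).symm
    have : ¬(d : ℤ) ∣ a - v.1 * v.2 := fun h => hn (mem_filter.2 ⟨hv, h⟩)
    simp [CR_w, ind_neg this]
  rw [e1]
  rcases S.eq_empty_or_nonempty with h | ⟨v0, hv0⟩
  · rw [h, sum_empty]; positivity
  have e2 : ∑ v ∈ S, CR_w a d v ≤ S.card * (√(d : ℝ) * 2 / a) := by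
    rw [← nsmul_eq_mul]
    refine sum_le_card_nsmul _ _ _ fun v hv => ?_
    obtain ⟨-, -, b3, -, b5, b6⟩ := hS v hv
    have b7 : (a : ℝ) ≤ 2 * ((a - v.1 * t : ℤ) : ℝ) := by exact_mod_cast b3
    rw [CR_w, b6, ind_pos b5, one_mul, div_le_div_iff₀ (by linarith) ha0]
    nlinarith
  have e3 : (S.card : ℝ) ≤ 2 * (a * C0 / T) / d + 1 := by
    have hinj : Set.InjOn (fun v : V2 => v.1) S := fun v hv v' hv' e =>
      Prod.ext e ((hS v hv).2.2.2.2.2.trans (hS v' hv').2.2.2.2.2.symm)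
    rw [← card_image_of_injOn hinj]
    refine CR_cnt _ _ (by positivity) d (by exact_mod_cast hd0) (fun s hs => ?_)
      fun s hs s' hs' => ?_
    · obtain ⟨v, hv, rfl⟩ := mem_image.1 hs
      obtain ⟨b1, b2, -⟩ := hS v hv
      have b3 : |(v.1 : ℝ)| * |(t : ℝ)| ≤ a := by rw [← abs_mul]; exact_mod_cast b2
      rw [div_le_iff₀ (by linarith)] at b1
      rw [le_div_iff₀ hT]
      have := mul_le_mul_of_nonneg_left b1 (abs_nonneg (v.1 : ℝ))
      nlinarith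
    · obtain ⟨v, hv, rfl⟩ := mem_image.1 hs
      obtain ⟨v', hv', rfl⟩ := mem_image.1 hs'
      obtain ⟨-, -, -, b4, b5, -⟩ := hS v hv
      obtain ⟨-, -, -, -, b5', -⟩ := hS v' hv'
      have hc : IsCoprime (d : ℤ) t := (b4.of_isCoprime_of_dvd_right b5).symm
      refine hc.dvd_of_dvd_mul_right ?_
      have := dvd_sub b5' b5
      rwa [show a - v'.1 * t - (a - v.1 * t) = (v.1 - v'.1) * t by ring] at this
  obtain ⟨-, b2, b3, -, b5, -⟩ := hS v0 hv0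
  have ha1 : 0 < a := by exact_mod_cast ha0
  have e4 : (d : ℝ) ≤ 2 * a := by
    have h1 := Int.le_of_dvd (by linarith) b5
    have h2 := (abs_le.1 b2).1
    exact_mod_cast (by linarith : (d : ℤ) ≤ 2 * a)
  have hur : √y ≤ √(d : ℝ) := sqrt_le_sqrt hd.le
  have hr2 : √(d : ℝ) ^ 2 = d := sq_sqrt hd0.le
  have hu2 : √y ^ 2 = y := sq_sqrt hy.le
  set r := √(d : ℝ)
  set u := √y
  have e5 : r * (T * u) * 2 ≤ 3 * a := by
    refine (pow_le_pow_iff_left₀ (by positivity) (by positivity) two_ne_zero).1 ?_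
    have : (r * (T * u) * 2) ^ 2 = 4 * (d * (T ^ 2 * y)) := by rw [← hr2, ← hu2]; ring
    rw [this]
    have := mul_le_mul e4 ha (by positivity) (by positivity)
    nlinarith
  calc _ ≤ (2 * (a * C0 / T) / d + 1) * (r * 2 / a) :=
        e2.trans (mul_le_mul_of_nonneg_right e3 (by positivity))
    _ = 4 * C0 / (T * r) + r * 2 / a := by rw [← hr2]; field_simp; ring
    _ ≤ 4 * C0 / (T * u) + 3 * C0 / (T * u) := by
        refine add_le_add (by gcongr) ?_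
        rw [div_le_div_iff₀ ha0 (by positivity)]
        nlinarith
    _ = _ := by ring

theorem CR_ts {a : ℤ} {T C0 : ℝ} (hC : 1 ≤ C0) (hT : 1 ≤ T) :
    (((SR a T C0).image fun v => v.2).card : ℝ) ≤ 3 * (C0 * T) := by
  have hTC : 0 < T / C0 := by positivity
  have h1 : 1 ≤ C0 * T := one_le_mul_of_one_le_of_one_le hC hT
  have := CR_cnt ((SR a T C0).image fun v => v.2) (C0 * T) (by positivity) 1 one_pos
    (fun s hs => by
      obtain ⟨v, hv, rfl⟩ := mem_image.1 hs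
      exact ((mem_SR hTC).1 hv).2.1) fun s _ s' _ => by simp
  simp only [Nat.cast_one, div_one] at this
  linarith

theorem CR_core {a a' α β : ℤ} {T T' C0 y τ : ℝ} (hC : 1 ≤ C0) (hT : 1 ≤ T) (hT' : 1 ≤ T')
    (hy : 0 < y) (ha : T ^ 2 * y ≤ a) (ha' : T' ^ 2 * y ≤ a') (hτ0 : 0 ≤ τ)
    (hτ : ∀ t t' : ℤ, |(t : ℝ)| ≤ C0 * T → |(t' : ℝ)| ≤ C0 * T' →
      (((α * t' - β * t).natAbs.divisors.card : ℕ) : ℝ) ≤ τ) :
    ∑ v ∈ SR a T C0, ∑ v' ∈ SR a' T' C0, ind (α * v'.2 ≠ β * v.2 ∧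
      y < (Int.gcd (Int.gcd (a - v.1 * v.2) (a' - v'.1 * v'.2)) (α * v'.2 - β * v.2) : ℝ)) *
    (Int.gcd (Int.gcd (a - v.1 * v.2) (a' - v'.1 * v'.2)) (α * v'.2 - β * v.2) : ℝ) /
      (((a - v.1 * v.2 : ℤ) : ℝ) * ((a' - v'.1 * v'.2 : ℤ) : ℝ)) ≤ 441 * C0 ^ 4 * τ / y := by
  classical
  have hTC : 0 < T / C0 := by positivity
  have hTC' : 0 < T' / C0 := by positivity
  have ha0 : (0 : ℝ) < a := lt_of_lt_of_le (by positivity) ha
  have ha0' : (0 : ℝ) < a' := lt_of_lt_of_le (by positivity) ha'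
  have hu : 0 < √y := sqrt_pos.2 hy
  let D : ℤ → ℤ → Finset ℕ := fun t t' =>
    (α * t' - β * t).natAbs.divisors.filter fun d => y < (d : ℝ)
  have hk : ∀ {b : ℤ} {R : ℝ}, 0 < R / C0 → (0 : ℝ) < b → ∀ v ∈ SR b R C0,
      (0 : ℝ) < ((b - v.1 * v.2 : ℤ) : ℝ) := fun {b R} h1 h2 v hv => by
    have h3 : (b : ℝ) ≤ 2 * ((b - v.1 * v.2 : ℤ) : ℝ) := by
      exact_mod_cast ((mem_SR h1).1 hv).2.2.2.1
    linarith
  have hw : ∀ {b : ℤ} {R : ℝ}, 0 < R / C0 → (0 : ℝ) < b → ∀ v ∈ SR b R C0, ∀ d,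
      0 ≤ CR_w b d v := fun {b R} h1 h2 v hv d =>
    div_nonneg (mul_nonneg (ind_nonneg _) (sqrt_nonneg _)) (hk h1 h2 v hv).le
  calc _ ≤ ∑ v ∈ SR a T C0, ∑ v' ∈ SR a' T' C0,
        ∑ d ∈ D v.2 v'.2, CR_w a d v * CR_w a' d v' := by
        refine sum_le_sum fun v hv => sum_le_sum fun v' hv' => ?_
        have hn : ∀ d ∈ D v.2 v'.2, 0 ≤ CR_w a d v * CR_w a' d v' := fun d _ =>
          mul_nonneg (hw hTC ha0 v hv d) (hw hTC' ha0' v' hv' d)
        set g := Int.gcd (Int.gcd (a - v.1 * v.2) (a' - v'.1 * v'.2)) (α * v'.2 - β * v.2)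
        by_cases h : α * v'.2 ≠ β * v.2 ∧ y < (g : ℝ)
        · have g1 : (g : ℤ) ∣ a - v.1 * v.2 :=
            (Int.gcd_dvd_left _ _).trans (Int.gcd_dvd_left _ _)
          have g2 : (g : ℤ) ∣ a' - v'.1 * v'.2 :=
            (Int.gcd_dvd_left _ _).trans (Int.gcd_dvd_right _ _)
          have g3 : (g : ℤ) ∣ α * v'.2 - β * v.2 := Int.gcd_dvd_right _ _
          have hg : g ∈ D v.2 v'.2 := mem_filter.2 ⟨Nat.mem_divisors.2
            ⟨Int.natCast_dvd.1 g3, Int.natAbs_ne_zero.2 (sub_ne_zero.2 h.1)⟩, h.2⟩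
          refine le_trans (le_of_eq ?_) (single_le_sum hn hg)
          rw [ind_pos h, CR_w, CR_w, ind_pos g1, ind_pos g2, one_mul, one_mul, div_mul_div_comm,
            mul_self_sqrt (Nat.cast_nonneg _)]
        · rw [ind_neg h, zero_mul, zero_div]
          exact sum_nonneg hn
    _ = ∑ t ∈ (SR a T C0).image fun v => v.2, ∑ t' ∈ (SR a' T' C0).image fun v => v.2,
        ∑ d ∈ D t t', (∑ v ∈ (SR a T C0).filter fun v => v.2 = t, CR_w a d v) *
          ∑ v' ∈ (SR a' T' C0).filter fun v => v.2 = t', CR_w a' d v' := by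
        rw [← sum_fiberwise_of_maps_to (g := fun v : V2 => v.2)
          fun v hv => mem_image_of_mem _ hv]
        refine sum_congr rfl fun t _ => ?_
        rw [sum_comm, ← sum_fiberwise_of_maps_to (g := fun v : V2 => v.2)
          fun v hv => mem_image_of_mem _ hv]
        refine sum_congr rfl fun t' _ => ?_
        simp only [sum_mul_sum]
        rw [sum_comm, sum_comm (s := D t t')]
        refine sum_congr rfl fun v hv => ?_
        rw [sum_comm (s := D t t')]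
        refine sum_congr rfl fun v' hv' => ?_
        rw [(mem_filter.1 hv).2, (mem_filter.1 hv').2]
    _ ≤ ∑ t ∈ (SR a T C0).image fun v => v.2, ∑ t' ∈ (SR a' T' C0).image fun v => v.2,
        τ * (7 * C0 / (T * √y) * (7 * C0 / (T' * √y))) := by
        refine sum_le_sum fun t ht => sum_le_sum fun t' ht' => ?_
        obtain ⟨v, hv, rfl⟩ := mem_image.1 ht
        obtain ⟨v', hv', rfl⟩ := mem_image.1 ht'
        have h1 : ((D v.2 v'.2).card : ℝ) ≤ τ :=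
          le_trans (by exact_mod_cast card_filter_le _ _)
            (hτ _ _ ((mem_SR hTC).1 hv).2.1 ((mem_SR hTC').1 hv').2.1)
        refine le_trans ?_ (mul_le_mul_of_nonneg_right h1 (by positivity))
        rw [← nsmul_eq_mul]
        refine sum_le_card_nsmul _ _ _ fun d hd => ?_
        have h2 := (mem_filter.1 hd).2
        exact mul_le_mul (CR_side hC (by linarith) hy ha d h2 _)
          (CR_side hC (by linarith) hy ha' d h2 _)
          (sum_nonneg fun x hx => hw hTC' ha0' x (mem_filter.1 hx).1 d) (by positivity)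
    _ ≤ 3 * (C0 * T) * (3 * (C0 * T') * (τ * (7 * C0 / (T * √y) * (7 * C0 / (T' * √y))))) := by
        rw [sum_const, sum_const, nsmul_eq_mul, nsmul_eq_mul]
        have h1 := CR_ts (a := a) hC hT
        have h2 := CR_ts (a := a') hC hT'
        gcongr
    _ = _ := by
        have hu2 : √y ^ 2 = y := sq_sqrt hy.le
        set u := √y
        rw [← hu2]
        field_simp
        ring

theorem p_CR :
    S_CR := by
  intro C0 hC
  refine ⟨1, fun A C1 => ⟨1, le_rfl, fun z _ _ hz => ?_⟩⟩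
  obtain ⟨-, -, -, -, -, -, hk2, hk3, -⟩ := hz
  set L : ℕ := 4 * z.K' + z.U + 1 with hL
  have hL0 : (0 : ℝ) < L := by positivity
  obtain ⟨Cd, hCd, hD⟩ := Avg.t_DIV (1 / (4 * L)) (by positivity)
  filter_upwards [eventually_ge_atTop (2 * C0), (tendsto_rpow_atTop
    (show (0 : ℝ) < 1 / 4 by norm_num)).eventually_ge_atTop (441 * C0 ^ 4 * Cd)] with y h1 h2
  intro a a' α β T T' hR hR' hα hβ
  have hy1 : 1 ≤ y := by linarith
  have hy : 0 < y := by linarith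
  have hyk : y ≤ y ^ z.k3 := le_self_pow₀ hy1 (by omega)
  have key : ∀ {b : ℤ} {R : ℝ}, Pr.Rng ⟨z, y⟩ b R → 1 ≤ R ∧ R ^ 2 * y ≤ b ∧ R ≤ y ^ z.U :=
    fun {b R} h => by
    obtain ⟨b1, b2, b3, b4⟩ := h
    change y ^ z.k3 ≤ R ^ 2 at b2
    change R ^ 2 * y ^ z.k3 ≤ b at b3
    change (b : ℝ) ≤ y ^ z.U at b4
    have c1 : 1 ≤ R := by nlinarith
    have c2 : R ^ 2 * y ≤ b := le_trans (by gcongr) b3
    exact ⟨c1, c2, by nlinarith [mul_le_mul_of_nonneg_left hy1 (sq_nonneg R)]⟩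
  obtain ⟨c1, c2, c3⟩ := key hR
  obtain ⟨d1, d2, d3⟩ := key hR'
  change |(α : ℝ)| ≤ y ^ (4 * z.K') at hα
  change |(β : ℝ)| ≤ y ^ (4 * z.K') at hβ
  refine le_trans (CR_core (τ := Cd * y ^ (1 / 4 : ℝ)) hC c1 d1 hy c2 d2 (by positivity)
    fun t t' ht ht' => (hD _).trans ?_) ?_
  · have e1 : (((α * t' - β * t).natAbs : ℕ) : ℝ) ≤ y ^ L := by
      rw [Nat.cast_natAbs]
      push_cast
      have f1 : |(t : ℝ)| ≤ C0 * y ^ z.U := ht.trans (by gcongr)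
      have f2 : |(t' : ℝ)| ≤ C0 * y ^ z.U := ht'.trans (by gcongr)
      calc _ ≤ |(α : ℝ)| * |(t' : ℝ)| + |(β : ℝ)| * |(t : ℝ)| := by
            rw [← abs_mul, ← abs_mul]; exact abs_sub _ _
        _ ≤ y ^ (4 * z.K') * (C0 * y ^ z.U) + y ^ (4 * z.K') * (C0 * y ^ z.U) := by gcongr
        _ = y ^ (4 * z.K' + z.U) * (2 * C0) := by ring
        _ ≤ y ^ (4 * z.K' + z.U) * y := by gcongr
        _ = _ := by rw [hL]; ring
    have e2 : (y ^ L) ^ (1 / (4 * (L : ℝ))) = y ^ (1 / 4 : ℝ) := by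
      rw [← rpow_natCast, ← rpow_mul hy.le]
      congr 1
      field_simp
    rw [← e2]
    gcongr
  · change _ ≤ 1 / √y
    have e1 : y ^ (1 / 4 : ℝ) * y ^ (1 / 4 : ℝ) = √y := by
      rw [← rpow_add hy, sqrt_eq_rpow]; norm_num
    have hu : 0 < √y := sqrt_pos.2 hy
    have hu2 : √y * √y = y := mul_self_sqrt hy.le
    have h4 : 0 < y ^ (1 / 4 : ℝ) := by positivity
    rw [div_le_div_iff₀ hy hu, one_mul]
    calc _ = 441 * C0 ^ 4 * Cd * y ^ (1 / 4 : ℝ) * √y := by ring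
      _ ≤ y ^ (1 / 4 : ℝ) * y ^ (1 / 4 : ℝ) * √y := by gcongr
      _ = y := by rw [e1, hu2]

end Pool.Agent.P.MP_8be758_nt.Pd
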