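import Pool.Agent.P.MP_8be758_nt.Pd.IfT
import Pool.Agent.P.MP_8be758_nt.Avg.FAR

/-! Step ND. -/

namespace Pool.Agent.P.MP_8be758_nt.Pd

open Finset Real Filter
open Pool.Agent.P.MP_8be758_nt.Par (det)
open Pool.Agent.P.MP_8be758_nt.Avg (rho)
open Pool.Agent.P.MP_e86632_nt (ee)

theorem ND_cnt {a t d : ℤ} {τ : ℝ} {S : Finset V2} (hτ : 0 < τ) (hd : 0 < d) (ha : 0 ≤ a)
    (h : ∀ v ∈ S, v.2 = t ∧ τ ≤ |(t : ℝ)| ∧ IsCoprime d t ∧ |v.1 * t| ≤ a ∧ d ∣ a - v.1 * t) :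
    (S.card : ℝ) ≤ 2 * a / (τ * d) + 1 := by
  have d0 : (0 : ℝ) < d := by exact_mod_cast hd
  have x0 : 0 ≤ 2 * (a : ℝ) / (τ * d) := by positivity
  rcases S.eq_empty_or_nonempty with rfl | hne
  · rw [card_empty, Nat.cast_zero]; linarith
  obtain ⟨v0, h0, hm⟩ := S.exists_min_image (·.1) hne
  obtain ⟨-, b1, b2, b3, b4⟩ := h v0 h0
  have ex : ∀ v ∈ S, ∃ n : ℕ, v.1 = v0.1 + d * n := fun v hv => by
    obtain ⟨n, hn⟩ : d ∣ v.1 - v0.1 := b2.dvd_of_dvd_mul_right (by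
      convert dvd_sub b4 (h v hv).2.2.2.2 using 1; ring)
    have := hm v hv
    lift n to ℕ using nonneg_of_mul_nonneg_right (by linarith : 0 ≤ d * n) hd
    exact ⟨n, by linarith⟩
  choose! f hf using ex
  have : S.card ≤ (range (⌊2 * (a : ℝ) / (τ * d)⌋₊ + 1)).card := by
    refine card_le_card_of_injOn f (fun v hv => ?_) fun v hv w hw e =>
      Prod.ext (by rw [hf v hv, hf w hw, e]) ((h v hv).1.trans (h w hw).1.symm)
    rw [mem_coe, mem_range, Nat.lt_succ_iff, Nat.le_floor_iff x0, le_div_iff₀ (by positivity)]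
    have e1 : d * f v * |t| ≤ 2 * a := by
      have := abs_sub (v.1 * t) (v0.1 * t)
      rw [show v.1 * t - v0.1 * t = d * f v * t by rw [hf v hv]; ring, abs_mul,
        abs_of_nonneg (by positivity : 0 ≤ d * f v)] at this
      linarith [(h v hv).2.2.2.1]
    have e2 : (d : ℝ) * f v * |(t : ℝ)| ≤ 2 * a := by exact_mod_cast e1
    nlinarith [mul_le_mul_of_nonneg_left b1 (by positivity : (0 : ℝ) ≤ d * f v)]
  rw [card_range] at this
  have e : (S.card : ℝ) ≤ (⌊2 * (a : ℝ) / (τ * d)⌋₊ : ℝ) + 1 := by exact_mod_cast this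
  linarith [Nat.floor_le x0]

theorem ND_card {a : ℤ} {T C0 : ℝ} (hC : 1 ≤ C0) (hT : 1 ≤ T) (ha : T ^ 2 ≤ a) :
    ((SR a T C0).card : ℝ) ≤ 9 * C0 ^ 2 * a := by
  have h0 : 0 < T / C0 := by positivity
  have a1 : (1 : ℝ) ≤ a := by nlinarith
  have c1 : 1 ≤ C0 * T := by nlinarith
  rw [card_eq_sum_card_fiberwise (f := fun v : V2 => v.2) (t := Icc (-⌊C0 * T⌋) ⌊C0 * T⌋)
    fun v hv => mem_coe.2 (mem_Icc.2 (abs_le.1 (Int.le_floor.2 (by
      push_cast; exact ((mem_SR h0).1 hv).2.1)))), Nat.cast_sum]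
  refine (sum_le_card_nsmul _ _ (3 * C0 * a / T) fun t _ => ?_).trans ?_
  · refine (ND_cnt (a := a) (t := t) (d := 1) h0 one_pos (by exact_mod_cast zero_le_one.trans a1)
      fun v hv => ?_).trans ?_
    · obtain ⟨h1, rfl⟩ := mem_filter.1 hv
      obtain ⟨b1, -, b3, -⟩ := (mem_SR h0).1 h1
      exact ⟨rfl, b1, isCoprime_one_left, b3, one_dvd _⟩
    · have : 1 ≤ C0 * a / T := by rw [le_div_iff₀ (by positivity)]; nlinarith
      have e : 2 * (a : ℝ) / (T / C0 * (1 : ℤ)) = 2 * (C0 * a / T) := by push_cast; field_simp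
      rw [e, mul_assoc, mul_div_assoc 3]
      linarith
  · have e0 : 0 ≤ ⌊C0 * T⌋ := Int.floor_nonneg.2 (by linarith)
    have e1 : (((Icc (-⌊C0 * T⌋) ⌊C0 * T⌋).card : ℤ) : ℝ) = (2 * ⌊C0 * T⌋ + 1 : ℤ) := by
      rw [Int.card_Icc, Int.toNat_of_nonneg (by omega)]; congr 1; ring
    have e2 := Int.floor_le (C0 * T)
    push_cast at e1
    rw [nsmul_eq_mul, e1]
    calc _ ≤ 3 * (C0 * T) * (3 * C0 * a / T) := by gcongr; linarith
      _ = _ := by field_simp; ring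

open Classical in
theorem ND_ind (S : Finset V2) (P : V2 → Prop) :
    ∑ v ∈ S, ind (P v) = ((S.filter P).card : ℝ) := by
  rw [card_filter, Nat.cast_sum]
  exact sum_congr rfl fun v _ => by
    by_cases h : P v
    · rw [ind_pos h, if_pos h, Nat.cast_one]
    · rw [ind_neg h, if_neg h, Nat.cast_zero]

theorem ND_half {a a' : ℤ} {T T' C0 y D : ℝ} (Q : V2 → V2 → Prop) (hC : 1 ≤ C0) (hT : 1 ≤ T)
    (hT' : 0 < T') (hy : 0 < y) (hyT : y ≤ T / C0) (ha : T ^ 2 ≤ a) (ha' : 0 < a') (hD0 : 0 ≤ D)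
    (hD : ∀ k : ℕ, (k : ℝ) ≤ 2 * a → (k.divisors.card : ℝ) ≤ D)
    (hQ : ∀ v ∈ SR a T C0, ∀ v' ∈ SR a' T' C0, Q v v' → v.2 = v'.2 ∧
      (Int.gcd (a - v.1 * v.2) (a' - v'.1 * v'.2) : ℝ) * y ≤ 2 * a') :
    ∑ v ∈ SR a T C0, ∑ v' ∈ SR a' T' C0, ind (Q v v') *
      (Int.gcd (a - v.1 * v.2) (a' - v'.1 * v'.2) : ℝ) /
      (((a - v.1 * v.2 : ℤ) : ℝ) * ((a' - v'.1 * v'.2 : ℤ) : ℝ)) ≤ 144 * C0 ^ 2 * D / y := by
  classical
  have h0 : 0 < T / C0 := by positivity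
  have h0' : 0 < T' / C0 := by positivity
  have a1 : (0 : ℝ) < a := by nlinarith
  have a2 : (0 : ℝ) < a' := by exact_mod_cast ha'
  have a3 : 0 < a := by exact_mod_cast a1
  refine (sum_le_card_nsmul _ _ (D * (16 / (y * a))) fun v hv => ?_).trans ?_
  swap
  · rw [nsmul_eq_mul]
    calc _ ≤ 9 * C0 ^ 2 * a * (D * (16 / (y * a))) := by gcongr; exact ND_card hC hT ha
      _ = _ := by field_simp; ring
  obtain ⟨b1, -, b3, b4, b5⟩ := (mem_SR h0).1 hv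
  have hQ' := hQ v hv
  have b6 : a - v.1 * v.2 ≤ 2 * a := by linarith [neg_abs_le (v.1 * v.2)]
  generalize a - v.1 * v.2 = k at b4 b5 b6 hQ' ⊢
  lift k to ℕ using by omega
  have k1 : (a : ℝ) ≤ 2 * k := by exact_mod_cast b4
  refine (sum_le_sum (g := fun v' => ∑ d ∈ k.divisors, ind (v'.2 = v.2 ∧
    (d : ℤ) ∣ a' - v'.1 * v'.2 ∧ d * y ≤ 2 * a') * (d * (4 / (a * a')))) fun v' hv' => ?_).trans ?_
  · have n0 : ∀ d ∈ k.divisors, 0 ≤ ind (v'.2 = v.2 ∧ (d : ℤ) ∣ a' - v'.1 * v'.2 ∧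
        d * y ≤ 2 * a') * ((d : ℝ) * (4 / (a * a'))) := fun d _ =>
      mul_nonneg (ind_nonneg _) (by positivity)
    by_cases hq : Q v v'
    swap
    · rw [ind_neg hq, zero_mul, zero_div]
      exact sum_nonneg n0
    obtain ⟨q1, q2⟩ := hQ' v' hv' hq
    have k2 : (a' : ℝ) ≤ 2 * ((a' - v'.1 * v'.2 : ℤ) : ℝ) := by
      exact_mod_cast ((mem_SR h0').1 hv').2.2.2.1
    refine le_trans ?_ (single_le_sum n0 (Nat.mem_divisors.2 ⟨Int.natCast_dvd_natCast.1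
      (Int.gcd_dvd_left k (a' - v'.1 * v'.2)), by omega⟩))
    rw [ind_pos hq, ind_pos ⟨q1.symm, Int.gcd_dvd_right _ _, q2⟩, one_mul, one_mul, div_eq_mul_one_div]
    refine mul_le_mul_of_nonneg_left ?_ (Nat.cast_nonneg _)
    rw [Int.cast_natCast, div_le_div_iff₀ (mul_pos (by linarith) (by linarith)) (by positivity)]
    nlinarith [mul_le_mul k1 k2 a2.le (by positivity)]
  rw [sum_comm]
  refine (sum_le_card_nsmul _ _ (16 / (y * a)) fun d hd => ?_).trans ?_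
  swap
  · rw [nsmul_eq_mul]
    gcongr
    exact hD k (by exact_mod_cast b6)
  have d0 := Nat.pos_of_mem_divisors hd
  have d1 : (0 : ℝ) < d := by exact_mod_cast d0
  by_cases e : d * y ≤ 2 * a'
  swap
  · rw [sum_eq_zero fun v' _ => by rw [ind_neg fun h => e h.2.2, zero_mul]]
    positivity
  rw [← sum_mul]
  have e1 : ∑ v' ∈ SR a' T' C0, ind (v'.2 = v.2 ∧ (d : ℤ) ∣ a' - v'.1 * v'.2 ∧ d * y ≤ 2 * a') ≤
      2 * a' / (y * (d : ℤ)) + 1 := by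
    rw [ND_ind]
    refine ND_cnt (t := v.2) hy (by exact_mod_cast d0) ha'.le fun v' hv' => ?_
    simp only [mem_filter] at hv'
    obtain ⟨c1, c2, c3, -⟩ := hv'
    exact ⟨c2, hyT.trans b1, (b5.of_isCoprime_of_dvd_right
      (Int.natCast_dvd_natCast.2 (Nat.dvd_of_mem_divisors hd))).symm,
      c2 ▸ ((mem_SR h0').1 c1).2.2.1, c2 ▸ c3⟩
  have e2 : 1 ≤ 2 * a' / (y * d) := by rw [le_div_iff₀ (by positivity)]; linarith
  rw [Int.cast_natCast] at e1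
  calc _ ≤ 2 * (2 * a' / (y * d)) * (d * (4 / (a * a'))) := by gcongr; linarith
    _ = _ := by field_simp; ring

theorem ND_key {r m m' s s' t : ℤ} {y Y : ℝ} (hm : 0 < m) (hm' : 0 < m') (h1 : (m : ℝ) ≤ Y)
    (h1' : (m' : ℝ) ≤ Y) (ht : y * Y < |(t : ℝ)|) (k0 : 0 < r * m - s * t)
    (k0' : 0 < r * m' - s' * t) (c1 : IsCoprime t (r * m - s * t))
    (c2 : IsCoprime (r * m) (r * m - s * t)) (c3 : IsCoprime (r * m') (r * m' - s' * t))
    (hne : ¬(m = m' ∧ s = s')) :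
    (Int.gcd (r * m - s * t) (r * m' - s' * t) : ℝ) * y ≤ (r * m - s * t : ℤ) ∨
      (Int.gcd (r * m - s * t) (r * m' - s' * t) : ℝ) * y ≤ (r * m' - s' * t : ℤ) := by
  by_contra hc
  rw [not_or, not_le, not_le] at hc
  have g0 := Int.gcd_pos_of_ne_zero_left (r * m' - s' * t) k0.ne'
  obtain ⟨i, j, cp, hi, hj⟩ := Int.exists_gcd_one g0
  generalize Int.gcd (r * m - s * t) (r * m' - s' * t) = g at hc g0 hi hj
  have g1 : (0 : ℤ) < g := by exact_mod_cast g0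
  have g2 : (0 : ℝ) < g := by exact_mod_cast g0
  have i0 : 0 < i := (mul_pos_iff_of_pos_right g1).1 (hi ▸ k0)
  have j0 : 0 < j := (mul_pos_iff_of_pos_right g1).1 (hj ▸ k0')
  rw [hi, hj] at hc
  push_cast at hc
  have i1 : (i : ℝ) < y := by nlinarith [hc.1]
  have j1 : (j : ℝ) < y := by nlinarith [hc.2]
  have i2 : (0 : ℝ) < i := by exact_mod_cast i0
  have j2 : (0 : ℝ) < j := by exact_mod_cast j0
  have m0 : (0 : ℝ) < m := by exact_mod_cast hm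
  have m0' : (0 : ℝ) < m' := by exact_mod_cast hm'
  have c4 : IsCoprime t r := by
    have := c1.add_mul_right_right s
    rw [sub_add_cancel] at this
    exact this.of_mul_right_left
  have e : j * m - i * m' = 0 := by
    refine Int.eq_zero_of_abs_lt_dvd ((abs_dvd t _).2 (c4.dvd_of_dvd_mul_left
      ⟨j * s - i * s', by linear_combination j * hi - i * hj⟩)) ?_
    have : |(j : ℝ) * m - i * m'| < |(t : ℝ)| := by
      have := mul_le_mul j1.le h1 m0.le (by linarith)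
      have := mul_le_mul i1.le h1' m0'.le (by linarith)
      rw [abs_lt]
      constructor <;> nlinarith [mul_pos i2 m0', mul_pos j2 m0]
    exact_mod_cast this
  have cp' := Int.isCoprime_iff_gcd_eq_one.2 cp
  have e1 : i = 1 := Int.eq_one_of_dvd_one i0.le (isUnit_iff_dvd_one.1 (c2.isUnit_of_dvd'
    (Dvd.dvd.mul_left (cp'.dvd_of_dvd_mul_left ⟨m', by linarith⟩) r) ⟨g, hi⟩))
  have e2 : j = 1 := Int.eq_one_of_dvd_one j0.le (isUnit_iff_dvd_one.1 (c3.isUnit_of_dvd'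
    (Dvd.dvd.mul_left (cp'.symm.dvd_of_dvd_mul_left ⟨m, by linarith⟩) r) ⟨g, hj⟩))
  subst e1 e2
  have e3 : m = m' := by linarith
  subst e3
  refine hne ⟨rfl, mul_right_cancel₀ (b := t) (fun e => ?_) (by linarith)⟩
  rw [e, Int.cast_zero, abs_zero] at ht
  nlinarith

theorem ND_rng {z : St} {y C0 T : ℝ} {a : ℤ} (hz : z.Big 6) (h2 : 2 ≤ y) (hC : 1 ≤ C0)
    (h3 : C0 ≤ y) (h : Pr.Rng ⟨z, y⟩ a T) :
    1 ≤ T ∧ y ≤ T / C0 ∧ y * y ^ (2 * z.K) < T / C0 ∧ T ^ 2 ≤ a ∧ 0 < a := by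
  obtain ⟨a1, a2, a3, -⟩ := h
  dsimp only at a2 a3
  obtain ⟨-, -, -, -, -, -, b1, b2, -⟩ := hz
  have y1 : 1 ≤ y := by linarith
  have p1 : 1 ≤ y ^ (2 * z.K) := one_le_pow₀ y1
  have e1 : y ^ (2 * z.K + 3) ≤ T :=
    (pow_le_pow_iff_left₀ (by positivity) a1.le two_ne_zero).1 (by
    rw [← pow_mul]; exact (pow_le_pow_right₀ y1 (by omega)).trans a2)
  have e2 : y * (y * y ^ (2 * z.K)) ≤ T / C0 := by
    rw [le_div_iff₀ (by linarith)]
    calc _ ≤ y * (y * y ^ (2 * z.K)) * y := by gcongr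
      _ = y ^ (2 * z.K + 3) := by ring
      _ ≤ T := e1
  have e3 : T ^ 2 ≤ a := le_trans (le_mul_of_one_le_right (sq_nonneg T) (one_le_pow₀ y1)) a3
  have e4 : y ≤ y * y ^ (2 * z.K) := by nlinarith
  have e5 : y * y ^ (2 * z.K) < T / C0 := by nlinarith
  exact ⟨(one_le_pow₀ y1).trans e1, by linarith, e5, e3,
    by exact_mod_cast (pow_pos a1 2).trans_le e3⟩

theorem p_ND :
    S_ND := by
  refine fun C0 hC => ⟨6, fun A C1 => ⟨1, le_rfl, fun z _ _ hz => ?_⟩⟩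
  obtain ⟨CD, c0, hD⟩ := Avg.t_DIV ((4 * (z.U + 1) : ℕ) : ℝ)⁻¹ (by positivity)
  filter_upwards [eventually_ge_atTop 2, eventually_ge_atTop C0,
    (tendsto_sqrt_atTop.comp tendsto_sqrt_atTop).eventually_ge_atTop (144 * C0 ^ 2 * CD)]
    with y h2 h3 h4 r m m' T T' R R' hm hm' l l'
  obtain ⟨a1, a2, a3, a4, a5⟩ := ND_rng hz h2 hC h3 R
  obtain ⟨b1, b2, -, b4, b5⟩ := ND_rng hz h2 hC h3 R'
  have y0 : 0 < y := by linarith
  have s0 := sqrt_pos.2 y0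
  have s1 := mul_self_sqrt y0.le
  have s2 := mul_self_sqrt s0.le
  have s3 := sqrt_nonneg √y
  have dv : ∀ a : ℤ, (a : ℝ) ≤ y ^ z.U → ∀ k : ℕ, (k : ℝ) ≤ 2 * a →
      (k.divisors.card : ℝ) ≤ CD * √√y := fun a ha k hk => by
    refine (hD k).trans (mul_le_mul_of_nonneg_left ?_ c0.le)
    rw [← pow_rpow_inv_natCast s3 (show 4 * (z.U + 1) ≠ 0 by omega)]
    refine rpow_le_rpow (Nat.cast_nonneg _) ?_ (by positivity)
    rw [pow_mul, show √√y ^ 4 = y by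
      rw [show √√y ^ 4 = √√y * √√y * (√√y * √√y) by ring, s2, s1], pow_succ]
    nlinarith [pow_pos y0 z.U]
  have fin : 144 * C0 ^ 2 * (CD * √√y) / y ≤ 1 / √y := by
    have h5 : 144 * C0 ^ 2 * CD ≤ √√y := h4
    rw [div_le_div_iff₀ y0 s0]
    nlinarith [mul_le_mul_of_nonneg_right h5 (mul_pos s0 s0).le,
      mul_le_mul_of_nonneg_right h5 (mul_nonneg s3 s0.le)]
  have key : ∀ v ∈ SR (r * m) T C0, ∀ v' ∈ SR (r * m') T' C0, (v.2 = v'.2 ∧
      ¬(m = m' ∧ v.1 = v'.1) ∧ IsCoprime (r * m) (r * m - v.1 * v.2) ∧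
      IsCoprime (r * m') (r * m' - v'.1 * v'.2)) → ∀ M : ℤ, r * m ≤ M → r * m' ≤ M →
      (Int.gcd (r * m - v.1 * v.2) (r * m' - v'.1 * v'.2) : ℝ) * y ≤ 2 * M := by
    rintro ⟨s, t⟩ hv ⟨s', t'⟩ hv' ⟨rfl, q2, q3, q4⟩ M m1 m2
    obtain ⟨u1, -, u3, u4, u5⟩ := (mem_SR (y0.trans_le a2)).1 hv
    obtain ⟨-, -, w3, w4, -⟩ := (mem_SR (y0.trans_le b2)).1 hv'
    dsimp only at u1 u3 u4 u5 w3 w4 q2 q3 q4 ⊢
    have u6 := neg_abs_le (s * t)
    have w6 := neg_abs_le (s' * t)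
    refine (ND_key hm hm' l l' (a3.trans_le u1) (by omega) (by omega) u5 q3 q4 q2).elim
      (fun h => h.trans ?_) fun h => h.trans ?_
    · exact_mod_cast (by linarith : r * m - s * t ≤ 2 * M)
    · exact_mod_cast (by linarith : r * m' - s' * t ≤ 2 * M)
  rcases le_total (r * m) (r * m') with h | h
  · exact (ND_half _ hC a1 R'.1 y0 a2 a4 b5 (by positivity) (dv _ R.2.2.2)
      fun v hv v' hv' q => ⟨q.1, key v hv v' hv' q _ h le_rfl⟩).trans fin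
  · rw [sum_comm]
    refine le_trans (le_of_eq ?_) ((ND_half (fun v' v => v.2 = v'.2 ∧ ¬(m = m' ∧ v.1 = v'.1) ∧
      IsCoprime (r * m) (r * m - v.1 * v.2) ∧ IsCoprime (r * m') (r * m' - v'.1 * v'.2)) hC b1 R.1
      y0 b2 b4 a5 (by positivity) (dv _ R'.2.2.2) fun v' hv' v hv q =>
        ⟨q.1.symm, Int.gcd_comm _ _ ▸ key v hv v' hv' q _ le_rfl h⟩).trans fin)
    exact sum_congr rfl fun v' _ => sum_congr rfl fun v _ => by
      rw [Int.gcd_comm, mul_comm ((r * m - v.1 * v.2 : ℤ) : ℝ)]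

end Pool.Agent.P.MP_8be758_nt.Pd
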