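import Pool.Agent.P.MP_8be758_nt.Pd.IfM

/-! Step DV2. -/

namespace Pool.Agent.P.MP_8be758_nt.Pd

open Finset Real Filter
open Pool.Agent.P.MP_8be758_nt.Par (nq mul cj det io et)
open Pool.Agent.P.MP_8be758_nt.Avg (rho)
open Pool.Agent.P.MP_8be758_nt.Pd.Mr

theorem DV2_bx (q : ℕ) [NeZero q] (F : ZMod q → ℝ) : ∑ x ∈ bx q, F (x : ZMod q) = ∑ x, F x := by
  refine sum_nbij' (fun x : ℤ => (x : ZMod q)) (fun z => (z.val : ℤ)) (fun _ _ => mem_univ _)
    (fun z _ => ?_) (fun x hx => ?_) (fun z _ => by simp) fun _ _ => rfl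
  · exact mem_Ico.2 ⟨by positivity, by exact_mod_cast z.val_lt⟩
  · obtain ⟨h1, h2⟩ := mem_Ico.1 hx
    simp only [ZMod.val_intCast]
    exact Int.emod_eq_of_lt h1 h2

theorem DV2_rho (A q : ℕ) [NeZero q] :
    ∑ n : ZMod q, ind (n ^ 2 + n + A = 0) = rho A q := by
  rw [rho, card_filter, Nat.cast_sum]
  refine sum_nbij' (fun z => z.val) (fun n : ℕ => (n : ZMod q)) (fun z _ => mem_range.2 z.val_lt)
    (fun _ _ => mem_univ _) (fun z _ => by simp) (fun n hn => ZMod.val_cast_of_lt (mem_range.1 hn))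
    fun z _ => ?_
  have : q ∣ z.val ^ 2 + z.val + A ↔ z ^ 2 + z + A = 0 := by
    rw [← ZMod.natCast_eq_zero_iff]; simp
  by_cases h : z ^ 2 + z + A = 0 <;> simp [ind, this, h]

theorem p_DV2 :
    S_DV2 := by
  intro A q hq
  have := Fact.mk hq
  have e : ∀ v : V2, ((q : ℤ) ∣ nq A v) ↔
      (v.1 : ZMod q) ^ 2 + (v.1 : ZMod q) * v.2 + A * (v.2 : ZMod q) ^ 2 = 0 := fun v => by
    rw [← ZMod.intCast_zmod_eq_zero_iff_dvd, nq]; simp
  refine ⟨fun v w h => ?_, ?_⟩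
  · simp only [e, (ZMod.intCast_eq_intCast_iff _ _ _).2 h.1, (ZMod.intCast_eq_intCast_iff _ _ _).2 h.2]
  have c : ((bx q ×ˢ bx q).card : ℝ) = (q : ℝ) ^ 2 := by simp [bx, sq]
  simp only [Sys.av, S2, c, e]
  congr 1
  rw [sum_product_right, DV2_bx q fun y => ∑ x ∈ bx q,
    ind ((x : ZMod q) ^ 2 + (x : ZMod q) * y + A * y ^ 2 = 0)]
  simp only [fun y : ZMod q => DV2_bx q fun x => ind (x ^ 2 + x * y + A * y ^ 2 = 0)]
  rw [← add_sum_erase _ _ (mem_univ 0), add_comm]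
  congr 1
  · rw [sum_congr rfl (g := fun _ => (rho A q : ℝ)), sum_const, card_erase_of_mem (mem_univ _),
      card_univ, ZMod.card, nsmul_eq_mul, Nat.cast_pred hq.pos, mul_comm]
    intro y hy
    have h0 := ne_of_mem_erase hy
    rw [← DV2_rho, ← Equiv.sum_comp (Equiv.mulRight₀ y h0)]
    refine sum_congr rfl fun n _ => ?_
    rw [Equiv.mulRight₀_apply, show (n * y) ^ 2 + n * y * y + A * y ^ 2 = (n ^ 2 + n + A) * y ^ 2 by
      ring, mul_eq_zero, or_iff_left (pow_ne_zero 2 h0)]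
  · rw [sum_eq_single 0 (fun x _ hx => ind_neg (by simpa using hx)) (by simp)]
    exact ind_pos (by simp)

end Pool.Agent.P.MP_8be758_nt.Pd
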