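import Pool.Agent.P.MP_8be758_nt.Pd.IfT

/-! Step EQ. -/

namespace Pool.Agent.P.MP_8be758_nt.Pd

open Finset Real Filter
open Pool.Agent.P.MP_8be758_nt.Par (det)
open Pool.Agent.P.MP_8be758_nt.Avg (rho)
open Pool.Agent.P.MP_e86632_nt (ee)

theorem EQ_gen {Ω : Type} [DecidableEq Ω] (G U : Finset Ω) (r : Ω → Ω) (f : Ω → ℝ) {B : ℝ}
    (hr : ∀ g ∈ G, r g ∈ U) (hf : ∀ g ∈ G, f (r g) = f g) (h1 : ∀ x, |f x| ≤ 1)
    (hB : ∀ c ∈ U, ∀ c' ∈ U,
      |((G.filter fun g => r g = c).card : ℝ) - (G.filter fun g => r g = c').card| ≤ B) :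
    |∑ x ∈ G, f x - G.card * ((∑ c ∈ U, f c) / U.card)| ≤ U.card * B := by
  rcases U.eq_empty_or_nonempty with rfl | hU
  · obtain rfl : G = ∅ := eq_empty_of_forall_notMem fun g hg => notMem_empty _ (hr g hg)
    simp
  have u0 : (0 : ℝ) < U.card := by exact_mod_cast hU.card_pos
  have e1 : ∑ x ∈ G, f x = ∑ c ∈ U, ((G.filter fun g => r g = c).card : ℝ) * f c := by
    rw [← sum_fiberwise_of_maps_to hr]
    refine sum_congr rfl fun c _ => ?_
    rw [← nsmul_eq_mul, ← sum_const]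
    exact sum_congr rfl fun g hg => by rw [← (mem_filter.1 hg).2, hf g (mem_filter.1 hg).1]
  have e2 : (G.card : ℝ) = ∑ c ∈ U, ((G.filter fun g => r g = c).card : ℝ) := by
    exact_mod_cast card_eq_sum_card_fiberwise hr
  rw [e1, mul_div_assoc', mul_div_right_comm, mul_sum, ← sum_sub_distrib, ← nsmul_eq_mul]
  refine (abs_sum_le_sum_abs _ _).trans (sum_le_card_nsmul _ _ _ fun c hc => ?_)
  have e3 : ((G.filter fun g => r g = c).card : ℝ) - G.card / U.card =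
      (∑ c' ∈ U, (((G.filter fun g => r g = c).card : ℝ) - (G.filter fun g => r g = c').card)) /
        U.card := by
    rw [sum_sub_distrib, ← e2, sum_const, nsmul_eq_mul]
    field_simp
  rw [← sub_mul, abs_mul, e3, abs_div, abs_of_pos u0]
  refine (mul_le_of_le_one_right (by positivity) (h1 c)).trans ((div_le_iff₀' u0).2 ?_)
  rw [← nsmul_eq_mul]
  exact (abs_sum_le_sum_abs _ _).trans (sum_le_card_nsmul _ _ _ (hB c hc))

/-- reduction modulo `M` -/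
def EQ_r (M : ℕ) (g : G4) : G4 := ((g.1.1 % M, g.1.2 % M), (g.2.1 % M, g.2.2 % M))

theorem EQ_c4 (M : ℕ) (g : G4) : C4 M (EQ_r M g) g :=
  ⟨⟨Int.mod_modEq _ _, Int.mod_modEq _ _⟩, Int.mod_modEq _ _, Int.mod_modEq _ _⟩

theorem EQ_mem {M : ℕ} (hM : 0 < M) {g : G4} (hg : det g.1 g.2 = 1) : EQ_r M g ∈ S4.U M := by
  have h0 : (0 : ℤ) < M := by exact_mod_cast hM
  have h : ∀ x : ℤ, x % M ∈ bx M := fun x =>
    mem_Ico.2 ⟨Int.emod_nonneg x h0.ne', Int.emod_lt_of_pos x h0⟩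
  refine mem_filter.2 ⟨mem_product.2 ⟨mem_product.2 ⟨h _, h _⟩, mem_product.2 ⟨h _, h _⟩⟩, ?_⟩
  obtain ⟨⟨e1, e2⟩, e3, e4⟩ := EQ_c4 M g
  rw [← hg]
  simp only [det]
  gcongr

theorem EQ_iff {M : ℕ} {g c : G4} (hc : c ∈ S4.U M) : EQ_r M g = c ↔ C4 M g c := by
  obtain ⟨h1, h2⟩ := mem_product.1 (mem_filter.1 hc).1
  have h : ∀ x ∈ bx M, x % M = x := fun x hx => Int.emod_eq_of_lt (mem_Ico.1 hx).1 (mem_Ico.1 hx).2
  simp only [EQ_r, C4, C2, Int.ModEq, Prod.ext_iff, h _ (mem_product.1 h1).1,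
    h _ (mem_product.1 h1).2, h _ (mem_product.1 h2).1, h _ (mem_product.1 h2).2]

theorem EQ_card (M : ℕ) : (S4.U M).card ≤ M ^ 4 := by
  refine (card_filter_le _ _).trans (le_of_eq ?_)
  simp only [card_product, bx, Int.card_Ico, sub_zero, Int.toNat_natCast]
  ring

theorem EQ_av (M : ℕ) {f : G4 → ℝ} (h : ∀ x, |f x| ≤ 1) : |S4.av M f| ≤ 1 := by
  rw [Sys.av, abs_div, Nat.abs_cast]
  refine div_le_one_of_le₀ ((abs_sum_le_sum_abs _ _).trans ?_) (Nat.cast_nonneg _)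
  simpa using sum_le_card_nsmul (S4.U M) _ _ fun x _ => h x

theorem p_EQ (hEQC : S_EQC) (hGCNT : S_GCNT) :
    S_EQ := by
  intro A hA
  obtain ⟨C, hC, h1⟩ := hEQC A hA
  obtain ⟨C', hC', h2⟩ := hGCNT A hA
  refine ⟨C + 2 * C' * C, by positivity, fun ψ hψ Z β1 β2 Mx hZ b1 b2 hMx M f hM hMM hf hf1 => ?_⟩
  have b3 : 0 ≤ β2 := b1.trans b2
  have m1 : (1 : ℝ) ≤ M := by exact_mod_cast hM
  have z0 : 0 < Z := by linarith
  simp only [one_mul]
  rcases le_total (C * (M : ℝ) ^ 6) Z with h | h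
  · have hF : IsF A ψ := (mem_filter.1 hψ).2
    refine (EQ_gen _ (S4.U M) (EQ_r M) f (B := C * (1 + β2) * (M : ℝ) ^ 7 * Z ^ (9 / 10 : ℝ))
      (fun g hg => EQ_mem hM ((mem_GG hA hF).1 hg).1) (fun g _ => hf _ _ (EQ_c4 M g)) hf1
      fun c hc c' hc' => ?_).trans ?_
    · simpa only [EQ_iff hc, EQ_iff hc'] using h1 ψ hψ Z β1 β2 M hM h b1 b2 c hc c' hc'
    · have c4 : ((S4.U M).card : ℝ) ≤ (M : ℝ) ^ 4 := by exact_mod_cast EQ_card M
      calc _ ≤ (M : ℝ) ^ 4 * (C * (1 + β2) * (M : ℝ) ^ 7 * Z ^ (9 / 10 : ℝ)) := by gcongr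
        _ = C * (1 + β2) * (M : ℝ) ^ 11 * Z ^ (9 / 10 : ℝ) := by ring
        _ ≤ _ := by
          gcongr
          exact le_add_of_nonneg_right (by positivity)
  · have a1 : |∑ x ∈ GG ψ Z β1 β2, f x| ≤ (GG ψ Z β1 β2).card :=
      (abs_sum_le_sum_abs _ _).trans (by simpa using sum_le_card_nsmul _ _ _ fun x _ => hf1 x)
    have a2 : |((GG ψ Z β1 β2).card : ℝ) * S4.av M f| ≤ (GG ψ Z β1 β2).card := by
      rw [abs_mul, Nat.abs_cast]
      exact mul_le_of_le_one_right (Nat.cast_nonneg _) (EQ_av M hf1)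
    have a3 := h2 ψ hψ Z β1 β2 hZ b1 b3
    have a4 : Z ≤ C * Mx ^ 11 * Z ^ (9 / 10 : ℝ) := by
      refine le_trans (h.trans ?_) (le_mul_of_one_le_right (by positivity)
        (Real.one_le_rpow hZ (by norm_num)))
      exact mul_le_mul_of_nonneg_left ((pow_le_pow_left₀ (by positivity) hMM 6).trans
        (pow_le_pow_right₀ hMx (by norm_num))) hC.le
    calc _ ≤ _ := abs_sub _ _
      _ ≤ 2 * (C' * (1 + β2) * Z) := by linarith
      _ ≤ 2 * (C' * (1 + β2) * (C * Mx ^ 11 * Z ^ (9 / 10 : ℝ))) := by gcongr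
      _ = 2 * C' * C * (1 + β2) * Mx ^ 11 * Z ^ (9 / 10 : ℝ) := by ring
      _ ≤ _ := by
        gcongr
        exact le_add_of_nonneg_left hC.le

end Pool.Agent.P.MP_8be758_nt.Pd
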