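import Pool.Agent.P.MP_8be758_nt.Pd.IfT

/-! Step EQC. -/

namespace Pool.Agent.P.MP_8be758_nt.Pd

open Finset Real Filter
open Pool.Agent.P.MP_8be758_nt.Par (det)
open Pool.Agent.P.MP_8be758_nt.Avg (rho)
open Pool.Agent.P.MP_e86632_nt (ee)

/-- change of coordinates by a unimodular basis -/
def EQC_e (g : G4) (hg : det g.1 g.2 = 1) : V2 ≃ V2 where
  toFun := ap g
  invFun := ap ((g.2.2, -g.1.2), (-g.2.1, g.1.1))
  left_inv u := by
    simp only [det] at hg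
    refine Prod.ext ?_ ?_ <;> simp only [ap]
    · linear_combination u.1 * hg
    · linear_combination u.2 * hg
  right_inv u := by
    simp only [det] at hg
    refine Prod.ext ?_ ?_ <;> simp only [ap]
    · linear_combination u.1 * hg
    · linear_combination u.2 * hg

theorem EQC_c2 (g : G4) {M : ℕ} {u w : V2} (h : C2 M u w) : C2 M (ap g u) (ap g w) := by
  obtain ⟨h1, h2⟩ := h
  simp only [C2, ap]
  constructor <;> gcongr

theorem EQC_cop (g : G4) {w : V2} (h : IsCoprime (ap g w).1 (ap g w).2) : IsCoprime w.1 w.2 := by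
  obtain ⟨a, b, h⟩ := h
  simp only [ap] at h
  exact ⟨a * g.1.1 + b * g.1.2, a * g.2.1 + b * g.2.2, by linear_combination h⟩

theorem EQC_c2_iff {g : G4} (hg : det g.1 g.2 = 1) {M : ℕ} {u w x : V2} (hx : C2 M (ap g w) x) :
    C2 M u w ↔ C2 M (ap g u) x := by
  refine ⟨fun h => ⟨(EQC_c2 g h).1.trans hx.1, (EQC_c2 g h).2.trans hx.2⟩, fun h => ?_⟩
  have h1 : C2 M (ap g u) (ap g w) := ⟨h.1.trans hx.1.symm, h.2.trans hx.2.symm⟩
  have h2 := EQC_c2 ((g.2.2, -g.1.2), (-g.2.1, g.1.1)) h1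
  have e1 := (EQC_e g hg).left_inv u
  have e2 := (EQC_e g hg).left_inv w
  simp only [EQC_e] at e1 e2
  rwa [e1, e2] at h2

theorem EQC_cop_iff {g : G4} (hg : det g.1 g.2 = 1) {w : V2} :
    IsCoprime w.1 w.2 ↔ IsCoprime (ap g w).1 (ap g w).2 := by
  refine ⟨fun h => EQC_cop ((g.2.2, -g.1.2), (-g.2.1, g.1.1)) ?_, EQC_cop g⟩
  have e1 := (EQC_e g hg).left_inv w
  simp only [EQC_e] at e1
  rwa [e1]

theorem EQC_bl (ψ : Fm) (g : G4) (u w : V2) : bl (act ψ g) u w = bl ψ (ap g u) (ap g w) := by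
  simp only [ev, act, bl, ap]; ring

theorem EQC_ev {A M : ℕ} {ψ : Fm} (h : ψ ∈ Red A) {v : V2} (h1 : |v.1| ≤ 8 * (M : ℤ) ^ 3)
    (h2 : |v.2| ≤ 8 * (M : ℤ) ^ 3) : (ev ψ v : ℝ) ≤ 768 * A * (M : ℝ) ^ 6 := by
  simp only [Red, mem_filter, mem_product, mem_Icc] at h
  obtain ⟨⟨⟨a1, a2⟩, b, c1, c2⟩, -⟩ := h
  have b' : |ψ.2.1| ≤ 4 * A := abs_le.2 b
  have hA : (0 : ℤ) ≤ 4 * A := by positivity
  have e1 : v.1 ^ 2 ≤ (8 * (M : ℤ) ^ 3) ^ 2 := by rw [← sq_abs]; gcongr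
  have e2 : v.2 ^ 2 ≤ (8 * (M : ℤ) ^ 3) ^ 2 := by rw [← sq_abs]; gcongr
  have e3 : ψ.2.1 * v.1 * v.2 ≤ 4 * A * (8 * (M : ℤ) ^ 3) * (8 * (M : ℤ) ^ 3) := by
    refine (le_abs_self _).trans ?_
    rw [abs_mul, abs_mul]
    gcongr
  have e4 := mul_le_mul a2 e1 (sq_nonneg _) hA
  have e5 := mul_le_mul c2 e2 (sq_nonneg _) hA
  have : ev ψ v ≤ 768 * A * (M : ℤ) ^ 6 := by
    simp only [ev]
    nlinarith
  exact_mod_cast this

theorem EQC_av {M : ℕ} {g0 : G4} (h : g0 ∈ S4.U M) :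
    SP.av M (fun v => ind (C2 M v g0.1)) = 1 / (SP.U M).card := by
  simp only [S4, mem_filter, mem_product] at h
  obtain ⟨⟨⟨a1, a2⟩, -⟩, hd⟩ := h
  have hm : g0.1 ∈ SP.U M := by
    simp only [SP, mem_filter, mem_product]
    refine ⟨⟨a1, a2⟩, Nat.isCoprime_iff_coprime.1 ?_⟩
    obtain ⟨k, hk⟩ := hd.dvd
    obtain ⟨a, ha⟩ := Int.gcd_dvd_left g0.1.1 g0.1.2
    obtain ⟨b, hb⟩ := Int.gcd_dvd_right g0.1.1 g0.1.2
    simp only [det] at hk
    refine ⟨a * g0.2.2 - b * g0.2.1, k, ?_⟩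
    linear_combination -hk - g0.2.2 * ha + g0.2.1 * hb
  unfold Sys.av
  rw [sum_eq_single_of_mem _ hm, ind_pos ⟨Int.ModEq.refl _, Int.ModEq.refl _⟩]
  intro x hx hne
  refine ind_neg fun hc => hne ?_
  simp only [SP, mem_filter, mem_product, bx, mem_Ico] at hx a1 a2
  obtain ⟨⟨x1, x2⟩, -⟩ := hx
  have e1 := hc.1.eq
  have e2 := hc.2.eq
  rw [Int.emod_eq_of_lt x1.1 x1.2, Int.emod_eq_of_lt a1.1 a1.2] at e1
  rw [Int.emod_eq_of_lt x2.1 x2.2, Int.emod_eq_of_lt a2.1 a2.2] at e2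
  exact Prod.ext e1 e2

theorem p_EQC (hKST : S_KST) (hLIFT : S_LIFT) (hVEQ : S_VEQ) :
    S_EQC := by
  intro A hA
  obtain ⟨K, hK, hKST⟩ := hKST
  obtain ⟨W, hW, hVEQ⟩ := hVEQ A hA
  have hA' : (1 : ℝ) ≤ A := by exact_mod_cast hA
  refine ⟨768 * A + 2 * (K * (768 * A) + 2 * W), by positivity,
    fun ψ hψ Z β1 β2 M hM hZ h1 h2 => ?_⟩
  have hF : IsF A ψ := (mem_filter.1 hψ).2
  have hM' : (1 : ℝ) ≤ M := by exact_mod_cast hM
  have hM6 : (1 : ℝ) ≤ (M : ℝ) ^ 6 := one_le_pow₀ hM'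
  have hH1 : (1 : ℝ) ≤ 768 * A * (M : ℝ) ^ 6 := by nlinarith
  have hHZ : 768 * A * (M : ℝ) ^ 6 ≤ Z := by
    refine le_trans ?_ hZ
    have : 0 ≤ 2 * (K * (768 * A) + 2 * W) := by positivity
    gcongr
    linarith
  have hZ1 : 1 ≤ Z := hH1.trans hHZ
  have hb : 0 ≤ 1 + β2 := by linarith
  have key : ∀ g0 ∈ S4.U M, |(((GG ψ Z β1 β2).filter fun g => C4 M g g0).card : ℝ) -
      (β2 - β1) / (2 * M) * ((VV ψ Z (2 * Z)).card * (1 / (SP.U M).card))| ≤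
      (K * (768 * A) + 2 * W) * (1 + β2) * (M : ℝ) ^ 7 * Z ^ (9 / 10 : ℝ) := by
    intro g0 hg0
    obtain ⟨g, hg, hc, b1, b2, b3, b4⟩ := hLIFT M hM g0 hg0
    have hF' := hF.act hA hg
    have c1 : C2 M (ap g (1, 0)) g0.1 := by simpa [ap] using hc.1
    have c2 : C2 M (ap g (0, 1)) g0.2 := by simpa [ap] using hc.2
    have k1 := hKST A M (act ψ g) _ Z β1 β2 hA hF' hM (EQC_ev hψ b1 b2) (EQC_ev hψ b3 b4) hHZ h1 h2
    have e1 : ((GG (act ψ g) Z β1 β2).filter fun γ => C4 M γ ((1, 0), (0, 1))).card =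
        ((GG ψ Z β1 β2).filter fun γ => C4 M γ g0).card := by
      refine card_equiv ((EQC_e g hg).prodCongr (EQC_e g hg)) fun γ => ?_
      show _ ↔ (ap g γ.1, ap g γ.2) ∈ _
      simp only [mem_filter, mem_GG hA hF, mem_GG hA hF', ev_act, EQC_bl, det_ap, hg, one_mul, C4,
        EQC_c2_iff hg c1, EQC_c2_iff hg c2]
    have e2 : ((VV (act ψ g) Z (2 * Z)).filter fun v => C2 M v (1, 0)).card =
        ((VV ψ Z (2 * Z)).filter fun v => C2 M v g0.1).card := by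
      refine card_equiv (EQC_e g hg) fun v => ?_
      show _ ↔ ap g v ∈ _
      simp only [mem_filter, mem_VV hA hF, mem_VV hA hF', ev_act, EQC_c2_iff hg c1,
        ← EQC_cop_iff hg]
    rw [e1, e2] at k1
    have k2 := hVEQ ψ hψ Z (2 * Z) M (by linarith) (by linarith) (by linarith) hM' M
      (fun v => ind (C2 M v g0.1)) hM le_rfl
      (fun x y h => congrArg ind (propext ⟨fun a => ⟨h.1.symm.trans a.1, h.2.symm.trans a.2⟩,
        fun a => ⟨h.1.trans a.1, h.2.trans a.2⟩⟩))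
      (fun x => by rw [abs_of_nonneg (ind_nonneg _)]; exact ind_le_one _)
    have e3 : ∑ x ∈ VV ψ Z (2 * Z), 1 * ind (C2 M x g0.1) =
        (((VV ψ Z (2 * Z)).filter fun v => C2 M v g0.1).card : ℝ) := by
      rw [card_filter]
      push_cast
      refine sum_congr rfl fun x _ => ?_
      split_ifs with h
      · rw [ind_pos h, one_mul]
      · rw [ind_neg h, mul_zero]
    rw [e3, EQC_av hg0] at k2
    have z0 : 0 ≤ Z ^ (9 / 10 : ℝ) := by positivity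
    have r1 : (768 * A * (M : ℝ) ^ 6 * Z) ^ (9 / 10 : ℝ) ≤
        768 * A * (M : ℝ) ^ 6 * Z ^ (9 / 10 : ℝ) := by
      rw [mul_rpow (by positivity) (by positivity)]
      gcongr
      exact rpow_le_self_of_one_le hH1 (by norm_num)
    have r2 : (2 * Z) ^ (3 / 4 : ℝ) ≤ 2 * Z ^ (9 / 10 : ℝ) := by
      rw [mul_rpow (by positivity) (by positivity)]
      exact mul_le_mul (rpow_le_self_of_one_le one_le_two (by norm_num))
        (rpow_le_rpow_of_exponent_le hZ1 (by norm_num)) (by positivity) (by positivity)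
    have r3 : (M : ℝ) ^ 2 ≤ (M : ℝ) ^ 7 := pow_le_pow_right₀ hM' (by norm_num)
    have r4 : (β2 - β1) / (2 * M) ≤ 1 + β2 := by
      rw [div_le_iff₀ (by positivity)]
      nlinarith
    have r5 : 0 ≤ (β2 - β1) / (2 * M) := div_nonneg (by linarith) (by positivity)
    have k3 := k1.trans (show _ ≤ K * (1 + β2) * M * (768 * A * (M : ℝ) ^ 6 * Z ^ (9 / 10 : ℝ)) by
      gcongr)
    have k4 := mul_le_mul r4 (k2.trans (show _ ≤ W * (M : ℝ) ^ 7 * (2 * Z ^ (9 / 10 : ℝ)) by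
      gcongr)) (abs_nonneg _) hb
    rw [← abs_of_nonneg r5, ← abs_mul, mul_sub] at k4
    refine (abs_sub_le _ _ _).trans ((add_le_add k3 k4).trans_eq (by ring))
  intro g0 hg0 g1 hg1
  have k1 := key g1 hg1
  rw [abs_sub_comm] at k1
  refine (abs_sub_le _ _ _).trans ((add_le_add (key g0 hg0) k1).trans ?_)
  have : 0 ≤ 768 * A * (1 + β2) * (M : ℝ) ^ 7 * Z ^ (9 / 10 : ℝ) := by positivity
  linarith

end Pool.Agent.P.MP_8be758_nt.Pd
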