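import Pool.Agent.P.MP_8be758_nt.Pd.IfM

/-! Step EQK. -/

namespace Pool.Agent.P.MP_8be758_nt.Pd

open Finset Real Filter
open Pool.Agent.P.MP_8be758_nt.Par (nq mul cj det io et)
open Pool.Agent.P.MP_8be758_nt.Avg (rho)
open Pool.Agent.P.MP_8be758_nt.Pd.Mr

theorem EQK_diag (W : Finset V2) (M : ℕ) (f : V2 → ℝ) (L : ℝ) (hM : 0 < M) (hf : S2.Per M f)
    (h1 : ∀ v, |f v| ≤ 1) (hL : ∀ c c' : V2, |((W.filter fun v => C2 M v c).card : ℝ) -
      (W.filter fun v => C2 M v c').card| ≤ L) :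
    |∑ v ∈ W, f v - W.card * S2.av M f| ≤ M ^ 2 * L := by
  have M0 : (0 : ℤ) < M := by exact_mod_cast hM
  have hc : ((bx M ×ˢ bx M).card : ℝ) = M ^ 2 := by simp [bx, pow_two]
  have key : ∀ g : V2 → ℝ, S2.Per M g →
      ∑ v ∈ W, g v = ∑ c ∈ bx M ×ˢ bx M, g c * (W.filter fun v => C2 M v c).card := by
    intro g hg
    rw [← sum_fiberwise_of_maps_to (g := fun v : V2 => (v.1 % M, v.2 % M)) (t := bx M ×ˢ bx M)
      fun v _ => by simp [bx, Int.emod_nonneg _ M0.ne', Int.emod_lt_of_pos _ M0]]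
    refine sum_congr rfl fun c hc => ?_
    simp only [bx, mem_product, mem_Ico] at hc
    rw [filter_congr (q := fun v => C2 M v c) fun v _ => by
      rw [C2, Int.ModEq, Int.ModEq, Int.emod_eq_of_lt hc.1.1 hc.1.2, Int.emod_eq_of_lt hc.2.1 hc.2.2,
        Prod.ext_iff], sum_congr rfl fun v (hv : v ∈ W.filter fun v => C2 M v c) => hg v c (mem_filter.1 hv).2, sum_const, nsmul_eq_mul,
      mul_comm]
  have k1 := key (fun _ => 1) fun _ _ _ => rfl
  simp only [sum_const, nsmul_eq_mul, mul_one, one_mul] at k1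
  have M1 : (0 : ℝ) < M ^ 2 := by positivity
  have e : ∑ v ∈ W, f v - W.card * S2.av M f = (∑ c ∈ bx M ×ˢ bx M, ∑ c' ∈ bx M ×ˢ bx M,
      f c * (((W.filter fun v => C2 M v c).card : ℝ) - (W.filter fun v => C2 M v c').card)) /
        M ^ 2 := by
    simp only [← mul_sum, sum_sub_distrib, sum_const, nsmul_eq_mul, hc, ← k1, mul_sub,
      ← sum_mul, mul_left_comm _ ((M : ℝ) ^ 2), ← key f hf]
    rw [Sys.av, show S2.U M = bx M ×ˢ bx M from rfl, hc]
    field_simp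
  rw [e, abs_div, abs_of_pos M1, div_le_iff₀ M1]
  refine (abs_sum_le_sum_abs _ _).trans ((sum_le_card_nsmul _ _ (M ^ 2 * L) fun c _ => ?_).trans
    (by rw [nsmul_eq_mul, hc, mul_comm]))
  refine (abs_sum_le_sum_abs _ _).trans ((sum_le_card_nsmul _ _ L fun c' _ => ?_).trans
    (by rw [nsmul_eq_mul, hc]))
  rw [abs_mul]
  exact (mul_le_of_le_one_left (abs_nonneg _) (h1 c)).trans (hL c c')

theorem p_EQK (hES : S_ES) (hLAT : S_LAT) (hFEJ : S_FEJ) :
    S_EQK := by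
  intro A J hA
  obtain ⟨c, C1, c0, c1, C0, h1⟩ := hES A (J + 1) hA
  obtain ⟨C2', C3, h2⟩ := hLAT A (by omega)
  refine ⟨c, C1 + 2 * C2', c0, c1, by positivity, fun N Mx k n ζ hn hN hMx hk hkN hζ M f hM hMM hf
    hf1 => ?_⟩
  have n1 : (1 : ℝ) ≤ n := by exact_mod_cast hn
  have N1 : 1 ≤ N := n1.trans hN
  have M1 : (1 : ℝ) ≤ M := by exact_mod_cast hM
  have a := EQK_diag _ M f _ hM hf hf1 (h2 _ (Q0_mem (by omega)) 0 N M · · le_rfl (by linarith) hM)
  have b : |∑ v ∈ An (Q0 A) 0 N, KF n (ζ * ek A k v) * f v - ∑ v ∈ An (Q0 A) 0 N, f v| ≤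
      n * (C1 * M ^ 3 * N ^ (1 - c)) := by
    have e : ((∑ v ∈ An (Q0 A) 0 N, KF n (ζ * ek A k v) * f v - ∑ v ∈ An (Q0 A) 0 N, f v : ℝ) : ℂ) =
        (∑ j ∈ range n, ∑ j' ∈ range n, (ζ ^ ((j : ℤ) - j') *
          ∑ v ∈ An (Q0 A) 0 N, (f v : ℂ) * ek A (k * (j - j')) v -
            if j = j' then ∑ v ∈ An (Q0 A) 0 N, (f v : ℂ) else 0)) / n := by
      have n0 : (n : ℂ) ≠ 0 := by exact_mod_cast (show n ≠ 0 by omega)
      simp only [sum_sub_distrib, sum_ite_eq]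
      rw [sum_congr rfl fun j hj => if_pos hj, sum_const, card_range, nsmul_eq_mul, sub_div,
        mul_div_cancel_left₀ _ n0]
      push_cast
      congr 1
      simp only [mul_sum]
      rw [sum_congr rfl fun j _ => sum_comm, sum_comm, sum_div]
      refine sum_congr rfl fun v hv => ?_
      rw [((hFEJ n hn).1 _ (by rw [norm_mul, hζ, norm_ek hA k (ne_of_mem_An hA le_rfl hv),
        one_mul])).2.2.2, div_mul_eq_mul_div, sum_mul]
      congr 1
      refine sum_congr rfl fun j _ => ?_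
      rw [sum_mul]
      exact sum_congr rfl fun j' _ => by rw [mul_zpow, ek_zpow]; ring
    rw [← Real.norm_eq_abs, ← Complex.norm_real, e, norm_div, Complex.norm_natCast,
      div_le_iff₀ (by linarith)]
    refine (norm_sum_le _ _).trans ((sum_le_card_nsmul _ _ (n * (C1 * M ^ 3 * N ^ (1 - c)))
      fun j hj => ?_).trans (by rw [nsmul_eq_mul, card_range, mul_comm]))
    refine (norm_sum_le _ _).trans ((sum_le_card_nsmul _ _ (C1 * M ^ 3 * N ^ (1 - c))
      fun j' hj' => ?_).trans (by rw [nsmul_eq_mul, card_range]))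
    split_ifs with e
    · simp only [e, sub_self, zpow_zero, mul_zero, ek_zero, mul_one, one_mul, norm_zero]
      positivity
    · rw [sub_zero, norm_mul, norm_zpow, hζ, one_zpow, one_mul]
      refine h1 N 0 N _ M f N1 le_rfl (by linarith) le_rfl hM
        (mul_ne_zero hk (sub_ne_zero.2 (by exact_mod_cast e))) ?_ hf hf1
      have j1 : (j : ℝ) < n := by exact_mod_cast mem_range.1 hj
      have j2 : (j' : ℝ) < n := by exact_mod_cast mem_range.1 hj'
      push_cast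
      rw [abs_mul, pow_succ]
      refine mul_le_mul hkN (abs_le.2 ⟨?_, ?_⟩) (abs_nonneg _) (by positivity) <;>
        linarith [j.cast_nonneg (α := ℝ), j'.cast_nonneg (α := ℝ)]
  have s1 : 1 ≤ √N := Real.one_le_sqrt.2 N1
  have s2 : √N ≤ N ^ (1 - c) := by
    rw [Real.sqrt_eq_rpow]
    exact Real.rpow_le_rpow_of_exponent_le N1 (by linarith)
  have d : (M : ℝ) ^ 2 * (C2' * (√N / M + 1)) ≤ n * (2 * C2' * Mx ^ 3 * N ^ (1 - c)) := by
    have : √N / M ≤ √N := div_le_self (by linarith) M1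
    calc (M : ℝ) ^ 2 * (C2' * (√N / M + 1)) ≤ M ^ 3 * (C2' * (2 * N ^ (1 - c))) := by
          gcongr
          · omega
          · linarith
      _ ≤ Mx ^ 3 * (C2' * (2 * N ^ (1 - c))) := by gcongr
      _ = 2 * C2' * Mx ^ 3 * N ^ (1 - c) := by ring
      _ ≤ _ := le_mul_of_one_le_left (by positivity) n1
  have g : n * (C1 * M ^ 3 * N ^ (1 - c)) ≤ n * (C1 * Mx ^ 3 * N ^ (1 - c)) := by gcongr
  refine (abs_sub_le _ (∑ v ∈ An (Q0 A) 0 N, f v) _).trans ?_
  linarith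

end Pool.Agent.P.MP_8be758_nt.Pd
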