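import Pool.Agent.P.MP_8be758_nt.Pd.IfM

/-! Step ES. -/

namespace Pool.Agent.P.MP_8be758_nt.Pd

open Finset Real Filter
open Pool.Agent.P.MP_8be758_nt.Par (nq mul cj det io et)
open Pool.Agent.P.MP_8be758_nt.Avg (rho)
open Pool.Agent.P.MP_8be758_nt.Pd.Mr

/-- splitting into residue classes -/
lemma ES_split (W : Finset V2) {m : ℕ} (hm : 0 < m) {φ : V2 → ℝ} (hφ : S2.Per m φ)
    (h1 : ∀ v, |φ v| ≤ 1) (e : V2 → ℂ) {B : ℝ}
    (hB : ∀ v0, ‖∑ v ∈ W.filter (fun v => C2 m v v0), e v‖ ≤ B) :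
    ‖∑ v ∈ W, (φ v : ℂ) * e v‖ ≤ (m : ℝ) ^ 2 * B := by
  have hm' : (0 : ℤ) < m := by exact_mod_cast hm
  rw [← sum_fiberwise_of_maps_to (s := W) (t := bx m ×ˢ bx m)
    (g := fun v : V2 => (v.1 % (m : ℤ), v.2 % (m : ℤ))) fun v _ => by
      simp only [bx, mem_product, mem_Ico]
      exact ⟨⟨Int.emod_nonneg _ hm'.ne', Int.emod_lt_of_pos _ hm'⟩,
        Int.emod_nonneg _ hm'.ne', Int.emod_lt_of_pos _ hm'⟩]
  refine (norm_sum_le _ _).trans ((sum_le_card_nsmul _ _ B fun c hc => ?_).trans (le_of_eq ?_))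
  · simp only [bx, mem_product, mem_Ico] at hc
    have e1 : W.filter (fun v : V2 => (v.1 % (m : ℤ), v.2 % (m : ℤ)) = c) =
        W.filter (fun v => C2 m v c) := filter_congr fun v _ => by
      rw [C2, Int.ModEq, Int.ModEq, Int.emod_eq_of_lt hc.1.1 hc.1.2,
        Int.emod_eq_of_lt hc.2.1 hc.2.2, Prod.ext_iff]
    rw [e1, sum_congr rfl fun v hv => by rw [hφ v c (mem_filter.1 hv).2], ← mul_sum, norm_mul,
      Complex.norm_real, Real.norm_eq_abs]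
    exact (mul_le_of_le_one_left (norm_nonneg _) (h1 c)).trans (hB c)
  · simp [bx, pow_two]

theorem p_ES (hES0 : S_ES0) (hES1 : S_ES1) (hAREA : S_AREA) :
    S_ES := by
  intro A J hA
  obtain ⟨C0, hC0, h0⟩ := hES0 A hA
  obtain ⟨c1, C1, hc1, hC1, h1⟩ := hES1 A (2 * J) hA
  obtain ⟨ca, Ca, -, hCa, ha⟩ := hAREA A (by omega)
  set c := min c1 (3 / 40) with hc
  have hc0 : 0 < c := lt_min hc1 (by norm_num)
  have hc2 : c ≤ c1 := min_le_left _ _
  have hc3 : c ≤ 3 / 40 := min_le_right _ _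
  refine ⟨c, 2 * (C0 + C1 + 3 * Ca), hc0, by linarith, by positivity, ?_⟩
  intro N N1 N2 k m φ hN hN1 hN12 hN2 hm hk hkN hφ hφ1
  have hm1 : (1 : ℝ) ≤ m := by exact_mod_cast hm
  have hm3 : (1 : ℝ) ≤ (m : ℝ) ^ 3 := one_le_pow₀ hm1
  have hP : 0 ≤ N ^ (1 - c) := by positivity
  have disc : ∀ N' : ℝ, 0 ≤ N' → N' ≤ N →
      ‖∑ v ∈ An (Q0 A) 0 N', (φ v : ℂ) * ek A k v‖ ≤
        (C0 + C1 + 3 * Ca) * (m : ℝ) ^ 3 * N ^ (1 - c) := by
    intro N' p0 p1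
    have s1 : 1 ≤ √N := Real.one_le_sqrt.2 hN
    by_cases hs : N' ≤ √N
    · have a1 := (ha _ (Q0_mem (by omega)) 0 N' le_rfl p0).2
      have a2 : √N' ≤ √N := Real.sqrt_le_sqrt p1
      have a3 : √N ≤ N ^ (1 - c) := by
        rw [Real.sqrt_eq_rpow]
        exact Real.rpow_le_rpow_of_exponent_le hN (by linarith)
      have a4 : ‖∑ v ∈ An (Q0 A) 0 N', (φ v : ℂ) * ek A k v‖ ≤ (An (Q0 A) 0 N').card := by
        refine (norm_sum_le _ _).trans ((sum_le_card_nsmul _ _ 1 fun v _ => ?_).trans (by simp))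
        rw [norm_mul, Complex.norm_real, Real.norm_eq_abs]
        exact mul_le_one₀ (hφ1 v) (norm_nonneg _) (norm_ek_le hA k v)
      calc _ ≤ Ca * (3 * N ^ (1 - c)) :=
            a4.trans (a1.trans (mul_le_mul_of_nonneg_left (by linarith) hCa.le))
        _ = (3 * Ca) * 1 * N ^ (1 - c) := by ring
        _ ≤ _ := by gcongr; linarith
    · have b0 : √N ≤ N' := (not_le.1 hs).le
      have b1 : 1 ≤ N' := s1.trans b0
      have b2 : N ≤ N' ^ 2 := by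
        have := Real.sq_sqrt (by linarith : 0 ≤ N)
        nlinarith
      have b3 : |(k : ℝ)| ≤ N' ^ (2 * J) := by
        rw [pow_mul]
        exact hkN.trans (pow_le_pow_left₀ (by linarith) b2 J)
      have b4 : N' ^ (1 - c) ≤ N ^ (1 - c) := Real.rpow_le_rpow p0 p1 (by linarith)
      have cls : ∀ v0, ‖∑ v ∈ (An (Q0 A) 0 N').filter (fun v => C2 m v v0), ek A k v‖ ≤
          (C0 + C1) * m * N' ^ (1 - c) := by
        intro v0
        by_cases hk' : N' ^ (1 / 40 : ℝ) ≤ |(k : ℝ)|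
        · refine (h1 N' k m v0 b1 hm hk' b3).trans ?_
          have : N' ^ (1 - c1) ≤ N' ^ (1 - c) := Real.rpow_le_rpow_of_exponent_le b1 (by linarith)
          gcongr
          linarith
        · refine (h0 N' k m v0 b1 hm hk).trans ?_
          have d1 : |(k : ℝ)| ^ 7 ≤ (N' ^ (1 / 40 : ℝ)) ^ 7 :=
            pow_le_pow_left₀ (abs_nonneg _) (not_le.1 hk').le 7
          have d2 : (N' ^ (1 / 40 : ℝ)) ^ 7 * N' ^ (3 / 4 : ℝ) ≤ N' ^ (1 - c) := by
            rw [← Real.rpow_natCast, ← Real.rpow_mul p0, ← Real.rpow_add (by linarith)]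
            exact Real.rpow_le_rpow_of_exponent_le b1 (by push_cast; linarith)
          calc _ = C0 * m * (|(k : ℝ)| ^ 7 * N' ^ (3 / 4 : ℝ)) := by ring
            _ ≤ C0 * m * ((N' ^ (1 / 40 : ℝ)) ^ 7 * N' ^ (3 / 4 : ℝ)) := by gcongr
            _ ≤ _ := by gcongr; linarith
      calc _ ≤ (m : ℝ) ^ 2 * ((C0 + C1) * m * N' ^ (1 - c)) := ES_split _ hm hφ hφ1 _ cls
        _ = (C0 + C1) * (m : ℝ) ^ 3 * N' ^ (1 - c) := by ring
        _ ≤ _ := mul_le_mul (mul_le_mul_of_nonneg_right (by linarith) (by positivity)) b4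
            (by positivity) (by positivity)
  have sub : An (Q0 A) 0 N1 ⊆ An (Q0 A) 0 N2 := fun v hv => by
    rw [mem_An0 hA] at hv ⊢
    exact ⟨hv.1, hv.2.trans hN12⟩
  have e : An (Q0 A) N1 N2 = An (Q0 A) 0 N2 \ An (Q0 A) 0 N1 := by
    ext v
    rw [Finset.mem_sdiff, mem_An0 hA, mem_An0 hA, mem_An0 hA]
    constructor
    · rintro ⟨a, b⟩
      exact ⟨⟨hN1.trans_lt a, b⟩, fun h => h.2.not_gt a⟩
    · rintro ⟨⟨a, b⟩, h⟩
      exact ⟨not_le.1 fun h' => h ⟨a, h'⟩, b⟩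
  rw [e, sum_sdiff_eq_sub sub]
  refine (norm_sub_le _ _).trans ?_
  have q1 := disc N2 (hN1.trans hN12) hN2
  have q2 := disc N1 hN1 (hN12.trans hN2)
  linarith

end Pool.Agent.P.MP_8be758_nt.Pd
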