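import Pool.Agent.P.MP_8be758_nt.Pd.IfM

/-! Step ES0. -/

namespace Pool.Agent.P.MP_8be758_nt.Pd

open Finset Real Filter
open Pool.Agent.P.MP_8be758_nt.Par (nq mul cj det io et)
open Pool.Agent.P.MP_8be758_nt.Avg (rho)
open Pool.Agent.P.MP_8be758_nt.Pd.Mr

theorem ES0_emod {n : ℕ} {r : ℤ} (hr : r ∈ bx n) : r % n = r := by
  rw [bx, mem_Ico] at hr
  exact Int.emod_eq_of_lt hr.1 hr.2

theorem ES0_mem {n : ℕ} (hn : 0 < n) (r : ℤ) : r % n ∈ bx n := by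
  have : (0 : ℤ) < n := by exact_mod_cast hn
  rw [bx, mem_Ico]
  exact ⟨Int.emod_nonneg _ this.ne', Int.emod_lt_of_pos _ this⟩

theorem ES0_fib (W : Finset V2) (f : V2 → ℂ) {n : ℕ} (hn : 0 < n) (s : ℤ) :
    ∑ w ∈ W.filter (fun w => (n : ℤ) ∣ w.1 - s * w.2), f w =
      ∑ r ∈ bx n, ∑ w ∈ W.filter (fun w => C2 n w (s * r, r)), f w := by
  rw [← sum_fiberwise_of_maps_to (g := fun w : V2 => w.2 % (n : ℤ)) (t := bx n)
    (fun w _ => ES0_mem hn w.2)]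
  refine sum_congr rfl fun r hr => sum_congr ?_ fun _ _ => rfl
  ext w
  simp only [mem_filter, C2, and_assoc]
  refine and_congr_right fun _ => ⟨fun ⟨h1, h2⟩ => ?_, fun ⟨h1, h2⟩ => ?_⟩
  · have h3 : w.2 ≡ r [ZMOD n] := by
      rw [Int.ModEq, h2, ES0_emod hr]
    refine ⟨?_, h3⟩
    have h4 : s * w.2 ≡ w.1 [ZMOD n] := Int.modEq_iff_dvd.2 h1
    exact h4.symm.trans (h3.mul_left s)
  · refine ⟨Int.modEq_iff_dvd.1 ((h2.mul_left s).trans h1.symm), ?_⟩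
    rw [← ES0_emod hr]
    exact h2

theorem ES0_fib2 (W : Finset V2) (f : V2 → ℂ) {m : ℕ} (hm : 0 < m) :
    ∑ w ∈ W, f w = ∑ c ∈ bx m ×ˢ bx m, ∑ w ∈ W.filter (fun w => C2 m w c), f w := by
  rw [← sum_fiberwise_of_maps_to (g := fun w : V2 => (w.1 % (m : ℤ), w.2 % (m : ℤ)))
    (t := bx m ×ˢ bx m) (fun w _ => mem_product.2 ⟨ES0_mem hm w.1, ES0_mem hm w.2⟩)]
  refine sum_congr rfl fun c hc => sum_congr ?_ fun _ _ => rfl
  obtain ⟨c1, c2⟩ := mem_product.1 hc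
  ext w
  simp only [mem_filter, C2, Int.ModEq, ES0_emod c1, ES0_emod c2, Prod.ext_iff]

theorem ES0_bij {A : ℕ} (hA : 2 ≤ A) (k : ℤ) (N : ℝ) {n : ℕ} (hn : 0 < n) (g : V2) (s : ℤ)
    (hg : nq A g = n) (h1 : ∀ v, (n : ℤ) ∣ (mul A g v).1 - s * (mul A g v).2)
    (h2 : ∀ w : V2, (n : ℤ) ∣ w.1 - s * w.2 → ∃ v, mul A g v = w) :
    ek A k g * ∑ v ∈ An (Q0 A) 0 N, ek A k v =
      ∑ w ∈ (An (Q0 A) 0 (n * N)).filter (fun w => (n : ℤ) ∣ w.1 - s * w.2), ek A k w := by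
  have hn' : (0 : ℝ) < n := by exact_mod_cast hn
  have hg0 : g ≠ 0 := by
    rintro rfl
    simp [nq] at hg
    omega
  have key : ∀ v, mul A g v ∈ An (Q0 A) 0 (n * N) ↔ v ∈ An (Q0 A) 0 N := by
    intro v
    rw [mem_An0 hA, mem_An0 hA, Par.nq_mul, hg]
    push_cast
    rw [mul_pos_iff_of_pos_left hn', mul_le_mul_iff_right₀ hn']
  rw [mul_sum]
  refine sum_bij (fun v _ => mul A g v) (fun v hv => mem_filter.2 ⟨(key v).2 hv, h1 v⟩)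
    (fun v _ w _ h => mul_inj hA hg0 h) (fun w hw => ?_) fun v _ => (ek_mul hA k g v).symm
  obtain ⟨v, rfl⟩ := h2 w (mem_filter.1 hw).2
  exact ⟨v, (key v).1 (mem_filter.1 hw).1, rfl⟩

theorem ES0_low (hFEJ : S_FEJ) {A : ℕ} (hA : 2 ≤ A) {k : ℤ} (hk : k ≠ 0) :
    1 ≤ 12 * A * ‖ek A k ((4 * A * k.natAbs : ℕ), 1) - ek A k (((4 * A * k.natAbs : ℕ) : ℤ) + 1, -1)‖ := by
  obtain ⟨K, hK⟩ : ∃ K, K = k.natAbs := ⟨_, rfl⟩
  rw [← hK]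
  have hK1 : 1 ≤ K := by omega
  obtain ⟨g, hg⟩ : ∃ g : V2, g = (((4 * A * K : ℕ) : ℤ), 1) := ⟨_, rfl⟩
  obtain ⟨g', hg'⟩ : ∃ g' : V2, g' = (((4 * A * K : ℕ) : ℤ) + 1, -1) := ⟨_, rfl⟩
  rw [← hg, ← hg']
  have g0 : g ≠ 0 := by
    rw [hg]
    exact fun h => by simpa using congrArg Prod.snd h
  have g0' : g' ≠ 0 := by
    rw [hg']
    exact fun h => by simpa using congrArg Prod.snd h
  have n1 := norm_uu hA g0
  have n2 := norm_uu hA g0'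
  obtain ⟨x, hx⟩ : ∃ x, x = uu A g * (starRingEnd ℂ) (uu A g') := ⟨_, rfl⟩
  have nx : ‖x‖ = 1 := by rw [hx, norm_mul, Complex.norm_conj, n1, n2, mul_one]
  have x0 : x ≠ 0 := norm_ne_zero_iff.1 (by rw [nx]; exact one_ne_zero)
  have e1 : ‖ek A k g - ek A k g'‖ = ‖x ^ K - 1‖ := by
    rw [← norm_mul_conj_sub (norm_ek hA k g0'), ek, ek, map_zpow₀, ← mul_zpow, ← hx]
    rcases Int.natAbs_eq k with h | h
    · rw [h, ← hK, zpow_natCast]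
    · rw [h, ← hK, zpow_neg, zpow_natCast]
      have : (x ^ K)⁻¹ - 1 = -(x ^ K)⁻¹ * (x ^ K - 1) := by
        have := pow_ne_zero K x0
        field_simp
        ring
      rw [this, norm_mul, norm_neg, norm_inv, norm_pow, nx, one_pow, inv_one, one_mul]
  have e2 : ‖x - 1‖ = ‖uu A g - uu A g'‖ := by rw [hx, norm_mul_conj_sub n2]
  have e3 := norm_uu_sub_sq hA g0 g0'
  rw [← e2] at e3
  have a2 : (2 : ℝ) ≤ A := by exact_mod_cast hA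
  have k1 : (1 : ℝ) ≤ K := by exact_mod_cast hK1
  obtain ⟨t, ht⟩ : ∃ t : ℝ, t = 4 * A * K := ⟨_, rfl⟩
  have q1 : (nq A g : ℝ) = t ^ 2 + t + A := by
    rw [hg, ht, nq]; push_cast; ring
  have q2 : (nq A g' : ℝ) = t ^ 2 + t + A := by
    rw [hg', ht, nq]; push_cast; ring
  have q3 : (det g g' : ℝ) = -(2 * t + 1) := by
    rw [hg, hg', ht, det]; push_cast; ring
  rw [q1, q2, q3] at e3
  obtain ⟨η, hη⟩ : ∃ η, η = ‖x - 1‖ := ⟨_, rfl⟩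
  have η0 : 0 ≤ η := hη ▸ norm_nonneg _
  rw [← hη] at e3
  obtain ⟨b, hb⟩ : ∃ b : ℝ, b = A * K := ⟨_, rfl⟩
  have b1 : (A : ℝ) ≤ b := by rw [hb]; nlinarith
  have tb : t = 4 * b := by rw [ht, hb]; ring
  obtain ⟨n, hn⟩ : ∃ n : ℝ, n = t ^ 2 + t + A := ⟨_, rfl⟩
  rw [← hn] at e3
  have nl : 16 * b ^ 2 ≤ n := by rw [hn, tb]; nlinarith
  have nu : n ≤ 24 * b ^ 2 := by rw [hn, tb]; nlinarith
  have n0 : 0 < n := by nlinarith
  have e4 : (A * (K * η) * n) ^ 2 = b ^ 2 * ((4 * A - 1) * (8 * b + 1) ^ 2) := by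
    have : (8 * b + 1) ^ 2 = (-(2 * t + 1)) ^ 2 := by rw [tb]; ring
    rw [this, ← e3, hb]; ring
  have b0 : 0 < b := by linarith
  have u1 : K * η ≤ 1 := by
    have h1 : (8 * b + 1) ^ 2 ≤ 81 * b ^ 2 := by nlinarith
    have h2 : (4 * A - 1) * (8 * b + 1) ^ 2 ≤ (4 * A) * (81 * b ^ 2) :=
      mul_le_mul (by linarith) h1 (by positivity) (by positivity)
    have h3 : (A * (K * η) * n) ^ 2 ≤ (A * 1 * n) ^ 2 := by
      rw [e4]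
      calc b ^ 2 * ((4 * A - 1) * (8 * b + 1) ^ 2) ≤ b ^ 2 * ((4 * A) * (81 * b ^ 2)) := by gcongr
        _ = A * 324 * (b ^ 2) ^ 2 := by ring
        _ ≤ A * (A * 256) * (b ^ 2) ^ 2 := by gcongr; linarith
        _ = (A * 1 * (16 * b ^ 2)) ^ 2 := by ring
        _ ≤ (A * 1 * n) ^ 2 := by gcongr
    have h4 := le_of_sq_le_sq h3 (by positivity)
    have h5 : 0 < (A : ℝ) := by linarith
    exact le_of_mul_le_mul_left (le_of_mul_le_mul_right h4 n0) h5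
  have u2 : 1 ≤ 6 * (A * (K * η)) := by
    have h1 : 64 * b ^ 2 ≤ (8 * b + 1) ^ 2 := by nlinarith
    have h2 : 7 * (64 * b ^ 2) ≤ (4 * A - 1) * (8 * b + 1) ^ 2 :=
      mul_le_mul (by linarith) h1 (by positivity) (by linarith)
    have h3 : (1 * n) ^ 2 ≤ (6 * (A * (K * η)) * n) ^ 2 := by
      calc (1 * n) ^ 2 ≤ (1 * (24 * b ^ 2)) ^ 2 := by gcongr
        _ = 576 * (b ^ 2) ^ 2 := by ring
        _ ≤ 16128 * (b ^ 2) ^ 2 := by gcongr; norm_num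
        _ = 36 * (b ^ 2 * (7 * (64 * b ^ 2))) := by ring
        _ ≤ 36 * (b ^ 2 * ((4 * A - 1) * (8 * b + 1) ^ 2)) := by gcongr
        _ = _ := by rw [← e4]; ring
    have h4 := le_of_sq_le_sq h3 (by positivity)
    exact le_of_mul_le_mul_right h4 n0
  have h5 := (((hFEJ K hK1).1 x nx).2.2.1 (by rw [← hη]; exact u1)).2
  rw [← hη] at h5
  rw [e1]
  nlinarith [norm_nonneg (x ^ K - 1)]

theorem p_ES0 (hSHF : S_SHF) (hFEJ : S_FEJ) :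
    S_ES0 := by
  intro A hA
  obtain ⟨C, hC, H⟩ := hSHF A hA
  have a2 : (2 : ℝ) ≤ A := by exact_mod_cast hA
  refine ⟨24 * A * (24 * A ^ 2) ^ 3 * C + 2 * C, by positivity, fun N k m v0 hN hm hk => ?_⟩
  have hlow := ES0_low hFEJ hA hk
  obtain ⟨t, ht⟩ : ∃ t : ℕ, t = 4 * A * k.natAbs := ⟨_, rfl⟩
  rw [← ht] at hlow
  obtain ⟨n, hn⟩ : ∃ n : ℕ, n = t ^ 2 + t + A := ⟨_, rfl⟩
  have n0 : 0 < n := by omega
  have nz : (n : ℤ) = t ^ 2 + t + A := by rw [hn]; push_cast; ring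
  have n1 : (1 : ℝ) ≤ n := by exact_mod_cast n0
  have kk : (k.natAbs : ℝ) = |(k : ℝ)| := by rw [Nat.cast_natAbs, Int.cast_abs]
  have k1 : (1 : ℝ) ≤ |(k : ℝ)| := by
    rw [← kk]
    exact_mod_cast Int.natAbs_pos.2 hk
  obtain ⟨κ, hκ⟩ : ∃ κ, κ = |(k : ℝ)| := ⟨_, rfl⟩
  have nu : (n : ℝ) ≤ 24 * A ^ 2 * κ ^ 2 := by
    have e : (n : ℝ) = (4 * (A * κ)) ^ 2 + 4 * (A * κ) + A := by
      rw [hn, ht, hκ, ← kk]; push_cast; ring
    have b1 : (A : ℝ) ≤ A * κ := by rw [hκ]; nlinarith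
    have : 24 * (A : ℝ) ^ 2 * κ ^ 2 = 24 * (A * κ) ^ 2 := by ring
    rw [e, this]
    generalize (A : ℝ) * κ = b at b1 ⊢
    nlinarith
  have B1 := ES0_bij hA k N n0 ((t : ℤ), 1) t (by rw [nz, nq]; ring)
    (fun v => ⟨-v.2, by rw [nz]; simp only [mul]; ring⟩)
    (fun w ⟨c, hc⟩ => ⟨(w.2 + (t + 1) * c, -c), by
      rw [nz] at hc
      refine Prod.ext ?_ ?_ <;> simp only [mul]
      · linear_combination -hc
      · ring⟩)
  have B2 := ES0_bij hA k N n0 ((t : ℤ) + 1, -1) (-(t + 1)) (by rw [nz, nq]; ring)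
    (fun v => ⟨v.2, by rw [nz]; simp only [mul]; ring⟩)
    (fun w ⟨c, hc⟩ => ⟨(t * c - w.2, c), by
      rw [nz] at hc
      refine Prod.ext ?_ ?_ <;> simp only [mul]
      · linear_combination -hc
      · ring⟩)
  rw [ES0_fib _ _ n0] at B1 B2
  obtain ⟨S, hS⟩ : ∃ S, S = ∑ v ∈ An (Q0 A) 0 N, ek A k v := ⟨_, rfl⟩
  rw [← hS] at B1 B2
  obtain ⟨Z, hZ⟩ : ∃ Z, Z = N ^ (3 / 4 : ℝ) := ⟨_, rfl⟩
  have Z0 : 0 ≤ Z := hZ ▸ rpow_nonneg (by linarith) _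
  have cb : ∀ j : ℕ, ((bx j).card : ℝ) = j := fun j => by simp [bx]
  have hnN : (n * N : ℝ) ^ (3 / 4 : ℝ) ≤ n * Z := by
    rw [mul_rpow (by linarith) (by linarith), ← hZ]
    gcongr
    exact rpow_le_self_of_one_le n1 (by norm_num)
  have k1' : 1 ≤ κ := hκ ▸ k1
  have D1 : ‖ek A k ((t : ℤ), 1) - ek A k ((t : ℤ) + 1, -1)‖ * ‖S‖ ≤
      2 * (24 * A ^ 2) ^ 3 * C * κ ^ 7 * Z := by
    rw [← norm_mul, sub_mul, B1, B2, ← sum_sub_distrib]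
    refine (norm_sum_le _ _).trans ((sum_le_card_nsmul _ _ _ fun r _ =>
      H (n * N) k n _ _ (by nlinarith) n0).trans ?_)
    rw [nsmul_eq_mul, cb, ← hκ]
    calc n * (C * n * (κ + 1) * (n * N : ℝ) ^ (3 / 4 : ℝ)) ≤ n * (C * n * (2 * κ) * (n * Z)) := by
          gcongr; linarith
      _ = 2 * (n : ℝ) ^ 3 * C * κ * Z := by ring
      _ ≤ 2 * (24 * A ^ 2 * κ ^ 2) ^ 3 * C * κ * Z := by gcongr
      _ = _ := by ring
  have D2 : ‖S‖ ≤ 24 * A * (24 * A ^ 2) ^ 3 * C * κ ^ 7 * Z := by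
    calc ‖S‖ = 1 * ‖S‖ := (one_mul _).symm
      _ ≤ (12 * A * ‖ek A k ((t : ℤ), 1) - ek A k ((t : ℤ) + 1, -1)‖) * ‖S‖ := by gcongr
      _ = 12 * A * (‖ek A k ((t : ℤ), 1) - ek A k ((t : ℤ) + 1, -1)‖ * ‖S‖) := by ring
      _ ≤ 12 * A * (2 * (24 * A ^ 2) ^ 3 * C * κ ^ 7 * Z) := by gcongr
      _ = _ := by ring
  obtain ⟨S0, hS0⟩ : ∃ S0, S0 = ∑ v ∈ (An (Q0 A) 0 N).filter (fun v => C2 m v v0), ek A k v :=
    ⟨_, rfl⟩
  have m1 : (1 : ℝ) ≤ m := by exact_mod_cast hm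
  have cm : ((bx m ×ˢ bx m).card : ℝ) = m * m := by rw [card_product, Nat.cast_mul, cb]
  have D3 : (m * m : ℝ) * ‖S0‖ ≤ ‖S‖ + m * m * (C * m * (κ + 1) * Z) := by
    have e : ((m * m : ℝ) : ℂ) * S0 = S + ∑ c ∈ bx m ×ˢ bx m,
        (S0 - ∑ v ∈ (An (Q0 A) 0 N).filter (fun v => C2 m v c), ek A k v) := by
      rw [sum_sub_distrib, ← ES0_fib2 _ _ hm, ← hS, sum_const, nsmul_eq_mul, ← cm]
      push_cast
      ring
    have e2 : (m * m : ℝ) * ‖S0‖ = ‖((m * m : ℝ) : ℂ) * S0‖ := by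
      rw [norm_mul, Complex.norm_real, Real.norm_eq_abs, abs_of_nonneg (by positivity)]
    rw [e2, e]
    refine (norm_add_le _ _).trans (add_le_add le_rfl ((norm_sum_le _ _).trans
      ((sum_le_card_nsmul _ _ (C * m * (κ + 1) * Z) fun c _ => ?_).trans ?_)))
    · rw [hS0, hκ, hZ]
      exact H N k m _ _ hN hm
    · rw [nsmul_eq_mul, cm]
  rw [← hS0, ← hκ, ← hZ]
  have mm : (1 : ℝ) ≤ m * m := by nlinarith
  have D4 : ‖S0‖ ≤ ‖S‖ + C * m * (κ + 1) * Z := by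
    refine le_of_mul_le_mul_left (D3.trans ?_) (by linarith : (0 : ℝ) < m * m)
    rw [mul_add (m * m : ℝ)]
    exact add_le_add (le_mul_of_one_le_left (norm_nonneg S) mm) le_rfl
  have k7 : κ + 1 ≤ 2 * κ ^ 7 := by
    have : κ ^ 1 ≤ κ ^ 7 := pow_le_pow_right₀ k1' (by norm_num)
    linarith [pow_one κ]
  calc ‖S0‖ ≤ 24 * A * (24 * A ^ 2) ^ 3 * C * κ ^ 7 * Z + C * m * (2 * κ ^ 7) * Z := by
        refine D4.trans (add_le_add D2 ?_)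
        gcongr
    _ ≤ m * (24 * A * (24 * A ^ 2) ^ 3 * C * κ ^ 7 * Z) + C * m * (2 * κ ^ 7) * Z :=
        add_le_add (le_mul_of_one_le_left (by positivity) m1) le_rfl
    _ = _ := by ring

end Pool.Agent.P.MP_8be758_nt.Pd
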