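import Pool.Agent.P.MP_8be758_nt.Pd.IfM

/-! Step ES1: character sums over a disc in a residue class, large frequencies. -/

namespace Pool.Agent.P.MP_8be758_nt.Pd

open Finset Real Filter
open Pool.Agent.P.MP_8be758_nt.Par (nq mul cj det io et)
open Pool.Agent.P.MP_8be758_nt.Avg (rho)
open Pool.Agent.P.MP_8be758_nt.Pd.Mr

/-- averaging over shifts -/
theorem ES1_avg {n : ℕ} {G : Finset V2} {e1 e2 : ℝ} (bad : V2 → Prop) [DecidablePred bad]
    (hn : 0 < n) (g : V2 → ℂ) (hg : ∀ v, ‖g v‖ ≤ 1) (d : ℕ → V2) (he : 0 ≤ e2)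
    (h1 : ∀ t < n, ‖∑ v ∈ G, g (v + d t) - ∑ v ∈ G, g v‖ ≤ e1)
    (h2 : ∀ v ∈ G, ¬bad v → ‖∑ t ∈ range n, g (v + d t)‖ ≤ e2 * n) :
    ‖∑ v ∈ G, g v‖ ≤ e1 + e2 * G.card + (G.filter bad).card := by
  have hn' : (0 : ℝ) < n := by exact_mod_cast hn
  have e : (n : ℂ) * ∑ v ∈ G, g v = ∑ v ∈ G, ∑ t ∈ range n, g (v + d t) -
      ∑ t ∈ range n, (∑ v ∈ G, g (v + d t) - ∑ v ∈ G, g v) := by
    rw [sum_sub_distrib, sum_comm, sum_const, card_range, nsmul_eq_mul]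
    ring
  have a1 : ‖∑ t ∈ range n, (∑ v ∈ G, g (v + d t) - ∑ v ∈ G, g v)‖ ≤ n * e1 := by
    refine (norm_sum_le _ _).trans ((sum_le_card_nsmul _ _ e1 fun t ht =>
      h1 t (mem_range.1 ht)).trans_eq ?_)
    rw [card_range, nsmul_eq_mul]
  have a2 : ‖∑ v ∈ G, ∑ t ∈ range n, g (v + d t)‖ ≤
      ∑ v ∈ G, (e2 * n + if bad v then (n : ℝ) else 0) := by
    refine (norm_sum_le _ _).trans (sum_le_sum fun v hv => ?_)
    split_ifs with hb
    · have : ‖∑ t ∈ range n, g (v + d t)‖ ≤ n := by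
        refine (norm_sum_le _ _).trans ((sum_le_card_nsmul _ _ 1 fun t _ => hg _).trans_eq ?_)
        rw [card_range, nsmul_eq_mul, mul_one]
      have := mul_nonneg he hn'.le
      linarith
    · rw [add_zero]
      exact h2 v hv hb
  rw [sum_add_distrib, ← sum_filter, sum_const, sum_const, nsmul_eq_mul, nsmul_eq_mul] at a2
  have a3 := norm_sub_le (∑ v ∈ G, ∑ t ∈ range n, g (v + d t))
    (∑ t ∈ range n, (∑ v ∈ G, g (v + d t) - ∑ v ∈ G, g v))
  rw [← e, norm_mul, Complex.norm_natCast] at a3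
  refine le_of_mul_le_mul_left ?_ hn'
  nlinarith

theorem ES1_sh (m t : ℕ) (v v0 : V2) : C2 m (v + ((m * t : ℤ), 0)) v0 ↔ C2 m v v0 := by
  have : (v + ((m * t : ℤ), 0) : V2).1 ≡ v.1 [ZMOD m] := by
    simp [Int.ModEq]
  simp only [C2, Prod.snd_add, add_zero]
  exact ⟨fun h => ⟨this.symm.trans h.1, h.2⟩, fun h => ⟨this.trans h.1, h.2⟩⟩

theorem p_ES1 (hSEG : S_SEG) (hSUBL : S_SUBL) (hSH0 : S_SH0) (hAREA : S_AREA) :
    S_ES1 := by
  intro A J hA
  obtain ⟨B, τ0, Cg, hτ0, hCg, hG⟩ := hSEG J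
  obtain ⟨j, hj⟩ : ∃ j, j = 2 * J + 2 := ⟨_, rfl⟩
  rw [← hj] at hG
  have hj1 : 1 ≤ j := by omega
  obtain ⟨Cs, hCs, hS⟩ := hSUBL A j hA hj1
  obtain ⟨Ch, hCh, hH⟩ := hSH0 A hA
  obtain ⟨_, Ca, _, hCa, hAr⟩ := hAREA A (by omega)
  have hj' : (0 : ℝ) < j := by exact_mod_cast hj1
  refine ⟨1 / (80 * j * (B + 5)), 3 * Ca * (1 / τ0 + 1) + (2 * Ch + Cg * (3 * Ca) + 2 * Cs),
    by positivity, by positivity, fun N k m v0 hN hm hk1 hk2 => ?_⟩
  obtain ⟨c, hc⟩ : ∃ c : ℝ, c = 1 / (80 * j * (B + 5)) := ⟨_, rfl⟩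
  rw [← hc]
  have hc0 : 0 < c := by rw [hc]; positivity
  have hN0 : 0 < N := by linarith
  have hm' : (1 : ℝ) ≤ m := by exact_mod_cast hm
  obtain ⟨w, hw⟩ : ∃ w : ℝ, w = N ^ (-c) := ⟨_, rfl⟩
  have hw0 : 0 < w := by rw [hw]; positivity
  have hw1 : w ≤ 1 := by rw [hw]; exact rpow_le_one_of_one_le_of_nonpos hN (by linarith)
  have e1 : N ^ (1 - c) = w * N := by
    rw [hw, sub_eq_neg_add, rpow_add hN0, rpow_one]
  rw [e1]
  obtain ⟨τ, hτ⟩ : ∃ τ : ℝ, τ = w ^ j := ⟨_, rfl⟩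
  have ht0 : 0 < τ := by rw [hτ]; positivity
  have htw : τ ≤ w := by rw [hτ]; exact pow_le_of_le_one hw0.le hw1 (by omega)
  have ht1 : τ ≤ 1 := htw.trans hw1
  have e2 : τ ^ (B + 5) * N ^ (1 / 80 : ℝ) = 1 := by
    rw [hτ, hw, ← pow_mul, ← rpow_natCast, ← rpow_mul hN0.le, ← rpow_add hN0,
      show -c * ((j * (B + 5) : ℕ) : ℝ) + 1 / 80 = 0 by
        rw [hc]; push_cast; field_simp; ring, rpow_zero]
  obtain ⟨R, hR⟩ : ∃ R : ℝ, R = √N := ⟨_, rfl⟩
  have hR1 : 1 ≤ R := by rw [hR]; exact one_le_sqrt.2 hN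
  have hRN : R ^ 2 = N := by rw [hR]; exact sq_sqrt hN0.le
  have yR : N ^ (1 / 80 : ℝ) ≤ R := by
    rw [hR, sqrt_eq_rpow]
    exact rpow_le_rpow_of_exponent_le hN (by norm_num)
  have yk : N ^ (1 / 80 : ℝ) ≤ |(k : ℝ)| :=
    (rpow_le_rpow_of_exponent_le hN (by norm_num)).trans hk1
  have key : ∀ (i : ℕ) (x : ℝ), i ≤ B + 5 → N ^ (1 / 80 : ℝ) ≤ x → 1 ≤ τ ^ i * x := fun i x hi hx =>
    e2 ▸ mul_le_mul (pow_le_pow_of_le_one ht0.le ht1 hi) hx (by positivity) (by positivity)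
  have hcard : ((An (Q0 A) 0 N).card : ℝ) ≤ 3 * Ca * N := by
    have h1 := (hAr _ (Q0_mem (by omega)) 0 N le_rfl hN0.le).2
    have h2 : R ≤ N := by nlinarith
    rw [← hR] at h1
    nlinarith
  obtain ⟨g, hg⟩ : ∃ g : V2 → ℂ, g = fun v => if C2 m v v0 then ek A k v else 0 := ⟨_, rfl⟩
  have hg1 : ∀ v, ‖g v‖ ≤ 1 := fun v => by
    rw [hg]
    dsimp only
    split_ifs
    · exact norm_ek_le hA k v
    · simp
  rw [sum_filter]
  change ‖∑ v ∈ An (Q0 A) 0 N, (fun v => if C2 m v v0 then ek A k v else 0) v‖ ≤ _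
  rw [← hg]
  have hP : 0 < w * N := by positivity
  have hmP : w * N ≤ m * (w * N) := le_mul_of_one_le_left hP.le hm'
  have p1 : 0 ≤ 3 * Ca * (1 / τ0 + 1) * m * (w * N) := by positivity
  have p2 : 0 ≤ (2 * Ch + Cg * (3 * Ca) + 2 * Cs) * m * (w * N) := by positivity
  rw [add_mul, add_mul]
  by_cases hb : τ ≤ τ0 ∧ m * τ ≤ 1
  · obtain ⟨n, hn⟩ : ∃ n : ℕ, n = ⌈τ ^ 5 * R⌉₊ := ⟨_, rfl⟩
    have k5 := key 5 R (by omega) yR
    have n1 : τ ^ 5 * R ≤ n := hn ▸ Nat.le_ceil _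
    have n2 : (n : ℝ) ≤ 2 * τ ^ 5 * R := by
      have := Nat.ceil_lt_add_one (show 0 ≤ τ ^ 5 * R by linarith)
      rw [← hn] at this
      linarith
    have n3 : (1 : ℝ) ≤ n := k5.trans n1
    have n4 : (m : ℝ) * n ≤ 2 * w * R := by
      have h1 : τ ^ 4 ≤ w := (pow_le_of_le_one ht0.le ht1 (by norm_num)).trans htw
      calc (m : ℝ) * n ≤ m * (2 * τ ^ 5 * R) := by gcongr
        _ = 2 * (m * τ * τ ^ 4) * R := by ring
        _ ≤ 2 * (1 * w) * R := by gcongr; exact hb.2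
        _ = 2 * w * R := by ring
    have hio : ∀ t : ℕ, io A ((m * t : ℤ), 0) = ((m : ℝ) : ℂ) * t := fun t => by simp [io]
    have main := ES1_avg (G := An (Q0 A) 0 N) (n := n) (e1 := Ch * (m * n) * √N) (e2 := Cg * τ)
      (fun v => |(io A v ^ j).im| ≤ (w * R) ^ j) (by exact_mod_cast n3) g hg1
      (fun t => ((m * t : ℤ), 0)) (by positivity)
      (fun t ht => hH N _ _ g hN (one_le_mul_of_one_le_of_one_le hm' n3) (by
        rw [hio, norm_mul, Complex.norm_real, Complex.norm_natCast, Real.norm_natCast]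
        exact mul_le_mul_of_nonneg_left (by exact_mod_cast ht.le) (by positivity)) hg1)
      fun v hv hv' => ?_
    · have h1 := hS R w hR1 hw0 hw1
      rw [hRN] at h1
      have h2 : R ≤ w * N := by
        have := key 1 R (by omega) yR
        rw [pow_one] at this
        rw [← hRN]
        nlinarith [mul_le_mul_of_nonneg_right htw (show 0 ≤ R by linarith)]
      have h3 : Ch * (m * n) * √N ≤ 2 * Ch * (w * N) := by
        rw [← hR, ← hRN]
        calc Ch * (m * n) * R ≤ Ch * (2 * w * R) * R := by gcongr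
          _ = _ := by ring
      have h4 : Cg * τ * (An (Q0 A) 0 N).card ≤ Cg * (3 * Ca) * (w * N) :=
        calc Cg * τ * (An (Q0 A) 0 N).card ≤ Cg * w * (3 * Ca * N) := by gcongr
          _ = _ := by ring
      have h5 : Cs * (w * N + R) ≤ 2 * Cs * (w * N) := by nlinarith
      have h6 : (2 * Ch + Cg * (3 * Ca) + 2 * Cs) * (w * N) ≤
          (2 * Ch + Cg * (3 * Ca) + 2 * Cs) * m * (w * N) := by
        rw [mul_assoc _ (m : ℝ)]
        gcongr
      linarith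
    · by_cases hv0 : C2 m v v0
      · have hz : ‖io A v‖ ≤ R := by
          refine (abs_le_of_sq_le_sq' ?_ (by linarith)).2
          rw [Par.norm_io_sq hA, hRN]
          exact ((mem_An0 hA).1 hv).2
        have := hG R τ m k (io A v) n ht0 hb.1 (key B R (by omega) yR) (key B _ (by omega) yk)
          (by rwa [pow_mul, hRN]) hm' hb.2 hz (by rw [hτ, ← mul_pow]; exact (not_le.1 hv').le) n1 n2
        refine le_of_eq_of_le (congrArg norm (sum_congr rfl fun t _ => ?_)) this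
        rw [hg]
        dsimp only
        rw [if_pos ((ES1_sh m t v v0).2 hv0), ek, uu_eq hA, Par.io_add, hio]
      · rw [sum_eq_zero fun t _ => by
          rw [hg]
          exact if_neg fun h => hv0 ((ES1_sh m t v v0).1 h), norm_zero]
        positivity
  · have h1 : ‖∑ v ∈ An (Q0 A) 0 N, g v‖ ≤ (An (Q0 A) 0 N).card := by
      refine (norm_sum_le _ _).trans ((sum_le_card_nsmul _ _ 1 fun v _ => hg1 v).trans_eq ?_)
      rw [nsmul_eq_mul, mul_one]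
    have h2 : 1 ≤ (1 / τ0 + 1) * (m * w) := by
      have q1 : 0 ≤ 1 / τ0 * (m * w) := by positivity
      have q2 : 0 ≤ (m : ℝ) * w := by positivity
      rcases not_and_or.1 hb with h | h
      · have : 1 ≤ 1 / τ0 * (m * w) := by
          rw [one_div, ← div_eq_inv_mul, one_le_div hτ0]
          nlinarith [not_le.1 h]
        linarith
      · nlinarith [not_le.1 h, mul_le_mul_of_nonneg_left htw (show (0 : ℝ) ≤ m by linarith)]
    have h3 : 3 * Ca * N ≤ 3 * Ca * (1 / τ0 + 1) * m * (w * N) :=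
      calc 3 * Ca * N = 3 * Ca * N * 1 := (mul_one _).symm
        _ ≤ 3 * Ca * N * ((1 / τ0 + 1) * (m * w)) := by gcongr
        _ = _ := by ring
    linarith

end Pool.Agent.P.MP_8be758_nt.Pd
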