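import Pool.Agent.P.MP_8be758_nt.Pd.IfM

/-! Step FAR. -/

namespace Pool.Agent.P.MP_8be758_nt.Pd

open Finset Real Filter
open Pool.Agent.P.MP_8be758_nt.Par (nq mul cj det io et)
open Pool.Agent.P.MP_8be758_nt.Avg (rho)
open Pool.Agent.P.MP_8be758_nt.Pd.Mr

theorem FAR_fib (W : Finset V2) (φ : V2 → ℕ) (k L : ℕ) (hL : 1 ≤ L) (h1 : ∀ w ∈ W, L < φ w)
    (h2 : ∀ m, (W.filter fun w => φ w = m).card ≤ k) :
    ∑ w ∈ W, (((φ w : ℕ) : ℝ) ^ 2)⁻¹ ≤ k / L := by
  have hm : ∀ w ∈ W, φ w ∈ Ioc L (max L (W.sup φ)) := fun w hw =>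
    mem_Ioc.2 ⟨h1 w hw, le_max_of_le_right (le_sup hw)⟩
  rw [← sum_fiberwise_of_maps_to hm]
  have h3 := sum_Ioc_inv_sq_le_sub (α := ℝ) (k := L) (n := max L (W.sup φ)) (by omega)
    (le_max_left _ _)
  have h4 : (0 : ℝ) ≤ ((max L (W.sup φ) : ℕ) : ℝ)⁻¹ := by positivity
  calc _ ≤ ∑ m ∈ Ioc L (max L (W.sup φ)), (k : ℝ) * ((m : ℝ) ^ 2)⁻¹ := by
        refine sum_le_sum fun m _ => ?_
        rw [sum_congr rfl fun w hw => by rw [(mem_filter.1 hw).2], sum_const, nsmul_eq_mul]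
        exact mul_le_mul_of_nonneg_right (by exact_mod_cast h2 m) (by positivity)
    _ ≤ k / L := by
        rw [← mul_sum, div_eq_mul_inv]
        exact mul_le_mul_of_nonneg_left (by linarith) (by positivity)

theorem FAR_five {A : ℕ} {X : ℝ} (hA : 2 ≤ A) (hX : 0 < X) {v : V2} (hv : v ∈ VX A X) (d : ℤ) :
    ((VX A X).filter fun w => det v w = d).card ≤ 5 := by
  rcases ((VX A X).filter fun w => det v w = d).eq_empty_or_nonempty with e | ⟨w0, h0⟩
  · simp [e]
  obtain ⟨a1, a2⟩ := mem_filter.1 h0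
  obtain ⟨v1, v2, -⟩ := (mem_VX hA).1 hv
  have key : ((VX A X).filter fun w => det v w = d) ⊆
      (Icc (-2 : ℤ) 2).image fun t => w0 + t • v := fun w hw => by
    obtain ⟨b1, b2⟩ := mem_filter.1 hw
    obtain ⟨t, ht⟩ := eq_smul_of_det (v := w - w0) v1 (by
      simp only [det, Prod.fst_sub, Prod.snd_sub] at a2 b2 ⊢
      linear_combination a2 - b2)
    refine mem_image.2 ⟨t, ?_, by rw [← ht]; abel⟩
    have c1 : nq A (w - w0) + nq A (w + w0) = 2 * nq A w + 2 * nq A w0 := by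
      simp only [nq, Prod.fst_sub, Prod.snd_sub, Prod.fst_add, Prod.snd_add]
      ring
    have c2 := nq_nonneg hA (w + w0)
    rw [ht, Par.nq_smul] at c1
    have c3 : (t : ℝ) ^ 2 * nq A v ≤ 2 * nq A w + 2 * nq A w0 := by
      exact_mod_cast (by linarith : t ^ 2 * nq A v ≤ 2 * nq A w + 2 * nq A w0)
    have c4 := ((mem_VX hA).1 b1).2.2
    have c5 := ((mem_VX hA).1 a1).2.2
    have c6 : (t : ℝ) ^ 2 * X ≤ 8 * X :=
      (mul_le_mul_of_nonneg_left v2.le (sq_nonneg _)).trans (by linarith)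
    have c7 : t ^ 2 ≤ 8 := by exact_mod_cast le_of_mul_le_mul_right c6 hX
    exact mem_Icc.2 ⟨by nlinarith, by nlinarith⟩
  exact (card_le_card key).trans (card_image_le.trans (by simp))

theorem FAR_one (hFEJ : S_FEJ) {A n : ℕ} {X : ℝ} (hA : 2 ≤ A) (hn : 1 ≤ n) (hX : 0 < X) {v w : V2}
    (hv : v ∈ VX A X) (hw : w ∈ VX A X) (hd : det v w ≠ 0) :
    KF n (uu A v * (starRingEnd ℂ) (uu A w)) ≤
      16 * X ^ 2 / (7 * n) * ((((det v w).natAbs : ℕ) : ℝ) ^ 2)⁻¹ := by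
  obtain ⟨v1, v2, v3⟩ := (mem_VX hA).1 hv
  obtain ⟨w1, w2, w3⟩ := (mem_VX hA).1 hw
  have n1 := norm_uu hA (pr_ne v1)
  have n2 := norm_uu hA (pr_ne w1)
  have a1 := ((hFEJ n hn).1 (uu A v * (starRingEnd ℂ) (uu A w))
    (by rw [norm_mul, Complex.norm_conj, n1, n2, mul_one])).2.1
  rw [norm_mul_conj_sub n2] at a1
  have a2 := norm_uu_sub_sq hA (pr_ne v1) (pr_ne w1)
  have a3 := KF_nonneg n (uu A v * (starRingEnd ℂ) (uu A w))
  have e : (((det v w).natAbs : ℕ) : ℝ) ^ 2 = (det v w : ℝ) ^ 2 := by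
    rw [Nat.cast_natAbs, Int.cast_abs, sq_abs]
  have d0 : (0 : ℝ) < (det v w : ℝ) ^ 2 := by positivity
  have n0 : (0 : ℝ) < n := by exact_mod_cast hn
  have A2 : (2 : ℝ) ≤ A := by exact_mod_cast hA
  rw [e, ← div_eq_mul_inv, div_div, le_div_iff₀ (by positivity)]
  generalize KF n (uu A v * (starRingEnd ℂ) (uu A w)) = K at *
  generalize ‖uu A v - uu A w‖ ^ 2 = z at *
  have b1 : (nq A v : ℝ) * nq A w ≤ 4 * X ^ 2 := by
    have := mul_le_mul v3 w3 (by linarith) (by linarith)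
    linarith
  have b0 : (0 : ℝ) ≤ (nq A v : ℝ) * nq A w := mul_nonneg (by linarith) (by linarith)
  have b2 : 7 * (det v w : ℝ) ^ 2 ≤ z * ((nq A v : ℝ) * nq A w) := by
    rw [a2]
    exact mul_le_mul_of_nonneg_right (by linarith) d0.le
  calc K * (7 * n * (det v w : ℝ) ^ 2) = K * n * (7 * (det v w : ℝ) ^ 2) := by ring
    _ ≤ K * n * (z * ((nq A v : ℝ) * nq A w)) := mul_le_mul_of_nonneg_left b2 (by positivity)
    _ = K * (n * z) * ((nq A v : ℝ) * nq A w) := by ring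
    _ ≤ 4 * (4 * X ^ 2) := mul_le_mul a1 b1 b0 (by norm_num)
    _ = 16 * X ^ 2 := by ring

theorem p_FAR (hFEJ : S_FEJ) :
    S_FAR := by
  intro A n L X hA hn hL hX
  have n0 : (0 : ℝ) < n := by exact_mod_cast hn
  have L0 : (0 : ℝ) < L := by exact_mod_cast hL
  have key : ∀ v ∈ VX A X, ∑ w ∈ (VX A X).filter (fun w => (L : ℤ) < |det v w|),
      KF n (uu A v * (starRingEnd ℂ) (uu A w)) ≤ 96 * X ^ 2 / (n * L) := fun v hv => by
    have a1 := FAR_fib ((VX A X).filter fun w => (L : ℤ) < |det v w|) (fun w => (det v w).natAbs)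
      10 L hL (fun w hw => by
        have := (mem_filter.1 hw).2
        rw [← Int.natCast_natAbs] at this
        exact_mod_cast this) fun m => by
        have b1 := FAR_five hA hX hv m
        have b2 := FAR_five hA hX hv (-m)
        refine le_trans (card_le_card fun w hw => ?_) ((card_union_le _ _).trans (add_le_add b1 b2))
        obtain ⟨c1, c2⟩ := mem_filter.1 hw
        have c3 := (mem_filter.1 c1).1
        rcases Int.natAbs_eq_iff.1 c2 with e | e
        · exact mem_union_left _ (mem_filter.2 ⟨c3, e⟩)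
        · exact mem_union_right _ (mem_filter.2 ⟨c3, e⟩)
    calc _ ≤ ∑ w ∈ (VX A X).filter (fun w => (L : ℤ) < |det v w|),
          16 * X ^ 2 / (7 * n) * ((((det v w).natAbs : ℕ) : ℝ) ^ 2)⁻¹ := by
          refine sum_le_sum fun w hw => FAR_one hFEJ hA hn hX hv (mem_filter.1 hw).1 fun e => ?_
          have := (mem_filter.1 hw).2
          rw [e, abs_zero] at this
          omega
      _ ≤ 16 * X ^ 2 / (7 * n) * ((10 : ℕ) / L) := by
          rw [← mul_sum]
          exact mul_le_mul_of_nonneg_left a1 (by positivity)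
      _ = 160 / 7 * (X ^ 2 / (n * L)) := by
          push_cast
          field_simp
          ring
      _ ≤ 96 * (X ^ 2 / (n * L)) := mul_le_mul_of_nonneg_right (by norm_num) (by positivity)
      _ = _ := by ring
  refine (sum_le_sum key).trans (le_of_eq ?_)
  rw [sum_const, nsmul_eq_mul]
  ring

end Pool.Agent.P.MP_8be758_nt.Pd
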