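import Pool.Agent.P.MP_8be758_nt.Pd.IfT

/-! Step FIB. -/

namespace Pool.Agent.P.MP_8be758_nt.Pd

open Finset Real Filter
open Pool.Agent.P.MP_8be758_nt.Par (det)
open Pool.Agent.P.MP_8be758_nt.Avg (rho)
open Pool.Agent.P.MP_e86632_nt (ee)

theorem FIB_key {φ : Fm} {h : G4} (d : det h.1 h.2 = 1) (e : act φ h = φ) :
    φ.1 * (h.1.1 - h.2.2) = -φ.2.1 * h.1.2 ∧ φ.1 * h.2.1 = -φ.2.2 * h.1.2 ∧
      φ.1 ^ 2 * ((h.1.1 + h.2.2) ^ 2 - 4) = (φ.2.1 ^ 2 - 4 * φ.1 * φ.2.2) * h.1.2 ^ 2 := by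
  obtain ⟨P, b, R⟩ := φ
  obtain ⟨⟨al, be⟩, ga, de⟩ := h
  simp only [act, ev, bl, det, Prod.mk.injEq] at d e ⊢
  obtain ⟨e1, e2, e3⟩ := e
  have a1 : 2 * (P * (al - de)) = 2 * (-b * be) := by
    linear_combination 2 * de * e1 - be * e2 - (2 * P * al + b * be) * d
  have a2 : 2 * (P * ga) = 2 * (-R * be) := by
    linear_combination de * e2 - 2 * be * e3 - (2 * P * ga + b * de) * d
  have b1 := mul_left_cancel₀ two_ne_zero a1
  have b2 := mul_left_cancel₀ two_ne_zero a2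
  exact ⟨b1, b2, by
    linear_combination (P * (al - de) - b * be) * b1 + 4 * P * be * b2 + 4 * P ^ 2 * d⟩

theorem p_FIB :
    S_FIB := by
  intro A ψ φ G hA hψ h
  rcases G.eq_empty_or_nonempty with rfl | ⟨g0, h0⟩
  · simp
  obtain ⟨d0, e0⟩ := h g0 h0
  have hφ : IsF A φ := e0 ▸ hψ.act hA d0
  have A1 : (1 : ℤ) ≤ A := by exact_mod_cast hA
  obtain ⟨c, c1, c2⟩ : ∃ c : G4 → G4, (∀ g, rm g0 (c g) = g) ∧
      ∀ g, det (c g).1 (c g).2 = det g.1 g.2 := by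
    refine ⟨fun g => ((det g.1 g0.2, det g0.1 g.1), (det g.2 g0.2, det g0.1 g.2)), fun g => ?_,
      fun g => ?_⟩ <;> simp only [rm, ap, det] at d0 ⊢
    · exact Prod.ext (Prod.ext (by linear_combination g.1.1 * d0) (by linear_combination g.1.2 * d0))
        (Prod.ext (by linear_combination g.2.1 * d0) (by linear_combination g.2.2 * d0))
    · linear_combination (g.1.1 * g.2.2 - g.1.2 * g.2.1) * d0
  have k := fun g hg => FIB_key (φ := φ) (h := c g) ((c2 g).trans (h g hg).1)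
    (by rw [← e0, ← act_rm, c1, e0, (h g hg).2])
  have P0 := hφ.2
  refine (card_le_card_of_injOn (t := Icc (-2 : ℤ) 2 ×ˢ univ)
    (fun g => ((c g).1.1 + (c g).2.2, decide (0 ≤ (c g).1.2))) (fun g hg => ?_)
    fun g hg g' hg' e => ?_).trans (by simp)
  · have h1 := (k g hg).2.2
    rw [hφ.1] at h1
    have h2 : ((c g).1.1 + (c g).2.2) ^ 2 - 4 ≤ 0 := nonpos_of_mul_nonpos_right
      (h1.trans_le (mul_nonpos_of_nonpos_of_nonneg (by linarith) (sq_nonneg _))) (by positivity)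
    simp only [coe_product, Set.mem_prod, mem_coe, mem_Icc, mem_univ, and_true]
    exact abs_le.1 (abs_le_of_sq_le_sq (by linarith) zero_le_two)
  · simp only [Prod.mk.injEq, decide_eq_decide] at e
    obtain ⟨a1, a2, a3⟩ := k g hg
    obtain ⟨b1, b2, b3⟩ := k g' hg'
    rw [e.1, b3, hφ.1] at a3
    have c3 : (c g).1.2 = (c g').1.2 := by
      have := sq_eq_sq_iff_eq_or_eq_neg.1 (mul_left_cancel₀ (by linarith) a3)
      omega
    rw [c3, ← b1] at a1
    rw [c3, ← b2] at a2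
    have c4 := mul_left_cancel₀ P0.ne' a1
    rw [← c1 g, ← c1 g', show c g = c g' from Prod.ext (Prod.ext (by omega) c3)
      (Prod.ext (mul_left_cancel₀ P0.ne' a2) (by omega))]

end Pool.Agent.P.MP_8be758_nt.Pd
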