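import Pool.Agent.P.MP_8be758_nt.Pd.IfG

/-! Step FM. -/

namespace Pool.Agent.P.MP_8be758_nt.Pd

open Finset Real Filter
open Pool.Agent.P.MP_8be758_nt.Par (det)
open Pool.Agent.P.MP_8be758_nt.Avg (rho)

theorem FM_rho_le (A p : ℕ) : (rho A p : ℝ) / p ≤ 1 := by
  have : rho A p ≤ p := (card_filter_le _ _).trans (card_range p).le
  exact div_le_one_of_le₀ (by exact_mod_cast this) (Nat.cast_nonneg _)

theorem FM_al (D1 D2 p : ℕ) (φ : Fm) : 0 ≤ Pr.al D1 D2 p φ ∧ Pr.al D1 D2 p φ ≤ 1 := by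
  unfold Pr.al
  split_ifs <;> exact ⟨ind_nonneg _, ind_le_one _⟩

theorem FM_per (ψ : Fm) (p : ℕ) (u : V2) {g h : G4} (e : C4 (p ^ 2) g h) :
    (p : ℤ) ∣ ev (act ψ g) u ↔ (p : ℤ) ∣ ev (act ψ h) u :=
  dvd_iff_of_modEq (ev_act_modEq ψ e u) (by push_cast; exact dvd_pow_self _ two_ne_zero)

theorem FM_per2 (ψ : Fm) (p : ℕ) (u u' : V2) {g h : G4} (e : C4 (p ^ 2) g h) :
    (p : ℤ) ∣ ev (act ψ g) u * ev (act ψ g) u' ↔ (p : ℤ) ∣ ev (act ψ h) u * ev (act ψ h) u' :=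
  dvd_iff_of_modEq ((ev_act_modEq ψ e u).mul (ev_act_modEq ψ e u'))
    (by push_cast; exact dvd_pow_self _ two_ne_zero)

theorem FM_hh (ρ : Pr) (θ : ℝ) {k : ℤ} (hy : 0 ≤ ρ.y) (hk : 0 < k) (hs : Squarefree k.natAbs)
    (hw : ∀ p : ℕ, p.Prime → (p : ℤ) ∣ k → ρ.w < p) :
    ρ.hh θ k = (∏ p ∈ ρ.Ps, if (p : ℤ) ∣ k then θ * (rho ρ.A p : ℝ) / p else 1) *
      ∏ p ∈ ρ.lp k, (rho ρ.A p : ℝ) / p := by
  have e1 : ρ.pf k = k.natAbs.primeFactors.filter fun p : ℕ => ¬ρ.y < (p : ℝ) := by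
    ext p
    rw [mem_pf, Pr.Ps, mem_PP hy, mem_filter, Nat.mem_primeFactors, not_lt, Int.natCast_dvd]
    constructor
    · rintro ⟨⟨h1, -, h3⟩, h4⟩
      exact ⟨⟨h1, h4, hs.ne_zero⟩, h3⟩
    · rintro ⟨⟨h1, h2, -⟩, h3⟩
      exact ⟨⟨h1, by exact_mod_cast hw p h1 (Int.natCast_dvd.2 h2), h3⟩, h2⟩
  have e2 : (k : ℝ) = ∏ p ∈ k.natAbs.primeFactors, (p : ℝ) := by
    rw [← Nat.cast_prod, Nat.prod_primeFactors_of_squarefree hs, ← Int.cast_natCast,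
      Int.natAbs_of_nonneg hk.le]
  rw [← prod_filter, Pr.hh, rr, mul_div_assoc, Nat.cast_prod, e2, ← prod_div_distrib,
    ← prod_filter_not_mul_prod_filter _ (fun p : ℕ => ρ.y < (p : ℝ)), ← e1, ← mul_assoc, Pr.om,
    ← prod_const, ← prod_mul_distrib]
  simp only [mul_div_assoc]
  rfl

theorem FM_sum (ρ : Pr) (m m' : ℤ) :
    ∑ p ∈ ρ.Ps, (if (p : ℤ) ∣ m * m' then 12 / (p : ℝ) else 200 / (p : ℝ) ^ 2) ≤
      12 * (ρ.si m + ρ.si m') + 200 * ∑ p ∈ ρ.Ps, (1 : ℝ) / p ^ 2 := by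
  simp only [Pr.si, Pr.pf, sum_filter, mul_sum, ← sum_add_distrib]
  refine sum_le_sum fun p hp => ?_
  have hP := Nat.prime_iff_prime_int.1 (prime_of_PP hp)
  have h0 : (0 : ℝ) ≤ 1 / p := by positivity
  have h1 : (0 : ℝ) ≤ 1 / p ^ 2 := by positivity
  rw [div_eq_mul_one_div 12, div_eq_mul_one_div 200]
  by_cases h : (p : ℤ) ∣ m * m'
  · rw [if_pos h]
    rcases hP.dvd_or_dvd h with h | h
    · rw [if_pos h]; split_ifs <;> linarith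
    · rw [if_pos h]; split_ifs <;> linarith
  · rw [if_neg h]
    split_ifs <;> linarith

theorem FM_and {S T : ℝ → Pr → Prop} (hS : Unif S) (hT : Unif T) :
    Unif fun _ ρ => (∃ C, S C ρ) ∧ ∃ C, T C ρ := by
  obtain ⟨c1, h1⟩ := hS
  obtain ⟨c2, h2⟩ := hT
  refine ⟨c1 + c2, fun A C1 => ⟨1, le_rfl, fun z zA zC zB => ?_⟩⟩
  obtain ⟨_, -, h1⟩ := h1 A C1
  obtain ⟨_, -, h2⟩ := h2 A C1
  exact ((h1 z zA zC (zB.mono (by omega))).and (h2 z zA zC (zB.mono (by omega)))).mono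
    fun y h => ⟨⟨_, h.1⟩, _, h.2⟩

theorem FM_imp {S T : ℝ → Pr → Prop} (hS : Unif S) (C0 : ℝ) (h0 : 1 ≤ C0)
    (h : ∀ ρ : Pr, ρ.toSt.Big 1 → C0 + 1 ≤ ρ.y → (ρ.w : ℝ) ≤ ρ.y → (∃ C, S C ρ) → T C0 ρ) :
    Unif T := by
  obtain ⟨c1, h1⟩ := hS
  refine ⟨c1 + 1, fun A C1 => ⟨C0, h0, fun z zA zC zB => ?_⟩⟩
  obtain ⟨_, -, h1⟩ := h1 A C1
  exact ((h1 z zA zC (zB.mono (by omega))).and ((eventually_ge_atTop (C0 + 1)).and
    (eventually_ge_atTop (z.w : ℝ)))).mono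
    fun y g => h ⟨z, y⟩ (zB.mono (by omega)) g.2.1 g.2.2 ⟨_, g.1⟩

theorem p_FM (hMCA : S_MCA) (hATC : S_ATC) (hLOCID : S_LOCID) (hFMP : S_FMP) (hSVP : S_SVP) (hSDS : S_SDS) (hL1 : S_L1) (hLAM : S_LAM) :
    S_FM := by
  have hE := one_le_exp (show (0 : ℝ) ≤ 248 by norm_num)
  refine FM_imp (FM_and hMCA (FM_and hATC (FM_and hLOCID (FM_and hFMP (FM_and hSVP
    (FM_and hSDS hLAM)))))) (40 * exp 248) (by linarith) ?_
  rintro ρ ⟨-, b2, -, b4, b5, -, b7, b8, b9, b10, b11, b12, -⟩ hy hyw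
    ⟨_, ⟨_, h1⟩, _, ⟨_, h2⟩, _, ⟨_, h3⟩, _, ⟨_, h4⟩, _, ⟨_, h5⟩, _, ⟨_, h6⟩, _, h7⟩
  intro q D1 D2 c0 θ p0 hAD t0 t1 hp0 σ hσ
  have y1 : 1 ≤ ρ.y := by linarith
  have y0 : 0 ≤ ρ.y := by linarith
  obtain ⟨hQ, hD, -⟩ := id hAD
  obtain ⟨d1, d2⟩ := DA_pos hD
  obtain ⟨hq, hS⟩ := (mem_SD d1 d2).1 hσ
  obtain ⟨-, k0, -, -, n1, n3, n4, kU, -⟩ := (h6 q D1 D2 hQ hD).2.2.2.1 σ hσ
  obtain ⟨s1, -, -, -, -, -, -, s8, s9, -, -, -, s13⟩ := hS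
  have ehh := FM_hh ρ θ y0 k0 s8 fun p hp hd => (s9 p hp hd).1
  have hs0 : ∀ p : ℕ, 0 ≤ (if (p : ℤ) ∣ σ.af then θ * (rho ρ.A p : ℝ) / p else 1) := fun p => by
    split_ifs <;> positivity
  have hh0 : 0 ≤ ρ.hh θ σ.af := by
    rw [ehh]
    exact mul_nonneg (prod_nonneg fun p _ => hs0 p) (prod_nonneg fun p _ => by positivity)
  have hh1 : ρ.hh θ σ.af ≤ 1 := by
    rw [ehh]
    refine mul_le_one₀ (prod_le_one (fun p _ => hs0 p) fun p _ => ?_)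
      (prod_nonneg fun p _ => by positivity)
      (prod_le_one (fun p _ => by positivity) fun p _ => FM_rho_le _ _)
    split_ifs
    · rw [mul_div_assoc]
      exact mul_le_one₀ t1 (by positivity) (FM_rho_le _ _)
    · exact le_rfl
  have p1 : (1 : ℝ) ≤ p0 := by
    rcases hp0 with h | h
    · simp [h]
    · exact_mod_cast (prime_of_PP h).one_le
  have py : (p0 : ℝ) ≤ ρ.y := by
    rcases hp0 with h | h
    · simpa [h] using y1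
    · exact ((mem_PP y0).1 h).2.2
  have X0 : 0 ≤ ρ.X := pow_nonneg y0 _
  have er0 : ∀ j, 0 ≤ ρ.Er j := fun j => div_nonneg X0 (pow_nonneg y0 _)
  have er : (40 * exp 248 + 1) * ρ.Er 30 ≤ ρ.Er 28 := by
    have e : ρ.Er 28 = ρ.y ^ (2 * ρ.K') * ρ.Er 30 := by
      have : ρ.y ≠ 0 := by linarith
      simp only [Pr.Er]
      rw [show 30 * ρ.K' = 2 * ρ.K' + 28 * ρ.K' by ring, pow_add]
      field_simp
    rw [e]
    exact mul_le_mul_of_nonneg_right (hy.trans (le_self_pow₀ y1 (by omega))) (er0 30)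
  have cv0 : ∀ g, ¬ρ.Val (ρ.cy (g, σ)) → ρ.cv θ σ g = 0 := fun g h => by
    rw [Pr.cv, ind_neg h, mul_zero]
  by_cases hbad : p0 ∈ ρ.Ps ∧ (p0 : ℤ) ∣ (D1 * D2 : ℕ) * σ.af
  · rw [sum_eq_zero fun g hg => ?_]
    · have := er0 28
      positivity
    by_cases hv : ρ.Val (ρ.cy (g, σ))
    · rw [ind_neg fun h => ((h3 q D1 D2 c0 θ hAD g hg σ hσ).2 p0 hbad.1 hv h).1 hbad.2, mul_zero]
    · rw [cv0 g hv, zero_mul]
  obtain ⟨G, eG⟩ : ∃ G : ℕ → G4 → ℝ, G = fun (p : ℕ) g => ind ((p : ℤ) ∣ ev (ρ.fm g) σ.ut) := ⟨_, rfl⟩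
  obtain ⟨F, eF⟩ : ∃ F : ℕ → G4 → ℝ, F = fun (p : ℕ) g =>
    if p = p0 then ind ((p : ℤ) ∣ ev (ρ.fm g) σ.ut * ev (ρ.fm g) σ.us)
    else Pr.fv θ (D1 * D2) σ p (ρ.fm g) := ⟨_, rfl⟩
  have hV := h5 q D1 D2 θ θ hQ hD t0 t1 t0 t1 σ hσ σ hσ
  have G01 : ∀ p g, 0 ≤ G p g ∧ G p g ≤ 1 := fun p g => by
    rw [eG]; exact ⟨ind_nonneg _, ind_le_one _⟩
  have F01 : ∀ p ∈ ρ.Ps, ∀ g, 0 ≤ F p g ∧ F p g ≤ 1 := fun p hp g => by
    rw [eF]
    dsimp only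
    split_ifs
    · exact ⟨ind_nonneg _, ind_le_one _⟩
    · exact (hV p hp).2.1 _
  have st1 : ∀ g ∈ ρ.AT q D1 D2 c0,
      ρ.cv θ σ g * ind ((p0 : ℤ) ∣ (ρ.cy (g, σ)).Nt * (ρ.cy (g, σ)).Ns) ≤
        (1 / 3) ^ ρ.om (D1 * D2 : ℕ) * ((∏ p ∈ ρ.lp σ.af, G p g) * ∏ p ∈ ρ.Ps, F p g) := by
    intro g hg
    have a0 : 0 ≤ ∏ p ∈ ρ.lp σ.af, G p g := prod_nonneg fun p _ => (G01 p g).1
    have a1 : 0 ≤ ∏ p ∈ ρ.Ps, F p g := prod_nonneg fun p hp => (F01 p hp g).1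
    by_cases hv : ρ.Val (ρ.cy (g, σ)) ∧ (p0 : ℤ) ∣ (ρ.cy (g, σ)).Nt * (ρ.cy (g, σ)).Ns
    · obtain ⟨l1, l2⟩ := h3 q D1 D2 c0 θ hAD g hg σ hσ
      rw [ind_pos hv.2, mul_one, l1, mul_assoc]
      refine mul_le_mul_of_nonneg_left ?_ (by positivity)
      have a2 : ∏ p ∈ ρ.Ps, Pr.fv θ (D1 * D2) σ p (ρ.fm g) ≤ ∏ p ∈ ρ.Ps, F p g := by
        refine prod_le_prod (fun p hp => ((hV p hp).2.1 _).1) fun p hp => ?_
        rw [eF]
        dsimp only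
        split_ifs with e
        · subst e
          rw [ind_pos (l2 p hp hv.1 hv.2).2]
          exact ((hV p hp).2.1 _).2
        · exact le_rfl
      have a3 : 0 ≤ ∏ p ∈ ρ.Ps, Pr.fv θ (D1 * D2) σ p (ρ.fm g) :=
        prod_nonneg fun p hp => ((hV p hp).2.1 _).1
      have a4 : ∏ p ∈ ρ.lp σ.af, ind ((p : ℤ) ∣ ev (ρ.fm g) σ.ut) = ∏ p ∈ ρ.lp σ.af, G p g := by
        rw [eG]
      rw [a4]
      exact (mul_le_of_le_one_left (mul_nonneg a0 a3) (ind_le_one _)).trans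
        (mul_le_mul_of_nonneg_left a2 a0)
    · refine le_of_eq_of_le ?_ (mul_nonneg (pow_nonneg (by norm_num) _) (mul_nonneg a0 a1))
      rcases not_and_or.1 hv with h | h
      · rw [cv0 g h, zero_mul]
      · rw [ind_neg h, mul_zero]
  have mlp : ∀ p ∈ ρ.lp σ.af, p.Prime ∧ (p : ℤ) ∣ σ.af ∧ ρ.y < p := fun p hp => by
    obtain ⟨a, b⟩ := mem_filter.1 hp
    exact ⟨Nat.prime_of_mem_primeFactors a, Int.natCast_dvd.2 (Nat.dvd_of_mem_primeFactors a), b⟩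
  obtain ⟨n, en⟩ : ∃ n, n = D1 * D2 * σ.af.natAbs * p0 := ⟨_, rfl⟩
  have n0 : n ≠ 0 := by
    have : p0 ≠ 0 := by rintro rfl; norm_num at p1
    have := s8.ne_zero
    rw [en]
    positivity
  have st2 := h1 q D1 D2 c0 (ρ.Ps.filter (· ∣ n)) (ρ.lp σ.af) F G hAD (filter_subset _ _)
    (fun p hp => by
      obtain ⟨a, b, c⟩ := mlp p hp
      subst hq
      refine ⟨a, c, fun e => n1 (by rwa [e] at b), fun e => n3 (by rwa [e] at b),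
        fun e => n4 (by rwa [e] at b), ?_, G01 p⟩
      intro g g' e
      rw [eG]
      exact congrArg ind (propext (FM_per _ p _ e)))
    (by
      rw [← prod_union, ← Nat.cast_prod]
      · have a1 : ∏ p ∈ ρ.Ps.filter (· ∣ n) ∪ ρ.lp σ.af, p ≤ n := by
          refine Nat.le_of_dvd (Nat.pos_of_ne_zero n0)
            ((prod_dvd_prod_of_subset _ _ _ fun p hp => ?_).trans (Nat.prod_primeFactors_dvd n))
          rcases mem_union.1 hp with h | h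
          · exact Nat.mem_primeFactors.2 ⟨prime_of_PP (mem_filter.1 h).1, (mem_filter.1 h).2, n0⟩
          · refine Nat.mem_primeFactors.2 ⟨(mlp p h).1, ?_, n0⟩
            rw [en]
            exact ((Int.natCast_dvd.1 (mlp p h).2.1).mul_left _).mul_right _
        have a2 : ((σ.af.natAbs : ℕ) : ℝ) ≤ ρ.y ^ ρ.U := by
          rw [← Int.cast_natCast, Int.natAbs_of_nonneg k0.le]; exact kU
        calc _ ≤ (n : ℝ) := by exact_mod_cast a1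
          _ ≤ ρ.y ^ ρ.K * ρ.y ^ ρ.K * ρ.y ^ ρ.U * ρ.y ^ 1 := by
            rw [en, pow_one]
            push_cast
            gcongr
            exacts [hD.2.2.1, hD.2.2.2.1]
          _ ≤ _ := by
            rw [← pow_add, ← pow_add, ← pow_add]
            refine pow_le_pow_right₀ y1 ?_
            simp only [St.U]
            omega
      · exact disjoint_left.2 fun p a b =>
          absurd ((mem_PP y0).1 (mem_filter.1 a).1).2.2 (not_le.2 (mlp p b).2.2))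
    (fun p hp => by
      refine ⟨?_, F01 p hp, fun hn => ?_⟩
      · intro g g' e
        rw [eF]
        dsimp only
        split_ifs
        · exact congrArg ind (propext (FM_per2 _ p _ _ e))
        · exact (hV p hp).1 g g' e
      · have hn' : ¬p ∣ n := fun h => hn (mem_filter.2 ⟨hp, h⟩)
        have a1 : p ≠ p0 := fun e => hn' (by rw [en, e]; exact dvd_mul_left _ _)
        rw [eF]
        simp only [if_neg a1]
        refine (hV p hp).2.2.1 fun h => hn' ?_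
        rw [en]
        refine Dvd.dvd.mul_right ?_ _
        simpa [Int.natAbs_mul] using Int.natCast_dvd.1 h)
  have st3 : ∏ p ∈ ρ.lp σ.af, S4.av (p ^ 2) (G p) ≤ ∏ p ∈ ρ.lp σ.af, (rho ρ.A p : ℝ) / p := by
    refine prod_le_prod (fun p _ => S4.av_nonneg _ fun g => (G01 p g).1) fun p hp => ?_
    obtain ⟨a, b, c⟩ := mlp p hp
    have a1 : 4 * ρ.A < p := by
      have : (ρ.w : ℝ) < p := hyw.trans_lt c
      have : ρ.w < p := by exact_mod_cast this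
      omega
    have a2 : ¬((p : ℤ) ∣ σ.ut.1 ∧ (p : ℤ) ∣ σ.ut.2) := by
      rintro ⟨-, h⟩
      have h' : p ∣ σ.e1 * σ.a1 * σ.q3 := by
        have := Int.natCast_dvd_natCast.1 h
        rwa [Sd.E1, mul_right_comm] at this
      rcases (Nat.Prime.dvd_mul a).1 h' with h | h
      · have : p ∈ ρ.Ps := hD.2.1 (Nat.mem_primeFactors.2 ⟨a, (h.trans s1).mul_right _, by positivity⟩)
        exact absurd ((mem_PP y0).1 this).2.2 (not_le.2 c)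
      · have hp3 : σ.q3.Prime := by
          subst hq
          exact prime_of_PP hQ.2.1
        exact n3 ((Nat.prime_dvd_prime_iff_eq a hp3).1 h ▸ b)
    have := (hL1 ρ.A p (Q0 ρ.A) σ.ut (by omega) (isF_Q0 _) a a1 a2).2.2
    rw [eG]
    refine (le_of_eq this).trans ?_
    have : (0 : ℝ) < p := by exact_mod_cast a.pos
    gcongr
    linarith
  have aa0 : ∀ p, 0 ≤ ρ.aa D1 D2 p := fun p => S4.av_nonneg _ fun g => (FM_al _ _ _ _).1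
  have e0 : ∀ p : ℕ, (0 : ℝ) ≤ if (p : ℤ) ∣ (D1 * D2 : ℕ) * (σ.s * σ.t * σ.af) then 12 / (p : ℝ)
      else 200 / (p : ℝ) ^ 2 := fun p => by split_ifs <;> positivity
  have st4 : ∏ p ∈ ρ.Ps, S4.av (p ^ 2) (fun g => Pr.al D1 D2 p (ρ.fm g) * F p g) ≤
      ∏ p ∈ ρ.Ps, (if p = p0 then 10 / (p : ℝ) else 1) * (ρ.aa D1 D2 p *
        (if (p : ℤ) ∣ σ.af then θ * (rho ρ.A p : ℝ) / p else 1) *
        exp (-(2 * (1 - θ)) * (rho ρ.A p : ℝ) / p +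
          if (p : ℤ) ∣ (D1 * D2 : ℕ) * (σ.s * σ.t * σ.af) then 12 / (p : ℝ)
          else 200 / (p : ℝ) ^ 2)) := by
    refine prod_le_prod (fun p hp => S4.av_nonneg _ fun g =>
      mul_nonneg (FM_al _ _ _ _).1 (F01 p hp g).1) fun p hp => ?_
    obtain ⟨f1, f2⟩ := h4 q D1 D2 θ hQ hD t0 t1 σ hσ p hp
    rw [eF]
    by_cases e : p = p0
    · subst e
      have a1 : ¬(p : ℤ) ∣ (D1 * D2 : ℕ) * σ.af := fun h => hbad ⟨hp, h⟩
      simp only [if_true]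
      rw [if_neg fun h => a1 (Dvd.dvd.mul_left h _), mul_one]
      refine (S4.av_mono _ fun g _ =>
        mul_le_of_le_one_left (ind_nonneg _) (FM_al _ _ _ _).2).trans ((f2 a1).trans ?_)
      have := aa0 p
      have := e0 p
      gcongr
      linarith
    · simp only [if_neg e, one_mul]
      exact f1
  rw [prod_mul_distrib, prod_mul_distrib, prod_mul_distrib, ← exp_sum, sum_add_distrib,
    prod_ite_eq'] at st4
  have eL : ∑ p ∈ ρ.Ps, -(2 * (1 - θ)) * (rho ρ.A p : ℝ) / p = -(2 * (1 - θ)) * ρ.La := by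
    simp only [Pr.La, mul_sum, mul_div_assoc]
  have eS := FM_sum ρ (D1 * D2 : ℕ) (σ.s * σ.t * σ.af)
  have w1 : (1 : ℝ) ≤ ρ.w := by exact_mod_cast b5
  have w2 : 1 / √(ρ.w : ℝ) ≤ 1 := div_le_one_of_le₀ (one_le_sqrt.2 w1) (sqrt_nonneg _)
  have w3 : 1 / (ρ.w : ℝ) ≤ 1 := div_le_one_of_le₀ w1 (by linarith)
  have w4 := hD.2.2.2.2.2.2
  have w5 := h7.2.2.2.2.2.1
  rw [div_eq_mul_one_div 3] at s13
  have st5 : ∏ p ∈ ρ.Ps, S4.av (p ^ 2) (fun g => Pr.al D1 D2 p (ρ.fm g) * F p g) ≤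
      10 / (p0 : ℝ) * ((∏ p ∈ ρ.Ps, ρ.aa D1 D2 p) *
        (∏ p ∈ ρ.Ps, if (p : ℤ) ∣ σ.af then θ * (rho ρ.A p : ℝ) / p else 1) *
        (exp (-(2 * (1 - θ)) * ρ.La) * exp 248)) := by
    refine st4.trans ?_
    have a1 : 0 ≤ ∏ p ∈ ρ.Ps, ρ.aa D1 D2 p := prod_nonneg fun p _ => aa0 p
    have a2 : 0 ≤ ∏ p ∈ ρ.Ps, (if (p : ℤ) ∣ σ.af then θ * (rho ρ.A p : ℝ) / p else 1) :=
      prod_nonneg fun p _ => hs0 p
    rw [eL, ← exp_add]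
    gcongr
    · split_ifs with h
      · exact le_rfl
      · rw [hp0.resolve_right h]; norm_num
    · linarith
  have Z0 : 0 ≤ ρ.Zb q c0 := by
    unfold Pr.Zb
    have := fun (m : ℕ) (P : G4 → Prop) => S4.av_nonneg m fun g => ind_nonneg (P g)
    exact mul_nonneg (mul_nonneg (Nat.cast_nonneg _) (this _ _))
      (mul_nonneg (mul_nonneg (this _ _) (this _ _)) (this _ _))
  obtain ⟨z0, z1⟩ := h2 q D1 D2 c0 hAD
  have two : (2 : ℝ) ≤ 2 ^ ρ.K' := le_self_pow₀ (by norm_num) (by omega)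
  have z2 : ρ.Zb q c0 * ∏ p ∈ ρ.Ps, ρ.aa D1 D2 p ≤ 2 * ((ρ.AT q D1 D2 c0).card + ρ.Er 30) := by
    have := div_le_div_of_nonneg_left z0 two_pos two
    linarith [(abs_le.1 z1).1]
  obtain ⟨M, eM⟩ : ∃ M, M = ρ.Zb q c0 * (∏ p ∈ ρ.lp σ.af, S4.av (p ^ 2) (G p)) *
      ∏ p ∈ ρ.Ps, S4.av (p ^ 2) fun g => Pr.al D1 D2 p (ρ.fm g) * F p g := ⟨_, rfl⟩
  obtain ⟨T, eT⟩ : ∃ T, T = exp (-(2 * (1 - θ)) * ρ.La) * ρ.hh θ σ.af / p0 := ⟨_, rfl⟩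
  have La0 : 0 ≤ ρ.La := sum_nonneg fun p _ => by positivity
  have T0 : 0 ≤ T := by rw [eT]; positivity
  have T1 : T ≤ 1 := by
    rw [eT]
    refine div_le_one_of_le₀ (le_trans (mul_le_one₀ (exp_le_one_iff.2 ?_) hh0 hh1) p1)
      (zero_le_one.trans p1)
    rw [neg_mul]
    exact neg_nonpos.2 (mul_nonneg (mul_nonneg zero_le_two (sub_nonneg.2 t1)) La0)
  have g0 : 0 ≤ ∏ p ∈ ρ.lp σ.af, S4.av (p ^ 2) (G p) :=
    prod_nonneg fun p _ => S4.av_nonneg _ fun g => (G01 p g).1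
  have f0 : 0 ≤ ∏ p ∈ ρ.Ps, S4.av (p ^ 2) (fun g => Pr.al D1 D2 p (ρ.fm g) * F p g) :=
    prod_nonneg fun p hp => S4.av_nonneg _ fun g => mul_nonneg (FM_al _ _ _ _).1 (F01 p hp g).1
  have M0 : 0 ≤ M := by rw [eM]; exact mul_nonneg (mul_nonneg Z0 g0) f0
  have M1 : M ≤ 20 * exp 248 * T * ((ρ.AT q D1 D2 c0).card + ρ.Er 30) := by
    have a1 := mul_le_mul (mul_le_mul_of_nonneg_left st3 Z0) st5 f0 (mul_nonneg Z0 (g0.trans st3))
    rw [← eM] at a1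
    calc M ≤ 10 * exp 248 * T * (ρ.Zb q c0 * ∏ p ∈ ρ.Ps, ρ.aa D1 D2 p) := by
          refine a1.trans_eq ?_
          rw [eT, ehh]; ring
      _ ≤ 10 * exp 248 * T * (2 * ((ρ.AT q D1 D2 c0).card + ρ.Er 30)) := by gcongr
      _ = _ := by ring
  rw [← eM] at st2
  have st6 : ∑ g ∈ ρ.AT q D1 D2 c0, (∏ p ∈ ρ.lp σ.af, G p g) * ∏ p ∈ ρ.Ps, F p g ≤
      2 * M + ρ.Er 30 := by
    have := div_le_self M0 (one_le_two.trans two)
    linarith [(abs_le.1 st2).2]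
  refine (sum_le_sum st1).trans ?_
  rw [← mul_sum, mul_assoc ((1 / 3 : ℝ) ^ _), mul_div_assoc ((1 / 3 : ℝ) ^ _), ← eT]
  have o0 : (0 : ℝ) ≤ (1 / 3) ^ ρ.om (D1 * D2 : ℕ) := by positivity
  have o1 : ((1 : ℝ) / 3) ^ ρ.om (D1 * D2 : ℕ) ≤ 1 := pow_le_one₀ (by norm_num) (by norm_num)
  generalize ((1 : ℝ) / 3) ^ ρ.om (D1 * D2 : ℕ) = o at o0 o1 ⊢
  have r0 := er0 30
  have a1 : o * T * (40 * exp 248 * ρ.Er 30) ≤ 40 * exp 248 * ρ.Er 30 :=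
    mul_le_of_le_one_left (by positivity) (mul_le_one₀ o1 T0 T1)
  have a2 : o * ρ.Er 30 ≤ ρ.Er 30 := mul_le_of_le_one_left r0 o1
  have a3 := mul_le_mul_of_nonneg_left st6 o0
  have a4 := mul_le_mul_of_nonneg_left M1 o0
  linarith

end Pool.Agent.P.MP_8be758_nt.Pd
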