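import Pool.Agent.P.MP_8be758_nt.Pd.IfG

/-! Step FMP. -/

namespace Pool.Agent.P.MP_8be758_nt.Pd

open Finset Real Filter
open Pool.Agent.P.MP_8be758_nt.Par (det)
open Pool.Agent.P.MP_8be758_nt.Avg (rho)

theorem FMP_al (D1 D2 p : ℕ) (φ : Fm) : 0 ≤ Pr.al D1 D2 p φ ∧ Pr.al D1 D2 p φ ≤ 1 := by
  unfold Pr.al
  split_ifs <;> exact ⟨ind_nonneg _, ind_le_one _⟩

theorem FMP_fv {θ : ℝ} (h0 : 0 ≤ θ) (h1 : θ ≤ 1) (D : ℕ) (σ : Sd) (p : ℕ) (φ : Fm) :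
    0 ≤ Pr.fv θ D σ p φ ∧ Pr.fv θ D σ p φ ≤ 1 := by
  unfold Pr.fv
  by_cases a : p ∣ D
  · rw [if_pos a]; exact ⟨ind_nonneg _, ind_le_one _⟩
  rw [if_neg a]
  split_ifs
  · exact ⟨mul_nonneg h0 (ind_nonneg _), mul_le_one₀ h1 (ind_nonneg _) (ind_le_one _)⟩
  all_goals constructor <;> linarith

/-- pointwise bound at a generic prime -/
theorem FMP_pt {θ : ℝ} (h0 : 0 ≤ θ) {D1 D2 p : ℕ} (hp : p.Prime) (σ : Sd)
    (hD : ¬p ∣ D1 * D2) (ha : ¬(p : ℤ) ∣ σ.af) (φ : Fm) :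
    Pr.al D1 D2 p φ * Pr.fv θ (D1 * D2) σ p φ ≤
      (1 - 1 * ind ((p : ℤ) ∣ φ.1)) * (1 - 1 * ind ((p : ℤ) ∣ φ.2.2)) *
        (1 - (1 - θ) * ind ((p : ℤ) ∣ ev φ σ.ut)) * (1 - (1 - θ) * ind ((p : ℤ) ∣ ev φ σ.us)) := by
  have hq : Prime (p : ℤ) := Nat.prime_iff_prime_int.1 hp
  rw [Pr.al, if_neg fun h => hD (h.mul_right _), if_neg fun h => hD (h.mul_left _), Pr.fv,
    if_neg hD, if_neg ha]
  by_cases a : (p : ℤ) ∣ φ.1
  · simp [ind, a, a.mul_right]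
  by_cases b : (p : ℤ) ∣ φ.2.2
  · simp [ind, b, b.mul_left]
  rw [ind_pos fun h => (hq.dvd_or_dvd h).elim a b, ind_neg a, ind_neg b]
  by_cases c : (p : ℤ) ∣ ev φ σ.ut <;> by_cases d : (p : ℤ) ∣ ev φ σ.us
  · rw [if_neg (not_not.2 (c.mul_right _)), if_pos (Or.inr (by rw [sq]; exact mul_dvd_mul c d)),
      ind_pos c, ind_pos d]
    nlinarith [mul_nonneg h0 h0]
  · rw [if_neg (not_not.2 (c.mul_right _)), ind_pos c, ind_neg d]
    split_ifs <;> linarith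
  · rw [if_neg (not_not.2 (d.mul_left _)), ind_neg c, ind_pos d]
    split_ifs <;> linarith
  · rw [if_pos fun h => (hq.dvd_or_dvd h).elim c d, ind_neg c, ind_neg d]
    linarith

theorem FMP_or {p : ℕ} (hp : p.Prime) (x y : ℤ) :
    ind ((p : ℤ) ∣ x * y) ≤ ind ((p : ℤ) ∣ x) + ind ((p : ℤ) ∣ y) := by
  by_cases h : (p : ℤ) ∣ x * y
  · rw [ind_pos h]
    rcases (Nat.prime_iff_prime_int.1 hp).dvd_or_dvd h with e | e
    · rw [ind_pos e]; linarith [ind_nonneg ((p : ℤ) ∣ y)]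
    · rw [ind_pos e]; linarith [ind_nonneg ((p : ℤ) ∣ x)]
  · rw [ind_neg h]; exact add_nonneg (ind_nonneg _) (ind_nonneg _)

theorem FMP_B {a t r i e : ℝ} (hi : 0 < i) (hi' : i ≤ 1 / 100) (ht : 0 ≤ t) (hr : r ≤ 2 * i)
    (ha : 1 - 2 * r ≤ a) (he : 8 * i ≤ e) : t ≤ a * t * exp e := by
  have h1 := add_one_le_exp e
  have h2 : 1 ≤ a * exp e := by
    have := mul_le_mul (show 1 - 4 * i ≤ a by linarith) (show 1 + 8 * i ≤ exp e by linarith)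
      (by linarith) (by linarith)
    nlinarith
  nlinarith

theorem FMP_D {a r i θ : ℝ} (hi : 0 < i) (hi' : i ≤ 1 / 100) (h0 : 0 ≤ θ) (h1 : θ ≤ 1)
    (hr0 : 0 ≤ r) (hr : r ≤ 2 * i) (ha : 1 - 2 * r ≤ a) :
    1 - r * (1 + 1 + (1 - θ) + (1 - θ)) + 50 * i ^ 2 ≤
      a * exp (-(2 * (1 - θ)) * r + 200 * i ^ 2) := by
  have h2 := add_one_le_exp (-(2 * (1 - θ)) * r + 200 * i ^ 2)
  have h3 : (1 - θ) * r ≤ r := by nlinarith
  have h4 : 0 ≤ (1 - θ) * r := mul_nonneg (by linarith) hr0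
  have h5 := mul_le_mul ha h2 (by nlinarith [sq_nonneg i]) (by linarith)
  nlinarith [mul_nonneg h4 hr0, mul_nonneg (sq_nonneg i) (show 0 ≤ 1 / 50 - r by linarith),
    sq_nonneg i]

theorem FMP_E {a r i e : ℝ} (hi : 0 < i) (hi' : i ≤ 1 / 100) (hr : r ≤ 2 * i)
    (ha : 1 - 2 * r ≤ a) (he : -(4 * i) ≤ e) : 4 * i ≤ 10 * i * (a * exp e) := by
  have h1 := add_one_le_exp e
  have := mul_le_mul (show 24 / 25 ≤ a by linarith) (show 24 / 25 ≤ exp e by linarith)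
    (by linarith) (by linarith)
  nlinarith

theorem p_FMP (hOK : S_OK) (hL1 : S_L1) (hLB : S_LB) (hALP : S_ALP) (hSDS : S_SDS) :
    S_FMP := by
  obtain ⟨c, hc⟩ := hALP
  refine ⟨max c 100, fun A C1 => ?_⟩
  obtain ⟨C, hC, h⟩ := hc A C1
  refine ⟨C, hC, fun z e1 e2 hz => ?_⟩
  filter_upwards [h z e1 e2 (hz.mono (le_max_left _ _)), eventually_ge_atTop 1] with y hA hy
  intro q D1 D2 θ hq hD h0 h1 σ hσ p hp
  obtain ⟨-, b2, -, b4, b5, -, b7, b8, b9, b10, -⟩ := hz.mono (le_max_right _ _)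
  set ρ : Pr := ⟨z, y⟩
  obtain ⟨hpp, hw, hpy⟩ := (mem_PP (by linarith)).1 hp
  have hw' : z.w < p := by exact_mod_cast hw
  have hA1 : 1 ≤ ρ.A := by show 1 ≤ z.A; omega
  have hAp : 4 * ρ.A < p := by show 4 * z.A < p; omega
  have hpi : Prime (p : ℤ) := Nat.prime_iff_prime_int.1 hpp
  have p100 : (100 : ℝ) ≤ p := by exact_mod_cast (show 100 ≤ p by omega)
  have hi : (0 : ℝ) < 1 / p := by positivity
  have hi' : (1 : ℝ) / p ≤ 1 / 100 := one_div_le_one_div_of_le (by norm_num) p100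
  have n1 : ¬(p : ℤ) ∣ 1 := hpi.not_dvd_one
  have L := fun u => hL1 ρ.A p (Q0 ρ.A) u hA1 (isF_Q0 _) hpp hAp
  have r2 : (rho ρ.A p : ℝ) ≤ 2 := by exact_mod_cast (L (1, 0) fun h => n1 h.1).1
  have r0 : (0 : ℝ) ≤ rho ρ.A p := Nat.cast_nonneg _
  have hr0 : (0 : ℝ) ≤ rho ρ.A p / p := by positivity
  have hr : (rho ρ.A p : ℝ) / p ≤ 2 * (1 / p) := by rw [mul_one_div]; gcongr
  have hr1 : (rho ρ.A p : ℝ) / (p + 1) ≤ rho ρ.A p / p := by gcongr; linarith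
  have hθ : (1 - θ) * ((rho ρ.A p : ℝ) / p) ≤ rho ρ.A p / p := by nlinarith
  obtain ⟨rfl, hS⟩ := (mem_SD (DA_pos hD).1 (DA_pos hD).2).1 hσ
  obtain ⟨s1, s2, -, -, -, -, s7, -⟩ := hS
  have big : ∀ {k r : ℕ} {Y : ℝ}, k ≠ 0 → r ∈ PP (y ^ k) Y → ¬p ∣ r := fun hk hr e => by
    have := lt_of_PP hr
    rw [← (Nat.prime_dvd_prime_iff_eq hpp (prime_of_PP hr)).1 e] at this
    linarith [le_self_pow₀ hy hk]
  have q1 : ¬p ∣ σ.q1 := big (k := z.k5) (by omega) hq.1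
  have q3 : ¬p ∣ σ.q3 := big (k := z.k3) (by omega) hq.2.1
  have q4 : ¬p ∣ σ.q4 := big (k := 1) one_ne_zero (by simpa [Pr.I4] using hq.2.2)
  have triv : ¬(p : ℤ) ∣ σ.af → (p : ℤ) ∣ (D1 * D2 : ℕ) * (σ.s * σ.t * σ.af) →
      S4.av (p ^ 2) (fun g => Pr.al D1 D2 p (ρ.fm g) * Pr.fv θ (D1 * D2) σ p (ρ.fm g)) ≤
      ρ.aa D1 D2 p * (if (p : ℤ) ∣ σ.af then θ * (rho ρ.A p : ℝ) / p else 1) *
        exp (-(2 * (1 - θ)) * (rho ρ.A p : ℝ) / p +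
          if (p : ℤ) ∣ (D1 * D2 : ℕ) * (σ.s * σ.t * σ.af) then 12 / (p : ℝ)
          else 200 / (p : ℝ) ^ 2) := by
    intro a b
    rw [if_neg a, if_pos b, mul_one]
    refine (S4.av_mono _ fun g _ => mul_le_of_le_one_right (FMP_al _ _ _ _).1
      (FMP_fv h0 h1 _ _ _ _).2).trans (le_mul_of_one_le_right
        (S4.av_nonneg _ fun g => (FMP_al _ _ _ _).1) (one_le_exp ?_))
    rw [mul_div_assoc, div_eq_mul_one_div 12]
    linarith
  by_cases hD' : p ∣ D1 * D2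
  · have a : ¬(p : ℤ) ∣ σ.af := fun a => hpp.one_lt.ne'
      (Nat.eq_one_of_dvd_coprimes s7 ((Int.natCast_dvd.1 a).mul_left _) hD')
    have b := Int.natCast_dvd_natCast.2 hD'
    exact ⟨triv a (b.mul_right _), fun h => absurd (b.mul_right _) h⟩
  have ha := ((hA D1 D2 p hp).2 hD').1
  rw [mul_div_assoc] at ha
  have d1 : ¬p ∣ σ.e1 * σ.a1 := fun e => hD' ((e.trans s1).mul_right _)
  have d2 : ¬p ∣ σ.e2 * σ.a2 := fun e => hD' ((e.trans s2).mul_left _)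
  have E1 : ¬p ∣ σ.E1 := fun e => ((Nat.Prime.dvd_mul hpp).1 e).elim (fun e => d1 (e.mul_right _)) q3
  have E2 : ¬p ∣ σ.E2 := fun e => ((Nat.Prime.dvd_mul hpp).1 e).elim (fun e => d2 (e.mul_right _)) q4
  have nm : ∀ {a b : ℕ}, ¬p ∣ a → ¬p ∣ b → ¬p ∣ a * b :=
    fun ha hb e => ((Nat.Prime.dvd_mul hpp).1 e).elim ha hb
  have u1 : ¬(p : ℤ) ∣ σ.ut.2 :=
    mt Int.natCast_dvd_natCast.1 (nm E1 fun e => d1 (e.mul_left _))
  have u2 : ¬(p : ℤ) ∣ σ.us.1 :=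
    mt Int.natCast_dvd_natCast.1 (nm (nm E2 fun e => d2 (e.mul_left _)) q1)
  have Lt := (L σ.ut fun h => u1 h.2).2.2
  have Ls := (L σ.us fun h => u2 h.1).2.2
  refine ⟨?_, fun _ => ?_⟩
  · by_cases a : (p : ℤ) ∣ σ.af
    · rw [if_pos a, if_pos ((a.mul_left _).mul_left _)]
      refine le_trans (S4.av_mono _ (g := fun g => θ * ind ((p : ℤ) ∣ ev (ρ.fm g) σ.ut))
        fun g _ => ?_) ?_
      · refine (mul_le_of_le_one_left (FMP_fv h0 h1 _ _ _ _).1 (FMP_al _ _ _ _).2).trans ?_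
        rw [Pr.fv, if_neg hD', if_pos a]
        exact mul_le_mul_of_nonneg_left (ind_mono fun h => h.1) h0
      · rw [S4.av_mul]
        refine (mul_le_mul_of_nonneg_left (Lt.le.trans hr1) h0).trans ?_
        rw [mul_div_assoc, mul_div_assoc, div_eq_mul_one_div 12]
        exact FMP_B hi hi' (mul_nonneg h0 hr0) hr ha (by linarith)
    by_cases b : (p : ℤ) ∣ (D1 * D2 : ℕ) * (σ.s * σ.t * σ.af)
    · exact triv a b
    rw [if_neg a, if_neg b, mul_one]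
    have hs : ¬p ∣ σ.s := fun e =>
      b ((((Int.natCast_dvd_natCast.2 e).mul_right _).mul_right _).mul_left _)
    have ht : ¬p ∣ σ.t := fun e =>
      b ((((Int.natCast_dvd_natCast.2 e).mul_left _).mul_right _).mul_left _)
    have u3 : ¬(p : ℤ) ∣ σ.ut.1 := mt Int.natCast_dvd_natCast.1 (nm E2 ht)
    have u4 : ¬(p : ℤ) ∣ σ.us.2 := mt Int.natCast_dvd_natCast.1 (nm E1 hs)
    have u5 : ¬(p : ℤ) ∣ det σ.us σ.ut := by
      rw [show det σ.us σ.ut = (σ.E1 * σ.E2 : ℕ) * σ.af by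
        simp only [det, Sd.ut, Sd.us, Sd.af, Sd.a]; push_cast; ring]
      exact fun e => (hpi.dvd_or_dvd e).elim (mt Int.natCast_dvd_natCast.1 (nm E1 E2)) a
    have u6 : ¬(p : ℤ) ∣ det σ.ut σ.us := by
      rwa [show det σ.ut σ.us = -det σ.us σ.ut by simp only [det]; ring, dvd_neg]
    have := (hLB ρ.A p (Q0 ρ.A) (Fin 4) univ ![(1, 0), (0, 1), σ.ut, σ.us] ![1, 1, 1 - θ, 1 - θ]
      hA1 (isF_Q0 _) hpp hAp (by simp) (fun i _ => by
        fin_cases i <;> simp [n1, u1, u2, h0, h1])).2 fun i _ j _ hij => by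
          fin_cases i <;> fin_cases j <;>
            first | exact absurd rfl hij | exact u5 | exact u6 | simp [det, n1, u1, u2, u3, u4]
    refine ((S4.av_mono _ fun g _ => (FMP_pt h0 hpp σ hD' a _).trans_eq ?_).trans this).trans ?_
    · simp [Fin.prod_univ_four, ev, Pr.fm]
    · have := FMP_D hi hi' h0 h1 hr0 hr ha
      simpa [Fin.sum_univ_four, mul_div_assoc, div_eq_mul_inv, mul_assoc] using this
  · refine (S4.av_mono _ fun g _ => FMP_or hpp _ _).trans ?_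
    rw [S4.av_add]
    refine (add_le_add (Lt.le.trans hr1) (Ls.le.trans hr1)).trans ?_
    rw [mul_div_assoc, div_eq_mul_one_div 10]
    exact le_trans (by linarith) (FMP_E hi hi' hr ha (by linarith))

end Pool.Agent.P.MP_8be758_nt.Pd
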