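import Pool.Agent.P.MP_8be758_nt.Pd.IfN

/-! Step GL. -/

namespace Pool.Agent.P.MP_8be758_nt.Pd

open Finset Real Filter
open Pool.Agent.P.MP_8be758_nt.Par (det)
open Pool.Agent.P.MP_8be758_nt.Avg (rho)
open scoped Classical

theorem GL_loc (hL1 : S_L1) (hLB : S_LB) (A p : ℕ) (ψ : Fm) (ι : Type) [Fintype ι] (u : ι → V2)
    (x : ι → ℝ) (hA : 1 ≤ A) (hF : IsF A ψ) (hc : Fintype.card ι ≤ 6) (hp : p.Prime)
    (h4 : 4 * A < p)
    (hx : ∀ i, 0 ≤ x i ∧ x i ≤ 1 ∧ (x i ≠ 0 → ¬((p : ℤ) ∣ (u i).1 ∧ (p : ℤ) ∣ (u i).2)))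
    (hd : ∀ i j, i ≠ j → x i ≠ 0 → x j ≠ 0 → ¬(p : ℤ) ∣ det (u i) (u j)) :
    1 - ((12 : ℕ) : ℝ) / p ≤
      S4.av (p ^ 2) (fun g => ∏ i, (1 - x i * ind ((p : ℤ) ∣ ev (act ψ g) (u i)))) ∧
    S4.av (p ^ 2) (fun g => ∏ i, (1 - x i * ind ((p : ℤ) ∣ ev (act ψ g) (u i)))) ≤
      exp (-((rho A p : ℝ) / p * ∑ i, x i) + 50 * (1 / (p : ℝ) ^ 2)) := by
  set s := univ.filter fun i => x i ≠ 0 with hs
  have e1 : (fun g => ∏ i, (1 - x i * ind ((p : ℤ) ∣ ev (act ψ g) (u i)))) =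
      fun g => ∏ i ∈ s, (1 - x i * ind ((p : ℤ) ∣ ev (act ψ g) (u i))) := by
    funext g
    symm
    refine prod_subset (subset_univ _) fun i _ hi => ?_
    have : x i = 0 := by simpa [hs] using hi
    simp [this]
  have e2 : ∑ i ∈ s, x i = ∑ i, x i := by
    refine sum_subset (subset_univ _) fun i _ hi => ?_
    simpa [hs] using hi
  have hm : ∀ i ∈ s, x i ≠ 0 := fun i hi => (mem_filter.1 hi).2
  have hc' : s.card ≤ 6 := (card_le_univ s).trans hc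
  obtain ⟨l1, l2⟩ := hLB A p ψ ι s u x hA hF hp h4 hc'
    (fun i hi => ⟨(hx i).1, (hx i).2.1, (hx i).2.2 (hm i hi)⟩)
  have l3 := l2 fun i hi j hj hij => hd i j hij (hm i hi) (hm j hj)
  have hr : (rho A p : ℝ) ≤ 2 := by
    have := (hL1 A p ψ (1, 0) hA hF hp h4 (fun h => hp.one_lt.ne' (by
      have : (p : ℤ) ∣ 1 := h.1
      exact Nat.dvd_one.1 (by exact_mod_cast this)))).1
    exact_mod_cast this
  have hp0 : (0 : ℝ) < p := by exact_mod_cast hp.pos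
  have hS : ∑ i ∈ s, x i ≤ 6 := by
    calc ∑ i ∈ s, x i ≤ ∑ _i ∈ s, (1 : ℝ) := sum_le_sum fun i _ => (hx i).2.1
      _ = s.card := by simp
      _ ≤ 6 := by exact_mod_cast hc'
  have hS0 : 0 ≤ ∑ i ∈ s, x i := sum_nonneg fun i _ => (hx i).1
  rw [e1]
  refine ⟨le_trans ?_ l1, l3.trans ?_⟩
  · have h1 : (rho A p : ℝ) * ∑ i ∈ s, x i ≤ 12 := by
      nlinarith [mul_le_mul hr hS hS0 (by norm_num : (0 : ℝ) ≤ 2)]
    have h2 := div_le_div_of_nonneg_right h1 hp0.le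
    have h3 : (rho A p : ℝ) / p * ∑ i ∈ s, x i = ((rho A p : ℝ) * ∑ i ∈ s, x i) / p := by ring
    push_cast
    linarith
  · rw [e2]
    have := add_one_le_exp (-((rho A p : ℝ) / p * ∑ i, x i) + 50 * (1 / (p : ℝ) ^ 2))
    have h3 : 50 / (p : ℝ) ^ 2 = 50 * (1 / (p : ℝ) ^ 2) := by ring
    linarith

theorem GL_per (p : ℕ) (ψ : Fm) (ι : Type) [Fintype ι] (u : ι → V2) (x : ι → ℝ) :
    S4.Per (p ^ 2) (fun g => ∏ i, (1 - x i * ind ((p : ℤ) ∣ ev (act ψ g) (u i)))) := by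
  intro g h e
  refine prod_congr rfl fun i _ => ?_
  have h1 : (p : ℤ) ∣ ((p ^ 2 : ℕ) : ℤ) := by
    push_cast
    exact dvd_pow_self _ two_ne_zero
  rw [propext (dvd_iff_of_modEq (ev_act_modEq ψ e (u i)) h1)]

theorem GL_unit {ι : Type} [Fintype ι] (x : ι → ℝ) (Q : ι → Prop) (hx : ∀ i, 0 ≤ x i ∧ x i ≤ 1) :
    0 ≤ ∏ i, (1 - x i * ind (Q i)) ∧ ∏ i, (1 - x i * ind (Q i)) ≤ 1 := by
  have h : ∀ i, 0 ≤ 1 - x i * ind (Q i) ∧ 1 - x i * ind (Q i) ≤ 1 := fun i => by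
    have a1 := mul_nonneg (hx i).1 (ind_nonneg (Q i))
    have a2 := mul_le_one₀ (hx i).2 (ind_nonneg (Q i)) (ind_le_one (Q i))
    constructor <;> linarith
  exact ⟨prod_nonneg fun i _ => (h i).1, prod_le_one (fun i _ => (h i).1) fun i _ => (h i).2⟩

theorem p_GL (hOK : S_OK) (hMC : S_MC) (hL1 : S_L1) (hLB : S_LB) (hGLH : S_GLH) :
    S_GL := by
  obtain ⟨C1, hC⟩ := hMC 12
  refine ⟨C1, ?_⟩
  intro A ψ ι _ u m i0 i1 x P G y Mx err hA hF hi hc hy he hm hco hP hE hM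
  obtain ⟨g1, g2⟩ := hGLH A ψ ι u m i0 i1 hA hF hi hm hco
  set R := ∏ p ∈ (∏ i, m i).primeFactors, p with hR
  have hm0 : ∏ i, m i ≠ 0 := prod_ne_zero_iff.2 fun i _ => (hm i).1.1.ne_zero
  have hRd : R ∣ ∏ i, m i := Nat.prod_primeFactors_dvd _
  have hRl : R ≤ ∏ i, m i := Nat.le_of_dvd (Nat.pos_of_ne_zero hm0) hRd
  have hR0 : 0 < R := Nat.pos_of_dvd_of_pos hRd (Nat.pos_of_ne_zero hm0)
  have hl := fun p (hp : p ∈ P) => GL_loc hL1 hLB A p ψ ι u (fun i => x i p) hA hF hc (hP p hp).1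
    (hP p hp).2.1 (hP p hp).2.2.2.2.2.1 (hP p hp).2.2.2.2.2.2
  have hu := fun p (hp : p ∈ P) (g : G4) => GL_unit (fun i => x i p)
    (fun i => (p : ℤ) ∣ ev (act ψ g) (u i))
    (fun i => ⟨((hP p hp).2.2.2.2.2.1 i).1, ((hP p hp).2.2.2.2.2.1 i).2.1⟩)
  have hy0 : (0 : ℝ) ≤ y := by linarith
  have key := hC G4 S4 G (fun _ => 1) G.card Mx err y 2 1 (R ^ 2) P
    (fun g => ∏ i, ind ((m i : ℤ) ∣ ev (act ψ g) (u i)))
    (fun p g => ∏ i, (1 - x i p * ind ((p : ℤ) ∣ ev (act ψ g) (u i))))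
    hOK.2.2.2 hE (fun _ _ => zero_le_one) (Nat.cast_nonneg _) he le_rfl hy (by positivity) g1
    (fun g => ⟨prod_nonneg fun i _ => ind_nonneg _,
      prod_le_one (fun i _ => ind_nonneg _) fun i _ => ind_le_one _⟩)
    (fun p hp => ⟨(hP p hp).1, (hP p hp).2.2.2.1, by have := (hP p hp).2.2.1; omega, ?_,
      GL_per p ψ ι u (fun i => x i p), hu p hp, (hl p hp).1⟩) ?_
  rotate_left
  · refine Nat.Coprime.pow_left 2 (Nat.Coprime.coprime_dvd_left hRd ?_)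
    refine Nat.Coprime.prod_left fun i _ => ?_
    exact ((Nat.Prime.coprime_iff_not_dvd (hP p hp).1).2 ((hP p hp).2.2.2.2.1 i)).symm
  · refine le_trans ?_ hM
    rw [show C1 * 1 * 2 = 2 * C1 by ring]
    refine mul_le_mul_of_nonneg_right ?_ (by positivity)
    have : (R : ℝ) ≤ ((∏ i, m i : ℕ) : ℝ) := by exact_mod_cast hRl
    rw [Nat.cast_pow]
    exact pow_le_pow_left₀ (Nat.cast_nonneg _) this 2
  simp only [one_mul, mul_one, pow_one] at key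
  have k1 := (abs_le.1 key).2
  set a0 := S4.av (R ^ 2) (fun g => ∏ i, ind ((m i : ℤ) ∣ ev (act ψ g) (u i))) with ha0
  set a1 := ∏ p ∈ P, S4.av (p ^ 2)
    (fun g => ∏ i, (1 - x i p * ind ((p : ℤ) ∣ ev (act ψ g) (u i)))) with ha1
  have b0 : 0 ≤ a0 := S4.av_nonneg _ fun g => prod_nonneg fun i _ => ind_nonneg _
  have c1 : ∀ p ∈ P, 0 ≤ S4.av (p ^ 2)
      (fun g => ∏ i, (1 - x i p * ind ((p : ℤ) ∣ ev (act ψ g) (u i)))) :=
    fun p hp => S4.av_nonneg _ fun g => (hu p hp g).1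
  have b1 : 0 ≤ a1 := prod_nonneg c1
  have b2 : a1 ≤ exp (-(∑ p ∈ P, (rho A p : ℝ) / p * ∑ i, x i p) +
      50 * ∑ p ∈ P, 1 / (p : ℝ) ^ 2) := by
    rw [mul_sum, ← sum_neg_distrib, ← sum_add_distrib, exp_sum]
    exact prod_le_prod c1 fun p hp => (hl p hp).2
  have b3 := mul_le_mul g2 b2 b1 (b0.trans g2)
  have b4 := mul_le_mul_of_nonneg_left b3 (Nat.cast_nonneg (α := ℝ) G.card)
  have b5 := mul_nonneg (Nat.cast_nonneg (α := ℝ) G.card) (mul_nonneg b0 b1)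
  nlinarith

end Pool.Agent.P.MP_8be758_nt.Pd
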