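import Pool.Agent.P.MP_8be758_nt.Pd.IfN

/-! Step GLH. -/

namespace Pool.Agent.P.MP_8be758_nt.Pd

open Finset Real Filter
open Pool.Agent.P.MP_8be758_nt.Par (det)
open Pool.Agent.P.MP_8be758_nt.Avg (rho)
open scoped Classical

theorem GLH_ind {m : ℕ} (hm : Squarefree m) {D : Finset ℕ} (hD : m.primeFactors ⊆ D) (N : ℤ) :
    ind ((m : ℤ) ∣ N) = ∏ p ∈ D, ind (p ∣ m → (p : ℤ) ∣ N) := by
  by_cases h : (m : ℤ) ∣ N
  · rw [ind_pos h]
    exact (prod_eq_one fun p _ => ind_pos fun hp => (Int.natCast_dvd_natCast.2 hp).trans h).symm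
  · rw [ind_neg h]
    by_contra hne
    apply h
    rw [← Nat.prod_primeFactors_of_squarefree hm, Nat.cast_prod]
    refine Finset.prod_dvd_of_coprime (fun p hp q hq e => ?_) fun p hp => ?_
    · exact Nat.isCoprime_iff_coprime.2 ((Nat.coprime_primes (Nat.prime_of_mem_primeFactors hp)
        (Nat.prime_of_mem_primeFactors hq)).2 e)
    · by_contra hn
      exact hne (prod_eq_zero (hD hp)
        (ind_neg fun hh => hn (hh (Nat.dvd_of_mem_primeFactors hp)))).symm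

theorem GLH_prod {m : ℕ} (hm : m ≠ 0) {D : Finset ℕ} (hD : m.primeFactors ⊆ D)
    (hp : ∀ p ∈ D, p.Prime) (r : ℕ → ℝ) :
    ∏ p ∈ m.primeFactors, r p = ∏ p ∈ D, if p ∣ m then r p else 1 := by
  rw [← prod_filter]
  refine prod_congr ?_ fun _ _ => rfl
  ext p
  simp only [mem_filter]
  exact ⟨fun h => ⟨hD h, Nat.dvd_of_mem_primeFactors h⟩,
    fun h => Nat.mem_primeFactors.2 ⟨hp p h.1, h.2, hm⟩⟩

theorem GLH_loc (hL1 : S_L1) (hL2 : S_L2) (A : ℕ) (ψ : Fm) (ι : Type) [Fintype ι] (u : ι → V2)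
    (m : ι → ℕ) (i0 i1 : ι) (hA : 1 ≤ A) (hψ : IsF A ψ) (h01 : i0 ≠ i1) (p : ℕ) (hp : p.Prime)
    (h4 : 4 * A < p) (hu : ∀ i, p ∣ m i → ¬((p : ℤ) ∣ (u i).1 ∧ (p : ℤ) ∣ (u i).2))
    (hc : ∀ i j, i ≠ j → (i = i0 ∧ j = i1) ∨ (i = i1 ∧ j = i0) ∨ (m i).Coprime (m j))
    (j : ι) (hj : p ∣ m j) :
    S4.av (p ^ 2) (fun g => ∏ i, ind (p ∣ m i → (p : ℤ) ∣ ev (act ψ g) (u i))) ≤
      (∏ i, if p ∣ m i then (rho A p : ℝ) / p else 1) *
        if p ∣ Int.gcd (Nat.gcd (m i0) (m i1)) (det (u i0) (u i1)) then (p : ℝ) else 1 := by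
  have p1 : (1 : ℝ) ≤ p := by exact_mod_cast hp.one_le
  have p0 : (0 : ℝ) < p := by linarith
  have r0 : (0 : ℝ) ≤ rho A p := Nat.cast_nonneg _
  have rr : (rho A p : ℝ) ≤ rho A p * rho A p := by exact_mod_cast Nat.le_mul_self _
  have nc : ∀ a b, p ∣ m a → p ∣ m b → ¬(m a).Coprime (m b) := fun a b ha hb h =>
    hp.one_lt.ne' (Nat.eq_one_of_dvd_coprimes h ha hb)
  have one : ∀ i, p ∣ m i → S4.av (p ^ 2) (fun g => ind ((p : ℤ) ∣ ev (act ψ g) (u i))) ≤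
      (rho A p : ℝ) / p := fun i hi => by
    rw [(hL1 A p ψ (u i) hA hψ hp h4 (hu i hi)).2.2]
    exact div_le_div_of_nonneg_left r0 p0 (by linarith)
  have ge1 : (1 : ℝ) ≤
      if p ∣ Int.gcd (Nat.gcd (m i0) (m i1)) (det (u i0) (u i1)) then (p : ℝ) else 1 := by
    split_ifs
    exacts [p1, le_rfl]
  by_cases hb : p ∣ m i0 ∧ p ∣ m i1
  · have hn : ∀ c, c ≠ i0 ∧ c ≠ i1 → ¬p ∣ m c := fun c hc' h => by
      rcases hc c i0 hc'.1 with e | e | e
      exacts [hc'.1 e.1, hc'.2 e.1, nc c i0 h hb.1 e]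
    have e1 : (fun g => ∏ i, ind (p ∣ m i → (p : ℤ) ∣ ev (act ψ g) (u i))) =
        fun g => ind ((p : ℤ) ∣ ev (act ψ g) (u i0) ∧ (p : ℤ) ∣ ev (act ψ g) (u i1)) := by
      funext g
      rw [prod_eq_mul_of_mem i0 i1 (mem_univ _) (mem_univ _) h01
        fun c _ hc' => ind_pos fun h => absurd h (hn c hc'), ind_and]
      simp only [hb.1, hb.2, true_imp_iff]
    rw [e1, prod_eq_mul_of_mem i0 i1 (mem_univ _) (mem_univ _) h01
      fun c _ hc' => if_neg (hn c hc'), if_pos hb.1, if_pos hb.2]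
    by_cases hd : (p : ℤ) ∣ det (u i0) (u i1)
    · have hg : p ∣ Int.gcd (Nat.gcd (m i0) (m i1)) (det (u i0) (u i1)) :=
        Int.natCast_dvd_natCast.1 (Int.dvd_coe_gcd
          (Int.natCast_dvd_natCast.2 (Nat.dvd_gcd hb.1 hb.2)) hd)
      rw [if_pos hg]
      refine ((S4.av_mono _ fun g _ => ind_mono fun h => h.1).trans (one i0 hb.1)).trans ?_
      rw [show (rho A p : ℝ) / p * (rho A p / p) * p = rho A p * rho A p / p by field_simp]
      exact div_le_div_of_nonneg_right rr p0.le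
    · refine (hL2 A p ψ (u i0) (u i1) hA hψ hp h4 hd).trans ?_
      refine le_trans ?_ (le_mul_of_one_le_right (by positivity) ge1)
      rw [show (rho A p : ℝ) / p * (rho A p / p) = rho A p * rho A p / p ^ 2 by field_simp]
      exact div_le_div_of_nonneg_right rr (by positivity)
  · have hn : ∀ c, c ≠ j → ¬p ∣ m c := fun c hc' h => by
      rcases hc c j hc' with e | e | e
      · exact hb ⟨e.1 ▸ h, e.2 ▸ hj⟩
      · exact hb ⟨e.2 ▸ hj, e.1 ▸ h⟩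
      · exact nc c j h hj e
    have e1 : (fun g => ∏ i, ind (p ∣ m i → (p : ℤ) ∣ ev (act ψ g) (u i))) =
        fun g => ind ((p : ℤ) ∣ ev (act ψ g) (u j)) := by
      funext g
      rw [prod_eq_single_of_mem j (mem_univ _)
        fun c _ hc' => ind_pos fun h => absurd h (hn c hc')]
      simp only [hj, true_imp_iff]
    rw [e1, prod_eq_single_of_mem j (mem_univ _) fun c _ hc' => if_neg (hn c hc'), if_pos hj]
    exact (one j hj).trans (le_mul_of_one_le_right (by positivity) ge1)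

theorem p_GLH (hOK : S_OK) (hPROD : S_PROD) (hL1 : S_L1) (hL2 : S_L2) :
    S_GLH := by
  intro A ψ ι _ u m i0 i1 hA hψ h01 hm hc
  have m0 : ∀ i, m i ≠ 0 := fun i => (hm i).1.1.ne_zero
  have M0 : ∏ i, m i ≠ 0 := prod_ne_zero_iff.2 fun i _ => m0 i
  set D := (∏ i, m i).primeFactors with hD
  have hpr : ∀ p ∈ D, p.Prime := fun p hp => Nat.prime_of_mem_primeFactors hp
  have hsub : ∀ i, (m i).primeFactors ⊆ D := fun i =>
    Nat.primeFactors_mono (dvd_prod_of_mem _ (mem_univ i)) M0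
  have e1 : (fun g => ∏ i, ind ((m i : ℤ) ∣ ev (act ψ g) (u i))) = fun g => (1 : ℝ) *
      ∏ p ∈ D, ∏ i, ind (p ∣ m i → (p : ℤ) ∣ ev (act ψ g) (u i)) := by
    funext g
    rw [one_mul, Finset.prod_comm]
    exact prod_congr rfl fun i _ => GLH_ind (hm i).1.1 (hsub i) _
  have e2 : (∏ p ∈ D, p) ^ 2 = 1 * ∏ p ∈ D, p ^ 2 := by rw [one_mul, prod_pow]
  obtain ⟨h1, h2⟩ := hPROD G4 S4 D (fun p => p ^ 2) 1 (fun _ => 1)
    (fun p g => ∏ i, ind (p ∣ m i → (p : ℤ) ∣ ev (act ψ g) (u i))) hOK.2.2.2 one_pos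
    (fun _ _ _ => rfl)
    (fun p hp => ⟨pow_pos (hpr p hp).pos 2, Nat.coprime_one_left _, fun g h e =>
      prod_congr rfl fun i _ => by
        rw [dvd_iff_of_modEq (ev_act_modEq ψ e (u i)) (d := p)
          (by push_cast; exact dvd_pow_self _ two_ne_zero)]⟩)
    (fun p hp q hq e => Nat.Coprime.pow 2 2 ((Nat.coprime_primes (hpr p hp) (hpr q hq)).2 e))
  rw [e1, e2]
  refine ⟨h1, ?_⟩
  rw [h2, S4.av_const _ (hOK.2.2.2.1 1 one_pos), one_mul]
  set γ := Int.gcd (Nat.gcd (m i0) (m i1)) (det (u i0) (u i1)) with hγ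
  have g1 : γ ∣ m i0 :=
    (Int.natCast_dvd_natCast.1 (Int.gcd_dvd_left _ _)).trans (Nat.gcd_dvd_left (m i0) (m i1))
  have g2 : Squarefree γ := (hm i0).1.1.squarefree_of_dvd g1
  have e3 : (γ : ℝ) = ∏ p ∈ D, if p ∣ γ then (p : ℝ) else 1 := by
    rw [← GLH_prod g2.ne_zero ((Nat.primeFactors_mono g1 (m0 i0)).trans (hsub i0)) hpr,
      ← Nat.cast_prod, Nat.prod_primeFactors_of_squarefree g2]
  have e4 : ∏ i, de A (m i) = ∏ p ∈ D, ∏ i, if p ∣ m i then (rho A p : ℝ) / p else 1 := by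
    rw [Finset.prod_comm]
    exact prod_congr rfl fun i _ => GLH_prod (m0 i) (hsub i) hpr _
  rw [e4, e3, ← prod_mul_distrib]
  refine prod_le_prod (fun p _ => S4.av_nonneg _ fun g => prod_nonneg fun i _ => ind_nonneg _)
    fun p hp => ?_
  obtain ⟨j, -, hj⟩ := ((hpr p hp).prime.dvd_finsetProd_iff _).1 (Nat.dvd_of_mem_primeFactors hp)
  have mem : ∀ i, p ∣ m i → p ∈ (m i).primeFactors := fun i h =>
    Nat.mem_primeFactors.2 ⟨hpr p hp, h, m0 i⟩
  exact GLH_loc hL1 hL2 A ψ ι u m i0 i1 hA hψ h01 p (hpr p hp)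
    (by exact_mod_cast (hm j).1.2 p (mem j hj)) (fun i h => (hm i).2 p (mem i h)) hc j hj

end Pool.Agent.P.MP_8be758_nt.Pd
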