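import Pool.Agent.P.MP_8be758_nt.Pd.IfH

/-! Step HF: the local weights of the lattice count and their averages. -/

namespace Pool.Agent.P.MP_8be758_nt.Pd

open Finset Real Filter
open Pool.Agent.P.MP_8be758_nt.Par (det)
open Pool.Agent.P.MP_8be758_nt.Avg (rho)

theorem HF_exp {x e : ℝ} (h1 : x ≤ 1 / 2) (h2 : x + 2 * x ^ 2 ≤ e) :
    exp (-e) ≤ 1 - x := by
  have h3 := add_one_le_exp e
  rw [exp_neg, inv_le_iff_one_le_mul₀ (exp_pos e)]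
  nlinarith [mul_nonneg (sq_nonneg x) (show 0 ≤ 1 - 2 * x by linarith),
    mul_le_mul_of_nonneg_left (show x + 2 * x ^ 2 + 1 ≤ exp e by linarith)
      (show 0 ≤ 1 - x by linarith)]

theorem HF_low {m : ℕ} (h : (S2.U m).Nonempty) {f g : V2 → ℝ} {x : ℝ} (h1 : ∀ v, 1 - g v ≤ f v)
    (h2 : S2.av m g ≤ x) : 1 - x ≤ S2.av m f := by
  have := S2.av_mono m fun v _ => h1 v
  rw [S2.av_sub, S2.av_const m h] at this
  linarith

theorem HF_fin {x e r a : ℝ} (h1 : x ≤ 6 * r) (hr : r ≤ 1 / 13)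
    (h2 : x + 2 * x ^ 2 ≤ e) (h3 : 1 - x ≤ a) : 1 - 6 * r ≤ a ∧ exp (-e) ≤ a :=
  ⟨by linarith, (HF_exp (by linarith) h2).trans h3⟩

theorem p_HF (hCON2 : S_CON2) (hCON3 : S_CON3) (hL1 : S_L1) (hOK : S_OK) :
    S_HF := by
  refine ⟨0, fun A C1 => ⟨1, le_rfl, fun z _ _ hz => Eventually.of_forall fun y => ?_⟩⟩
  obtain ⟨ρ, hρ⟩ : ∃ ρ : Pr, ρ = ⟨z, y⟩ := ⟨_, rfl⟩
  have hA : 3 ≤ ρ.A := hρ ▸ hz.2.1
  rw [← hρ]
  intro ψ a D t Bd hH p hp hAp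
  have hF : IsF ρ.A ψ := (mem_filter.1 hH.1).2
  obtain ⟨b1, b2⟩ := hH.2.2.2.2.2.2.2.2.2.2.2 p hp
  obtain ⟨c1, c2⟩ := hCON2 ρ.A p ψ (by omega) hF hp hAp
  have c0 := c1 0
  simp only [sub_zero] at c0
  have c3 := hCON3 ρ.A p ψ (by omega) hF hp hAp
  have c4 : (rho ρ.A p : ℝ) ≤ 2 := by
    exact_mod_cast (hL1 ρ.A p ψ (1, 0) (by omega) hF hp hAp fun h =>
      hp.one_lt.ne' (by exact_mod_cast Int.eq_one_of_dvd_one (by positivity) h.1)).1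
  have c5 : (0 : ℝ) ≤ rho ρ.A p := Nat.cast_nonneg _
  have hU := hOK.2.1.1 (p ^ 2) (pow_pos hp.pos 2)
  have hp13 : (13 : ℝ) ≤ p := by exact_mod_cast (show 13 ≤ p by omega)
  have hp0 : (0 : ℤ) < p := by exact_mod_cast hp.pos
  refine ⟨fun v w h => ?_, fun v => ?_, ?_⟩
  · have e : ev ψ v ≡ ev ψ w [ZMOD (p ^ 2 : ℕ)] := by
      obtain ⟨e1, e2⟩ := h
      simp only [ev]
      gcongr
    have d1 : (p : ℤ) ∣ (p ^ 2 : ℕ) := by push_cast; exact dvd_pow_self _ two_ne_zero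
    have d2 : (p : ℤ) ^ 2 ∣ (p ^ 2 : ℕ) := by push_cast; rfl
    simp only [Pr.hf, dvd_iff_of_modEq e d1, dvd_iff_of_modEq e d2, b1 _ _ (e.of_dvd d1),
      dvd_iff_of_modEq (e.sub_left a) d1]
  · unfold Pr.hf
    split_ifs
    exacts [⟨ind_nonneg _, ind_le_one _⟩, ⟨ind_nonneg _, ind_le_one _⟩,
      ⟨ind_nonneg _, ind_le_one _⟩, by norm_num, by norm_num, by norm_num]
  obtain ⟨r, hr⟩ : ∃ r : ℝ, r = 1 / p := ⟨_, rfl⟩
  have e1 : ∀ x : ℝ, x / p = x * r := fun x => by rw [hr]; ring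
  have e2 : ∀ x : ℝ, x / (p : ℝ) ^ 2 = x * r ^ 2 := fun x => by rw [hr]; ring
  have r0 : 0 ≤ r := by rw [hr]; positivity
  have r1 : r ≤ 1 / 13 := by rw [hr]; gcongr
  simp only [e1, e2] at c0 c1 c2 c3 ⊢
  unfold Pr.hf
  split_ifs
  · refine HF_fin (x := 6 * r) le_rfl r1 (by nlinarith) (HF_low hU
      (g := fun v => ind ((p : ℤ) ∣ ev ψ v) + ∑ c ∈ bx p, ind (Bd p c) * ind ((p : ℤ) ∣ ev ψ v - c))
      (fun v => ?_) ?_)
    · have s0 : ∀ c ∈ bx p, 0 ≤ ind (Bd p c) * ind ((p : ℤ) ∣ ev ψ v - c) := fun c _ =>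
        mul_nonneg (ind_nonneg _) (ind_nonneg _)
      have s1 := sum_nonneg s0
      have s2 := ind_nonneg ((p : ℤ) ∣ ev ψ v)
      by_cases h1 : (p : ℤ) ∣ ev ψ v
      · rw [ind_pos h1]
        linarith [ind_nonneg (¬(p : ℤ) ∣ ev ψ v ∧ ¬Bd p (ev ψ v))]
      by_cases h2 : Bd p (ev ψ v)
      · have := single_le_sum s0 (show ev ψ v % p ∈ bx p from
          mem_Ico.2 ⟨Int.emod_nonneg _ hp0.ne', Int.emod_lt_of_pos _ hp0⟩)
        rw [ind_pos ((b1 _ _ (Int.mod_modEq _ _)).2 h2), ind_pos (Int.mod_modEq _ _).dvd] at this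
        linarith [ind_nonneg (¬(p : ℤ) ∣ ev ψ v ∧ ¬Bd p (ev ψ v))]
      · rw [ind_pos (And.intro h1 h2)]
        linarith
    · rw [S2.av_add, S2.av_sum]
      have : ∑ c ∈ bx p, S2.av (p ^ 2) (fun v => ind (Bd p c) * ind ((p : ℤ) ∣ ev ψ v - c)) ≤
          (∑ c ∈ bx p, ind (Bd p c)) * (2 * r) := by
        rw [sum_mul]
        exact sum_le_sum fun c _ => by
          rw [S2.av_mul]
          exact mul_le_mul_of_nonneg_left (c1 c) (ind_nonneg _)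
      nlinarith
  · refine HF_fin (x := 2 * r) (by linarith) r1 (by nlinarith) (HF_low hU
      (fun v => ?_) c0)
    by_cases h1 : (p : ℤ) ∣ ev ψ v <;> simp [ind, h1]
  · refine HF_fin (x := 4 * r) (by linarith) r1 (by nlinarith) (HF_low hU
      (g := fun v => ind ((p : ℤ) ∣ ev ψ v) + ind ((p : ℤ) ∣ ev ψ v - a)) (fun v => ?_) ?_)
    · rw [dvd_sub_comm (b := a)]
      by_cases h1 : (p : ℤ) ∣ ev ψ v <;> by_cases h2 : (p : ℤ) ∣ ev ψ v - a <;> simp [ind, h1, h2]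
    · rw [S2.av_add]
      linarith [c1 a]
  · have q1 : r ^ 2 ≤ r / 13 := by nlinarith
    have q2 : (rho ρ.A p : ℝ) * r ≤ 2 * r := by gcongr
    have q3 : 0 ≤ (rho ρ.A p : ℝ) * r := by positivity
    have q4 : 5 / 6 * (rho ρ.A p : ℝ) * r + 4 / 3 * r ^ 2 ≤ 2 * r := by linarith
    refine HF_fin (x := 5 / 6 * (rho ρ.A p : ℝ) * r + 4 / 3 * r ^ 2) (by linarith) r1
      (by nlinarith [pow_le_pow_left₀ (by positivity) q4 2]) (HF_low hU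
      (g := fun v => 5 / 6 * ind ((p : ℤ) ∣ ev ψ v) + 1 / 6 * ind ((p : ℤ) ^ 2 ∣ ev ψ v))
      (fun v => ?_) ?_)
    · by_cases h1 : (p : ℤ) ∣ ev ψ v
      · by_cases h2 : (p : ℤ) ^ 2 ∣ ev ψ v <;> norm_num [ind, h1, h2]
      · have h2 : ¬(p : ℤ) ^ 2 ∣ ev ψ v := fun h => h1 ((dvd_pow_self _ two_ne_zero).trans h)
        simp [ind, h1, h2]
    · rw [S2.av_add, S2.av_mul, S2.av_mul]
      linarith

end Pool.Agent.P.MP_8be758_nt.Pd
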