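import Pool.Agent.P.MP_8be758_nt.Pd.IfH
import Pool.Agent.P.MP_8be758_nt.Avg.FAR

/-! Step HL. -/

namespace Pool.Agent.P.MP_8be758_nt.Pd

open Finset Real Filter
open Pool.Agent.P.MP_8be758_nt.Par (det)
open Pool.Agent.P.MP_8be758_nt.Avg (rho)

theorem HL_grow (B : ℝ) : ∀ᶠ y : ℝ in atTop, B * log y ≤ √y := by
  have h := (isLittleO_log_rpow_atTop (r := 1 / 2) (by norm_num)).bound
    (show 0 < 1 / (|B| + 1) by positivity)
  filter_upwards [h, eventually_ge_atTop 1] with y h1 h2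
  have l0 : 0 ≤ log y := log_nonneg h2
  rw [norm_of_nonneg l0, norm_of_nonneg (by positivity), ← sqrt_eq_rpow] at h1
  have h3 : (|B| + 1) * log y ≤ √y := by
    have := mul_le_mul_of_nonneg_left h1 (show 0 ≤ |B| + 1 by positivity)
    rwa [← mul_assoc, mul_one_div_cancel (by positivity), one_mul] at this
  have h4 : B * log y ≤ (|B| + 1) * log y :=
    mul_le_mul_of_nonneg_right (by linarith [le_abs_self B]) l0
  linarith

theorem HL_div (S : Finset ℕ) {k : ℤ} (hk : k ≠ 0) :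
    ∑ t ∈ S, ind ((t : ℤ) ∣ k) ≤ (k.natAbs.divisors.card : ℝ) := by
  classical
  have e : ∑ t ∈ S, ind ((t : ℤ) ∣ k) = ((S.filter fun t : ℕ => (t : ℤ) ∣ k).card : ℝ) := by
    rw [card_filter]
    push_cast
    exact sum_congr rfl fun p _ => by split_ifs with h <;> simp [ind, h]
  rw [e]
  exact_mod_cast card_le_card fun t ht =>
    Nat.mem_divisors.2 ⟨Int.natCast_dvd.1 (mem_filter.1 ht).2, by simpa using hk⟩

theorem HL_Hs (ρ : Pr) (P R b : ℤ) {a : ℤ} (ha : 0 < a) (D : ℕ) (T : ℝ) (t : ℕ) :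
    0 ≤ ρ.Hs P R a b D T t := by
  refine sum_nonneg fun s _ => ?_
  by_cases h : ρ.SB D a T s t ∧ VT.GW ⟨P, R, a, b, s, t⟩ ρ.w
  · refine mul_nonneg (ind_nonneg _) (div_nonneg (by positivity) ?_)
    have := h.1.2.2.2.1
    exact_mod_cast (by linarith : 0 ≤ a - s * t)
  · rw [ind_neg h, zero_mul]

theorem p_HL (hRED : S_RED) (hLOCW : S_LOCW) (hHLH : S_HLH) (hHLT : S_HLT) (hTSET : S_TSET) (hSQT : S_SQT) (hBXR : S_BXR) (hLAM : S_LAM) :
    S_HL := by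
  obtain ⟨c1, H1⟩ := hHLH
  obtain ⟨c2, H2⟩ := hHLT
  obtain ⟨c3, H3⟩ := hTSET
  obtain ⟨c4, H4⟩ := hLAM
  refine ⟨c1 + c2 + c3 + c4 + 1, fun A C1 => ?_⟩
  obtain ⟨_, -, G1⟩ := H1 A C1
  obtain ⟨CT, T1, G2⟩ := H2 A C1
  obtain ⟨CS, S1, G3⟩ := H3 A C1
  obtain ⟨CL, L1, G4⟩ := H4 A C1
  refine ⟨2 * (CS * CT), by nlinarith, fun z hA hC hz => ?_⟩
  obtain ⟨z1, z2, -, z4, -, -, z7, z8, z9, -⟩ := hz.mono (c := 1) (by omega)
  have A1 : 1 ≤ z.A := by omega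
  obtain ⟨CQ, Q0, hQ⟩ := hSQT z.A A1
  obtain ⟨_, _, -, hB⟩ := hBXR z.A A1
  have U0 : (0 : ℝ) < z.U := by exact_mod_cast (by unfold St.U; omega : 0 < z.U)
  obtain ⟨CD, D0, hD⟩ := Avg.t_DIV (1 / (2 * z.U)) (by positivity)
  set L : ℝ := log z.w with hL
  have L1' : 1 ≤ L := by
    rw [hL, le_log_iff_exp_le (by exact_mod_cast (by omega : 0 < z.w))]
    have : (12 : ℝ) ≤ z.w := by exact_mod_cast (by omega : 12 ≤ z.w)
    linarith [exp_one_lt_d9]
  have k0 : (0 : ℝ) < z.k4 := by exact_mod_cast (by omega : 0 < z.k4)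
  filter_upwards [G1 z hA hC (hz.mono (by omega)), G2 z hA hC (hz.mono (by omega)),
    G3 z hA hC (hz.mono (by omega)), G4 z hA hC (hz.mono (by omega)),
    HL_grow (2 * (CD * CQ) * (CS * CT * ((z.k4 : ℝ) ^ 4 * L ^ 18)) * CL), eventually_ge_atTop 1,
    eventually_ge_atTop (4 * z.A : ℝ)] with y g1 g2 g3 g4 g5 hy hy2
  intro P R a b D T hd
  set ρ : Pr := ⟨z, y⟩ with hρ
  have hd' := hd
  obtain ⟨d1, d2, d3, d4, d5, d6, d7, d8, d9, -, d11, d12, d13⟩ := hd'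
  have y0 : 0 < y := by linarith
  have a0' : (0 : ℝ) < a := lt_of_lt_of_le (pow_pos y0 _) d6
  have a0 : 0 < a := by exact_mod_cast a0'
  obtain ⟨ψ, hψ, g, -, hg⟩ := hRED z.A (a, b, P * R) A1 ⟨by
    show b ^ 2 - 4 * a * (P * R) = _
    linear_combination d3, a0⟩
  have hu : ev ψ g.1 = a := congrArg Prod.fst hg
  have hF : IsF z.A ψ := (mem_filter.1 hψ).2
  have hl : ∀ p : ℕ, ∃ s0 t0 l : ℤ, p ∈ PP 0 (4 * ρ.A) → LW P R a b p s0 t0 l := by
    intro p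
    by_cases hp : p ∈ PP 0 (4 * ρ.A)
    · obtain ⟨p1, -, p2⟩ := (mem_PP (by positivity)).1 hp
      have p3 : p ≤ 4 * z.A := by exact_mod_cast p2
      have p4 : p ≤ ρ.w := p3.trans z4
      obtain ⟨s0, t0, l, h⟩ := hLOCW z.A p P R a b z1 p1 d3
        (fun h => absurd (d5 p p1 h).1 (not_lt.2 p4)) (d4 p p1 p4)
      exact ⟨s0, t0, l, fun _ => h⟩
    · exact ⟨0, 0, 0, fun h => absurd h hp⟩
  choose s0 t0 l hl using hl
  have f1 := (g1 P R a b D T ψ g.1 s0 t0 l hd hψ hu hl).1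
  have f2 := g2 P R a b D T ψ g.1 s0 t0 l hd hψ hu hl
  have f3 := g3 D T t0 (Bz P R a b) d8 d9 d11 d12 d13 f1
  set TS := ρ.TS D T t0 (Bz P R a b) with hTS
  set e : ℝ := exp (-(5 / 6) * ρ.La) with he
  have e0 : 0 < e := exp_pos _
  set M : ℝ := e / (CS * CT * ((z.k4 : ℝ) ^ 4 * L ^ 18)) with hM
  have m1 : a * M ≤ ∑ t ∈ TS, a / T * e / (CT * ((ρ.k4 : ℝ) ^ 4 * log ρ.w ^ 12)) := by
    rw [sum_const, nsmul_eq_mul]
    calc a * M = T / (CS * L ^ 6) * (a / T * e / (CT * ((z.k4 : ℝ) ^ 4 * L ^ 12))) := by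
          rw [hM]; field_simp
      _ ≤ _ := mul_le_mul_of_nonneg_right f3 (by positivity)
  have m2 := m1.trans (sum_le_sum f2)
  rw [sum_add_distrib, ← mul_sum, sum_comm] at m2
  have m3 : ∑ v ∈ Bx ρ.A ψ a, ∑ t ∈ TS, ind ((t : ℤ) ∣ a - ev ψ v) *
      ind (∃ p : ℕ, p.Prime ∧ ρ.y < p ∧ (p : ℤ) ^ 2 ∣ ev ψ v) ≤ CD * √y * (CQ * a / y) := by
    have b1 := (hB ψ hψ a a0).1
    calc _ ≤ ∑ v ∈ Bx ρ.A ψ a, CD * √y * ind (∃ p : ℕ, p.Prime ∧ y < p ∧ (p : ℤ) ^ 2 ∣ ev ψ v) := by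
          refine sum_le_sum fun v hv => ?_
          rw [← sum_mul]
          refine mul_le_mul_of_nonneg_right ?_ (ind_nonneg _)
          obtain ⟨v1, v2, -⟩ := b1 v hv
          refine (HL_div TS (by omega)).trans ((hD _).trans ?_)
          refine mul_le_mul_of_nonneg_left ?_ D0.le
          have v3 : (((a - ev ψ v).natAbs : ℕ) : ℝ) ≤ y ^ z.U := by
            refine le_trans ?_ d7
            have : (((a - ev ψ v).natAbs : ℕ) : ℤ) ≤ a := by omega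
            rw [← Int.cast_natCast]
            exact Int.cast_le.2 this
          refine (rpow_le_rpow (Nat.cast_nonneg _) v3 (by positivity)).trans_eq ?_
          rw [← rpow_natCast, ← rpow_mul y0.le, sqrt_eq_rpow]
          congr 1
          field_simp
      _ ≤ ∑ v ∈ An ψ 0 a, CD * √y * ind (∃ p : ℕ, p.Prime ∧ y < p ∧ (p : ℤ) ^ 2 ∣ ev ψ v) := by
          refine sum_le_sum_of_subset_of_nonneg (fun v hv => ?_) fun v _ _ =>
            mul_nonneg (by positivity) (ind_nonneg _)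
          obtain ⟨v1, v2, -⟩ := b1 v hv
          exact (mem_An A1 hF).2 ⟨by exact_mod_cast (by omega : 0 < ev ψ v),
            by exact_mod_cast (by omega : ev ψ v ≤ a)⟩
      _ ≤ _ := by
          rw [← mul_sum]
          exact mul_le_mul_of_nonneg_left (hQ ψ hψ a y a0'.le hy2) (by positivity)
  have s0' : 0 < √y := sqrt_pos.2 y0
  have m4 : CD * √y * (CQ * a / y) ≤ a * M / 2 := by
    have La0 : 0 ≤ ρ.La := sum_nonneg fun p _ => by positivity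
    have u1 : 1 ≤ e * (CL * log y) := by
      calc (1 : ℝ) ≤ exp (-(5 / 6) * ρ.La + ρ.La) := one_le_exp (by linarith)
        _ = e * exp ρ.La := exp_add _ _
        _ ≤ _ := mul_le_mul_of_nonneg_left g4.2.1 e0.le
    have u2 : 2 * (CD * CQ) * (CS * CT * ((z.k4 : ℝ) ^ 4 * L ^ 18)) ≤ e * √y := by
      calc _ = 2 * (CD * CQ) * (CS * CT * ((z.k4 : ℝ) ^ 4 * L ^ 18)) * 1 := by ring
        _ ≤ 2 * (CD * CQ) * (CS * CT * ((z.k4 : ℝ) ^ 4 * L ^ 18)) * (e * (CL * log y)) := by gcongr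
        _ = e * (2 * (CD * CQ) * (CS * CT * ((z.k4 : ℝ) ^ 4 * L ^ 18)) * CL * log y) := by ring
        _ ≤ _ := by gcongr
    have u3 : CD * √y * (CQ * a / y) = a * (CD * CQ / √y) := by
      conv_lhs => rw [← mul_self_sqrt y0.le]
      rw [sqrt_mul_self s0'.le]
      field_simp
    have u4 : CD * CQ / √y ≤ M / 2 := by
      rw [hM, div_div, div_le_div_iff₀ s0' (by positivity)]
      linarith
    rw [u3, mul_div_assoc (a : ℝ) M]
    exact mul_le_mul_of_nonneg_left u4 a0'.le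
  have m5 : M / 2 ≤ ∑ t ∈ TS, ρ.Hs P R a b D T t := le_of_mul_le_mul_left (by linarith) a0'
  refine le_trans ?_ (m5.trans (sum_le_sum_of_subset_of_nonneg ?_ fun t _ _ => HL_Hs ρ P R b a0 D T t))
  · rw [hM, div_div]
    refine div_le_div_of_nonneg_left e0.le (by positivity) ?_
    have : L ^ 18 ≤ L ^ 20 := pow_le_pow_right₀ L1' (by norm_num)
    calc _ = 2 * (CS * CT) * ((z.k4 : ℝ) ^ 4 * L ^ 18) := by ring
      _ ≤ 2 * (CS * CT) * ((z.k4 : ℝ) ^ 4 * L ^ 20) := by gcongr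
      _ = _ := rfl
  · classical
    exact filter_subset _ _

end Pool.Agent.P.MP_8be758_nt.Pd
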