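import Pool.Agent.P.MP_8be758_nt.Pd.IfT

/-! Step HO. -/

namespace Pool.Agent.P.MP_8be758_nt.Pd

open Finset Real Filter
open Pool.Agent.P.MP_8be758_nt.Par (det)
open Pool.Agent.P.MP_8be758_nt.Avg (rho)
open Pool.Agent.P.MP_e86632_nt (ee)

theorem HO_av {p : ℕ} (hp : 0 < p) {B : ℤ → Prop} (h : ∑ x ∈ bx p, ind (B x) ≤ 3) :
    1 ≤ S1.av p (fun x => 1 + 50 / (p : ℝ) * ind (B x)) ∧
      S1.av p (fun x => 1 + 50 / (p : ℝ) * ind (B x)) ≤ 1 + 150 * (1 / (p : ℝ) ^ 2) := by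
  have h0 : (0 : ℝ) < p := by exact_mod_cast hp
  have hc : ((S1.U p).card : ℝ) = p := by simp [S1, bx]
  have hn : (S1.U p).Nonempty := card_pos.1 (by exact_mod_cast hc ▸ h0)
  rw [S1.av_add, S1.av_const p hn, S1.av_mul]
  have h1 := S1.av_nonneg p fun x => ind_nonneg (B x)
  have h2 : S1.av p (fun x => ind (B x)) ≤ 3 / p := by
    rw [Sys.av, hc]
    exact div_le_div_of_nonneg_right h h0.le
  refine ⟨le_add_of_nonneg_right (by positivity), add_le_add le_rfl ?_⟩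
  calc _ ≤ 50 / (p : ℝ) * (3 / p) := by gcongr
    _ = _ := by ring

theorem HO_core {Ch : ℕ} {y : ℝ} {P : Finset ℕ} {B : ℕ → ℤ → Prop} {lo hi : ℤ}
    (hH : ∀ (P : Finset ℕ) (f : ℕ → ℤ → ℝ) (d : ℕ) (x0 : ℤ), 0 < d →
      (∀ p ∈ P, p.Prime ∧ (p : ℝ) ≤ y ∧ 4 * 50 ≤ p ∧ d.Coprime p ∧ S1.Per p (f p) ∧
        (∀ x, 0 ≤ f p x ∧ f p x ≤ 1 + ((50 : ℕ) : ℝ) / p) ∧
          1 - ((50 : ℕ) : ℝ) / p ≤ S1.av p (f p)) →
      d * y ^ Ch ≤ ((hi - lo : ℤ) : ℝ) →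
      ∑ x ∈ (Ioc lo hi).filter fun x => x ≡ x0 [ZMOD d], ∏ p ∈ P, f p x ≤
        3 * ((hi - lo : ℤ) : ℝ) / d * ∏ p ∈ P, S1.av p (f p))
    (hP : ∀ p ∈ P, p.Prime ∧ (p : ℝ) ≤ y ∧ 200 ≤ p) (hB : Few P B)
    (hs : ∑ p ∈ P, (1 : ℝ) / p ^ 2 ≤ 1 / 150) {d : ℕ} (hd : 0 < d) (x0 : ℤ) {L : ℝ}
    (h1 : d * y ^ Ch ≤ ((hi - lo : ℤ) : ℝ)) (h2 : ((hi - lo : ℤ) : ℝ) ≤ L) (h3 : 0 ≤ L) :
    ∑ x ∈ (Ioc lo hi).filter fun x => x ≡ x0 [ZMOD d], Ep P 50 B x ≤
      9 * L * (2 ^ d.primeFactors.card / d) := by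
  set Q := P.filter fun p => ¬p ∣ d
  have hQ : ∀ p ∈ Q, p ∈ P := fun p hp => (mem_filter.1 hp).1
  have k0 : ∀ p ∈ P, ∀ x, 0 ≤ 1 + 50 / (p : ℝ) * ind (B p x) ∧
      1 + 50 / (p : ℝ) * ind (B p x) ≤ 1 + 50 / p := fun p _ x =>
    ⟨by have := ind_nonneg (B p x); positivity,
      add_le_add le_rfl (mul_le_of_le_one_right (by positivity) (ind_le_one _))⟩
  have k1 := hH Q (fun p x => 1 + 50 / (p : ℝ) * ind (B p x)) d x0 hd (fun p hp => by
    obtain ⟨a, b, c⟩ := hP p (hQ p hp)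
    refine ⟨a, b, c, (a.coprime_iff_not_dvd.2 (mem_filter.1 hp).2).symm, fun x z e => ?_,
      by simpa using k0 p (hQ p hp), ?_⟩
    · simp only [(hB p (hQ p hp)).1 x z e]
    · exact le_trans (sub_le_self _ (by positivity)) (HO_av a.pos (hB p (hQ p hp)).2).1) h1
  have k2 : ∏ p ∈ Q, S1.av p (fun x => 1 + 50 / (p : ℝ) * ind (B p x)) ≤ 3 := by
    calc _ ≤ ∏ p ∈ Q, exp (150 * (1 / (p : ℝ) ^ 2)) := prod_le_prod
          (fun p hp => zero_le_one.trans (HO_av (hP p (hQ p hp)).1.pos (hB p (hQ p hp)).2).1)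
          fun p hp => (HO_av (hP p (hQ p hp)).1.pos (hB p (hQ p hp)).2).2.trans
            (by rw [add_comm]; exact add_one_le_exp _)
      _ ≤ exp 1 := by
          rw [← exp_sum, ← mul_sum, exp_le_exp]
          have := (sum_le_sum_of_subset_of_nonneg (f := fun p : ℕ => (1 : ℝ) / p ^ 2) hQ
            fun p _ _ => by positivity).trans hs
          linarith
      _ ≤ 3 := exp_one_lt_three.le
  have k3 : ∀ x, Ep P 50 B x ≤
      2 ^ d.primeFactors.card * ∏ p ∈ Q, (1 + 50 / (p : ℝ) * ind (B p x)) := fun x => by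
    rw [Ep, ← prod_filter_mul_prod_filter_not P (· ∣ d)]
    refine mul_le_mul_of_nonneg_right ?_ (prod_nonneg fun p hp => (k0 p (hQ p hp) x).1)
    calc _ ≤ ∏ p ∈ P.filter (· ∣ d), (2 : ℝ) :=
          prod_le_prod (fun p hp => (k0 p (mem_filter.1 hp).1 x).1) fun p hp => by
            have a : (200 : ℝ) ≤ p := by exact_mod_cast (hP p (mem_filter.1 hp).1).2.2
            have b : 50 / (p : ℝ) ≤ 1 := by rw [div_le_one (by linarith)]; linarith
            linarith [(k0 p (mem_filter.1 hp).1 x).2]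
      _ ≤ _ := by
          rw [prod_const]
          exact pow_le_pow_right₀ one_le_two (card_le_card fun p hp => Nat.mem_primeFactors.2
            ⟨(hP p (mem_filter.1 hp).1).1, (mem_filter.1 hp).2, hd.ne'⟩)
  refine (sum_le_sum fun x _ => k3 x).trans ?_
  rw [← mul_sum]
  have k4 : 0 ≤ ∏ p ∈ Q, S1.av p (fun x => 1 + 50 / (p : ℝ) * ind (B p x)) :=
    prod_nonneg fun p hp => S1.av_nonneg p fun x => (k0 p (hQ p hp) x).1
  calc _ ≤ 2 ^ d.primeFactors.card * (3 * L / d * 3) := by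
        refine mul_le_mul_of_nonneg_left (k1.trans ?_) (by positivity)
        gcongr
    _ = _ := by ring

theorem p_HO (hHU : S_HU) (hLAM : S_LAM) :
    S_HO := by
  intro C0 hC0
  obtain ⟨Ch, hH⟩ := hHU 50
  obtain ⟨c, hL⟩ := hLAM
  refine ⟨c + Ch + 200, fun A C1 => ⟨270 * C0, by linarith, fun z hA hC hz => ?_⟩⟩
  obtain ⟨C, -, hL⟩ := hL A C1
  filter_upwards [hL z hA hC (hz.mono (by omega)), eventually_ge_atTop 2] with y hl hy
  intro T δ p0 t0 B hT h1 hB h2 _ h4 h5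
  obtain ⟨-, -, -, -, w1, -, w2, w3, -⟩ := hz
  have w0 : (200 : ℝ) ≤ z.w := by exact_mod_cast (show 200 ≤ z.w by omega)
  have hP : ∀ p ∈ Pr.Ps ⟨z, y⟩, p.Prime ∧ (p : ℝ) ≤ y ∧ 200 ≤ p := fun p hp => by
    obtain ⟨a, b, c⟩ := (mem_PP (by linarith)).1 hp
    exact ⟨a, c, by exact_mod_cast w0.trans b.le⟩
  have y1 : 1 ≤ y := by linarith
  have t1 : y * y ^ Ch ≤ T := by
    refine (abs_le_of_sq_le_sq' ?_ hT.le).2
    rw [← pow_succ', ← pow_mul]
    exact (pow_le_pow_right₀ y1 (by nlinarith)).trans h1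
  have t2 : 1 ≤ T := (one_le_mul_of_one_le_of_one_le y1 (one_le_pow₀ y1)).trans t1
  have t3 : T ≤ C0 * T := le_mul_of_one_le_left hT.le hC0
  have t4 := Int.le_ceil (C0 * T)
  have t5 := Int.ceil_lt_add_one (C0 * T)
  have e : Icc (-⌈C0 * T⌉) ⌈C0 * T⌉ = Ioc (-⌈C0 * T⌉ - 1) ⌈C0 * T⌉ := by
    ext x; simp only [mem_Icc, mem_Ioc]; omega
  have core := fun (d : ℕ) (hd : 0 < d) (hd' : (d : ℝ) ≤ y) (x0 : ℤ) =>
    HO_core (Ch := Ch) (lo := -⌈C0 * T⌉ - 1) (hi := ⌈C0 * T⌉)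
      (fun P f d x0 => hH y P f d x0 _ _ hy) hP hB
      (hl.2.2.2.2.2.1.trans (one_div_le_one_div_of_le (by norm_num) (by linarith))) hd x0
      (L := 5 * (C0 * T)) (le_trans (by gcongr) (t1.trans (by push_cast; linarith)))
      (by push_cast; linarith) (by linarith)
  rw [e]
  rcases h5 with rfl | ⟨h5, rfl⟩
  · simp only [true_or, ind_pos trivial, one_mul, Nat.cast_one, mul_one]
    refine (core δ (Nat.pos_of_ne_zero h2.ne_zero) h4 t0).trans ?_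
    refine mul_le_mul_of_nonneg_right (by linarith) (by positivity)
  obtain ⟨a, b, -⟩ := hP p0 h5
  have a0 : (0 : ℤ) < p0 := by exact_mod_cast a.pos
  rw [filter_true_of_mem fun x _ => by simpa using Int.modEq_one,
    ← sum_fiberwise_of_maps_to (t := bx p0) (g := fun x : ℤ => x % p0) fun x _ =>
      mem_Ico.2 ⟨Int.emod_nonneg _ a0.ne', Int.emod_lt_of_pos _ a0⟩]
  calc _ ≤ ∑ r ∈ bx p0, ind (B p0 r) * (9 * (5 * (C0 * T)) * (2 / p0)) := by
        refine sum_le_sum fun r hr => ?_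
        have k := core p0 a.pos b r
        rw [a.primeFactors, card_singleton, pow_one] at k
        refine le_trans (le_of_eq ?_) (mul_le_mul_of_nonneg_left k (ind_nonneg _))
        have r0 := Int.emod_eq_of_lt (mem_Ico.1 hr).1 (mem_Ico.1 hr).2
        rw [mul_sum]
        refine sum_congr (filter_congr fun x _ => by rw [Int.ModEq, r0]) fun x hx => ?_
        simp only [a.ne_one, false_or, (hB p0 h5).1 x r (mem_filter.1 hx).2]
    _ ≤ 3 * (9 * (5 * (C0 * T)) * (2 / p0)) := by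
        rw [← sum_mul]
        exact mul_le_mul_of_nonneg_right (hB p0 h5).2 (by positivity)
    _ = _ := by simp; ring

end Pool.Agent.P.MP_8be758_nt.Pd
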