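import Pool.Agent.P.MP_8be758_nt.Pd.IfT

/-! Step K4. -/

namespace Pool.Agent.P.MP_8be758_nt.Pd

open Finset Real Filter
open Pool.Agent.P.MP_8be758_nt.Par (det)
open Pool.Agent.P.MP_8be758_nt.Avg (rho)
open Pool.Agent.P.MP_e86632_nt (ee)

lemma K4_t (x : VT) {c : ℤ} (h0 : 0 < x.af) (h : x.Bt = x.af * c) : x.Nt = c := by
  rw [VT.Nt, h, Int.mul_ediv_cancel_left _ h0.ne']

lemma K4_s (x : VT) {c : ℤ} (h0 : 0 < x.af) (h : x.As = x.af * c) : x.Ns = c := by
  rw [VT.Ns, h, Int.mul_ediv_cancel_left _ h0.ne']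

theorem p_K4 :
    S_K4 := by
  intro A x hA ⟨hd, hP, hR, ha, hf, hdv, hc⟩
  have hA' : (1 : ℤ) ≤ A := by exact_mod_cast hA
  have h1 : x.af ∣ x.t * (x.b + x.t * x.P + x.s * x.R) := by
    have : x.t * (x.b + x.t * x.P + x.s * x.R) = x.Bt - x.af * x.R := by
      unfold VT.Bt VT.af; ring
    rw [this]
    exact dvd_sub hdv (dvd_mul_right _ _)
  obtain ⟨y, hy⟩ := hc.symm.dvd_of_dvd_mul_left h1
  have hb : x.b = (x.a - x.s * x.t) * y - x.t * x.P - x.s * x.R := by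
    unfold VT.af at hy; linarith
  have eB : x.Bt = x.af * (x.t * y + x.R) := by unfold VT.Bt VT.af; rw [hb]; ring
  have eA : x.As = x.af * (x.s * y + x.P) := by unfold VT.As VT.af; rw [hb]; ring
  have hNt := K4_t x hf eB
  have hNs := K4_s x hf eA
  have pB : 0 < x.Bt := by
    have : 4 * x.P * x.Bt = (2 * x.P * x.t + x.b) ^ 2 + (4 * A - 1) := by
      unfold VT.Bt; linear_combination -hd
    have h2 : 0 < 4 * x.P * x.Bt := by rw [this]; have := sq_nonneg (2 * x.P * x.t + x.b); linarith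
    exact (mul_pos_iff_of_pos_left (by linarith)).1 h2
  have pA : 0 < x.As := by
    have : 4 * x.R * x.As = (2 * x.R * x.s + x.b) ^ 2 + (4 * A - 1) := by
      unfold VT.As; linear_combination -hd
    have h2 : 0 < 4 * x.R * x.As := by rw [this]; have := sq_nonneg (2 * x.R * x.s + x.b); linarith
    exact (mul_pos_iff_of_pos_left (by linarith)).1 h2
  have pt : 0 < x.Nt := by rw [eB, ← hNt] at pB; exact (mul_pos_iff_of_pos_left hf).1 pB
  have ps : 0 < x.Ns := by rw [eA, ← hNs] at pA; exact (mul_pos_iff_of_pos_left hf).1 pA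
  have hodd : x.b = 2 * x.n + 1 := by
    have h2 : Odd (x.b ^ 2) := ⟨2 * x.P * (x.a * x.R) - 2 * A, by linear_combination hd⟩
    obtain ⟨k, hk⟩ := (Int.odd_pow' (by norm_num)).1 h2
    unfold VT.n
    omega
  have f1 : x.v1.af = x.af := by simp only [VT.af, VT.v1]; ring
  have f2 : x.v2.af = x.a := by simp only [VT.af, VT.v2]; ring
  have f3 : x.v3.af = x.a := by simp only [VT.af, VT.v3]; ring
  have B1 : x.v1.Bt = x.v1.af * x.R := by
    rw [f1]; simp only [VT.Bt, VT.v1, hNt, hNs, VT.af]; rw [hb]; ring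
  have A1 : x.v1.As = x.v1.af * x.P := by
    rw [f1]; simp only [VT.As, VT.v1, hNt, hNs, VT.af]; rw [hb]; ring
  have B2 : x.v2.Bt = x.v2.af * x.Nt := by
    rw [f2]; simp only [VT.Bt, VT.v2, hNt, hNs, VT.af]; rw [hb]; ring
  have A2 : x.v2.As = x.v2.af * x.P := by
    rw [f2]; simp only [VT.As, VT.v2, hNs, VT.af]; rw [hb]; ring
  have B3 : x.v3.Bt = x.v3.af * x.R := by
    rw [f3]; simp only [VT.Bt, VT.v3, hNt, VT.af]; rw [hb]; ring
  have A3 : x.v3.As = x.v3.af * x.Ns := by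
    rw [f3]; simp only [VT.As, VT.v3, hNt, hNs, VT.af]; rw [hb]; ring
  have t1 := K4_t _ (f1 ▸ hf) B1
  have s1 := K4_s _ (f1 ▸ hf) A1
  have t2 := K4_t _ (f2 ▸ ha) B2
  have s2 := K4_s _ (f2 ▸ ha) A2
  have t3 := K4_t _ (f3 ▸ ha) B3
  have s3 := K4_s _ (f3 ▸ ha) A3
  have hca : IsCoprime x.t x.a := by
    have := hc.add_mul_right_right x.s
    unfold VT.af at this
    rwa [sub_add_cancel] at this
  refine ⟨by rw [hNt, eB], by rw [hNs, eA], pt, ps, hodd, ?_, fun i => ?_, ⟨f1, t1, s1⟩,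
    ⟨f2, t2, s2⟩, ⟨f3, t3, s3⟩, ?_, ?_, ?_⟩
  · rw [hodd] at hd
    linarith
  · fin_cases i
    · refine ⟨?_, ps, pt, ha, f1 ▸ hf, Dvd.intro _ B1.symm, ?_⟩
      · rw [← hd]
        change (x.b + 2 * x.s * x.R + 2 * x.t * x.Ns) ^ 2 - 4 * x.Ns * (x.a * x.Nt) = _
        rw [hNt, hNs, hb]; ring
      · change IsCoprime (-x.t) x.v1.af
        rw [f1]; exact hc.neg_left
    · refine ⟨?_, ps, hR, hf, f2 ▸ ha, Dvd.intro _ B2.symm, ?_⟩
      · rw [← hd]
        change (x.b + 2 * x.s * x.R) ^ 2 - 4 * x.Ns * ((x.a - x.s * x.t) * x.R) = _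
        rw [hNs, hb]; ring
      · change IsCoprime x.t x.v2.af
        rw [f2]; exact hca
    · refine ⟨?_, hP, pt, hf, f3 ▸ ha, Dvd.intro _ B3.symm, ?_⟩
      · rw [← hd]
        change (x.b + 2 * x.t * x.P) ^ 2 - 4 * x.P * ((x.a - x.s * x.t) * x.Nt) = _
        rw [hNt, hb]; ring
      · change IsCoprime (-x.t) x.v3.af
        rw [f3]; exact hca.neg_left
  · rw [VT.v1, t1, s1]
    obtain ⟨P, R, a, b, s, t⟩ := x
    simp only [VT.v1, hNt, hNs, neg_neg, VT.mk.injEq, true_and, and_true]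
    ring
  · rw [VT.v2, f2, s2]
    obtain ⟨P, R, a, b, s, t⟩ := x
    simp only [VT.v2, neg_neg, VT.mk.injEq, true_and, and_true]
    ring
  · rw [VT.v3, f3, t3]
    obtain ⟨P, R, a, b, s, t⟩ := x
    simp only [VT.v3, neg_neg, VT.mk.injEq, true_and, and_true]
    ring

end Pool.Agent.P.MP_8be758_nt.Pd
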