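import Pool.Agent.P.MP_8be758_nt.Pd.IfT

/-! Step KST. -/

namespace Pool.Agent.P.MP_8be758_nt.Pd

open Finset Real Filter
open Pool.Agent.P.MP_8be758_nt.Par (det)
open Pool.Agent.P.MP_8be758_nt.Avg (rho)
open Pool.Agent.P.MP_e86632_nt (ee)

theorem KST_int {s : Finset ℤ} {L : ℝ} (hL : 1 ≤ L) (h : ∀ x ∈ s, |(x : ℝ)| ≤ L)
    (cv : ∀ a ∈ s, ∀ b ∈ s, ∀ x, a ≤ x → x ≤ b → x ∈ s) :
    ∃ a b : ℤ, a ≤ b ∧ s = Ioc a b ∧ ((b - a : ℤ) : ℝ) ≤ 3 * L := by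
  rcases s.eq_empty_or_nonempty with rfl | e
  · exact ⟨0, 0, le_rfl, by simp, by simp; linarith⟩
  have a := abs_le.1 (h _ (s.min'_mem e))
  have b := abs_le.1 (h _ (s.max'_mem e))
  have c := s.min'_le_max' e
  refine ⟨s.min' e - 1, s.max' e, by omega, Finset.ext fun x => ?_, by push_cast; linarith⟩
  rw [mem_Ioc, Int.sub_one_lt_iff]
  exact ⟨fun hx => ⟨s.min'_le x hx, s.le_max' x hx⟩, fun hx =>
    cv _ (s.min'_mem e) _ (s.max'_mem e) x hx.1 hx.2⟩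

theorem KST_sum (N : ℕ) :
    ∑ y ∈ Icc (-N : ℤ) N, |(y : ℝ)| ^ (-1 / 5 : ℝ) ≤ 3 * (N : ℝ) ^ (4 / 5 : ℝ) := by
  induction N with
  | zero => simp
  | succ n ih =>
    have p : (0 : ℝ) < n + 1 := by positivity
    have h := rpow_one_add_le_one_add_mul_self (s := -1 / (n + 1)) (p := 4 / 5)
      (by rw [le_div_iff₀ p]; linarith [n.cast_nonneg (α := ℝ)]) (by norm_num) (by norm_num)
    rw [show 1 + -1 / ((n : ℝ) + 1) = n / (n + 1) by field_simp; ring,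
      Real.div_rpow n.cast_nonneg p.le, div_le_iff₀ (by positivity)] at h
    have e : ((n : ℝ) + 1) ^ (4 / 5 : ℝ) = (n + 1) * ((n : ℝ) + 1) ^ (-1 / 5 : ℝ) := by
      rw [mul_comm, ← Real.rpow_add_one p.ne']; norm_num
    have e2 : -1 / ((n : ℝ) + 1) * (n + 1) = -1 := by field_simp
    rw [show Icc (-(n + 1 : ℕ) : ℤ) (n + 1 : ℕ) = insert (-(n + 1 : ℤ)) (insert (n + 1 : ℤ)
      (Icc (-n : ℤ) n)) by ext; simp; omega, sum_insert (by simp; omega), sum_insert (by simp)]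
    push_cast
    rw [abs_neg, abs_of_pos p]
    rw [e] at h ⊢
    have : 0 ≤ ((n : ℝ) + 1) ^ (-1 / 5 : ℝ) := by positivity
    nlinarith [congrArg (· * ((n : ℝ) + 1) ^ (-1 / 5 : ℝ)) e2]

/-- left end of the window -/
noncomputable def KST_l (β1 β2 : ℝ) (y : ℤ) : ℝ := (β1 + β2) * y / 4 - (β2 - β1) * |(y : ℝ)| / 4

/-- right end of the window -/
noncomputable def KST_r (β1 β2 : ℝ) (y : ℤ) : ℝ := (β1 + β2) * y / 4 + (β2 - β1) * |(y : ℝ)| / 4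

/-- the window -/
def KST_w (ψ : Fm) (β1 β2 : ℝ) (v : V2) (z : ℤ) : Prop :=
  β1 * ev ψ v < (2 * ev ψ v * z - (2 * ψ.1 * v.1 + ψ.2.1 * v.2) : ℤ) / v.2 ∧
    (2 * ev ψ v * z - (2 * ψ.1 * v.1 + ψ.2.1 * v.2) : ℤ) / (v.2 : ℝ) ≤ β2 * ev ψ v

open Classical in
/-- the integers in the window -/
noncomputable def KST_J (ψ : Fm) (β1 β2 : ℝ) (v : V2) : Finset ℤ :=
  (Icc ⌈KST_l β1 β2 v.2 - 3⌉ ⌊KST_r β1 β2 v.2 + 3⌋).filter (KST_w ψ β1 β2 v)

variable {A M : ℕ} {ψ : Fm} {β1 β2 : ℝ} {v : V2}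

theorem KST_win (hA : 1 ≤ A) (h : IsF A ψ) (hy : v.2 ≠ 0) (hP : ψ.1 < ev ψ v) (z : ℤ) :
    (KST_l β1 β2 v.2 + 3 ≤ z ∧ (z : ℝ) ≤ KST_r β1 β2 v.2 - 3 → z ∈ KST_J ψ β1 β2 v) ∧
    (z ∈ KST_J ψ β1 β2 v → KST_l β1 β2 v.2 - 3 ≤ z ∧ (z : ℝ) ≤ KST_r β1 β2 v.2 + 3) ∧
    (z ∈ KST_J ψ β1 β2 v ↔ KST_w ψ β1 β2 v z) := by
  have h1 : (1 : ℤ) ≤ A := by exact_mod_cast hA
  have p : (0 : ℝ) < ev ψ v := by exact_mod_cast h.2.trans hP
  have y0 : (v.2 : ℝ) ≠ 0 := by exact_mod_cast hy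
  have u : |((2 * ψ.1 * v.1 + ψ.2.1 * v.2 : ℤ) : ℝ)| ≤ 2 * ev ψ v := by
    have := four_mul_ev ψ v
    rw [h.1] at this
    exact_mod_cast abs_le_of_sq_le_sq (b := 2 * ev ψ v)
      (by nlinarith [h.2, mul_nonneg (sub_nonneg.2 h1) (sq_nonneg v.2), sq_nonneg v.2])
      (by linarith [h.2])
  simp only [KST_J, KST_w, mem_filter, mem_Icc, Int.ceil_le, Int.le_floor, Int.cast_sub,
    Int.cast_mul (2 * ev ψ v), Int.cast_mul 2 (ev ψ v), Int.cast_ofNat, KST_l, KST_r]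
  generalize ((2 * ψ.1 * v.1 + ψ.2.1 * v.2 : ℤ) : ℝ) = w at *
  generalize (ev ψ v : ℝ) = P at *
  generalize (v.2 : ℝ) = y at *
  obtain ⟨t, ht⟩ : ∃ t, (2 * P * z - w) / y = t * P := ⟨_, (div_mul_cancel₀ _ p.ne').symm⟩
  obtain ⟨e, rfl⟩ : ∃ e, w = e * P := ⟨_, (div_mul_cancel₀ _ p.ne').symm⟩
  rw [abs_mul, abs_of_pos p, mul_le_mul_iff_left₀ p, abs_le] at u
  rw [ht, mul_lt_mul_iff_left₀ p, mul_le_mul_iff_left₀ p]
  rw [div_eq_iff y0] at ht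
  have k : 2 * z - e = t * y := mul_right_cancel₀ p.ne' (by linarith)
  clear ht
  rcases y0.lt_or_gt with c | c <;> [rw [abs_of_neg c]; rw [abs_of_pos c]] <;>
    exact ⟨fun a => ⟨⟨by linarith, by linarith⟩, by nlinarith, by nlinarith⟩, And.left, And.right,
      fun a => ⟨⟨by nlinarith, by nlinarith⟩, a⟩⟩

theorem KST_y (hP : ψ.1 < ev ψ v) (h : IsCoprime v.1 v.2) : v.2 ≠ 0 := fun e => by
  rw [e, isCoprime_zero_right, Int.isUnit_iff] at h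
  rcases h with h | h <;> simp [ev, e, h] at hP

theorem KST_fib (hA : 1 ≤ A) (h : IsF A ψ) {Z : ℝ} (hy : v.2 ≠ 0) (hP : ψ.1 < ev ψ v)
    (h1 : Z < ev ψ v) (h2 : (ev ψ v : ℝ) ≤ 2 * Z) (hc : C2 M v (1, 0)) :
    #{g ∈ (GG ψ Z β1 β2).filter fun g => C4 M g ((1, 0), (0, 1)) | g.1 = v} =
      #{z ∈ KST_J ψ β1 β2 v | v.1 * z ≡ 1 [ZMOD (v.2.natAbs * M : ℕ)]} := by
  have y0 : (v.2 : ℝ) ≠ 0 := by exact_mod_cast hy
  have key : ∀ w : V2, det v w = 1 → (bl ψ v w : ℝ) =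
      (2 * ev ψ v * w.2 - (2 * ψ.1 * v.1 + ψ.2.1 * v.2) : ℤ) / v.2 := fun w e => by
    rw [eq_div_iff y0, ← Int.cast_mul]
    simp only [bl, ev, det] at e ⊢
    congr 1
    linear_combination (-(2 * ψ.1 * v.1 + ψ.2.1 * v.2)) * e
  have md : ∀ z, v.1 * z ≡ 1 [ZMOD (v.2.natAbs * M : ℕ)] ↔ v.2 * M ∣ v.1 * z - 1 := fun z => by
    rw [Int.modEq_comm, Int.modEq_iff_dvd, ← Int.natAbs_dvd, ← Int.natAbs_dvd (a := v.2 * M)]
    simp [Int.natAbs_mul]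
  refine card_nbij' (·.2.2) (fun z => (v, (v.1 * z - 1) / v.2, z)) (fun g hg => ?_)
    (fun z hz => ?_) (fun g hg => ?_) fun _ _ => rfl <;>
    simp only [coe_filter, Set.mem_ofPred_eq, mem_filter, mem_GG hA h, (KST_win hA h hy hP _).2.2,
      md, KST_w] at *
  · obtain ⟨⟨⟨a, -, -, b⟩, -, c, -⟩, rfl⟩ := hg
    refine ⟨key _ a ▸ b, ?_⟩
    rw [show g.1.1 * g.2.2 - 1 = g.1.2 * g.2.1 by unfold det at a; linear_combination a]
    exact mul_dvd_mul_left _ (Int.modEq_zero_iff_dvd.1 c)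
  · obtain ⟨a, k, b⟩ := hz
    have e : (v.1 * z - 1) / v.2 = M * k := by rw [b, mul_assoc, Int.mul_ediv_cancel_left _ hy]
    have d : det v (M * k, z) = 1 := by simp only [det]; linear_combination b
    rw [e]
    refine ⟨⟨⟨d, h1, h2, (key _ d).symm ▸ a⟩, hc, Int.modEq_zero_iff_dvd.2 ⟨k, rfl⟩, ?_⟩, trivial⟩
    simpa using (hc.1.mul_right z).symm.trans
      (Int.modEq_iff_dvd.2 ⟨-(v.2 * k), by linear_combination -b⟩ : v.1 * z ≡ 1 [ZMOD M])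
  · obtain ⟨⟨⟨a, -⟩, -⟩, rfl⟩ := hg
    rw [show g.1.1 * g.2.2 - 1 = g.1.2 * g.2.1 by unfold det at a; linear_combination a,
      Int.mul_ediv_cancel_left _ hy]

theorem KST_mono (h : 0 < ψ.1) (a b y : ℤ) (e : a ≤ b) :
    (0 ≤ 2 * ψ.1 * a + ψ.2.1 * y → ev ψ (a, y) ≤ ev ψ (b, y)) ∧
    (2 * ψ.1 * b + ψ.2.1 * y ≤ 0 → ev ψ (b, y) ≤ ev ψ (a, y)) := by
  have := mul_nonneg h.le (sq_nonneg (b - a))
  simp only [ev]
  exact ⟨fun c => by nlinarith [mul_nonneg c (sub_nonneg.2 e)], fun c => by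
    nlinarith [mul_nonneg (neg_nonneg.2 c) (sub_nonneg.2 e)]⟩

theorem KST_err {y M L d : ℝ} (y1 : 1 ≤ y) (M1 : 1 ≤ M) (hy : y ≤ L) (hd : d ≤ 3 * L) :
    (d / (y * M) + 1) * (y * M) ^ (4 / 5 : ℝ) ≤ 3 * L * y ^ (-1 / 5 : ℝ) + M * L ^ (4 / 5 : ℝ) := by
  have q0 : 0 < y * M := by positivity
  rw [add_mul, one_mul, div_mul_eq_mul_div, mul_div_assoc, ← Real.rpow_sub_one q0.ne']
  refine add_le_add (mul_le_mul hd ((Real.rpow_le_rpow_of_nonpos (x := y) (by linarith)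
    (by nlinarith) (by norm_num)).trans_eq (by norm_num)) (by positivity) (by linarith)) ?_
  rw [Real.mul_rpow (by linarith) (by linarith), mul_comm]
  gcongr
  exact Real.rpow_le_self_of_one_le M1 (by norm_num)

theorem p_KST (hKROW : S_KROW) :
    S_KST := by
  classical
  obtain ⟨C, hC, H0⟩ := hKROW
  refine ⟨96 * C, by positivity, fun A M ψ H Z β1 β2 hA h hM ha hc hZ b1 b2 => ?_⟩
  have H1 : 1 ≤ H := le_trans (by exact_mod_cast h.2) ha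
  have M1 : (1 : ℝ) ≤ M := by exact_mod_cast hM
  set L := 2 * √(H * Z) with hL
  have L1 : 1 ≤ L := by
    have := Real.one_le_sqrt.2 (one_le_mul_of_one_le_of_one_le H1 (H1.trans hZ))
    linarith
  have L2 : L ^ 2 = 4 * (H * Z) := by rw [mul_pow, Real.sq_sqrt (by nlinarith)]; norm_num
  set I := Icc (-⌊L⌋₊ : ℤ) ⌊L⌋₊
  have hI : ∀ x : ℤ, x ∈ I ↔ |(x : ℝ)| ≤ L := fun x => by
    rw [mem_Icc, ← abs_le, ← Int.natCast_natAbs, Nat.cast_le, Nat.le_floor_iff (by linarith),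
      Nat.cast_natAbs, Int.cast_abs]
  have lt : ∀ v, Z < (ev ψ v : ℝ) → ψ.1 < ev ψ v := fun v e => by
    exact_mod_cast (ha.trans hZ).trans_lt e
  have mI : ∀ v, (ev ψ v : ℝ) ≤ 2 * Z → v ∈ I ×ˢ I := fun v e => by
    obtain ⟨a, b⟩ := h.sq_le hA v
    have p : (0 : ℝ) ≤ ev ψ v := by exact_mod_cast h.ev_nonneg hA v
    have a' : (3 * v.1 ^ 2 : ℝ) ≤ 4 * ψ.2.2 * ev ψ v := by exact_mod_cast a
    have b' : (3 * v.2 ^ 2 : ℝ) ≤ 4 * ψ.1 * ev ψ v := by exact_mod_cast b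
    have := mul_le_mul hc e p (by linarith)
    have := mul_le_mul ha e p (by linarith)
    rw [mem_product, hI, hI]
    constructor <;> refine abs_le_of_sq_le_sq ?_ (by linarith) <;> nlinarith
  let p : V2 → Prop := fun v => (Z < ev ψ v ∧ (ev ψ v : ℝ) ≤ 2 * Z) ∧ v.2 ≠ 0 ∧ C2 M v (1, 0)
  let F : V2 → ℝ := fun v =>
    #{z ∈ KST_J ψ β1 β2 v | v.1 * z ≡ 1 [ZMOD (v.2.natAbs * M : ℕ)]} -
      (β2 - β1) / (2 * M) * if Int.gcd v.1 (v.2.natAbs * M : ℕ) = 1 then 1 else 0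
  have row : ∀ y ∈ I, ∀ (r : ℤ → Prop) [DecidablePred r], (∀ a b x, a ≤ x → x ≤ b → r a → r b → r x ∧
      (ev ψ (a, y) ≤ ev ψ (x, y) ∧ ev ψ (x, y) ≤ ev ψ (b, y) ∨
        ev ψ (b, y) ≤ ev ψ (x, y) ∧ ev ψ (x, y) ≤ ev ψ (a, y))) →
      |∑ x ∈ (I.filter fun x => p (x, y)).filter r, F (x, y)| ≤
        C * (1 + β2) * (3 * L * |(y : ℝ)| ^ (-1 / 5 : ℝ) + M * L ^ (4 / 5 : ℝ)) := by
    intro y hy r _ hr
    by_cases e : y ≠ 0 ∧ y ≡ 0 [ZMOD M]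
    swap
    · rw [sum_eq_zero fun x hx => absurd ⟨(mem_filter.1 (mem_filter.1 hx).1).2.2.1,
        (mem_filter.1 (mem_filter.1 hx).1).2.2.2.2⟩ e, abs_zero]
      have : 0 ≤ β2 := b1.trans b2
      positivity
    obtain ⟨a, b, ab, hs, hl⟩ := KST_int (s := {x ∈ I | (Z < ev ψ (x, y) ∧
        (ev ψ (x, y) : ℝ) ≤ 2 * Z) ∧ r x}) L1 (fun x hx => (hI x).1 (mem_filter.1 hx).1) <| by
      simp only [mem_filter, I, mem_Icc]
      rintro a ⟨a1, a2, a3⟩ b ⟨b1, b2, b3⟩ x ax xb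
      obtain ⟨c, d⟩ := hr a b x ax xb a3 b3
      refine ⟨by omega, ?_, c⟩
      rcases d with ⟨d, d'⟩ | ⟨d, d'⟩ <;> rw [← Int.cast_le (R := ℝ)] at d d' <;>
        constructor <;> linarith
    have y1 : (1 : ℝ) ≤ |(y : ℝ)| := by exact_mod_cast Int.one_le_abs e.1
    have hq : ((y.natAbs * M : ℕ) : ℝ) = |(y : ℝ)| * M := by simp [Nat.cast_natAbs]
    have hd : (KST_r β1 β2 y - KST_l β1 β2 y) / (y.natAbs * M : ℕ) = (β2 - β1) / (2 * M) := by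
      rw [hq, KST_r, KST_l]; field_simp; ring
    have := H0 (y.natAbs * M) M a b (KST_l β1 β2 y) (KST_r β1 β2 y)
      (fun x => KST_J ψ β1 β2 (x, y)) (by have := e.1; positivity) (dvd_mul_left _ _) ab
      (by rw [KST_l, KST_r]; nlinarith) fun x hx z =>
        have := KST_win (β1 := β1) (β2 := β2) (v := (x, y)) hA h e.1
          (lt _ (mem_filter.1 (hs ▸ hx)).2.1.1) z
        ⟨this.1, this.2.1⟩
    rw [hd, ← filter_filter, filter_comm, card_filter, Nat.cast_sum, mul_sum,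
      ← sum_sub_distrib, ← hs] at this
    refine le_trans (le_of_eq ?_) (this.trans ?_)
    · simp only [F, Nat.cast_ite, Nat.cast_one, Nat.cast_zero, filter_filter, p, C2]
      exact congrArg _ (sum_congr (filter_congr fun x _ => by tauto) fun _ _ => rfl)
    rw [hq, mul_right_comm C, mul_assoc]
    have : (β2 - β1) / (2 * M) ≤ β2 := by rw [div_le_iff₀ (by positivity)]; nlinarith
    refine mul_le_mul (mul_le_mul_of_nonneg_left (by linarith) hC.le) (KST_err y1 M1 ((hI y).1 hy)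
      hl) ?_ (mul_nonneg hC.le (by linarith))
    have : (0 : ℝ) ≤ (b - a : ℤ) := by exact_mod_cast sub_nonneg.2 ab
    positivity
  have e1 : (#((GG ψ Z β1 β2).filter fun g => C4 M g ((1, 0), (0, 1))) : ℝ) - (β2 - β1) / (2 * M) *
      #((VV ψ Z (2 * Z)).filter fun v => C2 M v (1, 0)) = ∑ v ∈ (I ×ˢ I).filter p, F v := by
    rw [sum_sub_distrib, ← mul_sum, sum_boole, ← Nat.cast_sum, card_eq_sum_card_fiberwise
      (f := Prod.fst) (t := (I ×ˢ I).filter p) fun g hg => ?_,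
      sum_congr rfl fun v hv => ?_]
    · congr 4
      ext v
      simp only [mem_filter, mem_VV hA h, p, ← Int.isCoprime_iff_gcd_eq_one, Nat.cast_mul,
        IsCoprime.mul_right_iff, Nat.cast_natAbs, Int.cast_id, IsCoprime.abs_right_iff]
      refine ⟨fun ⟨⟨a, b⟩, c⟩ => ⟨⟨mI v b.2, b, KST_y (lt v b.1) a, c⟩, a, ?_⟩, by tauto⟩
      obtain ⟨k, hk⟩ := c.1.dvd
      exact ⟨1, k, by linear_combination -hk⟩
    · obtain ⟨-, a, b, c⟩ := mem_filter.1 hv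
      exact KST_fib hA h b (lt v a.1) a.1 a.2 c
    · obtain ⟨a, b⟩ := mem_filter.1 hg
      obtain ⟨a, c, d, -⟩ := (mem_GG hA h).1 a
      exact mem_filter.2 ⟨mI _ d, ⟨c, d⟩, KST_y (lt _ c)
        ⟨g.2.2, -g.2.1, by unfold det at a; linear_combination a⟩, b.1⟩
  rw [e1, sum_filter, sum_product_right]
  refine (abs_sum_le_sum_abs _ _).trans ((sum_le_sum (g := fun y : ℤ => 2 * (C * (1 + β2) *
    (3 * L * |(y : ℝ)| ^ (-1 / 5 : ℝ) + M * L ^ (4 / 5 : ℝ)))) fun y hy => ?_).trans ?_)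
  · rw [← sum_filter, ← sum_filter_add_sum_filter_not _ fun x => 0 < 2 * ψ.1 * x + ψ.2.1 * y,
      two_mul (C * _ * _)]
    refine (abs_add_le _ _).trans (add_le_add (row y hy _ ?_) (row y hy _ ?_)) <;>
      intro a b x ax xb ra rb <;>
      have a1 := mul_le_mul_of_nonneg_left ax h.2.le <;>
      have a2 := mul_le_mul_of_nonneg_left xb h.2.le
    · exact ⟨by linarith, .inl ⟨(KST_mono h.2 _ _ y ax).1 ra.le,
        (KST_mono h.2 _ _ y xb).1 (by linarith)⟩⟩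
    · exact ⟨by linarith, .inr ⟨(KST_mono h.2 _ _ y xb).2 (by linarith),
        (KST_mono h.2 _ _ y ax).2 (by linarith)⟩⟩
  have f := Nat.floor_le (zero_le_one.trans L1)
  have s1 := (KST_sum ⌊L⌋₊).trans (mul_le_mul_of_nonneg_left
    (Real.rpow_le_rpow (Nat.cast_nonneg _) f (by norm_num : (0 : ℝ) ≤ 4 / 5)) zero_le_three)
  have s2 : (#I : ℝ) ≤ 3 * L := by
    rw [Int.card_Icc, show (⌊L⌋₊ + 1 - -⌊L⌋₊ : ℤ) = (2 * ⌊L⌋₊ + 1 : ℕ) by push_cast; ring,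
      Int.toNat_natCast]
    push_cast
    linarith
  have s3 : L * L ^ (4 / 5 : ℝ) ≤ 4 * (H * Z) ^ (9 / 10 : ℝ) := by
    rw [mul_comm, ← Real.rpow_add_one (by linarith), show (4 / 5 + 1 : ℝ) = 2 * (9 / 10) by norm_num,
      Real.rpow_mul (by linarith), Real.rpow_two, L2, Real.mul_rpow (by norm_num) (by nlinarith)]
    exact mul_le_mul_of_nonneg_right (Real.rpow_le_self_of_one_le (by norm_num) (by norm_num))
      (Real.rpow_nonneg (by nlinarith) _)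
  rw [← mul_sum, ← mul_sum, sum_add_distrib, ← mul_sum, sum_const, nsmul_eq_mul]
  have : 0 ≤ β2 := b1.trans b2
  have s4 : 0 ≤ L * L ^ (4 / 5 : ℝ) := by positivity
  calc _ ≤ 2 * (C * (1 + β2) * (3 * L * (3 * L ^ (4 / 5 : ℝ)) + 3 * L * (M * L ^ (4 / 5 : ℝ)))) := by
        gcongr
    _ ≤ 2 * (C * (1 + β2) * (12 * M * (4 * (H * Z) ^ (9 / 10 : ℝ)))) := by
        gcongr
        nlinarith
    _ = _ := by ring

end Pool.Agent.P.MP_8be758_nt.Pd
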