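import Pool.Agent.P.MP_8be758_nt.Pd.IfT

/-! Step L1. -/

namespace Pool.Agent.P.MP_8be758_nt.Pd

open Finset Real Filter
open Pool.Agent.P.MP_8be758_nt.Par (det)
open Pool.Agent.P.MP_8be758_nt.Avg (rho)
open Pool.Agent.P.MP_e86632_nt (ee)

theorem L1_card (p : ℕ) [NeZero p] (P : ZMod p → Prop) [DecidablePred P] :
    ((range p).filter fun n : ℕ => P n).card = (univ.filter P).card := by
  refine card_bij (fun n _ => (n : ZMod p)) ?_ ?_ ?_
  · intro a ha
    exact mem_filter.2 ⟨mem_univ _, (mem_filter.1 ha).2⟩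
  · intro a ha b hb e
    have h := (ZMod.natCast_eq_natCast_iff' a b p).1 e
    rwa [Nat.mod_eq_of_lt (mem_range.1 (mem_filter.1 ha).1),
      Nat.mod_eq_of_lt (mem_range.1 (mem_filter.1 hb).1)] at h
  · intro b hb
    refine ⟨b.val, mem_filter.2 ⟨mem_range.2 (ZMod.val_lt b), ?_⟩, ZMod.natCast_zmod_val b⟩
    rw [ZMod.natCast_zmod_val]
    exact (mem_filter.1 hb).2

theorem L1_quad {F : Type} [Field F] [Fintype F] [DecidableEq F] (h2 : (2 : F) ≠ 0) {a : F}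
    (b c : F) (ha : a ≠ 0) :
    (univ.filter fun x : F => a * x ^ 2 + b * x + c = 0).card =
      (univ.filter fun y : F => y ^ 2 = b ^ 2 - 4 * a * c).card := by
  have h4 : (4 : F) ≠ 0 := by
    rw [show (4 : F) = 2 * 2 by norm_num]
    exact mul_ne_zero h2 h2
  refine card_bij (fun x _ => 2 * a * x + b) ?_ ?_ ?_
  · intro x hx
    refine mem_filter.2 ⟨mem_univ _, ?_⟩
    linear_combination 4 * a * (mem_filter.1 hx).2
  · intro x _ y _ e
    exact mul_left_cancel₀ (mul_ne_zero h2 ha) (add_right_cancel e)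
  · intro y hy
    have e : 2 * a * ((y - b) / (2 * a)) + b = y := by field_simp; ring
    refine ⟨(y - b) / (2 * a), mem_filter.2 ⟨mem_univ _, ?_⟩, e⟩
    refine mul_left_cancel₀ (mul_ne_zero h4 ha) ?_
    have h := (mem_filter.1 hy).2
    rw [← e] at h
    linear_combination h

theorem L1_sq {F : Type} [Field F] [Fintype F] [DecidableEq F] (h2 : (2 : F) ≠ 0) {b : F}
    (hb : b ≠ 0) : (univ.filter fun y : F => y ^ 2 = b ^ 2).card = 2 := by
  have : (univ.filter fun y : F => y ^ 2 = b ^ 2) = {b, -b} := by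
    ext y
    simp [sq_eq_sq_iff_eq_or_eq_neg]
  rw [this, card_pair]
  intro e
  exact mul_ne_zero h2 hb (by linear_combination e)

theorem L1_rho (A p : ℕ) [Fact p.Prime] (h2 : (2 : ZMod p) ≠ 0) :
    rho A p = (univ.filter fun y : ZMod p => y ^ 2 = 1 - 4 * (A : ZMod p)).card := by
  have h := L1_quad h2 (a := 1) 1 (A : ZMod p) one_ne_zero
  rw [one_pow, mul_one] at h
  rw [← h, ← L1_card]
  unfold rho
  congr 1
  refine filter_congr fun n _ => ?_
  rw [← ZMod.natCast_eq_zero_iff]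
  push_cast
  simp

theorem L1_lines (A p : ℕ) [Fact p.Prime] (h2 : (2 : ZMod p) ≠ 0)
    (hD : (1 - 4 * (A : ZMod p)) ≠ 0) (φ : Fm)
    (hφ : φ.2.1 ^ 2 - 4 * φ.1 * φ.2.2 ≡ 1 - 4 * (A : ℤ) [ZMOD p]) :
    ∑ c ∈ range p, ind ((p : ℤ) ∣ ev φ (1, (c : ℤ))) + ind ((p : ℤ) ∣ ev φ (0, 1)) = rho A p := by
  have hd : (φ.2.1 : ZMod p) ^ 2 - 4 * (φ.2.2 : ZMod p) * φ.1 = 1 - 4 * (A : ZMod p) := by
    have := (ZMod.intCast_eq_intCast_iff _ _ p).2 hφ
    push_cast at this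
    linear_combination this
  have e1 : ∑ c ∈ range p, ind ((p : ℤ) ∣ ev φ (1, (c : ℤ))) =
      ((univ.filter fun x : ZMod p =>
        (φ.2.2 : ZMod p) * x ^ 2 + (φ.2.1 : ZMod p) * x + φ.1 = 0).card : ℝ) := by
    rw [← L1_card, card_filter]
    push_cast
    refine sum_congr rfl fun c _ => ?_
    have : (p : ℤ) ∣ ev φ (1, (c : ℤ)) ↔
        (φ.2.2 : ZMod p) * (c : ZMod p) ^ 2 + (φ.2.1 : ZMod p) * c + φ.1 = 0 := by
      rw [← ZMod.intCast_zmod_eq_zero_iff_dvd]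
      simp only [ev]
      push_cast
      constructor <;> intro h <;> linear_combination h
    split_ifs with h
    · exact ind_pos (this.2 h)
    · exact ind_neg fun h' => h (this.1 h')
  have e2 : (p : ℤ) ∣ ev φ (0, 1) ↔ (φ.2.2 : ZMod p) = 0 := by
    rw [← ZMod.intCast_zmod_eq_zero_iff_dvd]
    simp [ev]
  rw [e1, L1_rho A p h2, ← hd]
  by_cases hγ : (φ.2.2 : ZMod p) = 0
  · have hβ : (φ.2.1 : ZMod p) ≠ 0 := fun e => hD (by rw [← hd, e, hγ]; ring)
    have : (univ.filter fun x : ZMod p =>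
        (φ.2.2 : ZMod p) * x ^ 2 + (φ.2.1 : ZMod p) * x + φ.1 = 0) = {-φ.1 / (φ.2.1 : ZMod p)} := by
      ext x
      simp only [hγ, mem_filter, mem_univ, true_and, mem_singleton, eq_div_iff hβ]
      constructor <;> intro h <;> linear_combination h
    rw [this, ind_pos (e2.2 hγ), hγ, mul_zero, zero_mul, sub_zero, L1_sq h2 hβ]
    norm_num
  · rw [ind_neg fun h => hγ (e2.1 h), add_zero, L1_quad h2 _ _ hγ]

theorem L1_scale {p : ℕ} (hp : p.Prime) (φ : Fm) {u v : V2} {t : ℤ} (ht : ¬(p : ℤ) ∣ t)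
    (h1 : u.1 ≡ t * v.1 [ZMOD p]) (h2 : u.2 ≡ t * v.2 [ZMOD p]) :
    (p : ℤ) ∣ ev φ u ↔ (p : ℤ) ∣ ev φ v := by
  have e : ev φ u ≡ t ^ 2 * ev φ v [ZMOD p] := by
    rw [show t ^ 2 * ev φ v = φ.1 * (t * v.1) ^ 2 + φ.2.1 * (t * v.1) * (t * v.2) +
      φ.2.2 * (t * v.2) ^ 2 by simp only [ev]; ring]
    simp only [ev]
    gcongr
  have hq := Nat.prime_iff_prime_int.1 hp
  rw [e.dvd_iff, hq.dvd_mul]
  exact ⟨fun h => h.resolve_left fun h' => ht (hq.dvd_of_dvd_pow h'), Or.inr⟩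

theorem p_L1 (hRINV : S_RINV) :
    S_L1 := by
  intro A p ψ u hA hψ hp hAp hu
  have := Fact.mk hp
  have h2 : (2 : ZMod p) ≠ 0 := by
    intro e
    have := Nat.le_of_dvd two_pos ((ZMod.natCast_eq_zero_iff 2 p).1 (by exact_mod_cast e))
    omega
  have hD : (1 - 4 * (A : ZMod p)) ≠ 0 := by
    intro e
    have h : ((4 * A - 1 : ℕ) : ZMod p) = 0 := by
      rw [Nat.cast_sub (by omega)]
      push_cast
      linear_combination -e
    have := Nat.le_of_dvd (by omega) ((ZMod.natCast_eq_zero_iff _ p).1 h)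
    omega
  have hr : rho A p = 0 ∨ rho A p = 2 := by
    rw [L1_rho A p h2]
    by_cases h : ∃ y : ZMod p, y ^ 2 = 1 - 4 * (A : ZMod p)
    · obtain ⟨y, hy⟩ := h
      right
      rw [← hy]
      exact L1_sq h2 fun e => hD (by rw [← hy, e]; ring)
    · left
      exact card_eq_zero.2 (filter_eq_empty_iff.2 fun y _ hy => h ⟨y, hy⟩)
  refine ⟨by omega, by omega, ?_⟩
  have hpp : (p : ℤ) ∣ ((p ^ 2 : ℕ) : ℤ) := by
    push_cast
    exact dvd_pow_self _ two_ne_zero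
  set a : V2 → ℝ := fun v => S4.av (p ^ 2) fun g => ind ((p : ℤ) ∣ ev (act ψ g) v) with ha
  have k1 : ∀ h : G4, det h.1 h.2 = 1 → a h.1 = a (1, 0) := by
    intro h hh
    have := hRINV (p ^ 2) h (fun g => ind ((p : ℤ) ∣ ev (act ψ g) (1, 0))) (pow_pos hp.pos 2) hh
      fun x y e => by
        show ind _ = ind _
        rw [dvd_iff_of_modEq (ev_act_modEq ψ e (1, 0)) hpp]
    simp only [ha]
    rw [← this]
    congr 1
    funext g
    rw [act_rm]
    simp [ev, act]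
  have k2 : ∀ c : ℤ, a (1, c) = a (1, 0) := fun c => k1 ((1, c), (0, 1)) (by simp [det])
  have k3 : a (0, 1) = a (1, 0) := k1 ((0, 1), (-1, 0)) (by simp [det])
  have k4 : a u = a (1, 0) := by
    by_cases h1 : (p : ℤ) ∣ u.1
    · rw [← k3]
      simp only [ha]
      congr 1
      funext g
      rw [L1_scale hp _ (v := (0, 1)) (t := u.2) (fun h => hu ⟨h1, h⟩)
        (by simpa using (Int.modEq_zero_iff_dvd.2 h1)) (by simp)]
    · obtain ⟨c, d, hc⟩ := ((Nat.prime_iff_prime_int.1 hp).coprime_iff_not_dvd.2 h1).symm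
      rw [← k2 (c * u.2)]
      simp only [ha]
      congr 1
      funext g
      rw [L1_scale hp _ (v := (1, c * u.2)) (t := u.1) h1 (by simp)
        (Int.modEq_iff_dvd.2 ⟨-(d * u.2), by linear_combination u.2 * hc⟩)]
  have hne : (S4.U (p ^ 2)).Nonempty := by
    have h1 : (1 : ℤ) < (p : ℤ) ^ 2 := by exact_mod_cast Nat.one_lt_pow two_ne_zero hp.one_lt
    have m0 : (0 : ℤ) ∈ bx (p ^ 2) := mem_Ico.2 ⟨le_rfl, by push_cast; linarith⟩
    have m1 : (1 : ℤ) ∈ bx (p ^ 2) := mem_Ico.2 ⟨zero_le_one, by push_cast; linarith⟩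
    exact ⟨((1, 0), (0, 1)), mem_filter.2
      ⟨mem_product.2 ⟨mem_product.2 ⟨m1, m0⟩, mem_product.2 ⟨m0, m1⟩⟩, by simp [det]⟩⟩
  have k5 : ∑ c ∈ range p, a (1, (c : ℤ)) + a (0, 1) = rho A p := by
    simp only [ha]
    rw [← S4.av_sum, ← S4.av_add, ← S4.av_const _ hne (rho A p : ℝ)]
    unfold Sys.av
    congr 1
    refine sum_congr rfl fun g hg => L1_lines A p h2 hD _ ?_
    have hg1 : det g.1 g.2 ≡ 1 [ZMOD p] := (mem_filter.1 hg).2.of_dvd hpp
    simp only [act]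
    rw [disc_eq, hψ.1]
    simpa using (hg1.pow 2).mul_left (1 - 4 * (A : ℤ))
  simp only [k2, k3, sum_const, card_range, nsmul_eq_mul] at k5
  show a u = _
  rw [k4, eq_div_iff (by positivity), ← k5]
  ring

end Pool.Agent.P.MP_8be758_nt.Pd
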