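import Pool.Agent.P.MP_8be758_nt.Pd.IfT

/-! Step L2. -/

namespace Pool.Agent.P.MP_8be758_nt.Pd

open Finset Real Filter
open Pool.Agent.P.MP_8be758_nt.Par (det)
open Pool.Agent.P.MP_8be758_nt.Avg (rho)
open Pool.Agent.P.MP_e86632_nt (ee)

/-- the transvection that fixes `u` -/
def L2_h (u : V2) (k : ℤ) : G4 :=
  ((1 - k * u.2 * u.1, -(k * u.2 * u.2)), (k * u.1 * u.1, 1 + k * u.1 * u.2))

theorem L2_det (u : V2) (k : ℤ) : det (L2_h u k).1 (L2_h u k).2 = 1 := by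
  simp only [L2_h, det]; ring

theorem L2_ev (ψ : Fm) (g : G4) (u v : V2) (k : ℤ) :
    ev (act ψ (rm g (L2_h u k))) v = ev (act ψ g) v + k * det u v * bl (act ψ g) u v +
      (k * det u v) ^ 2 * ev (act ψ g) u := by
  rw [act_rm, ev_act]
  generalize act ψ g = φ
  simp only [ev, bl, ap, L2_h, det]; ring

theorem L2_self (ψ : Fm) (g : G4) (u : V2) (k : ℤ) :
    ev (act ψ (rm g (L2_h u k))) u = ev (act ψ g) u := by
  rw [L2_ev]
  have : det u u = 0 := by simp only [det]; ring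
  rw [this]; ring

theorem L2_unit {A p : ℕ} {ψ : Fm} {u u' : V2} (hA : 1 ≤ A) (hψ : IsF A ψ) (hp : p.Prime)
    (hpA : 4 * A < p) (hd : ¬(p : ℤ) ∣ det u u') {g : G4} (hg : det g.1 g.2 ≡ 1 [ZMOD (p ^ 2 : ℕ)])
    (h1 : (p : ℤ) ∣ ev (act ψ g) u) : ¬(p : ℤ) ∣ bl (act ψ g) u u' := by
  intro hb
  have hP : Prime (p : ℤ) := Nat.prime_iff_prime_int.1 hp
  have e1 := disc_eq (act ψ g) u u'
  have e2 : (act ψ g).2.1 ^ 2 - 4 * (act ψ g).1 * (act ψ g).2.2 =
      (1 - 4 * (A : ℤ)) * det g.1 g.2 ^ 2 := by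
    simp only [act]; rw [disc_eq, hψ.1]
  rw [e2] at e1
  have h3 : (p : ℤ) ∣ (1 - 4 * (A : ℤ)) * det g.1 g.2 ^ 2 * det u u' ^ 2 := by
    rw [← e1]
    exact dvd_sub (dvd_pow hb two_ne_zero) ((h1.mul_left 4).mul_right _)
  rcases hP.dvd_or_dvd h3 with h4 | h4
  · rcases hP.dvd_or_dvd h4 with h5 | h5
    · have h6 : (p : ℤ) ∣ 4 * (A : ℤ) - 1 := by
        have := h5.neg_right
        rwa [neg_sub] at this
      have h7 : (1 : ℤ) ≤ A := by exact_mod_cast hA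
      have h8 : 4 * (A : ℤ) < p := by exact_mod_cast hpA
      have := Int.le_of_dvd (by omega) h6
      omega
    · have h6 := hP.dvd_of_dvd_pow h5
      have h7 : det g.1 g.2 ≡ 1 [ZMOD p] := hg.of_dvd (by push_cast; exact dvd_pow_self _ two_ne_zero)
      have h8 : (p : ℤ) ∣ 1 := (h7.dvd_iff).1 h6
      exact hP.not_dvd_one h8
  · exact hd (hP.dvd_of_dvd_pow h4)

theorem L2_sum {A p : ℕ} {ψ : Fm} {u u' : V2} (hA : 1 ≤ A) (hψ : IsF A ψ) (hp : p.Prime)
    (hpA : 4 * A < p) (hd : ¬(p : ℤ) ∣ det u u') {g : G4}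
    (hg : det g.1 g.2 ≡ 1 [ZMOD (p ^ 2 : ℕ)]) :
    ∑ k ∈ range p, ind ((p : ℤ) ∣ ev (act ψ (rm g (L2_h u k))) u ∧
      (p : ℤ) ∣ ev (act ψ (rm g (L2_h u k))) u') ≤ ind ((p : ℤ) ∣ ev (act ψ g) u) := by
  classical
  by_cases h1 : (p : ℤ) ∣ ev (act ψ g) u
  · rw [ind_pos h1]
    have hP : Prime (p : ℤ) := Nat.prime_iff_prime_int.1 hp
    have hb := L2_unit hA hψ hp hpA hd hg h1
    have key : ∀ k ∈ range p, ∀ j ∈ range p, (p : ℤ) ∣ ev (act ψ (rm g (L2_h u k))) u' →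
        (p : ℤ) ∣ ev (act ψ (rm g (L2_h u j))) u' → k = j := by
      intro k hk j hj a b
      rw [L2_ev] at a b
      have a' := (dvd_add_left (h1.mul_left _)).1 a
      have b' := (dvd_add_left (h1.mul_left _)).1 b
      have c : (p : ℤ) ∣ ((k : ℤ) - j) * (det u u' * bl (act ψ g) u u') := by
        have e : ((k : ℤ) - j) * (det u u' * bl (act ψ g) u u') =
            (ev (act ψ g) u' + k * det u u' * bl (act ψ g) u u') -
              (ev (act ψ g) u' + j * det u u' * bl (act ψ g) u u') := by ring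
        rw [e]
        exact dvd_sub a' b'
      rcases hP.dvd_or_dvd c with c | c
      · have hk' : (k : ℤ) < p := by exact_mod_cast mem_range.1 hk
        have hj' : (j : ℤ) < p := by exact_mod_cast mem_range.1 hj
        have := Int.eq_zero_of_abs_lt_dvd c (by rw [abs_lt]; constructor <;> omega)
        omega
      · rcases hP.dvd_or_dvd c with c | c
        · exact absurd c hd
        · exact absurd c hb
    by_cases he : ∃ k ∈ range p, (p : ℤ) ∣ ev (act ψ (rm g (L2_h u k))) u'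
    · obtain ⟨k, hk, a⟩ := he
      rw [sum_eq_single_of_mem k hk]
      · exact ind_le_one _
      · intro j hj hjk
        exact ind_neg fun b => hjk (key j hj k hk b.2 a)
    · rw [sum_eq_zero]
      · norm_num
      · intro j hj
        exact ind_neg fun b => he ⟨j, hj, b.2⟩
  · rw [ind_neg h1, sum_eq_zero]
    intro j _
    refine ind_neg fun b => h1 ?_
    rw [← L2_self ψ g u j]
    exact b.1

theorem p_L2 (hRINV : S_RINV) (hL1 : S_L1) :
    S_L2 := by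
  intro A p ψ u u' hA hψ hp hpA hd
  have hu : ¬((p : ℤ) ∣ u.1 ∧ (p : ℤ) ∣ u.2) := fun h =>
    hd (dvd_sub (h.1.mul_right _) (h.2.mul_right _))
  obtain ⟨-, -, h1⟩ := hL1 A p ψ u hA hψ hp hpA hu
  set F : G4 → ℝ := fun g => ind ((p : ℤ) ∣ ev (act ψ g) u ∧ (p : ℤ) ∣ ev (act ψ g) u') with hF
  have hpd : (p : ℤ) ∣ ((p ^ 2 : ℕ) : ℤ) := by push_cast; exact dvd_pow_self _ two_ne_zero
  have hper : S4.Per (p ^ 2) F := by
    intro x y e
    simp only [hF]
    rw [dvd_iff_of_modEq (ev_act_modEq ψ e u) hpd, dvd_iff_of_modEq (ev_act_modEq ψ e u') hpd]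
  have h2 : ∑ k ∈ range p, S4.av (p ^ 2) (fun g => F (rm g (L2_h u k))) = p * S4.av (p ^ 2) F := by
    rw [sum_congr rfl fun (k : ℕ) _ =>
      hRINV (p ^ 2) (L2_h u k) F (pow_pos hp.pos 2) (L2_det u k) hper]
    simp
  rw [← Sys.av_sum] at h2
  have h3 : S4.av (p ^ 2) (fun g => ∑ k ∈ range p, F (rm g (L2_h u k))) ≤
      S4.av (p ^ 2) (fun g => ind ((p : ℤ) ∣ ev (act ψ g) u)) :=
    Sys.av_mono _ _ fun g hg => L2_sum hA hψ hp hpA hd (mem_filter.1 hg).2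
  rw [h2, h1] at h3
  have hp0 : (0 : ℝ) < p := by exact_mod_cast hp.pos
  have h4 : (rho A p : ℝ) / (p + 1) ≤ rho A p / p :=
    div_le_div_of_nonneg_left (Nat.cast_nonneg _) hp0 (by linarith)
  rw [le_div_iff₀ (by positivity)]
  have h5 := (le_div_iff₀ hp0).1 (h3.trans h4)
  nlinarith

end Pool.Agent.P.MP_8be758_nt.Pd
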