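import Pool.Agent.P.MP_8be758_nt.Pd.IfT

/-! Step L3. -/

namespace Pool.Agent.P.MP_8be758_nt.Pd

open Finset Real Filter
open Pool.Agent.P.MP_8be758_nt.Par (det)
open Pool.Agent.P.MP_8be758_nt.Avg (rho)
open Pool.Agent.P.MP_e86632_nt (ee)

theorem L3_one {s : Finset ℕ} {Q : ℕ → Prop} (h : ∀ k ∈ s, ∀ k' ∈ s, Q k → Q k' → k = k') :
    ∑ k ∈ s, ind (Q k) ≤ 1 := by
  classical
  simp only [ind]
  rw [sum_boole]
  exact_mod_cast card_le_one.2 fun a x b y =>
    h a (mem_filter.1 x).1 b (mem_filter.1 y).1 (mem_filter.1 x).2 (mem_filter.1 y).2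

/-- a transvection -/
def L3_h (w : V2) (c : ℤ) : G4 :=
  ((1 - c * w.2 * w.1, -c * w.2 * w.2), (c * w.1 * w.1, 1 + c * w.1 * w.2))

theorem L3_ev (ψ : Fm) (g : G4) (u w : V2) (c : ℤ) : ev (act ψ (rm g (L3_h w c))) u =
    ev (act ψ g) u - c * (det u w * bl (act ψ g) u w) + c ^ 2 * (det u w ^ 2 * ev (act ψ g) w) := by
  rw [act_rm, ev_act]
  simp only [ev, bl, ap, det, L3_h]
  ring

theorem p_L3 (hRINV : S_RINV) (hL1 : S_L1) :
    S_L3 := by
  intro A p ψ u hA hF hp h4 hu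
  obtain ⟨w, hw⟩ : ∃ w : V2, ¬(p : ℤ) ∣ det u w := by
    rcases not_and_or.1 hu with h | h
    · exact ⟨(0, 1), by simpa [det] using h⟩
    · exact ⟨(1, 0), by simpa [det] using h⟩
  have pz := Nat.prime_iff_prime_int.1 hp
  have p0 : (0 : ℝ) < p := by exact_mod_cast hp.pos
  have h1 := fun k : ℕ => hRINV (p ^ 2) (L3_h w (p * k))
    (fun g => ind ((p : ℤ) ^ 2 ∣ ev (act ψ g) u)) (pow_pos hp.pos 2)
    (by simp only [det, L3_h]; ring) fun g g' e =>
      congrArg ind (propext (dvd_iff_of_modEq (ev_act_modEq ψ e u) (by rw [Nat.cast_pow])))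
  have h2 := S4.av_sum (p ^ 2) (range p) fun k g =>
    ind ((p : ℤ) ^ 2 ∣ ev (act ψ (rm g (L3_h w (p * k)))) u)
  rw [sum_congr rfl fun k _ => h1 k, sum_const, card_range, nsmul_eq_mul] at h2
  have h5 : (rho A p : ℝ) / (p + 1) ≤ rho A p / p := by gcongr; linarith
  rw [sq (p : ℝ), ← div_div, le_div_iff₀' p0, ← h2]
  refine ((S4.av_mono (p ^ 2) fun g hg => ?_).trans_eq (hL1 A p ψ u hA hF hp h4 hu).2.2).trans h5
  simp only [L3_ev]
  have d0 : ∀ k : ℕ, (p : ℤ) ^ 2 ∣ (p * k) ^ 2 * (det u w ^ 2 * ev (act ψ g) w) := fun k =>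
    Dvd.dvd.mul_right (pow_dvd_pow_of_dvd (dvd_mul_right _ _) 2) _
  simp only [fun k x => dvd_add_left (b := x) (d0 k)]
  by_cases c : (p : ℤ) ∣ ev (act ψ g) u
  · rw [ind_pos c]
    refine L3_one fun k hk k' hk' a b => ?_
    have e : (p : ℤ) * p ∣ p * ((k' - k) * (det u w * bl (act ψ g) u w)) := by
      rw [← sq]
      exact (dvd_sub a b).trans (dvd_of_eq (by ring))
    rcases pz.dvd_or_dvd ((mul_dvd_mul_iff_left pz.ne_zero).1 e) with e | e
    · exact Nat.ModEq.eq_of_lt_of_lt (Nat.modEq_iff_dvd.2 e) (mem_range.1 hk) (mem_range.1 hk')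
    have b1 := dvd_sub (dvd_pow ((pz.dvd_or_dvd e).resolve_left hw) two_ne_zero)
      ((c.mul_left 4).mul_right (ev (act ψ g) w))
    rw [disc_eq] at b1
    have b2 := (pz.dvd_or_dvd b1).resolve_right fun e => hw (pz.dvd_of_dvd_pow e)
    simp only [act] at b2
    rw [disc_eq, hF.1] at b2
    rcases pz.dvd_or_dvd b2 with b3 | b3
    · have := Int.le_of_dvd (by omega) (dvd_neg.2 b3)
      omega
    · have b4 : (p : ℤ) ∣ 1 - det g.1 g.2 :=
        (Int.natCast_dvd_natCast.2 (dvd_pow_self p two_ne_zero)).trans (mem_filter.1 hg).2.dvd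
      exact absurd (isUnit_of_dvd_one (by simpa using dvd_add b4 (pz.dvd_of_dvd_pow b3)))
        pz.not_isUnit
  · rw [ind_neg c]
    refine (sum_eq_zero fun k _ => ind_neg fun e => c ?_).le
    simpa using dvd_add ((dvd_pow_self _ two_ne_zero).trans e)
      ((dvd_mul_right (p : ℤ) k).mul_right (det u w * bl (act ψ g) u w))

end Pool.Agent.P.MP_8be758_nt.Pd
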