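import Pool.Agent.P.MP_8be758_nt.Pd.If0

/-! Step LAT. -/

namespace Pool.Agent.P.MP_8be758_nt.Pd

open Finset Real Filter
open ArithmeticFunction (cardFactors)
open Pool.Agent.P.MP_8be758_nt.Par (det)
open Pool.Agent.P.MP_8be758_nt.Avg (rho)

theorem LAT_cnt {S : Finset ℤ} {Y : ℝ} {m : ℕ} {c : ℤ} (hm : 0 < m) (hY : 0 ≤ Y)
    (h : ∀ y ∈ S, |(y : ℝ)| ≤ Y ∧ y ≡ c [ZMOD m]) : (S.card : ℝ) ≤ 2 * Y / m + 1 := by
  have m0 : (0 : ℝ) < m := by exact_mod_cast hm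
  have h1 : S ⊆ (Icc ⌈(-Y - c) / m⌉ ⌊(Y - c) / m⌋).image fun k => c + m * k := fun y hy => by
    obtain ⟨a, b⟩ := h y hy
    obtain ⟨k, hk⟩ := b.symm.dvd
    obtain rfl : y = c + m * k := by omega
    rw [abs_le] at a
    push_cast at a
    refine mem_image_of_mem _ (mem_Icc.2 ⟨Int.ceil_le.2 ?_, Int.le_floor.2 ?_⟩)
    · rw [div_le_iff₀ m0]; linarith [a.1]
    · rw [le_div_iff₀ m0]; linarith [a.2]
  have h2 := (card_le_card h1).trans card_image_le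
  rw [Int.card_Icc] at h2
  refine (Nat.cast_le.2 h2).trans ?_
  rw [← Int.cast_natCast, Int.ofNat_toNat]
  push_cast
  refine max_le ?_ (by positivity)
  have := Int.floor_le ((Y - c) / m)
  have := Int.le_ceil ((-Y - c) / m)
  have : (Y - c) / m - (-Y - c) / m = 2 * Y / m := by ring
  linarith

theorem LAT_row {A : ℕ} {ψ : Fm} (hA : 1 ≤ A) (h : IsF A ψ) (h4 : ψ.1 ≤ 4 * A) {N N2 : ℝ}
    (hN : N ≤ N2) {m : ℕ} (hm : 0 < m) (a a' c : ℤ) :
    (((An ψ (-1) N).filter fun v => C2 m v (a, c)).card : ℝ) ≤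
      ((An ψ (-1) N).filter fun v => C2 m v (a', c)).card + (2 * (3 * A * √N2) / m + 1) := by
  have mem : ∀ v, v ∈ An ψ (-1) N ↔ (ev ψ v : ℝ) ≤ N := fun v => (mem_An hA h).trans
    (and_iff_right (neg_one_lt_zero.trans_le (by exact_mod_cast h.ev_nonneg hA v)))
  have m0 : (0 : ℤ) < m := by exact_mod_cast hm
  obtain ⟨d, d0, d1, d2⟩ : ∃ d : ℤ, 0 ≤ d ∧ d < m ∧ a + d ≡ a' [ZMOD m] :=
    ⟨(a' - a) % m, Int.emod_nonneg _ m0.ne', Int.emod_lt_of_pos _ m0, by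
      simpa using (Int.mod_modEq (a' - a) m).add_left a⟩
  rw [← card_filter_add_card_filter_not fun v : V2 => (v.1 + d, v.2) ∈ An ψ (-1) N, Nat.cast_add]
  refine add_le_add (Nat.cast_le.2 (card_le_card_of_injOn (fun v => (v.1 + d, v.2))
    (fun v hv => ?_) fun v _ w _ e => ?_)) ?_
  · obtain ⟨a1, a2⟩ := mem_filter.1 hv
    obtain ⟨-, a3, a4⟩ := mem_filter.1 a1
    exact mem_filter.2 ⟨a2, (a3.add_right d).trans d2, a4⟩
  · simpa [Prod.ext_iff] using e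
  have cv : ∀ v w : V2, v ∈ An ψ (-1) N → w ∈ An ψ (-1) N → v.2 = w.2 → v.1 + d ≤ w.1 →
      (v.1 + d, v.2) ∈ An ψ (-1) N := fun v w hv hw e l => by
    rw [mem] at hv hw ⊢
    have p := h.2
    rcases le_total (ψ.1 * (2 * v.1 + d) + ψ.2.1 * v.2) 0 with c | c
    · refine le_trans (Int.cast_le.2 ?_) hv
      simp only [ev]
      nlinarith [mul_nonneg d0 (neg_nonneg.2 c)]
    · refine le_trans (Int.cast_le.2 ?_) hw
      have := mul_nonneg (sub_nonneg.2 l) (add_nonneg c (mul_nonneg p.le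
        (show 0 ≤ w.1 - v.1 by linarith)))
      simp only [ev, ← e]
      nlinarith
  rw [← card_image_of_injOn (f := Prod.snd) fun v hv w hw e => ?_]
  · refine LAT_cnt (c := c) hm (by positivity) fun y hy => ?_
    obtain ⟨v, hv, rfl⟩ := mem_image.1 hy
    obtain ⟨a1, -, a2⟩ := mem_filter.1 (mem_filter.1 hv).1
    refine ⟨abs_le_of_sq_le_sq ?_ (by positivity), a2⟩
    have b0 : (0 : ℝ) ≤ ev ψ v := by exact_mod_cast h.ev_nonneg hA v
    have b1 : (3 : ℝ) * v.2 ^ 2 ≤ 4 * ψ.1 * ev ψ v := by exact_mod_cast (h.sq_le hA v).2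
    have b2 := ((mem v).1 a1).trans hN
    have b3 : (ψ.1 : ℝ) ≤ 4 * A := by exact_mod_cast h4
    have b4 : (1 : ℝ) ≤ A := by exact_mod_cast hA
    have b5 : (ψ.1 : ℝ) * ev ψ v ≤ 4 * A ^ 2 * N2 :=
      mul_le_mul (by nlinarith) b2 b0 (by positivity)
    rw [mul_pow, sq_sqrt (b0.trans b2)]
    nlinarith [mul_nonneg (sq_nonneg (A : ℝ)) (b0.trans b2)]
  obtain ⟨a1, a2⟩ := mem_filter.1 hv
  obtain ⟨b1, b2⟩ := mem_filter.1 hw
  obtain ⟨a3, a4, -⟩ := mem_filter.1 a1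
  obtain ⟨b3, b4, -⟩ := mem_filter.1 b1
  refine Prod.ext (Int.eq_of_sub_eq_zero (Int.eq_zero_of_abs_lt_dvd
    (b4.trans a4.symm).dvd (abs_lt.2 ⟨?_, ?_⟩))) e
  · have := not_le.1 fun l => a2 (cv v w a3 b3 e l)
    omega
  · have := not_le.1 fun l => b2 (cv w v b3 a3 e.symm l)
    omega

theorem p_LAT :
    S_LAT := by
  intro A hA
  refine ⟨24 * A, by positivity, fun ψ hψ N1 N2 m v0 v1 h0 h1 hm => ?_⟩
  simp only [Red, mem_filter, mem_product, mem_Icc] at hψ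
  obtain ⟨⟨⟨-, p1⟩, -, -, p2⟩, h⟩ := hψ
  have h' : IsF A (ψ.2.2, ψ.2.1, ψ.1) := ⟨by rw [← h.1]; ring, h.third_pos hA⟩
  have sw : ∀ (N : ℝ) (a c : ℤ), ((An ψ (-1) N).filter fun v => C2 m v (a, c)).card =
      ((An (ψ.2.2, ψ.2.1, ψ.1) (-1) N).filter fun v => C2 m v (c, a)).card := fun N a c =>
    card_equiv (Equiv.prodComm _ _) fun v => by
      rw [mem_filter, mem_filter, mem_An hA h, mem_An hA h',
        show ev (ψ.2.2, ψ.2.1, ψ.1) (Equiv.prodComm _ _ v) = ev ψ v by simp [ev]; ring]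
      exact and_congr_right' and_comm
  have sp : ∀ w, (((An ψ (-1) N2).filter fun v => C2 m v w).card : ℝ) =
      ((An ψ (-1) N1).filter fun v => C2 m v w).card +
        ((An ψ N1 N2).filter fun v => C2 m v w).card := fun w => by
    rw [← Nat.cast_add, ← card_union_of_disjoint (disjoint_filter_filter (disjoint_left.2
      fun v a b => ((mem_An hA h).1 b).1.not_ge ((mem_An hA h).1 a).2)), ← filter_union]
    congr 3
    ext v
    simp only [mem_union, mem_An hA h]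
    exact ⟨fun a => (le_or_gt _ N1).imp (⟨a.1, ·⟩) (⟨·, a.2⟩),
      fun a => a.elim (fun a => ⟨a.1, a.2.trans h1⟩) fun a => ⟨by linarith [a.1], a.2⟩⟩
  obtain ⟨a, c⟩ := v0
  obtain ⟨a', c'⟩ := v1
  have r := fun N hN => LAT_row hA h p1 (N := N) (N2 := N2) hN hm
  have r' := fun N hN => LAT_row hA h' p2 (N := N) (N2 := N2) hN hm
  simp only [← sw] at r'
  have b4 : (1 : ℝ) ≤ A := by exact_mod_cast hA
  have e : 2 * (3 * A * √N2) / m = 6 * (A * (√N2 / m)) := by ring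
  rw [abs_le]
  constructor <;> linarith [sp (a, c), sp (a', c'), r N1 h1 a a' c, r N1 h1 a' a c,
    r N2 le_rfl a a' c, r N2 le_rfl a' a c, r' N1 h1 c c' a', r' N1 h1 c' c a',
    r' N2 le_rfl c c' a', r' N2 le_rfl c' c a']

end Pool.Agent.P.MP_8be758_nt.Pd
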