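import Pool.Agent.P.MP_8be758_nt.Pd.If0

/-! Step LATD. -/

namespace Pool.Agent.P.MP_8be758_nt.Pd

open Finset Real Filter
open ArithmeticFunction (cardFactors)
open Pool.Agent.P.MP_8be758_nt.Par (det)
open Pool.Agent.P.MP_8be758_nt.Avg (rho)

theorem LATD_root (ψ : Fm) (v : V2) : ∃ b : ℤ, IsCoprime v.1 v.2 →
    ev ψ v ∣ b ^ 2 - (ψ.2.1 ^ 2 - 4 * ψ.1 * ψ.2.2) ∧ ∀ u, ev ψ v ∣ bl ψ v u - b * det v u := by
  by_cases h : IsCoprime v.1 v.2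
  · obtain ⟨x, y, h⟩ := h
    have h1 : det v (-y, x) = 1 := by simp only [det]; linear_combination h
    refine ⟨bl ψ v (-y, x), fun _ => ⟨⟨4 * ev ψ (-y, x), ?_⟩, fun u => ⟨2 * det u (-y, x), ?_⟩⟩⟩
    · have := disc_eq ψ v (-y, x)
      rw [h1] at this
      linear_combination this
    · have : bl ψ v u * det v (-y, x) = ev ψ v * (2 * det u (-y, x)) + bl ψ v (-y, x) * det v u := by
        simp only [bl, det, ev]; ring
      rw [h1] at this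
      linear_combination this
  · exact ⟨0, fun h' => absurd h' h⟩

theorem LATD_cop {d D : ℕ} {x y : ℤ} (hd : d ≠ 0) (h : d.Coprime (2 * D))
    (hx : (d : ℤ) ∣ x ^ 2 + D) (e : ∀ p ∈ d.primeFactors, 2 * (x % p) < p ↔ 2 * (y % p) < p) :
    IsCoprime (d : ℤ) (x + y) := by
  refine Int.isCoprime_iff_gcd_eq_one.2 (Nat.eq_one_iff_not_exists_prime_dvd.2 fun p hp h1 => ?_)
  have h2 : p ∣ d := Int.natCast_dvd_natCast.1
    ((Int.natCast_dvd_natCast.2 h1).trans (Int.gcd_dvd_left _ _))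
  have h3 : (p : ℤ) ∣ x + y := (Int.natCast_dvd_natCast.2 h1).trans (Int.gcd_dvd_right _ _)
  have h4 : ¬ p ∣ 2 * D := hp.coprime_iff_not_dvd.1 (h.coprime_dvd_left h2)
  have h5 : x % p ≠ 0 := fun e => h4 (Dvd.dvd.mul_left (Int.natCast_dvd_natCast.1
    ((dvd_add_right ((Int.dvd_of_emod_eq_zero e).pow two_ne_zero)).1
      ((Int.natCast_dvd_natCast.2 h2).trans hx))) 2)
  have h6 : p % 2 = 1 := hp.eq_two_or_odd.resolve_left fun e => h4 (e ▸ dvd_mul_right _ _)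
  have h7 := e p (Nat.mem_primeFactors.2 ⟨hp, h2, hd⟩)
  have p0 : (0 : ℤ) < p := by exact_mod_cast hp.pos
  have a1 := Int.emod_nonneg x p0.ne'
  have a2 := Int.emod_nonneg y p0.ne'
  have a3 := Int.emod_lt_of_pos x p0
  have a4 := Int.emod_lt_of_pos y p0
  have a5 : (p : ℤ) ∣ x % p + y % p - p := dvd_sub
    (Int.dvd_of_emod_eq_zero (Int.add_emod x y p ▸ Int.emod_eq_zero_of_dvd h3)) dvd_rfl
  have a6 := Int.eq_zero_of_abs_lt_dvd a5 (abs_lt.2 ⟨by omega, by omega⟩)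
  omega

theorem LATD_small {A : ℕ} {ψ : Fm} (h : ψ ∈ Red A) (u : V2) {s : ℝ} (hA : 1 ≤ A)
    (h1 : |(u.1 : ℝ)| < s) (h2 : |(u.2 : ℝ)| < s) : (ev ψ u : ℝ) < 12 * A * s ^ 2 := by
  simp only [Red, mem_filter, mem_product, mem_Icc] at h
  obtain ⟨⟨⟨-, a1⟩, a2, -, a3⟩, -⟩ := h
  have b0 : (0 : ℝ) < 4 * A := by positivity
  have b1 : (ψ.1 : ℝ) ≤ 4 * A := by exact_mod_cast a1
  have b2 : |(ψ.2.1 : ℝ)| ≤ 4 * A := by exact_mod_cast abs_le.2 a2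
  have b3 : (ψ.2.2 : ℝ) ≤ 4 * A := by exact_mod_cast a3
  have c1 := mul_lt_mul_of_pos_left (sq_lt_sq' (abs_lt.1 h1).1 (abs_lt.1 h1).2) b0
  have c2 := mul_lt_mul_of_pos_left (sq_lt_sq' (abs_lt.1 h2).1 (abs_lt.1 h2).2) b0
  have c3 : (ψ.2.1 : ℝ) * u.1 * u.2 ≤ 4 * A * s * s := (le_abs_self _).trans (by
    have := (abs_nonneg _).trans h1.le
    rw [abs_mul, abs_mul]
    gcongr)
  have c4 := mul_le_mul_of_nonneg_right b1 (sq_nonneg (u.1 : ℝ))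
  have c5 := mul_le_mul_of_nonneg_right b3 (sq_nonneg (u.2 : ℝ))
  simp only [ev]
  push_cast
  linarith

theorem LATD_box {x : ℤ} {s R : ℝ} (hs : 0 < s) (hR : 0 ≤ R) (h : (x : ℝ) ^ 2 ≤ (R * s) ^ 2) :
    ⌊x / s⌋ ∈ Icc (-(⌈R⌉₊ : ℤ)) ⌈R⌉₊ := by
  obtain ⟨h1, h2⟩ := abs_le.1 (abs_le_of_sq_le_sq h (by positivity))
  have h3 := Nat.le_ceil R
  refine mem_Icc.2 ⟨Int.le_floor.2 ?_, Int.floor_le_iff.2 ?_⟩
  · push_cast
    rw [le_div_iff₀ hs]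
    nlinarith
  · push_cast
    rw [div_lt_iff₀ hs]
    nlinarith

theorem LATD_near {x y : ℤ} {s : ℝ} (hs : 0 < s) (h : ⌊x / s⌋ = ⌊y / s⌋) :
    |((x - y : ℤ) : ℝ)| < s := by
  have := Int.abs_sub_lt_one_of_floor_eq_floor h
  rw [← sub_div, abs_div, abs_of_pos hs, div_lt_one hs] at this
  exact_mod_cast this

theorem p_LATD :
    S_LATD := by
  intro A hA
  have A0 : (1 : ℝ) ≤ A := by exact_mod_cast hA
  refine ⟨2025 * A ^ 2, by positivity, fun ψ hψ d Y hd hc hY => ?_⟩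
  have hF : IsF A ψ := (mem_filter.1 hψ).2
  have d0 : (0 : ℝ) < d := by exact_mod_cast hd
  rcases ((VV ψ 0 Y).filter fun v => (d : ℤ) ∣ ev ψ v).eq_empty_or_nonempty with e | ⟨v0, h0⟩
  · rw [e, card_empty, Nat.cast_zero]
    positivity
  have hdY : 1 ≤ Y / d := by
    obtain ⟨a1, a2⟩ := mem_filter.1 h0
    obtain ⟨-, a3, a4⟩ := (mem_VV hA hF).1 a1
    rw [one_le_div d0]
    exact le_trans (by exact_mod_cast Int.le_of_dvd (by exact_mod_cast a3) a2) a4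
  choose b hb using LATD_root ψ
  obtain ⟨s, s0, hs⟩ : ∃ s : ℝ, 0 < s ∧ 12 * A * s ^ 2 = d :=
    ⟨√(d / (12 * A)), by positivity, by rw [sq_sqrt (by positivity)]; field_simp⟩
  obtain ⟨t, t0, ht⟩ : ∃ t : ℝ, 1 ≤ t ∧ t ^ 2 = Y / d :=
    ⟨√(Y / d), one_le_sqrt.2 hdY, sq_sqrt (by positivity)⟩
  have R1 : 1 ≤ 9 * A * t := by nlinarith
  have hR : ∀ x c m : ℤ, 3 * x ^ 2 ≤ 4 * c * m → c ≤ 4 * A → 0 ≤ m → (m : ℝ) ≤ Y →
      ⌊x / s⌋ ∈ Icc (-(⌈9 * A * t⌉₊ : ℤ)) ⌈9 * A * t⌉₊ := fun x c m h1 h2 h3 h4 => by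
    refine LATD_box s0 (by positivity) ?_
    have a1 : (3 : ℝ) * x ^ 2 ≤ 4 * (4 * A) * m := by
      exact_mod_cast h1.trans (show _ ≤ 4 * (4 * (A : ℤ)) * m by gcongr)
    have a2 : (9 * A * t * s) ^ 2 = 27 / 4 * (A * Y) := by
      rw [mul_pow, mul_pow, ht, ← hs]
      field_simp
      ring
    have a3 := mul_le_mul_of_nonneg_left h4 (zero_le_one.trans A0)
    have a4 := mul_nonneg (zero_le_one.trans A0) hY
    linarith
  have key := card_le_card_of_injOn (s := (VV ψ 0 Y).filter fun v => (d : ℤ) ∣ ev ψ v)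
    (t := d.primeFactors.powerset ×ˢ Icc (-(⌈9 * A * t⌉₊ : ℤ)) ⌈9 * A * t⌉₊ ×ˢ
      Icc (-(⌈9 * A * t⌉₊ : ℤ)) ⌈9 * A * t⌉₊)
    (fun v => (d.primeFactors.filter fun p => 2 * (b v % p) < p, ⌊v.1 / s⌋, ⌊v.2 / s⌋))
    (fun v hv => by
      have a4 := ((mem_VV hA hF).1 (mem_filter.1 hv).1).2.2
      have a5 := (mem_product.1 (mem_filter.1 hψ).1)
      exact mem_product.2 ⟨mem_powerset.2 (filter_subset _ _), mem_product.2
        ⟨hR _ _ _ (hF.sq_le hA v).1 (mem_Icc.1 (mem_product.1 a5.2).2).2 (hF.ev_nonneg hA v) a4,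
        hR _ _ _ (hF.sq_le hA v).2 (mem_Icc.1 a5.1).2 (hF.ev_nonneg hA v) a4⟩⟩)
    fun v hv w hw e => by
      obtain ⟨e1, e2, e3⟩ := by simpa only [Prod.mk.injEq] using e
      obtain ⟨a1, a2⟩ := mem_filter.1 hv
      obtain ⟨a3, a4⟩ := mem_filter.1 hw
      obtain ⟨b1, b2⟩ := hb v ((mem_VV hA hF).1 a1).1
      obtain ⟨-, b3⟩ := hb w ((mem_VV hA hF).1 a3).1
      have c1 := LATD_cop (x := b v) (y := b w) hd.ne' hc (by
        refine (a2.trans b1).trans (dvd_of_eq ?_)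
        rw [hF.1, Nat.cast_sub (by omega)]
        push_cast
        ring) fun p hp => by simpa [hp] using Finset.ext_iff.1 e1 p
      have c2 : (d : ℤ) ∣ det v w := c1.dvd_of_dvd_mul_left (by
        refine (dvd_sub (a4.trans (b3 v)) (a2.trans (b2 w))).trans (dvd_of_eq ?_)
        simp only [bl, det]
        ring)
      have c3 : (d : ℤ) ∣ ev ψ (v - w) := by
        refine (dvd_sub (dvd_sub (dvd_add a2 a4) (a2.trans (b2 w))) (c2.mul_left (b v))).trans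
          (dvd_of_eq ?_)
        simp only [bl, ev, Prod.fst_sub, Prod.snd_sub]
        ring
      by_contra ne
      have c4 := Int.le_of_dvd (hF.ev_pos hA (sub_ne_zero.2 ne)) c3
      have c5 := LATD_small hψ (v - w) hA (LATD_near s0 e2) (LATD_near s0 e3)
      rw [hs] at c5
      exact c4.not_gt (by exact_mod_cast c5)
  rw [card_product, card_product, card_powerset, Int.card_Icc, show ((⌈9 * A * t⌉₊ : ℤ) + 1 -
    -(⌈9 * A * t⌉₊ : ℤ)).toNat = 2 * ⌈9 * A * t⌉₊ + 1 by omega] at key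
  have k1 : ((2 * ⌈9 * A * t⌉₊ + 1 : ℕ) : ℝ) ≤ 5 * (9 * A * t) := by
    have := Nat.ceil_lt_add_one (zero_le_one.trans R1)
    push_cast
    linarith
  calc _ ≤ (2 : ℝ) ^ d.primeFactors.card * ((2 * ⌈9 * A * t⌉₊ + 1 : ℕ) *
        (2 * ⌈9 * A * t⌉₊ + 1 : ℕ)) := by exact_mod_cast key
    _ ≤ 2 ^ d.primeFactors.card * (5 * (9 * A * t) * (5 * (9 * A * t))) := by gcongr
    _ = 2025 * A ^ 2 * 2 ^ d.primeFactors.card * t ^ 2 := by ring
    _ = _ := by rw [ht, mul_div_assoc]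

end Pool.Agent.P.MP_8be758_nt.Pd
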