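import Pool.Agent.P.MP_8be758_nt.Pd.IfT

/-! Step LB. -/

namespace Pool.Agent.P.MP_8be758_nt.Pd

open Finset Real Filter
open Pool.Agent.P.MP_8be758_nt.Par (det)
open Pool.Agent.P.MP_8be758_nt.Avg (rho)
open Pool.Agent.P.MP_e86632_nt (ee)

theorem LB_pt {ι : Type} [DecidableEq ι] (s : Finset ι) (y : ι → ℝ)
    (h : ∀ i ∈ s, 0 ≤ y i ∧ y i ≤ 1) :
    1 - ∑ i ∈ s, y i ≤ ∏ i ∈ s, (1 - y i) ∧
    ∏ i ∈ s, (1 - y i) ≤ 1 - ∑ i ∈ s, y i + 1 / 2 * ∑ i ∈ s, ∑ j ∈ s.erase i, y i * y j := by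
  have e : ∑ i ∈ s, ∑ j ∈ s.erase i, y i * y j = (∑ i ∈ s, y i) ^ 2 - ∑ i ∈ s, y i ^ 2 := by
    rw [sq, sum_mul_sum, ← sum_sub_distrib]
    refine sum_congr rfl fun i hi => ?_
    rw [← add_sum_erase s _ hi]; ring
  rw [e]
  clear e
  induction s using Finset.induction_on with
  | empty => simp
  | insert a s ha ih =>
    obtain ⟨h1, h2⟩ := ih fun i hi => h i (mem_insert_of_mem hi)
    obtain ⟨h3, h4⟩ := h a (mem_insert_self _ _)
    have h5 : 0 ≤ ∑ i ∈ s, y i := sum_nonneg fun i hi => (h i (mem_insert_of_mem hi)).1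
    have h6 := sum_sq_le_sq_sum_of_nonneg (s := s) (f := y) fun i hi => (h i (mem_insert_of_mem hi)).1
    rw [sum_insert ha, prod_insert ha, sum_insert ha]
    constructor
    · nlinarith [mul_le_mul_of_nonneg_left h1 (sub_nonneg.2 h4), mul_nonneg h3 h5]
    · nlinarith [mul_le_mul_of_nonneg_left h2 (sub_nonneg.2 h4), mul_nonneg h3 (sub_nonneg.2 h6)]

theorem p_LB (hOK : S_OK) (hL1 : S_L1) (hL2 : S_L2) :
    S_LB := by
  classical
  intro A p ψ ι s u x hA hψ hp hAp hs hx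
  have p0 : (0 : ℝ) < p := by exact_mod_cast hp.pos
  have ne := hOK.2.2.2.1 (p ^ 2) (pow_pos hp.pos 2)
  have hy : ∀ g : G4, ∀ i ∈ s, 0 ≤ x i * ind ((p : ℤ) ∣ ev (act ψ g) (u i)) ∧
      x i * ind ((p : ℤ) ∣ ev (act ψ g) (u i)) ≤ 1 := fun g i hi =>
    ⟨mul_nonneg (hx i hi).1 (ind_nonneg _),
      mul_le_one₀ (hx i hi).2.1 (ind_nonneg _) (ind_le_one _)⟩
  have X0 : 0 ≤ ∑ i ∈ s, x i := sum_nonneg fun i hi => (hx i hi).1
  have X6 : ∑ i ∈ s, x i ≤ 6 := (sum_le_card_nsmul _ _ 1 fun i hi => (hx i hi).2.1).trans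
    (by simpa using (by exact_mod_cast hs : (s.card : ℝ) ≤ 6))
  have r0 : (0 : ℝ) ≤ rho A p := Nat.cast_nonneg _
  have r2 : (rho A p : ℝ) ≤ 2 := by
    exact_mod_cast (hL1 A p ψ (1, 0) hA hψ hp hAp fun h =>
      hp.one_lt.ne' (Nat.dvd_one.1 (Int.natCast_dvd_natCast.1 h.1))).1
  have e1 : S4.av (p ^ 2) (fun g => 1 - ∑ i ∈ s, x i * ind ((p : ℤ) ∣ ev (act ψ g) (u i))) =
      1 - (rho A p : ℝ) / (p + 1) * ∑ i ∈ s, x i := by
    rw [Sys.av_sub, S4.av_const _ ne, Sys.av_sum, mul_sum]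
    congr 1
    refine sum_congr rfl fun i hi => ?_
    rw [Sys.av_mul, (hL1 A p ψ (u i) hA hψ hp hAp (hx i hi).2.2).2.2, mul_comm]
  constructor
  · refine le_trans ?_ (S4.av_mono _ fun g _ => (LB_pt s _ (hy g)).1)
    rw [e1]
    gcongr
    linarith
  · intro hd
    refine (S4.av_mono _ fun g _ => (LB_pt s _ (hy g)).2).trans ?_
    rw [Sys.av_add, e1, Sys.av_mul, Sys.av_sum]
    have b1 : ∑ i ∈ s, S4.av (p ^ 2) (fun g => ∑ j ∈ s.erase i,
        x i * ind ((p : ℤ) ∣ ev (act ψ g) (u i)) * (x j * ind ((p : ℤ) ∣ ev (act ψ g) (u j)))) ≤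
        6 * (6 * (2 / (p : ℝ) ^ 2)) := by
      have c6 : (s.card : ℝ) ≤ 6 := by exact_mod_cast hs
      refine (sum_le_card_nsmul _ _ (6 * (2 / (p : ℝ) ^ 2)) fun i hi => ?_).trans
        (by rw [nsmul_eq_mul]; gcongr)
      rw [Sys.av_sum]
      refine (sum_le_card_nsmul _ _ (2 / (p : ℝ) ^ 2) fun j hj => ?_).trans ?_
      · obtain ⟨j1, j2⟩ := mem_erase.1 hj
        refine le_trans (S4.av_mono _ fun g _ => ?_)
          ((hL2 A p ψ (u i) (u j) hA hψ hp hAp (hd i hi j j2 j1.symm)).trans (by gcongr))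
        rw [ind_and, mul_mul_mul_comm]
        exact mul_le_of_le_one_left (mul_nonneg (ind_nonneg _) (ind_nonneg _))
          (mul_le_one₀ (hx i hi).2.1 (hx j j2).1 (hx j j2).2.1)
      · rw [nsmul_eq_mul]
        gcongr
        exact le_trans (by exact_mod_cast card_erase_le) c6
    have b2 : (rho A p : ℝ) / p - (rho A p : ℝ) / (p + 1) ≤ 2 / (p : ℝ) ^ 2 := by
      rw [div_sub_div _ _ p0.ne' (by positivity), div_le_div_iff₀ (by positivity) (by positivity)]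
      nlinarith [mul_nonneg (sub_nonneg.2 r2) (sq_nonneg (p : ℝ))]
    have b3 := mul_le_mul b2 X6 X0 (by positivity)
    have b4 : 50 / (p : ℝ) ^ 2 = 25 * (2 / (p : ℝ) ^ 2) := by ring
    have b5 : 0 ≤ 2 / (p : ℝ) ^ 2 := by positivity
    rw [b4]
    nlinarith

end Pool.Agent.P.MP_8be758_nt.Pd
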