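import Pool.Agent.P.MP_8be758_nt.Pd.IfG

/-! Step LOCID. -/

namespace Pool.Agent.P.MP_8be758_nt.Pd

open Finset Real Filter
open Pool.Agent.P.MP_8be758_nt.Par (det)
open Pool.Agent.P.MP_8be758_nt.Avg (rho)

theorem LOCID_pow {p c : ℤ} (hp : Prime p) (h : ¬p ∣ c) (j : ℕ) (B : ℤ) :
    p ^ j ∣ c * B ↔ p ^ j ∣ B :=
  ⟨hp.pow_dvd_of_dvd_mul_left j h, fun e => e.mul_left c⟩

theorem LOCID_one {p c : ℤ} (hp : Prime p) (h : ¬p ∣ c) (B : ℤ) : p ∣ c * B ↔ p ∣ B := by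
  simpa using LOCID_pow hp h 1 B

theorem LOCID_sq {p c : ℤ} (hp : Prime p) (h : p ∣ c) (h2 : ¬p ^ 2 ∣ c) (B : ℤ) :
    p ^ 2 ∣ c * B ↔ p ∣ B := by
  obtain ⟨d, rfl⟩ := h
  rw [sq, mul_dvd_mul_iff_left hp.ne_zero] at h2
  rw [sq, mul_assoc, mul_dvd_mul_iff_left hp.ne_zero, LOCID_one hp h2]

theorem LOCID_ite {p d : ℕ} (hp : Prime (p : ℤ)) (h2 : ¬(p : ℤ) ^ 2 ∣ d) (B : ℤ) :
    (p : ℤ) ^ (if p ∣ d then 2 else 1) ∣ d * B ↔ (p : ℤ) ∣ B := by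
  split_ifs with h
  · exact LOCID_sq hp (by exact_mod_cast h) h2 B
  · rw [pow_one]
    exact LOCID_one hp (by exact_mod_cast h) B

theorem LOCID_congr {P Q : Prop} (h : P ↔ Q) : ind P = ind Q := by rw [propext h]

theorem LOCID_loc {p : ℕ} (hp : Prime (p : ℤ)) (θ : ℝ) (D : ℕ) (σ : Sd) (φ : Fm) (M Nt Ns : ℤ)
    (hM : (p : ℤ) ∣ M ↔ p ∣ D) (hM2 : ¬(p : ℤ) ^ 2 ∣ M) (hk2 : ¬(p : ℤ) ^ 2 ∣ σ.af)
    (hD : p ∣ D → ¬(p : ℤ) ∣ σ.s * σ.t ∧ ¬(p : ℤ) ∣ σ.af)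
    (hst : (p : ℤ) ∣ σ.af → ¬(p : ℤ) ∣ σ.s * σ.t)
    (ht : (p : ℤ) ∣ σ.dt → p ∣ D) (hs : (p : ℤ) ∣ σ.ds → p ∣ D)
    (ht2 : ¬(p : ℤ) ^ 2 ∣ σ.dt) (hs2 : ¬(p : ℤ) ^ 2 ∣ σ.ds)
    (hu : ev φ σ.ut = σ.dt * (σ.af * Nt)) (hv : ev φ σ.us = σ.ds * (σ.af * Ns)) :
    (if (p : ℤ) ∣ σ.af * Nt * Ns then θ else 1) *
      ind (¬(p : ℤ) ^ 2 ∣ M * (σ.af * Nt * Ns) ∧
        ((p : ℤ) ∣ σ.s * σ.t → ¬(p : ℤ) ∣ M * (σ.af * Nt * Ns))) = Pr.fv θ D σ p φ := by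
  unfold Pr.fv
  rw [hu, hv]
  by_cases h1 : p ∣ D
  · obtain ⟨a1, a2⟩ := hD h1
    rw [if_pos h1, LOCID_ite hp ht2, LOCID_ite hp hs2, LOCID_sq hp (hM.2 h1) hM2, mul_assoc]
    simp only [LOCID_one hp a2, hp.dvd_mul (a := Nt)]
    by_cases h2 : (p : ℤ) ∣ Nt ∨ (p : ℤ) ∣ Ns
    · rw [ind_neg (by tauto), ind_neg (by tauto), mul_zero]
    · rw [if_neg h2, ind_pos (by tauto), ind_pos (by tauto), mul_one]
  have b1 := mt ht h1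
  have b2 := mt hs h1
  have b3 := mt hM.1 h1
  rw [if_neg h1, LOCID_pow hp b3, LOCID_one hp b3]
  by_cases h2 : (p : ℤ) ∣ σ.af
  · rw [if_pos h2, if_pos ((h2.mul_right _).mul_right _), LOCID_pow hp b1, LOCID_pow hp b2,
      mul_assoc, LOCID_sq hp h2 hk2, LOCID_sq hp h2 hk2, LOCID_sq hp h2 hk2, hp.dvd_mul]
    have := hst h2
    have : (p : ℤ) ∣ σ.dt * (σ.af * Nt) := (h2.mul_right _).mul_left _
    congr 1
    exact LOCID_congr (by tauto)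
  have e : (σ.dt : ℤ) * (σ.af * Nt) * (σ.ds * (σ.af * Ns)) =
      σ.dt * (σ.ds * (σ.af * (σ.af * (Nt * Ns)))) := by ring
  rw [if_neg h2, e, mul_assoc σ.af]
  simp only [LOCID_pow hp b1, LOCID_pow hp b2, LOCID_pow hp h2, LOCID_one hp b1, LOCID_one hp b2,
    LOCID_one hp h2]
  by_cases h3 : (p : ℤ) ∣ Nt * Ns
  · have c : p ∣ σ.s * σ.t ↔ (p : ℤ) ∣ σ.s * σ.t := by norm_cast
    rw [if_pos h3, if_neg (not_not.2 h3)]
    split_ifs with h4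
    · rw [ind_neg (by tauto), mul_zero]
    · rw [ind_pos (by tauto), mul_one]
  · rw [if_neg h3, if_pos h3, ind_pos ⟨fun e => h3 ((dvd_pow_self _ two_ne_zero).trans e),
      fun _ => h3⟩, mul_one]

theorem LOCID_all (s : Finset ℕ) (P : ℕ → Prop) : ind (∀ p ∈ s, P p) = ∏ p ∈ s, ind (P p) := by
  by_cases h : ∀ p ∈ s, P p
  · rw [ind_pos h, prod_eq_one fun p hp => ind_pos (h p hp)]
  · rw [ind_neg h]
    push Not at h
    obtain ⟨p, hp, h⟩ := h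
    exact (prod_eq_zero hp (ind_neg h)).symm

theorem LOCID_d {p m Q D : ℕ} (hp : p.Prime) (hD : Squarefree D) (hm : m ∣ D) (hQ : ¬p ∣ Q) :
    ((p : ℤ) ∣ (Q * m : ℕ) → p ∣ D) ∧ ¬(p : ℤ) ^ 2 ∣ (Q * m : ℕ) := by
  norm_cast
  refine ⟨fun h => ((hp.dvd_mul.1 h).resolve_left hQ).trans hm, fun h => hp.not_isUnit (hD p ?_)⟩
  rw [← sq]
  exact (hp.prime.pow_dvd_of_dvd_mul_left 2 hQ h).trans hm

theorem p_LOCID (hK4 : S_K4) (hSDS : S_SDS) (hCYC : S_CYC) :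
    S_LOCID := by
  obtain ⟨c1, h1⟩ := hSDS
  obtain ⟨c2, h2⟩ := hCYC
  refine ⟨max (max c1 c2) 1, fun A C1 => ⟨1, le_rfl, fun z hA hC hz => ?_⟩⟩
  replace h1 := (h1 A C1).choose_spec.2 z hA hC (hz.mono (le_max_of_le_left (le_max_left _ _)))
  replace h2 := (h2 A C1).choose_spec.2 z hA hC (hz.mono (le_max_of_le_left (le_max_right _ _)))
  have hb := hz.mono (le_max_right _ _)
  refine (h1.and (h2.and (eventually_ge_atTop 1))).mono ?_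
  clear h1 h2
  rintro y ⟨h1, h2, hy⟩ q D1 D2 c0 θ hAD g hg σ hσ
  set ρ : Pr := ⟨z, y⟩
  obtain ⟨hq, hDA, -⟩ := id hAD
  obtain ⟨d1, d2⟩ := DA_pos hDA
  obtain ⟨eq, s1, s2, -, -, -, s3, s4, s5, s6, -⟩ := (mem_SD d1 d2).1 hσ
  obtain ⟨r1, r2, r3, r4, -, r5, r6, -⟩ := (h1 q D1 D2 hq hDA).2.2.2.1 σ hσ
  have eσ : mkS q (σ.e1, σ.a1) (σ.e2, σ.a2) (σ.s, σ.t) = σ := by
    subst eq
    simp [mkS]
  have hc := h2 q D1 D2 c0 hAD g hg (σ.e1, σ.a1) (by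
      simp [Asg, s1, d1.ne', dvd_of_mul_right_dvd s1, dvd_of_mul_left_dvd s1]) (σ.e2, σ.a2) (by
      simp [Asg, s2, d2.ne', dvd_of_mul_right_dvd s2, dvd_of_mul_left_dvd s2]) (σ.s, σ.t)
  simp only [eσ] at hc
  obtain ⟨x1, x2, x3, x4, x5, x6, x7, x8, x9, -⟩ := hc
  simp only [Pr.AT, Pr.AP, mem_filter] at hg
  have hg2 := hg.1.2.2.2.2
  clear h1 h2
  set x := ρ.cy (g, σ)
  have xs : x.s = σ.s := rfl
  have xt : x.t = σ.t := rfl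
  have hst : IsCoprime ((σ.s : ℤ) * σ.t) σ.af := by
    have : IsCoprime ((σ.a : ℤ) + σ.af * (-1)) σ.af := r1.add_mul_left_left _
    convert this using 1
    simp [Sd.af]
  have hK : x.af ∣ x.Bt → x.Bt = σ.af * x.Nt ∧ x.As = σ.af * x.Ns := fun h => by
    have ha : 0 < σ.a := lt_of_lt_of_le (by positivity) s3
    have := hK4 z.A x (by have := hb.2.1; omega) ⟨x3, x1, x2, Int.natCast_pos.2 ha, x6 ▸ r2, h,
      by rw [x6, xt]; exact hst.of_mul_left_right⟩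
    rw [← x6]
    exact ⟨this.1.symm, this.2.1.symm⟩
  have hM : ∀ p ∈ ρ.Ps, (p : ℤ) ∣ x.P * x.R * x.a ↔ p ∣ D1 * D2 := fun p hp => by
    have := Finset.ext_iff.1 x5 p
    simp only [mem_pf, hp, true_and] at this
    rw [this, Int.natCast_dvd_natCast]
  have hD : ∀ p : ℕ, p.Prime → p ∣ D1 * D2 → ¬(p : ℤ) ∣ σ.s * σ.t ∧ ¬(p : ℤ) ∣ σ.af := by
    intro p hp h
    have := mt (Nat.eq_one_of_dvd_coprimes s4 · h) hp.ne_one
    rw [hp.dvd_mul, not_or] at this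
    exact ⟨by exact_mod_cast this.1, by rw [Int.natCast_dvd]; exact this.2⟩
  have hk2 : ∀ p : ℕ, p.Prime → ¬(p : ℤ) ^ 2 ∣ σ.af := fun p hp h => hp.not_isUnit (s5 p (by
    rw [← Int.natCast_dvd, Nat.cast_mul, ← sq]; exact h))
  obtain ⟨q1, q3, q4⟩ : σ.q1 ∈ PP (y ^ z.k5) (y ^ z.k6) ∧ σ.q3 ∈ PP (y ^ z.k3) (y ^ z.k4) ∧
      σ.q4 ∈ PP y (y ^ z.k2) := by rwa [← eq] at hq
  have m1 : σ.e1 * σ.a1 * σ.e2 ∣ D1 * D2 := mul_dvd_mul s1 (dvd_of_mul_right_dvd s2)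
  have m2 : σ.e1 * (σ.e2 * σ.a2) ∣ D1 * D2 := mul_dvd_mul (dvd_of_mul_right_dvd s1) s2
  have et : σ.dt = σ.q3 * σ.q4 * (σ.e1 * σ.a1 * σ.e2) := by simp only [Sd.dt, Sd.E1, Sd.E2]; ring
  have es : σ.ds = σ.q3 * σ.q4 * σ.q1 * (σ.e1 * (σ.e2 * σ.a2)) := by
    simp only [Sd.ds, Sd.E1, Sd.E2]; ring
  have nd : ∀ {p r : ℕ} {u v : ℝ}, p.Prime → r ∈ PP u v → p ≠ r → ¬p ∣ r := fun hp hr e h =>
    e ((Nat.prime_dvd_prime_iff_eq hp (prime_of_PP hr)).1 h)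
  refine ⟨?_, fun p hp hV h => ?_⟩
  swap
  · obtain ⟨e1, e2⟩ := hK hV.1
    have hpp := Nat.prime_iff_prime_int.1 (prime_of_PP hp)
    refine ⟨fun h' => (hV.2.1 p hp).1 ?_, ?_⟩
    · have : (p : ℤ) ∣ x.P * x.R * x.a * σ.af := by
        rcases hpp.dvd_or_dvd h' with h' | h'
        · exact ((hM p hp).2 (by exact_mod_cast h')).mul_right _
        · exact h'.mul_left _
      rw [sq, VT.Pi6, x6, mul_assoc σ.af, ← mul_assoc]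
      exact mul_dvd_mul this h
    · rw [← x7, ← x8, e1, e2]
      exact h.trans ⟨σ.dt * σ.ds * σ.af * σ.af, by ring⟩
  rw [Pr.cv, Pr.cw, Pr.om, x5, ← Pr.om, mul_assoc, mul_assoc _ (ind _)]
  congr 1
  by_cases hB : x.af ∣ x.Bt
  · obtain ⟨e1, e2⟩ := hK hB
    have big : ∀ p ∈ ρ.Ps, ∀ (n r : ℕ) (v : ℝ), 1 ≤ n → r ∈ PP (y ^ n) v → ¬p ∣ r := by
      intro p hp n r v hn hr
      refine nd (prime_of_PP hp) hr fun e => ?_
      have a1 := ((mem_PP (by linarith)).1 hp).2.2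
      have a2 := lt_of_PP hr
      have a3 : y ≤ y ^ n := le_self_pow₀ hy (by omega)
      rw [← e] at a2
      linarith
    obtain ⟨-, -, -, -, -, -, k1, k2, k3, k4, -⟩ := hb
    rw [prod_eq_one (s := ρ.lp σ.af) fun p hp => ind_pos (by
      rw [← x7, e1]
      exact (Dvd.dvd.mul_right (Int.natCast_dvd.2
        (Nat.dvd_of_mem_primeFactors (mem_filter.1 hp).1)) _).mul_left _), one_mul, Pr.Val,
      ind_and, ind_pos hB, one_mul, ind_and, LOCID_congr x9, LOCID_all, ← mul_assoc, mul_comm,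
      Pr.om, Pr.pf, ← prod_const, prod_filter, ← prod_mul_distrib]
    congr 1
    refine prod_congr rfl fun p hp => ?_
    have hp' := prime_of_PP hp
    have n3 := big p hp _ _ _ (by omega) q3
    have n4 := big p hp 1 _ _ le_rfl (by rw [pow_one]; exact q4)
    have n1 := big p hp _ _ _ (by omega) q1
    have t1 := LOCID_d hp' hDA.1 m1 (mt hp'.dvd_mul.1 (not_or.2 ⟨n3, n4⟩))
    have t2 := LOCID_d hp' hDA.1 m2 (mt hp'.dvd_mul.1 (not_or.2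
      ⟨mt hp'.dvd_mul.1 (not_or.2 ⟨n3, n4⟩), n1⟩))
    rw [← et] at t1
    rw [← es] at t2
    have hpp := Nat.prime_iff_prime_int.1 hp'
    rw [VT.Pi6, x6, xs, xt]
    exact LOCID_loc hpp θ _ σ _ _ _ _ (hM p hp) (x4 ▸ hg2 p hp) (hk2 p hp') (hD p hp')
      (fun a b => hpp.not_isUnit (hst.isUnit_of_dvd' b a)) t1.1 t2.1 t1.2 t2.2
      (by rw [← x7, e1]) (by rw [← x8, e2])
  rw [ind_neg fun h : ρ.Val x => hB h.1, mul_zero]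
  obtain ⟨p, hp, a1, a2⟩ : ∃ p : ℕ, p.Prime ∧ (p : ℤ) ∣ σ.af ∧ ¬(p : ℤ) ∣ x.Bt := by
    by_contra! h
    refine hB ?_
    rw [x6, ← Int.natAbs_dvd, ← Nat.prod_primeFactors_of_squarefree s5, Int.natCast_dvd]
    refine Finset.prod_primes_dvd _ (fun p hp => (Nat.prime_of_mem_primeFactors hp).prime)
      fun p hp => Int.natCast_dvd.1 (h p (Nat.prime_of_mem_primeFactors hp)
        (Int.natCast_dvd.2 (Nat.dvd_of_mem_primeFactors hp)))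
  have b1 : ¬p ∣ D1 * D2 := fun h => (hD p hp h).2 a1
  have b2 := mt (LOCID_d hp hDA.1 m1 (mt hp.dvd_mul.1 (not_or.2
    ⟨nd hp q3 fun e => r5 (e ▸ a1), nd hp q4 fun e => r6 (e ▸ a1)⟩))).1 b1
  rw [← et] at b2
  have b3 : ¬(p : ℤ) ∣ ev (ρ.fm g) σ.ut := by
    rw [← x7, LOCID_one (Nat.prime_iff_prime_int.1 hp) b2]
    exact a2
  rcases lt_or_ge y p with h | h
  · rw [prod_eq_zero (s := ρ.lp σ.af) (i := p) (mem_filter.2 ⟨Nat.mem_primeFactors.2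
      ⟨hp, Int.natCast_dvd.1 a1, by omega⟩, h⟩) (ind_neg b3), zero_mul, mul_zero]
  · rw [prod_eq_zero (s := ρ.Ps) (i := p) ((mem_PP (by linarith)).2
      ⟨hp, by exact_mod_cast (s6 p hp a1).1, h⟩) (by
        rw [Pr.fv, if_neg b1, if_pos a1, ind_neg fun e => b3 e.1, mul_zero]), mul_zero, mul_zero]

end Pool.Agent.P.MP_8be758_nt.Pd
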