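import Pool.Agent.P.MP_8be758_nt.Pd.IfH

/-! Step LOCW. -/

namespace Pool.Agent.P.MP_8be758_nt.Pd

open Finset Real Filter
open Pool.Agent.P.MP_8be758_nt.Par (det)
open Pool.Agent.P.MP_8be758_nt.Avg (rho)

theorem LOCW_shift (q c b P e : ℤ) (hq : Prime q) (he : ¬q ∣ e) (h : ¬q ∣ b + 2 * P * e) :
    ∃ t : ℤ, ¬q ∣ t ∧ ¬q ^ 2 ∣ c + b * t + P * t ^ 2 := by
  by_cases h1 : q ^ 2 ∣ c + b * e + P * e ^ 2
  · refine ⟨e + q, fun h2 => he ((dvd_add_left (dvd_refl q)).1 h2), fun h2 => h ?_⟩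
    have h3 : q ^ 2 ∣ (c + b * (e + q) + P * (e + q) ^ 2) - (c + b * e + P * e ^ 2) - q ^ 2 * P :=
      dvd_sub (dvd_sub h2 h1) (dvd_mul_right _ _)
    have h4 : (c + b * (e + q) + P * (e + q) ^ 2) - (c + b * e + P * e ^ 2) - q ^ 2 * P
        = q * (b + 2 * P * e) := by ring
    rw [h4, pow_two] at h3
    exact (mul_dvd_mul_iff_left hq.ne_zero).1 h3
  · exact ⟨e, he, h1⟩

theorem LOCW_t (q P R a b : ℤ) (hq : Prime q) (h2 : ¬q ∣ 2) (ha : ¬q ∣ a)
    (hR : q ∣ P → q ∣ b → ¬q ∣ R) :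
    ∃ t : ℤ, ¬q ∣ t ∧ ¬q ^ 2 ∣ a * R + b * t + P * t ^ 2 := by
  have h1 : ¬q ∣ 1 := hq.not_dvd_one
  by_cases hA : q ∣ b + 2 * P * 1
  · by_cases hB : q ∣ b + 2 * P * (-1)
    · have h4 : q ∣ 2 * (2 * P) := by
        have := dvd_sub hA hB
        rwa [show b + 2 * P * 1 - (b + 2 * P * (-1)) = 2 * (2 * P) by ring] at this
      have hP : q ∣ P :=
        ((hq.dvd_or_dvd ((hq.dvd_or_dvd h4).resolve_left h2)).resolve_left h2)
      have hb : q ∣ b := by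
        have := dvd_sub hA (Dvd.dvd.mul_left hP 2)
        rwa [show b + 2 * P * 1 - 2 * P = b by ring] at this
      refine ⟨1, h1, fun h => ?_⟩
      have h5 : q ∣ a * R + b * 1 + P * 1 ^ 2 := (dvd_pow_self q two_ne_zero).trans h
      have h6 : q ∣ a * R := by
        have := dvd_sub (dvd_sub h5 hb) hP
        rwa [show a * R + b * 1 + P * 1 ^ 2 - b - P = a * R by ring] at this
      exact (hq.dvd_or_dvd h6).elim ha (hR hP hb)
    · exact LOCW_shift q _ b P (-1) hq (fun h => h1 ((dvd_neg).1 h)) hB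
  · exact LOCW_shift q _ b P 1 hq h1 hA

theorem p_LOCW :
    S_LOCW := by
  intro A p P R a b hA hp hd ha hR
  have hq : Prime (p : ℤ) := Nat.prime_iff_prime_int.1 hp
  by_cases h2 : (p : ℤ) ∣ 2
  · have hp2 : p = 2 := by
      have : p ∣ 2 := by exact_mod_cast h2
      exact (Nat.prime_dvd_prime_iff_eq hp Nat.prime_two).1 this
    subst hp2
    obtain ⟨m, hm⟩ := hA
    have hb : Odd b := by
      by_contra hb
      obtain ⟨n, hn⟩ := Int.not_odd_iff_even.1 hb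
      subst hn
      have : (4 : ℤ) * (n ^ 2 - P * (a * R) + A) = 1 := by linarith [hd, show (n + n) ^ 2 = 4 * n ^ 2 by ring]
      omega
    obtain ⟨n, hn⟩ := hb
    have hev : Even (n * (n + 1)) := Int.even_mul_succ_self n
    obtain ⟨k, hk⟩ := hev
    have hodd : Odd (P * (a * R)) := by
      refine ⟨k + m, ?_⟩
      have h1 : (A : ℤ) = 2 * m + 1 := by exact_mod_cast hm
      have h3 : b ^ 2 = 4 * (n * (n + 1)) + 1 := by rw [hn]; ring
      rw [h3, hk, h1] at hd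
      linarith
    obtain ⟨hP, haR⟩ := Int.odd_mul.1 hodd
    obtain ⟨-, hRo⟩ := Int.odd_mul.1 haR
    refine ⟨0, 1, 1, hq.not_dvd_one, dvd_zero _, fun h => ?_, Or.inr fun h => ?_, by simp⟩
    · have h5 : ((2 : ℕ) : ℤ) ∣ a * R + b * 1 + P * 1 ^ 2 := (dvd_pow_self _ two_ne_zero).trans h
      obtain ⟨x, hx⟩ := hP
      obtain ⟨y, hy⟩ := haR
      obtain ⟨z, hz⟩ := h5
      rw [hy, hn, hx] at hz
      push_cast at hz
      omega
    · obtain ⟨x, hx⟩ := hRo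
      obtain ⟨z, hz⟩ := h
      rw [hx] at hz
      push_cast at hz
      omega
  · obtain ⟨t, ht, hB⟩ := LOCW_t p P R a b hq h2 ha hR
    by_cases hr : (p : ℤ) ∣ R
    · by_cases hP : (p : ℤ) ^ 2 ∣ a * P
      · have hP1 : (p : ℤ) ∣ P :=
          (hq.dvd_or_dvd ((dvd_pow_self _ two_ne_zero).trans hP)).resolve_left ha
        have hb : ¬(p : ℤ) ∣ b := fun hb => hR hP1 hb hr
        have h2a : ¬(p : ℤ) ∣ 2 * a := fun h => (hq.dvd_or_dvd h).elim h2 ha
        obtain ⟨u, i, hui⟩ : IsCoprime (p : ℤ) (2 * a) := (hq.coprime_iff_not_dvd).2 h2a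
        refine ⟨p, t, 1 - p * t * i, ht, dvd_refl _, hB, Or.inl fun h => hb ?_, ?_⟩
        · have h3 := dvd_sub (dvd_sub h hP) (dvd_mul_left ((p : ℤ) ^ 2) R)
          rw [show a * P + b * p + R * (p : ℤ) ^ 2 - a * P - R * (p : ℤ) ^ 2 = p * b by ring,
            pow_two] at h3
          exact (mul_dvd_mul_iff_left hq.ne_zero).1 h3
        · refine Int.modEq_iff_dvd.2 ⟨-(t * u) - t ^ 2 * i ^ 2 * a, ?_⟩
          push_cast
          linear_combination ((p : ℤ) * t) * hui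
      · exact ⟨0, t, 1, ht, dvd_zero _, hB, Or.inl (by simpa using hP), by simp⟩
    · exact ⟨0, t, 1, ht, dvd_zero _, hB, Or.inr hr, by simp⟩

end Pool.Agent.P.MP_8be758_nt.Pd
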