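import Pool.Agent.P.MP_8be758_nt.Pd.IfG2

/-! Step MB. -/

namespace Pool.Agent.P.MP_8be758_nt.Pd

open Finset Real Filter
open Pool.Agent.P.MP_8be758_nt.Par (det)
open Pool.Agent.P.MP_8be758_nt.Avg (rho)

theorem MB_exp {x : ℝ} (h0 : 0 ≤ x) (h1 : x ≤ 1 / 2) : exp (-x - 2 * x ^ 2) ≤ 1 - x := by
  have h2 : 1 + (x + 2 * x ^ 2) ≤ exp (x + 2 * x ^ 2) := by
    linarith [add_one_le_exp (x + 2 * x ^ 2)]
  have h3 : exp (-x - 2 * x ^ 2) * exp (x + 2 * x ^ 2) = 1 := by rw [← exp_add]; simp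
  have h4 := exp_pos (-x - 2 * x ^ 2)
  have h5 : 1 ≤ (1 - x) * (1 + (x + 2 * x ^ 2)) := by
    nlinarith [mul_nonneg (sq_nonneg x) (show 0 ≤ 1 - 2 * x by linarith)]
  have h6 : 0 < 1 + (x + 2 * x ^ 2) := by positivity
  refine le_of_mul_le_mul_right ?_ h6
  nlinarith [mul_le_mul_of_nonneg_left h2 h4.le]

theorem MB_Gm (ρ : Pr) (D : ℕ) (hw : 12 ≤ ρ.w) (hr : ∀ p ∈ ρ.Ps, rho ρ.A p = 0 ∨ rho ρ.A p = 2)
    (h2 : ∑ p ∈ ρ.Ps, (1 : ℝ) / p ^ 2 ≤ 1 / ρ.w) (hs : ρ.si D ≤ 1 / √ρ.w) :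
    exp (-(5 / 3) * ρ.La - 4) ≤ ρ.Gm D ∧ ρ.Gm D ≤ exp (-(5 / 3) * ρ.La + 4) := by
  have hw' : (12 : ℝ) ≤ ρ.w := by exact_mod_cast hw
  have hp : ∀ p ∈ ρ.Ps, (12 : ℝ) < p ∧ 0 ≤ (rho ρ.A p : ℝ) ∧ (rho ρ.A p : ℝ) ≤ 2 := fun p h =>
    ⟨hw'.trans_lt (lt_of_PP h), Nat.cast_nonneg _, by rcases hr p h with e | e <;> simp [e]⟩
  have hx : ∀ p ∈ ρ.Ps, 0 ≤ 5 / 3 * (rho ρ.A p : ℝ) / p ∧ 5 / 3 * (rho ρ.A p : ℝ) / p ≤ 1 / 2 ∧
      2 * (5 / 3 * (rho ρ.A p : ℝ) / p) ^ 2 ≤ 25 * (1 / (p : ℝ) ^ 2) := fun p h => by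
    obtain ⟨a, b, c⟩ := hp p h
    have p0 : (0 : ℝ) < p := by linarith
    refine ⟨by positivity, by rw [div_le_iff₀ p0]; linarith, ?_⟩
    rw [div_pow, ← mul_div_assoc, ← mul_div_assoc]
    exact div_le_div_of_nonneg_right (by nlinarith) (by positivity)
  have hsp := sum_filter_add_sum_filter_not ρ.Ps (fun p => p ∣ D) fun p => (rho ρ.A p : ℝ) / p
  have hA : 0 ≤ ∑ p ∈ ρ.Ps.filter (fun p => p ∣ D), (rho ρ.A p : ℝ) / p :=
    sum_nonneg fun p _ => by positivity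
  have hB : ∑ p ∈ ρ.Ps.filter (fun p => p ∣ D), (rho ρ.A p : ℝ) / p ≤ 2 * ρ.si D := by
    have e : ρ.pf D = ρ.Ps.filter (fun p => p ∣ D) :=
      filter_congr fun p _ => Int.natCast_dvd_natCast
    rw [Pr.si, e, mul_sum]
    refine sum_le_sum fun p h => ?_
    rw [← mul_div_assoc, mul_one]
    exact div_le_div_of_nonneg_right (hp p (mem_filter.1 h).1).2.2 (Nat.cast_nonneg _)
  have hC : 1 / √(ρ.w : ℝ) ≤ 1 := by
    rw [div_le_one (sqrt_pos.2 (by linarith))]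
    exact one_le_sqrt.2 (by linarith)
  have hD : 1 / (ρ.w : ℝ) ≤ 1 / 12 := one_div_le_one_div_of_le (by norm_num) hw'
  have hE : ∑ p ∈ ρ.Ps.filter (fun p => ¬p ∣ D), (1 : ℝ) / p ^ 2 ≤ ∑ p ∈ ρ.Ps, (1 : ℝ) / p ^ 2 :=
    sum_le_sum_of_subset_of_nonneg (filter_subset _ _) fun p _ _ => by positivity
  have hL : ρ.La = ∑ p ∈ ρ.Ps, (rho ρ.A p : ℝ) / p := rfl
  constructor
  · calc _ ≤ exp (∑ p ∈ ρ.Ps.filter (fun p => ¬p ∣ D),
          (-(5 / 3) * ((rho ρ.A p : ℝ) / p) - 25 * (1 / (p : ℝ) ^ 2))) := by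
          rw [sum_sub_distrib, ← mul_sum, ← mul_sum]
          exact exp_le_exp.2 (by linarith)
      _ ≤ _ := by
          rw [exp_sum]
          refine prod_le_prod (fun p _ => (exp_pos _).le) fun p h => ?_
          obtain ⟨a, b, c⟩ := hx p (mem_filter.1 h).1
          refine le_trans (exp_le_exp.2 ?_) (MB_exp a b)
          rw [mul_div_assoc] at c ⊢
          linarith
  · calc _ ≤ exp (∑ p ∈ ρ.Ps.filter (fun p => ¬p ∣ D), -(5 / 3) * ((rho ρ.A p : ℝ) / p)) := by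
          rw [exp_sum]
          refine prod_le_prod (fun p h => ?_) fun p h => ?_
          · linarith [(hx p (mem_filter.1 h).1).2.1]
          · rw [mul_div_assoc]
            linarith [add_one_le_exp (-(5 / 3) * ((rho ρ.A p : ℝ) / p))]
      _ ≤ _ := by
          rw [← mul_sum]
          exact exp_le_exp.2 (by linarith)

theorem MB_Asg {D : ℕ} {α : ℕ × ℕ} (h : α ∈ Asg D) : 0 < α.1 ∧ 0 < α.2 ∧ α.1 * α.2 ∣ D := by
  simp only [Asg, mem_filter, mem_product] at h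
  exact ⟨Nat.pos_of_mem_divisors h.1.1, Nat.pos_of_mem_divisors h.1.2, h.2⟩

theorem MB_SA {ρ : Pr} {q : ℕ × ℕ × ℕ} {D1 D2 s t : ℕ} {α β : ℕ × ℕ} (hq : ρ.QR q)
    (hα : α ∈ Asg D1) (hβ : β ∈ Asg D2)
    (h : ρ.SB (D1 * D2) (mkS q α β 0).a (mkS q α β 0).T s t) :
    ρ.SA D1 D2 (mkS q α β ((s : ℤ), (t : ℤ))) := by
  obtain ⟨h1, h2, h3, h4, h5, h6, h7, h8, h9, h10, h11⟩ := h
  have hE : (0 : ℝ) < ((mkS q α β 0).E2 : ℝ) := by
    exact_mod_cast Nat.mul_pos (MB_Asg hβ).1 (prime_of_PP hq.2.2).pos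
  rw [Sd.T, div_lt_iff₀ hE] at h1
  rw [Sd.T, le_div_iff₀ hE] at h2
  refine ⟨(MB_Asg hα).2.2, (MB_Asg hβ).2.2, ?_, ?_, ?_, ?_, h5, h6, h7, h8, h9, h10, h11⟩
  · show (mkS q α β 0).E1 * (mkS q α β 0).a1 < 2 * t * (mkS q α β 0).E2
    exact_mod_cast h1
  · show t * (mkS q α β 0).E2 ≤ (mkS q α β 0).E1 * (mkS q α β 0).a1
    exact_mod_cast h2
  · show (mkS q α β 0).a ≤ 4 * (s * t)
    exact_mod_cast h3
  · show 2 * (s * t) ≤ (mkS q α β 0).a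
    exact_mod_cast h4

theorem MB_inj {S : Finset (ℕ × ℕ)} {R : Finset V2} {c : ℕ × ℕ → Prop} {f : ℕ × ℕ → ℝ}
    {F : V2 → ℝ} (h0 : ∀ v ∈ R, 0 ≤ F v)
    (h : ∀ u ∈ S, c u → ((u.2 : ℤ), (u.1 : ℤ)) ∈ R ∧ f u = F ((u.2 : ℤ), (u.1 : ℤ))) :
    ∑ u ∈ S, ind (c u) * f u ≤ ∑ v ∈ R, F v := by
  classical
  have e : ∑ u ∈ S, ind (c u) * f u = ∑ u ∈ S.filter c, F ((u.2 : ℤ), (u.1 : ℤ)) := by
    rw [sum_filter]
    refine sum_congr rfl fun u hu => ?_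
    by_cases hc : c u
    · rw [ind_pos hc, if_pos hc, one_mul, (h u hu hc).2]
    · rw [ind_neg hc, if_neg hc, zero_mul]
  rw [e, ← sum_image (f := F) (g := fun u : ℕ × ℕ => ((u.2 : ℤ), (u.1 : ℤ)))]
  · refine sum_le_sum_of_subset_of_nonneg (fun v hv => ?_) fun v hv _ => h0 v hv
    obtain ⟨u, hu, rfl⟩ := mem_image.1 hv
    exact (h u (mem_filter.1 hu).1 (mem_filter.1 hu).2).1
  · intro u _ u' _ e
    simp only [Prod.mk.injEq, Nat.cast_inj] at e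
    exact Prod.ext e.2 e.1

theorem p_MB (hHL : S_HL) (hHS : S_HS) (hSDS : S_SDS) (hCYC : S_CYC) (hLAM : S_LAM) :
    S_MB := by
  obtain ⟨c1, h1⟩ := hHL
  obtain ⟨c2, h2⟩ := hHS 2 (by norm_num)
  obtain ⟨c3, h3⟩ := hSDS
  obtain ⟨c4, h4⟩ := hCYC
  obtain ⟨c5, h5⟩ := hLAM
  refine ⟨c1 + c2 + c3 + c4 + c5 + 1, fun A C1 => ?_⟩
  obtain ⟨CL, hCL, h1⟩ := h1 A C1
  obtain ⟨CS, hCS, h2⟩ := h2 A C1
  obtain ⟨_, -, h3⟩ := h3 A C1
  obtain ⟨_, -, h4⟩ := h4 A C1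
  obtain ⟨_, -, h5⟩ := h5 A C1
  have e4 : (1 : ℝ) ≤ exp 4 := one_le_exp (by norm_num)
  refine ⟨CL * CS * exp 4, one_le_mul_of_one_le_of_one_le (one_le_mul_of_one_le_of_one_le hCL hCS) e4,
    fun z hA hC hz => ?_⟩
  refine ((h1 z hA hC (hz.mono (by omega))).and ((h2 z hA hC (hz.mono (by omega))).and
    ((h3 z hA hC (hz.mono (by omega))).and ((h4 z hA hC (hz.mono (by omega))).and
    ((h5 z hA hC (hz.mono (by omega))).and (eventually_ge_atTop (z.w : ℝ))))))).mono fun y H => ?_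
  clear h1 h2 h3 h4 h5
  obtain ⟨h1, h2, h3, h4, h5, hy⟩ := H
  obtain ⟨-, b2, -, b4, -, -, b7, b8, b9, b10, -⟩ := hz.mono (show 1 ≤ _ by omega)
  have hw : 12 ≤ (⟨z, y⟩ : Pr).w := show 12 ≤ z.w by omega
  have hk : (⟨z, y⟩ : Pr).k5 ≠ 0 := show z.k5 ≠ 0 by omega
  change ((⟨z, y⟩ : Pr).w : ℝ) ≤ (⟨z, y⟩ : Pr).y at hy
  generalize (⟨z, y⟩ : Pr) = ρ at h1 h2 h3 h4 h5 hy hw hk ⊢
  rintro q D1 D2 c0 hAD ⟨g, hg⟩
  obtain ⟨hq, hD, -⟩ := id hAD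
  obtain ⟨s1, -, s3, s4, s5⟩ := h3 q D1 D2 hq hD
  obtain ⟨G1, G2⟩ := MB_Gm ρ (D1 * D2) hw h5.2.2.2.1 h5.2.2.2.2.2.1 hD.2.2.2.2.2.2
  set I : ℕ × ℕ → ℕ × ℕ → ℝ := fun α β => ∑ v ∈ SR (mkS q α β 0).a (mkS q α β 0).T 2,
    ind (0 < v.1 ∧ 0 < v.2 ∧ mkS q α β v ∈ ρ.SD q D1 D2) *
      (ind ((mkS q α β v).GW0 ρ.w (ρ.fm c0)) * ρ.hh (1 / 6) (mkS q α β v).af) with hI
  have hM : ρ.MM q D1 D2 c0 = (1 / 3) ^ ρ.om (D1 * D2 : ℕ) * ρ.Gm (D1 * D2) *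
      ∑ α ∈ Asg D1, ∑ β ∈ Asg D2, I α β := by
    rw [Pr.MM, s5]
    simp only [hI, mul_sum, Pr.Mw]
    exact sum_congr rfl fun _ _ => sum_congr rfl fun _ _ => sum_congr rfl fun _ _ => by ring
  have hN : ∀ B : ℝ, (1 / 3) ^ ρ.om (D1 * D2 : ℕ) * ρ.Gm (D1 * D2) *
      ∑ _α ∈ Asg D1, ∑ _β ∈ Asg D2, B = ρ.Gm (D1 * D2) * B := fun B => by
    have : ((Asg D1).card : ℝ) * (Asg D2).card = 3 ^ ρ.om (D1 * D2 : ℕ) := by exact_mod_cast s1
    simp only [sum_const, nsmul_eq_mul]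
    rw [← mul_assoc ((Asg D1).card : ℝ), this, one_div, inv_pow]
    field_simp
  have G0 : 0 ≤ (1 / 3) ^ ρ.om (D1 * D2 : ℕ) * ρ.Gm (D1 * D2) :=
    mul_nonneg (by positivity) ((exp_pos _).le.trans G1)
  have hw' : (12 : ℝ) ≤ ρ.w := by exact_mod_cast hw
  constructor
  · have hl : ∀ α ∈ Asg D1, ∀ β ∈ Asg D2, exp (-(5 / 6) * ρ.La) / (CL * ρ.ls) ≤ I α β := by
      intro α hα β hβ
      obtain ⟨⟨r1, r2, r3, r4⟩, r5, r6, -⟩ := s3 α hα β hβ 0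
      obtain ⟨x1, x2, x3, -, -, -, -, -, -, x10⟩ := h4 q D1 D2 c0 hAD g hg α hα β hβ 0
      have hq1 : ρ.y ^ ρ.k5 < q.1 := lt_of_PP hq.1
      have hH : ρ.HD (ρ.cy (g, mkS q α β 0)).P (ρ.cy (g, mkS q α β 0)).R (mkS q α β 0).a
          (ρ.cy (g, mkS q α β 0)).b (D1 * D2) (mkS q α β 0).T := by
        refine ⟨x1, x2, x3, x10, fun p hp hd => ?_, hq1.le.trans ?_, r4, r1, r2, r5,
          hD.1.ne_zero, hD.2.1, hD.2.2.2.2.2.2⟩
        · have hd' : p ∣ α.2 * β.2 * q.1 := Int.natCast_dvd_natCast.1 hd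
          rcases (Nat.Prime.dvd_mul hp).1 hd' with e | e
          · have e' : p ∣ D1 * D2 := e.trans (Nat.mul_dvd_mul
              (dvd_of_mul_left_dvd (MB_Asg hα).2.2) (dvd_of_mul_left_dvd (MB_Asg hβ).2.2))
            exact ⟨by exact_mod_cast lt_of_PP (hD.2.1 (Nat.mem_primeFactors.2 ⟨hp, e', hD.1.ne_zero⟩)),
              Or.inl e'⟩
          · obtain rfl := (Nat.prime_dvd_prime_iff_eq hp (prime_of_PP hq.1)).1 e
            refine ⟨?_, Or.inr r6⟩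
            have := le_self_pow₀ (show 1 ≤ ρ.y by linarith) hk
            exact_mod_cast (show (ρ.w : ℝ) < q.1 by linarith)
        · have : q.1 ≤ (mkS q α β 0).a :=
            Nat.le_mul_of_pos_left _ (Nat.mul_pos (MB_Asg hα).2.1 (MB_Asg hβ).2.1)
          exact_mod_cast this
      refine (h1 _ _ _ _ _ _ hH).trans ?_
      simp only [Pr.Hs]
      rw [← sum_product']
      refine MB_inj (fun v _ => ?_) fun u hu hc => ?_
      · by_cases hv : 0 < v.1 ∧ 0 < v.2 ∧ mkS q α β v ∈ ρ.SD q D1 D2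
        · exact mul_nonneg (ind_nonneg _) (mul_nonneg (ind_nonneg _)
            ((s4 _ hv.2.2).2.2.2.2.2.2.2.2 _ (by norm_num)).1)
        · rw [ind_neg hv, zero_mul]
      · obtain ⟨t, s⟩ := u
        simp only [mem_product, mem_Icc] at hu
        have hS : mkS q α β ((s : ℤ), (t : ℤ)) ∈ ρ.SD q D1 D2 :=
          (mem_SD (DA_pos hD).1 (DA_pos hD).2).2 ⟨rfl, MB_SA hq hα hβ hc.1⟩
        obtain ⟨-, -, -, -, -, -, -, -, x9, -⟩ := h4 q D1 D2 c0 hAD g hg α hα β hβ ((s : ℤ), (t : ℤ))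
        obtain ⟨⟨y1, y2, -, y4, -⟩, y5⟩ := hc
        refine ⟨(mem_SR (by linarith)).2 ⟨?_, ?_, ?_, by dsimp only; linarith, ?_⟩, ?_⟩
        · simp only [Int.cast_natCast, Nat.abs_cast]; linarith
        · simp only [Int.cast_natCast, Nat.abs_cast]; linarith
        · have : (0 : ℤ) ≤ s * t := by positivity
          dsimp only at y4 ⊢
          rw [abs_of_nonneg this]; linarith
        · have c : IsCoprime ((mkS q α β 0).a : ℤ) (((mkS q α β 0).a : ℤ) - s * t) := (s4 _ hS).1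
          obtain ⟨m, n, c⟩ := c
          exact ⟨m * s, m + n, by dsimp only; linear_combination c⟩
        · rw [ind_pos ⟨Int.natCast_pos.2 hu.2.1, Int.natCast_pos.2 hu.1.1, hS⟩, ind_pos (x9.2 y5),
            one_mul, one_mul]
          rfl
    have hls : 0 ≤ ρ.ls := by unfold Pr.ls; positivity
    calc _ ≤ ρ.Gm (D1 * D2) * (exp (-(5 / 6) * ρ.La) / (CL * ρ.ls)) := by
          rw [← div_div, ← div_div (exp _) CL, ← mul_div_assoc]
          refine div_le_div_of_nonneg_right ?_ hls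
          refine le_trans ?_ (mul_le_mul_of_nonneg_right G1 (by positivity))
          rw [← mul_div_assoc, ← exp_add, div_le_div_iff₀ (by positivity) (by positivity),
            show -(5 / 2) * ρ.La = (-(5 / 3) * ρ.La - 4 + -(5 / 6) * ρ.La) + 4 by ring, exp_add _ 4]
          have : 0 < exp (-(5 / 3) * ρ.La - 4 + -(5 / 6) * ρ.La) * exp 4 * CL := by positivity
          nlinarith
      _ ≤ _ := by
          rw [hM, ← hN]
          exact mul_le_mul_of_nonneg_left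
            (sum_le_sum fun α hα => sum_le_sum fun β hβ => hl α hα β hβ) G0
  · have hu : ∀ α ∈ Asg D1, ∀ β ∈ Asg D2,
        I α β ≤ 2 ^ ρ.U * (CS * exp ((2 * (1 / 6) / 2 - 1) * ρ.La)) := by
      intro α hα β hβ
      have r := (s3 α hα β hβ 0).1
      refine le_trans ?_ (mul_le_mul_of_nonneg_left
        (h2 _ _ (2 * (1 / 6)) r (by norm_num) (by norm_num)) (by positivity))
      rw [mul_sum]
      refine sum_le_sum fun v hv => ?_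
      by_cases hc : 0 < v.1 ∧ 0 < v.2 ∧ mkS q α β v ∈ ρ.SD q D1 D2
      · obtain ⟨a, b⟩ := (s4 _ hc.2.2).2.2.2.2.2.2.2.2 (1 / 6) (by norm_num)
        have e : (mkS q α β v).af = (mkS q α β 0).a - v.1 * v.2 := by
          simp only [Sd.af, mkS, Sd.a, Int.toNat_of_nonneg hc.1.le, Int.toNat_of_nonneg hc.2.1.le]
        rw [ind_pos hc, one_mul, ← e]
        exact (mul_le_of_le_one_left a (ind_le_one _)).trans b
      · rw [ind_neg hc, zero_mul]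
        obtain ⟨-, -, -, m, -⟩ := (mem_SR (by linarith [r.1])).1 hv
        have m0 : (0 : ℤ) ≤ (mkS q α β 0).a - v.1 * v.2 := by
          linarith [Int.natCast_nonneg (mkS q α β 0).a]
        exact mul_nonneg (by positivity) (div_nonneg (mul_nonneg (by positivity) (ind_nonneg _))
          (by exact_mod_cast m0))
    calc _ ≤ ρ.Gm (D1 * D2) * (2 ^ ρ.U * (CS * exp ((2 * (1 / 6) / 2 - 1) * ρ.La))) := by
          rw [hM, ← hN]
          exact mul_le_mul_of_nonneg_left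
            (sum_le_sum fun α hα => sum_le_sum fun β hβ => hu α hα β hβ) G0
      _ ≤ _ := by
          refine (mul_le_mul_of_nonneg_right G2 (by positivity)).trans ?_
          rw [show -(5 / 2) * ρ.La = -(5 / 3) * ρ.La + (2 * (1 / 6) / 2 - 1) * ρ.La by ring,
            exp_add, exp_add]
          have : 0 < exp (-(5 / 3) * ρ.La) * exp 4 *
            (2 ^ ρ.U * (CS * exp ((2 * (1 / 6) / 2 - 1) * ρ.La))) := by positivity
          nlinarith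

end Pool.Agent.P.MP_8be758_nt.Pd
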