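import Pool.Agent.P.MP_8be758_nt.Pd.If0
import Pool.Agent.P.MP_8be758_nt.Avg.CHI
import Pool.Agent.P.MP_8be758_nt.Avg.ROOT
import Pool.Agent.P.MP_8be758_nt.Avg.RHO
import Pool.Agent.P.MP_8be758_nt.Avg.MERT
import Pool.Agent.P.MP_74dd9d_nt.Mertens

/-! Step MER. -/

namespace Pool.Agent.P.MP_8be758_nt.Pd

open Finset Real Filter Topology
open ArithmeticFunction (cardFactors)
open Pool.Agent.P.MP_8be758_nt.Par (det)
open Pool.Agent.P.MP_8be758_nt.Avg (rho chi)

theorem MER_char (q : ℕ) [NeZero q] (hq : q % 4 = 3) : ∃ X : DirichletCharacter ℂ q, X ≠ 1 ∧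
    ∀ n : ℤ, X n = (jacobiSym n q : ℂ) := by
  have key : ∀ n : ℤ, jacobiSym (((n : ZMod q).val : ℕ) : ℤ) q = jacobiSym n q := fun n => by
    rw [ZMod.val_intCast, ← jacobiSym.mod_left]
  let X : DirichletCharacter ℂ q :=
    { toFun := fun a => (jacobiSym ((a.val : ℕ) : ℤ) q : ℂ)
      map_one' := by
        have := key 1
        rw [Int.cast_one] at this
        simp only [this, jacobiSym.one_left, Int.cast_one]
      map_mul' := fun a b => by
        obtain ⟨a, rfl⟩ := ZMod.intCast_surjective a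
        obtain ⟨b, rfl⟩ := ZMod.intCast_surjective b
        rw [← Int.cast_mul, key, key, key, jacobiSym.mul_left, Int.cast_mul]
      map_nonunit' := fun a ha => by
        rw [Int.cast_eq_zero, jacobiSym.eq_zero_iff_not_coprime, Int.gcd_natCast_natCast]
        intro h
        exact ha (ZMod.natCast_zmod_val a ▸ (ZMod.isUnit_iff_coprime _ _).2 h) }
  have hX : ∀ n : ℤ, X n = (jacobiSym n q : ℂ) := fun n => congrArg (Int.cast : ℤ → ℂ) (key n)
  refine ⟨X, fun h => ?_, hX⟩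
  have h1 := hX (-1)
  rw [h, jacobiSym.at_neg_one (Nat.odd_iff.2 (by omega)), ZMod.χ₄_nat_three_mod_four hq,
    MulChar.one_apply (by simp)] at h1
  norm_num at h1

theorem MER_L {q : ℕ} [NeZero q] (X : DirichletCharacter ℂ q) (hX : X ≠ 1) (a : ℕ → ℝ) (Q L : ℝ)
    (ha : ∀ n : ℕ, X n = a n) (h : ∀ x, |∑ n ∈ Ioc 0 x, a n| ≤ Q)
    (hL : Tendsto (fun x : ℕ => ∑ n ∈ Ioc 0 x, a n * (1 / (n : ℝ))) atTop (𝓝 L)) : L ≠ 0 := by
  have hQ : 0 ≤ Q := (abs_nonneg _).trans (h 0)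
  have h1 : ∀ s : ℝ, 1 ≤ s → ∀ x y : ℕ, x ≤ y → |∑ n ∈ Ioc 0 y, a n * (n : ℝ) ^ (-s) -
      ∑ n ∈ Ioc 0 x, a n * (n : ℝ) ^ (-s)| ≤ 2 * Q * (1 / (x + 1)) := fun s hs x y hxy => by
    rw [← sum_Ioc_consecutive _ (Nat.zero_le x) hxy, add_sub_cancel_left]
    have := Pool.Agent.P.MP_e86632_nt.abel_anti a (fun n => (n : ℝ) ^ (-s)) x y (2 * Q)
      (by positivity) (fun n _ => ?_) (fun i => by positivity) fun i hi => ?_
    · refine this.trans (mul_le_mul_of_nonneg_left ?_ (by positivity))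
      push_cast
      rw [one_div, ← rpow_neg_one]
      exact rpow_le_rpow_of_exponent_le (by simp) (by linarith)
    · rcases le_total n x with h2 | h2
      · rw [Ioc_eq_empty (by omega), sum_empty, abs_zero]; positivity
      · rw [eq_sub_of_add_eq' (sum_Ioc_consecutive a (Nat.zero_le x) h2)]
        linarith [abs_sub (∑ i ∈ Ioc 0 n, a i) (∑ i ∈ Ioc 0 x, a i), h n, h x]
    · have : (0 : ℝ) < i := by exact_mod_cast (by omega : 0 < i)
      exact rpow_le_rpow_of_nonpos this (by push_cast; linarith) (by linarith)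
  have h2 : ∀ s : ℝ, 1 < s → Tendsto (fun y : ℕ => ((∑ n ∈ Ioc 0 y, a n * (n : ℝ) ^ (-s) : ℝ) : ℂ))
      atTop (𝓝 (DirichletCharacter.LFunction X s)) := fun s hs => by
    have hs' : 1 < (s : ℂ).re := by simpa using hs
    rw [DirichletCharacter.LFunction_eq_LSeries X hs']
    have := (X.LSeriesSummable_of_one_lt_re hs').hasSum.tendsto_sum_nat.comp
      (tendsto_add_atTop_nat 1)
    refine this.congr fun y => ?_
    simp only [Function.comp]
    induction y with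
    | zero => simp
    | succ y ih =>
      rw [sum_range_succ, ih, sum_Ioc_succ_top (Nat.zero_le _), LSeries.term_of_ne_zero (by omega),
        ha, Complex.ofReal_add, Complex.ofReal_mul, Complex.ofReal_cpow (Nat.cast_nonneg _),
        Complex.ofReal_neg, Complex.cpow_neg, Complex.ofReal_natCast, div_eq_mul_inv]
  have h3 : ∀ x : ℕ, ‖DirichletCharacter.LFunction X (1 : ℝ) -
      ((∑ n ∈ Ioc 0 x, a n * (n : ℝ) ^ (-(1 : ℝ)) : ℝ) : ℂ)‖ ≤ 2 * Q * (1 / (x + 1)) := fun x => by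
    have c1 : Continuous fun s : ℝ => ‖DirichletCharacter.LFunction X s -
        ((∑ n ∈ Ioc 0 x, a n * (n : ℝ) ^ (-s) : ℝ) : ℂ)‖ := by
      refine (((DirichletCharacter.differentiable_LFunction hX).continuous.comp
        Complex.continuous_ofReal).sub (Complex.continuous_ofReal.comp
          (continuous_finsetSum _ fun n hn => continuous_const.mul ?_))).norm
      exact (continuous_const_rpow (Nat.cast_ne_zero.2 (mem_Ioc.1 hn).1.ne')).comp continuous_neg
    refine le_of_tendsto ((c1.tendsto 1).mono_left (nhdsWithin_le_nhds (s := Set.Ioi 1))) ?_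
    filter_upwards [self_mem_nhdsWithin] with s hs
    refine le_of_tendsto ((h2 s hs).sub_const _).norm ?_
    filter_upwards [eventually_ge_atTop x] with y hy
    rw [← Complex.ofReal_sub, Complex.norm_real]
    exact h1 s (le_of_lt hs) x y hy
  intro h0
  have h4 : Tendsto (fun x : ℕ => 2 * Q * (1 / ((x : ℝ) + 1))) atTop (𝓝 0) := by
    simpa using tendsto_one_div_add_atTop_nhds_zero_nat.const_mul (2 * Q)
  simp only [rpow_neg_one, ← one_div, Complex.ofReal_one] at h3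
  have h5 := le_of_tendsto_of_tendsto'
    (((Complex.continuous_ofReal.tendsto L).comp hL).const_sub _).norm h4 h3
  rw [h0, Complex.ofReal_zero, sub_zero, norm_le_zero_iff] at h5
  exact DirichletCharacter.LFunction_apply_one_ne_zero hX h5

theorem MER_bdd (A : ℕ) (hA : 1 ≤ A) :
    ∃ B : ℝ, ∀ y : ℕ, |∑ p ∈ Nat.primesLE y, chi A p / p| ≤ B := by
  have e0 : ∀ x : ℕ, Icc 1 x = Ioc 0 x := fun x => by ext; simp; omega
  have : NeZero (4 * A - 1) := ⟨by omega⟩
  obtain ⟨X, hX, hX2⟩ := MER_char (4 * A - 1) (by omega)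
  have h1 := fun x => Avg.t_CHI.2.2.2 A x hA
  have h2 : ∀ x, |∑ n ∈ Ioc 0 x, chi A n| ≤ 4 * A := fun x => e0 x ▸ h1 x
  obtain ⟨L, hL, -⟩ := Avg.rho_lim _ _ h2
  have hL0 := MER_L X hX (chi A) _ L (fun n => by simpa [chi] using hX2 n) h2 hL
  have h3 := Avg.t_MERT (chi A) _ L (Avg.chi_one A) (Avg.chi_mul A) (Avg.abs_chi_le A) h1 hL0
    (by simpa only [e0, mul_one_div] using hL)
  obtain ⟨B, hB⟩ := (h3.log (inv_ne_zero hL0)).abs.bddAbove_range
  refine ⟨B + 4, fun y => ?_⟩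
  have h4 : ∀ p ∈ Nat.primesLE y, |chi A p / p| ≤ 1 / p ∧ (1 : ℝ) / p ≤ 1 / 2 := fun p hp => by
    have : (2 : ℝ) ≤ p := by exact_mod_cast (Nat.mem_primesLE.1 hp).2.two_le
    rw [abs_div, Nat.abs_cast]
    exact ⟨div_le_div_of_nonneg_right (Avg.abs_chi_le A p) (by linarith),
      one_div_le_one_div_of_le two_pos this⟩
  have h5 : |log (∏ p ∈ Nat.primesLE y, (1 - chi A p / p))| ≤ B := hB ⟨y, rfl⟩
  rw [log_prod fun p hp => by linarith [h4 p hp, le_abs_self (chi A p / p)]] at h5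
  have h6 : |∑ p ∈ Nat.primesLE y, (chi A p / p + log (1 - chi A p / p))| ≤
      ∑ p ∈ Nat.primesLE y, 2 * ((p : ℝ) ^ 2)⁻¹ := by
    refine (abs_sum_le_sum_abs _ _).trans (sum_le_sum fun p hp => ?_)
    obtain ⟨a1, a2⟩ := h4 p hp
    have a3 := abs_log_sub_add_sum_range_le (x := chi A p / p) (by linarith) 1
    simp only [range_one, sum_singleton, zero_add, pow_one, Nat.cast_zero, div_one] at a3
    refine a3.trans ?_
    have a4 := pow_le_pow_left₀ (abs_nonneg _) a1 2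
    rw [one_div, inv_pow] at a4
    rw [div_le_iff₀ (by linarith)]
    nlinarith [mul_nonneg (show 0 ≤ ((p : ℝ) ^ 2)⁻¹ by positivity)
      (show 0 ≤ 1 / 2 - |chi A p / p| by linarith)]
  have h7 : ∑ p ∈ Nat.primesLE y, ((p : ℝ) ^ 2)⁻¹ ≤ 2 := by
    refine le_trans (sum_le_sum_of_subset_of_nonneg (fun p hp => ?_) fun _ _ _ => by positivity)
      (Pool.Agent.P.MP_74dd9d_nt.sum_inv_sq_Icc y)
    obtain ⟨a, b⟩ := Nat.mem_primesLE.1 hp
    exact mem_Icc.2 ⟨b.one_le, a⟩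
  rw [sum_add_distrib, ← mul_sum, abs_le] at h6
  rw [abs_le] at h5 ⊢
  constructor <;> linarith [h5.1, h5.2, h6.1, h6.2]

theorem MER_split (g : ℕ → ℝ) {w y : ℝ} (hw : 0 ≤ w) (h : w ≤ y) : ∑ p ∈ PP w y, g p =
    ∑ p ∈ Nat.primesLE ⌊y⌋₊, g p - ∑ p ∈ Nat.primesLE ⌊w⌋₊, g p := by
  have h1 : Nat.primesLE ⌊w⌋₊ ⊆ Nat.primesLE ⌊y⌋₊ := fun p hp => by
    rw [Nat.mem_primesLE] at hp ⊢
    exact ⟨hp.1.trans (Nat.floor_le_floor h), hp.2⟩
  rw [← sum_sdiff_eq_sub h1]
  congr 1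
  ext p
  simp only [mem_PP (hw.trans h), Finset.mem_sdiff, Nat.mem_primesLE, Nat.le_floor_iff hw,
    Nat.le_floor_iff (hw.trans h), ← not_le]
  tauto

theorem MER_one {y : ℝ} (hy : 2 ≤ y) :
    |∑ p ∈ Nat.primesLE ⌊y⌋₊, (1 : ℝ) / p - log (log y)| ≤ log 600 := by
  have t1 : 1 / 2 ≤ log y := by linarith [log_le_log two_pos hy, log_two_gt_d9]
  have e : ∑ p ∈ Nat.primesLE ⌊y⌋₊, (1 : ℝ) / p = MP_74dd9d_nt.SS (log y) := by
    rw [MP_74dd9d_nt.SS, MP_74dd9d_nt.Pr, exp_log (by linarith)]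
  have h1 := MP_74dd9d_nt.SS_lower (log y)
  have h2 : exp (MP_74dd9d_nt.SS (log y)) ≤ 600 * log y := by
    rcases le_total 1 (log y) with h | h
    · linarith [MP_74dd9d_nt.SS_upper h]
    · have a1 : MP_74dd9d_nt.SS (log y) ≤ MP_74dd9d_nt.SS 1 := by
        refine sum_le_sum_of_subset_of_nonneg (fun p hp => ?_) fun _ _ _ => by positivity
        rw [MP_74dd9d_nt.mem_Pr] at hp ⊢
        exact ⟨hp.1.trans (exp_le_exp.2 h), hp.2⟩
      linarith [exp_le_exp.2 a1, MP_74dd9d_nt.SS_upper (le_refl (1 : ℝ))]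
  have h3 := log_le_log (exp_pos _) h2
  have h4 := log_le_log (x := log y / 600) (by positivity) (le_trans (by linarith) h1)
  rw [log_exp, log_mul (by norm_num) (by linarith)] at h3
  rw [log_exp, log_div (by linarith) (by norm_num)] at h4
  rw [e, abs_le]
  constructor <;> linarith

theorem p_MER :
    S_MER := by
  intro A _ hA
  obtain ⟨B, hB⟩ := MER_bdd A (by omega)
  have hB0 : 0 ≤ B := (abs_nonneg _).trans (hB 0)
  have h0 : 0 < log 600 := log_pos (by norm_num)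
  refine ⟨2 * B + 2 * log 600, by positivity, fun w y hw hy => ?_⟩
  have h1 : |∑ p ∈ PP w y, (1 : ℝ) / p - log (log y / log w)| ≤ 2 * log 600 := by
    have a1 := abs_le.1 (MER_one hw)
    have a2 := abs_le.1 (MER_one (hw.trans hy))
    rw [MER_split _ (by linarith) hy, log_div (log_pos (by linarith)).ne'
      (log_pos (by linarith)).ne', abs_le]
    constructor <;> linarith [a1.1, a1.2, a2.1, a2.2]
  refine ⟨?_, by linarith⟩
  have h2 : ∑ p ∈ PP w y, (rho A p : ℝ) / p =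
      ∑ p ∈ PP w y, (1 : ℝ) / p + ∑ p ∈ PP w y, chi A p / p := by
    rw [← sum_add_distrib]
    refine sum_congr rfl fun p hp => ?_
    obtain ⟨a, b, -⟩ := (mem_PP (by linarith)).1 hp
    rw [(Avg.t_ROOT Avg.t_CHI).2.1 A p (by omega) a (by rintro rfl; norm_num at b; linarith),
      add_div]
  have a1 := abs_le.1 (hB ⌊w⌋₊)
  have a2 := abs_le.1 (hB ⌊y⌋₊)
  rw [abs_le] at h1
  rw [h2, MER_split (fun p => chi A p / p) (by linarith) hy, abs_le]
  constructor <;> linarith [a1.1, a1.2, a2.1, a2.2, h1.1, h1.2]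

end Pool.Agent.P.MP_8be758_nt.Pd
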