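import Pool.Agent.P.MP_8be758_nt.Pd.IfN

/-! Step MINJ. -/

namespace Pool.Agent.P.MP_8be758_nt.Pd

open Finset Real Filter
open Pool.Agent.P.MP_8be758_nt.Par (det)
open Pool.Agent.P.MP_8be758_nt.Avg (rho)
open scoped Classical

/-- all prime factors lie in the sieving range -/
def MINJ_sm (ρ : Pr) (n : ℕ) : Prop := ∀ p : ℕ, p.Prime → p ∣ n → p ∈ ρ.Ps

theorem MINJ_sm_fl (ρ : Pr) {n : ℕ} {m : ℤ} (h : n ∣ ρ.fl m) : MINJ_sm ρ n := fun _ hp h1 =>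
  (mem_pf.1 ((dvd_fl hp).1 (h1.trans h))).1

theorem MINJ_sm_mul {ρ : Pr} {n n' : ℕ} (h : MINJ_sm ρ n) (h' : MINJ_sm ρ n') :
    MINJ_sm ρ (n * n') := fun p hp h1 => ((Nat.Prime.dvd_mul hp).1 h1).elim (h p hp) (h' p hp)

theorem MINJ_cop (ρ : Pr) {m m' r : ℤ} {n : ℕ} (h : ∀ p ∈ ρ.Ps, ¬(p : ℤ) ^ 2 ∣ m * m')
    (e : m = ρ.fl m * r) (hn : MINJ_sm ρ n) : IsCoprime r (n : ℤ) := by
  rw [Int.isCoprime_iff_gcd_eq_one, Int.gcd_eq_natAbs, Int.natAbs_natCast]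
  refine Nat.Coprime.symm (Nat.coprime_of_dvd fun p hp h1 h2 => ?_)
  have h3 := hn p hp h1
  have h4 : (p : ℤ) ∣ r := Int.natCast_dvd.2 h2
  have h5 : p ∣ ρ.fl m := (dvd_fl hp).2 (mem_pf.2 ⟨h3, e ▸ h4.mul_left _⟩)
  refine h p h3 (Dvd.dvd.mul_right ?_ _)
  rw [e, sq]
  exact mul_dvd_mul (Int.natCast_dvd_natCast.2 h5) h4

theorem MINJ_split {a b a' b' D1 D2 : ℕ} (h : D1.Coprime D2) (h0 : 0 < a) (h1 : a ∣ D1) (h2 : b ∣ D2)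
    (h1' : a' ∣ D1) (h2' : b' ∣ D2) (e : a * b = a' * b') : a = a' ∧ b = b' := by
  have c1 : a.Coprime b' := (h.coprime_dvd_left h1).coprime_dvd_right h2'
  have c2 : a'.Coprime b := (h.coprime_dvd_left h1').coprime_dvd_right h2
  have e1 : a = a' := Nat.dvd_antisymm (c1.dvd_of_dvd_mul_right (e ▸ dvd_mul_right a b))
    (c2.dvd_of_dvd_mul_right (e ▸ dvd_mul_right a' b'))
  subst e1
  exact ⟨rfl, Nat.eq_of_mul_eq_mul_left h0 e⟩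

theorem MINJ_main (ρ : Pr) (hA : 1 ≤ ρ.A) (hy : 1 ≤ ρ.y) (hk : 1 ≤ ρ.k5) (τ τ' : G4 × Sd)
    (h : ρ.IsTu τ) (h' : ρ.IsTu τ') (e : ρ.cy τ = ρ.cy τ') (e3 : τ.2.q3 = τ'.2.q3)
    (e4 : τ.2.q4 = τ'.2.q4)
    (t1 : (ρ.cy τ).P * (τ.2.E1 * τ.2.a1 : ℕ) = (ρ.fm τ.1).1 * τ.2.E2)
    (t2 : (ρ.cy τ).P * (ρ.cy τ).R * (ρ.cy τ).a = (ρ.fm τ.1).1 * (ρ.fm τ.1).2.2)
    (t1' : (ρ.cy τ').P * (τ'.2.E1 * τ'.2.a1 : ℕ) = (ρ.fm τ'.1).1 * τ'.2.E2)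
    (t2' : (ρ.cy τ').P * (ρ.cy τ').R * (ρ.cy τ').a = (ρ.fm τ'.1).1 * (ρ.fm τ'.1).2.2) :
    ρ.fl (ρ.fm τ'.1).1 ∣ ρ.fl (ρ.fm τ.1).1 * ρ.fl (ρ.fm τ.1).2.2 ∧
    ρ.fl (ρ.fm τ.1).1 < 2 * ρ.fl (ρ.fm τ'.1).1 ∧ ρ.fl (ρ.fm τ'.1).1 < 2 * ρ.fl (ρ.fm τ.1).1 ∧
    (ρ.fl (ρ.fm τ.1).1 = ρ.fl (ρ.fm τ'.1).1 → ρ.fm τ.1 = ρ.fm τ'.1 ∧ τ.2 = τ'.2) := by
  obtain ⟨g, q1, q3, q4, e1, a1, e2, a2, s, t⟩ := τ
  obtain ⟨g', q1', q3', q4', e1', a1', e2', a2', s', t'⟩ := τ'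
  obtain ⟨hE, ⟨hD, hT⟩, ⟨hq1, hq3, hq4⟩, -, ⟨d1, d2, -⟩, -⟩ := h
  obtain ⟨hE', ⟨hD', hT'⟩, ⟨hq1', -, -⟩, -, ⟨d1', d2', -⟩, -⟩ := h'
  dsimp only at e3 e4 hE hD hT hq1 hq3 hq4 d1 d2 hE' hD' hT' hq1' d1' d2' ⊢
  subst e3 e4
  rw [← e] at t1' t2'
  have eb : (ρ.fm g).2.1 = (ρ.fm g').2.1 := congrArg VT.b e
  have ea : a1 * a2 * q1 = a1' * a2' * q1' := Nat.cast_injective (R := ℤ) (congrArg VT.a e)
  have es : s = s' := Nat.cast_injective (R := ℤ) (congrArg VT.s e)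
  have et : t = t' := Nat.cast_injective (R := ℤ) (congrArg VT.t e)
  have hX : 0 < ρ.X := pow_pos (by linarith) _
  obtain ⟨-, x1, x2, -⟩ := (mem_GG hA (isF_Q0 ρ.A)).1 hE
  obtain ⟨-, x1', x2', -⟩ := (mem_GG hA (isF_Q0 ρ.A)).1 hE'
  change ρ.X < ((ρ.fm g).1 : ℝ) at x1
  change ((ρ.fm g).1 : ℝ) ≤ _ at x2
  change ρ.X < ((ρ.fm g').1 : ℝ) at x1'
  change ((ρ.fm g').1 : ℝ) ≤ _ at x2'
  simp only [Sd.E1, Sd.E2] at t1 t1'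
  generalize (ρ.cy (g, ⟨q1, q3, q4, e1, a1, e2, a2, s, t⟩)) = x at t1 t2 t1' t2'
  clear e
  generalize ρ.fm g = φ at *
  generalize ρ.fm g' = φ' at *
  obtain ⟨P, b, R⟩ := φ
  obtain ⟨P', b', R'⟩ := φ'
  dsimp only at *
  have hP : 0 < P := by exact_mod_cast hX.trans x1
  have hP' : 0 < P' := by exact_mod_cast hX.trans x1'
  have l1 : P < 2 * P' := by exact_mod_cast (show (P : ℝ) < 2 * P' by linarith)
  have l2 : P' < 2 * P := by exact_mod_cast (show (P' : ℝ) < 2 * P by linarith)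
  have ePR : P * R = P' * R' := t2.symm.trans t2'
  have p3 : (0 : ℤ) < q3 := by exact_mod_cast (prime_of_PP hq3).pos
  have p4 : (0 : ℤ) < q4 := by exact_mod_cast (prime_of_PP hq4).pos
  have key : P * (e2 * (e1' * a1') : ℕ) = P' * (e2' * (e1 * a1) : ℕ) := by
    refine mul_right_cancel₀ p4.ne' ?_
    push_cast at t1 t1' ⊢
    refine mul_right_cancel₀ p3.ne' ?_
    linear_combination (e1 * q3 * a1 : ℤ) * t1' - (e1' * q3 * a1' : ℤ) * t1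
  obtain ⟨r, hr⟩ := fl_dvd ρ P
  obtain ⟨r', hr'⟩ := fl_dvd ρ P'
  have f1 : (0 : ℤ) < ρ.fl P := by exact_mod_cast fl_pos ρ P
  have f1' : (0 : ℤ) < ρ.fl P' := by exact_mod_cast fl_pos ρ P'
  have r0 : 0 < r := (mul_pos_iff_of_pos_left f1).1 (hr ▸ hP)
  have r0' : 0 < r' := (mul_pos_iff_of_pos_left f1').1 (hr' ▸ hP')
  have s1 : MINJ_sm ρ (ρ.fl P * (e2 * (e1' * a1'))) := MINJ_sm_mul (MINJ_sm_fl ρ dvd_rfl)
    (MINJ_sm_mul (MINJ_sm_fl ρ (dvd_of_mul_right_dvd d2)) (MINJ_sm_fl ρ d1'))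
  have s2 : MINJ_sm ρ (ρ.fl P' * (e2' * (e1 * a1))) := MINJ_sm_mul (MINJ_sm_fl ρ dvd_rfl)
    (MINJ_sm_mul (MINJ_sm_fl ρ (dvd_of_mul_right_dvd d2')) (MINJ_sm_fl ρ d1))
  have k2 : r * (ρ.fl P * (e2 * (e1' * a1')) : ℕ) = r' * (ρ.fl P' * (e2' * (e1 * a1)) : ℕ) := by
    rw [Nat.cast_mul, Nat.cast_mul (ρ.fl P'), ← mul_assoc, ← mul_assoc r', mul_comm r, mul_comm r',
      ← hr, ← hr', key]
  have er : r = r' := Int.dvd_antisymm r0.le r0'.le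
    ((MINJ_cop ρ hT hr s2).dvd_of_dvd_mul_right (k2 ▸ dvd_mul_right _ _))
    ((MINJ_cop ρ hT' hr' s1).dvd_of_dvd_mul_right (k2 ▸ dvd_mul_right _ _))
  subst er
  refine ⟨?_, ?_, ?_, fun eD => ?_⟩
  · rw [← fl_mul ρ hT, ePR]
    exact fl_mono ρ (dvd_mul_right _ _)
  · have : (ρ.fl P : ℤ) * r < (2 * ρ.fl P') * r := by rw [mul_assoc, ← hr, ← hr']; exact l1
    exact_mod_cast lt_of_mul_lt_mul_right this r0.le
  · have : (ρ.fl P' : ℤ) * r < (2 * ρ.fl P) * r := by rw [mul_assoc, ← hr, ← hr']; exact l2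
    exact_mod_cast lt_of_mul_lt_mul_right this r0.le
  have eP : P = P' := by rw [hr, hr', eD]
  subst eP
  have eR : R = R' := mul_left_cancel₀ hP.ne' ePR
  subst eR eb es et
  have cop : (ρ.fl P).Coprime (ρ.fl R) := Nat.coprime_of_squarefree_mul hD.1
  have big : ∀ p ∈ ρ.Ps, p ≠ q1 := fun p hp e => by
    have h1 := ((mem_PP (by linarith)).1 hp).2.2
    have h2 := lt_of_PP hq1
    have h3 : ρ.y ≤ ρ.y ^ ρ.k5 := le_self_pow₀ hy (by omega)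
    rw [e] at h1
    linarith
  have pq := prime_of_PP hq1
  have eq : q1 = q1' := by
    rcases (Nat.Prime.dvd_mul pq).1 (ea ▸ dvd_mul_left q1 (a1 * a2)) with h1 | h1
    · exact (big _ (MINJ_sm_mul (MINJ_sm_fl ρ (dvd_of_mul_left_dvd d1'))
        (MINJ_sm_fl ρ (dvd_of_mul_left_dvd d2')) q1 pq h1) rfl).elim
    · exact (Nat.prime_dvd_prime_iff_eq pq (prime_of_PP hq1')).1 h1
  subst eq
  have u0 : 0 < e1 * a1 := Nat.pos_of_dvd_of_pos d1 (fl_pos ρ P)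
  obtain ⟨rfl, rfl⟩ := MINJ_split cop (Nat.pos_of_mul_pos_left u0) (dvd_of_mul_left_dvd d1)
    (dvd_of_mul_left_dvd d2) (dvd_of_mul_left_dvd d1') (dvd_of_mul_left_dvd d2')
    (Nat.eq_of_mul_eq_mul_right pq.pos ea)
  have k3 : e2 * (e1' * a1) = e2' * (e1 * a1) := Nat.cast_injective (R := ℤ)
    (mul_left_cancel₀ hP.ne' key)
  have k4 : e1 * e2' = e1' * e2 := Nat.eq_of_mul_eq_mul_right (Nat.pos_of_mul_pos_left u0)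
    (by linarith)
  obtain ⟨rfl, rfl⟩ := MINJ_split cop (Nat.pos_of_mul_pos_right u0) (dvd_of_mul_right_dvd d1)
    (dvd_of_mul_right_dvd d2') (dvd_of_mul_right_dvd d1') (dvd_of_mul_right_dvd d2) k4
  exact ⟨rfl, rfl⟩

theorem p_MINJ (hTUP : S_TUP) :
    S_MINJ := by
  refine (Unif.ev hTUP).imp 1 fun z hz C hC => ⟨1, le_rfl, ?_⟩
  filter_upwards [eventually_ge_atTop (1 : ℝ)] with y hy H τ τ' h h' e e3 e4
  obtain ⟨-, h2, -, -, -, -, h7, h8, h9, h10, -⟩ := hz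
  obtain ⟨-, t1, -, t2, -⟩ := H τ h
  obtain ⟨-, t1', -, t2', -⟩ := H τ' h'
  exact MINJ_main ⟨z, y⟩ (by dsimp only; omega) hy (by dsimp only; omega) τ τ' h h' e e3 e4 t1 t2 t1' t2'

end Pool.Agent.P.MP_8be758_nt.Pd
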