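import Pool.Agent.P.MP_8be758_nt.Pd.IfM

/-! Step MOM. -/

namespace Pool.Agent.P.MP_8be758_nt.Pd

open Finset Real Filter
open Pool.Agent.P.MP_8be758_nt.Par (nq mul cj det io et)
open Pool.Agent.P.MP_8be758_nt.Avg (rho)
open Pool.Agent.P.MP_8be758_nt.Pd.Mr

theorem MOM_prod {l : ℕ} {M : Type} [CommMonoid M] (p : Fin l → ℕ) (γ : ℕ → V2) (f : V2 → M) :
    (((ms p).map γ).map f).prod = ∏ i, f (γ (p i)) := by
  simp only [ms, Multiset.map_map]
  rfl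

theorem MOM_exp {A : ℕ} (hA : 2 ≤ A) (γ : ℕ → V2) (I : Finset ℕ) (W : Finset V2) (l : ℕ) (k : ℤ) :
    GS A γ I k ^ l * FS A W k = ∑ i ∈ Fintype.piFinset (fun _ : Fin l => I) ×ˢ W,
      (fl A i.2 : ℂ) * ek A k (mul A (pv A ((ms i.1).map γ)) i.2) := by
  rw [GS, Finset.sum_pow', FS, sum_mul_sum, sum_product]
  refine sum_congr rfl fun p _ => sum_congr rfl fun u _ => ?_
  rw [ek_mul hA, ek_pv hA, MOM_prod]
  ring

theorem MOM_nq {A β l : ℕ} {γ : ℕ → V2} {I : Finset ℕ} {P : ℝ} (hB : Blk A β γ I P)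
    {p : Fin l → ℕ} (hp : p ∈ Fintype.piFinset (fun _ : Fin l => I)) :
    0 < nq A (pv A ((ms p).map γ)) ∧ (nq A (pv A ((ms p).map γ)) : ℝ) ≤ (8 * A * P) ^ l := by
  have h := fun i => hB.2.2.2 _ (Fintype.mem_piFinset.1 hp i)
  have h0 : ∀ i, 0 < nq A (γ (p i)) := fun i => by
    rw [(h i).1.2.2]
    exact_mod_cast Nat.mul_pos hB.1 (h i).1.1.pos
  rw [nq_pv, MOM_prod]
  refine ⟨prod_pos fun i _ => h0 i, ?_⟩
  push_cast
  refine (prod_le_prod (g := fun _ => 8 * A * P) (fun i _ => by exact_mod_cast (h0 i).le)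
    fun i _ => ?_).trans_eq (by simp)
  rw [(h i).1.2.2]
  push_cast
  have h1 : (β : ℝ) ≤ 4 * A := by exact_mod_cast hB.2.1
  calc (β : ℝ) * p i ≤ 4 * A * (2 * P) :=
        mul_le_mul h1 (h i).2.2 (Nat.cast_nonneg _) (by positivity)
    _ = _ := by ring

theorem MOM_col {A l : ℕ} (γ : ℕ → V2) (J : Finset (Fin l → ℕ)) (W : Finset V2) :
    col (J ×ˢ W) (fun i => mul A (pv A ((ms i.1).map γ)) i.2) (fun i => (fl A i.2 : ℂ)) =
      ∑ p ∈ J, ∑ q ∈ J, (((W ×ˢ W).filter fun g => det (mul A (pv A ((ms p).map γ)) g.1)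
        (mul A (pv A ((ms q).map γ)) g.2) = 0).card : ℝ) := by
  simp only [col, norm_fl, mul_one, sum_product, card_filter]
  push_cast
  exact sum_congr rfl fun p _ => sum_comm

theorem p_MOM (hMVT : S_MVT) (hMOMB : S_MOMB) (hMOMC : S_MOMC) :
    S_MOM := by
  intro A hA
  obtain ⟨C1, h1, H1⟩ := hMVT
  obtain ⟨C2, h2, H2⟩ := hMOMB A hA
  have hA' : (2 : ℝ) ≤ A := by exact_mod_cast hA
  have h12 : 1 ≤ C1 * C2 := one_le_mul_of_one_le_of_one_le h1 h2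
  have hC : 8 * (A : ℝ) ≤ C1 * C2 * (8 * A) := le_mul_of_one_le_left (by linarith) h12
  refine ⟨C1 * C2 * (8 * A), by linarith, fun β γ I P Y T W l K hB hW hY hT hK => ?_⟩
  have hP := hB.2.2.1
  have hAP : 1 ≤ 8 * (A : ℝ) * P := one_le_mul_of_one_le_of_one_le (by linarith) hP
  have hY' : 1 ≤ (8 * (A : ℝ) * P) ^ l * Y := one_le_mul_of_one_le_of_one_le (one_le_pow₀ hAP) hY
  have k1 := H1 A _ (Fintype.piFinset (fun _ : Fin l => I) ×ˢ W)
    (fun i => mul A (pv A ((ms i.1).map γ)) i.2) (fun i => (fl A i.2 : ℂ)) K T _ hA hT hY' hK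
    fun i hi => by
      obtain ⟨a1, a2⟩ := MOM_nq hB (mem_product.1 hi).1
      obtain ⟨b1, -, b2⟩ := hW _ (mem_product.1 hi).2
      have b3 := Par.nq_pos hA b1
      refine ⟨Par.ne_zero_of_nq (A := A) (by rw [Par.nq_mul]; exact (mul_pos a1 b3).ne'), ?_⟩
      rw [Par.nq_mul, Int.cast_mul]
      exact mul_le_mul a2 b2 (by exact_mod_cast b3.le) (by positivity)
  have k2 : col (Fintype.piFinset (fun _ : Fin l => I) ×ˢ W)
      (fun i => mul A (pv A ((ms i.1).map γ)) i.2) (fun i => (fl A i.2 : ℂ)) ≤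
      C2 ^ (l + 1) * Y * (2 * (l + 2) * P) ^ l := by
    rw [MOM_col]
    refine le_trans ?_ (mul_le_mul_of_nonneg_left (hMOMC I l P hP hB.card_le) (by positivity))
    rw [mul_sum]
    refine sum_le_sum fun p hp => ?_
    rw [mul_sum]
    refine sum_le_sum fun q hq => ?_
    rw [mul_one_div]
    refine H2 β γ I P Y W l _ _ hB hW hY (fun r hr => ?_) (by simp [ms]) (by simp [ms])
    rcases Multiset.mem_add.1 hr with h | h <;> obtain ⟨i, -, rfl⟩ := Multiset.mem_map.1 h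
    exacts [Fintype.mem_piFinset.1 hp i, Fintype.mem_piFinset.1 hq i]
  have e : ∀ k, ‖GS A γ I k‖ ^ (2 * l) * ‖FS A W k‖ ^ 2 = ‖GS A γ I k ^ l * FS A W k‖ ^ 2 :=
    fun k => by rw [norm_mul, norm_pow, mul_pow, ← pow_mul, mul_comm l 2]
  simp only [e, MOM_exp hA]
  refine k1.trans ((mul_le_mul_of_nonneg_left k2 (by positivity)).trans ?_)
  have l0 : (0 : ℝ) ≤ l := Nat.cast_nonneg _
  have m1 : T + (8 * (A : ℝ) * P) ^ l * Y ≤ T + (C1 * C2 * (8 * A) * P) ^ l * Y := by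
    gcongr
  have m2 : C1 * C2 ^ (l + 1) * (2 * ((l : ℝ) + 2)) ^ l ≤
      (C1 * C2 * (8 * A) * (l + 1)) ^ (l + 1) := by
    have n1 : C1 ≤ C1 ^ (l + 1) := le_self_pow₀ h1 (by omega)
    have n2 : 2 * ((l : ℝ) + 2) ≤ 8 * A * (l + 1) := by nlinarith
    have n3 : (2 * ((l : ℝ) + 2)) ^ l ≤ (8 * A * (l + 1)) ^ (l + 1) :=
      (pow_le_pow_left₀ (by positivity) n2 l).trans
        (pow_le_pow_right₀ (by linarith) (Nat.le_succ l))
    calc _ ≤ C1 ^ (l + 1) * C2 ^ (l + 1) * (8 * A * (l + 1)) ^ (l + 1) := by gcongr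
      _ = _ := by rw [← mul_pow, ← mul_pow, mul_assoc (C1 * C2)]
  calc _ = C1 * C2 ^ (l + 1) * (2 * ((l : ℝ) + 2)) ^ l * (T + (8 * (A : ℝ) * P) ^ l * Y) *
        (Y * P ^ l) := by rw [mul_pow (2 * ((l : ℝ) + 2))]; ring
    _ ≤ (C1 * C2 * (8 * A) * (l + 1)) ^ (l + 1) * (T + (C1 * C2 * (8 * A) * P) ^ l * Y) *
        (Y * P ^ l) := by gcongr
    _ = _ := by ring

end Pool.Agent.P.MP_8be758_nt.Pd
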