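import Pool.Agent.P.MP_8be758_nt.Pd.IfM

/-! Step MU2. -/

namespace Pool.Agent.P.MP_8be758_nt.Pd

open Finset Real Filter
open Pool.Agent.P.MP_8be758_nt.Par (nq mul cj det io et)
open Pool.Agent.P.MP_8be758_nt.Avg (rho)
open Pool.Agent.P.MP_8be758_nt.Pd.Mr

theorem MU2_ind {α : Type} (s t : Finset α) : ∑ x ∈ s, ind (x ∈ t) ≤ (t.card : ℝ) := by
  classical
  have e : ∑ x ∈ s, ind (x ∈ t) = ((s.filter fun x => x ∈ t).card : ℝ) := by
    rw [card_filter]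
    push_cast
    exact sum_congr rfl fun x _ => by split_ifs with h <;> simp [ind, h]
  rw [e]
  exact_mod_cast card_le_card fun x hx => (mem_filter.1 hx).2

theorem MU2_pt {A : ℕ} (hA : 2 ≤ A) {σ : Mr.St} (H : σ.OK A) {X : ℝ} (hX : 0 < X) (v : V2) :
    σ.mu A X v ^ 2 ≤ ∑ p ∈ σ.S, 2 * (p : ℝ) * ind (v ∈ An (Q0 A) 0 (4 * X / (p : ℝ) ^ 2)) := by
  rw [sq]
  conv_lhs => rw [Mr.St.mu, sum_mul]
  refine sum_le_sum fun p hp => ?_
  have hp0 : (0 : ℝ) < p := by exact_mod_cast (H.gp hp).1.pos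
  by_cases h : X < (p : ℝ) ^ 2 * nq A v ∧ (p : ℝ) ^ 2 * nq A v ≤ 4 * X
  · have hn : (0 : ℝ) < nq A v := (mul_pos_iff_of_pos_left (pow_pos hp0 2)).1 (hX.trans h.1)
    have hv : v ∈ An (Q0 A) 0 (4 * X / (p : ℝ) ^ 2) :=
      (mem_An0 hA).2 ⟨hn, by rw [le_div_iff₀ (by positivity)]; linarith [h.2]⟩
    rw [ind_pos h, ind_pos hv, one_mul, mul_one]
    calc ∑ q ∈ σ.S, ind (X < (q : ℝ) ^ 2 * nq A v ∧ (q : ℝ) ^ 2 * nq A v ≤ 4 * X)
        ≤ ∑ q ∈ σ.S, ind (q ∈ Icc 1 (2 * p)) := by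
          refine sum_le_sum fun q hq => ind_mono fun e => mem_Icc.2 ⟨(H.gp hq).1.pos, ?_⟩
          have h1 : (q : ℝ) ^ 2 * nq A v ≤ (2 * p) ^ 2 * nq A v := by nlinarith [e.2, h.1]
          have h2 := le_of_mul_le_mul_right h1 hn
          have h3 : (q : ℝ) ≤ 2 * p := (pow_le_pow_iff_left₀ (Nat.cast_nonneg _) (by positivity)
            two_ne_zero).1 h2
          exact_mod_cast h3
      _ ≤ ((Icc 1 (2 * p)).card : ℝ) := MU2_ind _ _
      _ = 2 * p := by simp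
  · rw [ind_neg h, zero_mul]
    exact mul_nonneg (by positivity) (ind_nonneg _)

theorem p_MU2 (hAREA : S_AREA) :
    S_MU2 := by
  intro A hA
  obtain ⟨c, C, -, hC, h⟩ := hAREA A (by omega)
  refine ⟨48 * C, by positivity, fun σ X H hQ => ?_⟩
  have hQ1 : 1 ≤ σ.Q := H.2.2.1.trans H.2.2.2.1
  have hX : 0 < X := by nlinarith
  refine (sum_le_sum fun v _ => MU2_pt hA H hX v).trans ?_
  rw [sum_comm, Mr.St.E, mul_sum]
  refine sum_le_sum fun p hp => ?_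
  have hp1 : (1 : ℝ) ≤ p := by exact_mod_cast (H.gp hp).1.pos
  have hpQ : (p : ℝ) ≤ σ.Q := (H.2.2.2.2.2 p hp).2.2.1
  set Y : ℝ := 4 * X / (p : ℝ) ^ 2 with hY
  have hY1 : 1 ≤ Y := by
    rw [hY, le_div_iff₀ (by positivity)]
    nlinarith
  have h1 := (h (Q0 A) (Q0_mem (by omega)) 0 Y le_rfl (by linarith)).2
  have h2 : √Y ≤ Y := by
    rw [sqrt_le_left (by linarith)]
    nlinarith
  have h3 : ((An (Q0 A) 0 Y).card : ℝ) ≤ C * (3 * Y) :=
    h1.trans (mul_le_mul_of_nonneg_left (by linarith) hC.le)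
  rw [← mul_sum]
  calc 2 * (p : ℝ) * ∑ v ∈ VV (Q0 A) 0 (4 * X), ind (v ∈ An (Q0 A) 0 Y)
      ≤ 2 * (p : ℝ) * (C * (3 * Y)) :=
        mul_le_mul_of_nonneg_left ((MU2_ind _ _).trans h3) (by positivity)
    _ = 48 * C * X * (1 / (2 * p)) := by
        rw [hY]
        field_simp
        ring
    _ ≤ _ := mul_le_mul_of_nonneg_left
        (one_div_le_one_div_of_le (by positivity) (by linarith)) (by positivity)

end Pool.Agent.P.MP_8be758_nt.Pd
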