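import Pool.Agent.P.MP_8be758_nt.Pd.IfM
import Pool.Agent.P.MP_8be758_nt.Avg.LS

/-! Step MVT. -/

namespace Pool.Agent.P.MP_8be758_nt.Pd

open Finset Real Filter
open Pool.Agent.P.MP_8be758_nt.Par (nq mul cj det io et)
open Pool.Agent.P.MP_8be758_nt.Avg (rho)
open Pool.Agent.P.MP_8be758_nt.Pd.Mr
open Pool.Agent.P.MP_e86632_nt (ee)

theorem MVT_ee {r : ℂ} (hr : ‖r‖ = 1) (a : ℕ) : ee (a * (r.arg / (2 * π))) = r ^ a := by
  have h := Complex.norm_mul_exp_arg_mul_I r
  rw [hr, Complex.ofReal_one, one_mul] at h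
  nth_rewrite 2 [← h]
  rw [← Complex.exp_nat_mul, ee]
  congr 1
  have : (π : ℂ) ≠ 0 := by exact_mod_cast pi_ne_zero
  push_cast
  field_simp

theorem MVT_sp {r s : ℂ} (hr : ‖r‖ = 1) (hs : ‖s‖ = 1) (k : ℤ) :
    ‖r - s‖ ≤ 7 * |r.arg / (2 * π) - s.arg / (2 * π) - k| := by
  have h1 := Complex.norm_mul_exp_arg_mul_I r
  have h2 := Complex.norm_mul_exp_arg_mul_I s
  rw [hr, Complex.ofReal_one, one_mul] at h1
  rw [hs, Complex.ofReal_one, one_mul] at h2
  have e : r - s = s * (Complex.exp (Complex.I * (r.arg - s.arg - k * (2 * π) : ℝ)) - 1) := by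
    rw [mul_sub, mul_one]
    congr 1
    nth_rewrite 1 [← h1, ← h2]
    rw [← Complex.exp_add, ← mul_one (Complex.exp (r.arg * Complex.I)),
      ← Complex.exp_int_mul_two_pi_mul_I (-k), ← Complex.exp_add]
    congr 1
    push_cast
    ring
  rw [e, norm_mul, hs, one_mul]
  refine (Real.norm_exp_I_mul_ofReal_sub_one_le).trans ?_
  have e2 : r.arg - s.arg - k * (2 * π) = 2 * π * (r.arg / (2 * π) - s.arg / (2 * π) - k) := by
    field_simp
  rw [e2, Real.norm_eq_abs, abs_mul, abs_of_pos two_pi_pos]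
  exact mul_le_mul_of_nonneg_right (by linarith [pi_lt_d2]) (abs_nonneg _)

theorem p_MVT :
    S_MVT := by
  classical
  refine ⟨21, by norm_num, fun A ι I z a K T Y hA hT hY hK hz => ?_⟩
  set R := I.image fun i => uu A (z i) with hR
  set n := ⌊T⌋₊ with hn
  set b : ℂ → ℂ := fun r => ∑ i ∈ I with uu A (z i) = r, a i with hb
  have h1 : ∀ r ∈ R, ‖r‖ = 1 := fun r hr => by
    obtain ⟨i, hi, rfl⟩ := mem_image.1 hr
    exact norm_uu hA (hz i hi).1
  have key := Avg.ls_dual R (fun r => r.arg / (2 * π)) (δ := 1 / (7 * Y)) (H := 2 * T)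
    (range (2 * n + 1)) (fun r => b r * r ^ (-(n : ℤ))) (by positivity)
    ((div_le_one (by positivity)).2 (by linarith)) (by positivity) (fun x hx => ?_)
    fun r hr s hs hrs k => ?_
  · have e1 : ∑ k ∈ K, ‖∑ i ∈ I, a i * ek A k (z i)‖ ^ 2 ≤ ∑ x ∈ range (2 * n + 1),
        ‖∑ r ∈ R, b r * r ^ (-(n : ℤ)) * ee (x * (r.arg / (2 * π)))‖ ^ 2 := by
      have hk : ∀ k ∈ K, -(n : ℤ) ≤ k ∧ k ≤ n := fun k h => by
        have h2 : ((k.natAbs : ℕ) : ℝ) ≤ T := by
          rw [← Int.cast_natCast, Int.natCast_natAbs, Int.cast_abs]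
          exact hK k h
        have := Nat.le_floor h2
        omega
      have hinj : Set.InjOn (fun k : ℤ => (k + n).toNat) K := fun k h k' h' e => by
        have := hk k h
        have := hk k' h'
        simp only at e
        omega
      refine le_trans (le_of_eq ?_) (sum_le_sum_of_subset_of_nonneg
        (s := K.image fun k : ℤ => (k + n).toNat) (fun x hx => ?_) fun _ _ _ => by positivity)
      swap
      · obtain ⟨k, h, rfl⟩ := mem_image.1 hx
        have := hk k h
        rw [mem_range]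
        omega
      rw [sum_image hinj]
      refine sum_congr rfl fun k h => ?_
      · congr 2
        rw [← sum_fiberwise_of_maps_to (g := fun i => uu A (z i)) (t := R)
          fun i hi => mem_image_of_mem _ hi]
        refine sum_congr rfl fun r hr => ?_
        have hr0 : r ≠ 0 := norm_ne_zero_iff.1 (by rw [h1 r hr]; exact one_ne_zero)
        rw [MVT_ee (h1 r hr), mul_assoc, ← zpow_natCast, ← zpow_add₀ hr0,
          Int.toNat_of_nonneg (by have := hk k h; omega), hb, sum_mul]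
        refine sum_congr rfl fun i hi => ?_
        rw [ek, (mem_filter.1 hi).2]
        congr 2
        ring
    have e2 : ∑ r ∈ R, ‖b r * r ^ (-(n : ℤ))‖ ^ 2 ≤ col I z a := by
      rw [col, ← sum_fiberwise_of_maps_to (g := fun i => uu A (z i)) (t := R)
          fun i hi => mem_image_of_mem _ hi]
      refine sum_le_sum fun r hr => ?_
      rw [norm_mul, norm_zpow, h1 r hr, one_zpow, mul_one]
      refine (pow_le_pow_left₀ (norm_nonneg _) (norm_sum_le _ _) 2).trans (le_of_eq ?_)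
      rw [sq, sum_mul_sum]
      refine sum_congr rfl fun i hi => ?_
      obtain ⟨hi', rfl⟩ := mem_filter.1 hi
      rw [sum_filter]
      refine sum_congr rfl fun j hj => if_congr ?_ rfl rfl
      rw [eq_comm, uu_eq_iff hA (hz i hi').1 (hz j hj).1]
    have e3 : 0 ≤ ∑ r ∈ R, ‖b r * r ^ (-(n : ℤ))‖ ^ 2 := sum_nonneg fun _ _ => by positivity
    rw [one_div_one_div] at key
    refine e1.trans (key.trans (mul_le_mul (by linarith) e2 e3 (by positivity)))
  · have h2 : x ≤ 2 * n := Nat.lt_succ_iff.1 (mem_range.1 hx)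
    have h3 : (x : ℝ) ≤ 2 * n := by exact_mod_cast h2
    linarith [Nat.floor_le hT]
  · have h2 := MVT_sp (h1 r hr) (h1 s hs) k
    obtain ⟨i, hi, rfl⟩ := mem_image.1 hr
    obtain ⟨j, hj, rfl⟩ := mem_image.1 hs
    have h3 := norm_uu_sub_sq hA (hz i hi).1 (hz j hj).1
    have h4 : det (z i) (z j) ≠ 0 := fun e => hrs ((uu_eq_iff hA (hz i hi).1 (hz j hj).1).2 e)
    have h5 : (1 : ℝ) ≤ (det (z i) (z j) : ℝ) ^ 2 := by
      exact_mod_cast (sq_pos_of_ne_zero h4 : 0 < det (z i) (z j) ^ 2)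
    have h6 : (2 : ℝ) ≤ A := by exact_mod_cast hA
    have h7 : (nq A (z i) : ℝ) * nq A (z j) ≤ Y * Y := mul_le_mul (hz i hi).2 (hz j hj).2
      (by linarith [one_le_nq hA (hz j hj).1]) (by linarith)
    have h8 : 1 ≤ (‖uu A (z i) - uu A (z j)‖ * Y) ^ 2 := by
      have := mul_le_mul_of_nonneg_left h7 (sq_nonneg ‖uu A (z i) - uu A (z j)‖)
      nlinarith
    have h9 : 1 ≤ ‖uu A (z i) - uu A (z j)‖ * Y := by
      rwa [one_le_sq_iff_one_le_abs, abs_of_nonneg (by positivity)] at h8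
    rw [div_le_iff₀ (by positivity)]
    nlinarith

end Pool.Agent.P.MP_8be758_nt.Pd
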