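import Pool.Agent.P.MP_8be758_nt.Pd.IfN

/-! Step NEQ. -/

namespace Pool.Agent.P.MP_8be758_nt.Pd

open Finset Real Filter
open Pool.Agent.P.MP_8be758_nt.Par (det)
open Pool.Agent.P.MP_8be758_nt.Avg (rho)
open scoped Classical

theorem NEQ_rpow {Z W : ℝ} (hW : 0 < W) (hZ : W ^ 10 ≤ Z) : Z ^ (9 / 10 : ℝ) ≤ Z / W := by
  have hZ0 : 0 < Z := lt_of_lt_of_le (by positivity) hZ
  have h1 : W ≤ Z ^ (1 / 10 : ℝ) := by
    have h2 : (W ^ 10) ^ (1 / 10 : ℝ) ≤ Z ^ (1 / 10 : ℝ) :=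
      Real.rpow_le_rpow (by positivity) hZ (by norm_num)
    have h3 : (W ^ 10) ^ (1 / 10 : ℝ) = W := by
      rw [← Real.rpow_natCast, ← Real.rpow_mul hW.le]
      norm_num
    rwa [h3] at h2
  have h4 : Z ^ (9 / 10 : ℝ) * Z ^ (1 / 10 : ℝ) = Z := by
    rw [← Real.rpow_add hZ0]
    norm_num
  rw [le_div_iff₀ hW]
  calc Z ^ (9 / 10 : ℝ) * W ≤ Z ^ (9 / 10 : ℝ) * Z ^ (1 / 10 : ℝ) :=
        mul_le_mul_of_nonneg_left h1 (Real.rpow_nonneg hZ0.le _)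
    _ = Z := h4

theorem NEQ_low {y Z : ℝ} {n u : ℕ} (hy : 1 ≤ y) (hu : 121 * n + 10 ≤ u) (hZ : y ^ u / y ^ n ≤ Z) :
    (y ^ (12 * n + 1)) ^ 10 ≤ Z := by
  refine le_trans ?_ hZ
  rw [le_div_iff₀ (by positivity), ← pow_mul, ← pow_add]
  exact pow_le_pow_right₀ hy (by omega)

theorem NEQ_err {y Z X C D β : ℝ} {n : ℕ} (hy : 1 ≤ y) (hC : 0 < C) (hβ : 0 ≤ β) (hX : 0 ≤ X)
    (hZ : (y ^ (12 * n + 1)) ^ 10 ≤ Z) (hD : (1 + β) * Z ≤ D * X) (hyD : C * D ≤ y) :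
    C * (1 + β) * (y ^ n) ^ 11 * Z ^ (9 / 10 : ℝ) ≤ X / y ^ n := by
  have hy0 : 0 < y := by linarith
  have h1 := NEQ_rpow (by positivity : 0 < y ^ (12 * n + 1)) hZ
  have hM : 0 < y ^ n := by positivity
  have e : y ^ (12 * n + 1) = (y ^ n) ^ 12 * y := by
    rw [pow_succ, ← pow_mul, mul_comm 12 n]
  rw [e] at h1
  generalize y ^ n = M at *
  calc C * (1 + β) * M ^ 11 * Z ^ (9 / 10 : ℝ) ≤ C * (1 + β) * M ^ 11 * (Z / (M ^ 12 * y)) :=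
        mul_le_mul_of_nonneg_left h1 (by positivity)
    _ = C * ((1 + β) * Z) / (M * y) := by field_simp
    _ ≤ C * (D * X) / (M * y) := by gcongr
    _ = (C * D) * X / (M * y) := by ring
    _ ≤ y * X / (M * y) := by gcongr
    _ = X / M := by field_simp

theorem p_NEQ (hEQ : S_EQ) (hGCNT : S_GCNT) :
    S_NEQ := by
  intro k
  refine ⟨121 * k + 20, fun A C1 => ?_⟩
  by_cases hA : 1 ≤ A
  swap
  · refine ⟨1, le_rfl, fun z h1 _ hb => ?_⟩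
    have := hb.2.1
    omega
  obtain ⟨Ce, hCe, he⟩ := hEQ A hA
  obtain ⟨Cg, hCg, hg⟩ := hGCNT A hA
  refine ⟨max 1 (Cg * (1 + 2 * (30 * C1 ^ 2))), le_max_left _ _, fun z h1 h2 hb => ?_⟩
  filter_upwards [eventually_ge_atTop (1 : ℝ),
    eventually_ge_atTop (Ce * (1 + 2 * (30 * C1 ^ 2)))] with y hy1 hy2
  intro ψ hψ Z β1 β2 hZ1 hZ2 hβ1 hβ12 hβZ
  have hK : 121 * k + 20 ≤ z.K' := (hb.sizes (by omega)).2.2.2.1
  have hu : 121 * (k * z.K') + 10 ≤ z.u := by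
    have h3 : (121 * k + 20) * z.K' ≤ z.u := hb.2.2.2.2.2.2.2.2.2.2.2.2
    have h4 : (121 * k + 20) * z.K' = 121 * (k * z.K') + 20 * z.K' := by ring
    omega
  simp only [Pr.X, Pr.c5, h2] at hZ1 hZ2 hβZ
  have hψ' : ψ ∈ Red A := h1 ▸ hψ
  have hlow := NEQ_low hy1 hu hZ1
  have hZ : 1 ≤ Z := le_trans (one_le_pow₀ (one_le_pow₀ hy1)) hlow
  have hβ2 : 0 ≤ β2 := hβ1.trans hβ12
  have hX : 0 ≤ y ^ z.u := by positivity
  have hD : (1 + β2) * Z ≤ (1 + 2 * (30 * C1 ^ 2)) * y ^ z.u := by nlinarith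
  refine ⟨fun M f hM hMx hp hf => ?_, ?_⟩
  · refine (he ψ hψ' Z β1 β2 (y ^ (k * z.K')) hZ hβ1 hβ12 (one_le_pow₀ hy1) M f hM hMx hp hf).trans ?_
    exact NEQ_err hy1 hCe hβ2 hX hlow hD hy2
  · refine (hg ψ hψ' Z β1 β2 hZ hβ1 hβ2).trans ?_
    calc Cg * (1 + β2) * Z = Cg * ((1 + β2) * Z) := by ring
      _ ≤ Cg * ((1 + 2 * (30 * C1 ^ 2)) * y ^ z.u) := by gcongr
      _ = Cg * (1 + 2 * (30 * C1 ^ 2)) * y ^ z.u := by ring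
      _ ≤ _ := mul_le_mul_of_nonneg_right (le_max_right _ _) hX

end Pool.Agent.P.MP_8be758_nt.Pd
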