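import Pool.Agent.P.MP_8be758_nt.Pd.IfN

/-! Step NP. -/

namespace Pool.Agent.P.MP_8be758_nt.Pd

open Finset Real Filter
open Pool.Agent.P.MP_8be758_nt.Par (det)
open Pool.Agent.P.MP_8be758_nt.Avg (rho)
open scoped Classical

theorem NP_pow (ρ : Pr) {θ : ℝ} (h0 : 0 ≤ θ) (h1 : θ ≤ 1) {P : Finset ℕ} (hP : P ⊆ ρ.Ps) {D E : ℤ}
    (hD : D ∣ E) (hPD : ∀ p ∈ P, ¬(p : ℤ) ∣ D) (x : ℕ → ℝ) (hx : ∀ p, x p ≤ 1 - θ) :
    θ ^ ρ.om (E / D) ≤ ∏ p ∈ P, (1 - x p * ind ((p : ℤ) ∣ E)) := by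
  calc θ ^ ρ.om (E / D) ≤ θ ^ (P.filter fun p : ℕ => (p : ℤ) ∣ E).card := by
        refine pow_le_pow_of_le_one h0 h1 (card_le_card fun p hp => ?_)
        obtain ⟨a, b⟩ := mem_filter.1 hp
        refine mem_pf.2 ⟨hP a, ?_⟩
        rw [← Int.ediv_mul_cancel hD] at b
        exact ((Nat.prime_iff_prime_int.1 (prime_of_PP (hP a))).dvd_or_dvd b).resolve_right
          (hPD p a)
    _ = ∏ p ∈ P, if (p : ℤ) ∣ E then θ else 1 := by
        rw [prod_ite, prod_const, prod_const_one, mul_one]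
    _ ≤ _ := prod_le_prod (fun p _ => by split_ifs <;> linarith) fun p _ => by
        split_ifs with h
        · rw [ind_pos h]; linarith [hx p]
        · rw [ind_neg h]; linarith

theorem NP_exp {z : ℝ} (h : 0 ≤ z) : exp z ≤ (1 + z) * exp (z ^ 2) := by
  have h1 : 0 < 1 + z := by linarith
  have h2 := one_sub_inv_le_log_of_pos h1
  have h3 : z - z ^ 2 ≤ 1 - (1 + z)⁻¹ := by
    rw [show 1 - (1 + z)⁻¹ = z / (1 + z) by field_simp; ring, le_div_iff₀ h1]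
    nlinarith [pow_nonneg h 3]
  rw [← exp_log h1, ← exp_add]
  exact exp_le_exp.2 (by linarith)

theorem NP_ep (P : Finset ℕ) (B : ℕ → ℤ → Prop) (x : ℤ) :
    exp (∑ p ∈ P, 8 / (p : ℝ) * ind (B p x)) ≤ Ep P 8 B x * exp (64 * ∑ p ∈ P, 1 / (p : ℝ) ^ 2) := by
  rw [mul_sum, exp_sum, exp_sum, Ep, ← prod_mul_distrib]
  refine prod_le_prod (fun _ _ => (exp_pos _).le) fun p _ => ?_
  have h0 : 0 ≤ 8 / (p : ℝ) * ind (B p x) := mul_nonneg (by positivity) (ind_nonneg _)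
  refine (NP_exp h0).trans (mul_le_mul_of_nonneg_left (exp_le_exp.2 ?_) (by linarith))
  have h1 : 8 / (p : ℝ) * ind (B p x) ≤ 8 / (p : ℝ) :=
    mul_le_of_le_one_right (by positivity) (ind_le_one _)
  exact (pow_le_pow_left₀ h0 h1 2).trans_eq (by ring)

theorem NP_si (ρ : Pr) (m : ℤ) : ρ.si m = ∑ p ∈ ρ.Ps, 1 / (p : ℝ) * ind ((p : ℤ) ∣ m) := by
  rw [Pr.si, Pr.pf, sum_filter]
  refine sum_congr rfl fun p _ => ?_
  split_ifs with h
  · rw [ind_pos h, mul_one]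
  · rw [ind_neg h, mul_zero]

/-- the six lines -/
def NP_u (d d' : Nd) : Fin 6 → V2 := ![(1, 0), (0, 1), d.ut, d.us, d'.ut, d'.us]

/-- the six moduli -/
def NP_m (n : ℕ) (d d' : Nd) : Fin 6 → ℕ := ![1, n, d.af.natAbs, 1, d'.af.natAbs, 1]

/-- good primes -/
def NP_g (d d' : Nd) (p : ℕ) : Prop := ¬(p : ℤ) ∣ d.s * d.t ∧ ¬(p : ℤ) ∣ d'.s * d'.t ∧
  ¬(p : ℤ) ∣ (d.m * d.t - d'.m * d'.t) * (d.m * d.a - d.s * (d'.m * d'.t)) ∧
  ¬(p : ℤ) ∣ (d.m * d.t * d'.s - d'.m * d'.a) * (d.m * d.a * d'.s - d.s * (d'.m * d'.a))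

/-- the sieve weights -/
noncomputable def NP_x (k : Kw) (d d' : Nd) (i : Fin 6) (p : ℕ) : ℝ :=
  ![1, 1, (1 - k.t) * ind (NP_g d d' p), (1 - k.s) * ind (NP_g d d' p),
    (1 - k.t) * ind (NP_g d d' p), (1 - k.s) * ind (NP_g d d' p)] i

theorem NP_det {d d' : Nd} {p : ℕ} (hp : p.Prime) (h1 : ¬(p : ℤ) ∣ d.m * d.a)
    (h2 : ¬(p : ℤ) ∣ d'.m * d'.a) (h3 : ¬(p : ℤ) ∣ d.af) (h4 : ¬(p : ℤ) ∣ d'.af) (hg : NP_g d d' p)
    (i j : Fin 6) (hij : i < j) : ¬(p : ℤ) ∣ det (NP_u d d' i) (NP_u d d' j) := by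
  have hq := Nat.prime_iff_prime_int.1 hp
  obtain ⟨g1, g2, g3, g4⟩ := hg
  have u1 : ¬(p : ℤ) ∣ 1 := hq.not_dvd_one
  have a1 : ¬(p : ℤ) ∣ d.s := fun h => g1 (h.mul_right _)
  have a2 : ¬(p : ℤ) ∣ d'.s := fun h => g2 (h.mul_right _)
  have a3 : ¬(p : ℤ) ∣ d.m * d.t := fun h =>
    (hq.dvd_or_dvd h).elim (fun h => h1 (h.mul_right _)) fun h => g1 (h.mul_left _)
  have a4 : ¬(p : ℤ) ∣ d'.m * d'.t := fun h =>
    (hq.dvd_or_dvd h).elim (fun h => h2 (h.mul_right _)) fun h => g2 (h.mul_left _)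
  have a5 : ¬(p : ℤ) ∣ d.m * d.af := fun h =>
    (hq.dvd_or_dvd h).elim (fun h => h1 (h.mul_right _)) h3
  have a6 : ¬(p : ℤ) ∣ d'.m * d'.af := fun h =>
    (hq.dvd_or_dvd h).elim (fun h => h2 (h.mul_right _)) h4
  have b1 : ¬(p : ℤ) ∣ d.m * d.t - d'.m * d'.t := fun h => g3 (h.mul_right _)
  have b2 : ¬(p : ℤ) ∣ d.m * d.a - d.s * (d'.m * d'.t) := fun h => g3 (h.mul_left _)
  have b3 : ¬(p : ℤ) ∣ d.m * d.t * d'.s - d'.m * d'.a := fun h => g4 (h.mul_right _)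
  have b4 : ¬(p : ℤ) ∣ d.m * d.a * d'.s - d.s * (d'.m * d'.a) := fun h => g4 (h.mul_left _)
  have pos : ∀ {a b : ℤ}, ¬(p : ℤ) ∣ a → b = a → ¬(p : ℤ) ∣ b := fun h e => e ▸ h
  have neg : ∀ {a b : ℤ}, ¬(p : ℤ) ∣ a → b = -a → ¬(p : ℤ) ∣ b := fun h e => by
    rwa [e, dvd_neg]
  fin_cases i <;> fin_cases j <;> first | exact absurd hij (by decide) | skip
  · exact pos u1 (by simp [NP_u, det])
  · exact pos u1 (by simp [NP_u, det, Nd.ut])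
  · exact pos a1 (by simp [NP_u, det, Nd.us])
  · exact pos u1 (by simp [NP_u, det, Nd.ut])
  · exact pos a2 (by simp [NP_u, det, Nd.us])
  · exact neg a3 (by simp [NP_u, det, Nd.ut])
  · exact neg h1 (by simp [NP_u, det, Nd.us])
  · exact neg a4 (by simp [NP_u, det, Nd.ut])
  · exact neg h2 (by simp [NP_u, det, Nd.us])
  · exact neg a5 (by simp [NP_u, det, Nd.ut, Nd.us, Nd.af]; ring)
  · exact pos b1 (by simp [NP_u, det, Nd.ut])
  · exact pos b3 (by simp [NP_u, det, Nd.ut, Nd.us])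
  · exact pos b2 (by simp [NP_u, det, Nd.ut, Nd.us])
  · exact pos b4 (by simp [NP_u, det, Nd.us])
  · exact neg a6 (by simp [NP_u, det, Nd.ut, Nd.us, Nd.af]; ring)

theorem NP_anti (a b : V2) : det a b = -det b a := by simp only [det]; ring

theorem NP_x01 {k : Kw} (hk : k.OK) (d d' : Nd) (i : Fin 6) (p : ℕ) :
    0 ≤ NP_x k d d' i p ∧ NP_x k d d' i p ≤ 1 := by
  obtain ⟨-, ⟨t0, t1⟩, ⟨s0, s1⟩, -⟩ := hk
  have h0 := ind_nonneg (NP_g d d' p)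
  have h1 := ind_le_one (NP_g d d' p)
  have e : ∀ c : ℝ, 0 ≤ c → c ≤ 1 → 0 ≤ (1 - c) * ind (NP_g d d' p) ∧
      (1 - c) * ind (NP_g d d' p) ≤ 1 := fun c a b => ⟨by nlinarith, by nlinarith⟩
  fin_cases i
  exacts [⟨zero_le_one, le_rfl⟩, ⟨zero_le_one, le_rfl⟩, e _ t0 t1, e _ s0 s1, e _ t0 t1, e _ s0 s1]

/-- the sifting primes -/
noncomputable def NP_P (ρ : Pr) (m : ℕ) (d d' : Nd) : Finset ℕ :=
  ρ.Ps.filter fun p => ¬p ∣ m ∧ ¬(p : ℤ) ∣ d.af ∧ ¬(p : ℤ) ∣ d'.af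

theorem NP_point (ρ : Pr) {k : Kw} (hk : k.OK) {α m : ℕ} {d d' : Nd}
    (h1 : ∀ p ∈ NP_P ρ m d d', ¬(p : ℤ) ∣ d.m * d.a)
    (h2 : ∀ p ∈ NP_P ρ m d d', ¬(p : ℤ) ∣ d'.m * d'.a) (φ : Fm) :
    ind (ρ.nat α m φ) * (ρ.nw k d φ * ρ.nw k d' φ) ≤
      (∏ i, ind ((NP_m (α * m) d d' i : ℤ) ∣ ev φ (NP_u d d' i))) *
        ∏ p ∈ NP_P ρ m d d', ∏ i, (1 - NP_x k d d' i p * ind ((p : ℤ) ∣ ev φ (NP_u d d' i))) := by
  have n1 : ∀ i p, 0 ≤ 1 - NP_x k d d' i p * ind ((p : ℤ) ∣ ev φ (NP_u d d' i)) := fun i p => by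
    have := NP_x01 hk d d' i p
    have := mul_le_one₀ this.2 (ind_nonneg ((p : ℤ) ∣ ev φ (NP_u d d' i))) (ind_le_one _)
    linarith
  have n0 : 0 ≤ (∏ i, ind ((NP_m (α * m) d d' i : ℤ) ∣ ev φ (NP_u d d' i))) *
      ∏ p ∈ NP_P ρ m d d', ∏ i, (1 - NP_x k d d' i p * ind ((p : ℤ) ∣ ev φ (NP_u d d' i))) :=
    mul_nonneg (prod_nonneg fun _ _ => ind_nonneg _)
      (prod_nonneg fun _ _ => prod_nonneg fun _ _ => n1 _ _)
  by_cases c0 : ρ.nat α m φ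
  swap
  · rwa [ind_neg c0, zero_mul]
  by_cases c1 : (d.m * d.af : ℤ) ∣ ev φ d.ut ∧ (d.m * d.a * d.af : ℤ) ∣ ev φ d.us
  swap
  · rwa [Pr.nw, ind_neg c1, zero_mul, zero_mul, mul_zero]
  by_cases c2 : (d'.m * d'.af : ℤ) ∣ ev φ d'.ut ∧ (d'.m * d'.a * d'.af : ℤ) ∣ ev φ d'.us
  swap
  · rwa [Pr.nw, Pr.nw, ind_neg c2, zero_mul, mul_zero, mul_zero]
  have e0 : ev φ (1, 0) = φ.1 := by simp [ev]
  have e1 : ev φ (0, 1) = φ.2.2 := by simp [ev]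
  have e2 : ∏ i, ind ((NP_m (α * m) d d' i : ℤ) ∣ ev φ (NP_u d d' i)) = 1 := by
    refine prod_eq_one fun i _ => ind_pos ?_
    fin_cases i
    · exact one_dvd _
    · exact e1 ▸ c0.1
    · exact Int.natAbs_dvd.2 (dvd_of_mul_left_dvd c1.1)
    · exact one_dvd _
    · exact Int.natAbs_dvd.2 (dvd_of_mul_left_dvd c2.1)
    · exact one_dvd _
  have hP : NP_P ρ m d d' ⊆ ρ.Ps := filter_subset _ _
  have hq : ∀ p ∈ NP_P ρ m d d', Prime (p : ℤ) := fun p hp =>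
    Nat.prime_iff_prime_int.1 (prime_of_PP (hP hp))
  have f0 : ∏ p ∈ NP_P ρ m d d', (1 - NP_x k d d' 0 p * ind ((p : ℤ) ∣ ev φ (NP_u d d' 0))) = 1 :=
    prod_eq_one fun p hp => by
      rw [ind_neg, mul_zero, sub_zero]
      exact fun h => c0.2 p (hP hp) (mem_filter.1 hp).2.1 (dvd_mul_of_dvd_left (e0 ▸ h) _)
  have f1 : ∏ p ∈ NP_P ρ m d d', (1 - NP_x k d d' 1 p * ind ((p : ℤ) ∣ ev φ (NP_u d d' 1))) = 1 :=
    prod_eq_one fun p hp => by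
      rw [ind_neg, mul_zero, sub_zero]
      exact fun h => c0.2 p (hP hp) (mem_filter.1 hp).2.1 (dvd_mul_of_dvd_right (e1 ▸ h) _)
  obtain ⟨-, ⟨t0, t1⟩, ⟨s0, s1⟩, -⟩ := hk
  have e : ∀ c : ℝ, c ≤ 1 → ∀ p, (1 - c) * ind (NP_g d d' p) ≤ 1 - c := fun c a p =>
    mul_le_of_le_one_right (by linarith) (ind_le_one _)
  have f2 := NP_pow ρ t0 t1 hP c1.1 (fun p hp h => ((hq p hp).dvd_or_dvd h).elim
    (fun h => h1 p hp (h.mul_right _)) (mem_filter.1 hp).2.2.1) (NP_x k d d' 2) (e _ t1)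
  have f3 := NP_pow ρ s0 s1 hP c1.2 (fun p hp h => ((hq p hp).dvd_or_dvd h).elim
    (h1 p hp) (mem_filter.1 hp).2.2.1) (NP_x k d d' 3) (e _ s1)
  have f4 := NP_pow ρ t0 t1 hP c2.1 (fun p hp h => ((hq p hp).dvd_or_dvd h).elim
    (fun h => h2 p hp (h.mul_right _)) (mem_filter.1 hp).2.2.2) (NP_x k d d' 4) (e _ t1)
  have f5 := NP_pow ρ s0 s1 hP c2.2 (fun p hp h => ((hq p hp).dvd_or_dvd h).elim
    (h2 p hp) (mem_filter.1 hp).2.2.2) (NP_x k d d' 5) (e _ s1)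
  rw [e2, Finset.prod_comm, Fin.prod_univ_six, f0, f1, Pr.nw, Pr.nw, ind_pos c0, ind_pos c1, ind_pos c2]
  simp only [one_mul, mul_assoc] at f3 f5 ⊢
  have n2 := fun i => prod_nonneg (s := NP_P ρ m d d') fun p _ => n1 i p
  exact mul_le_mul f2 (mul_le_mul f3 (mul_le_mul f4 f5 (pow_nonneg s0 _) (n2 4))
    (mul_nonneg (pow_nonneg t0 _) (pow_nonneg s0 _)) (n2 3))
    (mul_nonneg (pow_nonneg s0 _) (mul_nonneg (pow_nonneg t0 _) (pow_nonneg s0 _))) (n2 2)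

theorem NP_expo (ρ : Pr) {k : Kw} (hk : k.OK) (m : ℕ) (d d' : Nd)
    (hr : ∀ p ∈ ρ.Ps, rho ρ.A p = 0 ∨ rho ρ.A p = 2) :
    -(∑ p ∈ NP_P ρ m d d', (rho ρ.A p : ℝ) / p * ∑ i, NP_x k d d' i p) ≤
      -(6 - 2 * k.t - 2 * k.s) * ρ.La + 12 * ρ.si m + 12 * ρ.si d.af + 12 * ρ.si d'.af +
        8 * ρ.si (d.s * d.t) + 8 * ρ.si (d'.s * d'.t) +
        ∑ p ∈ ρ.Ps, 8 / (p : ℝ) * ind (Pr.Bs m d d'.m d'.a p d'.s) +
        ∑ p ∈ ρ.Ps, 8 / (p : ℝ) * ind (Pr.Bt m d d'.m p d'.t) := by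
  obtain ⟨-, ⟨t0, t1⟩, ⟨s0, s1⟩, -⟩ := hk
  rw [NP_P, sum_filter, ← sum_neg_distrib]
  simp only [NP_si, Pr.La, mul_sum, ← sum_add_distrib]
  refine sum_le_sum fun p hp => ?_
  have e : ∑ i, NP_x k d d' i p = 2 + (4 - 2 * k.t - 2 * k.s) * ind (NP_g d d' p) := by
    simp only [Fin.sum_univ_six, NP_x]
    simp
    ring
  rw [← mul_sum, e]
  have q0 : (0 : ℝ) ≤ 1 / p := by positivity
  have r0 : (0 : ℝ) ≤ (rho ρ.A p : ℝ) / p := by positivity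
  have r1 : (rho ρ.A p : ℝ) / p ≤ 2 * (1 / p) := by
    rcases hr p hp with h | h <;> rw [h]
    · simp
    · exact le_of_eq (by push_cast; ring)
  rw [show 8 / (p : ℝ) = 8 * (1 / p) by ring]
  generalize (rho ρ.A p : ℝ) / p = r at *
  generalize 1 / (p : ℝ) = q at *
  have i0 : ∀ Q : Prop, 0 ≤ q * ind Q := fun Q => mul_nonneg q0 (ind_nonneg _)
  have i1 : ∀ {Q : Prop}, Q → q * ind Q = q := fun h => by rw [ind_pos h, mul_one]
  have j1 := i0 ((p : ℤ) ∣ (m : ℤ))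
  have j2 := i0 ((p : ℤ) ∣ d.af)
  have j3 := i0 ((p : ℤ) ∣ d'.af)
  have j4 := i0 ((p : ℤ) ∣ d.s * d.t)
  have j5 := i0 ((p : ℤ) ∣ d'.s * d'.t)
  have j6 := i0 (Pr.Bs m d d'.m d'.a p d'.s)
  have j7 := i0 (Pr.Bt m d d'.m p d'.t)
  have k1 := mul_nonneg t0 r0
  have k2 := mul_nonneg s0 r0
  split_ifs with h
  · by_cases g : NP_g d d' p
    · rw [ind_pos g]
      nlinarith
    · rw [ind_neg g]
      simp only [NP_g, not_and_or, not_not] at g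
      rcases g with g | g | g | g
      · have := i1 g
        nlinarith
      · have := i1 g
        nlinarith
      · have := i1 (show Pr.Bt m d d'.m p d'.t from ⟨h.1, g⟩)
        nlinarith
      · have := i1 (show Pr.Bs m d d'.m d'.a p d'.s from ⟨h.1, g⟩)
        nlinarith
  · simp only [not_and_or, not_not] at h
    rcases h with g | g | g
    · have := i1 (Int.natCast_dvd_natCast.2 g)
      nlinarith
    · have := i1 g
      nlinarith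
    · have := i1 g
      nlinarith

theorem p_NP (hGL : S_GL) (hLAM : S_LAM) :
    S_NP := by
  obtain ⟨C1, hGL⟩ := hGL
  obtain ⟨c, hc⟩ := hLAM
  refine ⟨24, fun k1 hk1 => ⟨max c (C1 + 24), fun A C0 => ⟨2 * exp 218, ?_, fun z hA hC hB => ?_⟩⟩⟩
  · linarith [one_le_exp (show (0 : ℝ) ≤ 218 by norm_num)]
  obtain ⟨C', -, h⟩ := hc A C0
  have hB' := hB.mono (le_max_right _ _)
  obtain ⟨-, -, z1, z2, -, -⟩ := hB'.sizes (by omega)
  obtain ⟨-, z3, -, z4, z5, -⟩ := hB'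
  filter_upwards [h z hA hC (hB.mono (le_max_left _ _)), eventually_ge_atTop (z.w : ℝ)] with y hL hy
  obtain ⟨-, -, -, hr, -, hs, -⟩ := hL
  intro k ψ G N α m d d' hk hψ hG hα hm hd hd'
  set ρ : Pr := ⟨z, y⟩ with hρ
  have w0 : (24 : ℝ) ≤ z.w := by exact_mod_cast (by omega : 24 ≤ z.w)
  have w1 : (4 * z.A : ℝ) ≤ z.w := by exact_mod_cast z4
  have y1 : (1 : ℝ) ≤ y := by linarith
  have y0 : (0 : ℝ) ≤ y := by linarith
  obtain ⟨a1, a2, a3⟩ := (mem_SF (pow_nonneg y0 _)).1 hα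
  obtain ⟨m1, m2, m3⟩ := (mem_SF (pow_nonneg y0 _)).1 hm
  have hα' : ∀ p : ℕ, p.Prime → p ∣ α → y < p := fun p h1 h2 =>
    lt_of_PP (a3 (Nat.mem_primeFactors.2 ⟨h1, h2, a2.ne_zero⟩))
  have hm' : ∀ p : ℕ, p.Prime → p ∣ m → (z.w : ℝ) < p ∧ (p : ℝ) ≤ y := fun p h1 h2 =>
    ((mem_PP y0).1 (m3 (Nat.mem_primeFactors.2 ⟨h1, h2, m2.ne_zero⟩))).2
  have cop : α.Coprime m := Nat.coprime_of_dvd fun p h1 h2 h3 =>
    absurd (hα' p h1 h2) (not_lt.2 (hm' p h1 h3).2)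
  have hP : ∀ p ∈ NP_P ρ m d d', p.Prime ∧ (z.w : ℝ) < p ∧ (p : ℝ) ≤ y := fun p hp =>
    (mem_PP y0).1 (mem_filter.1 hp).1
  have hP1 : ∀ p ∈ NP_P ρ m d d', ¬p ∣ α * m := fun p hp h =>
    ((hP p hp).1.dvd_mul.1 h).elim (fun h => absurd (hα' p (hP p hp).1 h) (not_lt.2 (hP p hp).2.2))
      (mem_filter.1 hp).2.1
  have hP2 : ∀ e : Nd, ρ.NA α m e → ∀ p ∈ NP_P ρ m d d', ¬(p : ℤ) ∣ e.m * e.a := fun e he p hp h =>
    hP1 p hp (dvd_trans (by exact_mod_cast h) he.dv)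
  have hE : 0 ≤ ρ.Er k1 := div_nonneg (pow_nonneg y0 _) (pow_nonneg y0 _)
  have r1 : Rg (4 * z.A) 1 := ⟨squarefree_one, by simp⟩
  have r2 : ∀ e : Nd, ρ.NA α m e → Rg (4 * z.A) e.af.natAbs := fun e he =>
    ⟨he.rf.1, fun p hp => w1.trans_lt (he.rf.2 p hp)⟩
  have r3 : Rg (4 * z.A) (α * m) := by
    refine ⟨(Nat.squarefree_mul cop).2 ⟨a2, m2⟩, fun p hp => ?_⟩
    obtain ⟨h1, h2, -⟩ := Nat.mem_primeFactors.1 hp
    rcases h1.dvd_mul.1 h2 with h | h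
    · linarith [hα' p h1 h]
    · linarith [(hm' p h1 h).1]
  have r4 : ∀ e : Nd, ρ.NA α m e → (α * m).Coprime e.af.natAbs := fun e he => by
    have := Int.isCoprime_iff_gcd_eq_one.1 he.cop.of_mul_left_right.symm
    simpa [Int.gcd, Int.natAbs_mul] using this
  have u1 : ∀ p : ℕ, p.Prime → ¬(p : ℤ) ∣ 1 := fun p hp =>
    (Nat.prime_iff_prime_int.1 hp).not_dvd_one
  have ab : ∀ e : Nd, ρ.NA α m e → ((e.af.natAbs : ℕ) : ℝ) ≤ y ^ (z.U + 1) := fun e he => by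
    rw [← Int.cast_natCast, Int.natAbs_of_nonneg he.f0.le]
    exact he.f1
  have key := hGL z.A ψ (Fin 6) (NP_u d d') (NP_m (α * m) d d') 2 4 (NP_x k d d') (NP_P ρ m d d') G y
    (y ^ (k1 * z.K')) (ρ.Er k1) (by omega) hψ (by decide) (by simp) (by linarith) hE ?_ ?_ ?_ hG.1 ?_
  rotate_left
  · intro i
    fin_cases i
    · exact ⟨r1, by simp [NP_m]⟩
    · exact ⟨r3, fun p hp h => u1 p (Nat.prime_of_mem_primeFactors hp) h.2⟩
    · exact ⟨r2 d hd, fun p hp h => u1 p (Nat.prime_of_mem_primeFactors hp) h.2⟩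
    · exact ⟨r1, by simp [NP_m]⟩
    · exact ⟨r2 d' hd', fun p hp h => u1 p (Nat.prime_of_mem_primeFactors hp) h.2⟩
    · exact ⟨r1, by simp [NP_m]⟩
  · intro i j hij
    have b1 := r4 d hd
    have b2 := r4 d' hd'
    fin_cases i <;> fin_cases j <;> first
      | exact absurd rfl hij
      | exact .inl ⟨rfl, rfl⟩
      | exact .inr (.inl ⟨rfl, rfl⟩)
      | exact .inr (.inr (Nat.coprime_one_left _))
      | exact .inr (.inr (Nat.coprime_one_right _))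
      | exact .inr (.inr b1)
      | exact .inr (.inr b2)
      | exact .inr (.inr b1.symm)
      | exact .inr (.inr b2.symm)
  · intro p hp
    obtain ⟨p1, p2, p3⟩ := hP p hp
    obtain ⟨-, -, p4, p5⟩ := mem_filter.1 hp
    refine ⟨p1, by exact_mod_cast w1.trans_lt p2, by exact_mod_cast w0.trans p2.le, p3,
      fun i => ?_, fun i => ⟨(NP_x01 hk d d' i p).1, (NP_x01 hk d d' i p).2, fun _ h => ?_⟩,
      fun i j hij hi hj => ?_⟩
    · fin_cases i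
      exacts [p1.not_dvd_one, hP1 p hp, fun h => p4 (Int.natCast_dvd.2 h), p1.not_dvd_one,
        fun h => p5 (Int.natCast_dvd.2 h), p1.not_dvd_one]
    · fin_cases i
      exacts [u1 p p1 h.1, u1 p p1 h.2, u1 p p1 h.2, hP2 d hd p hp h.1, u1 p p1 h.2,
        hP2 d' hd' p hp h.1]
    · by_cases g : NP_g d d' p
      · have := NP_det p1 (hP2 d hd p hp) (hP2 d' hd' p hp) p4 p5 g
        rcases lt_or_gt_of_ne hij with h | h
        · exact this i j h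
        · rw [NP_anti, dvd_neg]
          exact this j i h
      · have e : ∀ i, NP_x k d d' i p ≠ 0 → i = 0 ∨ i = 1 := fun i hi => by
          fin_cases i <;> simp [NP_x, ind_neg g] at hi ⊢
        rcases e i hi with rfl | rfl <;> rcases e j hj with rfl | rfl
        · exact absurd rfl hij
        · simpa [NP_u, det] using u1 p p1
        · simpa [NP_u, det] using u1 p p1
        · exact absurd rfl hij
  · have e : ((∏ i, NP_m (α * m) d d' i : ℕ) : ℝ) =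
        α * m * (d.af.natAbs : ℕ) * (d'.af.natAbs : ℕ) := by
      simp [Fin.prod_univ_six, NP_m]
    have b : (α : ℝ) * m * (d.af.natAbs : ℕ) * (d'.af.natAbs : ℕ) ≤
        y ^ z.U * y ^ (3 * z.K') * y ^ (z.U + 1) * y ^ (z.U + 1) := by
      have b1 := ab d hd
      have b2 := ab d' hd'
      exact mul_le_mul (mul_le_mul (mul_le_mul a1 m1 (by positivity) (by positivity)) b1
        (by positivity) (by positivity)) b2 (by positivity) (by positivity)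
    rw [e]
    refine (mul_le_mul_of_nonneg_right (pow_le_pow_left₀ (by positivity) b 2)
      (pow_nonneg y0 _)).trans ?_
    rw [← pow_add, ← pow_add, ← pow_add, ← pow_mul, ← pow_add]
    exact pow_le_pow_right₀ y1 (by nlinarith [Nat.mul_le_mul_right z.K' hk1])
  refine (sum_le_sum fun g _ => NP_point ρ hk (hP2 d hd) (hP2 d' hd') _).trans (key.trans ?_)
  refine add_le_add ?_ (mul_le_mul_of_nonneg_right (pow_le_pow_right₀ y1 (by omega)) hE)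
  have e1 : ∏ i, de z.A (NP_m (α * m) d d' i) =
      de z.A α * de z.A m * de z.A d.af.natAbs * de z.A d'.af.natAbs := by
    simp [Fin.prod_univ_six, NP_m, de_one, de_mul _ cop]
  have e2 : Int.gcd (Nat.gcd (NP_m (α * m) d d' 2) (NP_m (α * m) d d' 4))
      (det (NP_u d d' 2) (NP_u d d' 4)) = d.dl d' := by
    rw [Nd.dl, ← Int.gcd_neg, show -det (NP_u d d' 2) (NP_u d d' 4) = d'.m * d'.t - d.m * d.t by
      simp [NP_u, det, Nd.ut]]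
    rfl
  have x1 := NP_expo ρ hk m d d' hr
  have x2 := NP_ep ρ.Ps (Pr.Bs m d d'.m d'.a) d'.s
  have x3 := NP_ep ρ.Ps (Pr.Bt m d d'.m) d'.t
  have x4 : ∑ p ∈ NP_P ρ m d d', 1 / (p : ℝ) ^ 2 ≤ ∑ p ∈ ρ.Ps, 1 / (p : ℝ) ^ 2 :=
    sum_le_sum_of_subset_of_nonneg (filter_subset _ _) fun _ _ _ => by positivity
  have x5 : 1 / (ρ.w : ℝ) ≤ 1 := (div_le_one (by change (0 : ℝ) < z.w; linarith)).2
    (by change (1 : ℝ) ≤ z.w; linarith)
  have x6 : 3 / √(ρ.w : ℝ) ≤ 1 := by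
    have : 3 ≤ √(ρ.w : ℝ) := Real.le_sqrt_of_sq_le (by change (3 : ℝ) ^ 2 ≤ z.w; linarith)
    exact (div_le_one (by linarith)).2 this
  have x7 : exp (64 * ∑ p ∈ ρ.Ps, 1 / (p : ℝ) ^ 2) ≤ exp 64 := exp_le_exp.2 (by linarith)
  have n2 := one_le_Ep ρ.Ps (show (0 : ℝ) ≤ 8 by norm_num) (Pr.Bs m d d'.m d'.a) d'.s
  have n3 := one_le_Ep ρ.Ps (show (0 : ℝ) ≤ 8 by norm_num) (Pr.Bt m d d'.m) d'.t
  have x8 : exp (-(∑ p ∈ NP_P ρ m d d', (rho z.A p : ℝ) / p * ∑ i, NP_x k d d' i p) +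
      50 * ∑ p ∈ NP_P ρ m d d', 1 / (p : ℝ) ^ 2) ≤
      exp (-(6 - 2 * k.t - 2 * k.s) * ρ.La) * exp (12 * ρ.si m) * exp 90 *
        (Ep ρ.Ps 8 (Pr.Bs m d d'.m d'.a) d'.s * exp 64) *
        (Ep ρ.Ps 8 (Pr.Bt m d d'.m) d'.t * exp 64) := by
    refine le_trans ?_ (mul_le_mul (mul_le_mul_of_nonneg_left
      (x2.trans (mul_le_mul_of_nonneg_left x7 (by linarith))) (by positivity))
      (x3.trans (mul_le_mul_of_nonneg_left x7 (by linarith))) (exp_pos _).le (by positivity))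
    rw [← exp_add, ← exp_add, ← exp_add, ← exp_add]
    refine exp_le_exp.2 ?_
    linarith [hd.s1, hd.s2, hd'.s1, hd'.s2]
  have d1 := de_nonneg z.A α
  have d2 := de_nonneg z.A m
  have d3 := de_nonneg z.A d.af.natAbs
  have d4 := de_nonneg z.A d'.af.natAbs
  have hN : (0 : ℝ) ≤ N := (Nat.cast_nonneg _).trans hG.2
  rw [e1, e2]
  refine (mul_le_mul (mul_le_mul_of_nonneg_right (mul_le_mul_of_nonneg_left hG.2 zero_le_two)
    (by positivity)) x8 (exp_pos _).le (by positivity)).trans_eq ?_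
  rw [show exp 218 = exp 90 * exp 64 * exp 64 by rw [← exp_add, ← exp_add]; norm_num, Pr.nc]
  ring

end Pool.Agent.P.MP_8be758_nt.Pd
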