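import Pool.Agent.P.MP_8be758_nt.Pd.IfN

/-! Step NPAIR. -/

namespace Pool.Agent.P.MP_8be758_nt.Pd

open Finset Real Filter
open Pool.Agent.P.MP_8be758_nt.Par (det)
open Pool.Agent.P.MP_8be758_nt.Avg (rho)
open scoped Classical

theorem NPAIR_card (ρ : Pr) (hy : 3 ≤ ρ.y) (hc : 2 * ρ.c5 ≤ ρ.y) (hc1 : 1 ≤ ρ.c5) (h3 : 1 ≤ ρ.k3)
    (hU : ρ.U ≤ 2 * ρ.K') (hK : 1 ≤ ρ.K') {Z : ℝ} {α m : ℕ} {z : ℕ × ℕ} (hz : z ∈ ρ.NO Z α m) :
    ((ρ.NB Z α m z).card : ℝ) ≤ ρ.y ^ (6 * ρ.K') := by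
  obtain ⟨r1, r2, r3, r4⟩ := (mem_filter.1 hz).2.1
  have hy1 : 1 ≤ ρ.y := by linarith
  have hs : ρ.NB Z α m z ⊆ SR (α * z.2 : ℕ) (ρ.X / (Z * z.1)) (2 * ρ.c5) := filter_subset _ _
  generalize ρ.X / (Z * z.1) = T at *
  generalize ((α * z.2 : ℕ) : ℤ) = a at *
  have e1 : ρ.y ≤ ρ.y ^ ρ.k3 := le_self_pow₀ hy1 (by omega)
  have e2 : 1 ≤ T := by nlinarith
  have e3 : 2 * ρ.c5 * T ≤ a := by
    have := mul_le_mul (show T ≤ T ^ 2 by nlinarith) (hc.trans e1) (by linarith) (by positivity)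
    linarith
  have e4 : (1 : ℝ) ≤ a := by nlinarith
  have e5 : (1 : ℤ) ≤ a := by exact_mod_cast e4
  have hs2 : SR a T (2 * ρ.c5) ⊆ Icc (-a) a ×ˢ Icc (-a) a := fun v hv => by
    have h0 : 0 < T / (2 * ρ.c5) := by positivity
    obtain ⟨b1, b2, b3, -⟩ := (mem_SR h0).1 hv
    have ht : v.2 ≠ 0 := fun e => by simp [e] at b1; linarith
    refine mem_product.2 ⟨mem_Icc.2 (abs_le.1 (le_trans ?_ b3)), mem_Icc.2 (abs_le.1 ?_)⟩
    · rw [abs_mul]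
      exact le_mul_of_one_le_right (abs_nonneg _) (Int.one_le_abs ht)
    · exact_mod_cast b2.trans e3
  have e6 : ((Icc (-a) a).card : ℝ) ≤ ρ.y ^ (3 * ρ.K') := by
    rw [← Int.cast_natCast, Int.card_Icc, Int.toNat_of_nonneg (by omega)]
    push_cast
    calc (a : ℝ) + 1 - -a ≤ 3 * a := by linarith
      _ ≤ ρ.y * ρ.y ^ ρ.U := mul_le_mul hy r4 (by linarith) (by linarith)
      _ ≤ _ := by rw [← pow_succ']; exact pow_le_pow_right₀ hy1 (by omega)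
  calc ((ρ.NB Z α m z).card : ℝ) ≤ (Icc (-a) a).card * (Icc (-a) a).card := by
        exact_mod_cast (card_le_card (hs.trans hs2)).trans_eq (card_product _ _)
    _ ≤ ρ.y ^ (3 * ρ.K') * ρ.y ^ (3 * ρ.K') := mul_le_mul e6 e6 (by positivity) (by positivity)
    _ = _ := by ring

theorem NPAIR_sum {ι κ : Type} (S : Finset ι) (S' : Finset κ) (c f X h : ι → κ → ℝ)
    {o M R B Q : ℝ} (h2 : ∑ v ∈ S, ∑ v' ∈ S', c v v' * f v v' * X v v' ≤ B)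
    (h1 : ∀ v ∈ S, ∀ v' ∈ S', h v v' ≤ M * X v v' + R) (ho : 0 ≤ o) (hM : 0 ≤ M) (hR : 0 ≤ R)
    (hc : ∀ v v', 0 ≤ c v v' ∧ c v v' ≤ 1) (hf : ∀ v v', 0 ≤ f v v' ∧ f v v' ≤ 1)
    (h3 : (S.card : ℝ) * S'.card ≤ Q) :
    ∑ v ∈ S, ∑ v' ∈ S', c v v' * o * f v v' * h v v' ≤ o * (M * B + Q * R) := by
  calc _ ≤ ∑ v ∈ S, ∑ v' ∈ S', o * (M * (c v v' * f v v' * X v v') + R) := by
        refine sum_le_sum fun v hv => sum_le_sum fun v' hv' => ?_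
        have a1 := mul_nonneg (hc v v').1 (hf v v').1
        have a2 := mul_le_mul_of_nonneg_left (h1 v hv v' hv') a1
        have a3 := mul_le_of_le_one_left hR (mul_le_one₀ (hc v v').2 (hf v v').1 (hf v v').2)
        calc _ = o * (c v v' * f v v' * h v v') := by ring
          _ ≤ _ := mul_le_mul_of_nonneg_left (by linarith) ho
    _ = o * (M * (∑ v ∈ S, ∑ v' ∈ S', c v v' * f v v' * X v v') + S.card * S'.card * R) := by
        simp only [← mul_sum, sum_add_distrib, sum_const, nsmul_eq_mul]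
        ring
    _ ≤ _ := by gcongr

theorem NPAIR_imp {S T : ℝ → Pr → Prop} (h : Ev S) (H : ∀ C, 1 ≤ C → ∀ ρ : Pr, 1 ≤ ρ.y →
    (∀ (Z : ℝ) (α m : ℕ), ∀ z ∈ ρ.NO Z α m, ((ρ.NB Z α m z).card : ℝ) ≤ ρ.y ^ (6 * ρ.K')) →
    S C ρ → T (C * C) ρ) : Ev T := by
  refine h.imp 3 fun z hz C hC => ⟨C * C, one_le_mul_of_one_le_of_one_le hC hC, ?_⟩
  obtain ⟨s1, -, s3, s4, -⟩ := hz.sizes le_rfl
  filter_upwards [eventually_ge_atTop 3, eventually_ge_atTop (2 * (30 * z.C1 ^ 2))] with y y1 y2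
  exact H C hC ⟨z, y⟩ (le_trans (by norm_num) y1) fun Z α m v => NPAIR_card ⟨z, y⟩ y1 y2
    (hz.one_le_c5 y) (show 1 ≤ z.k3 by omega) s3 (show 1 ≤ z.K' by omega)

theorem p_NPAIR (hNP : S_NP) (hNS3 : S_NS3) (hOWN : S_OWN) :
    S_NPAIR := by
  obtain ⟨k0, hk⟩ := hNP
  refine ⟨k0, fun k1 h1 => NPAIR_imp ((hk k1 h1).ev.and hNS3) fun C hC ρ hy hcard => ?_⟩
  rintro ⟨⟨C1, a1, a2, hP⟩, C2, b1, b2, hS⟩ k ψ G N Z α m hk hψ hG hZ hα hm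
  have hN : 0 ≤ N := (Nat.cast_nonneg _).trans hG.2
  have hE : 0 ≤ ρ.Er k1 := by unfold Pr.Er Pr.X; positivity
  have hD : 0 ≤ de ρ.A α * (de ρ.A m * exp (12 * ρ.si m)) :=
    mul_nonneg (de_nonneg _ _) (mul_nonneg (de_nonneg _ _) (exp_pos _).le)
  have hf : ∀ n, 0 ≤ k.f ^ n ∧ k.f ^ n ≤ 1 := fun n =>
    ⟨pow_nonneg hk.2.2.2.1.1 _, pow_le_one₀ hk.2.2.2.1.1 (by linarith [hk.2.2.2.1.2])⟩
  have ho : ∑ v ∈ ρ.NO Z α m, Pr.ow k m v ≤ 1 :=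
    (sum_le_sum_of_subset_of_nonneg (filter_subset _ _) fun v _ _ => ow_nonneg hk m v).trans
      ((hOWN m k.P k.a k.R (mem_filter.1 hm).2.1).trans_le
        (pow_le_one₀ (by linarith [hk.1.1, hk.1.2.1, hk.1.2.2.1]) hk.1.2.2.2))
  have ho0 : 0 ≤ ∑ v ∈ ρ.NO Z α m, Pr.ow k m v := sum_nonneg fun v _ => ow_nonneg hk m v
  have hP' := fun d d' => hP k ψ G N α m d d' hk hψ hG hα hm
  generalize de ρ.A α * (de ρ.A m * exp (12 * ρ.si m)) = D at hD hP' ⊢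
  have hM : 0 ≤ C1 * N * D * exp (-(6 - 2 * k.t - 2 * k.s) * ρ.La) := by positivity
  have hB : C1 * N * D * exp (-(6 - 2 * k.t - 2 * k.s) * ρ.La) * (C2 * exp ((2 * k.f - 2) * ρ.La)) +
      ρ.y ^ (6 * ρ.K') * ρ.y ^ (6 * ρ.K') * (ρ.y ^ ρ.K' * ρ.Er k1) ≤
      C * C * N * D * exp (-5 * ρ.La) + ρ.y ^ (30 * ρ.K') * ρ.Er k1 := by
    refine add_le_add ?_ ?_
    · calc _ = C1 * C2 * N * D *
            exp (-(6 - 2 * k.t - 2 * k.s) * ρ.La + (2 * k.f - 2) * ρ.La) := by rw [exp_add]; ring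
        _ ≤ _ := by
          gcongr
          nlinarith [La_nonneg ρ, hk.2.2.2.2]
    · rw [← mul_assoc, ← pow_add, ← pow_add]
      exact mul_le_mul_of_nonneg_right (pow_le_pow_right₀ hy (by omega)) hE
  refine le_trans ?_ hB
  generalize hB' : C1 * N * D * exp (-(6 - 2 * k.t - 2 * k.s) * ρ.La) *
    (C2 * exp ((2 * k.f - 2) * ρ.La)) +
      ρ.y ^ (6 * ρ.K') * ρ.y ^ (6 * ρ.K') * (ρ.y ^ ρ.K' * ρ.Er k1) = B
  have hB0 : 0 ≤ B := by rw [← hB']; positivity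
  calc _ ≤ ∑ z ∈ ρ.NO Z α m, ∑ z' ∈ ρ.NO Z α m, Pr.ow k m z * Pr.ow k m z' * B := by
        unfold Pr.W2
        rw [sum_comm]
        refine sum_le_sum fun z hz => ?_
        rw [sum_comm]
        refine sum_le_sum fun z' hz' => ?_
        rw [sum_comm, ← hB']
        have key := NPAIR_sum _ _ _ _ _ _
          (hS Z k.f α m hZ hk.2.2.2.1.1 hk.2.2.2.1.2 hα hm z hz z' hz')
          (fun v hv v' hv' => hP' ⟨z.1, α * z.2, v.1, v.2⟩ ⟨z'.1, α * z'.2, v'.1, v'.2⟩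
            (mem_filter.1 hv).2 (mem_filter.1 hv').2)
          (mul_nonneg (ow_nonneg hk m z) (ow_nonneg hk m z')) hM (by positivity)
          (fun _ _ => ⟨ind_nonneg _, ind_le_one _⟩) (fun _ _ => ⟨mul_nonneg (hf _).1 (hf _).1,
            mul_le_one₀ (hf _).2 (hf _).1 (hf _).2⟩)
          (mul_le_mul (hcard Z α m z hz) (hcard Z α m z' hz') (Nat.cast_nonneg _) (by positivity))
        refine le_trans (sum_le_sum fun v _ => ?_) key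
        rw [sum_comm]
        exact sum_le_sum fun v' _ => (mul_sum _ _ _).ge
    _ = (∑ v ∈ ρ.NO Z α m, Pr.ow k m v) * (∑ v ∈ ρ.NO Z α m, Pr.ow k m v) * B := by
        rw [sum_mul_sum]; simp only [sum_mul]
    _ ≤ B := mul_le_of_le_one_left hB0 (mul_le_one₀ ho ho0 ho)

end Pool.Agent.P.MP_8be758_nt.Pd
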