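import Pool.Agent.P.MP_8be758_nt.Pd.IfN

/-! Step NS2. -/

namespace Pool.Agent.P.MP_8be758_nt.Pd

open Finset Real Filter
open Pool.Agent.P.MP_8be758_nt.Par (det)
open Pool.Agent.P.MP_8be758_nt.Avg (rho)
open scoped Classical

theorem NS2_pos {ρ : Pr} (hy : 1 ≤ ρ.y) {a : ℤ} {T C0 : ℝ} (hC : 1 ≤ C0) (h : ρ.Rng a T) {v : V2}
    (hv : v ∈ SR a T C0) : (0 : ℝ) < ((a - v.1 * v.2 : ℤ) : ℝ) := by
  obtain ⟨h1, -, h3, -⟩ := h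
  have h0 : 0 < T / C0 := div_pos h1 (by linarith)
  have h4 := ((mem_SR h0).1 hv).2.2.2.1
  have h5 : (0 : ℝ) < a := lt_of_lt_of_le (by positivity) h3
  have h6 : 0 < a := by exact_mod_cast h5
  have h7 : 0 < a - v.1 * v.2 := by omega
  exact_mod_cast h7

/-- the two lines coincide only for equal first parts and equal `t` -/
theorem NS2_eq {n n' N : ℕ} {t t' : ℤ} (hn : 0 < n) (h1 : n ∣ N) (h2 : n' ∣ N)
    (c1 : IsCoprime t (N : ℤ)) (c2 : IsCoprime t' (N : ℤ)) (e : (n' : ℤ) * t' = n * t) :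
    n = n' ∧ t = t' := by
  have d1 : (n' : ℤ) ∣ n := by
    have c : IsCoprime (n' : ℤ) t :=
      (c1.of_isCoprime_of_dvd_right (Int.natCast_dvd_natCast.2 h2)).symm
    exact c.dvd_of_dvd_mul_right ⟨t', e.symm⟩
  have d2 : (n : ℤ) ∣ n' := by
    have c : IsCoprime (n : ℤ) t' :=
      (c2.of_isCoprime_of_dvd_right (Int.natCast_dvd_natCast.2 h1)).symm
    exact c.dvd_of_dvd_mul_right ⟨t, e⟩
  have e1 : n = n' :=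
    Nat.dvd_antisymm (Int.natCast_dvd_natCast.1 d2) (Int.natCast_dvd_natCast.1 d1)
  subst e1
  have hn' : (n : ℤ) ≠ 0 := by exact_mod_cast hn.ne'
  exact ⟨rfl, (mul_left_cancel₀ hn' e).symm⟩

theorem NS2_term {ρ : Pr} {α m : ℕ} {z z' : ℕ × ℕ} {v v' : V2} (hz : 0 < z.1)
    (h : ρ.NA α m ⟨z.1, α * z.2, v.1, v.2⟩) (h' : ρ.NA α m ⟨z'.1, α * z'.2, v'.1, v'.2⟩) :
    ind (¬(z = z' ∧ v = v')) *
    (ind (ρ.y < (Nd.dl ⟨z.1, α * z.2, v.1, v.2⟩ ⟨z'.1, α * z'.2, v'.1, v'.2⟩ : ℝ)) *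
      (Nd.dl ⟨z.1, α * z.2, v.1, v.2⟩ ⟨z'.1, α * z'.2, v'.1, v'.2⟩ : ℝ) /
      ((((α * z.2 : ℕ) - v.1 * v.2 : ℤ) : ℝ) * (((α * z'.2 : ℕ) - v'.1 * v'.2 : ℤ) : ℝ))) ≤
    ind ((z'.1 : ℤ) * v'.2 ≠ (z.1 : ℤ) * v.2 ∧
      ρ.y < (Int.gcd (Int.gcd ((α : ℤ) * z.2 - v.1 * v.2) ((α : ℤ) * z'.2 - v'.1 * v'.2))
        ((z'.1 : ℤ) * v'.2 - (z.1 : ℤ) * v.2) : ℝ)) *
    (Int.gcd (Int.gcd ((α : ℤ) * z.2 - v.1 * v.2) ((α : ℤ) * z'.2 - v'.1 * v'.2))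
        ((z'.1 : ℤ) * v'.2 - (z.1 : ℤ) * v.2) : ℝ) /
      ((((α : ℤ) * z.2 - v.1 * v.2 : ℤ) : ℝ) * (((α : ℤ) * z'.2 - v'.1 * v'.2 : ℤ) : ℝ)) +
    ind (v.2 = v'.2 ∧ ¬((z.2 : ℤ) = z'.2 ∧ v.1 = v'.1) ∧
      IsCoprime ((α : ℤ) * z.2) ((α : ℤ) * z.2 - v.1 * v.2) ∧
      IsCoprime ((α : ℤ) * z'.2) ((α : ℤ) * z'.2 - v'.1 * v'.2)) *
    (Int.gcd ((α : ℤ) * z.2 - v.1 * v.2) ((α : ℤ) * z'.2 - v'.1 * v'.2) : ℝ) /
      ((((α : ℤ) * z.2 - v.1 * v.2 : ℤ) : ℝ) * (((α : ℤ) * z'.2 - v'.1 * v'.2 : ℤ) : ℝ)) := by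
  have f0 := h.f0
  have f0' := h'.f0
  have cop := h.cop
  have cop' := h'.cop
  have dv := h.dv
  have dv' := h'.dv
  simp only [Nd.af, Nat.cast_mul] at f0 f0' cop cop' dv dv'
  simp only [Nd.dl, Nd.af, Nat.cast_mul]
  generalize hF : (α : ℤ) * z.2 - v.1 * v.2 = F at *
  generalize hF' : (α : ℤ) * z'.2 - v'.1 * v'.2 = F' at *
  have p1 : (0 : ℝ) < (F : ℝ) := by exact_mod_cast f0
  have p2 : (0 : ℝ) < (F' : ℝ) := by exact_mod_cast f0'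
  have p3 : (0 : ℝ) < (F : ℝ) * F' := mul_pos p1 p2
  by_cases hne : z = z' ∧ v = v'
  · rw [ind_neg (not_not.2 hne), zero_mul]
    exact add_nonneg (div_nonneg (mul_nonneg (ind_nonneg _) (Nat.cast_nonneg _)) p3.le)
      (div_nonneg (mul_nonneg (ind_nonneg _) (Nat.cast_nonneg _)) p3.le)
  rw [ind_pos hne, one_mul]
  by_cases hx : (z'.1 : ℤ) * v'.2 = (z.1 : ℤ) * v.2
  · have c1 : IsCoprime v.2 ((α * m : ℕ) : ℤ) := by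
      rw [Nat.cast_mul]; exact cop.of_mul_left_left.of_mul_left_right
    have c2 : IsCoprime v'.2 ((α * m : ℕ) : ℤ) := by
      rw [Nat.cast_mul]; exact cop'.of_mul_left_left.of_mul_left_right
    obtain ⟨e1, e2⟩ := NS2_eq hz ((Dvd.intro _ rfl).trans dv) ((Dvd.intro _ rfl).trans dv') c1 c2 hx
    have q1 : (α : ℤ) * z.2 ∣ (α : ℤ) * m := by
      exact_mod_cast (Dvd.intro_left _ rfl).trans dv
    have q2 : (α : ℤ) * z'.2 ∣ (α : ℤ) * m := by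
      exact_mod_cast (Dvd.intro_left _ rfl).trans dv'
    have hP : v.2 = v'.2 ∧ ¬((z.2 : ℤ) = z'.2 ∧ v.1 = v'.1) ∧ IsCoprime ((α : ℤ) * z.2) F ∧
        IsCoprime ((α : ℤ) * z'.2) F' := by
      refine ⟨e2, fun g => hne ⟨Prod.ext e1 (by exact_mod_cast g.1), Prod.ext g.2 e2⟩, ?_, ?_⟩
      · exact (cop.of_mul_left_right.of_isCoprime_of_dvd_right q1).symm
      · exact (cop'.of_mul_left_right.of_isCoprime_of_dvd_right q2).symm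
    rw [ind_pos hP, one_mul]
    have e3 : Int.gcd (Int.gcd F F' : ℤ) ((z'.1 : ℤ) * v'.2 - (z.1 : ℤ) * v.2) = Int.gcd F F' := by
      rw [hx, sub_self, Int.gcd_zero_right, Int.natAbs_natCast]
    rw [e3]
    refine le_add_of_nonneg_of_le
      (div_nonneg (mul_nonneg (ind_nonneg _) (Nat.cast_nonneg _)) p3.le) ?_
    exact div_le_div_of_nonneg_right
      (mul_le_of_le_one_left (Nat.cast_nonneg _) (ind_le_one _)) p3.le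
  · refine le_add_of_le_of_nonneg (div_le_div_of_nonneg_right
      (mul_le_mul_of_nonneg_right (ind_mono fun g => ⟨hx, g⟩) (Nat.cast_nonneg _)) p3.le) ?_
    exact div_nonneg (mul_nonneg (ind_nonneg _) (Nat.cast_nonneg _)) p3.le

theorem NS2_ext {S S' U U' : Finset V2} {f : V2 → V2 → ℝ} (h : S ⊆ U) (h' : S' ⊆ U')
    (h0 : ∀ v ∈ U, ∀ v' ∈ U', 0 ≤ f v v') :
    ∑ v ∈ S, ∑ v' ∈ S', f v v' ≤ ∑ v ∈ U, ∑ v' ∈ U', f v v' :=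
  (sum_le_sum fun v hv => sum_le_sum_of_subset_of_nonneg h' fun v' hv' _ =>
    h0 v (h hv) v' hv').trans
    (sum_le_sum_of_subset_of_nonneg h fun v hv _ => sum_nonneg fun v' hv' => h0 v hv v' hv')

theorem NS2_main (ρ : Pr) (hy' : 1 ≤ ρ.y) (hc : 1 ≤ ρ.c5)
    (H1 : ∀ (a a' α β : ℤ) (T T' : ℝ), ρ.Rng a T →
      ρ.Rng a' T' → |(α : ℝ)| ≤ ρ.y ^ (4 * ρ.K') → |(β : ℝ)| ≤ ρ.y ^ (4 * ρ.K') →
      ∑ v ∈ SR a T (2 * ρ.c5), ∑ v' ∈ SR a' T' (2 * ρ.c5), ind (α * v'.2 ≠ β * v.2 ∧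
        ρ.y < (Int.gcd (Int.gcd (a - v.1 * v.2) (a' - v'.1 * v'.2)) (α * v'.2 - β * v.2) : ℝ)) *
      (Int.gcd (Int.gcd (a - v.1 * v.2) (a' - v'.1 * v'.2)) (α * v'.2 - β * v.2) : ℝ) /
        (((a - v.1 * v.2 : ℤ) : ℝ) * ((a' - v'.1 * v'.2 : ℤ) : ℝ)) ≤ 1 / √ρ.y)
    (H2 : ∀ (r m m' : ℤ) (T T' : ℝ), ρ.Rng (r * m) T →
      ρ.Rng (r * m') T' → 0 < m → 0 < m' → (m : ℝ) ≤ ρ.y ^ (2 * ρ.K) → (m' : ℝ) ≤ ρ.y ^ (2 * ρ.K) →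
      ∑ v ∈ SR (r * m) T (2 * ρ.c5), ∑ v' ∈ SR (r * m') T' (2 * ρ.c5),
        ind (v.2 = v'.2 ∧ ¬(m = m' ∧ v.1 = v'.1) ∧
        IsCoprime (r * m) (r * m - v.1 * v.2) ∧ IsCoprime (r * m') (r * m' - v'.1 * v'.2)) *
      (Int.gcd (r * m - v.1 * v.2) (r * m' - v'.1 * v'.2) : ℝ) /
        (((r * m - v.1 * v.2 : ℤ) : ℝ) * ((r * m' - v'.1 * v'.2 : ℤ) : ℝ)) ≤ 1 / √ρ.y)
    (Z : ℝ) (α m : ℕ) (z : ℕ × ℕ) (hz : z ∈ ρ.NO Z α m) (z' : ℕ × ℕ) (hz' : z' ∈ ρ.NO Z α m) :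
    ∑ v ∈ ρ.NB Z α m z, ∑ v' ∈ ρ.NB Z α m z', ind (¬(z = z' ∧ v = v')) *
    (ind (ρ.y < (Nd.dl ⟨z.1, α * z.2, v.1, v.2⟩ ⟨z'.1, α * z'.2, v'.1, v'.2⟩ : ℝ)) *
      (Nd.dl ⟨z.1, α * z.2, v.1, v.2⟩ ⟨z'.1, α * z'.2, v'.1, v'.2⟩ : ℝ) /
      ((((α * z.2 : ℕ) - v.1 * v.2 : ℤ) : ℝ) * (((α * z'.2 : ℕ) - v'.1 * v'.2 : ℤ) : ℝ))) ≤
      2 / √ρ.y := by
  have hC : 1 ≤ 2 * ρ.c5 := by linarith
  obtain ⟨a1, a2, a3, a4⟩ := mem_filter.1 hz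
  obtain ⟨b1, b2, b3, b4⟩ := mem_filter.1 hz'
  have a5 := mem_product.1 (mem_filter.1 a1).1
  have b5 := mem_product.1 (mem_filter.1 b1).1
  have a6 : 0 < z.1 := Nat.pos_of_mem_divisors a5.1
  have a7 : 0 < z.2 := Nat.pos_of_mem_divisors a5.2
  have b7 : 0 < z'.2 := Nat.pos_of_mem_divisors b5.2
  rw [Nat.cast_mul] at a2 b2
  have hp : ρ.y ^ ρ.K' ≤ ρ.y ^ (4 * ρ.K') := pow_le_pow_right₀ hy' (by omega)
  have G1 := H1 _ _ (z'.1 : ℤ) (z.1 : ℤ) _ _ a2 b2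
    (by rw [Int.cast_natCast, Nat.abs_cast]; exact b3.trans hp)
    (by rw [Int.cast_natCast, Nat.abs_cast]; exact a3.trans hp)
  have G2 := H2 (α : ℤ) (z.2 : ℤ) (z'.2 : ℤ) _ _ a2 b2 (by exact_mod_cast a7) (by exact_mod_cast b7)
    (by rw [Int.cast_natCast]; exact a4) (by rw [Int.cast_natCast]; exact b4)
  have s1 : ρ.NB Z α m z ⊆ SR ((α : ℤ) * z.2) (ρ.X / (Z * z.1)) (2 * ρ.c5) := by
    rw [← Nat.cast_mul]; exact filter_subset _ _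
  have s2 : ρ.NB Z α m z' ⊆ SR ((α : ℤ) * z'.2) (ρ.X / (Z * z'.1)) (2 * ρ.c5) := by
    rw [← Nat.cast_mul]; exact filter_subset _ _
  refine le_trans (sum_le_sum fun v hv => sum_le_sum fun v' hv' =>
    NS2_term (ρ := ρ) (α := α) (m := m) (z := z) (z' := z') (v := v) (v' := v') a6
      (mem_filter.1 hv).2 (mem_filter.1 hv').2) ?_
  simp only [sum_add_distrib]
  have e : 2 / √ρ.y = 1 / √ρ.y + 1 / √ρ.y := by ring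
  rw [e]
  refine add_le_add ((NS2_ext s1 s2 fun v hv v' hv' => ?_).trans G1)
    ((NS2_ext s1 s2 fun v hv v' hv' => ?_).trans G2)
  all_goals
    exact div_nonneg (mul_nonneg (ind_nonneg _) (Nat.cast_nonneg _))
      (mul_pos (NS2_pos hy' hC a2 hv) (NS2_pos hy' hC b2 hv')).le

theorem p_NS2 (hCR : S_CR) (hND : S_ND) :
    S_NS2 := by
  refine ((Ev.of_ratio hCR).and (Ev.of_ratio hND)).imp 0 fun s hs C _ => ⟨1, le_rfl, ?_⟩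
  filter_upwards [eventually_ge_atTop (1 : ℝ)] with y hy
  rintro ⟨⟨-, -, -, H1⟩, -, -, -, H2⟩ Z α m _ _ _ z hz z' hz'
  exact NS2_main ⟨s, y⟩ hy (hs.one_le_c5 y) H1 H2 Z α m z hz z' hz'

end Pool.Agent.P.MP_8be758_nt.Pd
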