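import Pool.Agent.P.MP_8be758_nt.Pd.IfN

/-! Step NS3. -/

namespace Pool.Agent.P.MP_8be758_nt.Pd

open Finset Real Filter
open Pool.Agent.P.MP_8be758_nt.Par (det)
open Pool.Agent.P.MP_8be758_nt.Avg (rho)
open scoped Classical

theorem NS3_pt {I t t' e e' B h h' a a' D E E' J J' H M : ℝ} (hI0 : 0 ≤ I) (hI1 : I ≤ 1)
    (ht' : 0 ≤ t' * e') (h1 : t * e ≤ B * (h / a)) (h2 : t' * e' ≤ B * (h' / a')) (hB : 0 ≤ B)
    (ha : 0 < a) (ha' : 0 < a') (hh0 : 0 ≤ h) (hh0' : 0 ≤ h') (hh : h ≤ H) (hh' : h' ≤ H)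
    (hD : 0 ≤ D) (hE0 : 0 ≤ E) (hE0' : 0 ≤ E') (hE : E ≤ M) (hE' : E' ≤ M) (hJ : J + J' = 1)
    (hJ0 : 0 ≤ J) (hJ0' : 0 ≤ J') :
    I * (t * t') * (e * e' * (D * (E * E'))) ≤ B ^ 2 * (h / a * (h' / a') * (J * (D * (E * E')))) +
      B ^ 2 * (H ^ 2 * M ^ 2) * (I * (J' * D / (a * a'))) := by
  have hH : 0 ≤ H := hh0.trans hh
  have hM : 0 ≤ M := hE0.trans hE
  have k1 : (t * e) * (t' * e') ≤ (B * (h / a)) * (B * (h' / a')) :=
    mul_le_mul h1 h2 ht' (by positivity)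
  have k2 : I * (h / a * (h' / a') * (J * (D * (E * E')))) ≤ h / a * (h' / a') * (J * (D * (E * E'))) :=
    mul_le_of_le_one_left (by positivity) hI1
  have k3 : h * h' * (E * E') ≤ H ^ 2 * M ^ 2 := by
    rw [sq, sq]
    gcongr
  calc _ = (t * e) * (t' * e') * (I * (D * (E * E'))) := by ring
    _ ≤ (B * (h / a)) * (B * (h' / a')) * (I * (D * (E * E'))) := by gcongr
    _ = (B * (h / a)) * (B * (h' / a')) * (I * (D * (E * E'))) * (J + J') := by rw [hJ, mul_one]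
    _ = B ^ 2 * (I * (h / a * (h' / a') * (J * (D * (E * E'))))) +
        B ^ 2 * (h * h' * (E * E')) * (I * (J' * D / (a * a'))) := by
      field_simp
    _ ≤ _ := by gcongr

theorem NS3_Ep (P : Finset ℕ) (B : ℕ → ℤ → Prop) (x : ℤ) :
    Ep P 8 B x ≤ exp (8 * ∑ p ∈ P, (1 : ℝ) / p) := by
  rw [mul_sum, exp_sum]
  refine prod_le_prod (fun p _ => add_nonneg zero_le_one
    (mul_nonneg (by positivity) (ind_nonneg _))) fun p _ => ?_
  have h1 : (8 : ℝ) / p * ind (B p x) ≤ 8 * (1 / p) := by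
    rw [mul_one_div]
    exact mul_le_of_le_one_right (by positivity) (ind_le_one _)
  linarith [add_one_le_exp (8 * (1 / (p : ℝ)))]

theorem NS3_ev (n : ℕ) {c : ℝ} (hc : 0 < c) : ∀ᶠ y : ℝ in atTop, c * log y ^ n ≤ √y := by
  filter_upwards [(Real.isLittleO_pow_log_id_atTop (n := 2 * n)).bound
    (show 0 < 1 / c ^ 2 by positivity), eventually_ge_atTop (1 : ℝ)] with y h hy
  refine le_sqrt_of_sq_le ?_
  rw [id, norm_of_nonneg (pow_nonneg (log_nonneg hy) _), norm_of_nonneg (by linarith),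
    one_div_mul_eq_div, le_div_iff₀ (by positivity)] at h
  calc _ = log y ^ (2 * n) * c ^ 2 := by ring
    _ ≤ _ := h

theorem NS3_sum {ι : Type} {S T : Finset ι} {F f g : ι → ι → ℝ} {p q X Y : ℝ} (hp : 0 ≤ p)
    (hq : 0 ≤ q) (hf : ∑ v ∈ S, ∑ v' ∈ T, f v v' ≤ X) (hg : ∑ v ∈ S, ∑ v' ∈ T, g v v' ≤ Y)
    (h : ∀ v ∈ S, ∀ v' ∈ T, F v v' ≤ p * f v v' + q * g v v') :
    ∑ v ∈ S, ∑ v' ∈ T, F v v' ≤ p * X + q * Y := by
  refine (sum_le_sum fun v hv => sum_le_sum (h v hv)).trans ?_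
  simp only [sum_add_distrib, ← mul_sum]
  gcongr

theorem NS3_ind (a b : ℝ) : ind (a ≤ b) + ind (b < a) = 1 := by
  by_cases c : a ≤ b
  · rw [ind_pos c, ind_neg (not_lt.2 c), add_zero]
  · rw [ind_neg c, ind_pos (not_le.1 c), zero_add]

theorem p_NS3 (hNH : S_NH) (hNS1 : S_NS1) (hNS2 : S_NS2) (hLAM : S_LAM) :
    S_NS3 := by
  refine (((Unif.ev hNH).and hNS1).and (Ev.and hNS2 (Unif.ev hLAM))).imp 0 fun z _ C hC => ?_
  have hB : (1 : ℝ) ≤ (2 ^ (z.U + 1)) ^ 2 := one_le_pow₀ (one_le_pow₀ one_le_two)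
  refine ⟨(2 ^ (z.U + 1)) ^ 2 * (C + 1), by nlinarith, ?_⟩
  filter_upwards [NS3_ev (2 * z.K + 18)
    (show 0 < C ^ (2 * z.K + 18) * (exp (16 * C) * 2) by positivity),
    eventually_gt_atTop (1 : ℝ)] with y hy hy1
  rintro ⟨⟨C1, -, e1, ⟨-, -, -, hH⟩, C2, -, e2, h1⟩, C3, -, e3, ⟨-, -, -, h2⟩, C4, -, e4, l1, l2, -⟩
    Z θ α m hZ hθ0 hθ hα hm s hs s' hs'
  set ρ : Pr := ⟨z, y⟩ with hρ
  have hLa := La_nonneg ρ
  have hS : ∑ p ∈ ρ.Ps, (1 : ℝ) / p ≤ ρ.La + C := by linarith [(abs_le.1 l1).2]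
  have hE : ∀ B x, Ep ρ.Ps 8 B x ≤ exp (8 * (ρ.La + C)) := fun B x =>
    (NS3_Ep _ B x).trans (exp_le_exp.2 (by linarith))
  have hw0 : ∀ k, 0 ≤ ρ.hw (2 * θ) k := fun k =>
    mul_nonneg (pow_nonneg (by linarith) _) (ind_nonneg _)
  have a1 := h1 Z (2 * θ) α m hZ (by linarith) (by linarith) hα hm s hs s' hs'
  have a2 := h2 Z α m hZ hα hm s hs s' hs'
  have hl : 0 ≤ log y := log_nonneg hy1.le
  have l3 : exp ρ.La ≤ C * log y := l2.trans (mul_le_mul_of_nonneg_right (e4.trans e3) hl)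
  have hsq : 0 < √y := sqrt_pos.2 (by linarith)
  have a3 : exp (ρ.K * ρ.La) ^ 2 * exp (8 * (ρ.La + C)) ^ 2 * (2 / √y) ≤
      exp ((2 * θ - 2) * ρ.La) := by
    have b1 : exp ρ.La ^ (2 * z.K + 18) * (exp (16 * C) * 2) ≤ √y := by
      refine le_trans ?_ hy
      calc _ ≤ (C * log y) ^ (2 * z.K + 18) * (exp (16 * C) * 2) := by gcongr
        _ = _ := by rw [mul_pow]; ring
    have b2 : exp (ρ.K * ρ.La) ^ 2 * exp (8 * (ρ.La + C)) ^ 2 =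
        exp (-2 * ρ.La) * (exp ρ.La ^ (2 * z.K + 18) * exp (16 * C)) := by
      simp only [← exp_nat_mul, ← exp_add]
      congr 1
      have : ρ.K = z.K := rfl
      rw [this]
      push_cast
      ring
    calc _ = exp (-2 * ρ.La) * (exp ρ.La ^ (2 * z.K + 18) * (exp (16 * C) * 2) / √y) := by
          rw [b2]; ring
      _ ≤ exp (-2 * ρ.La) := mul_le_of_le_one_right (exp_pos _).le ((div_le_one hsq).2 b1)
      _ ≤ _ := exp_le_exp.2 (by nlinarith)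
  have a4 := a1.trans (mul_le_mul_of_nonneg_right (e2.trans e1) (exp_pos _).le)
  refine le_trans (NS3_sum (p := (2 ^ (z.U + 1)) ^ 2) (q := (2 ^ (z.U + 1)) ^ 2 *
    (exp (ρ.K * ρ.La) ^ 2 * exp (8 * (ρ.La + C)) ^ 2)) (by positivity) (by positivity) a4 a2
    fun v hv v' hv' => ?_) ?_
  · have n1 := (mem_filter.1 hv).2
    have n2 := (mem_filter.1 hv').2
    obtain ⟨c1, c2⟩ := hH α m _ θ hθ0 hθ n1
    obtain ⟨d1, d2⟩ := hH α m _ θ hθ0 hθ n2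
    exact NS3_pt (ind_nonneg _) (ind_le_one _) (mul_nonneg (pow_nonneg hθ0 _) (de_nonneg _ _)) c1 d1
      (by positivity) (Int.cast_pos.2 n1.f0) (Int.cast_pos.2 n2.f0) (hw0 _) (hw0 _) c2 d2
      (Nat.cast_nonneg _) (zero_le_one.trans (one_le_Ep _ (by norm_num) _ _))
      (zero_le_one.trans (one_le_Ep _ (by norm_num) _ _)) (hE _ _) (hE _ _) (NS3_ind _ _)
      (ind_nonneg _) (ind_nonneg _)
  · rw [mul_assoc ((2 ^ (z.U + 1) : ℝ) ^ 2) (_ * _) (2 / √y)]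
    calc _ ≤ (2 ^ (z.U + 1)) ^ 2 * (C * exp ((2 * θ - 2) * ρ.La)) +
          (2 ^ (z.U + 1)) ^ 2 * exp ((2 * θ - 2) * ρ.La) := by gcongr
      _ = _ := by ring

end Pool.Agent.P.MP_8be758_nt.Pd
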