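import Pool.Agent.P.MP_8be758_nt.Pd.IfN

/-! Step NSUM. -/

namespace Pool.Agent.P.MP_8be758_nt.Pd

open Finset Real Filter
open Pool.Agent.P.MP_8be758_nt.Par (det)
open Pool.Agent.P.MP_8be758_nt.Avg (rho)
open scoped Classical

theorem NSUM_ev (n : ℕ) {B : ℝ} (hB : 0 < B) : ∀ᶠ y : ℝ in atTop, B * log y ^ n ≤ y := by
  filter_upwards [(Real.isLittleO_pow_log_id_atTop (n := n)).bound (inv_pos.2 hB),
    eventually_ge_atTop 0] with y h hy
  rw [Real.norm_eq_abs, Real.norm_eq_abs, id, abs_of_nonneg hy] at h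
  have := mul_le_mul_of_nonneg_left ((le_abs_self _).trans h) hB.le
  rwa [← mul_assoc, mul_inv_cancel₀ hB.ne', one_mul] at this

theorem NSUM_card (w y : ℝ) {Y : ℝ} (hY : 0 ≤ Y) : ((SF w y Y).card : ℝ) ≤ Y := by
  have : (SF w y Y).card ≤ ⌊Y⌋₊ := (card_filter_le _ _).trans (by simp)
  exact (Nat.cast_le.2 this).trans (Nat.floor_le hY)

theorem NSUM_sm (hSUMF : S_SUMF) (ρ : Pr) (hy : 0 ≤ ρ.y) (hw : 12 ≤ ρ.w)
    (h1 : ∀ p ∈ ρ.Ps, rho ρ.A p = 0 ∨ rho ρ.A p = 2)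
    (h2 : ∑ p ∈ ρ.Ps, (1 : ℝ) / p ^ 2 ≤ 1 / ρ.w) :
    ∑ m ∈ ρ.SM, de ρ.A m * exp (12 * ρ.si m) ≤ exp 4 * exp ρ.La := by
  have hw' : (12 : ℝ) ≤ ρ.w := by exact_mod_cast hw
  have e : ∀ m ∈ ρ.SM, de ρ.A m * exp (12 * ρ.si m) =
      ∏ p ∈ m.primeFactors, (rho ρ.A p : ℝ) / p * exp (12 * (1 / p)) := by
    intro m hm
    obtain ⟨-, a, b⟩ := (mem_SF (pow_nonneg hy _)).1 hm
    have : ρ.pf m = m.primeFactors := by
      ext p
      rw [mem_pf, Int.natCast_dvd_natCast]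
      exact ⟨fun h => Nat.mem_primeFactors.2 ⟨prime_of_PP h.1, h.2, a.ne_zero⟩,
        fun h => ⟨b h, Nat.dvd_of_mem_primeFactors h⟩⟩
    rw [Pr.si, this, de, mul_sum, exp_sum, prod_mul_distrib]
  rw [sum_congr rfl e, ← exp_add]
  refine (hSUMF _ _ _ (fun p => (rho ρ.A p : ℝ) / p * exp (12 * (1 / p)))
    fun p => by positivity).trans (exp_le_exp.2 ?_)
  have b : ∀ p ∈ ρ.Ps, (rho ρ.A p : ℝ) / p * exp (12 * (1 / p)) ≤
      48 * (1 / (p : ℝ) ^ 2) + (rho ρ.A p : ℝ) / p := by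
    intro p hp
    have p1 : (12 : ℝ) < p := hw'.trans_lt (lt_of_PP hp)
    have p0 : (0 : ℝ) < p := by linarith
    have x0 : (0 : ℝ) ≤ 12 * (1 / p) := by positivity
    have x1 : (12 : ℝ) * (1 / p) ≤ 1 := by
      rw [mul_one_div, div_le_one p0]; exact p1.le
    have x2 := Real.abs_exp_sub_one_le (x := 12 * (1 / p)) (by rwa [abs_of_nonneg x0])
    rw [abs_of_nonneg x0] at x2
    have x3 := (abs_le.1 x2).2
    rcases h1 p hp with h | h <;> rw [h]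
    · simp
    · have x4 : (0 : ℝ) < 1 / p := by positivity
      have e1 : ((2 : ℕ) : ℝ) / p = 2 * (1 / p) := by push_cast; ring
      have e2 : 1 / (p : ℝ) ^ 2 = 1 / p * (1 / p) := by ring
      rw [e1, e2]
      nlinarith
  refine (sum_le_sum b).trans ?_
  rw [sum_add_distrib, ← mul_sum]
  have : (1 : ℝ) / ρ.w ≤ 1 / 12 := one_div_le_one_div_of_le (by norm_num) hw'
  exact add_le_add (by linarith) le_rfl

theorem NSUM_J {y : ℝ} (hy : 2 ≤ y) {k : ℕ} (hk : 1 ≤ k) : ∃ J : ℕ, y ^ (2 * k) < 2 ^ J ∧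
    (2 : ℝ) ^ J ≤ y ^ (3 * k) ∧ (J : ℝ) ≤ 6 * k * log y := by
  have h1 : (1 : ℝ) ≤ y ^ (2 * k) := one_le_pow₀ (by linarith)
  have h2 : ⌊y ^ (2 * k)⌋₊ ≠ 0 := (Nat.floor_pos.2 h1).ne'
  have h3 : (2 : ℝ) ^ (Nat.log 2 ⌊y ^ (2 * k)⌋₊ + 1) ≤ y ^ (3 * k) := by
    have a : ((2 ^ Nat.log 2 ⌊y ^ (2 * k)⌋₊ : ℕ) : ℝ) ≤ y ^ (2 * k) :=
      (Nat.cast_le.2 (Nat.pow_log_le_self 2 h2)).trans (Nat.floor_le (by linarith))
    push_cast at a
    have b : 2 ≤ y ^ k := hy.trans (le_self_pow₀ (by linarith) (by omega))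
    rw [pow_succ, show 3 * k = 2 * k + k by ring, pow_add]
    exact mul_le_mul a b (by norm_num) (by linarith)
  refine ⟨_, ?_, h3, ?_⟩
  · refine (Nat.lt_floor_add_one _).trans_le ?_
    have := Nat.succ_le_of_lt (Nat.lt_pow_succ_log_self (b := 2) (by norm_num) ⌊y ^ (2 * k)⌋₊)
    exact_mod_cast this
  · have a := Real.log_le_log (by positivity) h3
    rw [Real.log_pow, Real.log_pow] at a
    have b := Real.log_two_gt_d9
    have c : (0 : ℝ) ≤ ((Nat.log 2 ⌊y ^ (2 * k)⌋₊ + 1 : ℕ) : ℝ) := Nat.cast_nonneg _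
    generalize ((Nat.log 2 ⌊y ^ (2 * k)⌋₊ + 1 : ℕ) : ℝ) = t at *
    push_cast at a
    nlinarith

theorem p_NSUM (hSUMF : S_SUMF) (hMER : S_MER) (hLAM : S_LAM) :
    S_NSUM := by
  refine (Unif.ev hLAM).imp 3 fun z hz C hC => ?_
  obtain ⟨-, -, s3, s4, -, s6⟩ := hz.sizes le_rfl
  obtain ⟨M, -, hM⟩ := hMER z.A hz.1 hz.2.1
  have hw : (12 : ℝ) ≤ z.w := by exact_mod_cast s6
  have hK : (3 : ℝ) ≤ z.K' := by exact_mod_cast s4
  have hl : 0 ≤ log (z.w : ℝ) := log_nonneg (by linarith)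
  have a1 : 0 < exp (M + log z.U) := exp_pos _
  have a2 : 1 ≤ exp (4 : ℝ) := one_le_exp (by norm_num)
  have a3 : 0 ≤ 6 * z.K' * (C * log z.w) := by positivity
  refine ⟨exp (M + log z.U) + exp 4 + 6 * z.K' * (C * log z.w), by linarith, ?_⟩
  filter_upwards [eventually_ge_atTop 2, NSUM_ev 3 (B := C ^ 3) (by positivity),
    NSUM_ev 1 (B := 6 * z.K' * ((Red z.A).card + 1)) (by positivity)] with y hy e1 e2
  rintro ⟨-, l2, l3, l4, -, l6, -⟩
  have y0 : 0 < y := by linarith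
  have y1 : 1 ≤ y := by linarith
  have ly : 0 < log y := log_pos (by linarith)
  have hE := exp_pos (Pr.La ⟨z, y⟩)
  refine ⟨?_, ?_, ?_, ?_⟩
  · have U0 : z.U ≠ 0 := by simp [St.U]
    have b := (abs_le.1 (hM y (y ^ z.U) hy (le_self_pow₀ y1 U0)).1).2
    rw [Real.log_pow, mul_div_cancel_right₀ _ ly.ne'] at b
    refine (hSUMF y (y ^ z.U) (y ^ z.U) (fun p => (rho z.A p : ℝ) / p)
      fun p => by positivity).trans ((exp_le_exp.2 (show _ ≤ M + log z.U by linarith)).trans ?_)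
    linarith
  · refine (NSUM_sm hSUMF ⟨z, y⟩ y0.le s6 l4 l6).trans (mul_le_mul_of_nonneg_right ?_ hE.le)
    linarith
  · refine (mul_le_mul (NSUM_card _ _ (pow_nonneg y0.le _)) (NSUM_card _ _ (pow_nonneg y0.le _))
      (Nat.cast_nonneg _) (pow_nonneg y0.le _)).trans ?_
    rw [← pow_add]
    exact pow_le_pow_right₀ y1 (by simp only; omega)
  · obtain ⟨J, j1, j2, j3⟩ := NSUM_J hy (k := z.K') (by omega)
    refine ⟨J, j1, j2, ?_, ?_, ?_⟩
    · have b := mul_le_mul_of_nonneg_left l3 (show (0 : ℝ) ≤ 6 * z.K' by positivity)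
      refine j3.trans (b.trans ?_)
      rw [← mul_assoc]
      exact mul_le_mul_of_nonneg_right (by linarith) hE.le
    · refine (mul_le_mul j3 (le_add_of_nonneg_right zero_le_one) (Nat.cast_nonneg _)
        (by positivity)).trans (le_trans (le_of_eq ?_) e2)
      ring
    · have b := pow_le_pow_left₀ hE.le l2 3
      rw [mul_pow, ← exp_nat_mul] at b
      rw [neg_mul, exp_neg, one_div]
      exact inv_anti₀ (exp_pos _) (by exact_mod_cast b.trans e1)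

end Pool.Agent.P.MP_8be758_nt.Pd
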