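import Pool.Agent.P.MP_8be758_nt.Pd.IfG

/-! Step PAIR. -/

namespace Pool.Agent.P.MP_8be758_nt.Pd

open Finset Real Filter
open Pool.Agent.P.MP_8be758_nt.Par (det)
open Pool.Agent.P.MP_8be758_nt.Avg (rho)

theorem PAIR_prod_le (S : Finset ℕ) (N : ℕ) (hN : 0 < N) (h : ∀ p ∈ S, p.Prime ∧ p ∣ N) :
    ∏ p ∈ S, (p : ℝ) ≤ N := by
  have := Nat.le_of_dvd hN
    (Finset.prod_primes_dvd N (fun p hp => (h p hp).1.prime) (fun p hp => (h p hp).2))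
  rw [← Nat.cast_prod]
  exact Nat.cast_le.2 this

theorem PAIR_si (ρ : Pr) (m n : ℤ) : ρ.si (m * n) ≤ ρ.si m + ρ.si n := by
  unfold Pr.si Pr.pf
  rw [sum_filter, sum_filter, sum_filter, ← sum_add_distrib]
  refine sum_le_sum fun p hp => ?_
  have hp' := Nat.prime_iff_prime_int.1 (prime_of_PP hp)
  have h0 : (0 : ℝ) ≤ 1 / p := by positivity
  by_cases h1 : (p : ℤ) ∣ m <;> by_cases h2 : (p : ℤ) ∣ n <;>
    simp only [hp'.dvd_mul, h1, h2, or_true, or_false, if_true, if_false] <;> linarith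

theorem PAIR_hh (ρ : Pr) (hy : 0 ≤ ρ.y) (k : ℤ) (hk : 0 < k) (hs : Squarefree k.natAbs)
    (hw : ∀ p : ℕ, p.Prime → (p : ℤ) ∣ k → ρ.w < p) :
    ρ.hh (1 / 6) k = (∏ p ∈ ρ.Ps, ρ.sm k p) * ∏ p ∈ ρ.lp k, (rho ρ.A p : ℝ) / p := by
  have e1 : ρ.pf k = k.natAbs.primeFactors.filter fun p : ℕ => ¬ρ.y < (p : ℝ) := by
    ext p
    simp only [mem_pf, Pr.Ps, mem_PP hy, mem_filter, Nat.mem_primeFactors, not_lt,
      ← Int.natCast_dvd, ne_eq, Int.natAbs_eq_zero]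
    constructor
    · rintro ⟨⟨a, -, b⟩, c⟩
      exact ⟨⟨a, c, hk.ne'⟩, b⟩
    · rintro ⟨⟨a, c, -⟩, b⟩
      exact ⟨⟨a, by exact_mod_cast hw p a c, b⟩, c⟩
  have e2 : ∏ p ∈ ρ.Ps, ρ.sm k p = (1 / 6) ^ ρ.om k * ∏ p ∈ ρ.pf k, (rho ρ.A p : ℝ) / p := by
    unfold Pr.sm Pr.om
    rw [← prod_const, ← prod_mul_distrib, Pr.pf, prod_filter]
    refine prod_congr rfl fun p _ => ?_
    split_ifs
    · ring
    · rfl
  have e3 : (k : ℝ) = ∏ p ∈ k.natAbs.primeFactors, (p : ℝ) := by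
    rw [← Nat.cast_prod, Nat.prod_primeFactors_of_squarefree hs, Nat.cast_natAbs, abs_of_pos hk]
  rw [e2, mul_assoc, e1, Pr.lp, mul_comm (∏ p ∈ filter _ _, _), prod_filter_mul_prod_filter_not,
    prod_div_distrib, ← e3, Pr.hh, rr, mul_div_assoc]
  push_cast
  rfl

theorem PAIR_G (hL1 : S_L1) (hL2 : S_L2) (A p : ℕ) (hA : 1 ≤ A) (hp : p.Prime) (h4 : 4 * A < p)
    (u u' : V2) (P P' : Prop) [Decidable P] [Decidable P'] (ho : P ∨ P')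
    (hu : P → ¬(p : ℤ) ∣ u.2) (hu' : P' → ¬(p : ℤ) ∣ u'.2) (d : ℕ)
    (hd : P → P' → (p : ℤ) ∣ det u u' → p ∣ d) :
    S4.av (p ^ 2) (fun g => (if P then ind ((p : ℤ) ∣ ev (act (Q0 A) g) u) else 1) *
      (if P' then ind ((p : ℤ) ∣ ev (act (Q0 A) g) u') else 1)) ≤
    (if P then (rho A p : ℝ) / p else 1) * (if P' then (rho A p : ℝ) / p else 1) *
      (if p ∣ d then (p : ℝ) else 1) := by
  have p1 : (1 : ℝ) ≤ p := by exact_mod_cast hp.one_le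
  have r0 : (0 : ℝ) ≤ rho A p := Nat.cast_nonneg _
  have r1 : (rho A p : ℝ) ≤ (rho A p : ℝ) * rho A p := by exact_mod_cast Nat.le_mul_self _
  have d1 : (1 : ℝ) ≤ if p ∣ d then (p : ℝ) else 1 := by split_ifs <;> linarith
  have key : ∀ v : V2, ¬(p : ℤ) ∣ v.2 →
      S4.av (p ^ 2) (fun g => ind ((p : ℤ) ∣ ev (act (Q0 A) g) v)) ≤ (rho A p : ℝ) / p := by
    intro v hv
    rw [(hL1 A p (Q0 A) v hA (isF_Q0 A) hp h4 fun h => hv h.2).2.2]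
    gcongr
    linarith
  have q0 : (0 : ℝ) ≤ (rho A p : ℝ) / p := by positivity
  by_cases h1 : P <;> by_cases h2 : P' <;> simp only [h1, h2, if_true, if_false, mul_one, one_mul]
  · by_cases h3 : (p : ℤ) ∣ det u u'
    · rw [if_pos (hd h1 h2 h3)]
      calc _ ≤ S4.av (p ^ 2) (fun g => ind ((p : ℤ) ∣ ev (act (Q0 A) g) u)) :=
            S4.av_mono _ fun g _ => mul_le_of_le_one_right (ind_nonneg _) (ind_le_one _)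
        _ ≤ (rho A p : ℝ) / p := key u (hu h1)
        _ ≤ (rho A p : ℝ) * rho A p / p := by gcongr
        _ = _ := by field_simp
    · simp only [← ind_and]
      calc _ ≤ (rho A p : ℝ) / p ^ 2 := hL2 A p (Q0 A) u u' hA (isF_Q0 A) hp h4 h3
        _ ≤ (rho A p : ℝ) * rho A p / p ^ 2 := by gcongr
        _ = (rho A p : ℝ) / p * ((rho A p : ℝ) / p) * 1 := by field_simp
        _ ≤ _ := by gcongr
  · exact (key u (hu h1)).trans (le_mul_of_one_le_right q0 d1)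
  · exact (key u' (hu' h2)).trans (le_mul_of_one_le_right q0 d1)
  · tauto

theorem PAIR_num {S B N M E x v F : ℝ} (hB : 0 ≤ B) (hM : 0 ≤ M) (hE : 0 ≤ E) (hN : 0 ≤ N)
    (hx : 0 ≤ x) (hx' : x ≤ 1 / 2) (hv : 0 ≤ v) (hv' : 410 * v ≤ 1)
    (h1 : S ≤ (1 + x) * (B * M * (1 + 820 * v)) + E) (h2 : B - N ≤ B * x + E)
    (h3 : (9 * M + 1) * E ≤ F) : S ≤ (1 + 2460 * (x + v)) * N * M + F := by
  have a1 : B ≤ (1 + 2 * x) * (N + E) := by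
    nlinarith [mul_nonneg hB (mul_nonneg hx (sub_nonneg.2 hx')),
      mul_le_mul_of_nonneg_left h2 (show 0 ≤ 1 + 2 * x by linarith)]
  set t := (1 + x) * (1 + 2 * x) * (1 + 820 * v) with ht
  have a2 : (1 + x) * (1 + 2 * x) ≤ 1 + 4 * x := by nlinarith
  have a3 : t ≤ (1 + 4 * x) * (1 + 820 * v) := by rw [ht]; gcongr
  have a4 : t ≤ 1 + 2460 * (x + v) := by nlinarith [mul_nonneg hv (sub_nonneg.2 hx')]
  have a5 : t ≤ 9 := by nlinarith [mul_nonneg hv (sub_nonneg.2 hx')]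
  have a6 : (1 + x) * (B * M * (1 + 820 * v)) ≤ t * (N * M) + t * (M * E) := by
    calc _ ≤ (1 + x) * ((1 + 2 * x) * (N + E) * M * (1 + 820 * v)) := by gcongr
      _ = _ := by rw [ht]; ring
  have a7 := mul_le_mul_of_nonneg_right a4 (mul_nonneg hN hM)
  have a8 := mul_le_mul_of_nonneg_right a5 (mul_nonneg hM hE)
  nlinarith

theorem PAIR_ite (S T : Finset ℕ) (h : S ⊆ T) (f : ℕ → ℝ) :
    ∏ p ∈ T, (if p ∈ S then f p else 1) = ∏ p ∈ S, f p := by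
  rw [prod_ite_mem, inter_eq_right.2 h]

theorem PAIR_err (ρ : Pr) (N : ℤ) (hw : 200000 ≤ ρ.w) (h1 : ρ.si N ≤ 7 / √ρ.w)
    (h2 : ∑ p ∈ ρ.Ps, (1 : ℝ) / p ^ 2 ≤ 1 / ρ.w) :
    410 * (1 / √(ρ.w : ℝ)) ≤ 1 ∧
    ∏ p ∈ ρ.Ps, (1 + if (p : ℤ) ∣ N then 30 / (p : ℝ) else 200 / (p : ℝ) ^ 2) ≤
      1 + 820 * (1 / √(ρ.w : ℝ)) := by
  have w0 : (200000 : ℝ) ≤ ρ.w := by exact_mod_cast hw
  have w1 : (410 : ℝ) ≤ √(ρ.w : ℝ) := Real.le_sqrt_of_sq_le (by linarith)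
  have w2 : 410 * (1 / √(ρ.w : ℝ)) ≤ 1 := by
    rw [mul_one_div, div_le_one (by linarith)]; exact w1
  have w3 : (1 : ℝ) / ρ.w ≤ 1 / √(ρ.w : ℝ) := by
    apply one_div_le_one_div_of_le (by linarith)
    exact Real.sqrt_le_iff.2 ⟨by linarith, by nlinarith⟩
  refine ⟨w2, ?_⟩
  set e : ℕ → ℝ := fun p => if (p : ℤ) ∣ N then 30 / (p : ℝ) else 200 / (p : ℝ) ^ 2 with he
  have e0 : ∀ p, 0 ≤ e p := fun p => by simp only [he]; split_ifs <;> positivity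
  have e1 : ∑ p ∈ ρ.Ps, e p ≤ 30 * ρ.si N + 200 * ∑ p ∈ ρ.Ps, (1 : ℝ) / p ^ 2 := by
    unfold Pr.si Pr.pf
    rw [sum_filter, mul_sum, mul_sum, ← sum_add_distrib]
    refine sum_le_sum fun p _ => ?_
    have : (0 : ℝ) ≤ 1 / p ^ 2 := by positivity
    simp only [he]
    split_ifs
    · rw [mul_one_div]; linarith
    · rw [mul_one_div]; linarith
  have e2 : ∑ p ∈ ρ.Ps, e p ≤ 410 * (1 / √(ρ.w : ℝ)) := by
    rw [div_eq_mul_one_div] at h1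
    linarith
  have e3 : 0 ≤ ∑ p ∈ ρ.Ps, e p := sum_nonneg fun p _ => e0 p
  have e4 := (abs_le.1 (Real.abs_exp_sub_one_le (x := ∑ p ∈ ρ.Ps, e p)
    (by rw [abs_of_nonneg e3]; linarith))).2
  rw [abs_of_nonneg e3] at e4
  calc _ ≤ ∏ p ∈ ρ.Ps, exp (e p) := prod_le_prod (fun p _ => by linarith [e0 p])
        fun p _ => by linarith [Real.add_one_le_exp (e p)]
    _ = exp (∑ p ∈ ρ.Ps, e p) := (Real.exp_sum _ _).symm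
    _ ≤ _ := by linarith

theorem PAIR_En (ρ : Pr) (D : ℕ) (σ τ : Sd) (C : ℝ) (hy : 1 ≤ ρ.y) (hC : 1 ≤ C)
    (h1 : |∑ p ∈ ρ.Ps, (1 : ℝ) / p - ρ.La| ≤ C) (h2 : exp ρ.La ≤ C * log ρ.y) :
    0 ≤ ρ.En D σ τ ∧ ρ.En D σ τ ≤ (exp C * C) ^ 8 * ρ.y ^ 8 := by
  have n0 : ∀ p : ℕ, 0 ≤ 8 / (p : ℝ) * ind ((p : ℤ) ∣ σ.Xi τ) := fun p =>
    mul_nonneg (by positivity) (ind_nonneg _)
  refine ⟨prod_nonneg fun p _ => by linarith [n0 p], ?_⟩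
  have a1 : ρ.En D σ τ ≤ ∏ p ∈ ρ.Ps, exp (8 * (1 / (p : ℝ))) := by
    rw [Pr.En, prod_filter]
    refine prod_le_prod (fun p _ => ?_) fun p _ => ?_
    · split_ifs <;> linarith [n0 p]
    · have b1 := Real.add_one_le_exp (8 * (1 / (p : ℝ)))
      have b2 : 8 / (p : ℝ) * ind ((p : ℤ) ∣ σ.Xi τ) ≤ 8 * (1 / (p : ℝ)) := by
        rw [mul_one_div]
        exact mul_le_of_le_one_right (by positivity) (ind_le_one _)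
      split_ifs <;> linarith [n0 p]
  have a2 : log ρ.y ≤ ρ.y := (Real.log_le_sub_one_of_pos (by linarith)).trans (by linarith)
  rw [← Real.exp_sum, ← mul_sum] at a1
  calc _ ≤ _ := a1
    _ = exp (∑ p ∈ ρ.Ps, (1 : ℝ) / p) ^ 8 := by rw [← Real.exp_nat_mul]; norm_num
    _ ≤ exp (C + ρ.La) ^ 8 := by gcongr; linarith [(abs_le.1 h1).2]
    _ = (exp C * exp ρ.La) ^ 8 := by rw [Real.exp_add]
    _ ≤ (exp C * (C * ρ.y)) ^ 8 := by gcongr; exact h2.trans (by gcongr)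
    _ = _ := by ring

theorem PAIR_lp (ρ : Pr) (hy : 1 ≤ ρ.y) {q : ℕ × ℕ × ℕ} {D1 D2 : ℕ} (hD : ρ.DA D1 D2) {σ : Sd}
    (hσ : σ ∈ ρ.SD q D1 D2) (n1 : ¬(σ.q1 : ℤ) ∣ σ.af) (n3 : ¬(σ.q3 : ℤ) ∣ σ.af)
    (n4 : ¬(σ.q4 : ℤ) ∣ σ.af) (h3 : q.2.1.Prime) {p : ℕ} (hp : p ∈ ρ.lp σ.af) :
    p.Prime ∧ ρ.y < p ∧ p ≠ q.1 ∧ p ≠ q.2.1 ∧ p ≠ q.2.2 ∧ ρ.w < p ∧ (p : ℤ) ∣ σ.af ∧
      ¬(p : ℤ) ∣ σ.ut.2 := by
  obtain ⟨rfl, hs⟩ := (mem_SD (DA_pos hD).1 (DA_pos hD).2).1 hσ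
  obtain ⟨h1, h2⟩ := mem_filter.1 hp
  obtain ⟨a, b, -⟩ := Nat.mem_primeFactors.1 h1
  have b' : (p : ℤ) ∣ σ.af := Int.natCast_dvd.2 b
  have m3 : p ≠ σ.q3 := fun e => n3 (e ▸ b')
  refine ⟨a, h2, fun e : p = σ.q1 => n1 (e ▸ b'), m3, fun e : p = σ.q4 => n4 (e ▸ b'),
    (hs.2.2.2.2.2.2.2.2.1 p a b').1, b', fun h => ?_⟩
  have c : p ∣ σ.e1 * σ.a1 * σ.q3 := by
    have : p ∣ σ.E1 * σ.a1 := Int.natCast_dvd_natCast.1 h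
    rwa [Sd.E1, mul_right_comm] at this
  rcases (Nat.Prime.dvd_mul a).1 c with c | c
  · have := hD.2.1 (Nat.mem_primeFactors.2 ⟨a, (c.trans hs.1).mul_right D2, hD.1.ne_zero⟩)
    linarith [((mem_PP (by linarith)).1 this).2.2]
  · exact m3 ((Nat.prime_dvd_prime_iff_eq a h3).1 c)

theorem PAIR_per (A p : ℕ) (u : V2) (P : Prop) [Decidable P] :
    S4.Per (p ^ 2) (fun g => if P then ind ((p : ℤ) ∣ ev (act (Q0 A) g) u) else 1) ∧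
    ∀ g, 0 ≤ (if P then ind ((p : ℤ) ∣ ev (act (Q0 A) g) u) else 1) ∧
      (if P then ind ((p : ℤ) ∣ ev (act (Q0 A) g) u) else 1) ≤ 1 := by
  refine ⟨fun g h e => ?_, fun g => ?_⟩
  · simp only [dvd_iff_of_modEq (ev_act_modEq (Q0 A) e u)
      (show (p : ℤ) ∣ (p ^ 2 : ℕ) by push_cast; exact dvd_pow_self _ two_ne_zero)]
  · split_ifs
    · exact ⟨ind_nonneg _, ind_le_one _⟩
    · norm_num

theorem PAIR_al (D1 D2 p : ℕ) (φ : Fm) : 0 ≤ Pr.al D1 D2 p φ := by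
  unfold Pr.al
  split_ifs <;> exact ind_nonneg _

theorem p_PAIR (hMCA : S_MCA) (hATC : S_ATC) (hLOCID : S_LOCID) (hPAIRP : S_PAIRP) (hSVP : S_SVP) (hSDS : S_SDS) (hL1 : S_L1) (hL2 : S_L2) (hLAM : S_LAM) :
    S_PAIR := by
  obtain ⟨c1, h1⟩ := hMCA
  obtain ⟨c2, h2⟩ := hATC
  obtain ⟨c3, h3⟩ := hLOCID
  obtain ⟨c4, h4⟩ := hPAIRP
  obtain ⟨c5, h5⟩ := hSVP
  obtain ⟨c6, h6⟩ := hSDS
  obtain ⟨c7, h7⟩ := hLAM
  refine ⟨c1 + c2 + c3 + c4 + c5 + c6 + c7 + 200000, fun A C1 => ⟨2460, by norm_num, ?_⟩⟩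
  intro z hA hC hz
  replace h1 := (h1 A C1).choose_spec.2
  replace h2 := (h2 A C1).choose_spec.2
  replace h3 := (h3 A C1).choose_spec.2
  replace h4 := (h4 A C1).choose_spec.2
  replace h5 := (h5 A C1).choose_spec.2
  replace h6 := (h6 A C1).choose_spec.2
  replace h7 := h7 A C1
  obtain ⟨C, hC1, h7⟩ := h7
  filter_upwards [h1 z hA hC (hz.mono (by omega)), h2 z hA hC (hz.mono (by omega)),
    h3 z hA hC (hz.mono (by omega)), h4 z hA hC (hz.mono (by omega)),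
    h5 z hA hC (hz.mono (by omega)), h6 z hA hC (hz.mono (by omega)),
    h7 z hA hC (hz.mono (by omega)), eventually_ge_atTop (10 * (exp C * C) ^ 8)]
    with y mca atc loc prp svp sds lam hy
  obtain ⟨-, bA, -, bw, cw, cK, -, k3, k4, k5, k6, k7, -⟩ := hz.mono (c := 200000) (by omega)
  obtain ⟨ρ, hρ⟩ : ∃ ρ : Pr, ρ = ⟨z, y⟩ := ⟨_, rfl⟩
  obtain rfl : z = ρ.toSt := (congrArg Pr.toSt hρ).symm
  obtain rfl : y = ρ.y := (congrArg Pr.y hρ).symm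
  rw [← hρ] at mca atc loc prp svp sds ⊢
  obtain ⟨l1, l2, -, -, -, l6, -⟩ := lam
  rw [← hρ] at l1 l2 l6
  clear h1 h2 h3 h4 h5 h6 h7
  have kU : ρ.U + 9 ≤ 2 * ρ.K' ∧ 2 * ρ.K + 2 * ρ.U ≤ 10 * ρ.K' ∧ 1 ≤ ρ.K' := by
    unfold St.U
    omega
  have c8 : 1 ≤ (exp C * C) ^ 8 :=
    one_le_pow₀ (one_le_mul_of_one_le_of_one_le (Real.one_le_exp (by linarith)) hC1)
  have y1 : 1 ≤ ρ.y := by linarith
  intro q D1 D2 c0 hAD σ hσ τ hτ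
  obtain ⟨hq, hD, -⟩ := id hAD
  obtain ⟨-, -, -, sds, -⟩ := sds q D1 D2 hq hD
  obtain ⟨-, s0, -, -, s1, s3, s4, sU, -⟩ := sds σ hσ
  obtain ⟨-, t0, -, -, t1, t3, t4, tU, -⟩ := sds τ hτ
  have lσ := fun p => PAIR_lp ρ y1 hD hσ s1 s3 s4 (prime_of_PP hq.2.1) (p := p)
  have lτ := fun p => PAIR_lp ρ y1 hD hτ t1 t3 t4 (prime_of_PP hq.2.1) (p := p)
  obtain ⟨-, -, -, -, -, -, -, sc, sq, sw, -, -, -, ss⟩ :=
    (mem_SD (DA_pos hD).1 (DA_pos hD).2).1 hσ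
  obtain ⟨-, -, -, -, -, -, -, tc, tq, tw, -, -, -, ts⟩ :=
    (mem_SD (DA_pos hD).1 (DA_pos hD).2).1 hτ
  have hP : ∀ p ∈ ρ.Ps, p.Prime ∧ ρ.w < p ∧ (p : ℝ) ≤ ρ.y := fun p hp => by
    obtain ⟨a, b, c⟩ := (mem_PP (by linarith)).1 hp
    exact ⟨a, by exact_mod_cast b, c⟩
  have hr : ∀ p : ℕ, p.Prime → ρ.w < p → (rho ρ.A p : ℝ) ≤ 2 ∧ (200000 : ℝ) ≤ p := fun p a b =>
    ⟨by exact_mod_cast (hL1 ρ.A p (Q0 ρ.A) (0, 1) (by omega) (isF_Q0 _) a (by omega) fun h =>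
      a.one_lt.ne' (Nat.dvd_one.1 (Int.natCast_dvd_natCast.1 h.2))).1, by exact_mod_cast (by omega)⟩
  have hq1 : ∀ p : ℕ, p.Prime → ρ.w < p → 0 ≤ (rho ρ.A p : ℝ) / p ∧ (rho ρ.A p : ℝ) / p ≤ 1 / 2 :=
    fun p a b => ⟨by positivity, by
      obtain ⟨u, v⟩ := hr p a b
      rw [div_le_iff₀ (by linarith)]; linarith⟩
  have hga : ∀ p ∈ ρ.Ps, 0 ≤ ρ.ga p ∧ ρ.ga p ≤ 1 := fun p hp => by
    obtain ⟨u, v⟩ := hq1 p (hP p hp).1 (hP p hp).2.1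
    rw [Pr.ga, mul_div_assoc]
    constructor <;> linarith
  have hsm : ∀ k : ℤ, ∀ p ∈ ρ.Ps, 0 ≤ ρ.sm k p ∧ ρ.sm k p ≤ 1 := fun k p hp => by
    obtain ⟨u, v⟩ := hq1 p (hP p hp).1 (hP p hp).2.1
    rw [Pr.sm, mul_comm 6, ← div_div]
    split_ifs <;> constructor <;> linarith
  set Lg := ρ.lp σ.af ∪ ρ.lp τ.af with hLg
  set G : ℕ → G4 → ℝ := fun p g =>
    (if p ∈ ρ.lp σ.af then ind ((p : ℤ) ∣ ev (ρ.fm g) σ.ut) else 1) *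
      (if p ∈ ρ.lp τ.af then ind ((p : ℤ) ∣ ev (ρ.fm g) τ.ut) else 1) with hG
  set F : ℕ → G4 → ℝ := fun p g =>
    Pr.fv (1 / 6) (D1 * D2) σ p (ρ.fm g) * Pr.fv (1 / 6) (D1 * D2) τ p (ρ.fm g) with hF
  have hL : ∀ p ∈ Lg, p.Prime ∧ ρ.y < p ∧ p ≠ q.1 ∧ p ≠ q.2.1 ∧ p ≠ q.2.2 ∧ ρ.w < p ∧
      (p : ℤ) ∣ σ.af * τ.af := fun p hp => by
    rcases mem_union.1 hp with h | h
    · obtain ⟨a, b, c, d, e, f, g, -⟩ := lσ p h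
      exact ⟨a, b, c, d, e, f, g.mul_right _⟩
    · obtain ⟨a, b, c, d, e, f, g, -⟩ := lτ p h
      exact ⟨a, b, c, d, e, f, g.mul_left _⟩
  have dj : Disjoint ρ.Ps Lg := disjoint_left.2 fun p a b => by
    linarith [(hP p a).2.2, (hL p b).2.1]
  have G0 : ∀ p g, 0 ≤ G p g ∧ G p g ≤ 1 := fun p g =>
    ⟨mul_nonneg ((PAIR_per ρ.A p σ.ut _).2 g).1 ((PAIR_per ρ.A p τ.ut _).2 g).1,
      mul_le_one₀ ((PAIR_per ρ.A p σ.ut _).2 g).2 ((PAIR_per ρ.A p τ.ut _).2 g).1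
        ((PAIR_per ρ.A p τ.ut _).2 g).2⟩
  have sv := fun p hp => svp q D1 D2 (1 / 6) (1 / 6) hq hD (by norm_num) (by norm_num)
    (by norm_num) (by norm_num) σ hσ τ hτ p hp
  have tv := fun p hp => svp q D1 D2 (1 / 6) (1 / 6) hq hD (by norm_num) (by norm_num)
    (by norm_num) (by norm_num) τ hτ τ hτ p hp
  have F0 : ∀ p ∈ ρ.Ps, ∀ g, 0 ≤ F p g ∧ F p g ≤ 1 := fun p hp g =>
    ⟨mul_nonneg ((sv p hp).2.1 _).1 ((tv p hp).2.1 _).1,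
      mul_le_one₀ ((sv p hp).2.1 _).2 ((tv p hp).2.1 _).1 ((tv p hp).2.1 _).2⟩
  have sz : (∏ p ∈ ρ.pf ((D1 * D2 : ℕ) * σ.af * τ.af), (p : ℝ)) * ∏ p ∈ Lg, (p : ℝ) ≤
      ρ.y ^ (10 * ρ.K') := by
    have n0 : 0 < ((D1 * D2 : ℕ) : ℤ) * σ.af * τ.af := by
      have := (DA_pos hD).1
      have := (DA_pos hD).2
      positivity
    rw [← prod_union (dj.mono_left fun p hp => (mem_pf.1 hp).1)]
    refine (PAIR_prod_le _ _ (Int.natAbs_pos.2 n0.ne') fun p hp => ?_).trans ?_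
    · rcases mem_union.1 hp with h | h
      · exact ⟨(hP p (mem_pf.1 h).1).1, Int.natCast_dvd.1 (mem_pf.1 h).2⟩
      · exact ⟨(hL p h).1, Int.natCast_dvd.1 (by
          rw [mul_assoc]; exact (hL p h).2.2.2.2.2.2.mul_left _)⟩
    · rw [Nat.cast_natAbs, abs_of_pos n0]
      push_cast
      have u1 : (0 : ℝ) ≤ σ.af := by exact_mod_cast s0.le
      have u2 : (0 : ℝ) ≤ τ.af := by exact_mod_cast t0.le
      calc _ ≤ ρ.y ^ ρ.K * ρ.y ^ ρ.K * ρ.y ^ ρ.U * ρ.y ^ ρ.U := by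
            gcongr
            exacts [hD.2.2.1, hD.2.2.2.1]
        _ = ρ.y ^ (2 * ρ.K + 2 * ρ.U) := by ring
        _ ≤ _ := pow_le_pow_right₀ y1 kU.2.1
  have m1 := (abs_le.1 (mca q D1 D2 c0 _ Lg F G hAD (filter_subset _ _)
    (fun p hp => ⟨(hL p hp).1, (hL p hp).2.1, (hL p hp).2.2.1, (hL p hp).2.2.2.1,
      (hL p hp).2.2.2.2.1, fun g h e => congrArg₂ (· * ·) ((PAIR_per ρ.A p σ.ut _).1 g h e)
        ((PAIR_per ρ.A p τ.ut _).1 g h e), G0 p⟩) sz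
    fun p hp => ⟨fun g h e => congrArg₂ (· * ·) ((sv p hp).1 g h e) ((tv p hp).1 g h e), F0 p hp,
      fun hn => (sv p hp).2.2.2 fun h => hn (mem_pf.2 ⟨hp, h⟩)⟩)).2
  obtain ⟨B0, atc⟩ := atc q D1 D2 c0 hAD
  have Z0 : 0 ≤ ρ.Zb q c0 := by
    have := fun (m : ℕ) (P : G4 → Prop) => S4.av_nonneg m fun g => ind_nonneg (P g)
    exact mul_nonneg (mul_nonneg (Nat.cast_nonneg _) (this _ _))
      (mul_nonneg (mul_nonneg (this _ _) (this _ _)) (this _ _))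
  have sN : ρ.si ((D1 * D2 : ℕ) * (σ.s * σ.t * σ.af) * (τ.s * τ.t * τ.af)) ≤ 7 / √ρ.w := by
    have u1 := PAIR_si ρ ((D1 * D2 : ℕ) * (σ.s * σ.t * σ.af)) (τ.s * τ.t * τ.af)
    have u2 := PAIR_si ρ (D1 * D2 : ℕ) (σ.s * σ.t * σ.af)
    have u3 := hD.2.2.2.2.2.2
    have : (7 : ℝ) / √ρ.w = 1 / √ρ.w + 3 / √ρ.w + 3 / √ρ.w := by ring
    linarith
  obtain ⟨v1, v2⟩ := PAIR_err ρ _ cw sN l6
  obtain ⟨En0, En1⟩ := PAIR_En ρ (D1 * D2) σ τ C y1 hC1 l1 l2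
  have dl0 : 0 < σ.dl τ := by
    refine Int.gcd_pos_of_ne_zero_left _ ?_
    exact_mod_cast (Int.gcd_pos_of_ne_zero_left _ s0.ne').ne'
  have dl1 : (σ.dl τ : ℝ) ≤ ρ.y ^ ρ.U := by
    refine le_trans ?_ sU
    have : ((σ.dl τ : ℕ) : ℤ) ∣ σ.af := (Int.gcd_dvd_left _ _).trans (Int.gcd_dvd_left _ _)
    exact_mod_cast Int.le_of_dvd s0 this
  set dd : ℕ → ℝ := fun p => if p ∣ σ.dl τ then (p : ℝ) else 1 with hdd
  have dd0 : ∀ p, 0 ≤ dd p := fun p => by simp only [hdd]; split_ifs <;> positivity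
  have dd1 : (∏ p ∈ ρ.Ps, dd p) * ∏ p ∈ Lg, dd p ≤ σ.dl τ := by
    rw [← prod_union dj, ← prod_filter]
    refine PAIR_prod_le _ _ dl0 fun p hp => ⟨?_, (mem_filter.1 hp).2⟩
    rcases mem_union.1 (mem_filter.1 hp).1 with h | h
    exacts [(hP p h).1, (hL p h).1]
  set Rσ := ∏ p ∈ ρ.lp σ.af, (rho ρ.A p : ℝ) / p with hRσ
  set Rτ := ∏ p ∈ ρ.lp τ.af, (rho ρ.A p : ℝ) / p with hRτ
  have bG : ∏ p ∈ Lg, S4.av (p ^ 2) (G p) ≤ Rσ * Rτ * ∏ p ∈ Lg, dd p := by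
    rw [hRσ, hRτ, ← PAIR_ite _ Lg subset_union_left, ← PAIR_ite _ Lg subset_union_right,
      ← prod_mul_distrib, ← prod_mul_distrib]
    refine prod_le_prod (fun p _ => S4.av_nonneg _ fun g => (G0 p g).1) fun p hp => ?_
    refine PAIR_G hL1 hL2 ρ.A p (by omega) (hL p hp).1 (by linarith [(hL p hp).2.2.2.2.2.1])
      σ.ut τ.ut _ _ (mem_union.1 hp) (fun h => (lσ p h).2.2.2.2.2.2.2)
      (fun h => (lτ p h).2.2.2.2.2.2.2) _ fun a b c => Int.natCast_dvd_natCast.1 ?_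
    exact Int.dvd_coe_gcd (Int.dvd_coe_gcd (lσ p a).2.2.2.2.2.2.1 (lτ p b).2.2.2.2.2.2.1) c
  set Sσ := ∏ p ∈ ρ.Ps, ρ.sm σ.af p with hSσ
  set Sτ := ∏ p ∈ ρ.Ps, ρ.sm τ.af p with hSτ
  have eG : ρ.Gm (D1 * D2) = ∏ p ∈ ρ.Ps, if p ∣ D1 * D2 then 1 else ρ.ga p := by
    rw [Pr.Gm, prod_filter]
    exact prod_congr rfl fun p _ => ite_not _ _ _
  have eM : ∏ p ∈ ρ.Ps, (if p ∣ D1 * D2 then 1 else
      ρ.ga p * ρ.sm σ.af p * (ρ.ga p * ρ.sm τ.af p)) =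
      ρ.Gm (D1 * D2) * Sσ * (ρ.Gm (D1 * D2) * Sτ) := by
    rw [eG, hSσ, hSτ, ← prod_mul_distrib, ← prod_mul_distrib, ← prod_mul_distrib]
    refine prod_congr rfl fun p hp => ?_
    split_ifs with h
    · have u : ∀ (n : ℕ) (k : ℤ), (n * k.natAbs).Coprime (D1 * D2) → ρ.sm k p = 1 := fun n k hc =>
        if_neg fun e => (hP p hp).1.one_lt.ne'
          (Nat.eq_one_of_dvd_coprimes hc ((Int.natCast_dvd.1 e).mul_left _) h)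
      rw [u _ _ sc, u _ _ tc]
      norm_num
    · rfl
  have bF : ∏ p ∈ ρ.Ps, S4.av (p ^ 2) (fun g => Pr.al D1 D2 p (ρ.fm g) * F p g) ≤
      (∏ p ∈ ρ.Ps, ρ.aa D1 D2 p) * (ρ.Gm (D1 * D2) * Sσ * (ρ.Gm (D1 * D2) * Sτ)) *
        (∏ p ∈ ρ.Ps, dd p) * ρ.En (D1 * D2) σ τ *
        ∏ p ∈ ρ.Ps, (1 + if (p : ℤ) ∣ (D1 * D2 : ℕ) * (σ.s * σ.t * σ.af) * (τ.s * τ.t * τ.af)
          then 30 / (p : ℝ) else 200 / (p : ℝ) ^ 2) := by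
    rw [← eM, Pr.En, prod_filter, ← prod_mul_distrib, ← prod_mul_distrib, ← prod_mul_distrib,
      ← prod_mul_distrib]
    exact prod_le_prod (fun p hp => S4.av_nonneg _ fun g => mul_nonneg (PAIR_al _ _ _ _)
      (F0 p hp g).1) fun p hp => prp q D1 D2 hq hD σ hσ τ hτ p hp
  have a0 : 0 ≤ ∏ p ∈ ρ.Ps, ρ.aa D1 D2 p :=
    prod_nonneg fun p _ => S4.av_nonneg _ fun g => PAIR_al _ _ _ _
  have g0 : 0 ≤ ρ.Gm (D1 * D2) ∧ ρ.Gm (D1 * D2) ≤ 1 := by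
    have u : ∀ p ∈ ρ.Ps, 0 ≤ (if p ∣ D1 * D2 then 1 else ρ.ga p) ∧
        (if p ∣ D1 * D2 then 1 else ρ.ga p) ≤ 1 := fun p hp => by
      split_ifs
      exacts [by norm_num, hga p hp]
    rw [eG]
    exact ⟨prod_nonneg fun p hp => (u p hp).1, prod_le_one (fun p hp => (u p hp).1)
      fun p hp => (u p hp).2⟩
  have S0 : ∀ k : ℤ, 0 ≤ ∏ p ∈ ρ.Ps, ρ.sm k p ∧ ∏ p ∈ ρ.Ps, ρ.sm k p ≤ 1 := fun k =>
    ⟨prod_nonneg fun p hp => (hsm k p hp).1, prod_le_one (fun p hp => (hsm k p hp).1)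
      fun p hp => (hsm k p hp).2⟩
  have R0 : ∀ T ⊆ Lg, 0 ≤ ∏ p ∈ T, (rho ρ.A p : ℝ) / p ∧ ∏ p ∈ T, (rho ρ.A p : ℝ) / p ≤ 1 :=
    fun T hT => ⟨prod_nonneg fun p _ => by positivity, prod_le_one (fun p _ => by positivity)
      fun p hp => by linarith [(hq1 p (hL p (hT hp)).1 (hL p (hT hp)).2.2.2.2.2.1).2]⟩
  obtain ⟨Sσ0, Sσ1⟩ : 0 ≤ Sσ ∧ Sσ ≤ 1 := S0 _
  obtain ⟨Sτ0, Sτ1⟩ : 0 ≤ Sτ ∧ Sτ ≤ 1 := S0 _
  obtain ⟨Rσ0, Rσ1⟩ : 0 ≤ Rσ ∧ Rσ ≤ 1 := R0 _ subset_union_left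
  obtain ⟨Rτ0, Rτ1⟩ : 0 ≤ Rτ ∧ Rτ ≤ 1 := R0 _ subset_union_right
  obtain ⟨g0, g1⟩ := g0
  set a : ℝ := (1 / 3) ^ ρ.om (D1 * D2 : ℕ) * ind (σ.GW0 ρ.w (ρ.fm c0)) with ha
  set b : ℝ := (1 / 3) ^ ρ.om (D1 * D2 : ℕ) * ind (τ.GW0 ρ.w (ρ.fm c0)) with hb
  have ab : ∀ P : Prop, 0 ≤ (1 / 3 : ℝ) ^ ρ.om (D1 * D2 : ℕ) * ind P ∧
      (1 / 3 : ℝ) ^ ρ.om (D1 * D2 : ℕ) * ind P ≤ 1 := fun P =>
    ⟨mul_nonneg (by positivity) (ind_nonneg _),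
      mul_le_one₀ (pow_le_one₀ (by norm_num) (by norm_num)) (ind_nonneg _) (ind_le_one _)⟩
  obtain ⟨a1, a2⟩ : 0 ≤ a ∧ a ≤ 1 := ab _
  obtain ⟨b1, b2⟩ : 0 ≤ b ∧ b ≤ 1 := ab _
  have eS : ∑ g ∈ ρ.AT q D1 D2 c0, ρ.cv (1 / 6) σ g * ρ.cv (1 / 6) τ g =
      a * b * ∑ g ∈ ρ.AT q D1 D2 c0, (∏ p ∈ Lg, G p g) * ∏ p ∈ ρ.Ps, F p g := by
    rw [mul_sum]
    refine sum_congr rfl fun g hg => ?_
    rw [(loc q D1 D2 c0 _ hAD g hg σ hσ).1, (loc q D1 D2 c0 _ hAD g hg τ hτ).1]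
    simp only [hG, hF, prod_mul_distrib]
    rw [PAIR_ite _ Lg subset_union_left, PAIR_ite _ Lg subset_union_right]
    ring
  have eT : ind (σ.GW0 ρ.w (ρ.fm c0)) * ρ.Mw (D1 * D2) σ *
      (ind (τ.GW0 ρ.w (ρ.fm c0)) * ρ.Mw (D1 * D2) τ) =
      a * b * (ρ.Gm (D1 * D2) * Sσ * (ρ.Gm (D1 * D2) * Sτ) * (Rσ * Rτ)) := by
    rw [Pr.Mw, Pr.Mw, PAIR_hh ρ (by linarith) _ s0 sq fun p u v => (sw p u v).1,
      PAIR_hh ρ (by linarith) _ t0 tq fun p u v => (tw p u v).1, ha, hb]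
    ring
  rw [eS, eT]
  set H := ρ.Gm (D1 * D2) * Sσ * (ρ.Gm (D1 * D2) * Sτ) with hH
  clear_value a b Rσ Rτ Sσ Sτ
  clear mca loc prp svp sds eS eT eM eG S0 R0 sv tv ab
  have H0 : 0 ≤ H := by positivity
  have H1 : H ≤ 1 := mul_le_one₀ (mul_le_one₀ g1 Sσ0 Sσ1) (by positivity) (mul_le_one₀ g1 Sτ0 Sτ1)
  have E0 : 0 ≤ ρ.Er 30 := by unfold Pr.Er Pr.X; positivity
  have P0 := prod_nonneg (s := ρ.Ps) fun p _ => dd0 p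
  have P1 := prod_nonneg (s := Lg) fun p _ => dd0 p
  have x0 : (1 : ℝ) / 2 ^ ρ.K' ≤ 1 / 2 :=
    one_div_le_one_div_of_le (by norm_num) (le_self_pow₀ (by norm_num) (by omega))
  set M := ρ.Zb q c0 * (∏ p ∈ Lg, S4.av (p ^ 2) (G p)) *
    ∏ p ∈ ρ.Ps, S4.av (p ^ 2) fun g => Pr.al D1 D2 p (ρ.fm g) * F p g with hM
  clear_value H
  have bM : M ≤ ρ.Zb q c0 * (∏ p ∈ ρ.Ps, ρ.aa D1 D2 p) *
      (H * (Rσ * Rτ) * (σ.dl τ * ρ.En (D1 * D2) σ τ)) * (1 + 820 * (1 / √(ρ.w : ℝ))) := by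
    calc M ≤ ρ.Zb q c0 * (Rσ * Rτ * ∏ p ∈ Lg, dd p) * ((∏ p ∈ ρ.Ps, ρ.aa D1 D2 p) * H *
          (∏ p ∈ ρ.Ps, dd p) * ρ.En (D1 * D2) σ τ * (1 + 820 * (1 / √(ρ.w : ℝ)))) := by
          refine mul_le_mul (mul_le_mul_of_nonneg_left bG Z0) (bF.trans ?_)
            (prod_nonneg fun p hp => S4.av_nonneg _ fun g => mul_nonneg (PAIR_al _ _ _ _)
              (F0 p hp g).1) (by positivity)
          exact mul_le_mul_of_nonneg_left v2 (by positivity)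
      _ = ρ.Zb q c0 * (∏ p ∈ ρ.Ps, ρ.aa D1 D2 p) * (H * (Rσ * Rτ) *
          (((∏ p ∈ ρ.Ps, dd p) * ∏ p ∈ Lg, dd p) * ρ.En (D1 * D2) σ τ)) *
          (1 + 820 * (1 / √(ρ.w : ℝ))) := by ring
      _ ≤ _ := by gcongr
  clear_value M
  have ab1 : a * b ≤ 1 := mul_le_one₀ a2 b1 b2
  refine PAIR_num (E := ρ.Er 30) B0 (by positivity) E0 (Nat.cast_nonneg _) (by positivity) x0
    (by positivity) v1 ?_ ?_ ?_
  · calc _ ≤ a * b * ((1 + 1 / 2 ^ ρ.K') * M + ρ.Er 30) := by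
          refine mul_le_mul_of_nonneg_left ?_ (by positivity)
          rw [div_eq_mul_one_div] at m1
          linarith
      _ = a * b * ((1 + 1 / 2 ^ ρ.K') * M) + a * b * ρ.Er 30 := by ring
      _ ≤ a * b * ((1 + 1 / 2 ^ ρ.K') * (ρ.Zb q c0 * (∏ p ∈ ρ.Ps, ρ.aa D1 D2 p) *
          (H * (Rσ * Rτ) * (σ.dl τ * ρ.En (D1 * D2) σ τ)) * (1 + 820 * (1 / √(ρ.w : ℝ))))) +
          1 * ρ.Er 30 := by gcongr
      _ = _ := by ring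
  · rw [div_eq_mul_one_div] at atc
    linarith [(abs_le.1 atc).1]
  · have u1 : a * b * (H * (Rσ * Rτ)) ≤ 1 :=
      mul_le_one₀ ab1 (by positivity) (mul_le_one₀ H1 (by positivity) (mul_le_one₀ Rσ1 Rτ0 Rτ1))
    have u2 : a * b * (H * (Rσ * Rτ)) * (σ.dl τ * ρ.En (D1 * D2) σ τ) ≤
        1 * (ρ.y ^ ρ.U * ((exp C * C) ^ 8 * ρ.y ^ 8)) := by gcongr
    have u3 : 1 ≤ ρ.y ^ ρ.U * ((exp C * C) ^ 8 * ρ.y ^ 8) :=
      one_le_mul_of_one_le_of_one_le (one_le_pow₀ y1)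
        (one_le_mul_of_one_le_of_one_le c8 (one_le_pow₀ y1))
    have u4 : 10 * (ρ.y ^ ρ.U * ((exp C * C) ^ 8 * ρ.y ^ 8)) ≤ ρ.y ^ (2 * ρ.K') := by
      calc _ = 10 * (exp C * C) ^ 8 * (ρ.y ^ ρ.U * ρ.y ^ 8) := by ring
        _ ≤ ρ.y * (ρ.y ^ ρ.U * ρ.y ^ 8) := by gcongr
        _ = ρ.y ^ (ρ.U + 9) := by ring
        _ ≤ _ := pow_le_pow_right₀ y1 kU.1
    calc _ ≤ ρ.y ^ (2 * ρ.K') * ρ.Er 30 := mul_le_mul_of_nonneg_right (by linarith) E0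
      _ = _ := by
        unfold Pr.Er
        rw [show 30 * ρ.K' = 2 * ρ.K' + 28 * ρ.K' by ring, pow_add]
        field_simp

end Pool.Agent.P.MP_8be758_nt.Pd
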