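import Pool.Agent.P.MP_8be758_nt.Pd.TFMP

/-! Step PAIRP. -/

namespace Pool.Agent.P.MP_8be758_nt.Pd

open Finset Real Filter
open Pool.Agent.P.MP_8be758_nt.Par (det)
open Pool.Agent.P.MP_8be758_nt.Avg (rho)

theorem PAIRP_unit {ρ : Pr} {q : ℕ × ℕ × ℕ} {D1 D2 p : ℕ} (hy : 1 ≤ ρ.y) (h3 : ρ.k3 ≠ 0)
    (h5 : ρ.k5 ≠ 0) (hq : ρ.QR q) (hD : ρ.DA D1 D2) {σ : Sd} (hσ : σ ∈ ρ.SD q D1 D2) (hp : p ∈ ρ.Ps)
    (hD' : ¬p ∣ D1 * D2) : ¬(p : ℤ) ∣ σ.ut.2 ∧ ¬(p : ℤ) ∣ σ.us.1 ∧ (¬(p : ℤ) ∣ σ.t → ¬(p : ℤ) ∣ σ.ut.1) ∧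
      (¬(p : ℤ) ∣ σ.s → ¬(p : ℤ) ∣ σ.us.2) ∧ (¬(p : ℤ) ∣ σ.af → ¬(p : ℤ) ∣ det σ.us σ.ut) := by
  obtain ⟨hpp, hw, hpy⟩ := (mem_PP (by linarith)).1 hp
  have hpi : Prime (p : ℤ) := Nat.prime_iff_prime_int.1 hpp
  obtain ⟨rfl, s1, s2, -⟩ := (mem_SD (DA_pos hD).1 (DA_pos hD).2).1 hσ
  have big : ∀ {k r : ℕ} {Y : ℝ}, k ≠ 0 → r ∈ PP (ρ.y ^ k) Y → ¬p ∣ r := fun hk hr e => by
    have := lt_of_PP hr
    rw [← (Nat.prime_dvd_prime_iff_eq hpp (prime_of_PP hr)).1 e] at this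
    linarith [le_self_pow₀ hy hk]
  have q1 : ¬p ∣ σ.q1 := big h5 hq.1
  have q3 : ¬p ∣ σ.q3 := big h3 hq.2.1
  have q4 : ¬p ∣ σ.q4 := big (k := 1) one_ne_zero (by simpa [Pr.I4] using hq.2.2)
  have d1 : ¬p ∣ σ.e1 * σ.a1 := fun e => hD' ((e.trans s1).mul_right _)
  have d2 : ¬p ∣ σ.e2 * σ.a2 := fun e => hD' ((e.trans s2).mul_left _)
  have E1 : ¬p ∣ σ.E1 := fun e => ((Nat.Prime.dvd_mul hpp).1 e).elim (fun e => d1 (e.mul_right _)) q3
  have E2 : ¬p ∣ σ.E2 := fun e => ((Nat.Prime.dvd_mul hpp).1 e).elim (fun e => d2 (e.mul_right _)) q4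
  have nm : ∀ {a b : ℕ}, ¬p ∣ a → ¬p ∣ b → ¬p ∣ a * b :=
    fun ha hb e => ((Nat.Prime.dvd_mul hpp).1 e).elim ha hb
  refine ⟨mt Int.natCast_dvd_natCast.1 (nm E1 fun e => d1 (e.mul_left _)),
    mt Int.natCast_dvd_natCast.1 (nm (nm E2 fun e => d2 (e.mul_left _)) q1),
    fun h => mt Int.natCast_dvd_natCast.1 (nm E2 (mt Int.natCast_dvd_natCast.2 h)),
    fun h => mt Int.natCast_dvd_natCast.1 (nm E1 (mt Int.natCast_dvd_natCast.2 h)), fun a => ?_⟩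
  rw [show det σ.us σ.ut = (σ.E1 * σ.E2 : ℕ) * σ.af by
    simp only [det, Sd.ut, Sd.us, Sd.af, Sd.a]; push_cast; ring]
  exact fun e => (hpi.dvd_or_dvd e).elim (mt Int.natCast_dvd_natCast.1 (nm E1 E2)) a

theorem PAIRP_pt {D p : ℕ} (hp : p.Prime) (σ : Sd) (hD : ¬p ∣ D) (ha : ¬(p : ℤ) ∣ σ.af) (φ : Fm) :
    Pr.fv (1 / 6) D σ p φ ≤
      (1 - 5 / 6 * ind ((p : ℤ) ∣ ev φ σ.ut)) * (1 - 5 / 6 * ind ((p : ℤ) ∣ ev φ σ.us)) := by
  have hq : Prime (p : ℤ) := Nat.prime_iff_prime_int.1 hp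
  rw [Pr.fv, if_neg hD, if_neg ha]
  by_cases c : (p : ℤ) ∣ ev φ σ.ut <;> by_cases d : (p : ℤ) ∣ ev φ σ.us
  · rw [if_neg (not_not.2 (c.mul_right _)), if_pos (Or.inr (by rw [sq]; exact mul_dvd_mul c d)),
      ind_pos c, ind_pos d]
    norm_num
  · rw [if_neg (not_not.2 (c.mul_right _)), ind_pos c, ind_neg d]
    split_ifs <;> linarith
  · rw [if_neg (not_not.2 (d.mul_left _)), ind_neg c, ind_pos d]
    split_ifs <;> linarith
  · rw [if_pos fun h => (hq.dvd_or_dvd h).elim c d, ind_neg c, ind_neg d]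
    linarith

theorem PAIRP_G {a r i : ℝ} (hi : 0 < i) (hi' : i ≤ 1 / 100) (hr0 : 0 ≤ r) (hr : r ≤ 2 * i)
    (ha : 1 - 2 * r ≤ a) : 1 - 16 / 3 * r ≤ a * (1 - 5 / 3 * r) ^ 2 ∧
      1 ≤ a * (1 - 5 / 3 * r) ^ 2 * (1 + 30 * i) ∧ 1 ≤ (1 - 5 / 3 * r) ^ 2 * (1 + 8 * i) := by
  have h1 : 1 - 10 / 3 * r ≤ (1 - 5 / 3 * r) ^ 2 := by nlinarith [sq_nonneg r]
  have h2 : 1 - 16 / 3 * r ≤ a * (1 - 5 / 3 * r) ^ 2 := by
    have := mul_le_mul ha h1 (by linarith) (by linarith)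
    nlinarith [sq_nonneg r]
  refine ⟨h2, ?_, ?_⟩
  · have := mul_le_mul_of_nonneg_right (show 1 - 11 * i ≤ a * (1 - 5 / 3 * r) ^ 2 by linarith)
      (show 0 ≤ 1 + 30 * i by linarith)
    nlinarith
  · have := mul_le_mul_of_nonneg_right (show 1 - 20 / 3 * i ≤ (1 - 5 / 3 * r) ^ 2 by linarith)
      (show 0 ≤ 1 + 8 * i by linarith)
    nlinarith

theorem PAIRP_fin {x b u v : ℝ} (h : x ≤ b) (hb : 0 ≤ b) (hu : 1 ≤ u) (hv : 1 ≤ v) : x ≤ b * u * v :=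
  h.trans ((le_mul_of_one_le_right hb hu).trans
    (le_mul_of_one_le_right (mul_nonneg hb (by linarith)) hv))

theorem p_PAIRP (hOK : S_OK) (hL1 : S_L1) (hL2 : S_L2) (hLB : S_LB) (hALP : S_ALP) :
    S_PAIRP := by
  obtain ⟨c, hc⟩ := hALP
  refine ⟨max c 100, fun A C1 => ?_⟩
  obtain ⟨C, hC, h⟩ := hc A C1
  refine ⟨C, hC, fun z e1 e2 hz => ?_⟩
  filter_upwards [h z e1 e2 (hz.mono (le_max_left _ _)), eventually_ge_atTop 1] with y hA hy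
  intro q D1 D2 hq hD σ hσ τ hτ p hp
  obtain ⟨-, b2, -, b4, b5, -, b7, b8, b9, b10, -⟩ := hz.mono (le_max_right _ _)
  set ρ : Pr := ⟨z, y⟩
  obtain ⟨hpp, hw, hpy⟩ := (mem_PP (by linarith)).1 hp
  have hw' : z.w < p := by exact_mod_cast hw
  have hA1 : 1 ≤ ρ.A := by show 1 ≤ z.A; omega
  have hAp : 4 * ρ.A < p := by show 4 * z.A < p; omega
  have hpi : Prime (p : ℤ) := Nat.prime_iff_prime_int.1 hpp
  have p100 : (100 : ℝ) ≤ p := by exact_mod_cast (show 100 ≤ p by omega)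
  have hi : (0 : ℝ) < 1 / p := by positivity
  have hi' : (1 : ℝ) / p ≤ 1 / 100 := one_div_le_one_div_of_le (by norm_num) p100
  have n1 : ¬(p : ℤ) ∣ 1 := hpi.not_dvd_one
  have L := fun u => hL1 ρ.A p (Q0 ρ.A) u hA1 (isF_Q0 _) hpp hAp
  obtain ⟨r2', r1, -⟩ := L (1, 0) fun h => n1 h.1
  have r2 : (rho ρ.A p : ℝ) ≤ 2 := by exact_mod_cast r2'
  have r02 : (rho ρ.A p : ℝ) = 0 ∨ (rho ρ.A p : ℝ) = 2 := by
    exact_mod_cast (show rho ρ.A p = 0 ∨ rho ρ.A p = 2 by omega)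
  have hr0 : (0 : ℝ) ≤ rho ρ.A p / p := by positivity
  have hr : (rho ρ.A p : ℝ) / p ≤ 2 * (1 / p) := by rw [mul_one_div]; gcongr
  have hr1 : (rho ρ.A p : ℝ) / (p + 1) ≤ rho ρ.A p / p := by gcongr; linarith
  have f0 := fun (s : Sd) φ => FMP_fv (θ := 1 / 6) (by norm_num) (by norm_num) (D1 * D2) s p φ
  have a0 : 0 ≤ ρ.aa D1 D2 p := S4.av_nonneg _ fun g => (FMP_al _ _ _ _).1
  have la : S4.av (p ^ 2) (fun g => Pr.al D1 D2 p (ρ.fm g) *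
      (Pr.fv (1 / 6) (D1 * D2) σ p (ρ.fm g) * Pr.fv (1 / 6) (D1 * D2) τ p (ρ.fm g))) ≤ ρ.aa D1 D2 p :=
    S4.av_mono _ fun g _ => mul_le_of_le_one_right (FMP_al _ _ _ _).1
      (mul_le_one₀ (f0 _ _).2 (f0 _ _).1 (f0 _ _).2)
  set F3 : ℝ := if p ∣ σ.dl τ then (p : ℝ) else 1 with hF3
  set F4 : ℝ := if ¬(p : ℤ) ∣ (D1 * D2 : ℕ) * (σ.s * σ.t) then
    1 + 8 / (p : ℝ) * ind ((p : ℤ) ∣ σ.Xi τ) else 1 with hF4
  have g3 : 1 ≤ F3 := by rw [hF3]; split_ifs <;> linarith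
  have g4 : 1 ≤ F4 := by
    rw [hF4]
    split_ifs
    exacts [le_rfl, le_add_of_nonneg_right (mul_nonneg (by positivity) (ind_nonneg _))]
  by_cases hD' : p ∣ D1 * D2
  · rw [if_pos hD', mul_one]
    refine (PAIRP_fin la a0 g3 g4).trans (le_mul_of_one_le_right
      (mul_nonneg (mul_nonneg a0 (by linarith)) (by linarith)) (le_add_of_nonneg_right ?_))
    split_ifs <;> positivity
  obtain ⟨ha, -, ha1⟩ := (hA D1 D2 p hp).2 hD'
  rw [mul_div_assoc] at ha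
  obtain ⟨G1, G2, G3⟩ := PAIRP_G hi hi' hr0 hr ha
  obtain ⟨u1, u2, u3, u4, u5⟩ := PAIRP_unit (ρ := ρ) hy (show z.k3 ≠ 0 by omega)
    (show z.k5 ≠ 0 by omega) hq hD hσ hp hD'
  obtain ⟨v1, v2, v3, v4, v5⟩ := PAIRP_unit (ρ := ρ) hy (show z.k3 ≠ 0 by omega)
    (show z.k5 ≠ 0 by omega) hq hD hτ hp hD'
  have Lt := (L σ.ut fun h => u1 h.2).2.2
  have Lt' := (L τ.ut fun h => v1 h.2).2.2
  have fa : ∀ s : Sd, (p : ℤ) ∣ s.af → ∀ φ, Pr.fv (1 / 6) (D1 * D2) s p φ ≤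
      1 / 6 * ind ((p : ℤ) ∣ ev φ s.ut) := fun s a φ => by
    rw [Pr.fv, if_neg hD', if_pos a]
    exact mul_le_mul_of_nonneg_left (ind_mono fun h => h.1) (by norm_num)
  have e6 : (rho ρ.A p : ℝ) / (6 * p) = rho ρ.A p / p / 6 := by ring
  rw [if_neg hD', Pr.ga, Pr.sm, Pr.sm, mul_div_assoc, e6]
  set r : ℝ := (rho ρ.A p : ℝ) / p with hrd
  set a : ℝ := ρ.aa D1 D2 p
  set γ : ℝ := 1 - 5 / 3 * r
  have G0 : 0 ≤ a * γ ^ 2 := by positivity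
  by_cases b : (p : ℤ) ∣ (D1 * D2 : ℕ) * (σ.s * σ.t * σ.af) * (τ.s * τ.t * τ.af)
  · rw [if_pos b, div_eq_mul_one_div 30]
    have key : ∀ x m n : ℝ, 0 ≤ m * n → x ≤ m * n * F3 → x ≤
        a * (γ * m * (γ * n)) * F3 * F4 * (1 + 30 * (1 / p)) := fun x m n h0 hx => by
      have := PAIRP_fin hx (mul_nonneg h0 (by linarith)) g4 G2
      calc x ≤ _ := this
        _ = _ := by ring
    by_cases k1 : (p : ℤ) ∣ σ.af <;> by_cases k2 : (p : ℤ) ∣ τ.af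
    · rw [if_pos k1, if_pos k2]
      refine key _ _ _ (by positivity) (le_trans (S4.av_mono _ (g := fun g => 1 / 36 *
        ind ((p : ℤ) ∣ ev (ρ.fm g) σ.ut ∧ (p : ℤ) ∣ ev (ρ.fm g) τ.ut)) fun g _ => ?_) ?_)
      · refine (mul_le_of_le_one_left (mul_nonneg (f0 _ _).1 (f0 _ _).1) (FMP_al _ _ _ _).2).trans ?_
        refine (mul_le_mul (fa σ k1 _) (fa τ k2 _) (f0 _ _).1
          (mul_nonneg (by norm_num) (ind_nonneg _))).trans_eq ?_
        rw [ind_and]; ring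
      · rw [S4.av_mul, hF3]
        have hp0 : (0 : ℝ) < p := by linarith
        split_ifs with d
        · have h1 := ((S4.av_mono (p ^ 2) (g := fun g => ind ((p : ℤ) ∣ ev (ρ.fm g) σ.ut))
            (f := fun g => ind ((p : ℤ) ∣ ev (ρ.fm g) σ.ut ∧ (p : ℤ) ∣ ev (ρ.fm g) τ.ut))
            fun g _ => ind_mono fun h => h.1).trans Lt.le).trans hr1
          have h2 : r / 6 * (r / 6) * p = r * rho ρ.A p / 36 := by rw [hrd]; field_simp; norm_num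
          rw [h2]
          rcases r02 with e | e
          · have : r = 0 := by rw [hrd, e, zero_div]
            rw [this] at h1 ⊢
            linarith
          · rw [e]; linarith
        · have h1 := hL2 ρ.A p (Q0 ρ.A) σ.ut τ.ut hA1 (isF_Q0 _) hpp hAp fun e => d
            (Int.natCast_dvd_natCast.1 (Int.dvd_coe_gcd (Int.dvd_coe_gcd k1 k2) e))
          have h2 : r / 6 * (r / 6) * 1 = rho ρ.A p * (rho ρ.A p / (p : ℝ) ^ 2) / 36 := by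
            rw [hrd]; field_simp; norm_num
          have h3 : (0 : ℝ) ≤ rho ρ.A p / (p : ℝ) ^ 2 := by positivity
          rw [h2]
          refine (mul_le_mul_of_nonneg_left h1 (by norm_num)).trans ?_
          rcases r02 with e | e
          · simp [e]
          · nth_rewrite 2 [e]; linarith
    · rw [if_pos k1, if_neg k2]
      refine key _ _ _ (by positivity) (le_trans (S4.av_mono _ (g := fun g => 1 / 6 *
        ind ((p : ℤ) ∣ ev (ρ.fm g) σ.ut)) fun g _ => ?_) ?_)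
      · refine (mul_le_of_le_one_left (mul_nonneg (f0 _ _).1 (f0 _ _).1) (FMP_al _ _ _ _).2).trans ?_
        exact (mul_le_of_le_one_right (f0 _ _).1 (f0 _ _).2).trans (fa σ k1 _)
      · rw [S4.av_mul]
        have h1 := Lt.le.trans hr1
        refine le_trans ?_ (le_mul_of_one_le_right (by positivity) g3)
        exact (mul_le_mul_of_nonneg_left h1 (by norm_num)).trans_eq (by ring)
    · rw [if_neg k1, if_pos k2]
      refine key _ _ _ (by positivity) (le_trans (S4.av_mono _ (g := fun g => 1 / 6 *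
        ind ((p : ℤ) ∣ ev (ρ.fm g) τ.ut)) fun g _ => ?_) ?_)
      · refine (mul_le_of_le_one_left (mul_nonneg (f0 _ _).1 (f0 _ _).1) (FMP_al _ _ _ _).2).trans ?_
        exact (mul_le_of_le_one_left (f0 _ _).1 (f0 _ _).2).trans (fa τ k2 _)
      · rw [S4.av_mul]
        have h1 := Lt'.le.trans hr1
        refine le_trans ?_ (le_mul_of_one_le_right (by positivity) g3)
        exact (mul_le_mul_of_nonneg_left h1 (by norm_num)).trans_eq (by ring)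
    · rw [if_neg k1, if_neg k2]
      exact key _ _ _ (by norm_num) (by linarith)
  have k1 : ¬(p : ℤ) ∣ σ.af := fun e => b (((e.mul_left _).mul_left _).mul_right _)
  have k2 : ¬(p : ℤ) ∣ τ.af := fun e => b ((e.mul_left _).mul_left _)
  have s1 : ¬(p : ℤ) ∣ σ.s := fun e => b ((((e.mul_right _).mul_right _).mul_left _).mul_right _)
  have t1 : ¬(p : ℤ) ∣ σ.t := fun e => b ((((e.mul_left _).mul_right _).mul_left _).mul_right _)
  have s2 : ¬(p : ℤ) ∣ τ.s := fun e => b (((e.mul_right _).mul_right _).mul_left _)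
  have t2 : ¬(p : ℤ) ∣ τ.t := fun e => b (((e.mul_left _).mul_right _).mul_left _)
  rw [if_neg b, if_neg k1, if_neg k2]
  have g5 : (1 : ℝ) ≤ 1 + 200 / (p : ℝ) ^ 2 := le_add_of_nonneg_right (by positivity)
  by_cases x : (p : ℤ) ∣ σ.Xi τ
  · have : F4 = 1 + 8 * (1 / p) := by
      rw [hF4, if_pos, ind_pos x, mul_one, mul_one_div]
      exact fun e => b ((e.trans ⟨σ.af, by ring⟩).mul_right _)
    rw [this]
    calc _ ≤ a * (γ ^ 2 * (1 + 8 * (1 / p))) * F3 * (1 + 200 / (p : ℝ) ^ 2) :=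
          PAIRP_fin (la.trans (le_mul_of_one_le_right a0 G3)) (by positivity) g3 g5
      _ = _ := by ring
  have x1 : ¬(p : ℤ) ∣ det σ.ut τ.ut := fun e => x ((e.mul_right _).mul_right _)
  have x2 : ¬(p : ℤ) ∣ det σ.us τ.ut := fun e => x ((e.mul_left _).mul_right _)
  have x3 : ¬(p : ℤ) ∣ det σ.ut τ.us := fun e => x ((e.mul_right _).mul_left _)
  have x4 : ¬(p : ℤ) ∣ det σ.us τ.us := fun e => x ((e.mul_left _).mul_left _)
  have sw : ∀ {u v : V2}, ¬(p : ℤ) ∣ det u v → ¬(p : ℤ) ∣ det v u := fun {u v} h => by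
    rwa [show det v u = -det u v by simp only [det]; ring, dvd_neg]
  have u3 := u3 t1
  have u4 := u4 s1
  have u5 := u5 k1
  have v3 := v3 t2
  have v4 := v4 s2
  have v5 := v5 k2
  have := (hLB ρ.A p (Q0 ρ.A) (Fin 6) univ ![(1, 0), (0, 1), σ.ut, σ.us, τ.ut, τ.us]
    ![1, 1, 5 / 6, 5 / 6, 5 / 6, 5 / 6] hA1 (isF_Q0 _) hpp hAp (by simp) (fun i _ => by
      fin_cases i <;> simp [n1, u1, u2, v1, v2] <;> norm_num)).2 fun i _ j _ hij => by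
        fin_cases i <;> fin_cases j <;>
          first
            | exact absurd rfl hij | exact u5 | exact sw u5 | exact v5 | exact sw v5 | exact x1
            | exact sw x1 | exact x2 | exact sw x2 | exact x3 | exact sw x3 | exact x4 | exact sw x4
            | simp [det, n1, u1, u2, u3, u4, v1, v2, v3, v4]
  refine ((S4.av_mono _ fun g _ => ?_).trans this).trans ?_
  · have h1 : Pr.al D1 D2 p (ρ.fm g) = (1 - ind ((p : ℤ) ∣ (ρ.fm g).1)) *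
        (1 - ind ((p : ℤ) ∣ (ρ.fm g).2.2)) := by
      rw [Pr.al, if_neg fun h => hD' (h.mul_right _), if_neg fun h => hD' (h.mul_left _)]
      by_cases e : (p : ℤ) ∣ (ρ.fm g).1 <;> by_cases e' : (p : ℤ) ∣ (ρ.fm g).2.2 <;>
        simp [ind, e, e', hpi.dvd_mul]
    refine (mul_le_mul_of_nonneg_left (mul_le_mul (PAIRP_pt hpp σ hD' k1 _) (PAIRP_pt hpp τ hD' k2 _)
      (f0 _ _).1 ((f0 _ _).1.trans (PAIRP_pt hpp σ hD' k1 _))) (FMP_al _ _ _ _).1).trans_eq ?_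
    rw [h1]
    simp [Fin.prod_univ_six, ev, Pr.fm, mul_assoc]
  · have h1 : ∑ i : Fin 6, (![1, 1, 5 / 6, 5 / 6, 5 / 6, 5 / 6] : Fin 6 → ℝ) i = 16 / 3 := by
      simp [Fin.sum_univ_six]; norm_num
    rw [h1]
    have h2 : (0 : ℝ) ≤ 1 / (p : ℝ) ^ 2 := by positivity
    calc _ ≤ a * γ ^ 2 * (1 + 200 / (p : ℝ) ^ 2) * F3 * F4 := by
          refine PAIRP_fin ?_ (by positivity) g3 g4
          rw [div_eq_mul_one_div 50, div_eq_mul_one_div 200]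
          nlinarith [mul_le_mul_of_nonneg_right (show 1 / 2 ≤ a * γ ^ 2 by linarith) h2]
      _ = _ := by ring

end Pool.Agent.P.MP_8be758_nt.Pd
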