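import Pool.Agent.P.MP_8be758_nt.Pd.IfM

/-! Step PES. -/

namespace Pool.Agent.P.MP_8be758_nt.Pd

open Finset Real Filter
open Pool.Agent.P.MP_8be758_nt.Par (nq mul cj det io et)
open Pool.Agent.P.MP_8be758_nt.Avg (rho)
open Pool.Agent.P.MP_8be758_nt.Pd.Mr

theorem PES_mu (K g : ℕ) (hg : 0 < g) (hK : g ≤ K) :
    ∑ e ∈ Icc 1 K, (if e ∣ g then (ArithmeticFunction.moebius e : ℂ) else 0) =
      if g = 1 then 1 else 0 := by
  have h2 := congrArg (fun F : ArithmeticFunction ℤ => F g) ArithmeticFunction.moebius_mul_coe_zeta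
  simp only [ArithmeticFunction.coe_mul_zeta_apply, ArithmeticFunction.one_apply] at h2
  have h1 : (Icc 1 K).filter (· ∣ g) = g.divisors := by
    ext e
    simp only [mem_filter, mem_Icc, Nat.mem_divisors]
    exact ⟨fun h => ⟨h.2, hg.ne'⟩, fun h =>
      ⟨⟨Nat.pos_of_dvd_of_pos h.1 hg, (Nat.le_of_dvd hg h.1).trans hK⟩, h.1⟩⟩
  rw [← sum_filter, h1, ← Int.cast_sum, h2]
  split_ifs <;> simp

theorem PES_tel (t : ℝ) (K : ℕ) :
    ∑ e ∈ Icc 1 K, (1 / ((e : ℝ) + t - 1) - 1 / ((e : ℝ) + t)) = 1 / t - 1 / ((K : ℝ) + t) := by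
  induction K with
  | zero => simp
  | succ K ih =>
    rw [sum_Icc_succ_top (by omega), ih]
    push_cast
    rw [show (K : ℝ) + 1 + t - 1 = K + t by ring]
    ring

theorem PES_min {t e x B : ℝ} (ht : 1 ≤ t) (he : 1 ≤ e) (hB : 0 ≤ B) (h1 : x ≤ B / t ^ 2)
    (h2 : x ≤ B / e ^ 2) : x ≤ 4 * B * (1 / (e + t - 1) - 1 / (e + t)) := by
  have p1 : 0 < e + t - 1 := by linarith
  have p2 : 0 < e + t := by linarith
  have e1 : 1 / (e + t - 1) - 1 / (e + t) = 1 / ((e + t - 1) * (e + t)) := by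
    field_simp
    ring
  have key : ∀ s : ℝ, 0 < s → e + t ≤ 2 * s →
      B / s ^ 2 ≤ 4 * B * (1 / ((e + t - 1) * (e + t))) := fun s hs h => by
    have : 1 / (4 * s ^ 2) ≤ 1 / ((e + t - 1) * (e + t)) :=
      one_div_le_one_div_of_le (by positivity) (by nlinarith)
    calc B / s ^ 2 = 4 * B * (1 / (4 * s ^ 2)) := by field_simp
      _ ≤ _ := mul_le_mul_of_nonneg_left this (by positivity)
  rw [e1]
  rcases le_total e t with h | h
  · exact h1.trans (key t (by linarith) (by linarith))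
  · exact h2.trans (key e (by linarith) (by linarith))

theorem PES_dil {A : ℕ} (hA : 2 ≤ A) (N1 N2 : ℝ) {e : ℕ} (he : 1 ≤ e) (F : V2 → ℂ) :
    ∑ v ∈ (An (Q0 A) N1 N2).filter (fun v => e ∣ Int.gcd v.1 v.2), F v =
      ∑ w ∈ An (Q0 A) (N1 / (e : ℝ) ^ 2) (N2 / (e : ℝ) ^ 2), F ((e : ℤ) • w) := by
  have he' : (0 : ℝ) < (e : ℝ) ^ 2 := by positivity
  have e0 : (e : ℤ) ≠ 0 := by omega
  have hm : ∀ w : V2, (e : ℤ) • w ∈ An (Q0 A) N1 N2 ↔
      w ∈ An (Q0 A) (N1 / (e : ℝ) ^ 2) (N2 / (e : ℝ) ^ 2) := fun w => by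
    rw [mem_An0 hA, mem_An0 hA, Par.nq_smul, div_lt_iff₀ he', le_div_iff₀ he', mul_comm _ (_ ^ 2)]
    push_cast
    rfl
  symm
  refine sum_bij (fun w _ => (e : ℤ) • w) (fun w hw => mem_filter.2 ⟨(hm w).2 hw, ?_⟩)
    (fun w _ w' _ h => smul_right_injective _ e0 h) (fun v hv => ?_) fun _ _ => rfl
  · exact Int.dvd_gcd_iff.2 ⟨Dvd.intro _ rfl, Dvd.intro _ rfl⟩
  · obtain ⟨h1, h2⟩ := mem_filter.1 hv
    obtain ⟨⟨a, ha⟩, b, hb⟩ := Int.dvd_gcd_iff.1 h2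
    have : (e : ℤ) • ((a, b) : V2) = v := Prod.ext ha.symm hb.symm
    exact ⟨(a, b), (hm _).1 (this ▸ h1), this⟩

theorem PES_exp {A : ℕ} (hA : 2 ≤ A) {N N1 N2 : ℝ} (h1 : 0 ≤ N1) (h2 : N2 ≤ N) (F : V2 → ℂ) :
    ∑ v ∈ VV (Q0 A) N1 N2, F v = ∑ e ∈ Icc 1 ⌊N⌋₊, (ArithmeticFunction.moebius e : ℂ) *
      ∑ v ∈ (An (Q0 A) N1 N2).filter (fun v => e ∣ Int.gcd v.1 v.2), F v := by
  have e1 : VV (Q0 A) N1 N2 = (An (Q0 A) N1 N2).filter fun v => Int.gcd v.1 v.2 = 1 := by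
    ext v
    rw [mem_filter, mem_VV0 hA, mem_An0 hA, pr_iff, and_comm]
  simp only [e1, sum_filter, mul_sum]
  rw [sum_comm]
  refine sum_congr rfl fun v hv => ?_
  have h0 := ne_of_mem_An hA h1 hv
  obtain ⟨u, hu, e⟩ := exists_pr h0
  have g0 : 0 < Int.gcd v.1 v.2 := Nat.pos_of_ne_zero fun h => h0 (by rw [e, h]; simp)
  have g1 : Int.gcd v.1 v.2 ≤ ⌊N⌋₊ := by
    have a := ((mem_An0 hA).1 hv).2
    have b := one_le_nq hA (pr_ne hu)
    have c := congrArg (nq A) e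
    rw [Par.nq_smul] at c
    rw [c] at a
    generalize Int.gcd v.1 v.2 = g at *
    have : (1 : ℝ) ≤ g := by exact_mod_cast g0
    push_cast at a
    exact Nat.le_floor (by nlinarith [mul_le_mul_of_nonneg_left b (sq_nonneg (g : ℝ))])
  have := congrArg (· * F v) (PES_mu _ _ g0 g1)
  simp only [sum_mul, ite_mul, zero_mul, one_mul] at this
  rw [← this]
  exact sum_congr rfl fun e _ => by split_ifs <;> simp

theorem p_PES (hES : S_ES) (hAREA : S_AREA) :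
    S_PES := by
  intro A J hA
  obtain ⟨c0, C0, hc0, hc1, hC0, H⟩ := hES A J hA
  obtain ⟨c, Ca, -, hCa, H2⟩ := hAREA A (by omega)
  refine ⟨c0 / 2, 4 * (C0 + 3 * Ca), by positivity, by linarith, by positivity,
    fun N N1 N2 k m φ hN h1 h2 h3 hm hk hkJ hP hφ => ?_⟩
  have hN0 : 0 < N := by linarith
  have hm1 : (1 : ℝ) ≤ (m : ℝ) ^ 3 := one_le_pow₀ (by exact_mod_cast hm)
  set t : ℝ := N ^ (c0 / 2) with ht
  have t1 : 1 ≤ t := one_le_rpow hN (by positivity)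
  have t2 : N ^ (1 - c0) = N / t ^ 2 := by
    rw [ht, ← rpow_natCast, ← rpow_mul hN0.le, rpow_sub hN0, rpow_one]
    congr 2
    push_cast
    ring
  have t3 : N ^ (1 - c0 / 2) = N / t := by rw [rpow_sub hN0, rpow_one]
  rw [PES_exp hA h1 h3]
  refine (norm_sum_le _ _).trans (le_trans (sum_le_sum (g := fun e : ℕ =>
    4 * ((C0 + 3 * Ca) * (m : ℝ) ^ 3 * N) * (1 / ((e : ℝ) + t - 1) - 1 / ((e : ℝ) + t)))
    fun e he => ?_) ?_)
  · have he1 : 1 ≤ e := (mem_Icc.1 he).1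
    have he2 : (1 : ℝ) ≤ e := by exact_mod_cast he1
    have he3 : (1 : ℝ) ≤ (e : ℝ) ^ 2 := one_le_pow₀ he2
    have e0 : (e : ℤ) ≠ 0 := by omega
    have hmu : ‖(ArithmeticFunction.moebius e : ℂ)‖ ≤ 1 := by
      rw [Complex.norm_intCast]
      exact_mod_cast ArithmeticFunction.abs_moebius_le_one
    rw [norm_mul, PES_dil hA N1 N2 he1]
    simp only [ek_smul e0]
    have d1 : 0 ≤ N1 / (e : ℝ) ^ 2 := by positivity
    have d2 : N1 / (e : ℝ) ^ 2 ≤ N2 / (e : ℝ) ^ 2 := by gcongr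
    have d3 : N2 / (e : ℝ) ^ 2 ≤ N / (e : ℝ) ^ 2 := by gcongr
    refine (mul_le_of_le_one_left (norm_nonneg _) hmu).trans
      (PES_min t1 he2 (by positivity) ?_ ?_)
    · refine (H N _ _ k m (fun w => φ ((e : ℤ) • w)) hN d1 d2
        (d3.trans (div_le_self hN0.le he3)) hm hk hkJ
        (fun v w h => hP _ _ ⟨h.1.mul_left _, h.2.mul_left _⟩) fun v => hφ _).trans ?_
      rw [t2, ← mul_div_assoc]
      gcongr
      linarith
    · refine (norm_sum_le _ _).trans (le_trans (sum_le_sum (g := fun _ => (1 : ℝ)) fun w _ => ?_) ?_)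
      · rw [norm_mul, Complex.norm_real, Real.norm_eq_abs]
        exact mul_le_one₀ (hφ _) (norm_nonneg _) (norm_ek_le hA k w)
      · rw [sum_const, nsmul_eq_mul, mul_one]
        rcases (An (Q0 A) (N1 / (e : ℝ) ^ 2) (N2 / (e : ℝ) ^ 2)).eq_empty_or_nonempty with
          h | ⟨w, hw⟩
        · rw [h, card_empty, Nat.cast_zero]
          positivity
        have b1 := (one_le_nq hA (ne_of_mem_An hA d1 hw)).trans ((mem_An0 hA).1 hw).2
        have b2 : √(N2 / (e : ℝ) ^ 2) ≤ N2 / (e : ℝ) ^ 2 := by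
          rw [Real.sqrt_le_left (by linarith)]
          nlinarith
        refine (H2 _ (Q0_mem (by omega)) _ _ d1 d2).2.trans ?_
        calc _ ≤ Ca * (3 * (N / (e : ℝ) ^ 2)) := by gcongr; linarith
          _ = 3 * Ca * 1 * N / (e : ℝ) ^ 2 := by ring
          _ ≤ _ := by gcongr; linarith
  · rw [← mul_sum, PES_tel, t3]
    have a1 : 1 / t - 1 / ((⌊N⌋₊ : ℝ) + t) ≤ 1 / t := sub_le_self _ (by positivity)
    refine (mul_le_mul_of_nonneg_left a1 (by positivity)).trans (le_of_eq ?_)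
    ring

end Pool.Agent.P.MP_8be758_nt.Pd
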