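import Pool.Agent.P.MP_8be758_nt.Pd.IfT

/-! Step PS. -/

namespace Pool.Agent.P.MP_8be758_nt.Pd

open Finset Real Filter
open Pool.Agent.P.MP_8be758_nt.Par (det)
open Pool.Agent.P.MP_8be758_nt.Avg (rho)
open Pool.Agent.P.MP_e86632_nt (ee)

theorem PS_one_le {ι : Type} (S : Finset ι) (x : ι → ℝ) (hx : ∀ i ∈ S, 0 ≤ x i) :
    1 ≤ ∏ i ∈ S, (1 + x i) := by
  calc (1 : ℝ) = ∏ _i ∈ S, (1 : ℝ) := by simp
    _ ≤ _ := prod_le_prod (fun _ _ => zero_le_one) fun i hi => by linarith [hx i hi]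

theorem PS_prod {ι : Type} (S : Finset ι) (x : ι → ℝ) (hx : ∀ i ∈ S, 0 ≤ x i) :
    ∏ i ∈ S, (1 + x i) - 1 ≤ (∑ i ∈ S, x i) * ∏ i ∈ S, (1 + x i) := by
  classical
  induction S using Finset.induction_on with
  | empty => simp
  | insert j S hj ih =>
    rw [prod_insert hj, sum_insert hj]
    have h1 := ih fun i hi => hx i (mem_insert_of_mem hi)
    have h2 := PS_one_le S x fun i hi => hx i (mem_insert_of_mem hi)
    have h3 := hx j (mem_insert_self _ _)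
    have h4 : 0 ≤ ∑ i ∈ S, x i := sum_nonneg fun i hi => hx i (mem_insert_of_mem hi)
    have h5 : 0 ≤ x j * ((x j + ∑ i ∈ S, x i) * ∏ i ∈ S, (1 + x i)) :=
      mul_nonneg h3 (mul_nonneg (by linarith) (by linarith))
    nlinarith

theorem PS_term (c : ℝ) (hc : 0 ≤ c) (p : ℕ) (Q : Prop) : 0 ≤ c / p * ind Q :=
  mul_nonneg (div_nonneg hc (Nat.cast_nonneg _)) (ind_nonneg _)

theorem PS_Ep_one (P : Finset ℕ) (c : ℝ) (hc : 0 ≤ c) (B : ℕ → ℤ → Prop) (x : ℤ) :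
    1 ≤ Ep P c B x := PS_one_le P _ fun p _ => PS_term c hc p _

theorem PS_Ep_mono (P : Finset ℕ) (B : ℕ → ℤ → Prop) (x : ℤ) : Ep P 8 B x ≤ Ep P 20 B x := by
  refine prod_le_prod (fun p _ => by linarith [PS_term 8 (by norm_num) p (B p x)]) fun p _ => ?_
  have h1 : (8 : ℝ) / p ≤ 20 / p := div_le_div_of_nonneg_right (by norm_num) (Nat.cast_nonneg _)
  have := mul_le_mul_of_nonneg_right h1 (ind_nonneg (B p x))
  linarith

theorem PS_Ep_mul (P : Finset ℕ) (hP : ∀ p ∈ P, (12 : ℝ) ≤ p) (B : ℕ → ℤ → Prop) (x : ℤ) :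
    Ep P 8 B x * Ep P 24 (fun p x => (p : ℤ) ∣ x) x ≤ Ep P 50 (fun p x => B p x ∨ (p : ℤ) ∣ x) x := by
  unfold Ep
  rw [← prod_mul_distrib]
  refine prod_le_prod (fun p _ => mul_nonneg (by linarith [PS_term 8 (by norm_num) p (B p x)])
    (by linarith [PS_term 24 (by norm_num) p ((p : ℤ) ∣ x)])) fun p hp => ?_
  have h12 := hP p hp
  have hr : (1 : ℝ) / p ≤ 1 / 12 := one_div_le_one_div_of_le (by norm_num) h12
  have hr0 : (0 : ℝ) ≤ 1 / p := by positivity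
  have e8 : (8 : ℝ) / p = 8 * (1 / p) := by ring
  have e24 : (24 : ℝ) / p = 24 * (1 / p) := by ring
  have e50 : (50 : ℝ) / p = 50 * (1 / p) := by ring
  rw [e8, e24, e50]
  by_cases h1 : B p x <;> by_cases h2 : (p : ℤ) ∣ x
  · rw [ind_pos h1, ind_pos h2, ind_pos (Or.inl h1)]; nlinarith
  · rw [ind_pos h1, ind_neg h2, ind_pos (Or.inl h1)]; nlinarith
  · rw [ind_neg h1, ind_pos h2, ind_pos (Or.inr h2)]; nlinarith
  · rw [ind_neg h1, ind_neg h2, ind_neg (not_or.2 ⟨h1, h2⟩)]; nlinarith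

theorem PS_few (P : Finset ℕ) (B : ℕ → ℤ → Prop)
    (h : ∀ p ∈ P, (∀ x y, x ≡ y [ZMOD p] → (B p x ↔ B p y)) ∧ ∑ x ∈ bx p, ind (B p x) ≤ 2) :
    Few P fun p x => B p x ∨ (p : ℤ) ∣ x := by
  intro p hp
  refine ⟨fun x y e => or_congr ((h p hp).1 x y e) e.dvd_iff, ?_⟩
  have h1 : ∀ x ∈ bx p, ind (B p x ∨ (p : ℤ) ∣ x) ≤ ind (B p x) + if x = 0 then 1 else 0 := by
    intro x hx
    by_cases h1 : B p x
    · rw [ind_pos h1, ind_pos (Or.inl h1)]; split_ifs <;> norm_num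
    · by_cases h2 : (p : ℤ) ∣ x
      · have hx' := mem_Ico.1 hx
        have : x = 0 := Int.eq_zero_of_dvd_of_nonneg_of_lt hx'.1 hx'.2 h2
        rw [if_pos this, ind_neg h1]
        linarith [ind_le_one (B p x ∨ (p : ℤ) ∣ x)]
      · rw [ind_neg h1, ind_neg (not_or.2 ⟨h1, h2⟩)]; split_ifs <;> norm_num
  have h2 := sum_le_sum h1
  rw [sum_add_distrib, sum_ite_eq'] at h2
  have h3 := (h p hp).2
  split_ifs at h2 <;> linarith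

theorem PS_two (a t0 : ℤ) (T C0 M : ℝ) (δ : ℕ) (F : ℤ → ℤ → ℝ) (G H : ℤ → ℝ) (h0 : 0 < T / C0)
    (hF : ∀ s t, 0 ≤ F s t) (hG : ∀ t, 0 ≤ G t) (hH : ∀ t, 0 ≤ H t) (hM : 0 ≤ M)
    (hin : ∀ t : ℤ, T / C0 ≤ |(t : ℝ)| → |(t : ℝ)| ≤ C0 * T →
      ∑ s ∈ (Icc (-a) a).filter (fun s => |s * t| ≤ a ∧ Int.gcd t (a - s * t) = 1), F s t ≤ M * H t) :
    ∑ v ∈ SR a T C0, F v.1 v.2 * (ind (v.2 ≡ t0 [ZMOD δ]) * G v.2) ≤
      M * ∑ t ∈ (Icc (-⌈C0 * T⌉) ⌈C0 * T⌉).filter (fun t => t ≡ t0 [ZMOD δ]), G t * H t := by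
  classical
  have hmap : ∀ v ∈ SR a T C0, v.2 ∈ Icc (-⌈C0 * T⌉) ⌈C0 * T⌉ := by
    intro v hv
    have h2 := ((mem_SR h0).1 hv).2.1
    refine mem_Icc.2 (abs_le.1 ?_)
    exact_mod_cast (show ((|v.2| : ℤ) : ℝ) ≤ (⌈C0 * T⌉ : ℤ) by
      push_cast; exact h2.trans (Int.le_ceil _))
  rw [← sum_fiberwise_of_maps_to hmap, sum_filter, mul_sum]
  refine sum_le_sum fun t _ => ?_
  have e1 : ∑ v ∈ (SR a T C0).filter (fun v => v.2 = t), F v.1 v.2 * (ind (v.2 ≡ t0 [ZMOD δ]) * G v.2) =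
      (ind (t ≡ t0 [ZMOD δ]) * G t) * ∑ v ∈ (SR a T C0).filter (fun v => v.2 = t), F v.1 t := by
    rw [mul_sum]
    refine sum_congr rfl fun v hv => ?_
    rw [(mem_filter.1 hv).2]; ring
  rw [e1]
  have e2 : ∑ v ∈ (SR a T C0).filter (fun v => v.2 = t), F v.1 t ≤ M * H t := by
    rcases ((SR a T C0).filter (fun v => v.2 = t)).eq_empty_or_nonempty with he | ⟨v0, hv0⟩
    · rw [he, sum_empty]; exact mul_nonneg hM (hH t)
    obtain ⟨hv1, hv2⟩ := mem_filter.1 hv0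
    obtain ⟨b1, b2, -⟩ := (mem_SR h0).1 hv1
    rw [hv2] at b1 b2
    refine le_trans ?_ (hin t b1 b2)
    have ht : t ≠ 0 := fun e => by simp [e] at b1; linarith
    rw [← sum_image (s := (SR a T C0).filter (fun v => v.2 = t)) (g := Prod.fst)
      (f := fun s => F s t) (fun v hv v' hv' e =>
        Prod.ext e ((mem_filter.1 hv).2.trans (mem_filter.1 hv').2.symm))]
    refine sum_le_sum_of_subset_of_nonneg (fun s hs => ?_) fun s _ _ => hF s t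
    obtain ⟨v, hv, rfl⟩ := mem_image.1 hs
    obtain ⟨hv3, hv4⟩ := mem_filter.1 hv
    obtain ⟨-, -, c3, -, c5⟩ := (mem_SR h0).1 hv3
    rw [hv4] at c3 c5
    refine mem_filter.2 ⟨mem_Icc.2 (abs_le.1 (le_trans ?_ c3)), c3, Int.isCoprime_iff_gcd_eq_one.1 c5⟩
    rw [abs_mul]
    exact le_mul_of_one_le_right (abs_nonneg _) (Int.one_le_abs ht)
  by_cases hc : t ≡ t0 [ZMOD δ]
  · rw [ind_pos hc, if_pos hc, one_mul]
    calc _ ≤ G t * (M * H t) := mul_le_mul_of_nonneg_left e2 (hG t)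
      _ = _ := by ring
  · rw [ind_neg hc, if_neg hc]; simp

theorem PS_sqf (U : Finset ℕ) (hU : ∀ p ∈ U, p.Prime) : Squarefree (∏ p ∈ U, p) :=
  Finset.squarefree_prod_of_pairwise_isCoprime
    (fun p hp q hq hne => Nat.coprime_iff_isRelPrime.1
      ((Nat.coprime_primes (hU p hp) (hU q hq)).2 hne)) fun p hp => (hU p hp).squarefree

theorem PS_hw (ρ : Pr) (Θ : ℝ) (h : 0 ≤ Θ) (k : ℤ) : 0 ≤ ρ.hw Θ k :=
  mul_nonneg (pow_nonneg h _) (ind_nonneg _)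

/-- the pointwise bound for the common divisor -/
theorem PS_pt (ρ : Pr) (hy : 0 ≤ ρ.y) (k0 k m : ℤ) (E : ℝ) (hE : 1 ≤ E) (hk : Squarefree k0.natAbs)
    (hw : ∀ p : ℕ, p.Prime → (p : ℤ) ∣ k0 → ρ.w < p) :
    ind ((Int.gcd (Int.gcd k0 k) m : ℝ) ≤ ρ.y) * ((Int.gcd (Int.gcd k0 k) m : ℝ) * E - 1) ≤
      (E - 1) + ∑ U ∈ (ρ.pf k0).powerset.filter (fun U => U ≠ ∅ ∧ ((∏ p ∈ U, p : ℕ) : ℝ) ≤ ρ.y),
        ((∏ p ∈ U, p : ℕ) : ℝ) * (ind (((∏ p ∈ U, p : ℕ) : ℤ) ∣ k) *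
          ind (((∏ p ∈ U, p : ℕ) : ℤ) ∣ m) * E) := by
  set d := Int.gcd (Int.gcd k0 k) m with hd
  have hnn : ∀ U : Finset ℕ, 0 ≤ ((∏ p ∈ U, p : ℕ) : ℝ) * (ind (((∏ p ∈ U, p : ℕ) : ℤ) ∣ k) *
      ind (((∏ p ∈ U, p : ℕ) : ℤ) ∣ m) * E) := fun U =>
    mul_nonneg (Nat.cast_nonneg _) (mul_nonneg (mul_nonneg (ind_nonneg _) (ind_nonneg _)) (by linarith))
  have hs := sum_nonneg (s := (ρ.pf k0).powerset.filter
    (fun U => U ≠ ∅ ∧ ((∏ p ∈ U, p : ℕ) : ℝ) ≤ ρ.y)) fun U _ => hnn U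
  by_cases h1 : (d : ℝ) ≤ ρ.y
  swap
  · rw [ind_neg h1]; linarith
  rw [ind_pos h1, one_mul]
  have d1 : (d : ℤ) ∣ k0 := (Int.gcd_dvd_left _ _).trans (Int.gcd_dvd_left _ _)
  have d2 : (d : ℤ) ∣ k := (Int.gcd_dvd_left _ _).trans (Int.gcd_dvd_right _ _)
  have d3 : (d : ℤ) ∣ m := Int.gcd_dvd_right _ _
  have sq : Squarefree d := hk.squarefree_of_dvd (Int.natCast_dvd.1 d1)
  have e := Nat.prod_primeFactors_of_squarefree sq
  by_cases h2 : d.primeFactors = ∅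
  · rw [h2, prod_empty] at e
    have e' : (d : ℝ) = 1 := by rw [← e]; norm_num
    rw [e']; linarith
  have hmem : d.primeFactors ∈ (ρ.pf k0).powerset.filter
      (fun U => U ≠ ∅ ∧ ((∏ p ∈ U, p : ℕ) : ℝ) ≤ ρ.y) := by
    refine mem_filter.2 ⟨mem_powerset.2 fun p hp => ?_, h2, by rw [e]; exact h1⟩
    have hp1 := Nat.prime_of_mem_primeFactors hp
    have hp2 : (p : ℤ) ∣ k0 := (Int.natCast_dvd_natCast.2 (Nat.dvd_of_mem_primeFactors hp)).trans d1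
    refine mem_pf.2 ⟨(mem_PP hy).2 ⟨hp1, by exact_mod_cast hw p hp1 hp2, le_trans ?_ h1⟩, hp2⟩
    exact_mod_cast Nat.le_of_mem_primeFactors hp
  have h3 := single_le_sum (fun U _ => hnn U) hmem
  simp only [e, ind_pos d2, ind_pos d3, one_mul] at h3
  linarith

theorem PS_sub (S : Finset ℕ) (y r : ℝ) (hr : 1 ≤ r) (hS : ∑ p ∈ S, (1 : ℝ) / p ≤ 3 / r) :
    ∑ U ∈ S.powerset.filter (fun U => U ≠ ∅ ∧ ((∏ p ∈ U, p : ℕ) : ℝ) ≤ y),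
      (4 : ℝ) ^ U.card / ((∏ p ∈ U, p : ℕ) : ℝ) ≤ 12 * exp 12 / r := by
  have hx : ∀ p ∈ S, (0 : ℝ) ≤ 4 / (p : ℝ) := fun p _ => by positivity
  have e1 : ∀ U : Finset ℕ, (4 : ℝ) ^ U.card / ((∏ p ∈ U, p : ℕ) : ℝ) = ∏ p ∈ U, (4 / (p : ℝ)) := by
    intro U; rw [prod_div_distrib, prod_const]; push_cast; rfl
  simp only [e1]
  have e2 : ∑ p ∈ S, (4 : ℝ) / p ≤ 12 / r := by
    have : ∑ p ∈ S, (4 : ℝ) / p = 4 * ∑ p ∈ S, (1 : ℝ) / p := by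
      rw [mul_sum]; exact sum_congr rfl fun p _ => by ring
    rw [this]
    calc _ ≤ 4 * (3 / r) := by linarith
      _ = _ := by ring
  have e3 : (12 : ℝ) / r ≤ 12 := div_le_self (by norm_num) hr
  have h1 := PS_prod S (fun p => (4 : ℝ) / p) hx
  have h2 : ∏ p ∈ S, (1 + (4 : ℝ) / p) ≤ exp 12 :=
    (Real.prod_one_add_le_exp_sum S (f := fun p : ℕ => (4 : ℝ) / p) fun p => by positivity).trans (exp_le_exp.2 (e2.trans e3))
  have h3 : ∏ p ∈ S, (1 + (4 : ℝ) / p) = ∑ U ∈ S.powerset, ∏ p ∈ U, (4 / (p : ℝ)) := prod_one_add S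
  have h4 : ∑ U ∈ S.powerset.filter (fun U => U ≠ ∅ ∧ ((∏ p ∈ U, p : ℕ) : ℝ) ≤ y),
      ∏ p ∈ U, (4 / (p : ℝ)) ≤ ∑ U ∈ S.powerset.erase ∅, ∏ p ∈ U, (4 / (p : ℝ)) :=
    sum_le_sum_of_subset_of_nonneg (fun U hU => mem_erase.2 ⟨(mem_filter.1 hU).2.1, (mem_filter.1 hU).1⟩)
      fun U _ _ => prod_nonneg fun p _ => by positivity
  have h5 := add_sum_erase S.powerset (fun U => ∏ p ∈ U, (4 / (p : ℝ))) (empty_mem_powerset S)
  simp only [prod_empty] at h5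
  have h6 : (∑ p ∈ S, (4 : ℝ) / p) * ∏ p ∈ S, (1 + (4 : ℝ) / p) ≤ 12 / r * exp 12 :=
    mul_le_mul e2 h2 (le_trans zero_le_one (PS_one_le S _ hx)) (by positivity)
  calc _ ≤ 12 / r * exp 12 := by linarith
    _ = _ := by ring

theorem p_PS (hHI : S_HI) (hHO : S_HO) (hLAM : S_LAM) :
    S_PS := by
  intro C0 hC0
  obtain ⟨c1, h1⟩ := hHI
  obtain ⟨c2, h2⟩ := hHO C0 hC0
  obtain ⟨c3, h3⟩ := hLAM
  refine ⟨max 1 (max c1 (max c2 c3)), fun A C1 => ?_⟩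
  obtain ⟨D1, hD1, h1⟩ := h1 A C1
  obtain ⟨D2, hD2, h2⟩ := h2 A C1
  obtain ⟨D3, -, h3⟩ := h3 A C1
  have hexp : (1 : ℝ) ≤ exp 12 := one_le_exp (by norm_num)
  have hK : 1 ≤ D1 * D2 * C0 := one_le_mul_of_one_le_of_one_le
    (one_le_mul_of_one_le_of_one_le hD1 hD2) hC0
  refine ⟨2 * (D1 * D2 * C0) * (16 + 12 * exp 12), by nlinarith, fun z hA hC hB => ?_⟩
  have g1 := h1 z hA hC (hB.mono (by omega))
  have g2 := h2 z hA hC (hB.mono (by omega))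
  have g3 := h3 z hA hC (hB.mono (by omega))
  filter_upwards [g1, g2, g3, eventually_ge_atTop C0] with y hI hO hL hy
  intro a k0 α β T Θ Bs Bt hR hΘ0 hΘ1 hk hw hsi hco hBs hBt
  set ρ : Pr := ⟨z, y⟩ with hρ
  have hy' : C0 ≤ ρ.y := hy
  have hy1 : 1 ≤ ρ.y := hC0.trans hy'
  obtain ⟨-, b2, -, b4, -, -, b7, b8, -⟩ := hB.mono (le_max_left _ _)
  have hw12 : (12 : ℝ) ≤ ρ.w := by
    have : 12 ≤ z.w := by omega
    exact_mod_cast this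
  have hk3 : ρ.k3 ≠ 0 := by
    have : z.k3 ≠ 0 := by omega
    exact this
  have hP : ∀ p ∈ ρ.Ps, (12 : ℝ) ≤ p := fun p hp => hw12.trans (lt_of_PP hp).le
  obtain ⟨hT, r2, r3, -⟩ := hR
  have hyk : C0 ≤ ρ.y ^ ρ.k3 := hy'.trans (le_self_pow₀ hy1 hk3)
  have hyk1 : 1 ≤ ρ.y ^ ρ.k3 := hC0.trans hyk
  have ha : (0 : ℝ) < a := lt_of_lt_of_le (by positivity) r3
  have h0 : 0 < T / C0 := by positivity
  have hsT : √(ρ.y ^ ρ.k3) ≤ T := by rw [sqrt_le_left hT.le]; exact r2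
  obtain ⟨u, v', huv⟩ := hco
  set X := exp ((Θ / 2 - 1) * ρ.La) with hX
  have hX0 : 0 < X := exp_pos _
  set K := D1 * D2 * C0 with hKd
  have key : ∀ δ p0 p1 : ℕ, Squarefree δ → δ.primeFactors ⊆ ρ.Ps → (δ : ℝ) ≤ ρ.y →
      (p0 = 1 ∨ (p0 ∈ ρ.Ps ∧ δ = 1)) → (p1 = 1 ∨ (p1 ∈ ρ.Ps ∧ δ = 1)) →
      ∑ v ∈ SR a T C0, (ρ.hw Θ (a - v.1 * v.2) * ind ((δ : ℤ) ∣ a - v.1 * v.2) *
        ind (p0 = 1 ∨ Bs p0 v.1) * Ep ρ.Ps 20 Bs v.1) *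
        (ind (v.2 ≡ u * β [ZMOD δ]) * (ind (p1 = 1 ∨ Bt p1 v.2) * Ep ρ.Ps 8 Bt v.2)) ≤
      a * K * X * ((2 ^ δ.primeFactors.card / (δ * p0)) * (2 ^ δ.primeFactors.card / (δ * p1))) := by
    intro δ p0 p1 s1 s2 s3 s4 s5
    have hE8 := fun t => PS_Ep_one ρ.Ps 8 (by norm_num) Bt t
    have hE24 := fun t => PS_Ep_one ρ.Ps 24 (by norm_num) (fun p x => (p : ℤ) ∣ x) t
    have hM : 0 ≤ D1 * (a / (T / C0)) * (2 ^ δ.primeFactors.card / (δ * p0)) * X := by positivity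
    refine (PS_two a (u * β) T C0 (D1 * (a / (T / C0)) * (2 ^ δ.primeFactors.card / (δ * p0)) * X) δ
      (fun s t => ρ.hw Θ (a - s * t) * ind ((δ : ℤ) ∣ a - s * t) * ind (p0 = 1 ∨ Bs p0 s) *
        Ep ρ.Ps 20 Bs s) (fun t => ind (p1 = 1 ∨ Bt p1 t) * Ep ρ.Ps 8 Bt t)
      (fun t => Ep ρ.Ps 24 (fun p x => (p : ℤ) ∣ x) t) h0
      (fun s t => mul_nonneg (mul_nonneg (mul_nonneg (PS_hw ρ Θ hΘ0 _) (ind_nonneg _)) (ind_nonneg _))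
        (zero_le_one.trans (PS_Ep_one _ _ (by norm_num) _ _)))
      (fun t => mul_nonneg (ind_nonneg _) (zero_le_one.trans (hE8 t)))
      (fun t => zero_le_one.trans (hE24 t)) hM fun t t1 t2 => ?_).trans ?_
    · have ht : t ≠ 0 := fun e => by simp [e] at t1; linarith
      have t3 : |(t : ℝ)| * √(ρ.y ^ ρ.k3) ≤ a := by
        calc _ ≤ C0 * T * T := mul_le_mul t2 hsT (sqrt_nonneg _) (by positivity)
          _ = T ^ 2 * C0 := by ring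
          _ ≤ T ^ 2 * ρ.y ^ ρ.k3 := mul_le_mul_of_nonneg_left hyk (sq_nonneg _)
          _ ≤ a := r3
      refine (hI a t Θ δ p0 Bs ht t3 hΘ0 hΘ1 hBs s1 s2 s4).trans ?_
      have t4 : (a : ℝ) / |(t : ℝ)| ≤ a / (T / C0) := div_le_div_of_nonneg_left ha.le h0 t1
      have := hE24 t
      calc _ = D1 * (a / |(t : ℝ)|) * ((2 ^ δ.primeFactors.card / (δ * p0)) * X *
            Ep ρ.Ps 24 (fun p x => (p : ℤ) ∣ x) t) := by ring
        _ ≤ D1 * (a / (T / C0)) * ((2 ^ δ.primeFactors.card / (δ * p0)) * X *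
            Ep ρ.Ps 24 (fun p x => (p : ℤ) ∣ x) t) := by gcongr
        _ = _ := by ring
    · have o1 := hO T δ p1 (u * β) (fun p x => Bt p x ∨ (p : ℤ) ∣ x) hT r2 (PS_few _ _ hBt) s1 s2 s3 s5
      have o2 : ∑ t ∈ (Icc (-⌈C0 * T⌉) ⌈C0 * T⌉).filter (fun t => t ≡ u * β [ZMOD δ]),
          ind (p1 = 1 ∨ Bt p1 t) * Ep ρ.Ps 8 Bt t * Ep ρ.Ps 24 (fun p x => (p : ℤ) ∣ x) t ≤
          D2 * T * (2 ^ δ.primeFactors.card / (δ * p1)) := by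
        refine le_trans (sum_le_sum fun t _ => ?_) o1
        rw [mul_assoc]
        exact mul_le_mul (ind_mono (Or.imp_right Or.inl)) (PS_Ep_mul _ hP Bt t)
          (mul_nonneg (zero_le_one.trans (hE8 t)) (zero_le_one.trans (hE24 t))) (ind_nonneg _)
      refine (mul_le_mul_of_nonneg_left o2 hM).trans (le_of_eq ?_)
      rw [hKd]
      field_simp
  set DU := (ρ.pf k0).powerset.filter (fun U => U ≠ ∅ ∧ ((∏ p ∈ U, p : ℕ) : ℝ) ≤ ρ.y) with hDU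
  set W : ℕ → ℕ → ℕ → V2 → ℝ := fun δ p0 p1 v => (ρ.hw Θ (a - v.1 * v.2) *
    ind ((δ : ℤ) ∣ a - v.1 * v.2) * ind (p0 = 1 ∨ Bs p0 v.1) * Ep ρ.Ps 20 Bs v.1) *
    (ind (v.2 ≡ u * β [ZMOD δ]) * (ind (p1 = 1 ∨ Bt p1 v.2) * Ep ρ.Ps 8 Bt v.2)) with hW
  have hpt : ∀ v ∈ SR a T C0, ρ.hw Θ (a - v.1 * v.2) / ((a - v.1 * v.2 : ℤ) : ℝ) *
      (ind ((Int.gcd (Int.gcd k0 (a - v.1 * v.2)) (α * v.2 - β) : ℝ) ≤ ρ.y) *
        ((Int.gcd (Int.gcd k0 (a - v.1 * v.2)) (α * v.2 - β) : ℝ) *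
          (Ep ρ.Ps 8 Bs v.1 * Ep ρ.Ps 8 Bt v.2) - 1)) ≤
      2 / a * (∑ p ∈ ρ.Ps, 8 / (p : ℝ) * W 1 p 1 v + ∑ p ∈ ρ.Ps, 8 / (p : ℝ) * W 1 1 p v +
        ∑ U ∈ DU, ((∏ p ∈ U, p : ℕ) : ℝ) * W (∏ p ∈ U, p) 1 1 v) := by
    intro v hv
    obtain ⟨-, -, -, c4, -⟩ := (mem_SR h0).1 hv
    have c5 : (a : ℝ) ≤ 2 * ((a - v.1 * v.2 : ℤ) : ℝ) := by exact_mod_cast c4
    set k := a - v.1 * v.2 with hkd
    have hh := PS_hw ρ Θ hΘ0 k
    set E1 := Ep ρ.Ps 8 Bs v.1 with hE1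
    set E2 := Ep ρ.Ps 8 Bt v.2 with hE2
    set E3 := Ep ρ.Ps 20 Bs v.1 with hE3
    have e1 : 1 ≤ E1 := PS_Ep_one _ _ (by norm_num) _ _
    have e2 : 1 ≤ E2 := PS_Ep_one _ _ (by norm_num) _ _
    have e3 : E1 ≤ E3 := PS_Ep_mono _ _ _
    have e12 : 1 ≤ E1 * E2 := one_le_mul_of_one_le_of_one_le e1 e2
    have q1 := PS_pt ρ (by linarith) k0 k (α * v.2 - β) (E1 * E2) e12 hk hw
    have q2 : E1 - 1 ≤ (∑ p ∈ ρ.Ps, 8 / (p : ℝ) * ind (Bs p v.1)) * E1 :=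
      PS_prod _ _ fun p _ => PS_term 8 (by norm_num) p _
    have q3 : E2 - 1 ≤ (∑ p ∈ ρ.Ps, 8 / (p : ℝ) * ind (Bt p v.2)) * E2 :=
      PS_prod _ _ fun p _ => PS_term 8 (by norm_num) p _
    have s1 : 0 ≤ ∑ p ∈ ρ.Ps, 8 / (p : ℝ) * ind (Bs p v.1) :=
      sum_nonneg fun p _ => PS_term 8 (by norm_num) p _
    have s2 : 0 ≤ ∑ p ∈ ρ.Ps, 8 / (p : ℝ) * ind (Bt p v.2) :=
      sum_nonneg fun p _ => PS_term 8 (by norm_num) p _
    have i1 : ind (((1 : ℕ) : ℤ) ∣ k) = 1 := ind_pos (by simp)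
    have i2 : ind (v.2 ≡ u * β [ZMOD (1 : ℕ)]) = 1 := ind_pos (by simpa using Int.modEq_one)
    have i3 : ∀ Q : Prop, ind ((1 : ℕ) = 1 ∨ Q) = 1 := fun Q => ind_pos (Or.inl rfl)
    have hne : ∀ p ∈ ρ.Ps, ∀ Q : Prop, ind (p = 1 ∨ Q) = ind Q := fun p hp Q => by
      have := (prime_of_PP hp).ne_one
      simp [this]
    have w1 : ∑ p ∈ ρ.Ps, 8 / (p : ℝ) * W 1 p 1 v =
        ρ.hw Θ k * ((∑ p ∈ ρ.Ps, 8 / (p : ℝ) * ind (Bs p v.1)) * (E3 * E2)) := by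
      rw [sum_mul, mul_sum]
      refine sum_congr rfl fun p hp => ?_
      rw [hW]
      beta_reduce
      rw [← hkd, i1, i2, i3, hne p hp]
      ring
    have w2 : ∑ p ∈ ρ.Ps, 8 / (p : ℝ) * W 1 1 p v =
        ρ.hw Θ k * ((∑ p ∈ ρ.Ps, 8 / (p : ℝ) * ind (Bt p v.2)) * (E3 * E2)) := by
      rw [sum_mul, mul_sum]
      refine sum_congr rfl fun p hp => ?_
      rw [hW]
      beta_reduce
      rw [← hkd, i1, i2, i3, hne p hp]
      ring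
    have w3 : ρ.hw Θ k * ∑ U ∈ DU, ((∏ p ∈ U, p : ℕ) : ℝ) * (ind (((∏ p ∈ U, p : ℕ) : ℤ) ∣ k) *
        ind (((∏ p ∈ U, p : ℕ) : ℤ) ∣ α * v.2 - β) * (E1 * E2)) ≤
        ∑ U ∈ DU, ((∏ p ∈ U, p : ℕ) : ℝ) * W (∏ p ∈ U, p) 1 1 v := by
      rw [mul_sum]
      refine sum_le_sum fun U hU => ?_
      rw [hW]
      beta_reduce
      rw [← hkd, i3, i3]
      set δ := ∏ p ∈ U, p with hδ
      have hd : (δ : ℤ) ∣ k0 := by
        have hsub := mem_powerset.1 (mem_filter.1 hU).1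
        rw [Int.natCast_dvd, hδ]
        refine Finset.prod_primes_dvd _ (fun p hp => (prime_of_PP (mem_pf.1 (hsub hp)).1).prime)
          fun p hp => Int.natCast_dvd.1 (mem_pf.1 (hsub hp)).2
      have j1 : ind ((δ : ℤ) ∣ α * v.2 - β) ≤ ind (v.2 ≡ u * β [ZMOD δ]) := by
        refine ind_mono fun h => (Int.modEq_iff_dvd.2 ?_).symm
        have : v.2 - u * β = u * (α * v.2 - β) + k0 * (v' * v.2) := by
          linear_combination (-v.2) * huv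
        rw [this]
        exact dvd_add (h.mul_left _) (hd.mul_right _)
      have j2 := ind_nonneg ((δ : ℤ) ∣ k)
      have j3 := ind_nonneg ((δ : ℤ) ∣ α * v.2 - β)
      have j4 := ind_nonneg (v.2 ≡ u * β [ZMOD δ])
      calc _ = (δ : ℝ) * (ρ.hw Θ k * ind ((δ : ℤ) ∣ k) * E2) * (ind ((δ : ℤ) ∣ α * v.2 - β) * E1) := by
            ring
        _ ≤ (δ : ℝ) * (ρ.hw Θ k * ind ((δ : ℤ) ∣ k) * E2) * (ind (v.2 ≡ u * β [ZMOD δ]) * E3) := by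
            gcongr
        _ = _ := by ring
    have q4 : E1 * E2 - 1 ≤ (∑ p ∈ ρ.Ps, 8 / (p : ℝ) * ind (Bs p v.1)) * (E3 * E2) +
        (∑ p ∈ ρ.Ps, 8 / (p : ℝ) * ind (Bt p v.2)) * (E3 * E2) := by
      have a1 := mul_le_mul_of_nonneg_right q2 (zero_le_one.trans e2)
      have a2 : (∑ p ∈ ρ.Ps, 8 / (p : ℝ) * ind (Bs p v.1)) * E1 * E2 ≤
          (∑ p ∈ ρ.Ps, 8 / (p : ℝ) * ind (Bs p v.1)) * (E3 * E2) := by
        rw [mul_assoc]; gcongr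
      have a3 : (∑ p ∈ ρ.Ps, 8 / (p : ℝ) * ind (Bt p v.2)) * E2 ≤
          (∑ p ∈ ρ.Ps, 8 / (p : ℝ) * ind (Bt p v.2)) * (E3 * E2) :=
        mul_le_mul_of_nonneg_left (le_mul_of_one_le_left (by linarith) (by linarith)) s2
      linarith
    have hkpos : (0 : ℝ) < (k : ℝ) := by linarith
    have q5 : ρ.hw Θ k / (k : ℝ) ≤ 2 / a * ρ.hw Θ k := by
      rw [div_le_iff₀ hkpos]
      have : (1 : ℝ) ≤ 2 / a * k := by rw [div_mul_eq_mul_div, le_div_iff₀ ha]; linarith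
      calc _ ≤ ρ.hw Θ k * (2 / a * k) := le_mul_of_one_le_right hh this
        _ = _ := by ring
    have hS0 := sum_nonneg (s := DU) (f := fun U => ((∏ p ∈ U, p : ℕ) : ℝ) *
      (ind (((∏ p ∈ U, p : ℕ) : ℤ) ∣ k) * ind (((∏ p ∈ U, p : ℕ) : ℤ) ∣ α * v.2 - β) * (E1 * E2)))
      fun U _ => mul_nonneg (Nat.cast_nonneg _)
        (mul_nonneg (mul_nonneg (ind_nonneg _) (ind_nonneg _)) (by linarith))
    refine (mul_le_mul_of_nonneg_left q1 (div_nonneg hh hkpos.le)).trans ?_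
    refine (mul_le_mul_of_nonneg_right q5 (by linarith)).trans ?_
    rw [mul_assoc]
    refine mul_le_mul_of_nonneg_left ?_ (by positivity)
    rw [w1, w2, mul_add]
    have := mul_le_mul_of_nonneg_left q4 hh
    linarith
  refine (sum_le_sum hpt).trans ?_
  rw [← mul_sum, sum_add_distrib, sum_add_distrib, sum_comm, sum_comm (s := SR a T C0),
    sum_comm (s := SR a T C0)]
  simp only [← mul_sum]
  have hY : 0 ≤ a * K * X := by positivity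
  have z1 : ∑ p ∈ ρ.Ps, 8 / (p : ℝ) * ∑ v ∈ SR a T C0, W 1 p 1 v ≤
      a * K * X * (8 * ∑ p ∈ ρ.Ps, (1 : ℝ) / p ^ 2) := by
    rw [mul_sum, mul_sum]
    refine sum_le_sum fun p hp => ?_
    refine (mul_le_mul_of_nonneg_left (key 1 p 1 squarefree_one (by simp) (by simpa using hy1)
      (Or.inr ⟨hp, rfl⟩) (Or.inl rfl)) (by positivity)).trans (le_of_eq ?_)
    simp only [Nat.primeFactors_one, card_empty, Nat.cast_one]
    ring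
  have z2 : ∑ p ∈ ρ.Ps, 8 / (p : ℝ) * ∑ v ∈ SR a T C0, W 1 1 p v ≤
      a * K * X * (8 * ∑ p ∈ ρ.Ps, (1 : ℝ) / p ^ 2) := by
    rw [mul_sum, mul_sum]
    refine sum_le_sum fun p hp => ?_
    refine (mul_le_mul_of_nonneg_left (key 1 1 p squarefree_one (by simp) (by simpa using hy1)
      (Or.inl rfl) (Or.inr ⟨hp, rfl⟩)) (by positivity)).trans (le_of_eq ?_)
    simp only [Nat.primeFactors_one, card_empty, Nat.cast_one]
    ring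
  have z3 : ∑ U ∈ DU, ((∏ p ∈ U, p : ℕ) : ℝ) * ∑ v ∈ SR a T C0, W (∏ p ∈ U, p) 1 1 v ≤
      a * K * X * ∑ U ∈ DU, (4 : ℝ) ^ U.card / ((∏ p ∈ U, p : ℕ) : ℝ) := by
    rw [mul_sum]
    refine sum_le_sum fun U hU => ?_
    have hsub := mem_powerset.1 (mem_filter.1 hU).1
    have hpr : ∀ p ∈ U, p.Prime := fun p hp => prime_of_PP (mem_pf.1 (hsub hp)).1
    have e := Nat.primeFactors_prod hpr
    have hs := PS_sqf U hpr
    refine (mul_le_mul_of_nonneg_left (key _ 1 1 hs (by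
      rw [e]; exact fun p hp => (mem_pf.1 (hsub hp)).1) (mem_filter.1 hU).2.2
      (Or.inl rfl) (Or.inl rfl)) (Nat.cast_nonneg _)).trans (le_of_eq ?_)
    rw [e]
    have hz : ((∏ p ∈ U, p : ℕ) : ℝ) ≠ 0 := Nat.cast_ne_zero.2 hs.ne_zero
    have e4 : (4 : ℝ) ^ U.card = 2 ^ U.card * 2 ^ U.card := by rw [← mul_pow]; norm_num
    rw [e4, Nat.cast_one]
    field_simp
  have hr1 : 1 ≤ √(ρ.w : ℝ) := one_le_sqrt.2 (by linarith)
  have z4 := PS_sub (ρ.pf k0) ρ.y _ hr1 hsi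
  have z5 : ∑ p ∈ ρ.Ps, (1 : ℝ) / p ^ 2 ≤ 1 / √(ρ.w : ℝ) := by
    refine hL.2.2.2.2.2.1.trans (one_div_le_one_div_of_le (by linarith) ?_)
    rw [sqrt_le_left (by linarith)]
    exact le_self_pow₀ (by linarith) two_ne_zero
  have z6 := mul_le_mul_of_nonneg_left z4 hY
  have z7 := mul_le_mul_of_nonneg_left (mul_le_mul_of_nonneg_left z5 (by norm_num : (0 : ℝ) ≤ 8)) hY
  calc _ ≤ 2 / a * (a * K * X * (8 * (1 / √(ρ.w : ℝ))) + a * K * X * (8 * (1 / √(ρ.w : ℝ))) +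
        a * K * X * (12 * exp 12 / √(ρ.w : ℝ))) :=
      mul_le_mul_of_nonneg_left (by linarith) (by positivity)
    _ = 2 * K * (16 + 12 * exp 12) / √(ρ.w : ℝ) * X := by field_simp; ring

end Pool.Agent.P.MP_8be758_nt.Pd
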