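import Pool.Agent.P.MP_8be758_nt.Pd.IfG

/-! Step PSA. -/

namespace Pool.Agent.P.MP_8be758_nt.Pd

open Finset Real Filter
open Pool.Agent.P.MP_8be758_nt.Par (det)
open Pool.Agent.P.MP_8be758_nt.Avg (rho)

theorem PSA_one {p : ℕ} (hp : p.Prime) {c : ℤ} (d : ℤ) (hc : ¬(p : ℤ) ∣ c) :
    ∑ x ∈ bx p, ind ((p : ℤ) ∣ c * x + d) ≤ 1 := by
  classical
  have hp' : Prime (p : ℤ) := Nat.prime_iff_prime_int.1 hp
  have e : ∑ x ∈ bx p, ind ((p : ℤ) ∣ c * x + d) =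
      (((bx p).filter fun x => (p : ℤ) ∣ c * x + d).card : ℝ) := by
    rw [card_filter]; push_cast
    refine sum_congr rfl fun x _ => ?_
    by_cases h : (p : ℤ) ∣ c * x + d
    · rw [ind_pos h, if_pos h]
    · rw [ind_neg h, if_neg h]
  rw [e]
  have : ((bx p).filter fun x => (p : ℤ) ∣ c * x + d).card ≤ 1 := by
    refine card_le_one.2 fun x hx z hz => ?_
    obtain ⟨hx, hx'⟩ := mem_filter.1 hx
    obtain ⟨hz, hz'⟩ := mem_filter.1 hz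
    simp only [bx, mem_Ico] at hx hz
    have h1 : (p : ℤ) ∣ c * (x - z) := by
      have := dvd_sub hx' hz'
      rwa [show c * x + d - (c * z + d) = c * (x - z) by ring] at this
    have h2 := (hp'.dvd_or_dvd h1).resolve_left hc
    have := Int.eq_zero_of_abs_lt_dvd h2 (abs_lt.2 ⟨by omega, by omega⟩)
    omega
  exact_mod_cast this

/-- two linear conditions -/
def PSA_B (N c d c' d' : ℤ) (p : ℕ) (x : ℤ) : Prop :=
  ¬(p : ℤ) ∣ N ∧ (p : ℤ) ∣ (c * x + d) * (c' * x + d')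

theorem PSA_two {p : ℕ} (hp : p.Prime) {N c c' : ℤ} (d d' : ℤ)
    (hc : ¬(p : ℤ) ∣ N → ¬(p : ℤ) ∣ c ∧ ¬(p : ℤ) ∣ c') :
    (∀ x y, x ≡ y [ZMOD p] → (PSA_B N c d c' d' p x ↔ PSA_B N c d c' d' p y)) ∧
      ∑ x ∈ bx p, ind (PSA_B N c d c' d' p x) ≤ 2 := by
  have hp' : Prime (p : ℤ) := Nat.prime_iff_prime_int.1 hp
  refine ⟨fun x y e => and_congr_right fun _ => ?_, ?_⟩
  · exact Int.ModEq.dvd_iff (by gcongr)
  by_cases h : (p : ℤ) ∣ N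
  · rw [sum_eq_zero fun x _ => ind_neg fun e => e.1 h]; norm_num
  obtain ⟨h1, h2⟩ := hc h
  calc _ ≤ ∑ x ∈ bx p, (ind ((p : ℤ) ∣ c * x + d) + ind ((p : ℤ) ∣ c' * x + d')) := by
        refine sum_le_sum fun x _ => ?_
        have a1 := ind_nonneg ((p : ℤ) ∣ c * x + d)
        have a2 := ind_nonneg ((p : ℤ) ∣ c' * x + d')
        by_cases e : PSA_B N c d c' d' p x
        · rw [ind_pos e]
          rcases hp'.dvd_or_dvd e.2 with e1 | e1 <;> rw [ind_pos e1] <;> linarith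
        · rw [ind_neg e]; linarith
    _ ≤ 2 := by
        rw [sum_add_distrib]
        linarith [PSA_one hp d h1, PSA_one hp d' h2]

theorem PSA_fac (p : ℕ) (P : Prop) : (1 : ℝ) ≤ 1 + 8 / (p : ℝ) * ind P := by
  have := ind_nonneg P
  have : (0 : ℝ) ≤ 8 / (p : ℝ) * ind P := by positivity
  linarith

theorem PSA_Ep (P : Finset ℕ) (B : ℕ → ℤ → Prop) (x : ℤ) : 1 ≤ Ep P 8 B x :=
  Finset.prod_induction _ (fun r : ℝ => 1 ≤ r) (fun _ _ => one_le_mul_of_one_le_of_one_le) le_rfl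
    fun p _ => PSA_fac p _

theorem PSA_En (P : Finset ℕ) (hP : ∀ p ∈ P, p.Prime) (N X : ℤ) (c d c' d' e f e' f' s t : ℤ)
    (hX : X = (e * t + f) * (e' * t + f') * ((c * s + d) * (c' * s + d'))) :
    ∏ p ∈ P.filter fun p : ℕ => ¬(p : ℤ) ∣ N, (1 + 8 / (p : ℝ) * ind ((p : ℤ) ∣ X)) ≤
      Ep P 8 (PSA_B N c d c' d') s * Ep P 8 (PSA_B N e f e' f') t := by
  rw [Ep, Ep, ← prod_mul_distrib, prod_filter]
  refine prod_le_prod (fun p _ => ?_) fun p hp => ?_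
  · split_ifs
    · norm_num
    · linarith [PSA_fac p ((p : ℤ) ∣ X)]
  have a1 := PSA_fac p (PSA_B N c d c' d' p s)
  have a2 := PSA_fac p (PSA_B N e f e' f' p t)
  have a3 : (1 : ℝ) ≤ (1 + 8 / (p : ℝ) * ind (PSA_B N c d c' d' p s)) *
      (1 + 8 / (p : ℝ) * ind (PSA_B N e f e' f' p t)) := one_le_mul_of_one_le_of_one_le a1 a2
  split_ifs with h
  · exact a3
  by_cases hx : (p : ℤ) ∣ X
  · rw [ind_pos hx]
    rw [hX] at hx
    rcases (Nat.prime_iff_prime_int.1 (hP p hp)).dvd_or_dvd hx with e1 | e1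
    · rw [ind_pos (show PSA_B N e f e' f' p t from ⟨h, e1⟩)] at a2 ⊢
      exact le_mul_of_one_le_left (by linarith) a1
    · rw [ind_pos (show PSA_B N c d c' d' p s from ⟨h, e1⟩)] at a1 ⊢
      exact le_mul_of_one_le_right (by linarith) a2
  · rw [ind_neg hx]; linarith

theorem PSA_Gm (ρ : Pr) (D : ℕ) (hw : 12 ≤ ρ.w) (hr : ∀ p ∈ ρ.Ps, rho ρ.A p = 0 ∨ rho ρ.A p = 2)
    (hD : ρ.si D ≤ 1) : 0 ≤ ρ.Gm D ∧ ρ.Gm D ≤ exp (10 / 3) * exp (-(5 / 3) * ρ.La) := by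
  have h2 : ∀ p ∈ ρ.Ps, (rho ρ.A p : ℝ) ≤ 2 := fun p hp => by
    rcases hr p hp with e | e <;> rw [e] <;> norm_num
  have h0 : ∀ p ∈ ρ.Ps.filter fun p => ¬p ∣ D, 0 ≤ 1 - 5 / 3 * (rho ρ.A p : ℝ) / p := fun p hp => by
    have hp := (mem_filter.1 hp).1
    have h3 : (ρ.w : ℝ) < p := lt_of_PP hp
    have h4 : (12 : ℝ) ≤ ρ.w := by exact_mod_cast hw
    rw [sub_nonneg, div_le_one (by linarith)]
    linarith [h2 p hp]
  refine ⟨prod_nonneg h0, ?_⟩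
  calc ρ.Gm D ≤ ∏ p ∈ ρ.Ps.filter fun p => ¬p ∣ D, exp (-(5 / 3) * ((rho ρ.A p : ℝ) / p)) := by
        refine prod_le_prod h0 fun p _ => ?_
        have := add_one_le_exp (-(5 / 3) * ((rho ρ.A p : ℝ) / p))
        rw [mul_div_assoc]; linarith
    _ ≤ _ := by
        rw [← exp_sum, ← exp_add, ← mul_sum, exp_le_exp]
        have e := sum_filter_add_sum_filter_not ρ.Ps (fun p => p ∣ D) fun p => (rho ρ.A p : ℝ) / p
        have e2 : ∑ p ∈ ρ.Ps.filter fun p => p ∣ D, (rho ρ.A p : ℝ) / p ≤ 2 * ρ.si D := by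
          rw [Pr.si, mul_sum]
          have : ρ.pf D = ρ.Ps.filter fun p => p ∣ D :=
            filter_congr fun p _ => Int.natCast_dvd_natCast
          rw [this]
          refine sum_le_sum fun p hp => ?_
          rw [mul_one_div]
          exact div_le_div_of_nonneg_right (h2 p (mem_filter.1 hp).1) (Nat.cast_nonneg _)
        rw [Pr.La]
        linarith

theorem PSA_hw (ρ : Pr) {Θ : ℝ} (h : 0 ≤ Θ) (k : ℤ) : 0 ≤ ρ.hw Θ k :=
  mul_nonneg (pow_nonneg h _) (ind_nonneg _)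

theorem PSA_sum {A B : Finset (ℕ × ℕ)} {n : ℕ} (hc : A.card * B.card = 3 ^ n)
    {S : ℕ × ℕ → ℕ × ℕ → Finset V2} {F G : ℕ × ℕ → ℕ × ℕ → V2 → ℝ} {g M : ℝ} (hg : 0 ≤ g)
    (h1 : ∀ α ∈ A, ∀ β ∈ B, ∀ v ∈ S α β, F α β v ≤ (1 / 3) ^ n * g * G α β v)
    (h2 : ∀ α ∈ A, ∀ β ∈ B, ∑ v ∈ S α β, G α β v ≤ M) :
    ∑ α ∈ A, ∑ β ∈ B, ∑ v ∈ S α β, F α β v ≤ g * M := by
  calc _ ≤ ∑ α ∈ A, ∑ β ∈ B, (1 / 3) ^ n * g * M := by
        refine sum_le_sum fun α ha => sum_le_sum fun β hb => ?_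
        refine (sum_le_sum (h1 α ha β hb)).trans ?_
        rw [← mul_sum]
        exact mul_le_mul_of_nonneg_left (h2 α ha β hb) (by positivity)
    _ = _ := by
        have : (A.card : ℝ) * B.card = 3 ^ n := by exact_mod_cast hc
        simp only [sum_const, nsmul_eq_mul]
        rw [← mul_assoc, this, one_div, inv_pow]
        field_simp

theorem PSA_kpos {ρ : Pr} (hy : 0 < ρ.y) {a : ℤ} {T : ℝ} (h : ρ.Rng a T) {v : V2}
    (hv : v ∈ SR a T 2) : (0 : ℝ) < ((a - v.1 * v.2 : ℤ) : ℝ) := by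
  have h0 := h.1
  have h1 := ((mem_SR (by positivity)).1 hv).2.2.2.1
  have h2 : (0 : ℝ) < a := lt_of_lt_of_le (by positivity) h.2.2.1
  have h3 : 0 < a := by exact_mod_cast h2
  exact_mod_cast (show 0 < a - v.1 * v.2 by omega)

theorem PSA_af (q : ℕ × ℕ × ℕ) (α β : ℕ × ℕ) {v : V2} (h1 : 0 < v.1) (h2 : 0 < v.2) :
    (mkS q α β v).af = ((mkS q α β 0).a : ℤ) - v.1 * v.2 := by
  simp only [Sd.af, mkS, Sd.a, Int.toNat_of_nonneg h1.le, Int.toNat_of_nonneg h2.le]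

theorem p_PSA (hPS : S_PS) (hHS : S_HS) (hSDS : S_SDS) (hLAM : S_LAM) :
    S_PSA := by
  obtain ⟨c1, hPS⟩ := hPS 2 (by norm_num)
  obtain ⟨c2, hHS⟩ := hHS 2 (by norm_num)
  obtain ⟨c3, hSDS⟩ := hSDS
  obtain ⟨c4, hLAM⟩ := hLAM
  refine ⟨c1 + c2 + c3 + c4 + 1, fun A C1 => ?_⟩
  obtain ⟨K1, hK1, hPS⟩ := hPS A C1
  obtain ⟨K2, hK2, hHS⟩ := hHS A C1
  obtain ⟨K3, -, hSDS⟩ := hSDS A C1
  obtain ⟨K4, -, hLAM⟩ := hLAM A C1
  have hE : (1 : ℝ) ≤ exp (10 / 3) := one_le_exp (by norm_num)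
  refine ⟨exp (10 / 3) * exp (10 / 3) * (K1 * K2), one_le_mul_of_one_le_of_one_le
    (one_le_mul_of_one_le_of_one_le hE hE) (one_le_mul_of_one_le_of_one_le hK1 hK2),
    fun z hA hC hz => ?_⟩
  filter_upwards [hPS z hA hC (hz.mono (by omega)), hHS z hA hC (hz.mono (by omega)),
    hSDS z hA hC (hz.mono (by omega)), hLAM z hA hC (hz.mono (by omega)),
    eventually_ge_atTop (1 : ℝ)] with y hPS hHS hSDS hLAM hy
  have hz1 := hz.mono (show 1 ≤ _ by omega)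
  set ρ : Pr := ⟨z, y⟩ with hρ
  have hw : 12 ≤ ρ.w := by
    obtain ⟨-, h2, -, h4, -⟩ := hz1
    show 12 ≤ z.w
    omega
  have hk : ρ.k3 ≠ 0 ∧ ρ.k5 ≠ 0 := by
    obtain ⟨-, -, -, -, -, -, h7, h8, h9, h10, -⟩ := hz1
    show z.k3 ≠ 0 ∧ z.k5 ≠ 0
    omega
  have hy' : 1 ≤ ρ.y := hy
  have hr : ∀ p ∈ ρ.Ps, rho ρ.A p = 0 ∨ rho ρ.A p = 2 := hLAM.2.2.2.1
  clear_value ρ
  obtain rfl : z = ρ.toSt := by rw [hρ]
  obtain rfl : y = ρ.y := by rw [hρ]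
  intro q D1 D2 hq hD
  obtain ⟨s1, -, s3, s4, s5⟩ := hSDS q D1 D2 hq hD
  obtain ⟨hD1, hD2⟩ := DA_pos hD
  have hsw : (1 : ℝ) ≤ √ρ.w := by
    rw [one_le_sqrt]; exact_mod_cast (show 1 ≤ ρ.w by omega)
  obtain ⟨g0, g1⟩ := PSA_Gm ρ (D1 * D2) hw hr
    (hD.2.2.2.2.2.2.trans (div_le_one_of_le₀ hsw (by linarith)))
  set G := ρ.Gm (D1 * D2) with hG
  have hM : ∀ σ ∈ ρ.SD q D1 D2, 0 ≤ ρ.Mw (D1 * D2) σ ∧ ρ.Mw (D1 * D2) σ ≤
      (1 / 3) ^ ρ.om (D1 * D2 : ℕ) * (G * 2 ^ ρ.U) * (ρ.hw (1 / 3) σ.af / σ.af) := fun σ hσ => by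
    obtain ⟨a1, a2⟩ := (s4 σ hσ).2.2.2.2.2.2.2.2 (1 / 6) (by norm_num)
    rw [show (2 : ℝ) * (1 / 6) = 1 / 3 by norm_num] at a2
    refine ⟨mul_nonneg (by positivity) a1, ?_⟩
    calc _ ≤ (1 / 3) ^ ρ.om (D1 * D2 : ℕ) * G * (2 ^ ρ.U * (ρ.hw (1 / 3) σ.af / σ.af)) :=
          mul_le_mul_of_nonneg_left a2 (by positivity)
      _ = _ := by ring
  have hT : ∑ σ ∈ ρ.SD q D1 D2, ρ.Mw (D1 * D2) σ ≤
      G * 2 ^ ρ.U * (K2 * exp ((1 / 3 / 2 - 1) * ρ.La)) := by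
    rw [s5]
    refine PSA_sum s1 (by positivity) (fun α ha β hb v hv => ?_)
      fun α ha β hb => hHS _ _ (1 / 3) (s3 α ha β hb 0).1 (by norm_num) (by norm_num)
    by_cases h : 0 < v.1 ∧ 0 < v.2 ∧ mkS q α β v ∈ ρ.SD q D1 D2
    · rw [ind_pos h, one_mul, ← PSA_af q α β h.1 h.2.1]
      exact (hM _ h.2.2).2
    · rw [ind_neg h, zero_mul]
      have := PSA_kpos (by linarith) (s3 α ha β hb 0).1 hv
      have := PSA_hw ρ (show (0 : ℝ) ≤ 1 / 3 by norm_num) (((mkS q α β 0).a : ℤ) - v.1 * v.2)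
      positivity
  have hq' : ∀ p ∈ ρ.Ps, p.Coprime q.1 ∧ p.Coprime q.2.1 ∧ p.Coprime q.2.2 := fun p hp => by
    obtain ⟨b1, -, b2⟩ := (mem_PP (by linarith)).1 hp
    have key : ∀ {r : ℕ} {u u' : ℝ}, r ∈ PP u u' → ρ.y ≤ u → p.Coprime r := fun hr hu =>
      (Nat.coprime_primes b1 (prime_of_PP hr)).2 fun e => by
        have := lt_of_PP hr
        rw [← e] at this
        linarith
    exact ⟨key hq.1 (le_self_pow₀ hy' hk.2), key hq.2.1 (le_self_pow₀ hy' hk.1), key hq.2.2 le_rfl⟩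
  have hI : ∀ σ ∈ ρ.SD q D1 D2, ∑ τ ∈ ρ.SD q D1 D2, ρ.Mw (D1 * D2) τ *
      (ind ((σ.dl τ : ℝ) ≤ ρ.y) * (σ.dl τ * ρ.En (D1 * D2) σ τ - 1)) ≤
      G * 2 ^ ρ.U * (K1 / √ρ.w * exp ((1 / 3 / 2 - 1) * ρ.La)) := fun σ hσ => by
    obtain ⟨-, t2, -, -, -, t3, t4, -⟩ := s4 σ hσ
    obtain ⟨eq, u1, u2, -, -, -, -, u3, u4, u5, -, -, -, u6⟩ := (mem_SD hD1 hD2).1 hσ
    obtain ⟨q1, q3, q4, e1, a1, e2, a2, s, t⟩ := σ
    subst eq
    set σ : Sd := ⟨q1, q3, q4, e1, a1, e2, a2, s, t⟩ with hσd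
    set N : ℤ := (D1 * D2 : ℕ) * ((s : ℤ) * t) with hN
    rw [s5]
    refine PSA_sum s1 (G := fun α β v =>
      ρ.hw (1 / 3) (((mkS (q1, q3, q4) α β 0).a : ℤ) - v.1 * v.2) /
        ((((mkS (q1, q3, q4) α β 0).a : ℤ) - v.1 * v.2 : ℤ) : ℝ) *
      (ind ((Int.gcd (Int.gcd σ.af (((mkS (q1, q3, q4) α β 0).a : ℤ) - v.1 * v.2))
          ((e1 * q3 * a1 * (β.1 * q4) : ℕ) * v.2 - (e2 * q4 * t * (α.1 * q3 * α.2) : ℕ)) : ℝ) ≤ ρ.y) *
        ((Int.gcd (Int.gcd σ.af (((mkS (q1, q3, q4) α β 0).a : ℤ) - v.1 * v.2))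
          ((e1 * q3 * a1 * (β.1 * q4) : ℕ) * v.2 - (e2 * q4 * t * (α.1 * q3 * α.2) : ℕ)) : ℝ) *
        (Ep ρ.Ps 8 (PSA_B N (e2 * q4 * t * (α.1 * q3) : ℕ) (-(e1 * q3 * a1 * (β.1 * q4 * β.2 * q1) : ℕ))
            (e2 * q4 * a2 * q1 * (α.1 * q3) : ℕ) (-(e1 * q3 * s * (β.1 * q4 * β.2 * q1) : ℕ))) v.1 *
          Ep ρ.Ps 8 (PSA_B N (e1 * q3 * a1 * (β.1 * q4) : ℕ) (-(e2 * q4 * t * (α.1 * q3 * α.2) : ℕ))
            (e1 * q3 * s * (β.1 * q4) : ℕ) (-(e2 * q4 * a2 * q1 * (α.1 * q3 * α.2) : ℕ))) v.2) - 1)))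
      (by positivity) (fun α ha β hb v hv => ?_) fun α ha β hb => ?_
    · set k' : ℤ := ((mkS (q1, q3, q4) α β 0).a : ℤ) - v.1 * v.2 with hk'
      set δ : ℕ := Int.gcd (Int.gcd σ.af k')
          ((e1 * q3 * a1 * (β.1 * q4) : ℕ) * v.2 - (e2 * q4 * t * (α.1 * q3 * α.2) : ℕ)) with hδ
      have hδ1 : (1 : ℝ) ≤ δ := by
        have : 0 < Int.gcd σ.af k' := Int.gcd_pos_of_ne_zero_left _ t2.ne'
        exact_mod_cast Int.gcd_pos_of_ne_zero_left _ (by exact_mod_cast this.ne')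
      set E := Ep ρ.Ps 8 (PSA_B N (e2 * q4 * t * (α.1 * q3) : ℕ)
            (-(e1 * q3 * a1 * (β.1 * q4 * β.2 * q1) : ℕ))
            (e2 * q4 * a2 * q1 * (α.1 * q3) : ℕ) (-(e1 * q3 * s * (β.1 * q4 * β.2 * q1) : ℕ))) v.1 *
          Ep ρ.Ps 8 (PSA_B N (e1 * q3 * a1 * (β.1 * q4) : ℕ) (-(e2 * q4 * t * (α.1 * q3 * α.2) : ℕ))
            (e1 * q3 * s * (β.1 * q4) : ℕ) (-(e2 * q4 * a2 * q1 * (α.1 * q3 * α.2) : ℕ))) v.2 with hEd
      have hE1 : 1 ≤ E := one_le_mul_of_one_le_of_one_le (PSA_Ep _ _ _) (PSA_Ep _ _ _)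
      have hb0 : 0 ≤ ind ((δ : ℝ) ≤ ρ.y) * (δ * E - 1) :=
        mul_nonneg (ind_nonneg _) (sub_nonneg.2 (one_le_mul_of_one_le_of_one_le hδ1 hE1))
      by_cases h : 0 < v.1 ∧ 0 < v.2 ∧ mkS (q1, q3, q4) α β v ∈ ρ.SD (q1, q3, q4) D1 D2
      · obtain ⟨m0, m1⟩ := hM _ h.2.2
        have eaf := PSA_af (q1, q3, q4) α β h.1 h.2.1
        have ed : σ.dl (mkS (q1, q3, q4) α β v) = δ := by
          rw [Sd.dl, eaf, hδ, ← Int.gcd_neg]
          congr 1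
          simp only [hσd, det, Sd.ut, Sd.E1, Sd.E2, mkS]
          push_cast
          rw [Int.toNat_of_nonneg h.2.1.le]
          ring
        have eE : ρ.En (D1 * D2) σ (mkS (q1, q3, q4) α β v) ≤ E := by
          refine PSA_En ρ.Ps (fun p hp => prime_of_PP hp) N _ _ _ _ _ _ _ _ _ _ _ ?_
          simp only [hσd, Sd.Xi, det, Sd.ut, Sd.us, Sd.E1, Sd.E2, mkS]
          push_cast
          rw [Int.toNat_of_nonneg h.2.1.le, Int.toNat_of_nonneg h.1.le]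
          ring
        rw [ind_pos h, one_mul, ed, ← mul_assoc (_ * (G * 2 ^ ρ.U))]
        rw [eaf] at m1
        refine le_trans (mul_le_mul_of_nonneg_left ?_ m0) (mul_le_mul_of_nonneg_right m1 hb0)
        refine mul_le_mul_of_nonneg_left ?_ (ind_nonneg _)
        have := mul_le_mul_of_nonneg_left eE (show (0 : ℝ) ≤ δ by linarith)
        linarith
      · rw [ind_neg h, zero_mul]
        have := PSA_kpos (by linarith) (s3 α ha β hb 0).1 hv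
        have := PSA_hw ρ (show (0 : ℝ) ≤ 1 / 3 by norm_num) k'
        positivity
    · have v1 : α.1 ∣ D1 := Nat.dvd_of_mem_divisors (mem_product.1 (mem_filter.1 ha).1).1
      have v2 : β.1 ∣ D2 := Nat.dvd_of_mem_divisors (mem_product.1 (mem_filter.1 hb).1).1
      have cop : ∀ {m : ℕ}, m.Coprime (D1 * D2) → m.Coprime e1 ∧ m.Coprime a1 ∧ m.Coprime e2 ∧
          m.Coprime a2 ∧ m.Coprime α.1 ∧ m.Coprime β.1 := fun {m} hm => by
        have w1 : m.Coprime D1 := hm.coprime_mul_right_right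
        have w2 : m.Coprime D2 := hm.coprime_mul_left_right
        exact ⟨w1.coprime_dvd_right (dvd_of_mul_right_dvd u1),
          w1.coprime_dvd_right (dvd_of_mul_left_dvd u1),
          w2.coprime_dvd_right (dvd_of_mul_right_dvd u2),
          w2.coprime_dvd_right (dvd_of_mul_left_dvd u2),
          w1.coprime_dvd_right v1, w2.coprime_dvd_right v2⟩
      have un : ∀ p ∈ ρ.Ps, ¬(p : ℤ) ∣ N →
          (¬(p : ℤ) ∣ (e2 * q4 * t * (α.1 * q3) : ℕ) ∧ ¬(p : ℤ) ∣ (e2 * q4 * a2 * q1 * (α.1 * q3) : ℕ)) ∧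
          (¬(p : ℤ) ∣ (e1 * q3 * a1 * (β.1 * q4) : ℕ) ∧ ¬(p : ℤ) ∣ (e1 * q3 * s * (β.1 * q4) : ℕ)) := by
        intro p hp h
        have pp := prime_of_PP hp
        have h' : p.Coprime (D1 * D2 * (s * t)) := pp.coprime_iff_not_dvd.2 fun e =>
          h (by rw [hN]; exact_mod_cast e)
        obtain ⟨x1, x2, x3, x4, x5, x6⟩ := cop h'.coprime_mul_right_right
        have x7 : p.Coprime s := h'.coprime_mul_left_right.coprime_mul_right_right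
        have x8 : p.Coprime t := h'.coprime_mul_left_right.coprime_mul_left_right
        obtain ⟨x9, x10, x11⟩ := hq' p hp
        simp only [Int.natCast_dvd_natCast, ← pp.coprime_iff_not_dvd, Nat.coprime_mul_iff_right]
        tauto
      refine hPS _ σ.af _ _ _ (1 / 3) _ _ (s3 α ha β hb 0).1 (by norm_num) (by norm_num) u4
        (fun p hp h => (u5 p hp h).1) (le_trans ?_ u6) ?_ (fun p hp => ?_)
        fun p hp => PSA_two (prime_of_PP hp) _ _ fun h => (un p hp h).2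
      · refine sum_le_sum_of_subset_of_nonneg (fun p hp => ?_) fun p _ _ => by positivity
        rw [mem_pf] at hp ⊢
        exact ⟨hp.1, hp.2.mul_left _⟩
      · obtain ⟨x1, x2, -, -, -, x6⟩ := cop u3.coprime_mul_left
        have x3 : σ.af.natAbs.Coprime q3 :=
          ((prime_of_PP hq.2.1).coprime_iff_not_dvd.2 fun e => t3 (Int.natCast_dvd.2 e)).symm
        have x4 : σ.af.natAbs.Coprime q4 :=
          ((prime_of_PP hq.2.2).coprime_iff_not_dvd.2 fun e => t4 (Int.natCast_dvd.2 e)).symm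
        rw [Int.isCoprime_iff_gcd_eq_one, Int.gcd_comm, Int.gcd, Int.natAbs_natCast]
        exact ((x1.mul_right x3).mul_right x2).mul_right (x6.mul_right x4)
      · obtain ⟨x1, x2⟩ := PSA_two (prime_of_PP hp) (-(e1 * q3 * a1 * (β.1 * q4 * β.2 * q1) : ℕ))
          (-(e1 * q3 * s * (β.1 * q4 * β.2 * q1) : ℕ)) fun h => (un p hp h).1
        exact ⟨x1, x2.trans (by norm_num)⟩
  calc _ ≤ ∑ σ ∈ ρ.SD q D1 D2, ρ.Mw (D1 * D2) σ *
        (G * 2 ^ ρ.U * (K1 / √ρ.w * exp ((1 / 3 / 2 - 1) * ρ.La))) := by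
        refine sum_le_sum fun σ hσ => ?_
        simp only [mul_assoc (ρ.Mw (D1 * D2) σ)]
        rw [← mul_sum]
        exact mul_le_mul_of_nonneg_left (hI σ hσ) (hM σ hσ).1
    _ ≤ G * 2 ^ ρ.U * (K2 * exp ((1 / 3 / 2 - 1) * ρ.La)) *
        (G * 2 ^ ρ.U * (K1 / √ρ.w * exp ((1 / 3 / 2 - 1) * ρ.La))) := by
        rw [← sum_mul]
        exact mul_le_mul_of_nonneg_right hT (by positivity)
    _ ≤ exp (10 / 3) * exp (-(5 / 3) * ρ.La) * 2 ^ ρ.U * (K2 * exp ((1 / 3 / 2 - 1) * ρ.La)) *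
        (exp (10 / 3) * exp (-(5 / 3) * ρ.La) * 2 ^ ρ.U *
          (K1 / √ρ.w * exp ((1 / 3 / 2 - 1) * ρ.La))) := by gcongr
    _ = _ := by
        have e : exp (-5 * ρ.La) = exp (-(5 / 3) * ρ.La) * exp ((1 / 3 / 2 - 1) * ρ.La) *
            (exp (-(5 / 3) * ρ.La) * exp ((1 / 3 / 2 - 1) * ρ.La)) := by
          simp only [← exp_add]; congr 1; ring
        rw [e, show (4 : ℝ) = 2 * 2 by norm_num, mul_pow]
        ring

end Pool.Agent.P.MP_8be758_nt.Pd
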