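import Pool.Agent.P.MP_8be758_nt.Pd.IfG

/-! Step PSB. -/

namespace Pool.Agent.P.MP_8be758_nt.Pd

open Finset Real Filter
open Pool.Agent.P.MP_8be758_nt.Par (det)
open Pool.Agent.P.MP_8be758_nt.Avg (rho)

/-- the arithmetic of a vanishing cross determinant -/
theorem PSB_arith {D1 D2 e1 a1 e2 a2 e1' a1' e2' a2' t t' : ℕ} (hc : D1.Coprime D2)
    (h1 : e1 * a1 ∣ D1) (h2 : e2 * a2 ∣ D2) (h1' : e1' * a1' ∣ D1) (h2' : e2' * a2' ∣ D2)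
    (hD1 : 0 < D1) (ht : t.Coprime (D1 * D2)) (ht' : t'.Coprime (D1 * D2)) (ht0 : 0 < t)
    (he : e1 * a1 * e2' * t' = e2 * (e1' * a1') * t) :
    t = t' ∧ (a1 * a2 = a1' * a2' → e1 = e1' ∧ a1 = a1' ∧ e2 = e2' ∧ a2 = a2') := by
  have d2 : e2 ∣ D2 := dvd_of_mul_right_dvd h2
  have d2' : e2' ∣ D2 := dvd_of_mul_right_dvd h2'
  have c1 : t.Coprime (e1 * a1 * e2') := ht.coprime_dvd_right (mul_dvd_mul h1 d2')
  have c2 : t'.Coprime (e2 * (e1' * a1')) :=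
    ht'.coprime_dvd_right (by rw [mul_comm e2]; exact mul_dvd_mul h1' d2)
  have tt : t = t' := by
    refine Nat.dvd_antisymm (c1.dvd_of_dvd_mul_left ?_) (c2.dvd_of_dvd_mul_left ?_)
    · rw [he]; exact dvd_mul_left _ _
    · rw [← he]; exact dvd_mul_left _ _
  refine ⟨tt, fun hm => ?_⟩
  subst tt
  have he2 : e1 * a1 * e2' = e2 * (e1' * a1') := Nat.eq_of_mul_eq_mul_right ht0 he
  have k1 : (e1 * a1).Coprime e2 := (hc.coprime_dvd_left h1).coprime_dvd_right d2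
  have k2 : (e1' * a1').Coprime e2' := (hc.coprime_dvd_left h1').coprime_dvd_right d2'
  have ee : e1 * a1 = e1' * a1' := by
    refine Nat.dvd_antisymm (k1.dvd_of_dvd_mul_left ?_) (k2.dvd_of_dvd_mul_left ?_)
    · rw [← he2]; exact dvd_mul_right _ _
    · rw [mul_comm e2', he2]; exact dvd_mul_left _ _
  have p1 : 0 < e1 * a1 := Nat.pos_of_dvd_of_pos h1 hD1
  have pa : 0 < a1 := Nat.pos_of_mul_pos_left p1
  have k3 : a1.Coprime a2' :=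
    (hc.coprime_dvd_left (dvd_of_mul_left_dvd h1)).coprime_dvd_right (dvd_of_mul_left_dvd h2')
  have k4 : a1'.Coprime a2 :=
    (hc.coprime_dvd_left (dvd_of_mul_left_dvd h1')).coprime_dvd_right (dvd_of_mul_left_dvd h2)
  have aa : a1 = a1' := by
    refine Nat.dvd_antisymm (k3.dvd_of_dvd_mul_right ?_) (k4.dvd_of_dvd_mul_right ?_)
    · rw [← hm]; exact dvd_mul_right _ _
    · rw [hm]; exact dvd_mul_right _ _
  subst aa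
  refine ⟨Nat.eq_of_mul_eq_mul_right pa ee, rfl, ?_, Nat.eq_of_mul_eq_mul_left pa hm⟩
  rw [← ee, mul_comm e2] at he2
  exact (Nat.eq_of_mul_eq_mul_left p1 he2).symm

/-- the reduced pair function -/
noncomputable def PSB_F (ρ : Pr) (σ τ : Sd) : ℝ :=
  ind (τ ≠ σ ∧ ρ.y < (σ.dl τ : ℝ)) * (σ.dl τ : ℝ) / ((σ.af : ℝ) * (τ.af : ℝ))

theorem PSB_af (q : ℕ × ℕ × ℕ) (α β : ℕ × ℕ) {v : V2} (h1 : 0 < v.1) (h2 : 0 < v.2) :
    (mkS q α β v).af = ((mkS q α β 0).a : ℤ) - v.1 * v.2 := by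
  simp only [Sd.af, mkS, Sd.a, Int.toNat_of_nonneg h1.le, Int.toNat_of_nonneg h2.le]

theorem PSB_a (q : ℕ × ℕ × ℕ) (α β : ℕ × ℕ) (v : V2) :
    ((mkS q α β v).a : ℤ) = (q.1 : ℤ) * ((α.2 * β.2 : ℕ) : ℤ) := by
  simp only [mkS, Sd.a]; push_cast; ring

theorem PSB_det (q : ℕ × ℕ × ℕ) (α β α' β' : ℕ × ℕ) {v v' : V2} (h2 : 0 < v.2) (h2' : 0 < v'.2) :
    det (mkS q α β v).ut (mkS q α' β' v').ut =
      -(((α.1 * α.2 * q.2.1 * (β'.1 * q.2.2) : ℕ) : ℤ) * v'.2 -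
        ((α'.1 * α'.2 * q.2.1 * (β.1 * q.2.2) : ℕ) : ℤ) * v.2) := by
  simp only [det, Sd.ut, mkS, Sd.E1, Sd.E2]
  push_cast
  rw [Int.toNat_of_nonneg h2.le, Int.toNat_of_nonneg h2'.le]
  ring

theorem PSB_pt (ρ : Pr) {q : ℕ × ℕ × ℕ} {D1 D2 : ℕ} (hq : ρ.QR q) (hD : ρ.DA D1 D2)
    (hco : ∀ σ ∈ ρ.SD q D1 D2, IsCoprime (σ.a : ℤ) σ.af)
    (α β α' β' : ℕ × ℕ) (v v' : V2) (k k' x x' r m m' : ℤ)
    (hr : r = q.1) (hm : m = ((α.2 * β.2 : ℕ) : ℤ)) (hm' : m' = ((α'.2 * β'.2 : ℕ) : ℤ))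
    (hk : k = r * m - v.1 * v.2) (hk' : k' = r * m' - v'.1 * v'.2)
    (hx : x = ((α.1 * α.2 * q.2.1 * (β'.1 * q.2.2) : ℕ) : ℤ))
    (hx' : x' = ((α'.1 * α'.2 * q.2.1 * (β.1 * q.2.2) : ℕ) : ℤ))
    (k0 : 0 ≤ k) (k0' : 0 ≤ k') :
    ind (0 < v.1 ∧ 0 < v.2 ∧ mkS q α β v ∈ ρ.SD q D1 D2) *
      (ind (0 < v'.1 ∧ 0 < v'.2 ∧ mkS q α' β' v' ∈ ρ.SD q D1 D2) *
        PSB_F ρ (mkS q α β v) (mkS q α' β' v')) ≤
    ind (x * v'.2 ≠ x' * v.2 ∧ ρ.y < (Int.gcd (Int.gcd k k') (x * v'.2 - x' * v.2) : ℝ)) *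
      (Int.gcd (Int.gcd k k') (x * v'.2 - x' * v.2) : ℝ) / ((k : ℝ) * (k' : ℝ)) +
    ind (v.2 = v'.2 ∧ ¬(m = m' ∧ v.1 = v'.1) ∧ IsCoprime (r * m) k ∧ IsCoprime (r * m') k') *
      (Int.gcd k k' : ℝ) / ((k : ℝ) * (k' : ℝ)) := by
  have kk : (0 : ℝ) ≤ (k : ℝ) * (k' : ℝ) := by positivity
  have n1 : 0 ≤ ind (x * v'.2 ≠ x' * v.2 ∧
      ρ.y < (Int.gcd (Int.gcd k k') (x * v'.2 - x' * v.2) : ℝ)) *
      (Int.gcd (Int.gcd k k') (x * v'.2 - x' * v.2) : ℝ) / ((k : ℝ) * (k' : ℝ)) :=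
    div_nonneg (mul_nonneg (ind_nonneg _) (Nat.cast_nonneg _)) kk
  have n2 : 0 ≤ ind (v.2 = v'.2 ∧ ¬(m = m' ∧ v.1 = v'.1) ∧ IsCoprime (r * m) k ∧
      IsCoprime (r * m') k') * (Int.gcd k k' : ℝ) / ((k : ℝ) * (k' : ℝ)) :=
    div_nonneg (mul_nonneg (ind_nonneg _) (Nat.cast_nonneg _)) kk
  by_cases h : 0 < v.1 ∧ 0 < v.2 ∧ mkS q α β v ∈ ρ.SD q D1 D2
  swap
  · rw [ind_neg h, zero_mul]; exact add_nonneg n1 n2
  by_cases h' : 0 < v'.1 ∧ 0 < v'.2 ∧ mkS q α' β' v' ∈ ρ.SD q D1 D2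
  swap
  · rw [ind_neg h', zero_mul, mul_zero]; exact add_nonneg n1 n2
  rw [ind_pos h, ind_pos h', one_mul, one_mul]
  obtain ⟨s0, t0, hs⟩ := h
  obtain ⟨s0', t0', hs'⟩ := h'
  have e1 : (mkS q α β v).af = k := by rw [PSB_af q α β s0 t0, PSB_a, hk, hr, hm]
  have e2 : (mkS q α' β' v').af = k' := by rw [PSB_af q α' β' s0' t0', PSB_a, hk', hr, hm']
  have e3 : (mkS q α β v).dl (mkS q α' β' v') =
      Int.gcd (Int.gcd k k') (x * v'.2 - x' * v.2) := by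
    rw [Sd.dl, e1, e2, PSB_det q α β α' β' t0 t0', Int.gcd_neg, hx, hx']
  unfold PSB_F
  rw [e1, e2, e3]
  by_cases hF : mkS q α' β' v' ≠ mkS q α β v ∧
      ρ.y < (Int.gcd (Int.gcd k k') (x * v'.2 - x' * v.2) : ℝ)
  swap
  · rw [ind_neg hF, zero_mul, zero_div]; exact add_nonneg n1 n2
  rw [ind_pos hF]
  by_cases hxx : x * v'.2 = x' * v.2
  swap
  · rw [ind_pos (P := x * v'.2 ≠ x' * v.2 ∧
      ρ.y < (Int.gcd (Int.gcd k k') (x * v'.2 - x' * v.2) : ℝ)) ⟨hxx, hF.2⟩]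
    linarith
  obtain ⟨p1, p2⟩ := DA_pos hD
  obtain ⟨-, b1, b2, -, -, -, -, b7, -⟩ := (mem_SD p1 p2).1 hs
  obtain ⟨-, b1', b2', -, -, -, -, b7', -⟩ := (mem_SD p1 p2).1 hs'
  have q3 : 0 < q.2.1 := (prime_of_PP hq.2.1).pos
  have q4 : 0 < q.2.2 := (prime_of_PP hq.2.2).pos
  have he : α.1 * α.2 * β'.1 * v'.2.toNat = β.1 * (α'.1 * α'.2) * v.2.toNat := by
    refine Nat.eq_of_mul_eq_mul_left (Nat.mul_pos q3 q4) ?_
    have : ((q.2.1 * q.2.2 * (α.1 * α.2 * β'.1 * v'.2.toNat) : ℕ) : ℤ) =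
        ((q.2.1 * q.2.2 * (β.1 * (α'.1 * α'.2) * v.2.toNat) : ℕ) : ℤ) := by
      rw [hx, hx'] at hxx
      push_cast at hxx ⊢
      rw [Int.toNat_of_nonneg t0.le, Int.toNat_of_nonneg t0'.le]
      linear_combination hxx
    exact_mod_cast this
  obtain ⟨g1, g2⟩ := PSB_arith (Nat.coprime_of_squarefree_mul hD.1) b1 b2 b1' b2' p1
    (b7.coprime_dvd_left ((dvd_mul_left _ _).trans (dvd_mul_right _ _)))
    (b7'.coprime_dvd_left ((dvd_mul_left _ _).trans (dvd_mul_right _ _)))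
    (by simp only [mkS]; omega) he
  have tt : v.2 = v'.2 := by simp only [mkS] at g1; omega
  have hN : v.2 = v'.2 ∧ ¬(m = m' ∧ v.1 = v'.1) ∧ IsCoprime (r * m) k ∧ IsCoprime (r * m') k' := by
    refine ⟨tt, fun hh => hF.1 ?_, ?_, ?_⟩
    · have hmm : α.2 * β.2 = α'.2 * β'.2 := by
        have := hh.1
        rw [hm, hm'] at this
        exact_mod_cast this
      obtain ⟨f1, f2, f3, f4⟩ := g2 hmm
      simp only [mkS] at f1 f2 f3 f4 ⊢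
      rw [f1, f2, f3, f4, hh.2, tt]
    · have := hco _ hs
      rwa [e1, PSB_a, ← hr, ← hm] at this
    · have := hco _ hs'
      rwa [e2, PSB_a, ← hr, ← hm'] at this
  rw [ind_pos hN]
  have e4 : Int.gcd (Int.gcd k k') (x * v'.2 - x' * v.2) = Int.gcd k k' := by
    rw [hxx, sub_self, Int.gcd_zero_right, Int.natAbs_natCast]
  rw [e4] at n1 ⊢
  linarith

theorem PSB_asg {D : ℕ} {α : ℕ × ℕ} (h : α ∈ Asg D) :
    0 < α.1 ∧ 0 < α.2 ∧ α.1 ≤ D ∧ α.2 ≤ D ∧ α.1 * α.2 ≤ D := by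
  simp only [Asg, mem_filter, mem_product, Nat.mem_divisors] at h
  obtain ⟨⟨⟨h1, h0⟩, h2, -⟩, h3⟩ := h
  have hD := Nat.pos_of_ne_zero h0
  exact ⟨Nat.pos_of_dvd_of_pos h1 hD, Nat.pos_of_dvd_of_pos h2 hD, Nat.le_of_dvd hD h1,
    Nat.le_of_dvd hD h2, Nat.le_of_dvd hD h3⟩

theorem PSB_grow (B : ℝ) : ∀ᶠ y : ℝ in atTop, B * log y ^ 13 ≤ √y := by
  have h := (isLittleO_log_rpow_rpow_atTop (13 : ℝ) (s := 1 / 2) (by norm_num)).bound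
    (show 0 < 1 / (|B| + 1) by positivity)
  filter_upwards [h, eventually_ge_atTop 1] with y h1 h2
  have l0 : 0 ≤ log y := log_nonneg h2
  have e : log y ^ (13 : ℝ) = log y ^ 13 := by
    rw [← rpow_natCast]; norm_num
  rw [e, norm_of_nonneg (by positivity), norm_of_nonneg (by positivity), ← sqrt_eq_rpow] at h1
  have h3 : (|B| + 1) * log y ^ 13 ≤ √y := by
    have := mul_le_mul_of_nonneg_left h1 (show 0 ≤ |B| + 1 by positivity)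
    rwa [← mul_assoc, mul_one_div_cancel (by positivity), one_mul] at this
  have h4 : B * log y ^ 13 ≤ (|B| + 1) * log y ^ 13 :=
    mul_le_mul_of_nonneg_right (by linarith [le_abs_self B]) (by positivity)
  linarith

theorem PSB_En (ρ : Pr) (D : ℕ) (σ τ : Sd) :
    0 ≤ ρ.En D σ τ ∧ ρ.En D σ τ ≤ exp (8 * ∑ p ∈ ρ.Ps, (1 : ℝ) / p) := by
  have h0 : ∀ p : ℕ, 0 ≤ 8 / (p : ℝ) * ind ((p : ℤ) ∣ σ.Xi τ) := fun p =>
    mul_nonneg (by positivity) (ind_nonneg _)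
  refine ⟨prod_nonneg fun p _ => by linarith [h0 p], ?_⟩
  unfold Pr.En
  calc _ ≤ ∏ p ∈ ρ.Ps.filter fun p : ℕ => ¬(p : ℤ) ∣ D * (σ.s * σ.t), exp (8 * (1 / (p : ℝ))) := by
        refine prod_le_prod (fun p _ => by linarith [h0 p]) fun p _ => ?_
        have h1 : 8 / (p : ℝ) * ind ((p : ℤ) ∣ σ.Xi τ) ≤ 8 * (1 / (p : ℝ)) := by
          have := mul_le_mul_of_nonneg_left (ind_le_one ((p : ℤ) ∣ σ.Xi τ))
            (show 0 ≤ 8 / (p : ℝ) by positivity)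
          rw [mul_one_div]; linarith
        linarith [add_one_le_exp (8 * (1 / (p : ℝ)))]
    _ = exp (8 * ∑ p ∈ ρ.Ps.filter fun p : ℕ => ¬(p : ℤ) ∣ D * (σ.s * σ.t), (1 : ℝ) / p) := by
        rw [mul_sum, exp_sum]
    _ ≤ _ := by
        refine exp_le_exp.2 (mul_le_mul_of_nonneg_left ?_ (by norm_num))
        exact sum_le_sum_of_subset_of_nonneg (filter_subset _ _) fun p _ _ => by positivity

theorem PSB_Gm (ρ : Pr) (D : ℕ) (hw : 12 ≤ ρ.w) (hr : ∀ p ∈ ρ.Ps, rho ρ.A p = 0 ∨ rho ρ.A p = 2) :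
    0 ≤ ρ.Gm D ∧ ρ.Gm D ≤ 1 := by
  have h : ∀ p ∈ ρ.Ps.filter fun p => ¬p ∣ D, 0 ≤ 1 - 5 / 3 * (rho ρ.A p : ℝ) / p ∧
      1 - 5 / 3 * (rho ρ.A p : ℝ) / p ≤ 1 := by
    intro p hp
    have hp' := (mem_filter.1 hp).1
    have h1 : (12 : ℝ) < p := lt_of_le_of_lt (by exact_mod_cast hw) (lt_of_PP hp')
    have h2 : (rho ρ.A p : ℝ) ≤ 2 := by rcases hr p hp' with e | e <;> rw [e] <;> norm_num
    have h3 : 0 ≤ 5 / 3 * (rho ρ.A p : ℝ) / p := by positivity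
    have h4 : 5 / 3 * (rho ρ.A p : ℝ) / p ≤ 1 := by
      rw [div_le_one (by linarith)]; linarith
    constructor <;> linarith
  exact ⟨prod_nonneg fun p hp => (h p hp).1,
    prod_le_one (fun p hp => (h p hp).1) fun p hp => (h p hp).2⟩

theorem PSB_hw (ρ : Pr) (k : ℤ) : ρ.hw (2 * (1 / 6)) k ≤ 1 := by
  unfold Pr.hw
  exact mul_le_one₀ (pow_le_one₀ (by norm_num) (by norm_num)) (ind_nonneg _) (ind_le_one _)

theorem p_PSB (hCR : S_CR) (hND : S_ND) (hSDS : S_SDS) (hLAM : S_LAM) :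
    S_PSB := by
  obtain ⟨c1, H1⟩ := hCR 2 (by norm_num)
  obtain ⟨c2, H2⟩ := hND 2 (by norm_num)
  obtain ⟨c3, H3⟩ := hSDS
  obtain ⟨c4, H4⟩ := hLAM
  refine ⟨c1 + c2 + c3 + c4 + 1, fun A C1 => ⟨1, le_rfl, fun z hA hC hz => ?_⟩⟩
  obtain ⟨_, -, G1⟩ := H1 A C1
  obtain ⟨_, -, G2⟩ := H2 A C1
  obtain ⟨_, -, G3⟩ := H3 A C1
  obtain ⟨C, hC1, G4⟩ := H4 A C1
  filter_upwards [G1 z hA hC (hz.mono (by omega)), G2 z hA hC (hz.mono (by omega)),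
    G3 z hA hC (hz.mono (by omega)), G4 z hA hC (hz.mono (by omega)),
    PSB_grow (2 * 4 ^ z.U * exp (8 * C) * C ^ 13 * √z.w), eventually_ge_atTop 1]
    with y g1 g2 g3 g4 g5 hy
  intro q D1 D2 hq hD
  set ρ : Pr := ⟨z, y⟩ with hρ
  have hy' : 1 ≤ ρ.y := hy
  obtain ⟨s1, -, s3, s4, s5⟩ := g3 q D1 D2 hq hD
  obtain ⟨l1, l2, -, l4, -⟩ := g4
  obtain ⟨-, z2, -, z4, -, -, -, z8, z9, z10, z11, z12, -⟩ := hz.mono (c := 1) (by omega)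
  have hw : 12 ≤ ρ.w := by show 12 ≤ z.w; omega
  obtain ⟨G0, G1'⟩ := PSB_Gm ρ (D1 * D2) hw l4
  set L : ℝ := exp (8 * ∑ p ∈ ρ.Ps, (1 : ℝ) / p) with hL
  set N : ℝ := (1 / 3) ^ ρ.om (D1 * D2 : ℕ) with hN
  have N0 : 0 ≤ N := by positivity
  have hM : ∀ σ ∈ ρ.SD q D1 D2, 0 ≤ ρ.Mw (D1 * D2) σ ∧
      ρ.Mw (D1 * D2) σ ≤ N * 2 ^ ρ.U / σ.af := by
    intro σ hσ
    obtain ⟨-, a0, -, -, -, -, -, -, a9⟩ := s4 σ hσ
    obtain ⟨b1, b2⟩ := a9 (1 / 6) (by norm_num)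
    have a0' : (0 : ℝ) < σ.af := by exact_mod_cast a0
    refine ⟨mul_nonneg (mul_nonneg N0 G0) b1, ?_⟩
    have b3 : ρ.hh (1 / 6) σ.af ≤ 2 ^ ρ.U / σ.af := by
      refine b2.trans ?_
      rw [← mul_div_assoc]
      exact div_le_div_of_nonneg_right (mul_le_of_le_one_right (by positivity) (PSB_hw ρ _)) a0'.le
    calc ρ.Mw (D1 * D2) σ = N * (ρ.Gm (D1 * D2) * ρ.hh (1 / 6) σ.af) := by
          rw [Pr.Mw, mul_assoc]
      _ ≤ N * (1 * (2 ^ ρ.U / σ.af)) :=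
          mul_le_mul_of_nonneg_left (mul_le_mul G1' b3 b1 zero_le_one) N0
      _ = _ := by ring
  have step1 : ∑ σ ∈ ρ.SD q D1 D2, ∑ τ ∈ ρ.SD q D1 D2, ρ.Mw (D1 * D2) σ * ρ.Mw (D1 * D2) τ *
      (ind (τ ≠ σ ∧ ρ.y < (σ.dl τ : ℝ)) * (σ.dl τ * ρ.En (D1 * D2) σ τ)) ≤
      N ^ 2 * 4 ^ ρ.U * L * ∑ σ ∈ ρ.SD q D1 D2, ∑ τ ∈ ρ.SD q D1 D2, PSB_F ρ σ τ := by
    rw [mul_sum]
    refine sum_le_sum fun σ hσ => ?_
    rw [mul_sum]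
    refine sum_le_sum fun τ hτ => ?_
    obtain ⟨m1, m2⟩ := hM σ hσ
    obtain ⟨m3, m4⟩ := hM τ hτ
    obtain ⟨n1, n2⟩ := PSB_En ρ (D1 * D2) σ τ
    have i0 := ind_nonneg (τ ≠ σ ∧ ρ.y < (σ.dl τ : ℝ))
    calc _ ≤ (N * 2 ^ ρ.U / σ.af) * (N * 2 ^ ρ.U / τ.af) *
          (ind (τ ≠ σ ∧ ρ.y < (σ.dl τ : ℝ)) * (σ.dl τ * L)) := by
          refine mul_le_mul (mul_le_mul m2 m4 m3 (m1.trans m2)) ?_ (by positivity)
            (mul_nonneg (m1.trans m2) (m3.trans m4))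
          exact mul_le_mul_of_nonneg_left (mul_le_mul_of_nonneg_left n2 (Nat.cast_nonneg _)) i0
      _ = _ := by
          have : (4 : ℝ) ^ ρ.U = 2 ^ ρ.U * 2 ^ ρ.U := by rw [← mul_pow]; norm_num
          rw [this, PSB_F]; ring
  have hq3 : (q.2.1 : ℝ) ≤ y ^ z.k4 := ((mem_PP (by positivity)).1 hq.2.1).2.2
  have hq4 : (q.2.2 : ℝ) ≤ y ^ z.k2 := ((mem_PP (by positivity)).1 hq.2.2).2.2
  have hD1 : (D1 : ℝ) ≤ y ^ z.K := hD.2.2.1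
  have hD2 : (D2 : ℝ) ≤ y ^ z.K := hD.2.2.2.1
  have hx : ∀ α ∈ Asg D1, ∀ β ∈ Asg D2,
      |(((α.1 * α.2 * q.2.1 * (β.1 * q.2.2) : ℕ) : ℤ) : ℝ)| ≤ ρ.y ^ (4 * ρ.K') := by
    intro α hα β hβ
    have u1 : (α.1 : ℝ) * α.2 ≤ y ^ z.K := le_trans (by exact_mod_cast (PSB_asg hα).2.2.2.2) hD1
    have u2 : (β.1 : ℝ) ≤ y ^ z.K := le_trans (by exact_mod_cast (PSB_asg hβ).2.2.1) hD2
    rw [abs_of_nonneg (by positivity)]
    push_cast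
    calc _ ≤ y ^ z.K * y ^ z.k4 * (y ^ z.K * y ^ z.k2) := by gcongr
      _ = y ^ (z.K + z.k4 + (z.K + z.k2)) := by ring
      _ ≤ _ := pow_le_pow_right₀ hy (by show _ ≤ 4 * z.K'; omega)
  have hm : ∀ α ∈ Asg D1, ∀ β ∈ Asg D2, 0 < ((α.2 * β.2 : ℕ) : ℤ) ∧
      (((α.2 * β.2 : ℕ) : ℤ) : ℝ) ≤ ρ.y ^ (2 * ρ.K) := by
    intro α hα β hβ
    have u1 : (α.2 : ℝ) ≤ y ^ z.K := le_trans (by exact_mod_cast (PSB_asg hα).2.2.2.1) hD1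
    have u2 : (β.2 : ℝ) ≤ y ^ z.K := le_trans (by exact_mod_cast (PSB_asg hβ).2.2.2.1) hD2
    refine ⟨by exact_mod_cast Nat.mul_pos (PSB_asg hα).2.1 (PSB_asg hβ).2.1, ?_⟩
    push_cast
    calc _ ≤ y ^ z.K * y ^ z.K := by gcongr
      _ = _ := by show _ = y ^ (2 * z.K); ring
  have inner : ∀ α ∈ Asg D1, ∀ β ∈ Asg D2, ∀ α' ∈ Asg D1, ∀ β' ∈ Asg D2,
      ∑ v ∈ SR (mkS q α β 0).a (mkS q α β 0).T 2, ∑ v' ∈ SR (mkS q α' β' 0).a (mkS q α' β' 0).T 2,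
        ind (0 < v.1 ∧ 0 < v.2 ∧ mkS q α β v ∈ ρ.SD q D1 D2) *
          (ind (0 < v'.1 ∧ 0 < v'.2 ∧ mkS q α' β' v' ∈ ρ.SD q D1 D2) *
            PSB_F ρ (mkS q α β v) (mkS q α' β' v')) ≤ 2 / √ρ.y := by
    intro α hα β hβ α' hα' β' hβ'
    have r1 := (s3 α hα β hβ 0).1
    have r2 := (s3 α' hα' β' hβ' 0).1
    rw [PSB_a] at r1 r2 ⊢
    rw [PSB_a]
    have w1 := g1 _ _ _ _ _ _ r1 r2 (hx α hα β' hβ') (hx α' hα' β hβ)
    have w2 := g2 _ _ _ _ _ r1 r2 (hm α hα β hβ).1 (hm α' hα' β' hβ').1 (hm α hα β hβ).2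
      (hm α' hα' β' hβ').2
    have w3 : 2 / √ρ.y = 1 / √ρ.y + 1 / √ρ.y := by ring
    rw [w3]
    refine le_trans ?_ (add_le_add w1 w2)
    rw [← sum_add_distrib]
    refine sum_le_sum fun v hv => ?_
    rw [← sum_add_distrib]
    refine sum_le_sum fun v' hv' => ?_
    have k1 := ((mem_SR (by linarith [r1.1])).1 hv).2.2.2.1
    have k2 := ((mem_SR (by linarith [r2.1])).1 hv').2.2.2.1
    have o1 : (0 : ℤ) ≤ (q.1 : ℤ) * ((α.2 * β.2 : ℕ) : ℤ) := by positivity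
    have o2 : (0 : ℤ) ≤ (q.1 : ℤ) * ((α'.2 * β'.2 : ℕ) : ℤ) := by positivity
    exact PSB_pt ρ hq hD (fun σ hσ => (s4 σ hσ).1) α β α' β' v v' _ _ _ _ _ _ _ rfl rfl rfl rfl rfl
      rfl rfl (by linarith) (by linarith)
  have step2 : ∑ σ ∈ ρ.SD q D1 D2, ∑ τ ∈ ρ.SD q D1 D2, PSB_F ρ σ τ ≤
      (3 ^ ρ.om (D1 * D2 : ℕ)) ^ 2 * (2 / √ρ.y) := by
    rw [s5]
    have s1' : ((Asg D1).card : ℝ) * (Asg D2).card = 3 ^ ρ.om (D1 * D2 : ℕ) := by exact_mod_cast s1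
    calc _ ≤ ∑ α ∈ Asg D1, ∑ β ∈ Asg D2, ∑ α' ∈ Asg D1, ∑ β' ∈ Asg D2, 2 / √ρ.y := by
          refine sum_le_sum fun α hα => sum_le_sum fun β hβ => ?_
          simp only [s5, mul_sum]
          rw [sum_comm]
          refine sum_le_sum fun α' hα' => ?_
          rw [sum_comm]
          exact sum_le_sum fun β' hβ' => inner α hα β hβ α' hα' β' hβ'
      _ = _ := by
          simp only [sum_const, nsmul_eq_mul]
          rw [← s1']; ring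
  have y0 : 0 < √ρ.y := sqrt_pos.2 (by linarith)
  have w0 : 0 < √(ρ.w : ℝ) := sqrt_pos.2 (by exact_mod_cast (by omega : 0 < ρ.w))
  have hLb : L ≤ exp (8 * C) * exp ρ.La ^ 8 := by
    rw [hL, ← exp_nat_mul, ← exp_add]
    refine exp_le_exp.2 ?_
    have := (abs_le.1 l1).2
    push_cast
    linarith
  have e0 : 0 < exp ρ.La := exp_pos _
  have h13 : exp ρ.La ^ 13 ≤ C ^ 13 * log y ^ 13 := by
    rw [← mul_pow]; exact pow_le_pow_left₀ e0.le l2 13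
  have e5 : exp (-5 * ρ.La) = 1 / exp ρ.La ^ 5 := by
    rw [← exp_nat_mul, one_div, ← exp_neg]; congr 1; push_cast; ring
  calc _ ≤ N ^ 2 * 4 ^ ρ.U * L * ((3 ^ ρ.om (D1 * D2 : ℕ)) ^ 2 * (2 / √ρ.y)) :=
        step1.trans (mul_le_mul_of_nonneg_left step2 (by positivity))
    _ = 4 ^ ρ.U * L * (2 / √ρ.y) := by
        have : N * 3 ^ ρ.om (D1 * D2 : ℕ) = 1 := by rw [hN, ← mul_pow]; norm_num
        linear_combination (4 ^ ρ.U * L * (2 / √ρ.y) * (N * 3 ^ ρ.om (D1 * D2 : ℕ) + 1)) * this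
    _ ≤ 4 ^ ρ.U * (exp (8 * C) * exp ρ.La ^ 8) * (2 / √ρ.y) := by gcongr
    _ ≤ _ := by
        rw [e5, div_mul_div_comm, one_mul, ← mul_div_assoc, div_le_div_iff₀ y0 (by positivity),
          one_mul]
        refine le_trans ?_ g5
        calc _ = 2 * 4 ^ ρ.U * exp (8 * C) * √(ρ.w : ℝ) * exp ρ.La ^ 13 := by ring
          _ ≤ 2 * 4 ^ ρ.U * exp (8 * C) * √(ρ.w : ℝ) * (C ^ 13 * log y ^ 13) := by gcongr
          _ = _ := by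
              show 2 * 4 ^ z.U * exp (8 * C) * √(z.w : ℝ) * (C ^ 13 * log y ^ 13) = _
              ring

end Pool.Agent.P.MP_8be758_nt.Pd
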