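import Pool.Agent.P.MP_8be758_nt.Pd.IfG

/-! Step QCNT. -/

namespace Pool.Agent.P.MP_8be758_nt.Pd

open Finset Real Filter
open Pool.Agent.P.MP_8be758_nt.Par (det)
open Pool.Agent.P.MP_8be758_nt.Avg (rho)

theorem QCNT_mer {C y : ℝ} (hC : 0 < C) (hy : 2 ≤ y)
    (h : ∀ w y : ℝ, 2 ≤ w → w ≤ y → |∑ p ∈ PP w y, (1 : ℝ) / p - log (log y / log w)| ≤ C)
    {i j k : ℕ} (hi : 1 ≤ i) (hij : i ≤ j) (hjk : j ≤ k) :
    ∑ p ∈ PP (y ^ i) (y ^ j), (1 : ℝ) / p ≤ (1 + C) * k := by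
  have h1 : (1 : ℝ) ≤ y := by linarith
  have h2 : (2 : ℝ) ≤ y ^ i := hy.trans (le_self_pow₀ h1 (by omega))
  have h3 := (abs_le.1 (h _ _ h2 (pow_le_pow_right₀ h1 hij))).2
  have hl : 0 < log y := log_pos (by linarith)
  have i1 : (1 : ℝ) ≤ i := by exact_mod_cast hi
  have i2 : (i : ℝ) ≤ j := by exact_mod_cast hij
  have i3 : (j : ℝ) ≤ k := by exact_mod_cast hjk
  have e : log (y ^ j) / log (y ^ i) = (j : ℝ) / i := by
    rw [log_pow, log_pow]; field_simp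
  rw [e] at h3
  have h4 : log ((j : ℝ) / i) ≤ (j : ℝ) / i - 1 := log_le_sub_one_of_pos (div_pos (by linarith) (by linarith))
  have h5 : (j : ℝ) / i ≤ j := div_le_self (by positivity) i1
  nlinarith

theorem QCNT_per (A p : ℕ) (u : V2) :
    S4.Per (p ^ 2) (fun g => ind ((p : ℤ) ∣ ev (act (Q0 A) g) u)) := by
  intro g h e
  have := dvd_iff_of_modEq (d := (p : ℤ)) (ev_act_modEq (Q0 A) (m := p ^ 2) e u)
    (by push_cast; exact dvd_pow_self _ (by norm_num))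
  simp only [this]

theorem QCNT_av (hL1 : S_L1) {A p : ℕ} (hA : 1 ≤ A) (hp : p.Prime) (h4 : 4 * A < p) {u : V2}
    (hu : u.1 = 1 ∨ u.2 = 1) :
    S4.av (p ^ 2) (fun g => ind ((p : ℤ) ∣ ev (act (Q0 A) g) u)) ≤ 2 / p := by
  have hn : ¬((p : ℤ) ∣ u.1 ∧ (p : ℤ) ∣ u.2) := by
    rintro ⟨h1, h2⟩
    have : (p : ℤ) ∣ 1 := by
      rcases hu with e | e
      · exact e ▸ h1
      · exact e ▸ h2
    exact hp.one_lt.ne' (by exact_mod_cast Int.eq_one_of_dvd_one (by positivity) this)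
  obtain ⟨h1, -, h3⟩ := hL1 A p (Q0 A) u hA (isF_Q0 A) hp h4 hn
  rw [h3]
  have p0 : (0 : ℝ) < p := by exact_mod_cast hp.pos
  have r2 : (rho A p : ℝ) ≤ 2 := by exact_mod_cast h1
  exact div_le_div₀ (by norm_num) r2 p0 (by linarith)

theorem QCNT_permul {Ω : Type} {S : Sys Ω} (hS : S.OK) {m m' : ℕ} {f f' : Ω → ℝ}
    (h : S.Per m f) (h' : S.Per m' f') : S.Per (m * m') (fun x => f x * f' x) := by
  intro x y e
  simp only [h x y (hS.2.1 _ _ (dvd_mul_right _ _) x y e),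
    h' x y (hS.2.1 _ _ (dvd_mul_left _ _) x y e)]

theorem QCNT_err {y : ℝ} (hy : 1 ≤ y) {k u : ℕ} (h : 700 * k ≤ u) :
    (y ^ (6 * k)) ^ 11 * (y ^ u) ^ (9 / 10 : ℝ) * y ^ (3 * k) ≤ y ^ u := by
  have y0 : 0 < y := by linarith
  have h' : (700 : ℝ) * k ≤ u := by exact_mod_cast h
  have k0 : (0 : ℝ) ≤ k := Nat.cast_nonneg _
  rw [← pow_mul, ← rpow_natCast, ← rpow_natCast, ← rpow_natCast, ← rpow_mul y0.le,
    ← rpow_add y0, ← rpow_add y0]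
  refine rpow_le_rpow_of_exponent_le hy ?_
  push_cast
  linarith

theorem p_QCNT (hOK : S_OK) (hPROD : S_PROD) (hEQ : S_EQ) (hGCNT : S_GCNT) (hL1 : S_L1) (hMER : S_MER) :
    S_QCNT := by
  refine ⟨700, fun A C1 => ?_⟩
  by_cases hB : Odd A ∧ 3 ≤ A ∧ 1 ≤ C1
  swap
  · refine ⟨1, le_rfl, fun z e1 e2 hz => absurd ?_ hB⟩
    exact ⟨e1 ▸ hz.1, e1 ▸ hz.2.1, e2 ▸ hz.2.2.1⟩
  obtain ⟨hO, h3, hC1⟩ := hB
  have hA : 1 ≤ A := by omega
  obtain ⟨CG, G0, hG⟩ := hGCNT A hA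
  obtain ⟨CE, E0, hE⟩ := hEQ A hA
  obtain ⟨CM, M0, hM⟩ := hMER A hO h3
  have a0 : 0 < CG * (1 + C1) := by positivity
  have b0 : 0 < CE * (1 + C1) := by positivity
  have m0 : 0 < (1 + CM) ^ 3 := by positivity
  refine ⟨1 + 8 * (CG * (1 + C1)) + CE * (1 + C1) + (1 + CM) ^ 3, by linarith, ?_⟩
  rintro z rfl rfl ⟨-, -, -, -, -, b6, b7, b8, b9, b10, b11, b12, b13⟩
  filter_upwards [eventually_ge_atTop (2 : ℝ), eventually_ge_atTop (4 * (z.A : ℝ))] with y hy hyA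
  have y1 : (1 : ℝ) ≤ y := by linarith
  have X1 : (1 : ℝ) ≤ y ^ z.u := one_le_pow₀ y1
  have c0 : (0 : ℝ) ≤ 1 / z.C1 := by positivity
  have c1 : 1 / z.C1 ≤ z.C1 := by
    rw [div_le_iff₀ (by linarith)]; nlinarith
  have hcard := hG _ (Q0_mem hA) (y ^ z.u) (1 / z.C1) z.C1 X1 c0 (by linarith)
  refine ⟨?_, ?_, ?_⟩
  · refine hcard.trans ?_
    show _ ≤ _ * y ^ z.u
    gcongr
    linarith
  · have s1 := QCNT_mer M0 hy (fun w y a b => (hM w y a b).2) (i := z.k5) (j := z.k6) (k := z.k6)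
      (by omega) b11 le_rfl
    have s3 := QCNT_mer M0 hy (fun w y a b => (hM w y a b).2) (i := z.k3) (j := z.k4) (k := z.k6)
      (by omega) b9 (by omega)
    have s4 := QCNT_mer M0 hy (fun w y a b => (hM w y a b).2) (i := 1) (j := z.k2) (k := z.k6)
      le_rfl (by omega) (by omega)
    rw [pow_one] at s4
    have e : ∑ q ∈ PP (y ^ z.k5) (y ^ z.k6) ×ˢ PP (y ^ z.k3) (y ^ z.k4) ×ˢ PP y (y ^ z.k2),
        (1 : ℝ) / (q.1 * q.2.1 * q.2.2) = (∑ p ∈ PP (y ^ z.k5) (y ^ z.k6), (1 : ℝ) / p) *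
          ((∑ p ∈ PP (y ^ z.k3) (y ^ z.k4), (1 : ℝ) / p) * ∑ p ∈ PP y (y ^ z.k2), (1 : ℝ) / p) := by
      rw [sum_mul_sum, ← sum_product', sum_mul_sum, ← sum_product']
      refine sum_congr rfl fun q _ => ?_
      simp only [one_div, mul_inv]
      ring
    refine e.trans_le ?_
    have n3 : 0 ≤ ∑ p ∈ PP (y ^ z.k3) (y ^ z.k4), (1 : ℝ) / p := sum_nonneg fun _ _ => by positivity
    have n4 : 0 ≤ ∑ p ∈ PP y (y ^ z.k2), (1 : ℝ) / p := sum_nonneg fun _ _ => by positivity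
    have k0 : (0 : ℝ) ≤ z.k6 := Nat.cast_nonneg _
    calc _ ≤ ((1 + CM) * z.k6) * (((1 + CM) * z.k6) * ((1 + CM) * z.k6)) := by gcongr
      _ = (1 + CM) ^ 3 * (z.k6 : ℝ) ^ 3 := by ring
      _ ≤ _ := by
        show _ ≤ _ * (z.k6 : ℝ) ^ 3
        gcongr
        linarith
  · rintro ⟨q1, q3, q4⟩ ⟨r1, r3, r4⟩
    obtain ⟨p1, l1, u1⟩ := (mem_PP (by positivity)).1 r1
    obtain ⟨p3, l3, u3⟩ := (mem_PP (by positivity)).1 r3
    obtain ⟨p4, l4, u4⟩ := (mem_PP (by positivity)).1 r4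
    simp only at p1 l1 u1 p3 l3 u3 p4 l4 u4
    have o1 : y ^ z.k2 ≤ y ^ z.k3 := pow_le_pow_right₀ y1 (by omega)
    have o2 : y ^ z.k4 ≤ y ^ z.k5 := pow_le_pow_right₀ y1 (by omega)
    have o3 : y ^ z.k5 ≤ y ^ z.k6 := pow_le_pow_right₀ y1 b11
    have t43 : q4 < q3 := by exact_mod_cast (show (q4 : ℝ) < q3 by linarith)
    have t31 : q3 < q1 := by exact_mod_cast (show (q3 : ℝ) < q1 by linarith)
    have g4 : 4 * z.A < q4 := by exact_mod_cast (show 4 * (z.A : ℝ) < q4 by linarith)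
    have v3 : (q3 : ℝ) ≤ y ^ z.k6 := by linarith
    have v4 : (q4 : ℝ) ≤ y ^ z.k6 := by
      have : (q4 : ℝ) ≤ q3 := by exact_mod_cast t43.le
      linarith
    have z1 : (0 : ℝ) < q1 := by exact_mod_cast p1.pos
    have z3 : (0 : ℝ) < q3 := by exact_mod_cast p3.pos
    have z4 : (0 : ℝ) < q4 := by exact_mod_cast p4.pos
    have S := hOK.2.2.2
    have P1 := QCNT_per z.A q1 (0, 1)
    have P3 := QCNT_per z.A q3 (1, 0)
    have P4 := QCNT_per z.A q4 (0, 1)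
    have c13 : (q1 ^ 2).Coprime (q3 ^ 2) :=
      Nat.Coprime.pow _ _ ((Nat.coprime_primes p1 p3).2 (by omega))
    have c14 : (q1 ^ 2 * q3 ^ 2).Coprime (q4 ^ 2) :=
      Nat.Coprime.mul_left (Nat.Coprime.pow _ _ ((Nat.coprime_primes p1 p4).2 (by omega)))
        (Nat.Coprime.pow _ _ ((Nat.coprime_primes p3 p4).2 (by omega)))
    have w1 : 0 < q1 ^ 2 := pow_pos p1.pos _
    have w3 : 0 < q3 ^ 2 := pow_pos p3.pos _
    have w4 : 0 < q4 ^ 2 := pow_pos p4.pos _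
    have P13 := QCNT_permul S P1 P3
    have e13 := S.2.2 _ _ _ _ w1 w3 c13 P1 P3
    have e134 := S.2.2 _ _ _ _ (Nat.mul_pos w1 w3) w4 c14 P13 P4
    have A1 := QCNT_av hL1 hA p1 (by omega) (u := (0, 1)) (Or.inr rfl)
    have A3 := QCNT_av hL1 hA p3 (by omega) (u := (1, 0)) (Or.inl rfl)
    have A4 := QCNT_av hL1 hA p4 g4 (u := (0, 1)) (Or.inr rfl)
    have N3 := S4.av_nonneg (q3 ^ 2)
      (f := fun g => ind ((q3 : ℤ) ∣ ev (act (Q0 z.A) g) (1, 0))) fun _ => ind_nonneg _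
    have N4 := S4.av_nonneg (q4 ^ 2)
      (f := fun g => ind ((q4 : ℤ) ∣ ev (act (Q0 z.A) g) (0, 1))) fun _ => ind_nonneg _
    have hM3 : (q1 : ℝ) * q3 * q4 ≤ y ^ (3 * z.k6) := by
      calc _ ≤ y ^ z.k6 * y ^ z.k6 * y ^ z.k6 := by gcongr
        _ = _ := by ring
    have hM6 : ((q1 ^ 2 * q3 ^ 2 * q4 ^ 2 : ℕ) : ℝ) ≤ y ^ (6 * z.k6) := by
      calc _ = ((q1 : ℝ) * q3 * q4) ^ 2 := by push_cast; ring
        _ ≤ (y ^ (3 * z.k6)) ^ 2 := by gcongr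
        _ = _ := by ring
    have hq := hE _ (Q0_mem hA) (y ^ z.u) (1 / z.C1) z.C1 (y ^ (6 * z.k6)) X1 c0 c1
      (one_le_pow₀ y1) _ _ (Nat.mul_pos (Nat.mul_pos w1 w3) w4) hM6 (QCNT_permul S P13 P4)
      (fun g => by
        rw [abs_of_nonneg (mul_nonneg (mul_nonneg (ind_nonneg _) (ind_nonneg _)) (ind_nonneg _))]
        exact mul_le_one₀ (mul_le_one₀ (ind_le_one _) (ind_nonneg _) (ind_le_one _))
          (ind_nonneg _) (ind_le_one _))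
    rw [e134, e13] at hq
    have hq2 := (abs_le.1 hq).2
    have herr := QCNT_err y1 (k := z.k6) (u := z.u) (by omega)
    have Q0' : (0 : ℝ) < q1 * q3 * q4 := by positivity
    have f1 : (y ^ (6 * z.k6)) ^ 11 * (y ^ z.u) ^ (9 / 10 : ℝ) ≤ y ^ z.u / (q1 * q3 * q4) := by
      rw [le_div_iff₀ Q0']
      refine le_trans ?_ herr
      gcongr
    have f2 : ((GG (Q0 z.A) (y ^ z.u) (1 / z.C1) z.C1).card : ℝ) *
        (S4.av (q1 ^ 2) (fun g => ind ((q1 : ℤ) ∣ ev (act (Q0 z.A) g) (0, 1))) *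
          S4.av (q3 ^ 2) (fun g => ind ((q3 : ℤ) ∣ ev (act (Q0 z.A) g) (1, 0))) *
          S4.av (q4 ^ 2) (fun g => ind ((q4 : ℤ) ∣ ev (act (Q0 z.A) g) (0, 1)))) ≤
        8 * (CG * (1 + z.C1)) * (y ^ z.u / (q1 * q3 * q4)) := by
      calc _ ≤ (CG * (1 + z.C1) * y ^ z.u) * (2 / (q1 : ℝ) * (2 / q3) * (2 / q4)) := by
            gcongr
            exact mul_nonneg (mul_nonneg (S4.av_nonneg _ fun _ => ind_nonneg _) N3) N4
        _ = _ := by field_simp; norm_num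
    have f3 : ∑ g ∈ GG (Q0 z.A) (y ^ z.u) (1 / z.C1) z.C1, ind (Pr.QD (q1, q3, q4) (act (Q0 z.A) g)) ≤
        ∑ g ∈ GG (Q0 z.A) (y ^ z.u) (1 / z.C1) z.C1,
          1 * (ind ((q1 : ℤ) ∣ ev (act (Q0 z.A) g) (0, 1)) * ind ((q3 : ℤ) ∣ ev (act (Q0 z.A) g) (1, 0)) *
            ind ((q4 : ℤ) ∣ ev (act (Q0 z.A) g) (0, 1))) := by
      refine sum_le_sum fun g _ => ?_
      rw [one_mul, ← ind_and, ← ind_and]
      refine ind_mono ?_
      rintro ⟨d1, d2⟩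
      push_cast at d2
      have e1 : ev (act (Q0 z.A) g) (1, 0) = (act (Q0 z.A) g).1 := by simp [ev]
      have e2 : ev (act (Q0 z.A) g) (0, 1) = (act (Q0 z.A) g).2.2 := by simp [ev]
      rw [e1, e2]
      exact ⟨⟨dvd_of_mul_right_dvd d2, d1⟩, dvd_of_mul_left_dvd d2⟩
    have f4 : CE * (1 + z.C1) * (y ^ (6 * z.k6)) ^ 11 * (y ^ z.u) ^ (9 / 10 : ℝ) ≤
        CE * (1 + z.C1) * (y ^ z.u / (q1 * q3 * q4)) := by
      rw [mul_assoc]
      gcongr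
    have f5 : 0 ≤ y ^ z.u / (q1 * q3 * q4) := by positivity
    refine f3.trans ?_
    show _ ≤ _ * y ^ z.u / ((q1 : ℝ) * q3 * q4)
    rw [mul_div_assoc, add_mul, add_mul, add_mul, one_mul]
    have f6 := mul_nonneg m0.le f5
    linarith

end Pool.Agent.P.MP_8be758_nt.Pd
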