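import Pool.Agent.P.MP_8be758_nt.Pd.If0

/-! Step RED. -/

namespace Pool.Agent.P.MP_8be758_nt.Pd

open Finset Real Filter
open ArithmeticFunction (cardFactors)
open Pool.Agent.P.MP_8be758_nt.Par (det)
open Pool.Agent.P.MP_8be758_nt.Avg (rho)

theorem RED_shift {a : ℤ} (ha : 0 < a) (b : ℤ) : ∃ k : ℤ, -a ≤ b + 2 * a * k ∧ b + 2 * a * k ≤ a := by
  have h1 := Int.emod_add_mul_ediv (b + a) (2 * a)
  have h2 := Int.emod_nonneg (b + a) (show 2 * a ≠ 0 by omega)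
  have h3 := Int.emod_lt_of_pos (b + a) (show 0 < 2 * a by omega)
  exact ⟨-((b + a) / (2 * a)), by constructor <;> linarith⟩

theorem p_RED :
    S_RED := by
  intro A φ hA hφ
  obtain ⟨a, ⟨⟨v, w0⟩, hd0, rfl⟩, hmin⟩ := Int.exists_least_of_bdd
    (P := fun z => ∃ g : G4, det g.1 g.2 = 1 ∧ ev φ g.1 = z)
    ⟨0, by rintro z ⟨g, -, rfl⟩; exact hφ.ev_nonneg hA _⟩
    ⟨_, (((1, 0), (0, 1)) : G4), by simp [det], rfl⟩
  have ha : 0 < ev φ v := (hφ.act hA hd0).2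
  obtain ⟨k, k1, k2⟩ := RED_shift ha (bl φ v w0)
  let w : V2 := (w0.1 + k * v.1, w0.2 + k * v.2)
  have hd : det v w = 1 := by
    simp only [det, w] at hd0 ⊢
    linarith
  have hb : bl φ v w = bl φ v w0 + 2 * ev φ v * k := by
    simp only [bl, ev, w]; ring
  have hc : ev φ v ≤ ev φ w := hmin _ ⟨(w, (-v.1, -v.2)), by
    simp only [det] at hd ⊢
    linarith, rfl⟩
  have hF := hφ.act hA (g := (v, w)) hd
  have e : bl φ v w ^ 2 - 4 * ev φ v * ev φ w = 1 - 4 * (A : ℤ) := hF.1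
  rw [← hb] at k1 k2
  have h4 : ev φ w ≤ 4 * (A : ℤ) := by
    have h1 : bl φ v w ^ 2 ≤ ev φ v ^ 2 := sq_le_sq' k1 k2
    have h2 : ev φ v ^ 2 ≤ ev φ v * ev φ w := by nlinarith
    have h3 : ev φ w ≤ ev φ v * ev φ w := by nlinarith
    nlinarith
  refine ⟨act φ (v, w), ?_, ((w.2, -v.2), (-w.1, v.1)), ?_, ?_⟩
  · simp only [Red, mem_filter, mem_product, mem_Icc]
    refine ⟨⟨?_, ?_, ?_⟩, hF⟩ <;> simp only [act] <;> constructor <;> linarith
  · simp only [det] at hd ⊢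
    linarith
  · have : rm (v, w) ((w.2, -v.2), (-w.1, v.1)) = ((1, 0), (0, 1)) := by
      simp only [det] at hd
      simp only [rm, ap, Prod.mk.injEq]
      refine ⟨⟨?_, ?_⟩, ?_, ?_⟩ <;> linarith
    rw [← act_rm, this]
    simp [act, ev, bl]

end Pool.Agent.P.MP_8be758_nt.Pd
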