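import Pool.Agent.P.MP_8be758_nt.Pd.IfG

/-! Step SDS. -/

namespace Pool.Agent.P.MP_8be758_nt.Pd

open Finset Real Filter
open Pool.Agent.P.MP_8be758_nt.Par (det)
open Pool.Agent.P.MP_8be758_nt.Avg (rho)

theorem SDS_mem {D : ℕ} (h : 0 < D) {v : ℕ × ℕ} : v ∈ Asg D ↔ v.1 * v.2 ∣ D := by
  simp only [Asg, mem_filter, mem_product, Nat.mem_divisors]
  exact ⟨fun x => x.2, fun x =>
    ⟨⟨⟨dvd_of_mul_right_dvd x, h.ne'⟩, dvd_of_mul_left_dvd x, h.ne'⟩, x⟩⟩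

theorem SDS_card {D : ℕ} (h : Squarefree D) : (Asg D).card = 3 ^ D.primeFactors.card := by
  have h0 := Nat.pos_of_ne_zero h.ne_zero
  rw [card_eq_sum_card_fiberwise (f := fun v : ℕ × ℕ => v.1 * v.2) (t := D.divisors)
    fun v hv => by simpa [h0.ne'] using (SDS_mem h0).1 hv]
  have := (ArithmeticFunction.isMultiplicative_sigma (k := 0)).prodPrimeFactors_one_add_of_squarefree h
  rw [prod_congr rfl (g := fun _ => 3) fun p hp => by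
    rw [ArithmeticFunction.sigma_zero_apply, Nat.Prime.divisors (Nat.prime_of_mem_primeFactors hp),
      card_pair (Nat.prime_of_mem_primeFactors hp).one_lt.ne], prod_const] at this
  rw [this]
  refine sum_congr rfl fun d hd => ?_
  rw [ArithmeticFunction.sigma_zero_apply, ← card_map (s := d.divisors), Nat.map_div_right_divisors]
  congr 1
  ext v
  have := Nat.mem_divisors.1 hd
  simp only [mem_filter, SDS_mem h0, Nat.mem_divisorsAntidiagonal]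
  exact ⟨fun x => ⟨x.2, ne_zero_of_dvd_ne_zero this.2 this.1⟩, fun x => ⟨x.1 ▸ this.1, x.1⟩⟩

theorem SDS_rng {ρ : Pr} (hB : ρ.Big 8) (hy : 1 < ρ.y) {D1 D2 : ℕ} (hD : ρ.DA D1 D2) {σ : Sd}
    (hq : ρ.QR (σ.q1, σ.q3, σ.q4)) (b1 : σ.e1 * σ.a1 ∣ D1) (b2 : σ.e2 * σ.a2 ∣ D2) :
    (ρ.Rng σ.a σ.T ∧ σ.T ≤ ρ.y ^ (2 * ρ.k4) ∧ σ.T < σ.q1 ∧ (σ.a : ℝ) < σ.T * σ.q1) ∧
      0 < σ.E2 ∧ (σ.a : ℝ) ≤ ρ.y ^ (2 * ρ.K + ρ.k6) := by
  obtain ⟨-, -, -, -, -, h6, h7, h8, h9, h10, h11, h12, -⟩ := hB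
  obtain ⟨p1, p2⟩ := DA_pos hD
  have y0 : 0 < ρ.y := by linarith
  obtain ⟨-, q1, q1'⟩ := (mem_PP (by positivity)).1 hq.1
  obtain ⟨-, q3, q3'⟩ := (mem_PP (by positivity)).1 hq.2.1
  obtain ⟨-, q4, q4'⟩ := (mem_PP (by positivity)).1 hq.2.2
  simp only at q1 q1' q3 q3' q4 q4'
  have up : ∀ {d D : ℕ}, d ∣ D → 0 < D → (D : ℝ) ≤ ρ.y ^ ρ.K → 1 ≤ (d : ℝ) ∧ (d : ℝ) ≤ ρ.y ^ ρ.K :=
    fun a b c => ⟨by exact_mod_cast Nat.pos_of_dvd_of_pos a b,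
      le_trans (by exact_mod_cast Nat.le_of_dvd b a) c⟩
  obtain ⟨c1, c1'⟩ := up b1 p1 hD.2.2.1
  obtain ⟨c2, c2'⟩ := up (dvd_of_mul_left_dvd b1) p1 hD.2.2.1
  obtain ⟨c3, c3'⟩ := up (dvd_of_mul_right_dvd b2) p2 hD.2.2.2.1
  obtain ⟨c4, c4'⟩ := up (dvd_of_mul_left_dvd b2) p2 hD.2.2.2.1
  have mo : ∀ {m n : ℕ}, m ≤ n → ρ.y ^ m ≤ ρ.y ^ n := fun h => pow_le_pow_right₀ hy.le h
  have z1 : 0 < (σ.q1 : ℝ) := lt_trans (by positivity) q1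
  have z3 : 0 < (σ.q3 : ℝ) := lt_trans (by positivity) q3
  have E1 : (1 : ℝ) ≤ σ.E2 := by
    rw [Sd.E2, Nat.cast_mul]
    exact one_le_mul_of_one_le_of_one_le c3 (by linarith)
  have E2 : (σ.E2 : ℝ) ≤ ρ.y ^ (ρ.K + ρ.k2) := by
    rw [Sd.E2, Nat.cast_mul, pow_add]
    gcongr
  have eT : σ.T * σ.E2 = (σ.e1 * σ.a1 : ℕ) * σ.q3 := by
    rw [Sd.T, div_mul_cancel₀ _ (by linarith), Sd.E1]
    push_cast
    ring
  have T0 : 0 < σ.T := by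
    by_contra hn
    nlinarith [mul_pos (lt_of_lt_of_le one_pos c1) z3]
  have T1 : ρ.y ^ ρ.k3 < σ.T * ρ.y ^ (ρ.K + ρ.k2) := by
    have := mul_le_mul_of_nonneg_left E2 T0.le
    nlinarith
  have T2 : σ.T ≤ ρ.y ^ (2 * ρ.k4) := by
    calc σ.T ≤ σ.T * σ.E2 := le_mul_of_one_le_right T0.le E1
      _ ≤ ρ.y ^ ρ.K * ρ.y ^ ρ.k4 := by rw [eT]; gcongr
      _ ≤ _ := by rw [← pow_add]; exact mo (by omega)
  have T3 : ∀ m, m + (ρ.K + ρ.k2) ≤ ρ.k3 → ρ.y ^ m < σ.T := fun m h =>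
    lt_of_mul_lt_mul_right (by rw [← pow_add]; exact (mo h).trans_lt T1) (by positivity)
  have ea : (σ.a : ℝ) = σ.a1 * σ.a2 * σ.q1 := by simp [Sd.a]
  have a1 : (σ.a : ℝ) ≤ ρ.y ^ (2 * ρ.K) * σ.q1 := by
    rw [ea, two_mul, pow_add]
    gcongr
  have a2 : (σ.a : ℝ) ≤ ρ.y ^ (2 * ρ.K + ρ.k6) := a1.trans (by rw [pow_add]; gcongr)
  refine ⟨⟨⟨T0, ?_, ?_, ?_⟩, T2, (T2.trans (mo (by omega))).trans_lt q1, ?_⟩,
    by exact_mod_cast lt_of_lt_of_le one_pos E1, a2⟩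
  · have := T3 (ρ.K + ρ.k2) (by omega)
    nlinarith
  · calc σ.T ^ 2 * ρ.y ^ ρ.k3 ≤ (ρ.y ^ (2 * ρ.k4)) ^ 2 * ρ.y ^ ρ.k3 := by gcongr
      _ ≤ (σ.q1 : ℝ) := by rw [← pow_mul, ← pow_add]; exact (mo (by omega)).trans q1.le
      _ ≤ _ := by
        rw [Int.cast_natCast, ea]
        exact le_mul_of_one_le_left z1.le (one_le_mul_of_one_le_of_one_le c2 c4)
  · rw [Int.cast_natCast]
    exact a2.trans (mo (by unfold St.U; omega))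
  · exact a1.trans_lt (mul_lt_mul_of_pos_right (T3 _ (by omega)) z1)

theorem SDS_pt {ρ : Pr} (hB : ρ.Big 8) (hy : 1 < ρ.y) {D1 D2 : ℕ} (hD : ρ.DA D1 D2) {σ : Sd}
    (hq : ρ.QR (σ.q1, σ.q3, σ.q4)) (h : ρ.SA D1 D2 σ) :
    0 < σ.s ∧ 0 < σ.t ∧ 0 < σ.af ∧ IsCoprime (σ.a : ℤ) (σ.s * σ.t) ∧ σ.T < 2 * σ.t ∧
      σ.t ≤ σ.T := by
  obtain ⟨b1, b2, b3, b4, b5, b6, b7, -⟩ := h
  obtain ⟨⟨⟨T0, -⟩, -, r1, r2⟩, r3, -⟩ := SDS_rng hB hy hD hq b1 b2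
  have E : (0 : ℝ) < σ.E2 := by exact_mod_cast r3
  have t1 : σ.T < 2 * σ.t := by
    rw [Sd.T, div_lt_iff₀ E]
    exact_mod_cast b3
  have t2 : σ.t ≤ σ.T := by
    rw [Sd.T, le_div_iff₀ E]
    exact_mod_cast b4
  have pq := prime_of_PP hq.1
  obtain ⟨p1, p2⟩ := DA_pos hD
  have a0 : 0 < σ.a := Nat.mul_pos (Nat.mul_pos
    (Nat.pos_of_dvd_of_pos (dvd_of_mul_left_dvd b1) p1)
    (Nat.pos_of_dvd_of_pos (dvd_of_mul_left_dvd b2) p2)) pq.pos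
  have st : 0 < σ.s * σ.t := by omega
  have s0 := Nat.pos_of_mul_pos_right st
  have t0 := Nat.pos_of_mul_pos_left st
  have s1 : σ.s < σ.q1 := by
    have e : (2 * (σ.s * σ.t) : ℝ) ≤ σ.a := by exact_mod_cast b6
    have s0' : (0 : ℝ) < σ.s := by exact_mod_cast s0
    have : σ.T * σ.s < σ.T * σ.q1 := by nlinarith
    exact_mod_cast lt_of_mul_lt_mul_left this T0.le
  have t3 : σ.t < σ.q1 := by exact_mod_cast t2.trans_lt r1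
  refine ⟨s0, t0, ?_, ?_, t1, t2⟩
  · unfold Sd.af
    rw [← Nat.cast_mul]
    omega
  · rw [← Nat.cast_mul, Nat.isCoprime_iff_coprime]
    refine Nat.Coprime.mul_left ((b7.coprime_mul_right.coprime_dvd_right
      (mul_dvd_mul (dvd_of_mul_left_dvd b1) (dvd_of_mul_left_dvd b2))).symm) ?_
    exact pq.coprime_iff_not_dvd.2 fun e => (pq.dvd_mul.1 e).elim
      (Nat.not_dvd_of_pos_of_lt s0 s1) (Nat.not_dvd_of_pos_of_lt t0 t3)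

theorem SDS_unif {S T : ℝ → Pr → Prop} (h : Unif S) (k : ℕ)
    (H : ∀ C ρ, ρ.Big k → 1 < ρ.y → S C ρ → T C ρ) : Unif T := by
  obtain ⟨c, hc⟩ := h
  refine ⟨max c k, fun A C1 => ?_⟩
  obtain ⟨C, hC, hc⟩ := hc A C1
  refine ⟨C, hC, fun z e1 e2 hB => ?_⟩
  filter_upwards [hc z e1 e2 (hB.mono (le_max_left _ _)), eventually_gt_atTop 1] with y hL hy
  exact H C _ (hB.mono (le_max_right _ _)) hy hL

theorem p_SDS (hLAM : S_LAM) (hL1 : S_L1) :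
    S_SDS := by
  classical
  refine SDS_unif hLAM 8 fun C ρ hB hy hL => ?_
  obtain ⟨-, -, -, L1, -, -, L2⟩ := hL
  intro q D1 D2 hq hD
  obtain ⟨p1, p2⟩ := DA_pos hD
  have y0 : 0 < ρ.y := by linarith
  have mo : ∀ {m n : ℕ}, m ≤ n → ρ.y ^ m ≤ ρ.y ^ n := fun h => pow_le_pow_right₀ hy.le h
  have hB' := hB
  obtain ⟨-, h2, -, h4, -, h6, h7, h8, h9, h10, h11, h12, -⟩ := hB'
  refine ⟨?_, ?_, fun α hα β hβ v => (SDS_rng hB hy hD (σ := mkS q α β v) hq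
    ((SDS_mem p1).1 hα) ((SDS_mem p2).1 hβ)).1, fun σ hσ => ?_, fun F => ?_⟩
  · have co := Nat.coprime_of_squarefree_mul hD.1
    rw [SDS_card hD.1.of_mul_left, SDS_card hD.1.of_mul_right, ← pow_add,
      ← card_union_of_disjoint co.disjoint_primeFactors, ← co.primeFactors_mul, Pr.om]
    congr 2
    ext p
    rw [mem_pf, Int.natCast_dvd_natCast]
    exact ⟨fun x => ⟨hD.2.1 x, Nat.dvd_of_mem_primeFactors x⟩, fun x =>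
      Nat.mem_primeFactors.2 ⟨prime_of_PP x.1, x.2, hD.1.ne_zero⟩⟩
  · set I := Icc 1 ⌊ρ.y ^ ρ.K⌋₊
    set J := Icc 1 ⌊ρ.y ^ (2 * ρ.K + ρ.k6)⌋₊
    have hI : ∀ x : ℝ, 0 ≤ x → ((Icc 1 ⌊x⌋₊).card : ℝ) ≤ x := fun x h => by
      simpa using Nat.floor_le h
    have := card_le_card_of_injOn (s := ρ.SD q D1 D2) (t := ((I ×ˢ I) ×ˢ I ×ˢ I) ×ˢ J ×ˢ J)
      (fun σ => (((σ.e1, σ.a1), σ.e2, σ.a2), σ.s, σ.t)) (fun σ hσ => ?_) fun σ hσ τ hτ e => ?_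
    · refine (Nat.cast_le.2 this).trans ?_
      simp only [card_product, Nat.cast_mul]
      have i1 := hI (ρ.y ^ ρ.K) (by positivity)
      have i2 := hI (ρ.y ^ (2 * ρ.K + ρ.k6)) (by positivity)
      refine le_trans (b := ρ.y ^ ρ.K * ρ.y ^ ρ.K * (ρ.y ^ ρ.K * ρ.y ^ ρ.K) *
        (ρ.y ^ (2 * ρ.K + ρ.k6) * ρ.y ^ (2 * ρ.K + ρ.k6))) (by gcongr) ?_
      simp only [← pow_add]
      exact mo (by omega)
    · obtain ⟨rfl, h⟩ := (mem_SD p1 p2).1 hσ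
      obtain ⟨s0, t0, -⟩ := SDS_pt hB hy hD hq h
      obtain ⟨b1, b2, -, -, -, b6, -⟩ := h
      have up : ∀ {d D : ℕ} {x : ℝ}, 0 < d → d ≤ D → (D : ℝ) ≤ x → d ∈ Icc 1 ⌊x⌋₊ :=
        fun a b c => mem_Icc.2 ⟨a, b.trans (Nat.le_floor c)⟩
      have u2 : ∀ {d D : ℕ}, d ∣ D → 0 < D → (D : ℝ) ≤ ρ.y ^ ρ.K → d ∈ I := fun a b c =>
        up (Nat.pos_of_dvd_of_pos a b) (Nat.le_of_dvd b a) c
      have r := (SDS_rng hB hy hD hq b1 b2).2.2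
      simp only [coe_product, Set.mem_prod, mem_coe]
      exact ⟨⟨⟨u2 (dvd_of_mul_right_dvd b1) p1 hD.2.2.1, u2 (dvd_of_mul_left_dvd b1) p1 hD.2.2.1⟩,
        u2 (dvd_of_mul_right_dvd b2) p2 hD.2.2.2.1, u2 (dvd_of_mul_left_dvd b2) p2 hD.2.2.2.1⟩,
        up s0 (by nlinarith) r, up t0 (by nlinarith) r⟩
    · have a := ((mem_SD p1 p2).1 hσ).1.trans ((mem_SD p1 p2).1 hτ).1.symm
      cases σ
      cases τ
      simp only [Prod.mk.injEq, Sd.mk.injEq] at a e ⊢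
      tauto
  · obtain ⟨rfl, h⟩ := (mem_SD p1 p2).1 hσ
    obtain ⟨s0, t0, f0, co, -⟩ := SDS_pt hB hy hD hq h
    obtain ⟨b1, b2, -, -, -, -, -, b8, b9, -, b11, b12, -⟩ := h
    obtain ⟨⟨⟨-, -, -, r⟩, -⟩, -⟩ := SDS_rng hB hy hD hq b1 b2
    have c1 : IsCoprime (σ.a : ℤ) σ.af := by
      have := co.neg_right.add_mul_left_right 1
      rwa [mul_one, neg_add_eq_sub] at this
    obtain ⟨g3, q3, q3'⟩ := (mem_PP (by positivity)).1 hq.2.1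
    obtain ⟨g4, q4, q4'⟩ := (mem_PP (by positivity)).1 hq.2.2
    have f1 : (σ.af : ℝ) ≤ ρ.y ^ ρ.U := le_trans (by
      rw [Int.cast_le, Sd.af]; exact sub_le_self _ (by positivity)) r
    have f2 : (0 : ℝ) < σ.af := by exact_mod_cast f0
    refine ⟨c1, f0, s0, t0, fun e => ?_, fun e => ?_, fun e => ?_, f1, fun θ hθ =>
      ⟨by unfold Pr.hh; positivity, ?_⟩⟩
    · exact (Nat.prime_iff_prime_int.1 (prime_of_PP hq.1)).not_isUnit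
        (c1.isUnit_of_dvd' (by exact_mod_cast dvd_mul_left _ _) e)
    · refine (b9 _ g3 e).2.elim (not_le.2 (lt_of_le_of_lt ?_ q3)) (not_lt.2 q3')
      simpa using mo (show 1 ≤ ρ.k3 by omega)
    · exact (b9 _ g4 e).2.elim (not_le.2 q4) (not_lt.2 (q4'.trans (mo (by omega))))
    have sp : rr ρ.A σ.af = (∏ p ∈ ρ.lp σ.af, rho ρ.A p) * ∏ p ∈ ρ.pf σ.af, rho ρ.A p := by
      rw [rr, ← prod_filter_mul_prod_filter_not _ fun p : ℕ => ρ.y < (p : ℝ)]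
      congr 2
      ext p
      simp only [mem_filter, mem_pf, Pr.Ps, mem_PP y0.le, Nat.mem_primeFactors, not_lt,
        ← Int.natCast_dvd]
      exact ⟨fun x => ⟨⟨x.1.1, by exact_mod_cast (b9 p x.1.1 x.1.2.1).1, x.2⟩, x.1.2.1⟩,
        fun x => ⟨⟨x.1.1, x.2, by omega⟩, x.1.2.2⟩⟩
    unfold Pr.hh Pr.hw
    by_cases e : ∀ p ∈ ρ.pf σ.af, rho ρ.A p = 2
    · rw [ind_pos ⟨b8, b11, b12, e⟩, sp, prod_congr rfl e, prod_const, mul_one, mul_pow]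
      have l : ∏ p ∈ ρ.lp σ.af, rho ρ.A p ≤ 2 ^ ρ.U := (prod_le_pow_card _ _ 2 fun p hp => by
        obtain ⟨g, d, -⟩ := Nat.mem_primeFactors.1 (mem_filter.1 hp).1
        exact (hL1 ρ.A p (Q0 ρ.A) (1, 0) (by omega) (isF_Q0 _) g
          (h4.trans_lt (b9 p g (Int.natCast_dvd.2 d)).1) fun x =>
            (Nat.prime_iff_prime_int.1 g).not_dvd_one x.1).1).trans
        (Nat.pow_le_pow_right two_pos (L2 _ f0.ne' _ (by rwa [abs_of_pos f2])))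
      have l' : ((∏ p ∈ ρ.lp σ.af, rho ρ.A p : ℕ) : ℝ) ≤ 2 ^ ρ.U := by exact_mod_cast l
      rw [← mul_div_assoc, Nat.cast_mul, Nat.cast_pow, Nat.cast_ofNat, Pr.om]
      refine div_le_div_of_nonneg_right (le_trans ?_ (le_of_eq (by ring :
        θ ^ (ρ.pf σ.af).card * (2 ^ ρ.U * 2 ^ (ρ.pf σ.af).card) = _))) f2.le
      gcongr
    · push Not at e
      obtain ⟨p, hp, e⟩ := e
      rw [sp, prod_eq_zero hp ((L1 p (mem_pf.1 hp).1).resolve_right e), mul_zero, Nat.cast_zero,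
        mul_zero, zero_div]
      have := ind_nonneg (Squarefree σ.af.natAbs ∧ (ρ.fl σ.af : ℝ) ≤ ρ.y ^ (2 * ρ.K) ∧
        (ρ.om σ.af : ℝ) ≤ ρ.K * ρ.La ∧ ∀ p ∈ ρ.pf σ.af, rho ρ.A p = 2)
      positivity
  · simp only [sum_sigma']
    have inv : ∀ σ ∈ ρ.SD q D1 D2, mkS q (σ.e1, σ.a1) (σ.e2, σ.a2) ((σ.s : ℤ), (σ.t : ℤ)) = σ := by
      intro σ hσ
      obtain ⟨rfl, -⟩ := (mem_SD p1 p2).1 hσ
      simp [mkS]
    refine sum_of_injOn (fun σ => ⟨(σ.e1, σ.a1), (σ.e2, σ.a2), ((σ.s : ℤ), (σ.t : ℤ))⟩)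
      (fun σ hσ τ hτ e => ?_) (fun σ hσ => ?_) (fun x _ hx => ?_) fun σ hσ => ?_
    · rw [← inv σ hσ, ← inv τ hτ]
      exact congrArg (fun x : (_ : ℕ × ℕ) × (_ : ℕ × ℕ) × V2 => mkS q x.1 x.2.1 x.2.2) e
    · obtain ⟨rfl, h⟩ := (mem_SD p1 p2).1 hσ
      obtain ⟨s0, t0, f0, co, t1, t2⟩ := SDS_pt hB hy hD hq h
      obtain ⟨b1, b2, -, -, -, b6, -⟩ := h
      obtain ⟨⟨⟨T0, -⟩, -⟩, -⟩ := SDS_rng hB hy hD hq b1 b2
      simp only [mem_coe, mem_sigma]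
      refine ⟨(SDS_mem p1).2 b1, (SDS_mem p2).2 b2, ?_⟩
      change _ ∈ SR σ.a σ.T 2
      have b : 2 * ((σ.s : ℤ) * σ.t) ≤ σ.a := by exact_mod_cast b6
      have b' : 0 ≤ (σ.s : ℤ) * σ.t := by positivity
      refine (mem_SR (by positivity)).2 ⟨?_, ?_, ?_, by linarith, ?_⟩
      · simp only [Int.cast_natCast, Nat.abs_cast]; linarith
      · simp only [Int.cast_natCast, Nat.abs_cast]; linarith
      · rw [abs_of_nonneg b']; linarith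
      · have := co.of_mul_right_right.symm.add_mul_left_right (-σ.s)
        rwa [mul_neg, mul_comm, ← sub_eq_add_neg] at this
    · rw [ind_neg, zero_mul]
      rintro ⟨a, b, e⟩
      refine hx ⟨_, e, ?_⟩
      obtain ⟨α, β, v⟩ := x
      simp [mkS, Int.toNat_of_nonneg a.le, Int.toNat_of_nonneg b.le]
    · obtain ⟨s0, t0, -⟩ := SDS_pt hB hy hD (((mem_SD p1 p2).1 hσ).1 ▸ hq) ((mem_SD p1 p2).1 hσ).2
      simp only [inv σ hσ]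
      rw [ind_pos ⟨by exact_mod_cast s0, by exact_mod_cast t0, hσ⟩, one_mul]

end Pool.Agent.P.MP_8be758_nt.Pd
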