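import Pool.Agent.P.MP_8be758_nt.Pd.IfM

/-! Step SEG. -/

namespace Pool.Agent.P.MP_8be758_nt.Pd

open Finset Real Filter
open Pool.Agent.P.MP_8be758_nt.Par (nq mul cj det io et)
open Pool.Agent.P.MP_8be758_nt.Avg (rho)
open Pool.Agent.P.MP_8be758_nt.Pd.Mr

theorem SEG_pow {w z : ℂ} {M : ℝ} (hw : ‖w‖ ≤ M) (hz : ‖z‖ ≤ M) (n : ℕ) :
    ‖w ^ (n + 1) - z ^ (n + 1)‖ ≤ (n + 1) * ‖w - z‖ * M ^ n := by
  have M0 : 0 ≤ M := (norm_nonneg _).trans hw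
  induction n with
  | zero => simp
  | succ n ih =>
    have e : w ^ (n + 1 + 1) - z ^ (n + 1 + 1) =
        w * (w ^ (n + 1) - z ^ (n + 1)) + (w - z) * z ^ (n + 1) := by ring
    rw [e]
    refine (norm_add_le _ _).trans ?_
    rw [norm_mul, norm_mul, norm_pow]
    have h1 : ‖w‖ * ‖w ^ (n + 1) - z ^ (n + 1)‖ ≤ M * ((n + 1) * ‖w - z‖ * M ^ n) :=
      mul_le_mul hw ih (norm_nonneg _) M0
    have h2 : ‖w - z‖ * ‖z‖ ^ (n + 1) ≤ ‖w - z‖ * M ^ (n + 1) := by gcongr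
    refine (add_le_add h1 h2).trans_eq ?_
    push_cast; ring

theorem SEG_exp {w : ℂ} (hw : w ≠ 0) (k : ℤ) :
    (w ^ 2 / ((‖w‖ ^ 2 : ℝ) : ℂ)) ^ k = Complex.exp (((2 * k * Complex.arg w : ℝ) : ℂ) * Complex.I) := by
  have h0 : ((‖w‖ : ℝ) : ℂ) ≠ 0 := by exact_mod_cast norm_ne_zero_iff.2 hw
  have h1 := Complex.norm_mul_exp_arg_mul_I w
  have h2 : w ^ 2 / ((‖w‖ ^ 2 : ℝ) : ℂ) = Complex.exp (2 * (Complex.arg w * Complex.I)) := by
    rw [show (2 : ℂ) * (Complex.arg w * Complex.I) = ((2 : ℕ) : ℂ) * (Complex.arg w * Complex.I) by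
      norm_num, Complex.exp_nat_mul, div_eq_iff (by push_cast; exact pow_ne_zero _ h0)]
    conv_lhs => rw [← h1]
    push_cast; ring
  rw [h2, ← Complex.exp_int_mul]
  congr 1
  push_cast; ring

theorem SEG_norm {n : ℕ} (θ : ℕ → ℝ) {ε : ℝ} (hε : ε = 1 ∨ ε = -1) :
    ‖∑ t ∈ range n, Complex.exp (((ε * θ t : ℝ) : ℂ) * Complex.I)‖ =
      ‖∑ t ∈ range n, Complex.exp (((θ t : ℝ) : ℂ) * Complex.I)‖ := by
  rcases hε with rfl | rfl
  · simp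
  · rw [← Complex.norm_conj, map_sum]
    congr 1
    refine sum_congr rfl fun t _ => ?_
    rw [← Complex.exp_conj]
    congr 1
    simp

/-- the three derivative bounds at one point -/
theorem SEG_loc {κ : ℕ} {R τ m kk ε : ℝ} {w z : ℂ} (hτ : 0 < τ) (hR : 0 < R) (hm : 1 ≤ m)
    (hmτ : m * τ ≤ 1) (hε : ε = 1 ∨ ε = -1) (hs : 0 ≤ ε * kk * (z ^ (κ + 1)).im) (hz : ‖z‖ ≤ R)
    (hi : τ * R ^ (κ + 1) ≤ |(z ^ (κ + 1)).im|) {d : ℝ} (hd : ‖w - z‖ ≤ d * τ ^ 4 * R) (d1 : 1 ≤ d)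
    (h1 : 2 * (κ + 1) * d * 2 ^ κ * τ ≤ 1) (h2 : 4 ^ (κ + 1) * τ ≤ 1)
    (h3 : 8 * ((κ + 1).factorial : ℝ) * τ ≤ 1) :
    |kk| / R ^ (κ + 1) * τ ^ 2 ≤ 2 * kk * ε * m ^ (κ + 1) * κ.factorial * (-(w⁻¹ ^ (κ + 1)).im) ∧
    2 * kk * ε * m ^ (κ + 1) * κ.factorial * (-(w⁻¹ ^ (κ + 1)).im) ≤
      |kk| / R ^ (κ + 1) / τ ^ (κ + 3) ∧
    2 * |kk| * m ^ (κ + 2) * (κ + 1).factorial * |(w⁻¹ ^ (κ + 2)).im| ≤
      |kk| / R ^ (κ + 1) / (τ ^ (κ + 5) * R) := by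
  have κ0 : (0 : ℝ) ≤ κ := Nat.cast_nonneg _
  have p2 : (1 : ℝ) ≤ 2 ^ κ := one_le_pow₀ (by norm_num)
  have τ1 : τ ≤ 1 := by nlinarith
  have dτ : d * τ ≤ 1 := by
    have : d * τ * 1 ≤ d * τ * (2 * (κ + 1) * 2 ^ κ) :=
      mul_le_mul_of_nonneg_left (by nlinarith) (by positivity)
    linarith
  have τ3 : τ ^ 2 ≤ 1 := pow_le_one₀ hτ.le τ1
  have hd2 : ‖w - z‖ ≤ d * τ ^ 2 * R := by
    refine hd.trans ?_
    have : d * τ ^ 2 * R * τ ^ 2 ≤ d * τ ^ 2 * R := mul_le_of_le_one_right (by positivity) τ3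
    linarith
  have hd3 : ‖w - z‖ ≤ R := by
    refine hd2.trans ?_
    have : d * τ * τ ≤ 1 := mul_le_one₀ dτ hτ.le τ1
    nlinarith
  have hw : ‖w‖ ≤ 2 * R := by
    have := norm_add_le (w - z) z
    rw [sub_add_cancel] at this
    linarith
  have hp : ‖w ^ (κ + 1) - z ^ (κ + 1)‖ ≤ τ * R ^ (κ + 1) / 2 := by
    refine (SEG_pow hw (by linarith) κ).trans ?_
    calc (κ + 1) * ‖w - z‖ * (2 * R) ^ κ ≤ (κ + 1) * (d * τ ^ 2 * R) * (2 * R) ^ κ := by gcongr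
      _ = (2 * (κ + 1) * d * 2 ^ κ * τ) * (τ * R ^ (κ + 1) / 2) := by rw [mul_pow]; ring
      _ ≤ _ := mul_le_of_le_one_left (by positivity) h1
  have hq : |(w ^ (κ + 1)).im - (z ^ (κ + 1)).im| ≤ τ * R ^ (κ + 1) / 2 := by
    rw [← Complex.sub_im]
    exact (Complex.abs_im_le_norm _).trans hp
  have e1 : |ε| = 1 := by rcases hε with rfl | rfl <;> simp
  set a : ℝ := ‖w‖ ^ (κ + 1) with ha
  have ia : |(w ^ (κ + 1)).im| ≤ a := (Complex.abs_im_le_norm _).trans_eq (norm_pow _ _)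
  have RR : 0 < R ^ (κ + 1) := by positivity
  have la : τ * R ^ (κ + 1) / 2 ≤ a := by
    have := abs_sub_abs_le_abs_sub (z ^ (κ + 1)).im (w ^ (κ + 1)).im
    rw [abs_sub_comm] at this
    linarith
  have a0 : 0 < a := lt_of_lt_of_le (by positivity) la
  have ua : a ≤ 2 ^ (κ + 1) * R ^ (κ + 1) := by
    rw [← mul_pow]; exact pow_le_pow_left₀ (norm_nonneg _) hw _
  set g : ℝ := ε * kk * (w ^ (κ + 1)).im with hg
  have g1 : |kk| * (τ * R ^ (κ + 1) / 2) ≤ g := by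
    have u1 : ε * kk * (z ^ (κ + 1)).im = |kk| * |(z ^ (κ + 1)).im| := by
      rw [← abs_of_nonneg hs, abs_mul, abs_mul, e1, one_mul]
    have u2 : |ε * kk * ((w ^ (κ + 1)).im - (z ^ (κ + 1)).im)| ≤ |kk| * (τ * R ^ (κ + 1) / 2) := by
      rw [abs_mul, abs_mul, e1, one_mul]
      exact mul_le_mul_of_nonneg_left hq (abs_nonneg _)
    have u3 := mul_le_mul_of_nonneg_left hi (abs_nonneg kk)
    have u4 := (abs_le.1 u2).1
    nlinarith
  have g2 : g ≤ |kk| * a := by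
    refine (le_abs_self _).trans ?_
    rw [hg, abs_mul, abs_mul, e1, one_mul]
    exact mul_le_mul_of_nonneg_left ia (abs_nonneg _)
  have k0 := abs_nonneg kk
  have g0 : 0 ≤ g := le_trans (by positivity) g1
  have e2 : 2 * kk * ε * m ^ (κ + 1) * κ.factorial * (-(w⁻¹ ^ (κ + 1)).im) =
      2 * (m ^ (κ + 1) * κ.factorial) * (g / a ^ 2) := by
    rw [inv_pow, Complex.inv_im, Complex.normSq_eq_norm_sq, norm_pow, hg, ha]; ring
  have f1 : (1 : ℝ) ≤ κ.factorial := by exact_mod_cast κ.factorial_pos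
  have f2 : (κ.factorial : ℝ) ≤ (κ + 1).factorial := by
    exact_mod_cast Nat.factorial_le (Nat.le_succ κ)
  have m1 : m ≤ 1 / τ := by rw [le_div_iff₀ hτ]; exact hmτ
  have mp : ∀ i : ℕ, m ^ i ≤ 1 / τ ^ i := fun i => by
    rw [← one_div_pow]; exact pow_le_pow_left₀ (by linarith) m1 i
  rw [e2]
  refine ⟨?_, ?_, ?_⟩
  · have u1 : (1 : ℝ) ≤ m ^ (κ + 1) * κ.factorial := one_le_mul_of_one_le_of_one_le (one_le_pow₀ hm) f1
    have u2 : |kk| * (τ * R ^ (κ + 1) / 2) / (2 ^ (κ + 1) * R ^ (κ + 1)) ^ 2 ≤ g / a ^ 2 := by gcongr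
    have e4 : (4 : ℝ) ^ (κ + 1) = 2 ^ (κ + 1) * 2 ^ (κ + 1) := by rw [← mul_pow]; norm_num
    calc |kk| / R ^ (κ + 1) * τ ^ 2 = (4 ^ (κ + 1) * τ) *
          (2 * 1 * (|kk| * (τ * R ^ (κ + 1) / 2) / (2 ^ (κ + 1) * R ^ (κ + 1)) ^ 2)) := by
          rw [e4]; field_simp
      _ ≤ 2 * 1 * (|kk| * (τ * R ^ (κ + 1) / 2) / (2 ^ (κ + 1) * R ^ (κ + 1)) ^ 2) :=
          mul_le_of_le_one_left (by positivity) h2
      _ ≤ _ := by gcongr
  · have u2 : g / a ^ 2 ≤ |kk| / (τ * R ^ (κ + 1) / 2) := by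
      calc g / a ^ 2 ≤ |kk| * a / a ^ 2 := by gcongr
        _ = |kk| / a := by field_simp
        _ ≤ _ := by gcongr
    calc _ ≤ 2 * (1 / τ ^ (κ + 1) * (κ + 1).factorial) * (|kk| / (τ * R ^ (κ + 1) / 2)) := by
          gcongr; exact mp _
      _ = (4 * ((κ + 1).factorial : ℝ) * τ) * (|kk| / R ^ (κ + 1) / τ ^ (κ + 3)) := by
          field_simp; ring
      _ ≤ _ := mul_le_of_le_one_left (by positivity) (by nlinarith)
  · have lw : τ * R / 2 ≤ ‖w‖ := by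
      refine le_of_pow_le_pow_left₀ (Nat.succ_ne_zero κ) (norm_nonneg _) (le_trans ?_ la)
      have : (τ / 2) ^ (κ + 1) ≤ τ / 2 :=
        pow_le_of_le_one (by positivity) (by linarith) (Nat.succ_ne_zero κ)
      calc (τ * R / 2) ^ (κ + 1) = (τ / 2) ^ (κ + 1) * R ^ (κ + 1) := by rw [← mul_pow]; ring_nf
        _ ≤ τ / 2 * R ^ (κ + 1) := by gcongr
        _ = _ := by ring
    have u1 : |(w⁻¹ ^ (κ + 2)).im| ≤ 1 / (τ * R ^ (κ + 1) / 2 * (τ * R / 2)) := by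
      refine (Complex.abs_im_le_norm _).trans ?_
      rw [norm_pow, norm_inv, inv_pow, ← one_div, pow_succ, ← ha]
      gcongr
    calc _ ≤ 2 * |kk| * (1 / τ ^ (κ + 2)) * (κ + 1).factorial *
          (1 / (τ * R ^ (κ + 1) / 2 * (τ * R / 2))) := by
          gcongr; exact mp _
      _ = (8 * ((κ + 1).factorial : ℝ) * τ) * (|kk| / R ^ (κ + 1) / (τ ^ (κ + 5) * R)) := by
          field_simp; ring
      _ ≤ _ := mul_le_of_le_one_left (by positivity) h3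

theorem p_SEG (hVD1 : S_VD1) (hCHN : S_CHN) :
    S_SEG := by
  intro J
  obtain ⟨κ, hκ⟩ : ∃ κ, κ = 2 * J + 1 := ⟨_, rfl⟩
  obtain ⟨b, C, C0, H⟩ := hVD1 κ
  set d : ℝ := 2 * (κ + 3) with hd
  set K0 : ℝ := 2 * (κ + 1) * d * 2 ^ κ + 4 ^ (κ + 1) + 8 * ((κ + 1).factorial : ℝ) + 3 with hK
  have K1 : 0 < K0 := by positivity
  refine ⟨b + 6 * κ + 30, 1 / K0, C, by positivity, C0, ?_⟩
  intro R τ m k z n τ0 τ1 hR hk kR hm mτ hz hi n1 n2
  have e0 : 2 * J + 2 = κ + 1 := by omega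
  rw [e0] at hi
  have τK : K0 * τ ≤ 1 := by rwa [le_div_iff₀ K1, mul_comm] at τ1
  have q1 : 0 ≤ 2 * (κ + 1) * d * 2 ^ κ * τ := by positivity
  have q2 : 0 ≤ 4 ^ (κ + 1) * τ := by positivity
  have q3 : 0 ≤ 8 * ((κ + 1).factorial : ℝ) * τ := by positivity
  have q4 : K0 * τ = 2 * (κ + 1) * d * 2 ^ κ * τ + 4 ^ (κ + 1) * τ +
      8 * ((κ + 1).factorial : ℝ) * τ + 3 * τ := by rw [hK]; ring
  have τ3 : τ ≤ 1 / 3 := by linarith
  have τ4 : τ ≤ 1 := by linarith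
  have pw : ∀ i : ℕ, i ≤ b + 6 * κ + 30 → τ ^ (b + 6 * κ + 30) ≤ τ ^ i := fun i h =>
    pow_le_pow_of_le_one τ0.le τ4 h
  have R0 : 0 < R := by
    by_contra h
    have := mul_nonneg (pow_nonneg τ0.le (b + 6 * κ + 30)) (neg_nonneg.2 (not_lt.1 h))
    linarith
  have hR' : ∀ i : ℕ, i ≤ b + 6 * κ + 30 → 1 ≤ τ ^ i * R := fun i h =>
    hR.trans (mul_le_mul_of_nonneg_right (pw i h) R0.le)
  have hk' : ∀ i : ℕ, i ≤ b + 6 * κ + 30 → 1 ≤ τ ^ i * |(k : ℝ)| := fun i h =>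
    hk.trans (mul_le_mul_of_nonneg_right (pw i h) (abs_nonneg _))
  have R1 : 1 ≤ R := by simpa using hR' 0 (by omega)
  have k1 : 1 ≤ |(k : ℝ)| := by simpa using hk' 0 (by omega)
  have RR : 0 < R ^ (κ + 1) := by positivity
  have zi : z.im ≠ 0 := fun h => by
    have e : z = (z.re : ℂ) := Complex.ext (by simp) (by simp [h])
    rw [e, ← Complex.ofReal_pow, Complex.ofReal_im, abs_zero] at hi
    have : 0 < τ * R ^ (κ + 1) := by positivity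
    linarith
  obtain ⟨ε, hε, hs⟩ : ∃ ε : ℝ, (ε = 1 ∨ ε = -1) ∧ 0 ≤ ε * k * (z ^ (κ + 1)).im := by
    rcases le_total 0 ((k : ℝ) * (z ^ (κ + 1)).im) with h | h
    · exact ⟨1, Or.inl rfl, by linarith⟩
    · exact ⟨-1, Or.inr rfl, by linarith⟩
  obtain ⟨f, f1, f2, f3⟩ := hCHN z m (2 * k * ε) zi
  have loc : ∀ x ∈ Set.Icc (0 : ℝ) ((κ + 3) * n), _ := fun x hx =>
    SEG_loc (w := z + m * x) (d := d) τ0 R0 hm mτ hε hs hz hi (by
      rw [add_sub_cancel_left, ← Complex.ofReal_mul, Complex.norm_real,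
        norm_of_nonneg (mul_nonneg (by linarith) hx.1)]
      calc m * x ≤ m * ((κ + 3) * (2 * τ ^ 5 * R)) := by
            refine mul_le_mul_of_nonneg_left (hx.2.trans ?_) (by linarith)
            gcongr
        _ = (m * τ) * (d * τ ^ 4 * R) := by rw [hd]; ring
        _ ≤ _ := mul_le_of_le_one_left (by positivity) mτ)
      (by rw [hd]; linarith [(Nat.cast_nonneg κ : (0 : ℝ) ≤ κ)]) (by linarith) (by linarith)
      (by linarith)
  set u : ℝ := |(k : ℝ)| / R ^ (κ + 1) with hu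
  have u0 : 0 < u := by positivity
  have sg : (-1 : ℝ) ^ κ = -1 := by rw [hκ]; exact Odd.neg_one_pow ⟨J, rfl⟩
  have e1 : |ε| = 1 := by rcases hε with rfl | rfl <;> simp
  have key : u * τ ^ 2 + u / (τ ^ (κ + 5) * R) * n ≤ u / τ ^ (κ + 1) := by
    have v1 : u / (τ ^ (κ + 5) * R) * n ≤ u / (τ ^ (κ + 5) * R) * (2 * τ ^ 5 * R) := by gcongr
    have v2 : u / (τ ^ (κ + 5) * R) * (2 * τ ^ 5 * R) = (2 * τ) * (u / τ ^ (κ + 1)) := by
      field_simp; ring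
    have v3 : u * τ ^ 2 = (τ ^ (κ + 2) * τ) * (u / τ ^ (κ + 1)) := by
      field_simp; ring
    have v4 : τ ^ (κ + 2) * τ ≤ τ := mul_le_of_le_one_left τ0.le (pow_le_one₀ τ0.le τ4)
    have v5 : 0 < u / τ ^ (κ + 1) := by positivity
    nlinarith
  have main := H f (u * τ ^ 2) (u / τ ^ (κ + 3)) (u / (τ ^ (κ + 5) * R)) τ n (fun j x _ => f1 j x)
    (fun x hx => by
      obtain ⟨l1, l2, -⟩ := loc x hx
      rw [f3, sg]
      constructor <;> linarith)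
    (fun x hx => by
      obtain ⟨-, -, l3⟩ := loc x hx
      rw [f3 (κ + 1)]
      refine le_trans (le_of_eq ?_) l3
      simp only [abs_mul, abs_pow, abs_neg, abs_one, one_pow, e1, abs_two, Nat.abs_cast,
        abs_of_nonneg (show 0 ≤ m by linarith)]
      ring)
    τ0 (by linarith) (by positivity)
    (by
      rw [div_le_iff₀ (by positivity), ← pow_add, hu, div_le_iff₀ RR]
      refine kR.trans ?_
      have v1 := hR' (b + (κ + 3)) (by omega)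
      have v2 : R ^ (κ + 1) = R * (R * R ^ (2 * J)) := by rw [hκ]; ring
      have v3 : 0 < R ^ (2 * J) := by positivity
      rw [v2, ← mul_assoc]
      calc R ^ (2 * J) = 1 * (1 * R ^ (2 * J)) := by ring
        _ ≤ _ := by gcongr)
    (by
      have v1 := hR' (b + 5) (by omega)
      calc (1 : ℝ) ≤ τ ^ b * (τ ^ 5 * R) := by rw [← mul_assoc, ← pow_add]; exact v1
        _ ≤ _ := by gcongr)
    (by
      refine key.trans ?_
      have v1 := hk' (b + 5 * (κ + 1) + 4 + (κ + 1)) (by omega)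
      calc u / τ ^ (κ + 1) = 1 * (u / τ ^ (κ + 1)) := by ring
        _ ≤ (τ ^ (b + 5 * (κ + 1) + 4 + (κ + 1)) * |(k : ℝ)|) * (u / τ ^ (κ + 1)) := by gcongr
        _ = τ ^ b * (τ ^ 5 * R) ^ (κ + 1) * (u * τ ^ 2) ^ 2 := by
            have : |(k : ℝ)| = u * R ^ (κ + 1) := by rw [hu]; field_simp
            rw [this]; field_simp; ring
        _ ≤ _ := by gcongr)
    (by
      have v1 := hR' (b + 9 + (κ + 1) + (κ + 3)) (by omega)
      calc _ ≤ u / τ ^ (κ + 1) * (u / τ ^ (κ + 3)) := by gcongr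
        _ = 1 * (u / τ ^ (κ + 1) * (u / τ ^ (κ + 3))) := by ring
        _ ≤ (τ ^ (b + 9 + (κ + 1) + (κ + 3)) * R) * (u / τ ^ (κ + 1) * (u / τ ^ (κ + 3))) := by gcongr
        _ = τ ^ b * (τ ^ 5 * R) * (u * τ ^ 2) ^ 2 := by field_simp; ring
        _ ≤ _ := by gcongr)
  refine le_trans (le_of_eq ?_) main
  rw [← SEG_norm (ε := ε) (fun t => f 0 t) hε]
  congr 1
  refine sum_congr rfl fun t _ => ?_
  have w0 : z + m * t ≠ 0 := fun h => zi (by simpa using congrArg Complex.im h)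
  rw [SEG_exp w0, f2, Complex.ofReal_natCast]
  congr 3
  rcases hε with rfl | rfl <;> ring

end Pool.Agent.P.MP_8be758_nt.Pd
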