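import Pool.Agent.P.MP_8be758_nt.Pd.IfM

/-! Step SH0. -/

namespace Pool.Agent.P.MP_8be758_nt.Pd

open Finset Real Filter
open Pool.Agent.P.MP_8be758_nt.Par (nq mul cj det io et)
open Pool.Agent.P.MP_8be758_nt.Avg (rho)
open Pool.Agent.P.MP_8be758_nt.Pd.Mr

theorem SH0_norm (s : Finset V2) (g : V2 → ℂ) (h : ∀ v, ‖g v‖ ≤ 1) : ‖∑ v ∈ s, g v‖ ≤ s.card :=
  (norm_sum_le _ _).trans ((sum_le_card_nsmul _ _ 1 fun v _ => h v).trans_eq (by simp))

theorem SH0_mem {A : ℕ} (hA : 2 ≤ A) {a b : ℝ} (ha : 0 ≤ a) (hb : 0 ≤ b) {v : V2} :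
    v ∈ An (Q0 A) (a ^ 2) (b ^ 2) ↔ a < ‖io A v‖ ∧ ‖io A v‖ ≤ b := by
  rw [mem_An0 hA, ← Par.norm_io_sq hA, pow_lt_pow_iff_left₀ ha (norm_nonneg _) two_ne_zero,
    pow_le_pow_iff_left₀ (norm_nonneg _) hb two_ne_zero]

theorem p_SH0 (hAREA : S_AREA) :
    S_SH0 := by
  intro A hA
  obtain ⟨c, C, -, C0, h⟩ := hAREA A (by omega)
  replace h := h _ (Q0_mem (by omega))
  refine ⟨4 + 14 * C, by linarith, fun N r d g hN hr hd hg => ?_⟩
  obtain ⟨R, R0, rfl⟩ : ∃ R : ℝ, 0 ≤ R ∧ N = R ^ 2 := ⟨√N, sqrt_nonneg _, (sq_sqrt (by linarith)).symm⟩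
  have R1 : 1 ≤ R := by nlinarith
  rw [sqrt_sq R0]
  have hB : ∀ v, v ∈ An (Q0 A) 0 (R ^ 2) ↔ 0 < ‖io A v‖ ∧ ‖io A v‖ ≤ R := fun v => by
    rw [← SH0_mem hA le_rfl R0, zero_pow two_ne_zero]
  have rR : 1 ≤ r * R := by nlinarith
  rcases le_total R r with h1 | h1
  · have a := (h 0 (R ^ 2) le_rfl (by positivity)).2
    rw [sqrt_sq R0] at a
    have b : R ^ 2 - 0 + R + 1 ≤ 3 * (r * R) := by nlinarith
    have e := mul_le_mul_of_nonneg_left b C0.le
    have f := norm_sub_le (∑ v ∈ An (Q0 A) 0 (R ^ 2), g (v + d)) (∑ v ∈ An (Q0 A) 0 (R ^ 2), g v)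
    have f1 := SH0_norm (An (Q0 A) 0 (R ^ 2)) (fun v => g (v + d)) fun v => hg _
    have f2 := SH0_norm (An (Q0 A) 0 (R ^ 2)) g hg
    nlinarith [mul_pos C0 (lt_of_lt_of_le one_pos rR)]
  · set B := An (Q0 A) 0 (R ^ 2)
    set T := An (Q0 A) ((R - r) ^ 2) ((R + r) ^ 2)
    have hT : ∀ v, v ∈ T ↔ R - r < ‖io A v‖ ∧ ‖io A v‖ ≤ R + r := fun v =>
      SH0_mem hA (by linarith) (by linarith)
    have a := (h ((R - r) ^ 2) ((R + r) ^ 2) (by positivity) (by nlinarith)).2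
    rw [sqrt_sq (by linarith)] at a
    have e : ∑ v ∈ B, g (v + d) = ∑ v ∈ B.image (· + d), g v :=
      (sum_image fun x _ y _ e => add_right_cancel e).symm
    have np : ∀ v : V2, v ≠ 0 → 0 < ‖io A v‖ := fun v hv =>
      one_pos.trans_le (Par.one_le_norm_io hA hv)
    have s1 : B.image (· + d) \ B ⊆ insert 0 (insert d T) := fun w hw => by
      obtain ⟨h2, h3⟩ := mem_sdiff.1 hw
      obtain ⟨v, hv, rfl⟩ := mem_image.1 h2
      rcases eq_or_ne (v + d) 0 with h0 | h0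
      · exact mem_insert.2 (Or.inl h0)
      have h4 := ((hB v).1 hv).2
      have h5 : R < ‖io A (v + d)‖ := not_le.1 fun h' => h3 ((hB _).2 ⟨np _ h0, h'⟩)
      have h6 := norm_add_le (io A v) (io A d)
      rw [← Par.io_add] at h6
      exact mem_insert_of_mem (mem_insert_of_mem ((hT _).2 ⟨by linarith, by linarith⟩))
    have s2 : B \ B.image (· + d) ⊆ insert 0 (insert d T) := fun w hw => by
      obtain ⟨h2, h3⟩ := mem_sdiff.1 hw
      rcases eq_or_ne w d with h0 | h0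
      · exact mem_insert_of_mem (mem_insert.2 (Or.inl h0))
      have h4 := ((hB w).1 h2).2
      have h5 : R < ‖io A (w - d)‖ := not_le.1 fun h' =>
        h3 (mem_image.2 ⟨w - d, (hB _).2 ⟨np _ (sub_ne_zero.2 h0), h'⟩, sub_add_cancel _ _⟩)
      have h6 := norm_sub_le (io A w) (io A d)
      rw [← Par.io_sub] at h6
      exact mem_insert_of_mem (mem_insert_of_mem ((hT _).2 ⟨by linarith, by linarith⟩))
    have c1 : ((insert 0 (insert d T)).card : ℝ) ≤ T.card + 2 := by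
      have := (card_insert_le 0 (insert d T)).trans (Nat.succ_le_succ (card_insert_le d T))
      exact_mod_cast this
    have t1 : ((B.image (· + d) \ B).card : ℝ) ≤ (insert 0 (insert d T)).card := by
      exact_mod_cast card_le_card s1
    have t2 : ((B \ B.image (· + d)).card : ℝ) ≤ (insert 0 (insert d T)).card := by
      exact_mod_cast card_le_card s2
    rw [e, ← sum_sdiff_sub_sum_sdiff]
    have f := norm_sub_le (∑ v ∈ B.image (· + d) \ B, g v) (∑ v ∈ B \ B.image (· + d), g v)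
    have f1 := SH0_norm (B.image (· + d) \ B) g hg
    have f2 := SH0_norm (B \ B.image (· + d)) g hg
    have b : (R + r) ^ 2 - (R - r) ^ 2 + (R + r) + 1 ≤ 7 * (r * R) := by nlinarith
    have e := mul_le_mul_of_nonneg_left b C0.le
    nlinarith

end Pool.Agent.P.MP_8be758_nt.Pd
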