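import Pool.Agent.P.MP_8be758_nt.Pd.IfM

/-! Step SIEV. -/

namespace Pool.Agent.P.MP_8be758_nt.Pd

open Finset Real Filter
open Pool.Agent.P.MP_8be758_nt.Par (nq mul cj det io et)
open Pool.Agent.P.MP_8be758_nt.Avg (rho)
open Pool.Agent.P.MP_8be758_nt.Pd.Mr

theorem SIEV_ev (B c : ℝ) (hB : 0 ≤ B) (hc : 0 < c) :
    ∀ᶠ N : ℝ in atTop, B * N ^ (1 - c) ≤ N / log N := by
  have h := (isLittleO_log_rpow_atTop hc).bound (show (0 : ℝ) < 1 / (B + 1) by positivity)
  filter_upwards [h, eventually_gt_atTop 1] with N h1 h2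
  have hN : 0 < N := by linarith
  have hl : 0 < log N := log_pos h2
  have hp : 0 < N ^ c := rpow_pos_of_pos hN c
  rw [norm_of_nonneg hl.le, norm_of_nonneg hp.le] at h1
  rw [le_div_iff₀ hl, rpow_sub hN, rpow_one]
  have h3 : (B + 1) * log N ≤ N ^ c := by
    rw [one_div, ← div_eq_inv_mul, le_div_iff₀ (by positivity)] at h1
    linarith
  have h4 : B * log N ≤ N ^ c := by linarith
  calc B * (N / N ^ c) * log N = N * (B * log N / N ^ c) := by ring
    _ ≤ N * 1 := mul_le_mul_of_nonneg_left ((div_le_one hp).2 h4) hN.le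
    _ = N := mul_one N

theorem p_SIEV (hOK : S_OK) (hMC : S_MC) (hEQK : S_EQK) (hDV2 : S_DV2) (hPRD : S_PRD) (hAREA : S_AREA) :
    S_SIEV := by
  intro A J hodd hA
  obtain ⟨c, C1, hc, hc2, hC1, HE⟩ := hEQK A J (by omega)
  obtain ⟨Cm, HM⟩ := hMC 2
  obtain ⟨Cp, hCp, HP⟩ := hPRD A hodd hA
  obtain ⟨ca, Ca, -, hCa, HA⟩ := hAREA A (by omega)
  have hA3 : (3 : ℝ) ≤ A := by exact_mod_cast hA
  set θ : ℝ := c / (8 * (Cm + 1)) with hθ
  have hθ0 : 0 < θ := by positivity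
  have hθ1 : 4 * θ * Cm ≤ c / 2 := by
    rw [hθ, show 4 * (c / (8 * ((Cm : ℝ) + 1))) * Cm = c / 2 * (Cm / (Cm + 1)) by field_simp; ring]
    exact mul_le_of_le_one_right (by positivity) ((div_le_one (by positivity)).2 (by linarith))
  have hθ2 : θ ≤ 1 / 2 := by
    rw [hθ, div_le_iff₀ (by positivity)]
    have : (0 : ℝ) ≤ Cm := Nat.cast_nonneg _
    nlinarith
  refine ⟨9 / 2 * Ca * Cp / θ + 1, by positivity, fun n hn => ?_⟩
  have hev : ∀ᶠ N : ℝ in atTop, C1 * n * N ^ (1 - c / 2) ≤ N / log N ∧ 4 * (A : ℝ) ≤ N ^ θ ∧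
      (n : ℝ) ≤ N ∧ 1 < N :=
    (SIEV_ev _ _ (by positivity) (by positivity)).and
      (((tendsto_rpow_atTop hθ0).eventually_ge_atTop _).and
        ((eventually_ge_atTop _).and (eventually_gt_atTop _)))
  obtain ⟨N0, hN0⟩ := eventually_atTop.1 hev
  refine ⟨N0, fun N k ζ hN hk hkN hζ => ?_⟩
  obtain ⟨e1, e2, e3, e4⟩ := hN0 N hN
  have hNp : 0 < N := by linarith
  have hl : 0 < log N := log_pos e4
  set y : ℝ := N ^ θ with hy
  have hy2 : 2 ≤ y := by linarith
  have hy0 : 0 ≤ y := by linarith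
  have hMx : 1 ≤ y ^ Cm := one_le_pow₀ (by linarith)
  have hyN : y ≤ √N := by
    rw [sqrt_eq_rpow]
    exact rpow_le_rpow_of_exponent_le e4.le hθ2
  have hOK2 : S2.OK := hOK.2.1
  have hav : ∀ q : ℕ, q.Prime → S2.av (q ^ 1) (fun v => 1 - ind ((q : ℤ) ∣ nq A v)) =
      1 - (rho A q * ((q : ℝ) - 1) + 1) / (q : ℝ) ^ 2 := fun q hq => by
    rw [pow_one, Sys.av_sub, Sys.av_const _ _ (hOK2.1 q hq.pos), (hDV2 A q hq).2]
  have H := HM V2 S2 (An (Q0 A) 0 N) (fun v => KF n (ζ * ek A k v)) (An (Q0 A) 0 N).card (y ^ Cm)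
    (C1 * n * (y ^ Cm) ^ 3 * N ^ (1 - c)) y 1 1 1 (PP (4 * A) y) (fun _ => 1)
    (fun q v => 1 - ind ((q : ℤ) ∣ nq A v)) hOK2 (HE N _ k n ζ hn e3 hMx hk hkN hζ)
    (fun v _ => KF_nonneg _ _) (Nat.cast_nonneg _) (by positivity) le_rfl hy2 one_pos
    (fun _ _ _ => rfl) (fun _ => ⟨zero_le_one, le_rfl⟩)
    (fun q hq => by
      obtain ⟨h1, h2, h3⟩ := (mem_PP hy0).1 hq
      have h4 : (12 : ℝ) < q := by linarith
      have h5 : 12 < q := by exact_mod_cast h4
      refine ⟨h1, h3, by omega, Nat.coprime_one_left _, fun v w h => ?_,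
        fun v => ⟨sub_nonneg.2 (ind_le_one _), sub_le_self _ (ind_nonneg _)⟩, ?_⟩
      · rw [pow_one] at h
        have := (hDV2 A q h1).1 v w h
        simp only at this ⊢
        rw [this]
      · rw [hav q h1]
        have h6 : (rho A q : ℝ) ≤ 2 := by exact_mod_cast rho_le_two h1
        refine sub_le_sub_left ?_ _
        rw [div_le_div_iff₀ (by positivity) (by positivity)]
        have h7 : (rho A q : ℝ) * (q - 1) ≤ 2 * (q - 1) :=
          mul_le_mul_of_nonneg_right h6 (by linarith)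
        push_cast
        nlinarith)
    (by simp)
  rw [Sys.av_const _ _ (hOK2.1 1 one_pos),
    prod_congr rfl fun q hq => hav q ((mem_PP hy0).1 hq).1] at H
  have hP := HP y e2
  have hcard : ((An (Q0 A) 0 N).card : ℝ) ≤ 3 * Ca * N := by
    refine (HA _ (Q0_mem (by omega)) 0 N le_rfl hNp.le).2.trans ?_
    have : √N ≤ N := by
      rw [sqrt_le_left hNp.le]; nlinarith
    nlinarith
  have hlog : log y = θ * log N := log_rpow hNp θ
  have herr : y ^ (Cm * 1) * (C1 * n * (y ^ Cm) ^ 3 * N ^ (1 - c)) ≤ N / log N := by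
    refine le_trans ?_ e1
    have h1 : y ^ (Cm * 1) * (y ^ Cm) ^ 3 = N ^ (4 * θ * Cm) := by
      rw [mul_one, ← pow_succ', ← pow_mul, hy, ← rpow_natCast, ← rpow_mul hNp.le]
      congr 1
      push_cast
      ring
    calc _ = C1 * n * (y ^ (Cm * 1) * (y ^ Cm) ^ 3 * N ^ (1 - c)) := by ring
      _ = C1 * n * N ^ (4 * θ * Cm + (1 - c)) := by rw [h1, ← rpow_add hNp]
      _ ≤ _ := mul_le_mul_of_nonneg_left (rpow_le_rpow_of_exponent_le e4.le (by linarith))
        (by positivity)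
  set R := ∏ q ∈ PP (4 * A) y, (1 - (rho A q * ((q : ℝ) - 1) + 1) / (q : ℝ) ^ 2) with hR
  have hmain : ((An (Q0 A) 0 N).card : ℝ) * R ≤ 3 * Ca * N * (Cp / (θ * log N)) := by
    rw [hlog] at hP
    exact (mul_le_mul_of_nonneg_left hP (Nat.cast_nonneg _)).trans
      (mul_le_mul_of_nonneg_right hcard (by positivity))
  calc _ = ∑ v ∈ (An (Q0 A) 0 N).filter (Ro A √N), KF n (ζ * ek A k v) *
        (1 * ∏ q ∈ PP (4 * A) y, (1 - ind ((q : ℤ) ∣ nq A v))) := by
        refine sum_congr rfl fun v hv => ?_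
        rw [prod_eq_one, mul_one, mul_one]
        intro q hq
        obtain ⟨h1, h2, h3⟩ := (mem_PP hy0).1 hq
        rw [ind_neg, sub_zero]
        intro hd
        rcases (mem_filter.1 hv).2 q h1 hd with h | h
        · have : (q : ℝ) ≤ 4 * A := by exact_mod_cast h
          linarith
        · linarith
    _ ≤ ∑ v ∈ An (Q0 A) 0 N, KF n (ζ * ek A k v) *
        (1 * ∏ q ∈ PP (4 * A) y, (1 - ind ((q : ℤ) ∣ nq A v))) :=
        sum_le_sum_of_subset_of_nonneg (filter_subset _ _) fun v _ _ =>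
          mul_nonneg (KF_nonneg _ _) (mul_nonneg zero_le_one
            (prod_nonneg fun _ _ => sub_nonneg.2 (ind_le_one _)))
    _ ≤ 3 / 2 * (3 * Ca * N * (Cp / (θ * log N))) + N / log N := by
        have := (abs_le.1 H).2
        rw [one_mul, pow_one] at this
        linarith
    _ = _ := by field_simp; ring

end Pool.Agent.P.MP_8be758_nt.Pd
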