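import Pool.Agent.P.MP_8be758_nt.Pd.IfN

/-! Step SMB. -/

namespace Pool.Agent.P.MP_8be758_nt.Pd

open Finset Real Filter
open Pool.Agent.P.MP_8be758_nt.Par (det)
open Pool.Agent.P.MP_8be758_nt.Avg (rho)
open scoped Classical

theorem SMB_one {T V : Type} (S : Finset T) (f : T → V) (c : T → ℝ) (G : V → ℝ) :
    ∑ τ ∈ S, G (f τ) * c τ = ∑ x ∈ S.image f, G x * ∑ τ ∈ S, ind (f τ = x) * c τ := by
  simp only [mul_sum]
  rw [sum_comm]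
  refine sum_congr rfl fun τ hτ => ?_
  rw [sum_eq_single_of_mem (f τ) (mem_image_of_mem f hτ) fun x _ hx => by
    rw [ind_neg hx.symm, zero_mul, mul_zero], ind_pos rfl, one_mul]

theorem SMB_two {T V : Type} (S : Finset T) (f : T → V) (c : T → ℝ) (F : V → V → ℝ) :
    ∑ τ ∈ S, ∑ τ' ∈ S, F (f τ) (f τ') * (c τ * c τ') = ∑ x ∈ S.image f, ∑ x' ∈ S.image f,
      F x x' * ((∑ τ ∈ S, ind (f τ = x) * c τ) * ∑ τ ∈ S, ind (f τ = x') * c τ) := by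
  have h := SMB_one S f c fun x => ∑ x' ∈ S.image f, F x x' * ∑ τ ∈ S, ind (f τ = x') * c τ
  simp only [sum_mul _ _ (∑ τ ∈ S, ind (f τ = _) * c τ)] at h
  refine (sum_congr rfl fun τ _ => ?_).trans (h.trans (sum_congr rfl fun x _ =>
    sum_congr rfl fun x' _ => by ring))
  rw [← SMB_one S f c (F (f τ)), sum_mul]
  exact sum_congr rfl fun τ' _ => by ring

theorem SMB_inv (hK4 : S_K4) {A : ℕ} (hA : 1 ≤ A) {x : VT} (h : x.Ok A) (i : Fin 3) :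
    (x.v i).v i = x := by
  obtain ⟨-, -, -, -, -, -, -, -, -, -, h1, h2, h3⟩ := hK4 A x hA h
  fin_cases i
  exacts [h1, h2, h3]

theorem p_SMB (hK4 : S_K4) (hTUP : S_TUP) (hVERT : S_VERT) (hNSW : S_NSW) (hNSTAR : S_NSTAR) :
    S_SMB := by
  refine ((Unif.ev hTUP).and (Ev.and hVERT (Ev.and hNSW hNSTAR))).imp 0 fun z hz C hC =>
    ⟨2 * C ^ 3, by nlinarith [one_le_pow₀ hC (n := 3)], (eventually_ge_atTop 0).mono ?_⟩
  rintro y hy ⟨⟨-, -, -, h1⟩, C0, -, e0, ⟨-, -, -, h2⟩, C1, -, e1, ⟨C2, a2, e2, h3⟩, C3, a3, e3, h4⟩ i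
  generalize hρ : (⟨z, y⟩ : Pr) = ρ at *
  have hA : 1 ≤ ρ.A := by
    have := hz.2.1
    subst hρ
    exact le_trans (by norm_num) this
  have hX : 0 ≤ ρ.X := by
    subst hρ
    exact pow_nonneg hy _
  have hT : ∀ τ ∈ ρ.Tb, τ ∈ ρ.Tg := fun τ h => (mem_filter.1 h).1
  have hI : ∀ τ ∈ ρ.Tb, ((ρ.cy τ).v i).v i = ρ.cy τ := fun τ h =>
    SMB_inv hK4 hA (h1 τ (mem_Tg.1 (hT τ h)).1).1 i
  rw [SMB_two ρ.Tb (fun τ => (ρ.cy τ).v i) (fun τ => ρ.cw (1 / 6) (ρ.cy τ))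
    fun x x' => ind (x.b = x'.b)]
  refine (h4 _ (kw i) _ (C2 * exp (-ρ.La)) (C2 * exp (-(5 / 2) * ρ.La)) (kw_ok i) (by positivity)
    (by positivity) fun x hx => ?_).trans ?_
  · obtain ⟨τ, hτ, rfl⟩ := mem_image.1 hx
    have e : ∑ τ' ∈ ρ.Tb, ind ((ρ.cy τ').v i = (ρ.cy τ).v i) * ρ.cw (1 / 6) (ρ.cy τ') =
        ρ.tw (ρ.cy τ) := sum_congr rfl fun τ' h' => by
      rw [show ((ρ.cy τ').v i = (ρ.cy τ).v i) = (ρ.cy τ' = ρ.cy τ) from propext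
        ⟨fun e => by rw [← hI τ' h', e, hI τ hτ], fun e => by rw [e]⟩]
    rw [e]
    exact ⟨h2 τ (hT τ hτ) i, (h3 τ hτ).1, (h3 τ hτ).2.1, (h3 τ hτ).2.2 i⟩
  have e4 : exp (-ρ.La) ^ 2 * exp (-3 * ρ.La) = exp (-5 * ρ.La) := by
    rw [sq, ← exp_add, ← exp_add]; congr 1; ring
  have e5 : exp (-(5 / 2) * ρ.La) ^ 2 = exp (-5 * ρ.La) := by
    rw [sq, ← exp_add]; congr 1; ring
  rw [mul_pow, mul_pow, mul_assoc (C2 ^ 2), e4, e5]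
  have e6 : C3 * C2 ^ 2 ≤ C * C ^ 2 := by gcongr <;> linarith
  have := mul_le_mul_of_nonneg_right e6 (mul_nonneg hX (exp_pos (-5 * ρ.La)).le)
  linarith

end Pool.Agent.P.MP_8be758_nt.Pd
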