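import Pool.Agent.P.MP_8be758_nt.Pd.IfH

/-! Step SQT. -/

namespace Pool.Agent.P.MP_8be758_nt.Pd

open Finset Real Filter
open Pool.Agent.P.MP_8be758_nt.Par (det)
open Pool.Agent.P.MP_8be758_nt.Avg (rho)

theorem SQT_ev (ψ : Fm) (g : ℤ) (u : V2) : ev ψ (g • u) = g ^ 2 * ev ψ u := by
  simp only [ev, Prod.smul_fst, Prod.smul_snd, smul_eq_mul]
  ring

theorem SQT_div {ψ : Fm} {g : ℕ} {u : V2} {Y : ℝ} (hg : 0 < g) (h1 : 0 < (ev ψ ((g : ℤ) • u) : ℝ))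
    (h2 : (ev ψ ((g : ℤ) • u) : ℝ) ≤ Y) : 0 < (ev ψ u : ℝ) ∧ (ev ψ u : ℝ) ≤ Y / (g : ℝ) ^ 2 := by
  rw [SQT_ev] at h1 h2
  push_cast at h1 h2
  exact ⟨(mul_pos_iff_of_pos_left (by positivity)).1 h1,
    (le_div_iff₀ (by positivity)).2 (by linarith)⟩

theorem SQT_cover {A : ℕ} {ψ : Fm} (hA : 1 ≤ A) (hψ : IsF A ψ) {Y z : ℝ} {v : V2}
    (hv : v ∈ An ψ 0 Y) {p : ℕ} (hp : p.Prime) (hz : z < p) (hd : (p : ℤ) ^ 2 ∣ ev ψ v) :
    p ∈ PP z Y ∧ (v ∈ (An ψ 0 (Y / (p : ℝ) ^ 2)).image ((p : ℤ) • ·) ∨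
      ∃ g ∈ Ioo 0 (⌊Y⌋₊ + 1), v ∈ ((VV ψ 0 (Y / (g : ℝ) ^ 2)).filter
        fun u => ((p ^ 2 : ℕ) : ℤ) ∣ ev ψ u).image ((g : ℤ) • ·)) := by
  obtain ⟨h1, h2⟩ := (mem_An hA hψ).1 hv
  have h3 : 0 < ev ψ v := by exact_mod_cast h1
  have hY : 0 ≤ Y := h1.le.trans h2
  have le : ∀ g : ℕ, (g : ℤ) ^ 2 ∣ ev ψ v → (g : ℝ) ≤ Y := fun g h => by
    have : (g : ℤ) ≤ ev ψ v := Int.le_of_dvd h3 ((dvd_pow_self _ two_ne_zero).trans h)
    exact le_trans (by exact_mod_cast this) h2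
  refine ⟨(mem_PP hY).2 ⟨hp, hz, le p hd⟩, ?_⟩
  have hg : 0 < Int.gcd v.1 v.2 := Nat.pos_of_ne_zero fun e => by
    obtain ⟨e1, e2⟩ := Int.gcd_eq_zero_iff.1 e
    simp [ev, e1, e2] at h3
  obtain ⟨g, a, b, g0, c, e1, e2⟩ := Int.exists_gcd_one' hg
  have e : v = (g : ℤ) • (a, b) := Prod.ext (e1.trans (mul_comm _ _)) (e2.trans (mul_comm _ _))
  by_cases h : p ∣ g
  · obtain ⟨k, rfl⟩ := h
    rw [Nat.cast_mul, mul_smul] at e
    exact .inl (mem_image.2 ⟨_, (mem_An hA hψ).2 (SQT_div hp.pos (e ▸ h1) (e ▸ h2)), e.symm⟩)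
  · refine .inr ⟨g, mem_Ioo.2 ⟨g0, Nat.lt_succ_of_le (Nat.le_floor (le g ?_))⟩, mem_image.2
      ⟨(a, b), mem_filter.2 ⟨(mem_VV hA hψ).2 ⟨Int.isCoprime_iff_gcd_eq_one.2 c,
        SQT_div g0 (e ▸ h1) (e ▸ h2)⟩, ?_⟩, e.symm⟩⟩
    · rw [e, SQT_ev]
      exact dvd_mul_right _ _
    · rw [e, SQT_ev] at hd
      push_cast
      exact (Nat.isCoprime_iff_coprime.2 ((Nat.Prime.coprime_iff_not_dvd hp).2 h)).pow.dvd_of_dvd_mul_left
        hd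

theorem SQT_sum {z : ℝ} (hz : 0 < z) (Y : ℝ) : ∑ p ∈ PP z Y, ((p : ℝ) ^ 2)⁻¹ ≤ 2 / z := by
  refine (sum_le_sum_of_subset_of_nonneg (t := Ioo ⌊z⌋₊ (⌊Y⌋₊ + 1)) (fun p hp => ?_)
    fun _ _ _ => by positivity).trans ((sum_Ioo_inv_sq_le _ _).trans ?_)
  · exact mem_Ioo.2 ⟨(Nat.floor_lt hz.le).2 (lt_of_PP hp), mem_range.1 (mem_filter.1 hp).1⟩
  · exact div_le_div_of_nonneg_left (by norm_num) hz (Nat.lt_floor_add_one z).le

theorem p_SQT (hAREA : S_AREA) (hLATD : S_LATD) :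
    S_SQT := by
  classical
  intro A hA
  obtain ⟨c, C, -, hC, h1⟩ := hAREA A hA
  obtain ⟨D, hD, h2⟩ := hLATD A hA
  refine ⟨(3 * C + 4 * D) * 2, by positivity, fun ψ hψ Y z hY hz => ?_⟩
  have hF : IsF A ψ := (mem_filter.1 hψ).2
  have hA' : (1 : ℝ) ≤ A := by exact_mod_cast hA
  have a1 : ∀ Y : ℝ, 0 ≤ Y → ((An ψ 0 Y).card : ℝ) ≤ 3 * C * Y := fun Y hY => by
    rcases lt_or_ge Y 1 with h | h
    · rw [eq_empty_of_forall_notMem (s := An ψ 0 Y) fun v hv => ?_]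
      · simp only [card_empty, Nat.cast_zero]
        positivity
      · obtain ⟨b1, b2⟩ := (mem_An hA hF).1 hv
        have b3 : 0 < ev ψ v := by exact_mod_cast b1
        have b4 : ev ψ v < 1 := by exact_mod_cast b2.trans_lt h
        omega
    · have : √Y ≤ Y := sqrt_le_iff.2 ⟨hY, by nlinarith⟩
      exact (h1 ψ hψ 0 Y le_rfl hY).2.trans (by nlinarith)
  have a2 : ∀ p ∈ PP z Y, ∀ Y : ℝ, 0 ≤ Y → (((VV ψ 0 Y).filter
      fun u => ((p ^ 2 : ℕ) : ℤ) ∣ ev ψ u).card : ℝ) ≤ 2 * D * Y / (p : ℝ) ^ 2 := by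
    intro p hp Y hY
    have hp1 := prime_of_PP hp
    have hp2 : 4 * A < p := by exact_mod_cast hz.trans_lt (lt_of_PP hp)
    have := h2 ψ hψ (p ^ 2) Y (pow_pos hp1.pos 2) (Nat.Coprime.pow_left _ (Nat.Coprime.mul_right
      (Nat.coprime_of_lt_prime (by omega) (by omega) hp1)
      (Nat.coprime_of_lt_prime (by omega) (by omega) hp1))) hY
    rw [Nat.primeFactors_prime_pow two_ne_zero hp1, card_singleton] at this
    exact this.trans_eq (by push_cast; ring)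
  calc _ ≤ ∑ v ∈ An ψ 0 Y, ∑ p ∈ PP z Y, (ind (v ∈ (An ψ 0 (Y / (p : ℝ) ^ 2)).image ((p : ℤ) • ·)) +
        ∑ g ∈ Ioo 0 (⌊Y⌋₊ + 1), ind (v ∈ ((VV ψ 0 (Y / (g : ℝ) ^ 2)).filter
          fun u => ((p ^ 2 : ℕ) : ℤ) ∣ ev ψ u).image ((g : ℤ) • ·))) := by
        refine sum_le_sum fun v hv => ?_
        have n := fun p (_ : p ∈ PP z Y) => add_nonneg
          (ind_nonneg (v ∈ (An ψ 0 (Y / (p : ℝ) ^ 2)).image ((p : ℤ) • ·)))
          (sum_nonneg fun g (_ : g ∈ Ioo 0 (⌊Y⌋₊ + 1)) => ind_nonneg (v ∈ ((VV ψ 0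
            (Y / (g : ℝ) ^ 2)).filter fun u => ((p ^ 2 : ℕ) : ℤ) ∣ ev ψ u).image ((g : ℤ) • ·)))
        by_cases h : ∃ p : ℕ, p.Prime ∧ z < p ∧ (p : ℤ) ^ 2 ∣ ev ψ v
        · rw [ind_pos h]
          obtain ⟨p, b1, b2, b3⟩ := h
          obtain ⟨b4, b5⟩ := SQT_cover hA hF hv b1 b2 b3
          refine le_trans ?_ (single_le_sum n b4)
          rcases b5 with b5 | ⟨g, b5, b6⟩
          · rw [ind_pos b5]
            exact le_add_of_nonneg_right (sum_nonneg fun _ _ => ind_nonneg _)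
          · refine le_add_of_nonneg_of_le (ind_nonneg _) (le_trans ?_
              (single_le_sum (fun _ _ => ind_nonneg _) b5))
            exact (ind_pos b6).ge
        · rw [ind_neg h]
          exact sum_nonneg n
    _ ≤ ∑ p ∈ PP z Y, (3 * C + 4 * D) * Y * ((p : ℝ) ^ 2)⁻¹ := by
        have k : ∀ (T : Finset V2) (g : ℤ), ∑ v ∈ An ψ 0 Y, ind (v ∈ T.image (g • ·)) ≤ T.card :=
          fun T g => by
            rw [sum_congr rfl fun v _ => (show ind _ = if v ∈ T.image (g • ·) then 1 else 0 by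
              split_ifs with h; exacts [ind_pos h, ind_neg h]), sum_boole, filter_mem_eq_inter]
            exact_mod_cast (card_le_card inter_subset_right).trans card_image_le
        rw [sum_comm]
        refine sum_le_sum fun p hp => ?_
        rw [sum_add_distrib, sum_comm]
        have b1 := (k _ p).trans (a1 (Y / (p : ℝ) ^ 2) (by positivity))
        have b2 := sum_le_sum fun g (_ : g ∈ Ioo 0 (⌊Y⌋₊ + 1)) =>
          ((k _ g).trans (a2 p hp (Y / (g : ℝ) ^ 2) (by positivity))).trans_eq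
            (show _ = 2 * D * Y * ((p : ℝ) ^ 2)⁻¹ * ((g : ℝ) ^ 2)⁻¹ by ring)
        rw [← mul_sum] at b2
        have b3 := mul_le_mul_of_nonneg_left (sum_Ioo_inv_sq_le (α := ℝ) 0 (⌊Y⌋₊ + 1))
          (show 0 ≤ 2 * D * Y * ((p : ℝ) ^ 2)⁻¹ by positivity)
        refine (add_le_add b1 (b2.trans b3)).trans_eq ?_
        push_cast
        ring
    _ ≤ _ := by
        rw [← mul_sum]
        exact (mul_le_mul_of_nonneg_left (SQT_sum (by linarith) Y) (by positivity)).trans_eq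
          (by ring)

end Pool.Agent.P.MP_8be758_nt.Pd
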