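import Pool.Agent.P.MP_8be758_nt.Pd.IfM

/-! Step TK. -/

namespace Pool.Agent.P.MP_8be758_nt.Pd

open Finset Real Filter
open Pool.Agent.P.MP_8be758_nt.Par (nq mul cj det io et)
open Pool.Agent.P.MP_8be758_nt.Avg (rho)
open Pool.Agent.P.MP_8be758_nt.Pd.Mr

theorem TK_var (S : Finset ℕ) (G : Finset V2) (x : ℕ → V2 → ℝ) (a : ℕ → ℝ) (err : ℝ)
    (he : 0 ≤ err) (a0 : ∀ p ∈ S, 0 ≤ a p) (a1 : ∀ p ∈ S, a p ≤ 1)
    (h1 : ∀ p ∈ S, G.card * a p - err ≤ ∑ v ∈ G, x p v)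
    (h2 : ∀ p ∈ S, ∀ q ∈ S, ∑ v ∈ G, x p v * x q v ≤
      G.card * (a p * a q) + (if p = q then G.card * a p else 0) + err) :
    ∑ v ∈ G, (∑ p ∈ S, x p v - ∑ p ∈ S, a p) ^ 2 ≤
      G.card * ∑ p ∈ S, a p + 3 * (S.card : ℝ) ^ 2 * err := by
  set E := ∑ p ∈ S, a p with hE
  have e0 : 0 ≤ E := sum_nonneg a0
  have e1 : E ≤ S.card := by
    simpa using sum_le_sum a1
  have k1 : G.card * E - S.card * err ≤ ∑ v ∈ G, ∑ p ∈ S, x p v := by
    rw [sum_comm, hE, mul_sum]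
    have := sum_le_sum h1
    rwa [sum_sub_distrib, sum_const, nsmul_eq_mul] at this
  have k2 : ∑ v ∈ G, (∑ p ∈ S, x p v) ^ 2 ≤
      G.card * E ^ 2 + G.card * E + (S.card : ℝ) ^ 2 * err := by
    have e2 : ∑ v ∈ G, (∑ p ∈ S, x p v) ^ 2 = ∑ p ∈ S, ∑ q ∈ S, ∑ v ∈ G, x p v * x q v := by
      simp only [sq, sum_mul_sum]
      rw [sum_comm]
      exact sum_congr rfl fun p _ => sum_comm
    rw [e2]
    refine (sum_le_sum fun p hp => sum_le_sum fun q hq => h2 p hp q hq).trans (le_of_eq ?_)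
    simp only [sum_add_distrib, sum_const, nsmul_eq_mul]
    congr 1
    · congr 1
      · rw [sq, hE, sum_mul_sum, mul_sum]
        exact sum_congr rfl fun p _ => (mul_sum _ _ _).symm
      · rw [hE, mul_sum]
        exact sum_congr rfl fun p hp => by rw [sum_ite_eq, if_pos hp]
    · ring
  have e3 : ∑ v ∈ G, (∑ p ∈ S, x p v - E) ^ 2 = ∑ v ∈ G, (∑ p ∈ S, x p v) ^ 2 -
      2 * E * ∑ v ∈ G, ∑ p ∈ S, x p v + G.card * E ^ 2 := by
    rw [mul_sum, ← sum_sub_distrib, ← nsmul_eq_mul, ← sum_const, ← sum_add_distrib]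
    exact sum_congr rfl fun v _ => by ring
  have k3 := mul_le_mul_of_nonneg_left k1 e0
  have k4 : E * (S.card * err) ≤ S.card * (S.card * err) :=
    mul_le_mul_of_nonneg_right e1 (by positivity)
  rw [e3]
  nlinarith

theorem TK_abs (P : Prop) : |ind P| ≤ 1 := by
  rw [abs_of_nonneg (ind_nonneg P)]
  exact ind_le_one P

theorem p_TK (hOK : S_OK) (hDV : S_DV) :
    S_TK := by
  intro A σ G Mx err H hM he hq
  have hQ := H.one_le_Q
  have d := fun p (hp : p ∈ σ.S) => hDV A p (cj (σ.γ p)) (H.gp hp).1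
    (by rw [Par.nq_cj]; exact H.dvd_nq hp) (H.not_dvd_cj hp)
  have hp1 : ∀ p ∈ σ.S, (p : ℝ) ≤ σ.Q := fun p hp => (H.2.2.2.2.2 p hp).2.2.1
  have s1 : ∀ p ∈ σ.S, |∑ v ∈ G, ind (Dv A p (cj (σ.γ p)) v) - G.card * (1 / ((p : ℝ) + 1))| ≤
      err := fun p hp => by
    have := hq p _ (H.gp hp).1.pos (by nlinarith [hp1 p hp]) (d p hp).1 fun _ => TK_abs _
    simpa only [one_mul, (d p hp).2] using this
  simp only [St.om_eq, St.E]
  refine TK_var σ.S G (fun p v => ind (Dv A p (cj (σ.γ p)) v)) (fun p => 1 / ((p : ℝ) + 1)) err he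
    (fun p _ => by positivity) (fun p _ => ?_) (fun p hp => ?_) fun p hp q hq' => ?_
  · exact (div_le_one (by positivity)).2 (by linarith [(Nat.cast_nonneg p : (0 : ℝ) ≤ p)])
  · linarith [(abs_le.1 (s1 p hp)).1]
  · split_ifs with e
    · subst e
      have : ∀ v, ind (Dv A p (cj (σ.γ p)) v) * ind (Dv A p (cj (σ.γ p)) v) =
          ind (Dv A p (cj (σ.γ p)) v) := fun v => by rw [← ind_and, and_self]
      simp only [this]
      have : (0 : ℝ) ≤ G.card * (1 / ((p : ℝ) + 1) * (1 / ((p : ℝ) + 1))) := by positivity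
      linarith [(abs_le.1 (s1 p hp)).2]
    · obtain ⟨-, o1, o2⟩ := hOK.2.2.1
      have c := (Nat.coprime_primes (H.gp hp).1 (H.gp hq').1).2 e
      have k := hq (p * q)
        (fun v => ind (Dv A p (cj (σ.γ p)) v) * ind (Dv A q (cj (σ.γ q)) v))
        (Nat.mul_pos (H.gp hp).1.pos (H.gp hq').1.pos) (by
          push_cast
          refine le_trans ?_ hM
          rw [sq]
          exact mul_le_mul (hp1 p hp) (hp1 q hq') (Nat.cast_nonneg _) (by linarith))
        (fun v w h => by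
          have e1 := (d p hp).1 v w (o1 p _ (Dvd.intro _ rfl) v w h)
          have e2 := (d q hq').1 v w (o1 q _ (Dvd.intro_left _ rfl) v w h)
          simp only at e1 e2 ⊢
          rw [e1, e2])
        fun v => by rw [← ind_and]; exact TK_abs _
      rw [o2 p q _ _ (H.gp hp).1.pos (H.gp hq').1.pos c (d p hp).1 (d q hq').1, (d p hp).2,
        (d q hq').2] at k
      simp only [one_mul] at k
      linarith [(abs_le.1 k).2]

end Pool.Agent.P.MP_8be758_nt.Pd
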