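import Pool.Agent.P.MP_8be758_nt.Pd.IfE

/-! Step TK of block E. -/

namespace Pool.Agent.P.MP_8be758_nt.Pd

open Finset Real Filter
open Pool.Agent.P.MP_8be758_nt.Par (det)
open Pool.Agent.P.MP_8be758_nt.Avg (rho)
open scoped Classical

theorem TKE_var {Ω : Type} (G : Finset Ω) (Q : Finset ℕ) (f : ℕ → Ω → ℝ) (d : ℕ → ℝ) (err : ℝ)
    (h0 : 0 ≤ err) (hd : ∀ p ∈ Q, 0 ≤ d p ∧ d p ≤ 1) (hf : ∀ p x, f p x * f p x = f p x)
    (h1 : ∀ p ∈ Q, |∑ x ∈ G, f p x - G.card * d p| ≤ err)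
    (h2 : ∀ p ∈ Q, ∀ q ∈ Q, p ≠ q → |∑ x ∈ G, f p x * f q x - G.card * (d p * d q)| ≤ err) :
    ∑ x ∈ G, (∑ p ∈ Q, f p x - ∑ p ∈ Q, d p) ^ 2 ≤
      G.card * ∑ p ∈ Q, d p + 3 * (Q.card : ℝ) ^ 2 * err := by
  have e1 : ∀ x, (∑ p ∈ Q, f p x - ∑ p ∈ Q, d p) ^ 2 =
      ∑ p ∈ Q, ∑ q ∈ Q, (f p x - d p) * (f q x - d q) := fun x => by
    rw [← sum_sub_distrib, sq, sum_mul_sum]
  have e2 : ∀ p q, ∑ x ∈ G, (f p x - d p) * (f q x - d q) = ∑ x ∈ G, f p x * f q x -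
      d q * ∑ x ∈ G, f p x - d p * ∑ x ∈ G, f q x + G.card * (d p * d q) := fun p q => by
    rw [mul_sum, mul_sum, ← sum_sub_distrib, ← sum_sub_distrib, ← nsmul_eq_mul, ← sum_const,
      ← sum_add_distrib]
    exact sum_congr rfl fun x _ => by ring
  have hN : (0 : ℝ) ≤ G.card := Nat.cast_nonneg _
  have key : ∀ p ∈ Q, ∀ q ∈ Q, ∑ x ∈ G, (f p x - d p) * (f q x - d q) ≤
      (if p = q then G.card * d p else 0) + 3 * err := fun p hp q hq => by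
    rw [e2]
    have a1 := abs_le.1 (h1 p hp)
    have a2 := abs_le.1 (h1 q hq)
    obtain ⟨b1, b2⟩ := hd p hp
    obtain ⟨b3, b4⟩ := hd q hq
    have c1 := mul_le_mul_of_nonneg_left a1.1 b3
    have c2 := mul_le_mul_of_nonneg_left a2.1 b1
    have c3 := mul_le_mul_of_nonneg_right b2 h0
    have c4 := mul_le_mul_of_nonneg_right b4 h0
    split_ifs with e
    · subst e
      simp only [hf]
      nlinarith [mul_nonneg hN (mul_nonneg b1 b1)]
    · have a3 := abs_le.1 (h2 p hp q hq e)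
      nlinarith
  simp only [e1]
  rw [sum_comm]
  calc _ = ∑ p ∈ Q, ∑ q ∈ Q, ∑ x ∈ G, (f p x - d p) * (f q x - d q) :=
        sum_congr rfl fun p _ => sum_comm
    _ ≤ ∑ p ∈ Q, ∑ q ∈ Q, ((if p = q then G.card * d p else 0) + 3 * err) :=
        sum_le_sum fun p hp => sum_le_sum fun q hq => key p hp q hq
    _ = ∑ p ∈ Q, (G.card * d p + Q.card * (3 * err)) := sum_congr rfl fun p hp => by
        rw [sum_add_distrib, sum_ite_eq, if_pos hp, sum_const, nsmul_eq_mul]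
    _ = _ := by
        rw [sum_add_distrib, ← mul_sum, sum_const, nsmul_eq_mul]
        ring

theorem TKE_ind (P : Prop) : ind P * ind P = ind P ∧ |ind P| ≤ 1 := by
  unfold ind
  split_ifs <;> simp

theorem p_TKE (hOK : S_OK) (hNEQ : S_NEQ) (hL1 : S_L1) :
    S_TKE := by
  obtain ⟨c, hc⟩ := hNEQ 5
  refine ⟨c, fun A C1 => ?_⟩
  obtain ⟨C, hC, h⟩ := hc A C1
  refine ⟨C + 3, by linarith, fun z h1 h2 h3 => ?_⟩
  filter_upwards [h z h1 h2 h3, eventually_ge_atTop 1] with y hy y1 Q u hu hQ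
  set ρ : Pr := ⟨z, y⟩ with hρ
  obtain ⟨-, hA, hC1, hw, -, -, -, -, -, -, -, hk, -⟩ := h3
  have hA1 : 1 ≤ ρ.A := le_trans (by norm_num) hA
  have y1' : 1 ≤ ρ.y := y1
  have hX : 0 < ρ.X := pow_pos (by linarith) _
  have hC1' : 1 ≤ ρ.C1 := hC1
  have hk' : ρ.k6 ≤ ρ.K' := hk
  obtain ⟨hE, hN⟩ := hy (Q0 ρ.A) (Q0_mem hA1) ρ.X (1 / ρ.C1) ρ.C1
    (div_le_self hX.le (one_le_pow₀ y1')) le_rfl (by positivity)
    ((div_le_one (by linarith)).2 hC1' |>.trans hC1')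
    (mul_le_mul_of_nonneg_right (by simp only [Pr.c5]; nlinarith) hX.le)
  have hL : ∀ p ∈ Q, rho ρ.A p ≤ 2 ∧ rho ρ.A p ≠ 1 ∧ S4.av (p ^ 2)
      (fun g => ind ((p : ℤ) ∣ ev (act (Q0 ρ.A) g) u)) = (rho ρ.A p : ℝ) / (p + 1) := fun p hp => by
    refine hL1 ρ.A p _ u hA1 (isF_Q0 _) (hQ p hp).1 (lt_of_le_of_lt hw (hQ p hp).2.1) fun e => ?_
    have : (p : ℤ) ∣ 1 := by
      rcases hu with rfl | rfl
      exacts [e.1, e.2]
    exact (hQ p hp).1.ne_one (by exact_mod_cast Int.eq_one_of_dvd_one (by positivity) this)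
  have hper : ∀ p m : ℕ, p ∣ m → S4.Per m fun g => ind ((p : ℤ) ∣ ev (act (Q0 ρ.A) g) u) :=
    fun p m hm g g' e => by
      simp only [dvd_iff_of_modEq (ev_act_modEq _ e u) (Int.natCast_dvd_natCast.2 hm)]
  have hsq : ∀ p ∈ Q, ((p ^ 2 : ℕ) : ℝ) ≤ ρ.y ^ (2 * ρ.K') := fun p hp => by
    rw [Nat.cast_pow, mul_comm, pow_mul]
    exact pow_le_pow_left₀ (Nat.cast_nonneg _)
      ((hQ p hp).2.2.trans (pow_le_pow_right₀ y1' hk')) 2
  have hcard : (Q.card : ℝ) ≤ ρ.y ^ ρ.K' := by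
    have : Q ⊆ Icc 1 ⌊ρ.y ^ ρ.K'⌋₊ := fun p hp => mem_Icc.2 ⟨(hQ p hp).1.pos,
      Nat.le_floor ((hQ p hp).2.2.trans (pow_le_pow_right₀ y1' hk'))⟩
    have h5 := card_le_card this
    rw [Nat.card_Icc, Nat.add_sub_cancel] at h5
    exact (Nat.cast_le.2 h5).trans (Nat.floor_le (by positivity))
  have herr : 0 ≤ ρ.Er 5 := by simp only [Pr.Er]; positivity
  have hd : ∀ p ∈ Q, 0 ≤ (rho ρ.A p : ℝ) / (p + 1) ∧ (rho ρ.A p : ℝ) / (p + 1) ≤ 1 := fun p hp => by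
    have a1 : (rho ρ.A p : ℝ) ≤ 2 := by exact_mod_cast (hL p hp).1
    have a2 : (2 : ℝ) ≤ p := by exact_mod_cast (hQ p hp).1.two_le
    exact ⟨by positivity, (div_le_one (by linarith)).2 (by linarith)⟩
  have key := TKE_var (GG (Q0 ρ.A) ρ.X (1 / ρ.C1) ρ.C1) Q
    (fun p g => ind ((p : ℤ) ∣ ev (act (Q0 ρ.A) g) u)) (fun p => (rho ρ.A p : ℝ) / (p + 1))
    (ρ.Er 5) herr hd (fun p g => (TKE_ind _).1) (fun p hp => by
      have := hE (p ^ 2) _ (pow_pos (hQ p hp).1.pos 2)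
        ((hsq p hp).trans (pow_le_pow_right₀ y1' (by omega))) (hper p _ (dvd_pow_self p two_ne_zero))
        fun g => (TKE_ind _).2
      simpa only [one_mul, (hL p hp).2.2] using this) (fun p hp q hq e => by
      have a1 := hper p _ (dvd_pow_self p two_ne_zero)
      have a2 := hper q _ (dvd_pow_self q two_ne_zero)
      have b1 := pow_pos (hQ p hp).1.pos 2
      have b2 := pow_pos (hQ q hq).1.pos 2
      have := hE (p ^ 2 * q ^ 2) (fun g => ind ((p : ℤ) ∣ ev (act (Q0 ρ.A) g) u) *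
          ind ((q : ℤ) ∣ ev (act (Q0 ρ.A) g) u)) (mul_pos b1 b2) (by
          rw [Nat.cast_mul]
          refine (mul_le_mul (hsq p hp) (hsq q hq) (Nat.cast_nonneg _) (by positivity)).trans ?_
          rw [← pow_add]
          exact pow_le_pow_right₀ y1' (by omega))
        (fun g g' e' => congrArg₂ (· * ·)
          (a1 g g' (hOK.2.2.2.2.1 _ _ (dvd_mul_right _ _) g g' e'))
          (a2 g g' (hOK.2.2.2.2.1 _ _ (dvd_mul_left _ _) g g' e')))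
        fun g => by
          rw [abs_mul]
          exact mul_le_one₀ (TKE_ind _).2 (abs_nonneg _) (TKE_ind _).2
      rw [hOK.2.2.2.2.2 _ _ _ _ b1 b2
        (Nat.Coprime.pow 2 2 ((Nat.coprime_primes (hQ p hp).1 (hQ q hq).1).2 e)) a1 a2,
        (hL p hp).2.2, (hL q hq).2.2] at this
      simpa only [one_mul] using this)
  refine key.trans ?_
  have hm : 0 ≤ ∑ p ∈ Q, (rho ρ.A p : ℝ) / (p + 1) := sum_nonneg fun p hp => (hd p hp).1
  have h6 : (Q.card : ℝ) ^ 2 * ρ.Er 5 ≤ ρ.X := by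
    have a1 : (Q.card : ℝ) ^ 2 ≤ ρ.y ^ (5 * ρ.K') := by
      refine (pow_le_pow_left₀ (Nat.cast_nonneg _) hcard 2).trans ?_
      rw [← pow_mul]
      exact pow_le_pow_right₀ y1' (by omega)
    have a2 : (0 : ℝ) < ρ.y ^ (5 * ρ.K') := by positivity
    calc _ ≤ ρ.y ^ (5 * ρ.K') * ρ.Er 5 := mul_le_mul_of_nonneg_right a1 herr
      _ = _ := by simp only [Pr.Er]; field_simp
  have h7 := mul_le_mul_of_nonneg_right hN hm
  have h8 := mul_nonneg hX.le hm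
  have h9 := mul_nonneg (show 0 ≤ C by linarith) hX.le
  nlinarith

end Pool.Agent.P.MP_8be758_nt.Pd
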