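import Pool.Agent.P.MP_8be758_nt.Pd.IfH

/-! Step TSET. -/

namespace Pool.Agent.P.MP_8be758_nt.Pd

open Finset Real Filter
open Pool.Agent.P.MP_8be758_nt.Par (det)
open Pool.Agent.P.MP_8be758_nt.Avg (rho)

theorem TSET_ind (s : Finset ℕ) (R : ℕ → Prop) : ind (∀ p ∈ s, R p) = ∏ p ∈ s, ind (R p) := by
  by_cases h : ∀ p ∈ s, R p
  · rw [ind_pos h, prod_eq_one fun p hp => ind_pos (h p hp)]
  · rw [ind_neg h]
    push Not at h
    obtain ⟨p, hp, h⟩ := h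
    exact (prod_eq_zero hp (ind_neg h)).symm

theorem TSET_cop {a b : ℝ} (h : 0 ≤ b) {q : ℕ} (hq : q.Prime) (hb : b < q) (k : ℕ) :
    (∏ p ∈ PP a b, p ^ k).Coprime q :=
  Nat.Coprime.prod_left fun p hp => Nat.Coprime.pow_left _
    ((Nat.coprime_primes (prime_of_PP hp) hq).2 fun e => by
      have := ((mem_PP h).1 hp).2.2
      rw [e] at this
      linarith)

theorem TSET_card (m : ℕ) : ((S1.U m).card : ℝ) = m := by simp [S1, bx]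

theorem TSET_av {m : ℕ} (h : 0 < m) (t : ℤ) :
    S1.av m (fun x => ind (x ≡ t [ZMOD m])) = 1 / m := by
  have h0 : (0 : ℤ) < m := by exact_mod_cast h
  rw [Sys.av, TSET_card]
  congr 1
  exact (sum_eq_single_of_mem (s := Ico (0 : ℤ) m) (t % m)
    (mem_Ico.2 ⟨Int.emod_nonneg _ h0.ne', Int.emod_lt_of_pos _ h0⟩) fun x hx e => ind_neg fun c =>
      e (by rw [← c.eq, Int.emod_eq_of_lt (mem_Ico.1 hx).1 (mem_Ico.1 hx).2])).trans
    (ind_pos (Int.mod_modEq _ _))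

theorem TSET_sum {α : Type} (s : Finset α) (p : α → Prop) [DecidablePred p] :
    ∑ x ∈ s, ind (p x) = (s.filter p).card := by
  rw [card_filter, Nat.cast_sum]
  exact sum_congr rfl fun x _ => by by_cases h : p x <;> simp [ind, h]

theorem TSET_per (m : ℕ) (t : ℤ) : S1.Per m fun x => ind (x ≡ t [ZMOD m]) := fun _ _ e =>
  congrArg ind (propext ⟨(Int.ModEq.symm e).trans, Int.ModEq.trans e⟩)

theorem TSET_box (hOK : S_OK) (hBOX : S_BOX) {M m : ℕ} {Q : ℤ → Prop} (hM : 0 < M) (hm : 0 < m)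
    (co : M.Coprime m) (hQ : S1.Per M fun x => ind (Q x)) {a b : ℤ} (h : a ≤ b) {Y : ℝ}
    (hY : (m : ℝ) ≤ Y) : |∑ x ∈ Ioc a b, ind (Q x) * ind ((m : ℤ) ∣ x) -
      ((b - a : ℤ) : ℝ) * S1.av M (fun x => ind (Q x)) / m| ≤ 2 * (M * Y) := by
  have e := hOK.1.2.2 M m _ _ hM hm co hQ (TSET_per m 0)
  have := hBOX.1 a b (M * Y) h (M * m) (fun x => ind (Q x) * ind (x ≡ 0 [ZMOD m])) (by positivity)
    (by push_cast; gcongr) (fun x y c => by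
      have a1 := hQ x y (hOK.1.2.1 _ _ (dvd_mul_right _ _) _ _ c)
      have a2 := TSET_per m 0 x y (hOK.1.2.1 _ _ (dvd_mul_left _ _) _ _ c)
      simp only at a1 a2 ⊢
      rw [a1, a2])
    fun x => by rw [← ind_and, abs_of_nonneg (ind_nonneg _)]; exact ind_le_one _
  rw [e, TSET_av hm] at this
  simpa only [one_mul, Int.modEq_zero_iff_dvd, mul_one_div, mul_div_assoc] using this

theorem TSET_tail {T : ℝ} (hT : 0 ≤ T) {a : ℤ} (ha : 0 ≤ a) {m : ℕ} (hm : 0 < m) :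
    ∑ x ∈ Ioc a ⌊T⌋, ind ((m : ℤ) ^ 2 ∣ x) ≤ T * ((m : ℝ) ^ 2)⁻¹ := by
  refine (sum_le_sum_of_subset_of_nonneg (Ioc_subset_Ioc_left ha) fun _ _ _ => ind_nonneg _).trans ?_
  rw [TSET_sum, ← Int.cast_natCast, Int.Ioc_filter_dvd_card 0 ⌊T⌋ (r := (m : ℤ) ^ 2) (by positivity),
    Int.cast_zero, zero_div, Int.floor_zero, sub_zero, Int.cast_max, Int.cast_zero]
  refine max_le ?_ (by positivity)
  have e := (Rat.cast_le (K := ℝ)).2 (Int.floor_le ((⌊T⌋ : ℚ) / ((m : ℤ) ^ 2 : ℤ)))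
  push_cast at e ⊢
  refine e.trans ?_
  rw [div_eq_mul_inv]
  gcongr
  exact Int.floor_le T

theorem TSET_pt {ρ : Pr} {D : ℕ} {T : ℝ} {t0 : ℕ → ℤ} {B : ℕ → ℤ → Prop} {Q : ℤ → Prop} {x : ℤ}
    (y0 : 0 < ρ.y) (s6 : 0 < √ρ.w) (T0 : 0 < T) (D0 : D ≠ 0) (D1 : D.primeFactors ⊆ ρ.Ps)
    (hq : Q x → (∀ p ∈ PP 0 (4 * ρ.A), x ≡ t0 p [ZMOD (p ^ 2 : ℕ)]) ∧ ∀ p ∈ PP (4 * ρ.A) ρ.w, ¬B p x)
    (hx : x ∈ Ioc ⌊T / 2⌋ ⌊T⌋) :
    ind (Q x) * ind (((1 : ℕ) : ℤ) ∣ x) ≤ ind (x.toNat ∈ ρ.TS D T t0 B) +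
      (∑ p ∈ ρ.Ps, √ρ.w / p * (ind (Q x) * ind ((p : ℤ) ∣ x)) +
      ∑ p ∈ ρ.Ps, ind ((p : ℤ) ∣ D) * (ind (Q x) * ind ((p : ℤ) ∣ x)) +
      ∑ p ∈ ρ.Ps, ind (Q x) * ind (((p ^ 2 : ℕ) : ℤ) ∣ x) +
      ∑ m ∈ Ioo ⌊ρ.y⌋₊ (⌊T⌋₊ + 1), ind ((m : ℤ) ^ 2 ∣ x)) := by
  have a0 : 0 ≤ ⌊T / 2⌋ := Int.floor_nonneg.2 (by linarith)
  obtain ⟨x1, x2⟩ := mem_Ioc.1 hx
  obtain ⟨t, rfl⟩ := Int.eq_ofNat_of_zero_le (a0.trans x1.le)
  have n0 := fun P Q => mul_nonneg (ind_nonneg P) (ind_nonneg Q)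
  have n1 : ∀ p ∈ ρ.Ps, 0 ≤ √ρ.w / p * (ind (Q t) * ind ((p : ℤ) ∣ t)) := fun p _ =>
    mul_nonneg (by positivity) (n0 _ _)
  have n2 : ∀ p ∈ ρ.Ps, 0 ≤ ind ((p : ℤ) ∣ D) * (ind (Q t) * ind ((p : ℤ) ∣ t)) := fun p _ =>
    mul_nonneg (ind_nonneg _) (n0 _ _)
  have n3 : ∀ p ∈ ρ.Ps, 0 ≤ ind (Q t) * ind (((p ^ 2 : ℕ) : ℤ) ∣ t) := fun p _ => n0 _ _
  have n4 : ∀ m ∈ Ioo ⌊ρ.y⌋₊ (⌊T⌋₊ + 1), 0 ≤ ind ((m : ℤ) ^ 2 ∣ t) := fun p _ => ind_nonneg _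
  have m0 := ind_nonneg ((t : ℤ).toNat ∈ ρ.TS D T t0 B)
  have m1 := sum_nonneg n1
  have m2 := sum_nonneg n2
  have m3 := sum_nonneg n3
  have m4 := sum_nonneg n4
  by_cases hQ : Q t
  swap
  · rw [ind_neg hQ, zero_mul]
    rw [ind_neg hQ] at m1 m2 m3
    linarith
  have t1 : 0 < t := by omega
  have t2 : t ≤ ⌊T⌋₊ := Nat.le_floor (by exact_mod_cast Int.le_floor.1 x2)
  rw [show ind (Q t) * ind (((1 : ℕ) : ℤ) ∣ t) = 1 by rw [ind_pos hQ, ind_pos (by simp), one_mul]]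
  by_cases c1 : ∀ p : ℕ, p.Prime → ρ.w < p → ¬p ^ 2 ∣ t
  swap
  · push Not at c1
    obtain ⟨p, hp, h1, h2⟩ := c1
    rcases le_or_gt (p : ℝ) ρ.y with h | h
    · have := single_le_sum n3 ((mem_PP y0.le).2 ⟨hp, by exact_mod_cast h1, h⟩)
      rw [ind_pos hQ, ind_pos (Int.natCast_dvd_natCast.2 h2), one_mul] at this
      rw [ind_pos hQ] at m1 m2 ⊢
      linarith
    · have := single_le_sum n4 (mem_Ioo.2 ⟨(Nat.floor_lt y0.le).2 h, Nat.lt_succ_of_le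
        ((Nat.le_of_dvd t1 ((dvd_pow_self p two_ne_zero).trans h2)).trans t2)⟩)
      rw [ind_pos (by exact_mod_cast h2)] at this
      linarith
  by_cases c2 : t.Coprime D
  swap
  · obtain ⟨p, hp, h1, h2⟩ := Nat.Prime.not_coprime_iff_dvd.1 c2
    have := single_le_sum n2 (D1 (Nat.mem_primeFactors.2 ⟨hp, h2, D0⟩))
    rw [ind_pos hQ, ind_pos (Int.natCast_dvd_natCast.2 h2), ind_pos (Int.natCast_dvd_natCast.2 h1),
      one_mul, one_mul] at this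
    rw [ind_pos hQ] at m1 m3 ⊢
    linarith
  by_cases c3 : ρ.si t ≤ 1 / √ρ.w
  · have : t ∈ ρ.TS D T t0 B := by
      have := Int.floor_lt.1 x1
      rw [Int.cast_natCast] at this
      simp only [Pr.TS, mem_filter]
      exact ⟨mem_Icc.2 ⟨t1, t2⟩, by linarith, (hq hQ).1, (hq hQ).2, c1, c2, c3⟩
    rw [Int.toNat_natCast, ind_pos this]
    linarith
  · have : ∑ p ∈ ρ.Ps, √ρ.w / p * (ind (Q t) * ind ((p : ℤ) ∣ t)) = ρ.si t * √ρ.w := by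
      rw [Pr.si, Pr.pf, sum_filter, sum_mul]
      refine sum_congr rfl fun p _ => ?_
      by_cases h : (p : ℤ) ∣ t <;> simp [ind, h, hQ, div_eq_inv_mul]
    rw [not_le, div_lt_iff₀ s6] at c3
    linarith

/-- the modulus -/
noncomputable def TSET_M (z : St) : ℕ :=
  (1 * ∏ p ∈ PP 0 (4 * z.A), p ^ 2) * ∏ p ∈ PP (4 * z.A) z.w, p ^ 1

theorem TSET_core (hOK : S_OK) (hPROD : S_PROD) (hBOX : S_BOX) {ρ : Pr} (hB : ρ.Big 36) {d : ℝ}
    (d0 : 0 < d) (hd : d ≤ (∏ p ∈ PP 0 (4 * ρ.A), (1 : ℝ) / (p ^ 2 : ℕ)) *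
      ∏ p ∈ PP (4 * ρ.A) ρ.w, exp (-6 * (1 / p))) (y2 : 2 ≤ ρ.y)
    (hy : 16 * (14 * (TSET_M ρ.toSt : ℝ) + 2) ≤ d * ρ.y)
    (hL : ∑ p ∈ ρ.Ps, (1 : ℝ) / p ^ 2 ≤ 1 / ρ.w) {D : ℕ} {T : ℝ} (t0 : ℕ → ℤ) {B : ℕ → ℤ → Prop}
    (T0 : 0 < T) (T1 : ρ.y ^ ρ.k3 ≤ T ^ 2) (D0 : D ≠ 0) (D1 : D.primeFactors ⊆ ρ.Ps)
    (D2 : ρ.si D ≤ 1 / √ρ.w) (hF : Few (PP (4 * ρ.A) ρ.w) B) :
    T * d / 16 ≤ (ρ.TS D T t0 B).card := by
  classical
  obtain ⟨-, h2, -, h4, h5, h6, -, h8, -⟩ := hB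
  have A3 : (3 : ℝ) ≤ ρ.A := by exact_mod_cast h2
  have w1 : (4 : ℝ) * ρ.A ≤ ρ.w := by exact_mod_cast h4
  have w2 : (36 : ℝ) ≤ ρ.w := by exact_mod_cast h5
  have y0 : 0 < ρ.y := by linarith
  have sq : √ρ.w * √ρ.w = ρ.w := mul_self_sqrt (by linarith)
  have s6 : 6 ≤ √ρ.w := le_sqrt_of_sq_le (by linarith)
  have T2 : ρ.y ^ 4 ≤ T := by
    refine (pow_le_pow_iff_left₀ (by positivity) T0.le two_ne_zero).1 ?_
    rw [← pow_mul]
    exact (pow_le_pow_right₀ (by linarith) (by omega)).trans T1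
  have cp : ∀ (a b : ℝ) (k : ℕ), ∀ p ∈ PP a b, ∀ q ∈ PP a b, p ≠ q → (p ^ k).Coprime (q ^ k) :=
    fun a b k p hp q hq e =>
      ((Nat.coprime_primes (prime_of_PP hp) (prime_of_PP hq)).2 e).pow _ _
  have ps : ∀ (a b : ℝ) (k : ℕ), 0 < ∏ p ∈ PP a b, p ^ k := fun a b k =>
    prod_pos fun p hp => pow_pos (prime_of_PP hp).pos _
  obtain ⟨P1, V1⟩ := hPROD ℤ S1 (PP 0 (4 * ρ.A)) (fun p => p ^ 2) 1 (fun _ => 1)
    (fun p x => ind (x ≡ t0 p [ZMOD (p ^ 2 : ℕ)])) hOK.1 one_pos (fun _ _ _ => rfl)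
    (fun p hp => ⟨pow_pos (prime_of_PP hp).pos _, Nat.coprime_one_left _, TSET_per _ _⟩) (cp _ _ 2)
  obtain ⟨P2, V2⟩ := hPROD ℤ S1 (PP (4 * ρ.A) ρ.w) (fun p => p ^ 1) _ _
    (fun p x => ind (¬B p x)) hOK.1 (Nat.mul_pos one_pos (ps _ _ 2)) P1
    (fun p hp => ⟨pow_pos (prime_of_PP hp).pos _, by
      rw [one_mul, pow_one]
      exact TSET_cop (by linarith) (prime_of_PP hp) (lt_of_PP hp) 2, fun x y e =>
        congrArg ind (propext (not_congr ((hF p hp).1 x y (by simpa [S1] using e))))⟩) (cp _ _ 1)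
  rw [V1, S1.av_const 1 (hOK.1.1 1 one_pos)] at V2
  simp only [← TSET_ind, one_mul (ind _), ← ind_and] at P2 V2
  set Q := fun x : ℤ => (∀ p ∈ PP 0 (4 * ρ.A), x ≡ t0 p [ZMOD (p ^ 2 : ℕ)]) ∧
    ∀ p ∈ PP (4 * ρ.A) ρ.w, ¬B p x
  change S1.Per (TSET_M ρ.toSt) fun x => ind (Q x) at P2
  change S1.av (TSET_M ρ.toSt) (fun x => ind (Q x)) = _ at V2
  have M0 : 0 < TSET_M ρ.toSt := Nat.mul_pos (Nat.mul_pos one_pos (ps _ _ 2)) (ps _ _ 1)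
  have Mc : ∀ p ∈ ρ.Ps, (TSET_M ρ.toSt).Coprime p := fun p hp =>
    Nat.Coprime.mul_left (by
      rw [one_mul]
      exact TSET_cop (by linarith) (prime_of_PP hp) (w1.trans_lt (lt_of_PP hp)) 2)
      (TSET_cop (by linarith) (prime_of_PP hp) (lt_of_PP hp) 1)
  have hδ : d ≤ S1.av (TSET_M ρ.toSt) fun x => ind (Q x) := by
    rw [V2, one_mul, prod_congr rfl fun p hp => TSET_av (pow_pos (prime_of_PP hp).pos 2) (t0 p)]
    refine hd.trans (mul_le_mul_of_nonneg_left (prod_le_prod (fun _ _ => (exp_pos _).le)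
      fun p hp => ?_) (by positivity))
    have p1 : (12 : ℝ) < p := by linarith [lt_of_PP hp]
    have e : ∀ x, ind (¬B p x) = 1 - ind (B p x) := fun x => by
      by_cases h : B p x <;> simp [ind, h]
    have e1 : S1.av p (fun x => ind (B p x)) ≤ 3 * (1 / p) := by
      rw [Sys.av, TSET_card, mul_one_div]
      exact div_le_div_of_nonneg_right (hF p hp).2 (by linarith)
    have e2 : (1 : ℝ) / p ≤ 1 / 12 := one_div_le_one_div_of_le (by norm_num) p1.le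
    have e3 : (0 : ℝ) < 1 / p := by positivity
    simp only [e, pow_one]
    rw [S1.av_sub, S1.av_const p (hOK.1.1 p (prime_of_PP hp).pos), neg_mul, exp_neg,
      inv_le_iff_one_le_mul₀ (exp_pos _)]
    nlinarith [add_one_le_exp (6 * (1 / (p : ℝ))), mul_nonneg (show 0 ≤ 1 - S1.av p
      (fun x => ind (B p x)) by linarith) (sub_nonneg.2 (add_one_le_exp (6 * (1 / (p : ℝ)))))]
  have a0 : 0 ≤ ⌊T / 2⌋ := Int.floor_nonneg.2 (by linarith)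
  have ab : ⌊T / 2⌋ ≤ ⌊T⌋ := Int.floor_le_floor (by linarith)
  have y4 : 16 ≤ ρ.y ^ 4 := le_trans (by norm_num) (pow_le_pow_left₀ two_pos.le y2 4)
  have hN : T / 4 ≤ ((⌊T⌋ - ⌊T / 2⌋ : ℤ) : ℝ) := by
    push_cast
    linarith [Int.floor_le (T / 2), Int.lt_floor_add_one T]
  have bx := fun (m : ℕ) hm co hY => abs_le.1 (TSET_box hOK hBOX (m := m) M0 hm co P2 ab (Y := ρ.y ^ 2) hY)
  have hX : T / 4 * d ≤ ((⌊T⌋ - ⌊T / 2⌋ : ℤ) : ℝ) * S1.av (TSET_M ρ.toSt) fun x => ind (Q x) :=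
    mul_le_mul hN hδ d0.le (by linarith)
  generalize ((⌊T⌋ - ⌊T / 2⌋ : ℤ) : ℝ) * S1.av (TSET_M ρ.toSt) (fun x => ind (Q x)) = X at hX bx
  have X0 : 0 ≤ X := le_trans (by positivity) hX
  set E : ℝ := 2 * (TSET_M ρ.toSt * ρ.y ^ 2) with hE
  have E0 : 0 ≤ E := by positivity
  set I := Ioc ⌊T / 2⌋ ⌊T⌋
  have pt := fun x (hx : x ∈ I) => TSET_pt (Q := Q) (t0 := t0) (B := B) y0 (by linarith) T0 D0 D1 id hx
  have s := sum_le_sum pt
  have c0 : ∑ x ∈ I, ind (x.toNat ∈ ρ.TS D T t0 B) ≤ (ρ.TS D T t0 B).card := by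
    rw [TSET_sum, Nat.cast_le]
    refine card_le_card_of_injOn Int.toNat (fun x hx => (mem_filter.1 hx).2) fun x hx y hy e => ?_
    have := (mem_Ioc.1 (mem_filter.1 hx).1).1
    have := (mem_Ioc.1 (mem_filter.1 hy).1).1
    omega
  have cP : ∑ _p ∈ ρ.Ps, E ≤ 2 * ρ.y * E := by
    rw [sum_const, nsmul_eq_mul]
    refine mul_le_mul_of_nonneg_right (le_trans (Nat.cast_le.2 (card_filter_le _ _)) ?_) E0
    rw [card_range, Nat.cast_succ]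
    linarith [Nat.floor_le y0.le]
  have hp : ∀ p ∈ ρ.Ps, 0 < p ∧ (ρ.w : ℝ) < p ∧ (p : ℝ) ≤ ρ.y := fun p hp =>
    ⟨(prime_of_PP hp).pos, ((mem_PP y0.le).1 hp).2⟩
  have yy : ρ.y ≤ ρ.y ^ 2 := le_self_pow₀ (by linarith) two_ne_zero
  have b1 : ∀ p ∈ ρ.Ps, ∑ x ∈ I, ind (Q x) * ind ((p : ℤ) ∣ x) ≤ X / p + E := fun p h => by
    linarith [(bx p (hp p h).1 (Mc p h) ((hp p h).2.2.trans yy)).2]
  have sw : √ρ.w ≤ ρ.w := by linarith [mul_le_mul_of_nonneg_right s6 (sqrt_nonneg ρ.w)]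
  have wi : 1 / (ρ.w : ℝ) ≤ 1 / 6 := one_div_le_one_div_of_le (by norm_num) (by linarith)
  have si : 1 / √ρ.w ≤ 1 / 6 := one_div_le_one_div_of_le (by norm_num) s6
  have c1 : ∑ x ∈ I, ∑ p ∈ ρ.Ps, √ρ.w / p * (ind (Q x) * ind ((p : ℤ) ∣ x)) ≤
      X / 6 + 2 * ρ.y * E := by
    rw [sum_comm]
    refine (sum_le_sum (g := fun p : ℕ => X * √ρ.w * (1 / p ^ 2) + E) fun p h => ?_).trans ?_
    · have := (hp p h).2.1
      have e : √ρ.w / p ≤ 1 := (div_le_one (by linarith)).2 (by linarith)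
      rw [← mul_sum]
      refine (mul_le_mul_of_nonneg_left (b1 p h) (by positivity)).trans ?_
      rw [mul_add]
      exact add_le_add (le_of_eq (by ring)) (mul_le_of_le_one_left E0 e)
    · rw [sum_add_distrib, ← mul_sum]
      refine add_le_add ((mul_le_mul_of_nonneg_left hL (by positivity)).trans ?_) cP
      rw [mul_assoc, mul_one_div, sqrt_div_self', div_eq_mul_one_div X]
      gcongr
  have c2 : ∑ x ∈ I, ∑ p ∈ ρ.Ps, ind ((p : ℤ) ∣ D) * (ind (Q x) * ind ((p : ℤ) ∣ x)) ≤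
      X / 6 + 2 * ρ.y * E := by
    rw [sum_comm]
    refine (sum_le_sum (g := fun p : ℕ => X * (if (p : ℤ) ∣ D then 1 / (p : ℝ) else 0) + E)
      fun p h => ?_).trans ?_
    · rw [← mul_sum]
      split_ifs with e
      · rw [ind_pos e, one_mul, mul_one_div]
        exact b1 p h
      · rw [ind_neg e, zero_mul, mul_zero, zero_add]
        exact E0
    · rw [sum_add_distrib, ← mul_sum, ← sum_filter, div_eq_mul_one_div X]
      exact add_le_add (mul_le_mul_of_nonneg_left (D2.trans si) X0) cP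
  have c3 : ∑ x ∈ I, ∑ p ∈ ρ.Ps, ind (Q x) * ind (((p ^ 2 : ℕ) : ℤ) ∣ x) ≤
      X / 6 + 2 * ρ.y * E := by
    rw [sum_comm]
    refine (sum_le_sum (g := fun p : ℕ => X * (1 / p ^ 2) + E) fun p h => ?_).trans ?_
    · have := (bx (p ^ 2) (pow_pos (hp p h).1 2) ((Mc p h).pow_right 2) (by
        push_cast
        gcongr
        exact (hp p h).2.2)).2
      rw [Nat.cast_pow (α := ℝ)] at this
      rw [mul_one_div]
      linarith
    · rw [sum_add_distrib, ← mul_sum, div_eq_mul_one_div X]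
      exact add_le_add (mul_le_mul_of_nonneg_left (hL.trans wi) X0) cP
  have c4 : ∑ x ∈ I, ∑ m ∈ Ioo ⌊ρ.y⌋₊ (⌊T⌋₊ + 1), ind ((m : ℤ) ^ 2 ∣ x) ≤ T * (2 / ρ.y) := by
    rw [sum_comm]
    refine (sum_le_sum fun m h => TSET_tail T0.le a0 (Nat.zero_lt_of_lt (mem_Ioo.1 h).1)).trans ?_
    rw [← mul_sum]
    refine mul_le_mul_of_nonneg_left ((sum_Ioo_inv_sq_le _ _).trans ?_) T0.le
    gcongr
    exact (Nat.lt_floor_add_one _).le
  have c5 := (bx 1 one_pos (Nat.coprime_one_right _) (by push_cast; linarith)).1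
  simp only [sum_add_distrib] at s
  rw [Nat.cast_one (R := ℝ), div_one] at c5
  have c6 : 7 * ρ.y * E + T * (2 / ρ.y) ≤ T * d / 16 := by
    rw [← mul_div_assoc, add_div' _ _ _ y0.ne', div_le_iff₀ y0, hE]
    have := mul_le_mul_of_nonneg_left T2 (Nat.cast_nonneg (TSET_M ρ.toSt))
    linarith [mul_le_mul_of_nonneg_left hy T0.le]
  have c7 := c5.trans (sub_le_sub_right
    (s.trans (add_le_add c0 (add_le_add (add_le_add (add_le_add c1 c2) c3) c4))) X)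
  clear_value E
  linarith [mul_le_mul_of_nonneg_right y2 E0]

theorem p_TSET (hOK : S_OK) (hPROD : S_PROD) (hBOX : S_BOX) (hMER : S_MER) (hLAM : S_LAM) :
    S_TSET := by
  obtain ⟨c, hc⟩ := hLAM
  refine ⟨max c 36, fun A C1 => ?_⟩
  by_cases hA : Odd A ∧ 3 ≤ A
  swap
  · exact ⟨1, le_rfl, fun z e _ hB => absurd (e ▸ ⟨hB.1, hB.2.1⟩) hA⟩
  obtain ⟨_, -, hc⟩ := hc A C1
  obtain ⟨C, -, hM⟩ := hMER A hA.1 hA.2
  set a := (∏ p ∈ PP 0 (4 * A), (1 : ℝ) / (p ^ 2 : ℕ)) * exp (-6 * C) with ha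
  have a0 : 0 < a := mul_pos (prod_pos fun p hp => by
    have := (prime_of_PP hp).pos
    positivity) (exp_pos _)
  refine ⟨max 1 (16 / a), le_max_left _ _, fun z e1 e2 hB => ?_⟩
  subst e1
  have A3 : (3 : ℝ) ≤ z.A := by exact_mod_cast hA.2
  have w1 : (4 : ℝ) * z.A ≤ z.w := by exact_mod_cast hB.2.2.2.1
  have l0 : 0 < log z.w := log_pos (by linarith)
  have l1 : 1 ≤ log (4 * z.A) := (le_log_iff_exp_le (by linarith)).2 (by linarith [exp_one_lt_d9])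
  have d0 : 0 < a / log z.w ^ 6 := by positivity
  filter_upwards [hc z rfl e2 (hB.mono (le_max_left _ _)), eventually_ge_atTop 2,
    eventually_ge_atTop (16 * (14 * (TSET_M z : ℝ) + 2) / (a / log z.w ^ 6))] with y hL y2 hy
  intro D T t0 B T0 T1 D0 D1 D2 hF
  refine le_trans ?_ (TSET_core hOK hPROD hBOX (ρ := ⟨z, y⟩) (hB.mono (le_max_right _ _)) d0 ?_ y2
    ((div_le_iff₀' d0).1 hy) hL.2.2.2.2.2.1 t0 T0 T1 D0 D1 D2 hF)
  · refine le_trans (b := T / (16 / a * log z.w ^ 6)) ?_ (le_of_eq (by field_simp))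
    gcongr
    exact le_max_right _ _
  · rw [ha, mul_div_assoc, ← exp_sum, ← mul_sum]
    refine mul_le_mul_of_nonneg_left ?_ (by positivity)
    have h1 := (abs_le.1 (hM _ _ (by linarith) w1).2).2
    have h2 : log (log z.w / log (4 * z.A)) ≤ log (log z.w) :=
      log_le_log (by positivity) (div_le_self l0.le l1)
    rw [← exp_log (pow_pos l0 6), ← exp_sub, log_pow, exp_le_exp]
    push_cast
    linarith

end Pool.Agent.P.MP_8be758_nt.Pd
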