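import Pool.Agent.P.MP_8be758_nt.Pd.IfT

/-! Step TUP. -/

namespace Pool.Agent.P.MP_8be758_nt.Pd

open Finset Real Filter
open Pool.Agent.P.MP_8be758_nt.Par (det)
open Pool.Agent.P.MP_8be758_nt.Avg (rho)
open Pool.Agent.P.MP_e86632_nt (ee)

theorem TUP_real {P0 b R0 P R a s t T af Ns Nt C : ℝ} (hC : 1 ≤ C) (hP : 0 < P) (hR : 0 < R)
    (ha : 0 < a) (hs : 0 ≤ s) (ht : 0 < t) (hb : 0 < b) (hb2 : b ≤ C * P0)
    (hR1 : 2 * R0 ≤ C ^ 2 * P0) (hR2 : P0 ≤ 4 * C ^ 2 * R0) (e1 : P * T = P0)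
    (e2 : a * R = R0 * T) (t1 : t ≤ T) (t2 : T < 2 * t) (st : 2 * (s * t) ≤ a)
    (eaf : af = a - s * t) (eNs : af * Ns = a * P + b * s + R * s ^ 2)
    (eNt : af * Nt = a * R + b * t + P * t ^ 2) :
    P ≤ Ns ∧ Ns ≤ 6 * C ^ 2 * P ∧ R ≤ Nt ∧ Nt ≤ 18 * C ^ 3 * R ∧ 2 * (s * R) ≤ C ^ 2 * P0 ∧
      t * Ns ≤ 6 * C ^ 2 * P0 ∧ t * P ≤ P0 := by
  have hT : 0 < T := ht.trans_le t1
  have hP0 : 0 < P0 := e1 ▸ mul_pos hP hT
  have hst : 0 ≤ s * t := mul_nonneg hs ht.le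
  have af1 : a ≤ 2 * af := by linarith
  have af2 : af ≤ a := by linarith
  have af0 : 0 < af := by linarith
  have hR0 : 0 < R0 := by
    by_contra h
    have : 4 * C ^ 2 * R0 ≤ 0 := mul_nonpos_of_nonneg_of_nonpos (by positivity) (not_lt.1 h)
    linarith
  have sT : s * T ≤ a := by nlinarith
  have C2 : C ≤ C ^ 2 := by nlinarith
  have C3 : C ^ 2 ≤ C ^ 3 := by nlinarith
  have sR : s * R ≤ R0 := by
    refine le_of_mul_le_mul_left ?_ ha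
    calc a * (s * R) = R0 * (s * T) := by rw [mul_left_comm, e2]; ring
      _ ≤ R0 * a := by gcongr
      _ = a * R0 := by ring
  have sP : s * P0 ≤ a * P := by
    calc s * P0 = (s * T) * P := by rw [← e1]; ring
      _ ≤ a * P := by gcongr
  have b1 : b * s ≤ C ^ 2 * (a * P) := by
    calc b * s ≤ C * P0 * s := by gcongr
      _ = C * (s * P0) := by ring
      _ ≤ C ^ 2 * (a * P) := by gcongr
  have b2 : R * s ^ 2 ≤ C ^ 2 * (a * P) := by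
    calc R * s ^ 2 = (s * R) * s := by ring
      _ ≤ R0 * s := by gcongr
      _ ≤ C ^ 2 * P0 * s := by gcongr; linarith
      _ = C ^ 2 * (s * P0) := by ring
      _ ≤ C ^ 2 * (a * P) := by gcongr
  have aP : 0 < a * P := mul_pos ha hP
  have aR : 0 < a * R := mul_pos ha hR
  have n1 : Ns ≤ 6 * C ^ 2 * P := by
    refine le_of_mul_le_mul_left ?_ af0
    have h1 : a * P ≤ C ^ 2 * (a * P) := le_mul_of_one_le_left aP.le (by linarith)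
    have h2 : 3 * C ^ 2 * P * a ≤ 3 * C ^ 2 * P * (2 * af) := by gcongr
    linarith
  have PT : P0 * T ≤ 4 * C ^ 2 * (a * R) := by
    calc P0 * T ≤ 4 * C ^ 2 * R0 * T := by gcongr
      _ = _ := by rw [e2]; ring
  have b3 : b * t ≤ 4 * C ^ 3 * (a * R) := by
    calc b * t ≤ C * P0 * T := by gcongr
      _ = C * (P0 * T) := by ring
      _ ≤ C * (4 * C ^ 2 * (a * R)) := by gcongr
      _ = _ := by ring
  have b4 : P * t ^ 2 ≤ 4 * C ^ 3 * (a * R) := by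
    calc P * t ^ 2 ≤ P * T ^ 2 := by gcongr
      _ = P0 * T := by rw [← e1]; ring
      _ ≤ 4 * C ^ 2 * (a * R) := PT
      _ ≤ _ := by gcongr
  refine ⟨le_of_mul_le_mul_left ?_ af0, n1, le_of_mul_le_mul_left ?_ af0,
    le_of_mul_le_mul_left ?_ af0, by linarith, ?_, ?_⟩
  · have h1 : af * P ≤ a * P := by gcongr
    have h2 : 0 ≤ b * s := by positivity
    have h3 : 0 ≤ R * s ^ 2 := by positivity
    linarith
  · have h1 : af * R ≤ a * R := by gcongr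
    have h2 : 0 ≤ b * t := by positivity
    have h3 : 0 ≤ P * t ^ 2 := by positivity
    linarith
  · have h1 : a * R ≤ C ^ 3 * (a * R) := le_mul_of_one_le_left aR.le (by linarith)
    have h2 : 9 * C ^ 3 * R * a ≤ 9 * C ^ 3 * R * (2 * af) := by gcongr
    linarith
  · calc t * Ns ≤ T * (6 * C ^ 2 * P) := by
          refine (mul_le_mul_of_nonneg_left n1 ht.le).trans ?_
          gcongr
      _ = _ := by rw [← e1]; ring
  · calc t * P ≤ T * P := by gcongr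
      _ = _ := by rw [← e1]; ring

theorem TUP_R {P0 b R0 C A : ℝ} (hC : 1 ≤ C) (hA : 1 ≤ A) (hP : 4 * A ≤ P0) (g4 : 1 / C * P0 < b)
    (g5 : b ≤ C * P0) (disc : b ^ 2 - 4 * P0 * R0 = 1 - 4 * A) :
    2 * R0 ≤ C ^ 2 * P0 ∧ P0 ≤ 4 * C ^ 2 * R0 := by
  have P0r : 0 < P0 := by linarith
  have C0 : 0 < C := by linarith
  have b0 : 0 < b := lt_trans (by positivity) g4
  refine ⟨le_of_mul_le_mul_left ?_ P0r, le_of_mul_le_mul_left ?_ P0r⟩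
  · have h1 : b ^ 2 ≤ (C * P0) ^ 2 := by gcongr
    have h2 : P0 ≤ P0 * P0 := le_mul_of_one_le_left P0r.le (by linarith)
    have h3 : P0 * P0 ≤ C ^ 2 * (P0 * P0) :=
      le_mul_of_one_le_left (by positivity) (one_le_pow₀ hC)
    linarith
  · have h1 : P0 ≤ C * b := by
      rw [one_div, inv_mul_lt_iff₀ C0] at g4
      exact g4.le
    have h2 : P0 ^ 2 ≤ (C * b) ^ 2 := by gcongr
    have h3 : C ^ 2 * b ^ 2 ≤ C ^ 2 * (4 * P0 * R0) := by gcongr; linarith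
    linarith

theorem TUP_fl_dvd (ρ : Pr) (m : ℤ) : ((ρ.fl m : ℕ) : ℤ) ∣ m := by
  rw [Int.natCast_dvd]
  refine Finset.prod_primes_dvd _ (fun p hp => (prime_of_PP (mem_pf.1 hp).1).prime) fun p hp => ?_
  exact Int.natCast_dvd.1 (mem_pf.1 hp).2

theorem TUP_cop (ρ : Pr) (hy : 0 ≤ ρ.y) (m : ℤ) {q : ℕ} (hq : q.Prime) (h : ρ.y < q) :
    q.Coprime (ρ.fl m) := by
  refine Nat.Coprime.prod_right fun p hp => ?_
  have h1 := (mem_PP hy).1 (mem_pf.1 hp).1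
  refine (Nat.coprime_primes hq h1.1).2 ?_
  rintro rfl
  linarith [h1.2.2]

theorem TUP_size {y : ℝ} (hy : 2 ≤ y) {K k2 k3 k4 k5 k6 : ℕ} (h1 : 6 * (k2 + K) ≤ k3)
    (h2 : 2 ≤ k2) (h3 : k3 ≤ k4) (h4 : 6 * k4 ≤ k5) {q1 q3 q4 e1 a1 e2 a2 s t : ℕ}
    (b1 : y ^ k5 < q1) (b2 : (q1 : ℝ) ≤ y ^ k6) (b3 : y ^ k3 < q3) (b4 : (q3 : ℝ) ≤ y ^ k4)
    (b5 : 0 < q4) (b6 : (q4 : ℝ) ≤ y ^ k2) (p1 : 0 < e1) (p2 : 0 < a1) (p3 : 0 < e2) (p4 : 0 < a2)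
    (d1 : ((e1 * a1 : ℕ) : ℝ) ≤ y ^ K) (d2 : ((e2 * a2 : ℕ) : ℝ) ≤ y ^ K)
    (t1 : e1 * q3 * a1 < 2 * t * (e2 * q4)) (t2 : t * (e2 * q4) ≤ e1 * q3 * a1)
    (st : 2 * (s * t) ≤ a1 * a2 * q1) :
    t < q1 ∧ s < q1 ∧ y ^ (k3 + 1) ≤ (t : ℝ) ^ 2 ∧
      (t : ℝ) ^ 2 * y ^ (k3 + 1) ≤ (a1 * a2 * q1 : ℕ) ∧
      ((a1 * a2 * q1 : ℕ) : ℝ) ≤ y ^ (k6 + 2 * K) := by
  have y1 : (1 : ℝ) ≤ y := by linarith
  have y0 : (0 : ℝ) < y := by linarith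
  have ha1 : (a1 : ℝ) ≤ y ^ K :=
    le_trans (by exact_mod_cast Nat.le_mul_of_pos_left a1 p1) d1
  have ha2 : (a2 : ℝ) ≤ y ^ K :=
    le_trans (by exact_mod_cast Nat.le_mul_of_pos_left a2 p3) d2
  have he2 : (e2 : ℝ) ≤ y ^ K :=
    le_trans (by exact_mod_cast Nat.le_mul_of_pos_right e2 p4) d2
  have tu : (t : ℝ) ≤ y ^ (K + k4) := by
    have : t ≤ e1 * a1 * q3 :=
      (Nat.le_mul_of_pos_right t (Nat.mul_pos p3 b5)).trans (t2.trans_eq (by ring))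
    calc (t : ℝ) ≤ ((e1 * a1 : ℕ) : ℝ) * q3 := by exact_mod_cast this
      _ ≤ y ^ K * y ^ k4 := by gcongr
      _ = _ := by rw [pow_add]
  obtain ⟨j, hj⟩ : ∃ j, k3 = j + (K + k2 + 1) := ⟨k3 - (K + k2 + 1), by omega⟩
  have tl : y ^ j ≤ t := by
    have h5 : q3 ≤ 2 * t * (e2 * q4) :=
      le_trans ((Nat.le_mul_of_pos_left q3 (Nat.mul_pos p1 p2)).trans_eq (by ring)) t1.le
    have h6 : y ^ j * y ^ (K + k2 + 1) ≤ t * y ^ (K + k2 + 1) := by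
      calc y ^ j * y ^ (K + k2 + 1) = y ^ k3 := by rw [hj, ← pow_add]
        _ ≤ q3 := b3.le
        _ ≤ 2 * t * (e2 * q4) := by exact_mod_cast h5
        _ ≤ y * t * (y ^ K * y ^ k2) := by gcongr
        _ = _ := by ring
    exact le_of_mul_le_mul_right h6 (by positivity)
  have q0 : (0 : ℝ) < q1 := lt_trans (by positivity) b1
  have au : ((a1 * a2 * q1 : ℕ) : ℝ) ≤ y ^ (2 * K) * q1 := by
    push_cast
    calc (a1 : ℝ) * a2 * q1 ≤ y ^ K * y ^ K * q1 := by gcongr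
      _ = _ := by ring
  refine ⟨?_, ?_, ?_, ?_, ?_⟩
  · have : (t : ℝ) < q1 := tu.trans_lt ((pow_le_pow_right₀ y1 (by omega)).trans_lt b1)
    exact_mod_cast this
  · have h5 : y ^ (2 * K) ≤ t := (pow_le_pow_right₀ y1 (by omega)).trans tl
    have h6 : (2 : ℝ) * (s * t) ≤ ((a1 * a2 * q1 : ℕ) : ℝ) := by exact_mod_cast st
    have h7 : (2 : ℝ) * s * y ^ (2 * K) ≤ q1 * y ^ (2 * K) := by
      calc (2 : ℝ) * s * y ^ (2 * K) ≤ 2 * s * t := by gcongr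
        _ ≤ _ := by linarith
    have h8 := le_of_mul_le_mul_right h7 (by positivity)
    have : (s : ℝ) < q1 := by linarith [(Nat.cast_nonneg s : (0 : ℝ) ≤ s)]
    exact_mod_cast this
  · calc y ^ (k3 + 1) ≤ y ^ (j * 2) := pow_le_pow_right₀ y1 (by omega)
      _ = (y ^ j) ^ 2 := pow_mul _ _ _
      _ ≤ _ := by gcongr
  · calc (t : ℝ) ^ 2 * y ^ (k3 + 1) ≤ (y ^ (K + k4)) ^ 2 * y ^ (k3 + 1) := by gcongr
      _ = y ^ ((K + k4) * 2 + (k3 + 1)) := by rw [← pow_mul, ← pow_add]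
      _ ≤ y ^ k5 := pow_le_pow_right₀ y1 (by omega)
      _ ≤ q1 := b1.le
      _ ≤ _ := by exact_mod_cast Nat.le_mul_of_pos_left q1 (Nat.mul_pos p2 p4)
  · calc _ ≤ y ^ (2 * K) * q1 := au
      _ ≤ y ^ (2 * K) * y ^ k6 := by gcongr
      _ = _ := by ring

theorem p_TUP (hK4 : S_K4) :
    S_TUP := by
  refine ⟨6, fun A C1 => ⟨1, le_rfl, fun z hA hC hz => ?_⟩⟩
  filter_upwards [eventually_ge_atTop (2 : ℝ), eventually_ge_atTop (4 * (z.A : ℝ))] with y hy hyA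
  rintro ⟨g, ⟨q1, q3, q4, e1, a1, e2, a2, s, t⟩⟩ ⟨hg, hT, hQ, hD, hS, hV⟩
  obtain ⟨-, zA, zC, -, -, zK, z2, z3, z4, z5, z6, z7, z8⟩ := hz
  set ρ : Pr := ⟨z, y⟩ with hρ
  have hA1 : 1 ≤ z.A := by omega
  have y0 : (0 : ℝ) ≤ y := by linarith
  have y1 : (1 : ℝ) ≤ y := by linarith
  obtain ⟨g1, g2, g3, g4, g5⟩ := (mem_GG hA1 (isF_Q0 z.A)).1 hg
  have hF : IsF z.A (ρ.fm g) := (isF_Q0 z.A).act hA1 g1
  have hR0 := hF.third_pos hA1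
  change ρ.X < ((ρ.fm g).1 : ℝ) at g2
  change ((ρ.fm g).1 : ℝ) ≤ 2 * ρ.X at g3
  change 1 / z.C1 * ((ρ.fm g).1 : ℝ) < ((ρ.fm g).2.1 : ℝ) at g4
  change ((ρ.fm g).2.1 : ℝ) ≤ z.C1 * ((ρ.fm g).1 : ℝ) at g5
  have hX : y ≤ ρ.X := le_self_pow₀ y1 (by change z.u ≠ 0; omega)
  have hcy : ρ.cy (g, ⟨q1, q3, q4, e1, a1, e2, a2, s, t⟩) =
      Sd.cyc ⟨q1, q3, q4, e1, a1, e2, a2, s, t⟩ (ρ.fm g) := rfl
  rw [hcy] at hV ⊢
  simp only [] at hT hD hS ⊢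
  obtain ⟨hF1, hP0⟩ := hF
  generalize ρ.fm g = φ at *
  obtain ⟨P0, b, R0⟩ := φ
  obtain ⟨⟨-, -, D1, D2, -⟩, -⟩ := hT
  obtain ⟨Q1, Q3, Q4⟩ := hQ
  obtain ⟨m1, m2⟩ := hD
  obtain ⟨s1, s2, s3, s4, s5, s6, s7, -⟩ := hS
  have hVa := hV.1
  clear hV
  simp only [Sd.E1, Sd.E2, Sd.a] at *
  obtain ⟨Q11, Q12, Q13⟩ := (mem_PP (pow_nonneg y0 _)).1 Q1
  obtain ⟨Q31, Q32, Q33⟩ := (mem_PP (pow_nonneg y0 _)).1 Q3
  obtain ⟨Q41, Q42, Q43⟩ := (mem_PP (pow_nonneg y0 _)).1 Q4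
  have f1 := fl_pos ρ P0
  have f2 := fl_pos ρ R0
  have p12 := Nat.pos_of_dvd_of_pos s1 f1
  have p34 := Nat.pos_of_dvd_of_pos s2 f2
  have p1 : 0 < e1 := Nat.pos_of_mul_pos_right p12
  have p2 : 0 < a1 := Nat.pos_of_mul_pos_left p12
  have p3 : 0 < e2 := Nat.pos_of_mul_pos_right p34
  have p4 : 0 < a2 := Nat.pos_of_mul_pos_left p34
  obtain ⟨k1, k2, k3, k4, k5⟩ := TUP_size hy z3 z2 z4 z5 Q12 Q13 Q32 Q33 Q41.pos Q43 p1 p2 p3 p4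
    (le_trans (by exact_mod_cast Nat.le_of_dvd f1 s1) D1)
    (le_trans (by exact_mod_cast Nat.le_of_dvd f2 s2) D2) s3 s4 s6
  have ha0 : 0 < a1 * a2 * q1 := Nat.mul_pos (Nat.mul_pos p2 p4) Q11.pos
  have hst : 0 < s * t := by omega
  have hs0 : 0 < s := Nat.pos_of_mul_pos_right hst
  have ht0 : 0 < t := Nat.pos_of_mul_pos_left hst
  have c3 := TUP_cop ρ y0 P0 Q31 ((le_self_pow₀ y1 (by change z.k3 ≠ 0; omega)).trans_lt Q32)
  have c1 := TUP_cop ρ y0 R0 Q11 ((le_self_pow₀ y1 (by change z.k5 ≠ 0; omega)).trans_lt Q12)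
  have c4 := TUP_cop ρ y0 R0 Q41 Q42
  obtain ⟨p', hp'⟩ : ((e1 * q3 * a1 : ℕ) : ℤ) ∣ P0 := by
    rw [show e1 * q3 * a1 = q3 * (e1 * a1) by ring, Int.natCast_dvd]
    exact (c3.coprime_dvd_right s1).mul_dvd_of_dvd_of_dvd (Int.natCast_dvd.1 m1)
      (s1.trans (Int.natCast_dvd.1 (TUP_fl_dvd ρ P0)))
  obtain ⟨r', hr'⟩ : ((e2 * q4 * a2 * q1 : ℕ) : ℤ) ∣ R0 := by
    rw [show e2 * q4 * a2 * q1 = (q1 * q4) * (e2 * a2) by ring, Int.natCast_dvd]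
    exact ((Nat.Coprime.mul_left c1 c4).coprime_dvd_right s2).mul_dvd_of_dvd_of_dvd
      (Int.natCast_dvd.1 m2) (s2.trans (Int.natCast_dvd.1 (TUP_fl_dvd ρ R0)))
  have n1 : (0 : ℤ) < (e1 * q3 * a1 : ℕ) := by
    exact_mod_cast Nat.mul_pos (Nat.mul_pos p1 Q31.pos) p2
  have n2 : (0 : ℤ) < (e2 * q4 * a2 * q1 : ℕ) := by
    exact_mod_cast Nat.mul_pos (Nat.mul_pos (Nat.mul_pos p3 Q41.pos) p4) Q11.pos
  have n3 : (0 : ℤ) < (e1 * q3 : ℕ) := by exact_mod_cast Nat.mul_pos p1 Q31.pos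
  have n4 : (0 : ℤ) < (e2 * q4 : ℕ) := by exact_mod_cast Nat.mul_pos p3 Q41.pos
  have hx : Sd.cyc ⟨q1, q3, q4, e1, a1, e2, a2, s, t⟩ (P0, b, R0) =
      ⟨p' * (e2 * q4 : ℕ), r' * (e1 * q3 : ℕ), (a1 * a2 * q1 : ℕ), b, s, t⟩ := by
    simp only [Sd.cyc, Sd.E1, Sd.E2, Sd.a]
    rw [hp', hr', mul_assoc _ p', mul_assoc _ r', Int.mul_ediv_cancel_left _ n1.ne',
      Int.mul_ediv_cancel_left _ n2.ne']
  rw [hx] at hVa ⊢
  have pp : 0 < p' := by rw [hp'] at hP0; exact (mul_pos_iff_of_pos_left n1).1 hP0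
  have rp : 0 < r' := by rw [hr'] at hR0; exact (mul_pos_iff_of_pos_left n2).1 hR0
  have cop : (a1 * a2 * q1).Coprime (s * t) := by
    refine Nat.Coprime.mul_left ?_ (Nat.Coprime.mul_right ?_ ?_)
    · exact ((s7.coprime_dvd_left (Dvd.intro _ rfl)).coprime_dvd_right
        (mul_dvd_mul (dvd_of_mul_left_dvd s1) (dvd_of_mul_left_dvd s2))).symm
    · exact (Nat.coprime_of_lt_prime hs0.ne' k2 Q11)
    · exact (Nat.coprime_of_lt_prime ht0.ne' k1 Q11)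
  have copZ : IsCoprime ((a1 * a2 * q1 : ℕ) : ℤ) ((s : ℤ) * t) := by
    exact_mod_cast Nat.isCoprime_iff_coprime.2 cop
  set x : VT := ⟨p' * (e2 * q4 : ℕ), r' * (e1 * q3 : ℕ), (a1 * a2 * q1 : ℕ), b, s, t⟩ with hxd
  have ePR : x.P * x.R * x.a = P0 * R0 := by
    simp only [hxd]; rw [hp', hr']; push_cast; ring
  have s6' : 2 * ((s : ℤ) * t) ≤ (a1 * a2 * q1 : ℕ) := by exact_mod_cast s6
  have ha0' : (0 : ℤ) < (a1 * a2 * q1 : ℕ) := by exact_mod_cast ha0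
  have hOk : x.Ok z.A := by
    refine ⟨?_, mul_pos pp n4, mul_pos rp n3, ha0', ?_, hVa, ?_⟩
    · have : x.b = b := rfl
      linear_combination hF1 - 4 * ePR + (x.b + b) * this
    · change 0 < ((a1 * a2 * q1 : ℕ) : ℤ) - s * t
      linarith
    · change IsCoprime (t : ℤ) (((a1 * a2 * q1 : ℕ) : ℤ) - s * t)
      have := (IsCoprime.of_mul_right_right copZ).symm.add_mul_right_right (-s)
      rwa [neg_mul, ← sub_eq_add_neg] at this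
  obtain ⟨u1, u2, -⟩ := hK4 z.A x hA1 hOk
  have P0r : (0 : ℝ) < P0 := by exact_mod_cast hP0
  have C0 : 0 < z.C1 := by linarith
  have b0 : (0 : ℝ) < b := lt_trans (by positivity) g4
  have disc : (b : ℝ) ^ 2 - 4 * P0 * R0 = 1 - 4 * z.A := by exact_mod_cast hF1
  have A1 : (1 : ℝ) ≤ z.A := by exact_mod_cast hA1
  obtain ⟨hR1, hR2⟩ := TUP_R zC A1 (hyA.trans (hX.trans g2.le)) g4 g5 disc
  have n4r : (0 : ℝ) < (e2 * q4 : ℕ) := by exact_mod_cast n4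
  obtain ⟨r1, r2, r3, r4, r5, r6, r7⟩ := TUP_real (P0 := P0) (b := b) (R0 := R0) (P := x.P)
    (R := x.R) (a := x.a) (s := s) (t := t) (T := (e1 * q3 * a1 : ℕ) / (e2 * q4 : ℕ))
    (af := x.af) (Ns := x.Ns) (Nt := x.Nt) zC (by exact_mod_cast hOk.2.1)
    (by exact_mod_cast hOk.2.2.1) (by exact_mod_cast hOk.2.2.2.1) (Nat.cast_nonneg s)
    (by exact_mod_cast ht0) b0 g5 hR1 hR2
    (by rw [← mul_div_assoc, div_eq_iff n4r.ne', hp']; simp only [hxd]; push_cast; ring)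
    (by rw [← mul_div_assoc, eq_div_iff n4r.ne', hr']; simp only [hxd]; push_cast; ring)
    (by rw [le_div_iff₀ n4r]; exact_mod_cast s4) (by rw [div_lt_iff₀ n4r]; exact_mod_cast s3)
    (by simp only [hxd]; exact_mod_cast s6') (by simp only [hxd, VT.af]; push_cast; ring)
    (by exact_mod_cast u2) (by exact_mod_cast u1)
  refine ⟨hOk, ?_, ?_, ePR, Dvd.intro_left _ rfl, Dvd.intro_left _ rfl, ?_, k3, k4, k5,
    by exact_mod_cast r1, r2, by exact_mod_cast r3, r4, ?_⟩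
  · simp only [hxd]; rw [hp']; ring
  · simp only [hxd]; rw [hr']; ring
  · change IsCoprime ((a1 * a2 * q1 : ℕ) : ℤ) (((a1 * a2 * q1 : ℕ) : ℤ) - s * t)
    have := copZ.neg_right.add_mul_left_right 1
    rwa [mul_one, add_comm, ← sub_eq_add_neg] at this
  · have xP : (0 : ℝ) < x.P := by exact_mod_cast hOk.2.1
    have xR : (0 : ℝ) < x.R := by exact_mod_cast hOk.2.2.1
    have w1 : (0 : ℝ) ≤ s * x.R := by positivity
    have w2 : (0 : ℝ) ≤ t * x.P := by positivity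
    have w3 : (0 : ℝ) ≤ t * x.Ns := mul_nonneg (Nat.cast_nonneg t) (by linarith)
    have w4 : z.C1 * P0 ≤ z.C1 ^ 2 * P0 := by gcongr; nlinarith
    have w5 : (P0 : ℝ) ≤ z.C1 ^ 2 * P0 := le_mul_of_one_le_left P0r.le (one_le_pow₀ zC)
    have w6 : z.C1 ^ 2 * P0 ≤ z.C1 ^ 2 * (2 * ρ.X) := by gcongr
    have key : ∀ v : ℤ, (b : ℝ) ≤ v → (v : ℝ) ≤ 14 * (z.C1 ^ 2 * P0) →
        0 < v ∧ (v : ℝ) ≤ 30 * z.C1 ^ 2 * ρ.X := fun v h1 h2 =>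
      ⟨by exact_mod_cast b0.trans_le h1, by linarith⟩
    intro i
    fin_cases i
    · refine key (b + 2 * s * x.R + 2 * t * x.Ns) ?_ ?_ <;> push_cast <;> linarith
    · refine key (b + 2 * s * x.R) ?_ ?_ <;> push_cast <;> linarith
    · refine key (b + 2 * t * x.P) ?_ ?_ <;> push_cast <;> linarith

end Pool.Agent.P.MP_8be758_nt.Pd
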