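import Pool.Agent.P.MP_8be758_nt.Pd.IfE

/-! Step TYP. -/

namespace Pool.Agent.P.MP_8be758_nt.Pd

open Finset Real Filter
open Pool.Agent.P.MP_8be758_nt.Par (det)
open Pool.Agent.P.MP_8be758_nt.Avg (rho)
open scoped Classical

theorem TYP_typ (ρ : Pr) (φ : Fm) (h1 : (ρ.fl φ.1 : ℝ) ≤ ρ.y ^ ρ.K ∧ (ρ.fl φ.2.2 : ℝ) ≤ ρ.y ^ ρ.K ∧
    ρ.si (φ.1 * φ.2.2) ≤ 1 / √ρ.w ∧ ∀ p ∈ ρ.Ps, ¬(p : ℤ) ^ 2 ∣ φ.1 * φ.2.2)
    (h2 : 39 / 20 * ρ.La ≤ (ρ.om φ.1 + ρ.om φ.2.2 : ℕ) ∧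
      ((ρ.om φ.1 + ρ.om φ.2.2 : ℕ) : ℝ) ≤ 41 / 20 * ρ.La) : ρ.Typ φ := by
  obtain ⟨a1, a2, a3, a4⟩ := h1
  have e1 : ρ.om (ρ.fl (φ.1 * φ.2.2)) = ρ.om φ.1 + ρ.om φ.2.2 := by
    rw [← om_mul ρ a4, Pr.om, pf_fl, Pr.om]
  have e2 : ρ.si (ρ.fl (φ.1 * φ.2.2)) = ρ.si (φ.1 * φ.2.2) := by rw [Pr.si, pf_fl, Pr.si]
  refine ⟨?_, a4⟩
  rw [Pr.DA, ← fl_mul ρ a4, primeFactors_fl, e1, e2]
  exact ⟨squarefree_fl _ _, filter_subset _ _, a1, a2, h2.1, h2.2, a3⟩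

theorem TYP_q (ρ : Pr) (φ : Fm) (hy : 1 ≤ ρ.y) (hk : ρ.k2 ≤ ρ.k5)
    (h1 : ∃ p ∈ PP (ρ.y ^ ρ.k5) (ρ.y ^ ρ.k6), (p : ℤ) ∣ ev φ (0, 1))
    (h3 : ∃ p ∈ PP (ρ.y ^ ρ.k3) (ρ.y ^ ρ.k4), (p : ℤ) ∣ ev φ (1, 0))
    (h4 : ∃ p ∈ PP (ρ.y ^ 1) (ρ.y ^ ρ.k2), (p : ℤ) ∣ ev φ (0, 1)) :
    ∃ q, ρ.QR q ∧ Pr.QD q φ := by
  obtain ⟨q1, a1, b1⟩ := h1
  obtain ⟨q3, a3, b3⟩ := h3
  obtain ⟨q4, a4, b4⟩ := h4
  have e1 : ev φ (0, 1) = φ.2.2 := by simp [ev]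
  have e3 : ev φ (1, 0) = φ.1 := by simp [ev]
  rw [e1] at b1 b4
  rw [e3] at b3
  rw [pow_one] at a4
  refine ⟨(q1, q3, q4), ⟨a1, a3, a4⟩, b3, ?_⟩
  have c1 := lt_of_PP a1
  have c4 := ((mem_PP (by positivity)).1 a4).2.2
  have c2 := pow_le_pow_right₀ hy hk
  have ne : q1 ≠ q4 := fun e => by rw [e] at c1; linarith
  push_cast
  exact IsCoprime.mul_dvd (Nat.isCoprime_iff_coprime.2
    ((Nat.coprime_primes (prime_of_PP a1) (prime_of_PP a4)).2 ne)) b1 b4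

theorem TYP_log {r a b : ℕ} {N : ℝ} (hN : 0 ≤ N) (hr : 2 ≤ r) (ha : 1 ≤ a) (h : r * a ≤ b) :
    N / log ((b : ℝ) / a) ≤ N * (1 / log r) := by
  have h1 : (1 : ℝ) < r := by exact_mod_cast hr
  have h2 : (0 : ℝ) < a := by exact_mod_cast ha
  rw [mul_one_div]
  refine div_le_div_of_nonneg_left hN (log_pos h1) (log_le_log (by linarith) ?_)
  rw [le_div_iff₀ h2]
  exact_mod_cast h

theorem TYP_card {α : Type} (E : Finset α) (P P1 P2 P3 P4 P5 P6 : α → Prop) [DecidablePred P]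
    [DecidablePred P1] [DecidablePred P2] [DecidablePred P3] [DecidablePred P4] [DecidablePred P5]
    [DecidablePred P6] {b1 b2 b3 b4 b5 b6 : ℝ} (h1 : ((E.filter P1).card : ℝ) ≤ b1)
    (h2 : ((E.filter P2).card : ℝ) ≤ b2) (h3 : ((E.filter P3).card : ℝ) ≤ b3)
    (h4 : ((E.filter P4).card : ℝ) ≤ b4) (h5 : ((E.filter P5).card : ℝ) ≤ b5)
    (h6 : ((E.filter P6).card : ℝ) ≤ b6)
    (h : ∀ x, ¬P1 x → ¬P2 x → ¬P3 x → ¬P4 x → ¬P5 x → ¬P6 x → ¬P x) :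
    ((E.filter P).card : ℝ) ≤ b1 + b2 + b3 + b4 + b5 + b6 := by
  refine le_trans ?_ (add_le_add (add_le_add (add_le_add (add_le_add (add_le_add h1 h2) h3) h4) h5) h6)
  simp only [card_filter]
  push_cast
  simp only [← sum_add_distrib]
  refine sum_le_sum fun x _ => ?_
  have := h x
  split_ifs <;> first | (norm_num; done) | (exfalso; tauto)

theorem TYP_num {D1 D3 D4 X u0 u1 u2 u3 : ℝ} (p1 : 1 ≤ D1) (p3 : 1 ≤ D3) (p4 : 1 ≤ D4) (hX : 0 ≤ X)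
    (k1 : u0 ≤ u1) (k2 : 0 ≤ u1) (k3 : 0 ≤ u2) (k4 : 0 ≤ u3) :
    D1 * X * (u0 + u2) + X * u0 + D4 * X * u1 + D3 * X * u3 + D3 * X * u3 + D3 * X * u3 ≤
      (D1 + 1 + 3 * D3 + D4) * X * (u1 + u2 + u3) := by
  have q1 := mul_le_mul_of_nonneg_left k1 hX
  have q2 := mul_le_mul_of_nonneg_left q1 (show 0 ≤ D1 by linarith)
  have w4 : 0 ≤ (3 * D3) * (X * u1) + (1 + 3 * D3 + D4) * (X * u2) + (D1 + 1 + D4) * (X * u3) := by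
    positivity
  linarith

theorem p_TYP (hTYP1 : S_TYP1) (hTYP2 : S_TYP2) (hTYP3 : S_TYP3) (hTB : S_TB) :
    S_TYP := by
  obtain ⟨c1, H1⟩ := hTYP1
  obtain ⟨c2, H2⟩ := hTYP2
  obtain ⟨c3, H3⟩ := hTYP3
  obtain ⟨c4, H4⟩ := hTB
  refine ⟨c1 + c2 + c3 + c4 + 3, fun A C1 => ?_⟩
  obtain ⟨D1, p1, H1⟩ := H1 A C1
  obtain ⟨_, -, H2⟩ := H2 A C1
  obtain ⟨D3, p3, H3⟩ := H3 A C1
  obtain ⟨D4, p4, H4⟩ := H4 A C1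
  refine ⟨D1 + 1 + 3 * D3 + D4, by linarith, fun z e1 e2 hb => ?_⟩
  filter_upwards [H1 z e1 e2 (hb.mono (by omega)), H2 z e1 e2 (hb.mono (by omega)),
    H3 z e1 e2 (hb.mono (by omega)), H4 z e1 e2 (hb.mono (by omega)), eventually_ge_atTop 1]
    with y h1 h2 h3 h4 hy r r1 r2 r3 r4
  obtain ⟨-, -, -, -, -, b6, b7, b8, b9, b10, b11, -, -⟩ := hb.mono (c := 1) (by omega)
  have hX : 0 ≤ Pr.X ⟨z, y⟩ := by unfold Pr.X; positivity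
  have m3 := Nat.mul_le_mul_right z.k3 r1
  have m5 := Nat.mul_le_mul_right z.k5 r1
  have hN : 0 ≤ D3 * Pr.X ⟨z, y⟩ := by positivity
  have n4 : z.k4 ≤ z.k6 := by omega
  have n2 : z.k2 ≤ z.k5 := by omega
  have g1 := (h3 z.k5 z.k6 (0, 1) (by omega) (by omega) le_rfl (.inr rfl)).trans
    (TYP_log hN r1 (by omega) r4)
  have g3 := (h3 z.k3 z.k4 (1, 0) (by omega) (by omega) n4 (.inl rfl)).trans
    (TYP_log hN r1 (by omega) r3)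
  have g4 := (h3 1 z.k2 (0, 1) le_rfl (by omega) (n2.trans b11) (.inr rfl)).trans
    (TYP_log hN r1 le_rfl (by omega))
  have hK : (1 : ℝ) ≤ z.K := by exact_mod_cast b6
  have k1 : 1 / (z.K : ℝ) ≤ 1 / √z.K :=
    one_div_le_one_div_of_le (sqrt_pos.2 (by linarith)) (sqrt_le_iff.2 ⟨by linarith, by nlinarith⟩)
  rw [div_eq_mul_one_div] at h4
  refine (TYP_card _ _ _ _ _ _ _ _ h1 (h2.trans_eq (div_eq_mul_one_div _ _)) h4 g1 g3 g4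
    fun g a1 a2 a3 a4 a5 a6 => not_not.2 ?_).trans (TYP_num p1 p3 p4 hX k1 (by positivity)
      (by positivity) (one_div_nonneg.2 (log_natCast_nonneg r)))
  have t := TYP_typ ⟨z, y⟩ _ (not_not.1 a1) (not_not.1 a2)
  exact ⟨t, not_not.1 fun e => a3 ⟨t, e⟩,
    TYP_q ⟨z, y⟩ _ hy n2 (not_not.1 a4) (not_not.1 a5) (not_not.1 a6)⟩

end Pool.Agent.P.MP_8be758_nt.Pd
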