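import Pool.Agent.P.MP_8be758_nt.Pd.IfE

/-! Step TYP1. -/

namespace Pool.Agent.P.MP_8be758_nt.Pd

open Finset Real Filter
open Pool.Agent.P.MP_8be758_nt.Par (det)
open Pool.Agent.P.MP_8be758_nt.Avg (rho)
open scoped Classical

theorem TYP1_markov {α : Type} (E : Finset α) (P : α → Prop) [DecidablePred P] (f : α → ℝ)
    (hf : ∀ g ∈ E, 0 ≤ f g) (hP : ∀ g ∈ E, P g → 1 ≤ f g) :
    ((E.filter P).card : ℝ) ≤ ∑ g ∈ E, f g := by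
  calc ((E.filter P).card : ℝ) = ∑ _g ∈ E.filter P, (1 : ℝ) := by simp
    _ ≤ ∑ g ∈ E.filter P, f g := sum_le_sum fun g hg => hP g (mem_filter.1 hg).1 (mem_filter.1 hg).2
    _ ≤ ∑ g ∈ E, f g := sum_le_sum_of_subset_of_nonneg (filter_subset _ _) fun g hg _ => hf g hg

theorem TYP1_swap {α : Type} (E : Finset α) (Q : Finset ℕ) (c b : ℕ → ℝ) (F : ℕ → α → ℝ)
    (hc : ∀ p ∈ Q, 0 ≤ c p) (hF : ∀ p ∈ Q, ∑ g ∈ E, F p g ≤ b p) :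
    ∑ g ∈ E, ∑ p ∈ Q, c p * F p g ≤ ∑ p ∈ Q, c p * b p := by
  rw [sum_comm]
  refine sum_le_sum fun p hp => ?_
  rw [← mul_sum]
  exact mul_le_mul_of_nonneg_left (hF p hp) (hc p hp)

theorem TYP1_sum_pf (ρ : Pr) (m : ℤ) (c : ℕ → ℝ) :
    ∑ p ∈ ρ.pf m, c p = ∑ p ∈ ρ.Ps, c p * ind ((p : ℤ) ∣ m) := by
  rw [Pr.pf, sum_filter]
  refine sum_congr rfl fun p _ => ?_
  by_cases h : (p : ℤ) ∣ m
  · rw [if_pos h, ind_pos h, mul_one]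
  · rw [if_neg h, ind_neg h, mul_zero]

theorem TYP1_log (ρ : Pr) (m : ℤ) :
    log (ρ.fl m) = ∑ p ∈ ρ.Ps, log p * ind ((p : ℤ) ∣ m) := by
  rw [← TYP1_sum_pf, Pr.fl, Nat.cast_prod, Real.log_prod]
  intro p hp
  exact_mod_cast (prime_of_PP (mem_pf.1 hp).1).ne_zero

theorem TYP1_big (ρ : Pr) (m : ℤ) (hy : 1 < ρ.y) (hK : 0 < (ρ.K : ℝ))
    (h : ¬(ρ.fl m : ℝ) ≤ ρ.y ^ ρ.K) :
    1 ≤ (∑ p ∈ ρ.Ps, log p * ind ((p : ℤ) ∣ m)) / (ρ.K * log ρ.y) := by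
  have hl : 0 < log ρ.y := Real.log_pos hy
  rw [← TYP1_log, le_div_iff₀ (by positivity), one_mul, ← Real.log_pow]
  exact Real.log_le_log (by positivity) (not_le.1 h).le

theorem TYP1_si (ρ : Pr) (m m' : ℤ) : ρ.si (m * m') ≤
    ∑ p ∈ ρ.Ps, 1 / (p : ℝ) * ind ((p : ℤ) ∣ m) + ∑ p ∈ ρ.Ps, 1 / (p : ℝ) * ind ((p : ℤ) ∣ m') := by
  rw [← TYP1_sum_pf, ← TYP1_sum_pf, Pr.si, pf_mul, ← sum_union_inter]
  have : 0 ≤ ∑ p ∈ ρ.pf m ∩ ρ.pf m', 1 / (p : ℝ) := sum_nonneg fun _ _ => by positivity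
  linarith

theorem TYP1_main (ρ : Pr) {C Cm : ℝ} (hC : 1 ≤ C) (hCm : 0 < Cm) (hy : 1 < ρ.y) (hK : 1 ≤ ρ.K)
    (hw : 1 ≤ ρ.w)
    (hF : ∀ p ∈ ρ.Ps, ∑ g ∈ ρ.E, ind ((p : ℤ) ∣ (ρ.fm g).1) ≤ C * ρ.X / p ∧
      ∑ g ∈ ρ.E, ind ((p : ℤ) ∣ (ρ.fm g).2.2) ≤ C * ρ.X / p ∧
      ∑ g ∈ ρ.E, ind ((p : ℤ) ^ 2 ∣ (ρ.fm g).1 * (ρ.fm g).2.2) ≤ C * ρ.X / (p : ℝ) ^ 2)
    (hM : ∑ p ∈ ρ.Ps, log p / p ≤ Cm * log ρ.y)
    (h2 : ∑ p ∈ ρ.Ps, (1 : ℝ) / p ^ 2 ≤ 1 / ρ.w) :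
    ((ρ.E.filter fun g => ¬((ρ.fl (ρ.fm g).1 : ℝ) ≤ ρ.y ^ ρ.K ∧
      (ρ.fl (ρ.fm g).2.2 : ℝ) ≤ ρ.y ^ ρ.K ∧ ρ.si ((ρ.fm g).1 * (ρ.fm g).2.2) ≤ 1 / √ρ.w ∧
      ∀ p ∈ ρ.Ps, ¬(p : ℤ) ^ 2 ∣ (ρ.fm g).1 * (ρ.fm g).2.2)).card : ℝ) ≤
    C * (2 * Cm + 3) * ρ.X * (1 / ρ.K + 1 / √ρ.w) := by
  have hl : 0 < log ρ.y := Real.log_pos hy
  have hK' : (0 : ℝ) < ρ.K := by exact_mod_cast hK
  have hw' : (1 : ℝ) ≤ ρ.w := by exact_mod_cast hw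
  have hs : 1 ≤ √(ρ.w : ℝ) := Real.one_le_sqrt.2 hw'
  have hss : √(ρ.w : ℝ) * √(ρ.w : ℝ) = ρ.w := Real.mul_self_sqrt (by positivity)
  have hX : 0 ≤ ρ.X := by rw [Pr.X]; positivity
  have hCX : 0 ≤ C * ρ.X := by positivity
  have hlog : ∀ p ∈ ρ.Ps, 0 ≤ log (p : ℝ) := fun p _ => Real.log_natCast_nonneg p
  have n1 : ∀ m : ℤ, 0 ≤ ∑ p ∈ ρ.Ps, log p * ind ((p : ℤ) ∣ m) := fun m =>
    sum_nonneg fun p hp => mul_nonneg (hlog p hp) (ind_nonneg _)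
  have n2 : ∀ m : ℤ, 0 ≤ ∑ p ∈ ρ.Ps, 1 / (p : ℝ) * ind ((p : ℤ) ∣ m) := fun m =>
    sum_nonneg fun p _ => mul_nonneg (by positivity) (ind_nonneg _)
  have n3 : ∀ m : ℤ, 0 ≤ ∑ p ∈ ρ.Ps, 1 * ind ((p : ℤ) ^ 2 ∣ m) := fun m =>
    sum_nonneg fun p _ => mul_nonneg zero_le_one (ind_nonneg _)
  have e1 : ∑ p ∈ ρ.Ps, log p * (C * ρ.X / p) ≤ C * ρ.X * (Cm * log ρ.y) := by
    refine le_trans (le_of_eq ?_) (mul_le_mul_of_nonneg_left hM hCX)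
    rw [mul_sum]
    exact sum_congr rfl fun p _ => by ring
  have e2 : ∑ p ∈ ρ.Ps, 1 / (p : ℝ) * (C * ρ.X / p) ≤ C * ρ.X * (1 / ρ.w) := by
    refine le_trans (le_of_eq ?_) (mul_le_mul_of_nonneg_left h2 hCX)
    rw [mul_sum]
    exact sum_congr rfl fun p _ => by ring
  have e3 : ∑ p ∈ ρ.Ps, 1 * (C * ρ.X / (p : ℝ) ^ 2) ≤ C * ρ.X * (1 / ρ.w) := by
    refine le_trans (le_of_eq ?_) (mul_le_mul_of_nonneg_left h2 hCX)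
    rw [mul_sum]
    exact sum_congr rfl fun p _ => by ring
  have s1 := (TYP1_swap ρ.E ρ.Ps (fun p => log p) _ (fun p g => ind ((p : ℤ) ∣ (ρ.fm g).1)) hlog
    fun p hp => (hF p hp).1).trans e1
  have s2 := (TYP1_swap ρ.E ρ.Ps (fun p => log p) _ (fun p g => ind ((p : ℤ) ∣ (ρ.fm g).2.2)) hlog
    fun p hp => (hF p hp).2.1).trans e1
  have s3 := (TYP1_swap ρ.E ρ.Ps (fun p => 1 / (p : ℝ)) _ (fun p g => ind ((p : ℤ) ∣ (ρ.fm g).1))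
    (fun p _ => by positivity) fun p hp => (hF p hp).1).trans e2
  have s4 := (TYP1_swap ρ.E ρ.Ps (fun p => 1 / (p : ℝ)) _ (fun p g => ind ((p : ℤ) ∣ (ρ.fm g).2.2))
    (fun p _ => by positivity) fun p hp => (hF p hp).2.1).trans e2
  have s5 := (TYP1_swap ρ.E ρ.Ps (fun _ => (1 : ℝ)) _
    (fun p g => ind ((p : ℤ) ^ 2 ∣ (ρ.fm g).1 * (ρ.fm g).2.2))
    (fun p _ => zero_le_one) fun p hp => (hF p hp).2.2).trans e3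
  refine (TYP1_markov ρ.E _ (fun g =>
    (∑ p ∈ ρ.Ps, log p * ind ((p : ℤ) ∣ (ρ.fm g).1)) / (ρ.K * log ρ.y) +
    (∑ p ∈ ρ.Ps, log p * ind ((p : ℤ) ∣ (ρ.fm g).2.2)) / (ρ.K * log ρ.y) +
    (∑ p ∈ ρ.Ps, 1 / (p : ℝ) * ind ((p : ℤ) ∣ (ρ.fm g).1) +
      ∑ p ∈ ρ.Ps, 1 / (p : ℝ) * ind ((p : ℤ) ∣ (ρ.fm g).2.2)) * √ρ.w +
    ∑ p ∈ ρ.Ps, 1 * ind ((p : ℤ) ^ 2 ∣ (ρ.fm g).1 * (ρ.fm g).2.2)) (fun g _ => ?_)
    fun g _ hg => ?_).trans ?_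
  · have := n1 (ρ.fm g).1
    have := n1 (ρ.fm g).2.2
    have := n2 (ρ.fm g).1
    have := n2 (ρ.fm g).2.2
    have := n3 ((ρ.fm g).1 * (ρ.fm g).2.2)
    positivity
  · have a1 := div_nonneg (n1 (ρ.fm g).1) (mul_pos hK' hl).le
    have a2 := div_nonneg (n1 (ρ.fm g).2.2) (mul_pos hK' hl).le
    have a3 := mul_nonneg (add_nonneg (n2 (ρ.fm g).1) (n2 (ρ.fm g).2.2)) (Real.sqrt_nonneg (ρ.w : ℝ))
    have a4 := n3 ((ρ.fm g).1 * (ρ.fm g).2.2)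
    by_cases b1 : (ρ.fl (ρ.fm g).1 : ℝ) ≤ ρ.y ^ ρ.K
    swap
    · have := TYP1_big ρ _ hy hK' b1
      linarith
    by_cases b2 : (ρ.fl (ρ.fm g).2.2 : ℝ) ≤ ρ.y ^ ρ.K
    swap
    · have := TYP1_big ρ _ hy hK' b2
      linarith
    by_cases b3 : ρ.si ((ρ.fm g).1 * (ρ.fm g).2.2) ≤ 1 / √ρ.w
    swap
    · have c1 := (not_le.1 b3).le.trans (TYP1_si ρ _ _)
      rw [div_le_iff₀ (by linarith)] at c1
      linarith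
    have b4 : ∃ p ∈ ρ.Ps, (p : ℤ) ^ 2 ∣ (ρ.fm g).1 * (ρ.fm g).2.2 := by
      by_contra hn
      exact hg ⟨b1, b2, b3, fun p hp hd => hn ⟨p, hp, hd⟩⟩
    obtain ⟨p, hp, hd⟩ := b4
    have c2 := single_le_sum (f := fun p : ℕ => 1 * ind ((p : ℤ) ^ 2 ∣ (ρ.fm g).1 * (ρ.fm g).2.2))
      (fun p _ => mul_nonneg zero_le_one (ind_nonneg _)) hp
    simp only [ind_pos hd, mul_one] at c2
    linarith
  · rw [sum_add_distrib, sum_add_distrib, sum_add_distrib, ← sum_div, ← sum_div, ← sum_mul,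
      sum_add_distrib]
    have d1 : C * ρ.X * (Cm * log ρ.y) / (ρ.K * log ρ.y) = C * ρ.X * Cm * (1 / ρ.K) := by
      field_simp
    have d2 : (C * ρ.X * (1 / ρ.w) + C * ρ.X * (1 / ρ.w)) * √(ρ.w : ℝ) =
        2 * (C * ρ.X) * (1 / √ρ.w) := by
      have : (1 : ℝ) / ρ.w = 1 / √ρ.w * (1 / √ρ.w) := by
        rw [div_mul_div_comm, one_mul, hss]
      rw [this]
      field_simp
      ring
    have d3 : C * ρ.X * (1 / ρ.w) ≤ C * ρ.X * (1 / √ρ.w) := by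
      refine mul_le_mul_of_nonneg_left (one_div_le_one_div_of_le (by linarith) ?_) hCX
      nlinarith
    have f1 := (div_le_div_of_nonneg_right s1 (mul_pos hK' hl).le).trans_eq d1
    have f2 := (div_le_div_of_nonneg_right s2 (mul_pos hK' hl).le).trans_eq d1
    have f3 := (mul_le_mul_of_nonneg_right (add_le_add s3 s4)
      (Real.sqrt_nonneg (ρ.w : ℝ))).trans_eq d2
    have f4 := s5.trans d3
    have g1 : 0 ≤ C * ρ.X * (1 / ρ.K) := by positivity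
    have g2 : 0 ≤ C * ρ.X * Cm * (1 / √ρ.w) := by positivity
    nlinarith

theorem p_TYP1 (hFM1 : S_FM1) (hML : S_ML) (hLAM : S_LAM) :
    S_TYP1 := by
  obtain ⟨c1, h1⟩ := hFM1
  obtain ⟨Cm, hCm, hM⟩ := hML
  obtain ⟨c2, h2⟩ := hLAM
  refine ⟨max 3 (max c1 c2), fun A C1 => ?_⟩
  obtain ⟨C, hC, h1⟩ := h1 A C1
  obtain ⟨C', -, h2⟩ := h2 A C1
  refine ⟨C * (2 * Cm + 3), by nlinarith, fun z e1 e2 hb => ?_⟩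
  have hs := hb.sizes (le_max_left _ _)
  filter_upwards [h1 z e1 e2 (hb.mono ((le_max_left _ _).trans (le_max_right _ _))),
    h2 z e1 e2 (hb.mono ((le_max_right _ _).trans (le_max_right _ _))),
    eventually_ge_atTop (2 : ℝ)] with y a1 a2 hy
  exact TYP1_main ⟨z, y⟩ hC hCm (by change 1 < y; linarith) (by change 1 ≤ z.K; omega)
    (by change 1 ≤ z.w; omega) a1 (hM _ y hy) a2.2.2.2.2.2.1

end Pool.Agent.P.MP_8be758_nt.Pd
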