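import Pool.Agent.P.MP_8be758_nt.Pd.IfE

/-! Step TYP3. -/

namespace Pool.Agent.P.MP_8be758_nt.Pd

open Finset Real Filter
open Pool.Agent.P.MP_8be758_nt.Par (det)
open Pool.Agent.P.MP_8be758_nt.Avg (rho)
open scoped Classical

theorem TYP3_low {ι : Type} (E : Finset ι) (Q : Finset ℕ) (P : ℕ → ι → Prop) (m : ℝ)
    [DecidablePred fun g => ¬∃ p ∈ Q, P p g] :
    ((E.filter fun g => ¬∃ p ∈ Q, P p g).card : ℝ) * m ^ 2 ≤
      ∑ g ∈ E, (∑ p ∈ Q, ind (P p g) - m) ^ 2 := by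
  calc ((E.filter fun g => ¬∃ p ∈ Q, P p g).card : ℝ) * m ^ 2
      = ∑ g ∈ E.filter fun g => ¬∃ p ∈ Q, P p g, (∑ p ∈ Q, ind (P p g) - m) ^ 2 := by
        rw [← nsmul_eq_mul, ← sum_const]
        refine sum_congr rfl fun g hg => ?_
        rw [sum_eq_zero fun p hp => ind_neg fun h => (mem_filter.1 hg).2 ⟨p, hp, h⟩]
        ring
    _ ≤ _ := sum_le_sum_of_subset_of_nonneg (filter_subset _ _) fun _ _ _ => sq_nonneg _

theorem p_TYP3 (hTK : S_TKE) (hMER : S_MER) (hQCNT : S_QCNT) (hL1 : S_L1) :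
    S_TYP3 := by
  obtain ⟨c1, h1⟩ := hTK
  obtain ⟨c2, h2⟩ := hQCNT
  refine ⟨max c1 c2, fun A C1 => ?_⟩
  by_cases hA : Odd A ∧ 3 ≤ A
  swap
  · exact ⟨1, le_rfl, fun z e _ hz => absurd ⟨e ▸ hz.1, e ▸ hz.2.1⟩ hA⟩
  obtain ⟨CT, hCT, h1⟩ := h1 A C1
  obtain ⟨CQ, hCQ, h2⟩ := h2 A C1
  obtain ⟨C0, hC0, h3⟩ := hMER A hA.1 hA.2
  refine ⟨8 * CT + CQ * (2 * C0 + 4), by nlinarith, fun z e1 e2 hz => ?_⟩
  filter_upwards [h1 z e1 e2 (hz.mono (le_max_left _ _)), h2 z e1 e2 (hz.mono (le_max_right _ _)),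
    eventually_ge_atTop (2 : ℝ), eventually_ge_atTop (z.w : ℝ)] with y k1 k2 hy2 hyw
  intro a b u ha hab hb hu
  set ρ : Pr := ⟨z, y⟩ with hρ
  have hy1 : (1 : ℝ) ≤ y := by linarith
  have hX : 0 ≤ ρ.X := pow_nonneg (show (0 : ℝ) ≤ y by linarith) _
  have ha0 : (0 : ℝ) < a := by exact_mod_cast ha
  have hab' : (a : ℝ) < b := by exact_mod_cast hab
  have hL : 0 < log ((b : ℝ) / a) := log_pos ((one_lt_div ha0).2 hab')
  have hya : y ≤ y ^ a := le_self_pow₀ hy1 (by omega)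
  set N : ℝ := ((ρ.E.filter fun g =>
    ¬∃ p ∈ PP (ρ.y ^ a) (ρ.y ^ b), (p : ℤ) ∣ ev (ρ.fm g) u).card : ℝ) with hN
  have hN0 : 0 ≤ N := Nat.cast_nonneg _
  rw [le_div_iff₀ hL]
  by_cases hc : 2 * C0 + 4 ≤ log ((b : ℝ) / a)
  · set m : ℝ := ∑ p ∈ PP (y ^ a) (y ^ b), (rho z.A p : ℝ) / (p + 1) with hm
    have t1 := k1 (PP (y ^ a) (y ^ b)) u hu fun p hp => by
      obtain ⟨p1, p2, p3⟩ := (mem_PP (pow_nonneg (by linarith) _)).1 hp
      refine ⟨p1, ?_, p3.trans (pow_le_pow_right₀ hy1 hb)⟩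
      exact_mod_cast (hyw.trans hya).trans_lt p2
    have t2 : N * m ^ 2 ≤ CT * ρ.X * (m + 1) :=
      (TYP3_low ρ.E (PP (y ^ a) (y ^ b)) (fun p g => (p : ℤ) ∣ ev (ρ.fm g) u) m).trans t1
    have t3 := (h3 (y ^ a) (y ^ b) (hy2.trans hya) (pow_le_pow_right₀ hy1 hab.le)).1
    have hly : 0 < log y := log_pos (by linarith)
    have e3 : log (y ^ b) / log (y ^ a) = (b : ℝ) / a := by
      rw [log_pow, log_pow]
      field_simp
    rw [e3] at t3
    have t4 : ∑ p ∈ PP (y ^ a) (y ^ b), (rho A p : ℝ) / p ≤ 2 * m := by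
      rw [hm, mul_sum, e1]
      refine sum_le_sum fun p hp => ?_
      have p1 : (1 : ℝ) ≤ p := by exact_mod_cast (prime_of_PP hp).one_le
      rw [← mul_div_assoc, div_le_div_iff₀ (by linarith) (by linarith)]
      have : (0 : ℝ) ≤ rho A p := Nat.cast_nonneg _
      nlinarith
    have t5 := (abs_le.1 t3).1
    have t6 : log ((b : ℝ) / a) ≤ 4 * m := by linarith
    have t7 : 1 ≤ m := by linarith
    have t8 : N * m ≤ 2 * CT * ρ.X := by
      have : N * m * m ≤ 2 * CT * ρ.X * m := by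
        have := mul_le_mul_of_nonneg_left (show m + 1 ≤ 2 * m by linarith)
          (show 0 ≤ CT * ρ.X by positivity)
        nlinarith
      exact le_of_mul_le_mul_right this (by linarith)
    have t9 : 0 ≤ CQ * (2 * C0 + 4) * ρ.X := by positivity
    have := mul_le_mul_of_nonneg_left t6 hN0
    nlinarith
  · have t1 : N ≤ CQ * ρ.X := (Nat.cast_le.2 (card_filter_le _ _)).trans k2.1
    have t2 := mul_le_mul t1 (not_le.1 hc).le hL.le (by positivity)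
    have t3 : 0 ≤ 8 * CT * ρ.X := by positivity
    nlinarith

end Pool.Agent.P.MP_8be758_nt.Pd
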