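import Pool.Agent.P.MP_8be758_nt.Pd.IfM

/-! Step UB. -/

namespace Pool.Agent.P.MP_8be758_nt.Pd

open Finset Real Filter
open Pool.Agent.P.MP_8be758_nt.Par (nq mul cj det io et)
open Pool.Agent.P.MP_8be758_nt.Avg (rho)
open Pool.Agent.P.MP_8be758_nt.Pd.Mr

theorem UB_blk {C X y a g : ℝ} {l : ℕ} {K : Finset ℤ} {f : ℤ → ℝ} (hC : 1 ≤ C)
    (hX : X ≤ exp (l * y)) (hg : l * y * a ≤ g) (hf : ∀ k ∈ K, exp y ^ (1 - a) ≤ f k)
    (h : ∑ k ∈ K, f k ^ (2 * l) ≤ (C * (l + 1)) ^ (l + 1) * (X + (C * exp y) ^ l) * exp y ^ l) :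
    (K.card : ℝ) ≤ 2 * (C ^ 2 * (l + 1)) ^ (l + 1) * exp (2 * g) := by
  have h1 : (K.card : ℝ) * exp (2 * (l * y) - 2 * (l * y * a)) ≤ ∑ k ∈ K, f k ^ (2 * l) := by
    rw [← nsmul_eq_mul]
    refine card_nsmul_le_sum _ _ _ fun k hk => ?_
    refine le_trans (le_of_eq ?_) (pow_le_pow_left₀ (by positivity) (hf k hk) _)
    rw [← exp_mul, ← exp_nat_mul]
    congr 1
    push_cast
    ring
  have h2 : exp y ^ l = exp (l * y) := (exp_nat_mul _ _).symm
  have h3 : 1 ≤ C ^ l := one_le_pow₀ hC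
  have h4 : C ^ l ≤ C ^ (l + 1) := pow_le_pow_right₀ hC (Nat.le_succ l)
  have h5 := exp_pos (l * y)
  have h6 : X + (C * exp y) ^ l ≤ 2 * C ^ (l + 1) * exp (l * y) := by
    rw [mul_pow, h2]
    nlinarith
  have h7 : (K.card : ℝ) * exp (2 * (l * y) - 2 * (l * y * a)) ≤
      2 * (C ^ 2 * (l + 1)) ^ (l + 1) * exp (2 * g) * exp (2 * (l * y) - 2 * (l * y * a)) := by
    have e1 : exp (l * y) * exp (l * y) ≤
        exp (2 * g) * exp (2 * (l * y) - 2 * (l * y * a)) := by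
      rw [← exp_add, ← exp_add]
      exact exp_le_exp.2 (by linarith)
    calc _ ≤ (C * (l + 1)) ^ (l + 1) * (2 * C ^ (l + 1) * exp (l * y)) * exp (l * y) := by
          refine (h1.trans h).trans ?_
          rw [h2]
          gcongr
      _ = 2 * (C ^ 2 * (l + 1)) ^ (l + 1) * (exp (l * y) * exp (l * y)) := by
          rw [sq, mul_assoc C C, mul_pow C (C * (l + 1))]
          ring
      _ ≤ _ := by
          rw [mul_assoc _ (exp (2 * g))]
          gcongr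
  exact le_of_mul_le_mul_right h7 (exp_pos _)

theorem p_UB (hMOM : S_MOM) :
    S_UB := by
  intro A α hA hα
  obtain ⟨C, hC, hM⟩ := hMOM A hA
  obtain ⟨m, hm⟩ : ∃ m : ℝ, m = 42 * (13 : ℕ).factorial * C ^ 2 + 5 / α := ⟨_, rfl⟩
  refine ⟨exp (40 * m ^ 20), fun μ a X σ K hX H hP hQ hL a0 a1 hK hG => ?_⟩
  have X0 : 0 < X := (exp_pos _).trans_le hX
  have μ2 : 2 ≤ μ := hP.2.2 ▸ H.2.2.2.2.1
  have μ0 : 0 < μ := by linarith
  have μ1 : 1 ≤ μ := by linarith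
  have hmμ : m ≤ μ := by
    have := (le_log_iff_exp_le X0).2 hX
    exact le_of_pow_le_pow_left₀ (n := 20) (by norm_num) μ0.le (by linarith)
  obtain ⟨L, hLX⟩ : ∃ L, L = log X := ⟨_, rfl⟩
  have hQ' : log σ.Q ≤ L / 40 := by
    have := log_le_log (by linarith [H.one_le_Q]) hQ
    rw [log_rpow X0] at this
    linarith
  have h10 : μ ^ 10 ≤ L / 40 := by rwa [hP.2.1, log_exp] at hQ'
  rw [← hLX] at hL
  have C2 : 1 ≤ C ^ 2 := one_le_pow₀ hC
  have α5 : 0 < 5 / α := by positivity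
  have F0 : (0 : ℝ) < (13 : ℕ).factorial := by positivity
  have e1 : C ^ 2 * (42 * μ ^ 12) ≤ exp μ := by
    refine le_trans ?_ (pow_div_factorial_le_exp μ μ0.le 13)
    rw [le_div_iff₀ F0, pow_succ μ 12]
    have : 42 * (13 : ℕ).factorial * C ^ 2 ≤ μ := (le_add_of_nonneg_right α5.le).trans (hm ▸ hmμ)
    exact le_trans (le_of_eq (by ring)) (mul_le_mul_of_nonneg_left this (pow_pos μ0 12).le)
  have p8 : 1 ≤ μ ^ 8 := one_le_pow₀ μ1
  have p12 : 1 ≤ μ ^ 12 := one_le_pow₀ μ1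
  have p810 : μ ^ 8 ≤ μ ^ 10 := pow_le_pow_right₀ μ1 (by norm_num)
  have L0 : 0 < L := by linarith
  obtain ⟨z, hz⟩ : ∃ z, z = L / μ ^ 8 := ⟨_, rfl⟩
  have z1 : 1 ≤ z := by
    rw [hz, one_le_div (by linarith)]
    linarith
  have z2 : z ≤ 40 * μ ^ 12 := by
    rw [hz, div_le_iff₀ (by linarith)]
    linarith [show 40 * μ ^ 12 * μ ^ 8 = 40 * μ ^ 20 by ring]
  have z3 : μ * z ≤ α * L / 5 := by
    have b1 : 5 / α ≤ μ := (le_add_of_nonneg_left (by positivity)).trans (hm ▸ hmμ)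
    rw [div_le_iff₀ hα] at b1
    have b2 : μ ^ 2 ≤ μ ^ 8 := pow_le_pow_right₀ μ1 (by norm_num)
    rw [hz, mul_div_assoc', div_le_div_iff₀ (by linarith) (by norm_num)]
    have b3 : μ * 5 ≤ α * μ ^ 8 := by nlinarith [mul_le_mul_of_nonneg_left b2 hα.le]
    nlinarith [mul_le_mul_of_nonneg_left b3 L0.le]
  have key : ∀ h ∈ range σ.nb, ((K.filter fun k => σ.Ph h ^ (1 - a) < ‖σ.G A h k‖).card : ℝ) ≤
      2 * exp (μ * (3 * z)) * exp (2 * (41 / 40 * L * α)) := by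
    intro h hh
    obtain ⟨y, hy⟩ : ∃ y, σ.Ph h = exp y := ⟨_, (exp_log (H.Ph_pos h)).symm⟩
    have y1 : μ ^ 8 ≤ y := exp_le_exp.1 (by rw [← hy, ← hP.1]; exact H.P_le_Ph h)
    have y2 : y ≤ μ ^ 10 := exp_le_exp.1 (by rw [← hy, ← hP.2.1]; exact H.Ph_le_Q (mem_range.1 hh))
    have y0 : 0 < y := by linarith
    obtain ⟨l, hl⟩ : ∃ l, l = ⌈L / y⌉₊ := ⟨_, rfl⟩
    have l1 : L / y ≤ l := hl ▸ Nat.le_ceil _
    have l2 : (l : ℝ) < L / y + 1 := hl ▸ Nat.ceil_lt_add_one (by positivity)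
    have l3 : L / y ≤ z := hz ▸ div_le_div_of_nonneg_left L0.le (by linarith) y1
    have l4 : l * y ≤ 41 / 40 * L := by
      have := mul_le_mul_of_nonneg_right l2.le y0.le
      rw [add_mul, div_mul_cancel₀ _ y0.ne'] at this
      linarith
    have b := hM σ.β σ.γ (σ.I h) (σ.Ph h) 1 X {(1, 0)} l
      (K.filter fun k => σ.Ph h ^ (1 - a) < ‖σ.G A h k‖) (H.blk_I h)
      (fun u hu => by
        rw [mem_singleton.1 hu]
        exact ⟨by simp, by simp; omega, by simp [nq]⟩)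
      le_rfl X0.le fun k hk => hK k (mem_filter.1 hk).1
    simp only [FS, sum_singleton, fl_e, ek_e, Complex.ofReal_one, mul_one, norm_one, one_pow] at b
    rw [hy] at b ⊢
    refine (UB_blk (X := X) (f := fun k => ‖σ.G A h k‖) (g := 41 / 40 * L * α) hC ?_
      (mul_le_mul l4 a1 a0 (by positivity)) (fun k hk => (mem_filter.1 hk).2.le) b).trans ?_
    · rw [← log_le_iff_le_exp X0, ← hLX]
      rwa [div_le_iff₀ y0] at l1
    · have b1 : C ^ 2 * (l + 1) ≤ exp μ :=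
        le_trans (mul_le_mul_of_nonneg_left (by linarith) (by linarith)) e1
      have b2 : (C ^ 2 * (l + 1)) ^ (l + 1) ≤ exp (μ * (3 * z)) := by
        refine (pow_le_pow_left₀ (by positivity) b1 _).trans ?_
        rw [← exp_nat_mul, mul_comm]
        refine exp_le_exp.2 (mul_le_mul_of_nonneg_left ?_ μ0.le)
        push_cast
        linarith
      gcongr
  have sub : K ⊆ (range σ.nb).biUnion fun h =>
      K.filter fun k => σ.Ph h ^ (1 - a) < ‖σ.G A h k‖ := fun k hk => by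
    obtain ⟨h, hh⟩ := not_forall.1 (hG k hk)
    refine mem_biUnion.2
      ⟨h, mem_range.2 (lt_of_not_ge fun e => hh ?_), mem_filter.2 ⟨hk, not_le.1 hh⟩⟩
    rw [H.G_eq_zero e, norm_zero]
    exact rpow_nonneg (H.Ph_pos h).le _
  have c1 : (K.card : ℝ) ≤ σ.nb * (2 * exp (μ * (3 * z)) * exp (2 * (41 / 40 * L * α))) := by
    have := sum_le_card_nsmul _ _ _ key
    rw [card_range, nsmul_eq_mul] at this
    refine le_trans ?_ this
    exact_mod_cast (card_le_card sub).trans card_biUnion_le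
  have c2 : (σ.nb : ℝ) * 2 ≤ exp (μ * z) := by
    have b1 := H.nb_le hP
    have b2 : μ ^ 11 ≤ μ ^ 12 := pow_le_pow_right₀ μ1 (by norm_num)
    have b3 : exp μ ≤ exp (μ * z) := exp_le_exp.2 (le_mul_of_one_le_right μ0.le z1)
    nlinarith
  rw [rpow_def_of_pos X0, ← hLX]
  calc _ ≤ _ := c1
    _ = σ.nb * 2 * exp (μ * (3 * z) + 2 * (41 / 40 * L * α)) := by rw [exp_add]; ring
    _ ≤ exp (μ * z) * exp (μ * (3 * z) + 2 * (41 / 40 * L * α)) := by gcongr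
    _ ≤ _ := by
      rw [← exp_add]
      exact exp_le_exp.2 (by nlinarith [mul_pos hα L0])

end Pool.Agent.P.MP_8be758_nt.Pd
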