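import Pool.Agent.P.MP_8be758_nt.Pd.IfP
import Pool.Agent.P.MP_e86632_nt.PNT

/-! Step PAP. -/

namespace Pool.Agent.P.MP_8be758_nt.Pd.G

open Finset Real Filter
open Pool.Agent.P.MP_8be758_nt.Par (nq mul cj det io et)
open Pool.Agent.P.MP_8be758_nt.Avg (rho)
open Pool.Agent.P.MP_8be758_nt.Pd.Mr
open ArithmeticFunction (vonMangoldt)
open ArithmeticFunction.vonMangoldt (residueClass residueClass_le)

theorem PAP_up (m : ℕ) {Y : ℝ} (hY : 2 ≤ Y) :
    ∑ n ∈ Ioc ⌊Y⌋₊ ⌊6 / 5 * Y⌋₊, residueClass (1 : ZMod m) n ≤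
      (((PP Y (6 / 5 * Y)).filter fun p => p ≡ 1 [MOD m]).card : ℝ) * (2 * log Y) +
        2 * √(6 / 5 * Y) * (2 * log Y) := by
  have h65 : log (6 / 5 * Y) ≤ 2 * log Y := by
    rw [show 2 * log Y = log (Y ^ 2) by rw [log_pow]; norm_num]
    exact log_le_log (by positivity) (by nlinarith)
  rw [← sum_filter_add_sum_filter_not _ Nat.Prime]
  refine add_le_add ?_ ?_
  · rw [← nsmul_eq_mul, ← sum_const,
      ← sum_filter_add_sum_filter_not _ (fun p => p ≡ 1 [MOD m]),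
      sum_eq_zero (s := filter (fun p => ¬ p ≡ 1 [MOD m]) _), add_zero]
    · refine le_trans (sum_le_sum (g := fun _ => 2 * log Y) fun p hp => ?_)
        (sum_le_sum_of_subset_of_nonneg (fun p hp => ?_) fun _ _ _ => ?_)
      · obtain ⟨h1, h2⟩ := mem_filter.1 (mem_filter.1 hp).1
        refine (residueClass_le _ p).trans ?_
        rw [ArithmeticFunction.vonMangoldt_apply_prime h2]
        refine le_trans (log_le_log (by exact_mod_cast h2.pos) ?_) h65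
        exact (Nat.le_floor_iff (by positivity)).1 (mem_Ioc.1 h1).2
      · obtain ⟨h0, h3⟩ := mem_filter.1 hp
        obtain ⟨h1, h2⟩ := mem_filter.1 h0
        refine mem_filter.2 ⟨(mem_PP (by positivity)).2 ⟨h2, ?_, ?_⟩, h3⟩
        · exact (Nat.floor_lt (by positivity)).1 (mem_Ioc.1 h1).1
        · exact (Nat.le_floor_iff (by positivity)).1 (mem_Ioc.1 h1).2
      · have := log_nonneg (show (1 : ℝ) ≤ Y by linarith)
        positivity
    · intro p hp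
      refine Set.indicator_of_notMem (fun h => (mem_filter.1 hp).2 ?_) _
      have h' : (p : ZMod m) = ((1 : ℕ) : ZMod m) := by rw [Nat.cast_one]; exact h
      exact (ZMod.natCast_eq_natCast_iff _ _ _).1 h'
  · have h1 := Chebyshev.psi_sub_theta_le (x := 6 / 5 * Y) (by linarith)
    rw [Chebyshev.psi_sub_theta_eq_sum_not_prime] at h1
    refine le_trans ((sum_le_sum fun n _ => residueClass_le _ n).trans
      (sum_le_sum_of_subset_of_nonneg (filter_subset_filter _ (Ioc_subset_Ioc_left (Nat.zero_le _)))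
        fun _ _ _ => ArithmeticFunction.vonMangoldt_nonneg)) (h1.trans ?_)
    exact mul_le_mul_of_nonneg_left h65 (by positivity)

theorem PAP_sm {κ Y : ℝ} (hκ : 0 < κ) (hY : (500 / κ) ^ 4 ≤ Y) (h2 : 2 ≤ Y) :
    2 * √(6 / 5 * Y) * (2 * log Y) ≤ 7 / 100 * κ * Y := by
  obtain ⟨t, ht0, rfl⟩ : ∃ t : ℝ, 0 < t ∧ t ^ 4 = Y :=
    ⟨√√Y, by positivity, by
      rw [show 4 = 2 * 2 by rfl, pow_mul, sq_sqrt (by positivity), sq_sqrt (by positivity)]⟩
  have h1 : 500 / κ ≤ t := le_of_pow_le_pow_left₀ (by norm_num) ht0.le hY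
  rw [div_le_iff₀ hκ] at h1
  have h3 : √(6 / 5 * t ^ 4) ≤ 2 * t ^ 2 := by
    rw [sqrt_le_left (by positivity)]
    nlinarith [pow_pos ht0 4]
  have h4 : log (t ^ 4) ≤ 4 * t := by
    rw [log_pow]; push_cast
    linarith [log_le_sub_one_of_pos ht0]
  have h5 : 0 ≤ log (t ^ 4) := log_nonneg (by linarith)
  have h6 : √(6 / 5 * t ^ 4) * log (t ^ 4) ≤ 2 * t ^ 2 * (4 * t) :=
    mul_le_mul h3 h4 h5 (by positivity)
  have h7 : 500 * t ^ 3 ≤ t * κ * t ^ 3 := mul_le_mul_of_nonneg_right h1 (by positivity)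
  nlinarith [pow_pos ht0 3]

theorem p_PAP :
    S_PAP := by
  intro m hm
  have : NeZero m := ⟨by omega⟩
  have hφ : (0 : ℝ) < m.totient := by exact_mod_cast Nat.totient_pos.2 (by omega)
  obtain ⟨κ, hκe⟩ : ∃ κ : ℝ, κ = 1 / (m.totient : ℝ) := ⟨_, rfl⟩
  have hκ : 0 < κ := by rw [hκe]; positivity
  have h := Pool.Agent.P.MP_e86632_nt.pnt_ap m 1 isUnit_one
  rw [← hκe] at h
  obtain ⟨N0, hN⟩ := eventually_atTop.1
    ((h.eventually (Ioo_mem_nhds (show 99 / 100 * κ < κ by linarith)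
      (show κ < 101 / 100 * κ by linarith))))
  refine ⟨κ / 20, max (max ((500 / κ) ^ 4) 200) (N0 + 1), by positivity, fun Y hY => ?_⟩
  have y1 : (500 / κ) ^ 4 ≤ Y := ((le_max_left _ _).trans (le_max_left _ _)).trans hY
  have y2 : 200 ≤ Y := ((le_max_right _ _).trans (le_max_left _ _)).trans hY
  have y3 : (N0 : ℝ) + 1 ≤ Y := (le_max_right _ _).trans hY
  have n1 : N0 + 1 ≤ ⌊Y⌋₊ := Nat.le_floor (by exact_mod_cast y3)
  have n2 : ⌊Y⌋₊ ≤ ⌊6 / 5 * Y⌋₊ := Nat.floor_le_floor (by linarith)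
  have a1 := (hN ⌊Y⌋₊ (by omega)).2
  have a2 := (hN ⌊6 / 5 * Y⌋₊ (by omega)).1
  rw [div_lt_iff₀ (by exact_mod_cast (by omega : 0 < ⌊Y⌋₊))] at a1
  rw [lt_div_iff₀ (by exact_mod_cast (by omega : 0 < ⌊6 / 5 * Y⌋₊))] at a2
  have e : ∑ n ∈ range (⌊6 / 5 * Y⌋₊ + 1), residueClass (1 : ZMod m) n =
      ∑ n ∈ range (⌊Y⌋₊ + 1), residueClass (1 : ZMod m) n +
        ∑ n ∈ Ioc ⌊Y⌋₊ ⌊6 / 5 * Y⌋₊, residueClass (1 : ZMod m) n := by
    rw [← sum_range_add_sum_Ico _ (Nat.succ_le_succ n2)]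
    congr 1
    refine sum_congr ?_ fun _ _ => rfl
    ext n; simp only [mem_Ico, mem_Ioc]; omega
  have b1 := PAP_up m (Y := Y) (by linarith)
  have b2 := PAP_sm hκ y1 (by linarith)
  have f1 : (⌊Y⌋₊ : ℝ) ≤ Y := Nat.floor_le (by linarith)
  have f2 : 6 / 5 * Y - 1 < ⌊6 / 5 * Y⌋₊ := Nat.sub_one_lt_floor _
  have hl : 0 < log Y := log_pos (by linarith)
  rw [div_le_iff₀ hl]
  have g1 := mul_le_mul_of_nonneg_left f1 hκ.le
  have g2 := mul_le_mul_of_nonneg_left f2.le hκ.le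
  have g3 := mul_le_mul_of_nonneg_left y2 hκ.le
  nlinarith

end Pool.Agent.P.MP_8be758_nt.Pd.G
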