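import Pool.Agent.P.MP_8be758_nt.Pd.IfP

/-! Step PAP2. -/

namespace Pool.Agent.P.MP_8be758_nt.Pd.G

open Finset Real Filter
open Pool.Agent.P.MP_8be758_nt.Par (nq mul cj det io et)
open Pool.Agent.P.MP_8be758_nt.Avg (rho)
open Pool.Agent.P.MP_8be758_nt.Pd.Mr

theorem PAP2_sum {m r : ℕ} {c y : ℝ} (hc : 0 < c) (hr : 1 ≤ r) (hy : exp 2 ≤ y)
    (h : ∀ Y : ℝ, y ≤ Y → c * Y / log Y ≤ ((PP Y (6 / 5 * Y)).filter fun p => p ≡ 1 [MOD m]).card) :
    5 * c / (12 * (r + 1)) ≤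
      ∑ p ∈ (PP (y ^ r) (y ^ (r + 1))).filter fun p => p ≡ 1 [MOD m], 1 / (p : ℝ) := by
  have y1 : 1 < y := by linarith [add_one_le_exp (2 : ℝ)]
  have l2 : 2 ≤ log y := by rwa [le_log_iff_exp_le (by linarith)]
  have y2 : y ≤ y ^ r := le_self_pow₀ y1.le (by omega)
  have b1 : ∀ j < ⌊log y⌋₊, 2 * (2 ^ j * y ^ r) ≤ y ^ (r + 1) := fun j hj => by
    have h1 : (2 : ℝ) ^ (j + 1) ≤ exp 1 ^ ⌊log y⌋₊ :=
      (pow_le_pow_right₀ one_le_two hj).trans
        (pow_le_pow_left₀ zero_le_two (by linarith [add_one_le_exp (1 : ℝ)]) _)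
    have h2 : exp 1 ^ ⌊log y⌋₊ ≤ y := by
      rw [← exp_nat_mul, mul_one, ← le_log_iff_exp_le (by linarith)]
      exact Nat.floor_le (by linarith)
    rw [← mul_assoc, ← pow_succ', pow_succ' y]
    exact mul_le_mul_of_nonneg_right (h1.trans h2) (by positivity)
  have b2 : ∀ j : ℕ, y ^ r ≤ 2 ^ j * y ^ r := fun j =>
    le_mul_of_one_le_left (by positivity) (one_le_pow₀ one_le_two)
  set W : ℕ → Finset ℕ := fun j =>
    (PP (2 ^ j * y ^ r) (6 / 5 * (2 ^ j * y ^ r))).filter fun p => p ≡ 1 [MOD m] with hW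
  have mW : ∀ j p, p ∈ W j ↔ (p.Prime ∧ 2 ^ j * y ^ r < p ∧ (p : ℝ) ≤ 6 / 5 * (2 ^ j * y ^ r)) ∧
      p ≡ 1 [MOD m] := fun j p => by rw [hW, mem_filter, mem_PP (by positivity)]
  have dj : ∀ i j, i < j → Disjoint (W i) (W j) := fun i j hij => disjoint_left.2 fun p h1 h2 => by
    have h3 : (2 : ℝ) ^ (i + 1) ≤ 2 ^ j := pow_le_pow_right₀ one_le_two hij
    have h4 := mul_le_mul_of_nonneg_right h3 (show 0 ≤ y ^ r by positivity)
    have h5 : (0 : ℝ) < 2 ^ i * y ^ r := by positivity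
    rw [pow_succ', mul_assoc] at h4
    linarith [((mW _ _).1 h1).1.2.2, ((mW _ _).1 h2).1.2.1]
  refine le_trans ?_ (sum_le_sum_of_subset_of_nonneg (s := (range ⌊log y⌋₊).biUnion W)
    (fun p hp => ?_) fun _ _ _ => by positivity)
  · rw [sum_biUnion fun i _ j _ hij => (lt_or_gt_of_ne hij).elim (dj i j) fun k => (dj j i k).symm]
    refine le_trans ?_ (card_nsmul_le_sum _ _ (5 * c / (6 * ((r + 1) * log y))) fun j hj => ?_)
    · rw [card_range, nsmul_eq_mul, show 5 * c / (12 * ((r : ℝ) + 1)) =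
        log y / 2 * (5 * c / (6 * ((r + 1) * log y))) by field_simp; ring]
      exact mul_le_mul_of_nonneg_right (by linarith [Nat.lt_floor_add_one (log y)]) (by positivity)
    have h0 : (0 : ℝ) < 2 ^ j * y ^ r := by positivity
    have h1 := h _ (y2.trans (b2 j))
    have h2 : log (2 ^ j * y ^ r) ≤ (r + 1) * log y := by
      have := log_le_log h0 (show 2 ^ j * y ^ r ≤ y ^ (r + 1) by linarith [b1 j (mem_range.1 hj)])
      rwa [log_pow, Nat.cast_succ] at this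
    have h3 := div_le_div_of_nonneg_left (mul_pos hc h0).le
      (log_pos (y1.trans_le (y2.trans (b2 j)))) h2
    refine le_trans ?_ (card_nsmul_le_sum _ _ (1 / (6 / 5 * (2 ^ j * y ^ r))) fun p hp =>
      one_div_le_one_div_of_le (h0.trans ((mW _ _).1 hp).1.2.1) ((mW _ _).1 hp).1.2.2)
    rw [nsmul_eq_mul, show 5 * c / (6 * ((r + 1) * log y)) =
      c * (2 ^ j * y ^ r) / ((r + 1) * log y) * (1 / (6 / 5 * (2 ^ j * y ^ r))) by field_simp]
    exact mul_le_mul_of_nonneg_right (h3.trans h1) (by positivity)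
  · obtain ⟨j, hj, hp⟩ := mem_biUnion.1 hp
    obtain ⟨⟨p1, p2, p3⟩, p4⟩ := (mW _ _).1 hp
    have h0 : (0 : ℝ) < 2 ^ j * y ^ r := by positivity
    exact mem_filter.2 ⟨(mem_PP (by positivity)).2
      ⟨p1, (b2 j).trans_lt p2, by linarith [b1 j (mem_range.1 hj)]⟩, p4⟩

open Classical in
theorem p_PAP2 (hPAP : S_PAP) :
    S_PAP2 := by
  intro m r hm hr
  obtain ⟨c, Y0, hc, h⟩ := hPAP m hm
  refine ⟨c / (2 * r + 3) * (5 * c / (12 * (r + 1))), max Y0 (exp 2), by positivity,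
    fun y D hy h1 h2 => ?_⟩
  have y0 := (le_max_left _ _).trans hy
  have y2 := (le_max_right _ _).trans hy
  have y1 : 1 < y := by linarith [add_one_le_exp (2 : ℝ)]
  have l0 := log_pos y1
  have D0 : 0 < D := lt_of_lt_of_le (by positivity) h1
  have k := PAP2_sum hc hr y2 fun Y hY => h Y (y0.trans hY)
  set S := (PP (y ^ r) (y ^ (r + 1))).filter fun p => p ≡ 1 [MOD m] with hS
  have mS : ∀ p ∈ S, p.Prime ∧ (0 : ℝ) < p ∧ y ^ r < p ∧ (p : ℝ) ≤ y ^ (r + 1) ∧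
      y ^ (r + 1) ≤ D / p ∧ p ≡ 1 [MOD m] := fun p hp => by
    obtain ⟨p1, p2, p3⟩ := (mem_PP (by positivity)).1 (mem_filter.1 hp).1
    have p0 : (0 : ℝ) < p := by exact_mod_cast p1.pos
    refine ⟨p1, p0, p2, p3, (le_div_iff₀ p0).2 (le_trans ?_ h1), (mem_filter.1 hp).2⟩
    rw [show 2 * r + 2 = (r + 1) + (r + 1) by ring, pow_add y (r + 1)]
    exact mul_le_mul_of_nonneg_left p3 (by positivity)
  set T := S.sigma fun p => (PP (D / p) (6 / 5 * (D / p))).filter fun q => q ≡ 1 [MOD m] with hT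
  have mT : ∀ x ∈ T, x.1 ∈ S ∧ x.2.Prime ∧ D / x.1 < x.2 ∧ (x.2 : ℝ) ≤ 6 / 5 * (D / x.1) ∧
      y ^ (r + 1) < x.2 ∧ x.2 ≡ 1 [MOD m] := fun x hx => by
    obtain ⟨x1, x2⟩ := mem_sigma.1 hx
    obtain ⟨q1, q2, q3⟩ := (mem_PP (by positivity)).1 (mem_filter.1 x2).1
    exact ⟨x1, q1, q2, q3, (mS _ x1).2.2.2.2.1.trans_lt q2, (mem_filter.1 x2).2⟩
  have c1 : T.card ≤ (D2 m r y D).card := by
    refine card_le_card_of_injOn (fun x => x.1 * x.2) (fun x hx => ?_) ?_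
    · obtain ⟨x1, q1, q2, q3, q4, q5⟩ := mT x hx
      obtain ⟨p1, p0, p2, p3, -, p5⟩ := mS _ x1
      rw [div_lt_iff₀' p0] at q2
      rw [← mul_div_assoc, le_div_iff₀' p0] at q3
      refine mem_coe.2 (mem_filter.2 ⟨mem_Icc.2 ⟨Nat.mul_pos p1.pos q1.pos, Nat.le_floor ?_⟩, ?_,
        _, _, p1, q1, p5, q5, p2, by exact_mod_cast p3.trans_lt q4, rfl⟩) <;> rwa [Nat.cast_mul]
    · rintro ⟨p, q⟩ hx ⟨p', q'⟩ hx' e
      obtain ⟨x1, -, -, -, -, -⟩ := mT _ hx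
      obtain ⟨x2, q1, -, -, q4, -⟩ := mT _ hx'
      obtain ⟨p1, -, -, p3, -⟩ := mS _ x1
      simp only at e p1 p3 q1 q4 x2
      obtain rfl : p = p' := by
        rcases p1.dvd_mul.1 (e ▸ dvd_mul_right p q) with k | k
        · exact (Nat.prime_dvd_prime_iff_eq p1 (mS _ x2).1).1 k
        · rw [(Nat.prime_dvd_prime_iff_eq p1 q1).1 k] at p3
          exact absurd p3 q4.not_ge
      rw [Nat.eq_of_mul_eq_mul_left p1.pos e]
  refine le_trans ?_ (Nat.cast_le.2 c1)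
  rw [hT, card_sigma, Nat.cast_sum]
  refine le_trans ?_ (sum_le_sum (f := fun p : ℕ => c / (2 * r + 3) * D / log y * (1 / (p : ℝ)))
    fun p hp => ?_)
  · rw [← mul_sum, mul_right_comm, mul_div_right_comm]
    exact mul_le_mul_of_nonneg_left k (by positivity)
  obtain ⟨p1, p0, -, -, p4, -⟩ := mS p hp
  have y3 : y ≤ D / p := (le_self_pow₀ y1.le (by omega)).trans p4
  refine le_trans ?_ (h _ (y0.trans y3))
  have h3 : log (D / p) ≤ (2 * r + 3) * log y := by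
    have := log_le_log (div_pos D0 p0)
      ((div_le_self D0.le (by exact_mod_cast p1.pos)).trans h2)
    rw [log_pow] at this
    exact_mod_cast this
  rw [show c / (2 * r + 3) * D / log y * (1 / (p : ℝ)) = c * (D / p) / ((2 * r + 3) * log y) by
    field_simp]
  exact div_le_div_of_nonneg_left (by positivity) (log_pos (y1.trans_le y3)) h3

end Pool.Agent.P.MP_8be758_nt.Pd.G
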