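import Pool.Agent.P.MP_8be758_nt.Pd.IfH

/-! Step BOX. -/

namespace Pool.Agent.P.MP_8be758_nt.Pd

open Finset Real Filter
open Pool.Agent.P.MP_8be758_nt.Par (det)
open Pool.Agent.P.MP_8be758_nt.Avg (rho)

theorem BOX_perm {m : ℕ} (hm : 0 < m) (x0 : ℤ) {f : ℤ → ℝ}
    (hf : S1.Per m f) : ∑ n ∈ bx m, f (x0 + n) = ∑ x ∈ bx m, f x := by
  have h0 : (0 : ℤ) < m := by exact_mod_cast hm
  have inj : Set.InjOn (fun n : ℤ => (x0 + n) % m) (bx m) := by
    intro a ha b hb h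
    have h1 : a ≡ b [ZMOD m] := Int.ModEq.add_left_cancel' x0 h
    simp only [bx, coe_Ico, Set.mem_Ico] at ha hb
    rwa [Int.ModEq, Int.emod_eq_of_lt ha.1 ha.2, Int.emod_eq_of_lt hb.1 hb.2] at h1
  have im : (bx m).image (fun n : ℤ => (x0 + n) % m) = bx m := by
    refine eq_of_subset_of_card_le (fun x hx => ?_) (card_image_of_injOn inj).ge
    obtain ⟨n, -, rfl⟩ := mem_image.1 hx
    exact mem_Ico.2 ⟨Int.emod_nonneg _ h0.ne', Int.emod_lt_of_pos _ h0⟩
  conv_rhs => rw [← im, sum_image inj]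
  exact sum_congr rfl fun n _ => hf _ _ (Int.mod_modEq _ _).symm

theorem BOX_av (M : ℕ) (f : ℤ → ℝ) : S1.av M f = (∑ x ∈ bx M, f x) / M := by
  simp [Sys.av, S1, bx]

theorem BOX_abs {f : ℤ → ℝ} (h1 : ∀ x, |f x| ≤ 1) (s : Finset ℤ) : |∑ x ∈ s, f x| ≤ s.card :=
  (abs_sum_le_sum_abs _ _).trans ((sum_le_card_nsmul _ _ _ fun x _ => h1 x).trans (by simp))

theorem BOX_av_le {M : ℕ} (hM : 0 < M) {f : ℤ → ℝ} (h1 : ∀ x, |f x| ≤ 1) : |S1.av M f| ≤ 1 := by
  have h0 : (0 : ℝ) < M := by exact_mod_cast hM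
  rw [BOX_av, abs_div, abs_of_pos h0, div_le_one h0]
  simpa [bx] using BOX_abs h1 (bx M)

theorem BOX_int {M : ℕ} (hM : 0 < M) {f : ℤ → ℝ} (hf : S1.Per M f) (h1 : ∀ x, |f x| ≤ 1) (n : ℕ) :
    ∀ a : ℤ, |∑ x ∈ Ioc a (a + n), f x - n * S1.av M f| ≤ 2 * M := by
  have h0 : (0 : ℝ) < M := by exact_mod_cast hM
  have hav := BOX_av_le hM h1
  induction n using Nat.strong_induction_on with
  | _ n ih =>
    intro a
    rcases lt_or_ge n M with h | h
    · have h2 := BOX_abs h1 (Ioc a (a + n))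
      have h3 : (n : ℝ) ≤ M := by exact_mod_cast h.le
      simp only [Int.card_Ioc, add_sub_cancel_left, Int.toNat_natCast] at h2
      refine (abs_sub _ _).trans ?_
      rw [abs_mul, Nat.abs_cast]
      nlinarith [n.cast_nonneg (α := ℝ)]
    · obtain ⟨k, rfl⟩ := Nat.exists_eq_add_of_le h
      have h2 := ih k (by omega) (a + M)
      have h3 : ∑ x ∈ Ioc a (a + M), f x = M * S1.av M f := by
        rw [BOX_av, mul_div_cancel₀ _ h0.ne', ← BOX_perm hM (a + 1) hf]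
        refine sum_bij' (fun x _ => x - (a + 1)) (fun x _ => x + (a + 1)) ?_ ?_ ?_ ?_ ?_ <;>
          simp only [bx, mem_Ioc, mem_Ico] <;> intros
        · omega
        · omega
        · ring
        · ring
        · congr 1; ring
      rw [← Ioc_union_Ioc_eq_Ioc (b := a + M) (by omega) (by push_cast; omega),
        sum_union (Ioc_disjoint_Ioc_of_le le_rfl), h3]
      push_cast
      rw [← add_assoc, add_mul, add_sub_add_left_eq_sub]
      exact h2

theorem BOX_one {M : ℕ} (hM : 0 < M) {f : ℤ → ℝ} (hf : S1.Per M f) (h1 : ∀ x, |f x| ≤ 1)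
    {a b : ℤ} (h : a ≤ b) : |∑ x ∈ Ioc a b, f x - ((b - a : ℤ) : ℝ) * S1.av M f| ≤ 2 * M := by
  obtain ⟨n, rfl⟩ := Int.le.dest h
  simpa using BOX_int hM hf h1 n a

theorem BOX_mul {m : ℕ} (hm : 0 < m) {f : ℤ → ℝ} (hf : S1.Per m f) (k : ℕ) :
    ∑ x ∈ bx (m * k), f x = k * ∑ x ∈ bx m, f x := by
  induction k with
  | zero => simp [bx]
  | succ k ih =>
    have h3 : ∑ x ∈ Ico ((m * k : ℕ) : ℤ) ((m * (k + 1) : ℕ) : ℤ), f x = ∑ x ∈ bx m, f x := by
      rw [← BOX_perm hm ((m * k : ℕ) : ℤ) hf, mul_add_one, Nat.cast_add]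
      refine sum_bij' (fun x _ => x - (m * k : ℕ)) (fun x _ => x + (m * k : ℕ)) ?_ ?_ ?_ ?_ ?_ <;>
        simp only [bx, mem_Ico] <;> intros
      · omega
      · omega
      · ring
      · ring
      · congr 1; ring
    rw [bx, ← Ico_union_Ico_eq_Ico (b := ((m * k : ℕ) : ℤ)) (by positivity)
      (by exact_mod_cast Nat.mul_le_mul_left _ (Nat.le_succ k)),
      sum_union (Ico_disjoint_Ico_consecutive _ _ _), h3, ← bx, ih]
    push_cast
    ring

theorem BOX_three {m k : ℕ} {f : ℤ → ℝ} (hm : 0 < m) (hk : 0 < k) (hf : S1.Per m f) :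
    S1.av (m * k) f = S1.av m f := by
  have h1 : (m : ℝ) ≠ 0 := by exact_mod_cast hm.ne'
  have h2 : (k : ℝ) ≠ 0 := by exact_mod_cast hk.ne'
  rw [BOX_av, BOX_av, BOX_mul hm hf]
  push_cast
  field_simp

theorem BOX_av2 (M : ℕ) (f : V2 → ℝ) :
    S2.av M f = S1.av M fun x => S1.av M fun y => f (x, y) := by
  simp only [BOX_av]
  simp only [Sys.av, S2, sum_product, card_product, bx, Int.card_Ico, sub_zero, Int.toNat_natCast,
    Nat.cast_mul, ← sum_div, div_div]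

theorem BOX_per1 {m : ℕ} {f : V2 → ℝ} (hf : S2.Per m f) (x : ℤ) : S1.Per m fun y => f (x, y) :=
  fun _ _ e => hf _ _ ⟨Int.ModEq.refl _, e⟩

theorem BOX_per2 {m : ℕ} {f : V2 → ℝ} (hf : S2.Per m f) (M : ℕ) :
    S1.Per m fun x => S1.av M fun y => f (x, y) := fun x x' e => by
  have : (fun y => f (x, y)) = fun y => f (x', y) := funext fun y => hf _ _ ⟨e, Int.ModEq.refl _⟩
  simp only [this]

theorem p_BOX :
    S_BOX := by
  refine ⟨fun a b Mx h M f hM hx hf h1 => ?_, fun a b c d Mx h h' M f hM hx hf h1 => ?_,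
    fun m k f hm hk hf => BOX_three hm hk hf, fun m k f hm hk hf => ?_⟩
  · simp only [one_mul]
    exact (BOX_one hM hf h1 h).trans (by linarith)
  · have e1 : ((Ioc a b).card : ℝ) = ((b - a : ℤ) : ℝ) := by
      rw [Int.card_Ioc]
      exact_mod_cast Int.toNat_of_nonneg (sub_nonneg.2 h)
    have e2 : ((Ioc c d).card : ℝ) = ((d - c : ℤ) : ℝ) := by
      rw [Int.card_Ioc]
      exact_mod_cast Int.toNat_of_nonneg (sub_nonneg.2 h')
    have n1 : (0 : ℝ) ≤ ((b - a : ℤ) : ℝ) := e1 ▸ Nat.cast_nonneg _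
    have n2 : (0 : ℝ) ≤ ((d - c : ℤ) : ℝ) := e2 ▸ Nat.cast_nonneg _
    simp only [one_mul]
    rw [sum_product, card_product, Nat.cast_mul, e1, e2, BOX_av2]
    have a1 := BOX_one hM (BOX_per2 hf M) (fun x => BOX_av_le hM fun y => h1 (x, y)) h
    have a2 : |∑ x ∈ Ioc a b, (∑ y ∈ Ioc c d, f (x, y) -
        ((d - c : ℤ) : ℝ) * S1.av M fun y => f (x, y))| ≤ ((b - a : ℤ) : ℝ) * (2 * M) := by
      refine (abs_sum_le_sum_abs _ _).trans ((sum_le_card_nsmul _ _ _ fun x _ =>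
        BOX_one hM (BOX_per1 hf x) (fun y => h1 (x, y)) h').trans ?_)
      rw [nsmul_eq_mul, e1]
    rw [sum_sub_distrib, ← mul_sum] at a2
    obtain ⟨a3, a4⟩ := abs_le.1 a1
    obtain ⟨a5, a6⟩ := abs_le.1 a2
    have a7 := mul_le_mul_of_nonneg_left a3 n2
    have a8 := mul_le_mul_of_nonneg_left a4 n2
    have a9 := mul_le_mul_of_nonneg_left hx (add_nonneg n1 n2)
    rw [abs_le]
    constructor <;> nlinarith
  · rw [BOX_av2, BOX_av2, BOX_three hm hk (BOX_per2 hf _)]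
    simp only [fun x => BOX_three hm hk (BOX_per1 hf x)]

end Pool.Agent.P.MP_8be758_nt.Pd
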