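import Pool.Agent.P.MP_8be758_nt.Pd.If0

/-! Step CRT. -/

namespace Pool.Agent.P.MP_8be758_nt.Pd

open Finset Real Filter
open ArithmeticFunction (cardFactors)
open Pool.Agent.P.MP_8be758_nt.Par (det)
open Pool.Agent.P.MP_8be758_nt.Avg (rho)

theorem p_CRT :
    S_CRT := by
  intro m m' Φ hm hm' hc h1 h2
  have hmz : (0 : ℤ) < m := by exact_mod_cast hm
  have hmz' : (0 : ℤ) < m' := by exact_mod_cast hm'
  rw [← sum_product' (bx m) (bx m') (fun x y => Φ x y)]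
  have hmaps : ∀ x ∈ bx (m * m'), ((x % m, x % m') : ℤ × ℤ) ∈ bx m ×ˢ bx m' := by
    intro x _
    simp only [bx, mem_product, mem_Ico]
    exact ⟨⟨Int.emod_nonneg _ hmz.ne', Int.emod_lt_of_pos _ hmz⟩,
      ⟨Int.emod_nonneg _ hmz'.ne', Int.emod_lt_of_pos _ hmz'⟩⟩
  have hinj : ∀ x ∈ bx (m * m'), ∀ y ∈ bx (m * m'),
      ((x % m, x % m') : ℤ × ℤ) = (y % m, y % m') → x = y := by
    intro x hx y hy hxy
    have e1 : x ≡ y [ZMOD m] := congrArg Prod.fst hxy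
    have e2 : x ≡ y [ZMOD m'] := congrArg Prod.snd hxy
    have e3 : x ≡ y [ZMOD (m : ℤ) * m'] :=
      (Int.modEq_and_modEq_iff_modEq_mul (by simpa using hc)).1 ⟨e1, e2⟩
    simp only [bx, mem_Ico, Nat.cast_mul] at hx hy
    have := e3.eq
    rwa [Int.emod_eq_of_lt hx.1 hx.2, Int.emod_eq_of_lt hy.1 hy.2] at this
  have hcard : (bx m ×ˢ bx m').card ≤ (bx (m * m')).card := by
    simp only [bx, card_product, Int.card_Ico, sub_zero, Int.toNat_natCast, le_refl]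
  refine sum_bij (fun x _ => ((x % m, x % m') : ℤ × ℤ)) hmaps hinj ?_ ?_
  · intro b hb
    obtain ⟨a, ha, hab⟩ := surj_on_of_inj_on_of_card_le
      (fun x (_ : x ∈ bx (m * m')) => ((x % m, x % m') : ℤ × ℤ)) hmaps
      (fun a b ha hb h => hinj a ha b hb h) hcard b hb
    exact ⟨a, ha, hab.symm⟩
  · intro x _
    rw [h1 x (x % m) x (Int.mod_modEq x m).symm, h2 (x % m) x (x % m') (Int.mod_modEq x m').symm]

end Pool.Agent.P.MP_8be758_nt.Pd
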