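import Pool.Agent.P.MP_8be758_nt.Pd.IfM

/-! Step FEJ. -/

namespace Pool.Agent.P.MP_8be758_nt.Pd

open Finset Real Filter
open Pool.Agent.P.MP_8be758_nt.Par (nq mul cj det io et)
open Pool.Agent.P.MP_8be758_nt.Avg (rho)
open Pool.Agent.P.MP_8be758_nt.Pd.Mr

theorem FEJ_exp (n : ℕ) {z : ℂ} (hz : ‖z‖ = 1) :
    (KF n z : ℂ) = (∑ j ∈ range n, ∑ j' ∈ range n, z ^ ((j : ℤ) - j')) / n := by
  have z0 : z ≠ 0 := norm_ne_zero_iff.1 (by rw [hz]; exact one_ne_zero)
  rw [KF, Complex.ofReal_div, Complex.ofReal_natCast, Complex.ofReal_pow, ← Complex.mul_conj',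
    map_sum, sum_mul_sum]
  congr 1
  refine sum_congr rfl fun j _ => sum_congr rfl fun j' _ => ?_
  rw [map_pow, ← Complex.inv_eq_conj hz, zpow_sub₀ z0, zpow_natCast, zpow_natCast, inv_pow,
    div_eq_mul_inv]

theorem FEJ_half {n : ℕ} {z : ℂ} (hz : ‖z‖ = 1) (h : n * ‖z - 1‖ ≤ 1) :
    (n : ℝ) / 2 ≤ ‖∑ j ∈ range n, z ^ j‖ := by
  have h0 := norm_nonneg (z - 1)
  have h1 : ‖(n : ℂ) - ∑ j ∈ range n, z ^ j‖ ≤ (∑ j ∈ range n, (j : ℝ)) * ‖z - 1‖ := by
    have e : (n : ℂ) - ∑ j ∈ range n, z ^ j = ∑ j ∈ range n, (1 - z ^ j) := by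
      rw [sum_sub_distrib]
      simp
    rw [e, sum_mul]
    refine (norm_sum_le _ _).trans (sum_le_sum fun j _ => ?_)
    have := norm_zpow_sub hz norm_one (j : ℤ)
    rw [norm_sub_rev]
    simpa using this
  have h2 : (∑ j ∈ range n, (j : ℝ)) * 2 ≤ n * n := by
    have := (sum_range_id_mul_two n).trans_le (Nat.mul_le_mul_left n (Nat.sub_le n 1))
    rw [← Nat.cast_sum]
    exact_mod_cast this
  have h3 := norm_sub_norm_le (n : ℂ) (∑ j ∈ range n, z ^ j)
  rw [Complex.norm_natCast] at h3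
  have h4 := mul_le_mul_of_nonneg_right h2 h0
  have h5 := mul_le_mul_of_nonneg_left h (Nat.cast_nonneg (α := ℝ) n)
  nlinarith

theorem FEJ_sum (n : ℕ) (W : Finset V2) (u : V2 → ℂ) (a : V2 → ℝ) (h : ∀ v ∈ W, ‖u v‖ = 1) :
    ∑ v ∈ W, ∑ w ∈ W, a v * a w * KF n (u v * (starRingEnd ℂ) (u w)) =
      (∑ j ∈ range n, ∑ j' ∈ range n, ‖∑ v ∈ W, (a v : ℂ) * u v ^ ((j : ℤ) - j')‖ ^ 2) / n := by
  apply Complex.ofReal_injective
  push_cast
  simp only [← Complex.mul_conj', map_sum, sum_mul_sum]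
  calc _ = ∑ v ∈ W, ∑ w ∈ W, (∑ j ∈ range n, ∑ j' ∈ range n, (a v : ℂ) * u v ^ ((j : ℤ) - j') *
        (starRingEnd ℂ) ((a w : ℂ) * u w ^ ((j : ℤ) - j'))) / n := by
        refine sum_congr rfl fun v hv => sum_congr rfl fun w hw => ?_
        rw [FEJ_exp n (by rw [norm_mul, Complex.norm_conj, h v hv, h w hw, one_mul]),
          ← mul_div_assoc, mul_sum]
        congr 1
        refine sum_congr rfl fun j _ => ?_
        rw [mul_sum]
        refine sum_congr rfl fun j' _ => ?_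
        rw [map_mul, map_zpow₀, Complex.conj_ofReal, mul_zpow]
        ring
    _ = _ := by
        simp only [← sum_div]
        congr 1
        simp only [sum_comm (s := W) (t := range n)]

theorem p_FEJ :
    S_FEJ := by
  intro n hn
  have n0 : (0 : ℝ) < n := by exact_mod_cast hn
  refine ⟨fun z hz => ?_, fun W u a h => ?_⟩
  · have s0 := norm_nonneg (∑ j ∈ range n, z ^ j)
    have h0 := norm_nonneg (z - 1)
    have h1 : ‖∑ j ∈ range n, z ^ j‖ ≤ n :=
      (norm_sum_le _ _).trans (by simp [hz])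
    have h2 : ‖∑ j ∈ range n, z ^ j‖ * ‖z - 1‖ = ‖z ^ n - 1‖ := by rw [← norm_mul, geom_sum_mul]
    have h3 : ‖z ^ n - 1‖ ≤ 2 := (norm_sub_le _ _).trans (by simp [hz]; norm_num)
    refine ⟨?_, ?_, fun h => ?_, FEJ_exp n hz⟩
    · rw [KF, div_le_iff₀ n0]
      nlinarith
    · have e : KF n z * (n * ‖z - 1‖ ^ 2) = ‖z ^ n - 1‖ ^ 2 := by
        rw [KF, ← h2]
        field_simp
      rw [e]
      nlinarith [norm_nonneg (z ^ n - 1)]
    · have h4 := FEJ_half hz h
      constructor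
      · rw [KF, le_div_iff₀ n0]
        nlinarith
      · nlinarith [mul_le_mul_of_nonneg_right h4 h0]
  · rw [FEJ_sum n W u a h]
    constructor
    · rw [le_div_iff₀ n0]
      calc _ = ∑ j ∈ range n, (∑ v ∈ W, a v) ^ 2 := by simp [mul_comm]
        _ ≤ _ := sum_le_sum fun j hj => le_trans (le_of_eq ?_) (single_le_sum
          (f := fun j' : ℕ => ‖∑ v ∈ W, (a v : ℂ) * u v ^ ((j : ℤ) - j')‖ ^ 2)
          (fun _ _ => by positivity) hj)
      simp only [sub_self, zpow_zero, mul_one]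
      rw [← Complex.ofReal_sum, Complex.norm_real, Real.norm_eq_abs, sq_abs]
    · rw [div_le_iff₀ n0]
      calc _ ≤ ∑ _j ∈ range n, ∑ k ∈ Icc (-(n : ℤ)) n, ‖∑ v ∈ W, (a v : ℂ) * u v ^ k‖ ^ 2 := by
            refine sum_le_sum fun j hj => ?_
            rw [← sum_image (s := range n) (g := fun j' : ℕ => (j : ℤ) - j')
              (f := fun k => ‖∑ v ∈ W, (a v : ℂ) * u v ^ k‖ ^ 2) fun x _ y _ e => by
                simp only at e; omega]
            refine sum_le_sum_of_subset_of_nonneg (fun k hk => ?_) fun _ _ _ => by positivity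
            obtain ⟨i, hi, rfl⟩ := mem_image.1 hk
            rw [mem_range] at hi hj
            rw [mem_Icc]
            omega
        _ = _ := by simp [mul_comm]

end Pool.Agent.P.MP_8be758_nt.Pd
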