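import Pool.Agent.P.MP_8be758_nt.Pd.If0
import Pool.Agent.P.MP_8be758_nt.Avg.FL

/-! Step FLK. -/

namespace Pool.Agent.P.MP_8be758_nt.Pd

open Finset Real Filter
open ArithmeticFunction (cardFactors)
open Pool.Agent.P.MP_8be758_nt.Par (det)
open Pool.Agent.P.MP_8be758_nt.Avg (rho)
open Pool.Agent.P.MP_8be758_nt.Avg (fl_bonf)
open Pool.Agent.P.MP_6f5b02_nt (es es_le exp_le_one_sub PP_sub block_sum)

/-- multilinear polynomials in the values at `P`, with a bound for norm and support -/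
inductive FLK_R (P : Finset ℕ) : ((ℕ → ℝ) → ℝ) → ℝ → Prop
  | base (c : ℝ) (E : Finset ℕ) (h : E ⊆ P) (hc : |c| = 1) :
      FLK_R P (fun g => c * ∏ p ∈ E, g p) (∏ p ∈ E, (p : ℝ))
  | zero : FLK_R P (fun _ => 0) 0
  | add {F G : (ℕ → ℝ) → ℝ} {L M : ℝ} :
      FLK_R P F L → FLK_R P G M → FLK_R P (fun g => F g + G g) (L + M)
  | mono {F : (ℕ → ℝ) → ℝ} {L M : ℝ} : FLK_R P F L → L ≤ M → FLK_R P F M

section

variable {P Q : Finset ℕ} {F G : (ℕ → ℝ) → ℝ} {L M : ℝ}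

theorem FLK_R.congr (h : FLK_R P F L) (e : ∀ g, F g = G g) : FLK_R P G L :=
  (funext e : F = G) ▸ h

theorem FLK_R.nonneg (h : FLK_R P F L) : 0 ≤ L := by
  induction h with
  | base c E h => positivity
  | zero => exact le_rfl
  | add _ _ h1 h2 => linarith
  | mono _ h1 h2 => linarith

theorem FLK_R.mul (h : FLK_R P F L) (h' : FLK_R Q G M) (hd : Disjoint P Q) :
    FLK_R (P ∪ Q) (fun g => F g * G g) (L * M) := by
  induction h with
  | base c E hE hc =>
    induction h' with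
    | base c' E' hE' hc' =>
      have hd' : Disjoint E E' := hd.mono hE hE'
      refine ((FLK_R.base (c * c') (E ∪ E') (union_subset_union hE hE')
        (by rw [abs_mul, hc, hc', one_mul])).congr fun g => ?_).mono (prod_union hd').le
      rw [prod_union hd']; ring
    | zero => simpa using FLK_R.zero
    | add _ _ h1 h2 => simpa only [mul_add] using h1.add h2
    | mono _ h1 h2 => exact h2.mono (mul_le_mul_of_nonneg_left h1 (by positivity))
  | zero => simpa using FLK_R.zero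
  | add _ _ h1 h2 => simpa only [add_mul] using h1.add h2
  | mono _ h1 h2 => exact h2.mono (mul_le_mul_of_nonneg_right h1 h'.nonneg)

theorem FLK_R.sign (h : FLK_R P F L) (m : ℕ) : FLK_R P (fun g => (-1) ^ m * F g) L := by
  have := (FLK_R.base (P := ∅) ((-1) ^ m) ∅ Subset.rfl (by simp)).mul h (disjoint_empty_left _)
  simpa using this

theorem FLK_sum {ι : Type} (s : Finset ι) {F : ι → (ℕ → ℝ) → ℝ} {L : ι → ℝ}
    (h : ∀ i ∈ s, FLK_R P (F i) (L i)) : FLK_R P (fun g => ∑ i ∈ s, F i g) (∑ i ∈ s, L i) := by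
  classical
  induction s using Finset.induction_on with
  | empty => simpa using FLK_R.zero
  | insert i s hi ih =>
    simp only [sum_insert hi]
    exact (h i (mem_insert_self _ _)).add (ih fun j hj => h j (mem_insert_of_mem hj))

theorem FLK_R.out (h : FLK_R P F L) (hP : ∀ p ∈ P, (1 : ℝ) ≤ p) : ∃ c : Finset ℕ → ℝ,
    (∀ g, F g = ∑ E ∈ P.powerset, c E * ∏ p ∈ E, g p) ∧
      ∑ E ∈ P.powerset, |c E| ≤ L ∧ ∀ E, c E ≠ 0 → ∏ p ∈ E, (p : ℝ) ≤ L := by
  induction h with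
  | base c E hE hc =>
    refine ⟨fun E' => if E' = E then c else 0, fun g => ?_, ?_, fun E' h => ?_⟩
    · rw [sum_eq_single_of_mem E (mem_powerset.2 hE) fun b _ hb => by simp [hb]]
      simp
    · rw [sum_eq_single_of_mem E (mem_powerset.2 hE) fun b _ hb => by simp [hb]]
      simpa [hc] using Finset.one_le_prod fun p hp => hP p (hE hp)
    · rw [show E' = E from by_contra fun e => h (if_neg e)]
  | zero => exact ⟨fun _ => 0, by simp, by simp, by simp⟩
  | add k1 k2 h1 h2 =>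
    obtain ⟨c, e, b, a⟩ := h1
    obtain ⟨c', e', b', a'⟩ := h2
    refine ⟨fun E => c E + c' E, fun g => ?_, le_trans ?_ (add_le_add b b'), fun E h => ?_⟩
    · simp only [e g, e' g, add_mul, sum_add_distrib]
    · rw [← sum_add_distrib]
      exact sum_le_sum fun E _ => abs_add_le _ _
    · by_cases h0 : c E = 0
      · linarith [a' E fun h1 => h (by simp [h0, h1]), k1.nonneg]
      · linarith [a E h0, k2.nonneg]
  | mono _ h1 h2 =>
    obtain ⟨c, e, b, a⟩ := h2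
    exact ⟨c, e, b.trans h1, fun E h => (a E h).trans h1⟩

end

theorem FLK_es {P : Finset ℕ} {z : ℕ} (hz : ∀ p ∈ P, p ≤ z) (hc : P.card ≤ z) (m : ℕ) :
    FLK_R P (fun g => es P m g) ((z : ℝ) ^ (2 * m)) := by
  have h1 : ∀ E ∈ powersetCard m P, FLK_R P (fun g => ∏ p ∈ E, g p) ((z : ℝ) ^ m) := by
    intro E hE
    obtain ⟨hEP, hEc⟩ := mem_powersetCard.1 hE
    refine ((FLK_R.base 1 E hEP abs_one).congr fun g => one_mul _).mono ?_
    have := prod_le_pow_card E (fun q => q) z fun q hq => hz q (hEP hq)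
    rw [hEc] at this
    rw [← Nat.cast_prod]
    exact_mod_cast this
  refine (FLK_sum _ h1).mono ?_
  rw [sum_const, card_powersetCard, nsmul_eq_mul, two_mul, pow_add]
  refine mul_le_mul_of_nonneg_right ?_ (by positivity)
  exact_mod_cast (Nat.choose_le_pow _ _).trans (Nat.pow_le_pow_left hc m)

/-- sieve data on the set `P` -/
def FLK_D (h : ℕ → ℝ) (P : Finset ℕ) (R a : ℝ) : Prop :=
  ∃ (X D : (ℕ → ℝ) → ℝ) (L M : ℝ), FLK_R P X L ∧ FLK_R P D M ∧ L + M ≤ R ∧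
    (∀ g : ℕ → ℝ, (∀ p ∈ P, 0 ≤ g p ∧ g p ≤ 1) →
      ∏ p ∈ P, (1 - g p) ≤ X g ∧ X g ≤ ∏ p ∈ P, (1 - g p) + D g) ∧
    D h ≤ a * ∏ p ∈ P, (1 - h p)

variable {f : ℕ → ℝ} {κ : ℕ}

theorem FLK_D.mono (hf : ∀ p, 0 ≤ f p ∧ f p ≤ 1) {P : Finset ℕ} {R a R' a' : ℝ}
    (h : FLK_D f P R a) (hR : R ≤ R') (ha : a ≤ a') : FLK_D f P R' a' := by
  obtain ⟨X, D, L, M, h1, h2, h3, h4, h5⟩ := h
  exact ⟨X, D, L, M, h1, h2, h3.trans hR, h4, h5.trans (mul_le_mul_of_nonneg_right ha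
    (prod_nonneg fun p _ => sub_nonneg.2 (hf p).2))⟩

theorem FLK_D.mul (hf : ∀ p, 0 ≤ f p ∧ f p ≤ 1) {P Q : Finset ℕ} {R a R' b : ℝ}
    (h : FLK_D f P R a) (h' : FLK_D f Q R' b) (hd : Disjoint P Q) (ha : 0 ≤ a) :
    FLK_D f (P ∪ Q) (R * R') (a + 2 * a * b + b) := by
  obtain ⟨X, D, L, M, h1, h2, h3, h4, h5⟩ := h
  obtain ⟨x, d, l, m, k1, k2, k3, k4, k5⟩ := h'
  have n1 := h1.nonneg
  have n2 := h2.nonneg
  have n3 := k1.nonneg
  have n4 := k2.nonneg
  refine ⟨_, _, _, _, h1.mul k1 hd, (h2.mul k1 hd).add (h1.mul k2 hd), ?_, fun g hg => ?_, ?_⟩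
  · refine le_trans ?_ (mul_le_mul h3 k3 (by linarith) (by linarith))
    nlinarith [mul_nonneg n2 n4]
  · obtain ⟨a1, a2⟩ := h4 g fun p hp => hg p (mem_union_left _ hp)
    obtain ⟨b1, b2⟩ := k4 g fun p hp => hg p (mem_union_right _ hp)
    have c1 : 0 ≤ ∏ p ∈ P, (1 - g p) :=
      prod_nonneg fun p hp => sub_nonneg.2 (hg p (mem_union_left _ hp)).2
    have c2 : 0 ≤ ∏ p ∈ Q, (1 - g p) :=
      prod_nonneg fun p hp => sub_nonneg.2 (hg p (mem_union_right _ hp)).2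
    rw [prod_union hd]
    refine ⟨mul_le_mul a1 b1 c2 (c1.trans a1), ?_⟩
    nlinarith [mul_le_mul_of_nonneg_right a2 (c2.trans b1), mul_le_mul_of_nonneg_left b2 c1,
      mul_le_mul_of_nonneg_right a1 (show 0 ≤ d g by linarith)]
  · obtain ⟨a1, a2⟩ := h4 _ fun p _ => hf p
    obtain ⟨b1, b2⟩ := k4 _ fun p _ => hf p
    have c1 : 0 ≤ ∏ p ∈ P, (1 - f p) := prod_nonneg fun p _ => sub_nonneg.2 (hf p).2
    have c2 : 0 ≤ ∏ p ∈ Q, (1 - f p) := prod_nonneg fun p _ => sub_nonneg.2 (hf p).2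
    rw [prod_union hd]
    have e1 := mul_le_mul h5 (b2.trans (add_le_add_right k5 _)) (c2.trans b1) (mul_nonneg ha c1)
    have e2 := mul_le_mul (a2.trans (add_le_add_right h5 _)) k5 (by linarith)
      (add_nonneg c1 (mul_nonneg ha c1))
    exact (add_le_add e1 e2).trans_eq (by ring)

theorem FLK_block (hf : ∀ p, 0 ≤ f p ∧ f p ≤ κ / p ∧ f p ≤ 1 / 2) {P : Finset ℕ} {z : ℕ}
    (hz2 : 2 ≤ z) (hz : ∀ p ∈ P, p ≤ z) (hc : P.card ≤ z) (hL : ∑ p ∈ P, (1 : ℝ) / p ≤ 11)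
    (d : ℕ) : FLK_D f P ((z : ℝ) ^ (6 * d + (198 * κ + 10))) ((1 / 2) ^ (4 * d + 6)) := by
  obtain ⟨t, ht⟩ : ∃ t, t = d + 33 * κ + 1 := ⟨_, rfl⟩
  refine ⟨_, _, _, _, FLK_sum (range (2 * t + 1)) fun m _ => (FLK_es hz hc m).sign m,
    FLK_es hz hc (2 * t + 1), ?_, fun g hg => ?_, ?_⟩
  · rw [← sum_range_succ (fun m => (z : ℝ) ^ (2 * m))]
    have hz1 : (1 : ℝ) ≤ z := by exact_mod_cast (by omega : 1 ≤ z)
    have h1 : ∑ m ∈ range (2 * t + 1 + 1), (z : ℝ) ^ (2 * m) ≤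
        ∑ _m ∈ range (2 * t + 1 + 1), (z : ℝ) ^ (4 * t + 2) :=
      sum_le_sum fun m hm => pow_le_pow_right₀ hz1 (by have := mem_range.1 hm; omega)
    refine h1.trans ?_
    rw [sum_const, card_range, nsmul_eq_mul,
      show 6 * d + (198 * κ + 10) = (2 * t + 1 + 1) + (4 * t + 2) by omega,
      pow_add (z : ℝ) (2 * t + 1 + 1)]
    refine mul_le_mul_of_nonneg_right ?_ (pow_nonneg (by linarith) _)
    exact_mod_cast (Nat.lt_pow_self (by omega)).le
  · have h1 := fl_bonf g P hg (2 * t + 1)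
    have h2 := fl_bonf g P hg (2 * t + 1 + 1)
    have e : (-1 : ℝ) ^ (2 * t + 1) = -1 := by rw [pow_succ, pow_mul]; simp
    rw [sum_range_succ, pow_succ, e] at h2
    rw [e] at h1
    constructor <;> linarith
  · have h0 : ∑ p ∈ P, f p ≤ κ * 11 := by
      refine le_trans ?_ (mul_le_mul_of_nonneg_left hL (Nat.cast_nonneg κ))
      rw [mul_sum]
      exact sum_le_sum fun p _ => by rw [mul_one_div]; exact (hf p).2.1
    have h1 := es_le (P := P) (g := f) (fun p _ => (hf p).1) (2 * t + 1)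
    have h2 : Real.exp (-(22 * κ)) ≤ ∏ p ∈ P, (1 - f p) := by
      calc Real.exp (-(22 * κ)) ≤ Real.exp (∑ p ∈ P, -(2 * f p)) := by
            rw [Real.exp_le_exp, sum_neg_distrib, ← mul_sum]; linarith
        _ = ∏ p ∈ P, Real.exp (-(2 * f p)) := Real.exp_sum _ _
        _ ≤ _ := prod_le_prod (fun p _ => (Real.exp_pos _).le) fun p hp =>
            exp_le_one_sub (hf p).1 (hf p).2.2
    have h5 : Real.exp (44 * κ) ≤ 16 ^ (33 * κ) * Real.exp (-(22 * κ)) := by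
      rw [Real.exp_neg, le_mul_inv_iff₀ (Real.exp_pos _), ← Real.exp_add,
        show (44 * κ : ℝ) + 22 * κ = ((33 * κ : ℕ) : ℝ) * 2 by push_cast; ring, Real.exp_nat_mul]
      refine pow_le_pow_left₀ (Real.exp_pos _).le ?_ _
      have := Real.exp_one_lt_d9
      have e2 : Real.exp 2 = Real.exp 1 * Real.exp 1 := by rw [← Real.exp_add]; norm_num
      nlinarith [Real.exp_pos 1]
    have h6 := ((h1.trans (Real.exp_le_exp.2 (show _ ≤ (44 * κ : ℝ) by linarith))).trans h5).trans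
      (mul_le_mul_of_nonneg_left h2 (by positivity))
    have e3 : (4 : ℝ) ^ (2 * t + 1) = 16 ^ (33 * κ) * 2 ^ (4 * d + 6) := by
      rw [show (16 : ℝ) = 2 ^ 4 by norm_num, show (4 : ℝ) = 2 ^ 2 by norm_num, ← pow_mul,
        ← pow_mul, ← pow_add]
      congr 1
      omega
    rw [e3, mul_assoc, mul_le_mul_iff_right₀ (by positivity)] at h6
    rwa [one_div, inv_pow, ← div_eq_inv_mul, le_div_iff₀' (by positivity)]

theorem FLK_ind (hf : ∀ p, 0 ≤ f p ∧ f p ≤ κ / p ∧ f p ≤ 1 / 2) (Q : Finset ℕ) (j : ℕ) :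
    ∀ d : ℕ, FLK_D f (MP_6f5b02_nt.PP j ∩ Q) (2 ^ (2 ^ j * (396 * κ + 32 + 12 * d)))
      ((1 / 2) ^ (d + 1)) := by
  have hf' : ∀ p, 0 ≤ f p ∧ f p ≤ 1 := fun p => ⟨(hf p).1, by linarith [(hf p).2.2]⟩
  induction j with
  | zero =>
    intro d
    rw [show MP_6f5b02_nt.PP 0 = {2} by decide]
    refine (FLK_block hf (z := 2) le_rfl (fun p hp => (mem_singleton.1 (mem_inter.1 hp).1).le)
      ((card_le_card inter_subset_left).trans (by simp))
      ((sum_le_sum_of_subset_of_nonneg inter_subset_left fun p _ _ => by positivity).trans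
        (by norm_num)) d).mono hf' ?_ (pow_le_pow_of_le_one (by norm_num) (by norm_num) (by omega))
    exact pow_le_pow_right₀ (by norm_num) (by omega)
  | succ j ih =>
    intro d
    have hP : ∀ p ∈ (MP_6f5b02_nt.PP (j + 1) \ MP_6f5b02_nt.PP j) ∩ Q,
        p ≤ 2 ^ 2 ^ (j + 1) ∧ p.Prime := fun p hp => MP_6f5b02_nt.mem_PP.1 (mem_sdiff.1 (mem_inter.1 hp).1).1
    have hb := FLK_block hf (z := 2 ^ 2 ^ (j + 1))
      (le_self_pow₀ (by norm_num) (by positivity)) (fun p hp => (hP p hp).1)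
      ((card_le_card (t := Ioc 0 (2 ^ 2 ^ (j + 1))) fun p hp =>
        mem_Ioc.2 ⟨(hP p hp).2.pos, (hP p hp).1⟩).trans (by simp))
      ((sum_le_sum_of_subset_of_nonneg inter_subset_left fun p _ _ => by positivity).trans
        (block_sum j)) d
    have h := (ih (d + 1)).mul hf' hb (disjoint_sdiff.mono inter_subset_left inter_subset_left)
      (by positivity)
    rw [← union_inter_distrib_right, union_sdiff_of_subset (PP_sub j)] at h
    refine h.mono hf' ?_ ?_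
    · push_cast
      rw [← pow_mul, ← pow_add]
      exact pow_le_pow_right₀ (by norm_num) (le_of_eq (by ring))
    · have a1 : ((1 : ℝ) / 2) ^ (d + 1 + 1) ≤ 1 := pow_le_one₀ (by norm_num) (by norm_num)
      have a2 : ((1 : ℝ) / 2) ^ (4 * d + 6) ≤ (1 / 2) ^ (d + 4) :=
        pow_le_pow_of_le_one (by norm_num) (by norm_num) (by omega)
      have a3 : (0 : ℝ) ≤ (1 / 2) ^ (4 * d + 6) := by positivity
      have a4 : (0 : ℝ) ≤ (1 / 2) ^ d := by positivity
      have a5 := mul_le_mul_of_nonneg_right a1 a3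
      rw [pow_add _ d 4] at a2
      rw [pow_succ _ (d + 1), pow_succ _ d] at *
      linarith

theorem p_FLK :
    S_FLK := by
  refine fun κ => ⟨792 * κ + 88, fun s z P h hs hz hP => ?_⟩
  have hex : ∃ J : ℕ, z ≤ 2 ^ 2 ^ J := by
    obtain ⟨n, hn⟩ := exists_nat_ge z
    refine ⟨n, hn.trans ?_⟩
    exact_mod_cast (Nat.lt_two_pow_self.trans Nat.lt_two_pow_self).le
  obtain ⟨J, h1, h2⟩ : ∃ J : ℕ, z ≤ 2 ^ 2 ^ J ∧ (2 : ℝ) ^ 2 ^ J ≤ z ^ 2 := by
    classical
    refine ⟨Nat.find hex, Nat.find_spec hex, ?_⟩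
    rcases e : Nat.find hex with _ | J
    · norm_num
      nlinarith
    · have := Nat.find_min hex (show J < Nat.find hex by omega)
      rw [pow_succ, pow_mul]
      exact pow_le_pow_left₀ (by positivity) (not_le.1 this).le 2
  have h0 := FLK_ind (f := fun p => if p ∈ P then h p else 0) (κ := κ) (fun p => by
    split_ifs with hp
    exacts [(hP p hp).2.2, ⟨le_rfl, by positivity, by norm_num⟩]) P J s
  rw [inter_eq_right.2 fun p hp => MP_6f5b02_nt.mem_PP.2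
    ⟨by exact_mod_cast (hP p hp).2.1.trans h1, (hP p hp).1⟩] at h0
  obtain ⟨X, D, L, M, k1, k2, k3, k4, k5⟩ := h0
  have hP1 : ∀ p ∈ P, (1 : ℝ) ≤ p := fun p hp => by exact_mod_cast (hP p hp).1.pos
  obtain ⟨lam, e1, b1, a1⟩ := k1.out hP1
  obtain ⟨Del, e2, b2, a2⟩ := k2.out hP1
  have k6 : L + M ≤ z ^ ((792 * κ + 88) * s) := by
    refine k3.trans ?_
    rw [pow_mul]
    refine (pow_le_pow_left₀ (by positivity) h2 _).trans ?_
    rw [← pow_mul]
    exact pow_le_pow_right₀ (by linarith) (by nlinarith)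
  refine ⟨lam, Del, ?_, fun E _ hE => ?_, fun g hg => ?_, ?_⟩
  · rw [sum_add_distrib]
    exact (add_le_add b1 b2).trans k6
  · rcases hE with hE | hE
    · linarith [a1 E hE, k2.nonneg]
    · linarith [a2 E hE, k1.nonneg]
  · rw [← e1, ← e2]
    exact k4 g hg
  · rw [e2, prod_congr (g := fun p => 1 - h p) rfl fun p hp => by simp [hp],
      sum_congr (g := fun E => Del E * ∏ p ∈ E, h p) rfl fun E hE => by
        rw [prod_congr rfl fun p hp => if_pos (mem_powerset.1 hE hp)]] at k5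
    refine k5.trans ?_
    rw [div_eq_inv_mul _ ((2 : ℝ) ^ s), ← inv_pow, ← one_div]
    exact mul_le_mul_of_nonneg_right (pow_le_pow_of_le_one (by norm_num) (by norm_num) (by omega))
      (prod_nonneg fun p hp => by linarith [(hP p hp).2.2.2.2])

end Pool.Agent.P.MP_8be758_nt.Pd
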