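import Pool.Agent.P.MP_8be758_nt.Pd.IfT

/-! Step HU. -/

namespace Pool.Agent.P.MP_8be758_nt.Pd

open Finset Real Filter
open Pool.Agent.P.MP_8be758_nt.Par (det)
open Pool.Agent.P.MP_8be758_nt.Avg (rho)
open Pool.Agent.P.MP_e86632_nt (ee)

theorem HU_perm {m : ℕ} (hm : 0 < m) {d : ℕ} (hd : d.Coprime m) (x0 : ℤ) {f : ℤ → ℝ}
    (hf : S1.Per m f) : ∑ n ∈ bx m, f (x0 + d * n) = ∑ x ∈ bx m, f x := by
  have h0 : (0 : ℤ) < m := by exact_mod_cast hm
  have inj : Set.InjOn (fun n : ℤ => (x0 + d * n) % m) (bx m) := by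
    intro a ha b hb h
    have h1 : a ≡ b [ZMOD m] := by
      have h2 := Int.ModEq.cancel_left_div_gcd (c := d) h0 (Int.ModEq.add_left_cancel' x0 h)
      simpa [hd.symm.gcd_eq_one] using h2
    simp only [bx, coe_Ico, Set.mem_Ico] at ha hb
    rwa [Int.ModEq, Int.emod_eq_of_lt ha.1 ha.2, Int.emod_eq_of_lt hb.1 hb.2] at h1
  have im : (bx m).image (fun n : ℤ => (x0 + d * n) % m) = bx m := by
    refine eq_of_subset_of_card_le (fun x hx => ?_) (card_image_of_injOn inj).ge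
    obtain ⟨n, -, rfl⟩ := mem_image.1 hx
    exact mem_Ico.2 ⟨Int.emod_nonneg _ h0.ne', Int.emod_lt_of_pos _ h0⟩
  conv_rhs => rw [← im, sum_image inj]
  exact sum_congr rfl fun n _ => hf _ _ (Int.mod_modEq _ _).symm

theorem HU_int {M : ℕ} (hM : 0 < M) {f : ℤ → ℝ} (hf : S1.Per M f) (h1 : ∀ x, |f x| ≤ 1) (n : ℕ) :
    ∀ a : ℤ, |∑ x ∈ Ioc a (a + n), f x - n * S1.av M f| ≤ 2 * M := by
  have h0 : (0 : ℝ) < M := by exact_mod_cast hM
  have hb : ∀ s : Finset ℤ, |∑ x ∈ s, f x| ≤ s.card := fun s =>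
    (abs_sum_le_sum_abs _ _).trans ((sum_le_card_nsmul _ _ _ fun x _ => h1 x).trans (by simp))
  have e : S1.av M f = (∑ x ∈ bx M, f x) / M := by simp [Sys.av, S1, bx]
  have hav : |S1.av M f| ≤ 1 := by
    rw [e, abs_div, abs_of_pos h0, div_le_one h0]
    simpa [bx] using hb (bx M)
  induction n using Nat.strong_induction_on with
  | _ n ih =>
    intro a
    rcases lt_or_ge n M with h | h
    · have h2 := hb (Ioc a (a + n))
      have h3 : (n : ℝ) ≤ M := by exact_mod_cast h.le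
      simp only [Int.card_Ioc, add_sub_cancel_left, Int.toNat_natCast] at h2
      refine (abs_sub _ _).trans ?_
      rw [abs_mul, Nat.abs_cast]
      nlinarith [n.cast_nonneg (α := ℝ)]
    · obtain ⟨k, rfl⟩ := Nat.exists_eq_add_of_le h
      have h2 := ih k (by omega) (a + M)
      have h3 : ∑ x ∈ Ioc a (a + M), f x = M * S1.av M f := by
        rw [e, mul_div_cancel₀ _ h0.ne', ← HU_perm hM (Nat.coprime_one_left M) (a + 1) hf]
        refine sum_bij' (fun x _ => x - (a + 1)) (fun x _ => x + (a + 1)) ?_ ?_ ?_ ?_ ?_ <;>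
          simp only [bx, mem_Ioc, mem_Ico] <;> intros
        · omega
        · omega
        · ring
        · ring
        · congr 1; push_cast; ring
      rw [← Ioc_union_Ioc_eq_Ioc (b := a + M) (by omega) (by push_cast; omega),
        sum_union (Ioc_disjoint_Ioc_of_le le_rfl), h3]
      push_cast
      rw [← add_assoc, add_mul, add_sub_add_left_eq_sub]
      exact h2

theorem HU_tele (n : ℕ) : ∏ k ∈ Icc 2 (n + 1), (1 - 1 / (k : ℝ)) = 1 / (n + 1) := by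
  induction n with
  | zero => simp
  | succ n ih =>
    rw [prod_Icc_succ_top (by omega), ih]
    push_cast
    field_simp
    ring

theorem HU_low (c : ℕ) {y : ℝ} (hy : 2 ≤ y) (P : Finset ℕ)
    (h : ∀ p ∈ P, p.Prime ∧ (p : ℝ) ≤ y ∧ 4 * c ≤ p) :
    1 / y ^ (4 * c) ≤ ∏ p ∈ P, (1 - 2 * (c : ℝ) / p) := by
  obtain ⟨n, hn⟩ : ∃ n, ⌊y⌋₊ = n + 1 :=
    Nat.exists_eq_succ_of_ne_zero (Nat.floor_pos.2 (by linarith)).ne'
  have h1 : ((n + 1 : ℕ) : ℝ) ≤ y := hn ▸ Nat.floor_le (by linarith)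
  have h0 : ∀ k : ℕ, 0 ≤ 1 - 1 / (k : ℝ) := fun k => by
    rw [sub_nonneg, one_div]; exact Nat.cast_inv_le_one k
  have h2 : 1 / y ≤ ∏ p ∈ P, (1 - 1 / (p : ℝ)) := by
    refine le_trans (le_trans ?_ (HU_tele n).ge) (prod_le_prod_of_subset_of_le_one
      (fun p hp => mem_Icc.2 ⟨(h p hp).1.two_le, hn ▸ Nat.le_floor (h p hp).2.1⟩)
      (fun k _ => h0 k) fun k _ _ => sub_le_self _ (by positivity))
    exact one_div_le_one_div_of_le (by positivity) (by exact_mod_cast h1)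
  rw [← one_div_pow]
  refine (pow_le_pow_left₀ (by positivity) h2 _).trans ?_
  rw [← prod_pow]
  refine prod_le_prod (fun p _ => pow_nonneg (h0 p) _) fun p hp => ?_
  have p0 : (0 : ℝ) < p := by exact_mod_cast (h p hp).1.pos
  have p1 : 4 * (c : ℝ) * (1 / p) ≤ 1 := by
    rw [mul_one_div, div_le_one p0]; exact_mod_cast (h p hp).2.2
  have p2 := one_add_mul_le_pow (a := 1 / (p : ℝ)) (by linarith [one_div_pos.2 p0]) (4 * c)
  have p3 : (1 - 1 / (p : ℝ)) ^ (4 * c) * (1 + 1 / p) ^ (4 * c) ≤ 1 := by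
    rw [← mul_pow]
    exact pow_le_one₀ (mul_nonneg (h0 p) (by positivity)) (by nlinarith [sq_nonneg (1 / (p : ℝ))])
  have p4 := pow_nonneg (h0 p) (4 * c)
  have p5 : 0 ≤ (c : ℝ) * (1 / p) := by positivity
  rw [div_eq_mul_one_div (2 * (c : ℝ))]
  push_cast at p2
  have p6 := (mul_le_mul_of_nonneg_left p2 p4).trans p3
  by_contra hc
  nlinarith [mul_lt_mul_of_pos_right (not_le.1 hc) (show 0 < 1 + 4 * (c : ℝ) * (1 / p) by positivity)]

theorem p_HU (hOK : S_OK) (hMC : S_MC) :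
    S_HU := by
  intro c
  obtain ⟨C1, hC⟩ := hMC (2 * c)
  refine ⟨2 * C1 + 4 * c + 2, fun y P f d x0 lo hi hy hd hP hL => ?_⟩
  have d0 : (0 : ℤ) < d := by exact_mod_cast hd
  have d1 : (0 : ℝ) < d := by exact_mod_cast hd
  have y0 : 0 < y := by linarith
  have lh : lo ≤ hi := by
    have : (0 : ℝ) ≤ ((hi - lo : ℤ) : ℝ) := le_trans (by positivity) hL
    have : 0 ≤ hi - lo := by exact_mod_cast this
    omega
  obtain ⟨n, hn⟩ := Int.le.dest (Int.ediv_le_ediv d0 (show lo - x0 ≤ hi - x0 by omega))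
  set a := (lo - x0) / d with ha
  set R : ℝ := ((hi - lo : ℤ) : ℝ) / d with hR
  have n1 : (n : ℝ) ≤ R + 1 := by
    have h1 := (Int.le_ediv_iff_mul_le d0).1 hn.le
    have h2 := (Int.ediv_lt_iff_lt_mul d0).1 (show (lo - x0) / d < a + 1 by omega)
    have h3 : (n : ℤ) * d ≤ hi - lo + d := by nlinarith
    rw [hR, div_add_one d1.ne', le_div_iff₀ d1]
    exact_mod_cast h3
  have R1 : y ^ (2 * C1 + 4 * c + 2) ≤ R := (le_div_iff₀' d1).2 hL
  have t0 : ∀ p : ℕ, 0 < 1 + (c : ℝ) / p := fun p => by positivity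
  have av : ∀ p ∈ P, S1.av p (fun x => (1 + (c : ℝ) / p)⁻¹ * f p (x0 + d * x)) =
      (1 + (c : ℝ) / p)⁻¹ * S1.av p (f p) := fun p hp => by
    obtain ⟨h1, -, -, h4, h5, -⟩ := hP p hp
    rw [Sys.av_mul]
    congr 1
    exact congrArg (· / _) (HU_perm h1.pos h4 x0 h5)
  have lw : ∀ p ∈ P, 1 - 2 * (c : ℝ) / p ≤ (1 + (c : ℝ) / p)⁻¹ * S1.av p (f p) := fun p hp => by
    rw [le_inv_mul_iff₀ (t0 p), mul_div_assoc]
    nlinarith [(hP p hp).2.2.2.2.2.2, sq_nonneg ((c : ℝ) / p)]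
  have h := hC ℤ S1 (Ioc a (a + n)) (fun _ => 1) n (y ^ C1) (2 * y ^ C1) y 1 1 1 P (fun _ => 1)
    (fun p x => (1 + (c : ℝ) / p)⁻¹ * f p (x0 + d * x)) hOK.1
    (fun M g h1 h2 h3 h4 => by
      simp only [one_mul]
      exact (HU_int h1 h3 h4 n a).trans (by linarith))
    (fun _ _ => zero_le_one) n.cast_nonneg (by positivity) le_rfl hy one_pos (fun _ _ _ => rfl)
    (fun _ => ⟨zero_le_one, le_rfl⟩) (fun p hp => ?_) (by simp)
  swap
  · obtain ⟨h1, h2, h3, h4, h5, h6, -⟩ := hP p hp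
    rw [pow_one, av p hp]
    refine ⟨h1, h2, by omega, Nat.coprime_one_left p, fun x x' e => ?_, fun x => ⟨?_, ?_⟩, ?_⟩
    · exact congrArg _ (h5 _ _ ((Int.ModEq.mul_left _ e).add_left _))
    · exact mul_nonneg (inv_pos.2 (t0 p)).le (h6 _).1
    · exact (inv_mul_le_one₀ (t0 p)).2 (h6 _).2
    · push_cast; exact lw p hp
  simp only [pow_one, one_mul, mul_one, Sys.av_const S1 1 (hOK.1.1 1 one_pos)] at h
  rw [prod_congr rfl av] at h
  have g1 : 1 / y ^ (4 * c) ≤ ∏ p ∈ P, (1 + (c : ℝ) / p)⁻¹ * S1.av p (f p) := by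
    refine (HU_low c hy P fun p hp => ⟨(hP p hp).1, (hP p hp).2.1, (hP p hp).2.2.1⟩).trans
      (prod_le_prod (fun p hp => ?_) lw)
    have p0 : (0 : ℝ) < p := by exact_mod_cast (hP p hp).1.pos
    have : 4 * (c : ℝ) ≤ p := by exact_mod_cast (hP p hp).2.2.1
    rw [sub_nonneg, div_le_one p0]
    linarith [c.cast_nonneg (α := ℝ)]
  simp only [prod_mul_distrib, ← mul_sum] at h g1
  have b0 : 0 < ∏ p ∈ P, (1 + (c : ℝ) / p)⁻¹ := prod_pos fun p _ => inv_pos.2 (t0 p)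
  have s1 : ∑ x ∈ (Ioc lo hi).filter fun x => x ≡ x0 [ZMOD d], ∏ p ∈ P, f p x ≤
      ∑ x ∈ Ioc a (a + n), ∏ p ∈ P, f p (x0 + d * x) := by
    rw [← sum_image (g := fun x : ℤ => x0 + d * x) (f := fun x => ∏ p ∈ P, f p x)
      fun u _ v _ e => mul_left_cancel₀ d0.ne' (add_left_cancel e)]
    refine sum_le_sum_of_subset_of_nonneg (fun x hx => ?_)
      fun x _ _ => prod_nonneg fun p hp => ((hP p hp).2.2.2.2.2.1 x).1
    obtain ⟨h1, h2⟩ := mem_filter.1 hx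
    obtain ⟨k, hk⟩ := h2.symm.dvd
    rw [mem_Ioc] at h1
    refine mem_image.2 ⟨k, mem_Ioc.2 ⟨(Int.ediv_lt_iff_lt_mul d0).2 ?_, ?_⟩, by omega⟩
    · rw [mul_comm]; omega
    · rw [hn, Int.le_ediv_iff_mul_le d0, mul_comm]; omega
  refine s1.trans (le_of_mul_le_mul_left ?_ b0)
  rw [mul_div_assoc, ← hR, mul_left_comm]
  generalize (∏ p ∈ P, (1 + (c : ℝ) / p)⁻¹) * ∏ p ∈ P, S1.av p (f p) = G at *
  have y1 : 1 ≤ y ^ C1 := one_le_pow₀ (by linarith)
  have y2 : 1 ≤ y ^ (4 * c) := one_le_pow₀ (by linarith)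
  have y3 : 4 ≤ y ^ 2 := by nlinarith
  have G0 : 0 ≤ G := le_trans (by positivity) g1
  rw [div_le_iff₀ (by positivity)] at g1
  rw [pow_add, pow_add, two_mul, pow_add] at R1
  have R2 : y ^ C1 * y ^ C1 * y ^ (4 * c) * 4 ≤ R := le_trans (by gcongr) R1
  have R3 : 4 ≤ R := le_trans (le_mul_of_one_le_left (by norm_num)
    (one_le_mul_of_one_le_of_one_le (one_le_mul_of_one_le_of_one_le y1 y1) y2)) R2
  have k1 := mul_le_mul_of_nonneg_right R2 G0
  have k2 := mul_le_mul_of_nonneg_left g1 (show 0 ≤ y ^ C1 * y ^ C1 by positivity)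
  have k3 := mul_le_mul_of_nonneg_right n1 G0
  have k4 := mul_le_mul_of_nonneg_right R3 G0
  nlinarith [(abs_le.1 h).2]

end Pool.Agent.P.MP_8be758_nt.Pd
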