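import Pool.Agent.P.MP_8be758_nt.Pd.IfT

/-! Step HYPB. -/

namespace Pool.Agent.P.MP_8be758_nt.Pd

open Finset Real Filter
open Pool.Agent.P.MP_8be758_nt.Par (det)
open Pool.Agent.P.MP_8be758_nt.Avg (rho)
open Pool.Agent.P.MP_e86632_nt (ee)

theorem HYPB_blocks (D : ℤ → ℤ → ℝ) (q : ℕ) (hq : 0 < q) (E : ℝ) (hE : 0 ≤ E)
    (hadd : ∀ a b c : ℤ, a ≤ b → b ≤ c → D a c = D a b + D b c)
    (hb : ∀ a b : ℤ, a ≤ b → b - a ≤ q → |D a b| ≤ E) (a b : ℤ) (hab : a ≤ b) :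
    |D a b| ≤ (((b - a : ℤ) : ℝ) / q + 1) * E := by
  have hq' : (0 : ℝ) < q := by exact_mod_cast hq
  have key : ∀ n : ℕ, ∀ b : ℤ, a ≤ b → b - a ≤ n →
      |D a b| ≤ (((b - a : ℤ) : ℝ) / q + 1) * E := by
    intro n
    induction n with
    | zero =>
      intro b h1 h2
      have h3 : (0 : ℝ) ≤ ((b - a : ℤ) : ℝ) / q :=
        div_nonneg (by exact_mod_cast sub_nonneg.2 h1) hq'.le
      refine (hb a b h1 (by omega)).trans ?_
      nlinarith
    | succ n ih =>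
      intro b h1 h2
      by_cases h : b - a ≤ q
      · have h3 : (0 : ℝ) ≤ ((b - a : ℤ) : ℝ) / q :=
          div_nonneg (by exact_mod_cast sub_nonneg.2 h1) hq'.le
        refine (hb a b h1 h).trans ?_
        nlinarith
      · have h4 : a ≤ b - q := by omega
        have h5 := ih (b - q) h4 (by omega)
        have h6 := hb (b - q) b (by omega) (by omega)
        rw [hadd a (b - q) b h4 (by omega)]
        have h7 : ((b - q - a : ℤ) : ℝ) / q + 1 = ((b - a : ℤ) : ℝ) / q := by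
          push_cast; field_simp; ring
        rw [h7] at h5
        calc _ ≤ |D a (b - q)| + |D (b - q) b| := abs_add_le _ _
          _ ≤ _ := by nlinarith
  exact key (b - a).toNat b hab (by omega)

theorem HYPB_sum (f : ℤ → ℝ) (a b c : ℤ) (h1 : a ≤ b) (h2 : b ≤ c) :
    ∑ x ∈ Ioc a c, f x = ∑ x ∈ Ioc a b, f x + ∑ x ∈ Ioc b c, f x := by
  rw [← sum_union (Ioc_disjoint_Ioc_of_le le_rfl), Ioc_union_Ioc_eq_Ioc h1 h2]

theorem p_HYPB (hHYP : S_HYP) :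
    S_HYPB := by
  obtain ⟨C, hC, H⟩ := hHYP
  refine ⟨C, hC, fun q M a b c d hq hM hab hcd => ?_⟩
  have hq' : (0 : ℝ) < q := by exact_mod_cast hq
  set D : ℤ → ℤ → ℤ → ℤ → ℝ := fun a b c d =>
    (((Ioc a b ×ˢ Ioc c d).filter fun v => v.1 * v.2 ≡ 1 [ZMOD q] ∧ v.1 ≡ 1 [ZMOD M]).card : ℝ) -
    ((d - c : ℤ) : ℝ) / q * ((Ioc a b).filter fun x => Int.gcd x q = 1 ∧ x ≡ 1 [ZMOD M]).card
    with hD
  have hform : ∀ a b c d : ℤ, D a b c d =
      ∑ x ∈ Ioc a b, ∑ z ∈ Ioc c d, (if x * z ≡ 1 [ZMOD q] ∧ x ≡ 1 [ZMOD M] then (1 : ℝ) else 0) -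
      ((d - c : ℤ) : ℝ) / q *
        ∑ x ∈ Ioc a b, (if Int.gcd x q = 1 ∧ x ≡ 1 [ZMOD M] then (1 : ℝ) else 0) := by
    intro a b c d
    simp only [hD, card_filter, Nat.cast_sum, Nat.cast_ite, Nat.cast_one, Nat.cast_zero,
      sum_product]
  have hE : 0 ≤ C * (q : ℝ) ^ (4 / 5 : ℝ) := by positivity
  have h1 : ∀ a b : ℤ, a ≤ b → b - a ≤ q →
      |D a b c d| ≤ (((d - c : ℤ) : ℝ) / q + 1) * (C * (q : ℝ) ^ (4 / 5 : ℝ)) := by
    intro a b h1 h2
    refine HYPB_blocks (D a b) q hq _ hE (fun x y z hxy hyz => ?_)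
      (fun x y hxy hyx => H q M a b x y hq hM h1 h2 hxy hyx) c d hcd
    simp only [hform]
    simp only [HYPB_sum _ x y z hxy hyz, sum_add_distrib]
    push_cast
    ring
  have h3 : (0 : ℝ) ≤ ((d - c : ℤ) : ℝ) / q :=
    div_nonneg (by exact_mod_cast sub_nonneg.2 hcd) hq'.le
  have h2 := HYPB_blocks (fun a b => D a b c d) q hq _ (mul_nonneg (add_nonneg h3 zero_le_one) hE)
    (fun x y z hxy hyz => by
      simp only [hform]
      simp only [HYPB_sum _ x y z hxy hyz]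
      ring) h1 a b hab
  refine h2.trans_eq ?_
  ring

end Pool.Agent.P.MP_8be758_nt.Pd
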