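import Pool.Agent.P.MP_8be758_nt.Pd.IfT

/-! Step KROW. -/

namespace Pool.Agent.P.MP_8be758_nt.Pd

open Finset Real Filter
open Pool.Agent.P.MP_8be758_nt.Par (det)
open Pool.Agent.P.MP_8be758_nt.Avg (rho)
open Pool.Agent.P.MP_e86632_nt (ee)

theorem KROW_fib (q M : ℕ) (A B : Finset ℤ) :
    (((A ×ˢ B).filter fun v => v.1 * v.2 ≡ 1 [ZMOD q] ∧ v.1 ≡ 1 [ZMOD M]).card : ℝ) =
      ∑ x ∈ A.filter fun x => x ≡ 1 [ZMOD M], ((B.filter fun z => x * z ≡ 1 [ZMOD q]).card : ℝ) := by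
  rw [card_filter, sum_product, sum_filter, Nat.cast_sum]
  refine sum_congr rfl fun x _ => ?_
  split_ifs with h <;> simp [h]

theorem p_KROW (hHYPB : S_HYPB) :
    S_KROW := by
  obtain ⟨C, C0, H⟩ := hHYPB
  refine ⟨9 * C + 8, by positivity, fun q M a b l r J hq hM hab hlr hJ => ?_⟩
  have q1 : (1 : ℝ) ≤ q := by exact_mod_cast hq
  have key : ∀ c d : ℤ, c ≤ d → |((d - c : ℤ) : ℝ) - (r - l)| ≤ 8 →
      |∑ x ∈ (Ioc a b).filter fun x => x ≡ 1 [ZMOD M],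
        (((Ioc c d).filter fun z => x * z ≡ 1 [ZMOD q]).card : ℝ) -
      (r - l) / q * ((Ioc a b).filter fun x => Int.gcd x q = 1 ∧ x ≡ 1 [ZMOD M]).card| ≤
      (9 * C + 8) * (((b - a : ℤ) : ℝ) / q + 1) * ((r - l) / q + 1) * (q : ℝ) ^ (4 / 5 : ℝ) := by
    intro c d hcd h
    have h1 := H q M a b c d hq hM hab hcd
    rw [KROW_fib] at h1
    have h2 : (((Ioc a b).filter fun x => Int.gcd x q = 1 ∧ x ≡ 1 [ZMOD M]).card : ℝ) ≤
        ((b - a : ℤ) : ℝ) := by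
      rw [← Int.card_Ioc_of_le a b hab]
      exact_mod_cast card_filter_le _ _
    have h3 : (1 : ℝ) ≤ (q : ℝ) ^ (4 / 5 : ℝ) := one_le_rpow q1 (by norm_num)
    have h4 : (1 : ℝ) ≤ (r - l) / q + 1 := le_add_of_nonneg_left (div_nonneg (by linarith) (by linarith))
    have h5 : (0 : ℝ) ≤ ((b - a : ℤ) : ℝ) := (Nat.cast_nonneg _).trans h2
    have h6 : ((d - c : ℤ) : ℝ) / q + 1 ≤ 9 * ((r - l) / q + 1) := by
      have a1 : ((d - c : ℤ) : ℝ) / q ≤ (r - l + 8) / q := by gcongr; linarith [(abs_le.1 h).2]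
      have a2 : (8 : ℝ) / q ≤ 8 := div_le_self (by norm_num) q1
      rw [add_div] at a1
      linarith
    generalize (((Ioc a b).filter fun x => Int.gcd x q = 1 ∧ x ≡ 1 [ZMOD M]).card) = S at *
    have h7 : |((d - c : ℤ) : ℝ) / q * S - (r - l) / q * S| ≤
        8 * (((b - a : ℤ) : ℝ) / q + 1) * ((r - l) / q + 1) * (q : ℝ) ^ (4 / 5 : ℝ) := by
      rw [← sub_mul, ← sub_div, abs_mul, abs_div, Nat.abs_cast, Nat.abs_cast]
      calc _ ≤ 8 / q * ((b - a : ℤ) : ℝ) := by gcongr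
        _ ≤ 8 * (((b - a : ℤ) : ℝ) / q + 1) * 1 * 1 := by
          rw [div_mul_eq_mul_div, mul_div_assoc]
          linarith
        _ ≤ _ := by gcongr
    refine (abs_sub_le _ _ _).trans ((add_le_add (h1.trans (show _ ≤ C * (((b - a : ℤ) : ℝ) / q + 1) *
      (9 * ((r - l) / q + 1)) * (q : ℝ) ^ (4 / 5 : ℝ) by gcongr)) h7).trans_eq ?_)
    ring
  have c1 := Int.le_ceil (l + 3)
  have c2 := Int.ceil_lt_add_one (l + 3)
  have c3 := Int.floor_le (r - 3)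
  have c4 := Int.lt_floor_add_one (r - 3)
  have c5 := Int.le_ceil (l - 3)
  have c6 := Int.ceil_lt_add_one (l - 3)
  have c7 := Int.floor_le (r + 3)
  have c8 := Int.lt_floor_add_one (r + 3)
  have k1 := key (⌈l + 3⌉ - 1) (max (⌈l + 3⌉ - 1) ⌊r - 3⌋) (le_max_left _ _) (by
    rcases le_total (⌈l + 3⌉ - 1) ⌊r - 3⌋ with e | e
    · rw [max_eq_right e, abs_le]
      push_cast
      constructor <;> linarith
    · have e' : (⌊r - 3⌋ : ℝ) ≤ ⌈l + 3⌉ - 1 := by exact_mod_cast e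
      rw [max_eq_left e, abs_le]
      push_cast
      constructor <;> linarith)
  have k2 := key (⌈l - 3⌉ - 1) ⌊r + 3⌋ (by
    exact_mod_cast (show (⌈l - 3⌉ - 1 : ℝ) ≤ ⌊r + 3⌋ by linarith)) (by
    rw [abs_le]
    push_cast
    constructor <;> linarith)
  refine abs_le.2 ⟨(abs_le.1 k1).1.trans (sub_le_sub_right (sum_le_sum fun x hx => ?_) _),
    le_trans (sub_le_sub_right (sum_le_sum fun x hx => ?_) _) (abs_le.1 k2).2⟩ <;>
    refine Nat.cast_le.2 (card_le_card (filter_subset_filter _ fun z hz => ?_))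
  · obtain ⟨a1, a2⟩ := mem_Ioc.1 hz
    exact (hJ x (mem_filter.1 hx).1 z).1 ⟨Int.ceil_le.1 (by omega), Int.le_floor.1 (by omega)⟩
  · obtain ⟨a1, a2⟩ := (hJ x (mem_filter.1 hx).1 z).2 hz
    exact mem_Ioc.2 ⟨Int.sub_one_lt_iff.2 (Int.ceil_le.2 a1), Int.le_floor.2 a2⟩

end Pool.Agent.P.MP_8be758_nt.Pd
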