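import Pool.Agent.P.MP_8be758_nt.Pd.IfT

/-! Step LIFT. -/

namespace Pool.Agent.P.MP_8be758_nt.Pd

open Finset Real Filter
open Pool.Agent.P.MP_8be758_nt.Par (det)
open Pool.Agent.P.MP_8be758_nt.Avg (rho)
open Pool.Agent.P.MP_e86632_nt (ee)

theorem LIFT_cop (x y M : ℕ) (hy : y ≠ 0) (h : ∀ p : ℕ, p.Prime → p ∣ x → p ∣ y → ¬ p ∣ M) :
    ∃ k ≤ y, (x + k * M).Coprime y := by
  refine ⟨∏ p ∈ y.primeFactors with ¬ p ∣ x, p, Nat.le_of_dvd (Nat.pos_of_ne_zero hy)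
    ((prod_dvd_prod_of_subset _ _ _ (filter_subset _ _)).trans (Nat.prod_primeFactors_dvd y)),
    Nat.coprime_of_dvd fun p hp h1 h2 => ?_⟩
  by_cases e : p ∣ x
  · rcases (Nat.Prime.dvd_mul hp).1 ((Nat.dvd_add_right e).1 h1) with h3 | h3
    · obtain ⟨q, q1, q2⟩ := (hp.prime.dvd_finsetProd_iff _).1 h3
      rw [mem_filter] at q1
      exact q1.2 ((Nat.prime_dvd_prime_iff_eq hp (Nat.prime_of_mem_primeFactors q1.1)).1 q2 ▸ e)
    · exact h p hp e h2 h3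
  · exact e ((Nat.dvd_add_left (Dvd.dvd.mul_right (dvd_prod_of_mem _
      (mem_filter.2 ⟨Nat.mem_primeFactors.2 ⟨hp, h2, hy⟩, e⟩)) M)).1 h1)

theorem p_LIFT :
    S_LIFT := by
  rintro M hM ⟨⟨x0, y0⟩, x1, y1⟩ hg
  simp only [S4, bx, mem_filter, mem_product, mem_Ico, det] at hg
  obtain ⟨⟨⟨⟨a1, a2⟩, b1, b2⟩, -⟩, hd⟩ := hg
  lift x0 to ℕ using a1
  obtain ⟨y, y0', yM, hy⟩ : ∃ y : ℕ, y ≠ 0 ∧ y ≤ M ∧ (M : ℤ) ∣ y0 - y := by
    rcases b1.eq_or_lt with rfl | e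
    · exact ⟨M, hM.ne', le_rfl, by simp⟩
    · exact ⟨y0.toNat, by omega, by omega, by simp [Int.toNat_of_nonneg b1]⟩
  obtain ⟨s, hs⟩ := hy
  obtain ⟨t, ht⟩ := hd.dvd
  obtain ⟨k, k1, k2⟩ := LIFT_cop x0 y M y0' fun p hp ⟨a, ha⟩ ⟨b, hb⟩ ⟨c, hc⟩ => by
    refine hp.one_lt.ne' (Nat.dvd_one.1 (Int.natCast_dvd_natCast.1 ⟨c * t + a * y1 -
      (b + c * s) * x1, ?_⟩))
    zify at ha hb hc ⊢
    rw [ha, hc, show y0 = y + M * s by linarith, hb, hc] at ht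
    linarith
  obtain ⟨b0, a0, h0⟩ := Nat.isCoprime_iff_coprime.2 k2
  push_cast at h0
  set x : ℤ := x0 + k * M with hx
  have m1 : (1 : ℤ) ≤ M := by exact_mod_cast hM
  have y1' : (1 : ℤ) ≤ y := by omega
  have y2 : (y : ℤ) ≤ M := by exact_mod_cast yM
  have k3 : (k : ℤ) ≤ M := by exact_mod_cast k1.trans yM
  have x2 : 0 ≤ x := by positivity
  have x3 : x ≤ 2 * M ^ 2 := by nlinarith
  set j := x1 * b0 + y1 * a0 with hj
  set q := (b0 + j * y) / (M * y) with hq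
  have c1 : 0 ≤ b0 + (j - M * q) * y := by
    have := Int.emod_nonneg (b0 + j * y) (show (M : ℤ) * y ≠ 0 by positivity)
    rw [Int.emod_def] at this
    linarith
  have c2 : b0 + (j - M * q) * y < M * y := by
    have := Int.emod_lt_of_pos (b0 + j * y) (show 0 < (M : ℤ) * y by positivity)
    rw [Int.emod_def] at this
    linarith
  have e : (-a0 + (j - M * q) * x) * y = x * (b0 + (j - M * q) * y) - 1 := by linarith
  have m2 : (M : ℤ) ^ 2 ≤ M ^ 3 := pow_le_pow_right₀ m1 (by omega)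
  have m3 : (M : ℤ) ≤ M ^ 3 := le_self_pow₀ m1 (by omega)
  have y3 : y0 = y + M * s := by linarith
  refine ⟨((x, y), (-a0 + (j - M * q) * x, b0 + (j - M * q) * y)), by simp only [det]; linarith,
    ⟨⟨Int.modEq_iff_dvd.2 ⟨-k, by simp only; linarith⟩, Int.modEq_iff_dvd.2 ⟨s, hs⟩⟩,
      Int.modEq_iff_dvd.2 ⟨q * x - a0 * (k * y1 + s * x1 - t), ?_⟩,
      Int.modEq_iff_dvd.2 ⟨q * y + b0 * (k * y1 + s * x1 - t), ?_⟩⟩, ?_, ?_, ?_, ?_⟩
  · simp only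
    linear_combination (-x1) * h0 + a0 * ht - a0 * y1 * hx - a0 * x1 * y3 - x * hj
  · simp only
    linear_combination (-y1) * h0 - b0 * ht + b0 * y1 * hx + b0 * x1 * y3 - y * hj
  · rw [abs_of_nonneg x2]; linarith
  · rw [abs_of_nonneg (by positivity)]; linarith
  · have f1 := mul_nonneg x2 c1
    have f2 := mul_le_mul x3 c2.le c1 (by positivity)
    rw [abs_le]
    constructor
    · refine le_of_mul_le_mul_right ?_ (zero_lt_one.trans_le y1')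
      nlinarith
    · refine le_of_mul_le_mul_right ?_ (zero_lt_one.trans_le y1')
      nlinarith
  · rw [abs_of_nonneg c1]; nlinarith

end Pool.Agent.P.MP_8be758_nt.Pd
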