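import Pool.Agent.P.MP_8be758_nt.Pd.If0

/-! Step MC. -/

namespace Pool.Agent.P.MP_8be758_nt.Pd

open Finset Real Filter
open ArithmeticFunction (cardFactors)
open Pool.Agent.P.MP_8be758_nt.Par (det)
open Pool.Agent.P.MP_8be758_nt.Avg (rho)

theorem p_MC (hFLK : S_FLK) (hPROD : S_PROD) :
    S_MC := by
  intro κ
  obtain ⟨C1, hC⟩ := hFLK κ
  refine ⟨C1, fun Ω S G χ N Mx err y e s M0 P f0 f hS hE hχ hN herr hs hy hM hp0 hf0 hP hMx => ?_⟩
  set h : ℕ → ℝ := fun p => 1 - S.av (p ^ e) (f p) with hh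
  have hne : ∀ p ∈ P, (S.U (p ^ e)).Nonempty := fun p hp => hS.1 _ (pow_pos (hP p hp).1.pos e)
  obtain ⟨la, De, h1, h2, h3, h4⟩ := hC s y P h hs hy fun p hp => by
    obtain ⟨a1, a2, a3, -, -, a6, a7⟩ := hP p hp
    have b1 := S.av_mono (p ^ e) (f := f p) (g := fun _ => 1) fun x _ => (a6 x).2
    rw [S.av_const _ (hne p hp)] at b1
    have b2 : (κ : ℝ) / p ≤ 1 / 2 := by
      rw [div_le_div_iff₀ (by exact_mod_cast a1.pos) two_pos]
      have : (2 * κ : ℝ) ≤ p := by exact_mod_cast a3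
      linarith
    simp only [hh]
    exact ⟨a1, a2, by linarith, by linarith, by linarith⟩
  set a0 := S.av M0 f0 with ha0
  have a00 : 0 ≤ N * a0 := mul_nonneg hN (S.av_nonneg _ fun x => (hf0 x).1)
  set W : Finset ℕ → ℝ := fun E => ∑ x ∈ G, χ x * (f0 x * ∏ p ∈ E, (1 - f p x)) with hW
  have key : ∀ E ∈ P.powerset, la E ≠ 0 ∨ De E ≠ 0 → |W E - N * (a0 * ∏ p ∈ E, h p)| ≤ err := by
    intro E hEP hc
    have hs' := mem_powerset.1 hEP
    obtain ⟨b1, b2⟩ := hPROD Ω S E (fun p => p ^ e) M0 f0 (fun p x => 1 - f p x) hS hM hp0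
      (fun p hp => ⟨pow_pos (hP p (hs' hp)).1.pos e, (hP p (hs' hp)).2.2.2.1.pow_right e,
        fun x x' hx => congrArg (1 - ·) ((hP p (hs' hp)).2.2.2.2.1 x x' hx)⟩)
      fun p hp q hq hpq => Nat.Coprime.pow e e
        ((Nat.coprime_primes (hP p (hs' hp)).1 (hP q (hs' hq)).1).2 hpq)
    have b3 := hE _ _ (mul_pos hM (prod_pos fun p hp => pow_pos (hP p (hs' hp)).1.pos e)) (by
      refine le_trans ?_ hMx
      push_cast
      rw [prod_pow, pow_mul]
      gcongr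
      exact h2 E hEP hc) b1 fun x => by
      have c1 : ∀ p ∈ E, 0 ≤ 1 - f p x := fun p hp =>
        sub_nonneg.2 ((hP p (hs' hp)).2.2.2.2.2.1 x).2
      rw [abs_of_nonneg (mul_nonneg (hf0 x).1 (prod_nonneg c1))]
      exact mul_le_one₀ (hf0 x).2 (prod_nonneg c1) (prod_le_one c1 fun p hp =>
        sub_le_self _ ((hP p (hs' hp)).2.2.2.2.2.1 x).1)
    rwa [b2, prod_congr rfl fun p hp => by
      rw [S.av_sub _ (fun _ => 1) (f p), S.av_const _ (hne p (hs' hp))]] at b3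
  have lin : ∀ c : Finset ℕ → ℝ, (∀ E, c E ≠ 0 → la E ≠ 0 ∨ De E ≠ 0) →
      |∑ x ∈ G, χ x * (f0 x * ∑ E ∈ P.powerset, c E * ∏ p ∈ E, (1 - f p x)) -
        N * a0 * ∑ E ∈ P.powerset, c E * ∏ p ∈ E, h p| ≤ (∑ E ∈ P.powerset, |c E|) * err := by
    intro c hc
    have e1 : ∑ x ∈ G, χ x * (f0 x * ∑ E ∈ P.powerset, c E * ∏ p ∈ E, (1 - f p x)) =
        ∑ E ∈ P.powerset, c E * W E := by
      simp only [hW, mul_sum]
      rw [sum_comm]
      exact sum_congr rfl fun E _ => sum_congr rfl fun x _ => by ring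
    rw [e1, mul_sum, ← sum_sub_distrib, sum_mul]
    refine (abs_sum_le_sum_abs _ _).trans (sum_le_sum fun E hE' => ?_)
    rw [show c E * W E - N * a0 * (c E * ∏ p ∈ E, h p) =
      c E * (W E - N * (a0 * ∏ p ∈ E, h p)) by ring, abs_mul]
    by_cases e0 : c E = 0
    · simp [e0]
    · exact mul_le_mul_of_nonneg_left (key E hE' (hc E e0)) (abs_nonneg _)
  obtain ⟨l1, l2⟩ := abs_le.1 (lin la fun _ => .inl)
  obtain ⟨l3, l4⟩ := abs_le.1 (lin De fun _ => .inr)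
  have pw := fun x => h3 (fun p => 1 - f p x) fun p hp =>
    ⟨sub_nonneg.2 ((hP p hp).2.2.2.2.2.1 x).2, sub_le_self _ ((hP p hp).2.2.2.2.2.1 x).1⟩
  simp only [sub_sub_cancel] at pw
  have hb := h3 h fun p hp => by
    have b1 := S.av_mono (p ^ e) (f := f p) (g := fun _ => 1)
      fun x _ => ((hP p hp).2.2.2.2.2.1 x).2
    rw [S.av_const _ (hne p hp)] at b1
    have b2 := S.av_nonneg (p ^ e) fun x => ((hP p hp).2.2.2.2.2.1 x).1
    simp only [hh]
    constructor <;> linarith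
  have e2 : ∏ p ∈ P, (1 - h p) = ∏ p ∈ P, S.av (p ^ e) (f p) := by simp only [hh, sub_sub_cancel]
  rw [e2] at hb h4
  have u1 := sum_le_sum fun x (hx : x ∈ G) =>
    mul_le_mul_of_nonneg_left (mul_le_mul_of_nonneg_left (pw x).1 (hf0 x).1) (hχ x hx)
  have u2 := sum_le_sum fun x (hx : x ∈ G) =>
    mul_le_mul_of_nonneg_left (mul_le_mul_of_nonneg_left (pw x).2 (hf0 x).1) (hχ x hx)
  simp only [mul_add, sum_add_distrib] at u2
  rw [sum_add_distrib] at h1
  have v1 := mul_le_mul_of_nonneg_right h1 herr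
  have v2 := mul_le_mul_of_nonneg_left hb.1 a00
  have v3 := mul_le_mul_of_nonneg_left hb.2 a00
  have v4 := mul_le_mul_of_nonneg_left h4 a00
  have v5 : 0 ≤ (∑ E ∈ P.powerset, |De E|) * err :=
    mul_nonneg (sum_nonneg fun _ _ => abs_nonneg _) herr
  rw [abs_le, ← mul_assoc, mul_div_assoc]
  constructor <;> linarith

end Pool.Agent.P.MP_8be758_nt.Pd
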