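import Pool.Agent.P.MP_8be758_nt.Pd.IfG

/-! Step ML. -/

namespace Pool.Agent.P.MP_8be758_nt.Pd

open Finset Real Filter
open Pool.Agent.P.MP_8be758_nt.Par (det)
open Pool.Agent.P.MP_8be758_nt.Avg (rho)

theorem ML_one (P : Finset ℕ) (hP : ∀ p ∈ P, p.Prime) (m : ℕ) (hm : 0 < m) :
    ∑ p ∈ P, (if p ∣ m then log (p : ℝ) else 0) ≤ log m := by
  rw [← sum_filter, ← Real.log_prod (fun p hp => by
    exact_mod_cast (hP p (mem_filter.1 hp).1).ne_zero), ← Nat.cast_prod]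
  have h1 : ∏ p ∈ P.filter (· ∣ m), p ∣ m :=
    (prod_dvd_prod_of_subset _ _ _ fun p hp => Nat.mem_primeFactors.2
      ⟨hP p (mem_filter.1 hp).1, (mem_filter.1 hp).2, hm.ne'⟩).trans (Nat.prod_primeFactors_dvd m)
  exact log_le_log (by exact_mod_cast Nat.pos_of_dvd_of_pos h1 hm)
    (by exact_mod_cast Nat.le_of_dvd hm h1)

theorem p_ML (hWIN : S_WIN) :
    S_ML := by
  refine ⟨2, two_pos, fun w y hy => ?_⟩
  set N := ⌊y⌋₊ with hN
  have N2 : 2 ≤ N := Nat.le_floor (by exact_mod_cast hy)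
  have N0 : (0 : ℝ) < N := by exact_mod_cast (by omega : 0 < N)
  have Ny : (N : ℝ) ≤ y := Nat.floor_le (by linarith)
  have hP : ∀ p ∈ PP w y, p.Prime ∧ p ≤ N := fun p hp => by
    have := mem_filter.1 hp
    exact ⟨this.2.1, Nat.lt_succ_iff.1 (mem_range.1 this.1)⟩
  have h1 : ∑ p ∈ PP w y, ((N / p : ℕ) : ℝ) * log (p : ℝ) ≤ N * log N := by
    calc _ = ∑ p ∈ PP w y, ∑ m ∈ Ioc 0 N, (if p ∣ m then log (p : ℝ) else 0) := by
          refine sum_congr rfl fun p _ => ?_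
          rw [← sum_filter, sum_const, Nat.Ioc_filter_dvd_card_eq_div, nsmul_eq_mul]
      _ = ∑ m ∈ Ioc 0 N, ∑ p ∈ PP w y, (if p ∣ m then log (p : ℝ) else 0) := sum_comm
      _ ≤ ∑ _m ∈ Ioc 0 N, log (N : ℝ) := sum_le_sum fun m hm => by
          have := mem_Ioc.1 hm
          exact (ML_one _ (fun p hp => (hP p hp).1) m this.1).trans
            (log_le_log (by exact_mod_cast this.1) (by exact_mod_cast this.2))
      _ = _ := by rw [sum_const, Nat.card_Ioc, nsmul_eq_mul]; simp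
  have h2 : N * ∑ p ∈ PP w y, log p / p ≤ 2 * ∑ p ∈ PP w y, ((N / p : ℕ) : ℝ) * log (p : ℝ) := by
    rw [mul_sum, mul_sum]
    refine sum_le_sum fun p hp => ?_
    obtain ⟨a, b⟩ := hP p hp
    have p0 : (0 : ℝ) < p := by exact_mod_cast a.pos
    have l0 : 0 ≤ log (p : ℝ) := log_natCast_nonneg p
    have c : N ≤ 2 * (N / p) * p := by
      have d := Nat.div_add_mod N p
      have e := Nat.mod_lt N a.pos
      have f : 1 ≤ N / p := Nat.div_pos b a.pos
      nlinarith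
    have c' : (N : ℝ) ≤ 2 * ((N / p : ℕ) : ℝ) * p := by exact_mod_cast c
    rw [← mul_div_assoc, div_le_iff₀ p0]
    nlinarith
  have h3 : log (N : ℝ) ≤ log y := log_le_log N0 Ny
  refine le_of_mul_le_mul_left ?_ N0
  nlinarith

end Pool.Agent.P.MP_8be758_nt.Pd
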