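import Pool.Agent.P.MP_8be758_nt.Pd.IfM

/-! Step MOMC. -/

namespace Pool.Agent.P.MP_8be758_nt.Pd

open Finset Real Filter
open Pool.Agent.P.MP_8be758_nt.Par (nq mul cj det io et)
open Pool.Agent.P.MP_8be758_nt.Avg (rho)
open Pool.Agent.P.MP_8be758_nt.Pd.Mr

lemma MOMC_card {l : ℕ} (p : Fin l → ℕ) (t : Multiset ℕ) :
    (univ.filter fun i => p i ∉ t).card ≤ (ms p - t).card := by
  have h : (ms p).filter (fun x => x ∉ t) ≤ ms p - t := by
    rw [Multiset.le_iff_count]
    intro x
    rw [Multiset.count_filter, Multiset.count_sub]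
    by_cases hx : x ∈ t
    · rw [if_neg (not_not.2 hx)]
      omega
    · rw [if_pos hx, Multiset.count_eq_zero_of_notMem hx]
      omega
  refine le_trans (le_of_eq ?_) (Multiset.card_le_card h)
  rw [ms, Multiset.filter_map, Multiset.card_map]
  rfl

lemma MOMC_term {l : ℕ} {P : ℝ} (hP : 1 ≤ P) (p : Fin l → ℕ) (t : Multiset ℕ) :
    1 / P ^ (ms p - t).card ≤ ∏ i, if p i ∈ t then 1 else 1 / P := by
  rw [prod_ite, prod_const_one, one_mul, prod_const, one_div_pow]
  exact one_div_le_one_div_of_le (by positivity) (pow_le_pow_right₀ hP (MOMC_card p t))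

lemma MOMC_sum {I : Finset ℕ} {P : ℝ} (hP : 1 ≤ P) (hI : (I.card : ℝ) ≤ 2 * P) {l : ℕ}
    (q : Fin l → ℕ) : ∑ x ∈ I, (if x ∈ ms q then 1 else 1 / P) ≤ (l : ℝ) + 2 := by
  have hP0 : 0 < P := by linarith
  rw [sum_ite, sum_const, sum_const, nsmul_eq_mul, nsmul_eq_mul, mul_one]
  refine add_le_add ?_ ?_
  · have h : (I.filter fun x => x ∈ ms q) ⊆ univ.image q := by
      intro x hx
      simpa [ms] using (mem_filter.1 hx).2
    have := (card_le_card h).trans card_image_le
    rw [card_univ, Fintype.card_fin] at this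
    exact_mod_cast this
  · rw [mul_one_div, div_le_iff₀ hP0]
    refine le_trans ?_ hI
    exact_mod_cast card_filter_le _ _

theorem p_MOMC :
    S_MOMC := by
  intro I l P hP hI
  rw [sum_comm]
  calc ∑ q ∈ Fintype.piFinset (fun _ : Fin l => I), ∑ p ∈ Fintype.piFinset (fun _ : Fin l => I),
        1 / P ^ (ms p - ms q).card
      ≤ ∑ _q ∈ Fintype.piFinset (fun _ : Fin l => I), ((l : ℝ) + 2) ^ l := by
        refine sum_le_sum fun q _ => (sum_le_sum fun p _ => MOMC_term hP p (ms q)).trans ?_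
        rw [← prod_univ_sum (fun _ : Fin l => I) fun _ x => if x ∈ ms q then (1 : ℝ) else 1 / P,
          prod_const, card_univ, Fintype.card_fin]
        exact pow_le_pow_left₀ (sum_nonneg fun x _ => by split_ifs <;> positivity)
          (MOMC_sum hP hI q) l
    _ = (I.card * ((l : ℝ) + 2)) ^ l := by
        rw [sum_const, Fintype.card_piFinset, prod_const, card_univ, Fintype.card_fin,
          nsmul_eq_mul, Nat.cast_pow, mul_pow]
    _ ≤ (2 * (l + 2) * P) ^ l := by
        refine pow_le_pow_left₀ (by positivity) ?_ l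
        have : (0 : ℝ) ≤ (l : ℝ) + 2 := by positivity
        nlinarith

end Pool.Agent.P.MP_8be758_nt.Pd
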