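import Pool.Agent.P.MP_8be758_nt.Pd.IfN

/-! Step NCS. -/

namespace Pool.Agent.P.MP_8be758_nt.Pd

open Finset Real Filter
open Pool.Agent.P.MP_8be758_nt.Par (det)
open Pool.Agent.P.MP_8be758_nt.Avg (rho)
open scoped Classical

theorem NCS_fib {Ω B : Type} [DecidableEq B] (S : Finset Ω) (f : Ω → B) (ω : Ω → ℝ) :
    ∑ x ∈ S, ∑ x' ∈ S, ind (f x = f x') * (ω x * ω x') =
      ∑ β ∈ S.image f, (∑ x ∈ S.filter fun x => f x = β, ω x) ^ 2 := by
  rw [← sum_fiberwise_of_maps_to (g := f) fun x hx => mem_image_of_mem f hx]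
  refine sum_congr rfl fun β _ => ?_
  rw [sq, sum_mul]
  refine sum_congr rfl fun x hx => ?_
  rw [mul_sum, sum_filter, ← (mem_filter.1 hx).2]
  refine sum_congr rfl fun x' _ => ?_
  by_cases h : f x = f x'
  · simp [ind, h]
  · simp [ind, h, Ne.symm h]

theorem p_NCS :
    S_NCS := by
  intro Ω K S b key ω N n ε O hN hε hω _ hc hn hO
  have i0 : ∀ p : Prop, 0 ≤ ind p := fun p => by unfold ind; split_ifs <;> norm_num
  have h1 : ∑ β ∈ S.image b, (∑ x ∈ S.filter fun x => b x = β, ω x) ^ 2 ≤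
      N * ∑ x ∈ S, ∑ x' ∈ S, ind (key x = key x') * (ω x * ω x') := by
    rw [← sum_fiberwise_of_maps_to (g := b) (fun x hx => mem_image_of_mem b hx)
      fun x => ∑ x' ∈ S, ind (key x = key x') * (ω x * ω x'), mul_sum]
    refine sum_le_sum fun β _ => ?_
    rw [← sum_fiberwise_of_maps_to (g := key) (fun x hx => mem_image_of_mem key hx) ω]
    refine sq_sum_le_card_mul_sum_sq.trans (mul_le_mul (hc β) ?_
      (sum_nonneg fun _ _ => sq_nonneg _) hN)
    rw [← NCS_fib]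
    exact sum_le_sum fun x hx => sum_le_sum_of_subset_of_nonneg (filter_subset _ _)
      fun x' hx' _ => mul_nonneg (i0 _) (mul_nonneg (hω x (mem_filter.1 hx).1).1 (hω x' hx').1)
  have h2 : ∑ x ∈ S, ∑ x' ∈ S, ind (key x = key x') * (ω x * ω x') ≤ ε * ∑ x ∈ S, ω x +
      ∑ x ∈ S, ∑ x' ∈ S, ind (x ≠ x' ∧ key x = key x') * (ω x * ω x') := by
    rw [mul_sum, ← sum_add_distrib]
    refine sum_le_sum fun x hx => ?_
    rw [← add_sum_erase _ _ hx, ← add_sum_erase _ _ hx]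
    have e : ∑ x' ∈ S.erase x, ind (key x = key x') * (ω x * ω x') =
        ∑ x' ∈ S.erase x, ind (x ≠ x' ∧ key x = key x') * (ω x * ω x') :=
      sum_congr rfl fun x' hx' => by simp [ind, (ne_of_mem_erase hx').symm]
    have := mul_le_mul_of_nonneg_right (hω x hx).2 (hω x hx).1
    rw [e]
    simp only [ind, if_true, ne_eq, not_true, false_and, if_false]
    linarith
  have h3 : N * ε * ∑ x ∈ S, ω x ≤
      (∑ β ∈ S.image b, (∑ x ∈ S.filter fun x => b x = β, ω x) ^ 2) / 2 +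
        N ^ 2 * ε ^ 2 / 2 * (S.image b).card := by
    rw [← sum_fiberwise_of_maps_to (g := b) (fun x hx => mem_image_of_mem b hx) ω, mul_sum, sum_div,
      mul_comm _ ((S.image b).card : ℝ), ← nsmul_eq_mul, ← sum_const, ← sum_add_distrib]
    refine sum_le_sum fun β _ => ?_
    nlinarith [sq_nonneg (N * ε - ∑ x ∈ S.filter fun x => b x = β, ω x)]
  have h4 := mul_le_mul_of_nonneg_left (h2.trans (add_le_add le_rfl hO)) hN
  have h5 := mul_le_mul_of_nonneg_left hn (show 0 ≤ N ^ 2 * ε ^ 2 / 2 by positivity)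
  rw [NCS_fib]
  linarith

end Pool.Agent.P.MP_8be758_nt.Pd
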