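import Pool.Agent.P.MP_8be758_nt.Pd.IfN

/-! Step NF. -/

namespace Pool.Agent.P.MP_8be758_nt.Pd

open Finset Real Filter
open Pool.Agent.P.MP_8be758_nt.Par (det)
open Pool.Agent.P.MP_8be758_nt.Avg (rho)
open scoped Classical

theorem NF_sum (s : Finset ℤ) (P : ℤ → Prop) (h : ∀ x ∈ s, ∀ y ∈ s, P x → P y → x = y) :
    ∑ x ∈ s, ind (P x) ≤ 1 := by
  by_cases he : ∃ x ∈ s, P x
  · obtain ⟨x, hx, hP⟩ := he
    rw [sum_eq_single_of_mem x hx fun y hy hne => ind_neg fun hPy => hne (h y hy x hx hPy hP)]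
    exact ind_le_one _
  · rw [sum_eq_zero fun y hy => ind_neg fun hPy => he ⟨y, hy, hPy⟩]
    norm_num

theorem NF_lin {p : ℕ} (hp : p.Prime) (c e : ℤ) (h : ¬((p : ℤ) ∣ c ∧ (p : ℤ) ∣ e)) :
    ∑ x ∈ bx p, ind ((p : ℤ) ∣ c * x + e) ≤ 1 := by
  refine NF_sum _ _ fun x hx y hy h1 h2 => ?_
  have h3 : (p : ℤ) ∣ c * (x - y) := by
    have := dvd_sub h1 h2
    rwa [show c * x + e - (c * y + e) = c * (x - y) by ring] at this
  rcases (Nat.prime_iff_prime_int.1 hp).dvd_or_dvd h3 with h4 | h4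
  · exact absurd ⟨h4, (dvd_add_right (h4.mul_right x)).1 h1⟩ h
  · simp only [bx, mem_Ico] at hx hy
    have := Int.eq_zero_of_abs_lt_dvd h4 (abs_lt.2 ⟨by omega, by omega⟩)
    omega

theorem NF_two {p : ℕ} (hp : p.Prime) (Q : Prop) (c e c' e' : ℤ) (B : ℤ → Prop)
    (hB : ∀ x, B x ↔ Q ∧ (p : ℤ) ∣ (c * x + e) * (c' * x + e'))
    (h : Q → ¬((p : ℤ) ∣ c ∧ (p : ℤ) ∣ e) ∧ ¬((p : ℤ) ∣ c' ∧ (p : ℤ) ∣ e')) :
    (∀ x y, x ≡ y [ZMOD p] → (B x ↔ B y)) ∧ ∑ x ∈ bx p, ind (B x) ≤ 2 := by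
  refine ⟨fun x y hxy => ?_, ?_⟩
  · rw [hB, hB]
    refine and_congr_right fun _ => Int.ModEq.dvd_iff ?_
    gcongr
  · by_cases hQ : Q
    · have h1 := NF_lin hp c e (h hQ).1
      have h2 := NF_lin hp c' e' (h hQ).2
      have : ∑ x ∈ bx p, ind (B x) ≤
          ∑ x ∈ bx p, (ind ((p : ℤ) ∣ c * x + e) + ind ((p : ℤ) ∣ c' * x + e')) := by
        refine sum_le_sum fun x _ => ?_
        by_cases hx : B x
        · rw [ind_pos hx]
          rcases (Nat.prime_iff_prime_int.1 hp).dvd_or_dvd ((hB x).1 hx).2 with h4 | h4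
          · rw [ind_pos h4]
            linarith [ind_nonneg ((p : ℤ) ∣ c' * x + e')]
          · rw [ind_pos h4]
            linarith [ind_nonneg ((p : ℤ) ∣ c * x + e)]
        · rw [ind_neg hx]
          exact add_nonneg (ind_nonneg _) (ind_nonneg _)
      rw [sum_add_distrib] at this
      linarith
    · rw [sum_eq_zero fun y _ => ind_neg fun hy => hQ ((hB y).1 hy).1]
      norm_num

theorem p_NF :
    S_NF := by
  intro ρ α m m' a' d _ hy hα _ h1 h2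
  have key : ∀ p ∈ ρ.Ps, ¬p ∣ m → ¬(p : ℤ) ∣ (d.m : ℤ) * d.a ∧ ¬(p : ℤ) ∣ (m' : ℤ) * a' := by
    intro p hp hm
    have hpp := prime_of_PP hp
    have hle := ((mem_PP (by linarith)).1 hp).2.2
    obtain ⟨-, hs, hsub⟩ := mem_filter.1 hα
    have hn : ¬p ∣ α * m := fun h => by
      rcases (Nat.Prime.dvd_mul hpp).1 h with h | h
      · have := lt_of_PP (hsub (Nat.mem_primeFactors.2 ⟨hpp, h, hs.ne_zero⟩))
        linarith
      · exact hm h
    exact ⟨fun h => hn (dvd_trans (by exact_mod_cast h) h1),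
      fun h => hn (dvd_trans (by exact_mod_cast h) h2)⟩
  refine ⟨fun p hp => ?_, fun p hp => ?_⟩
  · have := NF_two (prime_of_PP hp) (¬p ∣ m) (d.m * d.t) (-(m' * a')) (d.m * d.a)
      (-(d.s * (m' * a'))) (Pr.Bs m d m' a' p) (fun x => by simp only [Pr.Bs, sub_eq_add_neg])
      fun hQ => ⟨fun h => (key p hp hQ).2 (dvd_neg.1 h.2), fun h => (key p hp hQ).1 h.1⟩
    exact ⟨this.1, this.2.trans (by norm_num)⟩
  · exact NF_two (prime_of_PP hp) (¬p ∣ m) (-m') (d.m * d.t) (-(d.s * m')) (d.m * d.a)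
      (Pr.Bt m d m' p) (fun x => by
        rw [Pr.Bt, show ((d.m : ℤ) * d.t - m' * x) * (d.m * d.a - d.s * (m' * x)) =
          (-(m' : ℤ) * x + d.m * d.t) * (-(d.s * m') * x + d.m * d.a) by ring])
      fun hQ => ⟨fun h => (key p hp hQ).2 ((dvd_neg.1 h.1).mul_right _),
        fun h => (key p hp hQ).1 h.2⟩

end Pool.Agent.P.MP_8be758_nt.Pd
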