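import Pool.Agent.P.MP_8be758_nt.Pd.If0

/-! Step OK. -/

namespace Pool.Agent.P.MP_8be758_nt.Pd

open Finset Real Filter
open ArithmeticFunction (cardFactors)
open Pool.Agent.P.MP_8be758_nt.Par (det)
open Pool.Agent.P.MP_8be758_nt.Avg (rho)

/-- the remainder theorem for a system of boxes -/
def OK_CR {Ω : Type} (cg : ℕ → Ω → Ω → Prop) (B : ℕ → Finset Ω) : Prop :=
  (∀ m x, cg m x x) ∧ ∀ (m m' : ℕ) (Φ : Ω → Ω → ℝ), 0 < m → 0 < m' → m.Coprime m' →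
    (∀ x x' y, cg m x x' → Φ x y = Φ x' y) → (∀ x y y', cg m' y y' → Φ x y = Φ x y') →
    ∑ x ∈ B (m * m'), Φ x x = ∑ x ∈ B m, ∑ y ∈ B m', Φ x y

theorem OK_prod {Ω : Type} {cg : ℕ → Ω → Ω → Prop} {B : ℕ → Finset Ω} (h : OK_CR cg B) :
    OK_CR (fun m (x y : Ω × Ω) => cg m x.1 y.1 ∧ cg m x.2 y.2) fun m => B m ×ˢ B m := by
  refine ⟨fun m x => ⟨h.1 _ _, h.1 _ _⟩, fun m m' Φ hm hm' hc h1 h2 => ?_⟩
  simp only [sum_product]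
  have e1 : ∀ a, ∑ b ∈ B (m * m'), Φ (a, b) (a, b) =
      ∑ b ∈ B m, ∑ b' ∈ B m', Φ (a, b) (a, b') := fun a =>
    h.2 m m' (fun b b' => Φ (a, b) (a, b')) hm hm' hc
      (fun x x' y k => h1 _ _ _ ⟨h.1 _ _, k⟩) fun x y y' k => h2 _ _ _ ⟨h.1 _ _, k⟩
  simp only [e1]
  rw [h.2 m m' (fun a a' => ∑ b ∈ B m, ∑ b' ∈ B m', Φ (a, b) (a', b')) hm hm' hc
    (fun x x' y k => sum_congr rfl fun b _ => sum_congr rfl fun b' _ => h1 _ _ _ ⟨k, h.1 _ _⟩)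
    fun x y y' k => sum_congr rfl fun b _ => sum_congr rfl fun b' _ => h2 _ _ _ ⟨k, h.1 _ _⟩]
  exact sum_congr rfl fun a _ => sum_comm

theorem OK_av {Ω : Type} (S : Sys Ω) {B : ℕ → Finset Ω} (h : OK_CR S.cg B) (c : ℕ → Ω → Prop)
    (hU : ∀ m x, x ∈ S.U m ↔ x ∈ B m ∧ c m x) (h1 : ∀ m x y, S.cg m x y → (c m x ↔ c m y))
    (h2 : ∀ m m' x, m.Coprime m' → (c (m * m') x ↔ c m x ∧ c m' x))
    (m m' : ℕ) (f f' : Ω → ℝ) (hm : 0 < m) (hm' : 0 < m') (hc : m.Coprime m') (hf : S.Per m f)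
    (hf' : S.Per m' f') : S.av (m * m') (fun x => f x * f' x) = S.av m f * S.av m' f' := by
  classical
  have hU' : ∀ m, S.U m = (B m).filter (c m) := fun m => by
    ext x; rw [hU, mem_filter]
  have key : ∀ f f' : Ω → ℝ, S.Per m f → S.Per m' f' →
      ∑ x ∈ S.U (m * m'), f x * f' x = (∑ x ∈ S.U m, f x) * ∑ x ∈ S.U m', f' x := by
    intro f f' hf hf'
    simp only [hU', sum_filter]
    rw [sum_mul_sum, ← h.2 m m' (fun x y => (if c m x then f x else 0) * if c m' y then f' y else 0)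
      hm hm' hc (fun x x' y k => by simp only [h1 m x x' k, hf x x' k])
      fun x y y' k => by simp only [h1 m' y y' k, hf' y y' k]]
    refine sum_congr rfl fun x _ => ?_
    simp only [h2 m m' x hc]
    by_cases k : c m x <;> by_cases k' : c m' x <;> simp [k, k']
  have k1 := key (fun _ => 1) (fun _ => 1) (fun _ _ _ => rfl) fun _ _ _ => rfl
  simp only [mul_one, sum_const, nsmul_eq_mul] at k1
  unfold Sys.av
  rw [key f f' hf hf', k1, mul_div_mul_comm]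

theorem OK_bx {m : ℕ} (hm : 0 < m) : (0 : ℤ) ∈ bx m ∧ (1 : ℤ) % m ∈ bx m := by
  have h : (0 : ℤ) < m := by exact_mod_cast hm
  exact ⟨mem_Ico.2 ⟨le_rfl, h⟩, mem_Ico.2 ⟨Int.emod_nonneg _ h.ne', Int.emod_lt_of_pos _ h⟩⟩

theorem OK_gcd (v : V2) (m : ℕ) : (Int.gcd v.1 v.2).Coprime m ↔
    ∀ p : ℕ, p.Prime → p ∣ m → ¬ ((p : ℤ) ∣ v.1 ∧ (p : ℤ) ∣ v.2) := by
  rw [Nat.coprime_iff_gcd_eq_one, Nat.eq_one_iff_not_exists_prime_dvd]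
  simp only [Nat.dvd_gcd_iff, Int.dvd_gcd_iff]
  exact ⟨fun h p hp k k' => h p hp ⟨k', k⟩, fun h p hp k => h p hp k.2 k.1⟩

theorem OK_gcd2 {v w : V2} {m : ℕ} (h : C2 m v w) (k : (Int.gcd v.1 v.2).Coprime m) :
    (Int.gcd w.1 w.2).Coprime m := by
  rw [OK_gcd] at k ⊢
  intro p hp hm ⟨r1, r2⟩
  have hm' : (p : ℤ) ∣ m := by exact_mod_cast hm
  exact k p hp hm ⟨(h.1.of_dvd hm').dvd_iff.2 r1, (h.2.of_dvd hm').dvd_iff.2 r2⟩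

theorem OK_det {g h : G4} {m : ℕ} (k : C4 m g h) : det g.1 g.2 ≡ det h.1 h.2 [ZMOD m] := by
  unfold det
  exact (k.1.1.mul k.2.2).sub (k.1.2.mul k.2.1)

theorem p_OK (hCRT : S_CRT) :
    S_OK := by
  have c1 : OK_CR S1.cg bx := ⟨fun _ _ => Int.ModEq.refl _, hCRT⟩
  have c2 : OK_CR C2 fun m => bx m ×ˢ bx m := OK_prod c1
  have c4 : OK_CR C4 fun m => (bx m ×ˢ bx m) ×ˢ (bx m ×ˢ bx m) := OK_prod c2
  have m1 : ∀ m m' : ℕ, m ∣ m' → ∀ x y : ℤ, x ≡ y [ZMOD m'] → x ≡ y [ZMOD m] :=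
    fun m m' h x y k => k.of_dvd (by exact_mod_cast h)
  have m2 : ∀ m m' : ℕ, m ∣ m' → ∀ x y, C2 m' x y → C2 m x y :=
    fun m m' h x y k => ⟨m1 m m' h _ _ k.1, m1 m m' h _ _ k.2⟩
  have o1 : ∀ m : ℕ, (1 : ℤ) % m ≡ 1 [ZMOD m] := fun m => Int.mod_modEq _ _
  refine ⟨⟨fun m hm => ⟨0, (OK_bx hm).1⟩, m1, OK_av S1 c1 (fun _ _ => True) (by simp [S1])
      (by simp) (by simp)⟩,
    ⟨fun m hm => ⟨(0, 0), mem_product.2 ⟨(OK_bx hm).1, (OK_bx hm).1⟩⟩, m2,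
      OK_av S2 c2 (fun _ _ => True) (by simp [S2]) (by simp) (by simp)⟩,
    ⟨fun m hm => ⟨(1 % m, 0), mem_filter.2 ⟨mem_product.2 ⟨(OK_bx hm).2, (OK_bx hm).1⟩,
      OK_gcd2 (v := (1, 0)) ⟨(o1 m).symm, Int.ModEq.refl _⟩ (by simp)⟩⟩, m2,
      OK_av SP c2 (fun m v => (Int.gcd v.1 v.2).Coprime m) (fun m x => mem_filter)
        (fun m x y k => ⟨OK_gcd2 k, OK_gcd2 ⟨k.1.symm, k.2.symm⟩⟩)
        fun m m' x _ => Nat.coprime_mul_iff_right⟩,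
    ⟨fun m hm => ⟨((1 % m, 0), (0, 1 % m)), mem_filter.2 ⟨mem_product.2
      ⟨mem_product.2 ⟨(OK_bx hm).2, (OK_bx hm).1⟩, mem_product.2 ⟨(OK_bx hm).1, (OK_bx hm).2⟩⟩,
        ?_⟩⟩, fun m m' h x y k => ⟨m2 m m' h _ _ k.1, m2 m m' h _ _ k.2⟩,
      OK_av S4 c4 (fun m g => det g.1 g.2 ≡ 1 [ZMOD m]) (fun m x => mem_filter)
        (fun m x y k => ⟨(OK_det k).symm.trans, (OK_det k).trans⟩) fun m m' x hc => ?_⟩⟩
  · have := OK_det (m := m) (g := ((1 % m, 0), (0, 1 % m))) (h := ((1, 0), (0, 1)))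
      ⟨⟨o1 m, Int.ModEq.refl _⟩, ⟨Int.ModEq.refl _, o1 m⟩⟩
    simpa [det] using this
  · rw [Nat.cast_mul]
    exact (Int.modEq_and_modEq_iff_modEq_mul (by simpa using hc)).symm

end Pool.Agent.P.MP_8be758_nt.Pd
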