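import Pool.Agent.P.MP_8be758_nt.Pd.IfM

/-! Step PAR2. -/

namespace Pool.Agent.P.MP_8be758_nt.Pd

open Finset Real Filter
open Pool.Agent.P.MP_8be758_nt.Par (nq mul cj det io et)
open Pool.Agent.P.MP_8be758_nt.Avg (rho)
open Pool.Agent.P.MP_8be758_nt.Pd.Mr

theorem p_PAR2 :
    S_PAR2 := by
  intro α C hα hC
  refine ⟨max (11520 * C) (5 / α), fun μ y y' l hμ h1 h2 h3 h4 h5 => ?_⟩
  have m1 : 11520 * C ≤ μ := (le_max_left _ _).trans hμ
  have m2 : 5 / α ≤ μ := (le_max_right _ _).trans hμ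
  have m3 : (11520 : ℝ) ≤ μ := by linarith
  have m0 : 0 < μ := by linarith
  have p4 : (0 : ℝ) < μ ^ 4 := by positivity
  obtain ⟨r, rfl⟩ : ∃ r, y = r * μ ^ 4 := ⟨y / μ ^ 4, by field_simp⟩
  have r1 : μ ^ 4 ≤ r := le_of_mul_le_mul_right (by linarith [show μ ^ 4 * μ ^ 4 = μ ^ 8 by ring]) p4
  have r2 : r ≤ μ ^ 6 := le_of_mul_le_mul_right (by linarith [show μ ^ 6 * μ ^ 4 = μ ^ 10 by ring]) p4
  have q2 : (2 : ℝ) ≤ μ ^ 4 := by
    calc (2 : ℝ) ≤ μ := by linarith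
      _ ≤ μ ^ 4 := le_self_pow₀ (by linarith) (by norm_num)
  have y0 : 0 < y' := by linarith
  have l1 : (l : ℝ) ≤ r + 1 := by
    have : r * μ ^ 4 ≤ r * y' := mul_le_mul_of_nonneg_left h3 (by linarith)
    exact le_of_mul_le_mul_right (by linarith [show (r + 1) * y' = r * y' + y' by ring]) y0
  have l2 : (l : ℝ) + 1 ≤ 2 * r := by linarith
  have e1 : C * (l + 1) ≤ exp μ := by
    have a := Real.pow_div_factorial_le_exp μ m0.le 7
    have b : C * (l + 1) ≤ C * (2 * μ ^ 6) := mul_le_mul_of_nonneg_left (by linarith) (by linarith)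
    have c : C * (2 * μ ^ 6) ≤ μ ^ 7 / (Nat.factorial 7 : ℕ) := by
      have p6 : (0 : ℝ) < μ ^ 6 := by positivity
      have : ((Nat.factorial 7 : ℕ) : ℝ) = 5040 := by norm_num [Nat.factorial]
      rw [this, le_div_iff₀ (by norm_num), show μ ^ 7 = μ * μ ^ 6 by ring]
      nlinarith
    linarith
  have e2 : (C * (l + 1)) ^ (l + 1) ≤ exp (2 * (μ * r)) := by
    calc (C * (l + 1)) ^ (l + 1) ≤ exp μ ^ (l + 1) := pow_le_pow_left₀ (by positivity) e1 _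
      _ = exp (((l + 1 : ℕ) : ℝ) * μ) := (Real.exp_nat_mul _ _).symm
      _ ≤ _ := exp_le_exp.2 (by push_cast; nlinarith)
  have s1 : μ ^ 5 ≤ μ * r := by
    rw [show μ ^ 5 = μ * μ ^ 4 by ring]; exact mul_le_mul_of_nonneg_left r1 m0.le
  have e3 : 16 * μ ^ 29 ≤ exp (μ * r) := by
    have a := Real.pow_div_factorial_le_exp (μ ^ 5) (by positivity) 6
    have c : 16 * μ ^ 29 ≤ (μ ^ 5) ^ 6 / (Nat.factorial 6 : ℕ) := by
      have p6 : (0 : ℝ) < μ ^ 29 := by positivity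
      have : ((Nat.factorial 6 : ℕ) : ℝ) = 720 := by norm_num [Nat.factorial]
      rw [this, le_div_iff₀ (by norm_num), show (μ ^ 5) ^ 6 = μ * μ ^ 29 by ring]
      nlinarith
    exact (c.trans a).trans (exp_le_exp.2 s1)
  have s0 : 0 ≤ μ * r := by nlinarith
  have e4 : 2 * y' - 2 * (α / μ) * (r * μ ^ 4) ≤ -3 * (μ * r) := by
    have a : 2 * (α / μ) * (r * μ ^ 4) = 2 * (α * μ * μ) * (μ * r) := by field_simp
    have b : 5 ≤ α * μ := by rw [div_le_iff₀ hα] at m2; linarith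
    have c : 5 ≤ α * μ * μ := by nlinarith
    rw [a]
    nlinarith
  rw [le_div_iff₀ m0]
  calc 16 * μ ^ 28 * ((C * (l + 1)) ^ (l + 1) * exp (2 * y' - 2 * (α / μ) * (r * μ ^ 4))) * μ
      = 16 * μ ^ 29 * ((C * (l + 1)) ^ (l + 1) * exp (2 * y' - 2 * (α / μ) * (r * μ ^ 4))) := by ring
    _ ≤ exp (μ * r) * (exp (2 * (μ * r)) * exp (-3 * (μ * r))) := by
        gcongr
    _ = 1 := by rw [← exp_add, ← exp_add, ← exp_zero]; congr 1; ring

end Pool.Agent.P.MP_8be758_nt.Pd
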