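import Pool.Agent.P.MP_8be758_nt.Pd.IfT

/-! Step RINV. -/

namespace Pool.Agent.P.MP_8be758_nt.Pd

open Finset Real Filter
open Pool.Agent.P.MP_8be758_nt.Par (det)
open Pool.Agent.P.MP_8be758_nt.Avg (rho)
open Pool.Agent.P.MP_e86632_nt (ee)

/-- reduction of the four entries -/
def RINV_md (m : ℕ) (g : G4) : G4 := ((g.1.1 % m, g.1.2 % m), (g.2.1 % m, g.2.2 % m))

theorem RINV_cg (m : ℕ) (g : G4) : C4 m (RINV_md m g) g :=
  ⟨⟨Int.mod_modEq _ _, Int.mod_modEq _ _⟩, Int.mod_modEq _ _, Int.mod_modEq _ _⟩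

theorem RINV_eq {m : ℕ} {a b : ℤ} (ha : a ∈ bx m) (hb : b ∈ bx m) (h : a ≡ b [ZMOD m]) :
    a = b := by
  rw [bx, mem_Ico] at ha hb
  rwa [Int.ModEq, Int.emod_eq_of_lt ha.1 ha.2, Int.emod_eq_of_lt hb.1 hb.2] at h

theorem RINV_inv {m a b c d x y x' y' : ℤ} (h : a * d - b * c = 1)
    (h1 : a * x + b * y ≡ a * x' + b * y' [ZMOD m])
    (h2 : c * x + d * y ≡ c * x' + d * y' [ZMOD m]) : x ≡ x' [ZMOD m] ∧ y ≡ y' [ZMOD m] := by
  have e1 : ∀ x y, d * (a * x + b * y) - b * (c * x + d * y) = x := fun x y => by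
    linear_combination x * h
  have e2 : ∀ x y, a * (c * x + d * y) - c * (a * x + b * y) = y := fun x y => by
    linear_combination y * h
  exact ⟨by simpa only [e1] using (h1.mul_left d).sub (h2.mul_left b),
    by simpa only [e2] using (h2.mul_left a).sub (h1.mul_left c)⟩

theorem p_RINV :
    S_RINV := by
  intro m h f hm hh hf
  have h0 : (0 : ℤ) < m := by exact_mod_cast hm
  have hb : ∀ a : ℤ, a % m ∈ bx m := fun a =>
    mem_Ico.2 ⟨Int.emod_nonneg _ h0.ne', Int.emod_lt_of_pos _ h0⟩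
  have h1 : Set.MapsTo (fun g => RINV_md m (rm g h)) (S4.U m) (S4.U m) := fun g hg => by
    have e := (mem_filter.1 (mem_coe.1 hg)).2
    obtain ⟨⟨c1, c2⟩, c3, c4⟩ := RINV_cg m (rm g h)
    refine mem_coe.2 (mem_filter.2 ⟨mem_product.2 ⟨mem_product.2 ⟨hb _, hb _⟩,
      mem_product.2 ⟨hb _, hb _⟩⟩, ((c1.mul c4).sub (c2.mul c3)).trans ?_⟩)
    have := det_ap g h.1 h.2
    rw [hh, mul_one] at this
    rwa [← this] at e
  have h2 : Set.InjOn (fun g => RINV_md m (rm g h)) (S4.U m) := fun g hg g' hg' e => by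
    obtain ⟨a1, a2⟩ := mem_product.1 (mem_filter.1 (mem_coe.1 hg)).1
    obtain ⟨b1, b2⟩ := mem_product.1 (mem_filter.1 (mem_coe.1 hg')).1
    rw [mem_product] at a1 a2 b1 b2
    simp only [RINV_md, Prod.mk.injEq] at e
    obtain ⟨c1, c2⟩ := RINV_inv hh e.1.1 e.2.1
    obtain ⟨c3, c4⟩ := RINV_inv hh e.1.2 e.2.2
    exact Prod.ext (Prod.ext (RINV_eq a1.1 b1.1 c1) (RINV_eq a1.2 b1.2 c3))
      (Prod.ext (RINV_eq a2.1 b2.1 c2) (RINV_eq a2.2 b2.2 c4))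
  unfold Sys.av
  congr 1
  exact sum_nbij (fun g => RINV_md m (rm g h)) (fun g hg => h1 hg) h2
    (surjOn_of_injOn_of_card_le _ h1 h2 le_rfl) fun g _ => (hf _ _ (RINV_cg m _)).symm

end Pool.Agent.P.MP_8be758_nt.Pd
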