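import Pool.Agent.P.MP_8be758_nt.Pd.IfN

/-! Step SUMF. -/

namespace Pool.Agent.P.MP_8be758_nt.Pd

open Finset Real Filter
open Pool.Agent.P.MP_8be758_nt.Par (det)
open Pool.Agent.P.MP_8be758_nt.Avg (rho)
open scoped Classical

theorem p_SUMF :
    S_SUMF := by
  intro w y Y x hx
  have h1 : Set.InjOn Nat.primeFactors (SF w y Y : Set ℕ) := fun a ha b hb e => by
    rw [← Nat.prod_primeFactors_of_squarefree (mem_filter.1 (mem_coe.1 ha)).2.1, e,
      Nat.prod_primeFactors_of_squarefree (mem_filter.1 (mem_coe.1 hb)).2.1]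
  rw [← sum_image (f := fun s => ∏ p ∈ s, x p) h1, exp_sum]
  calc _ ≤ ∑ s ∈ (PP w y).powerset, ∏ p ∈ s, x p := by
        refine sum_le_sum_of_subset_of_nonneg (fun s hs => ?_) fun s _ _ => prod_nonneg fun p _ => hx p
        obtain ⟨d, hd, rfl⟩ := mem_image.1 hs
        exact mem_powerset.2 (mem_filter.1 hd).2.2
    _ = ∏ p ∈ PP w y, (1 + x p) := (prod_one_add _).symm
    _ ≤ _ := prod_le_prod (fun p _ => add_nonneg zero_le_one (hx p)) fun p _ => by
        rw [add_comm]; exact add_one_le_exp _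

end Pool.Agent.P.MP_8be758_nt.Pd
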