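import Pool.Agent.P.MP_8be758_nt.Pd.IfN

/-! Step TYPES. -/

namespace Pool.Agent.P.MP_8be758_nt.Pd

open Finset Real Filter
open Pool.Agent.P.MP_8be758_nt.Par (det)
open Pool.Agent.P.MP_8be758_nt.Avg (rho)
open scoped Classical

theorem TYPES_sum (N U : ℕ) (y : ℝ) (hN : 0 < N) (hy : 2 ≤ y) (h : (N : ℝ) ≤ y ^ U) :
    ∑ p ∈ N.primeFactors.filter (fun p : ℕ => y < (p : ℝ)), N.factorization p ≤ U := by
  set P := N.primeFactors.filter (fun p : ℕ => y < (p : ℝ)) with hP
  have h1 : ∏ p ∈ P, p ^ N.factorization p ≤ N := by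
    have e : ∏ p ∈ N.primeFactors, p ^ N.factorization p = N :=
      Nat.prod_factorization_pow_eq_self hN.ne'
    calc ∏ p ∈ P, p ^ N.factorization p ≤ ∏ p ∈ N.primeFactors, p ^ N.factorization p :=
          Finset.prod_le_prod_of_subset_of_one_le' (filter_subset _ _) fun p hp _ =>
            Nat.one_le_pow _ _ (Nat.prime_of_mem_primeFactors hp).pos
      _ = N := e
  have h2 : y ^ (∑ p ∈ P, N.factorization p) ≤ ((∏ p ∈ P, p ^ N.factorization p : ℕ) : ℝ) := by
    rw [← Finset.prod_pow_eq_pow_sum]
    push_cast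
    exact Finset.prod_le_prod (fun p _ => by positivity) fun p hp =>
      pow_le_pow_left₀ (by linarith) (mem_filter.1 hp).2.le _
  have h3 : y ^ (∑ p ∈ P, N.factorization p) ≤ y ^ U :=
    h2.trans ((Nat.cast_le.2 h1).trans h)
  exact (pow_le_pow_iff_right₀ (by linarith : (1 : ℝ) < y)).1 h3

theorem p_TYPES :
    S_TYPES := by
  intro N w U y hN hy h
  set T : ℕ → Finset ℕ := fun p => if p ≤ w then
    {0, 1, N.factorization p - 1, N.factorization p} else if (p : ℝ) ≤ y then {0}
      else range (N.factorization p + 1) with hT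
  have hc : (N.divisors.filter fun d => (∀ p ∈ PP w y, ¬p ∣ d) ∧
      ∀ p : ℕ, p.Prime → p ≤ w → ¬p ^ 2 ∣ d ∨ ¬p ^ 2 ∣ N / d).card ≤
      (N.primeFactors.pi T).card := by
    refine Finset.card_le_card_of_injOn (fun d p _ => d.factorization p) ?_ ?_
    · intro d hd
      obtain ⟨hd1, hd2, hd3⟩ := mem_filter.1 (mem_coe.1 hd)
      have hdN : d ∣ N := Nat.dvd_of_mem_divisors hd1
      have hd0 : d ≠ 0 := (Nat.pos_of_mem_divisors hd1).ne'
      refine mem_coe.2 (mem_pi.2 fun p hp => ?_)
      have pp := Nat.prime_of_mem_primeFactors hp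
      have hle : d.factorization p ≤ N.factorization p :=
        (Nat.factorization_le_iff_dvd hd0 hN.ne').2 hdN p
      simp only [hT]
      split_ifs with h1 h2
      · have hq : N / d ≠ 0 := (Nat.div_pos (Nat.le_of_dvd hN hdN) (Nat.pos_of_ne_zero hd0)).ne'
        have e : (N / d).factorization p = N.factorization p - d.factorization p := by
          rw [Nat.factorization_div hdN]; rfl
        rcases hd3 p pp h1 with h3 | h3
        · rw [pp.pow_dvd_iff_le_factorization hd0] at h3
          simp only [mem_insert, mem_singleton]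
          omega
        · rw [pp.pow_dvd_iff_le_factorization hq, e] at h3
          simp only [mem_insert, mem_singleton]
          omega
      · have : ¬p ∣ d := hd2 p ((mem_PP (by linarith)).2 ⟨pp, by exact_mod_cast not_le.1 h1, h2⟩)
        simp [Nat.factorization_eq_zero_of_not_dvd this]
      · exact mem_range.2 (Nat.lt_succ_of_le hle)
    · intro d hd d' hd' e
      have hd1 := (mem_filter.1 (mem_coe.1 hd)).1
      have hd1' := (mem_filter.1 (mem_coe.1 hd')).1
      refine Nat.eq_of_factorization_eq (Nat.pos_of_mem_divisors hd1).ne'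
        (Nat.pos_of_mem_divisors hd1').ne' fun p => ?_
      by_cases hp : p ∈ N.primeFactors
      · exact congrFun (congrFun e p) hp
      · have z : N.factorization p = 0 := by
          rw [← Nat.support_factorization, Finsupp.mem_support_iff, not_not] at hp
          exact hp
        have a1 := (Nat.factorization_le_iff_dvd (Nat.pos_of_mem_divisors hd1).ne' hN.ne').2
          (Nat.dvd_of_mem_divisors hd1) p
        have a2 := (Nat.factorization_le_iff_dvd (Nat.pos_of_mem_divisors hd1').ne' hN.ne').2
          (Nat.dvd_of_mem_divisors hd1') p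
        omega
  refine hc.trans ?_
  rw [card_pi]
  have hb : ∀ p ∈ N.primeFactors, (T p).card ≤ (if p ≤ w then 4 else 1) *
      (if y < (p : ℝ) then 2 ^ N.factorization p else 1) := by
    intro p _
    simp only [hT]
    have h2 : 1 ≤ 2 ^ N.factorization p := Nat.one_le_two_pow
    by_cases h1 : p ≤ w
    · simp only [h1, if_true]
      have : ({0, 1, N.factorization p - 1, N.factorization p} : Finset ℕ).card ≤ 4 := card_le_four
      split_ifs <;> omega
    · simp only [h1, if_false]
      by_cases h3 : (p : ℝ) ≤ y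
      · simp [h3, not_lt.2 h3]
      · simp only [h3, if_false, not_le.1 h3, if_true, card_range, one_mul]
        exact Nat.lt_two_pow_self
  refine (Finset.prod_le_prod' hb).trans ?_
  rw [prod_mul_distrib, ← prod_filter, ← prod_filter, prod_const, prod_pow_eq_pow_sum]
  refine Nat.mul_le_mul (Nat.pow_le_pow_right (by norm_num) ?_)
    (Nat.pow_le_pow_right (by norm_num) (TYPES_sum N U y hN hy h))
  calc (N.primeFactors.filter fun p => p ≤ w).card ≤ (Icc 1 w).card :=
        card_le_card fun p hp => mem_Icc.2
          ⟨(Nat.prime_of_mem_primeFactors (mem_filter.1 hp).1).pos, (mem_filter.1 hp).2⟩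
    _ = w := by simp

end Pool.Agent.P.MP_8be758_nt.Pd
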