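import Pool.Agent.P.MP_8be758_nt.Pd.IfM
import Pool.Agent.P.MP_9d1108_nt.Sw.Vdc

/-! Step VD1. -/

namespace Pool.Agent.P.MP_8be758_nt.Pd

open Finset Real Filter
open Pool.Agent.P.MP_8be758_nt.Par (nq mul cj det io et)
open Pool.Agent.P.MP_8be758_nt.Avg (rho)
open Pool.Agent.P.MP_8be758_nt.Pd.Mr

theorem p_VD1 :
    S_VD1 := by
  intro κ
  obtain ⟨b0, C, hb0, hC, H⟩ := MP_9d1108_nt.Sw.vdc κ
  refine ⟨(b0 + 1) * (κ + 2), C, hC, ?_⟩
  intro f lo hi mu τ n hd h1 h2 t0 t1 hlo hhi hn s1 s2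
  have t2 : τ ≤ 1 := by linarith
  have pw : ∀ i : ℕ, i ≤ (b0 + 1) * (κ + 2) → τ ^ ((b0 + 1) * (κ + 2)) ≤ τ ^ i :=
    fun i hi => pow_le_pow_of_le_one t0.le t2 hi
  have n0 : (0 : ℝ) ≤ n := Nat.cast_nonneg _
  have k0 : (0 : ℝ) ≤ κ := Nat.cast_nonneg _
  have n1 : (1 : ℝ) ≤ n := hn.trans (mul_le_of_le_one_left n0 (pow_le_one₀ t0.le t2))
  have z : (0 : ℝ) ∈ Set.Icc (0 : ℝ) ((κ + 3) * n) := ⟨le_rfl, by positivity⟩
  have hlh : lo ≤ hi := (h1 0 z).1.trans (h1 0 z).2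
  have hi0 : 0 < hi := hlo.trans_le hlh
  have mu0 : 0 ≤ mu := (abs_nonneg _).trans (h2 0 z)
  set q := τ ^ b0 with hq
  have q0 : 0 < q := by positivity
  have q1 : q ≤ 1 := pow_le_one₀ t0.le t2
  have qn : q * n ≤ n := mul_le_of_le_one_left n0 q1
  have a1 : 1 ≤ q * ⌈1 / q⌉₊ := (div_le_iff₀' q0).1 (Nat.le_ceil _)
  have a2 : τ ^ (b0 + 1) * ⌈1 / q⌉₊ ≤ 1 := by
    have h3 := (Nat.ceil_lt_add_one (show 0 ≤ 1 / q by positivity)).le
    have h4 : q * ⌈1 / q⌉₊ ≤ q * (1 / q + 1) := by gcongr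
    rw [mul_add, mul_one_div_cancel q0.ne'] at h4
    rw [pow_succ', ← hq, mul_assoc]
    nlinarith
  generalize ⌈1 / q⌉₊ = H0 at a1 a2
  have a3 : (H0 : ℝ) ≤ q * n := by
    refine le_of_mul_le_mul_left (a2.trans (hn.trans ?_)) (by positivity)
    rw [← mul_assoc, hq, ← pow_add]
    exact mul_le_mul_of_nonneg_right (pw _ (by nlinarith)) n0
  have a4 : hi * (H0 : ℝ) ^ κ ≤ 3 := by
    have h3 := pow_le_one₀ (n := κ) (by positivity) a2
    rw [mul_pow, ← pow_mul] at h3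
    have h4 := mul_le_mul_of_nonneg_right (hhi.trans (pw ((b0 + 1) * κ) (by nlinarith)))
      (show 0 ≤ (H0 : ℝ) ^ κ by positivity)
    linarith
  classical
  let p : ℕ → Prop := fun H => (H : ℝ) ≤ q * n ∧ hi * (H : ℝ) ^ κ ≤ 3
  have a5 : H0 ≤ n := by exact_mod_cast a3.trans qn
  have b1 : p (Nat.findGreatest p n) := Nat.findGreatest_spec (P := p) a5 ⟨a3, a4⟩
  have b2 : H0 ≤ Nat.findGreatest p n := Nat.le_findGreatest (P := p) a5 ⟨a3, a4⟩
  have b3 : ¬p (Nat.findGreatest p n + 1) := fun h =>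
    Nat.findGreatest_is_greatest (P := p) (Nat.lt_succ_self _) (by exact_mod_cast h.1.trans qn) h
  generalize Nat.findGreatest p n = L at b1 b2 b3
  have b4 : 1 ≤ q * L := a1.trans (by gcongr)
  have L0 : (0 : ℝ) ≤ L := Nat.cast_nonneg _
  have L1 : (1 : ℝ) ≤ L := b4.trans (mul_le_of_le_one_left L0 q1)
  have b5 : τ * (L + 1 : ℕ) ≤ L := by push_cast; nlinarith
  have key : lo + mu * n ≤ q * n * (L : ℝ) ^ κ * lo ^ 2 := by
    rcases not_and_or.1 b3 with h | h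
    · have h3 : τ ^ (b0 + 1) * n ≤ L := by
        rw [pow_succ', ← hq, mul_assoc]
        exact (mul_le_mul_of_nonneg_left (not_le.1 h).le t0.le).trans b5
      refine s1.trans (mul_le_mul_of_nonneg_right ?_ (by positivity))
      calc _ ≤ τ ^ (b0 + (b0 + 1) * κ) * (n : ℝ) ^ (κ + 1) :=
            mul_le_mul_of_nonneg_right (pw _ (by nlinarith)) (by positivity)
        _ = q * n * (τ ^ (b0 + 1) * n) ^ κ := by rw [hq]; ring
        _ ≤ _ := by gcongr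
    · have h3 : τ ^ κ ≤ hi * (L : ℝ) ^ κ :=
        calc τ ^ κ ≤ τ ^ κ * (hi * ((L + 1 : ℕ) : ℝ) ^ κ) :=
              le_mul_of_one_le_right (by positivity) (by linarith [not_le.1 h])
          _ = hi * (τ * (L + 1 : ℕ)) ^ κ := by ring
          _ ≤ _ := by gcongr
      refine le_of_mul_le_mul_right (s2.trans ?_) hi0
      calc _ ≤ τ ^ (b0 + κ) * n * lo ^ 2 := mul_le_mul_of_nonneg_right
            (mul_le_mul_of_nonneg_right (pw _ (by nlinarith)) n0) (by positivity)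
        _ = q * n * τ ^ κ * lo ^ 2 := by rw [hq]; ring
        _ ≤ q * n * (hi * (L : ℝ) ^ κ) * lo ^ 2 := by gcongr
        _ = _ := by ring
  have := H f 0 ((κ + 3) * n) lo hi mu (mu * n / lo) τ n L (by rwa [zero_add]) (by rwa [zero_add])
    (by rwa [zero_add]) (by nlinarith [b1.1.trans qn]) t0 t2 hlo (by positivity) b4 b1.1 b1.2
    (div_mul_cancel₀ _ hlo.ne').ge (le_of_mul_le_mul_right (by
      rw [add_mul, div_mul_cancel₀ _ hlo.ne']
      linarith) hlo)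
  simpa only [zero_add, MP_b60056_nt.AA.ee] using this

end Pool.Agent.P.MP_8be758_nt.Pd
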