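import Pool.Agent.P.MP_8be758_nt.Pd.If0

/-! Step WIN. -/

namespace Pool.Agent.P.MP_8be758_nt.Pd

open Finset Real Filter
open ArithmeticFunction (cardFactors)
open Pool.Agent.P.MP_8be758_nt.Par (det)
open Pool.Agent.P.MP_8be758_nt.Avg (rho)

theorem WIN_one {Y Z : ℝ} (hY : 2 ≤ Y) (hZ : Y ≤ Z) :
    ∑ p ∈ PP Z (2 * Z), (1 : ℝ) / p ≤ 3 / log Y := by
  have hl : 0 < log Y := log_pos (by linarith)
  have hZ0 : 0 < Z := by linarith
  have h1 : ∑ p ∈ PP Z (2 * Z), log p ≤ Chebyshev.theta (2 * Z) := by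
    unfold Chebyshev.theta
    refine sum_le_sum_of_subset_of_nonneg (fun p hp => ?_) fun p _ _ => log_natCast_nonneg p
    obtain ⟨a, -, c⟩ := (mem_PP (by linarith)).1 hp
    exact mem_filter.2 ⟨mem_Ioc.2 ⟨a.pos, Nat.le_floor c⟩, a⟩
  have h2 := Chebyshev.theta_le_log4_mul_x (x := 2 * Z) (by linarith)
  have h3 : log 4 ≤ 3 / 2 := by
    rw [show (4 : ℝ) = 2 ^ 2 by norm_num, log_pow]
    have := log_two_lt_d9
    push_cast; linarith
  calc _ ≤ ∑ p ∈ PP Z (2 * Z), log p / (Z * log Y) := by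
        refine sum_le_sum fun p hp => ?_
        obtain ⟨-, b, -⟩ := (mem_PP (by linarith)).1 hp
        have b1 : log Y ≤ log p := log_le_log (by linarith) (by linarith)
        rw [div_le_div_iff₀ (by linarith) (by positivity), one_mul, mul_comm]
        exact mul_le_mul b1 b.le hZ0.le (hl.le.trans b1)
    _ ≤ 3 * Z / (Z * log Y) := by
        rw [← sum_div]
        refine div_le_div_of_nonneg_right ?_ (by positivity)
        nlinarith
    _ = _ := by field_simp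

theorem WIN_pow {Y : ℝ} (hY : 2 ≤ Y) (k : ℕ) :
    ∑ p ∈ PP Y (2 ^ k * Y), (1 : ℝ) / p ≤ k * (3 / log Y) := by
  induction k with
  | zero =>
    rw [sum_eq_zero fun p hp => ?_]
    · simp
    · obtain ⟨-, b, c⟩ := (mem_PP (by linarith)).1 hp
      linarith
  | succ k ih =>
    have h1 : (1 : ℝ) ≤ 2 ^ k := one_le_pow₀ one_le_two
    have h2 := WIN_one hY (Z := 2 ^ k * Y) (by nlinarith)
    have h3 : PP Y (2 ^ (k + 1) * Y) ⊆ PP Y (2 ^ k * Y) ∪ PP (2 ^ k * Y) (2 * (2 ^ k * Y)) := by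
      intro p hp
      obtain ⟨a, b, c⟩ := (mem_PP (by positivity)).1 hp
      rw [mem_union, mem_PP (by positivity), mem_PP (by positivity)]
      rcases le_or_gt (p : ℝ) (2 ^ k * Y) with h | h
      · exact Or.inl ⟨a, b, h⟩
      · exact Or.inr ⟨a, h, c.trans_eq (by ring)⟩
    have h4 := sum_le_sum_of_subset_of_nonneg (f := fun p : ℕ => (1 : ℝ) / p) h3
      fun _ _ _ => by positivity
    have h5 := sum_union_inter (f := fun p : ℕ => (1 : ℝ) / p) (s₁ := PP Y (2 ^ k * Y))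
      (s₂ := PP (2 ^ k * Y) (2 * (2 ^ k * Y)))
    have h6 : 0 ≤ ∑ p ∈ PP Y (2 ^ k * Y) ∩ PP (2 ^ k * Y) (2 * (2 ^ k * Y)), (1 : ℝ) / p :=
      sum_nonneg fun _ _ => by positivity
    push_cast
    linarith

theorem p_WIN :
    S_WIN := by
  refine ⟨9, by norm_num, fun Y θ hY hθ => ?_⟩
  obtain ⟨n, h1, h2⟩ := exists_nat_pow_near (x := θ) (y := 2) (by linarith) one_lt_two
  have hl : 0 < log Y := log_pos (by linarith)
  have h3 : PP Y (θ * Y) ⊆ PP Y (2 ^ (n + 1) * Y) := by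
    intro p hp
    obtain ⟨a, b, c⟩ := (mem_PP (by positivity)).1 hp
    exact (mem_PP (by positivity)).2 ⟨a, b, c.trans (by gcongr)⟩
  have h4 : n * log 2 ≤ log θ := by
    rw [← log_pow]; exact log_le_log (by positivity) h1
  have h5 : log 2 ≤ log θ := log_le_log two_pos hθ
  have h6 := log_two_gt_d9
  have h7 : ((n + 1 : ℕ) : ℝ) ≤ 3 * log θ := by
    have : (0 : ℝ) ≤ n := n.cast_nonneg
    push_cast; nlinarith
  refine (sum_le_sum_of_subset_of_nonneg h3 fun _ _ _ => by positivity).trans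
    ((WIN_pow hY _).trans ?_)
  calc _ ≤ 3 * log θ * (3 / log Y) := by gcongr
    _ = _ := by ring

end Pool.Agent.P.MP_8be758_nt.Pd
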