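import Pool.Agent.P.MP_8be758_nt.Pd.DefsM

/-! Basic facts for the mean value part. -/

namespace Pool.Agent.P.MP_8be758_nt.Pd.Mr

open Finset Real
open Pool.Agent.P.MP_8be758_nt.Par
open Pool.Agent.P.MP_8be758_nt.Avg (rho)

variable {A : ℕ} {v w : V2}

theorem mul_cm (v w : V2) : mul A v w = mul A w v := by
  simp only [mul, Prod.mk.injEq]; constructor <;> ring

theorem mul_as (u v w : V2) : mul A (mul A u v) w = mul A u (mul A v w) := by
  simp only [mul, Prod.mk.injEq]; constructor <;> ring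

theorem mul_lc (u v w : V2) : mul A u (mul A v w) = mul A v (mul A u w) := by
  simp only [mul, Prod.mk.injEq]; constructor <;> ring

theorem mul_e (v : V2) : mul A v (1, 0) = v := by simp [mul]

theorem e_mul (v : V2) : mul A (1, 0) v = v := by simp [mul]

theorem mul_sm (c : ℤ) (v w : V2) : mul A v (c • w) = c • mul A v w := by
  ext <;> simp [mul] <;> ring

theorem mul_ad (u v w : V2) : mul A u (v + w) = mul A u v + mul A u w := by
  ext <;> simp [mul] <;> ring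

theorem cj_cj (v : V2) : cj (cj v) = v := by simp [cj]

theorem cj_mul (v w : V2) : cj (mul A v w) = mul A (cj v) (cj w) := by
  simp only [mul, cj, Prod.mk.injEq]; constructor <;> ring

theorem cj_mul_mul (g v : V2) : mul A (cj g) (mul A g v) = nq A g • v := by
  ext <;> simp [mul, cj, nq] <;> ring

theorem mul_cj_mul (g v : V2) : mul A g (mul A (cj g) v) = nq A g • v := by
  rw [mul_lc, cj_mul_mul]

theorem det_mul (g v w : V2) : det (mul A g v) (mul A g w) = nq A g * det v w := by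
  simp only [det, mul, nq]; ring

theorem det_sm (c d : ℤ) (v w : V2) : det (c • v) (d • w) = c * d * det v w := by
  simp only [det, Prod.smul_fst, Prod.smul_snd, smul_eq_mul]; ring

theorem mul_inj (hA : 2 ≤ A) {g : V2} (hg : g ≠ 0) (h : mul A g v = mul A g w) : v = w := by
  have := congrArg (mul A (cj g)) h
  rw [cj_mul_mul, cj_mul_mul] at this
  exact smul_right_injective _ (nq_pos hA hg).ne' this

theorem dv_iff {p : ℕ} {g : V2} : Dv A p g v ↔ ∃ u : V2, (p : ℤ) • u = mul A g v :=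
  ⟨fun ⟨⟨a, ha⟩, b, hb⟩ => ⟨(a, b), Prod.ext ha.symm hb.symm⟩,
    fun ⟨u, h⟩ => ⟨⟨u.1, (congrArg Prod.fst h).symm⟩, u.2, (congrArg Prod.snd h).symm⟩⟩

theorem pv_zero : pv A 0 = (1, 0) := rfl

theorem pv_cons (g : V2) (s : Multiset V2) : pv A (g ::ₘ s) = mul A g (pv A s) :=
  Multiset.foldr_cons _ _ _ _

theorem pv_add (s t : Multiset V2) : pv A (s + t) = mul A (pv A s) (pv A t) := by
  induction s using Multiset.induction_on with
  | empty => rw [zero_add, pv_zero, e_mul]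
  | cons g s ih => rw [Multiset.cons_add, pv_cons, pv_cons, ih, mul_as]

theorem nq_pv (s : Multiset V2) : nq A (pv A s) = (s.map (nq A)).prod := by
  induction s using Multiset.induction_on with
  | empty => simp [pv_zero, nq]
  | cons g s ih => rw [pv_cons, nq_mul, ih, Multiset.map_cons, Multiset.prod_cons]

theorem cj_pv (s : Multiset V2) : cj (pv A s) = pv A (s.map cj) := by
  induction s using Multiset.induction_on with
  | empty => simp [pv_zero, cj]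
  | cons g s ih => rw [pv_cons, cj_mul, ih, Multiset.map_cons, pv_cons]

theorem pr_ne (h : Pr v) : v ≠ 0 := by
  rintro rfl
  exact not_isCoprime_zero_zero h

theorem pr_iff : Pr v ↔ Int.gcd v.1 v.2 = 1 := Int.isCoprime_iff_gcd_eq_one

theorem pr_neg (h : Pr v) : Pr (-v) := h.neg_neg

theorem exists_pr (hv : v ≠ 0) : ∃ u : V2, Pr u ∧ v = (Int.gcd v.1 v.2 : ℤ) • u := by
  have h : 0 < Int.gcd v.1 v.2 := Int.gcd_pos_iff.2 (by
    by_contra h
    push Not at h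
    exact hv (Prod.ext h.1 h.2))
  obtain ⟨a, b, h1, h2, h3⟩ := Int.exists_gcd_one h
  exact ⟨(a, b), pr_iff.2 h1, Prod.ext (h2.trans (mul_comm _ _)) (h3.trans (mul_comm _ _))⟩

theorem eq_smul_of_det (hw : Pr w) (h : det v w = 0) : ∃ c : ℤ, v = c • w := by
  obtain ⟨a, b, e⟩ := hw
  unfold det at h
  refine ⟨a * v.1 + b * v.2, Prod.ext ?_ ?_⟩ <;>
    simp only [Prod.smul_fst, Prod.smul_snd, smul_eq_mul]
  · linear_combination -v.1 * e + b * h
  · linear_combination -v.2 * e - a * h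

theorem dvd_of_dvd_smul (hw : Pr w) {c d : ℤ} (h1 : d ∣ (c • w).1) (h2 : d ∣ (c • w).2) : d ∣ c := by
  obtain ⟨a, b, e⟩ := hw
  have : c = a * (c • w).1 + b * (c • w).2 := by
    simp only [Prod.smul_fst, Prod.smul_snd, smul_eq_mul]
    linear_combination -c * e
  rw [this]
  exact (h1.mul_left a).add (h2.mul_left b)

theorem pr_col (hv : Pr v) (hw : Pr w) (h : det v w = 0) : v = w ∨ v = -w := by
  obtain ⟨c, rfl⟩ := eq_smul_of_det hw h
  have : IsUnit c := hv.isUnit_of_dvd' (Dvd.intro _ rfl) (Dvd.intro _ rfl)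
  rcases Int.isUnit_iff.1 this with rfl | rfl <;> simp

theorem nq_nonneg (hA : 2 ≤ A) (v : V2) : 0 ≤ nq A v := by
  nlinarith [(sq_le_nq hA v).1, sq_nonneg v.1]

theorem one_le_nq (hA : 2 ≤ A) (hv : v ≠ 0) : (1 : ℝ) ≤ nq A v := by exact_mod_cast nq_pos hA hv

theorem mem_An0 (hA : 2 ≤ A) {N1 N2 : ℝ} :
    v ∈ An (Q0 A) N1 N2 ↔ N1 < (nq A v : ℝ) ∧ (nq A v : ℝ) ≤ N2 := by
  rw [mem_An (by omega) (isF_Q0 A), ev_Q0]

theorem mem_VV0 (hA : 2 ≤ A) {N1 N2 : ℝ} :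
    v ∈ VV (Q0 A) N1 N2 ↔ Pr v ∧ N1 < (nq A v : ℝ) ∧ (nq A v : ℝ) ≤ N2 := by
  rw [mem_VV (by omega) (isF_Q0 A), ev_Q0]

theorem mem_VX (hA : 2 ≤ A) {X : ℝ} :
    v ∈ VX A X ↔ Pr v ∧ X < (nq A v : ℝ) ∧ (nq A v : ℝ) ≤ 2 * X := mem_VV0 hA

theorem VV_sub_An (hA : 2 ≤ A) (N1 N2 : ℝ) : VV (Q0 A) N1 N2 ⊆ An (Q0 A) N1 N2 :=
  fun _ hv => (mem_An0 hA).2 ((mem_VV0 hA).1 hv).2

theorem ne_of_mem_An (hA : 2 ≤ A) {N1 N2 : ℝ} (h0 : 0 ≤ N1) (h : v ∈ An (Q0 A) N1 N2) : v ≠ 0 := by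
  rintro rfl
  have := ((mem_An0 hA).1 h).1
  simp [nq] at this
  linarith

theorem uu_eq (hA : 2 ≤ A) (v : V2) : uu A v = io A v ^ 2 / ((‖io A v‖ ^ 2 : ℝ) : ℂ) := by
  rw [norm_io_sq hA, uu, Complex.ofReal_intCast]

theorem norm_uu (hA : 2 ≤ A) (hv : v ≠ 0) : ‖uu A v‖ = 1 := by
  have := one_le_nq hA hv
  rw [uu, norm_div, norm_pow, norm_io_sq hA, Complex.norm_intCast, abs_of_pos (by linarith),
    div_self (by linarith)]

theorem uu_ne (hA : 2 ≤ A) (hv : v ≠ 0) : uu A v ≠ 0 :=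
  norm_ne_zero_iff.1 (by rw [norm_uu hA hv]; exact one_ne_zero)

theorem uu_zero : uu A 0 = 0 := by simp [uu, nq]

theorem uu_e : uu A (1, 0) = 1 := by simp [uu, nq, io]

theorem uu_mul (hA : 2 ≤ A) (v w : V2) : uu A (mul A v w) = uu A v * uu A w := by
  rw [uu, uu, uu, io_mul hA, nq_mul, div_mul_div_comm, mul_pow, Int.cast_mul]

theorem uu_smul {c : ℤ} (hc : c ≠ 0) (v : V2) : uu A (c • v) = uu A v := by
  have : (c : ℂ) ^ 2 ≠ 0 := pow_ne_zero 2 (by exact_mod_cast hc)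
  rw [uu, uu, io_smul, nq_smul, mul_pow, Int.cast_mul, Int.cast_pow, mul_div_mul_left _ _ this]

theorem uu_cj (v : V2) : uu A (cj v) = (starRingEnd ℂ) (uu A v) := by
  rw [uu, uu, io_cj, nq_cj, map_div₀, map_pow, map_intCast]

theorem io_conj (hA : 2 ≤ A) (v : V2) : io A v * (starRingEnd ℂ) (io A v) = nq A v := by
  rw [Complex.mul_conj', ← Complex.ofReal_pow, norm_io_sq hA, Complex.ofReal_intCast]

theorem im_io_mul (v w : V2) :
    (io A w * (starRingEnd ℂ) (io A v)).im = √(4 * A - 1) / 2 * det v w := by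
  simp [io, om, det]
  ring

theorem norm_uu_sub (hA : 2 ≤ A) (hv : v ≠ 0) (hw : w ≠ 0) :
    ‖uu A v - uu A w‖ * (‖io A v‖ * ‖io A w‖) = √(4 * A - 1) * |(det v w : ℝ)| := by
  have h1 : io A v ≠ 0 := norm_pos_iff.1 (by linarith [one_le_norm_io hA hv])
  have h2 : io A w ≠ 0 := norm_pos_iff.1 (by linarith [one_le_norm_io hA hw])
  have h3 : (starRingEnd ℂ) (io A v) ≠ 0 := by simpa using h1
  have h4 : (starRingEnd ℂ) (io A w) ≠ 0 := by simpa using h2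
  have e : (uu A v - uu A w) * ((starRingEnd ℂ) (io A v) * (starRingEnd ℂ) (io A w)) =
      -(io A w * (starRingEnd ℂ) (io A v) - (starRingEnd ℂ) (io A w * (starRingEnd ℂ) (io A v))) := by
    rw [uu, uu, ← io_conj hA, ← io_conj hA, map_mul, Complex.conj_conj]
    field_simp
    ring
  have := congrArg norm e
  rw [norm_mul, norm_mul, Complex.norm_conj, Complex.norm_conj, norm_neg, Complex.sub_conj,
    im_io_mul, norm_mul, Complex.norm_I, Complex.norm_real, Real.norm_eq_abs] at this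
  rw [this, mul_one, ← mul_assoc, abs_mul, abs_of_nonneg (by positivity)]
  ring

theorem norm_uu_sub_sq (hA : 2 ≤ A) (hv : v ≠ 0) (hw : w ≠ 0) :
    ‖uu A v - uu A w‖ ^ 2 * (nq A v * nq A w) = (4 * A - 1) * (det v w : ℝ) ^ 2 := by
  have := congrArg (· ^ 2) (norm_uu_sub hA hv hw)
  simpa only [mul_pow, norm_io_sq hA, sq_sqrt_disc hA, sq_abs] using this

theorem uu_eq_iff (hA : 2 ≤ A) (hv : v ≠ 0) (hw : w ≠ 0) : uu A v = uu A w ↔ det v w = 0 := by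
  have h := norm_uu_sub_sq hA hv hw
  have h1 := one_le_nq hA hv
  have h2 := one_le_nq hA hw
  have h3 : (2 : ℝ) ≤ A := by exact_mod_cast hA
  constructor
  · intro e
    rw [e, sub_self, norm_zero, zero_pow two_ne_zero, zero_mul, eq_comm, mul_eq_zero] at h
    rcases h with h | h
    · linarith
    · exact_mod_cast pow_eq_zero_iff two_ne_zero |>.1 h
  · intro e
    rw [e, Int.cast_zero, zero_pow two_ne_zero, mul_zero, mul_eq_zero] at h
    rcases h with h | h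
    · exact sub_eq_zero.1 (norm_eq_zero.1 (pow_eq_zero_iff two_ne_zero |>.1 h))
    · nlinarith

theorem norm_uu_sub_le (hA : 2 ≤ A) (hv : v ≠ 0) (hw : w ≠ 0) :
    ‖uu A v - uu A w‖ * ‖io A v‖ ≤ 2 * ‖io A (w - v)‖ := by
  have h := norm_uu_sub hA hv hw
  have h2 := one_le_norm_io hA hw
  have e : det (w - v) w = -det v w := by simp only [det, Prod.fst_sub, Prod.snd_sub]; ring
  have h3 := Complex.abs_im_le_norm (io A w * (starRingEnd ℂ) (io A (w - v)))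
  rw [im_io_mul, e, norm_mul, Complex.norm_conj, abs_mul, Int.cast_neg, abs_neg,
    abs_of_nonneg (by positivity)] at h3
  refine le_of_mul_le_mul_right ?_ (show 0 < ‖io A w‖ by linarith)
  nlinarith

theorem norm_mul_conj_sub {x y : ℂ} (hy : ‖y‖ = 1) : ‖x * (starRingEnd ℂ) y - 1‖ = ‖x - y‖ := by
  have e : x * (starRingEnd ℂ) y - 1 = (x - y) * (starRingEnd ℂ) y := by
    rw [sub_mul, Complex.mul_conj', hy]; simp
  rw [e, norm_mul, Complex.norm_conj, hy, mul_one]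

theorem norm_ek (hA : 2 ≤ A) (k : ℤ) (hv : v ≠ 0) : ‖ek A k v‖ = 1 := by
  rw [ek, norm_zpow, norm_uu hA hv, one_zpow]

theorem norm_ek_le (hA : 2 ≤ A) (k : ℤ) (v : V2) : ‖ek A k v‖ ≤ 1 := by
  rcases eq_or_ne v 0 with rfl | hv
  · rcases eq_or_ne k 0 with rfl | hk
    · simp [ek]
    · simp [ek, uu_zero, zero_zpow k hk]
  · exact (norm_ek hA k hv).le

theorem ek_zero (v : V2) : ek A 0 v = 1 := zpow_zero _

theorem ek_e (k : ℤ) : ek A k (1, 0) = 1 := by rw [ek, uu_e, one_zpow]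

theorem ek_mul (hA : 2 ≤ A) (k : ℤ) (v w : V2) : ek A k (mul A v w) = ek A k v * ek A k w := by
  rw [ek, ek, ek, uu_mul hA, mul_zpow]

theorem ek_smul {c : ℤ} (hc : c ≠ 0) (k : ℤ) (v : V2) : ek A k (c • v) = ek A k v := by
  rw [ek, ek, uu_smul hc]

theorem ek_cj (k : ℤ) (v : V2) : ek A k (cj v) = (starRingEnd ℂ) (ek A k v) := by
  rw [ek, ek, uu_cj, map_zpow₀]

theorem ek_pv (hA : 2 ≤ A) (k : ℤ) (s : Multiset V2) :
    ek A k (pv A s) = (s.map (ek A k)).prod := by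
  induction s using Multiset.induction_on with
  | empty => simp [pv_zero, ek_e]
  | cons g s ih => rw [pv_cons, ek_mul hA, ih, Multiset.map_cons, Multiset.prod_cons]

theorem ek_zpow (k j : ℤ) (v : V2) : ek A k v ^ j = ek A (k * j) v := (zpow_mul _ _ _).symm

theorem ek_mul_conj (hA : 2 ≤ A) (k j : ℤ) (hv : v ≠ 0) :
    ek A k v * (starRingEnd ℂ) (ek A j v) = ek A (k - j) v := by
  rw [← Complex.inv_eq_conj (norm_ek hA j hv), ek, ek, ek, zpow_sub₀ (uu_ne hA hv), div_eq_mul_inv]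

theorem norm_zpow_sub {x y : ℂ} (hx : ‖x‖ = 1) (hy : ‖y‖ = 1) (k : ℤ) :
    ‖x ^ k - y ^ k‖ ≤ |(k : ℝ)| * ‖x - y‖ := by
  have h : ∀ n : ℕ, ‖x ^ n - y ^ n‖ ≤ n * ‖x - y‖ := fun n => by
    induction n with
    | zero => simp
    | succ n ih =>
      have e : x ^ (n + 1) - y ^ (n + 1) = x * (x ^ n - y ^ n) + (x - y) * y ^ n := by ring
      have := norm_add_le (x * (x ^ n - y ^ n)) ((x - y) * y ^ n)
      rw [← e, norm_mul, norm_mul, norm_pow, hx, hy, one_pow] at this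
      push_cast
      linarith
  obtain ⟨n, rfl | rfl⟩ := k.eq_nat_or_neg
  · simpa using h n
  · rw [zpow_neg, zpow_neg, zpow_natCast, zpow_natCast,
      Complex.inv_eq_conj (by rw [norm_pow, hx, one_pow]),
      Complex.inv_eq_conj (by rw [norm_pow, hy, one_pow]), ← map_sub, Complex.norm_conj]
    simpa using h n

theorem lam_prime {p : ℕ} (hp : p.Prime) : lam p = -1 := by
  simp [lam, ArithmeticFunction.cardFactors_apply_prime hp]

theorem fl_cases (v : V2) : fl A v = 1 ∨ fl A v = -1 := lam_cases _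

theorem fl_sq (v : V2) : fl A v * fl A v = 1 := lam_sq _

theorem abs_fl (v : V2) : |fl A v| = 1 := abs_lam _

theorem norm_fl (v : V2) : ‖(fl A v : ℂ)‖ = 1 := by rw [Complex.norm_real, Real.norm_eq_abs, abs_fl]

theorem fl_e : fl A (1, 0) = 1 := by simp [fl, nq, lam]

theorem fl_mul (hA : 2 ≤ A) (hv : v ≠ 0) (hw : w ≠ 0) : fl A (mul A v w) = fl A v * fl A w := by
  rw [fl, nq_mul, lam_mul (nq_pos hA hv).ne' (nq_pos hA hw).ne', fl, fl]

theorem fl_eq_iff (v w : V2) : fl A v = fl A w ↔ et A v = et A w := by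
  rw [fl, fl, lam, lam, et, et, ZMod.natCast_eq_natCast_iff', neg_one_pow_eq_pow_mod_two,
    neg_one_pow_eq_pow_mod_two (ArithmeticFunction.cardFactors (nq A w).natAbs)]
  rcases Nat.mod_two_eq_zero_or_one (ArithmeticFunction.cardFactors (nq A v).natAbs) with h | h <;>
    rcases Nat.mod_two_eq_zero_or_one (ArithmeticFunction.cardFactors (nq A w).natAbs) with
      h' | h' <;> rw [h, h'] <;> norm_num

theorem fl_smul {c : ℤ} (hc : c ≠ 0) (v : V2) : fl A (c • v) = fl A v :=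
  (fl_eq_iff _ _).2 (et_smul hc v)

theorem KF_nonneg (n : ℕ) (z : ℂ) : 0 ≤ KF n z := by unfold KF; positivity

theorem bd_KT {X L : ℝ} (h : 0 ≤ X / L) : Bd (KT X L) (X / L) := fun k hk => by
  have h1 : |k| ≤ (⌊X / L⌋₊ : ℤ) := abs_le.2 (mem_Icc.1 hk)
  have h2 : |(k : ℝ)| ≤ (⌊X / L⌋₊ : ℝ) := by exact_mod_cast h1
  exact h2.trans (Nat.floor_le h)

theorem Bd.mono {K K' : Finset ℤ} {T T' : ℝ} (h : Bd K T) (h1 : K' ⊆ K) (h2 : T ≤ T') : Bd K' T' :=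
  fun k hk => (h k (h1 hk)).trans h2

theorem dis_nonneg (W : Finset V2) (U : Finset ℤ) (d : ℤ → ℂ) : 0 ≤ dis A W U d :=
  sum_nonneg fun _ _ => by positivity

theorem rho_le_two {p : ℕ} (hp : p.Prime) : rho A p ≤ 2 := by
  have := Fact.mk hp
  by_contra h
  obtain ⟨a, ha, b, hb, c, hc, h1, h2, h3⟩ := two_lt_card.1 (not_le.1 h)
  simp only [mem_filter, mem_range, ← ZMod.natCast_eq_zero_iff] at ha hb hc
  have ne : ∀ x y : ℕ, x < p → y < p → x ≠ y → (x : ZMod p) - y ≠ 0 := fun x y hx hy hxy e => by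
    rw [sub_eq_zero, ZMod.natCast_eq_natCast_iff', Nat.mod_eq_of_lt hx, Nat.mod_eq_of_lt hy] at e
    exact hxy e
  have e1 := ha.2
  have e2 := hb.2
  have e3 := hc.2
  push_cast at e1 e2 e3
  have f1 : (a : ZMod p) + b + 1 = 0 :=
    (mul_eq_zero.1 (by linear_combination e1 - e2)).resolve_left (ne a b ha.1 hb.1 h1)
  have f2 : (a : ZMod p) + c + 1 = 0 :=
    (mul_eq_zero.1 (by linear_combination e1 - e3)).resolve_left (ne a c ha.1 hc.1 h2)
  exact ne b c hb.1 hc.1 h3 (by linear_combination f1 - f2)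

theorem Gp.ne {β p : ℕ} {γ : ℕ → V2} (h : Gp A β γ p) (hβ : 1 ≤ β) : γ p ≠ 0 :=
  ne_zero_of_nq (A := A) (by
    rw [h.2.2]
    exact_mod_cast (Nat.mul_pos hβ h.1.pos).ne')

theorem not_dvd_of_nq {β p : ℕ} {g : V2} (h1 : 1 ≤ β) (h2 : β < p) (h : nq A g = β * p) :
    ¬((p : ℤ) ∣ g.1 ∧ (p : ℤ) ∣ g.2) := by
  rintro ⟨⟨a, ha⟩, b, hb⟩
  have hp : (0 : ℤ) < p := by omega
  have : (p : ℤ) ∣ β := ⟨nq A (a, b), mul_left_cancel₀ hp.ne' (by
    simp only [nq, ha, hb] at h ⊢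
    linear_combination -h)⟩
  have := Int.le_of_dvd (by omega) this
  omega

theorem Blk.card_le {β : ℕ} {γ : ℕ → V2} {I : Finset ℕ} {P : ℝ} (h : Blk A β γ I P) :
    (I.card : ℝ) ≤ 2 * P := by
  have h0 : 0 ≤ 2 * P := by linarith [h.2.2.1]
  have : I ⊆ Icc 1 ⌊2 * P⌋₊ := fun p hp =>
    mem_Icc.2 ⟨(h.2.2.2 p hp).1.1.pos, Nat.le_floor (h.2.2.2 p hp).2.2⟩
  have := card_le_card this
  rw [Nat.card_Icc, Nat.add_sub_cancel] at this
  exact le_trans (by exact_mod_cast this) (Nat.floor_le h0)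

namespace St

variable {σ : St} {p h : ℕ}

theorem mem_I : p ∈ σ.I h ↔ p ∈ σ.S ∧ σ.blk p = h := mem_filter

theorem mem_W (hA : 2 ≤ A) {X : ℝ} : v ∈ σ.W A X h ↔
    (σ.β * X / σ.Ph h < (nq A v : ℝ) ∧ (nq A v : ℝ) ≤ 2 * σ.β * X / σ.Ph h) ∧ σ.Lam A v := by
  rw [W, mem_filter, mem_An0 hA]

theorem sg_sq : σ.sg * σ.sg = 1 := by rw [sg, neg_mul_neg, lam_sq]

theorem abs_sg : |σ.sg| = 1 := by rw [sg, abs_neg, abs_lam]

theorem E_nonneg : 0 ≤ σ.E := sum_nonneg fun _ _ => by positivity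

theorem om_eq (v : V2) : σ.om A v = ∑ p ∈ σ.S, ind (Dv A p (cj (σ.γ p)) v) := by
  rw [om, card_filter]
  push_cast
  exact sum_congr rfl fun p _ => by split_ifs with h <;> simp [ind, h]

theorem om_nonneg (v : V2) : 0 ≤ σ.om A v := Nat.cast_nonneg _

theorem mu_nonneg (X : ℝ) (v : V2) : 0 ≤ σ.mu A X v := sum_nonneg fun _ _ => ind_nonneg _

theorem ab_nonneg (X : ℝ) (v : V2) : 0 ≤ σ.ab A X v :=
  add_nonneg (add_nonneg (mul_nonneg (ind_nonneg _) (abs_nonneg _))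
    (mul_nonneg (ind_nonneg _) (om_nonneg v))) (mu_nonneg X v)

namespace OK

variable (H : σ.OK A)
include H

theorem gp (hp : p ∈ σ.S) : Gp A σ.β σ.γ p := (H.2.2.2.2.2 p hp).1

theorem ne (hp : p ∈ σ.S) : σ.γ p ≠ 0 := (H.gp hp).ne H.1

theorem lt (hp : p ∈ σ.S) : σ.β < p := H.2.1.trans_lt (H.gp hp).2.1

theorem not_dvd (hp : p ∈ σ.S) : ¬((p : ℤ) ∣ (σ.γ p).1 ∧ (p : ℤ) ∣ (σ.γ p).2) :=
  not_dvd_of_nq H.1 (H.lt hp) (H.gp hp).2.2

theorem not_dvd_cj (hp : p ∈ σ.S) : ¬((p : ℤ) ∣ (cj (σ.γ p)).1 ∧ (p : ℤ) ∣ (cj (σ.γ p)).2) :=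
  not_dvd_of_nq H.1 (H.lt hp) ((nq_cj _).trans (H.gp hp).2.2)

theorem dvd_nq (hp : p ∈ σ.S) : (p : ℤ) ∣ nq A (σ.γ p) := (H.gp hp).2.2 ▸ Dvd.intro_left _ rfl

theorem one_le_Q : 1 ≤ σ.Q := H.2.2.1.trans H.2.2.2.1

theorem P_le_Ph (h : ℕ) : σ.P ≤ σ.Ph h := by
  have h1 := H.2.2.1
  have h2 := H.2.2.2.2.1
  exact le_mul_of_one_le_right (by linarith) (one_le_exp (by positivity))

theorem one_le_Ph (h : ℕ) : 1 ≤ σ.Ph h := H.2.2.1.trans (H.P_le_Ph h)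

theorem Ph_pos (h : ℕ) : 0 < σ.Ph h := one_pos.trans_le (H.one_le_Ph h)

theorem Ph_le_of {x : ℝ} (hx : σ.P ≤ x) (hh : h ≤ ⌊σ.H * log (x / σ.P)⌋₊) : σ.Ph h ≤ x := by
  have h1 := H.2.2.1
  have h2 := H.2.2.2.2.1
  have h3 : 1 ≤ x / σ.P := (one_le_div (by linarith)).2 hx
  have h4 : (h : ℝ) ≤ σ.H * log (x / σ.P) :=
    (Nat.le_floor_iff (mul_nonneg (by linarith) (log_nonneg h3))).1 hh
  have h5 : exp (h / σ.H) ≤ x / σ.P :=
    (le_log_iff_exp_le (by linarith)).1 ((div_le_iff₀' (by linarith)).2 h4)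
  rwa [le_div_iff₀' (by linarith)] at h5

theorem Ph_le (hp : p ∈ σ.S) : σ.Ph (σ.blk p) ≤ p := H.Ph_le_of (H.2.2.2.2.2 p hp).2.1.le le_rfl

theorem Ph_le_Q (hh : h < σ.nb) : σ.Ph h ≤ σ.Q := H.Ph_le_of H.2.2.2.1 (Nat.lt_succ_iff.1 hh)

theorem le_Ph (hp : p ∈ σ.S) : (p : ℝ) ≤ exp (1 / σ.H) * σ.Ph (σ.blk p) := by
  have h1 := H.2.2.1
  have h2 := H.2.2.2.2.1
  have h3 := (H.2.2.2.2.2 p hp).2.1
  have h4 : σ.H * log (p / σ.P) < σ.blk p + 1 := Nat.lt_floor_add_one _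
  have h5 : p / σ.P ≤ exp ((σ.blk p + 1) / σ.H) :=
    (log_le_iff_le_exp (div_pos (by linarith) (by linarith))).1
      ((le_div_iff₀' (by linarith)).2 h4.le)
  rw [div_le_iff₀ (by linarith), add_div, exp_add] at h5
  rw [Ph]
  linarith

theorem exp_le : exp (1 / σ.H) ≤ 1 + 2 / σ.H := by
  have h2 := H.2.2.2.2.1
  have h3 : 0 ≤ 1 / σ.H := by positivity
  have h4 : 1 / σ.H ≤ 1 := (div_le_one (by linarith)).2 (by linarith)
  have := abs_exp_sub_one_le (x := 1 / σ.H) (by rwa [abs_of_nonneg h3])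
  rw [abs_of_nonneg h3] at this
  have h5 : 2 / σ.H = 2 * (1 / σ.H) := by ring
  linarith [le_abs_self (exp (1 / σ.H) - 1)]

theorem exp_le_two : exp (1 / σ.H) ≤ 2 := by
  have h2 := H.2.2.2.2.1
  have : 2 / σ.H ≤ 1 := (div_le_one (by linarith)).2 h2
  linarith [H.exp_le]

theorem le_two_Ph (hp : p ∈ σ.S) : (p : ℝ) ≤ 2 * σ.Ph (σ.blk p) :=
  (H.le_Ph hp).trans (mul_le_mul_of_nonneg_right H.exp_le_two (H.Ph_pos _).le)

theorem blk_lt (hp : p ∈ σ.S) : σ.blk p < σ.nb := by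
  have h1 := H.2.2.1
  have h2 := H.2.2.2.2.1
  obtain ⟨-, h3, h4, -⟩ := H.2.2.2.2.2 p hp
  refine Nat.lt_succ_of_le (Nat.floor_le_floor ?_)
  gcongr
  exact div_pos (by linarith) (by linarith)

theorem sum_blk {M : Type} [AddCommMonoid M] (g : ℕ → M) :
    ∑ h ∈ range σ.nb, ∑ p ∈ σ.I h, g p = ∑ p ∈ σ.S, g p :=
  sum_fiberwise_of_maps_to (fun _ hp => mem_range.2 (H.blk_lt hp)) g

theorem G_eq_zero (hh : σ.nb ≤ h) (k : ℤ) : σ.G A h k = 0 :=
  sum_eq_zero fun p hp => by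
    have := H.blk_lt (mem_I.1 hp).1
    have := (mem_I.1 hp).2
    omega

theorem blk_I (h : ℕ) : Blk A σ.β σ.γ (σ.I h) (σ.Ph h) :=
  ⟨H.1, H.2.1, H.one_le_Ph h, fun p hp => by
    obtain ⟨h1, rfl⟩ := mem_I.1 hp
    exact ⟨H.gp h1, H.Ph_le h1, H.le_two_Ph h1⟩⟩

theorem sm_W (hA : 2 ≤ A) {X : ℝ} (hX : 0 ≤ X) (h : ℕ) :
    Sm A (σ.W A X h) (8 * A * X / σ.Ph h) := fun u hu => by
  obtain ⟨⟨-, h2⟩, h3, -⟩ := (mem_W hA).1 hu
  have h4 := H.1
  have h5 : (σ.β : ℝ) ≤ 4 * A := by exact_mod_cast H.2.1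
  refine ⟨?_, (Nat.le_of_dvd h4 h3).trans H.2.1, h2.trans ?_⟩
  · rintro rfl
    simp at h3
    omega
  · exact div_le_div_of_nonneg_right (by nlinarith) (H.Ph_pos h).le

theorem card_le : (σ.S.card : ℝ) ≤ σ.Q := by
  have : σ.S ⊆ Icc 1 ⌊σ.Q⌋₊ := fun p hp =>
    mem_Icc.2 ⟨(H.gp hp).1.pos, Nat.le_floor (H.2.2.2.2.2 p hp).2.2.1⟩
  have := card_le_card this
  rw [Nat.card_Icc, Nat.add_sub_cancel] at this
  exact le_trans (by exact_mod_cast this) (Nat.floor_le (by linarith [H.one_le_Q]))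

theorem nb_le_log : (σ.nb : ℝ) ≤ σ.H * log σ.Q + 1 := by
  have h1 := H.2.2.1
  have h2 := H.2.2.2.2.1
  have h3 : 1 ≤ σ.Q / σ.P := (one_le_div (by linarith)).2 H.2.2.2.1
  have h4 := Nat.floor_le (mul_nonneg (show 0 ≤ σ.H by linarith) (log_nonneg h3))
  have h5 : log (σ.Q / σ.P) ≤ log σ.Q :=
    log_le_log (by linarith) (div_le_self (by linarith [H.one_le_Q]) h1)
  rw [nb]
  push_cast
  nlinarith

theorem nb_le {μ : ℝ} (hμ : σ.Pm μ) : (σ.nb : ℝ) ≤ 2 * μ ^ 11 := by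
  have h1 := H.nb_le_log
  have h2 := H.2.2.2.2.1
  rw [hμ.2.1, log_exp] at h1
  rw [hμ.2.2] at h1 h2
  have : 1 ≤ μ ^ 11 := one_le_pow₀ (by linarith)
  linarith [show μ ^ 11 = μ * μ ^ 10 by ring]

end OK

end St

end Pool.Agent.P.MP_8be758_nt.Pd.Mr
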