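import Pool.Agent.P.MP_8be758_nt.Pd.DefsT

/-! Membership lemmas for the transfer theorem. -/

namespace Pool.Agent.P.MP_8be758_nt.Pd

open Finset Real
open Pool.Agent.P.MP_8be758_nt.Par (det)

theorem fin_SD (ρ : Pr) (q : ℕ × ℕ × ℕ) {D1 D2 : ℕ} (h1 : 0 < D1) (h2 : 0 < D2) :
    {σ : Sd | (σ.q1, σ.q3, σ.q4) = q ∧ ρ.SA D1 D2 σ}.Finite := by
  set N := D1 * q.2.1 + D1 * D2 * q.1 + D1 + D2
  let f : (ℕ × ℕ × ℕ × ℕ × ℕ × ℕ) → Sd := fun v =>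
    ⟨q.1, q.2.1, q.2.2, v.1, v.2.1, v.2.2.1, v.2.2.2.1, v.2.2.2.2.1, v.2.2.2.2.2⟩
  have hI := Set.finite_Iic N
  refine ((hI.prod (hI.prod (hI.prod (hI.prod (hI.prod hI))))).image f).subset ?_
  rintro ⟨q1, q3, q4, e1, a1, e2, a2, s, t⟩ ⟨rfl, b1, b2, b3, b4, -, b6, -⟩
  simp only [Sd.E1, Sd.E2, Sd.a] at *
  have c1 := Nat.le_of_dvd h1 (dvd_of_mul_right_dvd b1)
  have c2 := Nat.le_of_dvd h1 (dvd_of_mul_left_dvd b1)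
  have c3 := Nat.le_of_dvd h2 (dvd_of_mul_right_dvd b2)
  have c4 := Nat.le_of_dvd h2 (dvd_of_mul_left_dvd b2)
  have c5 := Nat.le_of_dvd h1 b1
  have ht : 0 < t := Nat.pos_of_ne_zero fun e => by simp [e] at b3
  have hE : 0 < e2 * q4 := Nat.pos_of_ne_zero fun e => by simp [e] at b3
  have d1 : t ≤ D1 * q3 := by
    calc t ≤ t * (e2 * q4) := Nat.le_mul_of_pos_right _ hE
      _ ≤ e1 * a1 * q3 := b4.trans_eq (by ring)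
      _ ≤ _ := Nat.mul_le_mul_right _ c5
  have d2 : s ≤ D1 * D2 * q1 := by
    calc s ≤ s * t := Nat.le_mul_of_pos_right _ ht
      _ ≤ a1 * a2 * q1 := by omega
      _ ≤ _ := Nat.mul_le_mul_right _ (Nat.mul_le_mul c2 c4)
  refine ⟨(e1, a1, e2, a2, s, t), ?_, rfl⟩
  simp only [Set.mem_prod, Set.mem_Iic, N]
  omega

theorem mem_SD {ρ : Pr} {q : ℕ × ℕ × ℕ} {D1 D2 : ℕ} (h1 : 0 < D1) (h2 : 0 < D2) {σ : Sd} :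
    σ ∈ ρ.SD q D1 D2 ↔ (σ.q1, σ.q3, σ.q4) = q ∧ ρ.SA D1 D2 σ := mem_fs (fin_SD ρ q h1 h2)

theorem prime_of_PP {w y : ℝ} {p : ℕ} (h : p ∈ PP w y) : p.Prime := (mem_filter.1 h).2.1

theorem lt_of_PP {w y : ℝ} {p : ℕ} (h : p ∈ PP w y) : w < p := (mem_filter.1 h).2.2

theorem fl_pos (ρ : Pr) (m : ℤ) : 0 < ρ.fl m :=
  prod_pos fun _ hp => (prime_of_PP (mem_filter.1 hp).1).pos

theorem mem_pf {ρ : Pr} {m : ℤ} {p : ℕ} : p ∈ ρ.pf m ↔ p ∈ ρ.Ps ∧ (p : ℤ) ∣ m := mem_filter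

theorem mem_Tu {ρ : Pr} {τ : G4 × Sd} : τ ∈ ρ.Tu ↔ ρ.IsTu τ := by
  refine mem_fs (Set.Finite.subset (Set.Finite.biUnion (ρ.E.finite_toSet.prod
    (ρ.I1 ×ˢ ρ.I3 ×ˢ ρ.I4).finite_toSet) fun v _ => (Set.finite_singleton v.1).prod
      (fin_SD ρ v.2 (fl_pos ρ (ρ.fm v.1).1) (fl_pos ρ (ρ.fm v.1).2.2))) fun τ hτ => ?_)
  obtain ⟨h1, -, h3, -, h5, -⟩ := hτ
  simp only [Set.mem_iUnion]
  exact ⟨(τ.1, τ.2.q1, τ.2.q3, τ.2.q4), ⟨h1, by simpa [Pr.QR] using h3⟩, rfl, rfl, h5⟩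

theorem mem_Tg {ρ : Pr} {τ : G4 × Sd} : τ ∈ ρ.Tg ↔ ρ.IsTu τ ∧ ρ.Gd (ρ.cy τ) := by
  simp only [Pr.Tg, mem_filter, mem_Tu]

theorem mem_SR {a : ℤ} {T C0 : ℝ} (h : 0 < T / C0) {v : V2} : v ∈ SR a T C0 ↔
    T / C0 ≤ |(v.2 : ℝ)| ∧ |(v.2 : ℝ)| ≤ C0 * T ∧ |v.1 * v.2| ≤ a ∧ a ≤ 2 * (a - v.1 * v.2) ∧
      IsCoprime v.2 (a - v.1 * v.2) := by
  refine mem_fs (((Set.finite_Icc (-a) a).prod (Set.finite_Icc (-⌈C0 * T⌉) ⌈C0 * T⌉)).subset ?_)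
  rintro ⟨s, t⟩ ⟨h1, h2, h3, -⟩
  have ht : t ≠ 0 := fun e => by simp [e] at h1; linarith
  refine ⟨abs_le.1 (le_trans ?_ h3), abs_le.1 ?_⟩
  · rw [abs_mul]
    exact le_mul_of_one_le_right (abs_nonneg _) (Int.one_le_abs ht)
  · exact_mod_cast (show ((|t| : ℤ) : ℝ) ≤ (⌈C0 * T⌉ : ℤ) by
      push_cast; exact h2.trans (Int.le_ceil _))

theorem DA_pos {ρ : Pr} {D1 D2 : ℕ} (h : ρ.DA D1 D2) : 0 < D1 ∧ 0 < D2 := by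
  have := h.1.ne_zero
  exact ⟨Nat.pos_of_ne_zero (left_ne_zero_of_mul this), Nat.pos_of_ne_zero (right_ne_zero_of_mul this)⟩

theorem St.Big.mono {z : St} {c c' : ℕ} (h : z.Big c') (hc : c ≤ c') : z.Big c := by
  obtain ⟨h1, h2, h3, h4, h5, h6, h7, h8, h9, h10, h11, h12, h13⟩ := h
  exact ⟨h1, h2, h3, h4, hc.trans h5, hc.trans h6, h7, (Nat.mul_le_mul_right _ hc).trans h8, h9,
    (Nat.mul_le_mul_right _ hc).trans h10, h11, h12, (Nat.mul_le_mul_right _ hc).trans h13⟩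

theorem act_modEq (ψ : Fm) {m : ℕ} {g h : G4} (e : C4 m g h) :
    (act ψ g).1 ≡ (act ψ h).1 [ZMOD m] ∧ (act ψ g).2.1 ≡ (act ψ h).2.1 [ZMOD m] ∧
      (act ψ g).2.2 ≡ (act ψ h).2.2 [ZMOD m] := by
  obtain ⟨⟨e1, e2⟩, e3, e4⟩ := e
  simp only [act, ev, bl]
  refine ⟨?_, ?_, ?_⟩ <;> gcongr

theorem ev_act_modEq (ψ : Fm) {m : ℕ} {g h : G4} (e : C4 m g h) (u : V2) :
    ev (act ψ g) u ≡ ev (act ψ h) u [ZMOD m] := by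
  obtain ⟨e1, e2, e3⟩ := act_modEq ψ e
  simp only [ev]
  gcongr

theorem dvd_iff_of_modEq {m : ℕ} {a b d : ℤ} (e : a ≡ b [ZMOD m]) (hd : d ∣ m) : d ∣ a ↔ d ∣ b :=
  (e.of_dvd hd).dvd_iff

end Pool.Agent.P.MP_8be758_nt.Pd
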