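import Pool.Agent.P.MP_8be758_nt.Pd.Defs

/-! Basic facts: membership, algebraic identities, averages. -/

namespace Pool.Agent.P.MP_8be758_nt.Pd

open Finset Real
open ArithmeticFunction (cardFactors)
open Pool.Agent.P.MP_8be758_nt.Par (det nq)

theorem mem_fs {α : Type} {S : Set α} (h : S.Finite) {x : α} : x ∈ fs S ↔ x ∈ S := by
  simp [fs, h]

theorem lam_mul {a b : ℤ} (ha : a ≠ 0) (hb : b ≠ 0) : lam (a * b) = lam a * lam b := by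
  unfold lam
  rw [Int.natAbs_mul, ArithmeticFunction.cardFactors_mul (by simpa) (by simpa), pow_add]

theorem lam_cases (a : ℤ) : lam a = 1 ∨ lam a = -1 := neg_one_pow_eq_or ℝ _

theorem lam_sq (a : ℤ) : lam a * lam a = 1 := by rcases lam_cases a with h | h <;> simp [h]

theorem abs_lam (a : ℤ) : |lam a| = 1 := by rcases lam_cases a with h | h <;> simp [h]

theorem ev_Q0 (A : ℕ) (v : V2) : ev (Q0 A) v = nq A v := by simp [ev, Q0, nq]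

theorem isF_Q0 (A : ℕ) : IsF A (Q0 A) := ⟨by simp [Q0], by simp [Q0]⟩

theorem Q0_mem {A : ℕ} (hA : 1 ≤ A) : Q0 A ∈ Red A := by
  have : (1 : ℤ) ≤ A := by exact_mod_cast hA
  simp only [Red, mem_filter, mem_product, mem_Icc]
  refine ⟨⟨?_, ?_, ?_⟩, isF_Q0 A⟩ <;> simp only [Q0] <;> constructor <;> linarith

theorem ev_act (ψ : Fm) (g : G4) (u : V2) : ev (act ψ g) u = ev ψ (ap g u) := by
  simp only [ev, act, bl, ap]; ring

theorem act_rm (ψ : Fm) (g h : G4) : act ψ (rm g h) = act (act ψ g) h := by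
  simp only [act, rm, ev, bl, ap, Prod.mk.injEq]
  refine ⟨by ring, by ring, by ring⟩

theorem det_ap (g : G4) (u u' : V2) : det (ap g u) (ap g u') = det g.1 g.2 * det u u' := by
  simp only [det, ap]; ring

theorem disc_eq (ψ : Fm) (v w : V2) : bl ψ v w ^ 2 - 4 * ev ψ v * ev ψ w =
    (ψ.2.1 ^ 2 - 4 * ψ.1 * ψ.2.2) * det v w ^ 2 := by
  simp only [ev, bl, det]; ring

theorem four_mul_ev (ψ : Fm) (v : V2) : 4 * ψ.1 * ev ψ v =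
    (2 * ψ.1 * v.1 + ψ.2.1 * v.2) ^ 2 - (ψ.2.1 ^ 2 - 4 * ψ.1 * ψ.2.2) * v.2 ^ 2 := by
  simp only [ev]; ring

theorem four_mul_ev' (ψ : Fm) (v : V2) : 4 * ψ.2.2 * ev ψ v =
    (ψ.2.1 * v.1 + 2 * ψ.2.2 * v.2) ^ 2 - (ψ.2.1 ^ 2 - 4 * ψ.1 * ψ.2.2) * v.1 ^ 2 := by
  simp only [ev]; ring

variable {A : ℕ} {ψ : Fm}

theorem IsF.third_pos (hA : 1 ≤ A) (h : IsF A ψ) : 0 < ψ.2.2 := by
  have h1 : (1 : ℤ) ≤ A := by exact_mod_cast hA
  by_contra hn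
  have := mul_nonneg h.2.le (neg_nonneg.2 (not_lt.1 hn))
  nlinarith [h.1, sq_nonneg ψ.2.1]

theorem IsF.sq_le (hA : 1 ≤ A) (h : IsF A ψ) (v : V2) :
    3 * v.1 ^ 2 ≤ 4 * ψ.2.2 * ev ψ v ∧ 3 * v.2 ^ 2 ≤ 4 * ψ.1 * ev ψ v := by
  have h1 : (1 : ℤ) ≤ A := by exact_mod_cast hA
  rw [four_mul_ev, four_mul_ev', h.1]
  constructor <;> nlinarith [sq_nonneg (2 * ψ.1 * v.1 + ψ.2.1 * v.2), sq_nonneg v.1, sq_nonneg v.2,
    sq_nonneg (ψ.2.1 * v.1 + 2 * ψ.2.2 * v.2), mul_nonneg (sub_nonneg.2 h1) (sq_nonneg v.1),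
    mul_nonneg (sub_nonneg.2 h1) (sq_nonneg v.2)]

theorem IsF.ev_nonneg (hA : 1 ≤ A) (h : IsF A ψ) (v : V2) : 0 ≤ ev ψ v := by
  have h1 := (h.sq_le hA v).2
  by_contra hn
  nlinarith [h.2, sq_nonneg v.2, mul_pos h.2 (neg_pos.2 (not_le.1 hn))]

theorem IsF.ev_pos (hA : 1 ≤ A) (h : IsF A ψ) {v : V2} (hv : v ≠ 0) : 0 < ev ψ v := by
  rcases (h.ev_nonneg hA v).lt_or_eq with h0 | h0
  · exact h0
  obtain ⟨h1, h2⟩ := h.sq_le hA v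
  rw [← h0] at h1 h2
  exact absurd (Prod.ext (by nlinarith [sq_nonneg v.1] : v.1 = 0)
    (by nlinarith [sq_nonneg v.2] : v.2 = 0)) hv

theorem IsF.act (hA : 1 ≤ A) (h : IsF A ψ) {g : G4} (hg : det g.1 g.2 = 1) : IsF A (act ψ g) := by
  refine ⟨by simp only [Pd.act]; rw [disc_eq, h.1, hg]; ring, h.ev_pos hA fun e => ?_⟩
  simp [det, e] at hg

theorem IsF.fin (hA : 1 ≤ A) (h : IsF A ψ) (Y : ℝ) : {v : V2 | (ev ψ v : ℝ) ≤ Y}.Finite := by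
  set N : ℤ := 4 * (ψ.1 + ψ.2.2) * max ⌈Y⌉ 0
  refine ((Set.finite_Icc (-N) N).prod (Set.finite_Icc (-N) N)).subset fun v hv => ?_
  have h0 : ev ψ v ≤ max ⌈Y⌉ 0 :=
    le_max_of_le_left (by exact_mod_cast (hv.trans (Int.le_ceil Y) : (ev ψ v : ℝ) ≤ _))
  obtain ⟨h1, h2⟩ := h.sq_le hA v
  have h3 := h.third_pos hA
  have h4 := h.2
  have h5 := h.ev_nonneg hA v
  have e1 : 4 * ψ.2.2 * ev ψ v ≤ N := by
    have := mul_le_mul (show 4 * ψ.2.2 ≤ 4 * (ψ.1 + ψ.2.2) by linarith) h0 h5 (by linarith)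
    exact this
  have e2 : 4 * ψ.1 * ev ψ v ≤ N := by
    have := mul_le_mul (show 4 * ψ.1 ≤ 4 * (ψ.1 + ψ.2.2) by linarith) h0 h5 (by linarith)
    exact this
  refine ⟨⟨?_, ?_⟩, ?_, ?_⟩ <;> nlinarith [sq_nonneg (v.1 + 1), sq_nonneg (v.1 - 1),
    sq_nonneg (v.2 + 1), sq_nonneg (v.2 - 1), sq_nonneg v.1, sq_nonneg v.2]

theorem mem_An (hA : 1 ≤ A) (h : IsF A ψ) {N1 N2 : ℝ} {v : V2} :
    v ∈ An ψ N1 N2 ↔ N1 < (ev ψ v : ℝ) ∧ (ev ψ v : ℝ) ≤ N2 :=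
  mem_fs ((h.fin hA N2).subset fun _ hv => hv.2)

theorem mem_VV (hA : 1 ≤ A) (h : IsF A ψ) {N1 N2 : ℝ} {v : V2} :
    v ∈ VV ψ N1 N2 ↔ IsCoprime v.1 v.2 ∧ N1 < (ev ψ v : ℝ) ∧ (ev ψ v : ℝ) ≤ N2 :=
  mem_fs ((h.fin hA N2).subset fun _ hv => hv.2.2)

theorem mem_GG (hA : 1 ≤ A) (h : IsF A ψ) {Z β1 β2 : ℝ} {g : G4} :
    g ∈ GG ψ Z β1 β2 ↔ det g.1 g.2 = 1 ∧ Z < (ev ψ g.1 : ℝ) ∧ (ev ψ g.1 : ℝ) ≤ 2 * Z ∧
    β1 * (ev ψ g.1 : ℝ) < (bl ψ g.1 g.2 : ℝ) ∧ (bl ψ g.1 g.2 : ℝ) ≤ β2 * (ev ψ g.1 : ℝ) := by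
  refine mem_fs (((h.fin hA (2 * Z)).prod
    (h.fin hA (((|β1| + |β2|) * (2 * Z)) ^ 2 + 4 * A))).subset fun g hg => ⟨hg.2.2.1, ?_⟩)
  obtain ⟨h1, -, h3, h4, h5⟩ := hg
  have hF := h.act hA h1
  have p1 : (1 : ℝ) ≤ (ev ψ g.1 : ℝ) := by exact_mod_cast hF.2
  have p2 : (0 : ℝ) ≤ (ev ψ g.2 : ℝ) := by exact_mod_cast h.ev_nonneg hA g.2
  have e : (bl ψ g.1 g.2 : ℝ) ^ 2 - 4 * (ev ψ g.1 : ℝ) * (ev ψ g.2 : ℝ) = 1 - 4 * A := by
    exact_mod_cast hF.1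
  have b1 : |(bl ψ g.1 g.2 : ℝ)| ≤ (|β1| + |β2|) * (2 * Z) := by
    have a1 := mul_le_mul (le_abs_self β2) h3 (by linarith) (abs_nonneg β2)
    have a2 := mul_le_mul (neg_le_abs β1) h3 (by linarith) (abs_nonneg β1)
    have a3 := mul_nonneg (abs_nonneg β1) (show 0 ≤ 2 * Z by linarith)
    have a4 := mul_nonneg (abs_nonneg β2) (show 0 ≤ 2 * Z by linarith)
    rw [abs_le]
    constructor <;> nlinarith
  have b2 := pow_le_pow_left₀ (abs_nonneg _) b1 2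
  rw [sq_abs] at b2
  show (ev ψ g.2 : ℝ) ≤ _
  nlinarith

theorem mem_PP {w y : ℝ} (hy : 0 ≤ y) {p : ℕ} : p ∈ PP w y ↔ p.Prime ∧ w < (p : ℝ) ∧ (p : ℝ) ≤ y := by
  simp only [PP, mem_filter, mem_range, Nat.lt_succ_iff, Nat.le_floor_iff hy]
  tauto

theorem ind_pos {P : Prop} (h : P) : ind P = 1 := by simp [ind, h]

theorem ind_neg {P : Prop} (h : ¬P) : ind P = 0 := by simp [ind, h]

theorem ind_nonneg (P : Prop) : 0 ≤ ind P := by unfold ind; split_ifs <;> norm_num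

theorem ind_le_one (P : Prop) : ind P ≤ 1 := by unfold ind; split_ifs <;> norm_num

theorem ind_and (P Q : Prop) : ind (P ∧ Q) = ind P * ind Q := by
  by_cases h1 : P <;> by_cases h2 : Q <;> simp [ind, h1, h2]

theorem ind_mono {P Q : Prop} (h : P → Q) : ind P ≤ ind Q := by
  by_cases h1 : P
  · rw [ind_pos h1, ind_pos (h h1)]
  · rw [ind_neg h1]; exact ind_nonneg Q

namespace Sys

variable {Ω : Type} (S : Sys Ω) (m : ℕ)

theorem av_mono {f g : Ω → ℝ} (h : ∀ x ∈ S.U m, f x ≤ g x) : S.av m f ≤ S.av m g :=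
  div_le_div_of_nonneg_right (sum_le_sum h) (Nat.cast_nonneg _)

theorem av_nonneg {f : Ω → ℝ} (h : ∀ x, 0 ≤ f x) : 0 ≤ S.av m f :=
  div_nonneg (sum_nonneg fun x _ => h x) (Nat.cast_nonneg _)

theorem av_add (f g : Ω → ℝ) : S.av m (fun x => f x + g x) = S.av m f + S.av m g := by
  simp only [av, sum_add_distrib, add_div]

theorem av_sub (f g : Ω → ℝ) : S.av m (fun x => f x - g x) = S.av m f - S.av m g := by
  simp only [av, sum_sub_distrib, sub_div]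

theorem av_mul (c : ℝ) (f : Ω → ℝ) : S.av m (fun x => c * f x) = c * S.av m f := by
  simp only [av, ← mul_sum, mul_div_assoc]

theorem av_sum {ι : Type} (s : Finset ι) (f : ι → Ω → ℝ) :
    S.av m (fun x => ∑ i ∈ s, f i x) = ∑ i ∈ s, S.av m (f i) := by
  simp only [av]
  rw [sum_comm, sum_div]

theorem av_const (h : (S.U m).Nonempty) (c : ℝ) : S.av m (fun _ => c) = c := by
  have : ((S.U m).card : ℝ) ≠ 0 := by exact_mod_cast h.card_pos.ne'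
  simp only [av, sum_const, nsmul_eq_mul]
  field_simp

end Sys

end Pool.Agent.P.MP_8be758_nt.Pd
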