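import Pool.Agent.P.MP_8be758_nt.Pd.IfT

/-! Further definitions for the edge side of the transfer theorem. -/

namespace Pool.Agent.P.MP_8be758_nt.Pd

open Finset Real
open Pool.Agent.P.MP_8be758_nt.Avg (rho)

noncomputable section

/-- pairs of divisors with product dividing `D` -/
def Asg (D : ℕ) : Finset (ℕ × ℕ) := (D.divisors ×ˢ D.divisors).filter fun v => v.1 * v.2 ∣ D

/-- the datum with given large primes, assignments and pair `(s, t)` -/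
def mkS (q : ℕ × ℕ × ℕ) (α β : ℕ × ℕ) (v : V2) : Sd :=
  ⟨q.1, q.2.1, q.2.2, α.1, α.2, β.1, β.2, v.1.toNat, v.2.toNat⟩

/-- the size of `t` -/
def Sd.T (σ : Sd) : ℝ := (σ.E1 * σ.a1 : ℕ) / (σ.E2 : ℝ)

namespace Pr

variable (ρ : Pr)

/-- local density of an atom -/
def aa (D1 D2 p : ℕ) : ℝ := S4.av (p ^ 2) fun g => al D1 D2 p (ρ.fm g)

/-- mass of the congruence conditions of an atom -/
def Zb (q : ℕ × ℕ × ℕ) (c0 : G4) : ℝ :=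
  ρ.E.card * S4.av (ρ.W ^ 2) (fun g => ind (C4 (ρ.W ^ 2) g c0)) *
    (S4.av (q.1 ^ 2) (fun g => ind ((q.1 : ℤ) ∣ (ρ.fm g).2.2)) *
      S4.av (q.2.1 ^ 2) (fun g => ind ((q.2.1 : ℤ) ∣ (ρ.fm g).1)) *
      S4.av (q.2.2 ^ 2) (fun g => ind ((q.2.2 : ℤ) ∣ (ρ.fm g).2.2)))

def ga (p : ℕ) : ℝ := 1 - 5 / 3 * (rho ρ.A p : ℝ) / p

/-- local factor of the small number -/
def sm (k : ℤ) (p : ℕ) : ℝ := if (p : ℤ) ∣ k then (rho ρ.A p : ℝ) / (6 * p) else 1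

/-- total weight of an edge -/
def Wq (q : ℕ × ℕ × ℕ) (D1 D2 : ℕ) (g : G4) : ℝ := ∑ σ ∈ ρ.SD q D1 D2, ρ.cv (1 / 6) σ g

open Classical in
/-- admissible patterns -/
def DS : Finset (ℕ × ℕ) :=
  (Icc 1 ⌊ρ.y ^ ρ.K⌋₊ ×ˢ Icc 1 ⌊ρ.y ^ ρ.K⌋₊).filter fun v => ρ.DA v.1 v.2

end Pr

end

end Pool.Agent.P.MP_8be758_nt.Pd
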