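import Pool.Agent.P.MP_8be758_nt.Pd.DefsG

/-! Definitions for the lower bound of the sum over small data. -/

namespace Pool.Agent.P.MP_8be758_nt.Pd

open Finset Real
open Pool.Agent.P.MP_8be758_nt.Avg (rho)

noncomputable section

/-- the box used to represent the small number -/
def Bx (A : ℕ) (ψ : Fm) (a : ℝ) : Finset V2 :=
  Ioc ⌊√(11 / 20 * a / ψ.1)⌋ ⌊√(3 / 5 * a / ψ.1)⌋ ×ˢ Ioc 0 ⌊√a / (100 * A)⌋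

/-- excluded residues of `t` -/
def Bz (P R a b : ℤ) (p : ℕ) (x : ℤ) : Prop := (p : ℤ) ∣ x * (a * R + b * x + P * x ^ 2)

/-- good residues at a small prime -/
def LW (P R a b : ℤ) (p : ℕ) (s0 t0 l : ℤ) : Prop :=
  ¬(p : ℤ) ∣ t0 ∧ (p : ℤ) ∣ s0 ∧ ¬(p : ℤ) ^ 2 ∣ a * R + b * t0 + P * t0 ^ 2 ∧
  (¬(p : ℤ) ^ 2 ∣ a * P + b * s0 + R * s0 ^ 2 ∨ ¬(p : ℤ) ∣ R) ∧
  l ^ 2 * a ≡ a - s0 * t0 [ZMOD (p ^ 2 : ℕ)]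

namespace Pr

variable (ρ : Pr)

/-- the conditions on `(s, t)` -/
def SB (D : ℕ) (a : ℤ) (T : ℝ) (s t : ℕ) : Prop :=
  T < 2 * t ∧ (t : ℝ) ≤ T ∧ a ≤ 4 * (s * t) ∧ 2 * (s * t : ℤ) ≤ a ∧
  (s * t * (a - s * t).natAbs).Coprime D ∧ Squarefree (a - s * t).natAbs ∧
  (∀ p : ℕ, p.Prime → (p : ℤ) ∣ a - s * t → ρ.w < p ∧ ((p : ℝ) ≤ ρ.y ∨ ρ.y ^ ρ.k4 < p)) ∧
  (∀ p : ℕ, p.Prime → p ∣ t → ρ.w < p) ∧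
  (ρ.fl (a - s * t) : ℝ) ≤ ρ.y ^ (2 * ρ.K) ∧ (ρ.om (a - s * t) : ℝ) ≤ ρ.K * ρ.La ∧
  ρ.si (s * t * (a - s * t)) ≤ 3 / √ρ.w

/-- local weights in the lattice count -/
def hf (ψ : Fm) (a : ℤ) (D : ℕ) (Bd : ℕ → ℤ → Prop) (p : ℕ) (v : V2) : ℝ :=
  if p ≤ ρ.w then ind (¬(p : ℤ) ∣ ev ψ v ∧ ¬Bd p (ev ψ v))
  else if ρ.y < (p : ℝ) then ind (¬(p : ℤ) ∣ ev ψ v)
  else if p ∣ D then ind (¬(p : ℤ) ∣ ev ψ v ∧ ¬(p : ℤ) ∣ a - ev ψ v)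
  else if ¬(p : ℤ) ∣ ev ψ v then 1 else if (p : ℤ) ^ 2 ∣ ev ψ v then 0 else 1 / 6

/-- the sieving primes in the lattice count -/
def hP (t : ℕ) : Finset ℕ := (PP (4 * ρ.A) (ρ.y ^ ρ.k4)).filter fun p => ¬p ∣ t

/-- the weight in the lattice count -/
def Ph (ψ : Fm) (a : ℤ) (D t : ℕ) (Bd : ℕ → ℤ → Prop) (cl : ℕ → V2) (v : V2) : ℝ :=
  ind ((∀ p ∈ PP 0 (4 * ρ.A), C2 (p ^ 2) v (cl p)) ∧ (t : ℤ) ∣ a - ev ψ v) *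
    ∏ p ∈ ρ.hP t, ρ.hf ψ a D Bd p v

/-- the expected total weight in the lattice count -/
def Nv (ψ : Fm) (a : ℤ) (D t : ℕ) (Bd : ℕ → ℤ → Prop) : ℝ :=
  (Bx ρ.A ψ a).card * (∏ p ∈ PP 0 (4 * ρ.A), (1 : ℝ) / p ^ 4) *
    (∏ p ∈ t.primeFactors, S2.av p fun v => ind ((p : ℤ) ∣ a - ev ψ v)) *
    ∏ p ∈ ρ.hP t, S2.av (p ^ 2) (ρ.hf ψ a D Bd p)

/-- hypotheses of the lattice count -/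
def HH (ψ : Fm) (a : ℤ) (D t : ℕ) (Bd : ℕ → ℤ → Prop) : Prop :=
  ψ ∈ Red ρ.A ∧ (∃ u, ev ψ u = a) ∧ ρ.y ^ ρ.k5 ≤ a ∧ (a : ℝ) ≤ ρ.y ^ ρ.U ∧ Squarefree t ∧
  (∀ p : ℕ, p.Prime → p ∣ t → ρ.w < p) ∧ Int.gcd t a = 1 ∧ t.Coprime D ∧ (t : ℝ) ≤ ρ.y ^ (2 * ρ.k4) ∧
  ρ.si t ≤ 1 / √ρ.w ∧ ρ.si D ≤ 1 / √ρ.w ∧
  ∀ p : ℕ, p.Prime → (∀ x y, x ≡ y [ZMOD p] → (Bd p x ↔ Bd p y)) ∧ ∑ x ∈ bx p, ind (Bd p x) ≤ 2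

/-- the size conditions on the small number `k` -/
def Sz (a k : ℤ) (t : ℕ) : Prop := (ρ.fl k : ℝ) ≤ ρ.y ^ (2 * ρ.K) ∧ (ρ.om k : ℝ) ≤ ρ.K * ρ.La ∧
  ρ.si k ≤ 1 / √ρ.w ∧ ∑ p ∈ (ρ.pf (a - k)).filter fun p => ¬p ∣ t, (1 : ℝ) / p ≤ 1 / √ρ.w

/-- hypotheses of the lower bound -/
def HD (P R a b : ℤ) (D : ℕ) (T : ℝ) : Prop :=
  0 < P ∧ 0 < R ∧ b ^ 2 - 4 * P * (a * R) = 1 - 4 * (ρ.A : ℤ) ∧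
  (∀ p : ℕ, p.Prime → p ≤ ρ.w → (p : ℤ) ∣ P → (p : ℤ) ∣ b → ¬(p : ℤ) ∣ R) ∧
  (∀ p : ℕ, p.Prime → (p : ℤ) ∣ a → ρ.w < p ∧ (p ∣ D ∨ T < p)) ∧
  ρ.y ^ ρ.k5 ≤ a ∧ (a : ℝ) ≤ ρ.y ^ ρ.U ∧ 0 < T ∧ ρ.y ^ ρ.k3 ≤ T ^ 2 ∧ T ≤ ρ.y ^ (2 * ρ.k4) ∧
  D ≠ 0 ∧ D.primeFactors ⊆ ρ.Ps ∧ ρ.si D ≤ 1 / √ρ.w

open Classical in
/-- the admissible values of `t` -/
def TS (D : ℕ) (T : ℝ) (t0 : ℕ → ℤ) (B : ℕ → ℤ → Prop) : Finset ℕ :=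
  (Icc 1 ⌊T⌋₊).filter fun t => T < 2 * t ∧ (∀ p ∈ PP 0 (4 * ρ.A), (t : ℤ) ≡ t0 p [ZMOD (p ^ 2 : ℕ)]) ∧
    (∀ p ∈ PP (4 * ρ.A) ρ.w, ¬B p t) ∧ (∀ p : ℕ, p.Prime → ρ.w < p → ¬p ^ 2 ∣ t) ∧ t.Coprime D ∧
    ρ.si t ≤ 1 / √ρ.w

/-- excluded residues of the small number -/
def Bq (P R a b t : ℤ) (p : ℕ) (x : ℤ) : Prop := (4 * ρ.A < p ∧ p ≤ ρ.w) ∧
  (p : ℤ) ∣ a * P * t ^ 2 + b * t * (a - x) + R * (a - x) ^ 2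

/-- the sum over `s` for given `t` -/
def Hs (P R a b : ℤ) (D : ℕ) (T : ℝ) (t : ℕ) : ℝ := ∑ s ∈ Icc 1 a.toNat,
  ind (ρ.SB D a T s t ∧ VT.GW ⟨P, R, a, b, s, t⟩ ρ.w) * ρ.hh (1 / 6) (a - s * t)

/-- the loss in the lower bound -/
def ls : ℝ := (ρ.k4 : ℝ) ^ 4 * log ρ.w ^ 20

end Pr

end

end Pool.Agent.P.MP_8be758_nt.Pd
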