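import Pool.Agent.P.MP_8be758_nt.Pd.If0

/-! Definitions for the mean value part: angular characters, stages of primes. -/

namespace Pool.Agent.P.MP_8be758_nt.Pd.Mr

open Finset Real
open Pool.Agent.P.MP_8be758_nt.Par (nq mul cj det io)

noncomputable section

/-- the direction of a vector as a point of the unit circle -/
def uu (A : ℕ) (v : V2) : ℂ := io A v ^ 2 / (nq A v : ℂ)

/-- the angular characters -/
def ek (A : ℕ) (k : ℤ) (v : V2) : ℂ := uu A v ^ k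

/-- the Liouville function of the norm -/
def fl (A : ℕ) (v : V2) : ℝ := lam (nq A v)

/-- primitive vectors -/
abbrev Pr (v : V2) : Prop := IsCoprime v.1 v.2

/-- primitive vectors of norm about `X` -/
def VX (A : ℕ) (X : ℝ) : Finset V2 := VV (Q0 A) X (2 * X)

/-- twisted sum of the Liouville function over `W` -/
def FS (A : ℕ) (W : Finset V2) (k : ℤ) : ℂ := ∑ v ∈ W, (fl A v : ℂ) * ek A k v

/-- the Fourier coefficients -/
def FX (A : ℕ) (X : ℝ) (k : ℤ) : ℂ := FS A (VX A X) k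

/-- the Fejer kernel -/
def KF (n : ℕ) (z : ℂ) : ℝ := ‖∑ j ∈ range n, z ^ j‖ ^ 2 / n

/-- all frequencies are at most `T` -/
def Bd (K : Finset ℤ) (T : ℝ) : Prop := ∀ k ∈ K, |(k : ℝ)| ≤ T

/-- the frequencies up to `X / L` -/
def KT (X L : ℝ) : Finset ℤ := Icc (-(⌊X / L⌋₊ : ℤ)) ⌊X / L⌋₊

/-- mass of the collinear pairs -/
def col {ι : Type} (I : Finset ι) (z : ι → V2) (a : ι → ℂ) : ℝ :=
  ∑ i ∈ I, ∑ j ∈ I, if det (z i) (z j) = 0 then ‖a i‖ * ‖a j‖ else 0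

/-- `p` divides the product `g v` -/
def Dv (A p : ℕ) (g v : V2) : Prop := (p : ℤ) ∣ (mul A g v).1 ∧ (p : ℤ) ∣ (mul A g v).2

instance (A p : ℕ) (g v : V2) : Decidable (Dv A p g v) := inferInstanceAs (Decidable (_ ∧ _))

instance (A : ℕ) : LeftCommutative (mul A) :=
  ⟨fun a b c => by simp only [mul, Prod.mk.injEq]; constructor <;> ring⟩

/-- product of a multiset of vectors -/
def pv (A : ℕ) (s : Multiset V2) : V2 := s.foldr (mul A) (1, 0)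

/-- the multiset of entries of a tuple -/
def ms {l : ℕ} (p : Fin l → ℕ) : Multiset ℕ := univ.val.map p

/-- a prime `p` with a vector of norm `β p` -/
def Gp (A β : ℕ) (γ : ℕ → V2) (p : ℕ) : Prop := p.Prime ∧ 4 * A < p ∧ nq A (γ p) = β * p

/-- a block of primes in `[P, 2 P]` -/
def Blk (A β : ℕ) (γ : ℕ → V2) (I : Finset ℕ) (P : ℝ) : Prop :=
  1 ≤ β ∧ β ≤ 4 * A ∧ 1 ≤ P ∧ ∀ p ∈ I, Gp A β γ p ∧ P ≤ (p : ℝ) ∧ (p : ℝ) ≤ 2 * P

/-- vectors with small content and norm at most `Y` -/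
def Sm (A : ℕ) (W : Finset V2) (Y : ℝ) : Prop :=
  ∀ u ∈ W, u ≠ 0 ∧ Int.gcd u.1 u.2 ≤ 4 * A ∧ (nq A u : ℝ) ≤ Y

/-- character sum over primes -/
def GS (A : ℕ) (γ : ℕ → V2) (I : Finset ℕ) (k : ℤ) : ℂ := ∑ p ∈ I, ek A k (γ p)

/-- a trigonometric polynomial in the direction -/
def Phi (A : ℕ) (U : Finset ℤ) (d : ℤ → ℂ) (v : V2) : ℂ := ∑ k ∈ U, d k * ek A k v

/-- squared distance from the Liouville function to a trigonometric polynomial -/
def dis (A : ℕ) (W : Finset V2) (U : Finset ℤ) (d : ℤ → ℂ) : ℝ :=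
  ∑ v ∈ W, ‖(fl A v : ℂ) - Phi A U d v‖ ^ 2

/-- normalised conjugate Fourier coefficients -/
def cf (A : ℕ) (X : ℝ) (k : ℤ) : ℂ := (starRingEnd ℂ) (FX A X k) / ((VX A X).card : ℂ)

/-- the norm has no prime factor in `(4 A, y]` -/
def Ro (A : ℕ) (y : ℝ) (v : V2) : Prop :=
  ∀ q : ℕ, q.Prime → (q : ℤ) ∣ nq A v → q ≤ 4 * A ∨ y < (q : ℝ)

instance (A : ℕ) (y : ℝ) : DecidablePred (Ro A y) := Classical.decPred _

/-- the data of a stage -/
structure St where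
  β : ℕ
  g0 : V2
  S : Finset ℕ
  γ : ℕ → V2
  P : ℝ
  Q : ℝ
  H : ℝ

namespace St

variable (σ : St) (A : ℕ)

/-- the standing conditions -/
def OK : Prop := 1 ≤ σ.β ∧ σ.β ≤ 4 * A ∧ 1 ≤ σ.P ∧ σ.P ≤ σ.Q ∧ 2 ≤ σ.H ∧
  ∀ p ∈ σ.S, Gp A σ.β σ.γ p ∧ σ.P < (p : ℝ) ∧ (p : ℝ) ≤ σ.Q ∧ C2 (σ.β ^ 2) (σ.γ p) σ.g0

/-- the parameters attached to `μ` -/
def Pm (μ : ℝ) : Prop := σ.P = exp (μ ^ 8) ∧ σ.Q = exp (μ ^ 10) ∧ σ.H = μ

/-- the block of a prime -/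
def blk (p : ℕ) : ℕ := ⌊σ.H * log (p / σ.P)⌋₊

/-- the number of blocks -/
def nb : ℕ := ⌊σ.H * log (σ.Q / σ.P)⌋₊ + 1

/-- the left end of a block -/
def Ph (h : ℕ) : ℝ := σ.P * exp (h / σ.H)

/-- the primes of a block -/
def I (h : ℕ) : Finset ℕ := σ.S.filter fun p => σ.blk p = h

/-- the character sum over a block -/
def G (h : ℕ) (k : ℤ) : ℂ := GS A σ.γ (σ.I h) k

/-- the mean of `om` -/
def E : ℝ := ∑ p ∈ σ.S, 1 / ((p : ℝ) + 1)

/-- the number of primes of the stage that divide `v` -/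
def om (v : V2) : ℝ := (σ.S.filter fun p => Dv A p (cj (σ.γ p)) v).card

/-- the sign in the factorisation -/
def sg : ℝ := -lam σ.β

/-- the cofactors -/
def Lam (u : V2) : Prop := Int.gcd u.1 u.2 ∣ σ.β ∧
  ∃ w : V2, (σ.β : ℤ) • w = mul A σ.g0 u ∧ (Int.gcd w.1 w.2).Coprime σ.β

instance : DecidablePred (σ.Lam A) := Classical.decPred _

/-- the cofactors in the range of a block -/
def W (X : ℝ) (h : ℕ) : Finset V2 :=
  (An (Q0 A) (σ.β * X / σ.Ph h) (2 * σ.β * X / σ.Ph h)).filter (σ.Lam A)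

/-- all block sums are small -/
def Good (a : ℝ) (k : ℤ) : Prop := ∀ h, ‖σ.G A h k‖ ≤ σ.Ph h ^ (1 - a)

/-- multiplicity of the directions that come from vectors divisible by `p` -/
def mu (X : ℝ) (v : V2) : ℝ :=
  ∑ p ∈ σ.S, ind (X < (p : ℝ) ^ 2 * nq A v ∧ (p : ℝ) ^ 2 * nq A v ≤ 4 * X)

/-- the two boundary strips -/
def Strip (X : ℝ) (v : V2) : Prop :=
  (X < (nq A v : ℝ) ∧ (nq A v : ℝ) ≤ exp (1 / σ.H) * X) ∨
  (2 * X < (nq A v : ℝ) ∧ (nq A v : ℝ) ≤ exp (1 / σ.H) * (2 * X))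

/-- majorant for the coefficients of the error term -/
def ab (X : ℝ) (v : V2) : ℝ :=
  ind (v ∈ VX A X) * |σ.E - σ.om A v| + ind (σ.Strip A X v) * σ.om A v + σ.mu A X v

end St

end

end Pool.Agent.P.MP_8be758_nt.Pd.Mr
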