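import Pool.Agent.P.MP_8be758_nt.Pd.IfM

/-! The definitions that involve the Liouville function, for a general completely multiplicative
sign function. -/

namespace Pool.Agent.P.MP_8be758_nt.Pd.G

open Finset Real
open Pool.Agent.P.MP_8be758_nt.Par (nq mul cj det io)
open Pool.Agent.P.MP_8be758_nt.Pd.Mr

/-- a completely multiplicative sign function -/
class CM where
  f : ℤ → ℝ
  mul : ∀ a b, a ≠ 0 → b ≠ 0 → f (a * b) = f a * f b
  pm : ∀ a, f a = 1 ∨ f a = -1

noncomputable section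

variable [CM]

/-- the sign function -/
def lam (m : ℤ) : ℝ := CM.f m

open Classical in
/-- balanced edges whose sign differs from `σ` -/
def EdBad (A : ℕ) (C1 X σ : ℝ) : Finset G4 :=
  (Ed A C1 X).filter fun g => lam (ev (Q0 A) g.1) * lam (ev (Q0 A) g.2) ≠ σ

open Classical in
/-- arguments `n ≤ x` whose sign differs from `σ` -/
def NBad (A : ℕ) (x σ : ℝ) : Finset ℕ :=
  (range (⌊x⌋₊ + 1)).filter fun n => lam ((n : ℤ) ^ 2 + n + A) ≠ σ

/-- the sign of the norm -/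
def fl (A : ℕ) (v : V2) : ℝ := lam (nq A v)

/-- twisted sum of the sign over `W` -/
def FS (A : ℕ) (W : Finset V2) (k : ℤ) : ℂ := ∑ v ∈ W, (fl A v : ℂ) * ek A k v

/-- the Fourier coefficients -/
def FX (A : ℕ) (X : ℝ) (k : ℤ) : ℂ := FS A (VX A X) k

/-- squared distance from the sign to a trigonometric polynomial -/
def dis (A : ℕ) (W : Finset V2) (U : Finset ℤ) (d : ℤ → ℂ) : ℝ :=
  ∑ v ∈ W, ‖(fl A v : ℂ) - Phi A U d v‖ ^ 2

/-- normalised conjugate Fourier coefficients -/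
def cf (A : ℕ) (X : ℝ) (k : ℤ) : ℂ := (starRingEnd ℂ) (FX A X k) / ((VX A X).card : ℂ)

/-- the sign is constant on the primes of the stage -/
def Cs (σ : Mr.St) : Prop := ∀ p ∈ σ.S, ∀ q ∈ σ.S, lam p = lam q

/-- the sign in the factorisation -/
def sg (σ : Mr.St) : ℝ := if h : σ.S.Nonempty then lam σ.β * lam (σ.S.min' h : ℕ) else 1

/-- the sign is negative at the primes of `(Y, X]` -/
def Neg (Y X : ℝ) : Prop := ∀ p : ℕ, p.Prime → Y < p → (p : ℝ) ≤ X → lam p = -1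

theorem lam_mul {a b : ℤ} (ha : a ≠ 0) (hb : b ≠ 0) : lam (a * b) = lam a * lam b := CM.mul a b ha hb

theorem lam_cases (a : ℤ) : lam a = 1 ∨ lam a = -1 := CM.pm a

theorem lam_sq (a : ℤ) : lam a * lam a = 1 := by rcases lam_cases a with h | h <;> simp [h]

theorem abs_lam (a : ℤ) : |lam a| = 1 := by rcases lam_cases a with h | h <;> simp [h]

theorem lam_one : lam 1 = 1 := by
  have := lam_mul one_ne_zero one_ne_zero
  rwa [mul_one, lam_sq] at this

theorem lam_sq_mul {c : ℤ} (hc : c ≠ 0) (a : ℤ) : lam (c ^ 2 * a) = lam a := by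
  rcases eq_or_ne a 0 with rfl | ha
  · rw [mul_zero]
  · rw [lam_mul (pow_ne_zero _ hc) ha, sq, lam_mul hc hc, lam_sq, one_mul]

variable {A : ℕ} {v w : V2}

theorem fl_cases (v : V2) : fl A v = 1 ∨ fl A v = -1 := lam_cases _

theorem fl_sq (v : V2) : fl A v * fl A v = 1 := lam_sq _

theorem abs_fl (v : V2) : |fl A v| = 1 := abs_lam _

theorem norm_fl (v : V2) : ‖(fl A v : ℂ)‖ = 1 := by rw [Complex.norm_real, Real.norm_eq_abs, abs_fl]

theorem fl_e : fl A (1, 0) = 1 := by simpa [fl, nq] using lam_one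

theorem fl_mul (hA : 2 ≤ A) (hv : v ≠ 0) (hw : w ≠ 0) : fl A (mul A v w) = fl A v * fl A w := by
  rw [fl, Par.nq_mul, lam_mul (Par.nq_pos hA hv).ne' (Par.nq_pos hA hw).ne', fl, fl]

theorem fl_smul {c : ℤ} (hc : c ≠ 0) (v : V2) : fl A (c • v) = fl A v := by
  have e : nq A (c • v) = c ^ 2 * nq A v := by
    simp only [nq, Prod.smul_fst, Prod.smul_snd, smul_eq_mul]
    ring
  rw [fl, fl, e, lam_sq_mul hc]

theorem dis_nonneg (W : Finset V2) (U : Finset ℤ) (d : ℤ → ℂ) : 0 ≤ dis A W U d :=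
  sum_nonneg fun _ _ => by positivity

theorem sg_sq (σ : Mr.St) : sg σ * sg σ = 1 := by
  unfold sg
  split_ifs
  · rw [mul_mul_mul_comm, lam_sq, lam_sq, mul_one]
  · exact mul_one _

theorem abs_sg (σ : Mr.St) : |sg σ| = 1 := by
  unfold sg
  split_ifs
  · rw [abs_mul, abs_lam, abs_lam, mul_one]
  · exact abs_one

theorem sg_eq {σ : Mr.St} (h : Cs σ) {p : ℕ} (hp : p ∈ σ.S) : sg σ = lam σ.β * lam p := by
  rw [sg, dif_pos ⟨p, hp⟩, h _ (σ.S.min'_mem _) p hp]

end

end Pool.Agent.P.MP_8be758_nt.Pd.G
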