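import Pool.Agent.P.MP_8be758_nt.Pd.If0

/-! Definitions for the transfer theorem: parameters, four-cycles, weights. -/

set_option linter.dupNamespace false

namespace Pool.Agent.P.MP_8be758_nt.Pd

open Finset Real
open Pool.Agent.P.MP_8be758_nt.Par (det)
open Pool.Agent.P.MP_8be758_nt.Avg (rho)

noncomputable section

/-- static parameters -/
structure St where
  (A w K k2 k3 k4 k5 k6 K' u : ℕ)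
  C1 : ℝ

/-- the order of magnitude of the static parameters -/
def St.Big (z : St) (c : ℕ) : Prop :=
  Odd z.A ∧ 3 ≤ z.A ∧ 1 ≤ z.C1 ∧ 4 * z.A ≤ z.w ∧ c ≤ z.w ∧ c ≤ z.K ∧ 2 ≤ z.k2 ∧
  c * (z.k2 + z.K) ≤ z.k3 ∧ z.k3 ≤ z.k4 ∧ c * z.k4 ≤ z.k5 ∧ z.k5 ≤ z.k6 ∧ z.k6 ≤ z.K' ∧
  c * z.K' ≤ z.u

/-- bound for the exponent of the small numbers -/
def St.U (z : St) : ℕ := z.k6 + 2 * z.K + 1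

/-- product of the primes up to `w` -/
def St.W (z : St) : ℕ := primorial z.w

/-- all parameters -/
structure Pr extends St where
  y : ℝ

namespace Pr

variable (ρ : Pr)

def X : ℝ := ρ.y ^ ρ.u
def Ps : Finset ℕ := PP ρ.w ρ.y
def I4 : Finset ℕ := PP ρ.y (ρ.y ^ ρ.k2)
def I3 : Finset ℕ := PP (ρ.y ^ ρ.k3) (ρ.y ^ ρ.k4)
def I1 : Finset ℕ := PP (ρ.y ^ ρ.k5) (ρ.y ^ ρ.k6)
def La : ℝ := ∑ p ∈ ρ.Ps, (rho ρ.A p : ℝ) / p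
def E : Finset G4 := Ed ρ.A ρ.C1 ρ.X
def fm (g : G4) : Fm := act (Q0 ρ.A) g

/-- the primes of `P` that divide `m` -/
def pf (m : ℤ) : Finset ℕ := ρ.Ps.filter fun p => (p : ℤ) ∣ m
def fl (m : ℤ) : ℕ := ∏ p ∈ ρ.pf m, p
def om (m : ℤ) : ℕ := (ρ.pf m).card
def si (m : ℤ) : ℝ := ∑ p ∈ ρ.pf m, (1 : ℝ) / p

end Pr

/-- product of the root numbers -/
def rr (A : ℕ) (k : ℤ) : ℕ := ∏ p ∈ k.natAbs.primeFactors, rho A p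

/-- a vertex of a four-cycle -/
structure VT where
  (P R a b s t : ℤ)

namespace VT

variable (x : VT)

def af : ℤ := x.a - x.s * x.t
def Bt : ℤ := x.a * x.R + x.b * x.t + x.P * x.t ^ 2
def As : ℤ := x.a * x.P + x.b * x.s + x.R * x.s ^ 2
def Nt : ℤ := x.Bt / x.af
def Ns : ℤ := x.As / x.af
def Pi6 : ℤ := x.P * x.R * x.a * (x.af * x.Nt * x.Ns)
def n : ℤ := (x.b - 1) / 2

def Ok (A : ℕ) : Prop := x.b ^ 2 - 4 * x.P * (x.a * x.R) = 1 - 4 * (A : ℤ) ∧ 0 < x.P ∧ 0 < x.R ∧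
  0 < x.a ∧ 0 < x.af ∧ x.af ∣ x.Bt ∧ IsCoprime x.t x.af

def v1 : VT := ⟨x.Ns, x.Nt, x.a, x.b + 2 * x.s * x.R + 2 * x.t * x.Ns, -x.s, -x.t⟩
def v2 : VT := ⟨x.Ns, x.R, x.af, x.b + 2 * x.s * x.R, -x.s, x.t⟩
def v3 : VT := ⟨x.P, x.Nt, x.af, x.b + 2 * x.t * x.P, x.s, -x.t⟩

/-- the other three vertices -/
def v (i : Fin 3) : VT := ![x.v1, x.v2, x.v3] i

/-- conditions at the primes up to `w` -/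
def GW (w : ℕ) : Prop := ∀ p : ℕ, p.Prime → p ≤ w →
  ¬(p : ℤ) ^ 2 ∣ x.Bt ∧ (¬(p : ℤ) ^ 2 ∣ x.As ∨ ¬(p : ℤ) ∣ x.R)

end VT

/-- small datum -/
structure Sd where
  (q1 q3 q4 e1 a1 e2 a2 s t : ℕ)

namespace Sd

variable (σ : Sd)

def E1 : ℕ := σ.e1 * σ.q3
def E2 : ℕ := σ.e2 * σ.q4
def a : ℕ := σ.a1 * σ.a2 * σ.q1
def af : ℤ := (σ.a : ℤ) - σ.s * σ.t
def ut : V2 := ((σ.E2 * σ.t : ℕ), (σ.E1 * σ.a1 : ℕ))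
def us : V2 := ((σ.E2 * σ.a2 * σ.q1 : ℕ), (σ.E1 * σ.s : ℕ))
def dt : ℕ := σ.E1 * σ.E2 * σ.a1
def ds : ℕ := σ.E1 * σ.E2 * σ.a2 * σ.q1

/-- the four-cycle attached to a form and a datum -/
def cyc (φ : Fm) : VT := ⟨φ.1 * σ.E2 / (σ.E1 * σ.a1 : ℕ), φ.2.2 * σ.E1 / (σ.E2 * σ.a2 * σ.q1 : ℕ),
  σ.a, φ.2.1, σ.s, σ.t⟩

/-- the conditions at the primes up to `w` in terms of the base form -/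
def GW0 (w : ℕ) (φ : Fm) : Prop := ∀ p : ℕ, p.Prime → p ≤ w →
  ¬(p : ℤ) ^ 2 ∣ ev φ σ.ut ∧ (¬(p : ℤ) ^ 2 ∣ ev φ σ.us ∨ ¬(p : ℤ) ∣ φ.2.2)

/-- common divisor that correlates two data -/
def dl (τ : Sd) : ℕ := Int.gcd (Int.gcd σ.af τ.af) (det σ.ut τ.ut)

/-- product of the four cross determinants -/
def Xi (τ : Sd) : ℤ := det σ.ut τ.ut * det σ.us τ.ut * (det σ.ut τ.us * det σ.us τ.us)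

end Sd

namespace Pr

variable (ρ : Pr)

/-- admissible small data -/
def SA (D1 D2 : ℕ) (σ : Sd) : Prop :=
  σ.e1 * σ.a1 ∣ D1 ∧ σ.e2 * σ.a2 ∣ D2 ∧ σ.E1 * σ.a1 < 2 * σ.t * σ.E2 ∧ σ.t * σ.E2 ≤ σ.E1 * σ.a1 ∧
  σ.a ≤ 4 * (σ.s * σ.t) ∧ 2 * (σ.s * σ.t) ≤ σ.a ∧
  (σ.s * σ.t * σ.af.natAbs).Coprime (D1 * D2) ∧ Squarefree σ.af.natAbs ∧
  (∀ p : ℕ, p.Prime → (p : ℤ) ∣ σ.af → ρ.w < p ∧ ((p : ℝ) ≤ ρ.y ∨ ρ.y ^ ρ.k4 < p)) ∧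
  (∀ p : ℕ, p.Prime → p ∣ σ.t → ρ.w < p) ∧
  (ρ.fl σ.af : ℝ) ≤ ρ.y ^ (2 * ρ.K) ∧ (ρ.om σ.af : ℝ) ≤ ρ.K * ρ.La ∧
  ρ.si (σ.s * σ.t * σ.af) ≤ 3 / √ρ.w

/-- validity of the cycle -/
def Val (x : VT) : Prop := x.af ∣ x.Bt ∧
  (∀ p ∈ ρ.Ps, ¬(p : ℤ) ^ 2 ∣ x.Pi6 ∧ ((p : ℤ) ∣ x.s * x.t → ¬(p : ℤ) ∣ x.Pi6)) ∧ x.GW ρ.w

/-- admissible smooth patterns -/
def DA (D1 D2 : ℕ) : Prop := Squarefree (D1 * D2) ∧ (D1 * D2).primeFactors ⊆ ρ.Ps ∧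
  (D1 : ℝ) ≤ ρ.y ^ ρ.K ∧ (D2 : ℝ) ≤ ρ.y ^ ρ.K ∧
  39 / 20 * ρ.La ≤ ρ.om (D1 * D2 : ℕ) ∧ (ρ.om (D1 * D2 : ℕ) : ℝ) ≤ 41 / 20 * ρ.La ∧
  ρ.si (D1 * D2 : ℕ) ≤ 1 / √ρ.w

/-- typical base forms -/
def Typ (φ : Fm) : Prop :=
  ρ.DA (ρ.fl φ.1) (ρ.fl φ.2.2) ∧ ∀ p ∈ ρ.Ps, ¬(p : ℤ) ^ 2 ∣ φ.1 * φ.2.2

/-- ranges of the three large primes -/
def QR (q : ℕ × ℕ × ℕ) : Prop := q.1 ∈ ρ.I1 ∧ q.2.1 ∈ ρ.I3 ∧ q.2.2 ∈ ρ.I4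

/-- the three large primes divide the form -/
def QD (q : ℕ × ℕ × ℕ) (φ : Fm) : Prop := (q.2.1 : ℤ) ∣ φ.1 ∧ ((q.1 * q.2.2 : ℕ) : ℤ) ∣ φ.2.2

/-- the weight -/
def cw (θ : ℝ) (x : VT) : ℝ :=
  (1 / 3) ^ ρ.om (x.P * x.R * x.a) * θ ^ ρ.om (x.af * x.Nt * x.Ns)

/-- the cycle of a tuple -/
def cy (τ : G4 × Sd) : VT := τ.2.cyc (ρ.fm τ.1)

/-- tuples -/
def IsTu (τ : G4 × Sd) : Prop := τ.1 ∈ ρ.E ∧ ρ.Typ (ρ.fm τ.1) ∧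
  ρ.QR (τ.2.q1, τ.2.q3, τ.2.q4) ∧ QD (τ.2.q1, τ.2.q3, τ.2.q4) (ρ.fm τ.1) ∧
  ρ.SA (ρ.fl (ρ.fm τ.1).1) (ρ.fl (ρ.fm τ.1).2.2) τ.2 ∧ ρ.Val (ρ.cy τ)

/-- truncation -/
def Gd (x : VT) : Prop := (ρ.fl x.Nt : ℝ) ≤ ρ.y ^ ρ.K' ∧ (ρ.fl x.Ns : ℝ) ≤ ρ.y ^ ρ.K' ∧
  9 / 20 * ρ.La ≤ ρ.om (x.af * x.Nt * x.Ns)

def Tu : Finset (G4 × Sd) := fs {τ | ρ.IsTu τ}

open Classical in
def Tg : Finset (G4 × Sd) := ρ.Tu.filter fun τ => ρ.Gd (ρ.cy τ)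

/-- data with given large primes and pattern -/
def SD (q : ℕ × ℕ × ℕ) (D1 D2 : ℕ) : Finset Sd :=
  fs {σ | (σ.q1, σ.q3, σ.q4) = q ∧ ρ.SA D1 D2 σ}

open Classical in
/-- edges with given large primes and pattern -/
def AP (q : ℕ × ℕ × ℕ) (D1 D2 : ℕ) : Finset G4 := ρ.E.filter fun g => QD q (ρ.fm g) ∧
  ρ.fl (ρ.fm g).1 = D1 ∧ ρ.fl (ρ.fm g).2.2 = D2 ∧ ∀ p ∈ ρ.Ps, ¬(p : ℤ) ^ 2 ∣ (ρ.fm g).1 * (ρ.fm g).2.2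

/-- atoms -/
def AT (q : ℕ × ℕ × ℕ) (D1 D2 : ℕ) (c0 : G4) : Finset G4 :=
  (ρ.AP q D1 D2).filter fun g => C4 (ρ.W ^ 2) g c0

/-- admissible atom data -/
def AD (q : ℕ × ℕ × ℕ) (D1 D2 : ℕ) (c0 : G4) : Prop :=
  ρ.QR q ∧ ρ.DA D1 D2 ∧ c0 ∈ S4.U (ρ.W ^ 2)

/-- weight of an edge and a datum -/
def cv (θ : ℝ) (σ : Sd) (g : G4) : ℝ := ρ.cw θ (ρ.cy (g, σ)) * ind (ρ.Val (ρ.cy (g, σ)))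

/-- local condition of an atom -/
def al (D1 D2 p : ℕ) (φ : Fm) : ℝ :=
  if p ∣ D1 then ind ((p : ℤ) ∣ φ.1 ∧ ¬(p : ℤ) ^ 2 ∣ φ.1 ∧ ¬(p : ℤ) ∣ φ.2.2)
  else if p ∣ D2 then ind ((p : ℤ) ∣ φ.2.2 ∧ ¬(p : ℤ) ^ 2 ∣ φ.2.2 ∧ ¬(p : ℤ) ∣ φ.1)
  else ind (¬(p : ℤ) ∣ φ.1 * φ.2.2)

/-- local weight of a datum -/
def fv (θ : ℝ) (D : ℕ) (σ : Sd) (p : ℕ) (φ : Fm) : ℝ :=
  if p ∣ D then ind (¬(p : ℤ) ^ (if p ∣ σ.dt then 2 else 1) ∣ ev φ σ.ut ∧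
    ¬(p : ℤ) ^ (if p ∣ σ.ds then 2 else 1) ∣ ev φ σ.us)
  else if (p : ℤ) ∣ σ.af then
    θ * ind ((p : ℤ) ∣ ev φ σ.ut ∧ ¬(p : ℤ) ^ 2 ∣ ev φ σ.ut ∧ ¬(p : ℤ) ^ 2 ∣ ev φ σ.us)
  else if ¬(p : ℤ) ∣ ev φ σ.ut * ev φ σ.us then 1
  else if p ∣ σ.s * σ.t ∨ (p : ℤ) ^ 2 ∣ ev φ σ.ut * ev φ σ.us then 0 else θ

/-- the large primes of `k` -/
def lp (k : ℤ) : Finset ℕ := k.natAbs.primeFactors.filter fun p => ρ.y < (p : ℝ)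

/-- weight of the small number -/
def hh (θ : ℝ) (k : ℤ) : ℝ := θ ^ ρ.om k * rr ρ.A k / k

def Gm (D : ℕ) : ℝ := ∏ p ∈ ρ.Ps.filter fun p => ¬p ∣ D, (1 - 5 / 3 * (rho ρ.A p : ℝ) / p)

/-- expected weight of a datum -/
def Mw (D : ℕ) (σ : Sd) : ℝ := (1 / 3) ^ ρ.om D * ρ.Gm D * ρ.hh (1 / 6) σ.af

/-- expected total weight on an atom -/
def MM (q : ℕ × ℕ × ℕ) (D1 D2 : ℕ) (c0 : G4) : ℝ :=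
  ∑ σ ∈ ρ.SD q D1 D2, ind (σ.GW0 ρ.w (ρ.fm c0)) * ρ.Mw (D1 * D2) σ

/-- correlation factor of two data -/
def En (D : ℕ) (σ τ : Sd) : ℝ :=
  ∏ p ∈ ρ.Ps.filter fun p : ℕ => ¬(p : ℤ) ∣ D * (σ.s * σ.t), (1 + 8 / (p : ℝ) * ind ((p : ℤ) ∣ σ.Xi τ))

/-- relative error -/
def ep : ℝ := 1 / 2 ^ ρ.K' + 1 / √ρ.w

/-- absolute error -/
def Er (k : ℕ) : ℝ := ρ.X / ρ.y ^ (k * ρ.K')

/-- majorant for the weight of the small number -/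
def hw (Θ : ℝ) (k : ℤ) : ℝ := Θ ^ ρ.om k * ind (Squarefree k.natAbs ∧ (ρ.fl k : ℝ) ≤ ρ.y ^ (2 * ρ.K) ∧
  (ρ.om k : ℝ) ≤ ρ.K * ρ.La ∧ ∀ p ∈ ρ.pf k, rho ρ.A p = 2)

end Pr

/-- range of the pairs `(s, t)` -/
def SR (a : ℤ) (T C0 : ℝ) : Finset V2 := fs {v | T / C0 ≤ |(v.2 : ℝ)| ∧ |(v.2 : ℝ)| ≤ C0 * T ∧
  |v.1 * v.2| ≤ a ∧ a ≤ 2 * (a - v.1 * v.2) ∧ IsCoprime v.2 (a - v.1 * v.2)}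

/-- a periodic family with at most three residues -/
def Few (P : Finset ℕ) (B : ℕ → ℤ → Prop) : Prop := ∀ p ∈ P,
  (∀ x y, x ≡ y [ZMOD p] → (B p x ↔ B p y)) ∧ ∑ x ∈ bx p, ind (B p x) ≤ 3

/-- correlation product -/
def Ep (P : Finset ℕ) (c : ℝ) (B : ℕ → ℤ → Prop) (x : ℤ) : ℝ := ∏ p ∈ P, (1 + c / p * ind (B p x))

/-- sizes of the small numbers -/
def Pr.Rng (ρ : Pr) (a : ℤ) (T : ℝ) : Prop :=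
  0 < T ∧ ρ.y ^ ρ.k3 ≤ T ^ 2 ∧ T ^ 2 * ρ.y ^ ρ.k3 ≤ a ∧ (a : ℝ) ≤ ρ.y ^ ρ.U

/-- the modular hyperbola -/
def MH (q : ℕ) : Finset V2 := (bx q ×ˢ bx q).filter fun v => v.1 * v.2 ≡ 1 [ZMOD q]

/-- Kloosterman sums -/
def kl (h k : ℤ) (q : ℕ) : ℂ :=
  ∑ v ∈ MH q, Pool.Agent.P.MP_e86632_nt.ee (((h * v.1 + k * v.2 : ℤ) : ℝ) / q)

/-- a statement that holds for all large `y`, with a constant that depends on `A` and `C1` only -/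
def Unif (S : ℝ → Pr → Prop) : Prop := ∃ c : ℕ, ∀ (A : ℕ) (C1 : ℝ), ∃ C : ℝ, 1 ≤ C ∧
  ∀ z : St, z.A = A → z.C1 = C1 → z.Big c → ∀ᶠ y : ℝ in Filter.atTop, S C ⟨z, y⟩

/-- a statement that holds for all large `y`, with a constant that depends on all static data -/
def Evt (S : ℝ → Pr → Prop) : Prop := ∃ c : ℕ, ∀ z : St, z.Big c → ∃ C : ℝ, 1 ≤ C ∧
  ∀ᶠ y : ℝ in Filter.atTop, S C ⟨z, y⟩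

end

end Pool.Agent.P.MP_8be758_nt.Pd
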