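import Pool.Agent.P.MP_8be758_nt.Pd.GTOP

/-! The two densities give bounds for the mean value of a completely multiplicative sign function. -/

namespace Pool.Agent.P.MP_8be758_nt.Pd.G

open Finset Filter

/-- the sign function on the integers attached to a sign function on the natural numbers -/
@[reducible] noncomputable def mk (f : ℕ → ℤ) (h1 : ∀ m n, m ≠ 0 → n ≠ 0 → f (m * n) = f m * f n)
    (h2 : ∀ n, n ≠ 0 → f n = 1 ∨ f n = -1) : CM where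
  f m := if m = 0 then 1 else f m.natAbs
  mul a b ha hb := by
    rw [if_neg ha, if_neg hb, if_neg (mul_ne_zero ha hb), Int.natAbs_mul,
      h1 _ _ (Int.natAbs_ne_zero.2 ha) (Int.natAbs_ne_zero.2 hb), Int.cast_mul]
  pm a := by
    split_ifs with h
    · exact Or.inl rfl
    · exact_mod_cast h2 _ (Int.natAbs_ne_zero.2 h)

theorem lam_mk {f : ℕ → ℤ} {h1 : ∀ m n, m ≠ 0 → n ≠ 0 → f (m * n) = f m * f n}
    {h2 : ∀ n, n ≠ 0 → f n = 1 ∨ f n = -1} {n : ℕ} (hn : n ≠ 0) :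
    @lam (mk f h1 h2) (n : ℤ) = f n := by
  show (if (n : ℤ) = 0 then (1 : ℝ) else f (n : ℤ).natAbs) = f n
  rw [if_neg (by exact_mod_cast hn), Int.natAbs_natCast]

theorem sum_bad [CM] (A N : ℕ) {σ : ℝ} (hσ : σ = 1 ∨ σ = -1) :
    σ * ∑ x ∈ range (N + 1), lam ((x : ℤ) ^ 2 + x + A) = N + 1 - 2 * (NBad A N σ).card := by
  classical
  rw [NBad, Nat.floor_natCast, card_filter, show (N : ℝ) + 1 = ∑ _x ∈ range (N + 1), (1 : ℝ) by simp]
  push_cast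
  rw [mul_sum, mul_sum, ← sum_sub_distrib]
  refine sum_congr rfl fun x _ => ?_
  rcases lam_cases ((x : ℤ) ^ 2 + x + A) with h | h <;> rcases hσ with rfl | rfl <;> rw [h] <;>
    norm_num

theorem mean_of_top (hT : S_TRANSFER) (hR : S_TRI) (h : S_TOP) (A : ℕ) (hA : Odd A) (h3 : 3 ≤ A)
    (θ : ℝ) (hθ : θ < 1 / 2) : ∃ c : ℝ, 0 < c ∧ ∀ᶠ N : ℕ in atTop, ∀ f : ℕ → ℤ,
      (∀ m n, m ≠ 0 → n ≠ 0 → f (m * n) = f m * f n) → (∀ n, n ≠ 0 → f n = 1 ∨ f n = -1) →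
      -((1 - c) * N) ≤ ∑ x ∈ range (N + 1), (f (x ^ 2 + x + A) : ℝ) ∧
      ((∀ p : ℕ, p.Prime → (N : ℝ) ^ θ < p → p ≤ N → f p = -1) →
        ∑ x ∈ range (N + 1), (f (x ^ 2 + x + A) : ℝ) ≤ (1 - c) * N) := by
  obtain ⟨c, hc, h⟩ := h A θ hA h3 hθ
  obtain ⟨d, D, hd, -, h'⟩ := TOP_one hT hA h3 (Or.inr rfl) (hR A hA h3)
  have m0 := lt_min hc hd
  refine ⟨min c d, m0, ?_⟩
  filter_upwards [h, h', (tendsto_natCast_atTop_atTop.const_mul_atTop m0).eventually_ge_atTop 1]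
    with N k1 k2 hN f h1 h2
  have N0 : (0 : ℝ) ≤ N := Nat.cast_nonneg N
  have c1 := mul_le_mul_of_nonneg_right (min_le_left c d) N0
  have c2 := mul_le_mul_of_nonneg_right (min_le_right c d) N0
  have e : ∑ x ∈ range (N + 1), (f (x ^ 2 + x + A) : ℝ) =
      ∑ x ∈ range (N + 1), @lam (mk f h1 h2) ((x : ℤ) ^ 2 + x + A) :=
    sum_congr rfl fun x _ => by
      rw [← lam_mk (h1 := h1) (h2 := h2) (by omega)]
      push_cast
      rfl
  have s1 := @sum_bad (mk f h1 h2) A N 1 (Or.inl rfl)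
  have s2 := @sum_bad (mk f h1 h2) A N (-1) (Or.inr rfl)
  have k3 := @k2 (mk f h1 h2) trivial
  rw [e]
  refine ⟨by linarith, fun hp => ?_⟩
  have k4 := (@k1 (mk f h1 h2) fun p p0 p1 p2 => by
    rw [lam_mk p0.ne_zero, hp p p0 p1 (by exact_mod_cast p2)]
    norm_num).1
  linarith

end Pool.Agent.P.MP_8be758_nt.Pd.G
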