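import Pool.Agent.P.MP_8be758_nt.Pd.Basic

/-! Shared statements. -/

namespace Pool.Agent.P.MP_8be758_nt.Pd

open Finset Real Filter
open ArithmeticFunction (cardFactors)
open Pool.Agent.P.MP_8be758_nt.Par (det)
open Pool.Agent.P.MP_8be758_nt.Avg (rho)

-- deps:
def S_CRT : Prop := ∀ (m m' : ℕ) (Φ : ℤ → ℤ → ℝ), 0 < m → 0 < m' → m.Coprime m' →
  (∀ x x' y, x ≡ x' [ZMOD m] → Φ x y = Φ x' y) → (∀ x y y', y ≡ y' [ZMOD m'] → Φ x y = Φ x y') →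
  ∑ x ∈ bx (m * m'), Φ x x = ∑ x ∈ bx m, ∑ y ∈ bx m', Φ x y

-- deps: CRT
def S_OK : Prop := S1.OK ∧ S2.OK ∧ SP.OK ∧ S4.OK

-- deps:
def S_PROD : Prop := ∀ (Ω : Type) (S : Sys Ω) (D : Finset ℕ) (n : ℕ → ℕ) (M0 : ℕ) (f0 : Ω → ℝ)
  (f : ℕ → Ω → ℝ), S.OK → 0 < M0 → S.Per M0 f0 →
  (∀ p ∈ D, 0 < n p ∧ M0.Coprime (n p) ∧ S.Per (n p) (f p)) →
  (∀ p ∈ D, ∀ q ∈ D, p ≠ q → (n p).Coprime (n q)) →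
  S.Per (M0 * ∏ p ∈ D, n p) (fun x => f0 x * ∏ p ∈ D, f p x) ∧
  S.av (M0 * ∏ p ∈ D, n p) (fun x => f0 x * ∏ p ∈ D, f p x) =
    S.av M0 f0 * ∏ p ∈ D, S.av (n p) (f p)

-- deps:
def S_FLK : Prop := ∀ κ : ℕ, ∃ C1 : ℕ, ∀ (s : ℕ) (y : ℝ) (P : Finset ℕ) (h : ℕ → ℝ), 1 ≤ s → 2 ≤ y →
  (∀ p ∈ P, p.Prime ∧ (p : ℝ) ≤ y ∧ 0 ≤ h p ∧ h p ≤ κ / p ∧ h p ≤ 1 / 2) →
  ∃ la De : Finset ℕ → ℝ,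
    ∑ E ∈ P.powerset, (|la E| + |De E|) ≤ y ^ (C1 * s) ∧
    (∀ E ∈ P.powerset, la E ≠ 0 ∨ De E ≠ 0 → ∏ p ∈ E, (p : ℝ) ≤ y ^ (C1 * s)) ∧
    (∀ g : ℕ → ℝ, (∀ p ∈ P, 0 ≤ g p ∧ g p ≤ 1) →
      ∏ p ∈ P, (1 - g p) ≤ ∑ E ∈ P.powerset, la E * ∏ p ∈ E, g p ∧
      ∑ E ∈ P.powerset, la E * ∏ p ∈ E, g p ≤
        ∏ p ∈ P, (1 - g p) + ∑ E ∈ P.powerset, De E * ∏ p ∈ E, g p) ∧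
    ∑ E ∈ P.powerset, De E * ∏ p ∈ E, h p ≤ (∏ p ∈ P, (1 - h p)) / 2 ^ s

-- deps: FLK PROD
def S_MC : Prop := ∀ κ : ℕ, ∃ C1 : ℕ, ∀ (Ω : Type) (S : Sys Ω) (G : Finset Ω) (χ : Ω → ℝ)
  (N Mx err y : ℝ) (e s M0 : ℕ) (P : Finset ℕ) (f0 : Ω → ℝ) (f : ℕ → Ω → ℝ),
  S.OK → S.Equi G χ N Mx err → (∀ x ∈ G, 0 ≤ χ x) → 0 ≤ N → 0 ≤ err → 1 ≤ s → 2 ≤ y → 0 < M0 →
  S.Per M0 f0 → (∀ x, 0 ≤ f0 x ∧ f0 x ≤ 1) →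
  (∀ p ∈ P, p.Prime ∧ (p : ℝ) ≤ y ∧ 2 * κ ≤ p ∧ M0.Coprime p ∧ S.Per (p ^ e) (f p) ∧
    (∀ x, 0 ≤ f p x ∧ f p x ≤ 1) ∧ 1 - (κ : ℝ) / p ≤ S.av (p ^ e) (f p)) →
  (M0 : ℝ) * y ^ (C1 * s * e) ≤ Mx →
  |∑ x ∈ G, χ x * (f0 x * ∏ p ∈ P, f p x) - N * (S.av M0 f0 * ∏ p ∈ P, S.av (p ^ e) (f p))| ≤
    N * (S.av M0 f0 * ∏ p ∈ P, S.av (p ^ e) (f p)) / 2 ^ s + y ^ (C1 * s) * err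

-- deps:
def S_LAT : Prop := ∀ A : ℕ, 1 ≤ A → ∃ C : ℝ, 0 < C ∧ ∀ ψ ∈ Red A, ∀ (N1 N2 : ℝ) (m : ℕ) (v0 v1 : V2),
  0 ≤ N1 → N1 ≤ N2 → 0 < m →
  |(((An ψ N1 N2).filter fun v => C2 m v v0).card : ℝ) -
    ((An ψ N1 N2).filter fun v => C2 m v v1).card| ≤ C * (√N2 / m + 1)

-- deps:
def S_AREA : Prop := ∀ A : ℕ, 1 ≤ A → ∃ c C : ℝ, 0 < c ∧ 0 < C ∧ ∀ ψ ∈ Red A, ∀ N1 N2 : ℝ,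
  0 ≤ N1 → N1 ≤ N2 → c * (N2 - N1) - C * (√N2 + 1) ≤ (An ψ N1 N2).card ∧
    ((An ψ N1 N2).card : ℝ) ≤ C * (N2 - N1 + √N2 + 1)

-- deps: LAT AREA
def S_VEQ : Prop := ∀ A : ℕ, 1 ≤ A → ∃ C : ℝ, 0 < C ∧ ∀ ψ ∈ Red A, ∀ N1 N2 Mx : ℝ,
  0 ≤ N1 → N1 ≤ N2 → 1 ≤ N2 → 1 ≤ Mx →
  SP.Equi (VV ψ N1 N2) (fun _ => 1) (VV ψ N1 N2).card Mx (C * Mx ^ 2 * N2 ^ (3 / 4 : ℝ))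

-- deps: LAT AREA
def S_CNT : Prop := ∀ (A : ℕ) (θ : ℝ), 1 ≤ A → 1 < θ → ∃ c N0 : ℝ, 0 < c ∧ ∀ ψ ∈ Red A, ∀ N : ℝ,
  N0 ≤ N → c * N ≤ (VV ψ N (θ * N)).card

-- deps:
def S_LATD : Prop := ∀ A : ℕ, 1 ≤ A → ∃ C : ℝ, 0 < C ∧ ∀ ψ ∈ Red A, ∀ (d : ℕ) (Y : ℝ), 0 < d →
  d.Coprime (2 * (4 * A - 1)) → 0 ≤ Y →
  (((VV ψ 0 Y).filter fun v => (d : ℤ) ∣ ev ψ v).card : ℝ) ≤ C * 2 ^ d.primeFactors.card * Y / d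

-- deps:
def S_DET0 : Prop := ∀ (A : ℕ) (ψ : Fm) (v v' : V2), 2 ≤ A → IsF A ψ → v ≠ 0 → ev ψ v = ev ψ v' →
  ev ψ v ∣ det v v' → v' = v ∨ v' = -v

-- deps:
def S_RED : Prop := ∀ (A : ℕ) (φ : Fm), 1 ≤ A → IsF A φ →
  ∃ ψ ∈ Red A, ∃ g : G4, det g.1 g.2 = 1 ∧ act ψ g = φ

-- deps:
def S_MER : Prop := ∀ A : ℕ, Odd A → 3 ≤ A → ∃ C : ℝ, 0 < C ∧ ∀ w y : ℝ, 2 ≤ w → w ≤ y →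
  |∑ p ∈ PP w y, (rho A p : ℝ) / p - log (log y / log w)| ≤ C ∧
  |∑ p ∈ PP w y, (1 : ℝ) / p - log (log y / log w)| ≤ C

-- deps:
def S_WIN : Prop := ∃ C : ℝ, 0 < C ∧ ∀ Y θ : ℝ, 2 ≤ Y → 2 ≤ θ →
  ∑ p ∈ PP Y (θ * Y), (1 : ℝ) / p ≤ C * log θ / log Y

/-- the transfer theorem (part T) -/
def S_TRANSFER : Prop := ∀ (A : ℕ) (C1 η : ℝ), Odd A → 3 ≤ A → 1 ≤ C1 → 0 < η →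
  ∃ δ C2 X0 : ℝ, 0 < δ ∧ 1 ≤ C2 ∧ ∀ X σ : ℝ, X0 ≤ X → σ = 1 ∨ σ = -1 →
    ((NBad A (C2 * X) σ).card : ℝ) ≤ δ * X → ((EdBad A C1 X σ).card : ℝ) ≤ η * X

/-- many edges have a sign different from `σ` -/
def Many (A : ℕ) (σ : ℝ) : Prop := ∃ C1 C3 η X0 : ℝ, 1 ≤ C1 ∧ 1 ≤ C3 ∧ 0 < η ∧ ∀ X : ℝ, X0 ≤ X →
  ∃ X' : ℝ, X / C3 ≤ X' ∧ X' ≤ C3 * X ∧ η * X' < (EdBad A C1 X' σ).card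

/-- the target of part M -/
def S_MR : Prop := ∀ A : ℕ, Odd A → 3 ≤ A → Many A 1

-- deps: CNT
def S_TRI : Prop := ∀ A : ℕ, Odd A → 3 ≤ A → Many A (-1)

-- deps: TRANSFER MR TRI
def S_TOP : Prop := ∀ A : ℕ, Odd A → 3 ≤ A → ∃ c : ℝ, 0 < c ∧ ∀ᶠ N : ℕ in atTop,
  c * N ≤ (((range (N + 1)).filter fun x => Odd (cardFactors (x ^ 2 + x + A))).card : ℝ) ∧
  c * N ≤ (((range (N + 1)).filter fun x => Even (cardFactors (x ^ 2 + x + A))).card : ℝ)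

end Pool.Agent.P.MP_8be758_nt.Pd
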