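import Pool.Agent.P.MP_8be758_nt.Pd.DefsG

/-! Statements for the edge side: moments on atoms. -/

namespace Pool.Agent.P.MP_8be758_nt.Pd

open Finset Real Filter
open Pool.Agent.P.MP_8be758_nt.Par (det)
open Pool.Agent.P.MP_8be758_nt.Avg (rho)

-- deps: WIN
def S_ML : Prop := ∃ C : ℝ, 0 < C ∧ ∀ w y : ℝ, 2 ≤ y → ∑ p ∈ PP w y, log p / p ≤ C * log y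

-- deps: OK PROD MC EQ
def S_MCA : Prop := Unif fun _ ρ => ∀ (q : ℕ × ℕ × ℕ) (D1 D2 : ℕ) (c0 : G4) (Dp Lg : Finset ℕ)
  (F G : ℕ → G4 → ℝ), ρ.AD q D1 D2 c0 → Dp ⊆ ρ.Ps →
  (∀ p ∈ Lg, p.Prime ∧ ρ.y < p ∧ p ≠ q.1 ∧ p ≠ q.2.1 ∧ p ≠ q.2.2 ∧ S4.Per (p ^ 2) (G p) ∧
    ∀ g, 0 ≤ G p g ∧ G p g ≤ 1) →
  (∏ p ∈ Dp, (p : ℝ)) * ∏ p ∈ Lg, (p : ℝ) ≤ ρ.y ^ (10 * ρ.K') →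
  (∀ p ∈ ρ.Ps, S4.Per (p ^ 2) (F p) ∧ (∀ g, 0 ≤ F p g ∧ F p g ≤ 1) ∧ (p ∉ Dp →
    1 - 12 / (p : ℝ) ≤ S4.av (p ^ 2) fun g => Pr.al D1 D2 p (ρ.fm g) * F p g)) →
  |∑ g ∈ ρ.AT q D1 D2 c0, (∏ p ∈ Lg, G p g) * ∏ p ∈ ρ.Ps, F p g -
    ρ.Zb q c0 * (∏ p ∈ Lg, S4.av (p ^ 2) (G p)) *
      ∏ p ∈ ρ.Ps, S4.av (p ^ 2) fun g => Pr.al D1 D2 p (ρ.fm g) * F p g| ≤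
    (ρ.Zb q c0 * (∏ p ∈ Lg, S4.av (p ^ 2) (G p)) *
      ∏ p ∈ ρ.Ps, S4.av (p ^ 2) fun g => Pr.al D1 D2 p (ρ.fm g) * F p g) / 2 ^ ρ.K' + ρ.Er 30

-- deps: OK L1 L2 L3 LB
def S_ALP : Prop := Unif fun _ ρ => ∀ D1 D2 : ℕ, ∀ p ∈ ρ.Ps,
  (p ∣ D1 * D2 → (rho ρ.A p : ℝ) / (2 * p) ≤ ρ.aa D1 D2 p ∧ ρ.aa D1 D2 p ≤ (rho ρ.A p : ℝ) / p) ∧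
  (¬p ∣ D1 * D2 → 1 - 2 * (rho ρ.A p : ℝ) / p ≤ ρ.aa D1 D2 p ∧
    ρ.aa D1 D2 p ≤ 1 - 2 * (rho ρ.A p : ℝ) / p + 50 / (p : ℝ) ^ 2 ∧ ρ.aa D1 D2 p ≤ 1)

-- deps: MCA ALP L1
def S_ATC : Prop := Unif fun _ ρ => ∀ (q : ℕ × ℕ × ℕ) (D1 D2 : ℕ) (c0 : G4), ρ.AD q D1 D2 c0 →
  0 ≤ ρ.Zb q c0 * ∏ p ∈ ρ.Ps, ρ.aa D1 D2 p ∧
  |((ρ.AT q D1 D2 c0).card : ℝ) - ρ.Zb q c0 * ∏ p ∈ ρ.Ps, ρ.aa D1 D2 p| ≤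
    (ρ.Zb q c0 * ∏ p ∈ ρ.Ps, ρ.aa D1 D2 p) / 2 ^ ρ.K' + ρ.Er 30

-- deps: LAM L1
def S_SDS : Prop := Unif fun _ ρ => ∀ (q : ℕ × ℕ × ℕ) (D1 D2 : ℕ), ρ.QR q → ρ.DA D1 D2 →
  (Asg D1).card * (Asg D2).card = 3 ^ ρ.om (D1 * D2 : ℕ) ∧
  ((ρ.SD q D1 D2).card : ℝ) ≤ ρ.y ^ (4 * ρ.K') ∧
  (∀ α ∈ Asg D1, ∀ β ∈ Asg D2, ∀ v, ρ.Rng (mkS q α β v).a (mkS q α β v).T ∧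
    (mkS q α β v).T ≤ ρ.y ^ (2 * ρ.k4) ∧ (mkS q α β v).T < q.1 ∧
    ((mkS q α β v).a : ℝ) < (mkS q α β v).T * q.1) ∧
  (∀ σ ∈ ρ.SD q D1 D2, IsCoprime (σ.a : ℤ) σ.af ∧ 0 < σ.af ∧ 0 < σ.s ∧ 0 < σ.t ∧
    ¬(σ.q1 : ℤ) ∣ σ.af ∧ ¬(σ.q3 : ℤ) ∣ σ.af ∧ ¬(σ.q4 : ℤ) ∣ σ.af ∧ (σ.af : ℝ) ≤ ρ.y ^ ρ.U ∧
    ∀ θ : ℝ, 0 ≤ θ → 0 ≤ ρ.hh θ σ.af ∧ ρ.hh θ σ.af ≤ 2 ^ ρ.U * (ρ.hw (2 * θ) σ.af / σ.af)) ∧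
  ∀ F : Sd → ℝ, ∑ σ ∈ ρ.SD q D1 D2, F σ = ∑ α ∈ Asg D1, ∑ β ∈ Asg D2,
    ∑ v ∈ SR (mkS q α β 0).a (mkS q α β 0).T 2,
      ind (0 < v.1 ∧ 0 < v.2 ∧ mkS q α β v ∈ ρ.SD q D1 D2) * F (mkS q α β v)

-- deps: SDS
def S_CYC : Prop := Unif fun _ ρ => ∀ (q : ℕ × ℕ × ℕ) (D1 D2 : ℕ) (c0 : G4), ρ.AD q D1 D2 c0 →
  ∀ g ∈ ρ.AT q D1 D2 c0, ∀ α ∈ Asg D1, ∀ β ∈ Asg D2, ∀ v : V2,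
  let σ := mkS q α β v
  let x := ρ.cy (g, σ)
  0 < x.P ∧ 0 < x.R ∧ x.b ^ 2 - 4 * x.P * (x.a * x.R) = 1 - 4 * (ρ.A : ℤ) ∧
  x.P * x.R * x.a = (ρ.fm g).1 * (ρ.fm g).2.2 ∧ ρ.pf (x.P * x.R * x.a) = ρ.pf (D1 * D2 : ℕ) ∧
  x.af = σ.af ∧ (σ.dt : ℤ) * x.Bt = ev (ρ.fm g) σ.ut ∧ (σ.ds : ℤ) * x.As = ev (ρ.fm g) σ.us ∧
  (σ.GW0 ρ.w (ρ.fm c0) ↔ x.GW ρ.w) ∧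
  ∀ p : ℕ, p.Prime → p ≤ ρ.w → (p : ℤ) ∣ x.P → (p : ℤ) ∣ x.b → ¬(p : ℤ) ∣ x.R

-- deps: K4 SDS CYC
def S_LOCID : Prop := Unif fun _ ρ => ∀ (q : ℕ × ℕ × ℕ) (D1 D2 : ℕ) (c0 : G4) (θ : ℝ),
  ρ.AD q D1 D2 c0 → ∀ g ∈ ρ.AT q D1 D2 c0, ∀ σ ∈ ρ.SD q D1 D2,
  ρ.cv θ σ g = (1 / 3) ^ ρ.om (D1 * D2 : ℕ) * ind (σ.GW0 ρ.w (ρ.fm c0)) *
    ((∏ p ∈ ρ.lp σ.af, ind ((p : ℤ) ∣ ev (ρ.fm g) σ.ut)) *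
      ∏ p ∈ ρ.Ps, Pr.fv θ (D1 * D2) σ p (ρ.fm g)) ∧
  ∀ p ∈ ρ.Ps, ρ.Val (ρ.cy (g, σ)) → (p : ℤ) ∣ (ρ.cy (g, σ)).Nt * (ρ.cy (g, σ)).Ns →
    ¬(p : ℤ) ∣ (D1 * D2 : ℕ) * σ.af ∧ (p : ℤ) ∣ ev (ρ.fm g) σ.ut * ev (ρ.fm g) σ.us

-- deps: OK L1 L2 L3 LB ALP SDS
def S_LOWP : Prop := Unif fun _ ρ => ∀ (q : ℕ × ℕ × ℕ) (D1 D2 : ℕ), ρ.QR q → ρ.DA D1 D2 →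
  ∀ σ ∈ ρ.SD q D1 D2, ∀ p ∈ ρ.Ps,
  ρ.aa D1 D2 p * (if p ∣ D1 * D2 then 1 else ρ.ga p * ρ.sm σ.af p) *
    (1 - if (p : ℤ) ∣ (D1 * D2 : ℕ) * (σ.s * σ.t * σ.af) then 30 / (p : ℝ) else 200 / (p : ℝ) ^ 2) ≤
    S4.av (p ^ 2) (fun g => Pr.al D1 D2 p (ρ.fm g) * Pr.fv (1 / 6) (D1 * D2) σ p (ρ.fm g))

-- deps: OK L1 L2 LB ALP SDS
def S_PAIRP : Prop := Unif fun _ ρ => ∀ (q : ℕ × ℕ × ℕ) (D1 D2 : ℕ), ρ.QR q → ρ.DA D1 D2 →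
  ∀ σ ∈ ρ.SD q D1 D2, ∀ τ ∈ ρ.SD q D1 D2, ∀ p ∈ ρ.Ps,
  S4.av (p ^ 2) (fun g => Pr.al D1 D2 p (ρ.fm g) *
    (Pr.fv (1 / 6) (D1 * D2) σ p (ρ.fm g) * Pr.fv (1 / 6) (D1 * D2) τ p (ρ.fm g))) ≤
  ρ.aa D1 D2 p * (if p ∣ D1 * D2 then 1 else ρ.ga p * ρ.sm σ.af p * (ρ.ga p * ρ.sm τ.af p)) *
    (if p ∣ σ.dl τ then (p : ℝ) else 1) *
    (if ¬(p : ℤ) ∣ (D1 * D2 : ℕ) * (σ.s * σ.t) then 1 + 8 / (p : ℝ) * ind ((p : ℤ) ∣ σ.Xi τ) else 1) *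
    (1 + if (p : ℤ) ∣ (D1 * D2 : ℕ) * (σ.s * σ.t * σ.af) * (τ.s * τ.t * τ.af) then 30 / (p : ℝ)
      else 200 / (p : ℝ) ^ 2)

-- deps: L1 LB SDS
def S_SVP : Prop := Unif fun _ ρ => ∀ (q : ℕ × ℕ × ℕ) (D1 D2 : ℕ) (θ θ' : ℝ), ρ.QR q → ρ.DA D1 D2 →
  0 ≤ θ → θ ≤ 1 → 0 ≤ θ' → θ' ≤ 1 → ∀ σ ∈ ρ.SD q D1 D2, ∀ τ ∈ ρ.SD q D1 D2, ∀ p ∈ ρ.Ps,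
  S4.Per (p ^ 2) (fun g => Pr.fv θ (D1 * D2) σ p (ρ.fm g)) ∧
  (∀ φ, 0 ≤ Pr.fv θ (D1 * D2) σ p φ ∧ Pr.fv θ (D1 * D2) σ p φ ≤ 1) ∧
  (¬(p : ℤ) ∣ (D1 * D2 : ℕ) * σ.af →
    1 - 12 / (p : ℝ) ≤ S4.av (p ^ 2) fun g => Pr.al D1 D2 p (ρ.fm g) * Pr.fv θ (D1 * D2) σ p (ρ.fm g)) ∧
  (¬(p : ℤ) ∣ (D1 * D2 : ℕ) * σ.af * τ.af →
    1 - 12 / (p : ℝ) ≤ S4.av (p ^ 2) fun g => Pr.al D1 D2 p (ρ.fm g) *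
      (Pr.fv θ (D1 * D2) σ p (ρ.fm g) * Pr.fv θ' (D1 * D2) τ p (ρ.fm g)))

-- deps: OK L1 LB ALP SDS
def S_FMP : Prop := Unif fun _ ρ => ∀ (q : ℕ × ℕ × ℕ) (D1 D2 : ℕ) (θ : ℝ), ρ.QR q → ρ.DA D1 D2 →
  0 ≤ θ → θ ≤ 1 → ∀ σ ∈ ρ.SD q D1 D2, ∀ p ∈ ρ.Ps,
  S4.av (p ^ 2) (fun g => Pr.al D1 D2 p (ρ.fm g) * Pr.fv θ (D1 * D2) σ p (ρ.fm g)) ≤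
    ρ.aa D1 D2 p * (if (p : ℤ) ∣ σ.af then θ * (rho ρ.A p : ℝ) / p else 1) *
      exp (-(2 * (1 - θ)) * (rho ρ.A p : ℝ) / p +
        if (p : ℤ) ∣ (D1 * D2 : ℕ) * (σ.s * σ.t * σ.af) then 12 / (p : ℝ) else 200 / (p : ℝ) ^ 2) ∧
  (¬(p : ℤ) ∣ (D1 * D2 : ℕ) * σ.af →
    S4.av (p ^ 2) (fun g => ind ((p : ℤ) ∣ ev (ρ.fm g) σ.ut * ev (ρ.fm g) σ.us)) ≤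
      10 / p * (ρ.aa D1 D2 p * exp (-(2 * (1 - θ)) * (rho ρ.A p : ℝ) / p)))

-- deps: MCA ATC LOCID LOWP SVP SDS L1 LAM
def S_LOW : Prop := Unif fun C ρ => ∀ (q : ℕ × ℕ × ℕ) (D1 D2 : ℕ) (c0 : G4), ρ.AD q D1 D2 c0 →
  ∀ σ ∈ ρ.SD q D1 D2,
  (1 - C * ρ.ep) * (ρ.AT q D1 D2 c0).card * (ind (σ.GW0 ρ.w (ρ.fm c0)) * ρ.Mw (D1 * D2) σ) - ρ.Er 29 ≤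
    ∑ g ∈ ρ.AT q D1 D2 c0, ρ.cv (1 / 6) σ g

-- deps: MCA ATC LOCID PAIRP SVP SDS L1 L2 LAM
def S_PAIR : Prop := Unif fun C ρ => ∀ (q : ℕ × ℕ × ℕ) (D1 D2 : ℕ) (c0 : G4), ρ.AD q D1 D2 c0 →
  ∀ σ ∈ ρ.SD q D1 D2, ∀ τ ∈ ρ.SD q D1 D2,
  ∑ g ∈ ρ.AT q D1 D2 c0, ρ.cv (1 / 6) σ g * ρ.cv (1 / 6) τ g ≤
    (1 + C * ρ.ep) * (ρ.AT q D1 D2 c0).card *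
      (ind (σ.GW0 ρ.w (ρ.fm c0)) * ρ.Mw (D1 * D2) σ * (ind (τ.GW0 ρ.w (ρ.fm c0)) * ρ.Mw (D1 * D2) τ) *
        (σ.dl τ * ρ.En (D1 * D2) σ τ)) + ρ.Er 28

-- deps: MCA ATC LOCID FMP SVP SDS L1 LAM
def S_FM : Prop := Unif fun C ρ => ∀ (q : ℕ × ℕ × ℕ) (D1 D2 : ℕ) (c0 : G4) (θ : ℝ) (p0 : ℕ),
  ρ.AD q D1 D2 c0 → 0 ≤ θ → θ ≤ 1 → p0 = 1 ∨ p0 ∈ ρ.Ps → ∀ σ ∈ ρ.SD q D1 D2,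
  ∑ g ∈ ρ.AT q D1 D2 c0, ρ.cv θ σ g * ind ((p0 : ℤ) ∣ (ρ.cy (g, σ)).Nt * (ρ.cy (g, σ)).Ns) ≤
    C * (ρ.AT q D1 D2 c0).card * ((1 / 3) ^ ρ.om (D1 * D2 : ℕ) * exp (-(2 * (1 - θ)) * ρ.La) *
      ρ.hh θ σ.af / p0) + ρ.Er 28

-- deps: FM SDS HS
def S_FS : Prop := Unif fun C ρ => ∀ (q : ℕ × ℕ × ℕ) (D1 D2 : ℕ) (c0 : G4) (θ : ℝ) (p0 : ℕ),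
  ρ.AD q D1 D2 c0 → 0 ≤ θ → θ ≤ 2 / 3 → p0 = 1 ∨ p0 ∈ ρ.Ps →
  ∑ σ ∈ ρ.SD q D1 D2, ∑ g ∈ ρ.AT q D1 D2 c0,
      ρ.cv θ σ g * ind ((p0 : ℤ) ∣ (ρ.cy (g, σ)).Nt * (ρ.cy (g, σ)).Ns) ≤
    C * 2 ^ ρ.U * (ρ.AT q D1 D2 c0).card * exp ((3 * θ - 3) * ρ.La) / p0 + ρ.Er 24

-- deps: PS HS SDS LAM
def S_PSA : Prop := Unif fun C ρ => ∀ (q : ℕ × ℕ × ℕ) (D1 D2 : ℕ), ρ.QR q → ρ.DA D1 D2 →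
  ∑ σ ∈ ρ.SD q D1 D2, ∑ τ ∈ ρ.SD q D1 D2, ρ.Mw (D1 * D2) σ * ρ.Mw (D1 * D2) τ *
    (ind ((σ.dl τ : ℝ) ≤ ρ.y) * (σ.dl τ * ρ.En (D1 * D2) σ τ - 1)) ≤
    C * 4 ^ ρ.U / √ρ.w * exp (-5 * ρ.La)

-- deps: CR ND SDS LAM
def S_PSB : Prop := Unif fun _ ρ => ∀ (q : ℕ × ℕ × ℕ) (D1 D2 : ℕ), ρ.QR q → ρ.DA D1 D2 →
  ∑ σ ∈ ρ.SD q D1 D2, ∑ τ ∈ ρ.SD q D1 D2, ρ.Mw (D1 * D2) σ * ρ.Mw (D1 * D2) τ *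
    (ind (τ ≠ σ ∧ ρ.y < (σ.dl τ : ℝ)) * (σ.dl τ * ρ.En (D1 * D2) σ τ)) ≤ 1 / √ρ.w * exp (-5 * ρ.La)

-- deps: OK PROD EQ GCNT L1 MER
def S_QCNT : Prop := Unif fun C ρ => (ρ.E.card : ℝ) ≤ C * ρ.X ∧
  ∑ q ∈ ρ.I1 ×ˢ ρ.I3 ×ˢ ρ.I4, (1 : ℝ) / (q.1 * q.2.1 * q.2.2) ≤ C * (ρ.k6 : ℝ) ^ 3 ∧
  ∀ q : ℕ × ℕ × ℕ, ρ.QR q → ∑ g ∈ ρ.E, ind (Pr.QD q (ρ.fm g)) ≤ C * ρ.X / (q.1 * q.2.1 * q.2.2)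

-- deps:
def S_ATS : Prop := Unif fun _ ρ =>
  (∀ F : G4 × Sd → ℝ, ∑ τ ∈ ρ.Tu, F τ = ∑ q ∈ ρ.I1 ×ˢ ρ.I3 ×ˢ ρ.I4, ∑ D ∈ ρ.DS,
    ∑ c0 ∈ S4.U (ρ.W ^ 2), ∑ σ ∈ ρ.SD q D.1 D.2, ∑ g ∈ ρ.AT q D.1 D.2 c0,
      ind (ρ.Val (ρ.cy (g, σ))) * F (g, σ)) ∧
  (∀ (q : ℕ × ℕ × ℕ) (F : G4 → ℝ), ∑ D ∈ ρ.DS, ∑ c0 ∈ S4.U (ρ.W ^ 2), ∑ g ∈ ρ.AT q D.1 D.2 c0, F g =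
    ∑ g ∈ ρ.E, ind (ρ.Typ (ρ.fm g) ∧ Pr.QD q (ρ.fm g)) * F g) ∧
  (∀ (q : ℕ × ℕ × ℕ) (D1 D2 : ℕ), ∑ c0 ∈ S4.U (ρ.W ^ 2), ((ρ.AT q D1 D2 c0).card : ℝ) =
    (ρ.AP q D1 D2).card) ∧
  ((ρ.I1 ×ˢ ρ.I3 ×ˢ ρ.I4).card : ℝ) * ρ.DS.card * (S4.U (ρ.W ^ 2)).card ≤ ρ.y ^ (6 * ρ.K')

-- deps: FS ATS QCNT LAM ML
def S_BAD : Prop := Unif fun C ρ => ∑ τ ∈ ρ.Tu, ind (¬ρ.Gd (ρ.cy τ)) * ρ.cw (1 / 6) (ρ.cy τ) ≤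
  C * 2 ^ ρ.U * (ρ.k6 : ℝ) ^ 3 / ρ.K' * ρ.X * exp (-(5 / 2) * ρ.La)

end Pool.Agent.P.MP_8be758_nt.Pd
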