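import Pool.Agent.P.MP_8be758_nt.Pd.BasicM

/-! Statements of the mean value part. -/

namespace Pool.Agent.P.MP_8be758_nt.Pd

open Finset Real Filter
open Pool.Agent.P.MP_8be758_nt.Par (nq mul cj det io et)
open Pool.Agent.P.MP_8be758_nt.Avg (rho)
open Pool.Agent.P.MP_8be758_nt.Pd.Mr

/-! ### Energy -/

-- deps:
def S_FEJ : Prop := ∀ n : ℕ, 1 ≤ n →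
  (∀ z : ℂ, ‖z‖ = 1 → KF n z ≤ n ∧ KF n z * (n * ‖z - 1‖ ^ 2) ≤ 4 ∧
    (n * ‖z - 1‖ ≤ 1 → (n : ℝ) / 4 ≤ KF n z ∧ n * ‖z - 1‖ ≤ 2 * ‖z ^ n - 1‖) ∧
    (KF n z : ℂ) = (∑ j ∈ range n, ∑ j' ∈ range n, z ^ ((j : ℤ) - j')) / n) ∧
  ∀ (W : Finset V2) (u : V2 → ℂ) (a : V2 → ℝ), (∀ v ∈ W, ‖u v‖ = 1) →
    (∑ v ∈ W, a v) ^ 2 ≤ ∑ v ∈ W, ∑ w ∈ W, a v * a w * KF n (u v * (starRingEnd ℂ) (u w)) ∧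
    ∑ v ∈ W, ∑ w ∈ W, a v * a w * KF n (u v * (starRingEnd ℂ) (u w)) ≤
      ∑ k ∈ Icc (-(n : ℤ)) n, ‖∑ v ∈ W, (a v : ℂ) * u v ^ k‖ ^ 2

-- deps:
def S_MVT : Prop := ∃ C : ℝ, 1 ≤ C ∧ ∀ (A : ℕ) (ι : Type) (I : Finset ι) (z : ι → V2) (a : ι → ℂ)
  (K : Finset ℤ) (T Y : ℝ), 2 ≤ A → 0 ≤ T → 1 ≤ Y → Bd K T →
  (∀ i ∈ I, z i ≠ 0 ∧ (nq A (z i) : ℝ) ≤ Y) →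
  ∑ k ∈ K, ‖∑ i ∈ I, a i * ek A k (z i)‖ ^ 2 ≤ C * (T + Y) * col I z a

-- deps: MVT
def S_MVP : Prop := ∃ C : ℝ, 1 ≤ C ∧ ∀ (A : ℕ) (a : V2 → ℝ) (K : Finset ℤ) (T Y : ℝ),
  2 ≤ A → 0 ≤ T → 1 ≤ Y → Bd K T →
  ∑ k ∈ K, ‖∑ v ∈ VV (Q0 A) 0 Y, (a v : ℂ) * ek A k v‖ ^ 2 ≤
    C * (T + Y) * ∑ v ∈ VV (Q0 A) 0 Y, a v ^ 2

-- deps: FEJ
def S_FAR : Prop := ∀ (A n L : ℕ) (X : ℝ), 2 ≤ A → 1 ≤ n → 1 ≤ L → 0 < X →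
  ∑ v ∈ VX A X, ∑ w ∈ (VX A X).filter (fun w => (L : ℤ) < |det v w|),
    KF n (uu A v * (starRingEnd ℂ) (uu A w)) ≤ 96 * (VX A X).card * X ^ 2 / (n * L)

-- deps:
def S_NEAR : Prop := ∀ A L : ℕ, 2 ≤ A → 1 ≤ L → ∃ C1 C3 C X0 : ℝ, 1 ≤ C1 ∧ 1 ≤ C3 ∧ 0 < C ∧
  ∀ X η : ℝ, X0 ≤ X → 0 ≤ η →
  (∀ X' : ℝ, X / C3 ≤ X' → X' ≤ C3 * X → ((EdBad A C1 X' 1).card : ℝ) ≤ η * X') →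
  (((VX A X ×ˢ VX A X).filter fun g => |det g.1 g.2| ≤ (L : ℤ) ∧ fl A g.1 ≠ fl A g.2).card : ℝ) ≤
    C * η * X

-- deps: FEJ FAR NEAR CNT
def S_EN : Prop := ∀ (A : ℕ) (η L X0 : ℝ), 2 ≤ A → ¬Many A 1 → 0 < η → 1 ≤ L →
  ∃ X : ℝ, X0 ≤ X ∧ (1 - η) * ((VX A X).card : ℝ) ^ 2 ≤ ∑ k ∈ KT X L, ‖FX A X k‖ ^ 2

/-! ### Stages -/

-- deps: RED
def S_THUE : Prop := ∀ A p : ℕ, 2 ≤ A → p.Prime → 1 ≤ rho A p →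
  ∃ (β : ℕ) (g : V2), 1 ≤ β ∧ β ≤ 4 * A ∧ nq A g = β * p

-- deps: THUE MER
def S_SEL : Prop := ∀ A : ℕ, Odd A → 3 ≤ A → ∃ c C : ℝ, 0 < c ∧ 0 < C ∧ ∀ P Q H : ℝ,
  4 * (A : ℝ) ≤ P → P ≤ Q → 2 ≤ H → ∃ σ : St, σ.OK A ∧ σ.P = P ∧ σ.Q = Q ∧ σ.H = H ∧
    c * log (log Q / log P) - C ≤ σ.E

-- deps:
def S_DV : Prop := ∀ (A p : ℕ) (g : V2), p.Prime → (p : ℤ) ∣ nq A g →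
  ¬((p : ℤ) ∣ g.1 ∧ (p : ℤ) ∣ g.2) →
  SP.Per p (fun v => ind (Dv A p g v)) ∧ SP.av p (fun v => ind (Dv A p g v)) = 1 / ((p : ℝ) + 1)

-- deps: OK DV
def S_TK : Prop := ∀ (A : ℕ) (σ : St) (G : Finset V2) (Mx err : ℝ), σ.OK A → σ.Q ^ 2 ≤ Mx →
  0 ≤ err → SP.Equi G (fun _ => 1) G.card Mx err →
  ∑ v ∈ G, (σ.om A v - σ.E) ^ 2 ≤ G.card * σ.E + 3 * (σ.S.card : ℝ) ^ 2 * err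

-- deps:
def S_BIJ : Prop := ∀ (A : ℕ) (σ : St) (p : ℕ), 2 ≤ A → σ.OK A → p ∈ σ.S →
  (∀ u : V2, σ.Lam A u → ∃ w : V2, (σ.β : ℤ) • w = mul A (σ.γ p) u ∧
    (p : ℤ) • u = mul A (cj (σ.γ p)) w ∧ (Pr w ∨ ∃ v : V2, Pr v ∧ w = (p : ℤ) • v)) ∧
  ∀ v : V2, Pr v → Dv A p (cj (σ.γ p)) v →
    ∃ u : V2, σ.Lam A u ∧ (σ.β : ℤ) • v = mul A (σ.γ p) u ∧ (p : ℤ) • u = mul A (cj (σ.γ p)) v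

-- deps: BIJ
def S_RAM0 : Prop := ∀ (A : ℕ) (σ : St) (p : ℕ) (X : ℝ) (k : ℤ), 2 ≤ A → σ.OK A → p ∈ σ.S → 0 < X →
  ek A k (σ.γ p) * FS A (σ.W A X (σ.blk p)) k = (σ.sg : ℂ) *
    (FS A ((VV (Q0 A) 0 (4 * X)).filter fun v => Dv A p (cj (σ.γ p)) v ∧
        X * p / σ.Ph (σ.blk p) < (nq A v : ℝ) ∧ (nq A v : ℝ) ≤ 2 * X * p / σ.Ph (σ.blk p)) k +
      FS A ((VV (Q0 A) 0 (4 * X)).filter fun v =>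
        mul A (cj (σ.γ p)) v ∈ σ.W A X (σ.blk p)) k)

-- deps: RAM0
def S_RAM1 : Prop := ∀ (A : ℕ) (σ : St) (X : ℝ), 2 ≤ A → σ.OK A → 0 < X → ∃ a : V2 → ℝ,
  (∀ v, |a v| ≤ σ.ab A X v) ∧ ∀ k : ℤ, (σ.E : ℂ) * FX A X k =
    (σ.sg : ℂ) * ∑ h ∈ range σ.nb, σ.G A h k * FS A (σ.W A X h) k +
      ∑ v ∈ VV (Q0 A) 0 (4 * X), (a v : ℂ) * ek A k v

-- deps: AREA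
def S_MU2 : Prop := ∀ A : ℕ, 2 ≤ A → ∃ C : ℝ, 0 < C ∧ ∀ (σ : St) (X : ℝ), σ.OK A → σ.Q ^ 2 ≤ X →
  ∑ v ∈ VV (Q0 A) 0 (4 * X), σ.mu A X v ^ 2 ≤ C * X * σ.E

-- deps: TK MU2 VEQ AREA
def S_RAM2 : Prop := ∀ A : ℕ, 2 ≤ A → ∃ C : ℝ, 0 < C ∧ ∀ (σ : St) (X : ℝ), σ.OK A → 1 ≤ X →
  1 ≤ σ.E → σ.H ≤ σ.Q → σ.Q ≤ X ^ (1 / 40 : ℝ) →
  ∑ v ∈ VV (Q0 A) 0 (4 * X), σ.ab A X v ^ 2 ≤ C * X * (σ.E + σ.E ^ 2 / σ.H)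

-- deps: MVP RAM1 RAM2
def S_ST0 : Prop := ∀ A : ℕ, 2 ≤ A → ∃ C : ℝ, 0 < C ∧ ∀ (σ : St) (X : ℝ) (K : Finset ℤ),
  σ.OK A → 1 ≤ X → 1 ≤ σ.E → σ.H ≤ σ.Q → σ.Q ≤ X ^ (1 / 40 : ℝ) → Bd K X →
  ∑ k ∈ K, ‖FX A X k‖ ^ 2 ≤
    2 * σ.nb * ∑ h ∈ range σ.nb, ∑ k ∈ K, ‖σ.G A h k‖ ^ 2 * ‖FS A (σ.W A X h) k‖ ^ 2 +
      C * X ^ 2 * (1 / σ.H + 1 / σ.E)

-- deps: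
def S_MOMA : Prop := ∀ (A β : ℕ) (γ : ℕ → V2) (s t : Multiset ℕ) (u u' : V2), 2 ≤ A → 1 ≤ β →
  β ≤ 4 * A → (∀ p ∈ s + t, Gp A β γ p) → (∀ p ∈ s, p ∉ t) → Pr u → Pr u' →
  det (mul A (pv A (s.map γ)) u) (mul A (pv A (t.map γ)) u') = 0 →
  ∃ d : ℕ, d ∣ (s + t).prod ∧ (d : ℤ) ∣ nq A u ∧
    ((s + t).prod : ℕ) * nq A u ≤ (d : ℤ) ^ 2 * (4 * A) ^ (s + t).card * nq A u'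

-- deps: MOMA LATD
def S_MOMB : Prop := ∀ A : ℕ, 2 ≤ A → ∃ C : ℝ, 1 ≤ C ∧ ∀ (β : ℕ) (γ : ℕ → V2) (I : Finset ℕ)
  (P Y : ℝ) (W : Finset V2) (l : ℕ) (s t : Multiset ℕ), Blk A β γ I P → Sm A W Y → 1 ≤ Y →
  (∀ p ∈ s + t, p ∈ I) → s.card = l → t.card = l →
  (((W ×ˢ W).filter fun g =>
    det (mul A (pv A (s.map γ)) g.1) (mul A (pv A (t.map γ)) g.2) = 0).card : ℝ) ≤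
    C ^ (l + 1) * Y / P ^ (s - t).card

-- deps:
def S_MOMC : Prop := ∀ (I : Finset ℕ) (l : ℕ) (P : ℝ), 1 ≤ P → (I.card : ℝ) ≤ 2 * P →
  ∑ p ∈ Fintype.piFinset (fun _ : Fin l => I), ∑ q ∈ Fintype.piFinset (fun _ : Fin l => I),
    1 / P ^ (ms p - ms q).card ≤ (2 * (l + 2) * P) ^ l

-- deps: MVT MOMB MOMC
def S_MOM : Prop := ∀ A : ℕ, 2 ≤ A → ∃ C : ℝ, 1 ≤ C ∧ ∀ (β : ℕ) (γ : ℕ → V2) (I : Finset ℕ)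
  (P Y T : ℝ) (W : Finset V2) (l : ℕ) (K : Finset ℤ), Blk A β γ I P → Sm A W Y → 1 ≤ Y → 0 ≤ T →
  Bd K T → ∑ k ∈ K, ‖GS A γ I k‖ ^ (2 * l) * ‖FS A W k‖ ^ 2 ≤
    (C * (l + 1)) ^ (l + 1) * (T + (C * P) ^ l * Y) * Y * P ^ l

-- deps: ST0 MOM
def S_ST1 : Prop := ∀ (A : ℕ) (α : ℝ), 2 ≤ A → 0 < α → ∃ C μ0 : ℝ, 0 < C ∧
  ∀ (μ a X : ℝ) (σ : St) (K : Finset ℤ), μ0 ≤ μ → σ.OK A → σ.Pm μ → 1 ≤ σ.E → 1 ≤ X →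
  σ.Q ≤ X ^ (1 / 40 : ℝ) → α ≤ a → Bd K (X / exp (2 * μ ^ 10)) → (∀ k ∈ K, σ.Good A a k) →
  ∑ k ∈ K, ‖FX A X k‖ ^ 2 ≤ C * X ^ 2 * (1 / μ + 1 / σ.E)

-- deps:
def S_PAR2 : Prop := ∀ α C : ℝ, 0 < α → 1 ≤ C → ∃ μ0 : ℝ, ∀ (μ y y' : ℝ) (l : ℕ), μ0 ≤ μ →
  μ ^ 8 ≤ y → y ≤ μ ^ 10 → μ ^ 4 ≤ y' → y' ≤ μ ^ 5 → l * y' ≤ y + y' →
  16 * μ ^ 28 * ((C * (l + 1)) ^ (l + 1) * exp (2 * y' - 2 * (α / μ) * y)) ≤ 1 / μ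

-- deps: ST0 MOM PAR2
def S_ST2 : Prop := ∀ (A : ℕ) (α : ℝ), 2 ≤ A → 0 < α → ∃ C μ0 : ℝ, 0 < C ∧
  ∀ (μ a a' X : ℝ) (σ σ' : St) (K : Finset ℤ), μ0 ≤ μ → σ.OK A → σ'.OK A → σ.Pm (μ ^ 2) →
  σ'.Pm μ → 1 ≤ σ.E → 1 ≤ X → σ.Q ≤ X ^ (1 / 40 : ℝ) → 0 ≤ a' → a' ≤ 1 → α / μ ^ 2 ≤ a - a' →
  Bd K X → (∀ k ∈ K, σ.Good A a k ∧ ¬σ'.Good A a' k) →
  ∑ k ∈ K, ‖FX A X k‖ ^ 2 ≤ C * X ^ 2 * (1 / μ ^ 2 + 1 / σ.E)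

-- deps: MOM
def S_UB : Prop := ∀ (A : ℕ) (α : ℝ), 2 ≤ A → 0 < α → ∃ X0 : ℝ,
  ∀ (μ a X : ℝ) (σ : St) (K : Finset ℤ), X0 ≤ X → σ.OK A → σ.Pm μ → σ.Q ≤ X ^ (1 / 40 : ℝ) →
  log X ≤ 40 * μ ^ 20 → 0 ≤ a → a ≤ α → Bd K X → (∀ k ∈ K, ¬σ.Good A a k) →
  (K.card : ℝ) ≤ X ^ (3 * α)

-- deps: SEL ST1 ST2 UB
def S_STG : Prop := ∀ (A : ℕ) (α ε : ℝ), Odd A → 3 ≤ A → 0 < α → 0 < ε → ∃ L X0 : ℝ, 1 ≤ L ∧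
  ∀ X : ℝ, X0 ≤ X → ∃ U ⊆ KT X L, (U.card : ℝ) ≤ X ^ α ∧
    ∑ k ∈ KT X L \ U, ‖FX A X k‖ ^ 2 ≤ ε * X ^ 2

/-! ### Exponential sums -/

-- deps: AREA
def S_SH0 : Prop := ∀ A : ℕ, 2 ≤ A → ∃ C : ℝ, 0 < C ∧ ∀ (N r : ℝ) (d : V2) (g : V2 → ℂ),
  1 ≤ N → 1 ≤ r → ‖io A d‖ ≤ r → (∀ v, ‖g v‖ ≤ 1) →
  ‖∑ v ∈ An (Q0 A) 0 N, g (v + d) - ∑ v ∈ An (Q0 A) 0 N, g v‖ ≤ C * r * √N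

-- deps: SH0 AREA
def S_SHF : Prop := ∀ A : ℕ, 2 ≤ A → ∃ C : ℝ, 0 < C ∧ ∀ (N : ℝ) (k : ℤ) (m : ℕ) (v0 v1 : V2),
  1 ≤ N → 0 < m →
  ‖∑ v ∈ (An (Q0 A) 0 N).filter (fun v => C2 m v v0), ek A k v -
    ∑ v ∈ (An (Q0 A) 0 N).filter (fun v => C2 m v v1), ek A k v‖ ≤
    C * m * (|(k : ℝ)| + 1) * N ^ (3 / 4 : ℝ)

-- deps: SHF FEJ
def S_ES0 : Prop := ∀ A : ℕ, 2 ≤ A → ∃ C : ℝ, 0 < C ∧ ∀ (N : ℝ) (k : ℤ) (m : ℕ) (v0 : V2),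
  1 ≤ N → 0 < m → k ≠ 0 →
  ‖∑ v ∈ (An (Q0 A) 0 N).filter (fun v => C2 m v v0), ek A k v‖ ≤
    C * m * |(k : ℝ)| ^ 7 * N ^ (3 / 4 : ℝ)

-- deps:
def S_VD1 : Prop := ∀ κ : ℕ, ∃ (b : ℕ) (C : ℝ), 0 < C ∧
  ∀ (f : ℕ → ℝ → ℝ) (lo hi mu τ : ℝ) (n : ℕ),
  (∀ j, ∀ x ∈ Set.Icc (0 : ℝ) ((κ + 3) * n), HasDerivAt (f j) (f (j + 1) x) x) →
  (∀ x ∈ Set.Icc (0 : ℝ) ((κ + 3) * n), lo ≤ f (κ + 1) x ∧ f (κ + 1) x ≤ hi) →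
  (∀ x ∈ Set.Icc (0 : ℝ) ((κ + 3) * n), |f (κ + 2) x| ≤ mu) →
  0 < τ → τ ≤ 1 / 2 → 0 < lo → hi ≤ τ ^ b → 1 ≤ τ ^ b * n →
  lo + mu * n ≤ τ ^ b * (n : ℝ) ^ (κ + 1) * lo ^ 2 → (lo + mu * n) * hi ≤ τ ^ b * n * lo ^ 2 →
  ‖∑ t ∈ range n, Complex.exp (f 0 t * Complex.I)‖ ≤ C * τ * n

-- deps:
def S_CHN : Prop := ∀ (z : ℂ) (m c : ℝ), z.im ≠ 0 → ∃ f : ℕ → ℝ → ℝ,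
  (∀ j x, HasDerivAt (f j) (f (j + 1) x) x) ∧ (∀ x : ℝ, f 0 x = c * Complex.arg (z + m * x)) ∧
  ∀ (i : ℕ) (x : ℝ), f (i + 1) x =
    c * m ^ (i + 1) * (-1) ^ i * i.factorial * ((z + m * x)⁻¹ ^ (i + 1)).im

-- deps: VD1 CHN
def S_SEG : Prop := ∀ J : ℕ, ∃ (B : ℕ) (τ0 C : ℝ), 0 < τ0 ∧ 0 < C ∧
  ∀ (R τ m : ℝ) (k : ℤ) (z : ℂ) (n : ℕ), 0 < τ → τ ≤ τ0 → 1 ≤ τ ^ B * R → 1 ≤ τ ^ B * |(k : ℝ)| →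
  |(k : ℝ)| ≤ R ^ (2 * J) → 1 ≤ m → m * τ ≤ 1 → ‖z‖ ≤ R →
  τ * R ^ (2 * J + 2) ≤ |(z ^ (2 * J + 2)).im| → τ ^ 5 * R ≤ n → n ≤ 2 * τ ^ 5 * R →
  ‖∑ t ∈ range n, ((z + m * t) ^ 2 / ((‖z + m * t‖ ^ 2 : ℝ) : ℂ)) ^ k‖ ≤ C * τ * n

-- deps:
def S_SUBL : Prop := ∀ A j : ℕ, 2 ≤ A → 1 ≤ j → ∃ C : ℝ, 0 < C ∧ ∀ R w : ℝ, 1 ≤ R → 0 < w → w ≤ 1 →
  (((An (Q0 A) 0 (R ^ 2)).filter fun v => |(io A v ^ j).im| ≤ (w * R) ^ j).card : ℝ) ≤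
    C * (w * R ^ 2 + R)

-- deps: SEG SUBL SH0 AREA
def S_ES1 : Prop := ∀ A J : ℕ, 2 ≤ A → ∃ c C : ℝ, 0 < c ∧ 0 < C ∧
  ∀ (N : ℝ) (k : ℤ) (m : ℕ) (v0 : V2), 1 ≤ N → 0 < m → N ^ (1 / 40 : ℝ) ≤ |(k : ℝ)| →
  |(k : ℝ)| ≤ N ^ J →
  ‖∑ v ∈ (An (Q0 A) 0 N).filter (fun v => C2 m v v0), ek A k v‖ ≤ C * m * N ^ (1 - c)

-- deps: ES0 ES1 AREA
def S_ES : Prop := ∀ A J : ℕ, 2 ≤ A → ∃ c C : ℝ, 0 < c ∧ c ≤ 1 / 2 ∧ 0 < C ∧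
  ∀ (N N1 N2 : ℝ) (k : ℤ) (m : ℕ) (φ : V2 → ℝ), 1 ≤ N → 0 ≤ N1 → N1 ≤ N2 → N2 ≤ N → 0 < m →
  k ≠ 0 → |(k : ℝ)| ≤ N ^ J → S2.Per m φ → (∀ v, |φ v| ≤ 1) →
  ‖∑ v ∈ An (Q0 A) N1 N2, (φ v : ℂ) * ek A k v‖ ≤ C * (m : ℝ) ^ 3 * N ^ (1 - c)

-- deps: ES AREA
def S_PES : Prop := ∀ A J : ℕ, 2 ≤ A → ∃ c C : ℝ, 0 < c ∧ c ≤ 1 / 2 ∧ 0 < C ∧
  ∀ (N N1 N2 : ℝ) (k : ℤ) (m : ℕ) (φ : V2 → ℝ), 1 ≤ N → 0 ≤ N1 → N1 ≤ N2 → N2 ≤ N → 0 < m →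
  k ≠ 0 → |(k : ℝ)| ≤ N ^ J → S2.Per m φ → (∀ v, |φ v| ≤ 1) →
  ‖∑ v ∈ VV (Q0 A) N1 N2, (φ v : ℂ) * ek A k v‖ ≤ C * (m : ℝ) ^ 3 * N ^ (1 - c)

/-! ### The last stage -/

-- deps:
def S_GRAM : Prop := ∀ (A : ℕ) (G : Finset V2) (U : Finset ℤ) (d : ℤ → ℂ) (err : ℝ), 2 ≤ A →
  (∀ v ∈ G, v ≠ 0) → 0 ≤ err →
  (∀ k ∈ U, ∀ k' ∈ U, k ≠ k' → ‖∑ v ∈ G, ek A (k - k') v‖ ≤ err) →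
  |∑ v ∈ G, ‖Phi A U d v‖ ^ 2 - G.card * ∑ k ∈ U, ‖d k‖ ^ 2| ≤ err * U.card * ∑ k ∈ U, ‖d k‖ ^ 2

-- deps: OK DV VEQ CNT
def S_PRA : Prop := ∀ A : ℕ, 2 ≤ A → ∃ c X0 : ℝ, 0 < c ∧ ∀ (X : ℝ) (p q : ℕ) (g g' : V2),
  X0 ≤ X → p.Prime → q.Prime → p ≠ q → (p : ℝ) ≤ X ^ (1 / 40 : ℝ) → (q : ℝ) ≤ X ^ (1 / 40 : ℝ) →
  (p : ℤ) ∣ nq A g → ¬((p : ℤ) ∣ g.1 ∧ (p : ℤ) ∣ g.2) →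
  (q : ℤ) ∣ nq A g' → ¬((q : ℤ) ∣ g'.1 ∧ (q : ℤ) ∣ g'.2) →
  c * X / p ≤ (((VV (Q0 A) (6 / 5 * X) (8 / 5 * X)).filter fun v =>
    Dv A p g v ∧ ¬Dv A q g' v).card : ℝ)

-- deps: BIJ
def S_PRB : Prop := ∀ (A : ℕ) (σ : St) (p q : ℕ), 2 ≤ A → σ.OK A → p ∈ σ.S → q ∈ σ.S →
  ∃ φ : V2 → V2, Set.InjOn φ {v | Pr v ∧ Dv A p (cj (σ.γ p)) v ∧ ¬Dv A q (σ.γ q) v} ∧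
    ∀ v : V2, Pr v → Dv A p (cj (σ.γ p)) v → ¬Dv A q (σ.γ q) v →
      Pr (φ v) ∧ Dv A q (cj (σ.γ q)) (φ v) ∧ p * nq A (φ v) = q * nq A v ∧ fl A (φ v) = fl A v ∧
      ∀ k : ℤ, ek A k (φ v) * ek A k (σ.γ p) = ek A k (σ.γ q) * ek A k v

-- deps: PRA PRB PES GRAM
def S_PR2 : Prop := ∀ A : ℕ, 2 ≤ A → ∃ c κ C X0 : ℝ, 0 < c ∧ 0 < κ ∧ κ ≤ 1 / 2 ∧ 0 < C ∧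
  ∀ (X : ℝ) (σ : St) (p q : ℕ) (U : Finset ℤ) (d : ℤ → ℂ), X0 ≤ X → σ.OK A → 10 ≤ σ.H →
  σ.Q ≤ X ^ (1 / 40 : ℝ) → p ∈ σ.S → q ∈ σ.S → σ.blk p = σ.blk q → Bd U X →
  c * X / p * ∑ k ∈ U, ‖d k‖ ^ 2 * ‖ek A k (σ.γ p) - ek A k (σ.γ q)‖ ^ 2 ≤
    2 * dis A ((VX A X).filter fun v => Dv A p (cj (σ.γ p)) v) U d +
    2 * dis A ((VX A X).filter fun v => Dv A q (cj (σ.γ q)) v) U d +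
    C * σ.Q ^ 6 * X ^ (1 - κ) * U.card * ∑ k ∈ U, ‖d k‖ ^ 2

-- deps:
def S_DV2 : Prop := ∀ A q : ℕ, q.Prime →
  S2.Per q (fun v => ind ((q : ℤ) ∣ nq A v)) ∧
  S2.av q (fun v => ind ((q : ℤ) ∣ nq A v)) = (rho A q * ((q : ℝ) - 1) + 1) / (q : ℝ) ^ 2

-- deps: MER
def S_PRD : Prop := ∀ A : ℕ, Odd A → 3 ≤ A → ∃ C : ℝ, 0 < C ∧ ∀ y : ℝ, 4 * (A : ℝ) ≤ y →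
  ∏ q ∈ PP (4 * A) y, (1 - (rho A q * ((q : ℝ) - 1) + 1) / (q : ℝ) ^ 2) ≤ C / log y

-- deps: ES LAT FEJ
def S_EQK : Prop := ∀ A J : ℕ, 2 ≤ A → ∃ c C : ℝ, 0 < c ∧ c ≤ 1 / 2 ∧ 0 < C ∧
  ∀ (N Mx : ℝ) (k : ℤ) (n : ℕ) (ζ : ℂ), 1 ≤ n → (n : ℝ) ≤ N → 1 ≤ Mx → k ≠ 0 → |(k : ℝ)| ≤ N ^ J →
  ‖ζ‖ = 1 → S2.Equi (An (Q0 A) 0 N) (fun v => KF n (ζ * ek A k v)) (An (Q0 A) 0 N).card Mx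
    (C * n * Mx ^ 3 * N ^ (1 - c))

-- deps: OK MC EQK DV2 PRD AREA
def S_SIEV : Prop := ∀ A J : ℕ, Odd A → 3 ≤ A → ∃ C : ℝ, 0 < C ∧ ∀ n : ℕ, 1 ≤ n → ∃ N0 : ℝ,
  ∀ (N : ℝ) (k : ℤ) (ζ : ℂ), N0 ≤ N → k ≠ 0 → |(k : ℝ)| ≤ N ^ J → ‖ζ‖ = 1 →
  ∑ v ∈ (An (Q0 A) 0 N).filter (Ro A √N), KF n (ζ * ek A k v) ≤ C * N / log N

-- deps: FEJ SIEV
def S_NONC : Prop := ∀ (A : ℕ) (a τ : ℝ), Odd A → 3 ≤ A → 0 < a → 0 < τ → ∃ c X0 : ℝ, 0 < c ∧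
  c ≤ 1 ∧ ∀ (X P : ℝ) (β : ℕ) (γ : ℕ → V2) (I : Finset ℕ) (k : ℤ), X0 ≤ X → Blk A β γ I P →
  X ^ a ≤ P → τ * P / log X ≤ I.card → k ≠ 0 → |(k : ℝ)| ≤ X →
  ‖GS A γ I k‖ ≤ (1 - c) * I.card

-- deps:
def S_SGN : Prop := ∀ A : ℕ, 2 ≤ A → ∃ n : ℕ, 4 ≤ n ∧ fl A (n, 1) ≠ fl A (n + 1, 1)

-- deps: SGN VEQ CNT AREA
def S_FLIP : Prop := ∀ A : ℕ, 2 ≤ A → ∃ c X0 : ℝ, 0 < c ∧ c ≤ 1 ∧ ∀ X : ℝ, X0 ≤ X →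
  ‖FX A X 0‖ ≤ (1 - c) * (VX A X).card

-- deps: PES GRAM CNT
def S_LSA : Prop := ∀ A : ℕ, 2 ≤ A → ∃ α X0 : ℝ, 0 < α ∧ ∀ (X : ℝ) (U : Finset ℤ), X0 ≤ X →
  Bd U X → (U.card : ℝ) ≤ X ^ α → ∑ k ∈ U, ‖cf A X k‖ ^ 2 ≤ 2 ∧
    dis A (VX A X) U (cf A X) ≤ (VX A X).card * (1 - ∑ k ∈ U, ‖cf A X k‖ ^ 2) + X ^ (1 - α)

-- deps: PR2 NONC
def S_LSB1 : Prop := ∀ A : ℕ, Odd A → 3 ≤ A → ∃ κ C : ℝ, 0 < κ ∧ κ ≤ 1 / 2 ∧ 0 < C ∧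
  ∀ a τ : ℝ, 0 < a → 0 < τ → ∃ c X0 : ℝ, 0 < c ∧
  ∀ (X : ℝ) (σ : St) (h : ℕ) (U : Finset ℤ) (d : ℤ → ℂ), X0 ≤ X → σ.OK A → 10 ≤ σ.H →
  X ^ a ≤ σ.P → σ.Q ≤ X ^ (1 / 40 : ℝ) → τ * σ.Ph h / log X ≤ (σ.I h).card → Bd U X →
  c * X * ((σ.I h).card / σ.Ph h) * ∑ k ∈ U.erase 0, ‖d k‖ ^ 2 ≤
    4 * ∑ p ∈ σ.I h, dis A ((VX A X).filter fun v => Dv A p (cj (σ.γ p)) v) U d +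
    C * (σ.I h).card * σ.Q ^ 6 * X ^ (1 - κ) * U.card * ∑ k ∈ U, ‖d k‖ ^ 2

-- deps: SEL LSB1
def S_LSB : Prop := ∀ A : ℕ, Odd A → 3 ≤ A → ∃ α c C X0 : ℝ, 0 < α ∧ 0 < c ∧ 0 < C ∧
  ∀ (X : ℝ) (U : Finset ℤ) (d : ℤ → ℂ), X0 ≤ X → Bd U X → (U.card : ℝ) ≤ X ^ α →
  c * X * ∑ k ∈ U.erase 0, ‖d k‖ ^ 2 ≤
    C * dis A (VX A X) U d + X ^ (1 - α) * ∑ k ∈ U, ‖d k‖ ^ 2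

-- deps: LSA LSB FLIP AREA CNT
def S_LAST : Prop := ∀ A : ℕ, Odd A → 3 ≤ A → ∃ α η X0 : ℝ, 0 < α ∧ 0 < η ∧
  ∀ (X : ℝ) (U : Finset ℤ), X0 ≤ X → Bd U X → (U.card : ℝ) ≤ X ^ α →
  ∑ k ∈ U, ‖FX A X k‖ ^ 2 ≤ (1 - η) * ((VX A X).card : ℝ) ^ 2

-- deps: EN STG LAST CNT
def S_MRM : Prop := S_MR

end Pool.Agent.P.MP_8be758_nt.Pd
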