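import Pool.Agent.P.MP_8be758_nt.Pd.IfT

/-! The second moments at the other three vertices: definitions and statements. -/

set_option linter.dupNamespace false

namespace Pool.Agent.P.MP_8be758_nt.Pd

open Finset Real Filter
open Pool.Agent.P.MP_8be758_nt.Par (det)
open Pool.Agent.P.MP_8be758_nt.Avg (rho)
open scoped Classical

noncomputable section

/-- the model density of the condition that a squarefree number divides a value of a form -/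
def de (A m : ℕ) : ℝ := ∏ p ∈ m.primeFactors, (rho A p : ℝ) / p

/-- products of distinct primes of `(w, y]` that are at most `Y` -/
def SF (w y Y : ℝ) : Finset ℕ :=
  (Icc 1 ⌊Y⌋₊).filter fun d => Squarefree d ∧ d.primeFactors ⊆ PP w y

/-- the sum of the local densities over the primes of `(w, y]` -/
def Lm (A : ℕ) (w y : ℝ) : ℝ := ∑ p ∈ PP w y, (rho A p : ℝ) / p

/-- squarefree with all prime factors above `w` -/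
def Rg (w : ℝ) (m : ℕ) : Prop := Squarefree m ∧ ∀ p ∈ m.primeFactors, w < (p : ℝ)

/-- the number of divisors of `D1 * D2` that are about as large as `D1` -/
def beta (D1 D2 : ℕ) : ℕ := ((D1 * D2).divisors.filter fun d => D1 < 2 * d ∧ d < 2 * D1).card

/-- those that differ from `D1` only in primes up to `z`, one of them above `z1` -/
def betz (z1 z : ℝ) (D1 D2 : ℕ) : ℕ := ((D1 * D2).divisors.filter fun d => D1 < 2 * d ∧ d < 2 * D1 ∧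
  (∀ p : ℕ, p.Prime → ¬(p ∣ d ↔ p ∣ D1) → (p : ℝ) ≤ z) ∧
  ∃ p : ℕ, p.Prime ∧ ¬(p ∣ d ↔ p ∣ D1) ∧ z1 < (p : ℝ)).card

/-- splittings of `D` into three factors -/
def Sp3 (D : ℕ) : Finset (ℕ × ℕ) := (D.divisors ×ˢ D.divisors).filter fun z => z.1 * z.2 ∣ D

/-- the weights of the six edges -/
structure Kw where
  (P a R t s f : ℝ)

def Kw.OK (k : Kw) : Prop := (0 ≤ k.P ∧ 0 ≤ k.a ∧ 0 ≤ k.R ∧ k.P + k.a + k.R ≤ 1) ∧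
  (0 ≤ k.t ∧ k.t ≤ 1) ∧ (0 ≤ k.s ∧ k.s ≤ 1) ∧ (0 ≤ k.f ∧ k.f ≤ 2 / 3) ∧ k.t + k.s + k.f ≤ 3 / 2

/-- the weights at the three vertices -/
def kw : Fin 3 → Kw := ![⟨1 / 6, 2 / 3, 1 / 6, 2 / 3, 2 / 3, 1 / 6⟩,
  ⟨1 / 6, 1 / 6, 2 / 3, 1 / 6, 2 / 3, 2 / 3⟩, ⟨2 / 3, 1 / 6, 1 / 6, 2 / 3, 1 / 6, 2 / 3⟩]

/-- a datum at a vertex: the smooth part of the first edge, the small edge, and `(s, t)` -/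
structure Nd where
  (m a : ℕ)
  (s t : ℤ)

namespace Nd

variable (d : Nd)

def af : ℤ := d.a - d.s * d.t
def ut : V2 := (d.m * d.t, 1)
def us : V2 := (d.m * d.a, d.s)

/-- the common part of two opposite edges whose lines coincide -/
def dl (d' : Nd) : ℕ := Int.gcd (Int.gcd d.af d'.af) (d'.m * d'.t - d.m * d.t)

end Nd

namespace Pr

variable (ρ : Pr)

/-- few divisors near the first smooth part -/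
def Bg (φ : Fm) : Prop := (beta (ρ.fl φ.1) (ρ.fl φ.2.2) : ℝ) ≤
  ρ.K * 2 ^ ρ.om (φ.1 * φ.2.2) * exp (-ρ.La)

def Tb : Finset (G4 × Sd) := ρ.Tg.filter fun τ => ρ.Bg (ρ.fm τ.1)

def c5 : ℝ := 30 * ρ.C1 ^ 2

/-- what is used about a cycle seen from one of the other three vertices -/
structure VOK (x : VT) : Prop where
  ok : x.Ok ρ.A
  b0 : 0 < x.b
  b1 : (x.b : ℝ) ≤ ρ.c5 * ρ.X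
  t1 : ρ.X ≤ ρ.c5 * (|(x.t : ℝ)| * x.P)
  t2 : |(x.t : ℝ)| * x.P ≤ ρ.c5 * ρ.X
  r1 : ρ.y ^ (ρ.k3 + 1) ≤ (x.t : ℝ) ^ 2
  r2 : (x.t : ℝ) ^ 2 * ρ.y ^ (ρ.k3 + 1) ≤ 2 * x.a
  r3 : (x.a : ℝ) ≤ ρ.y ^ (ρ.k6 + 2 * ρ.K)
  st : |x.s * x.t| ≤ x.a
  af : x.a ≤ 2 * x.af
  ra : Rg ρ.w x.a.natAbs
  rf : Rg ρ.w x.af.natAbs
  cop : IsCoprime x.a x.af
  val : ∀ p ∈ ρ.Ps, ¬(p : ℤ) ^ 2 ∣ x.Pi6 ∧ ((p : ℤ) ∣ x.s * x.t → ¬(p : ℤ) ∣ x.Pi6)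
  fP : (ρ.fl x.P : ℝ) ≤ ρ.y ^ ρ.K'
  fR : (ρ.fl x.R : ℝ) ≤ ρ.y ^ ρ.K'
  fa : (ρ.fl x.a : ℝ) ≤ ρ.y ^ (2 * ρ.K)
  ff : (ρ.fl x.af : ℝ) ≤ ρ.y ^ (2 * ρ.K)
  of : (ρ.om x.af : ℝ) ≤ ρ.K * ρ.La
  s1 : ρ.si (x.s * x.t) ≤ 3 / √ρ.w
  s2 : ρ.si x.af ≤ 3 / √ρ.w
  gw : ∀ p : ℕ, p.Prime → p ≤ ρ.w → ¬(p : ℤ) ^ 2 ∣ x.P ∨ ¬(p : ℤ) ^ 2 ∣ x.R

/-- the majorant for the weight of a cycle -/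
def kap (k : Kw) (x : VT) : ℝ := k.P ^ ρ.om x.P * k.a ^ ρ.om x.a * k.R ^ ρ.om x.R *
  (k.f ^ ρ.om x.af * (k.t ^ ρ.om x.Nt * k.s ^ ρ.om x.Ns))

/-- the base form of a cycle -/
def bf (x : VT) : Fm := (x.P / ρ.fl x.P, x.b, ρ.fl x.P * x.a * x.R)

/-- the rough part of the small edge -/
def ro (x : VT) : ℕ := (x.a / ρ.fl x.a).natAbs

/-- the datum of a cycle -/
def nd (x : VT) : Nd := ⟨ρ.fl x.P, x.a.natAbs, x.s, x.t⟩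

/-- conditions on a datum for the rough part `α` and the smooth part `m` -/
structure NA (α m : ℕ) (d : Nd) : Prop where
  dv : d.m * d.a ∣ α * m
  f0 : 0 < d.af
  f1 : (d.af : ℝ) ≤ ρ.y ^ (ρ.U + 1)
  rf : Rg ρ.w d.af.natAbs
  cop : IsCoprime (d.s * d.t * d.af) (α * m : ℕ)
  ff : (ρ.fl d.af : ℝ) ≤ ρ.y ^ (2 * ρ.K)
  of : (ρ.om d.af : ℝ) ≤ ρ.K * ρ.La
  s1 : ρ.si (d.s * d.t) ≤ 3 / √ρ.w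
  s2 : ρ.si d.af ≤ 3 / √ρ.w

/-- admissible splittings of the smooth part at the scale `Z` -/
def NO (Z : ℝ) (α m : ℕ) : Finset (ℕ × ℕ) := (Sp3 m).filter fun z =>
  ρ.Rng (α * z.2 : ℕ) (ρ.X / (Z * z.1)) ∧ (z.1 : ℝ) ≤ ρ.y ^ ρ.K' ∧ (z.2 : ℝ) ≤ ρ.y ^ (2 * ρ.K)

/-- admissible pairs `(s, t)` -/
def NB (Z : ℝ) (α m : ℕ) (z : ℕ × ℕ) : Finset V2 :=
  (SR (α * z.2 : ℕ) (ρ.X / (Z * z.1)) (2 * ρ.c5)).filter fun v => ρ.NA α m ⟨z.1, α * z.2, v.1, v.2⟩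

/-- the weight of a splitting -/
def ow (k : Kw) (m : ℕ) (z : ℕ × ℕ) : ℝ := k.P ^ z.1.primeFactors.card *
  k.a ^ z.2.primeFactors.card * k.R ^ (m / (z.1 * z.2)).primeFactors.card

/-- the form has the smooth part `m` and the divisor `α` -/
def nat (α m : ℕ) (φ : Fm) : Prop := ((α * m : ℕ) : ℤ) ∣ φ.2.2 ∧
  ∀ p ∈ ρ.Ps, ¬p ∣ m → ¬(p : ℤ) ∣ φ.1 * φ.2.2

/-- the weight of the two fresh long edges -/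
def nw (k : Kw) (d : Nd) (φ : Fm) : ℝ :=
  ind ((d.m * d.af : ℤ) ∣ ev φ d.ut ∧ (d.m * d.a * d.af : ℤ) ∣ ev φ d.us) *
    (k.t ^ ρ.om (ev φ d.ut / (d.m * d.af)) * k.s ^ ρ.om (ev φ d.us / (d.m * d.a * d.af)))

/-- primes at which the line of `t` meets a line of the first datum -/
def Bt (m : ℕ) (d : Nd) (m' : ℕ) (p : ℕ) (t : ℤ) : Prop :=
  ¬p ∣ m ∧ (p : ℤ) ∣ (d.m * d.t - m' * t) * (d.m * d.a - d.s * (m' * t))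

/-- primes at which the line of `s` meets a line of the first datum -/
def Bs (m : ℕ) (d : Nd) (m' a' : ℕ) (p : ℕ) (s : ℤ) : Prop :=
  ¬p ∣ m ∧ (p : ℤ) ∣ (d.m * d.t * s - m' * a') * (d.m * d.a * s - d.s * (m' * a'))

/-- the correlation factor of two data -/
def nc (m : ℕ) (d d' : Nd) : ℝ :=
  d.dl d' * (Ep ρ.Ps 8 (Bs m d d'.m d'.a) d'.s * Ep ρ.Ps 8 (Bt m d d'.m) d'.t)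

/-- the sum over pairs of different data at a base form -/
def W2 (k : Kw) (Z : ℝ) (α m : ℕ) (φ : Fm) : ℝ :=
  ∑ z ∈ ρ.NO Z α m, ∑ z' ∈ ρ.NO Z α m, ∑ v ∈ ρ.NB Z α m z, ∑ v' ∈ ρ.NB Z α m z',
    ind (¬(z = z' ∧ v = v')) * (ow k m z * ow k m z') *
      (k.f ^ ρ.om ((α * z.2 : ℕ) - v.1 * v.2) * k.f ^ ρ.om ((α * z'.2 : ℕ) - v'.1 * v'.2)) *
      (ind (ρ.nat α m φ) * (ρ.nw k ⟨z.1, α * z.2, v.1, v.2⟩ φ * ρ.nw k ⟨z'.1, α * z'.2, v'.1, v'.2⟩ φ))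

/-- the rough parts -/
def RA : Finset ℕ := SF ρ.y (ρ.y ^ ρ.U) (ρ.y ^ ρ.U)

/-- the smooth parts -/
def SM : Finset ℕ := SF ρ.w ρ.y (ρ.y ^ (3 * ρ.K'))

/-- a family of forms with level of distribution `k` and size at most `N` -/
def Fam (k : ℕ) (G : Finset G4) (N : ℝ) : Prop :=
  S4.Equi G (fun _ => 1) G.card (ρ.y ^ (k * ρ.K')) (ρ.Er k) ∧ (G.card : ℝ) ≤ N

/-- the total weight of the tuples that give the cycle `x` -/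
def tw (x : VT) : ℝ := ∑ τ ∈ ρ.Tb, ind (ρ.cy τ = x) * ρ.cw (1 / 6) (ρ.cy τ)

end Pr

/-- as `Evt`, with a size parameter that may depend on `C1` -/
def Ev (S : ℝ → Pr → Prop) : Prop := ∀ C1 : ℝ, ∃ c : ℕ, ∀ z : St, z.C1 = C1 → z.Big c →
  ∃ C : ℝ, 1 ≤ C ∧ ∀ᶠ y : ℝ in Filter.atTop, S C ⟨z, y⟩

end

/-! ### basic facts -/

theorem Unif.ev {S : ℝ → Pr → Prop} (h : Unif S) : Ev S := fun C1 =>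
  let ⟨c, hc⟩ := h
  ⟨c, fun z h1 h2 => let ⟨C, h3, h4⟩ := hc z.A C1; ⟨C, h3, h4 z rfl h1 h2⟩⟩

theorem Evt.ev {S : ℝ → Pr → Prop} (h : Evt S) : Ev S := fun _ =>
  let ⟨c, hc⟩ := h
  ⟨c, fun z _ h2 => hc z h2⟩

theorem St.Big.one_le_c5 {z : St} {c : ℕ} (h : z.Big c) (y : ℝ) : 1 ≤ Pr.c5 ⟨z, y⟩ := by
  have := h.2.2.1
  simp only [Pr.c5]
  nlinarith

/-- a statement for every ratio is used with the ratio `2 * c5` -/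
theorem Ev.of_ratio {S : ℝ → ℝ → Pr → Prop} (h : ∀ C0 : ℝ, 1 ≤ C0 → Unif (S C0)) :
    Ev fun C ρ => S (2 * ρ.c5) C ρ := fun C1 => by
  obtain ⟨c, hc⟩ := (h (max 1 (2 * (30 * C1 ^ 2))) (le_max_left _ _)).ev C1
  refine ⟨c, fun z h1 h2 => ?_⟩
  have e : max 1 (2 * (30 * C1 ^ 2)) = 2 * (30 * z.C1 ^ 2) := by
    have := h2.one_le_c5 0
    simp only [Pr.c5] at this
    rw [← h1, max_eq_right (by linarith)]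
  rw [e] at hc
  exact hc z h1 h2

theorem Ev.and {S T : ℝ → Pr → Prop} (h : Ev S) (h' : Ev T) : Ev fun C ρ =>
    (∃ C1, 1 ≤ C1 ∧ C1 ≤ C ∧ S C1 ρ) ∧ ∃ C2, 1 ≤ C2 ∧ C2 ≤ C ∧ T C2 ρ := fun C1 => by
  obtain ⟨c, hc⟩ := h C1
  obtain ⟨c', hc'⟩ := h' C1
  refine ⟨max c c', fun z h1 h2 => ?_⟩
  obtain ⟨C, a1, a2⟩ := hc z h1 (h2.mono (le_max_left _ _))
  obtain ⟨C', b1, b2⟩ := hc' z h1 (h2.mono (le_max_right _ _))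
  exact ⟨max C C', le_max_of_le_left a1, (a2.and b2).mono fun y hy =>
    ⟨⟨C, a1, le_max_left _ _, hy.1⟩, C', b1, le_max_right _ _, hy.2⟩⟩

theorem Ev.imp {S T : ℝ → Pr → Prop} (h : Ev S) (c0 : ℕ) (H : ∀ z : St, z.Big c0 → ∀ C, 1 ≤ C →
    ∃ C', 1 ≤ C' ∧ ∀ᶠ y : ℝ in atTop, S C ⟨z, y⟩ → T C' ⟨z, y⟩) : Ev T := fun C1 => by
  obtain ⟨c, hc⟩ := h C1
  refine ⟨max c c0, fun z h1 h2 => ?_⟩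
  obtain ⟨C, a1, a2⟩ := hc z h1 (h2.mono (le_max_left _ _))
  obtain ⟨C', b1, b2⟩ := H z (h2.mono (le_max_right _ _)) C a1
  exact ⟨C', b1, (a2.and b2).mono fun y hy => hy.2 hy.1⟩

theorem St.Big.sizes {z : St} {c : ℕ} (h : z.Big c) (hc : 3 ≤ c) : 2 * z.K + 1 ≤ z.k3 ∧
    z.k3 ≤ z.K' ∧ z.U ≤ 2 * z.K' ∧ c ≤ z.K' ∧ 3 ≤ z.K ∧ 12 ≤ z.w := by
  obtain ⟨-, h2, -, h4, -, h6, h7, h8, h9, h10, h11, h12, -⟩ := h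
  have a1 : 3 * (z.k2 + z.K) ≤ z.k3 := (Nat.mul_le_mul_right _ hc).trans h8
  have a2 : 3 * z.k4 ≤ z.k5 := (Nat.mul_le_mul_right _ hc).trans h10
  simp only [St.U]
  omega

theorem pf_mono (ρ : Pr) {m m' : ℤ} (h : m ∣ m') : ρ.pf m ⊆ ρ.pf m' := fun _ hp =>
  mem_pf.2 ⟨(mem_pf.1 hp).1, (mem_pf.1 hp).2.trans h⟩

theorem pf_mul (ρ : Pr) (m m' : ℤ) : ρ.pf (m * m') = ρ.pf m ∪ ρ.pf m' := by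
  ext p
  simp only [mem_union, mem_pf]
  constructor
  · rintro ⟨h1, h2⟩
    exact ((Nat.prime_iff_prime_int.1 (prime_of_PP h1)).dvd_or_dvd h2).imp (⟨h1, ·⟩) (⟨h1, ·⟩)
  · rintro (⟨h1, h2⟩ | ⟨h1, h2⟩)
    exacts [⟨h1, h2.mul_right _⟩, ⟨h1, h2.mul_left _⟩]

theorem primeFactors_fl (ρ : Pr) (m : ℤ) : (ρ.fl m).primeFactors = ρ.pf m :=
  Nat.primeFactors_prod fun _ hp => prime_of_PP (mem_pf.1 hp).1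

theorem squarefree_fl (ρ : Pr) (m : ℤ) : Squarefree (ρ.fl m) :=
  Finset.squarefree_prod_of_pairwise_isCoprime (fun _ hp _ hq e => Nat.coprime_iff_isRelPrime.1
    ((Nat.coprime_primes (prime_of_PP (mem_pf.1 hp).1) (prime_of_PP (mem_pf.1 hq).1)).2 e))
    fun _ hp => (prime_of_PP (mem_pf.1 hp).1).squarefree

theorem fl_dvd (ρ : Pr) (m : ℤ) : (ρ.fl m : ℤ) ∣ m := by
  rw [Pr.fl, Nat.cast_prod]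
  refine Finset.prod_dvd_of_coprime (fun p hp q hq e => ?_) fun _ hp => (mem_pf.1 hp).2
  exact Nat.isCoprime_iff_coprime.2
    ((Nat.coprime_primes (prime_of_PP (mem_pf.1 hp).1) (prime_of_PP (mem_pf.1 hq).1)).2 e)

theorem dvd_fl {ρ : Pr} {m : ℤ} {p : ℕ} (hp : p.Prime) : p ∣ ρ.fl m ↔ p ∈ ρ.pf m := by
  rw [← primeFactors_fl, Nat.mem_primeFactors]
  exact ⟨fun h => ⟨hp, h, (fl_pos ρ m).ne'⟩, fun h => h.2.1⟩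

theorem pf_fl (ρ : Pr) (m : ℤ) : ρ.pf (ρ.fl m) = ρ.pf m := by
  ext p
  rw [mem_pf, Int.natCast_dvd_natCast]
  exact ⟨fun h => (dvd_fl (prime_of_PP h.1)).1 h.2,
    fun h => ⟨(mem_pf.1 h).1, (dvd_fl (prime_of_PP (mem_pf.1 h).1)).2 h⟩⟩

theorem fl_mono (ρ : Pr) {m m' : ℤ} (h : m ∣ m') : ρ.fl m ∣ ρ.fl m' :=
  prod_dvd_prod_of_subset _ _ _ (pf_mono ρ h)

theorem om_mono (ρ : Pr) {m m' : ℤ} (h : m ∣ m') : ρ.om m ≤ ρ.om m' := card_le_card (pf_mono ρ h)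

theorem si_mono (ρ : Pr) {m m' : ℤ} (h : m ∣ m') : ρ.si m ≤ ρ.si m' :=
  sum_le_sum_of_subset_of_nonneg (pf_mono ρ h) fun _ _ _ => by positivity

theorem si_nonneg (ρ : Pr) (m : ℤ) : 0 ≤ ρ.si m := sum_nonneg fun _ _ => by positivity

theorem pf_disjoint (ρ : Pr) {m m' : ℤ} (h : ∀ p ∈ ρ.Ps, ¬(p : ℤ) ^ 2 ∣ m * m') :
    Disjoint (ρ.pf m) (ρ.pf m') := disjoint_left.2 fun p h1 h2 =>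
  h p (mem_pf.1 h1).1 (by rw [sq]; exact mul_dvd_mul (mem_pf.1 h1).2 (mem_pf.1 h2).2)

theorem fl_mul (ρ : Pr) {m m' : ℤ} (h : ∀ p ∈ ρ.Ps, ¬(p : ℤ) ^ 2 ∣ m * m') :
    ρ.fl (m * m') = ρ.fl m * ρ.fl m' := by
  rw [Pr.fl, pf_mul, prod_union (pf_disjoint ρ h)]
  rfl

theorem om_mul (ρ : Pr) {m m' : ℤ} (h : ∀ p ∈ ρ.Ps, ¬(p : ℤ) ^ 2 ∣ m * m') :
    ρ.om (m * m') = ρ.om m + ρ.om m' := by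
  rw [Pr.om, pf_mul, card_union_of_disjoint (pf_disjoint ρ h)]
  rfl

theorem La_nonneg (ρ : Pr) : 0 ≤ ρ.La := sum_nonneg fun _ _ => by positivity

theorem de_nonneg (A m : ℕ) : 0 ≤ de A m := prod_nonneg fun _ _ => by positivity

theorem de_one (A : ℕ) : de A 1 = 1 := by simp [de]

theorem de_mul (A : ℕ) {m m' : ℕ} (h : m.Coprime m') : de A (m * m') = de A m * de A m' := by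
  rw [de, h.primeFactors_mul, prod_union h.disjoint_primeFactors]
  rfl

theorem mem_SF {w y Y : ℝ} (hY : 0 ≤ Y) {d : ℕ} :
    d ∈ SF w y Y ↔ (d : ℝ) ≤ Y ∧ Squarefree d ∧ d.primeFactors ⊆ PP w y := by
  simp only [SF, mem_filter, mem_Icc, Nat.le_floor_iff hY]
  exact ⟨fun h => ⟨h.1.2, h.2⟩, fun h => ⟨⟨Nat.pos_of_ne_zero h.2.1.ne_zero, h.1⟩, h.2⟩⟩

theorem one_le_Ep (P : Finset ℕ) {c : ℝ} (hc : 0 ≤ c) (B : ℕ → ℤ → Prop) (x : ℤ) : 1 ≤ Ep P c B x :=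
  Finset.one_le_prod fun p _ => le_add_of_nonneg_right (mul_nonneg (by positivity) (ind_nonneg _))

theorem nw_nonneg (ρ : Pr) {k : Kw} (hk : k.OK) (d : Nd) (φ : Fm) : 0 ≤ ρ.nw k d φ :=
  mul_nonneg (ind_nonneg _) (mul_nonneg (pow_nonneg hk.2.1.1 _) (pow_nonneg hk.2.2.1.1 _))

theorem ow_nonneg {k : Kw} (hk : k.OK) (m : ℕ) (z : ℕ × ℕ) : 0 ≤ Pr.ow k m z :=
  mul_nonneg (mul_nonneg (pow_nonneg hk.1.1 _) (pow_nonneg hk.1.2.1 _)) (pow_nonneg hk.1.2.2.1 _)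

theorem W2_nonneg (ρ : Pr) {k : Kw} (hk : k.OK) (Z : ℝ) (α m : ℕ) (φ : Fm) : 0 ≤ ρ.W2 k Z α m φ :=
  sum_nonneg fun _ _ => sum_nonneg fun _ _ => sum_nonneg fun _ _ => sum_nonneg fun _ _ =>
    mul_nonneg (mul_nonneg (mul_nonneg (ind_nonneg _) (mul_nonneg (ow_nonneg hk _ _)
      (ow_nonneg hk _ _))) (mul_nonneg (pow_nonneg hk.2.2.2.1.1 _) (pow_nonneg hk.2.2.2.1.1 _)))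
      (mul_nonneg (ind_nonneg _) (mul_nonneg (nw_nonneg ρ hk _ _) (nw_nonneg ρ hk _ _)))

theorem kw_ok (i : Fin 3) : (kw i).OK := by
  fin_cases i <;> simp only [kw, Kw.OK] <;> norm_num

/-! ### sums over small data -/

-- deps:
def S_SUMF : Prop := ∀ (w y Y : ℝ) (x : ℕ → ℝ), (∀ p, 0 ≤ x p) →
  ∑ d ∈ SF w y Y, ∏ p ∈ d.primeFactors, x p ≤ exp (∑ p ∈ PP w y, x p)

-- deps: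
def S_OWN : Prop := ∀ (D : ℕ) (x y z : ℝ), Squarefree D →
  ∑ v ∈ Sp3 D, x ^ v.1.primeFactors.card * y ^ v.2.primeFactors.card *
    z ^ (D / (v.1 * v.2)).primeFactors.card = (x + y + z) ^ D.primeFactors.card

-- deps: WIN L1
def S_BETA1 : Prop := ∃ C : ℝ, 0 < C ∧ ∀ (A : ℕ) (w z1 z : ℝ), 1 ≤ A → 4 * (A : ℝ) ≤ w → 2 ≤ z1 →
  ∑ F1 ∈ (PP w z).powerset, ∑ F2 ∈ (PP w z).powerset,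
    ind (∏ p ∈ F1, p < 2 * ∏ p ∈ F2, p ∧ ∏ p ∈ F2, p < 2 * ∏ p ∈ F1, p ∧
      ∃ p ∈ F1 ∪ F2, z1 < (p : ℝ)) *
      ((∏ p ∈ F1, (rho A p : ℝ) / (2 * p)) * ∏ p ∈ F2, (rho A p : ℝ) / (2 * p)) ≤
    C * exp (Lm A w z) / log z1

-- deps: SUMF
def S_BETA2 : Prop := ∀ (A : ℕ) (w z1 z y Y B : ℝ), 0 ≤ w → w ≤ z → z ≤ y →
  ∑ F1 ∈ (PP w z).powerset, ∑ F2 ∈ (PP w z).powerset,
    ind (∏ p ∈ F1, p < 2 * ∏ p ∈ F2, p ∧ ∏ p ∈ F2, p < 2 * ∏ p ∈ F1, p ∧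
      ∃ p ∈ F1 ∪ F2, z1 < (p : ℝ)) *
      ((∏ p ∈ F1, (rho A p : ℝ) / (2 * p)) * ∏ p ∈ F2, (rho A p : ℝ) / (2 * p)) ≤ B →
  ∑ D1 ∈ SF w y Y, ∑ D2 ∈ SF w y Y, ind (D1.Coprime D2) * (de A D1 * de A D2) *
    (betz z1 z D1 D2 / 2 ^ (D1 * D2).primeFactors.card *
      (3 / 2) ^ ((D1 * D2).primeFactors.filter fun p : ℕ => z < (p : ℝ)).card) ≤
    B * exp (Lm A w z + 3 / 2 * Lm A z y)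

-- deps: SUMF BETA2
def S_BETA3 : Prop := ∀ (A : ℕ) (w z1 z y Y B : ℝ), 0 ≤ w → w ≤ z → z ≤ y → 0 ≤ B →
  ∑ F1 ∈ (PP w z).powerset, ∑ F2 ∈ (PP w z).powerset,
    ind (∏ p ∈ F1, p < 2 * ∏ p ∈ F2, p ∧ ∏ p ∈ F2, p < 2 * ∏ p ∈ F1, p ∧
      ∃ p ∈ F1 ∪ F2, z1 < (p : ℝ)) *
      ((∏ p ∈ F1, (rho A p : ℝ) / (2 * p)) * ∏ p ∈ F2, (rho A p : ℝ) / (2 * p)) ≤ B →
  ∑ D1 ∈ SF w y Y, ∑ D2 ∈ SF w y Y, ind (D1.Coprime D2) * (de A D1 * de A D2) *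
    √(betz z1 z D1 D2 / 2 ^ (D1 * D2).primeFactors.card) ≤
    √B * exp (3 / 2 * Lm A w y - Lm A z y / 12)

-- deps: SUMF BETA1 BETA3 MER
def S_BETA4 : Prop := ∀ A : ℕ, Odd A → 3 ≤ A → ∃ C : ℝ, 0 < C ∧ ∀ w y Y : ℝ, 4 * (A : ℝ) ≤ w → w ≤ y →
  ∑ D1 ∈ SF w y Y, ∑ D2 ∈ SF w y Y, ind (D1.Coprime D2) * (de A D1 * de A D2) *
    √(beta D1 D2 / 2 ^ (D1 * D2).primeFactors.card) ≤ C * exp (3 / 2 * Lm A w y)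

/-! ### the sieve for lines -/

-- deps: OK PROD L1 L2
def S_GLH : Prop := ∀ (A : ℕ) (ψ : Fm) (ι : Type) [Fintype ι] (u : ι → V2) (m : ι → ℕ) (i0 i1 : ι),
  1 ≤ A → IsF A ψ → i0 ≠ i1 →
  (∀ i, Rg (4 * A) (m i) ∧ ∀ p ∈ (m i).primeFactors, ¬((p : ℤ) ∣ (u i).1 ∧ (p : ℤ) ∣ (u i).2)) →
  (∀ i j, i ≠ j → (i = i0 ∧ j = i1) ∨ (i = i1 ∧ j = i0) ∨ (m i).Coprime (m j)) →
  S4.Per ((∏ p ∈ (∏ i, m i).primeFactors, p) ^ 2)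
    (fun g => ∏ i, ind ((m i : ℤ) ∣ ev (act ψ g) (u i))) ∧
  S4.av ((∏ p ∈ (∏ i, m i).primeFactors, p) ^ 2)
    (fun g => ∏ i, ind ((m i : ℤ) ∣ ev (act ψ g) (u i))) ≤
    (∏ i, de A (m i)) * (Int.gcd (Nat.gcd (m i0) (m i1)) (det (u i0) (u i1)) : ℝ)

-- deps: OK MC L1 LB GLH
def S_GL : Prop := ∃ C1 : ℕ, ∀ (A : ℕ) (ψ : Fm) (ι : Type) [Fintype ι] (u : ι → V2) (m : ι → ℕ)
  (i0 i1 : ι) (x : ι → ℕ → ℝ) (P : Finset ℕ) (G : Finset G4) (y Mx err : ℝ),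
  1 ≤ A → IsF A ψ → i0 ≠ i1 → Fintype.card ι ≤ 6 → 2 ≤ y → 0 ≤ err →
  (∀ i, Rg (4 * A) (m i) ∧ ∀ p ∈ (m i).primeFactors, ¬((p : ℤ) ∣ (u i).1 ∧ (p : ℤ) ∣ (u i).2)) →
  (∀ i j, i ≠ j → (i = i0 ∧ j = i1) ∨ (i = i1 ∧ j = i0) ∨ (m i).Coprime (m j)) →
  (∀ p ∈ P, p.Prime ∧ 4 * A < p ∧ 24 ≤ p ∧ (p : ℝ) ≤ y ∧ (∀ i, ¬p ∣ m i) ∧
    (∀ i, 0 ≤ x i p ∧ x i p ≤ 1 ∧ (x i p ≠ 0 → ¬((p : ℤ) ∣ (u i).1 ∧ (p : ℤ) ∣ (u i).2))) ∧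
    ∀ i j, i ≠ j → x i p ≠ 0 → x j p ≠ 0 → ¬(p : ℤ) ∣ det (u i) (u j)) →
  S4.Equi G (fun _ => 1) G.card Mx err → ((∏ i, m i : ℕ) : ℝ) ^ 2 * y ^ (2 * C1) ≤ Mx →
  ∑ g ∈ G, (∏ i, ind ((m i : ℤ) ∣ ev (act ψ g) (u i))) *
      ∏ p ∈ P, ∏ i, (1 - x i p * ind ((p : ℤ) ∣ ev (act ψ g) (u i))) ≤
    2 * G.card * ((∏ i, de A (m i)) * (Int.gcd (Nat.gcd (m i0) (m i1)) (det (u i0) (u i1)) : ℝ)) *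
      exp (-(∑ p ∈ P, (rho A p : ℝ) / p * ∑ i, x i p) + 50 * ∑ p ∈ P, 1 / (p : ℝ) ^ 2) + y ^ C1 * err

-- deps: EQ GCNT
def S_NEQ : Prop := ∀ k : ℕ, Unif fun C ρ => ∀ ψ ∈ Red ρ.A, ∀ Z β1 β2 : ℝ,
  ρ.X / ρ.y ^ (k * ρ.K') ≤ Z → Z ≤ ρ.X → 0 ≤ β1 → β1 ≤ β2 → β2 * Z ≤ 2 * ρ.c5 * ρ.X →
    ρ.Fam k (GG ψ Z β1 β2) (C * ρ.X)

-- deps: GL NEQ BETA4 LAM
def S_TB : Prop := Unif fun C ρ =>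
  ((ρ.E.filter fun g => ρ.Typ (ρ.fm g) ∧ ¬ρ.Bg (ρ.fm g)).card : ℝ) ≤ C * ρ.X / √ρ.K

/-! ### pairs of data at a base form -/

-- deps: GL LAM
def S_NP : Prop := ∃ k0 : ℕ, ∀ k1 : ℕ, k0 ≤ k1 → Unif fun C ρ => ∀ (k : Kw) (ψ : Fm) (G : Finset G4)
  (N : ℝ) (α m : ℕ) (d d' : Nd), k.OK → IsF ρ.A ψ → ρ.Fam k1 G N → α ∈ ρ.RA → m ∈ ρ.SM →
  ρ.NA α m d → ρ.NA α m d' →
  ∑ g ∈ G, ind (ρ.nat α m (act ψ g)) * (ρ.nw k d (act ψ g) * ρ.nw k d' (act ψ g)) ≤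
    C * N * (de ρ.A α * (de ρ.A m * exp (12 * ρ.si m))) * exp (-(6 - 2 * k.t - 2 * k.s) * ρ.La) *
      (de ρ.A d.af.natAbs * de ρ.A d'.af.natAbs * ρ.nc m d d') + ρ.y ^ ρ.K' * ρ.Er k1

-- deps: LAM L1
def S_NH : Prop := Unif fun _ ρ => ∀ (α m : ℕ) (d : Nd) (θ : ℝ), 0 ≤ θ → θ ≤ 2 / 3 → ρ.NA α m d →
  θ ^ ρ.om d.af * de ρ.A d.af.natAbs ≤ 2 ^ (ρ.U + 1) * (ρ.hw (2 * θ) d.af / d.af) ∧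
  ρ.hw (2 * θ) d.af ≤ exp (ρ.K * ρ.La)

-- deps:
def S_NF : Prop := ∀ (ρ : Pr) (α m m' a' : ℕ) (d : Nd), 3 ≤ ρ.w → 1 ≤ ρ.y → α ∈ ρ.RA → m ∈ ρ.SM →
  d.m * d.a ∣ α * m → m' * a' ∣ α * m →
  Few ρ.Ps (Pr.Bs m d m' a') ∧ ∀ p ∈ ρ.Ps,
    (∀ x y, x ≡ y [ZMOD p] → (Pr.Bt m d m' p x ↔ Pr.Bt m d m' p y)) ∧
      ∑ x ∈ bx p, ind (Pr.Bt m d m' p x) ≤ 2

-- deps: HS PS NF
def S_NS1 : Prop := Ev fun C ρ => ∀ (Z Θ : ℝ) (α m : ℕ), 0 < Z → 0 ≤ Θ → Θ ≤ 4 / 3 → α ∈ ρ.RA →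
  m ∈ ρ.SM → ∀ z ∈ ρ.NO Z α m, ∀ z' ∈ ρ.NO Z α m,
  ∑ v ∈ ρ.NB Z α m z, ∑ v' ∈ ρ.NB Z α m z',
    ρ.hw Θ ((α * z.2 : ℕ) - v.1 * v.2) / (((α * z.2 : ℕ) - v.1 * v.2 : ℤ) : ℝ) *
    (ρ.hw Θ ((α * z'.2 : ℕ) - v'.1 * v'.2) / (((α * z'.2 : ℕ) - v'.1 * v'.2 : ℤ) : ℝ)) *
    (ind ((Nd.dl ⟨z.1, α * z.2, v.1, v.2⟩ ⟨z'.1, α * z'.2, v'.1, v'.2⟩ : ℝ) ≤ ρ.y) *
      ρ.nc m ⟨z.1, α * z.2, v.1, v.2⟩ ⟨z'.1, α * z'.2, v'.1, v'.2⟩) ≤ C * exp ((Θ - 2) * ρ.La)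

-- deps: CR ND
def S_NS2 : Prop := Ev fun _ ρ => ∀ (Z : ℝ) (α m : ℕ), 0 < Z → α ∈ ρ.RA → m ∈ ρ.SM →
  ∀ z ∈ ρ.NO Z α m, ∀ z' ∈ ρ.NO Z α m,
  ∑ v ∈ ρ.NB Z α m z, ∑ v' ∈ ρ.NB Z α m z', ind (¬(z = z' ∧ v = v')) *
    (ind (ρ.y < (Nd.dl ⟨z.1, α * z.2, v.1, v.2⟩ ⟨z'.1, α * z'.2, v'.1, v'.2⟩ : ℝ)) *
      (Nd.dl ⟨z.1, α * z.2, v.1, v.2⟩ ⟨z'.1, α * z'.2, v'.1, v'.2⟩ : ℝ) /
      ((((α * z.2 : ℕ) - v.1 * v.2 : ℤ) : ℝ) * (((α * z'.2 : ℕ) - v'.1 * v'.2 : ℤ) : ℝ))) ≤ 2 / √ρ.y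

-- deps: NH NS1 NS2 LAM
def S_NS3 : Prop := Ev fun C ρ => ∀ (Z θ : ℝ) (α m : ℕ), 0 < Z → 0 ≤ θ → θ ≤ 2 / 3 → α ∈ ρ.RA →
  m ∈ ρ.SM → ∀ z ∈ ρ.NO Z α m, ∀ z' ∈ ρ.NO Z α m,
  ∑ v ∈ ρ.NB Z α m z, ∑ v' ∈ ρ.NB Z α m z', ind (¬(z = z' ∧ v = v')) *
    (θ ^ ρ.om ((α * z.2 : ℕ) - v.1 * v.2) * θ ^ ρ.om ((α * z'.2 : ℕ) - v'.1 * v'.2)) *
    (de ρ.A (((α * z.2 : ℕ) - v.1 * v.2 : ℤ)).natAbs *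
      de ρ.A (((α * z'.2 : ℕ) - v'.1 * v'.2 : ℤ)).natAbs *
      ρ.nc m ⟨z.1, α * z.2, v.1, v.2⟩ ⟨z'.1, α * z'.2, v'.1, v'.2⟩) ≤ C * exp ((2 * θ - 2) * ρ.La)

-- deps: NP NS3 OWN
def S_NPAIR : Prop := ∃ k0 : ℕ, ∀ k1 : ℕ, k0 ≤ k1 → Ev fun C ρ => ∀ (k : Kw) (ψ : Fm)
  (G : Finset G4) (N Z : ℝ) (α m : ℕ), k.OK → IsF ρ.A ψ → ρ.Fam k1 G N → 0 < Z → α ∈ ρ.RA →
  m ∈ ρ.SM → ∑ g ∈ G, ρ.W2 k Z α m (act ψ g) ≤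
    C * N * (de ρ.A α * (de ρ.A m * exp (12 * ρ.si m))) * exp (-5 * ρ.La) +
      ρ.y ^ (30 * ρ.K') * ρ.Er k1

/-! ### from cycles to data -/

-- deps: K4
def S_NK0 : Prop := Ev fun _ ρ => ∀ x : VT, ρ.VOK x →
  IsF ρ.A (ρ.bf x) ∧ (ρ.bf x).1 * ρ.fl x.P = x.P ∧ (ρ.ro x : ℤ) * ρ.fl x.a = x.a ∧
  ρ.X / ρ.y ^ (2 * ρ.K') ≤ ((ρ.bf x).1 : ℝ) ∧ ((ρ.bf x).1 : ℝ) ≤ ρ.X ∧
  ρ.ro x ∈ ρ.RA ∧ ρ.fl ((ρ.bf x).1 * (ρ.bf x).2.2) ∈ ρ.SM ∧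
  ρ.fl ((ρ.bf x).1 * (ρ.bf x).2.2) = ρ.fl x.P * ρ.fl x.a * ρ.fl x.R ∧
  ρ.nat (ρ.ro x) (ρ.fl ((ρ.bf x).1 * (ρ.bf x).2.2)) (ρ.bf x) ∧
  (∀ p ∈ ρ.Ps, ¬(p : ℤ) ∣ (ρ.bf x).1)

-- deps: K4 NK0
def S_NK1 : Prop := Ev fun _ ρ => ∀ (x : VT) (Z : ℝ) (k : Kw), ρ.VOK x → 0 < Z →
  Z < ((ρ.bf x).1 : ℝ) → ((ρ.bf x).1 : ℝ) ≤ 2 * Z →
  (ρ.fl x.P, ρ.fl x.a) ∈ ρ.NO Z (ρ.ro x) (ρ.fl ((ρ.bf x).1 * (ρ.bf x).2.2)) ∧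
  (x.s, x.t) ∈ ρ.NB Z (ρ.ro x) (ρ.fl ((ρ.bf x).1 * (ρ.bf x).2.2)) (ρ.fl x.P, ρ.fl x.a) ∧
  ρ.kap k x = Pr.ow k (ρ.fl ((ρ.bf x).1 * (ρ.bf x).2.2)) (ρ.fl x.P, ρ.fl x.a) *
    (k.f ^ ρ.om ((ρ.ro x * ρ.fl x.a : ℕ) - x.s * x.t) *
      ρ.nw k ⟨ρ.fl x.P, ρ.ro x * ρ.fl x.a, x.s, x.t⟩ (ρ.bf x))

-- deps: NK0 NK1
def S_NKEY : Prop := Ev fun _ ρ => ∀ (S : Finset VT) (k : Kw) (φ : Fm) (α : ℕ) (Z : ℝ), k.OK →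
  (∀ x ∈ S, ρ.VOK x) → 0 < Z → Z < (φ.1 : ℝ) → (φ.1 : ℝ) ≤ 2 * Z →
  ∑ x ∈ S.filter (fun x => ρ.bf x = φ ∧ ρ.ro x = α), ∑ x' ∈ S.filter (fun x => ρ.bf x = φ ∧ ρ.ro x = α),
    ind (x ≠ x') * (ρ.kap k x * ρ.kap k x') ≤ ρ.W2 k Z α (ρ.fl (φ.1 * φ.2.2)) φ

-- deps: RED
def S_COVER : Prop := ∀ (A J : ℕ) (X L : ℝ) (Φ : Finset Fm) (H : Fm → ℝ) (F : ℕ → Fm → ℝ), 1 ≤ A →
  0 < X → (∀ j φ, 0 ≤ F j φ) →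
  (∀ φ ∈ Φ, IsF A φ ∧ X / 2 ^ J < (φ.1 : ℝ) ∧ (φ.1 : ℝ) ≤ X ∧ 0 < φ.2.1 ∧ (φ.2.1 : ℝ) ≤ L * X ∧
    ∀ j, X / 2 ^ (j + 1) < (φ.1 : ℝ) → (φ.1 : ℝ) ≤ 2 * (X / 2 ^ (j + 1)) → H φ ≤ F j φ) →
  ∑ φ ∈ Φ, H φ ≤ ∑ j ∈ range J, ∑ ψ ∈ Red A,
    ∑ g ∈ GG ψ (X / 2 ^ (j + 1)) 0 (L * 2 ^ (j + 1)), F j (act ψ g)

-- deps: SUMF MER LAM
def S_NSUM : Prop := Ev fun C ρ => ∑ α ∈ ρ.RA, de ρ.A α ≤ C ∧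
  ∑ m ∈ ρ.SM, de ρ.A m * exp (12 * ρ.si m) ≤ C * exp ρ.La ∧
  ((ρ.RA.card : ℝ) * ρ.SM.card ≤ ρ.y ^ (6 * ρ.K')) ∧
  ∃ J : ℕ, ρ.y ^ (2 * ρ.K') < 2 ^ J ∧ (2 : ℝ) ^ J ≤ ρ.y ^ (3 * ρ.K') ∧ (J : ℝ) ≤ C * exp ρ.La ∧
    (J : ℝ) * (Red ρ.A).card ≤ ρ.y ∧ 1 / ρ.y ≤ exp (-3 * ρ.La)

-- deps: NK0 NKEY COVER NPAIR NEQ NSUM
def S_NOFF : Prop := Ev fun C ρ => ∀ (S : Finset VT) (k : Kw), k.OK → (∀ x ∈ S, ρ.VOK x) →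
  ∑ x ∈ S, ∑ x' ∈ S, ind (x ≠ x' ∧ ρ.bf x = ρ.bf x' ∧ ρ.ro x = ρ.ro x') * (ρ.kap k x * ρ.kap k x') ≤
    C * ρ.X * exp (-3 * ρ.La)

-- deps:
def S_TYPES : Prop := ∀ (N w U : ℕ) (y : ℝ), 0 < N → 2 ≤ y → (N : ℝ) ≤ y ^ U →
  (N.divisors.filter fun d => (∀ p ∈ PP w y, ¬p ∣ d) ∧
    ∀ p : ℕ, p.Prime → p ≤ w → ¬p ^ 2 ∣ d ∨ ¬p ^ 2 ∣ N / d).card ≤ 4 ^ w * 2 ^ U

-- deps:
def S_NCS : Prop := ∀ (Ω K : Type) (S : Finset Ω) (b : Ω → ℤ) (key : Ω → K) (ω : Ω → ℝ)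
  (N n ε O : ℝ), 0 ≤ N → 0 ≤ ε → (∀ x ∈ S, 0 ≤ ω x ∧ ω x ≤ ε) →
  (∀ x ∈ S, ∀ x' ∈ S, key x = key x' → b x = b x') →
  (∀ β : ℤ, (((S.filter fun x => b x = β).image key).card : ℝ) ≤ N) → ((S.image b).card : ℝ) ≤ n →
  ∑ x ∈ S, ∑ x' ∈ S, ind (x ≠ x' ∧ key x = key x') * (ω x * ω x') ≤ O →
  ∑ x ∈ S, ∑ x' ∈ S, ind (b x = b x') * (ω x * ω x') ≤ 2 * N * O + N ^ 2 * ε ^ 2 * n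

-- deps: K4 NK0 TYPES
def S_NTY : Prop := Ev fun C ρ => ∀ (S : Finset VT), (∀ x ∈ S, ρ.VOK x) →
  (∀ β : ℤ, (((S.filter fun x => x.b = β).image fun x => (ρ.bf x, ρ.ro x)).card : ℝ) ≤ C) ∧
    ((S.image fun x => x.b).card : ℝ) ≤ C * ρ.X

-- deps: NOFF NCS NTY
def S_NSTAR : Prop := Ev fun C ρ => ∀ (S : Finset VT) (k : Kw) (ω : VT → ℝ) (B ε : ℝ), k.OK →
  0 ≤ B → 0 ≤ ε → (∀ x ∈ S, ρ.VOK x ∧ 0 ≤ ω x ∧ ω x ≤ ε ∧ ω x ≤ B * ρ.kap k x) →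
  ∑ x ∈ S, ∑ x' ∈ S, ind (x.b = x'.b) * (ω x * ω x') ≤
    C * ρ.X * (B ^ 2 * exp (-3 * ρ.La) + ε ^ 2)

/-! ### the cycles of the construction -/

-- deps: K4 TUP
def S_VB : Prop := Ev fun _ ρ => ∀ τ : G4 × Sd, ρ.IsTu τ →
  ρ.X ≤ 2 * (((ρ.cy τ).t : ℝ) * (ρ.cy τ).P) ∧ ((ρ.cy τ).t : ℝ) * (ρ.cy τ).P ≤ 2 * ρ.X ∧
  0 < (ρ.cy τ).s ∧ 0 < (ρ.cy τ).t ∧ 2 * ((ρ.cy τ).s * (ρ.cy τ).t) ≤ (ρ.cy τ).a ∧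
  Rg ρ.w (ρ.cy τ).a.natAbs ∧ Rg ρ.w (ρ.cy τ).af.natAbs ∧
  (ρ.fl ((ρ.cy τ).P * (ρ.cy τ).R * (ρ.cy τ).a) : ℝ) ≤ ρ.y ^ (2 * ρ.K) ∧
  39 / 20 * ρ.La ≤ ρ.om ((ρ.cy τ).P * (ρ.cy τ).R * (ρ.cy τ).a) ∧
  (ρ.om ((ρ.cy τ).P * (ρ.cy τ).R * (ρ.cy τ).a) : ℝ) ≤ ρ.K * ρ.La ∧
  ρ.si ((ρ.cy τ).P * (ρ.cy τ).R * (ρ.cy τ).a) ≤ 1 / √ρ.w ∧
  (((ρ.cy τ).P * (ρ.cy τ).R * (ρ.cy τ).a : ℤ) : ℝ) ≤ ρ.y ^ (2 * ρ.u + 1) ∧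
  (ρ.fl (ρ.cy τ).af : ℝ) ≤ ρ.y ^ (2 * ρ.K) ∧ (ρ.om (ρ.cy τ).af : ℝ) ≤ ρ.K * ρ.La ∧
  ρ.si ((ρ.cy τ).s * (ρ.cy τ).t * (ρ.cy τ).af) ≤ 3 / √ρ.w

-- deps: K4 TUP VB
def S_VERT : Prop := Ev fun _ ρ => ∀ τ ∈ ρ.Tg, ∀ i : Fin 3, ρ.VOK ((ρ.cy τ).v i)

-- deps: TUP
def S_MINJ : Prop := Ev fun _ ρ => ∀ τ τ' : G4 × Sd, ρ.IsTu τ → ρ.IsTu τ' → ρ.cy τ = ρ.cy τ' →
  τ.2.q3 = τ'.2.q3 → τ.2.q4 = τ'.2.q4 →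
  ρ.fl (ρ.fm τ'.1).1 ∣ ρ.fl (ρ.fm τ.1).1 * ρ.fl (ρ.fm τ.1).2.2 ∧
  ρ.fl (ρ.fm τ.1).1 < 2 * ρ.fl (ρ.fm τ'.1).1 ∧ ρ.fl (ρ.fm τ'.1).1 < 2 * ρ.fl (ρ.fm τ.1).1 ∧
  (ρ.fl (ρ.fm τ.1).1 = ρ.fl (ρ.fm τ'.1).1 → ρ.fm τ.1 = ρ.fm τ'.1 ∧ τ.2 = τ'.2)

-- deps: TUP VB MINJ FIB LAM
def S_MULT : Prop := Ev fun C ρ => ∀ x : VT,
  ((ρ.Tb.filter fun τ => ρ.cy τ = x).card : ℝ) ≤ C * 2 ^ ρ.om (x.P * x.R * x.a) * exp (-ρ.La)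

-- deps: K4 TUP VB MULT
def S_NSW : Prop := Ev fun C ρ => ∀ τ ∈ ρ.Tb, 0 ≤ ρ.tw (ρ.cy τ) ∧
  ρ.tw (ρ.cy τ) ≤ C * exp (-(5 / 2) * ρ.La) ∧
  ∀ i : Fin 3, ρ.tw (ρ.cy τ) ≤ C * exp (-ρ.La) * ρ.kap (kw i) ((ρ.cy τ).v i)

-- deps: K4 TUP VERT NSW NSTAR
def S_SMB : Prop := Ev fun C ρ => ∀ i : Fin 3, ∑ τ ∈ ρ.Tb, ∑ τ' ∈ ρ.Tb,
  ind (((ρ.cy τ).v i).b = ((ρ.cy τ').v i).b) * (ρ.cw (1 / 6) (ρ.cy τ) * ρ.cw (1 / 6) (ρ.cy τ')) ≤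
    C * ρ.X * exp (-5 * ρ.La)

end Pool.Agent.P.MP_8be758_nt.Pd
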