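import Pool.Agent.P.MP_8be758_nt.Pd.IfN

/-! Step BETA2. -/

namespace Pool.Agent.P.MP_8be758_nt.Pd

open Finset Real Filter
open Pool.Agent.P.MP_8be758_nt.Par (det)
open Pool.Agent.P.MP_8be758_nt.Avg (rho)
open scoped Classical

theorem BETA2_split {D d : ℕ} (h : Squarefree D) :
    (∏ p ∈ D.primeFactors ∩ d.primeFactors, p) * ∏ p ∈ D.primeFactors \ d.primeFactors, p = D := by
  rw [prod_inter_mul_prod_sdiff, Nat.prod_primeFactors_of_squarefree h]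

theorem BETA2_d {D1 D2 d : ℕ} (h1 : Squarefree D1) (h2 : Squarefree D2) (hc : D1.Coprime D2)
    (hd : d ∣ D1 * D2) :
    (∏ p ∈ D1.primeFactors ∩ d.primeFactors, p) * ∏ p ∈ D2.primeFactors ∩ d.primeFactors, p = d := by
  have hs : Squarefree (D1 * D2) := (Nat.squarefree_mul hc).2 ⟨h1, h2⟩
  have hd' : Squarefree d := hs.squarefree_of_dvd hd
  rw [← prod_union (hc.disjoint_primeFactors.mono inter_subset_left inter_subset_left),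
    ← union_inter_distrib_right, ← hc.primeFactors_mul,
    inter_eq_right.2 (Nat.primeFactors_mono hd hs.ne_zero), Nat.prod_primeFactors_of_squarefree hd']

theorem BETA2_wt (A : ℕ) (z : ℝ) {D1 D2 : ℕ} (hc : D1.Coprime D2) :
    de A D1 * de A D2 * (1 / 2 ^ (D1 * D2).primeFactors.card *
      (3 / 2) ^ ((D1 * D2).primeFactors.filter fun p : ℕ => z < (p : ℝ)).card) =
    (∏ p ∈ D1.primeFactors, (rho A p : ℝ) / (2 * p) * if z < (p : ℝ) then 3 / 2 else 1) *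
    ∏ p ∈ D2.primeFactors, (rho A p : ℝ) / (2 * p) * if z < (p : ℝ) then 3 / 2 else 1 := by
  rw [← de_mul A hc, ← prod_union hc.disjoint_primeFactors, ← hc.primeFactors_mul, de,
    prod_mul_distrib, prod_ite, prod_const, prod_const_one, mul_one, ← mul_assoc]
  congr 1
  rw [← one_div_pow, ← prod_const, ← prod_mul_distrib]
  refine prod_congr rfl fun p _ => ?_
  ring

theorem BETA2_sum (A : ℕ) {w z y : ℝ} (hw : 0 ≤ w) (hwz : w ≤ z) (hzy : z ≤ y) :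
    ∑ p ∈ PP w y, (rho A p : ℝ) / (2 * p) * (if z < (p : ℝ) then 3 / 2 else 1) =
      Lm A w z / 2 + 3 / 4 * Lm A z y := by
  have hz : 0 ≤ z := hw.trans hwz
  have hy : 0 ≤ y := hz.trans hzy
  rw [← sum_filter_add_sum_filter_not (PP w y) fun p : ℕ => z < (p : ℝ)]
  have e1 : (PP w y).filter (fun p : ℕ => z < (p : ℝ)) = PP z y := by
    ext p
    simp only [mem_filter, mem_PP hy]
    exact ⟨fun h => ⟨h.1.1, h.2, h.1.2.2⟩, fun h => ⟨⟨h.1, hwz.trans_lt h.2.1, h.2.2⟩, h.2.1⟩⟩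
  have e2 : (PP w y).filter (fun p : ℕ => ¬z < (p : ℝ)) = PP w z := by
    ext p
    simp only [mem_filter, mem_PP hy, mem_PP hz, not_lt]
    exact ⟨fun h => ⟨h.1.1, h.1.2.1, h.2⟩, fun h => ⟨⟨h.1, h.2.1, h.2.2.trans hzy⟩, h.2.2⟩⟩
  have f1 : ∑ p ∈ (PP w y).filter (fun p : ℕ => z < (p : ℝ)),
      (rho A p : ℝ) / (2 * p) * (if z < (p : ℝ) then 3 / 2 else 1) = 3 / 4 * Lm A z y := by
    rw [Lm, ← e1, mul_sum]
    refine sum_congr rfl fun p hp => ?_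
    rw [if_pos (mem_filter.1 hp).2]
    ring
  have f2 : ∑ p ∈ (PP w y).filter (fun p : ℕ => ¬z < (p : ℝ)),
      (rho A p : ℝ) / (2 * p) * (if z < (p : ℝ) then 3 / 2 else 1) = Lm A w z / 2 := by
    rw [Lm, ← e2, sum_div]
    refine sum_congr rfl fun p hp => ?_
    rw [if_neg (mem_filter.1 hp).2]
    ring
  rw [f1, f2, add_comm]

theorem p_BETA2 (hSUMF : S_SUMF) :
    S_BETA2 := by
  intro A w z1 z y Y B hw hwz hzy hB
  have hz : 0 ≤ z := hw.trans hwz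
  have hy : 0 ≤ y := hz.trans hzy
  set x : ℕ → ℝ := fun p => (rho A p : ℝ) / (2 * p) * if z < (p : ℝ) then 3 / 2 else 1 with hx
  have hx0 : ∀ p, 0 ≤ x p := fun p => by
    simp only [hx]; split_ifs <;> positivity
  set g : Finset ℕ → Finset ℕ → ℝ := fun F1 F2 =>
    ind (∏ p ∈ F1, p < 2 * ∏ p ∈ F2, p ∧ ∏ p ∈ F2, p < 2 * ∏ p ∈ F1, p ∧
      ∃ p ∈ F1 ∪ F2, z1 < (p : ℝ)) *
      ((∏ p ∈ F1, (rho A p : ℝ) / (2 * p)) * ∏ p ∈ F2, (rho A p : ℝ) / (2 * p)) with hg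
  have hg0 : ∀ F1 F2, 0 ≤ g F1 F2 := fun F1 F2 =>
    mul_nonneg (ind_nonneg _) (mul_nonneg (prod_nonneg fun _ _ => by positivity)
      (prod_nonneg fun _ _ => by positivity))
  set G : (Finset ℕ × Finset ℕ) × (Finset ℕ × Finset ℕ) → ℝ := fun v =>
    g v.1.1 v.1.2 * ((∏ p ∈ v.2.1, x p) * ∏ p ∈ v.2.2, x p) with hG
  set S : Finset (ℕ × ℕ) := (SF w y Y ×ˢ SF w y Y).filter fun v => v.1.Coprime v.2 with hS
  set Z : ℕ × ℕ → Finset ℕ := fun v => (v.1 * v.2).divisors.filter fun d =>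
    v.1 < 2 * d ∧ d < 2 * v.1 ∧ (∀ p : ℕ, p.Prime → ¬(p ∣ d ↔ p ∣ v.1) → (p : ℝ) ≤ z) ∧
      ∃ p : ℕ, p.Prime ∧ ¬(p ∣ d ↔ p ∣ v.1) ∧ z1 < (p : ℝ) with hZ
  set φ : (Σ _ : ℕ × ℕ, ℕ) → (Finset ℕ × Finset ℕ) × (Finset ℕ × Finset ℕ) := fun τ =>
    ((τ.1.1.primeFactors \ τ.2.primeFactors, τ.1.2.primeFactors ∩ τ.2.primeFactors),
      (τ.1.1.primeFactors ∩ τ.2.primeFactors, τ.1.2.primeFactors \ τ.2.primeFactors)) with hφ
  set U := ((PP w z).powerset ×ˢ (PP w z).powerset) ×ˢ ((PP w y).powerset ×ˢ (PP w y).powerset)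
    with hU
  have hmem : ∀ τ ∈ S.sigma Z, (Squarefree τ.1.1 ∧ τ.1.1.primeFactors ⊆ PP w y) ∧
      (Squarefree τ.1.2 ∧ τ.1.2.primeFactors ⊆ PP w y) ∧ τ.1.1.Coprime τ.1.2 ∧
      τ.2 ∣ τ.1.1 * τ.1.2 ∧ τ.1.1 < 2 * τ.2 ∧ τ.2 < 2 * τ.1.1 ∧
      (∀ p : ℕ, p.Prime → ¬(p ∣ τ.2 ↔ p ∣ τ.1.1) → (p : ℝ) ≤ z) ∧
      ∃ p : ℕ, p.Prime ∧ ¬(p ∣ τ.2 ↔ p ∣ τ.1.1) ∧ z1 < (p : ℝ) := by
    intro τ hτ
    obtain ⟨h1, h2⟩ := mem_sigma.1 hτ
    obtain ⟨h3, h4⟩ := mem_filter.1 h1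
    obtain ⟨h5, h6⟩ := mem_product.1 h3
    obtain ⟨h7, h8⟩ := mem_filter.1 h2
    exact ⟨(mem_filter.1 h5).2, (mem_filter.1 h6).2, h4, Nat.dvd_of_mem_divisors h7, h8⟩
  have hF : ∀ τ ∈ S.sigma Z, ∀ p : ℕ, p ∈ (φ τ).1.1 ∪ (φ τ).1.2 ↔
      p.Prime ∧ ¬(p ∣ τ.2 ↔ p ∣ τ.1.1) := by
    intro τ hτ p
    obtain ⟨⟨a1, -⟩, ⟨a2, -⟩, hc, hd, -⟩ := hmem τ hτ
    have b1 := a1.ne_zero
    have b2 := a2.ne_zero
    have b3 : τ.2 ≠ 0 := ne_zero_of_dvd_ne_zero (mul_ne_zero b1 b2) hd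
    simp only [hφ, mem_union, Finset.mem_sdiff, mem_inter, Nat.mem_primeFactors, ne_eq, b1, b2, b3,
      not_false_eq_true, and_true]
    constructor
    · rintro (⟨⟨h1, h2⟩, h3⟩ | ⟨⟨h1, h2⟩, -, h3⟩)
      · exact ⟨h1, fun h => h3 ⟨h1, h.2 h2⟩⟩
      · exact ⟨h1, fun h => h1.one_lt.ne' (Nat.eq_one_of_dvd_coprimes hc (h.1 h3) h2)⟩
    · rintro ⟨h1, h2⟩
      by_cases h3 : p ∣ τ.1.1
      · exact Or.inl ⟨⟨h1, h3⟩, fun h => h2 ⟨fun _ => h3, fun _ => h.2⟩⟩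
      · have h4 : p ∣ τ.2 := by
          by_contra h4
          exact h2 ⟨fun h => absurd h h4, fun h => absurd h h3⟩
        exact Or.inr ⟨⟨h1, ((Nat.Prime.dvd_mul h1).1 (h4.trans hd)).resolve_left h3⟩, h1, h4⟩
  have hz' : ∀ τ ∈ S.sigma Z, ∀ p ∈ (φ τ).1.1 ∪ (φ τ).1.2, (p : ℝ) ≤ z := fun τ hτ p hp =>
    (hmem τ hτ).2.2.2.2.2.2.1 p ((hF τ hτ p).1 hp).1 ((hF τ hτ p).1 hp).2
  have hsub : (S.sigma Z).image φ ⊆ U := by
    intro v hv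
    obtain ⟨τ, hτ, rfl⟩ := mem_image.1 hv
    obtain ⟨⟨-, a1⟩, ⟨-, a2⟩, -⟩ := hmem τ hτ
    simp only [hU, mem_product, mem_powerset]
    refine ⟨⟨fun p hp => ?_, fun p hp => ?_⟩, inter_subset_left.trans a1, sdiff_subset.trans a2⟩
    · have := (mem_PP hy).1 (a1 (Finset.mem_sdiff.1 hp).1)
      exact (mem_PP hz).2 ⟨this.1, this.2.1, hz' τ hτ p (mem_union_left _ hp)⟩
    · have := (mem_PP hy).1 (a2 (mem_inter.1 hp).1)
      exact (mem_PP hz).2 ⟨this.1, this.2.1, hz' τ hτ p (mem_union_right _ hp)⟩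
  have hinj : Set.InjOn φ (S.sigma Z : Finset _) := by
    intro τ hτ τ' hτ' e
    obtain ⟨⟨a1, -⟩, ⟨a2, -⟩, hc, hd, -⟩ := hmem τ hτ
    obtain ⟨⟨b1, -⟩, ⟨b2, -⟩, hc', hd', -⟩ := hmem τ' hτ'
    simp only [hφ, Prod.mk.injEq] at e
    obtain ⟨⟨e1, e2⟩, e3, e4⟩ := e
    have c1 : τ.1.1 = τ'.1.1 := by
      rw [← BETA2_split (d := τ.2) a1, ← BETA2_split (d := τ'.2) b1, e1, e3]
    have c2 : τ.1.2 = τ'.1.2 := by
      rw [← BETA2_split (d := τ.2) a2, ← BETA2_split (d := τ'.2) b2, e2, e4]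
    have c3 : τ.2 = τ'.2 := by
      rw [← BETA2_d a1 a2 hc hd, ← BETA2_d b1 b2 hc' hd', e2, e3]
    obtain ⟨⟨u1, u2⟩, u3⟩ := τ
    obtain ⟨⟨v1, v2⟩, v3⟩ := τ'
    simp only at c1 c2 c3
    rw [c1, c2, c3]
  have hwt : ∀ τ ∈ S.sigma Z,
      (∏ p ∈ τ.1.1.primeFactors, x p) * ∏ p ∈ τ.1.2.primeFactors, x p = G (φ τ) := by
    intro τ hτ
    obtain ⟨⟨a1, -⟩, ⟨a2, -⟩, hc, hd, l1, l2, -, p, hp, hp1, hp2⟩ := hmem τ hτ
    have s1 := BETA2_split (d := τ.2) a1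
    have s2 := BETA2_d a1 a2 hc hd
    have hpos : 0 < ∏ p ∈ τ.1.1.primeFactors ∩ τ.2.primeFactors, p :=
      prod_pos fun p hp => (Nat.prime_of_mem_primeFactors (mem_inter.1 hp).1).pos
    have hi : ∏ p ∈ (φ τ).1.1, p < 2 * ∏ p ∈ (φ τ).1.2, p ∧
        ∏ p ∈ (φ τ).1.2, p < 2 * ∏ p ∈ (φ τ).1.1, p ∧
        ∃ p ∈ (φ τ).1.1 ∪ (φ τ).1.2, z1 < (p : ℝ) := by
      refine ⟨Nat.lt_of_mul_lt_mul_left (a := ∏ p ∈ τ.1.1.primeFactors ∩ τ.2.primeFactors, p) ?_,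
        Nat.lt_of_mul_lt_mul_left (a := ∏ p ∈ τ.1.1.primeFactors ∩ τ.2.primeFactors, p) ?_,
        p, (hF τ hτ p).2 ⟨hp, hp1⟩, hp2⟩
      · simp only [hφ]
        rw [s1, mul_left_comm, s2]; exact l1
      · simp only [hφ]
        rw [s2, mul_left_comm, s1]; exact l2
    have k1 : ∏ p ∈ (φ τ).1.1, (rho A p : ℝ) / (2 * p) = ∏ p ∈ (φ τ).1.1, x p :=
      prod_congr rfl fun p hp => by
        simp only [hx]
        rw [if_neg (not_lt.2 (hz' τ hτ p (mem_union_left _ hp))), mul_one]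
    have k2 : ∏ p ∈ (φ τ).1.2, (rho A p : ℝ) / (2 * p) = ∏ p ∈ (φ τ).1.2, x p :=
      prod_congr rfl fun p hp => by
        simp only [hx]
        rw [if_neg (not_lt.2 (hz' τ hτ p (mem_union_right _ hp))), mul_one]
    simp only [hG, hg]
    rw [ind_pos hi, k1, k2, ← prod_inter_mul_prod_sdiff τ.1.1.primeFactors τ.2.primeFactors,
      ← prod_inter_mul_prod_sdiff τ.1.2.primeFactors τ.2.primeFactors]
    simp only [hφ]
    ring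
  have hE : ∑ F ∈ (PP w y).powerset, ∏ p ∈ F, x p ≤ exp (Lm A w z / 2 + 3 / 4 * Lm A z y) := by
    rw [← BETA2_sum A hw hwz hzy, ← prod_one_add, exp_sum]
    exact prod_le_prod (fun p _ => add_nonneg zero_le_one (hx0 p)) fun p _ => by
      rw [add_comm]; exact add_one_le_exp _
  have hE0 : 0 ≤ ∑ F ∈ (PP w y).powerset, ∏ p ∈ F, x p :=
    sum_nonneg fun _ _ => prod_nonneg fun p _ => hx0 p
  have hB0 : 0 ≤ B := le_trans (sum_nonneg fun F1 _ => sum_nonneg fun F2 _ => hg0 F1 F2) hB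
  calc _ = ∑ v ∈ S, ∑ _d ∈ Z v,
        (∏ p ∈ v.1.primeFactors, x p) * ∏ p ∈ v.2.primeFactors, x p := by
        rw [hS, sum_filter, sum_product]
        refine sum_congr rfl fun D1 _ => sum_congr rfl fun D2 _ => ?_
        by_cases hc : D1.Coprime D2
        · rw [if_pos hc, ind_pos hc, sum_const, nsmul_eq_mul, ← BETA2_wt A z hc]
          simp only [betz, hZ]
          ring
        · rw [if_neg hc, ind_neg hc, zero_mul, zero_mul]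
    _ = ∑ τ ∈ S.sigma Z, G (φ τ) := by
        rw [sum_sigma']
        exact sum_congr rfl hwt
    _ = ∑ v ∈ (S.sigma Z).image φ, G v := (sum_image hinj).symm
    _ ≤ ∑ v ∈ U, G v := sum_le_sum_of_subset_of_nonneg hsub fun v _ _ =>
        mul_nonneg (hg0 _ _) (mul_nonneg (prod_nonneg fun p _ => hx0 p) (prod_nonneg fun p _ => hx0 p))
    _ = (∑ F1 ∈ (PP w z).powerset, ∑ F2 ∈ (PP w z).powerset, g F1 F2) *
        ((∑ F ∈ (PP w y).powerset, ∏ p ∈ F, x p) * ∑ F ∈ (PP w y).powerset, ∏ p ∈ F, x p) := by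
        rw [sum_mul_sum, ← sum_product', ← sum_product', sum_mul_sum, ← sum_product']
    _ ≤ B * (exp (Lm A w z / 2 + 3 / 4 * Lm A z y) * exp (Lm A w z / 2 + 3 / 4 * Lm A z y)) :=
        mul_le_mul hB (mul_le_mul hE hE hE0 (exp_pos _).le) (mul_nonneg hE0 hE0) hB0
    _ = _ := by
        rw [← exp_add]
        congr 2
        ring

end Pool.Agent.P.MP_8be758_nt.Pd
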