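import Pool.Agent.P.MP_8be758_nt.Pd.IfG

/-! Step CYC. -/

namespace Pool.Agent.P.MP_8be758_nt.Pd

open Finset Real Filter
open Pool.Agent.P.MP_8be758_nt.Par (det)
open Pool.Agent.P.MP_8be758_nt.Avg (rho)

theorem CYC_fl (ρ : Pr) (m : ℤ) : (ρ.fl m : ℤ) ∣ m :=
  Int.natCast_dvd.2 (prod_primes_dvd _ (fun _ h => (prime_of_PP (mem_pf.1 h).1).prime)
    fun _ h => Int.natCast_dvd.1 (mem_pf.1 h).2)

theorem CYC_pr {ρ : Pr} {m : ℤ} {p : ℕ} (hp : p.Prime) (h : p ∣ ρ.fl m) : p ∈ ρ.Ps := by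
  obtain ⟨r, h1, h2⟩ := (Prime.dvd_finsetProd_iff hp.prime _).1 h
  rw [(Nat.prime_dvd_prime_iff_eq hp (prime_of_PP (mem_pf.1 h1).1)).1 h2]
  exact (mem_pf.1 h1).1

theorem CYC_iff {ρ : Pr} {m : ℤ} {p : ℕ} (hp : p ∈ ρ.Ps) : (p : ℤ) ∣ ρ.fl m ↔ (p : ℤ) ∣ m :=
  ⟨fun h => h.trans (CYC_fl ρ m), fun h =>
    Int.natCast_dvd_natCast.2 (dvd_prod_of_mem _ (mem_pf.2 ⟨hp, h⟩))⟩

theorem CYC_unit {p n : ℕ} (hp : p.Prime) (h : ¬p ∣ n) (k : ℕ) (x : ℤ) :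
    (p : ℤ) ^ k ∣ n * x ↔ (p : ℤ) ^ k ∣ x :=
  ⟨(Nat.isCoprime_iff_coprime.2 (hp.coprime_iff_not_dvd.2 h)).pow_left.dvd_of_dvd_mul_left,
    fun h => h.mul_left _⟩

theorem CYC_big {ρ : Pr} (hy : 0 ≤ ρ.y) {r : ℕ} (hr : r.Prime) (h : ρ.y < r) (m : ℤ) :
    (ρ.fl m).Coprime r :=
  (hr.coprime_iff_not_dvd.2 fun e => h.not_ge ((mem_PP hy).1 (CYC_pr hr e)).2.2).symm

theorem p_CYC (hSDS : S_SDS) :
    S_CYC := by
  refine ⟨1, fun A C1 => ⟨1, le_rfl, fun z _ _ hz => ?_⟩⟩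
  filter_upwards [eventually_ge_atTop (1 : ℝ), eventually_ge_atTop (z.w : ℝ)] with y hy hw
  obtain ⟨-, hA, -, -, -, -, k2, k3, k4, k5, -⟩ := hz
  intro q D1 D2 c0 ⟨⟨q1, q3, q4⟩, _, _⟩ g hg α hα β hβ v σ x
  set ρ : Pr := ⟨z, y⟩
  have hA1 : 1 ≤ ρ.A := by show 1 ≤ z.A; omega
  simp only [Pr.AT, Pr.AP, mem_filter] at hg
  obtain ⟨⟨hg, ⟨d3, d14⟩, rfl, rfl, -⟩, hc⟩ := hg
  have hd : det g.1 g.2 = 1 := ((mem_GG hA1 (isF_Q0 _)).1 hg).1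
  have hF : IsF ρ.A (ρ.fm g) := (isF_Q0 _).act hA1 hd
  have f1 := hF.2
  have f3 := hF.third_pos hA1
  have y0 : 0 ≤ ρ.y := zero_le_one.trans hy
  have l1 : y < q.1 := (le_self_pow₀ hy (by show z.k5 ≠ 0; omega)).trans_lt (lt_of_PP q1)
  have l3 : y < q.2.1 := (le_self_pow₀ hy (by show z.k3 ≠ 0; omega)).trans_lt (lt_of_PP q3)
  have l4 : y < q.2.2 := lt_of_PP q4
  have p1 := prime_of_PP q1
  have p3 := prime_of_PP q3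
  have p4 := prime_of_PP q4
  have a1 : α.1 * α.2 ∣ ρ.fl (ρ.fm g).1 := (mem_filter.1 hα).2
  have a2 : β.1 * β.2 ∣ ρ.fl (ρ.fm g).2.2 := (mem_filter.1 hβ).2
  have b1 : ((σ.E1 * σ.a1 : ℕ) : ℤ) ∣ (ρ.fm g).1 := by
    refine Dvd.dvd.trans (Int.natCast_dvd_natCast.2 ?_) (Nat.cast_mul (α := ℤ) _ _ ▸
      (Nat.isCoprime_iff_coprime.2 (CYC_big y0 p3 l3 _)).mul_dvd (CYC_fl ρ _) d3)
    exact (dvd_of_eq (mul_right_comm _ _ _)).trans (mul_dvd_mul_right a1 _)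
  have b2 : ((σ.E2 * σ.a2 * σ.q1 : ℕ) : ℤ) ∣ (ρ.fm g).2.2 := by
    refine Dvd.dvd.trans (Int.natCast_dvd_natCast.2 ?_) (Nat.cast_mul (α := ℤ) _ _ ▸
      (Nat.isCoprime_iff_coprime.2 ((CYC_big y0 p1 l1 _).mul_right (CYC_big y0 p4 l4 _))).mul_dvd
        (CYC_fl ρ _) d14)
    refine (dvd_of_eq ?_).trans (mul_dvd_mul_right a2 _)
    simp only [σ, mkS, Sd.E2]; ring
  have i1 : x.P * ((σ.E1 * σ.a1 : ℕ) : ℤ) = (ρ.fm g).1 * σ.E2 :=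
    Int.ediv_mul_cancel (b1.mul_right _)
  have i2 : x.R * ((σ.E2 * σ.a2 * σ.q1 : ℕ) : ℤ) = (ρ.fm g).2.2 * σ.E1 :=
    Int.ediv_mul_cancel (b2.mul_right _)
  have n1 : ((σ.E1 * σ.a1 : ℕ) : ℤ) ≠ 0 := fun e => f1.ne' (zero_dvd_iff.1 (e ▸ b1))
  have n2 : ((σ.E2 * σ.a2 * σ.q1 : ℕ) : ℤ) ≠ 0 := fun e => f3.ne' (zero_dvd_iff.1 (e ▸ b2))
  have m1 : (0 : ℤ) < σ.E1 := by
    push_cast at n1; exact (Int.natCast_nonneg _).lt_of_ne' (left_ne_zero_of_mul n1)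
  have m2 : (0 : ℤ) < σ.E2 := by
    push_cast at n2
    exact (Int.natCast_nonneg _).lt_of_ne' (left_ne_zero_of_mul (left_ne_zero_of_mul n2))
  have xa : x.a = (σ.a1 : ℤ) * σ.a2 * σ.q1 := by simp only [x, Pr.cy, Sd.cyc, Sd.a]; push_cast; rfl
  have i3 : x.P * x.R * x.a = (ρ.fm g).1 * (ρ.fm g).2.2 := by
    refine mul_right_cancel₀ (mul_pos m1 m2).ne' ?_
    rw [xa]
    push_cast at i1 i2
    linear_combination (x.R * (σ.E2 * σ.a2 * σ.q1)) * i1 + (ρ.fm g).1 * σ.E2 * i2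
  have i4 : (σ.dt : ℤ) * x.Bt = ev (ρ.fm g) σ.ut := by
    have : x.Bt = x.a * x.R + (ρ.fm g).2.1 * σ.t + x.P * σ.t ^ 2 := rfl
    rw [this, xa]
    simp only [ev, Sd.dt, Sd.ut]
    push_cast at i1 i2 ⊢
    linear_combination (σ.E2 * σ.t ^ 2) * i1 + (σ.E1 * σ.a1 ^ 2) * i2
  have i5 : (σ.ds : ℤ) * x.As = ev (ρ.fm g) σ.us := by
    have : x.As = x.a * x.P + (ρ.fm g).2.1 * σ.s + x.R * σ.s ^ 2 := rfl
    rw [this, xa]
    simp only [ev, Sd.ds, Sd.us]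
    push_cast at i1 i2 ⊢
    linear_combination (σ.E2 * (σ.a2 * σ.q1) ^ 2) * i1 + (σ.E1 * σ.s ^ 2) * i2
  have un : ∀ p : ℕ, p.Prime → p ≤ ρ.w → ¬p ∣ σ.E1 * σ.a1 * (σ.E2 * σ.a2 * σ.q1) := by
    intro p hp hpw h
    have u1 : ∀ m, ¬p ∣ ρ.fl m := fun m e =>
      (lt_of_PP (CYC_pr hp e)).not_ge (by exact_mod_cast hpw)
    have u2 : ∀ r : ℕ, r.Prime → y < r → ¬p ∣ r := fun r hr l e => by
      rw [(Nat.prime_dvd_prime_iff_eq hp hr).1 e] at hpw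
      exact l.not_ge (le_trans (by exact_mod_cast hpw) hw)
    have e : σ.E1 * σ.a1 * (σ.E2 * σ.a2 * σ.q1) =
        α.1 * α.2 * (β.1 * β.2 * (q.1 * (q.2.1 * q.2.2))) := by
      simp only [σ, mkS, Sd.E1, Sd.E2]; ring
    rw [e, hp.dvd_mul, hp.dvd_mul (n := q.1 * _), hp.dvd_mul (m := q.1),
      hp.dvd_mul (m := q.2.1)] at h
    rcases h with h | h | h | h | h
    exacts [u1 _ (h.trans a1), u1 _ (h.trans a2), u2 _ p1 l1 h, u2 _ p3 l3 h, u2 _ p4 l4 h]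
  have hR : ∀ p : ℕ, p.Prime → p ≤ ρ.w → ((p : ℤ) ∣ x.R ↔ (p : ℤ) ∣ (ρ.fm g).2.2) := by
    intro p hp hpw
    have h1 := CYC_unit hp (fun e => un p hp hpw (e.mul_left _)) 1 x.R
    have h2 := CYC_unit (n := σ.E1) hp
      (fun e => un p hp hpw ((e.mul_right _).mul_right _)) 1 (ρ.fm g).2.2
    rw [pow_one, mul_comm] at h1 h2
    rw [← h1, i2, h2]
  refine ⟨pos_of_mul_pos_left (i1 ▸ mul_pos f1 m2) (Int.natCast_nonneg _),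
    pos_of_mul_pos_left (i2 ▸ mul_pos f3 m1) (Int.natCast_nonneg _), ?_, i3, ?_, rfl, i4,
    i5, forall_congr' fun p => forall_congr' fun hp => forall_congr' fun hpw => ?_,
    fun p hp hpw h1 h2 h3 => ?_⟩
  · have : x.b = (ρ.fm g).2.1 := rfl
    rw [this]
    linear_combination hF.1 - 4 * i3
  · rw [i3]
    refine filter_congr fun p hp => ?_
    have := Nat.prime_iff_prime_int.1 (prime_of_PP hp)
    rw [Nat.cast_mul, this.dvd_mul, this.dvd_mul, CYC_iff hp, CYC_iff hp]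
  · have w1 : (p : ℤ) ^ 2 ∣ (ρ.W ^ 2 : ℕ) := by
      exact_mod_cast pow_dvd_pow_of_dvd (hp.dvd_primorial_iff.2 hpw) 2
    have h1 := CYC_unit (n := σ.dt) hp (fun e => un p hp hpw (e.trans
      ⟨σ.a2 * σ.q1, by simp only [Sd.dt]; ring⟩)) 2 x.Bt
    have h2 := CYC_unit (n := σ.ds) hp (fun e => un p hp hpw (e.trans
      ⟨σ.a1, by simp only [Sd.ds]; ring⟩)) 2 x.As
    rw [← h1, ← h2, i4, i5, hR p hp hpw]
    unfold Pr.fm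
    rw [dvd_iff_of_modEq (ev_act_modEq _ hc σ.ut) w1, dvd_iff_of_modEq (ev_act_modEq _ hc σ.us) w1,
      dvd_iff_of_modEq (act_modEq _ hc).2.2 ((dvd_pow_self _ two_ne_zero).trans w1)]
  · have h4 := CYC_unit (n := σ.E2) hp
      (fun e => un p hp hpw (((e.mul_right _).mul_right _).mul_left _)) 1 (ρ.fm g).1
    rw [pow_one, mul_comm, ← i1] at h4
    have h5 : (p : ℤ) ∣ ev (ρ.fm g) (g.2.2, -g.1.2) :=
      (((h4.1 (h1.mul_right _)).mul_right _).add ((Dvd.dvd.mul_right h2 _).mul_right _)).add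
        (((hR p hp hpw).1 h3).mul_right _)
    have h6 : ap g (g.2.2, -g.1.2) = (1, 0) := by
      simp only [ap, det, Prod.mk.injEq] at hd ⊢
      exact ⟨by linear_combination hd, by ring⟩
    rw [Pr.fm, ev_act, h6] at h5
    exact (Nat.prime_iff_prime_int.1 hp).not_dvd_one (by simpa [ev, Q0] using h5)

end Pool.Agent.P.MP_8be758_nt.Pd
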