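import Pool.Agent.P.MP_8be758_nt.Pd.IfE

/-! Step FM1. -/

namespace Pool.Agent.P.MP_8be758_nt.Pd

open Finset Real Filter
open Pool.Agent.P.MP_8be758_nt.Par (det)
open Pool.Agent.P.MP_8be758_nt.Avg (rho)
open scoped Classical

theorem FM1_core {G : Finset G4} {Mx err N a : ℝ} {M : ℕ} (P : G4 → Prop)
    (h : S4.Equi G (fun _ => 1) G.card Mx err) (hN : (G.card : ℝ) ≤ N) (hM : 0 < M)
    (hMx : (M : ℝ) ≤ Mx) (hP : ∀ g g', C4 M g g' → (P g ↔ P g')) (ha : 0 ≤ a)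
    (hav : S4.av M (fun g => ind (P g)) ≤ a) : ∑ g ∈ G, ind (P g) ≤ N * a + err := by
  have h1 := h M (fun g => ind (P g)) hM hMx (fun g g' e => congrArg ind (propext (hP g g' e)))
    fun g => by rw [abs_of_nonneg (ind_nonneg _)]; exact ind_le_one _
  simp only [one_mul] at h1
  have h2 : (G.card : ℝ) * S4.av M (fun g => ind (P g)) ≤ N * a :=
    (mul_le_mul_of_nonneg_left hav (Nat.cast_nonneg _)).trans (mul_le_mul_of_nonneg_right hN ha)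
  linarith [(abs_le.1 h1).2]

theorem FM1_sq {p : ℕ} (hp : p.Prime) {a b : ℤ} (h : (p : ℤ) ^ 2 ∣ a * b) :
    (p : ℤ) ^ 2 ∣ a ∨ (p : ℤ) ^ 2 ∣ b ∨ ((p : ℤ) ∣ a ∧ (p : ℤ) ∣ b) := by
  have hp' := Nat.prime_iff_prime_int.1 hp
  by_cases h1 : (p : ℤ) ∣ a
  · by_cases h2 : (p : ℤ) ∣ b
    · exact Or.inr (Or.inr ⟨h1, h2⟩)
    · exact Or.inl (hp'.pow_dvd_of_dvd_mul_right 2 h2 h)
  · exact Or.inr (Or.inl (hp'.pow_dvd_of_dvd_mul_left 2 h1 h))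

theorem p_FM1 (hNEQ : S_NEQ) (hL1 : S_L1) (hL2 : S_L2) (hL3 : S_L3) :
    S_FM1 := by
  obtain ⟨c, hc⟩ := hNEQ 1
  refine ⟨max c 3, fun A C1 => ?_⟩
  obtain ⟨C, hC, hc⟩ := hc A C1
  refine ⟨6 * C + 3, by linarith, fun z h1 h2 hz => ?_⟩
  filter_upwards [hc z h1 h2 (hz.mono (le_max_left _ _)), eventually_ge_atTop 1] with y hF hy
  obtain ⟨s1, s2, -, -, s3, -⟩ := hz.sizes (le_max_right _ _)
  obtain ⟨-, hA, hC1, hw, -⟩ := hz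
  set ρ : Pr := ⟨z, y⟩ with hρ
  intro p hp
  have hA1 : 1 ≤ ρ.A := by change 1 ≤ z.A; omega
  have hX : 0 < ρ.X := pow_pos (by change 0 < y; linarith) _
  have hyK : 1 ≤ ρ.y ^ (1 * ρ.K') := one_le_pow₀ hy
  have hC1' : 1 ≤ ρ.C1 := hC1
  obtain ⟨hE, hN⟩ := hF (Q0 ρ.A) (Q0_mem hA1) ρ.X (1 / ρ.C1) ρ.C1 (div_le_self hX.le hyK) le_rfl
    (by positivity) ((div_le_one (by linarith)).2 hC1' |>.trans hC1')
    (mul_le_mul_of_nonneg_right (by simp only [Pr.c5]; nlinarith) hX.le)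
  obtain ⟨hp1, hp2, hp3⟩ := (mem_PP (by change 0 ≤ y; linarith)).1 hp
  have hp4 : 4 * ρ.A < p := by
    have : ρ.w < p := by exact_mod_cast hp2
    exact lt_of_le_of_lt hw this
  have hp0 : (0 : ℝ) < p := by exact_mod_cast hp1.pos
  have hp5 : (1 : ℝ) ≤ p := by exact_mod_cast hp1.pos
  have hM : ((p ^ 2 : ℕ) : ℝ) ≤ ρ.y ^ (1 * ρ.K') := by
    push_cast
    refine (pow_le_pow_left₀ hp0.le hp3 2).trans (pow_le_pow_right₀ hy ?_)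
    change 2 ≤ 1 * z.K'
    omega
  have hM0 : 0 < p ^ 2 := pow_pos hp1.pos 2
  have herr : ρ.Er 1 ≤ ρ.X / (p : ℝ) ^ 2 := by
    refine div_le_div_of_nonneg_left hX.le (by positivity) ?_
    exact_mod_cast hM
  have hu1 : ¬((p : ℤ) ∣ ((1, 0) : V2).1 ∧ (p : ℤ) ∣ ((1, 0) : V2).2) := fun h =>
    (Nat.prime_iff_prime_int.1 hp1).not_dvd_one h.1
  have hu2 : ¬((p : ℤ) ∣ ((0, 1) : V2).1 ∧ (p : ℤ) ∣ ((0, 1) : V2).2) := fun h =>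
    (Nat.prime_iff_prime_int.1 hp1).not_dvd_one h.2
  have hr : (rho ρ.A p : ℝ) ≤ 2 := by
    exact_mod_cast (hL1 ρ.A p _ _ hA1 (isF_Q0 _) hp1 hp4 hu1).1
  have d1 : (p : ℤ) ∣ ((p ^ 2 : ℕ) : ℤ) := by push_cast; exact dvd_pow_self _ two_ne_zero
  have d2 : (p : ℤ) ^ 2 ∣ ((p ^ 2 : ℕ) : ℤ) := by push_cast; exact dvd_rfl
  have e1 : ∀ φ : Fm, ev φ (1, 0) = φ.1 := fun φ => by simp [ev]
  have e2 : ∀ φ : Fm, ev φ (0, 1) = φ.2.2 := fun φ => by simp [ev]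
  have a1 : ∀ u : V2, ¬((p : ℤ) ∣ u.1 ∧ (p : ℤ) ∣ u.2) →
      ∑ g ∈ ρ.E, ind ((p : ℤ) ∣ ev (ρ.fm g) u) ≤ (6 * C + 3) * ρ.X / p := fun u hu => by
    have h3 := FM1_core (a := 2 / p) (fun g => (p : ℤ) ∣ ev (act (Q0 ρ.A) g) u) hE hN hM0 hM
      (fun g g' e => dvd_iff_of_modEq (ev_act_modEq _ e u) d1) (by positivity)
      (((hL1 ρ.A p _ u hA1 (isF_Q0 _) hp1 hp4 hu).2.2.le).trans (by gcongr; linarith))
    refine h3.trans ?_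
    have h4 : ρ.X / (p : ℝ) ^ 2 ≤ ρ.X / p :=
      div_le_div_of_nonneg_left hX.le hp0 (by nlinarith)
    have h5 : 0 < ρ.X / p := by positivity
    have h6 : C * ρ.X * (2 / p) = 2 * C * (ρ.X / p) := by ring
    rw [h6, mul_div_assoc]
    nlinarith
  have a2 : ∀ P : G4 → Prop, (∀ g g', C4 (p ^ 2) g g' → (P g ↔ P g')) →
      S4.av (p ^ 2) (fun g => ind (P g)) ≤ (rho ρ.A p : ℝ) / p ^ 2 →
      ∑ g ∈ ρ.E, ind (P g) ≤ (2 * C + 1) * (ρ.X / (p : ℝ) ^ 2) := fun P hP hav => by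
    have h3 := FM1_core (a := 2 / (p : ℝ) ^ 2) P hE hN hM0 hM hP (by positivity)
      (hav.trans (by gcongr))
    refine h3.trans ?_
    have h6 : C * ρ.X * (2 / (p : ℝ) ^ 2) = 2 * C * (ρ.X / (p : ℝ) ^ 2) := by ring
    rw [h6]
    linarith
  refine ⟨by simpa only [e1] using a1 _ hu1, by simpa only [e2] using a1 _ hu2, ?_⟩
  have b1 := a2 (fun g => (p : ℤ) ^ 2 ∣ ev (act (Q0 ρ.A) g) (1, 0))
    (fun g g' e => dvd_iff_of_modEq (ev_act_modEq _ e _) d2)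
    (hL3 ρ.A p _ _ hA1 (isF_Q0 _) hp1 hp4 hu1)
  have b2 := a2 (fun g => (p : ℤ) ^ 2 ∣ ev (act (Q0 ρ.A) g) (0, 1))
    (fun g g' e => dvd_iff_of_modEq (ev_act_modEq _ e _) d2)
    (hL3 ρ.A p _ _ hA1 (isF_Q0 _) hp1 hp4 hu2)
  have b3 := a2 (fun g => (p : ℤ) ∣ ev (act (Q0 ρ.A) g) (1, 0) ∧
      (p : ℤ) ∣ ev (act (Q0 ρ.A) g) (0, 1))
    (fun g g' e => and_congr (dvd_iff_of_modEq (ev_act_modEq _ e _) d1)
      (dvd_iff_of_modEq (ev_act_modEq _ e _) d1))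
    (hL2 ρ.A p _ _ _ hA1 (isF_Q0 _) hp1 hp4 (by
      simpa [det] using (Nat.prime_iff_prime_int.1 hp1).not_dvd_one))
  simp only [e1, e2] at b1 b2 b3
  calc _ ≤ ∑ g ∈ ρ.E, (ind ((p : ℤ) ^ 2 ∣ (act (Q0 ρ.A) g).1) +
        ind ((p : ℤ) ^ 2 ∣ (act (Q0 ρ.A) g).2.2) +
        ind ((p : ℤ) ∣ (act (Q0 ρ.A) g).1 ∧ (p : ℤ) ∣ (act (Q0 ρ.A) g).2.2)) := by
        refine sum_le_sum fun g _ => ?_
        have n1 := ind_nonneg ((p : ℤ) ^ 2 ∣ (act (Q0 ρ.A) g).1)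
        have n2 := ind_nonneg ((p : ℤ) ^ 2 ∣ (act (Q0 ρ.A) g).2.2)
        have n3 := ind_nonneg ((p : ℤ) ∣ (act (Q0 ρ.A) g).1 ∧ (p : ℤ) ∣ (act (Q0 ρ.A) g).2.2)
        by_cases h : (p : ℤ) ^ 2 ∣ (ρ.fm g).1 * (ρ.fm g).2.2
        · rw [ind_pos h]
          rcases FM1_sq hp1 h with h | h | h
          all_goals have := ind_pos h; simp only [Pr.fm] at this; linarith
        · rw [ind_neg h]; linarith
    _ ≤ _ := by
        rw [sum_add_distrib, sum_add_distrib, mul_div_assoc]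
        linarith

end Pool.Agent.P.MP_8be758_nt.Pd
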