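import Pool.Agent.P.MP_8be758_nt.Pd.IfG2

/-! Step GLOW. -/

namespace Pool.Agent.P.MP_8be758_nt.Pd

open Finset Real Filter
open Pool.Agent.P.MP_8be758_nt.Par (det)
open Pool.Agent.P.MP_8be758_nt.Avg (rho)

theorem GLOW_one {κ : Type} (P : Finset κ) (k : κ → Prop) (W M : κ → ℝ) (m V : ℝ)
    (hM : ∀ x ∈ P, m ≤ M x) (hV : ∑ x ∈ P, (W x - M x) ^ 2 ≤ V) :
    m * ∑ x ∈ P, ind (k x) - √((∑ x ∈ P, ind (k x)) * V) ≤ ∑ x ∈ P, ind (k x) * W x := by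
  have h1 := sum_mul_le_sqrt_mul_sqrt P (fun x => ind (k x)) fun x => M x - W x
  have h2 : ∑ x ∈ P, ind (k x) ^ 2 = ∑ x ∈ P, ind (k x) :=
    sum_congr rfl fun x _ => by rw [sq, ← ind_and, and_self]
  have h3 : ∑ x ∈ P, (M x - W x) ^ 2 ≤ V := le_of_eq_of_le (sum_congr rfl fun x _ => by ring) hV
  have h4 : m * ∑ x ∈ P, ind (k x) ≤ ∑ x ∈ P, ind (k x) * W x + ∑ x ∈ P, ind (k x) * (M x - W x) := by
    rw [mul_sum, ← sum_add_distrib]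
    exact sum_le_sum fun x hx => by nlinarith [mul_le_mul_of_nonneg_right (hM x hx) (ind_nonneg (k x))]
  rw [h2] at h1
  rw [sqrt_mul (sum_nonneg fun x _ => ind_nonneg _)]
  linarith [mul_le_mul_of_nonneg_left (sqrt_le_sqrt h3) (sqrt_nonneg (∑ x ∈ P, ind (k x)))]

theorem GLOW_core {α β γ G : Type} (A : Finset α) (B : Finset β) (D : Finset γ)
    (T : α → β → γ → Finset G) (k : α → G → Prop) (W : α → β → G → ℝ) (M : α → β → γ → ℝ)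
    (m n V : ℝ) (hM : ∀ a ∈ A, ∀ b ∈ B, ∀ c ∈ D, (T a b c).Nonempty → m ≤ M a b c)
    (hn : ∑ a ∈ A, ∑ b ∈ B, ∑ c ∈ D, ∑ g ∈ T a b c, ind (k a g) = n)
    (hV : ∑ a ∈ A, ∑ b ∈ B, ∑ c ∈ D, ∑ g ∈ T a b c, (W a b g - M a b c) ^ 2 ≤ V) :
    m * n - √(n * V) ≤ ∑ a ∈ A, ∑ b ∈ B, ∑ c ∈ D, ∑ g ∈ T a b c, ind (k a g) * W a b g := by
  have := GLOW_one ((A ×ˢ B ×ˢ D).sigma fun i => T i.1 i.2.1 i.2.2) (fun x => k x.1.1 x.2)
    (fun x => W x.1.1 x.1.2.1 x.2) (fun x => M x.1.1 x.1.2.1 x.1.2.2) m V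
    (fun x hx => by
      simp only [mem_sigma, mem_product] at hx
      exact hM _ hx.1.1 _ hx.1.2.1 _ hx.1.2.2 ⟨_, hx.2⟩)
    (by simpa only [sum_sigma, sum_product] using hV)
  simpa only [sum_sigma, sum_product, hn] using this

theorem GLOW_err {y C w L : ℝ} {K : ℕ} (hK : 1 ≤ K) (hC : 1 ≤ C) (hw : 1 ≤ w) (h1 : C ≤ y)
    (h2 : w ≤ y) (hL : exp L ≤ C * log y) :
    y ^ (6 * K) / y ^ (19 * K) ≤ 1 / w * exp (-5 * L) := by
  have y1 : 1 ≤ y := hC.trans h1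
  have l1 : exp L ≤ y ^ 2 := by
    have := log_le_self (zero_le_one.trans y1)
    nlinarith [log_nonneg y1]
  have l2 : w * exp L ^ 5 * y ^ (6 * K) ≤ y ^ (19 * K) :=
    calc w * exp L ^ 5 * y ^ (6 * K) ≤ y * (y ^ 2) ^ 5 * y ^ (6 * K) := by gcongr
      _ = y ^ (11 + 6 * K) := by ring
      _ ≤ _ := pow_le_pow_right₀ y1 (by omega)
  rw [neg_mul, exp_neg, show (5 : ℝ) * L = (5 : ℕ) * L by norm_num, exp_nat_mul, one_div, ← mul_inv,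
    ← one_div, div_le_div_iff₀ (by positivity) (by positivity)]
  linarith

theorem p_GLOW (hVAR : S_VAR) (hMB : S_MB) (hATS : S_ATS) (hQCNT : S_QCNT) (hLAM : S_LAM) :
    S_GLOW := by
  obtain ⟨c1, h1⟩ := hVAR
  obtain ⟨c2, h2⟩ := hMB
  obtain ⟨c3, h3⟩ := hATS
  obtain ⟨c4, h4⟩ := hQCNT
  obtain ⟨c5, h5⟩ := hLAM
  refine ⟨c1 + c2 + c3 + c4 + c5 + 1, fun A C1 => ?_⟩
  obtain ⟨B1, a1, h1⟩ := h1 A C1
  obtain ⟨B2, a2, h2⟩ := h2 A C1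
  obtain ⟨B3, -, h3⟩ := h3 A C1
  obtain ⟨B4, a4, h4⟩ := h4 A C1
  obtain ⟨B5, a5, h5⟩ := h5 A C1
  refine ⟨B1 * B4 ^ 2 + 1 + B2, le_add_of_nonneg_of_le (by positivity) a2, fun z zA zC big => ?_⟩
  have w12 : 12 ≤ z.w := by have := big.2.1; have := big.2.2.2.1; omega
  have K1 : 1 ≤ z.k4 ∧ 1 ≤ z.k6 ∧ 1 ≤ z.K' := by
    obtain ⟨-, -, -, -, -, -, b7, b8, b9, b10, b11, b12, -⟩ := big
    have := (Nat.le_mul_of_pos_left _ (by omega)).trans b8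
    have := (Nat.le_mul_of_pos_left _ (by omega)).trans b10
    omega
  filter_upwards [h1 z zA zC (big.mono (by omega)), h2 z zA zC (big.mono (by omega)),
    h3 z zA zC (big.mono (by omega)), h4 z zA zC (big.mono (by omega)),
    h5 z zA zC (big.mono (by omega)), eventually_ge_atTop B5, eventually_ge_atTop √z.w]
    with y h1 h2 h3 h4 h5 y1 y2
  intro S hE hS
  set ρ : Pr := ⟨z, y⟩
  choose! Q hQ using fun g hg => (hS g hg).2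
  obtain ⟨t1, t2, -, t4⟩ := h3
  obtain ⟨-, q2, q3⟩ := h4
  have y0 : 0 < ρ.y := by show 0 < y; linarith
  have X0 : 0 ≤ ρ.X := pow_nonneg y0.le _
  have sw : (1 : ℝ) ≤ √ρ.w := one_le_sqrt.2 (by exact_mod_cast (by omega : 1 ≤ z.w))
  have ep1 : 1 / √ρ.w ≤ ρ.ep := le_add_of_nonneg_left (by positivity)
  have ep0 : 0 ≤ ρ.ep := le_trans (by positivity) ep1
  have ls0 : 0 < ρ.ls := mul_pos (pow_pos (by exact_mod_cast K1.1) _)
    (pow_pos (log_pos (by exact_mod_cast (by omega : 1 < z.w))) _)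
  have QI : ∀ q, q ∈ ρ.I1 ×ˢ ρ.I3 ×ˢ ρ.I4 ↔ ρ.QR q := fun q => by
    simp only [mem_product, Pr.QR]
  have AD : ∀ q ∈ ρ.I1 ×ˢ ρ.I3 ×ˢ ρ.I4, ∀ D ∈ ρ.DS, ∀ c ∈ S4.U (ρ.W ^ 2), ρ.AD q D.1 D.2 c :=
    fun q hq D hD c hc => by
      classical
      exact ⟨(QI q).1 hq, (mem_filter.1 hD).2, hc⟩
  set μ := exp (-5 * ρ.La) with hμ
  have μ0 : 0 ≤ μ := (exp_pos _).le
  have cnt : ∑ q ∈ ρ.I1 ×ˢ ρ.I3 ×ˢ ρ.I4, ∑ D ∈ ρ.DS, ∑ c ∈ S4.U (ρ.W ^ 2),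
      ((ρ.AT q D.1 D.2 c).card : ℝ) ≤ B4 * ρ.X * (B4 * (ρ.k6 : ℝ) ^ 3) := by
    refine le_trans (sum_le_sum fun q hq => ?_)
      ((mul_sum _ _ _).symm.trans_le (mul_le_mul_of_nonneg_left q2 (by positivity)))
    have := t2 q fun _ => 1
    simp only [sum_const, nsmul_eq_mul, mul_one] at this
    rw [this, mul_one_div]
    exact (sum_le_sum fun g _ => ind_mono And.right).trans (q3 q ((QI q).1 hq))
  have key := GLOW_core (ρ.I1 ×ˢ ρ.I3 ×ˢ ρ.I4) ρ.DS (S4.U (ρ.W ^ 2)) (fun q D c => ρ.AT q D.1 D.2 c)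
    (fun q g => g ∈ S ∧ Q g = q) (fun q D g => ρ.Wq q D.1 D.2 g) (fun q D c => ρ.MM q D.1 D.2 c)
    (exp (-(5 / 2) * ρ.La) / ((B1 * B4 ^ 2 + 1 + B2) * ρ.ls)) S.card
    ((B1 * B4 ^ 2 + 1 + B2) * 4 ^ ρ.U * (ρ.k6 : ℝ) ^ 3 * ρ.ep * ρ.X * μ)
    (fun q hq D hD c hc hne => le_trans (by
      gcongr
      exact le_add_of_nonneg_left (by positivity)) (h2 q D.1 D.2 c (AD q hq D hD c hc) hne).1)
    (by
      rw [sum_congr rfl fun q _ => t2 q _, sum_comm, ← sum_subset hE fun g _ hg =>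
        sum_eq_zero fun q _ => by rw [ind_neg (P := g ∈ S ∧ _) fun e => hg e.1, mul_zero],
        card_eq_sum_ones,
        Nat.cast_sum]
      refine sum_congr rfl fun g hg => ?_
      rw [sum_eq_single_of_mem (Q g) ((QI _).2 (hQ g hg).1) fun q _ hq => by
        rw [ind_neg (P := g ∈ S ∧ _) fun e => hq e.2.symm, mul_zero],
        ind_pos ⟨(hS g hg).1, (hQ g hg).2⟩,
        ind_pos ⟨hg, rfl⟩]
      norm_num)
    (by
      refine (sum_le_sum fun q hq => sum_le_sum fun D hD => sum_le_sum fun c hc =>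
        h1 q D.1 D.2 c (AD q hq D hD c hc)).trans ?_
      simp only [sum_add_distrib, ← mul_sum, sum_const, nsmul_eq_mul]
      have e1 := GLOW_err K1.2.2 a5 sw y1 y2 h5.2.1
      have e2 : ρ.y ^ (6 * ρ.K') * ρ.Er 19 ≤ ρ.ep * μ * ρ.X :=
        calc _ = ρ.y ^ (6 * ρ.K') / ρ.y ^ (19 * ρ.K') * ρ.X := by rw [Pr.Er]; ring
          _ ≤ _ := mul_le_mul_of_nonneg_right (e1.trans (mul_le_mul_of_nonneg_right ep1 μ0)) X0
      have e3 := mul_le_mul_of_nonneg_right t4 (show 0 ≤ ρ.Er 19 from div_nonneg X0 (by positivity))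
      have e4 := mul_le_mul_of_nonneg_left cnt (show 0 ≤ B1 * 4 ^ ρ.U * ρ.ep * μ by positivity)
      have e5 : (1 : ℝ) ≤ 4 ^ ρ.U * (ρ.k6 : ℝ) ^ 3 := one_le_mul_of_one_le_of_one_le
        (one_le_pow₀ (by norm_num)) (one_le_pow₀ (by exact_mod_cast K1.2.1))
      have e6 : 0 ≤ ρ.ep * μ * ρ.X := by positivity
      have e7 : 0 ≤ B2 * (4 ^ ρ.U * (ρ.k6 : ℝ) ^ 3 * (ρ.ep * μ * ρ.X)) := by positivity
      nlinarith [mul_le_mul_of_nonneg_right e5 e6])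
  have e : μ = exp (-(5 / 2) * ρ.La) ^ 2 := by
    rw [← exp_nat_mul, hμ]
    congr 1
    push_cast
    ring
  rw [← mul_assoc, e, sqrt_mul' _ (sq_nonneg _), sqrt_sq (exp_pos _).le] at key
  refine le_trans (le_of_eq_of_le (by ring) key) ?_
  rw [t1]
  refine sum_le_sum fun q _ => sum_le_sum fun D _ => sum_le_sum fun c _ => ?_
  rw [sum_comm]
  refine sum_le_sum fun g _ => ?_
  rw [Pr.Wq, mul_sum]
  refine sum_le_sum fun σ _ => ?_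
  rw [Pr.cv, mul_comm (ind (ρ.Val _)), mul_assoc]
  exact mul_le_mul_of_nonneg_right (ind_mono And.left)
    (mul_nonneg (by unfold Pr.cw; positivity) (ind_nonneg _))

end Pool.Agent.P.MP_8be758_nt.Pd
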