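import Pool.Agent.P.MP_8be758_nt.Pd.IfT

/-! Step HI. -/

namespace Pool.Agent.P.MP_8be758_nt.Pd

open Finset Real Filter
open Pool.Agent.P.MP_8be758_nt.Par (det)
open Pool.Agent.P.MP_8be758_nt.Avg (rho)
open Pool.Agent.P.MP_e86632_nt (ee)

theorem HI_mem {d : ℕ} (hd : 0 < d) (x : ℤ) : x % d ∈ bx d :=
  mem_Ico.2 ⟨Int.emod_nonneg _ (by omega), Int.emod_lt_of_pos _ (by omega)⟩

theorem HI_cls (I : Finset ℤ) {d : ℕ} (hd : 0 < d) {g F : ℤ → ℝ} {M : ℝ}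
    (hg : ∀ x y, x ≡ y [ZMOD d] → g x = g y) (g0 : ∀ x, 0 ≤ g x)
    (hF : ∀ x0, ∑ x ∈ I.filter (fun x => x ≡ x0 [ZMOD d]), F x ≤ M) :
    ∑ x ∈ I, g x * F x ≤ (∑ x ∈ bx d, g x) * M := by
  rw [← sum_fiberwise_of_maps_to (s := I) (g := fun x : ℤ => x % d) fun x _ => HI_mem hd x, sum_mul]
  refine sum_le_sum fun x0 h0 => ?_
  have e : x0 % d = x0 := Int.emod_eq_of_lt (mem_Ico.1 h0).1 (mem_Ico.1 h0).2
  have e2 : I.filter (fun x => x % d = x0) = I.filter fun x => x ≡ x0 [ZMOD d] :=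
    filter_congr fun x _ => by rw [Int.ModEq, e]
  rw [e2, sum_congr rfl fun x hx => by rw [hg x x0 (mem_filter.1 hx).2], ← mul_sum]
  exact mul_le_mul_of_nonneg_left (hF x0) (g0 x0)

theorem HI_cnt {m q : ℕ} (a : ℤ) {t : ℤ} {B : ℤ → Prop} (hq : 0 < q) (hmq : m.Coprime q)
    (ht : IsCoprime (m : ℤ) t) (hB : ∀ x y, x ≡ y [ZMOD q] → (B x ↔ B y)) :
    ∑ x ∈ bx (m * q), ind ((m : ℤ) ∣ a - x * t) * ind (B x) ≤ ∑ x ∈ bx q, ind (B x) := by
  have e : ∑ x ∈ bx (m * q), ind ((m : ℤ) ∣ a - x * t) * ind (B x) =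
      ∑ x ∈ (bx (m * q)).filter (fun x => (m : ℤ) ∣ a - x * t), ind (B (x % q)) := by
    rw [sum_filter]
    refine sum_congr rfl fun x _ => ?_
    split_ifs with h
    · rw [ind_pos h, one_mul, propext (hB _ _ (Int.mod_modEq x q))]
    · rw [ind_neg h, zero_mul]
  rw [e, ← sum_image (f := fun x => ind (B x)) (g := fun x : ℤ => x % q)]
  · refine sum_le_sum_of_subset_of_nonneg (fun x hx => ?_) fun x _ _ => ind_nonneg _
    obtain ⟨z, -, rfl⟩ := mem_image.1 hx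
    exact HI_mem hq z
  · intro x hx z hz h
    obtain ⟨h1, h2⟩ := mem_filter.1 (mem_coe.1 hx)
    obtain ⟨h3, h4⟩ := mem_filter.1 (mem_coe.1 hz)
    have h5 : (m : ℤ) ∣ z - x := ht.dvd_of_dvd_mul_right (by
      have := dvd_sub h2 h4
      rwa [show a - x * t - (a - z * t) = (z - x) * t by ring] at this)
    have h6 : x ≡ z [ZMOD (m * q : ℕ)] := by
      rw [Int.modEq_iff_dvd, Nat.cast_mul]
      exact (Nat.isCoprime_iff_coprime.2 hmq).mul_dvd h5 (Int.ModEq.dvd h)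
    rw [bx, mem_Ico] at h1 h3
    rwa [Int.ModEq, Int.emod_eq_of_lt h1.1 h1.2, Int.emod_eq_of_lt h3.1 h3.2] at h6

theorem HI_cop {p : ℕ} (hp : p.Prime) {t : ℤ} (h : ¬(p : ℤ) ∣ t) : IsCoprime (p : ℤ) t :=
  (Nat.prime_iff_prime_int.1 hp).irreducible.coprime_iff_not_dvd.2 h

theorem HI_one {p : ℕ} (hp : p.Prime) (a : ℤ) {t : ℤ} (h : ¬(p : ℤ) ∣ t) :
    ∑ x ∈ bx p, ind ((p : ℤ) ∣ a - x * t) = 1 := by
  have h1 := HI_cnt (q := 1) (B := fun _ => True) a one_pos (Nat.coprime_one_right p) (HI_cop hp h)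
    fun _ _ _ => Iff.rfl
  refine le_antisymm (by simpa [bx, ind_pos trivial] using h1) ?_
  obtain ⟨u, v, e⟩ := HI_cop hp h
  have h2 : (p : ℤ) ∣ a - a * v % p * t := by
    rw [Int.emod_def]
    exact ⟨a * u + a * v / p * t, by linear_combination (-a) * e⟩
  exact (ind_pos h2).symm.trans_le (single_le_sum (f := fun x => ind ((p : ℤ) ∣ a - x * t))
    (fun _ _ => ind_nonneg _) (HI_mem hp.pos _))

/-- the local factor -/
noncomputable def HI_f (a t : ℤ) (B : ℕ → ℤ → Prop) (p : ℕ) (x : ℤ) : ℝ :=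
  ind (¬(p : ℤ) ∣ a - x * t) * (1 + 20 / (p : ℝ) * ind (B p x))

theorem HI_dvd {m d : ℕ} (h : m ∣ d) (a t : ℤ) {x z : ℤ} (e : x ≡ z [ZMOD d]) :
    (m : ℤ) ∣ a - x * t ↔ (m : ℤ) ∣ a - z * t :=
  dvd_iff_of_modEq ((Int.ModEq.refl a).sub (e.mul_right t)) (Int.natCast_dvd_natCast.2 h)

theorem HI_fac (p : ℕ) (c : ℝ) (hc : 0 ≤ c) (Q : Prop) :
    1 ≤ 1 + c / p * ind Q ∧ 1 + c / p * ind Q ≤ 1 + c / p := by
  have h1 := ind_nonneg Q
  have h2 := ind_le_one Q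
  have h3 : 0 ≤ c / p := by positivity
  constructor <;> nlinarith

theorem HI_av {p : ℕ} (hp : p.Prime) (a : ℤ) {t : ℤ} (h : ¬(p : ℤ) ∣ t) {B : ℕ → ℤ → Prop}
    (hB : ∑ x ∈ bx p, ind (B p x) ≤ 3) : (∀ x, 0 ≤ HI_f a t B p x ∧ HI_f a t B p x ≤ 1 + 20 / p) ∧
    1 - 1 / (p : ℝ) ≤ S1.av p (HI_f a t B p) ∧
      S1.av p (HI_f a t B p) ≤ 1 - 1 / (p : ℝ) + 60 / (p : ℝ) ^ 2 := by
  have h0 : (0 : ℝ) < p := by exact_mod_cast hp.pos
  have h1 (x : ℤ) : 1 - ind ((p : ℤ) ∣ a - x * t) ≤ HI_f a t B p x ∧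
      HI_f a t B p x ≤ 1 - ind ((p : ℤ) ∣ a - x * t) + 20 / p * ind (B p x) := by
    have := HI_fac p 20 (by norm_num) (B p x)
    by_cases e : (p : ℤ) ∣ a - x * t
    · rw [HI_f, ind_pos e, ind_neg (not_not.2 e)]
      constructor <;> linarith
    · rw [HI_f, ind_neg e, ind_pos e]
      constructor <;> linarith
  have h2 : ((bx p).card : ℝ) = p := by simp [bx]
  have h3 : ∑ x ∈ bx p, (1 - ind ((p : ℤ) ∣ a - x * t)) = p - 1 := by
    rw [sum_sub_distrib, HI_one hp a h, sum_const, nsmul_eq_mul, h2, mul_one]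
  refine ⟨fun x => ?_, ?_, ?_⟩
  · have := HI_fac p 20 (by norm_num) (B p x)
    have := h1 x
    have := ind_nonneg ((p : ℤ) ∣ a - x * t)
    have := ind_le_one ((p : ℤ) ∣ a - x * t)
    constructor <;> linarith
  · show _ ≤ (∑ x ∈ bx p, _) / ((bx p).card : ℝ)
    rw [h2, le_div_iff₀ h0]
    refine le_trans (le_of_eq ?_) (h3.ge.trans (sum_le_sum fun x _ => (h1 x).1))
    field_simp
  · show (∑ x ∈ bx p, _) / ((bx p).card : ℝ) ≤ _
    rw [h2, div_le_iff₀ h0]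
    refine (sum_le_sum fun x _ => (h1 x).2).trans ?_
    rw [sum_add_distrib, h3, ← mul_sum]
    have : 20 / (p : ℝ) * ∑ x ∈ bx p, ind (B p x) ≤ 20 / p * 3 := by gcongr
    refine (add_le_add_right this _).trans (le_of_eq ?_)
    field_simp
    ring

theorem HI_loc {p : ℕ} (hp : 80 ≤ p) : 1 + 24 / (p : ℝ) ≤ 13 / 10 ∧
    1 + 20 / (p : ℝ) ≤ exp (-(1 / p) + 60 / (p : ℝ) ^ 2) * (1 + 24 / p) := by
  have h0 : (80 : ℝ) ≤ p := by exact_mod_cast hp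
  have h1 : 1 / (p : ℝ) ≤ 1 / 80 := one_div_le_one_div_of_le (by norm_num) h0
  have h2 : 0 ≤ 1 / (p : ℝ) := by positivity
  have h3 := add_one_le_exp (-(1 / p) + 60 / (p : ℝ) ^ 2)
  have h4 : 0 ≤ 60 / (p : ℝ) ^ 2 := by positivity
  rw [show 24 / (p : ℝ) = 24 * (1 / p) by ring, show 20 / (p : ℝ) = 20 * (1 / p) by ring]
  constructor <;> nlinarith

theorem HI_E {Ch : ℕ} (hHU : ∀ (y : ℝ) (P : Finset ℕ) (f : ℕ → ℤ → ℝ) (d : ℕ) (x0 lo hi : ℤ),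
    2 ≤ y → 0 < d → (∀ p ∈ P, p.Prime ∧ (p : ℝ) ≤ y ∧ 4 * 20 ≤ p ∧ d.Coprime p ∧ S1.Per p (f p) ∧
    (∀ x, 0 ≤ f p x ∧ f p x ≤ 1 + ((20 : ℕ) : ℝ) / p) ∧ 1 - ((20 : ℕ) : ℝ) / p ≤ S1.av p (f p)) →
    d * y ^ Ch ≤ ((hi - lo : ℤ) : ℝ) →
    ∑ x ∈ (Ioc lo hi).filter fun x => x ≡ x0 [ZMOD d], ∏ p ∈ P, f p x ≤
    3 * ((hi - lo : ℤ) : ℝ) / d * ∏ p ∈ P, S1.av p (f p))
    {y : ℝ} {P E : Finset ℕ} {B : ℕ → ℤ → Prop} {a t lo hi : ℤ} {q : ℕ} (hy : 2 ≤ y)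
    (hP : ∀ p ∈ P, p.Prime ∧ (p : ℝ) ≤ y ∧ 80 ≤ p) (hB : Few P B) (hE : E ⊆ P)
    (hEt : ∀ p ∈ E, ¬(p : ℤ) ∣ t) (hq : q = 1 ∨ (q ∈ P ∧ q ∉ E))
    (hl : ((∏ p ∈ E, p) * q : ℕ) * y ^ Ch ≤ ((hi - lo : ℤ) : ℝ)) :
    ∑ s ∈ Ioc lo hi, ind (P.filter (fun p : ℕ => (p : ℤ) ∣ a - s * t) = E) *
      (ind (q = 1 ∨ B q s) * Ep P 20 B s) ≤ 18 * ((hi - lo : ℤ) : ℝ) *
      (∏ p ∈ P, exp (-(1 / p) + 60 / (p : ℝ) ^ 2)) * Ep P 24 (fun p x => (p : ℤ) ∣ x) t *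
      (1 / q * ∏ p ∈ E, (1 + 24 / (p : ℝ)) / p) := by
  set m := ∏ p ∈ E, p with hm
  set c : ℕ → Prop := fun p => p ∉ E ∧ ¬(p : ℤ) ∣ t ∧ p ≠ q with hc
  have m0 : 0 < m := prod_pos fun p hp => (hP p (hE hp)).1.pos
  have q0 : 0 < q := hq.elim (fun e => e ▸ one_pos) fun e => (hP q e.1).1.pos
  have cop (p) (hp : p ∈ P) (h : p ∉ E) : m.Coprime p := Nat.Coprime.prod_left fun r hr =>
    (Nat.coprime_primes (hP r (hE hr)).1 (hP p hp).1).2 fun e => h (e ▸ hr)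
  have mq : m.Coprime q := hq.elim (fun e => e ▸ m.coprime_one_right) fun e => cop q e.1 e.2
  have hB0 : (∀ x z, x ≡ z [ZMOD q] → (q = 1 ∨ B q x ↔ q = 1 ∨ B q z)) ∧
      ∑ x ∈ bx q, ind (q = 1 ∨ B q x) ≤ 3 := by
    rcases hq with rfl | h
    · simp [bx, ind]
    · simpa [(hP q h.1).1.ne_one] using hB q h.1
  have av (p) (hp : p ∈ P.filter c) := HI_av (hP p (mem_filter.1 hp).1).1 a (mem_filter.1 hp).2.2.1
    (hB p (mem_filter.1 hp).1).2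
  have av0 (p) (hp : p ∈ P.filter c) : 0 ≤ S1.av p (HI_f a t B p) :=
    S1.av_nonneg _ fun x => ((av p hp).1 x).1
  have h1 := HI_cls (Ioc lo hi) (Nat.mul_pos m0 q0)
    (g := fun x => ind ((m : ℤ) ∣ a - x * t) * ind (q = 1 ∨ B q x))
    (fun x z e => by rw [propext (HI_dvd (dvd_mul_right m q) a t e),
      propext (hB0.1 x z (e.of_dvd (by simp)))])
    (fun x => mul_nonneg (ind_nonneg _) (ind_nonneg _))
    fun x0 => hHU y (P.filter c) (HI_f a t B) (m * q) x0 lo hi hy (Nat.mul_pos m0 q0) (fun p hp => by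
      obtain ⟨h1, h2, h3, h4⟩ := mem_filter.1 hp
      obtain ⟨h5, h6, h7⟩ := hP p h1
      refine ⟨h5, h6, h7, (cop p h1 h2).mul_left ?_, fun x z e => ?_, by simpa using (av p hp).1,
        le_trans (by gcongr; norm_num) (av p hp).2.1⟩
      · exact hq.elim (fun e => e ▸ p.coprime_one_left) fun e =>
          (Nat.coprime_primes (hP q e.1).1 h5).2 h4.symm
      · rw [HI_f, HI_f, propext (HI_dvd dvd_rfl a t e), propext ((hB p h1).1 x z e)]) hl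
  have h2 := (HI_cnt a q0 mq (by
    rw [hm, Nat.cast_prod]
    exact IsCoprime.prod_left fun p hp => HI_cop (hP p (hE hp)).1 (hEt p hp)) hB0.1).trans hB0.2
  have l0 : (0 : ℝ) ≤ ((hi - lo : ℤ) : ℝ) := le_trans (by positivity) hl
  have h3 := h1.trans (mul_le_mul_of_nonneg_right h2
    (mul_nonneg (by positivity) (prod_nonneg av0)))
  have c0 : (0 : ℝ) ≤ ∏ p ∈ P.filter (fun p => ¬c p), (1 + 20 / (p : ℝ)) := by positivity
  have h4 (s : ℤ) : ind (P.filter (fun p : ℕ => (p : ℤ) ∣ a - s * t) = E) *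
      (ind (q = 1 ∨ B q s) * Ep P 20 B s) ≤ (∏ p ∈ P.filter (fun p => ¬c p), (1 + 20 / (p : ℝ))) *
      (ind ((m : ℤ) ∣ a - s * t) * ind (q = 1 ∨ B q s) * ∏ p ∈ P.filter c, HI_f a t B p s) := by
    have f0 := prod_nonneg fun p hp => ((av p hp).1 s).1
    have i0 := ind_nonneg (q = 1 ∨ B q s)
    by_cases e : P.filter (fun p : ℕ => (p : ℤ) ∣ a - s * t) = E
    swap
    · rw [ind_neg e, zero_mul]
      exact mul_nonneg c0 (mul_nonneg (mul_nonneg (ind_nonneg _) i0) f0)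
    have h5 : (m : ℤ) ∣ a - s * t := by
      rw [hm, Nat.cast_prod]
      exact prod_dvd_of_coprime (fun p hp r hr h => Nat.isCoprime_iff_coprime.2
        ((Nat.coprime_primes (hP p (hE hp)).1 (hP r (hE hr)).1).2 h))
        fun p hp => (mem_filter.1 (e.ge hp)).2
    have h6 : ∏ p ∈ P.filter c, (1 + 20 / (p : ℝ) * ind (B p s)) =
        ∏ p ∈ P.filter c, HI_f a t B p s := prod_congr rfl fun p hp => by
      rw [HI_f, ind_pos (P := ¬_) fun h => (mem_filter.1 hp).2.1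
        (e.le (mem_filter.2 ⟨(mem_filter.1 hp).1, h⟩)), one_mul]
    have h7 : ∏ p ∈ P.filter (fun p => ¬c p), (1 + 20 / (p : ℝ) * ind (B p s)) ≤
        ∏ p ∈ P.filter (fun p => ¬c p), (1 + 20 / (p : ℝ)) :=
      prod_le_prod (fun p _ => zero_le_one.trans (HI_fac p 20 (by norm_num) _).1)
        fun p _ => (HI_fac p 20 (by norm_num) _).2
    rw [ind_pos e, ind_pos h5, Ep, ← prod_filter_mul_prod_filter_not P c, h6]
    nlinarith [mul_le_mul_of_nonneg_left h7 (mul_nonneg i0 f0)]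
  have h5 : (∏ p ∈ P.filter c, S1.av p (HI_f a t B p)) *
      ∏ p ∈ P.filter (fun p => ¬c p), (1 + 20 / (p : ℝ)) ≤
      ∏ p ∈ P, exp (-(1 / p) + 60 / (p : ℝ) ^ 2) * ((if p = q then 2 else 1) *
        ((1 + 24 / (p : ℝ) * ind ((p : ℤ) ∣ t)) * if p ∈ E then 1 + 24 / (p : ℝ) else 1)) := by
    rw [← prod_ite]
    refine prod_le_prod (fun p hp => ?_) fun p hp => ?_
    · split_ifs with h
      exacts [av0 p (mem_filter.2 ⟨hp, h⟩), by positivity]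
    obtain ⟨k1, k2⟩ := HI_loc (hP p hp).2.2
    have k3 := (HI_fac p 24 (by norm_num) ((p : ℤ) ∣ t)).1
    have k4 : (0 : ℝ) ≤ 24 / p := by positivity
    by_cases h : c p
    · rw [if_pos h, if_neg h.2.2, if_neg h.1, ind_neg h.2.1]
      linarith [(av p (mem_filter.2 ⟨hp, h⟩)).2.2, add_one_le_exp (-(1 / p) + 60 / (p : ℝ) ^ 2)]
    rw [if_neg h]
    refine k2.trans (mul_le_mul_of_nonneg_left ?_ (exp_pos _).le)
    split_ifs with e1 e2 e2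
    · nlinarith
    · nlinarith
    · nlinarith
    · rw [ind_pos (by by_contra e; exact h ⟨e2, e, e1⟩)]
      linarith
  rw [prod_mul_distrib, prod_mul_distrib, prod_mul_distrib, prod_ite_mem, inter_eq_right.2 hE,
    prod_ite_eq'] at h5
  have h6 : (if q ∈ P then (2 : ℝ) else 1) ≤ 2 := by split_ifs <;> norm_num
  have h7 : 0 ≤ ∏ p ∈ P, (1 + 24 / (p : ℝ) * ind ((p : ℤ) ∣ t)) :=
    prod_nonneg fun p _ => zero_le_one.trans (HI_fac p 24 (by norm_num) _).1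
  replace h5 := h5.trans (mul_le_mul_of_nonneg_left
    (mul_le_mul_of_nonneg_right h6 (by positivity)) (by positivity))
  refine (sum_le_sum fun s _ => h4 s).trans ?_
  rw [← mul_sum, prod_div_distrib, ← Nat.cast_prod, ← hm, Ep]
  refine (mul_le_mul_of_nonneg_left h3 c0).trans ?_
  have := mul_le_mul_of_nonneg_left h5 (show 0 ≤ 9 * ((hi - lo : ℤ) : ℝ) / (m * q) by positivity)
  rw [Nat.cast_mul]
  refine le_of_eq_of_le (by ring) (this.trans_eq (by ring))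

theorem HI_pow (S D : Finset ℕ) {x : ℕ → ℝ} (hx : ∀ p, 0 ≤ x p) {T : Finset (Finset ℕ)}
    (hT : ∀ E ∈ T, E ⊆ S ∧ D ⊆ E) :
    ∑ E ∈ T, ∏ p ∈ E, x p ≤ (∏ p ∈ D, x p) * ∏ p ∈ S, (1 + x p) := by
  rw [sum_congr rfl fun E hE => (prod_sdiff (hT E hE).2).symm, ← sum_mul, mul_comm, prod_one_add,
    ← sum_image (f := fun E => ∏ p ∈ E, x p) (g := fun E => E \ D)]
  · refine mul_le_mul_of_nonneg_left (sum_le_sum_of_subset_of_nonneg (fun E hE => ?_)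
      fun E _ _ => prod_nonneg fun p _ => hx p) (prod_nonneg fun p _ => hx p)
    obtain ⟨F, hF, rfl⟩ := mem_image.1 hE
    exact mem_powerset.2 (sdiff_subset.trans (hT F hF).1)
  · intro E hE F hF h
    rw [← sdiff_union_of_subset (hT E hE).2, ← sdiff_union_of_subset (hT F hF).2]
    exact congrArg (· ∪ D) h

theorem p_HI (hHU : S_HU) (hLAM : S_LAM) :
    S_HI := by
  obtain ⟨Ch, hHU⟩ := hHU 20
  obtain ⟨c, hL⟩ := hLAM
  refine ⟨c + Ch + 80, fun A C1 => ?_⟩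
  obtain ⟨C, hC, hL⟩ := hL A C1
  refine ⟨162 * exp (C + 2), by nlinarith [add_one_le_exp (C + 2)], fun z h1 h2 hz => ?_⟩
  filter_upwards [hL z h1 h2 (hz.mono (by omega)), eventually_ge_atTop 2] with y hL hy
  set ρ : Pr := ⟨z, y⟩
  intro a t Θ δ p0 B ht ha Θ0 Θ1 hB hδ hD hp
  have L1 : |∑ p ∈ ρ.Ps, (1 : ℝ) / p - ρ.La| ≤ C := hL.1
  have L2 : ∑ p ∈ ρ.Ps.filter (fun p => rho ρ.A p = 2), (1 : ℝ) / p = ρ.La / 2 := hL.2.2.2.2.1
  have L3 : ∑ p ∈ ρ.Ps, (1 : ℝ) / p ^ 2 ≤ 1 / ρ.w := hL.2.2.2.2.2.1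
  obtain ⟨-, -, -, -, b1, b2, b3, b4, -⟩ := hz
  have w0 : (80 : ℝ) ≤ ρ.w := by exact_mod_cast (by omega : 80 ≤ z.w)
  have hP (p) (h : p ∈ ρ.Ps) : p.Prime ∧ (p : ℝ) ≤ y ∧ 80 ≤ p := by
    obtain ⟨h1, h2, h3⟩ := (mem_PP (by linarith)).1 h
    exact ⟨h1, h3, by exact_mod_cast w0.trans h2.le⟩
  have t0 : (0 : ℝ) < |(t : ℝ)| := abs_pos.2 (by exact_mod_cast ht)
  have y1 : (1 : ℝ) ≤ y := by linarith
  have a1 : y ^ (2 * z.K) * y * y ^ Ch ≤ a / |(t : ℝ)| := by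
    rw [le_div_iff₀' t0]
    refine le_trans (mul_le_mul_of_nonneg_left (le_sqrt_of_sq_le ?_) t0.le) ha
    rw [← pow_succ, ← pow_add, ← pow_mul]
    exact pow_le_pow_right₀ y1 (by show _ ≤ z.k3; nlinarith)
  have a2 : 1 ≤ a / |(t : ℝ)| := le_trans (one_le_mul_of_one_le_of_one_le
    (one_le_mul_of_one_le_of_one_le (one_le_pow₀ y1) y1) (one_le_pow₀ y1)) a1
  set R := a / |(t : ℝ)| with hR
  have n1 : R ≤ ((⌊R⌋ - (-⌊R⌋ - 1) : ℤ) : ℝ) ∧ ((⌊R⌋ - (-⌊R⌋ - 1) : ℤ) : ℝ) ≤ 3 * R := by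
    have := Int.floor_le R
    have := Int.lt_floor_add_one R
    have : (0 : ℝ) ≤ ⌊R⌋ := by exact_mod_cast Int.floor_nonneg.2 (by linarith)
    push_cast
    constructor <;> linarith
  set S := ρ.Ps.filter fun p => rho ρ.A p = 2
  set T := S.powerset.filter fun E => δ.primeFactors ⊆ E ∧ (∀ p ∈ E, ¬(p : ℤ) ∣ t) ∧
    ((∏ p ∈ E, p : ℕ) : ℝ) ≤ y ^ (2 * z.K)
  set q : Finset ℕ → ℕ := fun E => if p0 ∈ E then 1 else p0 with hq
  set x : ℕ → ℝ := fun p => Θ * ((1 + 24 / (p : ℝ)) / p) with hx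
  have x0 (p) : 0 ≤ x p := by positivity
  have x1 (p) (h : p ∈ ρ.Ps) : x p ≤ 2 / p := by
    rw [hx]
    simp only [← mul_div_assoc]
    gcongr
    nlinarith [(HI_loc (hP p h).2.2).1]
  have E0 (c : ℝ) (hc : 0 ≤ c) (B s) : 0 ≤ Ep ρ.Ps c B s :=
    prod_nonneg fun p _ => zero_le_one.trans (HI_fac p c hc _).1
  set H : Finset ℕ → ℤ → ℝ := fun E s => Θ ^ E.card * (ind (ρ.pf (a - s * t) = E) *
    (ind (q E = 1 ∨ B (q E) s) * Ep ρ.Ps 20 B s)) with hH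
  have H0 (E s) : 0 ≤ H E s := mul_nonneg (by positivity) (mul_nonneg (ind_nonneg _)
    (mul_nonneg (ind_nonneg _) (E0 _ (by norm_num) _ _)))
  have s1 : ∑ s ∈ (Icc (-a) a).filter fun s => |s * t| ≤ a ∧ Int.gcd t (a - s * t) = 1,
      ρ.hw Θ (a - s * t) * ind ((δ : ℤ) ∣ a - s * t) * ind (p0 = 1 ∨ B p0 s) * Ep ρ.Ps 20 B s ≤
      ∑ s ∈ Ioc (-⌊R⌋ - 1) ⌊R⌋, ∑ E ∈ T, H E s := by
    refine (sum_le_sum fun s hs => ?_).trans (sum_le_sum_of_subset_of_nonneg (fun s hs => ?_)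
      fun s _ _ => sum_nonneg fun E _ => H0 E s)
    · rw [Pr.hw, mul_assoc (Θ ^ _), ← ind_and, mul_assoc (Θ ^ _), ← ind_and]
      by_cases h : ((Squarefree (a - s * t).natAbs ∧ (ρ.fl (a - s * t) : ℝ) ≤ ρ.y ^ (2 * ρ.K) ∧
        (ρ.om (a - s * t) : ℝ) ≤ ρ.K * ρ.La ∧ ∀ p ∈ ρ.pf (a - s * t), rho ρ.A p = 2) ∧
        (δ : ℤ) ∣ a - s * t) ∧ (p0 = 1 ∨ B p0 s)
      swap
      · rw [ind_neg h, mul_zero, zero_mul]
        exact sum_nonneg fun E _ => H0 E s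
      rw [ind_pos h]
      obtain ⟨⟨⟨-, h1, -, h2⟩, h3⟩, h4⟩ := h
      refine le_trans (le_of_eq ?_) (single_le_sum (fun E _ => H0 E s)
        (mem_filter.2 ⟨mem_powerset.2 fun p hp => mem_filter.2 ⟨(mem_pf.1 hp).1, h2 p hp⟩,
          fun p hp => mem_pf.2 ⟨hD hp, (Int.natCast_dvd_natCast.2
            (Nat.dvd_of_mem_primeFactors hp)).trans h3⟩, fun p hp h5 => ?_, h1⟩))
      · have : q (ρ.pf (a - s * t)) = 1 ∨ B (q (ρ.pf (a - s * t))) s := by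
          simp only [hq]
          split_ifs
          exacts [Or.inl rfl, h4]
        simp only [hH, ind_pos this, ind_pos trivial, one_mul, mul_one, Pr.om]
      · have := Int.dvd_coe_gcd h5 (mem_pf.1 hp).2
        rw [(mem_filter.1 hs).2.2, Int.natCast_dvd_natCast, Nat.dvd_one] at this
        exact (hP p (mem_pf.1 hp).1).1.ne_one this
    · have h : ((|s| : ℤ) : ℝ) ≤ R := by
        rw [hR, le_div_iff₀ t0, Int.cast_abs, ← abs_mul]
        exact_mod_cast (mem_filter.1 hs).2.1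
      have := abs_le.1 (Int.le_floor.2 h)
      exact mem_Ioc.2 ⟨by omega, this.2⟩
  set U := ∏ p ∈ ρ.Ps, exp (-(1 / p) + 60 / (p : ℝ) ^ 2) with hU
  set G := Ep ρ.Ps 24 (fun p x => (p : ℤ) ∣ x) t
  have G0 : 0 ≤ G := E0 _ (by norm_num) _ _
  have U0 : 0 ≤ U := by positivity
  have s2 : ∀ E ∈ T, ∑ s ∈ Ioc (-⌊R⌋ - 1) ⌊R⌋, H E s ≤
      54 * R * U * G * (1 / q E * ∏ p ∈ E, x p) := by
    intro E hE
    obtain ⟨h1, -, h2, h3⟩ := mem_filter.1 hE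
    have h4 : q E = 1 ∨ (q E ∈ ρ.Ps ∧ q E ∉ E) := by
      simp only [hq]
      split_ifs with e
      exacts [Or.inl rfl, hp.imp id fun h => ⟨h.1, e⟩]
    have h5 : (q E : ℝ) ≤ y := h4.elim (fun e => by rw [e]; simpa using y1) fun e => (hP _ e.1).2.1
    have := HI_E (a := a) hHU hy hP hB ((mem_powerset.1 h1).trans (filter_subset _ _)) h2 h4
      (le_trans (by rw [Nat.cast_mul]; gcongr) (a1.trans n1.1))
    simp only [hH, hx]
    rw [← mul_sum, prod_mul_distrib, prod_const]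
    refine (mul_le_mul_of_nonneg_left this (by positivity)).trans ?_
    rw [← hU]
    calc _ ≤ Θ ^ E.card * (18 * (3 * R) * U * G * (1 / q E * ∏ p ∈ E, (1 + 24 / (p : ℝ)) / p)) := by
          gcongr
          exact n1.2
      _ = _ := by ring
  have hT (E) (h : E ∈ T) : E ⊆ S ∧ δ.primeFactors ⊆ E :=
    ⟨mem_powerset.1 (mem_filter.1 h).1, (mem_filter.1 h).2.1⟩
  set Z := ∏ p ∈ S, (1 + x p) with hZ
  have Z0 : 0 ≤ Z := prod_nonneg fun p _ => by linarith [x0 p]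
  have s3 : ∑ E ∈ T, ∏ p ∈ E, x p ≤ 2 ^ δ.primeFactors.card / δ * Z := by
    refine (HI_pow S _ x0 hT).trans (mul_le_mul_of_nonneg_right ?_ Z0)
    refine (prod_le_prod (fun p _ => x0 p) fun p h => x1 p (hD h)).trans_eq ?_
    rw [prod_div_distrib, prod_const, ← Nat.cast_prod, Nat.prod_primeFactors_of_squarefree hδ]
  have s4 : ∑ E ∈ T, 1 / (q E : ℝ) * ∏ p ∈ E, x p ≤
      3 * (2 ^ δ.primeFactors.card / (δ * p0)) * Z := by
    rcases hp with rfl | ⟨h1, rfl⟩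
    · have : 0 ≤ 2 ^ δ.primeFactors.card / (δ : ℝ) * Z := by positivity
      simp only [hq, ite_self, Nat.cast_one, div_one, one_mul, mul_one]
      linarith
    have h2 := HI_pow S {p0} x0 (T := T.filter (p0 ∈ ·)) fun E h =>
      ⟨(hT E (mem_filter.1 h).1).1, singleton_subset_iff.2 (mem_filter.1 h).2⟩
    have h3 := mul_le_mul_of_nonneg_right (x1 p0 h1) Z0
    have h4 := mul_le_mul_of_nonneg_left s3 (show (0 : ℝ) ≤ 1 / p0 by positivity)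
    rw [prod_singleton, sum_filter] at h2
    rw [mul_sum] at h4
    have h5 : ∑ E ∈ T, 1 / (q E : ℝ) * ∏ p ∈ E, x p ≤
        ∑ E ∈ T, ((if p0 ∈ E then ∏ p ∈ E, x p else 0) + 1 / (p0 : ℝ) * ∏ p ∈ E, x p) :=
      sum_le_sum fun E _ => by
        have := prod_nonneg fun p (_ : p ∈ E) => x0 p
        simp only [hq]
        split_ifs
        · rw [Nat.cast_one, div_one, one_mul]
          exact le_add_of_nonneg_right (by positivity)
        · exact (zero_add _).ge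
    rw [sum_add_distrib] at h5
    simp only [Nat.primeFactors_one, card_empty, pow_zero, Nat.cast_one, div_one, one_mul] at h4 ⊢
    refine (h5.trans (add_le_add (h2.trans h3) h4)).trans_eq (by ring)
  have w1 : 1 / (ρ.w : ℝ) ≤ 1 / 80 := one_div_le_one_div_of_le (by norm_num) w0
  have s5 : U ≤ exp (-ρ.La + C + 1) := by
    rw [hU, ← exp_sum, sum_add_distrib, sum_neg_distrib,
      sum_congr rfl fun (p : ℕ) _ => div_eq_mul_one_div (60 : ℝ) ((p : ℝ) ^ 2), ← mul_sum]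
    exact exp_le_exp.2 (by linarith [(abs_le.1 L1).1])
  have s6 : Z ≤ exp (Θ / 2 * ρ.La + 1) := by
    refine (prod_le_prod (fun p _ => by linarith [x0 p]) fun p _ =>
      (add_comm _ _).trans_le (add_one_le_exp (x p))).trans ?_
    have e (p : ℕ) : x p = Θ * (1 / p) + 24 * Θ * (1 / (p : ℝ) ^ 2) := by simp only [hx]; ring
    have h : ∑ p ∈ S, 1 / (p : ℝ) ^ 2 ≤ 1 / 80 := (sum_le_sum_of_subset_of_nonneg
      (filter_subset _ _) fun _ _ _ => by positivity).trans (L3.trans w1)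
    rw [← exp_sum, sum_congr rfl fun p _ => e p, sum_add_distrib, ← mul_sum, ← mul_sum, L2]
    exact exp_le_exp.2 (by nlinarith)
  rw [sum_comm] at s1
  refine (s1.trans (sum_le_sum s2)).trans ?_
  rw [← mul_sum]
  have s7 : 0 ≤ ∑ E ∈ T, 1 / (q E : ℝ) * ∏ p ∈ E, x p := sum_nonneg fun E _ =>
    mul_nonneg (by positivity) (prod_nonneg fun p _ => x0 p)
  clear_value U G Z R
  calc _ ≤ 54 * R * exp (-ρ.La + C + 1) * G *
        (3 * (2 ^ δ.primeFactors.card / (δ * p0)) * exp (Θ / 2 * ρ.La + 1)) :=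
        mul_le_mul (by gcongr) (s4.trans (by gcongr)) s7 (by positivity)
    _ = 162 * R * G * (2 ^ δ.primeFactors.card / (δ * p0)) *
        (exp (-ρ.La + C + 1) * exp (Θ / 2 * ρ.La + 1)) := by ring
    _ = _ := by
        rw [← exp_add, show -ρ.La + C + 1 + (Θ / 2 * ρ.La + 1) = C + 2 + (Θ / 2 - 1) * ρ.La by ring,
          exp_add]
        ring

end Pool.Agent.P.MP_8be758_nt.Pd
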