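import Pool.Agent.P.MP_8be758_nt.Pd.IfM

/-! Step MOMB. -/

namespace Pool.Agent.P.MP_8be758_nt.Pd

open Finset Real Filter
open Pool.Agent.P.MP_8be758_nt.Par (nq mul cj det io et)
open Pool.Agent.P.MP_8be758_nt.Avg (rho)
open Pool.Agent.P.MP_8be758_nt.Pd.Mr

theorem MOMB_div (s : Multiset ℕ) (h : ∀ p ∈ s, p.Prime) : s.prod.divisors.card ≤ 2 ^ s.card := by
  induction s using Multiset.induction_on with
  | empty => simp
  | cons p s ih =>
    have hp := h p (Multiset.mem_cons_self _ _)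
    have h1 := ih fun q hq => h q (Multiset.mem_cons_of_mem hq)
    rw [Multiset.prod_cons, Multiset.card_cons, Nat.divisors_mul, pow_succ']
    refine card_mul_le.trans (Nat.mul_le_mul ?_ h1)
    rw [hp.divisors]
    exact card_le_two

theorem MOMB_om (s : Multiset ℕ) (h : ∀ p ∈ s, p.Prime) {d : ℕ} (hd : d ∣ s.prod) :
    d.primeFactors.card ≤ s.card := by
  refine le_trans (card_le_card fun q hq => ?_) (Multiset.toFinset_card_le s)
  have hq' := Nat.prime_of_mem_primeFactors hq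
  obtain ⟨a, ha, e⟩ := hq'.prime.exists_mem_multiset_dvd
    ((Nat.dvd_of_mem_primeFactors hq).trans hd)
  rw [(Nat.prime_dvd_prime_iff_eq hq' (h a ha)).1 e]
  exact Multiset.mem_toFinset.2 ha

theorem MOMB_col {x y z : V2} (hx : x ≠ 0) (h1 : det x y = 0) (h2 : det x z = 0) :
    det y z = 0 := by
  by_contra h
  unfold det at h h1 h2
  refine hx (Prod.ext ((mul_eq_zero.1 ?_).resolve_right h) ((mul_eq_zero.1 ?_).resolve_right h))
  · linear_combination y.1 * h2 - z.1 * h1
  · linear_combination y.2 * h2 - z.2 * h1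

theorem MOMB_ne {A β : ℕ} {γ : ℕ → V2} (hβ : 1 ≤ β) (s : Multiset ℕ) (hA : 2 ≤ A)
    (h : ∀ p ∈ s, Gp A β γ p) : pv A (s.map γ) ≠ 0 := by
  induction s using Multiset.induction_on with
  | empty => simp [pv_zero]
  | cons p s ih =>
    rw [Multiset.map_cons, pv_cons]
    exact Par.mul_ne hA ((h p (Multiset.mem_cons_self _ _)).ne hβ)
      (ih fun q hq => h q (Multiset.mem_cons_of_mem hq))

theorem MOMB_fib {A : ℕ} (hA : 2 ≤ A) {W : Finset V2} {Y : ℝ} (hW : Sm A W Y) {x b : V2}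
    (hx : x ≠ 0) (hb : b ≠ 0) :
    (W.filter fun u' => det x (mul A b u') = 0).card ≤ 8 * A + 1 := by
  rcases (W.filter fun u' => det x (mul A b u') = 0).eq_empty_or_nonempty with e | ⟨w, hw⟩
  · rw [e]; simp
  obtain ⟨hw1, hw2⟩ := mem_filter.1 hw
  obtain ⟨w0, hw0, e⟩ := exists_pr (hW w hw1).1
  have hc : (Int.gcd w.1 w.2 : ℤ) ≠ 0 := fun e' => (hW w hw1).1 (by rw [e, e', zero_smul])
  have : (W.filter fun u' => det x (mul A b u') = 0) ⊆
      (Icc (-(4 * A : ℤ)) (4 * A)).image fun c => c • w0 := fun u hu => by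
    obtain ⟨hu1, hu2⟩ := mem_filter.1 hu
    have h1 := MOMB_col hx hu2 hw2
    rw [det_mul, e, ← one_smul ℤ u, det_sm, one_mul] at h1
    have h2 : det u w0 = 0 :=
      (mul_eq_zero.1 ((mul_eq_zero.1 h1).resolve_left (Par.nq_pos hA hb).ne')).resolve_left hc
    obtain ⟨c, rfl⟩ := eq_smul_of_det hw0 h2
    refine mem_image.2 ⟨c, mem_Icc.2 (abs_le.1 ?_), rfl⟩
    have h3 := (hW _ hu1).2.1
    simp only [Prod.smul_fst, Prod.smul_snd, smul_eq_mul, Int.gcd_mul_left, pr_iff.1 hw0,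
      mul_one] at h3
    rw [Int.abs_eq_natAbs]
    exact_mod_cast h3
  refine (card_le_card this).trans (card_image_le.trans ?_)
  rw [Int.card_Icc]
  omega

theorem p_MOMB (hMOMA : S_MOMA) (hLATD : S_LATD) :
    S_MOMB := by
  intro A hA
  obtain ⟨C, hC, H⟩ := hLATD A (by omega)
  have hA' : (2 : ℝ) ≤ A := by exact_mod_cast hA
  have hK : (1 : ℝ) ≤ 64 * A := by linarith
  have hL : (1 : ℝ) ≤ (8 * A + 1) * (4 * A) * (C + 1) :=
    one_le_mul_of_one_le_of_one_le (by nlinarith) (by linarith)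
  refine ⟨64 * A * ((8 * A + 1) * (4 * A) * (C + 1)), one_le_mul_of_one_le_of_one_le hK hL, ?_⟩
  intro β γ I P Y W l s t hB hW hY hI hs ht
  obtain ⟨hβ, hβ', hP, hB⟩ := hB
  set s' := s - t with hs'
  set t' := t - s with ht'
  set m := s'.card with hm
  have e1 : s = s ∩ t + s' := by rw [add_comm, hs', Multiset.sub_add_inter]
  have e2 : t = s ∩ t + t' := by rw [add_comm, ht', Multiset.inter_comm, Multiset.sub_add_inter]
  have c1 := congrArg Multiset.card e1
  have c2 := congrArg Multiset.card e2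
  rw [Multiset.card_add] at c1 c2
  have hml : m ≤ l := by omega
  have hc : (s' + t').card = 2 * m := by rw [Multiset.card_add]; omega
  have hle : s' + t' ≤ s + t := add_le_add (Multiset.sub_le_self _ _) (Multiset.sub_le_self _ _)
  have hG : ∀ p ∈ s + t, Gp A β γ p := fun p hp => (hB p (hI p hp)).1
  have hG' : ∀ p ∈ s' + t', Gp A β γ p := fun p hp => hG p (Multiset.mem_of_le hle hp)
  have hpr : ∀ p ∈ s' + t', p.Prime := fun p hp => (hG' p hp).1
  have hdis : ∀ p ∈ s', p ∉ t' := fun p h1 h2 => by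
    rw [← Multiset.one_le_count_iff_mem, Multiset.count_sub] at h1 h2
    omega
  set r := (s' + t').prod with hr
  have hr0 : r ≠ 0 := Multiset.prod_ne_zero fun h => Nat.not_prime_zero (hpr 0 h)
  have hrP : P ^ (2 * m) ≤ (r : ℝ) := by
    rw [hr, ← hc, Nat.cast_multiset_prod, ← Multiset.card_map (fun p : ℕ => (p : ℝ))]
    have : ∀ (u : Multiset ℝ), (∀ x ∈ u, P ≤ x) → P ^ u.card ≤ u.prod := fun u hu => by
      induction u using Multiset.induction_on with
      | empty => simp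
      | cons x u ih =>
        have h1 := hu x (Multiset.mem_cons_self _ _)
        rw [Multiset.prod_cons, Multiset.card_cons, pow_succ']
        exact mul_le_mul h1 (ih fun y hy => hu y (Multiset.mem_cons_of_mem hy)) (by positivity)
          (by linarith)
    refine this _ fun x hx => ?_
    obtain ⟨p, hp, rfl⟩ := Multiset.mem_map.1 hx
    exact (hB p (hI p (Multiset.mem_of_le hle hp))).2.1
  have hcop : r.Coprime (2 * (4 * A - 1)) := Nat.coprime_multiset_prod_left_iff.2 fun p hp => by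
    obtain ⟨h1, h2, -⟩ := hG' p hp
    exact Nat.Coprime.mul_right (Nat.coprime_of_lt_prime (by omega) (by omega) h1)
      (Nat.coprime_of_lt_prime (by omega) (by omega) h1)
  have ha := MOMB_ne hβ s hA fun p hp => hG p (Multiset.mem_add.2 (Or.inl hp))
  have hb := MOMB_ne hβ t hA fun p hp => hG p (Multiset.mem_add.2 (Or.inr hp))
  have hg := MOMB_ne hβ (s ∩ t) hA fun p hp =>
    hG p (Multiset.mem_add.2 (Or.inl (Multiset.mem_inter.1 hp).1))
  set B : ℝ := (4 * A) ^ m * Y / P ^ m with hBd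
  have hPm : 0 < P ^ m := by positivity
  have hB0 : 0 ≤ B := by positivity
  set U0 : Finset V2 := r.divisors.biUnion fun d =>
    (VV (Q0 A) 0 (d * B)).filter fun v => (d : ℤ) ∣ ev (Q0 A) v with hU0
  have hU : (U0.card : ℝ) ≤ 4 ^ m * (C * 4 ^ m * B) := by
    have h1 : (r.divisors.card : ℝ) ≤ 4 ^ m := by
      have := MOMB_div _ hpr
      rw [hc, pow_mul] at this
      exact_mod_cast this
    refine le_trans (Nat.cast_le.2 card_biUnion_le) ?_
    rw [Nat.cast_sum]
    refine (sum_le_card_nsmul _ _ (C * 4 ^ m * B) fun d hd => ?_).trans ?_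
    · have hd1 := Nat.dvd_of_mem_divisors hd
      have hd0 := Nat.pos_of_mem_divisors hd
      have hd2 : (0 : ℝ) < d := by exact_mod_cast hd0
      refine (H _ (Q0_mem (by omega)) d _ hd0 (hcop.coprime_dvd_left hd1) (by positivity)).trans ?_
      have h2 : (2 : ℝ) ^ d.primeFactors.card ≤ 4 ^ m := by
        have := pow_le_pow_right₀ (one_le_two (α := ℝ)) (hc ▸ MOMB_om _ hpr hd1)
        rwa [pow_mul, show (2 : ℝ) ^ 2 = 4 by norm_num] at this
      rw [mul_div_assoc, mul_div_cancel_left₀ _ hd2.ne']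
      gcongr
    · rw [nsmul_eq_mul]
      gcongr
  have key : ∀ g ∈ (W ×ˢ W).filter fun g =>
      det (mul A (pv A (s.map γ)) g.1) (mul A (pv A (t.map γ)) g.2) = 0,
      g.1 ∈ (Icc 1 (4 * A) ×ˢ U0).image fun x : ℕ × V2 => (x.1 : ℤ) • x.2 := by
    rintro ⟨u, u'⟩ hg'
    obtain ⟨h1, h2⟩ := mem_filter.1 hg'
    obtain ⟨⟨n1, g1, y1⟩, n2, -, y2⟩ :=
      And.intro (hW u (mem_product.1 h1).1) (hW u' (mem_product.1 h1).2)
    obtain ⟨u0, p1, f1⟩ := exists_pr n1
    obtain ⟨w0, p2, f2⟩ := exists_pr n2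
    generalize Int.gcd u.1 u.2 = c at f1 g1
    generalize Int.gcd u'.1 u'.2 = c' at f2
    subst f1 f2
    have hc1 : c ≠ 0 := by rintro rfl; simp at n1
    have hc2 : c' ≠ 0 := by rintro rfl; simp at n2
    have sm : ∀ (k : ℕ) (v : V2), k ≠ 0 → (nq A ((k : ℤ) • v) : ℝ) ≤ Y → (nq A v : ℝ) ≤ Y :=
      fun k v hk h => by
        rw [Par.nq_smul] at h
        have h3 : (0 : ℝ) ≤ nq A v := by exact_mod_cast nq_nonneg hA v
        have h4 : (1 : ℝ) ≤ (k : ℝ) ^ 2 := one_le_pow₀ (by exact_mod_cast Nat.pos_of_ne_zero hk)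
        push_cast at h
        nlinarith
    have y3 := sm c u0 hc1 y1
    have y4 := sm c' w0 hc2 y2
    dsimp only at h2
    rw [congrArg (Multiset.map γ) e1, congrArg (Multiset.map γ) e2, Multiset.map_add,
      Multiset.map_add, pv_add, pv_add, mul_as, mul_as, det_mul, mul_sm, mul_sm, det_sm] at h2
    have h3 := (mul_eq_zero.1 ((mul_eq_zero.1 h2).resolve_left
      (Par.nq_pos hA hg).ne')).resolve_left (by exact_mod_cast mul_ne_zero hc1 hc2)
    obtain ⟨d, d1, d2, d3⟩ := hMOMA A β γ s' t' u0 w0 hA hβ hβ' hG' hdis p1 p2 h3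
    have q1 := one_le_nq hA (pr_ne p1)
    refine mem_image.2 ⟨(c, u0), mem_product.2 ⟨mem_Icc.2 ⟨Nat.pos_of_ne_zero hc1, g1⟩,
      mem_biUnion.2 ⟨d, Nat.mem_divisors.2 ⟨d1, hr0⟩, mem_filter.2 ⟨(mem_VV0 hA).2
        ⟨p1, by linarith, ?_⟩, by rwa [ev_Q0]⟩⟩⟩, rfl⟩
    have d4 : (r : ℝ) * nq A u0 ≤ (d : ℝ) ^ 2 * (4 * A) ^ (2 * m) * nq A w0 := by
      rw [← hr, hc] at d3
      exact_mod_cast d3
    rw [hBd, ← mul_div_assoc, le_div_iff₀ hPm]
    refine (pow_le_pow_iff_left₀ (by positivity) (by positivity) two_ne_zero).1 ?_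
    calc ((nq A u0 : ℝ) * P ^ m) ^ 2 = P ^ (2 * m) * nq A u0 * nq A u0 := by ring
      _ ≤ r * nq A u0 * Y := by gcongr
      _ ≤ (d : ℝ) ^ 2 * (4 * A) ^ (2 * m) * Y * Y :=
        mul_le_mul_of_nonneg_right (d4.trans (by gcongr)) (by linarith)
      _ = _ := by ring
  have h1 := card_le_mul_card_image_of_maps_to key (8 * A + 1) fun u hu => by
    by_cases n : u = 0
    · refine le_trans (card_eq_zero.2 (filter_eq_empty_iff.2 fun g hg' e => ?_)).le (Nat.zero_le _)
      exact (hW _ (mem_product.1 (mem_filter.1 hg').1).1).1 (e.trans n)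
    refine le_trans (card_le_card_of_injOn Prod.snd (fun g hg' => ?_) fun g h1 g' h2 e => ?_)
      (MOMB_fib hA hW (Par.mul_ne hA ha n) hb)
    · obtain ⟨h1, rfl⟩ := mem_filter.1 (mem_coe.1 hg')
      exact mem_coe.2 (mem_filter.2 ⟨(mem_product.1 (mem_filter.1 h1).1).2, (mem_filter.1 h1).2⟩)
    · exact Prod.ext ((mem_filter.1 (mem_coe.1 h1)).2.trans (mem_filter.1 (mem_coe.1 h2)).2.symm) e
  have h2 := h1.trans (Nat.mul_le_mul_left _ card_image_le)
  rw [card_product, Nat.card_Icc, Nat.add_sub_cancel] at h2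
  refine le_trans (Nat.cast_le.2 h2) ?_
  push_cast
  calc ((8 * A + 1) * (4 * A * U0.card) : ℝ) ≤ (8 * A + 1) * (4 * A * (4 ^ m * ((C + 1) * 4 ^ m * B))) := by
        gcongr
        exact hU.trans (by gcongr; linarith)
    _ = (64 * A) ^ m * ((8 * A + 1) * (4 * A) * (C + 1)) * Y / P ^ m := by
        rw [hBd, show (64 * A : ℝ) = 4 * (4 * (4 * A)) by ring, mul_pow 4 (4 * _), mul_pow 4 (4 * _)]
        ring
    _ ≤ _ := by
        rw [pow_succ]
        refine div_le_div_of_nonneg_right (mul_le_mul_of_nonneg_right (mul_le_mul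
          ((pow_le_pow_right₀ hK hml).trans
            (pow_le_pow_left₀ (by linarith) (le_mul_of_one_le_right (by linarith) hL) l))
          (le_mul_of_one_le_left (by linarith) hK) (by linarith) (by positivity)) (by linarith)) hPm.le

end Pool.Agent.P.MP_8be758_nt.Pd
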