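import Pool.Agent.P.MP_8be758_nt.Pd.IfM

/-! Step MVP. -/

namespace Pool.Agent.P.MP_8be758_nt.Pd

open Finset Real Filter
open Pool.Agent.P.MP_8be758_nt.Par (nq mul cj det io et)
open Pool.Agent.P.MP_8be758_nt.Avg (rho)
open Pool.Agent.P.MP_8be758_nt.Pd.Mr

theorem MVP_row {I : Finset V2} (hI : ∀ v ∈ I, Mr.Pr v) {v : V2} (hv : v ∈ I) {c : ℝ} (hc : 0 ≤ c)
    (P : V2 → Prop) [DecidablePred P] (hP : ∀ w, P w → det w v = 0) :
    ∑ w ∈ I, (if P w then c else 0) ≤ 2 * c := by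
  rw [← sum_filter, sum_const, nsmul_eq_mul]
  refine mul_le_mul_of_nonneg_right ?_ hc
  have h : I.filter P ⊆ {v, -v} := fun w hw => by
    obtain ⟨h1, h2⟩ := mem_filter.1 hw
    simpa using pr_col (hI w h1) (hI v hv) (hP w h2)
  exact_mod_cast (card_le_card h).trans card_le_two

theorem p_MVP (hMVT : S_MVT) :
    S_MVP := by
  obtain ⟨C, hC, H⟩ := hMVT
  refine ⟨2 * C, by linarith, fun A a K T Y hA hT hY hK => ?_⟩
  have hI : ∀ v ∈ VV (Q0 A) 0 Y, Mr.Pr v := fun v hv => ((mem_VV0 hA).1 hv).1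
  refine (H A V2 (VV (Q0 A) 0 Y) id (fun v => (a v : ℂ)) K T Y hA hT hY hK fun v hv =>
    ⟨pr_ne (hI v hv), ((mem_VV0 hA).1 hv).2.2⟩).trans ?_
  have h : col (VV (Q0 A) 0 Y) id (fun v => (a v : ℂ)) ≤ 2 * ∑ v ∈ VV (Q0 A) 0 Y, a v ^ 2 := by
    calc _ ≤ ∑ v ∈ VV (Q0 A) 0 Y, ∑ w ∈ VV (Q0 A) 0 Y,
          ((if det v w = 0 then a v ^ 2 / 2 else 0) + if det v w = 0 then a w ^ 2 / 2 else 0) := by
          refine sum_le_sum fun v _ => sum_le_sum fun w _ => ?_
          simp only [id, Complex.norm_real, Real.norm_eq_abs]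
          split_ifs
          · nlinarith [sq_nonneg (|a v| - |a w|), sq_abs (a v), sq_abs (a w)]
          · simp
      _ ≤ ∑ v ∈ VV (Q0 A) 0 Y, 2 * (a v ^ 2 / 2) + ∑ w ∈ VV (Q0 A) 0 Y, 2 * (a w ^ 2 / 2) := by
          simp only [sum_add_distrib]
          refine add_le_add (sum_le_sum fun v hv => MVP_row hI hv (by positivity) _ fun w h => ?_) ?_
          · simp only [det] at h ⊢; linarith
          · rw [sum_comm]
            exact sum_le_sum fun w hw => MVP_row hI hw (by positivity) _ fun v h => h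
      _ = _ := by
          rw [← sum_add_distrib, mul_sum]
          exact sum_congr rfl fun v _ => by ring
  calc _ ≤ C * (T + Y) * (2 * ∑ v ∈ VV (Q0 A) 0 Y, a v ^ 2) :=
        mul_le_mul_of_nonneg_left h (by positivity)
    _ = _ := by ring

end Pool.Agent.P.MP_8be758_nt.Pd
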