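import Pool.Agent.P.MP_8be758_nt.Pd.IfM

/-! Step SHF. -/

namespace Pool.Agent.P.MP_8be758_nt.Pd

open Finset Real Filter
open Pool.Agent.P.MP_8be758_nt.Par (nq mul cj det io et)
open Pool.Agent.P.MP_8be758_nt.Avg (rho)
open Pool.Agent.P.MP_8be758_nt.Pd.Mr

theorem SHF_pt {A : ℕ} (hA : 2 ≤ A) (k : ℤ) {s r : ℝ} (hs : 1 ≤ s) {v d : V2}
    (hd : ‖io A d‖ ≤ r) (hv : 0 < (nq A v : ℝ)) : ‖ek A k v - ek A k (v + d)‖ ≤
      (if v ∈ An (Q0 A) 0 (s ^ 2) then 2 else 0) + 2 * (|(k : ℝ)| + 1) * r / s := by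
  have r0 : 0 ≤ r := (norm_nonneg _).trans hd
  have k0 := abs_nonneg (k : ℝ)
  have h2 : ‖ek A k v - ek A k (v + d)‖ ≤ 2 := (norm_sub_le _ _).trans (by
    linarith [norm_ek_le hA k v, norm_ek_le hA k (v + d)])
  split_ifs with h
  · exact h2.trans (le_add_of_nonneg_right (by positivity))
  have h3 : s ≤ ‖io A v‖ := by
    have : s ^ 2 < nq A v := not_le.1 fun e => h ((mem_An0 hA).2 ⟨hv, e⟩)
    rw [← Par.norm_io_sq hA] at this
    exact (abs_le_of_sq_le_sq' this.le (norm_nonneg _)).2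
  have hv0 : v ≠ 0 := by
    rintro rfl
    simp [nq] at hv
  rw [zero_add, le_div_iff₀ (by linarith)]
  by_cases e : v + d = 0
  · have : ‖io A v‖ ≤ r := by rwa [eq_neg_of_add_eq_zero_left e, Par.io_neg, norm_neg]
    nlinarith [mul_nonneg k0 r0, mul_le_mul_of_nonneg_right h2 (show 0 ≤ s by linarith)]
  · have a1 := norm_uu_sub_le hA hv0 e
    rw [add_sub_cancel_left] at a1
    have a2 := norm_zpow_sub (norm_uu hA hv0) (norm_uu hA e) k
    have a3 : ‖uu A v - uu A (v + d)‖ * s ≤ 2 * r :=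
      (mul_le_mul_of_nonneg_left h3 (norm_nonneg _)).trans (by linarith)
    calc _ ≤ |(k : ℝ)| * ‖uu A v - uu A (v + d)‖ * s :=
          mul_le_mul_of_nonneg_right a2 (by linarith)
      _ ≤ |(k : ℝ)| * (2 * r) := by
          rw [mul_assoc]
          exact mul_le_mul_of_nonneg_left a3 k0
      _ ≤ _ := by nlinarith

theorem SHF_mod {m : ℕ} (x a b : ℤ) : x + (b - a) % m ≡ b [ZMOD m] ↔ x ≡ a [ZMOD m] := by
  have h : (b - a) % m ≡ b - a [ZMOD m] := Int.mod_modEq _ _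
  constructor
  · intro e
    have := (e.sub h)
    rwa [add_sub_assoc, show (b - a) % m - (b - a) % m = 0 from sub_self _, add_zero,
      sub_sub_cancel] at *
  · intro e
    simpa using e.add h

theorem p_SHF (hSH0 : S_SH0) (hAREA : S_AREA) :
    S_SHF := by
  intro A hA
  obtain ⟨C0, hC0, H0⟩ := hSH0 A hA
  obtain ⟨c0, Ca, -, hCa, Ha⟩ := hAREA A (by omega)
  refine ⟨(12 * Ca + C0) * (A + 1), by positivity, fun N k m v0 v1 hN hm => ?_⟩
  obtain ⟨s, hs, rfl⟩ : ∃ s : ℝ, 1 ≤ s ∧ N = s ^ 4 :=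
    ⟨N ^ ((4 : ℕ)⁻¹ : ℝ), one_le_rpow hN (by positivity),
      (rpow_inv_natCast_pow (by linarith) (by norm_num)).symm⟩
  have e3 : (s ^ 4) ^ (3 / 4 : ℝ) = s ^ 3 := by
    rw [← rpow_natCast, ← rpow_mul (by linarith), ← rpow_natCast]
    norm_num
  have e2 : √(s ^ 4) = s ^ 2 := by
    rw [show s ^ 4 = (s ^ 2) ^ 2 by ring, sqrt_sq (by positivity)]
  have s2 : s ≤ s ^ 2 := le_self_pow₀ hs two_ne_zero
  have s3 : s ^ 2 ≤ s ^ 3 := pow_le_pow_right₀ hs (by norm_num)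
  have s4 : s ^ 3 ≤ s ^ 4 := pow_le_pow_right₀ hs (by norm_num)
  set d : V2 := ((v1.1 - v0.1) % m, (v1.2 - v0.2) % m) with hd
  set r : ℝ := (A + 1) * m with hr
  have m0 : (0 : ℤ) < m := by exact_mod_cast hm
  have m1 : (1 : ℝ) ≤ m := by exact_mod_cast hm
  have r1 : 1 ≤ r := one_le_mul_of_one_le_of_one_le (le_add_of_nonneg_left (by positivity)) m1
  have bd : ∀ x : ℤ, |((x % m : ℤ) : ℝ)| ≤ m := fun x => by
    have h1 := Int.emod_nonneg x m0.ne'
    have h2 := Int.emod_lt_of_pos x m0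
    exact_mod_cast (show |x % m| ≤ (m : ℤ) from abs_le.2 ⟨by omega, h2.le⟩)
  have dr : ‖io A d‖ ≤ r := Par.norm_io_le hA (bd _) (bd _)
  have cg : ∀ v : V2, C2 m (v + d) v1 ↔ C2 m v v0 := fun v =>
    and_congr (SHF_mod _ _ _) (SHF_mod _ _ _)
  have b1 := H0 (s ^ 4) r d (fun v => if C2 m v v1 then ek A k v else 0) hN r1 dr fun v => by
    split_ifs
    exacts [norm_ek_le hA k v, by simp]
  simp only [cg] at b1
  rw [← sum_filter, ← sum_filter, e2] at b1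
  have c1 := (Ha _ (Q0_mem (by omega)) 0 (s ^ 4) le_rfl (by positivity)).2
  have c2 := (Ha _ (Q0_mem (by omega)) 0 (s ^ 2) le_rfl (by positivity)).2
  rw [e2] at c1
  rw [sqrt_sq (by positivity)] at c2
  have k0 := abs_nonneg (k : ℝ)
  have b2 : ‖∑ v ∈ (An (Q0 A) 0 (s ^ 4)).filter (fun v => C2 m v v0), ek A k v -
      ∑ v ∈ (An (Q0 A) 0 (s ^ 4)).filter (fun v => C2 m v v0), ek A k (v + d)‖ ≤
      6 * Ca * s ^ 3 + 6 * Ca * ((|(k : ℝ)| + 1) * r) * s ^ 3 := by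
    rw [← sum_sub_distrib]
    refine (norm_sum_le _ _).trans ((sum_le_sum_of_subset_of_nonneg (filter_subset _ _)
      fun _ _ _ => norm_nonneg _).trans ((sum_le_sum fun v hv =>
        SHF_pt hA k hs dr ((mem_An0 hA).1 hv).1).trans ?_))
    rw [sum_add_distrib, ← sum_filter, sum_const, sum_const, nsmul_eq_mul, nsmul_eq_mul]
    refine add_le_add ?_ ?_
    · have : (((An (Q0 A) 0 (s ^ 4)).filter (· ∈ An (Q0 A) 0 (s ^ 2))).card : ℝ) ≤
          (An (Q0 A) 0 (s ^ 2)).card := by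
        exact_mod_cast card_le_card fun v hv => (mem_filter.1 hv).2
      nlinarith
    · have : ((An (Q0 A) 0 (s ^ 4)).card : ℝ) ≤ 3 * Ca * s ^ 4 := by nlinarith
      refine (mul_le_mul_of_nonneg_right this (by positivity)).trans (le_of_eq ?_)
      field_simp
      ring
  rw [e3]
  refine (norm_sub_le_norm_sub_add_norm_sub _ _ _).trans ((add_le_add b2 b1).trans ?_)
  have t1 : 1 ≤ (|(k : ℝ)| + 1) * r := one_le_mul_of_one_le_of_one_le (by linarith) r1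
  have t2 : r * s ^ 2 ≤ (|(k : ℝ)| + 1) * r * s ^ 3 :=
    mul_le_mul (le_mul_of_one_le_left (by linarith) (by linarith)) s3 (by positivity) (by linarith)
  have t3 : s ^ 3 ≤ (|(k : ℝ)| + 1) * r * s ^ 3 := le_mul_of_one_le_left (by positivity) t1
  calc _ ≤ (12 * Ca + C0) * ((|(k : ℝ)| + 1) * r * s ^ 3) := by
        nlinarith [mul_le_mul_of_nonneg_left t2 hC0.le, mul_le_mul_of_nonneg_left t3 hCa.le]
    _ = _ := by rw [hr]; ring

end Pool.Agent.P.MP_8be758_nt.Pd
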