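import Pool.Agent.P.MP_8be758_nt.Pd.If0

/-! Step AREA. -/

namespace Pool.Agent.P.MP_8be758_nt.Pd

open Finset Real Filter
open ArithmeticFunction (cardFactors)
open Pool.Agent.P.MP_8be758_nt.Par (det)
open Pool.Agent.P.MP_8be758_nt.Avg (rho)

open MeasureTheory
open scoped Pointwise

/-- the form on real vectors -/
def AREA_q (ψ : Fm) (x : ℝ × ℝ) : ℝ := ψ.1 * x.1 ^ 2 + ψ.2.1 * x.1 * x.2 + ψ.2.2 * x.2 ^ 2

/-- the nearest lattice point below -/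
noncomputable def AREA_fl (x : ℝ × ℝ) : V2 := (⌊x.1⌋, ⌊x.2⌋)

theorem AREA_vol (F : Finset V2) : volume (AREA_fl ⁻¹' F) = F.card := by
  have e : ∀ v : V2, AREA_fl ⁻¹' {v} =
      Set.Ico (v.1 : ℝ) (v.1 + 1) ×ˢ Set.Ico (v.2 : ℝ) (v.2 + 1) := fun v => by
    ext x
    simp [AREA_fl, Prod.ext_iff, Int.floor_eq_iff]
  rw [← sum_measure_preimage_singleton F fun v _ => e v ▸ measurableSet_Ico.prod measurableSet_Ico]
  simp [e, Measure.volume_eq_prod]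

theorem AREA_scale (ψ : Fm) {t : ℝ} (ht : 0 < t) : volume {x | AREA_q ψ x ≤ t ^ 2} =
    ENNReal.ofReal (t ^ 2) * volume {x | AREA_q ψ x ≤ 1} := by
  have e : {x | AREA_q ψ x ≤ t ^ 2} = t • {x | AREA_q ψ x ≤ 1} := by
    ext x
    have : AREA_q ψ (t⁻¹ • x) = AREA_q ψ x / t ^ 2 := by
      simp only [AREA_q, Prod.smul_fst, Prod.smul_snd, smul_eq_mul]
      field_simp
    rw [Set.mem_smul_set_iff_inv_smul_mem₀ ht.ne', Set.mem_ofPred, Set.mem_ofPred, this,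
      div_le_one (by positivity)]
  rw [e, Measure.addHaar_smul_of_nonneg _ ht.le]
  simp

variable {A : ℕ} {ψ : Fm}

theorem AREA_tri (hA : 1 ≤ A) (h : IsF A ψ) {x y : ℝ × ℝ} {s : ℝ} (hs : 0 ≤ s)
    (hx : AREA_q ψ x ≤ s ^ 2) (h1 : |y.1 - x.1| ≤ 1) (h2 : |y.2 - x.2| ≤ 1) :
    AREA_q ψ y ≤ (s + (ψ.1 + |(ψ.2.1 : ℝ)| + ψ.2.2)) ^ 2 := by
  obtain ⟨u, rfl⟩ : ∃ u, y = x + u := ⟨y - x, by simp⟩
  simp only [Prod.fst_add, Prod.snd_add, add_sub_cancel_left, AREA_q] at *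
  have a1 : (1 : ℝ) ≤ ψ.1 := by exact_mod_cast h.2
  have a2 : (1 : ℝ) ≤ ψ.2.2 := by exact_mod_cast h.third_pos hA
  have a3 : (ψ.2.1 : ℝ) ^ 2 - 4 * ψ.1 * ψ.2.2 ≤ 0 := by
    exact_mod_cast h.1.trans_le (show 1 - 4 * (A : ℤ) ≤ 0 by omega)
  generalize (ψ.1 : ℝ) = a at *
  generalize (ψ.2.1 : ℝ) = b at *
  generalize (ψ.2.2 : ℝ) = c at *
  have a4 := abs_nonneg b
  have b1 : b * u.1 * u.2 ≤ |b| * 1 * 1 := (le_abs_self _).trans (by
    rw [abs_mul, abs_mul]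
    gcongr)
  have b2 := mul_le_mul_of_nonneg_left ((sq_le_one_iff_abs_le_one _).2 h1) (zero_le_one.trans a1)
  have b3 := mul_le_mul_of_nonneg_left ((sq_le_one_iff_abs_le_one _).2 h2) (zero_le_one.trans a2)
  have b4 : a * u.1 ^ 2 + b * u.1 * u.2 + c * u.2 ^ 2 ≤ (a + |b| + c) ^ 2 :=
    le_trans (by linarith) (le_self_pow₀ (by linarith) two_ne_zero)
  have b5 : 0 ≤ a * u.1 ^ 2 + b * u.1 * u.2 + c * u.2 ^ 2 :=
    nonneg_of_mul_nonneg_right (a := 4 * a) (by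
      linarith [sq_nonneg (2 * a * u.1 + b * u.2), mul_nonneg (neg_nonneg.2 a3) (sq_nonneg u.2)])
      (by linarith)
  have b6 := mul_le_mul hx b4 b5 (sq_nonneg s)
  have b7 : 2 * a * x.1 * u.1 + b * (x.1 * u.2 + x.2 * u.1) + 2 * c * x.2 * u.2 ≤
      2 * s * (a + |b| + c) := (abs_le_of_sq_le_sq' (by
    linarith [mul_nonneg (neg_nonneg.2 a3) (sq_nonneg (x.1 * u.2 - x.2 * u.1))])
      (by positivity)).2
  linarith

theorem AREA_gauss (hA : 1 ≤ A) (h : IsF A ψ) : ∃ κ r : ℝ, 0 < κ ∧ 0 < r ∧ ∀ N : ℝ, 0 ≤ N →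
    κ * (N - 2 * r * √N) ≤ (h.fin hA N).toFinset.card ∧
      ((h.fin hA N).toFinset.card : ℝ) ≤ κ * (N + 2 * r * √N + r ^ 2) := by
  have a1 : (0 : ℝ) < ψ.1 := by exact_mod_cast h.2
  have a2 : (0 : ℝ) < ψ.2.2 := by exact_mod_cast h.third_pos hA
  have tri := @AREA_tri A ψ hA h
  have r0 : (0 : ℝ) < ψ.1 + |(ψ.2.1 : ℝ)| + ψ.2.2 := by positivity
  generalize ψ.1 + |(ψ.2.1 : ℝ)| + ψ.2.2 = r at tri r0
  have e : ∀ x, (ev ψ (AREA_fl x) : ℝ) = AREA_q ψ (⌊x.1⌋, ⌊x.2⌋) := fun x => by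
    simp [ev, AREA_q, AREA_fl]
  have f : ∀ x : ℝ, |x - ⌊x⌋| ≤ 1 := fun x =>
    (abs_of_nonneg (Int.fract_nonneg x)).trans_le (Int.fract_lt_one x).le
  have lo : ∀ s, 0 < s → ENNReal.ofReal (s ^ 2) * volume {x | AREA_q ψ x ≤ 1} ≤
      (h.fin hA ((s + r) ^ 2)).toFinset.card := fun s hs => by
    rw [← AREA_scale ψ hs, ← AREA_vol]
    refine measure_mono fun x hx => ?_
    rw [Set.mem_preimage, Set.Finite.coe_toFinset, Set.mem_ofPred, e]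
    exact tri hs.le hx ((abs_sub_comm _ _).trans_le (f _)) ((abs_sub_comm _ _).trans_le (f _))
  have hi : ∀ s, 0 ≤ s → ((h.fin hA (s ^ 2)).toFinset.card : ENNReal) ≤
      ENNReal.ofReal ((s + r) ^ 2) * volume {x | AREA_q ψ x ≤ 1} := fun s hs => by
    rw [← AREA_scale ψ (by positivity), ← AREA_vol]
    refine measure_mono fun x hx => ?_
    rw [Set.mem_preimage, Set.Finite.coe_toFinset, Set.mem_ofPred, e] at hx
    exact tri hs hx (f _) (f _)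
  have fin : volume {x | AREA_q ψ x ≤ 1} ≠ ⊤ :=
    ne_top_of_le_ne_top (ENNReal.natCast_ne_top _) (by simpa using lo 1 one_pos)
  obtain ⟨κ, k0, hk⟩ : ∃ κ : ℝ, 0 ≤ κ ∧ volume {x | AREA_q ψ x ≤ 1} = ENNReal.ofReal κ :=
    ⟨_, ENNReal.toReal_nonneg, (ENNReal.ofReal_toReal fin).symm⟩
  simp only [hk, ← ENNReal.ofReal_mul (sq_nonneg _), ENNReal.ofReal_le_natCast] at lo hi
  replace hi : ∀ s, 0 ≤ s → ((h.fin hA (s ^ 2)).toFinset.card : ℝ) ≤ (s + r) ^ 2 * κ :=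
    fun s hs => (ENNReal.ofReal_le_ofReal_iff (by positivity)).1 (by
      simpa only [ENNReal.ofReal_natCast] using hi s hs)
  refine ⟨κ, r, lt_of_le_of_ne k0 ?_, r0, fun N hN => ⟨?_, ?_⟩⟩
  · rintro rfl
    have := hi 0 le_rfl
    rw [mul_zero, Nat.cast_nonpos, card_eq_zero, eq_empty_iff_forall_notMem] at this
    exact this 0 (by simp [ev])
  · have s0 := sqrt_nonneg N
    have s1 := sq_sqrt hN
    rcases le_or_gt √N r with e | e
    · exact le_trans (mul_nonpos_of_nonneg_of_nonpos k0 (by nlinarith)) (Nat.cast_nonneg _)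
    · have := lo (√N - r) (sub_pos.2 e)
      rw [sub_add_cancel, s1, mul_comm] at this
      exact le_trans (mul_le_mul_of_nonneg_left (by nlinarith) k0) this
  · have := hi _ (sqrt_nonneg N)
    rw [add_sq, sq_sqrt hN] at this
    linarith

theorem AREA_one (hA : 1 ≤ A) (h : IsF A ψ) : ∃ c C : ℝ, 0 < c ∧ 0 < C ∧ ∀ N1 N2 : ℝ,
    0 ≤ N1 → N1 ≤ N2 → c * (N2 - N1) - C * (√N2 + 1) ≤ (An ψ N1 N2).card ∧
      ((An ψ N1 N2).card : ℝ) ≤ C * (N2 - N1 + √N2 + 1) := by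
  obtain ⟨κ, r, k0, r0, H⟩ := AREA_gauss hA h
  refine ⟨κ, κ * (1 + 4 * r + r ^ 2), k0, by positivity, fun N1 N2 h1 h2 => ?_⟩
  have e : (An ψ N1 N2).card + (h.fin hA N1).toFinset.card = (h.fin hA N2).toFinset.card := by
    rw [← card_sdiff_add_card_eq_card (s := (h.fin hA N1).toFinset)
      (t := (h.fin hA N2).toFinset) fun v hv => by
        rw [Set.Finite.mem_toFinset] at hv ⊢
        exact hv.trans h2]
    congr 2
    ext v
    simp [mem_An hA h, and_comm]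
  have e' : ((An ψ N1 N2).card : ℝ) + (h.fin hA N1).toFinset.card =
    (h.fin hA N2).toFinset.card := by exact_mod_cast e
  obtain ⟨a1, a2⟩ := H N1 h1
  obtain ⟨a3, a4⟩ := H N2 (h1.trans h2)
  have b1 := mul_le_mul_of_nonneg_left (sqrt_le_sqrt h2) (mul_pos k0 r0).le
  have s0 := sqrt_nonneg N2
  have d0 := sub_nonneg.2 h2
  have b2 : 0 ≤ κ * ((1 + r ^ 2) * √N2 + (1 + 4 * r)) := by positivity
  have b3 : 0 ≤ κ * (4 * r + r ^ 2) * (N2 - N1) := by positivity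
  constructor <;> linarith

theorem p_AREA :
    S_AREA := by
  intro A hA
  choose! c C c0 C0 H using fun ψ (h : ψ ∈ Red A) => AREA_one hA (mem_filter.1 h).2
  obtain ⟨ψ1, a1, a2⟩ := exists_min_image (Red A) c ⟨_, Q0_mem hA⟩
  obtain ⟨ψ2, b1, b2⟩ := exists_max_image (Red A) C ⟨_, Q0_mem hA⟩
  refine ⟨c ψ1, C ψ2, c0 _ a1, C0 _ b1, fun ψ hψ N1 N2 h1 h2 => ?_⟩
  obtain ⟨d1, d2⟩ := H ψ hψ N1 N2 h1 h2
  have d0 := sub_nonneg.2 h2
  have := a2 ψ hψ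
  have := b2 ψ hψ
  exact ⟨le_trans (by gcongr) d1, d2.trans (by gcongr)⟩

end Pool.Agent.P.MP_8be758_nt.Pd
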