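import Pool.Agent.P.MP_8be758_nt.Pd.IfH

/-! Step BXR. -/

namespace Pool.Agent.P.MP_8be758_nt.Pd

open Finset Real Filter
open Pool.Agent.P.MP_8be758_nt.Par (det)
open Pool.Agent.P.MP_8be758_nt.Avg (rho)

theorem BXR_val {A P b R x y s : ℝ} (hA : 1 ≤ A) (p1 : 1 ≤ P) (b1 : -(4 * A) ≤ b) (b2 : b ≤ 4 * A)
    (r1 : 1 ≤ R) (r2 : R ≤ 4 * A) (hs : 0 ≤ s) (hx : 0 ≤ x) (x1 : 11 / 20 * s ^ 2 ≤ P * x ^ 2)
    (x2 : P * x ^ 2 ≤ 3 / 5 * s ^ 2) (y1 : 0 ≤ y) (y2 : 100 * (A * y) ≤ s) :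
    s ^ 2 ≤ 2 * (P * x ^ 2 + b * x * y + R * y ^ 2) ∧
      4 * (P * x ^ 2 + b * x * y + R * y ^ 2) ≤ 3 * s ^ 2 := by
  have hy : 0 ≤ A * y := by positivity
  have h1 : x ≤ 4 / 5 * s := by
    refine (pow_le_pow_iff_left₀ hx (by positivity) two_ne_zero).1 ?_
    nlinarith [mul_le_mul_of_nonneg_right p1 (sq_nonneg x)]
  have h2 : x * (A * y) ≤ 4 / 5 * s * (s / 100) := mul_le_mul h1 (by linarith) hy (by positivity)
  have h3 : -(4 * A) * (x * y) ≤ b * (x * y) := mul_le_mul_of_nonneg_right b1 (by positivity)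
  have h4 : b * (x * y) ≤ 4 * A * (x * y) := mul_le_mul_of_nonneg_right b2 (by positivity)
  have h5 : R * y ^ 2 ≤ 4 * A * A * y ^ 2 :=
    mul_le_mul_of_nonneg_right (by nlinarith) (by positivity)
  have h6 : (A * y) ^ 2 ≤ (s / 100) ^ 2 := pow_le_pow_left₀ hy (by linarith) 2
  have h7 : 0 ≤ R * y ^ 2 := by positivity
  constructor <;> nlinarith [sq_nonneg s]

theorem p_BXR :
    S_BXR := by
  intro A hA
  have hA' : (1 : ℝ) ≤ A := by exact_mod_cast hA
  refine ⟨1 / (50000 * (A : ℝ) ^ 2), (250 * A) ^ 2, by positivity, fun ψ hψ a ha => ?_⟩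
  obtain ⟨h1, h2⟩ := mem_product.1 (mem_filter.1 hψ).1
  obtain ⟨h2, h3⟩ := mem_product.1 h2
  rw [mem_Icc] at h1 h2 h3
  have p1 : (1 : ℝ) ≤ ψ.1 := by exact_mod_cast h1.1
  have p2 : (ψ.1 : ℝ) ≤ 4 * A := by exact_mod_cast h1.2
  have ha' : (0 : ℝ) < a := by exact_mod_cast ha
  have es : √(a : ℝ) ^ 2 = a := sq_sqrt ha'.le
  refine ⟨fun v hv => ?_, fun h0 => ?_⟩
  · obtain ⟨a1, a2⟩ := mem_product.1 hv
    rw [mem_Ioc, Int.floor_lt, Int.le_floor] at a1
    rw [mem_Ioc, Int.le_floor, le_div_iff₀ (by positivity)] at a2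
    have hx : (0 : ℝ) < v.1 := (sqrt_nonneg _).trans_lt a1.1
    have x1 := (sqrt_lt' hx).1 a1.1
    have x2 := (le_sqrt' hx).1 a1.2
    rw [div_lt_iff₀ (by positivity)] at x1
    rw [le_div_iff₀ (by positivity)] at x2
    have := BXR_val (b := ψ.2.1) (R := ψ.2.2) (x := v.1) (y := v.2) hA' p1 (by exact_mod_cast h2.1)
      (by exact_mod_cast h2.2) (by exact_mod_cast h3.1) (by exact_mod_cast h3.2) (sqrt_nonneg a)
      hx.le (by rw [es]; linarith) (by rw [es]; linarith) (by exact_mod_cast a2.1.le)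
      (by linarith [a2.2])
    rw [es] at this
    exact ⟨by simp only [ev]; exact_mod_cast this.1, by simp only [ev]; exact_mod_cast this.2,
      by exact_mod_cast hx⟩
  · have er : √(a / ψ.1 : ℝ) ^ 2 = a / ψ.1 := sq_sqrt (by positivity)
    have hr := sqrt_nonneg (a / ψ.1 : ℝ)
    have s1 : √(11 / 20 * a / ψ.1 : ℝ) ≤ 371 / 500 * √(a / ψ.1) :=
      sqrt_le_iff.2 ⟨by positivity, by
        rw [mul_pow, er, mul_div_assoc]
        exact mul_le_mul_of_nonneg_right (by norm_num) (by positivity)⟩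
    have s2 : 387 / 500 * √(a / ψ.1) ≤ √(3 / 5 * a / ψ.1 : ℝ) :=
      le_sqrt_of_sq_le (by
        rw [mul_pow, er, mul_div_assoc]
        exact mul_le_mul_of_nonneg_right (by norm_num) (by positivity))
    have s3 : √(a : ℝ) / A / 4 ≤ √(a / ψ.1 : ℝ) := le_sqrt_of_sq_le (by
      rw [div_div, div_pow, es]
      exact div_le_div_of_nonneg_left ha'.le (by positivity) (by nlinarith))
    have s4 : 250 ≤ √(a : ℝ) / A := by
      rw [le_div_iff₀ (by positivity)]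
      exact le_sqrt_of_sq_le h0
    have s5 : √(a : ℝ) / (100 * A) = √(a : ℝ) / A / 100 := by rw [div_div, mul_comm]
    have f1 := Int.floor_le √(11 / 20 * a / ψ.1 : ℝ)
    have f2 := Int.lt_floor_add_one √(3 / 5 * a / ψ.1 : ℝ)
    have f3 := Int.lt_floor_add_one (√(a : ℝ) / (100 * A))
    have t : ∀ n : ℤ, (n : ℝ) ≤ (n.toNat : ℕ) := fun n => by exact_mod_cast Int.self_le_toNat n
    rw [Bx, card_product, Int.card_Ioc, Int.card_Ioc, sub_zero, Nat.cast_mul]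
    calc 1 / (50000 * (A : ℝ) ^ 2) * a = √(a : ℝ) / A / 250 * (√(a : ℝ) / A / 200) := by
          field_simp
          rw [es]
          ring
      _ ≤ _ := mul_le_mul (le_trans (by push_cast; linarith) (t _))
          (le_trans (by linarith) (t _)) (by positivity) (by positivity)

end Pool.Agent.P.MP_8be758_nt.Pd
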