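import Pool.Agent.P.MP_8be758_nt.Pd.IfM

/-! Step CHN. -/

namespace Pool.Agent.P.MP_8be758_nt.Pd

open Finset Real Filter
open Pool.Agent.P.MP_8be758_nt.Par (nq mul cj det io et)
open Pool.Agent.P.MP_8be758_nt.Avg (rho)
open Pool.Agent.P.MP_8be758_nt.Pd.Mr

lemma CHN_im {g : ℝ → ℂ} {g' : ℂ} {x : ℝ} (h : HasDerivAt g g' x) :
    HasDerivAt (fun y => (g y).im) g'.im x :=
  Complex.imCLM.hasFDerivAt.comp_hasDerivAt x h

theorem p_CHN :
    S_CHN := by
  intro z m c hz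
  have hw : ∀ x : ℝ, HasDerivAt (fun y : ℝ => z + m * (y : ℂ)) (m : ℂ) x := fun x => by
    simpa using (((hasDerivAt_id (x : ℂ)).const_mul (m : ℂ)).const_add z).comp_ofReal
  have him : ∀ x : ℝ, (z + m * (x : ℂ)).im ≠ 0 := fun x => by simpa using hz
  have h0 : ∀ x : ℝ, z + m * (x : ℂ) ≠ 0 := fun x e => him x (by rw [e]; rfl)
  refine ⟨fun j x => Nat.casesOn j (c * Complex.arg (z + m * x))
    fun i => c * m ^ (i + 1) * (-1) ^ i * i.factorial * ((z + m * x)⁻¹ ^ (i + 1)).im,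
    fun j x => ?_, fun _ => rfl, fun _ _ => rfl⟩
  rcases j with _ | i
  · have h1 := (CHN_im ((hw x).clog_real (Or.inr (him x)))).const_mul c
    simp only [Complex.log_im] at h1
    refine h1.congr_deriv ?_
    show _ = c * m ^ (0 + 1) * (-1) ^ 0 * (Nat.factorial 0 : ℕ) * ((z + m * x)⁻¹ ^ (0 + 1)).im
    rw [div_eq_mul_inv, Complex.im_ofReal_mul]
    simp only [zero_add, pow_one, pow_zero, Nat.factorial_zero, Nat.cast_one, mul_one, mul_assoc]
  · have h1 := (CHN_im ((((hw x).inv (h0 x)).fun_pow (i + 1)))).const_mul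
      (c * m ^ (i + 1) * (-1) ^ i * i.factorial)
    refine h1.congr_deriv ?_
    show _ = c * m ^ (i + 1 + 1) * (-1) ^ (i + 1) * ((i + 1).factorial : ℕ) *
      ((z + m * x)⁻¹ ^ (i + 1 + 1)).im
    have e : ((i + 1 : ℕ) : ℂ) * ((fun y : ℝ => z + m * (y : ℂ))⁻¹ x) ^ (i + 1 - 1) *
        (-(m : ℂ) / (z + m * x) ^ 2) =
        ((-((i + 1 : ℕ) : ℝ) * m : ℝ) : ℂ) * (z + m * x)⁻¹ ^ (i + 1 + 1) := by
      rw [Pi.inv_apply, Nat.add_sub_cancel, div_eq_mul_inv, ← inv_pow]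
      push_cast
      ring
    rw [e, Complex.im_ofReal_mul, Nat.factorial_succ]
    push_cast
    ring

end Pool.Agent.P.MP_8be758_nt.Pd
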