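import Pool.Agent.P.MP_8be758_nt.Pd.IfH

/-! Statements for the edge side: variance and lower bound. -/

namespace Pool.Agent.P.MP_8be758_nt.Pd

open Finset Real Filter
open Pool.Agent.P.MP_8be758_nt.Par (det)
open Pool.Agent.P.MP_8be758_nt.Avg (rho)

-- deps: HL HS SDS CYC LAM
def S_MB : Prop := Unif fun C ρ => ∀ (q : ℕ × ℕ × ℕ) (D1 D2 : ℕ) (c0 : G4), ρ.AD q D1 D2 c0 →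
  (ρ.AT q D1 D2 c0).Nonempty → exp (-(5 / 2) * ρ.La) / (C * ρ.ls) ≤ ρ.MM q D1 D2 c0 ∧
    ρ.MM q D1 D2 c0 ≤ C * 2 ^ ρ.U * exp (-(5 / 2) * ρ.La)

-- deps: LOW PAIR FS PSA PSB MB SDS CYC LAM
def S_VAR : Prop := Unif fun C ρ => ∀ (q : ℕ × ℕ × ℕ) (D1 D2 : ℕ) (c0 : G4), ρ.AD q D1 D2 c0 →
  ∑ g ∈ ρ.AT q D1 D2 c0, (ρ.Wq q D1 D2 g - ρ.MM q D1 D2 c0) ^ 2 ≤
    C * 4 ^ ρ.U * ρ.ep * exp (-5 * ρ.La) * (ρ.AT q D1 D2 c0).card + ρ.Er 19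

-- deps: VAR MB ATS QCNT LAM
def S_GLOW : Prop := Unif fun C ρ => ∀ S : Finset G4, S ⊆ ρ.E →
  (∀ g ∈ S, ρ.Typ (ρ.fm g) ∧ ∃ q, ρ.QR q ∧ Pr.QD q (ρ.fm g)) →
  exp (-(5 / 2) * ρ.La) * (S.card / (C * ρ.ls) -
      √(S.card * (C * 4 ^ ρ.U * (ρ.k6 : ℝ) ^ 3 * ρ.ep * ρ.X))) ≤
    ∑ τ ∈ ρ.Tu, ind (τ.1 ∈ S) * ρ.cw (1 / 6) (ρ.cy τ)

end Pool.Agent.P.MP_8be758_nt.Pd
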