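import Pool.Agent.P.MP_8be758_nt.Pd.IfM

/-! Step FLIP. -/

namespace Pool.Agent.P.MP_8be758_nt.Pd

open Finset Real Filter
open Pool.Agent.P.MP_8be758_nt.Par (nq mul cj det io et)
open Pool.Agent.P.MP_8be758_nt.Avg (rho)
open Pool.Agent.P.MP_8be758_nt.Pd.Mr

theorem FLIP_pr {A m : ℕ} {g v : V2} (hv : Pr v) (hg : g.2 = 1) (hm : nq A g ∣ m)
    (hc : C2 m v (1, 0)) : Pr (mul A g v) := by
  rw [pr_iff]
  have d1 := Int.gcd_dvd_left (mul A g v).1 (mul A g v).2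
  have d2 := Int.gcd_dvd_right (mul A g v).1 (mul A g v).2
  generalize Int.gcd (mul A g v).1 (mul A g v).2 = d at d1 d2
  have d3 : (d : ℤ) ∣ m := by
    refine (dvd_of_dvd_smul hv ?_ ?_).trans hm <;> rw [← cj_mul_mul]
    · exact (d1.mul_left _).sub (d2.mul_left _)
    · exact ((d2.mul_left _).add (d1.mul_left _)).add (d2.mul_left _)
  have e : (mul A g v).2 ≡ g.1 * 0 + g.2 * 1 + g.2 * 0 [ZMOD m] :=
    ((hc.2.mul_left _).add (hc.1.mul_left _)).add (hc.2.mul_left _)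
  rw [(e.of_dvd d3).dvd_iff, hg] at d2
  exact Nat.dvd_one.1 (Int.natCast_dvd_natCast.1 (by simpa using d2))

theorem FLIP_half {A : ℕ} (hA : 2 ≤ A) {g : V2} (hg : g ≠ 0) {R V : Finset V2} {s : ℝ}
    (hs : |s| = 1) (h : ∀ v ∈ R, mul A g v ∈ V) :
    ∑ v ∈ R, (1 - s * fl A (mul A g v)) ≤ ∑ w ∈ V, (1 - s * fl A w) := by
  rw [← sum_image (f := fun w => 1 - s * fl A w) fun _ _ _ _ e => mul_inj hA hg e]
  refine sum_le_sum_of_subset_of_nonneg (image_subset_iff.2 h) fun w _ _ => sub_nonneg.2 ?_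
  exact (le_abs_self _).trans_eq (by rw [abs_mul, hs, abs_fl, mul_one])

theorem FLIP_av {m : ℕ} (hm : 2 ≤ m) :
    1 / (m : ℝ) ^ 2 ≤ SP.av m fun v => ind (C2 m v (1, 0)) := by
  have h1 : (1 : ℤ) < m := by omega
  have h2 : ((1, 0) : V2) ∈ SP.U m := mem_filter.2 ⟨mem_product.2
    ⟨mem_Ico.2 ⟨zero_le_one, h1⟩, mem_Ico.2 ⟨le_rfl, by omega⟩⟩, by simp⟩
  have h3 : (SP.U m).card ≤ m ^ 2 := (card_filter_le _ _).trans_eq (by simp [bx, sq])
  refine div_le_div₀ (sum_nonneg fun _ _ => ind_nonneg _) ?_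
    (by exact_mod_cast card_pos.2 ⟨_, h2⟩) (by exact_mod_cast h3)
  exact (ind_pos (show C2 m (1, 0) (1, 0) from ⟨rfl, rfl⟩)).symm.le.trans
    (single_le_sum (f := fun v => ind (C2 m v (1, 0))) (fun _ _ => ind_nonneg _) h2)

theorem p_FLIP (hSGN : S_SGN) (hVEQ : S_VEQ) (hCNT : S_CNT) (hAREA : S_AREA) :
    S_FLIP := by
  intro A hA
  have hA1 : 1 ≤ A := by omega
  obtain ⟨n, hn, hs⟩ := hSGN A hA
  obtain ⟨C, hC, h1⟩ := hVEQ A hA1
  obtain ⟨c, N0, hc, h2⟩ := hCNT A (4 / 3) hA1 (by norm_num)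
  obtain ⟨Cb, Ca, -, hCa, h3⟩ := hAREA A hA1
  obtain ⟨q1, hq1⟩ : ∃ q1 : ℕ, q1 = n ^ 2 + n + A := ⟨_, rfl⟩
  obtain ⟨q2, hq2⟩ : ∃ q2 : ℕ, q2 = q1 + 2 * n + 2 := ⟨_, rfl⟩
  have e1 : nq A (n, 1) = q1 := by rw [hq1]; simp [nq]
  have e2 : nq A (n + 1, 1) = q2 := by rw [hq2, hq1]; simp only [nq]; push_cast; ring
  have a1 : 1 ≤ q1 := by omega
  have a2 : q1 ≤ q2 := by omega
  have a3 : 2 * q2 ≤ 3 * q1 := by nlinarith
  obtain ⟨m, hm⟩ : ∃ m : ℕ, m = q1 * q2 := ⟨_, rfl⟩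
  have a4 : 2 ≤ m := by rw [hm]; nlinarith
  have r1 : (1 : ℝ) ≤ q1 := by exact_mod_cast a1
  have r2 : (q1 : ℝ) ≤ q2 := by exact_mod_cast a2
  have r3 : 2 * (q2 : ℝ) ≤ 3 * q1 := by exact_mod_cast a3
  have r4 : (2 : ℝ) ≤ m := by exact_mod_cast a4
  have t1 : Tendsto (fun X : ℝ => X / q1) atTop atTop := tendsto_id.atTop_div_const (by linarith)
  have t2 := (tendsto_rpow_atTop (show (0 : ℝ) < 1 / 4 by norm_num)).comp
    (t1.const_mul_atTop (show (0 : ℝ) < 4 / 3 by norm_num))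
  obtain ⟨X0, h4⟩ := eventually_atTop.1 ((t1.eventually_ge_atTop N0).and
    ((t1.eventually_ge_atTop 1).and (t2.eventually_ge_atTop (8 / 3 * C * m ^ 4 / c))))
  refine ⟨min 1 (c / (8 * m ^ 2 * q1 * Ca)), X0, lt_min one_pos (by positivity), min_le_left _ _,
    fun X hX => ?_⟩
  obtain ⟨b1, b2, b3⟩ := h4 X hX
  simp only [Function.comp] at b3
  obtain ⟨N, hN⟩ : ∃ N, N = X / q1 := ⟨_, rfl⟩
  rw [← hN] at b1 b2 b3
  have hXN : X = q1 * N := by rw [hN]; field_simp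
  have hX1 : 1 ≤ X := by nlinarith
  set R := (VV (Q0 A) N (4 / 3 * N)).filter fun v => C2 m v (1, 0) with hR
  have k1 : ∀ s : ℝ, |s| = 1 → (R.card : ℝ) ≤ (VX A X).card - s * ∑ w ∈ VX A X, fl A w := by
    intro s hs1
    have n1 : ((n, 1) : V2) ≠ 0 := by simp
    have n2 : ((n + 1, 1) : V2) ≠ 0 := by simp
    have u1 := FLIP_half hA n1 (R := R) (V := VX A X) hs1 fun v hv => by
      obtain ⟨v1, v2⟩ := mem_filter.1 hv
      obtain ⟨v3, v4, v5⟩ := (mem_VV0 hA).1 v1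
      refine (mem_VX hA).2 ⟨FLIP_pr v3 rfl (by rw [e1, hm]; exact_mod_cast Dvd.intro _ rfl) v2, ?_⟩
      rw [Par.nq_mul, e1]
      push_cast
      constructor <;> nlinarith
    have u2 := FLIP_half hA n2 (R := R) (V := VX A X) hs1 fun v hv => by
      obtain ⟨v1, v2⟩ := mem_filter.1 hv
      obtain ⟨v3, v4, v5⟩ := (mem_VV0 hA).1 v1
      refine (mem_VX hA).2
        ⟨FLIP_pr v3 rfl (by rw [e2, hm]; exact_mod_cast Dvd.intro_left _ rfl) v2, ?_⟩
      rw [Par.nq_mul, e2]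
      push_cast
      constructor <;> nlinarith
    have u3 : ∑ v ∈ R, (1 - s * fl A (mul A (n, 1) v)) +
        ∑ v ∈ R, (1 - s * fl A (mul A (n + 1, 1) v)) = 2 * R.card := by
      rw [← sum_add_distrib, mul_comm, ← nsmul_eq_mul, ← sum_const]
      refine sum_congr rfl fun v hv => ?_
      have v0 := pr_ne ((mem_VV0 hA).1 (mem_filter.1 hv).1).1
      rw [fl_mul hA n1 v0, fl_mul hA n2 v0]
      rcases fl_cases (A := A) (n, 1) with x | x <;>
        rcases fl_cases (A := A) (n + 1, 1) with y | y <;> rw [x, y] at hs ⊢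
      · exact absurd rfl hs
      · ring
      · ring
      · exact absurd rfl hs
    rw [sum_sub_distrib (s := VX A X), ← mul_sum, sum_const, nsmul_eq_mul, mul_one] at u1 u2
    linarith
  have k2 : ‖FX A X 0‖ ≤ (VX A X).card - R.card := by
    simp only [FX, FS, ek_zero, mul_one]
    rw [← Complex.ofReal_sum, Complex.norm_real, Real.norm_eq_abs, abs_le]
    constructor <;> linarith [k1 1 abs_one, k1 (-1) (by simp)]
  have k3 : ((VX A X).card : ℝ) ≤ 4 * Ca * X := by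
    have u1 := (h3 _ (Q0_mem hA1) X (2 * X) (by linarith) (by linarith)).2
    have u2 : ((VX A X).card : ℝ) ≤ (An (Q0 A) X (2 * X)).card := by
      exact_mod_cast card_le_card (VV_sub_An hA _ _)
    have u3 : √(2 * X) ≤ 2 * X := (sqrt_le_left (by linarith)).2 (by nlinarith)
    nlinarith
  have k4 : c * N / (2 * m ^ 2) ≤ R.card := by
    have u1 := h1 _ (Q0_mem hA1) N (4 / 3 * N) m (by linarith) (by linarith) (by linarith)
      (by linarith) m (fun v => ind (C2 m v (1, 0))) (by omega) le_rfl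
      (fun x y e => by
        show ind _ = ind _
        rw [show C2 m x (1, 0) ↔ C2 m y (1, 0) from
          ⟨fun h => ⟨e.1.symm.trans h.1, e.2.symm.trans h.2⟩,
            fun h => ⟨e.1.trans h.1, e.2.trans h.2⟩⟩])
      fun x => by rw [abs_of_nonneg (ind_nonneg _)]; exact ind_le_one _
    have u2 : ∑ x ∈ VV (Q0 A) N (4 / 3 * N), 1 * ind (C2 m x (1, 0)) = R.card := by
      rw [hR, card_filter]
      push_cast
      exact sum_congr rfl fun x _ => by split_ifs with h <;> simp [ind, h]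
    rw [u2] at u1
    have u3 := mul_le_mul (h2 _ (Q0_mem hA1) N b1) (FLIP_av a4) (by positivity) (Nat.cast_nonneg _)
    have u4 : (4 / 3 * N) ^ (3 / 4 : ℝ) * (4 / 3 * N) ^ (1 / 4 : ℝ) = 4 / 3 * N := by
      rw [← rpow_add (by linarith)]
      norm_num
    have u5 : C * m ^ 2 * (4 / 3 * N) ^ (3 / 4 : ℝ) ≤ c * N / (2 * m ^ 2) := by
      rw [div_le_iff₀ hc] at b3
      have u6 := mul_le_mul_of_nonneg_left b3
        (show 0 ≤ (4 / 3 * N) ^ (3 / 4 : ℝ) by positivity)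
      rw [← mul_assoc _ _ c, u4] at u6
      rw [le_div_iff₀ (by positivity)]
      linarith
    have u6 : c * N * (1 / m ^ 2) = 2 * (c * N / (2 * m ^ 2)) := by field_simp
    linarith [(abs_le.1 u1).1]
  have k5 : min 1 (c / (8 * m ^ 2 * q1 * Ca)) * (VX A X).card ≤ c * N / (2 * m ^ 2) :=
    (mul_le_mul (min_le_right _ _) k3 (Nat.cast_nonneg _) (by positivity)).trans_eq (by
      rw [hXN]
      field_simp
      ring)
  linarith

end Pool.Agent.P.MP_8be758_nt.Pd
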