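import Pool.Agent.P.MP_8be758_nt.Pd.IfH

/-! Step HLT. -/

namespace Pool.Agent.P.MP_8be758_nt.Pd

open Finset Real Filter
open Pool.Agent.P.MP_8be758_nt.Par (det)
open Pool.Agent.P.MP_8be758_nt.Avg (rho)

theorem HLT_sum (hROOT : S_ROOT) (ρ : Pr) (hA : 2 ≤ ρ.A) (hw : 4 * ρ.A ≤ ρ.w) (P R a b : ℤ)
    (D : ℕ) (T : ℝ) (ψ : Fm) (hψ : IsF ρ.A ψ) (t : ℕ) (B : Finset V2) (ha : 0 < a)
    (hB : ∀ v ∈ B, 0 < ev ψ v ∧ 0 < v.1) :
    ∑ v ∈ B, ∑ s ∈ Icc 1 a.toNat, ind (a - (s : ℤ) * t = ev ψ v) *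
      (ind (ρ.SB D a T s t ∧ VT.GW ⟨P, R, a, b, s, t⟩ ρ.w) * (1 / 6) ^ ρ.om (a - s * t)) ≤
      a * ρ.Hs P R a b D T t := by
  classical
  rw [sum_comm, Pr.Hs, mul_sum]
  refine sum_le_sum fun s hs => ?_
  rw [← sum_mul]
  by_cases hS : ρ.SB D a T s t ∧ VT.GW ⟨P, R, a, b, s, t⟩ ρ.w
  · rw [ind_pos hS, one_mul, one_mul]
    obtain ⟨⟨-, -, h3, h4, -, h6, h7, -⟩, -⟩ := hS
    have hst : (0 : ℤ) ≤ s * t := by positivity
    have hk : 0 < a - (s : ℤ) * t := by omega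
    have hc : ∑ v ∈ B, ind (a - (s : ℤ) * t = ev ψ v) =
        ((B.filter fun v => a - (s : ℤ) * t = ev ψ v).card : ℝ) := by
      rw [card_filter]
      push_cast
      refine sum_congr rfl fun v _ => ?_
      by_cases h : a - (s : ℤ) * t = ev ψ v
      · rw [ind_pos h, if_pos h]
      · rw [ind_neg h, if_neg h]
    have hr := hROOT ρ.A ψ _ (B.filter fun v => a - (s : ℤ) * t = ev ψ v) hA hψ hk h6
      (fun p hp hd => lt_of_le_of_lt hw (h7 p hp hd).1)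
      (fun v hv => ⟨(mem_filter.1 hv).2.symm, (hB v (mem_filter.1 hv).1).2⟩)
    have hr' : ((B.filter fun v => a - (s : ℤ) * t = ev ψ v).card : ℝ) ≤
        rr ρ.A (a - s * t) := by exact_mod_cast hr
    rw [hc, Pr.hh]
    have hk' : (0 : ℝ) < ((a - (s : ℤ) * t : ℤ) : ℝ) := by exact_mod_cast hk
    have hka : ((a - (s : ℤ) * t : ℤ) : ℝ) ≤ a := by exact_mod_cast (by omega : a - (s : ℤ) * t ≤ a)
    have h0 : (0 : ℝ) ≤ (1 / 6) ^ ρ.om (a - s * t) := by positivity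
    calc _ ≤ (rr ρ.A (a - s * t) : ℝ) * (1 / 6) ^ ρ.om (a - s * t) :=
          mul_le_mul_of_nonneg_right hr' h0
      _ = ((a - (s : ℤ) * t : ℤ) : ℝ) *
          ((1 / 6) ^ ρ.om (a - s * t) * rr ρ.A (a - s * t) / ((a - (s : ℤ) * t : ℤ) : ℝ)) := by
          field_simp
      _ ≤ _ := mul_le_mul_of_nonneg_right hka (by positivity)
  · rw [ind_neg hS]
    simp

theorem p_HLT (hBXR : S_BXR) (hROOT : S_ROOT) (hHLH : S_HLH) (hHLV : S_HLV) (hHLM : S_HLM) (hHF : S_HF) :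
    S_HLT := by
  classical
  obtain ⟨c1, h1⟩ := hHLH
  obtain ⟨c2, h2⟩ := hHLV
  obtain ⟨c3, h3⟩ := hHLM
  obtain ⟨c4, h4⟩ := hHF
  refine ⟨c1 + c2 + c3 + c4, fun A C1 => ?_⟩
  obtain ⟨_, -, h1⟩ := h1 A C1
  obtain ⟨_, -, h2⟩ := h2 A C1
  obtain ⟨C, hC, h3⟩ := h3 A C1
  obtain ⟨_, -, h4⟩ := h4 A C1
  refine ⟨C, hC, fun z hA hC1 hz => ?_⟩
  filter_upwards [h1 z hA hC1 (hz.mono (by omega)), h2 z hA hC1 (hz.mono (by omega)),
    h3 z hA hC1 (hz.mono (by omega)), h4 z hA hC1 (hz.mono (by omega)),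
    eventually_gt_atTop (0 : ℝ)] with y H1 H2 H3 H4 hy
  intro P R a b D T ψ u s0 t0 l hD hψ hu hl t ht
  set ρ : Pr := ⟨z, y⟩ with hρ
  have hA3 : 3 ≤ ρ.A := hz.2.1
  have hw : 4 * ρ.A ≤ ρ.w := hz.2.2.2.1
  have ha' : (0 : ℝ) < a := lt_of_lt_of_le (pow_pos hy _) hD.2.2.2.2.2.1
  have ha : 0 < a := by exact_mod_cast ha'
  have hT : 0 < T := hD.2.2.2.2.2.2.2.1
  have hH := (H1 P R a b D T ψ u s0 t0 l hD hψ hu hl).2 t ht
  have hM := H3 ψ a D t _ (fun p => (l p * u.1, l p * u.2)) hH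
  have hF := H4 ψ a D t _ hH
  have hV := H2 P R a b D T ψ u s0 t0 l hD hψ hu hl t ht
  obtain ⟨c, a0, -, hB⟩ := hBXR ρ.A (by omega)
  have hB := (hB ψ hψ a ha).1
  have htI := mem_Icc.1 (mem_filter.1 ht).1
  have ht0 : (0 : ℝ) < t := by exact_mod_cast htI.1
  have htT : (t : ℝ) ≤ T := (Nat.le_floor_iff hT.le).1 htI.2
  have hS := HLT_sum hROOT ρ (by omega) hw P R a b D T ψ (mem_filter.1 hψ).2 t (Bx ρ.A ψ a) ha
    (fun v hv => ⟨by have := (hB v hv).1; omega, (hB v hv).2.2⟩)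
  have hle : (a : ℝ) / T ≤ a / t := div_le_div_of_nonneg_left ha'.le ht0 htT
  have hC0 : 0 ≤ C * ((ρ.k4 : ℝ) ^ 4 * log ρ.w ^ 12) := by positivity
  refine le_trans (div_le_div_of_nonneg_right
    (mul_le_mul_of_nonneg_right hle (exp_pos _).le) hC0) (le_trans hM ?_)
  refine le_trans ?_ (add_le_add_left hS _)
  rw [← sum_add_distrib]
  refine sum_le_sum fun v hv => ?_
  set Φ := ρ.Ph ψ a D t (ρ.Bq P R a b t) (fun p => (l p * u.1, l p * u.2)) v with hΦ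
  have hpr : ∀ p ∈ ρ.hP t, 0 ≤ ρ.hf ψ a D (ρ.Bq P R a b t) p v ∧
      ρ.hf ψ a D (ρ.Bq P R a b t) p v ≤ 1 := fun p hp => by
    have hp' := (mem_filter.1 hp).1
    refine (hF p (prime_of_PP hp') ?_).2.1 v
    exact_mod_cast lt_of_PP hp'
  have hΦ1 : Φ ≤ ind ((t : ℤ) ∣ a - ev ψ v) := by
    rw [hΦ, Pr.Ph]
    refine le_trans (mul_le_of_le_one_right (ind_nonneg _)
      (prod_le_one (fun p hp => (hpr p hp).1) fun p hp => (hpr p hp).2)) (ind_mono fun h => h.2)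
  have hΦ0 : 0 ≤ Φ := by
    rw [hΦ, Pr.Ph]
    exact mul_nonneg (ind_nonneg _) (prod_nonneg fun p hp => (hpr p hp).1)
  have hnn : ∀ s ∈ Icc 1 a.toNat, 0 ≤ ind (a - (s : ℤ) * t = ev ψ v) *
      (ind (ρ.SB D a T s t ∧ VT.GW ⟨P, R, a, b, s, t⟩ ρ.w) * (1 / 6) ^ ρ.om (a - s * t)) :=
    fun s _ => mul_nonneg (ind_nonneg _) (mul_nonneg (ind_nonneg _) (by positivity))
  have hs0 := sum_nonneg hnn
  have hq0 : 0 ≤ ind ((t : ℤ) ∣ a - ev ψ v) *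
      ind (∃ p : ℕ, p.Prime ∧ ρ.y < p ∧ (p : ℤ) ^ 2 ∣ ev ψ v) :=
    mul_nonneg (ind_nonneg _) (ind_nonneg _)
  by_cases hz' : ρ.Sz a (ev ψ v) t
  swap
  · rw [ind_neg hz', mul_zero]
    exact add_nonneg hs0 hq0
  rw [ind_pos hz', mul_one]
  by_cases hq : ∃ p : ℕ, p.Prime ∧ ρ.y < p ∧ (p : ℤ) ^ 2 ∣ ev ψ v
  · rw [ind_pos hq, mul_one]
    linarith
  by_cases h0 : Φ = 0
  · rw [h0]
    exact add_nonneg hs0 hq0
  obtain ⟨hb, s, hs, he, hsb⟩ := hV v hv h0 hz' hq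
  have := single_le_sum hnn hs
  rw [ind_pos he, ind_pos hsb, one_mul, one_mul, he] at this
  linarith

end Pool.Agent.P.MP_8be758_nt.Pd
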