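import Pool.Agent.P.MP_8be758_nt.Pd.IfM

/-! Step LAST. -/

namespace Pool.Agent.P.MP_8be758_nt.Pd

open Finset Real Filter
open Pool.Agent.P.MP_8be758_nt.Par (nq mul cj det io et)
open Pool.Agent.P.MP_8be758_nt.Avg (rho)
open Pool.Agent.P.MP_8be758_nt.Pd.Mr

theorem p_LAST (hLSA : S_LSA) (hLSB : S_LSB) (hFLIP : S_FLIP) (hAREA : S_AREA) (hCNT : S_CNT) :
    S_LAST := by
  intro A ho hA
  obtain ⟨a1, X1, ha1, h1⟩ := hLSA A (by omega)
  obtain ⟨a2, c, C, X2, ha2, hc, hC, h2⟩ := hLSB A ho hA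
  obtain ⟨c3, X3, hc3, hc3', h3⟩ := hFLIP A (by omega)
  obtain ⟨c0, X4, hc0, h4⟩ := hCNT A 2 (by omega) one_lt_two
  obtain ⟨_, Ca, -, hCa, h5⟩ := hAREA A (by omega)
  have hα := lt_min ha1 ha2
  obtain ⟨X5, h6⟩ := eventually_atTop.1 ((tendsto_rpow_atTop hα).eventually_gt_atTop
    (2 * (C + 2) / (c * c3)))
  set η := min (c3 / 4) (c * c3 / (16 * C * Ca)) with hη
  have η0 : 0 < η := lt_min (by positivity) (by positivity)
  have η1 : η ≤ c3 / 4 := min_le_left _ _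
  have η2 : η * (16 * C * Ca) ≤ c * c3 := (le_div_iff₀ (by positivity)).1 (min_le_right _ _)
  refine ⟨min a1 a2, η, max (max (max X1 X2) (max X3 X4)) (max X5 1), hα, η0, ?_⟩
  intro X U hX hB hU
  simp only [max_le_iff] at hX
  obtain ⟨⟨⟨x1, x2⟩, x3, x4⟩, x5, x6⟩ := hX
  have X0 : 0 < X := by linarith
  obtain ⟨k1, k2⟩ := h1 X U x1 hB (hU.trans (rpow_le_rpow_of_exponent_le x6 (min_le_left _ _)))
  have k3 := h2 X U (cf A X) x2 hB (hU.trans (rpow_le_rpow_of_exponent_le x6 (min_le_right _ _)))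
  have k4 := h3 X x3
  have M0 : (0 : ℝ) < (VX A X).card :=
    (mul_pos hc0 X0).trans_le (h4 _ (Q0_mem (by omega)) X x4)
  have M1 : ((VX A X).card : ℝ) ≤ Ca * (4 * X) := by
    have e1 : ((VX A X).card : ℝ) ≤ (An (Q0 A) X (2 * X)).card := by
      exact_mod_cast card_le_card (VV_sub_An (by omega) _ _)
    have e2 : √(2 * X) ≤ 2 * X := sqrt_le_self_iff.2 (.inr (by linarith))
    exact e1.trans ((h5 _ (Q0_mem (by omega)) X (2 * X) X0.le (by linarith)).2.trans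
      (mul_le_mul_of_nonneg_left (by linarith) hCa.le))
  have nc : ∀ k, ‖cf A X k‖ = ‖FX A X k‖ / (VX A X).card := fun k => by
    rw [cf, norm_div, Complex.norm_conj, Complex.norm_natCast]
  have e : ∑ k ∈ U, ‖FX A X k‖ ^ 2 = (∑ k ∈ U, ‖cf A X k‖ ^ 2) * ((VX A X).card : ℝ) ^ 2 := by
    rw [sum_mul]
    exact sum_congr rfl fun k _ => by rw [nc]; field_simp
  rw [e]
  refine mul_le_mul_of_nonneg_right (not_lt.1 fun hS => ?_) (by positivity)
  have d0 : ‖cf A X 0‖ ^ 2 ≤ 1 - c3 := by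
    have : ‖cf A X 0‖ ≤ 1 - c3 := by rwa [nc, div_le_iff₀ M0]
    nlinarith [norm_nonneg (cf A X 0)]
  have s1 : ∑ k ∈ U, ‖cf A X k‖ ^ 2 ≤ ∑ k ∈ U.erase 0, ‖cf A X k‖ ^ 2 + (1 - c3) := by
    by_cases h0 : (0 : ℤ) ∈ U
    · rw [← sum_erase_add _ _ h0]
      linarith
    · rw [erase_eq_of_notMem h0]
      linarith
  have r1 : X ^ (1 - a1) ≤ X ^ (1 - min a1 a2) :=
    rpow_le_rpow_of_exponent_le x6 (by linarith [min_le_left a1 a2])
  have r2 : X ^ (1 - a2) ≤ X ^ (1 - min a1 a2) :=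
    rpow_le_rpow_of_exponent_le x6 (by linarith [min_le_right a1 a2])
  have r0 : 0 < X ^ (1 - min a1 a2) := by positivity
  have r3 : 2 * (C + 2) * X ^ (1 - min a1 a2) < c * c3 * X := by
    have t := (div_lt_iff₀ (by positivity)).1 (h6 X x5)
    calc _ < X ^ min a1 a2 * (c * c3) * X ^ (1 - min a1 a2) := by gcongr
      _ = c * c3 * (X ^ min a1 a2 * X ^ (1 - min a1 a2)) := by ring
      _ = _ := by rw [← rpow_add X0]; simp
  have t1 : c * X * (3 * c3 / 4) ≤ c * X * ∑ k ∈ U.erase 0, ‖cf A X k‖ ^ 2 :=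
    mul_le_mul_of_nonneg_left (by linarith) (by positivity)
  have t2 : dis A (VX A X) U (cf A X) ≤ Ca * (4 * X) * η + X ^ (1 - min a1 a2) :=
    k2.trans (add_le_add ((mul_le_mul_of_nonneg_left (by linarith) M0.le).trans
      (mul_le_mul_of_nonneg_right M1 η0.le)) r1)
  have t3 : X ^ (1 - a2) * ∑ k ∈ U, ‖cf A X k‖ ^ 2 ≤ X ^ (1 - min a1 a2) * 2 :=
    mul_le_mul r2 k1 (by positivity) r0.le
  have t4 := mul_le_mul_of_nonneg_left t2 hC.le
  have t5 := mul_le_mul_of_nonneg_right η2 X0.le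
  nlinarith

end Pool.Agent.P.MP_8be758_nt.Pd
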