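import Pool.Agent.P.MP_8be758_nt.Pd.IfM

/-! Step LSA. -/

namespace Pool.Agent.P.MP_8be758_nt.Pd

open Finset Real Filter
open Pool.Agent.P.MP_8be758_nt.Par (nq mul cj det io et)
open Pool.Agent.P.MP_8be758_nt.Avg (rho)
open Pool.Agent.P.MP_8be758_nt.Pd.Mr

theorem LSA_sq {f : ℝ} (hf : f * f = 1) (z : ℂ) :
    ‖(f : ℂ) - z‖ ^ 2 = 1 - 2 * ((f : ℂ) * z).re + ‖z‖ ^ 2 := by
  rw [Complex.sq_norm, Complex.sq_norm, Complex.normSq_apply, Complex.normSq_apply]
  simp only [Complex.sub_re, Complex.sub_im, Complex.ofReal_re, Complex.ofReal_im, Complex.mul_re]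
  linear_combination hf

theorem LSA_dis (A : ℕ) (X : ℝ) (U : Finset ℤ) (hM : (0 : ℝ) < (VX A X).card) :
    dis A (VX A X) U (cf A X) = (VX A X).card -
      2 * ((VX A X).card * ∑ k ∈ U, ‖cf A X k‖ ^ 2) + ∑ v ∈ VX A X, ‖Phi A U (cf A X) v‖ ^ 2 := by
  have h0 : ((VX A X).card : ℂ) ≠ 0 := by exact_mod_cast hM.ne'
  have e : ∑ v ∈ VX A X, (fl A v : ℂ) * Phi A U (cf A X) v =
      (((VX A X).card * ∑ k ∈ U, ‖cf A X k‖ ^ 2 : ℝ) : ℂ) := by
    simp only [Phi, mul_sum]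
    rw [sum_comm]
    push_cast
    refine sum_congr rfl fun k _ => ?_
    have e1 : FX A X k = (VX A X).card * (starRingEnd ℂ) (cf A X k) := by
      rw [cf, map_div₀, Complex.conj_conj, map_natCast, mul_div_cancel₀ _ h0]
    rw [← Complex.mul_conj', mul_left_comm, ← e1, FX, FS, mul_sum]
    exact sum_congr rfl fun v _ => mul_left_comm _ _ _
  have e2 := congrArg Complex.re e
  rw [Complex.re_sum, Complex.ofReal_re] at e2
  simp only [dis, LSA_sq (fl_sq _), sum_add_distrib, sum_sub_distrib, ← mul_sum, e2, sum_const,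
    nsmul_eq_mul, mul_one]

theorem p_LSA (hPES : S_PES) (hGRAM : S_GRAM) (hCNT : S_CNT) :
    S_LSA := by
  intro A hA
  obtain ⟨κ, C, k0, k1, C0, hP⟩ := hPES A 1 hA
  obtain ⟨c, N0, c0, hC⟩ := hCNT A 2 (by omega) one_lt_two
  have a0 : 0 < κ / 3 := by linarith
  obtain ⟨X0, hX⟩ := eventually_atTop.1 ((eventually_ge_atTop 1).and ((eventually_ge_atTop N0).and
    (((tendsto_rpow_atTop a0).eventually_ge_atTop (4 * C)).and
      ((tendsto_rpow_atTop a0).eventually_ge_atTop (1 / c)))))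
  refine ⟨κ / 3, X0, a0, fun X U h0 hU hc => ?_⟩
  obtain ⟨x1, x2, x3, x4⟩ := hX X h0
  have x0 : 0 < X := by linarith
  have hM : c * X ≤ (VX A X).card := hC _ (Q0_mem (by omega)) X x2
  have M0 : (0 : ℝ) < (VX A X).card := (mul_pos c0 x0).trans_le hM
  have p1 : 0 < X ^ (1 - κ) := rpow_pos_of_pos x0 _
  have p2 : 0 < X ^ (κ / 3) := rpow_pos_of_pos x0 _
  have hG := hGRAM A (VX A X) U (cf A X) (2 * C * X ^ (1 - κ)) hA
    (fun v hv => pr_ne ((mem_VX hA).1 hv).1) (by positivity) fun k hk k' hk' ne => by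
      have h1 := hP (2 * X) X (2 * X) (k - k') 1 (fun _ => 1) (by linarith) x0.le (by linarith)
        le_rfl one_pos (sub_ne_zero.2 ne) (by
          push_cast
          linarith [abs_sub (k : ℝ) k', hU k hk, hU k' hk']) (fun _ _ _ => rfl) (by simp)
      simp only [Complex.ofReal_one, one_mul, Nat.cast_one, one_pow, mul_one] at h1
      refine h1.trans ?_
      rw [mul_rpow two_pos.le x0.le, mul_comm 2 C, mul_assoc]
      have : (2 : ℝ) ^ (1 - κ) ≤ 2 := by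
        simpa using rpow_le_rpow_of_exponent_le (x := 2) one_le_two (show 1 - κ ≤ 1 by linarith)
      gcongr
  have e1 : X ^ (1 - κ / 3) = X ^ (1 - κ) * X ^ (κ / 3) * X ^ (κ / 3) := by
    rw [← rpow_add x0, ← rpow_add x0]; ring_nf
  have e2 : X ^ (1 - κ / 3) * X ^ (κ / 3) = X := by
    rw [← rpow_add x0, sub_add_cancel, rpow_one]
  have p3 : 0 < X ^ (1 - κ / 3) := rpow_pos_of_pos x0 _
  have b1 : 2 * C * X ^ (1 - κ) * U.card ≤ X ^ (1 - κ / 3) / 2 := by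
    calc _ ≤ 2 * C * X ^ (1 - κ) * X ^ (κ / 3) := by gcongr
      _ = X ^ (1 - κ) * X ^ (κ / 3) * (4 * C) / 2 := by ring
      _ ≤ _ := by rw [e1]; gcongr
  have b2 : X ^ (1 - κ / 3) ≤ (VX A X).card := by
    rw [div_le_iff₀ c0] at x4
    nlinarith [mul_le_mul_of_nonneg_left x4 p3.le]
  have S0 : 0 ≤ ∑ k ∈ U, ‖cf A X k‖ ^ 2 := sum_nonneg fun _ _ => by positivity
  have d0 := dis_nonneg (A := A) (VX A X) U (cf A X)
  have d1 := LSA_dis A X U M0
  have g1 := (abs_le.1 hG).2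
  have g2 := mul_le_mul_of_nonneg_right b1 S0
  generalize ∑ k ∈ U, ‖cf A X k‖ ^ 2 = S at *
  have g3 := mul_le_mul_of_nonneg_right b2 S0
  have S2 : S ≤ 2 := le_of_mul_le_mul_left (by linarith) M0
  refine ⟨S2, ?_⟩
  nlinarith [mul_le_mul_of_nonneg_left S2 p3.le]

end Pool.Agent.P.MP_8be758_nt.Pd
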