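import Pool.Agent.P.MP_8be758_nt.Pd.IfM

/-! Step MRM. -/

namespace Pool.Agent.P.MP_8be758_nt.Pd

open Finset Real Filter
open Pool.Agent.P.MP_8be758_nt.Pd.Mr

theorem p_MRM (hEN : S_EN) (hSTG : S_STG) (hLAST : S_LAST) (hCNT : S_CNT) :
    S_MRM := by
  intro A hodd h3
  by_contra hM
  obtain ⟨α, η, X1, hα, hη, hL⟩ := hLAST A hodd h3
  obtain ⟨c, N0, hc, hC⟩ := hCNT A 2 (by omega) one_lt_two
  obtain ⟨L, X2, h1L, hS⟩ := hSTG A α (η * c ^ 2 / 4) hodd h3 hα (by positivity)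
  obtain ⟨X, hX, hE⟩ := hEN A (η / 2) L (max (max X1 X2) (max N0 1)) (by omega) hM (by positivity) h1L
  simp only [max_le_iff] at hX
  obtain ⟨⟨x1, x2⟩, x3, x4⟩ := hX
  obtain ⟨U, hU, hU1, hU2⟩ := hS X x2
  have b1 : Bd U X := (bd_KT (by positivity)).mono hU (div_le_self (by linarith) h1L)
  have h1 := hL X U x1 b1 hU1
  have h2 : c * X ≤ (VX A X).card := hC _ (Q0_mem (by omega)) X x3
  have h4 := pow_le_pow_left₀ (by positivity) h2 2
  have h5 : 0 < (c * X) ^ 2 := by positivity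
  rw [← sum_sdiff hU] at hE
  nlinarith

end Pool.Agent.P.MP_8be758_nt.Pd
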