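import Pool.Agent.P.MP_8be758_nt.Pd.IfN

/-! Step OWN. -/

namespace Pool.Agent.P.MP_8be758_nt.Pd

open Finset Real Filter
open Pool.Agent.P.MP_8be758_nt.Par (det)
open Pool.Agent.P.MP_8be758_nt.Avg (rho)
open scoped Classical

theorem OWN_two (D : ℕ) (x y : ℝ) (hD : Squarefree D) :
    ∑ d ∈ D.divisors, x ^ d.primeFactors.card * y ^ (D / d).primeFactors.card =
      (x + y) ^ D.primeFactors.card := by
  rw [← Finset.sum_pow_mul_eq_add_pow]
  refine sum_bij' (fun d _ => d.primeFactors) (fun t _ => ∏ p ∈ t, p) (fun d hd => ?_)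
    (fun t ht => ?_) (fun d hd => ?_) (fun t ht => ?_) fun d hd => ?_
  · exact mem_powerset.2 (Nat.primeFactors_mono (Nat.dvd_of_mem_divisors hd) hD.ne_zero)
  · refine Nat.mem_divisors.2 ⟨?_, hD.ne_zero⟩
    exact (prod_dvd_prod_of_subset _ _ _ (mem_powerset.1 ht)).trans (Nat.prod_primeFactors_dvd D)
  · exact Nat.prod_primeFactors_of_squarefree (hD.squarefree_of_dvd (Nat.dvd_of_mem_divisors hd))
  · exact Nat.primeFactors_prod fun p hp => Nat.prime_of_mem_primeFactors (mem_powerset.1 ht hp)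
  · obtain ⟨e, rfl⟩ := Nat.dvd_of_mem_divisors hd
    have h0 : 0 < d := Nat.pos_of_mem_divisors hd
    have hc : d.Coprime e := Nat.coprime_of_squarefree_mul hD
    rw [Nat.mul_div_cancel_left _ h0, hc.primeFactors_mul,
      card_union_of_disjoint hc.disjoint_primeFactors, Nat.add_sub_cancel_left]

theorem p_OWN :
    S_OWN := by
  intro D x y z hD
  rw [Sp3, sum_filter, sum_product, add_assoc, ← OWN_two D x (y + z) hD]
  refine sum_congr rfl fun d hd => ?_
  obtain ⟨e, rfl⟩ := Nat.dvd_of_mem_divisors hd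
  have h0 : 0 < d := Nat.pos_of_mem_divisors hd
  have he : Squarefree e := hD.squarefree_of_dvd (dvd_mul_left e d)
  rw [Nat.mul_div_cancel_left _ h0, ← OWN_two e y z he, mul_sum, ← sum_filter]
  refine sum_congr ?_ fun c _ => ?_
  · ext c
    simp only [mem_filter, Nat.mem_divisors, Nat.mul_dvd_mul_iff_left h0]
    exact ⟨fun h => ⟨h.2, he.ne_zero⟩, fun h => ⟨⟨h.1.mul_left d, hD.ne_zero⟩, h.1⟩⟩
  · simp only [Nat.mul_div_mul_left _ _ h0, mul_assoc]

end Pool.Agent.P.MP_8be758_nt.Pd
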