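import Pool.Agent.P.MP_8be758_nt.Pd.IfM

/-! Step PRA. -/

namespace Pool.Agent.P.MP_8be758_nt.Pd

open Finset Real Filter
open Pool.Agent.P.MP_8be758_nt.Par (nq mul cj det io et)
open Pool.Agent.P.MP_8be758_nt.Avg (rho)
open Pool.Agent.P.MP_8be758_nt.Pd.Mr

theorem p_PRA (hOK : S_OK) (hDV : S_DV) (hVEQ : S_VEQ) (hCNT : S_CNT) :
    S_PRA := by
  intro A hA
  obtain ⟨C, hC, hV⟩ := hVEQ A (by omega)
  obtain ⟨c, N0, hc, hN⟩ := hCNT A (4 / 3) (by omega) (by norm_num)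
  refine ⟨c / 8, max N0 (max 1 (16 * C / c) ^ 40), by positivity, ?_⟩
  intro X p q g g' hX hp hq hpq p1 q1 p2 p3 q2 q3
  obtain ⟨-, -, ⟨o1, o2, o3⟩, -⟩ := hOK
  obtain ⟨a1, a2⟩ := hDV A p g hp p2 p3
  obtain ⟨b1, b2⟩ := hDV A q g' hq q2 q3
  have m1 : (1 : ℝ) ≤ max 1 (16 * C / c) := le_max_left _ _
  have X2 : max 1 (16 * C / c) ^ 40 ≤ X := (le_max_right _ _).trans hX
  have X1 : 1 ≤ X := (one_le_pow₀ m1).trans X2
  have X0 : 0 ≤ X := by linarith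
  set t := X ^ (1 / 40 : ℝ) with ht
  have t0 : 0 ≤ t := rpow_nonneg X0 _
  have e1 : t ^ 40 = X := by
    rw [ht, ← rpow_natCast, ← rpow_mul X0]
    norm_num
  have e2 : X ^ (3 / 4 : ℝ) = t ^ 30 := by
    rw [ht, ← rpow_natCast, ← rpow_mul X0]
    norm_num
  have t1 : max 1 (16 * C / c) ≤ t :=
    le_of_pow_le_pow_left₀ (n := 40) (by norm_num) t0 (e1 ▸ X2)
  have t2 : 1 ≤ t := m1.trans t1
  have t3 : 16 * C ≤ t * c := (div_le_iff₀ hc).1 ((le_max_right _ _).trans t1)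
  have P2 : (2 : ℝ) ≤ p := by exact_mod_cast hp.two_le
  have Q2 : (2 : ℝ) ≤ q := by exact_mod_cast hq.two_le
  have b3 : SP.Per q fun v => 1 - ind (Dv A q g' v) :=
    fun x y h => congrArg (1 - ·) (b1 x y h)
  have b4 : SP.av q (fun v => 1 - ind (Dv A q g' v)) = 1 - 1 / ((q : ℝ) + 1) := by
    rw [Sys.av_sub, Sys.av_const _ _ (o1 q hq.pos), b2]
  have key := hV (Q0 A) (Q0_mem (by omega)) (6 / 5 * X) (8 / 5 * X) (t ^ 2) (by linarith)
    (by linarith) (by linarith) (one_le_pow₀ t2) (p * q)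
    (fun v => ind (Dv A p g v) * (1 - ind (Dv A q g' v))) (Nat.mul_pos hp.pos hq.pos)
    (by push_cast; rw [sq]; exact mul_le_mul p1 q1 (by linarith) t0)
    (fun x y h => congrArg₂ (· * ·) (a1 x y (o2 _ _ (dvd_mul_right _ _) x y h))
      (b3 x y (o2 _ _ (dvd_mul_left _ _) x y h)))
    fun v => by
      have := ind_nonneg (Dv A p g v)
      have := ind_le_one (Dv A p g v)
      have := ind_nonneg (Dv A q g' v)
      have := ind_le_one (Dv A q g' v)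
      rw [abs_le]
      constructor <;> nlinarith
  rw [o3 p q _ _ hp.pos hq.pos ((Nat.coprime_primes hp hq).2 hpq) a1 b3, a2, b4] at key
  have c1 := hN (Q0 A) (Q0_mem (by omega)) (6 / 5 * X)
    (by linarith [(le_max_left _ _).trans hX])
  rw [show 4 / 3 * (6 / 5 * X) = 8 / 5 * X by ring] at c1
  have e3 : (((VV (Q0 A) (6 / 5 * X) (8 / 5 * X)).filter fun v =>
      Dv A p g v ∧ ¬Dv A q g' v).card : ℝ) = ∑ v ∈ VV (Q0 A) (6 / 5 * X) (8 / 5 * X),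
      1 * (ind (Dv A p g v) * (1 - ind (Dv A q g' v))) := by
    rw [card_filter, Nat.cast_sum]
    refine sum_congr rfl fun v _ => ?_
    by_cases h1 : Dv A p g v <;> by_cases h2 : Dv A q g' v <;> simp [ind, h1, h2]
  have d1 : 1 / (4 * (p : ℝ)) ≤ 1 / ((p : ℝ) + 1) * (1 - 1 / ((q : ℝ) + 1)) := by
    have h1 : 1 / ((q : ℝ) + 1) ≤ 1 / 2 := one_div_le_one_div_of_le two_pos (by linarith)
    have h2 : 1 / (2 * (p : ℝ)) ≤ 1 / ((p : ℝ) + 1) :=
      one_div_le_one_div_of_le (by linarith) (by linarith)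
    calc _ = 1 / (2 * (p : ℝ)) * (1 / 2) := by ring
      _ ≤ _ := mul_le_mul h2 (by linarith) (by norm_num) (by positivity)
  have d2 : (8 / 5 * X) ^ (3 / 4 : ℝ) ≤ 2 * t ^ 30 := by
    rw [mul_rpow (by norm_num) X0, e2]
    refine mul_le_mul_of_nonneg_right ?_ (by positivity)
    exact (rpow_le_self_of_one_le (by norm_num) (by norm_num)).trans (by norm_num)
  have d3 : C * (t ^ 2) ^ 2 * (8 / 5 * X) ^ (3 / 4 : ℝ) ≤ c / 8 * X / p := by
    rw [le_div_iff₀ (by linarith), ← e1]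
    rw [← e1] at d2
    calc _ ≤ C * (t ^ 2) ^ 2 * (2 * t ^ 30) * t := by gcongr
      _ = 16 * C * t ^ 35 / 8 := by ring
      _ ≤ t * c * t ^ 39 / 8 := by gcongr; norm_num
      _ = _ := by ring
  have d4 : c * X * (1 / (4 * (p : ℝ))) ≤ ((VV (Q0 A) (6 / 5 * X) (8 / 5 * X)).card : ℝ) *
      (1 / ((p : ℝ) + 1) * (1 - 1 / ((q : ℝ) + 1))) :=
    mul_le_mul (le_trans (by nlinarith) c1) d1 (by positivity) (Nat.cast_nonneg _)
  have d5 : c * X * (1 / (4 * (p : ℝ))) = 2 * (c / 8 * X / p) := by ring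
  rw [e3]
  linarith [(abs_le.1 key).1]

end Pool.Agent.P.MP_8be758_nt.Pd
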