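import Pool.Agent.P.MP_8be758_nt.Pd.IfM

/-! Step PRB. -/

namespace Pool.Agent.P.MP_8be758_nt.Pd

open Finset Real Filter
open Pool.Agent.P.MP_8be758_nt.Par (nq mul cj det io et)
open Pool.Agent.P.MP_8be758_nt.Avg (rho)
open Pool.Agent.P.MP_8be758_nt.Pd.Mr

theorem p_PRB (hBIJ : S_BIJ) :
    S_PRB := by
  intro A σ p q hA H hp hq
  have hβ : (σ.β : ℤ) ≠ 0 := by have := H.1; omega
  have key : ∀ v : V2, ∃ w : V2, Pr v → Dv A p (cj (σ.γ p)) v → ∃ u : V2,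
      (σ.β : ℤ) • v = mul A (σ.γ p) u ∧ (σ.β : ℤ) • w = mul A (σ.γ q) u ∧
      (q : ℤ) • u = mul A (cj (σ.γ q)) w ∧ (Pr w ∨ ∃ v : V2, Pr v ∧ w = (q : ℤ) • v) := fun v => by
    by_cases h : Pr v ∧ Dv A p (cj (σ.γ p)) v
    · obtain ⟨u, h1, h2, -⟩ := (hBIJ A σ p hA H hp).2 v h.1 h.2
      obtain ⟨w, h3⟩ := (hBIJ A σ q hA H hq).1 u h1
      exact ⟨w, fun _ _ => ⟨u, h2, h3⟩⟩
    · exact ⟨0, fun h1 h2 => (h ⟨h1, h2⟩).elim⟩
  choose φ hφ using key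
  refine ⟨φ, fun v hv v' hv' e => ?_, fun v h1 h2 h3 => ?_⟩
  · obtain ⟨u, a1, a2, -⟩ := hφ v hv.1 hv.2.1
    obtain ⟨u', b1, b2, -⟩ := hφ v' hv'.1 hv'.2.1
    rw [e, b2] at a2
    rw [← mul_inj hA (H.ne hq) a2, ← b1] at a1
    exact smul_right_injective _ hβ a1
  obtain ⟨u, a1, a2, a3, a4⟩ := hφ v h1 h2
  have b1 : Pr (φ v) := a4.resolve_right fun ⟨v0, _, e⟩ => h3 (dv_iff.2 ⟨mul A (σ.γ p) v0,
    smul_right_injective _ hβ (show (σ.β : ℤ) • _ = (σ.β : ℤ) • _ by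
      rw [← mul_sm, ← e, ← mul_sm, ← mul_sm, a1, a2, mul_lc])⟩)
  have b2 : p * nq A (φ v) = q * nq A v := by
    have c1 := congrArg (nq A) a1
    have c2 := congrArg (nq A) a2
    rw [Par.nq_smul, Par.nq_mul, (H.gp hp).2.2] at c1
    rw [Par.nq_smul, Par.nq_mul, (H.gp hq).2.2] at c2
    exact mul_left_cancel₀ (pow_ne_zero 2 hβ) (by linear_combination p * c2 - q * c1)
  refine ⟨b1, dv_iff.2 ⟨u, a3⟩, b2, ?_, fun k => ?_⟩
  · have c := congrArg lam b2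
    rwa [lam_mul (by exact_mod_cast (H.gp hp).1.ne_zero) (Par.nq_pos hA (pr_ne b1)).ne',
      lam_mul (by exact_mod_cast (H.gp hq).1.ne_zero) (Par.nq_pos hA (pr_ne h1)).ne',
      lam_prime (H.gp hp).1, lam_prime (H.gp hq).1, neg_one_mul, neg_one_mul, neg_inj] at c
  · rw [← ek_smul hβ k (φ v), ← ek_smul hβ k v, a1, a2, ek_mul hA, ek_mul hA]
    ring

end Pool.Agent.P.MP_8be758_nt.Pd
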