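import Pool.Agent.P.MP_8be758_nt.Pd.If0

/-! Step PROD. -/

namespace Pool.Agent.P.MP_8be758_nt.Pd

open Finset Real Filter
open ArithmeticFunction (cardFactors)
open Pool.Agent.P.MP_8be758_nt.Par (det)
open Pool.Agent.P.MP_8be758_nt.Avg (rho)

theorem p_PROD :
    S_PROD := by
  intro Ω S D n M0 f0 f hS hM0 hf0
  induction D using Finset.induction_on with
  | empty =>
    intro _ _
    simp only [prod_empty, mul_one]
    exact ⟨hf0, trivial⟩
  | insert q D hq ih =>
    intro h1 h2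
    obtain ⟨i1, i2⟩ := ih (fun p hp => h1 p (mem_insert_of_mem hp))
      (fun p hp r hr => h2 p (mem_insert_of_mem hp) r (mem_insert_of_mem hr))
    obtain ⟨q1, q2, q3⟩ := h1 q (mem_insert_self q D)
    have e1 : M0 * ∏ p ∈ insert q D, n p = (M0 * ∏ p ∈ D, n p) * n q := by
      rw [prod_insert hq]; ring
    have e2 : (fun x => f0 x * ∏ p ∈ insert q D, f p x) =
        fun x => (f0 x * ∏ p ∈ D, f p x) * f q x := by
      funext x; rw [prod_insert hq]; ring
    have hpos : 0 < M0 * ∏ p ∈ D, n p :=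
      Nat.mul_pos hM0 (prod_pos fun p hp => (h1 p (mem_insert_of_mem hp)).1)
    have hcop : (M0 * ∏ p ∈ D, n p).Coprime (n q) := by
      refine Nat.Coprime.mul_left q2 (Nat.Coprime.prod_left fun p hp => ?_)
      exact h2 p (mem_insert_of_mem hp) q (mem_insert_self q D) (fun h => hq (h ▸ hp))
    rw [e1, e2]
    refine ⟨fun x y hxy => ?_, ?_⟩
    · have a1 := i1 x y (hS.2.1 _ _ (Dvd.intro _ rfl) x y hxy)
      have a2 := q3 x y (hS.2.1 _ _ (Dvd.intro_left _ rfl) x y hxy)
      simp only at a1 ⊢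
      rw [a1, a2]
    · rw [hS.2.2 _ _ _ _ hpos q1 hcop i1 q3, i2, prod_insert hq]
      ring

end Pool.Agent.P.MP_8be758_nt.Pd
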