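import Pool.Agent.P.MP_8be758_nt.Pd.IfM

/-! Step RAM0. -/

namespace Pool.Agent.P.MP_8be758_nt.Pd

open Finset Real Filter
open Pool.Agent.P.MP_8be758_nt.Par (nq mul cj det io et)
open Pool.Agent.P.MP_8be758_nt.Avg (rho)
open Pool.Agent.P.MP_8be758_nt.Pd.Mr

theorem RAM0_term {A : ℕ} {σ : Mr.St} {p : ℕ} (hA : 2 ≤ A) (H : σ.OK A) (hp : p ∈ σ.S) (k : ℤ)
    {c : ℤ} (hc : c ≠ 0) {u w : V2} (hu : u ≠ 0) (e : c • w = mul A (σ.γ p) u) :
    (σ.sg : ℂ) * ((fl A w : ℂ) * ek A k w) = ek A k (σ.γ p) * ((fl A u : ℂ) * ek A k u) := by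
  have hβ : (σ.β : ℤ) ≠ 0 := by have := H.1; omega
  have hq := (H.gp hp).1
  have e1 : ek A k w = ek A k (σ.γ p) * ek A k u := by rw [← ek_mul hA, ← e, ek_smul hc]
  have e2 : fl A (σ.γ p) = σ.sg := by
    rw [fl, (H.gp hp).2.2, lam_mul hβ (by exact_mod_cast hq.ne_zero), lam_prime hq, Mr.St.sg]
    ring
  have e3 : fl A w = σ.sg * fl A u := by rw [← e2, ← fl_mul hA (H.ne hp) hu, ← e, fl_smul hc]
  have e4 : σ.sg * fl A w = fl A u := by rw [e3, ← mul_assoc, Mr.St.sg_sq, one_mul]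
  rw [← e4, e1]
  push_cast
  ring

theorem RAM0_nq {A : ℕ} {σ : Mr.St} {p : ℕ} (H : σ.OK A) (hp : p ∈ σ.S)
    {u w : V2} (e : (σ.β : ℤ) • w = mul A (σ.γ p) u) :
    (σ.β : ℝ) * (nq A w : ℝ) = p * (nq A u : ℝ) := by
  have hβ : (σ.β : ℤ) ≠ 0 := by have := H.1; omega
  have h := congrArg (nq A) e
  rw [Par.nq_smul, Par.nq_mul, (H.gp hp).2.2] at h
  have : (σ.β : ℤ) * nq A w = p * nq A u := mul_left_cancel₀ hβ (by linear_combination h)
  exact_mod_cast this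

theorem RAM0_rng {β p X F a b : ℝ} (hβ : 0 < β) (hp : 0 < p) (e : β * a = p * b) :
    (β * X / F < b ∧ b ≤ 2 * β * X / F) ↔ (X * p / F < a ∧ a ≤ 2 * X * p / F) := by
  have e1 : β * (X * p / F) = p * (β * X / F) := by ring
  have e2 : β * (2 * X * p / F) = p * (2 * β * X / F) := by ring
  rw [← mul_lt_mul_iff_right₀ hβ (b := X * p / F), ← mul_le_mul_iff_right₀ hβ (b := a), e1, e2, e,
    mul_lt_mul_iff_right₀ hp, mul_le_mul_iff_right₀ hp]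

theorem p_RAM0 (hBIJ : S_BIJ) :
    S_RAM0 := by
  classical
  intro A σ p X k hA H hp hX
  obtain ⟨b1, b2⟩ := hBIJ A σ p hA H hp
  have hβ : (σ.β : ℤ) ≠ 0 := by have := H.1; omega
  have hβ' : (0 : ℝ) < σ.β := by exact_mod_cast H.1
  have hq := (H.gp hp).1
  have hp0 : (p : ℤ) ≠ 0 := by exact_mod_cast hq.ne_zero
  have hp1 : (1 : ℝ) ≤ p := by exact_mod_cast hq.one_le
  have hF := H.one_le_Ph (σ.blk p)
  have hg := H.ne hp
  have hW : ∀ u ∈ σ.W A X (σ.blk p), u ≠ 0 := fun u hu => (H.sm_W hA hX.le _ u hu).1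
  rw [FS, FS, FS, mul_add, mul_sum, mul_sum, mul_sum, ← sum_filter_add_sum_filter_not _
    (fun u => ∃ w : V2, Mr.Pr w ∧ (σ.β : ℤ) • w = mul A (σ.γ p) u)]
  congr 1
  · symm
    have c1 : ∀ v ∈ (VV (Q0 A) 0 (4 * X)).filter fun v => Dv A p (cj (σ.γ p)) v ∧
        X * p / σ.Ph (σ.blk p) < (nq A v : ℝ) ∧ (nq A v : ℝ) ≤ 2 * X * p / σ.Ph (σ.blk p),
        ∃ u : V2, u ∈ σ.W A X (σ.blk p) ∧ (σ.β : ℤ) • v = mul A (σ.γ p) u := fun v hv => by
      obtain ⟨h1, h2, h3⟩ := mem_filter.1 hv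
      obtain ⟨u, h4, h5, -⟩ := b2 v ((mem_VV0 hA).1 h1).1 h2
      exact ⟨u, (Mr.St.mem_W hA).2
        ⟨(RAM0_rng hβ' (by linarith) (RAM0_nq H hp h5)).2 h3, h4⟩, h5⟩
    choose i hi1 hi2 using c1
    refine sum_bij i (fun v hv => mem_filter.2 ⟨hi1 v hv, v,
      ((mem_VV0 hA).1 (mem_filter.1 hv).1).1, hi2 v hv⟩) (fun v hv w hw e => ?_) (fun u hu => ?_)
      (fun v hv => RAM0_term hA H hp k hβ (hW _ (hi1 v hv)) (hi2 v hv))
    · have := hi2 v hv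
      rw [e, ← hi2 w hw] at this
      exact smul_right_injective _ hβ this
    · obtain ⟨h1, w, h2, h3⟩ := mem_filter.1 hu
      obtain ⟨h4, h5⟩ := (Mr.St.mem_W hA).1 h1
      obtain ⟨w', h6, h7, -⟩ := b1 u h5
      have e : w' = w := smul_right_injective _ hβ (h6.trans h3.symm)
      rw [e] at h7
      have h8 := (RAM0_rng hβ' (by linarith) (RAM0_nq H hp h3)).1 h4
      have h9 : 2 * X * p / σ.Ph (σ.blk p) ≤ 4 * X := by
        rw [div_le_iff₀ (by linarith)]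
        nlinarith [H.le_two_Ph hp]
      have hm : w ∈ (VV (Q0 A) 0 (4 * X)).filter fun v => Dv A p (cj (σ.γ p)) v ∧
          X * p / σ.Ph (σ.blk p) < (nq A v : ℝ) ∧ (nq A v : ℝ) ≤ 2 * X * p / σ.Ph (σ.blk p) :=
        mem_filter.2 ⟨(mem_VV0 hA).2 ⟨h2, by linarith [one_le_nq hA (pr_ne h2)], h8.2.trans h9⟩,
          dv_iff.2 ⟨u, h7⟩, h8⟩
      exact ⟨w, hm, mul_inj hA hg ((hi2 w hm).symm.trans h3)⟩
  · symm
    have c2 : ∀ v : V2, ((σ.β : ℤ) * p) • v = mul A (σ.γ p) (mul A (cj (σ.γ p)) v) := fun v => by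
      rw [mul_cj_mul, (H.gp hp).2.2]
    refine sum_bij (fun v _ => mul A (cj (σ.γ p)) v) (fun v hv => ?_) (fun v _ w _ e => ?_)
      (fun u hu => ?_) (fun v hv => RAM0_term hA H hp k (mul_ne_zero hβ hp0)
        (hW _ (mem_filter.1 hv).2) (c2 v))
    · refine mem_filter.2 ⟨(mem_filter.1 hv).2, ?_⟩
      rintro ⟨w, h1, h2⟩
      rw [← c2, mul_smul] at h2
      have e : w = (p : ℤ) • v := smul_right_injective _ hβ h2
      rw [e] at h1
      have : IsUnit (p : ℤ) := h1.isUnit_of_dvd' (Dvd.intro _ rfl) (Dvd.intro _ rfl)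
      have := hq.two_le
      rcases Int.isUnit_iff.1 ‹IsUnit (p : ℤ)› with h | h <;> omega
    · exact mul_inj hA (Par.cj_ne hA hg) e
    · obtain ⟨h1, h2⟩ := mem_filter.1 hu
      obtain ⟨h4, h5⟩ := (Mr.St.mem_W hA).1 h1
      obtain ⟨w, h6, h7, h8 | ⟨v, h8, rfl⟩⟩ := b1 u h5
      · exact absurd ⟨w, h8, h6⟩ h2
      rw [mul_sm] at h7
      have e : u = mul A (cj (σ.γ p)) v := smul_right_injective _ hp0 h7
      have h9 := ((RAM0_rng hβ' (by linarith) (RAM0_nq H hp h6)).1 h4).2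
      have h10 : 2 * X * p / σ.Ph (σ.blk p) ≤ 4 * X := by
        rw [div_le_iff₀ (by linarith)]
        nlinarith [H.le_two_Ph hp]
      have h11 := one_le_nq hA (pr_ne h8)
      rw [Par.nq_smul] at h9
      push_cast at h9
      refine ⟨v, mem_filter.2 ⟨(mem_VV0 hA).2 ⟨h8, by linarith, ?_⟩, e ▸ h1⟩, e.symm⟩
      nlinarith [mul_le_mul_of_nonneg_right (one_le_pow₀ (n := 2) hp1) (zero_le_one.trans h11)]

end Pool.Agent.P.MP_8be758_nt.Pd
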