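import Pool.Agent.P.MP_8be758_nt.Pd.If0

/-! Step DET0. -/

namespace Pool.Agent.P.MP_8be758_nt.Pd

open Finset Real Filter
open ArithmeticFunction (cardFactors)
open Pool.Agent.P.MP_8be758_nt.Par (det)
open Pool.Agent.P.MP_8be758_nt.Avg (rho)

theorem p_DET0 :
    S_DET0 := by
  intro A ψ v v' hA hF hv he ⟨c, hc⟩
  have h1 : 1 ≤ A := by omega
  have h2 : (2 : ℤ) ≤ A := by exact_mod_cast hA
  have hk := hF.ev_pos h1 hv
  have h3 := disc_eq ψ v v'
  rw [hF.1, ← he, hc] at h3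
  have c0 : c = 0 := by
    by_contra e
    have h4 : 1 ≤ c ^ 2 := (one_le_sq_iff_one_le_abs c).2 (Int.one_le_abs e)
    have h5 := mul_pos hk hk
    nlinarith [sq_nonneg (bl ψ v v'), mul_le_mul_of_nonneg_left h4 h5.le,
      mul_nonneg (sub_nonneg.2 h2) (sq_nonneg (ev ψ v * c))]
  have h6 : (bl ψ v v' - 2 * ev ψ v) * (bl ψ v v' + 2 * ev ψ v) = 0 := by
    rw [c0] at h3; linarith
  have h7 : ev ψ (v' - v) = ev ψ v + ev ψ v' - bl ψ v v' := by simp [ev, bl]; ring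
  have h8 : ev ψ (v' + v) = ev ψ v + ev ψ v' + bl ψ v v' := by simp [ev, bl]; ring
  rcases mul_eq_zero.1 h6 with h | h
  · exact .inl (sub_eq_zero.1 (by_contra fun e => by linarith [hF.ev_pos h1 e]))
  · exact .inr (eq_neg_of_add_eq_zero_left (by_contra fun e => by linarith [hF.ev_pos h1 e]))

end Pool.Agent.P.MP_8be758_nt.Pd
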