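import Pool.Agent.P.MP_8be758_nt.Pd.IfH
import Pool.Agent.P.MP_8be758_nt.Pd.TDET0
import Pool.Agent.P.MP_8be758_nt.Avg.ROOT

/-! Step ROOT. -/

namespace Pool.Agent.P.MP_8be758_nt.Pd

open Finset Real Filter
open Pool.Agent.P.MP_8be758_nt.Par (det)
open Pool.Agent.P.MP_8be758_nt.Avg (rho)

theorem ROOT_rr (A b : ℕ) (hs : Squarefree b) : rho A b = ∏ p ∈ b.primeFactors, rho A p := by
  induction b using induction_on_primes with
  | zero => exact absurd hs not_squarefree_zero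
  | one => simp [Avg.rho_one]
  | prime_mul p a hp ih =>
    obtain ⟨h1, -, h3⟩ := Nat.squarefree_mul_iff.1 hs
    rw [Avg.root_mul A p a h1, ih h3, h1.primeFactors_mul, prod_union h1.disjoint_primeFactors,
      hp.primeFactors, prod_singleton]

theorem ROOT_ex {A : ℕ} {ψ : Fm} (hF : IsF A ψ) {v : V2} (hs : Squarefree (ev ψ v)) :
    ∃ (n : ℤ) (w : V2), det v w = 1 ∧ bl ψ v w = 2 * n + 1 ∧ n ^ 2 + n + A = ev ψ v * ev ψ w := by
  have h1 : IsRelPrime v.1 v.2 := fun d ⟨a, ha⟩ ⟨b, hb⟩ =>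
    hs d ⟨ev ψ (a, b), by simp only [ev, ha, hb]; ring⟩
  obtain ⟨a, b, e⟩ := h1.isCoprime
  have h2 : det v (-b, a) = 1 := by simp only [det]; linarith
  have h3 := disc_eq ψ v (-b, a)
  rw [hF.1, h2] at h3
  obtain ⟨n, h | h⟩ := Int.even_or_odd' (bl ψ v (-b, a)) <;> rw [h] at h3
  · have : 4 * (n ^ 2 - ev ψ v * ev ψ (-b, a) + A) = 1 := by linarith
    omega
  · exact ⟨n, _, h2, h, by linarith⟩

theorem p_ROOT :
    S_ROOT := by
  intro A ψ k S hA hF hk hs hp hS
  lift k to ℕ using hk.le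
  have : NeZero k := ⟨by omega⟩
  rw [rr, ← ROOT_rr A _ hs, Int.natAbs_natCast, Avg.root_zmod]
  choose! n w h1 h2 h3 using fun v (hv : v ∈ S) =>
    ROOT_ex hF (v := v) (by rw [(hS v hv).1]; exact Int.squarefree_natAbs.1 hs)
  refine card_le_card_of_injOn (fun v => (n v : ZMod k)) (fun v hv => ?_) fun v hv v' hv' e => ?_
  · have := congrArg (Int.cast : ℤ → ZMod k) (h3 v hv)
    rw [(hS v hv).1] at this
    simpa using this
  obtain ⟨m, hm⟩ := ((ZMod.intCast_eq_intCast_iff _ _ _).1 e).dvd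
  obtain ⟨a1, a2⟩ := hS v hv
  obtain ⟨b1, b2⟩ := hS v' hv'
  have c1 : det v (w v) * bl ψ v v' = bl ψ v (w v) * det v v' - 2 * ev ψ v * det (w v) v' := by
    simp only [det, bl, ev]; ring
  have c2 : det v' (w v') * bl ψ v v' = 2 * ev ψ v' * det v (w v') - bl ψ v' (w v') * det v v' := by
    simp only [det, bl, ev]; ring
  rw [h1 v hv, h2 v hv, a1] at c1
  rw [h1 v' hv', h2 v' hv', b1] at c2
  have c3 : (k : ℤ) ∣ (2 * n v + 1) * det v v' :=
    ⟨det (w v) v' + det v (w v') - m * det v v', mul_left_cancel₀ two_ne_zero (by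
      linear_combination c2 - c1 - 2 * det v v' * hm)⟩
  have c4 : IsCoprime (k : ℤ) (2 * n v + 1) :=
    Int.isCoprime_iff_nat_coprime.2 (Nat.coprime_of_dvd fun p p1 p2 p3 => by
      have q2 := Int.natCast_dvd.2 p2
      have q3 := Int.natCast_dvd.2 p3
      have q4 : (p : ℤ) ∣ 4 * A - 1 := by
        rw [show (4 * A - 1 : ℤ) = k * (4 * ev ψ (w v)) - (2 * n v + 1) * (2 * n v + 1) by
          linear_combination 4 * h3 v hv + 4 * ev ψ (w v) * a1]
        exact (q2.mul_right _).sub (q3.mul_right _)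
      have := Int.le_of_dvd (by omega) q4
      have := hp p p1 q2
      omega)
  rcases p_DET0 A ψ v v' hA hF (by rintro rfl; simp at a2) (a1.trans b1.symm)
    (a1 ▸ c4.dvd_of_dvd_mul_left c3) with h | h
  · exact h.symm
  · rw [h, Prod.fst_neg] at b2
    omega

end Pool.Agent.P.MP_8be758_nt.Pd
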