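import Pool.Agent.P.MP_8be758_nt.Pd.IfM
import Pool.Agent.P.MP_8be758_nt.Par.Main

/-! Step SGN. -/

namespace Pool.Agent.P.MP_8be758_nt.Pd

open Finset Real Filter
open Pool.Agent.P.MP_8be758_nt.Par (nq mul cj det io et)
open Pool.Agent.P.MP_8be758_nt.Avg (rho)
open Pool.Agent.P.MP_8be758_nt.Pd.Mr

theorem SGN_fl (A n : ℕ) : fl A (n, 1) = lam ((n ^ 2 + n + A : ℕ) : ℤ) := by
  simp [fl, nq]

theorem SGN_odd {A : ℕ} (hA : 2 ≤ A) :
    ∃ x : ℕ, 4 ≤ x ∧ Odd (ArithmeticFunction.cardFactors (x ^ 2 + x + A)) := by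
  obtain ⟨c, hc, h⟩ := Par.main hA
  have h2 := tendsto_natCast_atTop_atTop.eventually
    ((Real.isLittleO_pow_log_id_atTop (n := 112)).bound (c := c / 5) (by positivity))
  obtain ⟨N, h3, h4, h5⟩ := (h.and (h2.and (eventually_ge_atTop 2))).exists
  by_contra hn
  have hN : (2 : ℝ) ≤ N := by exact_mod_cast h5
  have hl : 0 < log (N : ℝ) ^ 112 := pow_pos (Real.log_pos (by linarith)) _
  have h6 : {x ∈ range (N + 1) | Odd (ArithmeticFunction.cardFactors (x ^ 2 + x + A))} ⊆ range 4 :=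
    fun x hx => mem_range.2 (not_le.1 fun h4 => hn ⟨x, h4, (mem_filter.1 hx).2⟩)
  have h7 := card_le_card h6
  rw [card_range] at h7
  have h8 : (({x ∈ range (N + 1) |
      Odd (ArithmeticFunction.cardFactors (x ^ 2 + x + A))}.card : ℕ) : ℝ) ≤ 4 := by exact_mod_cast h7
  have h9 := h3.trans h8
  rw [div_le_iff₀ hl] at h9
  rw [Real.norm_eq_abs, Real.norm_eq_abs, abs_of_pos hl, id, abs_of_pos (by linarith)] at h4
  have : 0 < c * N := by positivity
  linarith

theorem p_SGN :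
    S_SGN := by
  intro A hA
  by_contra hn
  have h1 : ∀ n : ℕ, 4 ≤ n → fl A (n, 1) = fl A ((4 : ℕ), 1) := by
    intro n h
    induction n, h using Nat.le_induction with
    | base => rfl
    | succ n h ih =>
      rw [← ih]
      by_contra hne
      exact hn ⟨n, h, fun e => hne (by rw [e]; push_cast; rfl)⟩
  have h2 : fl A ((4 : ℕ), 1) = 1 := by
    have e1 := h1 5 (by norm_num)
    have e2 := h1 (24 + A) (by omega)
    rw [SGN_fl] at e1 e2
    have e3 : (((24 + A) ^ 2 + (24 + A) + A : ℕ) : ℤ) =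
        ((4 ^ 2 + 4 + A : ℕ) : ℤ) * ((5 ^ 2 + 5 + A : ℕ) : ℤ) := by
      push_cast
      ring
    rw [e3, lam_mul (by positivity) (by positivity), e1, ← SGN_fl, fl_sq] at e2
    exact e2.symm
  obtain ⟨x, hx, ho⟩ := SGN_odd hA
  have h3 := (h1 x hx).trans h2
  rw [SGN_fl, lam, Int.natAbs_natCast, ho.neg_one_pow] at h3
  norm_num at h3

end Pool.Agent.P.MP_8be758_nt.Pd
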