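import Pool.Agent.P.MP_8be758_nt.Pd.IfM

/-! Step ST0. -/

namespace Pool.Agent.P.MP_8be758_nt.Pd

open Finset Real Filter
open Pool.Agent.P.MP_8be758_nt.Par (nq mul cj det io et)
open Pool.Agent.P.MP_8be758_nt.Avg (rho)
open Pool.Agent.P.MP_8be758_nt.Pd.Mr

theorem p_ST0 (hMVP : S_MVP) (hRAM1 : S_RAM1) (hRAM2 : S_RAM2) :
    S_ST0 := by
  intro A hA
  obtain ⟨Cp, hCp, hM⟩ := hMVP
  obtain ⟨C2, hC2, h2⟩ := hRAM2 A hA
  refine ⟨10 * Cp * C2, by positivity, fun σ X K hσ hX hE hH hQ hK => ?_⟩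
  obtain ⟨a, ha, h1⟩ := hRAM1 A σ X hA hσ (by linarith)
  have hE0 : 0 < σ.E := by linarith
  have hH0 : 0 < σ.H := by linarith [hσ.2.2.2.2.1]
  set R : ℤ → ℂ := fun k => ∑ v ∈ VV (Q0 A) 0 (4 * X), (a v : ℂ) * ek A k v with hR
  have hRb : ∑ k ∈ K, ‖R k‖ ^ 2 ≤ Cp * (5 * X) * (C2 * X * (σ.E + σ.E ^ 2 / σ.H)) := by
    refine (hM A a K X (4 * X) hA (by linarith) (by linarith) hK).trans ?_
    rw [show X + 4 * X = 5 * X by ring]
    refine mul_le_mul_of_nonneg_left (le_trans (sum_le_sum fun v _ => ?_)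
      (h2 σ X hσ hX hE hH hQ)) (by positivity)
    rw [← sq_abs (a v)]
    exact pow_le_pow_left₀ (abs_nonneg _) (ha v) 2
  have hk : ∀ k, ‖FX A X k‖ ^ 2 ≤
      2 * σ.nb * ∑ h ∈ range σ.nb, ‖σ.G A h k‖ ^ 2 * ‖FS A (σ.W A X h) k‖ ^ 2 +
        2 / σ.E ^ 2 * ‖R k‖ ^ 2 := fun k => by
    set S : ℂ := ∑ h ∈ range σ.nb, σ.G A h k * FS A (σ.W A X h) k with hS
    have e1 : σ.E * ‖FX A X k‖ ≤ ‖S‖ + ‖R k‖ := by
      have := congrArg norm (h1 k)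
      rw [norm_mul, Complex.norm_real, Real.norm_eq_abs, abs_of_pos hE0] at this
      rw [this]
      refine (norm_add_le _ _).trans (le_of_eq ?_)
      rw [norm_mul, Complex.norm_real, Real.norm_eq_abs, St.abs_sg, one_mul]
    have e2 : ‖S‖ ^ 2 ≤ σ.nb * ∑ h ∈ range σ.nb, ‖σ.G A h k‖ ^ 2 * ‖FS A (σ.W A X h) k‖ ^ 2 := by
      refine (pow_le_pow_left₀ (norm_nonneg _) (norm_sum_le _ _) 2).trans
        (sq_sum_le_card_mul_sum_sq.trans (le_of_eq ?_))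
      rw [card_range]
      congr 1
      exact sum_congr rfl fun h _ => by rw [norm_mul, mul_pow]
    have e3 : ‖FX A X k‖ ≤ ‖S‖ + ‖R k‖ / σ.E := by
      have e4 : ‖S‖ ≤ σ.E * ‖S‖ := le_mul_of_one_le_left (norm_nonneg _) hE
      refine le_of_mul_le_mul_left ?_ hE0
      rw [mul_add, mul_div_cancel₀ _ hE0.ne']
      linarith
    have e5 := pow_le_pow_left₀ (norm_nonneg _) e3 2
    have e6 : 2 / σ.E ^ 2 * ‖R k‖ ^ 2 = 2 * (‖R k‖ / σ.E) ^ 2 := by field_simp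
    rw [e6]
    nlinarith [sq_nonneg (‖S‖ - ‖R k‖ / σ.E)]
  refine (sum_le_sum fun k _ => hk k).trans ?_
  rw [sum_add_distrib, ← mul_sum, ← mul_sum, sum_comm]
  refine add_le_add le_rfl ((mul_le_mul_of_nonneg_left hRb (by positivity)).trans (le_of_eq ?_))
  field_simp
  ring

end Pool.Agent.P.MP_8be758_nt.Pd
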