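import Pool.Agent.P.MP_8be758_nt.Pd.IfM

/-! Step SUBL. -/

namespace Pool.Agent.P.MP_8be758_nt.Pd

open Finset Real Filter
open Pool.Agent.P.MP_8be758_nt.Par (nq mul cj det io et)
open Pool.Agent.P.MP_8be758_nt.Avg (rho)
open Pool.Agent.P.MP_8be758_nt.Pd.Mr

theorem SUBL_int (S : Finset ℤ) (a s : ℝ) (hs : 0 ≤ s) (h : ∀ x ∈ S, |(x : ℝ) - a| ≤ s) :
    (S.card : ℝ) ≤ 2 * s + 1 := by
  have h1 : S ⊆ Icc ⌈a - s⌉ ⌊a + s⌋ := fun x hx => by
    obtain ⟨b, c⟩ := abs_le.1 (h x hx)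
    exact mem_Icc.2 ⟨Int.ceil_le.2 (by linarith), Int.le_floor.2 (by linarith)⟩
  have h2 := card_le_card h1
  rw [Int.card_Icc] at h2
  rcases le_total (⌊a + s⌋ + 1 - ⌈a - s⌉) 0 with h3 | h3
  · rw [Int.toNat_of_nonpos h3] at h2
    rw [Nat.le_zero.1 h2, Nat.cast_zero]
    linarith
  · have h4 : ((S.card : ℤ) : ℝ) ≤ ((⌊a + s⌋ + 1 - ⌈a - s⌉ : ℤ) : ℝ) := by
      exact_mod_cast (Int.le_toNat h3).1 h2
    push_cast at h4
    linarith [Int.floor_le (a + s), Int.le_ceil (a - s)]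

theorem SUBL_line (T : Finset V2) (al be : ℂ) (B R s : ℝ) (hR : 0 ≤ R) (hs : 0 ≤ s) (hB : 0 ≤ B)
    (h1 : 1 ≤ B * ‖al‖) (h : ∀ v ∈ T, |(v.2 : ℝ)| ≤ R ∧ ‖v.1 * al + v.2 * be‖ ≤ s) :
    (T.card : ℝ) ≤ (2 * R + 1) * (2 * (s * B) + 1) := by
  have a0 : al ≠ 0 := fun e => by
    rw [e, norm_zero, mul_zero] at h1
    linarith
  rw [card_eq_sum_card_image Prod.snd, Nat.cast_sum]
  refine (sum_le_card_nsmul _ _ (2 * (s * B) + 1) fun y _ => ?_).trans ?_
  · rw [← card_image_of_injOn (f := Prod.fst) fun v hv w hw e =>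
      Prod.ext e ((mem_filter.1 hv).2.trans (mem_filter.1 hw).2.symm)]
    refine SUBL_int _ (-(y * be / al).re) _ (by positivity) fun x hx => ?_
    obtain ⟨v, hv, rfl⟩ := mem_image.1 hx
    obtain ⟨h2, rfl⟩ := mem_filter.1 hv
    have h3 := Complex.abs_re_le_norm ((v.1 * al + v.2 * be) / al)
    rw [norm_div, add_div, mul_div_cancel_right₀ _ a0, Complex.add_re, Complex.intCast_re] at h3
    rw [sub_neg_eq_add]
    refine h3.trans ((div_le_iff₀ (norm_pos_iff.2 a0)).2 ((h v h2).2.trans ?_))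
    rw [mul_assoc]
    exact le_mul_of_one_le_right hs h1
  · rw [nsmul_eq_mul]
    refine mul_le_mul_of_nonneg_right (SUBL_int _ 0 R hR fun y hy => ?_) (by positivity)
    obtain ⟨v, hv, rfl⟩ := mem_image.1 hy
    simpa using (h v hv).1

theorem p_SUBL :
    S_SUBL := by
  intro A j hA hj
  refine ⟨5 * j * (4 * (A + 1) + 1), by positivity, fun R w hR hw _ => ?_⟩
  have hp := Complex.isPrimitiveRoot_exp j (by omega)
  have R0 : 0 < R := by linarith
  have hsub : ((An (Q0 A) 0 (R ^ 2)).filter fun v => |(io A v ^ j).im| ≤ (w * R) ^ j) ⊆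
      (Polynomial.nthRootsFinset j (1 : ℂ)).biUnion fun ζ => (An (Q0 A) 0 (R ^ 2)).filter
        fun v => ‖io A v - ζ * (starRingEnd ℂ) (io A v)‖ ≤ 2 * (w * R) := by
    intro v hv
    obtain ⟨h1, h2⟩ := mem_filter.1 hv
    simp only [mem_biUnion, mem_filter, h1, true_and]
    by_contra hc
    push Not at hc
    have h3 := prod_lt_prod_of_nonempty (f := fun _ => 2 * (w * R)) (fun _ _ => by positivity) hc
      (card_pos.1 (by rw [hp.card_nthRootsFinset]; omega))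
    rw [prod_const, hp.card_nthRootsFinset, ← norm_prod,
      ← hp.pow_sub_pow_eq_prod_sub_mul _ _ (by omega), ← map_pow, Complex.sub_conj, norm_mul,
      Complex.norm_I, Complex.norm_real, Real.norm_eq_abs, abs_mul, abs_two, mul_one, mul_pow] at h3
    have h4 : (2 : ℝ) ≤ 2 ^ j := le_self_pow₀ one_le_two (by omega)
    have h5 : 0 < (w * R) ^ j := by positivity
    nlinarith
  have hb : ∀ ζ ∈ Polynomial.nthRootsFinset j (1 : ℂ), (((An (Q0 A) 0 (R ^ 2)).filter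
      fun v => ‖io A v - ζ * (starRingEnd ℂ) (io A v)‖ ≤ 2 * (w * R)).card : ℝ) ≤
      (2 * (2 * R) + 1) * (2 * (2 * (w * R) * (A + 1)) + 1) := by
    intro ζ _
    have e : ∀ v : V2, io A v - ζ * (starRingEnd ℂ) (io A v) =
        v.1 * (1 - ζ) + v.2 * (Par.om A - ζ * (starRingEnd ℂ) (Par.om A)) := fun v => by
      simp only [io, map_add, map_mul, map_intCast]
      ring
    have b : ∀ v ∈ An (Q0 A) 0 (R ^ 2), |(v.1 : ℝ)| ≤ 2 * R ∧ |(v.2 : ℝ)| ≤ 2 * R := fun v hv => by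
      have h1 := ((mem_An0 hA).1 hv).2
      obtain ⟨h2, h3⟩ := Par.sq_le_nq hA v
      have h2 : (v.1 : ℝ) ^ 2 ≤ 4 * nq A v := by exact_mod_cast h2
      have h3 : 7 * (v.2 : ℝ) ^ 2 ≤ 4 * nq A v := by exact_mod_cast h3
      constructor <;> refine abs_le_of_sq_le_sq' ?_ (by linarith) |> abs_le.2 <;>
        nlinarith [sq_nonneg (v.2 : ℝ)]
    by_cases h : 1 ≤ (A + 1) * ‖1 - ζ‖
    · refine SUBL_line _ _ (Par.om A - ζ * (starRingEnd ℂ) (Par.om A)) _ _ _ (by positivity)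
        (by positivity) (by positivity) h fun v hv => ?_
      exact ⟨(b v (mem_filter.1 hv).1).2, e v ▸ (mem_filter.1 hv).2⟩
    · have h1 : 1 ≤ ‖Par.om A - (starRingEnd ℂ) (Par.om A)‖ := by
        have h2 : (2 : ℝ) ≤ A := by exact_mod_cast hA
        rw [Complex.sub_conj, norm_mul, Complex.norm_I, Complex.norm_real, Real.norm_eq_abs, mul_one]
        refine le_trans ?_ (le_abs_self _)
        have : 1 ≤ √(4 * (A : ℝ) - 1) := Real.one_le_sqrt.2 (by linarith)
        simp only [Par.om]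
        linarith
      have h2 := norm_sub_le (Par.om A - ζ * (starRingEnd ℂ) (Par.om A))
        ((1 - ζ) * (starRingEnd ℂ) (Par.om A))
      rw [show Par.om A - ζ * (starRingEnd ℂ) (Par.om A) - (1 - ζ) * (starRingEnd ℂ) (Par.om A) =
        Par.om A - (starRingEnd ℂ) (Par.om A) by ring, norm_mul, Complex.norm_conj] at h2
      have h3 := mul_le_mul_of_nonneg_left (Par.norm_om_le hA) (norm_nonneg (1 - ζ))
      rw [← card_image_of_injective _ Prod.swap_injective]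
      refine SUBL_line _ (Par.om A - ζ * (starRingEnd ℂ) (Par.om A)) (1 - ζ) _ _ _ (by positivity)
        (by positivity) (by positivity) ?_ fun v hv => ?_
      · have h4 : (0 : ℝ) ≤ A := by positivity
        nlinarith
      · obtain ⟨u, hu, rfl⟩ := mem_image.1 hv
        refine ⟨(b u (mem_filter.1 hu).1).1, ?_⟩
        rw [Prod.fst_swap, Prod.snd_swap, add_comm, ← e]
        exact (mem_filter.1 hu).2
  have h1 : _ ≤ (_ : ℝ) := Nat.cast_le.2 ((card_le_card hsub).trans card_biUnion_le)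
  rw [Nat.cast_sum] at h1
  refine h1.trans ((sum_le_card_nsmul _ _ _ hb).trans ?_)
  rw [hp.card_nthRootsFinset, nsmul_eq_mul]
  calc (j : ℝ) * ((2 * (2 * R) + 1) * (2 * (2 * (w * R) * (A + 1)) + 1))
      ≤ j * (5 * R * ((4 * (A + 1) + 1) * (w * R + 1))) := by
        have : 0 ≤ w * R := by positivity
        have : (0 : ℝ) ≤ A := by positivity
        gcongr <;> nlinarith
    _ = _ := by ring

end Pool.Agent.P.MP_8be758_nt.Pd
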