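import Pool.Agent.P.MP_8be758_nt.Pd.IfM

/-! Step THUE. -/

namespace Pool.Agent.P.MP_8be758_nt.Pd

open Finset Real Filter
open Pool.Agent.P.MP_8be758_nt.Par (nq mul cj det io et)
open Pool.Agent.P.MP_8be758_nt.Avg (rho)
open Pool.Agent.P.MP_8be758_nt.Pd.Mr

theorem p_THUE (hRED : S_RED) :
    S_THUE := by
  intro A p hA hp h1
  obtain ⟨n, hn⟩ := card_pos.1 h1
  obtain ⟨m, hm⟩ := (mem_filter.1 hn).2
  have hm' : (n : ℤ) ^ 2 + n + A = p * m := by exact_mod_cast hm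
  obtain ⟨⟨a, b, c⟩, h2, ⟨⟨x, y⟩, g2⟩, -, h3⟩ := hRED A (p, 2 * n + 1, m) (by omega)
    ⟨by simp only; linear_combination 4 * hm', by simpa using hp.pos⟩
  simp only [Red, mem_filter, mem_product, mem_Icc, IsF] at h2
  obtain ⟨⟨⟨a1, a2⟩, -⟩, h4, -⟩ := h2
  have h5 : a * x ^ 2 + b * x * y + c * y ^ 2 = p := congrArg Prod.fst h3
  have h6 : Odd (b ^ 2) := ⟨2 * (a * c - A), by linear_combination h4⟩
  obtain ⟨b', rfl⟩ := (Int.odd_pow' two_ne_zero).1 h6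
  have h7 : a * c = b' ^ 2 + b' + A := by linarith
  refine ⟨a.toNat, (a * x + b' * y, y), by omega, by omega, ?_⟩
  rw [Int.toNat_of_nonneg (by omega), nq]
  linear_combination a * h5 - y ^ 2 * h7

end Pool.Agent.P.MP_8be758_nt.Pd
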