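import Pool.Agent.P.MP_8be758_nt.Pd.If0

/-! Step TRI. -/

namespace Pool.Agent.P.MP_8be758_nt.Pd

open Finset Real Filter
open ArithmeticFunction (cardFactors)
open Pool.Agent.P.MP_8be758_nt.Par (det)
open Pool.Agent.P.MP_8be758_nt.Avg (rho)

theorem TRI_w (ψ : Fm) (v : V2) (hv : IsCoprime v.1 v.2) (hP : 0 < ev ψ v) :
    ∃ w : V2, det v w = 1 ∧ ev ψ v < bl ψ v w ∧ bl ψ v w ≤ 3 * ev ψ v := by
  obtain ⟨a, b, e⟩ := hv
  have h2 : 0 < 2 * ev ψ v := by linarith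
  set k := (3 * ev ψ v - bl ψ v (-b, a)) / (2 * ev ψ v) with hk
  have h3 := Int.mul_ediv_add_emod (3 * ev ψ v - bl ψ v (-b, a)) (2 * ev ψ v)
  have h4 := Int.emod_nonneg (3 * ev ψ v - bl ψ v (-b, a)) h2.ne'
  have h5 := Int.emod_lt_of_pos (3 * ev ψ v - bl ψ v (-b, a)) h2
  rw [← hk] at h3
  have h6 : bl ψ v (-b + k * v.1, a + k * v.2) = bl ψ v (-b, a) + 2 * ev ψ v * k := by
    simp only [bl, ev]; ring
  refine ⟨(-b + k * v.1, a + k * v.2), ?_, ?_, ?_⟩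
  · simp only [det]; linear_combination e
  · rw [h6]; linarith
  · rw [h6]; linarith

theorem TRI_mem {A : ℕ} (hA : 1 ≤ A) {X : ℝ} {g : G4} (h1 : det g.1 g.2 = 1)
    (h2 : X < (ev (Q0 A) g.1 : ℝ)) (h3 : (ev (Q0 A) g.1 : ℝ) ≤ 2 * X)
    (h4 : ev (Q0 A) g.1 < 9 * bl (Q0 A) g.1 g.2) (h5 : bl (Q0 A) g.1 g.2 ≤ 9 * ev (Q0 A) g.1)
    (h6 : lam (ev (Q0 A) g.1) * lam (ev (Q0 A) g.2) ≠ -1) : g ∈ EdBad A 9 X (-1) := by
  classical
  unfold EdBad Ed
  rw [mem_filter, mem_GG hA (isF_Q0 A)]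
  have h4' : (ev (Q0 A) g.1 : ℝ) < 9 * (bl (Q0 A) g.1 g.2 : ℝ) := by exact_mod_cast h4
  have h5' : (bl (Q0 A) g.1 g.2 : ℝ) ≤ 9 * (ev (Q0 A) g.1 : ℝ) := by exact_mod_cast h5
  exact ⟨⟨h1, h2, h3, by linarith, h5'⟩, h6⟩

theorem TRI_one {A : ℕ} (hA : 1 ≤ A) {X : ℝ} (hX : (A : ℝ) ≤ X) {v : V2}
    (hv : v ∈ VV (Q0 A) X (2 * X)) :
    (∃ g ∈ EdBad A 9 X (-1), g.1 = v) ∨ (∃ g ∈ EdBad A 9 (2 * X) (-1), g.1 - g.2 = v) ∨
    (∃ g ∈ EdBad A 9 (4 * X) (-1), g.1 - g.2 = v) ∨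
    (∃ g ∈ EdBad A 9 (8 * X) (-1), g.1 - g.2 = v) := by
  obtain ⟨h1, h2, h3⟩ := (mem_VV hA (isF_Q0 A)).1 hv
  have hA' : (1 : ℤ) ≤ A := by exact_mod_cast hA
  have hAP : (A : ℤ) < ev (Q0 A) v := by exact_mod_cast hX.trans_lt h2
  obtain ⟨w, d, b1, b2⟩ := TRI_w (Q0 A) v h1 (by linarith)
  have hR := (isF_Q0 A).ev_nonneg hA w
  have hD := disc_eq (Q0 A) v w
  rw [(isF_Q0 A).1, d] at hD
  have hR4 : ev (Q0 A) w ≤ 4 * ev (Q0 A) v := by
    by_contra hn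
    push Not at hn
    nlinarith
  have s1 : ev (Q0 A) (v + w) = ev (Q0 A) v + bl (Q0 A) v w + ev (Q0 A) w := by
    simp only [ev, bl, Prod.fst_add, Prod.snd_add]; ring
  have s2 : bl (Q0 A) v (v + w) = 2 * ev (Q0 A) v + bl (Q0 A) v w := by
    simp only [ev, bl, Prod.fst_add, Prod.snd_add]; ring
  have s3 : bl (Q0 A) (v + w) w = bl (Q0 A) v w + 2 * ev (Q0 A) w := by
    simp only [ev, bl, Prod.fst_add, Prod.snd_add]; ring
  have d2 : det v (v + w) = 1 := by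
    simp only [det, Prod.fst_add, Prod.snd_add] at d ⊢; linear_combination d
  have d3 : det (v + w) w = 1 := by
    simp only [det, Prod.fst_add, Prod.snd_add] at d ⊢; linear_combination d
  by_cases c1 : lam (ev (Q0 A) v) * lam (ev (Q0 A) w) = -1
  swap
  · exact Or.inl ⟨(v, w), TRI_mem hA d h2 h3 (by simp only; linarith) (by simp only; linarith) c1,
      rfl⟩
  by_cases c2 : lam (ev (Q0 A) v) * lam (ev (Q0 A) (v + w)) = -1
  swap
  · exact Or.inl ⟨(v, v + w), TRI_mem hA d2 h2 h3 (by simp only; linarith)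
      (by simp only; linarith) c2, rfl⟩
  have c3 : lam (ev (Q0 A) (v + w)) * lam (ev (Q0 A) w) ≠ -1 := by
    rcases lam_cases (ev (Q0 A) v) with e | e <;> rw [e] at c1 c2
    · rw [show lam (ev (Q0 A) (v + w)) = -1 by linarith, show lam (ev (Q0 A) w) = -1 by linarith]
      norm_num
    · rw [show lam (ev (Q0 A) (v + w)) = 1 by linarith, show lam (ev (Q0 A) w) = 1 by linarith]
      norm_num
  have l1 : 2 * X < (ev (Q0 A) (v + w) : ℝ) := by
    have : ((2 * ev (Q0 A) v : ℤ) : ℝ) ≤ (ev (Q0 A) (v + w) : ℝ) := by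
      exact_mod_cast (by linarith : 2 * ev (Q0 A) v ≤ ev (Q0 A) (v + w))
    push_cast at this
    linarith
  have l2 : (ev (Q0 A) (v + w) : ℝ) ≤ 16 * X := by
    have : (ev (Q0 A) (v + w) : ℝ) ≤ ((8 * ev (Q0 A) v : ℤ) : ℝ) := by
      exact_mod_cast (by linarith : ev (Q0 A) (v + w) ≤ 8 * ev (Q0 A) v)
    push_cast at this
    linarith
  have key : ∀ Y : ℝ, Y < (ev (Q0 A) (v + w) : ℝ) → (ev (Q0 A) (v + w) : ℝ) ≤ 2 * Y →
      ∃ g ∈ EdBad A 9 Y (-1), g.1 - g.2 = v := fun Y y1 y2 =>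
    ⟨(v + w, w), TRI_mem hA d3 y1 y2 (by simp only; linarith) (by simp only; linarith) c3, by simp⟩
  right
  by_cases a1 : (ev (Q0 A) (v + w) : ℝ) ≤ 4 * X
  · exact Or.inl (key _ l1 (by linarith))
  by_cases a2 : (ev (Q0 A) (v + w) : ℝ) ≤ 8 * X
  · exact Or.inr (Or.inl (key _ (by linarith) (by linarith)))
  · exact Or.inr (Or.inr (key _ (by linarith) (by linarith)))

theorem p_TRI (hCNT : S_CNT) :
    S_TRI := by
  classical
  intro A _ hA3
  have hA : 1 ≤ A := by omega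
  obtain ⟨c, N0, hc, h⟩ := hCNT A 2 hA (by norm_num)
  refine ⟨9, 8, c / 16, max N0 A, by norm_num, by norm_num, by positivity, fun X hX => ?_⟩
  have hXA : (A : ℝ) ≤ X := (le_max_right _ _).trans hX
  have hX0 : 0 < X := lt_of_lt_of_le (by exact_mod_cast hA) hXA
  have h1 := h _ (Q0_mem hA) X ((le_max_left _ _).trans hX)
  have hsub : VV (Q0 A) X (2 * X) ⊆ (EdBad A 9 X (-1)).image (fun g => g.1) ∪
      ((EdBad A 9 (2 * X) (-1)).image (fun g => g.1 - g.2) ∪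
      ((EdBad A 9 (4 * X) (-1)).image (fun g => g.1 - g.2) ∪
      (EdBad A 9 (8 * X) (-1)).image (fun g => g.1 - g.2))) := by
    intro v hv
    simp only [mem_union, mem_image]
    exact TRI_one hA hXA hv
  have h2 : (VV (Q0 A) X (2 * X)).card ≤ (EdBad A 9 X (-1)).card + ((EdBad A 9 (2 * X) (-1)).card +
      ((EdBad A 9 (4 * X) (-1)).card + (EdBad A 9 (8 * X) (-1)).card)) :=
    (card_le_card hsub).trans ((card_union_le _ _).trans (add_le_add card_image_le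
      ((card_union_le _ _).trans (add_le_add card_image_le
      ((card_union_le _ _).trans (add_le_add card_image_le card_image_le))))))
  have h3 : ((VV (Q0 A) X (2 * X)).card : ℝ) ≤ (EdBad A 9 X (-1)).card +
      ((EdBad A 9 (2 * X) (-1)).card +
      ((EdBad A 9 (4 * X) (-1)).card + (EdBad A 9 (8 * X) (-1)).card)) := by exact_mod_cast h2
  by_contra hn
  push Not at hn
  have a1 := hn X (by linarith) (by linarith)
  have a2 := hn (2 * X) (by linarith) (by linarith)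
  have a3 := hn (4 * X) (by linarith) (by linarith)
  have a4 := hn (8 * X) (by linarith) (by linarith)
  have := mul_pos hc hX0
  nlinarith

end Pool.Agent.P.MP_8be758_nt.Pd
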