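import Pool.Agent.P.MP_8be758_nt.Pd.IfN

/-! Step VERT. -/

namespace Pool.Agent.P.MP_8be758_nt.Pd

open Finset Real Filter
open Pool.Agent.P.MP_8be758_nt.Par (det)
open Pool.Agent.P.MP_8be758_nt.Avg (rho)
open scoped Classical

theorem VERT_gen (ρ : Pr) (x x' : VT) (hy : 1 ≤ ρ.y) (hC : 1 ≤ ρ.C1) (hK : 2 * ρ.K ≤ ρ.K')
    (ok : x'.Ok ρ.A) (b0 : 0 < x'.b) (b1 : (x'.b : ℝ) ≤ 30 * ρ.C1 ^ 2 * ρ.X)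
    (et : x'.t = x.t ∨ x'.t = -x.t) (es : x'.s * x'.t = x.s * x.t ∨ x'.s * x'.t = -(x.s * x.t))
    (eP : x'.P = x.Ns ∨ x'.P = x.P) (eR : x'.R = x.Nt ∨ x'.R = x.R)
    (ea : x'.a = x.a ∧ x'.af = x.af ∨ x'.a = x.af ∧ x'.af = x.a) (e6 : x'.Pi6 = x.Pi6)
    (gw : ∀ p : ℕ, p.Prime → p ≤ ρ.w → ¬(p : ℤ) ^ 2 ∣ x'.P ∨ ¬(p : ℤ) ^ 2 ∣ x'.R)
    (hv : ρ.Val x) (hg : ρ.Gd x) (P0 : 0 < x.P) (cop : IsCoprime x.a x.af)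
    (r1 : ρ.y ^ (ρ.k3 + 1) ≤ (x.t : ℝ) ^ 2) (r2 : (x.t : ℝ) ^ 2 * ρ.y ^ (ρ.k3 + 1) ≤ x.a)
    (r3 : (x.a : ℝ) ≤ ρ.y ^ (ρ.k6 + 2 * ρ.K)) (n1 : x.P ≤ x.Ns)
    (n2 : (x.Ns : ℝ) ≤ 6 * ρ.C1 ^ 2 * x.P)
    (h : ρ.X ≤ 2 * ((x.t : ℝ) * x.P) ∧ (x.t : ℝ) * x.P ≤ 2 * ρ.X ∧
      0 < x.s ∧ 0 < x.t ∧ 2 * (x.s * x.t) ≤ x.a ∧ Rg ρ.w x.a.natAbs ∧ Rg ρ.w x.af.natAbs ∧
      (ρ.fl (x.P * x.R * x.a) : ℝ) ≤ ρ.y ^ (2 * ρ.K) ∧ 39 / 20 * ρ.La ≤ ρ.om (x.P * x.R * x.a) ∧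
      (ρ.om (x.P * x.R * x.a) : ℝ) ≤ ρ.K * ρ.La ∧ ρ.si (x.P * x.R * x.a) ≤ 1 / √ρ.w ∧
      ((x.P * x.R * x.a : ℤ) : ℝ) ≤ ρ.y ^ (2 * ρ.u + 1) ∧
      (ρ.fl x.af : ℝ) ≤ ρ.y ^ (2 * ρ.K) ∧ (ρ.om x.af : ℝ) ≤ ρ.K * ρ.La ∧
      ρ.si (x.s * x.t * x.af) ≤ 3 / √ρ.w) : ρ.VOK x' := by
  obtain ⟨h1, h2, h3, h4, h5, h6, h7, h8, -, h9, h10, -, h11, h12, h13⟩ := h
  have st0 := mul_pos h3 h4
  have eaf : x.af = x.a - x.s * x.t := rfl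
  have t0 : (0 : ℝ) < x.t := by exact_mod_cast h4
  have p0 : (0 : ℝ) < x.P := by exact_mod_cast P0
  have at' : |(x'.t : ℝ)| = x.t := by rcases et with e | e <;> simp [e, abs_of_pos t0]
  have sq' : (x'.t : ℝ) ^ 2 = (x.t : ℝ) ^ 2 := by rw [← sq_abs, at']
  have c1 : 1 ≤ ρ.C1 ^ 2 := one_le_pow₀ hC
  have l1 : (x.P : ℝ) ≤ x'.P ∧ (x'.P : ℝ) ≤ 6 * ρ.C1 ^ 2 * x.P := by
    rcases eP with e | e <;> rw [e]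
    · exact ⟨by exact_mod_cast n1, n2⟩
    · exact ⟨le_rfl, by nlinarith⟩
  have X0 : 0 ≤ ρ.X := pow_nonneg (by linarith) _
  have l2 : x.a ≤ 2 * x'.a ∧ x'.a ≤ x.a ∧ x.s * x.t ≤ x'.a ∧ x'.a ≤ 2 * x'.af := by
    rcases ea with ⟨e, e'⟩ | ⟨e, e'⟩ <;> rw [e, e'] <;> omega
  have fm : ∀ m, m ∣ x.P * x.R * x.a → (ρ.fl m : ℝ) ≤ ρ.y ^ (2 * ρ.K) := fun m hm =>
    le_trans (by exact_mod_cast Nat.le_of_dvd (fl_pos ρ _) (fl_mono ρ hm)) h8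
  have yK : ρ.y ^ (2 * ρ.K) ≤ ρ.y ^ ρ.K' := pow_le_pow_right₀ hy hK
  have da : x.a ∣ x.P * x.R * x.a := dvd_mul_left _ _
  have ds : x'.s * x'.t ∣ x.s * x.t ∧ x.s * x.t ∣ x'.s * x'.t := by
    rcases es with e | e <;> simp [e]
  have tp := mul_pos t0 p0
  refine ⟨ok, b0, b1, ?_, ?_, sq' ▸ r1, ?_, ?_, ?_, l2.2.2.2, ?_, ?_, ?_, fun p hp => ?_, ?_, ?_, ?_,
    ?_, ?_, (si_mono ρ (ds.1.mul_right _)).trans h13, ?_, gw⟩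
  · have := mul_le_mul_of_nonneg_left l1.1 t0.le
    rw [at', Pr.c5]
    nlinarith
  · have := mul_le_mul_of_nonneg_left l1.2 t0.le
    have := mul_le_mul_of_nonneg_left h2 (by positivity : 0 ≤ 6 * ρ.C1 ^ 2)
    have := mul_nonneg (by positivity : 0 ≤ ρ.C1 ^ 2) X0
    rw [at', Pr.c5]
    nlinarith
  · rw [sq']
    exact r2.trans (by exact_mod_cast l2.1)
  · exact le_trans (by exact_mod_cast l2.2.1) r3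
  · rcases es with e | e <;> simpa [e, -abs_mul, abs_of_pos st0] using l2.2.2.1
  · rcases ea with ⟨e, -⟩ | ⟨e, -⟩ <;> rwa [e]
  · rcases ea with ⟨-, e⟩ | ⟨-, e⟩ <;> rwa [e]
  · rcases ea with ⟨e, e'⟩ | ⟨e, e'⟩ <;> rw [e, e']
    exacts [cop, cop.symm]
  · rw [e6]
    exact ⟨(hv.2.1 p hp).1, fun h => (hv.2.1 p hp).2 (h.trans ds.1)⟩
  · rcases eP with e | e <;> rw [e]
    exacts [hg.2.1, (fm _ ((dvd_mul_right _ _).mul_right _)).trans yK]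
  · rcases eR with e | e <;> rw [e]
    exacts [hg.1, (fm _ ((dvd_mul_left _ _).mul_right _)).trans yK]
  · rcases ea with ⟨e, -⟩ | ⟨e, -⟩ <;> rw [e]
    exacts [fm _ da, h11]
  · rcases ea with ⟨-, e⟩ | ⟨-, e⟩ <;> rw [e]
    exacts [h11, fm _ da]
  · rcases ea with ⟨-, e⟩ | ⟨-, e⟩ <;> rw [e]
    exacts [h12, le_trans (by exact_mod_cast om_mono ρ da) h9]
  · rcases ea with ⟨-, e⟩ | ⟨-, e⟩ <;> rw [e]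
    exacts [(si_mono ρ (dvd_mul_left _ _)).trans h13, ((si_mono ρ da).trans h10).trans
      (div_le_div_of_nonneg_right (by norm_num) (sqrt_nonneg _))]

theorem p_VERT (hK4 : S_K4) (hTUP : S_TUP) (hVB : S_VB) :
    S_VERT := by
  refine (hTUP.ev.and hVB).imp 3 fun z hz C _ => ⟨1, le_rfl, ?_⟩
  filter_upwards [eventually_ge_atTop 1] with y hy
  rintro ⟨⟨-, -, -, h1⟩, -, -, -, h2⟩ τ hτ i
  obtain ⟨hτ, hg⟩ := mem_Tg.1 hτ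
  obtain ⟨ok, -, -, -, -, -, cop, r1, r2, r3, n1, n2, -, -, hb⟩ := h1 τ hτ
  have hv := hτ.2.2.2.2.2
  have hs := hz.sizes le_rfl
  obtain ⟨k1, k2, -, -, -, -, k3, ⟨a1, a2, a3⟩, ⟨b1, b2, b3⟩, ⟨c1, c2, c3⟩, -⟩ :=
    hK4 z.A _ (by have := hz.2.1; omega) ok
  have key := fun et es eP eR ea e6 gw => VERT_gen ⟨z, y⟩ _ _ hy hz.2.2.1 (by dsimp only; omega)
    (k3 i) (hb i).1 (hb i).2 et es eP eR ea e6 gw hv hg ok.2.1 cop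
    (by simpa [Pr.cy, Sd.cyc] using r1) (by simpa [Pr.cy, Sd.cyc] using r2)
    (by simpa [Pr.cy, Sd.cyc] using r3) n1 n2 (h2 τ hτ)
  have g1 := hv.2.2
  generalize Pr.cy ⟨z, y⟩ τ = x at *
  have g2 : ∀ p : ℕ, p.Prime → p ≤ z.w → ¬(p : ℤ) ^ 2 ∣ x.Nt := fun p hp h h' =>
    (g1 p hp h).1 (k1 ▸ h'.mul_left _)
  fin_cases i
  · exact key (.inr rfl) (.inl (neg_mul_neg _ _)) (.inl rfl) (.inl rfl) (.inl ⟨rfl, a1⟩)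
      (show x.v1.Pi6 = _ by rw [VT.Pi6, a1, a2, a3, VT.Pi6, VT.v1]; ring)
      fun p hp h => .inr (g2 p hp h)
  · exact key (.inl rfl) (.inr (neg_mul _ _)) (.inl rfl) (.inr rfl) (.inr ⟨rfl, b1⟩)
      (show x.v2.Pi6 = _ by rw [VT.Pi6, b1, b2, b3, VT.Pi6, VT.v2]; ring)
      fun p hp h => (g1 p hp h).2.imp (fun h1 h' => h1 (k2 ▸ h'.mul_left _))
        fun h1 h' => h1 ((dvd_pow_self _ two_ne_zero).trans h')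
  · exact key (.inr rfl) (.inr (mul_neg _ _)) (.inr rfl) (.inl rfl) (.inr ⟨rfl, c1⟩)
      (show x.v3.Pi6 = _ by rw [VT.Pi6, c1, c2, c3, VT.Pi6, VT.v3]; ring)
      fun p hp h => .inr (g2 p hp h)

end Pool.Agent.P.MP_8be758_nt.Pd
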