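import Pool.Agent.P.MP_8be758_nt.Pd.TKL4
import Pool.Agent.P.MP_8be758_nt.Pd.TKL
import Pool.Agent.P.MP_8be758_nt.Pd.TFI
import Pool.Agent.P.MP_8be758_nt.Pd.THYP
import Pool.Agent.P.MP_8be758_nt.Pd.THYPB
import Pool.Agent.P.MP_8be758_nt.Pd.TKROW
import Pool.Agent.P.MP_8be758_nt.Pd.TKST
import Pool.Agent.P.MP_8be758_nt.Pd.TLIFT
import Pool.Agent.P.MP_8be758_nt.Pd.TLAT
import Pool.Agent.P.MP_8be758_nt.Pd.TAREA
import Pool.Agent.P.MP_8be758_nt.Pd.TVEQ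
import Pool.Agent.P.MP_8be758_nt.Pd.TEQC
import Pool.Agent.P.MP_8be758_nt.Pd.TGCNT
import Pool.Agent.P.MP_8be758_nt.Pd.TEQ
import Pool.Agent.P.MP_8be758_nt.Pd.TNEQ
import Pool.Agent.P.MP_8be758_nt.Pd.TRINV
import Pool.Agent.P.MP_8be758_nt.Pd.TL1
import Pool.Agent.P.MP_8be758_nt.Pd.TL2
import Pool.Agent.P.MP_8be758_nt.Pd.TL3
import Pool.Agent.P.MP_8be758_nt.Pd.TFM1
import Pool.Agent.P.MP_8be758_nt.Pd.TWIN
import Pool.Agent.P.MP_8be758_nt.Pd.TML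
import Pool.Agent.P.MP_8be758_nt.Pd.TMER
import Pool.Agent.P.MP_8be758_nt.Pd.TLAM
import Pool.Agent.P.MP_8be758_nt.Pd.TTYP1
import Pool.Agent.P.MP_8be758_nt.Pd.TCRT
import Pool.Agent.P.MP_8be758_nt.Pd.TOK
import Pool.Agent.P.MP_8be758_nt.Pd.TTKE
import Pool.Agent.P.MP_8be758_nt.Pd.TTYP2
import Pool.Agent.P.MP_8be758_nt.Pd.TPROD
import Pool.Agent.P.MP_8be758_nt.Pd.TQCNT
import Pool.Agent.P.MP_8be758_nt.Pd.TTYP3
import Pool.Agent.P.MP_8be758_nt.Pd.TFLK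
import Pool.Agent.P.MP_8be758_nt.Pd.TMC
import Pool.Agent.P.MP_8be758_nt.Pd.TLB
import Pool.Agent.P.MP_8be758_nt.Pd.TGLH
import Pool.Agent.P.MP_8be758_nt.Pd.TGL
import Pool.Agent.P.MP_8be758_nt.Pd.TSUMF
import Pool.Agent.P.MP_8be758_nt.Pd.TBETA1
import Pool.Agent.P.MP_8be758_nt.Pd.TBETA2
import Pool.Agent.P.MP_8be758_nt.Pd.TBETA3
import Pool.Agent.P.MP_8be758_nt.Pd.TBETA4
import Pool.Agent.P.MP_8be758_nt.Pd.TTB
import Pool.Agent.P.MP_8be758_nt.Pd.TTYP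
import Pool.Agent.P.MP_8be758_nt.Pd.TMCA
import Pool.Agent.P.MP_8be758_nt.Pd.TALP
import Pool.Agent.P.MP_8be758_nt.Pd.TATC
import Pool.Agent.P.MP_8be758_nt.Pd.TK4
import Pool.Agent.P.MP_8be758_nt.Pd.TSDS
import Pool.Agent.P.MP_8be758_nt.Pd.TCYC
import Pool.Agent.P.MP_8be758_nt.Pd.TLOCID
import Pool.Agent.P.MP_8be758_nt.Pd.TLOWP
import Pool.Agent.P.MP_8be758_nt.Pd.TSVP
import Pool.Agent.P.MP_8be758_nt.Pd.TLOW
import Pool.Agent.P.MP_8be758_nt.Pd.TPAIRP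
import Pool.Agent.P.MP_8be758_nt.Pd.TPAIR
import Pool.Agent.P.MP_8be758_nt.Pd.TFMP
import Pool.Agent.P.MP_8be758_nt.Pd.TFM
import Pool.Agent.P.MP_8be758_nt.Pd.THU
import Pool.Agent.P.MP_8be758_nt.Pd.THI
import Pool.Agent.P.MP_8be758_nt.Pd.THO
import Pool.Agent.P.MP_8be758_nt.Pd.THS
import Pool.Agent.P.MP_8be758_nt.Pd.TFS
import Pool.Agent.P.MP_8be758_nt.Pd.TPS
import Pool.Agent.P.MP_8be758_nt.Pd.TPSA
import Pool.Agent.P.MP_8be758_nt.Pd.TCR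
import Pool.Agent.P.MP_8be758_nt.Pd.TND
import Pool.Agent.P.MP_8be758_nt.Pd.TPSB
import Pool.Agent.P.MP_8be758_nt.Pd.TRED
import Pool.Agent.P.MP_8be758_nt.Pd.TLOCW
import Pool.Agent.P.MP_8be758_nt.Pd.THLH
import Pool.Agent.P.MP_8be758_nt.Pd.TBXR
import Pool.Agent.P.MP_8be758_nt.Pd.TROOT
import Pool.Agent.P.MP_8be758_nt.Pd.THLV
import Pool.Agent.P.MP_8be758_nt.Pd.TBOX
import Pool.Agent.P.MP_8be758_nt.Pd.TCON2
import Pool.Agent.P.MP_8be758_nt.Pd.TCON3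
import Pool.Agent.P.MP_8be758_nt.Pd.THF
import Pool.Agent.P.MP_8be758_nt.Pd.THLM1
import Pool.Agent.P.MP_8be758_nt.Pd.TCON1
import Pool.Agent.P.MP_8be758_nt.Pd.THLM2
import Pool.Agent.P.MP_8be758_nt.Pd.THLM
import Pool.Agent.P.MP_8be758_nt.Pd.THLT
import Pool.Agent.P.MP_8be758_nt.Pd.TTSET
import Pool.Agent.P.MP_8be758_nt.Pd.TLATD
import Pool.Agent.P.MP_8be758_nt.Pd.TSQT
import Pool.Agent.P.MP_8be758_nt.Pd.THL
import Pool.Agent.P.MP_8be758_nt.Pd.TMB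
import Pool.Agent.P.MP_8be758_nt.Pd.TVAR
import Pool.Agent.P.MP_8be758_nt.Pd.TATS
import Pool.Agent.P.MP_8be758_nt.Pd.TGLOW
import Pool.Agent.P.MP_8be758_nt.Pd.TBAD
import Pool.Agent.P.MP_8be758_nt.Pd.TTUP
import Pool.Agent.P.MP_8be758_nt.Pd.TSGNE
import Pool.Agent.P.MP_8be758_nt.Pd.TVB
import Pool.Agent.P.MP_8be758_nt.Pd.TVERT
import Pool.Agent.P.MP_8be758_nt.Pd.TMINJ
import Pool.Agent.P.MP_8be758_nt.Pd.TFIB
import Pool.Agent.P.MP_8be758_nt.Pd.TMULT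
import Pool.Agent.P.MP_8be758_nt.Pd.TNSW
import Pool.Agent.P.MP_8be758_nt.Pd.TNK0
import Pool.Agent.P.MP_8be758_nt.Pd.TNK1
import Pool.Agent.P.MP_8be758_nt.Pd.TNKEY
import Pool.Agent.P.MP_8be758_nt.Pd.TCOVER
import Pool.Agent.P.MP_8be758_nt.Pd.TNP
import Pool.Agent.P.MP_8be758_nt.Pd.TNH
import Pool.Agent.P.MP_8be758_nt.Pd.TNF
import Pool.Agent.P.MP_8be758_nt.Pd.TNS1
import Pool.Agent.P.MP_8be758_nt.Pd.TNS2
import Pool.Agent.P.MP_8be758_nt.Pd.TNS3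
import Pool.Agent.P.MP_8be758_nt.Pd.TOWN
import Pool.Agent.P.MP_8be758_nt.Pd.TNPAIR
import Pool.Agent.P.MP_8be758_nt.Pd.TNSUM
import Pool.Agent.P.MP_8be758_nt.Pd.TNOFF
import Pool.Agent.P.MP_8be758_nt.Pd.TNCS
import Pool.Agent.P.MP_8be758_nt.Pd.TTYPES
import Pool.Agent.P.MP_8be758_nt.Pd.TNTY
import Pool.Agent.P.MP_8be758_nt.Pd.TNSTAR
import Pool.Agent.P.MP_8be758_nt.Pd.TSMB
import Pool.Agent.P.MP_8be758_nt.Pd.TMB2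
import Pool.Agent.P.MP_8be758_nt.Pd.TEND
import Pool.Agent.P.MP_8be758_nt.Pd.TFEJ
import Pool.Agent.P.MP_8be758_nt.Pd.TFAR
import Pool.Agent.P.MP_8be758_nt.Pd.TNEAR
import Pool.Agent.P.MP_8be758_nt.Pd.TCNT
import Pool.Agent.P.MP_8be758_nt.Pd.TEN
import Pool.Agent.P.MP_8be758_nt.Pd.TTHUE
import Pool.Agent.P.MP_8be758_nt.Pd.TSEL
import Pool.Agent.P.MP_8be758_nt.Pd.TMVT
import Pool.Agent.P.MP_8be758_nt.Pd.TMVP
import Pool.Agent.P.MP_8be758_nt.Pd.TBIJ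
import Pool.Agent.P.MP_8be758_nt.Pd.TRAM0
import Pool.Agent.P.MP_8be758_nt.Pd.TRAM1
import Pool.Agent.P.MP_8be758_nt.Pd.TDV
import Pool.Agent.P.MP_8be758_nt.Pd.TTK
import Pool.Agent.P.MP_8be758_nt.Pd.TMU2
import Pool.Agent.P.MP_8be758_nt.Pd.TRAM2
import Pool.Agent.P.MP_8be758_nt.Pd.TST0
import Pool.Agent.P.MP_8be758_nt.Pd.TMOMA
import Pool.Agent.P.MP_8be758_nt.Pd.TMOMB
import Pool.Agent.P.MP_8be758_nt.Pd.TMOMC
import Pool.Agent.P.MP_8be758_nt.Pd.TMOM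
import Pool.Agent.P.MP_8be758_nt.Pd.TST1
import Pool.Agent.P.MP_8be758_nt.Pd.TPAR2
import Pool.Agent.P.MP_8be758_nt.Pd.TST2
import Pool.Agent.P.MP_8be758_nt.Pd.TUB
import Pool.Agent.P.MP_8be758_nt.Pd.TSTG
import Pool.Agent.P.MP_8be758_nt.Pd.TSH0
import Pool.Agent.P.MP_8be758_nt.Pd.TSHF
import Pool.Agent.P.MP_8be758_nt.Pd.TES0
import Pool.Agent.P.MP_8be758_nt.Pd.TVD1
import Pool.Agent.P.MP_8be758_nt.Pd.TCHN
import Pool.Agent.P.MP_8be758_nt.Pd.TSEG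
import Pool.Agent.P.MP_8be758_nt.Pd.TSUBL
import Pool.Agent.P.MP_8be758_nt.Pd.TES1
import Pool.Agent.P.MP_8be758_nt.Pd.TES
import Pool.Agent.P.MP_8be758_nt.Pd.TPES
import Pool.Agent.P.MP_8be758_nt.Pd.TGRAM
import Pool.Agent.P.MP_8be758_nt.Pd.TLSA
import Pool.Agent.P.MP_8be758_nt.Pd.TPRA
import Pool.Agent.P.MP_8be758_nt.Pd.TPRB
import Pool.Agent.P.MP_8be758_nt.Pd.TPR2
import Pool.Agent.P.MP_8be758_nt.Pd.TEQK
import Pool.Agent.P.MP_8be758_nt.Pd.TDV2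
import Pool.Agent.P.MP_8be758_nt.Pd.TPRD
import Pool.Agent.P.MP_8be758_nt.Pd.TSIEV
import Pool.Agent.P.MP_8be758_nt.Pd.TNONC
import Pool.Agent.P.MP_8be758_nt.Pd.TLSB1
import Pool.Agent.P.MP_8be758_nt.Pd.TLSB
import Pool.Agent.P.MP_8be758_nt.Pd.TSGN
import Pool.Agent.P.MP_8be758_nt.Pd.TFLIP
import Pool.Agent.P.MP_8be758_nt.Pd.TLAST
import Pool.Agent.P.MP_8be758_nt.Pd.TMRM
import Pool.Agent.P.MP_8be758_nt.Pd.TTRI
import Pool.Agent.P.MP_8be758_nt.Pd.TTOP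

/-! Assembly of all steps. -/

namespace Pool.Agent.P.MP_8be758_nt.Pd

theorem a_KL4 : S_KL4 := p_KL4

theorem a_KL : S_KL := p_KL a_KL4

theorem a_FI : S_FI := p_FI

theorem a_HYP : S_HYP := p_HYP a_KL a_FI

theorem a_HYPB : S_HYPB := p_HYPB a_HYP

theorem a_KROW : S_KROW := p_KROW a_HYPB

theorem a_KST : S_KST := p_KST a_KROW

theorem a_LIFT : S_LIFT := p_LIFT

theorem a_LAT : S_LAT := p_LAT

theorem a_AREA : S_AREA := p_AREA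

theorem a_VEQ : S_VEQ := p_VEQ a_LAT a_AREA

theorem a_EQC : S_EQC := p_EQC a_KST a_LIFT a_VEQ

theorem a_GCNT : S_GCNT := p_GCNT a_AREA

theorem a_EQ : S_EQ := p_EQ a_EQC a_GCNT

theorem a_NEQ : S_NEQ := p_NEQ a_EQ a_GCNT

theorem a_RINV : S_RINV := p_RINV

theorem a_L1 : S_L1 := p_L1 a_RINV

theorem a_L2 : S_L2 := p_L2 a_RINV a_L1

theorem a_L3 : S_L3 := p_L3 a_RINV a_L1

theorem a_FM1 : S_FM1 := p_FM1 a_NEQ a_L1 a_L2 a_L3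

theorem a_WIN : S_WIN := p_WIN

theorem a_ML : S_ML := p_ML a_WIN

theorem a_MER : S_MER := p_MER

theorem a_LAM : S_LAM := p_LAM a_MER a_L1

theorem a_TYP1 : S_TYP1 := p_TYP1 a_FM1 a_ML a_LAM

theorem a_CRT : S_CRT := p_CRT

theorem a_OK : S_OK := p_OK a_CRT

theorem a_TKE : S_TKE := p_TKE a_OK a_NEQ a_L1

theorem a_TYP2 : S_TYP2 := p_TYP2 a_TKE a_LAM

theorem a_PROD : S_PROD := p_PROD

theorem a_QCNT : S_QCNT := p_QCNT a_OK a_PROD a_EQ a_GCNT a_L1 a_MER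

theorem a_TYP3 : S_TYP3 := p_TYP3 a_TKE a_MER a_QCNT a_L1

theorem a_FLK : S_FLK := p_FLK

theorem a_MC : S_MC := p_MC a_FLK a_PROD

theorem a_LB : S_LB := p_LB a_OK a_L1 a_L2

theorem a_GLH : S_GLH := p_GLH a_OK a_PROD a_L1 a_L2

theorem a_GL : S_GL := p_GL a_OK a_MC a_L1 a_LB a_GLH

theorem a_SUMF : S_SUMF := p_SUMF

theorem a_BETA1 : S_BETA1 := p_BETA1 a_WIN a_L1

theorem a_BETA2 : S_BETA2 := p_BETA2 a_SUMF

theorem a_BETA3 : S_BETA3 := p_BETA3 a_SUMF a_BETA2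

theorem a_BETA4 : S_BETA4 := p_BETA4 a_SUMF a_BETA1 a_BETA3 a_MER

theorem a_TB : S_TB := p_TB a_GL a_NEQ a_BETA4 a_LAM

theorem a_TYP : S_TYP := p_TYP a_TYP1 a_TYP2 a_TYP3 a_TB

theorem a_MCA : S_MCA := p_MCA a_OK a_PROD a_MC a_EQ

theorem a_ALP : S_ALP := p_ALP a_OK a_L1 a_L2 a_L3 a_LB

theorem a_ATC : S_ATC := p_ATC a_MCA a_ALP a_L1

theorem a_K4 : S_K4 := p_K4

theorem a_SDS : S_SDS := p_SDS a_LAM a_L1

theorem a_CYC : S_CYC := p_CYC a_SDS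

theorem a_LOCID : S_LOCID := p_LOCID a_K4 a_SDS a_CYC

theorem a_LOWP : S_LOWP := p_LOWP a_OK a_L1 a_L2 a_L3 a_LB a_ALP a_SDS

theorem a_SVP : S_SVP := p_SVP a_L1 a_LB a_SDS

theorem a_LOW : S_LOW := p_LOW a_MCA a_ATC a_LOCID a_LOWP a_SVP a_SDS a_L1 a_LAM

theorem a_PAIRP : S_PAIRP := p_PAIRP a_OK a_L1 a_L2 a_LB a_ALP

theorem a_PAIR : S_PAIR := p_PAIR a_MCA a_ATC a_LOCID a_PAIRP a_SVP a_SDS a_L1 a_L2 a_LAM

theorem a_FMP : S_FMP := p_FMP a_OK a_L1 a_LB a_ALP a_SDS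

theorem a_FM : S_FM := p_FM a_MCA a_ATC a_LOCID a_FMP a_SVP a_SDS a_L1 a_LAM

theorem a_HU : S_HU := p_HU a_OK a_MC

theorem a_HI : S_HI := p_HI a_HU a_LAM

theorem a_HO : S_HO := p_HO a_HU a_LAM

theorem a_HS : S_HS := p_HS a_HI a_HO

theorem a_FS : S_FS := p_FS a_FM a_SDS a_HS

theorem a_PS : S_PS := p_PS a_HI a_HO a_LAM

theorem a_PSA : S_PSA := p_PSA a_PS a_HS a_SDS a_LAM

theorem a_CR : S_CR := p_CR

theorem a_ND : S_ND := p_ND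

theorem a_PSB : S_PSB := p_PSB a_CR a_ND a_SDS a_LAM

theorem a_RED : S_RED := p_RED

theorem a_LOCW : S_LOCW := p_LOCW

theorem a_HLH : S_HLH := p_HLH

theorem a_BXR : S_BXR := p_BXR

theorem a_ROOT : S_ROOT := p_ROOT

theorem a_HLV : S_HLV := p_HLV a_BXR a_HLH

theorem a_BOX : S_BOX := p_BOX

theorem a_CON2 : S_CON2 := p_CON2 a_BOX

theorem a_CON3 : S_CON3 := p_CON3 a_BOX

theorem a_HF : S_HF := p_HF a_CON2 a_CON3 a_L1 a_OK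

theorem a_HLM1 : S_HLM1 := p_HLM1 a_OK a_PROD a_MC a_BOX a_CON2 a_HF

theorem a_CON1 : S_CON1 := p_CON1

theorem a_HLM2 : S_HLM2 := p_HLM2 a_BXR a_CON1 a_HF a_MER a_LAM

theorem a_HLM : S_HLM := p_HLM a_HLM1 a_HLM2 a_HF a_ML a_LAM

theorem a_HLT : S_HLT := p_HLT a_BXR a_ROOT a_HLH a_HLV a_HLM a_HF

theorem a_TSET : S_TSET := p_TSET a_OK a_PROD a_BOX a_MER a_LAM

theorem a_LATD : S_LATD := p_LATD

theorem a_SQT : S_SQT := p_SQT a_AREA a_LATD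

theorem a_HL : S_HL := p_HL a_RED a_LOCW a_HLH a_HLT a_TSET a_SQT a_BXR a_LAM

theorem a_MB : S_MB := p_MB a_HL a_HS a_SDS a_CYC a_LAM

theorem a_VAR : S_VAR := p_VAR a_LOW a_PAIR a_FS a_PSA a_PSB a_MB a_SDS a_CYC a_LAM

theorem a_ATS : S_ATS := p_ATS

theorem a_GLOW : S_GLOW := p_GLOW a_VAR a_MB a_ATS a_QCNT a_LAM

theorem a_BAD : S_BAD := p_BAD a_FS a_ATS a_QCNT a_LAM a_ML

theorem a_TUP : S_TUP := p_TUP a_K4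

theorem a_SGNE : S_SGNE := p_SGNE a_K4 a_TUP

theorem a_VB : S_VB := p_VB a_K4 a_TUP

theorem a_VERT : S_VERT := p_VERT a_K4 a_TUP a_VB

theorem a_MINJ : S_MINJ := p_MINJ a_TUP

theorem a_FIB : S_FIB := p_FIB

theorem a_MULT : S_MULT := p_MULT a_TUP a_VB a_MINJ a_FIB a_LAM

theorem a_NSW : S_NSW := p_NSW a_K4 a_TUP a_VB a_MULT

theorem a_NK0 : S_NK0 := p_NK0 a_K4

theorem a_NK1 : S_NK1 := p_NK1 a_K4 a_NK0

theorem a_NKEY : S_NKEY := p_NKEY a_NK0 a_NK1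

theorem a_COVER : S_COVER := p_COVER a_RED

theorem a_NP : S_NP := p_NP a_GL a_LAM

theorem a_NH : S_NH := p_NH a_LAM a_L1

theorem a_NF : S_NF := p_NF

theorem a_NS1 : S_NS1 := p_NS1 a_HS a_PS a_NF

theorem a_NS2 : S_NS2 := p_NS2 a_CR a_ND

theorem a_NS3 : S_NS3 := p_NS3 a_NH a_NS1 a_NS2 a_LAM

theorem a_OWN : S_OWN := p_OWN

theorem a_NPAIR : S_NPAIR := p_NPAIR a_NP a_NS3 a_OWN

theorem a_NSUM : S_NSUM := p_NSUM a_SUMF a_MER a_LAM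

theorem a_NOFF : S_NOFF := p_NOFF a_NK0 a_NKEY a_COVER a_NPAIR a_NEQ a_NSUM

theorem a_NCS : S_NCS := p_NCS

theorem a_TYPES : S_TYPES := p_TYPES

theorem a_NTY : S_NTY := p_NTY a_K4 a_NK0 a_TYPES

theorem a_NSTAR : S_NSTAR := p_NSTAR a_NOFF a_NCS a_NTY

theorem a_SMB : S_SMB := p_SMB a_K4 a_TUP a_VERT a_NSW a_NSTAR

theorem a_MB2 : S_MB2 := p_MB2 a_SGNE a_SMB

theorem a_TRANSFER : S_TRANSFER := p_END a_TYP a_GLOW a_BAD a_MB2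

theorem a_FEJ : S_FEJ := p_FEJ

theorem a_FAR : S_FAR := p_FAR a_FEJ

theorem a_NEAR : S_NEAR := p_NEAR

theorem a_CNT : S_CNT := p_CNT a_LAT a_AREA

theorem a_EN : S_EN := p_EN a_FEJ a_FAR a_NEAR a_CNT

theorem a_THUE : S_THUE := p_THUE a_RED

theorem a_SEL : S_SEL := p_SEL a_THUE a_MER

theorem a_MVT : S_MVT := p_MVT

theorem a_MVP : S_MVP := p_MVP a_MVT

theorem a_BIJ : S_BIJ := p_BIJ

theorem a_RAM0 : S_RAM0 := p_RAM0 a_BIJ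

theorem a_RAM1 : S_RAM1 := p_RAM1 a_RAM0

theorem a_DV : S_DV := p_DV

theorem a_TK : S_TK := p_TK a_OK a_DV

theorem a_MU2 : S_MU2 := p_MU2 a_AREA

theorem a_RAM2 : S_RAM2 := p_RAM2 a_TK a_MU2 a_VEQ a_AREA

theorem a_ST0 : S_ST0 := p_ST0 a_MVP a_RAM1 a_RAM2

theorem a_MOMA : S_MOMA := p_MOMA

theorem a_MOMB : S_MOMB := p_MOMB a_MOMA a_LATD

theorem a_MOMC : S_MOMC := p_MOMC

theorem a_MOM : S_MOM := p_MOM a_MVT a_MOMB a_MOMC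

theorem a_ST1 : S_ST1 := p_ST1 a_ST0 a_MOM

theorem a_PAR2 : S_PAR2 := p_PAR2

theorem a_ST2 : S_ST2 := p_ST2 a_ST0 a_MOM a_PAR2

theorem a_UB : S_UB := p_UB a_MOM

theorem a_STG : S_STG := p_STG a_SEL a_ST1 a_ST2 a_UB

theorem a_SH0 : S_SH0 := p_SH0 a_AREA

theorem a_SHF : S_SHF := p_SHF a_SH0 a_AREA

theorem a_ES0 : S_ES0 := p_ES0 a_SHF a_FEJ

theorem a_VD1 : S_VD1 := p_VD1

theorem a_CHN : S_CHN := p_CHN

theorem a_SEG : S_SEG := p_SEG a_VD1 a_CHN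

theorem a_SUBL : S_SUBL := p_SUBL

theorem a_ES1 : S_ES1 := p_ES1 a_SEG a_SUBL a_SH0 a_AREA

theorem a_ES : S_ES := p_ES a_ES0 a_ES1 a_AREA

theorem a_PES : S_PES := p_PES a_ES a_AREA

theorem a_GRAM : S_GRAM := p_GRAM

theorem a_LSA : S_LSA := p_LSA a_PES a_GRAM a_CNT

theorem a_PRA : S_PRA := p_PRA a_OK a_DV a_VEQ a_CNT

theorem a_PRB : S_PRB := p_PRB a_BIJ

theorem a_PR2 : S_PR2 := p_PR2 a_PRA a_PRB a_PES a_GRAM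

theorem a_EQK : S_EQK := p_EQK a_ES a_LAT a_FEJ

theorem a_DV2 : S_DV2 := p_DV2

theorem a_PRD : S_PRD := p_PRD a_MER

theorem a_SIEV : S_SIEV := p_SIEV a_OK a_MC a_EQK a_DV2 a_PRD a_AREA

theorem a_NONC : S_NONC := p_NONC a_FEJ a_SIEV

theorem a_LSB1 : S_LSB1 := p_LSB1 a_PR2 a_NONC

theorem a_LSB : S_LSB := p_LSB a_SEL a_LSB1

theorem a_SGN : S_SGN := p_SGN

theorem a_FLIP : S_FLIP := p_FLIP a_SGN a_VEQ a_CNT a_AREA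

theorem a_LAST : S_LAST := p_LAST a_LSA a_LSB a_FLIP a_AREA a_CNT

theorem a_MR : S_MR := p_MRM a_EN a_STG a_LAST a_CNT

theorem a_TRI : S_TRI := p_TRI a_CNT

theorem a_TOP : S_TOP := p_TOP a_TRANSFER a_MR a_TRI

end Pool.Agent.P.MP_8be758_nt.Pd
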