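import Pool.Agent.P.MP_8be758_nt.Par.Basic
import Pool.Agent.P.MP_8be758_nt.Avg.Defs

/-! Shared definitions for the positive density theorem: forms, edges, periodic averages. -/

namespace Pool.Agent.P.MP_8be758_nt.Pd

open Finset Real
open ArithmeticFunction (cardFactors)
open Pool.Agent.P.MP_8be758_nt.Par (det)

noncomputable section

abbrev V2 : Type := ℤ × ℤ
abbrev G4 : Type := V2 × V2
abbrev Fm : Type := ℤ × ℤ × ℤ

/-- the Liouville function of an integer -/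
def lam (m : ℤ) : ℝ := (-1) ^ cardFactors m.natAbs

/-- value of a binary quadratic form -/
def ev (ψ : Fm) (v : V2) : ℤ := ψ.1 * v.1 ^ 2 + ψ.2.1 * v.1 * v.2 + ψ.2.2 * v.2 ^ 2

/-- the bilinear form, `bl ψ v v = 2 * ev ψ v` -/
def bl (ψ : Fm) (v w : V2) : ℤ :=
  2 * ψ.1 * v.1 * w.1 + ψ.2.1 * (v.1 * w.2 + v.2 * w.1) + 2 * ψ.2.2 * v.2 * w.2

/-- the form in the basis `g` -/
def act (ψ : Fm) (g : G4) : Fm := (ev ψ g.1, bl ψ g.1 g.2, ev ψ g.2)

/-- the vector with coordinates `u` in the basis `g` -/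
def ap (g : G4) (u : V2) : V2 := (u.1 * g.1.1 + u.2 * g.2.1, u.1 * g.1.2 + u.2 * g.2.2)

/-- change of basis: the columns of `h` are coordinates in the basis `g` -/
def rm (g h : G4) : G4 := (ap g h.1, ap g h.2)

/-- positive definite forms of discriminant `1 - 4 A` -/
def IsF (A : ℕ) (ψ : Fm) : Prop := ψ.2.1 ^ 2 - 4 * ψ.1 * ψ.2.2 = 1 - 4 * (A : ℤ) ∧ 0 < ψ.1

instance (A : ℕ) : DecidablePred (IsF A) := fun _ => inferInstanceAs (Decidable (_ ∧ _))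

/-- the principal form -/
def Q0 (A : ℕ) : Fm := (1, 1, A)

/-- forms with small coefficients -/
def Red (A : ℕ) : Finset Fm :=
  (Icc (1 : ℤ) (4 * A) ×ˢ Icc (-(4 * A) : ℤ) (4 * A) ×ˢ Icc (1 : ℤ) (4 * A)).filter (IsF A)

open Classical in
/-- a finite set as a `Finset` -/
def fs {α : Type} (S : Set α) : Finset α := if h : S.Finite then h.toFinset else ∅

/-- lattice points in an annulus -/
def An (ψ : Fm) (N1 N2 : ℝ) : Finset V2 := fs {v | N1 < (ev ψ v : ℝ) ∧ (ev ψ v : ℝ) ≤ N2}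

/-- primitive lattice points in an annulus -/
def VV (ψ : Fm) (N1 N2 : ℝ) : Finset V2 :=
  fs {v | IsCoprime v.1 v.2 ∧ N1 < (ev ψ v : ℝ) ∧ (ev ψ v : ℝ) ≤ N2}

/-- bases with first value about `Z` and middle coefficient in a window -/
def GG (ψ : Fm) (Z β1 β2 : ℝ) : Finset G4 :=
  fs {g | det g.1 g.2 = 1 ∧ Z < (ev ψ g.1 : ℝ) ∧ (ev ψ g.1 : ℝ) ≤ 2 * Z ∧
    β1 * (ev ψ g.1 : ℝ) < (bl ψ g.1 g.2 : ℝ) ∧ (bl ψ g.1 g.2 : ℝ) ≤ β2 * (ev ψ g.1 : ℝ)}

/-- balanced edges -/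
def Ed (A : ℕ) (C1 X : ℝ) : Finset G4 := GG (Q0 A) X (1 / C1) C1

open Classical in
/-- balanced edges whose sign differs from `σ` -/
def EdBad (A : ℕ) (C1 X σ : ℝ) : Finset G4 :=
  (Ed A C1 X).filter fun g => lam (ev (Q0 A) g.1) * lam (ev (Q0 A) g.2) ≠ σ

open Classical in
/-- arguments `n ≤ x` whose sign differs from `σ` -/
def NBad (A : ℕ) (x σ : ℝ) : Finset ℕ :=
  (range (⌊x⌋₊ + 1)).filter fun n => lam ((n : ℤ) ^ 2 + n + A) ≠ σ

/-- a system of congruences with complete residue systems -/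
structure Sys (Ω : Type) where
  cg : ℕ → Ω → Ω → Prop
  U : ℕ → Finset Ω

/-- average over the residues modulo `m` -/
def Sys.av {Ω : Type} (S : Sys Ω) (m : ℕ) (f : Ω → ℝ) : ℝ := (∑ x ∈ S.U m, f x) / (S.U m).card

/-- periodicity modulo `m` -/
def Sys.Per {Ω : Type} (S : Sys Ω) (m : ℕ) (f : Ω → ℝ) : Prop := ∀ x y, S.cg m x y → f x = f y

/-- the Chinese remainder property -/
def Sys.OK {Ω : Type} (S : Sys Ω) : Prop :=
  (∀ m, 0 < m → (S.U m).Nonempty) ∧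
  (∀ m m', m ∣ m' → ∀ x y, S.cg m' x y → S.cg m x y) ∧
  ∀ (m m' : ℕ) (f f' : Ω → ℝ), 0 < m → 0 < m' → m.Coprime m' → S.Per m f → S.Per m' f' →
    S.av (m * m') (fun x => f x * f' x) = S.av m f * S.av m' f'

/-- equidistribution of the weighted set `(G, χ)` of total mass `N` up to the modulus `Mx` -/
def Sys.Equi {Ω : Type} (S : Sys Ω) (G : Finset Ω) (χ : Ω → ℝ) (N Mx err : ℝ) : Prop :=
  ∀ (M : ℕ) (f : Ω → ℝ), 0 < M → (M : ℝ) ≤ Mx → S.Per M f → (∀ x, |f x| ≤ 1) →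
    |∑ x ∈ G, χ x * f x - N * S.av M f| ≤ err

/-- residues of integers -/
def bx (m : ℕ) : Finset ℤ := Ico (0 : ℤ) m

/-- congruence of vectors -/
def C2 (m : ℕ) (v w : V2) : Prop := v.1 ≡ w.1 [ZMOD m] ∧ v.2 ≡ w.2 [ZMOD m]

instance (m : ℕ) (v w : V2) : Decidable (C2 m v w) := inferInstanceAs (Decidable (_ ∧ _))

/-- congruence of pairs of vectors -/
def C4 (m : ℕ) (g h : G4) : Prop := C2 m g.1 h.1 ∧ C2 m g.2 h.2

instance (m : ℕ) (g h : G4) : Decidable (C4 m g h) := inferInstanceAs (Decidable (_ ∧ _))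

/-- integers -/
def S1 : Sys ℤ := ⟨fun m x y => x ≡ y [ZMOD m], bx⟩

/-- all vectors -/
def S2 : Sys V2 := ⟨C2, fun m => bx m ×ˢ bx m⟩

/-- vectors that are primitive modulo `m` -/
def SP : Sys V2 := ⟨C2, fun m => (bx m ×ˢ bx m).filter fun v => (Int.gcd v.1 v.2).Coprime m⟩

/-- pairs of vectors of determinant one modulo `m` -/
def S4 : Sys G4 := ⟨C4, fun m =>
  ((bx m ×ˢ bx m) ×ˢ (bx m ×ˢ bx m)).filter fun g => det g.1 g.2 ≡ 1 [ZMOD m]⟩

/-- primes in `(w, y]` -/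
def PP (w y : ℝ) : Finset ℕ := (range (⌊y⌋₊ + 1)).filter fun p => p.Prime ∧ w < (p : ℝ)

/-- indicator of a proposition -/
def ind (P : Prop) : ℝ := by classical exact if P then 1 else 0

end

end Pool.Agent.P.MP_8be758_nt.Pd
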