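import Pool.Agent.P.MP_8be758_nt.Pd.If0

/-! The two densities give a bound for the mean value. -/

namespace Pool.Agent.P.MP_8be758_nt.Pd

open Finset Filter
open ArithmeticFunction (cardFactors)

theorem mean_of_top (h : S_TOP) (A : ℕ) (hA : Odd A) (h3 : 3 ≤ A) : ∃ c : ℝ, 0 < c ∧
    ∀ᶠ N : ℕ in atTop,
      |∑ x ∈ range (N + 1), (ArithmeticFunction.liouville (x ^ 2 + x + A) : ℝ)| ≤ (1 - c) * N := by
  obtain ⟨c, hc, h⟩ := h A hA h3
  refine ⟨c, hc, ?_⟩
  filter_upwards [h, (tendsto_natCast_atTop_atTop.const_mul_atTop hc).eventually_ge_atTop 1]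
    with N ⟨h1, h2⟩ hN
  have e1 : ∑ x ∈ range (N + 1), (ArithmeticFunction.liouville (x ^ 2 + x + A) : ℝ) =
      ((range (N + 1)).filter fun x => Even (cardFactors (x ^ 2 + x + A))).card -
        (((range (N + 1)).filter fun x => Odd (cardFactors (x ^ 2 + x + A))).card : ℝ) := by
    rw [card_filter, card_filter]
    push_cast
    rw [← sum_sub_distrib]
    refine sum_congr rfl fun x _ => ?_
    rw [ArithmeticFunction.liouville_apply (by omega)]
    push_cast
    rcases Nat.even_or_odd (cardFactors (x ^ 2 + x + A)) with e | e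
    · rw [e.neg_one_pow, if_pos e, if_neg (Nat.not_odd_iff_even.2 e)]; norm_num
    · rw [e.neg_one_pow, if_pos e, if_neg (Nat.not_even_iff_odd.2 e)]; norm_num
  have e2 : (((range (N + 1)).filter fun x => Even (cardFactors (x ^ 2 + x + A))).card : ℝ) +
      ((range (N + 1)).filter fun x => Odd (cardFactors (x ^ 2 + x + A))).card = N + 1 := by
    have := card_filter_add_card_filter_not (s := range (N + 1))
      fun x => Even (cardFactors (x ^ 2 + x + A))
    simp only [Nat.not_even_iff_odd, card_range] at this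
    exact_mod_cast this
  rw [e1, abs_le]
  constructor <;> linarith

end Pool.Agent.P.MP_8be758_nt.Pd
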