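import Pool.Agent.P.MP_8be758_nt.Pd.IfP

/-! Step FLA. -/

namespace Pool.Agent.P.MP_8be758_nt.Pd.G

open Finset Real Filter
open Pool.Agent.P.MP_8be758_nt.Par (nq mul cj det io et)
open Pool.Agent.P.MP_8be758_nt.Avg (rho)
open Pool.Agent.P.MP_8be758_nt.Pd.Mr

theorem FLA_pr {A : ℕ} {u v : V2} (hu : Pr u) (hv : Pr v) (h : IsCoprime (nq A u) (nq A v)) :
    Pr (mul A u v) := by
  have key : ∀ {u v : V2}, Pr v →
      (Int.gcd (mul A u v).1 (mul A u v).2 : ℤ) ∣ nq A u := fun {u v} hv => by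
    obtain ⟨a, ha⟩ := Int.gcd_dvd_left (mul A u v).1 (mul A u v).2
    obtain ⟨b, hb⟩ := Int.gcd_dvd_right (mul A u v).1 (mul A u v).2
    generalize (Int.gcd (mul A u v).1 (mul A u v).2 : ℤ) = c at ha hb
    have e : nq A u • v = c • mul A (cj u) (a, b) := by
      rw [← cj_mul_mul, ← mul_sm]
      exact congrArg _ (Prod.ext ha hb)
    exact dvd_of_dvd_smul hv (e ▸ Dvd.intro _ rfl) (e ▸ Dvd.intro _ rfl)
  have h2 := key (u := v) hu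
  rw [mul_cm] at h2
  have := Int.isUnit_iff_natAbs_eq.1 (h.isUnit_of_dvd' (key hv) h2)
  exact pr_iff.2 (by simpa using this)

theorem p_FLA (hREP1 : S_REP1) (hREP2 : S_REP2) (hREP3 : S_REP3) :
    S_FLA := by
  intro A hA
  obtain ⟨Zs, z1, H⟩ := hREP2 A (64 * A ^ 2) hA
  have ex : ∀ d : ℕ, ∃ g : V2, (∀ p : ℕ, p.Prime → p ∣ d → 2 * Zs < p ∧ p ≡ 1 [MOD 4 * (4 * A - 1)]) →
      (d.Prime ∨ ∃ p q : ℕ, p.Prime ∧ q.Prime ∧ p < q ∧ d = p * q) →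
      ∃ Z : ℕ, Pr g ∧ nq A g = d * Z ^ 2 ∧ Zs ≤ Z ∧ 10 * Z ≤ 11 * Zs := by
    intro d
    by_cases h1 : ∀ p : ℕ, p.Prime → p ∣ d → 2 * Zs < p ∧ p ≡ 1 [MOD 4 * (4 * A - 1)]
    swap
    · exact ⟨0, fun h => absurd h h1⟩
    by_cases h2 : d.Prime ∨ ∃ p q : ℕ, p.Prime ∧ q.Prime ∧ p < q ∧ d = p * q
    swap
    · exact ⟨0, fun _ h => absurd h h2⟩
    have : ∃ (g : V2) (Z : ℕ), Pr g ∧ nq A g = d * Z ^ 2 ∧ 1 ≤ Z ∧ Z ≤ 64 * A ^ 2 := by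
      rcases h2 with h | ⟨p, q, hp, hq, hl, rfl⟩
      · obtain ⟨g, Z, a, b, c, e⟩ := hREP1 A d hA h (h1 d h dvd_rfl).2
        exact ⟨g, Z, a, b, c, by nlinarith⟩
      · exact hREP3 A p q hA hp hq hl.ne (h1 p hp (dvd_mul_right _ _)).2
          (h1 q hq (dvd_mul_left _ _)).2
    obtain ⟨g, Z, a, b, c, e⟩ := this
    obtain ⟨g', Z', h⟩ := H d Z g a b c e fun p hp hd => (h1 p hp hd).1
    exact ⟨g', fun _ _ => ⟨Z', h⟩⟩
  choose g hg using ex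
  refine ⟨Zs, (2 * Zs).factorial, z1, Nat.factorial_pos _, g, fun d h1 h2 => ?_⟩
  obtain ⟨Z, a, b, c, e⟩ := hg d h1 h2
  refine ⟨pr_ne a, b ▸ dvd_mul_right _ _, fun w hw hc hp => ?_⟩
  have w0 := Par.nq_pos hA (pr_ne hw)
  have c1 : IsCoprime (Z : ℤ) (nq A w) := by
    have m : nq A w ≡ nq A (1, 0) [ZMOD ((2 * Zs).factorial : ℕ)] := by
      obtain ⟨e1, e2⟩ := hc
      simp only [nq]
      gcongr
    obtain ⟨k, hk⟩ := (Int.natCast_dvd_natCast.2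
      (Nat.dvd_factorial (by omega) (by omega : Z ≤ 2 * Zs))).trans m.dvd
    exact ⟨k, 1, by simp only [nq] at hk ⊢; linear_combination -hk⟩
  have c2 : IsCoprime (d : ℤ) (nq A w) := by
    lift nq A w to ℕ using w0.le with N hN
    refine Nat.isCoprime_iff_coprime.2 (Nat.coprime_of_dvd fun p p1 p2 p3 => ?_)
    have := hp p p1 p2
    have := Nat.le_of_dvd (by omega) p3
    omega
  have z0 : (Z : ℤ) ≠ 0 := by omega
  have d0 : (0 : ℤ) ≤ d * nq A w := by positivity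
  have u1 : (Zs : ℤ) ^ 2 ≤ (Z : ℤ) ^ 2 := by gcongr
  have u2 : (10 * Z : ℤ) ^ 2 ≤ (11 * Zs : ℤ) ^ 2 := by gcongr ?_ ^ 2; exact_mod_cast e
  refine ⟨FLA_pr a hw (b ▸ c2.mul_left c1.pow_left), ?_, ?_, ?_⟩
  · rw [Par.nq_mul, b]; nlinarith [mul_le_mul_of_nonneg_left u1 d0]
  · rw [Par.nq_mul, b]; nlinarith [mul_le_mul_of_nonneg_left u2 d0]
  · intro _
    rw [fl_mul hA (pr_ne a) (pr_ne hw), fl, b, mul_comm (d : ℤ), lam_sq_mul z0]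

end Pool.Agent.P.MP_8be758_nt.Pd.G
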