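import Pool.Agent.P.MP_8be758_nt.Pd.IfP

/-! Step FLIP. -/

namespace Pool.Agent.P.MP_8be758_nt.Pd.G

open Finset Real Filter
open Pool.Agent.P.MP_8be758_nt.Par (nq mul cj det io et)
open Pool.Agent.P.MP_8be758_nt.Avg (rho)
open Pool.Agent.P.MP_8be758_nt.Pd.Mr

open Classical in
theorem FLIP_sum [CM] (A : ℕ) (W : Finset V2) {m : ℝ}
    (h1 : m ≤ (W.filter fun v => fl A v = 1).card)
    (h2 : m ≤ (W.filter fun v => fl A v = -1).card) : ‖FS A W 0‖ ≤ W.card - 2 * m := by
  have e0 : FS A W 0 = ((∑ v ∈ W, fl A v : ℝ) : ℂ) := by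
    simp only [FS, ek_zero, mul_one]; push_cast; rfl
  have e1 : W.filter (fun v => ¬ fl A v = 1) = W.filter fun v => fl A v = -1 :=
    filter_congr fun v _ => by rcases fl_cases (A := A) v with h | h <;> rw [h] <;> norm_num
  have e2 : ((W.filter fun v => fl A v = 1).card : ℝ) + (W.filter fun v => fl A v = -1).card =
      W.card := by
    rw [← e1]; exact_mod_cast card_filter_add_card_filter_not _
  have e3 : ∑ v ∈ W, fl A v =
      ((W.filter fun v => fl A v = 1).card : ℝ) - (W.filter fun v => fl A v = -1).card := by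
    rw [← sum_filter_add_sum_filter_not W (fun v => fl A v = 1), e1,
      sum_congr rfl fun v hv => (mem_filter.1 hv).2,
      sum_congr (s₁ := W.filter fun v => fl A v = -1) rfl fun v hv => (mem_filter.1 hv).2]
    simp [sub_eq_add_neg]
  rw [e0, Complex.norm_real, Real.norm_eq_abs, e3, abs_le]
  constructor <;> linarith

open Classical in
theorem p_FLIP (hFLC : S_FLC) (hAREA : S_AREA) :
    S_FLIP := by
  intro A θ hA hθ
  obtain ⟨r, hr⟩ := exists_nat_ge (max 8 (3 / (1 / 2 - θ)))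
  have hr8 : 8 ≤ r := by exact_mod_cast (le_max_left _ _).trans hr
  have hr3 : 3 ≤ r * (1 / 2 - θ) :=
    (div_le_iff₀ (by linarith)).1 ((le_max_right _ _).trans hr)
  obtain ⟨c, y0, hc, HF⟩ := hFLC A r hA hr8
  obtain ⟨ca, Ca, -, hCa, HA⟩ := hAREA A (by omega)
  have hp : (0 : ℝ) < ((2 * r + 6 : ℕ) : ℝ) := by positivity
  obtain ⟨X1, hX1⟩ :=
    eventually_atTop.1 ((tendsto_rpow_atTop (inv_pos.2 hp)).eventually_ge_atTop y0)
  refine ⟨min 1 (c / (4 * Ca)), max X1 1, by positivity, min_le_left _ _, fun X hX hN => ?_⟩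
  have h1 : 1 ≤ X := (le_max_right _ _).trans hX
  have h0 : 0 ≤ X := by linarith
  set y : ℝ := X ^ (((2 * r + 6 : ℕ) : ℝ))⁻¹ with hy
  have e1 : y ^ (2 * r + 6) = X := Real.rpow_inv_natCast_pow h0 (by omega)
  have e2 : X ^ θ ≤ y ^ r := by
    rw [hy, ← Real.rpow_natCast, ← Real.rpow_mul h0]
    refine Real.rpow_le_rpow_of_exponent_le h1 ?_
    rw [inv_mul_eq_div, le_div_iff₀ hp]
    push_cast
    nlinarith
  have hN' : Neg (y ^ r) (y ^ (2 * r + 6)) := by
    rw [e1]; exact fun p hp h2 h3 => hN p hp (e2.trans_lt h2) h3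
  have k1 := HF y 1 (hX1 X ((le_max_left _ _).trans hX)) (Or.inl rfl) hN'
  have k2 := HF y (-1) (hX1 X ((le_max_left _ _).trans hX)) (Or.inr rfl) hN'
  rw [e1] at k1 k2
  have k3 := FLIP_sum A (VX A X) k1 k2
  have k4 : ((VX A X).card : ℝ) ≤ 4 * Ca * X := by
    have k5 := (HA _ (Q0_mem (by omega)) X (2 * X) h0 (by linarith)).2
    have k6 : √(2 * X) ≤ 2 * X := Real.sqrt_le_iff.2 ⟨by linarith, by nlinarith⟩
    have k7 : ((VX A X).card : ℝ) ≤ (An (Q0 A) X (2 * X)).card :=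
      Nat.cast_le.2 (card_le_card (VV_sub_An hA _ _))
    nlinarith
  have k8 : min 1 (c / (4 * Ca)) * ((VX A X).card : ℝ) ≤ c * X :=
    calc _ ≤ c / (4 * Ca) * (4 * Ca * X) :=
          mul_le_mul (min_le_right _ _) k4 (Nat.cast_nonneg _) (by positivity)
      _ = _ := by field_simp
  have k9 : 0 ≤ c * X := by positivity
  unfold FX
  nlinarith

end Pool.Agent.P.MP_8be758_nt.Pd.G
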