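import Pool.Agent.P.MP_8be758_nt.Pd.IfP

/-! Step LSB. -/

namespace Pool.Agent.P.MP_8be758_nt.Pd.G

open Finset Real Filter
open Pool.Agent.P.MP_8be758_nt.Par (nq mul cj det io et)
open Pool.Agent.P.MP_8be758_nt.Avg (rho)
open Pool.Agent.P.MP_8be758_nt.Pd.Mr

theorem LSB_om {A : ℕ} (hA : 2 ≤ A) {σ : St} (H : σ.OK A) {X a : ℝ} (hX : 2 ≤ X) (ha : 0 < a)
    (hP : σ.P = X ^ a) {v : V2} (hv : v ∈ VX A X) : σ.om A v ≤ 2 / a := by
  obtain ⟨h1, -, h3⟩ := (mem_VX hA).1 hv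
  have h0 := Par.nq_pos hA (pr_ne h1)
  set F := σ.S.filter fun p => Dv A p (cj (σ.γ p)) v with hF
  have hd : ∏ p ∈ F, p ∣ (nq A v).natAbs := by
    refine Finset.prod_primes_dvd _ (fun p hp => (H.gp (mem_filter.1 hp).1).1.prime) fun p hp => ?_
    obtain ⟨hp, k⟩ := mem_filter.1 hp
    obtain ⟨u, hu⟩ := dv_iff.1 k
    have e := congrArg (nq A) hu
    rw [Par.nq_smul, Par.nq_mul, Par.nq_cj, (H.gp hp).2.2] at e
    have hp0 : (p : ℤ) ≠ 0 := by exact_mod_cast (H.gp hp).1.ne_zero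
    have e2 : (p : ℤ) ∣ σ.β * nq A v := ⟨nq A u, mul_left_cancel₀ hp0 (by linear_combination -e)⟩
    rcases (Nat.prime_iff_prime_int.1 (H.gp hp).1).dvd_or_dvd e2 with h | h
    · have := Int.le_of_dvd (by have := H.1; omega) h
      have := H.lt hp
      omega
    · exact Int.natCast_dvd.1 h
  have h4 : ((∏ p ∈ F, p : ℕ) : ℝ) ≤ nq A v := by
    have := Nat.le_of_dvd (Int.natAbs_pos.2 h0.ne') hd
    have h5 : ((∏ p ∈ F, p : ℕ) : ℤ) ≤ nq A v := by omega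
    exact_mod_cast h5
  have h5 : (X ^ a) ^ F.card ≤ ((∏ p ∈ F, p : ℕ) : ℝ) := by
    rw [Nat.cast_prod, ← prod_const]
    exact prod_le_prod (fun _ _ => by positivity) fun p hp =>
      hP ▸ (H.2.2.2.2.2 p (mem_filter.1 hp).1).2.1.le
  have h6 : X ^ (a * F.card) ≤ X ^ (2 : ℝ) := by
    rw [rpow_mul_natCast (by linarith), rpow_two]
    nlinarith
  rw [rpow_le_rpow_left_iff (by linarith)] at h6
  rw [St.om, le_div_iff₀' ha]
  exact h6

theorem LSB_dis [CM] {A : ℕ} {σ : St} {W : Finset V2} {B : ℝ} (h : ∀ v ∈ W, σ.om A v ≤ B)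
    (U : Finset ℤ) (d : ℤ → ℂ) :
    ∑ p ∈ σ.S, dis A (W.filter fun v => Dv A p (cj (σ.γ p)) v) U d ≤ B * dis A W U d := by
  simp only [dis, sum_filter]
  rw [sum_comm, mul_sum]
  refine sum_le_sum fun v hv => le_trans (le_of_eq ?_)
    (mul_le_mul_of_nonneg_right (h v hv) (by positivity))
  rw [St.om_eq, sum_mul]
  refine sum_congr rfl fun p _ => ?_
  split_ifs with k
  · rw [ind_pos k, one_mul]
  · rw [ind_neg k, zero_mul]

theorem LSB_good {A : ℕ} {σ : St} (H : σ.OK A) {L : ℝ} (hL : 0 < L) (hE : 1 ≤ σ.E)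
    (hn : (σ.nb : ℝ) ≤ 2 * L) :
    1 / 2 ≤ ∑ h ∈ (range σ.nb).filter (fun h => 1 / 4 * σ.Ph h / L ≤ (σ.I h).card),
      ((σ.I h).card : ℝ) / σ.Ph h := by
  have h1 : σ.E ≤ ∑ h ∈ range σ.nb, ((σ.I h).card : ℝ) / σ.Ph h := by
    rw [St.E, ← H.sum_blk]
    refine sum_le_sum fun h _ => ?_
    rw [div_eq_mul_one_div (_ : ℝ) (σ.Ph h), ← nsmul_eq_mul]
    refine sum_le_card_nsmul _ _ _ fun p hp => ?_
    obtain ⟨k, rfl⟩ := St.mem_I.1 hp
    exact one_div_le_one_div_of_le (H.Ph_pos _) (by linarith [H.Ph_le k])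
  rw [← sum_filter_add_sum_filter_not _ (fun h => 1 / 4 * σ.Ph h / L ≤ (σ.I h).card)] at h1
  have h2 : ∑ h ∈ (range σ.nb).filter (fun h => ¬ 1 / 4 * σ.Ph h / L ≤ (σ.I h).card),
      ((σ.I h).card : ℝ) / σ.Ph h ≤ σ.nb * (1 / 4 / L) := by
    refine (sum_le_card_nsmul _ _ (1 / 4 / L) fun h hh => ?_).trans ?_
    · rw [div_le_iff₀ (H.Ph_pos h)]
      have := not_le.1 (mem_filter.1 hh).2
      rw [div_mul_eq_mul_div]
      exact this.le
    · rw [nsmul_eq_mul]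
      refine mul_le_mul_of_nonneg_right ?_ (by positivity)
      exact_mod_cast (card_filter_le _ _).trans (card_range _).le
  have h3 : σ.nb * (1 / 4 / L) ≤ 1 / 2 := by
    rw [← mul_div_assoc, div_le_iff₀ hL]
    linarith
  linarith

theorem p_LSB (hSEL : S_SELC) (hLSB1 : S_LSB1) :
    S_LSB := by
  intro A hA1 hA3
  obtain ⟨κ, C1, hκ, hκ2, hC1, h1⟩ := hLSB1 A hA1 hA3
  obtain ⟨c0, C0, hc0, hC0, h0⟩ := hSEL A hA1 hA3
  obtain ⟨b, rfl⟩ : ∃ b, κ = 20 * b := ⟨κ / 20, by ring⟩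
  have hb : 0 < b := by linarith
  set a := b / exp ((C0 + 1) / c0) with ha
  have ha0 : 0 < a := by positivity
  have hab : a ≤ b := div_le_self hb.le (one_le_exp (by positivity))
  obtain ⟨c1, X1, hc1, h1⟩ := h1 a (1 / 4) ha0 (by norm_num)
  obtain ⟨X0, hX0⟩ := eventually_atTop.1 ((eventually_ge_atTop X1).and
    ((eventually_ge_atTop 3).and (((tendsto_rpow_atTop ha0).eventually_ge_atTop (4 * A)).and
      ((tendsto_rpow_atTop (by positivity : 0 < 11 * b)).eventually_ge_atTop C1))))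
  refine ⟨b, c1 / 2, 8 / a, X0, hb, by positivity, by positivity, fun {_} X U d hX hU hc => ?_⟩
  obtain ⟨k1, k2, k3, k4⟩ := hX0 X hX
  have hX1 : 1 ≤ X := by linarith
  have hXp : 0 < X := by linarith
  obtain ⟨σ, H, hCs, eP, eQ, eH, hE⟩ := h0 (X ^ a) (X ^ b) 10 k3
    (rpow_le_rpow_of_exponent_le hX1 hab) (by norm_num)
  have hL : 1 ≤ log X := by
    rw [le_log_iff_exp_le hXp]
    linarith [exp_one_lt_d9]
  have hE1 : 1 ≤ σ.E := by
    have e : log (X ^ b) / log (X ^ a) = exp ((C0 + 1) / c0) := by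
      rw [log_rpow hXp, log_rpow hXp, ha]
      field_simp
    rw [e, log_exp, mul_div_cancel₀ _ hc0.ne'] at hE
    linarith
  have hn : (σ.nb : ℝ) ≤ 2 * log X := by
    have := H.nb_le_log
    rw [eH, eQ, log_rpow hXp] at this
    nlinarith
  have hG := LSB_good H (by linarith : 0 < log X) hE1 hn
  set G := (range σ.nb).filter (fun h => 1 / 4 * σ.Ph h / log X ≤ (σ.I h).card) with hGd
  have hD : 0 ≤ ∑ k ∈ U.erase 0, ‖d k‖ ^ 2 := sum_nonneg fun _ _ => by positivity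
  have hD' : 0 ≤ ∑ k ∈ U, ‖d k‖ ^ 2 := sum_nonneg fun _ _ => by positivity
  have hQ : 0 ≤ σ.Q := by linarith [H.one_le_Q]
  have s1 := sum_le_sum (s := G) fun h hh => h1 X σ h U d k1 H hCs eH.ge eP.ge
    (eQ ▸ rpow_le_rpow_of_exponent_le hX1 (by linarith)) (mem_filter.1 hh).2 hU
  have s2 := s1.trans (sum_le_sum_of_subset_of_nonneg (filter_subset _ (range σ.nb))
    fun h _ _ => add_nonneg (mul_nonneg (by norm_num) (sum_nonneg fun _ _ => dis_nonneg _ _ _))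
      (by positivity))
  have e1 : ∑ h ∈ range σ.nb, ((σ.I h).card : ℝ) = σ.S.card := by
    have := H.sum_blk fun _ => (1 : ℝ)
    simpa using this
  rw [sum_add_distrib, ← mul_sum, H.sum_blk, ← sum_mul, ← mul_sum, ← sum_mul, ← sum_mul,
    ← sum_mul, ← sum_mul, ← mul_sum, e1] at s2
  have s3 := LSB_dis (fun v hv => LSB_om (by omega) H (by linarith) ha0 eP hv) U d
  have s4 : C1 * σ.S.card * σ.Q ^ 6 * X ^ (1 - 20 * b) * U.card ≤ X ^ (1 - b) := by
    calc _ ≤ X ^ (11 * b) * σ.Q * σ.Q ^ 6 * X ^ (1 - 20 * b) * X ^ b := by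
          gcongr
          exact H.card_le
      _ = _ := by
          rw [eQ, ← rpow_mul_natCast hXp.le, ← rpow_add hXp, ← rpow_add hXp, ← rpow_add hXp,
            ← rpow_add hXp]
          congr 1
          push_cast
          ring
  have s5 := mul_le_mul_of_nonneg_right s4 hD'
  have s6 := mul_le_mul_of_nonneg_right (mul_le_mul_of_nonneg_left hG
    (by positivity : 0 ≤ c1 * X)) hD
  have e2 : 8 / a = 4 * (2 / a) := by ring
  rw [e2]
  linarith

end Pool.Agent.P.MP_8be758_nt.Pd.G
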