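import Pool.Agent.P.MP_8be758_nt.Pd.IfP

/-! Step REP1. -/

namespace Pool.Agent.P.MP_8be758_nt.Pd.G

open Finset Real Filter
open Pool.Agent.P.MP_8be758_nt.Par (nq mul cj det io et)
open Pool.Agent.P.MP_8be758_nt.Avg (rho)
open Pool.Agent.P.MP_8be758_nt.Pd.Mr

theorem REP1_sq {m : ℕ} (hm : ¬IsSquare m) {x y : ℕ} (hx : x ∈ range (m.sqrt + 1))
    (hy : y ∈ range (m.sqrt + 1)) : ((x : ℤ) - y) ^ 2 < m := by
  have h4 : ((m.sqrt : ℤ)) ^ 2 < m := by
    rw [sq]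
    exact_mod_cast lt_of_le_of_ne (Nat.sqrt_le m) fun h => hm ⟨_, h.symm⟩
  rw [mem_range] at hx hy
  exact lt_of_le_of_lt (sq_le_sq' (by omega) (by omega)) h4

theorem REP1_nsq {m : ℕ} (hm : m % 4 = 3) : ¬IsSquare m := by
  rintro ⟨s, rfl⟩
  have : s % 4 < 4 := Nat.mod_lt _ four_pos
  rw [Nat.mul_mod] at hm
  interval_cases s % 4 <;> simp at hm

theorem REP1_rep {n p : ℕ} (hn : n % 4 = 3) (hp : p.Prime) (h : p ≡ 1 [MOD 4 * n]) :
    ∃ X Y Z : ℤ, Z ≠ 0 ∧ |Z| ≤ 2 * n ∧ X ^ 2 + n * Y ^ 2 = p * Z ^ 2 := by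
  have p4 : p % 4 = 1 := h.of_mul_right n
  have pn : p ≡ 1 [MOD n] := h.of_mul_left 4
  have := Fact.mk hp
  obtain ⟨r, hr⟩ := ZMod.isSquare_of_jacobiSym_eq_one (a := -n) (p := p) (by
    rw [neg_eq_neg_one_mul, jacobiSym.mul_left, jacobiSym.at_neg_one (Nat.odd_iff.2 (by omega)),
      ZMod.χ₄_nat_one_mod_four p4, ← jacobiSym.quadratic_reciprocity_one_mod_four p4
        (Nat.odd_iff.2 (by omega)), jacobiSym.mod_left' (a₂ := 1) (Int.natCast_modEq_iff.2 pn),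
      jacobiSym.one_left, one_mul])
  obtain ⟨r, rfl⟩ := ZMod.intCast_surjective r
  obtain ⟨k₂, hr⟩ := (ZMod.intCast_eq_intCast_iff_dvd_sub (-n) (r * r) p).1 (by simpa using hr)
  obtain ⟨k₁, hs⟩ := pn.symm.dvd
  have : NeZero n := ⟨by omega⟩
  obtain ⟨⟨x, y, z⟩, hx, ⟨x', y', z'⟩, hx', hne, he⟩ := exists_ne_map_eq_of_card_lt_of_maps_to
    (s := range ((n * p).sqrt + 1) ×ˢ range (p.sqrt + 1) ×ˢ range (n.sqrt + 1))
    (t := (univ : Finset (ZMod p × ZMod n))) (f := fun q : ℕ × ℕ × ℕ =>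
      (((q.1 - r * q.2.1 : ℤ) : ZMod p), ((q.1 - q.2.2 : ℤ) : ZMod n))) (by
      simp only [card_univ, Fintype.card_prod, ZMod.card, card_product, card_range]
      refine lt_of_mul_self_lt_mul_self₀ (Nat.zero_le _) ?_
      calc p * n * (p * n) = n * p * (p * n) := by ring
        _ < _ := Nat.mul_lt_mul'' (Nat.lt_succ_sqrt (n * p))
          (Nat.mul_lt_mul'' (Nat.lt_succ_sqrt p) (Nat.lt_succ_sqrt n))
        _ = _ := by simp only [Nat.succ_eq_add_one]; ring) fun _ _ => mem_univ _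
  simp only [mem_product] at hx hx'
  have b1 := REP1_sq (REP1_nsq (by rw [Nat.mul_mod, hn, p4])) hx.1 hx'.1
  have b2 := REP1_sq hp.not_isSquare hx.2.1 hx'.2.1
  have b3 := REP1_sq (REP1_nsq hn) hx.2.2 hx'.2.2
  obtain ⟨l₁, d1⟩ := (ZMod.intCast_eq_intCast_iff_dvd_sub _ _ _).1 (congrArg Prod.fst he).symm
  obtain ⟨l₂, d2⟩ := (ZMod.intCast_eq_intCast_iff_dvd_sub _ _ _).1 (congrArg Prod.snd he).symm
  have hne' : ¬((x : ℤ) - x' = 0 ∧ (y : ℤ) - y' = 0 ∧ (z : ℤ) - z' = 0) := fun h =>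
    hne (by rw [show x = x' by omega, show y = y' by omega, show z = z' by omega])
  have d1' : ((x : ℤ) - x') - r * (y - y') = p * l₁ := by linear_combination d1
  have d2' : ((x : ℤ) - x') - (z - z') = n * l₂ := by linear_combination d2
  generalize (x : ℤ) - x' = X at *
  generalize (y : ℤ) - y' = Y at *
  generalize (z : ℤ) - z' = Z at *
  obtain ⟨k, hk⟩ : (n : ℤ) * p ∣ X ^ 2 + n * Y ^ 2 - p * Z ^ 2 :=
    IsCoprime.mul_dvd ⟨-k₁, 1, by push_cast at hs; linear_combination hs⟩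
      ⟨Y ^ 2 + l₂ * (X + Z) - k₁ * Z ^ 2, by
        push_cast at hs
        linear_combination (X + Z) * d2' - Z ^ 2 * hs⟩
      ⟨l₁ * (X + r * Y) + k₂ * Y ^ 2 - Z ^ 2, by linear_combination (X + r * Y) * d1' + Y ^ 2 * hr⟩
  have hb0 : (0 : ℤ) < n := by omega
  have hc0 : (0 : ℤ) < p := by omega
  push_cast at b1
  have p1 := mul_lt_mul_of_pos_left b2 hb0
  have p2 := mul_lt_mul_of_pos_left b3 hc0
  have p3 : 0 ≤ n * Y ^ 2 := by positivity
  have p5 : 0 ≤ p * Z ^ 2 := by positivity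
  have k0 : -1 < k := lt_of_mul_lt_mul_left (a := (n : ℤ) * p) (by linarith [sq_nonneg X])
    (by positivity)
  have k2 : k < 2 := lt_of_mul_lt_mul_left (a := (n : ℤ) * p) (by linarith) (by positivity)
  obtain rfl | rfl : k = 0 ∨ k = 1 := by omega
  · refine ⟨X, Y, Z, fun hZ => hne' ⟨?_, ?_, hZ⟩, ?_, by linarith⟩
    · rw [hZ] at hk
      exact pow_eq_zero_iff two_ne_zero |>.1 (by linarith [sq_nonneg X])
    · rw [hZ] at hk
      exact pow_eq_zero_iff two_ne_zero |>.1 ((mul_eq_zero.1 (by linarith [sq_nonneg X])).resolve_left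
        hb0.ne')
    · rw [abs_le]
      constructor <;> nlinarith [sq_nonneg (Z - 1), sq_nonneg (Z + 1)]
  · exact ⟨X * Z + n * Y, Y * Z - X, Z ^ 2 + n, by positivity,
      by rw [abs_of_nonneg (by positivity)]; linarith,
      by linear_combination (Z ^ 2 + n) * hk⟩

theorem REP1_dvd {p c Z : ℕ} (hp : p.Prime) (hc : 0 < c) (h : c ^ 2 ∣ p * Z ^ 2) : c ∣ Z := by
  obtain ⟨a, b, hab, ha, hb⟩ := Nat.exists_coprime c Z
  have hg : 0 < Nat.gcd c Z := Nat.gcd_pos_of_pos_left _ hc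
  generalize Nat.gcd c Z = g at *
  subst ha hb
  have h1 : a ^ 2 ∣ p * b ^ 2 := by
    apply Nat.dvd_of_mul_dvd_mul_right (pow_pos hg 2)
    have e1 : a ^ 2 * g ^ 2 = (a * g) ^ 2 := by ring
    have e2 : p * b ^ 2 * g ^ 2 = p * (b * g) ^ 2 := by ring
    rw [e1, e2]
    exact h
  have h2 : a ^ 2 ∣ p := (Nat.Coprime.pow 2 2 hab).dvd_of_dvd_mul_right h1
  have h3 : a = 1 := Nat.isUnit_iff.1 (hp.prime.squarefree a (by simpa [sq] using h2))
  subst h3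
  exact Nat.mul_dvd_mul_right (one_dvd _) _

open Classical in

theorem p_REP1 :
    S_REP1 := by
  intro A p hA hp h
  obtain ⟨X, Y, Z, hZ, hZb, e⟩ := REP1_rep (n := 4 * A - 1) (by omega) hp h
  rw [Nat.cast_sub (by omega)] at e hZb
  push_cast at e hZb
  have e0 : nq A (X - Y, 2 * Y) = p * Z ^ 2 := by
    simp only [nq]
    linear_combination e
  have hp0 : (0 : ℤ) < p := by exact_mod_cast hp.pos
  have hne : 0 < Int.gcd (X - Y) (2 * Y) := by
    rw [Int.gcd_pos_iff]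
    by_contra hc
    push Not at hc
    rw [hc.1, hc.2] at e0
    simp only [nq] at e0
    have : 0 < (p : ℤ) * Z ^ 2 := by positivity
    linarith [e0]
  obtain ⟨c, a, b, hc0, hab, ha, hb⟩ := Int.exists_gcd_one' hne
  have e1 : nq A (a, b) * (c : ℤ) ^ 2 = p * Z ^ 2 := by
    rw [← e0, ha, hb]
    simp only [nq]
    ring
  have hd : c ^ 2 ∣ p * Z.natAbs ^ 2 := by
    have : ((c : ℤ)) ^ 2 ∣ p * Z ^ 2 := ⟨nq A (a, b), by linarith [e1]⟩
    have h2 := Int.natAbs_dvd_natAbs.2 this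
    simpa [Int.natAbs_mul, Int.natAbs_pow] using h2
  have hd2 : c ∣ Z.natAbs := REP1_dvd hp hc0 hd
  obtain ⟨W, hW⟩ := hd2
  have hZa : 0 < Z.natAbs := Int.natAbs_pos.2 hZ
  have hW0 : 0 < W := Nat.pos_of_ne_zero (by rintro rfl; omega)
  refine ⟨(a, b), W, Int.isCoprime_iff_gcd_eq_one.2 hab, ?_, hW0, ?_⟩
  · have hc : (c : ℤ) ^ 2 ≠ 0 := by positivity
    apply mul_right_cancel₀ hc
    rw [e1, ← Int.natAbs_sq Z, hW]
    push_cast
    ring
  · have h1 : W ≤ Z.natAbs := by rw [hW]; exact Nat.le_mul_of_pos_left _ hc0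
    have h2 : (Z.natAbs : ℤ) = |Z| := Int.natCast_natAbs Z
    omega

end Pool.Agent.P.MP_8be758_nt.Pd.G
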