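import Pool.Agent.P.MP_8be758_nt.Pd.IfP

/-! Step REP2. -/

namespace Pool.Agent.P.MP_8be758_nt.Pd.G

open Finset Real Filter
open Pool.Agent.P.MP_8be758_nt.Par (nq mul cj det io et)
open Pool.Agent.P.MP_8be758_nt.Avg (rho)
open Pool.Agent.P.MP_8be758_nt.Pd.Mr

theorem REP2_mul {A : ℕ} {u v : V2} (hu : Pr u) (hv : Pr v) (h : IsCoprime (nq A u) (nq A v)) :
    Pr (mul A u v) := by
  have key : ∀ (a b : V2) (c : ℤ), Pr b → c ∣ (mul A a b).1 → c ∣ (mul A a b).2 → c ∣ nq A a := by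
    intro a b c hb h1 h2
    refine dvd_of_dvd_smul hb ?_ ?_ <;> rw [← cj_mul_mul (A := A) a b] <;>
      generalize mul A a b = w at h1 h2 ⊢
    · exact (h1.mul_left _).sub (h2.mul_left _)
    · exact ((h2.mul_left _).add (h1.mul_left _)).add (h2.mul_left _)
  refine IsRelPrime.isCoprime fun c h1 h2 => h.isUnit_of_dvd' (key u v c hv h1 h2) ?_
  rw [mul_cm] at h1 h2
  exact key v u c hu h1 h2

theorem REP2_sq {A : ℕ} {m c : ℤ} (h : m = (4 * A - 1) * c) : Pr (mul A (1, m) (1, m)) := by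
  have e : mul A (1, m) (1, m) = (1 - A * m ^ 2, m * (2 + m)) := by
    simp only [mul, Prod.mk.injEq]; constructor <;> ring
  rw [e]
  refine IsCoprime.mul_right ⟨1, A * m, by ring⟩
    ⟨2 * A * c + 1, 2 * A - (2 * A * c + 1) * A * (2 - m), ?_⟩
  linear_combination (2 * A : ℤ) * h

open Classical in

theorem p_REP2 :
    S_REP2 := by
  intro A B hA
  obtain ⟨D, hD⟩ : ∃ D, 4 * A = D + 1 := ⟨4 * A - 1, by omega⟩
  obtain ⟨M, hM⟩ : ∃ M, M = D * B.factorial := ⟨_, rfl⟩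
  have hM1 : 1 ≤ M := hM ▸ Nat.mul_pos (by omega) B.factorial_pos
  obtain ⟨N, hN⟩ : ∃ N : ℕ → ℕ, ∀ k, N k = 1 + M * k + A * (M * k) ^ 2 := ⟨_, fun _ => rfl⟩
  have hN1 : ∀ k, 1 ≤ N k := fun k => by rw [hN]; omega
  refine ⟨(B + 1) * N 30, Nat.mul_pos B.succ_pos (hN1 _), fun d Z g hg hn hZ hZB hd => ?_⟩
  have hex : ∃ j, (B + 1) * N 30 ≤ Z * N (30 + j) := by
    refine ⟨(B + 1) * N 30, ?_⟩
    generalize (B + 1) * N 30 = j
    have h1 : 1 * (30 + j) ≤ M * (30 + j) := Nat.mul_le_mul_right _ hM1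
    have h2 : 1 * N (30 + j) ≤ Z * N (30 + j) := Nat.mul_le_mul_right _ hZ
    have h3 := hN (30 + j)
    omega
  have h1 := Nat.find_spec hex
  obtain ⟨i, hi⟩ : ∃ i, Nat.find hex = i + 1 := Nat.exists_eq_succ_of_ne_zero fun h0 => by
    rw [h0] at h1
    exact absurd h1 (not_le.2 (Nat.mul_lt_mul_of_pos_right (by omega) (hN1 _)))
  have h2 := not_le.1 (Nat.find_min hex (m := i) (by omega))
  rw [hi, ← add_assoc] at h1
  have hk : 30 ≤ 30 + i := Nat.le_add_right _ _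
  generalize 30 + i = k at h1 h2 hk
  have h3 : 10 * N (k + 1) ≤ 11 * N k := by
    have a1 : M * (10 * (k + 1)) ≤ M * (11 * k) := Nat.mul_le_mul_left _ (by omega)
    have a2 : A * M ^ 2 * (10 * (k + 1) ^ 2) ≤ A * M ^ 2 * (11 * k ^ 2) :=
      Nat.mul_le_mul_left _ (by nlinarith)
    rw [hN, hN]
    nlinarith
  have h4 : 10 * (Z * N (k + 1)) ≤ 11 * ((B + 1) * N 30) := by
    have := Nat.mul_le_mul_left Z h3
    nlinarith
  have c1 : (N (k + 1)).Coprime Z := by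
    obtain ⟨t, ht⟩ : Z ∣ M := hM ▸ (Nat.dvd_factorial hZ hZB).mul_left D
    rw [show N (k + 1) = 1 + Z * (t * (k + 1) + A * Z * (t * (k + 1)) ^ 2) by rw [hN, ht]; ring,
      Nat.coprime_add_mul_left_left]
    exact Nat.coprime_one_left Z
  have c2 : (N (k + 1)).Coprime d := Nat.coprime_of_dvd fun p hp p1 p2 => by
    have a1 := hd p hp p2
    have a2 := Nat.le_of_dvd (hN1 _) p1
    have a3 : 1 * N (k + 1) ≤ Z * N (k + 1) := Nat.mul_le_mul_right _ hZ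
    omega
  have e : nq A (1, ((M * (k + 1) : ℕ) : ℤ)) = N (k + 1) := by
    rw [hN]; simp only [nq]; push_cast; ring
  refine ⟨mul A g (mul A (1, ((M * (k + 1) : ℕ) : ℤ)) (1, ((M * (k + 1) : ℕ) : ℤ))), Z * N (k + 1),
    REP2_mul hg (REP2_sq (c := (B.factorial * (k + 1) : ℕ)) ?_) ?_, ?_, h1, h4⟩
  · have : (4 * A : ℤ) = D + 1 := by exact_mod_cast hD
    rw [hM, this]; push_cast; ring
  · rw [Par.nq_mul, e, hn]
    have := Nat.isCoprime_iff_coprime.2 ((c2.mul_right (c1.pow_right 2)).symm)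
    push_cast at this
    exact this.mul_right this
  · rw [Par.nq_mul, Par.nq_mul, e, hn]; push_cast; ring

end Pool.Agent.P.MP_8be758_nt.Pd.G
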