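import Pool.Agent.P.MP_8be758_nt.Pd.IfQ

/-! Step SGNE. -/

namespace Pool.Agent.P.MP_8be758_nt.Pd.G

open Finset Real Filter
open scoped Classical

theorem SGNE_one [CM] (hK4 : S_K4) {A : ℕ} (hA : 1 ≤ A) {x : VT} (h : x.Ok A) {Y σ : ℝ} (b0 : 0 < x.b)
    (b1 : (x.b : ℝ) ≤ 2 * Y) (hl : lam (x.P * x.R * x.a) ≠ σ) :
    ∃ n ∈ NBad A Y σ, x.b = 2 * (n : ℤ) + 1 := by
  obtain ⟨-, -, -, -, e1, e2, -⟩ := hK4 A x hA h
  obtain ⟨n, hn⟩ := Int.eq_ofNat_of_zero_le (show 0 ≤ x.n by omega)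
  rw [hn] at e1 e2
  refine ⟨n, mem_filter.2 ⟨mem_range.2 (Nat.lt_succ_of_le (Nat.le_floor ?_)), by rwa [e2]⟩, e1⟩
  rw [e1] at b1
  push_cast at b1
  linarith

theorem p_SGNE (hK4 : S_K4) (hTUP : S_TUP) : S_SGNE := by
  obtain ⟨c, hc⟩ := hTUP
  refine ⟨c, fun A C1 => ?_⟩
  obtain ⟨C, h1, h2⟩ := hc A C1
  refine ⟨C, h1, fun z zA zC big => (h2 z zA zC big).mono fun y hy {_} τ σ hτ hσ hb => ?_⟩
  set ρ : Pr := ⟨z, y⟩
  have hA : 1 ≤ ρ.A := le_trans (by norm_num) big.2.1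
  obtain ⟨ok, -, -, e, -, -, -, -, -, -, -, -, -, -, hv⟩ := hy τ hτ
  set x := ρ.cy τ
  obtain ⟨-, -, t0, s0, -, -, vok, -⟩ := hK4 ρ.A x hA ok
  obtain ⟨-, P0, R0, a0, f0, -⟩ := ok
  by_contra hn
  have all : ∀ i, lam ((x.v i).P * (x.v i).R * (x.v i).a) = σ := fun i => by_contra fun h =>
    hn ⟨i, SGNE_one hK4 hA (vok i) (hv i).1 (by linarith [(hv i).2]) h⟩
  have v0 : lam (x.Ns * x.Nt * x.a) = σ := all 0
  have v1 : lam (x.Ns * x.R * x.af) = σ := all 1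
  have v2 : lam (x.P * x.Nt * x.af) = σ := all 2
  have n0 : (ρ.fm τ.1).1 * (ρ.fm τ.1).2.2 ≠ 0 := e ▸ by positivity
  have bad : lam ((ρ.fm τ.1).1 * (ρ.fm τ.1).2.2) ≠ σ := by
    rw [lam_mul (left_ne_zero_of_mul n0) (right_ne_zero_of_mul n0)]
    exact (mem_filter.1 hb).2
  rw [← e] at bad
  rw [lam_mul (by positivity) (by positivity), lam_mul (by positivity) (by positivity)] at v0 v1 v2 bad
  refine bad ?_
  rcases lam_cases x.P with h1 | h1 <;> rcases lam_cases x.R with h2 | h2 <;>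
    rcases lam_cases x.a with h3 | h3 <;> rcases lam_cases x.af with h4 | h4 <;>
    rcases lam_cases x.Ns with h5 | h5 <;> rcases lam_cases x.Nt with h6 | h6 <;>
    simp only [h1, h2, h3, h4, h5, h6] at v0 v1 v2 ⊢ <;> linarith

end Pool.Agent.P.MP_8be758_nt.Pd.G
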