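import Pool.Agent.P.MP_8be758_nt.Pd.IfP

/-! Step ST2. -/

namespace Pool.Agent.P.MP_8be758_nt.Pd.G

open Finset Real Filter
open Pool.Agent.P.MP_8be758_nt.Pd.Mr

theorem ST2_log {A : ℕ} {σ : St} {μ : ℝ} (H : σ.OK A) (hμ : σ.Pm μ) {h : ℕ} (hh : h < σ.nb) :
    ∃ y, σ.Ph h = exp y ∧ μ ^ 8 ≤ y ∧ y ≤ μ ^ 10 :=
  ⟨log (σ.Ph h), (exp_log (H.Ph_pos h)).symm,
    (le_log_iff_exp_le (H.Ph_pos h)).2 (hμ.1 ▸ H.P_le_Ph h),
    (log_le_iff_le_exp (H.Ph_pos h)).2 (hμ.2.1 ▸ H.Ph_le_Q hh)⟩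

theorem p_ST2 (hST0 : S_ST0) (hMOM : S_MOM) (hPAR2 : S_PAR2) :
    S_ST2 := by
  intro A α hA hα
  obtain ⟨C0, hC0, h0⟩ := hST0 A hA
  obtain ⟨C, hC, hM⟩ := hMOM A hA
  have A2 : (2 : ℝ) ≤ A := by exact_mod_cast hA
  have hC' : 1 ≤ 128 * (A : ℝ) ^ 2 * C ^ 2 := by nlinarith [one_le_pow₀ (n := 2) hC]
  obtain ⟨μ1, hP⟩ := hPAR2 α _ hα hC'
  refine ⟨C0 + 1, μ1, by positivity, ?_⟩
  intro _ μ a a' X σ σ' K m1 H hCs H' pm pm' hE hX hQ a0 a1 ga hK hG
  have m2 : 2 ≤ μ := pm'.2.2 ▸ H'.2.2.2.2.1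
  set ν := μ ^ 2 with hν
  have n1 : μ ≤ ν := by nlinarith
  have n2 : 1 ≤ ν := by linarith
  have hQX : σ.Q ≤ X := hQ.trans (by
    simpa using rpow_le_rpow_of_exponent_le hX (show (1 / 40 : ℝ) ≤ 1 by norm_num))
  have key : ∀ h ∈ range σ.nb, ∑ k ∈ K, ‖σ.G A h k‖ ^ 2 * ‖FS A (σ.W A X h) k‖ ^ 2 ≤
      σ'.nb * (X ^ 2 * (1 / ν / (16 * ν ^ 28))) := by
    intro h hh
    obtain ⟨y, ey, y1, y2⟩ := ST2_log H pm (mem_range.1 hh)
    set l : ℕ → ℕ := fun h' => ⌈y / log (σ'.Ph h')⌉₊ with hl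
    have b1 : ∀ k ∈ K, ‖σ.G A h k‖ ^ 2 * ‖FS A (σ.W A X h) k‖ ^ 2 ≤ ∑ h' ∈ range σ'.nb,
        (exp y ^ (1 - a)) ^ 2 / (σ'.Ph h' ^ (1 - a')) ^ (2 * l h') *
          (‖σ'.G A h' k‖ ^ (2 * l h') * ‖FS A (σ.W A X h) k‖ ^ 2) := by
      intro k hk
      obtain ⟨h', hh'⟩ := not_forall.1 (hG k hk).2
      have p0 : 0 < σ'.Ph h' ^ (1 - a') := rpow_pos_of_pos (H'.Ph_pos h') _
      have p1 : h' < σ'.nb := by
        by_contra e
        rw [H'.G_eq_zero (not_lt.1 e), norm_zero] at hh'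
        exact hh' p0.le
      refine le_trans ?_ (single_le_sum (f := fun h' => _) (fun i _ => ?_) (mem_range.2 p1))
      · rw [← mul_assoc, div_mul_eq_mul_div, mul_div_assoc, ← div_pow]
        refine mul_le_mul_of_nonneg_right ?_ (by positivity)
        exact (pow_le_pow_left₀ (norm_nonneg _) (ey ▸ (hG k hk).1 h) 2).trans
          (le_mul_of_one_le_right (by positivity)
            (one_le_pow₀ ((one_le_div p0).2 (not_le.1 hh').le)))
      · have := H'.Ph_pos i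
        positivity
    refine (sum_le_sum b1).trans ?_
    rw [sum_comm]
    refine (sum_le_card_nsmul _ _ _ fun h' hh' => ?_).trans_eq (by rw [card_range, nsmul_eq_mul])
    obtain ⟨z, ez, z1, z2⟩ := ST2_log H' pm' (mem_range.1 hh')
    have z0 : 0 < z := lt_of_lt_of_le (by positivity) z1
    have y0 : 0 < y := lt_of_lt_of_le (by positivity) y1
    have el : l h' = ⌈y / z⌉₊ := by rw [hl]; simp only [ez, log_exp]
    set n := l h'
    have l1 : y ≤ n * z := (div_le_iff₀ z0).1 (el ▸ Nat.le_ceil _)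
    have l2 : n * z ≤ y + z := by
      have := (Nat.ceil_lt_add_one (show 0 ≤ y / z by positivity)).le
      rw [← el, div_add_one z0.ne', le_div_iff₀ z0] at this
      exact this
    have Y1 : 1 ≤ 8 * A * X / σ.Ph h := (one_le_div (H.Ph_pos h)).2
      ((H.Ph_le_Q (mem_range.1 hh)).trans (by nlinarith))
    have b2 := hM _ _ _ _ _ X _ n K (H'.blk_I h') (H.sm_W hA (by linarith) h) Y1 (by linarith) hK
    have b3 := hP ν y z n (m1.trans n1) y1 y2 (by rwa [hν, ← pow_mul]) (by rwa [hν, ← pow_mul]) l2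
    rw [← mul_sum]
    refine (mul_le_mul_of_nonneg_left b2 (by rw [ez]; positivity)).trans ?_
    rw [← le_div_iff₀' (by positivity)] at b3
    refine le_trans ?_ (mul_le_mul_of_nonneg_left b3 (sq_nonneg X))
    rw [ey, ez, ← exp_mul, ← exp_mul, ← exp_nat_mul, ← exp_nat_mul, ← exp_nat_mul, mul_pow C (exp z),
      ← exp_nat_mul]
    have c1 : 1 ≤ C ^ n := one_le_pow₀ hC
    have c2 : X ≤ C ^ n * exp (n * z) * (8 * A * X / exp y) := by
      have d1 : 1 ≤ exp (n * z) / exp y := (one_le_div (exp_pos _)).2 (exp_le_exp.2 l1)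
      have d2 : 1 ≤ C ^ n * (exp (n * z) / exp y) * (8 * A) :=
        one_le_mul_of_one_le_of_one_le (one_le_mul_of_one_le_of_one_le c1 d1) (by linarith)
      calc X ≤ C ^ n * (exp (n * z) / exp y) * (8 * A) * X := le_mul_of_one_le_left (by linarith) d2
        _ = _ := by ring
    have c3 : 128 * (A : ℝ) ^ 2 * C ^ n * (C * (n + 1)) ^ (n + 1) ≤
        (128 * (A : ℝ) ^ 2 * C ^ 2 * (n + 1)) ^ (n + 1) := by
      rw [show 128 * (A : ℝ) ^ 2 * C ^ 2 * (n + 1) = 128 * (A : ℝ) ^ 2 * C * (C * (n + 1)) by ring,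
        mul_pow _ (C * _), mul_pow _ C]
      gcongr
      · exact le_self_pow₀ (by nlinarith) (by omega)
      · omega
    have c4 : exp (2 * (y * (1 - a)) - 2 * n * (z * (1 - a')) + 2 * (n * z) - 2 * y) ≤
        exp (2 * z - 2 * (α / ν) * y) := exp_le_exp.2 (by
      nlinarith [mul_le_mul_of_nonneg_left l2 a0, mul_le_mul_of_nonneg_right ga y0.le,
        mul_le_mul_of_nonneg_right a1 z0.le])
    calc _ ≤ exp ((2 : ℕ) * (y * (1 - a))) / exp ((2 * n : ℕ) * (z * (1 - a'))) *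
          ((C * (n + 1)) ^ (n + 1) * (2 * (C ^ n * exp (n * z) * (8 * A * X / exp y))) *
            (8 * A * X / exp y) * exp (n * z)) := by
          gcongr
          linarith
      _ = X ^ 2 * (128 * (A : ℝ) ^ 2 * C ^ n * (C * (n + 1)) ^ (n + 1) *
          exp (2 * (y * (1 - a)) - 2 * n * (z * (1 - a')) + 2 * (n * z) - 2 * y)) := by
          rw [exp_sub, exp_add, exp_sub, two_mul (n * z : ℝ), two_mul y, exp_add, exp_add]
          push_cast
          field_simp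
          ring
      _ ≤ _ := by gcongr
  have f1 := (sum_le_card_nsmul _ _ _ key).trans_eq (by rw [card_range, nsmul_eq_mul])
  have f2 := H.nb_le pm
  have f3 : (σ'.nb : ℝ) ≤ 2 * ν ^ 6 := (H'.nb_le pm').trans (by
    rw [hν, ← pow_mul]
    gcongr
    · linarith
    · norm_num)
  have f4 := h0 σ X K H hCs hX hE (by
    rw [pm.2.2, pm.2.1]
    linarith [add_one_le_exp (ν ^ 10), le_self_pow₀ n2 (show 10 ≠ 0 by norm_num)]) hQ hK
  rw [pm.2.2] at f4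
  have f5 : 2 * σ.nb * (σ.nb * (σ'.nb * (X ^ 2 * (1 / ν / (16 * ν ^ 28))))) ≤ X ^ 2 * (1 / ν) :=
    calc _ ≤ 2 * (2 * ν ^ 11) * (2 * ν ^ 11 * (2 * ν ^ 6 * (X ^ 2 * (1 / ν / (16 * ν ^ 28))))) := by
          gcongr
      _ = _ := by field_simp; ring
  have f6 : 0 ≤ X ^ 2 * (1 / σ.E) := by positivity
  nlinarith [mul_le_mul_of_nonneg_left f1 (show (0 : ℝ) ≤ 2 * σ.nb by positivity)]

end Pool.Agent.P.MP_8be758_nt.Pd.G
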