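import Pool.Agent.P.MP_8be758_nt.Pd.IfP

/-! Step TOP. -/

namespace Pool.Agent.P.MP_8be758_nt.Pd.G

open Finset Real Filter
open ArithmeticFunction (cardFactors)
open Pool.Agent.P.MP_8be758_nt.Par (det)
open Pool.Agent.P.MP_8be758_nt.Avg (rho)

lemma TOP_one (hT : S_TRANSFER) {A : ℕ} (h1 : Odd A) (h3 : 3 ≤ A) {σ : ℝ} (hσ : σ = 1 ∨ σ = -1)
    {H : CM → ℝ → Prop} (hM : Many A σ H) : ∃ c D : ℝ, 0 < c ∧ 1 ≤ D ∧ ∀ᶠ N : ℕ in atTop,
      ∀ [i : CM], H i (N / D) → c * N ≤ (NBad A N σ).card := by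
  obtain ⟨C1, C3, η, X0, c1, c3, η0, h⟩ := hM
  obtain ⟨δ, C2, X1, δ0, c2, h'⟩ := hT A C1 η h1 h3 c1 η0
  have p3 : 0 < C3 := by linarith
  have p2 : 0 < C2 := by linarith
  have t : Tendsto (fun N : ℕ => (N : ℝ) / (C2 * C3)) atTop atTop :=
    tendsto_natCast_atTop_atTop.atTop_div_const (by positivity)
  refine ⟨δ / (C2 * C3 * C3), C2 * C3, by positivity, one_le_mul_of_one_le_of_one_le c2 c3, ?_⟩
  filter_upwards [t.eventually_ge_atTop X0, (t.atTop_div_const p3).eventually_ge_atTop X1]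
    with N n0 n1 _ hH
  obtain ⟨X', x1, x2, x3⟩ := h _ n0 hH
  have x4 := not_le.1 (mt (h' X' σ (n1.trans x1) hσ) (not_le.2 x3))
  have x5 : C2 * X' ≤ N := (mul_le_mul_of_nonneg_left x2 p2.le).trans_eq (by field_simp)
  have x6 : ((NBad A (C2 * X') σ).card : ℝ) ≤ (NBad A N σ).card := by
    refine Nat.cast_le.2 (card_le_card ?_)
    unfold NBad
    exact filter_subset_filter _ (range_subset_range.2 (Nat.succ_le_succ (Nat.floor_le_floor x5)))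
  calc _ = δ * ((N : ℝ) / (C2 * C3) / C3) := by field_simp
    _ ≤ δ * X' := mul_le_mul_of_nonneg_left x1 δ0.le
    _ ≤ _ := x4.le.trans x6

theorem p_TOP (hTRANSFER : S_TRANSFER) (hMR : S_MR) (hTRI : S_TRI) :
    S_TOP := by
  intro A θ h1 h3 hθ
  obtain ⟨t, t0, t1, t2⟩ : ∃ t : ℝ, 0 < t ∧ θ < t ∧ t < 1 / 2 :=
    ⟨(max θ 0 + 1 / 2) / 2, by linarith [le_max_right θ 0], by linarith [le_max_left θ 0],
      by linarith [max_lt hθ (show (0 : ℝ) < 1 / 2 by norm_num)]⟩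
  obtain ⟨c, D, c0, D1, hc⟩ := TOP_one hTRANSFER h1 h3 (Or.inl rfl) (hMR A t h1 h3 t2)
  obtain ⟨d, D', d0, -, hd⟩ := TOP_one hTRANSFER h1 h3 (Or.inr rfl) (hTRI A h1 h3)
  refine ⟨min c d, lt_min c0 d0, ?_⟩
  filter_upwards [hc, hd, eventually_gt_atTop 0, ((tendsto_rpow_atTop (sub_pos.2 t1)).comp
    tendsto_natCast_atTop_atTop).eventually_ge_atTop (D ^ t)] with N n1 n2 n3 n4 _ hN
  have N0 : (0 : ℝ) < N := by exact_mod_cast n3
  have D0 : 0 < D := by linarith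
  have e1 : (N : ℝ) ^ θ ≤ (N / D) ^ t := by
    rw [div_rpow N0.le D0.le, le_div_iff₀ (by positivity)]
    calc _ ≤ (N : ℝ) ^ θ * (N : ℝ) ^ (t - θ) := mul_le_mul_of_nonneg_left n4 (by positivity)
      _ = _ := by rw [← rpow_add N0, add_sub_cancel]
  exact ⟨(mul_le_mul_of_nonneg_right (min_le_left _ _) N0.le).trans
      (n1 fun p hp p1 p2 => hN p hp (e1.trans_lt p1) (p2.trans (div_le_self N0.le D1))),
    (mul_le_mul_of_nonneg_right (min_le_right _ _) N0.le).trans (n2 trivial)⟩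

end Pool.Agent.P.MP_8be758_nt.Pd.G
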