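import Pool.Agent.P.MP_8be758_nt.Pd.TKL4
import Pool.Agent.P.MP_8be758_nt.Pd.TKL
import Pool.Agent.P.MP_8be758_nt.Pd.TFI
import Pool.Agent.P.MP_8be758_nt.Pd.THYP
import Pool.Agent.P.MP_8be758_nt.Pd.THYPB
import Pool.Agent.P.MP_8be758_nt.Pd.TKROW
import Pool.Agent.P.MP_8be758_nt.Pd.TKST
import Pool.Agent.P.MP_8be758_nt.Pd.TLIFT
import Pool.Agent.P.MP_8be758_nt.Pd.TLAT
import Pool.Agent.P.MP_8be758_nt.Pd.TAREA
import Pool.Agent.P.MP_8be758_nt.Pd.TVEQ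
import Pool.Agent.P.MP_8be758_nt.Pd.TEQC
import Pool.Agent.P.MP_8be758_nt.Pd.TGCNT
import Pool.Agent.P.MP_8be758_nt.Pd.TEQ
import Pool.Agent.P.MP_8be758_nt.Pd.TNEQ
import Pool.Agent.P.MP_8be758_nt.Pd.TRINV
import Pool.Agent.P.MP_8be758_nt.Pd.TL1
import Pool.Agent.P.MP_8be758_nt.Pd.TL2
import Pool.Agent.P.MP_8be758_nt.Pd.TL3
import Pool.Agent.P.MP_8be758_nt.Pd.TFM1
import Pool.Agent.P.MP_8be758_nt.Pd.TWIN
import Pool.Agent.P.MP_8be758_nt.Pd.TML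
import Pool.Agent.P.MP_8be758_nt.Pd.TMER
import Pool.Agent.P.MP_8be758_nt.Pd.TLAM
import Pool.Agent.P.MP_8be758_nt.Pd.TTYP1
import Pool.Agent.P.MP_8be758_nt.Pd.TCRT
import Pool.Agent.P.MP_8be758_nt.Pd.TOK
import Pool.Agent.P.MP_8be758_nt.Pd.TTKE
import Pool.Agent.P.MP_8be758_nt.Pd.TTYP2
import Pool.Agent.P.MP_8be758_nt.Pd.TPROD
import Pool.Agent.P.MP_8be758_nt.Pd.TQCNT
import Pool.Agent.P.MP_8be758_nt.Pd.TTYP3
import Pool.Agent.P.MP_8be758_nt.Pd.TFLK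
import Pool.Agent.P.MP_8be758_nt.Pd.TMC
import Pool.Agent.P.MP_8be758_nt.Pd.TLB
import Pool.Agent.P.MP_8be758_nt.Pd.TGLH
import Pool.Agent.P.MP_8be758_nt.Pd.TGL
import Pool.Agent.P.MP_8be758_nt.Pd.TSUMF
import Pool.Agent.P.MP_8be758_nt.Pd.TBETA1
import Pool.Agent.P.MP_8be758_nt.Pd.TBETA2
import Pool.Agent.P.MP_8be758_nt.Pd.TBETA3
import Pool.Agent.P.MP_8be758_nt.Pd.TBETA4
import Pool.Agent.P.MP_8be758_nt.Pd.TTB
import Pool.Agent.P.MP_8be758_nt.Pd.TTYP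
import Pool.Agent.P.MP_8be758_nt.Pd.TMCA
import Pool.Agent.P.MP_8be758_nt.Pd.TALP
import Pool.Agent.P.MP_8be758_nt.Pd.TATC
import Pool.Agent.P.MP_8be758_nt.Pd.TK4
import Pool.Agent.P.MP_8be758_nt.Pd.TSDS
import Pool.Agent.P.MP_8be758_nt.Pd.TCYC
import Pool.Agent.P.MP_8be758_nt.Pd.TLOCID
import Pool.Agent.P.MP_8be758_nt.Pd.TLOWP
import Pool.Agent.P.MP_8be758_nt.Pd.TSVP
import Pool.Agent.P.MP_8be758_nt.Pd.TLOW
import Pool.Agent.P.MP_8be758_nt.Pd.TPAIRP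
import Pool.Agent.P.MP_8be758_nt.Pd.TPAIR
import Pool.Agent.P.MP_8be758_nt.Pd.TFMP
import Pool.Agent.P.MP_8be758_nt.Pd.TFM
import Pool.Agent.P.MP_8be758_nt.Pd.THU
import Pool.Agent.P.MP_8be758_nt.Pd.THI
import Pool.Agent.P.MP_8be758_nt.Pd.THO
import Pool.Agent.P.MP_8be758_nt.Pd.THS
import Pool.Agent.P.MP_8be758_nt.Pd.TFS
import Pool.Agent.P.MP_8be758_nt.Pd.TPS
import Pool.Agent.P.MP_8be758_nt.Pd.TPSA
import Pool.Agent.P.MP_8be758_nt.Pd.TCR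
import Pool.Agent.P.MP_8be758_nt.Pd.TND
import Pool.Agent.P.MP_8be758_nt.Pd.TPSB
import Pool.Agent.P.MP_8be758_nt.Pd.TRED
import Pool.Agent.P.MP_8be758_nt.Pd.TLOCW
import Pool.Agent.P.MP_8be758_nt.Pd.THLH
import Pool.Agent.P.MP_8be758_nt.Pd.TBXR
import Pool.Agent.P.MP_8be758_nt.Pd.TROOT
import Pool.Agent.P.MP_8be758_nt.Pd.THLV
import Pool.Agent.P.MP_8be758_nt.Pd.TBOX
import Pool.Agent.P.MP_8be758_nt.Pd.TCON2
import Pool.Agent.P.MP_8be758_nt.Pd.TCON3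
import Pool.Agent.P.MP_8be758_nt.Pd.THF
import Pool.Agent.P.MP_8be758_nt.Pd.THLM1
import Pool.Agent.P.MP_8be758_nt.Pd.TCON1
import Pool.Agent.P.MP_8be758_nt.Pd.THLM2
import Pool.Agent.P.MP_8be758_nt.Pd.THLM
import Pool.Agent.P.MP_8be758_nt.Pd.THLT
import Pool.Agent.P.MP_8be758_nt.Pd.TTSET
import Pool.Agent.P.MP_8be758_nt.Pd.TLATD
import Pool.Agent.P.MP_8be758_nt.Pd.TSQT
import Pool.Agent.P.MP_8be758_nt.Pd.THL
import Pool.Agent.P.MP_8be758_nt.Pd.TMB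
import Pool.Agent.P.MP_8be758_nt.Pd.TVAR
import Pool.Agent.P.MP_8be758_nt.Pd.TATS
import Pool.Agent.P.MP_8be758_nt.Pd.TGLOW
import Pool.Agent.P.MP_8be758_nt.Pd.TBAD
import Pool.Agent.P.MP_8be758_nt.Pd.TTUP
import Pool.Agent.P.MP_8be758_nt.Pd.GSGNE
import Pool.Agent.P.MP_8be758_nt.Pd.TVB
import Pool.Agent.P.MP_8be758_nt.Pd.TVERT
import Pool.Agent.P.MP_8be758_nt.Pd.TMINJ
import Pool.Agent.P.MP_8be758_nt.Pd.TFIB
import Pool.Agent.P.MP_8be758_nt.Pd.TMULT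
import Pool.Agent.P.MP_8be758_nt.Pd.TNSW
import Pool.Agent.P.MP_8be758_nt.Pd.TNK0
import Pool.Agent.P.MP_8be758_nt.Pd.TNK1
import Pool.Agent.P.MP_8be758_nt.Pd.TNKEY
import Pool.Agent.P.MP_8be758_nt.Pd.TCOVER
import Pool.Agent.P.MP_8be758_nt.Pd.TNP
import Pool.Agent.P.MP_8be758_nt.Pd.TNH
import Pool.Agent.P.MP_8be758_nt.Pd.TNF
import Pool.Agent.P.MP_8be758_nt.Pd.TNS1
import Pool.Agent.P.MP_8be758_nt.Pd.TNS2
import Pool.Agent.P.MP_8be758_nt.Pd.TNS3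
import Pool.Agent.P.MP_8be758_nt.Pd.TOWN
import Pool.Agent.P.MP_8be758_nt.Pd.TNPAIR
import Pool.Agent.P.MP_8be758_nt.Pd.TNSUM
import Pool.Agent.P.MP_8be758_nt.Pd.TNOFF
import Pool.Agent.P.MP_8be758_nt.Pd.TNCS
import Pool.Agent.P.MP_8be758_nt.Pd.TTYPES
import Pool.Agent.P.MP_8be758_nt.Pd.TNTY
import Pool.Agent.P.MP_8be758_nt.Pd.TNSTAR
import Pool.Agent.P.MP_8be758_nt.Pd.TSMB
import Pool.Agent.P.MP_8be758_nt.Pd.GMB2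
import Pool.Agent.P.MP_8be758_nt.Pd.GEND
import Pool.Agent.P.MP_8be758_nt.Pd.TFEJ
import Pool.Agent.P.MP_8be758_nt.Pd.TFAR
import Pool.Agent.P.MP_8be758_nt.Pd.GNEAR
import Pool.Agent.P.MP_8be758_nt.Pd.TCNT
import Pool.Agent.P.MP_8be758_nt.Pd.GEN
import Pool.Agent.P.MP_8be758_nt.Pd.TTHUE
import Pool.Agent.P.MP_8be758_nt.Pd.TSEL
import Pool.Agent.P.MP_8be758_nt.Pd.GSELC
import Pool.Agent.P.MP_8be758_nt.Pd.TMVT
import Pool.Agent.P.MP_8be758_nt.Pd.TMVP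
import Pool.Agent.P.MP_8be758_nt.Pd.TBIJ
import Pool.Agent.P.MP_8be758_nt.Pd.GRAM0
import Pool.Agent.P.MP_8be758_nt.Pd.GRAM1
import Pool.Agent.P.MP_8be758_nt.Pd.TDV
import Pool.Agent.P.MP_8be758_nt.Pd.TTK
import Pool.Agent.P.MP_8be758_nt.Pd.TMU2
import Pool.Agent.P.MP_8be758_nt.Pd.TRAM2
import Pool.Agent.P.MP_8be758_nt.Pd.GST0
import Pool.Agent.P.MP_8be758_nt.Pd.TMOMA
import Pool.Agent.P.MP_8be758_nt.Pd.TMOMB
import Pool.Agent.P.MP_8be758_nt.Pd.TMOMC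
import Pool.Agent.P.MP_8be758_nt.Pd.GMOM
import Pool.Agent.P.MP_8be758_nt.Pd.GST1
import Pool.Agent.P.MP_8be758_nt.Pd.TPAR2
import Pool.Agent.P.MP_8be758_nt.Pd.GST2
import Pool.Agent.P.MP_8be758_nt.Pd.TMOM
import Pool.Agent.P.MP_8be758_nt.Pd.TUB
import Pool.Agent.P.MP_8be758_nt.Pd.GSTG
import Pool.Agent.P.MP_8be758_nt.Pd.TSH0
import Pool.Agent.P.MP_8be758_nt.Pd.TSHF
import Pool.Agent.P.MP_8be758_nt.Pd.TES0
import Pool.Agent.P.MP_8be758_nt.Pd.TVD1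
import Pool.Agent.P.MP_8be758_nt.Pd.TCHN
import Pool.Agent.P.MP_8be758_nt.Pd.TSEG
import Pool.Agent.P.MP_8be758_nt.Pd.TSUBL
import Pool.Agent.P.MP_8be758_nt.Pd.TES1
import Pool.Agent.P.MP_8be758_nt.Pd.TES
import Pool.Agent.P.MP_8be758_nt.Pd.TPES
import Pool.Agent.P.MP_8be758_nt.Pd.TGRAM
import Pool.Agent.P.MP_8be758_nt.Pd.GLSA
import Pool.Agent.P.MP_8be758_nt.Pd.TPRA
import Pool.Agent.P.MP_8be758_nt.Pd.GPRB
import Pool.Agent.P.MP_8be758_nt.Pd.GPR2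
import Pool.Agent.P.MP_8be758_nt.Pd.TEQK
import Pool.Agent.P.MP_8be758_nt.Pd.TDV2
import Pool.Agent.P.MP_8be758_nt.Pd.TPRD
import Pool.Agent.P.MP_8be758_nt.Pd.TSIEV
import Pool.Agent.P.MP_8be758_nt.Pd.TNONC
import Pool.Agent.P.MP_8be758_nt.Pd.GLSB1
import Pool.Agent.P.MP_8be758_nt.Pd.GLSB
import Pool.Agent.P.MP_8be758_nt.Pd.GREP1
import Pool.Agent.P.MP_8be758_nt.Pd.GREP2
import Pool.Agent.P.MP_8be758_nt.Pd.GREP3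
import Pool.Agent.P.MP_8be758_nt.Pd.GFLA
import Pool.Agent.P.MP_8be758_nt.Pd.GPAP
import Pool.Agent.P.MP_8be758_nt.Pd.GPAP2
import Pool.Agent.P.MP_8be758_nt.Pd.GWCT
import Pool.Agent.P.MP_8be758_nt.Pd.GFLC
import Pool.Agent.P.MP_8be758_nt.Pd.GFLIP
import Pool.Agent.P.MP_8be758_nt.Pd.GLAST
import Pool.Agent.P.MP_8be758_nt.Pd.GMRM
import Pool.Agent.P.MP_8be758_nt.Pd.GTRI
import Pool.Agent.P.MP_8be758_nt.Pd.GTOP

/-! Assembly of all steps for a general sign function. -/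

namespace Pool.Agent.P.MP_8be758_nt.Pd

theorem b_KL4 : S_KL4 := p_KL4

theorem b_KL : S_KL := p_KL b_KL4

theorem b_FI : S_FI := p_FI

theorem b_HYP : S_HYP := p_HYP b_KL b_FI

theorem b_HYPB : S_HYPB := p_HYPB b_HYP

theorem b_KROW : S_KROW := p_KROW b_HYPB

theorem b_KST : S_KST := p_KST b_KROW

theorem b_LIFT : S_LIFT := p_LIFT

theorem b_LAT : S_LAT := p_LAT

theorem b_AREA : S_AREA := p_AREA

theorem b_VEQ : S_VEQ := p_VEQ b_LAT b_AREA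

theorem b_EQC : S_EQC := p_EQC b_KST b_LIFT b_VEQ

theorem b_GCNT : S_GCNT := p_GCNT b_AREA

theorem b_EQ : S_EQ := p_EQ b_EQC b_GCNT

theorem b_NEQ : S_NEQ := p_NEQ b_EQ b_GCNT

theorem b_RINV : S_RINV := p_RINV

theorem b_L1 : S_L1 := p_L1 b_RINV

theorem b_L2 : S_L2 := p_L2 b_RINV b_L1

theorem b_L3 : S_L3 := p_L3 b_RINV b_L1

theorem b_FM1 : S_FM1 := p_FM1 b_NEQ b_L1 b_L2 b_L3

theorem b_WIN : S_WIN := p_WIN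

theorem b_ML : S_ML := p_ML b_WIN

theorem b_MER : S_MER := p_MER

theorem b_LAM : S_LAM := p_LAM b_MER b_L1

theorem b_TYP1 : S_TYP1 := p_TYP1 b_FM1 b_ML b_LAM

theorem b_CRT : S_CRT := p_CRT

theorem b_OK : S_OK := p_OK b_CRT

theorem b_TKE : S_TKE := p_TKE b_OK b_NEQ b_L1

theorem b_TYP2 : S_TYP2 := p_TYP2 b_TKE b_LAM

theorem b_PROD : S_PROD := p_PROD

theorem b_QCNT : S_QCNT := p_QCNT b_OK b_PROD b_EQ b_GCNT b_L1 b_MER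

theorem b_TYP3 : S_TYP3 := p_TYP3 b_TKE b_MER b_QCNT b_L1

theorem b_FLK : S_FLK := p_FLK

theorem b_MC : S_MC := p_MC b_FLK b_PROD

theorem b_LB : S_LB := p_LB b_OK b_L1 b_L2

theorem b_GLH : S_GLH := p_GLH b_OK b_PROD b_L1 b_L2

theorem b_GL : S_GL := p_GL b_OK b_MC b_L1 b_LB b_GLH

theorem b_SUMF : S_SUMF := p_SUMF

theorem b_BETA1 : S_BETA1 := p_BETA1 b_WIN b_L1

theorem b_BETA2 : S_BETA2 := p_BETA2 b_SUMF

theorem b_BETA3 : S_BETA3 := p_BETA3 b_SUMF b_BETA2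

theorem b_BETA4 : S_BETA4 := p_BETA4 b_SUMF b_BETA1 b_BETA3 b_MER

theorem b_TB : S_TB := p_TB b_GL b_NEQ b_BETA4 b_LAM

theorem b_TYP : S_TYP := p_TYP b_TYP1 b_TYP2 b_TYP3 b_TB

theorem b_MCA : S_MCA := p_MCA b_OK b_PROD b_MC b_EQ

theorem b_ALP : S_ALP := p_ALP b_OK b_L1 b_L2 b_L3 b_LB

theorem b_ATC : S_ATC := p_ATC b_MCA b_ALP b_L1

theorem b_K4 : S_K4 := p_K4

theorem b_SDS : S_SDS := p_SDS b_LAM b_L1

theorem b_CYC : S_CYC := p_CYC b_SDS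

theorem b_LOCID : S_LOCID := p_LOCID b_K4 b_SDS b_CYC

theorem b_LOWP : S_LOWP := p_LOWP b_OK b_L1 b_L2 b_L3 b_LB b_ALP b_SDS

theorem b_SVP : S_SVP := p_SVP b_L1 b_LB b_SDS

theorem b_LOW : S_LOW := p_LOW b_MCA b_ATC b_LOCID b_LOWP b_SVP b_SDS b_L1 b_LAM

theorem b_PAIRP : S_PAIRP := p_PAIRP b_OK b_L1 b_L2 b_LB b_ALP

theorem b_PAIR : S_PAIR := p_PAIR b_MCA b_ATC b_LOCID b_PAIRP b_SVP b_SDS b_L1 b_L2 b_LAM

theorem b_FMP : S_FMP := p_FMP b_OK b_L1 b_LB b_ALP b_SDS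

theorem b_FM : S_FM := p_FM b_MCA b_ATC b_LOCID b_FMP b_SVP b_SDS b_L1 b_LAM

theorem b_HU : S_HU := p_HU b_OK b_MC

theorem b_HI : S_HI := p_HI b_HU b_LAM

theorem b_HO : S_HO := p_HO b_HU b_LAM

theorem b_HS : S_HS := p_HS b_HI b_HO

theorem b_FS : S_FS := p_FS b_FM b_SDS b_HS

theorem b_PS : S_PS := p_PS b_HI b_HO b_LAM

theorem b_PSA : S_PSA := p_PSA b_PS b_HS b_SDS b_LAM

theorem b_CR : S_CR := p_CR

theorem b_ND : S_ND := p_ND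

theorem b_PSB : S_PSB := p_PSB b_CR b_ND b_SDS b_LAM

theorem b_RED : S_RED := p_RED

theorem b_LOCW : S_LOCW := p_LOCW

theorem b_HLH : S_HLH := p_HLH

theorem b_BXR : S_BXR := p_BXR

theorem b_ROOT : S_ROOT := p_ROOT

theorem b_HLV : S_HLV := p_HLV b_BXR b_HLH

theorem b_BOX : S_BOX := p_BOX

theorem b_CON2 : S_CON2 := p_CON2 b_BOX

theorem b_CON3 : S_CON3 := p_CON3 b_BOX

theorem b_HF : S_HF := p_HF b_CON2 b_CON3 b_L1 b_OK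

theorem b_HLM1 : S_HLM1 := p_HLM1 b_OK b_PROD b_MC b_BOX b_CON2 b_HF

theorem b_CON1 : S_CON1 := p_CON1

theorem b_HLM2 : S_HLM2 := p_HLM2 b_BXR b_CON1 b_HF b_MER b_LAM

theorem b_HLM : S_HLM := p_HLM b_HLM1 b_HLM2 b_HF b_ML b_LAM

theorem b_HLT : S_HLT := p_HLT b_BXR b_ROOT b_HLH b_HLV b_HLM b_HF

theorem b_TSET : S_TSET := p_TSET b_OK b_PROD b_BOX b_MER b_LAM

theorem b_LATD : S_LATD := p_LATD

theorem b_SQT : S_SQT := p_SQT b_AREA b_LATD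

theorem b_HL : S_HL := p_HL b_RED b_LOCW b_HLH b_HLT b_TSET b_SQT b_BXR b_LAM

theorem b_MB : S_MB := p_MB b_HL b_HS b_SDS b_CYC b_LAM

theorem b_VAR : S_VAR := p_VAR b_LOW b_PAIR b_FS b_PSA b_PSB b_MB b_SDS b_CYC b_LAM

theorem b_ATS : S_ATS := p_ATS

theorem b_GLOW : S_GLOW := p_GLOW b_VAR b_MB b_ATS b_QCNT b_LAM

theorem b_BAD : S_BAD := p_BAD b_FS b_ATS b_QCNT b_LAM b_ML

theorem b_TUP : S_TUP := p_TUP b_K4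

theorem b_VB : S_VB := p_VB b_K4 b_TUP

theorem b_VERT : S_VERT := p_VERT b_K4 b_TUP b_VB

theorem b_MINJ : S_MINJ := p_MINJ b_TUP

theorem b_FIB : S_FIB := p_FIB

theorem b_MULT : S_MULT := p_MULT b_TUP b_VB b_MINJ b_FIB b_LAM

theorem b_NSW : S_NSW := p_NSW b_K4 b_TUP b_VB b_MULT

theorem b_NK0 : S_NK0 := p_NK0 b_K4

theorem b_NK1 : S_NK1 := p_NK1 b_K4 b_NK0

theorem b_NKEY : S_NKEY := p_NKEY b_NK0 b_NK1

theorem b_COVER : S_COVER := p_COVER b_RED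

theorem b_NP : S_NP := p_NP b_GL b_LAM

theorem b_NH : S_NH := p_NH b_LAM b_L1

theorem b_NF : S_NF := p_NF

theorem b_NS1 : S_NS1 := p_NS1 b_HS b_PS b_NF

theorem b_NS2 : S_NS2 := p_NS2 b_CR b_ND

theorem b_NS3 : S_NS3 := p_NS3 b_NH b_NS1 b_NS2 b_LAM

theorem b_OWN : S_OWN := p_OWN

theorem b_NPAIR : S_NPAIR := p_NPAIR b_NP b_NS3 b_OWN

theorem b_NSUM : S_NSUM := p_NSUM b_SUMF b_MER b_LAM

theorem b_NOFF : S_NOFF := p_NOFF b_NK0 b_NKEY b_COVER b_NPAIR b_NEQ b_NSUM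

theorem b_NCS : S_NCS := p_NCS

theorem b_TYPES : S_TYPES := p_TYPES

theorem b_NTY : S_NTY := p_NTY b_K4 b_NK0 b_TYPES

theorem b_NSTAR : S_NSTAR := p_NSTAR b_NOFF b_NCS b_NTY

theorem b_SMB : S_SMB := p_SMB b_K4 b_TUP b_VERT b_NSW b_NSTAR

theorem b_FEJ : S_FEJ := p_FEJ

theorem b_FAR : S_FAR := p_FAR b_FEJ

theorem b_CNT : S_CNT := p_CNT b_LAT b_AREA

theorem b_THUE : S_THUE := p_THUE b_RED

theorem b_SEL : S_SEL := p_SEL b_THUE b_MER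

theorem b_MVT : S_MVT := p_MVT

theorem b_MVP : S_MVP := p_MVP b_MVT

theorem b_BIJ : S_BIJ := p_BIJ

theorem b_DV : S_DV := p_DV

theorem b_TK : S_TK := p_TK b_OK b_DV

theorem b_MU2 : S_MU2 := p_MU2 b_AREA

theorem b_RAM2 : S_RAM2 := p_RAM2 b_TK b_MU2 b_VEQ b_AREA

theorem b_MOMA : S_MOMA := p_MOMA

theorem b_MOMB : S_MOMB := p_MOMB b_MOMA b_LATD

theorem b_MOMC : S_MOMC := p_MOMC

theorem b_PAR2 : S_PAR2 := p_PAR2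

theorem b_MOM : S_MOM := p_MOM b_MVT b_MOMB b_MOMC

theorem b_UB : S_UB := p_UB b_MOM

theorem b_SH0 : S_SH0 := p_SH0 b_AREA

theorem b_SHF : S_SHF := p_SHF b_SH0 b_AREA

theorem b_ES0 : S_ES0 := p_ES0 b_SHF b_FEJ

theorem b_VD1 : S_VD1 := p_VD1

theorem b_CHN : S_CHN := p_CHN

theorem b_SEG : S_SEG := p_SEG b_VD1 b_CHN

theorem b_SUBL : S_SUBL := p_SUBL

theorem b_ES1 : S_ES1 := p_ES1 b_SEG b_SUBL b_SH0 b_AREA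

theorem b_ES : S_ES := p_ES b_ES0 b_ES1 b_AREA

theorem b_PES : S_PES := p_PES b_ES b_AREA

theorem b_GRAM : S_GRAM := p_GRAM

theorem b_PRA : S_PRA := p_PRA b_OK b_DV b_VEQ b_CNT

theorem b_EQK : S_EQK := p_EQK b_ES b_LAT b_FEJ

theorem b_DV2 : S_DV2 := p_DV2

theorem b_PRD : S_PRD := p_PRD b_MER

theorem b_SIEV : S_SIEV := p_SIEV b_OK b_MC b_EQK b_DV2 b_PRD b_AREA

theorem b_NONC : S_NONC := p_NONC b_FEJ b_SIEV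

theorem g_SGNE : G.S_SGNE := G.p_SGNE b_K4 b_TUP

theorem g_MB2 : G.S_MB2 := G.p_MB2 g_SGNE b_SMB

theorem g_TRANSFER : G.S_TRANSFER := G.p_END b_TYP b_GLOW b_BAD g_MB2

theorem g_NEAR : G.S_NEAR := G.p_NEAR

theorem g_EN : G.S_EN := G.p_EN b_FEJ b_FAR g_NEAR b_CNT

theorem g_SELC : G.S_SELC := G.p_SELC b_SEL

theorem g_RAM0 : G.S_RAM0 := G.p_RAM0 b_BIJ

theorem g_RAM1 : G.S_RAM1 := G.p_RAM1 g_RAM0

theorem g_ST0 : G.S_ST0 := G.p_ST0 b_MVP g_RAM1 b_RAM2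

theorem g_MOM : G.S_MOM := G.p_MOM b_MVT b_MOMB b_MOMC

theorem g_ST1 : G.S_ST1 := G.p_ST1 g_ST0 g_MOM

theorem g_ST2 : G.S_ST2 := G.p_ST2 g_ST0 g_MOM b_PAR2

theorem g_STG : G.S_STG := G.p_STG g_SELC g_ST1 g_ST2 b_UB

theorem g_LSA : G.S_LSA := G.p_LSA b_PES b_GRAM b_CNT

theorem g_PRB : G.S_PRB := G.p_PRB b_BIJ

theorem g_PR2 : G.S_PR2 := G.p_PR2 b_PRA g_PRB b_PES b_GRAM

theorem g_LSB1 : G.S_LSB1 := G.p_LSB1 g_PR2 b_NONC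

theorem g_LSB : G.S_LSB := G.p_LSB g_SELC g_LSB1

theorem g_REP1 : G.S_REP1 := G.p_REP1

theorem g_REP2 : G.S_REP2 := G.p_REP2

theorem g_REP3 : G.S_REP3 := G.p_REP3 g_REP1

theorem g_FLA : G.S_FLA := G.p_FLA g_REP1 g_REP2 g_REP3

theorem g_PAP : G.S_PAP := G.p_PAP

theorem g_PAP2 : G.S_PAP2 := G.p_PAP2 g_PAP

theorem g_WCT : G.S_WCT := G.p_WCT b_VEQ b_CNT

theorem g_FLC : G.S_FLC := G.p_FLC g_FLA g_PAP g_PAP2 g_WCT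

theorem g_FLIP : G.S_FLIP := G.p_FLIP g_FLC b_AREA

theorem g_LAST : G.S_LAST := G.p_LAST g_LSA g_LSB g_FLIP b_AREA b_CNT

theorem g_MR : G.S_MR := G.p_MR g_EN g_STG g_LAST b_CNT

theorem g_TRI : G.S_TRI := G.p_TRI b_CNT

theorem g_TOP : G.S_TOP := G.p_TOP g_TRANSFER g_MR g_TRI

end Pool.Agent.P.MP_8be758_nt.Pd
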