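import Pool.Agent.P.MP_8be758_nt.Pd.IfP

/-! Step REP3. -/

namespace Pool.Agent.P.MP_8be758_nt.Pd.G

open Finset Real Filter
open Pool.Agent.P.MP_8be758_nt.Par (nq mul cj det io et)
open Pool.Agent.P.MP_8be758_nt.Avg (rho)
open Pool.Agent.P.MP_8be758_nt.Pd.Mr

theorem REP3_dvd {c d W : ℕ} (hc : 0 < c) (hd : Squarefree d) (h : c ^ 2 ∣ d * W ^ 2) : c ∣ W := by
  have hg : 0 < Nat.gcd c W := Nat.gcd_pos_of_pos_left _ hc
  obtain ⟨c', W', hco, h1, h2⟩ := Nat.exists_coprime c W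
  set g := Nat.gcd c W
  have h3 : c' ^ 2 ∣ d * W' ^ 2 := by
    rw [h1, h2, mul_pow, mul_pow, ← mul_assoc] at h
    exact Nat.dvd_of_mul_dvd_mul_right (by positivity) h
  have h4 : c' ^ 2 ∣ d := (Nat.Coprime.pow 2 2 hco).dvd_of_dvd_mul_right h3
  have h5 : c' = 1 := Nat.isUnit_iff.1 (hd c' (by rwa [← pow_two]))
  rw [h1, h2, h5, one_mul]
  exact Dvd.intro_left _ rfl

open Classical in

theorem p_REP3 (hREP1 : S_REP1) :
    S_REP3 := by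
  intro A p q hA hp hq hpq hp1 hq1
  obtain ⟨g1, Z1, a1, b1, c1, d1⟩ := hREP1 A p hA hp hp1
  obtain ⟨g2, Z2, a2, b2, c2, d2⟩ := hREP1 A q hA hq hq1
  have hn : nq A (mul A g1 g2) = (p * q : ℕ) * ((Z1 * Z2 : ℕ) : ℤ) ^ 2 := by
    rw [Par.nq_mul, b1, b2]; push_cast; ring
  have hpos : 0 < p * q := Nat.mul_pos hp.pos hq.pos
  have hZ : 0 < Z1 * Z2 := Nat.mul_pos c1 c2
  have hne : mul A g1 g2 ≠ 0 := by
    intro h
    rw [h] at hn
    have h1 : (0 : ℤ) < (p * q : ℕ) * ((Z1 * Z2 : ℕ) : ℤ) ^ 2 := by positivity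
    rw [← hn] at h1
    simp [nq] at h1
  obtain ⟨u, hu, e⟩ := exists_pr hne
  set c := Int.gcd (mul A g1 g2).1 (mul A g1 g2).2 with hc
  have hc0 : 0 < c := by
    rcases Nat.eq_zero_or_pos c with h | h
    · rw [h] at e
      exact absurd (by simpa using e) hne
    · exact h
  rw [e, Par.nq_smul] at hn
  have hsq : Squarefree (p * q) :=
    (Nat.squarefree_mul ((Nat.coprime_primes hp hq).2 hpq)).2 ⟨hp.squarefree, hq.squarefree⟩
  have hd : c ^ 2 ∣ p * q * (Z1 * Z2) ^ 2 := by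
    have h1 : ((c ^ 2 : ℕ) : ℤ) ∣ ((p * q * (Z1 * Z2) ^ 2 : ℕ) : ℤ) :=
      ⟨nq A u, by rw [Nat.cast_pow, hn, Nat.cast_mul (p * q), Nat.cast_pow]⟩
    exact Int.natCast_dvd_natCast.1 h1
  obtain ⟨Z, hZe⟩ := REP3_dvd hc0 hsq hd
  have hZ0 : 0 < Z := by
    rcases Nat.eq_zero_or_pos Z with h | h
    · rw [h, mul_zero] at hZe; omega
    · exact h
  refine ⟨u, Z, hu, ?_, hZ0, ?_⟩
  · have h1 : ((c : ℤ)) ^ 2 ≠ 0 := by positivity
    refine mul_left_cancel₀ h1 ?_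
    rw [hn, hZe]; push_cast; ring
  · calc Z ≤ c * Z := Nat.le_mul_of_pos_left _ hc0
      _ = Z1 * Z2 := hZe.symm
      _ ≤ 8 * A * (8 * A) := Nat.mul_le_mul d1 d2
      _ = 64 * A ^ 2 := by ring

end Pool.Agent.P.MP_8be758_nt.Pd.G
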