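import Pool.Agent.P.MP_8be758_nt.Pd.If0

/-! Step TOP. -/

namespace Pool.Agent.P.MP_8be758_nt.Pd

open Finset Real Filter
open ArithmeticFunction (cardFactors)
open Pool.Agent.P.MP_8be758_nt.Par (det)
open Pool.Agent.P.MP_8be758_nt.Avg (rho)

lemma TOP_one (hT : S_TRANSFER) {A : ℕ} (h1 : Odd A) (h3 : 3 ≤ A) {σ : ℝ} (hσ : σ = 1 ∨ σ = -1)
    (hM : Many A σ) : ∃ c : ℝ, 0 < c ∧ ∀ᶠ N : ℕ in atTop, c * N ≤ (NBad A N σ).card := by
  obtain ⟨C1, C3, η, X0, c1, c3, η0, h⟩ := hM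
  obtain ⟨δ, C2, X1, δ0, c2, h'⟩ := hT A C1 η h1 h3 c1 η0
  have p3 : 0 < C3 := by linarith
  have p2 : 0 < C2 := by linarith
  have t : Tendsto (fun N : ℕ => (N : ℝ) / (C2 * C3)) atTop atTop :=
    tendsto_natCast_atTop_atTop.atTop_div_const (by positivity)
  refine ⟨δ / (C2 * C3 * C3), by positivity, ?_⟩
  filter_upwards [t.eventually_ge_atTop X0, (t.atTop_div_const p3).eventually_ge_atTop X1]
    with N n0 n1
  obtain ⟨X', x1, x2, x3⟩ := h _ n0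
  have x4 := not_le.1 (mt (h' X' σ (n1.trans x1) hσ) (not_le.2 x3))
  have x5 : C2 * X' ≤ N := (mul_le_mul_of_nonneg_left x2 p2.le).trans_eq (by field_simp)
  have x6 : ((NBad A (C2 * X') σ).card : ℝ) ≤ (NBad A N σ).card := by
    refine Nat.cast_le.2 (card_le_card ?_)
    unfold NBad
    exact filter_subset_filter _ (range_subset_range.2 (Nat.succ_le_succ (Nat.floor_le_floor x5)))
  calc _ = δ * ((N : ℝ) / (C2 * C3) / C3) := by field_simp
    _ ≤ δ * X' := mul_le_mul_of_nonneg_left x1 δ0.le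
    _ ≤ _ := x4.le.trans x6

lemma TOP_lam (A n : ℕ) : lam ((n : ℤ) ^ 2 + n + A) = (-1) ^ cardFactors (n ^ 2 + n + A) := by
  rw [lam, show ((n : ℤ) ^ 2 + n + A) = ((n ^ 2 + n + A : ℕ) : ℤ) by push_cast; rfl,
    Int.natAbs_natCast]

theorem p_TOP (hTRANSFER : S_TRANSFER) (hMR : S_MR) (hTRI : S_TRI) :
    S_TOP := by
  intro A h1 h3
  obtain ⟨c, c0, hc⟩ := TOP_one hTRANSFER h1 h3 (Or.inl rfl) (hMR A h1 h3)
  obtain ⟨d, d0, hd⟩ := TOP_one hTRANSFER h1 h3 (Or.inr rfl) (hTRI A h1 h3)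
  refine ⟨min c d, lt_min c0 d0, ?_⟩
  filter_upwards [hc, hd] with N n1 n2
  have N0 : (0 : ℝ) ≤ N := Nat.cast_nonneg N
  refine ⟨((mul_le_mul_of_nonneg_right (min_le_left _ _) N0).trans n1).trans
    (Nat.cast_le.2 (card_le_card fun n hn => ?_)),
    ((mul_le_mul_of_nonneg_right (min_le_right _ _) N0).trans n2).trans
    (Nat.cast_le.2 (card_le_card fun n hn => ?_))⟩ <;>
  simp only [NBad, mem_filter, Nat.floor_natCast, TOP_lam] at hn ⊢
  · exact ⟨hn.1, Nat.not_even_iff_odd.1 fun h => hn.2 h.neg_one_pow⟩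
  · exact ⟨hn.1, Nat.not_odd_iff_even.1 fun h => hn.2 h.neg_one_pow⟩

end Pool.Agent.P.MP_8be758_nt.Pd
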